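import Pool.Agent.Work.MP_217185_an.Wirt

/-! # WDb1: basic properties of weak derivatives

* `of_contDiffOn`: `integral_mul_dz`.
* `unique`: Mathlib `IsOpen.ae_eq_zero_of_integral_contDiff_smul_eq_zero` (fundamental lemma of the
  calculus of variations; a complex function tested against real test functions, or against
  complex ones; a real bump `g` gives the test function `z ↦ (g z : ℂ)`).
* `conj`: conjugate the test functions (`dz_conj`).
* `of_local`: smooth partition of unity on the compact set `tsupport φ`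
  (`SmoothPartitionOfUnity` or a finite cover by balls and bump functions); `dz (∑ ψ_i φ) =
  ∑ dz (ψ_i φ)`.
* `of_bdd`: let `φ ∈ Test U`.  `∫ f dz φ = lim ∫ f_n dz φ = - lim ∫ a_n φ`, so the functional
  `φ ↦ ∫ f dz φ` is bounded by `C ‖φ‖_{L²}` on test functions supported in a fixed compact set
  `K ⊆ U`.  Exhaust `U` by relatively compact open sets `U_j`; on each `U_j` the functional extends
  to `L²(U_j)` (Hahn-Banach / extension to the closure) and is represented by a function (Riesz);
  the representing functions agree on overlaps by the uniqueness lemma, glue them. -/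

open MeasureTheory Complex Set Metric Filter
open scoped Topology ENNReal NNReal ContDiff ComplexConjugate

namespace QC

private theorem wdb1_lif {U : Set ℂ} (hU : IsOpen U) {a : ℂ → ℂ} (h : L2loc U a) :
    LocallyIntegrableOn a U := by
  rw [locallyIntegrableOn_iff hU.isLocallyClosed]
  intro K hK hKc
  have : IsFiniteMeasure (volume.restrict K) := ⟨by simpa using hKc.measure_lt_top⟩
  exact (h K hK hKc).integrable (by norm_num)

private theorem wdb1_int {U : Set ℂ} (hU : IsOpen U) {f g : ℂ → ℂ}
    (hf : LocallyIntegrableOn f U) (hg : Continuous g) (hc : HasCompactSupport g)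
    (hs : tsupport g ⊆ U) : Integrable (fun z => f z * g z) := by
  have h1 : IntegrableOn f (tsupport g) :=
    (locallyIntegrableOn_iff hU.isLocallyClosed).1 hf _ hs hc
  have h2 : IntegrableOn (fun z => f z * g z) (tsupport g) :=
    h1.mul_continuousOn hg.continuousOn hc
  refine (integrableOn_iff_integrable_of_support_subset ?_).1 h2
  intro z hz
  apply subset_tsupport g
  intro h0
  exact hz (by simp [h0])

private theorem wdb1_intdz {U : Set ℂ} (hU : IsOpen U) {f φ : ℂ → ℂ}
    (hf : LocallyIntegrableOn f U) (hφ : Test U φ) :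
    Integrable (fun z => f z * dz φ z) ∧ Integrable (fun z => f z * dzb φ z) ∧
    Integrable (fun z => f z * φ z) :=
  ⟨wdb1_int hU hf hφ.dz.1.smooth.continuous hφ.dz.1.cpt hφ.dz.1.sub,
   wdb1_int hU hf hφ.dz.2.smooth.continuous hφ.dz.2.cpt hφ.dz.2.sub,
   wdb1_int hU hf hφ.smooth.continuous hφ.cpt hφ.sub⟩

private theorem wdb1_ae {U : Set ℂ} (hU : IsOpen U) {f f' : ℂ → ℂ}
    (h : f =ᵐ[volume.restrict U] f') {g : ℂ → ℂ} (hs : tsupport g ⊆ U) :
    ∫ z, f z * g z = ∫ z, f' z * g z := by
  refine integral_congr_ae ?_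
  have h' := (ae_restrict_iff' hU.measurableSet).1 h
  filter_upwards [h'] with z hz
  by_cases hzU : z ∈ U
  · rw [hz hzU]
  · have : g z = 0 := by
      by_contra h0
      exact hzU (hs (subset_tsupport g h0))
    simp [this]

private theorem wdb1_L2ae {U : Set ℂ} {a a' : ℂ → ℂ}
    (h : a =ᵐ[volume.restrict U] a') (ha : L2loc U a) : L2loc U a' := by
  intro K hK hKc
  refine (ha K hK hKc).ae_eq ?_
  exact ae_mono (Measure.restrict_mono hK le_rfl) h

theorem WD.of_contDiffOn {U : Set ℂ} (hU : IsOpen U) {f : ℂ → ℂ} (hf : ContDiffOn ℝ 1 f U) :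
    WD U f (dz f) (dzb f) := by
  have hfd : ContinuousOn (fderiv ℝ f) U := hf.continuousOn_fderiv_of_isOpen hU le_rfl
  have hA : ContinuousOn (dz f) U := by
    unfold dz
    have h1 : ContinuousOn (fun z => fderiv ℝ f z 1) U := hfd.clm_apply continuousOn_const
    have h2 : ContinuousOn (fun z => fderiv ℝ f z I) U := hfd.clm_apply continuousOn_const
    exact (h1.sub (continuousOn_const.mul h2)).div_const _
  have hB : ContinuousOn (dzb f) U := by
    unfold dzb
    have h1 : ContinuousOn (fun z => fderiv ℝ f z 1) U := hfd.clm_apply continuousOn_const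
    have h2 : ContinuousOn (fun z => fderiv ℝ f z I) U := hfd.clm_apply continuousOn_const
    exact (h1.add (continuousOn_const.mul h2)).div_const _
  have hL : ∀ g : ℂ → ℂ, ContinuousOn g U → L2loc U g := by
    intro g hg K hK hKc
    have : IsFiniteMeasure (volume.restrict K) := ⟨by simpa using hKc.measure_lt_top⟩
    obtain ⟨C, hC⟩ := hKc.exists_bound_of_continuousOn (hg.mono hK)
    refine MemLp.of_bound ((hg.mono hK).aestronglyMeasurable hKc.measurableSet) C ?_
    exact (ae_restrict_iff' hKc.measurableSet).2 (Eventually.of_forall hC)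
  refine ⟨hf.continuousOn.locallyIntegrableOn hU.measurableSet, hL _ hA, hL _ hB, ?_, ?_⟩
  · intro φ hφ
    exact (integral_mul_dz hU hf (hφ.smooth.of_le (by norm_cast)) hφ.cpt hφ.sub).1
  · intro φ hφ
    exact (integral_mul_dz hU hf (hφ.smooth.of_le (by norm_cast)) hφ.cpt hφ.sub).2

theorem WD.mono {U V : Set ℂ} (hV : IsOpen V) (hUV : V ⊆ U) {f a b : ℂ → ℂ} (h : WD U f a b) :
    WD V f a b := by
  refine ⟨h.lif.mono_set hUV, fun K hK => h.la K (hK.trans hUV),
    fun K hK => h.lb K (hK.trans hUV), ?_, ?_⟩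
  · intro φ hφ
    exact h.da φ ⟨hφ.smooth, hφ.cpt, hφ.sub.trans hUV⟩
  · intro φ hφ
    exact h.db φ ⟨hφ.smooth, hφ.cpt, hφ.sub.trans hUV⟩

private theorem wdb1_uniq {U : Set ℂ} (hU : IsOpen U) {a a' : ℂ → ℂ} (ha : L2loc U a)
    (ha' : L2loc U a') (h : ∀ φ, Test U φ → ∫ z, a z * φ z = ∫ z, a' z * φ z) :
    a =ᵐ[volume.restrict U] a' := by
  have hl := wdb1_lif hU ha
  have hl' := wdb1_lif hU ha'
  have key : ∀ᵐ z ∂(volume : Measure ℂ), z ∈ U → a z - a' z = 0 := by
    refine hU.ae_eq_zero_of_integral_contDiff_smul_eq_zero (hl.sub hl') ?_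
    intro g hg hgc hgs
    have ht : Test U (fun z => (g z : ℂ)) := by
      refine ⟨ofRealCLM.contDiff.comp hg, ?_, ?_⟩
      · exact hgc.comp_left (g := fun x : ℝ => (x : ℂ)) (by simp)
      · refine (closure_mono ?_).trans hgs
        intro z hz h0
        exact hz (by simp [h0])
    have e := h _ ht
    have i1 := (wdb1_intdz hU hl ht).2.2
    have i2 := (wdb1_intdz hU hl' ht).2.2
    have : ∀ z, g z • (a z - a' z) = a z * (g z : ℂ) - a' z * (g z : ℂ) := by
      intro z
      rw [Complex.real_smul]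
      ring
    simp only [Pi.sub_apply, this]
    rw [integral_sub i1 i2, e, sub_self]
  rw [Filter.EventuallyEq, ae_restrict_iff' hU.measurableSet]
  filter_upwards [key] with z hz hzU
  exact sub_eq_zero.1 (hz hzU)

theorem WD.unique {U : Set ℂ} (hU : IsOpen U) {f a b a' b' : ℂ → ℂ} (h : WD U f a b)
    (h' : WD U f a' b') :
    a =ᵐ[volume.restrict U] a' ∧ b =ᵐ[volume.restrict U] b' := by
  refine ⟨wdb1_uniq hU h.la h'.la ?_, wdb1_uniq hU h.lb h'.lb ?_⟩
  · intro φ hφ
    have e1 := h.da φ hφ
    have e2 := h'.da φ hφ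
    rw [e1] at e2
    exact neg_injective e2
  · intro φ hφ
    have e1 := h.db φ hφ
    have e2 := h'.db φ hφ
    rw [e1] at e2
    exact neg_injective e2

theorem WD.congr {U : Set ℂ} (hU : IsOpen U) {f a b f' a' b' : ℂ → ℂ} (h : WD U f a b)
    (hf : f =ᵐ[volume.restrict U] f') (ha : a =ᵐ[volume.restrict U] a')
    (hb : b =ᵐ[volume.restrict U] b') : WD U f' a' b' := by
  refine ⟨?_, wdb1_L2ae ha h.la, wdb1_L2ae hb h.lb, ?_, ?_⟩
  · rw [locallyIntegrableOn_iff hU.isLocallyClosed]
    intro K hK hKc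
    have := (locallyIntegrableOn_iff hU.isLocallyClosed).1 h.lif K hK hKc
    exact this.congr (ae_mono (Measure.restrict_mono hK le_rfl) hf)
  · intro φ hφ
    rw [← wdb1_ae hU hf hφ.dz.1.sub, ← wdb1_ae hU ha hφ.sub]
    exact h.da φ hφ
  · intro φ hφ
    rw [← wdb1_ae hU hf hφ.dz.2.sub, ← wdb1_ae hU hb hφ.sub]
    exact h.db φ hφ

theorem WD.add {U : Set ℂ} (hU : IsOpen U) {f a b f' a' b' : ℂ → ℂ} (h : WD U f a b)
    (h' : WD U f' a' b') :
    WD U (fun z => f z + f' z) (fun z => a z + a' z) (fun z => b z + b' z) := by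
  refine ⟨h.lif.add h'.lif, fun K hK hKc => (h.la K hK hKc).add (h'.la K hK hKc),
    fun K hK hKc => (h.lb K hK hKc).add (h'.lb K hK hKc), ?_, ?_⟩
  · intro φ hφ
    have i1 := (wdb1_intdz hU h.lif hφ).1
    have i2 := (wdb1_intdz hU h'.lif hφ).1
    have i3 := (wdb1_intdz hU (wdb1_lif hU h.la) hφ).2.2
    have i4 := (wdb1_intdz hU (wdb1_lif hU h'.la) hφ).2.2
    simp only [add_mul]
    rw [integral_add i1 i2, integral_add i3 i4, h.da φ hφ, h'.da φ hφ]
    ring
  · intro φ hφ
    have i1 := (wdb1_intdz hU h.lif hφ).2.1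
    have i2 := (wdb1_intdz hU h'.lif hφ).2.1
    have i3 := (wdb1_intdz hU (wdb1_lif hU h.lb) hφ).2.2
    have i4 := (wdb1_intdz hU (wdb1_lif hU h'.lb) hφ).2.2
    simp only [add_mul]
    rw [integral_add i1 i2, integral_add i3 i4, h.db φ hφ, h'.db φ hφ]
    ring

theorem WD.const_mul {U : Set ℂ} (hU : IsOpen U) (c : ℂ) {f a b : ℂ → ℂ} (h : WD U f a b) :
    WD U (fun z => c * f z) (fun z => c * a z) (fun z => c * b z) := by
  refine ⟨?_, fun K hK hKc => (h.la K hK hKc).const_mul c,
    fun K hK hKc => (h.lb K hK hKc).const_mul c, ?_, ?_⟩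
  · rw [locallyIntegrableOn_iff hU.isLocallyClosed]
    intro K hK hKc
    have := (locallyIntegrableOn_iff hU.isLocallyClosed).1 h.lif K hK hKc
    exact Integrable.const_mul this c
  · intro φ hφ
    simp only [mul_assoc]
    rw [integral_const_mul, integral_const_mul, h.da φ hφ]
    ring
  · intro φ hφ
    simp only [mul_assoc]
    rw [integral_const_mul, integral_const_mul, h.db φ hφ]
    ring

theorem WD.sub {U : Set ℂ} (hU : IsOpen U) {f a b f' a' b' : ℂ → ℂ} (h : WD U f a b)
    (h' : WD U f' a' b') :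
    WD U (fun z => f z - f' z) (fun z => a z - a' z) (fun z => b z - b' z) := by
  have := WD.add hU h (WD.const_mul hU (-1) h')
  simpa [sub_eq_add_neg] using this

theorem WD.conj {U : Set ℂ} (hU : IsOpen U) {f a b : ℂ → ℂ} (h : WD U f a b) :
    WD U (fun z => conj (f z)) (fun z => conj (b z)) (fun z => conj (a z)) := by
  have hL : ∀ g : ℂ → ℂ, L2loc U g → L2loc U (fun z => conj (g z)) := by
    intro g hg K hK hKc
    have h0 := hg K hK hKc
    refine h0.of_le ?_ ?_
    · exact Complex.continuous_conj.comp_aestronglyMeasurable h0.aestronglyMeasurable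
    · exact Eventually.of_forall fun z => by simp
  have hT : ∀ φ : ℂ → ℂ, Test U φ → Test U (fun z => conj (φ z)) := by
    intro φ hφ
    refine ⟨(Complex.conjCLE : ℂ →L[ℝ] ℂ).contDiff.comp hφ.smooth, ?_, ?_⟩
    · exact hφ.cpt.comp_left (g := fun x : ℂ => conj x) (by simp)
    · refine (closure_mono ?_).trans hφ.sub
      intro z hz h0
      exact hz (by simp [h0])
  refine ⟨?_, hL _ h.lb, hL _ h.la, ?_, ?_⟩
  · rw [locallyIntegrableOn_iff hU.isLocallyClosed]
    intro K hK hKc
    have := (locallyIntegrableOn_iff hU.isLocallyClosed).1 h.lif K hK hKc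
    refine Integrable.mono this ?_ ?_
    · exact Complex.continuous_conj.comp_aestronglyMeasurable this.aestronglyMeasurable
    · exact Eventually.of_forall fun z => by simp
  · intro φ hφ
    have e := h.db _ (hT φ hφ)
    have e1 : ∀ z, conj (f z) * dz φ z = conj (f z * dzb (fun z => conj (φ z)) z) := by
      intro z
      rw [(dz_conj φ z).2]
      simp
    have e2 : ∀ z, conj (b z) * φ z = conj (b z * (fun z => conj (φ z)) z) := by
      intro z
      simp
    simp_rw [e1, e2]
    rw [integral_conj, integral_conj, e]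
    simp
  · intro φ hφ
    have e := h.da _ (hT φ hφ)
    have e1 : ∀ z, conj (f z) * dzb φ z = conj (f z * dz (fun z => conj (φ z)) z) := by
      intro z
      rw [(dz_conj φ z).1]
      simp
    have e2 : ∀ z, conj (a z) * φ z = conj (a z * (fun z => conj (φ z)) z) := by
      intro z
      simp
    simp_rw [e1, e2]
    rw [integral_conj, integral_conj, e]
    simp

end QC
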