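import Pool.Agent.Work.MP_217185_an.Wirt
import Pool.Agent.Work.MP_217185_an.WDb1

/-! # WDb2: basic properties of weak derivatives

* `of_contDiffOn`: `integral_mul_dz`.
* `unique`: Mathlib `IsOpen.ae_eq_zero_of_integral_contDiff_smul_eq_zero` (fundamental lemma of the
  calculus of variations; a complex function tested against real test functions, or against
  complex ones; a real bump `g` gives the test function `z ↦ (g z : ℂ)`).
* `conj`: conjugate the test functions (`dz_conj`).
* `of_local`: smooth partition of unity on the compact set `tsupport φ`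
  (`SmoothPartitionOfUnity` or a finite cover by balls and bump functions); `dz (∑ ψ_i φ) =
  ∑ dz (ψ_i φ)`.
* `of_bdd`: let `φ ∈ Test U`.  `∫ f dz φ = lim ∫ f_n dz φ = - lim ∫ a_n φ`, so the functional
  `φ ↦ ∫ f dz φ` is bounded by `C ‖φ‖_{L²}` on test functions supported in a fixed compact set
  `K ⊆ U`.  Exhaust `U` by relatively compact open sets `U_j`; on each `U_j` the functional extends
  to `L²(U_j)` (Hahn-Banach / extension to the closure) and is represented by a function (Riesz);
  the representing functions agree on overlaps by the uniqueness lemma, glue them. -/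

open MeasureTheory Complex Set Metric Filter
open scoped Topology ENNReal NNReal ContDiff ComplexConjugate

namespace QC

private theorem wdb2_union {a : ℂ → ℂ} {s t : Set ℂ} (hs : MemLp a 2 (volume.restrict s))
    (ht : MemLp a 2 (volume.restrict t)) : MemLp a 2 (volume.restrict (s ∪ t)) := by
  have hm : AEStronglyMeasurable a (volume.restrict (s ∪ t)) :=
    aestronglyMeasurable_union_iff.2 ⟨hs.aestronglyMeasurable, ht.aestronglyMeasurable⟩
  rw [memLp_two_iff_integrable_sq_norm hm]
  exact IntegrableOn.union ((memLp_two_iff_integrable_sq_norm hs.aestronglyMeasurable).1 hs)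
    ((memLp_two_iff_integrable_sq_norm ht.aestronglyMeasurable).1 ht)

private theorem wdb2_L2 {U : Set ℂ} {a : ℂ → ℂ}
    (h : ∀ z ∈ U, ∃ V, IsOpen V ∧ z ∈ V ∧ L2loc V a) : L2loc U a := by
  intro K hK hKc
  refine hKc.induction_on (p := fun K => MemLp a 2 (volume.restrict K)) (by simp) ?_ ?_ ?_
  · intro s t hst ht
    exact ht.mono_measure (Measure.restrict_mono hst le_rfl)
  · intro s t hs ht
    exact wdb2_union hs ht
  · intro x hx
    obtain ⟨V, hV, hxV, hL⟩ := h x (hK hx)
    obtain ⟨L, hLn, hLV, hLc⟩ := local_compact_nhds (hV.mem_nhds hxV)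
    exact ⟨L, mem_nhdsWithin_of_mem_nhds hLn, hL L hLV hLc⟩

private theorem wdb2_sum {ι : Type*} (s : Finset ι) {g : ι → ℂ → ℂ}
    (hg : ∀ i ∈ s, ContDiff ℝ ∞ (g i)) (z : ℂ) :
    dz (fun z => ∑ i ∈ s, g i z) z = ∑ i ∈ s, dz (g i) z ∧
    dzb (fun z => ∑ i ∈ s, g i z) z = ∑ i ∈ s, dzb (g i) z := by
  have h : fderiv ℝ (fun z => ∑ i ∈ s, g i z) z = ∑ i ∈ s, fderiv ℝ (g i) z :=
    fderiv_fun_sum fun i hi => ((hg i hi).differentiable (by simp)).differentiableAt
  unfold dz dzb
  rw [h]
  simp only [ContinuousLinearMap.sum_apply, Finset.mul_sum]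
  constructor
  · rw [← Finset.sum_sub_distrib, Finset.sum_div]
  · rw [← Finset.sum_add_distrib, Finset.sum_div]

theorem WD.of_local {U : Set ℂ} (hU : IsOpen U) {f a b : ℂ → ℂ}
    (h : ∀ z ∈ U, ∃ V, IsOpen V ∧ z ∈ V ∧ V ⊆ U ∧ WD V f a b) : WD U f a b := by
  have hla : L2loc U a := wdb2_L2 fun z hz => by
    obtain ⟨V, hV, hzV, -, hW⟩ := h z hz
    exact ⟨V, hV, hzV, hW.la⟩
  have hlb : L2loc U b := wdb2_L2 fun z hz => by
    obtain ⟨V, hV, hzV, -, hW⟩ := h z hz
    exact ⟨V, hV, hzV, hW.lb⟩
  have hlif : ∀ {g : ℂ → ℂ}, L2loc U g → LocallyIntegrableOn g U := by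
    intro g hg
    rw [locallyIntegrableOn_iff hU.isLocallyClosed]
    intro K hK hKc
    have : IsFiniteMeasure (volume.restrict K) := ⟨by simpa using hKc.measure_lt_top⟩
    exact (hg K hK hKc).integrable (by norm_num)
  have hf : LocallyIntegrableOn f U := by
    intro z hz
    obtain ⟨V, hV, hzV, -, hW⟩ := h z hz
    have h1 := hW.lif z hzV
    rw [hV.nhdsWithin_eq hzV] at h1
    exact h1.filter_mono nhdsWithin_le_nhds
  have hint : ∀ {f g : ℂ → ℂ}, LocallyIntegrableOn f U → Continuous g → HasCompactSupport g →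
      tsupport g ⊆ U → Integrable (fun z => f z * g z) := by
    intro f g hf hg hc hs
    have h1 : IntegrableOn f (tsupport g) :=
      (locallyIntegrableOn_iff hU.isLocallyClosed).1 hf _ hs hc
    have h2 : IntegrableOn (fun z => f z * g z) (tsupport g) :=
      h1.mul_continuousOn hg.continuousOn hc
    refine (integrableOn_iff_integrable_of_support_subset ?_).1 h2
    intro z hz
    apply subset_tsupport g
    intro h0
    exact hz (by simp [h0])
  -- the key decomposition
  have key : ∀ φ, Test U φ → ∃ (s : Finset U) (g : U → ℂ → ℂ),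
      (∀ i ∈ s, Test U (g i)) ∧ (∀ z, φ z = ∑ i ∈ s, g i z) ∧
      ∀ i ∈ s, ∃ V, WD V f a b ∧ Test V (g i) := by
    intro φ hφ
    choose V hV hzV hVU hW using h
    obtain ⟨ρ, hρ⟩ := SmoothPartitionOfUnity.exists_isSubordinate (modelWithCornersSelf ℝ ℂ)
      (isClosed_tsupport φ) (fun x : U => V x.1 x.2) (fun x => hV x.1 x.2)
      (fun z hz => mem_iUnion.2 ⟨⟨z, hφ.sub hz⟩, hzV z (hφ.sub hz)⟩)
    have hfin := ρ.locallyFinite.finite_nonempty_inter_compact hφ.cpt
    have hsm : ∀ i, ContDiff ℝ ∞ (fun z => ((ρ i z : ℝ) : ℂ) * φ z) := by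
      intro i
      have h1 : ContDiff ℝ ∞ (ρ i) := contMDiff_iff_contDiff.1 (ρ i).contMDiff
      exact (ofRealCLM.contDiff.comp h1).mul hφ.smooth
    have hcs : ∀ i, HasCompactSupport (fun z => ((ρ i z : ℝ) : ℂ) * φ z) := by
      intro i
      exact HasCompactSupport.mul_left (f := fun z => ((ρ i z : ℝ) : ℂ)) hφ.cpt
    have hsU : ∀ i, tsupport (fun z => ((ρ i z : ℝ) : ℂ) * φ z) ⊆ tsupport φ := by
      intro i
      refine closure_mono ?_
      intro z hz h0
      exact hz (by simp [h0])
    have hsV : ∀ i : U, tsupport (fun z => ((ρ i z : ℝ) : ℂ) * φ z) ⊆ V i.1 i.2 := by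
      intro i
      refine (closure_mono ?_).trans (hρ i)
      intro z hz h0
      exact hz (by simp [h0])
    refine ⟨hfin.toFinset, fun i z => ((ρ i z : ℝ) : ℂ) * φ z, ?_, ?_, ?_⟩
    · intro i _
      exact ⟨hsm i, hcs i, (hsU i).trans hφ.sub⟩
    · intro z
      by_cases hz : z ∈ tsupport φ
      · have h1 := ρ.sum_eq_one hz
        rw [finsum_eq_sum_of_support_subset (s := hfin.toFinset)] at h1
        · rw [← Finset.sum_mul, ← Complex.ofReal_sum, h1]
          simp
        · intro i hi
          simp only [Finite.coe_toFinset, mem_setOf_eq]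
          exact ⟨z, hi, hz⟩
      · have h0 : φ z = 0 := image_eq_zero_of_notMem_tsupport hz
        simp [h0]
    · intro i _
      exact ⟨V i.1 i.2, hW i.1 i.2, ⟨hsm i, hcs i, hsV i⟩⟩
  refine ⟨hf, hla, hlb, ?_, ?_⟩
  · intro φ hφ
    obtain ⟨s, g, hg, hsum, hV⟩ := key φ hφ
    have e0 : φ = fun z => ∑ i ∈ s, g i z := funext hsum
    have e1 : ∀ z, f z * dz φ z = ∑ i ∈ s, f z * dz (g i) z := by
      intro z
      rw [e0, (wdb2_sum s (fun i hi => (hg i hi).smooth) z).1, Finset.mul_sum]
    have e2 : ∀ z, a z * φ z = ∑ i ∈ s, a z * g i z := by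
      intro z
      rw [hsum z, Finset.mul_sum]
    simp_rw [e1, e2]
    rw [integral_finset_sum, integral_finset_sum, ← Finset.sum_neg_distrib]
    · refine Finset.sum_congr rfl fun i hi => ?_
      obtain ⟨V, hW, hT⟩ := hV i hi
      exact hW.da _ hT
    · intro i hi
      exact hint (hlif hla) (hg i hi).smooth.continuous (hg i hi).cpt (hg i hi).sub
    · intro i hi
      exact hint hf (hg i hi).dz.1.smooth.continuous (hg i hi).dz.1.cpt (hg i hi).dz.1.sub
  · intro φ hφ
    obtain ⟨s, g, hg, hsum, hV⟩ := key φ hφ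
    have e0 : φ = fun z => ∑ i ∈ s, g i z := funext hsum
    have e1 : ∀ z, f z * dzb φ z = ∑ i ∈ s, f z * dzb (g i) z := by
      intro z
      rw [e0, (wdb2_sum s (fun i hi => (hg i hi).smooth) z).2, Finset.mul_sum]
    have e2 : ∀ z, b z * φ z = ∑ i ∈ s, b z * g i z := by
      intro z
      rw [hsum z, Finset.mul_sum]
    simp_rw [e1, e2]
    rw [integral_finset_sum, integral_finset_sum, ← Finset.sum_neg_distrib]
    · refine Finset.sum_congr rfl fun i hi => ?_
      obtain ⟨V, hW, hT⟩ := hV i hi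
      exact hW.db _ hT
    · intro i hi
      exact hint (hlif hlb) (hg i hi).smooth.continuous (hg i hi).cpt (hg i hi).sub
    · intro i hi
      exact hint hf (hg i hi).dz.2.smooth.continuous (hg i hi).dz.2.cpt (hg i hi).dz.2.sub

end QC
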