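import Pool.Agent.Work.MP_217185_an.Wirt
import Pool.Agent.Work.MP_217185_an.WDb1

/-! # WDb3: limits with bounded weak derivatives

Weak compactness in `L²`: a weight `ρ > 0` on `U` makes the sequence `ρ A n` bounded in `L²(ℂ)`; a
weak limit `v` along an ultrafilter exists by the Riesz representation theorem, and `a = v / ρ`. -/

open MeasureTheory Complex Set Metric Filter
open scoped Topology ENNReal NNReal ContDiff ComplexConjugate

namespace QC

private theorem wdb3_exh {U : Set ℂ} (hU : IsOpen U) : ∃ K : ℕ → Set ℂ, (∀ j, IsCompact (K j)) ∧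
    (∀ j, K j ⊆ U) ∧ ∀ L ⊆ U, IsCompact L → ∃ j, L ⊆ K j := by
  haveI : LocallyCompactSpace U := hU.locallyCompactSpace
  let E : CompactExhaustion U := default
  refine ⟨fun j => Subtype.val '' E j, fun j => (E.isCompact j).image continuous_subtype_val,
    fun j => by rintro _ ⟨x, _, rfl⟩; exact x.2, fun L hL hc => ?_⟩
  have h1 : IsCompact ((Subtype.val : U → ℂ) ⁻¹' L) := by
    rw [Topology.IsEmbedding.subtypeVal.isCompact_iff, Subtype.image_preimage_coe,
      inter_eq_right.2 hL]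
    exact hc
  obtain ⟨j, hj⟩ := E.exists_superset_of_isCompact h1
  exact ⟨j, fun z hz => ⟨⟨z, hL hz⟩, hj hz, rfl⟩⟩

private theorem wdb3_weak (u : ℕ → Lp ℂ 2 (volume : Measure ℂ)) (C : ℝ) (hC : ∀ n, ‖u n‖ ≤ C) :
    ∃ v : Lp ℂ 2 (volume : Measure ℂ), ∀ (g : Lp ℂ 2 (volume : Measure ℂ)) (L : ℂ),
      Tendsto (fun n => (inner ℂ (u n) g : ℂ)) atTop (𝓝 L) → (inner ℂ v g : ℂ) = L := by
  have hbd : ∀ (g : Lp ℂ 2 (volume : Measure ℂ)) (n : ℕ), ‖(inner ℂ (u n) g : ℂ)‖ ≤ C * ‖g‖ := by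
    intro g n
    exact (norm_inner_le_norm _ _).trans (mul_le_mul_of_nonneg_right (hC n) (norm_nonneg _))
  have key : ∀ g : Lp ℂ 2 (volume : Measure ℂ), ∃ x : ℂ,
      Tendsto (fun n => (inner ℂ (u n) g : ℂ)) (hyperfilter ℕ : Filter ℕ) (𝓝 x) := by
    intro g
    have hcomp : IsCompact (closedBall (0 : ℂ) (C * ‖g‖)) := isCompact_closedBall _ _
    obtain ⟨x, _, hx⟩ := hcomp.ultrafilter_le_nhds
      ((hyperfilter ℕ).map (fun n => (inner ℂ (u n) g : ℂ))) (by
        rw [Filter.le_principal_iff, Ultrafilter.coe_map, Filter.mem_map]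
        refine Filter.mem_of_superset Filter.univ_mem fun n _ => ?_
        simpa using hbd g n)
    exact ⟨x, hx⟩
  choose ℓ hℓ using key
  let Λ : Lp ℂ 2 (volume : Measure ℂ) →ₗ[ℂ] ℂ :=
    { toFun := ℓ
      map_add' := fun g h => by
        refine tendsto_nhds_unique (hℓ (g + h)) ?_
        have := (hℓ g).add (hℓ h)
        refine this.congr fun n => ?_
        rw [inner_add_right]
      map_smul' := fun c g => by
        refine tendsto_nhds_unique (hℓ (c • g)) ?_
        have := (hℓ g).const_mul c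
        refine this.congr fun n => ?_
        rw [inner_smul_right] }
  have hΛ : ∀ g, ‖Λ g‖ ≤ C * ‖g‖ := by
    intro g
    refine le_of_tendsto (hℓ g).norm ?_
    exact Filter.Eventually.of_forall fun n => hbd g n
  let Λc : Lp ℂ 2 (volume : Measure ℂ) →L[ℂ] ℂ := Λ.mkContinuous C hΛ
  refine ⟨(InnerProductSpace.toDual ℂ (Lp ℂ 2 (volume : Measure ℂ))).symm Λc, fun g L hL => ?_⟩
  rw [InnerProductSpace.toDual_symm_apply]
  change ℓ g = L
  refine tendsto_nhds_unique (hℓ g) (hL.mono_left ?_)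
  rw [← Nat.cofinite_eq_atTop]
  exact hyperfilter_le_cofinite

private theorem wdb3_weight {U : Set ℂ} (hU : IsOpen U) {A : ℕ → ℂ → ℂ}
    (hA : ∀ n, L2loc U (A n))
    (hb : ∀ K ⊆ U, IsCompact K → ∃ C : ℝ≥0∞, C ≠ ⊤ ∧ ∀ n,
      eLpNorm (A n) 2 (volume.restrict K) ≤ C) :
    ∃ ρ : ℂ → ℝ, Measurable ρ ∧ (∀ z ∉ U, ρ z = 0) ∧
      (∀ K ⊆ U, IsCompact K → ∃ c : ℝ, 0 < c ∧ ∀ z ∈ K, c ≤ ρ z) ∧
      ∃ C : ℝ≥0∞, C ≠ ⊤ ∧ ∀ n, MemLp (fun z => (ρ z : ℂ) * A n z) 2 volume ∧
        eLpNorm (fun z => (ρ z : ℂ) * A n z) 2 volume ≤ C := by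
  obtain ⟨K, hK, hKU, hKe⟩ := wdb3_exh hU
  choose C hC hCb using fun j => hb (K j) (hKU j) (hK j)
  set ε : ℕ → ℝ≥0 := fun j => (1 / 2) ^ j / ((C j).toNNReal + 1) ^ 2 with hε
  have hε0 : ∀ j, 0 < ε j := fun j => by rw [hε]; positivity
  have hε1 : ∀ j, ε j ≤ (1 / 2) ^ j := fun j => by
    rw [hε]
    refine div_le_self (by positivity) ?_
    have : (1 : ℝ≥0) ≤ (C j).toNNReal + 1 := by simp
    exact one_le_pow₀ this
  have hεC : ∀ j, (ε j : ℝ≥0∞) * (C j) ^ 2 ≤ ((1 / 2 : ℝ≥0) : ℝ≥0∞) ^ j := fun j => by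
    have h1 : C j = ((C j).toNNReal : ℝ≥0∞) := (ENNReal.coe_toNNReal (hC j)).symm
    rw [h1, ← ENNReal.coe_pow, ← ENNReal.coe_mul, ← ENNReal.coe_pow, ENNReal.coe_le_coe, hε]
    simp only [ENNReal.toNNReal_coe]
    have h2 : (C j).toNNReal ^ 2 ≤ ((C j).toNNReal + 1) ^ 2 := by
      gcongr
      simp
    calc (1 / 2 : ℝ≥0) ^ j / ((C j).toNNReal + 1) ^ 2 * (C j).toNNReal ^ 2
        ≤ (1 / 2 : ℝ≥0) ^ j / ((C j).toNNReal + 1) ^ 2 * ((C j).toNNReal + 1) ^ 2 := by gcongr
      _ = (1 / 2 : ℝ≥0) ^ j := by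
          rw [div_mul_cancel₀]
          positivity
  have hgeo : ∑' j : ℕ, ((1 / 2 : ℝ≥0) : ℝ≥0∞) ^ j ≠ ⊤ := by
    rw [ENNReal.tsum_geometric]
    refine ENNReal.inv_ne_top.2 ?_
    have : ((1 / 2 : ℝ≥0) : ℝ≥0∞) < 1 := by
      exact_mod_cast (by norm_num : (1 / 2 : ℝ≥0) < 1)
    exact (tsub_pos_of_lt this).ne'
  set W : ℂ → ℝ≥0∞ := fun z => ∑' j, (K j).indicator (fun _ => (ε j : ℝ≥0∞)) z with hW
  have hWm : Measurable W := by
    refine Measurable.tsum fun j => ?_
    exact measurable_const.indicator (hK j).measurableSet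
  have hWtop : ∀ z, W z ≠ ⊤ := fun z => by
    refine ne_top_of_le_ne_top hgeo (ENNReal.tsum_le_tsum fun j => ?_)
    by_cases hz : z ∈ K j
    · rw [indicator_of_mem hz, ← ENNReal.coe_pow, ENNReal.coe_le_coe]
      exact hε1 j
    · rw [indicator_of_notMem hz]
      exact bot_le
  have hWK : ∀ j, ∀ z ∈ K j, (ε j : ℝ≥0∞) ≤ W z := fun j z hz => by
    refine le_trans ?_ (ENNReal.le_tsum j)
    rw [indicator_of_mem hz]
  have hW0 : ∀ z ∉ U, W z = 0 := fun z hz => by
    rw [hW]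
    simp only [ENNReal.tsum_eq_zero]
    intro j
    exact indicator_of_notMem (fun h => hz (hKU j h)) _
  set ρ : ℂ → ℝ := fun z => Real.sqrt (W z).toReal with hρ
  have hρ2 : ∀ z, ENNReal.ofReal (ρ z) ^ 2 = W z := fun z => by
    rw [← ENNReal.ofReal_pow (Real.sqrt_nonneg _), Real.sq_sqrt ENNReal.toReal_nonneg, ENNReal.ofReal_toReal (hWtop z)]
  have hcov : U = ⋃ j, K j := by
    ext z
    rw [mem_iUnion]
    constructor
    · intro hz
      obtain ⟨j, hj⟩ := hKe {z} (singleton_subset_iff.2 hz) isCompact_singleton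
      exact ⟨j, hj (mem_singleton z)⟩
    · rintro ⟨j, hj⟩
      exact hKU j hj
  have hρm : Measurable ρ := hWm.ennreal_toReal.sqrt
  refine ⟨ρ, hρm, fun z hz => ?_, fun L hL hLc => ?_, ?_⟩
  · rw [hρ]
    simp only
    rw [hW0 z hz]
    simp
  · obtain ⟨j, hj⟩ := hKe L hL hLc
    refine ⟨Real.sqrt (ε j), Real.sqrt_pos.2 (by exact_mod_cast hε0 j), fun z hz => ?_⟩
    refine Real.sqrt_le_sqrt ?_
    have := ENNReal.toReal_mono (hWtop z) (hWK j z (hj hz))
    simpa using this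
  · set S : ℝ≥0∞ := ∑' j : ℕ, ((1 / 2 : ℝ≥0) : ℝ≥0∞) ^ j with hS
    refine ⟨S ^ (1 / 2 : ℝ), ENNReal.rpow_ne_top_of_nonneg (by norm_num) hgeo, fun n => ?_⟩
    have hmeas : AEStronglyMeasurable (fun z => (ρ z : ℂ) * A n z) volume := by
      have h1 : AEStronglyMeasurable (fun z => (ρ z : ℂ) * A n z) (volume.restrict U) := by
        rw [hcov, aestronglyMeasurable_iUnion_iff]
        intro j
        refine AEStronglyMeasurable.mul ?_ (hA n (K j) (hKU j) (hK j)).1
        exact (Complex.measurable_ofReal.comp hρm).aestronglyMeasurable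
      have h2 : U.indicator (fun z => (ρ z : ℂ) * A n z) = fun z => (ρ z : ℂ) * A n z := by
        ext z
        by_cases hz : z ∈ U
        · rw [indicator_of_mem hz]
        · rw [indicator_of_notMem hz, hρ]
          simp only
          rw [hW0 z hz]
          simp
      rw [← h2, aestronglyMeasurable_indicator_iff hU.measurableSet]
      exact h1
    have hnorm : eLpNorm (fun z => (ρ z : ℂ) * A n z) 2 volume ≤ S ^ (1 / 2 : ℝ) := by
      rw [eLpNorm_eq_lintegral_rpow_enorm_toReal (by norm_num) (by norm_num)]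
      have e2 : (2 : ℝ≥0∞).toReal = 2 := by norm_num
      rw [e2]
      refine ENNReal.rpow_le_rpow ?_ (by norm_num)
      have e3 : ∀ z, ‖(ρ z : ℂ) * A n z‖ₑ ^ (2 : ℝ) =
          ∑' j, (K j).indicator (fun z => (ε j : ℝ≥0∞) * ‖A n z‖ₑ ^ (2 : ℝ)) z := by
        intro z
        rw [enorm_mul, ENNReal.mul_rpow_of_nonneg _ _ (by norm_num)]
        have e4 : ‖(ρ z : ℂ)‖ₑ ^ (2 : ℝ) = W z := by
          rw [← hρ2 z, ← ENNReal.rpow_natCast]
          congr 1
          rw [← ofReal_norm_eq_enorm, Complex.norm_real, Real.norm_eq_abs,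
            abs_of_nonneg (Real.sqrt_nonneg _)]
        rw [e4, hW]
        simp only
        rw [← ENNReal.tsum_mul_right]
        congr 1
        ext j
        by_cases hz : z ∈ K j
        · rw [indicator_of_mem hz, indicator_of_mem hz]
        · rw [indicator_of_notMem hz, indicator_of_notMem hz, zero_mul]
      simp_rw [e3]
      rw [lintegral_tsum]
      · refine ENNReal.tsum_le_tsum fun j => ?_
        rw [lintegral_indicator (hK j).measurableSet, lintegral_const_mul' _ _ (by simp)]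
        refine le_trans ?_ (hεC j)
        refine mul_le_mul_right ?_ _
        have h5 := hCb j n
        rw [eLpNorm_eq_lintegral_rpow_enorm_toReal (by norm_num) (by norm_num), e2] at h5
        have h6 := ENNReal.rpow_le_rpow h5 (by norm_num : (0 : ℝ) ≤ 2)
        rw [← ENNReal.rpow_mul] at h6
        norm_num at h6
        simpa using h6
      · intro j
        rw [aemeasurable_indicator_iff (hK j).measurableSet]
        exact ((hA n (K j) (hKU j) (hK j)).1.enorm.pow_const _).const_mul _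
    exact ⟨⟨hmeas, lt_of_le_of_lt hnorm
      (ENNReal.rpow_lt_top_of_nonneg (by norm_num) hgeo)⟩, hnorm⟩

/-- weak compactness in `L²_loc`. -/
private theorem wdb3_loc {U : Set ℂ} (hU : IsOpen U) {A : ℕ → ℂ → ℂ}
    (hA : ∀ n, L2loc U (A n))
    (hb : ∀ K ⊆ U, IsCompact K → ∃ C : ℝ≥0∞, C ≠ ⊤ ∧ ∀ n,
      eLpNorm (A n) 2 (volume.restrict K) ≤ C) :
    ∃ a : ℂ → ℂ, Measurable a ∧ L2loc U a ∧ ∀ φ, Test U φ → ∀ L : ℂ,
      Tendsto (fun n => ∫ z, A n z * φ z) atTop (𝓝 L) → ∫ z, a z * φ z = L := by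
  obtain ⟨ρ, hρm, hρ0, hρK, C, hC, hρA⟩ := wdb3_weight hU hA hb
  have hu : ∀ n, MemLp (fun z => conj ((ρ z : ℂ) * A n z)) 2 (volume : Measure ℂ) := fun n => by
    refine (hρA n).1.of_le ?_ ?_
    · exact continuous_conj.comp_aestronglyMeasurable (hρA n).1.1
    · exact Filter.Eventually.of_forall fun z => by rw [RCLike.norm_conj]
  obtain ⟨v, hv⟩ := wdb3_weak (fun n => (hu n).toLp _) C.toReal (fun n => by
    rw [Lp.norm_toLp]
    refine ENNReal.toReal_mono hC ?_
    refine le_trans (le_of_eq ?_) (hρA n).2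
    refine eLpNorm_congr_norm_ae (Filter.Eventually.of_forall fun z => ?_)
    rw [RCLike.norm_conj])
  have hvm : Measurable (v : ℂ → ℂ) := (Lp.stronglyMeasurable v).measurable
  have ham : Measurable (fun z => conj ((v : ℂ → ℂ) z) / (ρ z : ℂ)) :=
    (continuous_conj.measurable.comp hvm).div (Complex.measurable_ofReal.comp hρm)
  refine ⟨fun z => conj ((v : ℂ → ℂ) z) / (ρ z : ℂ), ham, fun K hKU hK => ?_,
    fun φ hφ L hL => ?_⟩
  · obtain ⟨c, hc, hcK⟩ := hρK K hKU hK
    refine MemLp.of_le_mul (c := c⁻¹) ((Lp.memLp v).restrict K) ham.aestronglyMeasurable ?_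
    rw [ae_restrict_iff' hK.measurableSet]
    refine Filter.Eventually.of_forall fun z hz => ?_
    have h1 := hcK z hz
    rw [norm_div, RCLike.norm_conj, Complex.norm_real, Real.norm_eq_abs,
      abs_of_pos (hc.trans_le h1), div_eq_inv_mul]
    gcongr
  · have hgm : MemLp (fun z => φ z / (ρ z : ℂ)) 2 (volume : Measure ℂ) := by
      obtain ⟨c, hc, hcK⟩ := hρK (tsupport φ) hφ.sub hφ.cpt
      refine MemLp.of_le_mul (c := c⁻¹)
        (hφ.smooth.continuous.memLp_of_hasCompactSupport hφ.cpt (p := 2) (μ := volume)) ?_ ?_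
      · exact (hφ.smooth.continuous.measurable.div
          (Complex.measurable_ofReal.comp hρm)).aestronglyMeasurable
      · refine Filter.Eventually.of_forall fun z => ?_
        by_cases hz : z ∈ tsupport φ
        · have h1 := hcK z hz
          rw [norm_div, Complex.norm_real, Real.norm_eq_abs,
            abs_of_pos (hc.trans_le h1), div_eq_inv_mul]
          gcongr
        · rw [image_eq_zero_of_notMem_tsupport hz]
          simp
    have h1 := hv (hgm.toLp _) L ?_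
    · rw [L2.inner_def] at h1
      rw [← h1]
      refine integral_congr_ae ?_
      filter_upwards [hgm.coeFn_toLp] with z hz
      rw [hz, RCLike.inner_apply]
      ring
    · refine hL.congr fun n => ?_
      rw [L2.inner_def]
      refine integral_congr_ae ?_
      filter_upwards [hgm.coeFn_toLp, (hu n).coeFn_toLp] with z hz hz2
      rw [hz, hz2, RCLike.inner_apply, RCLike.conj_conj]
      by_cases hzs : z ∈ tsupport φ
      · obtain ⟨c, hc, hcK⟩ := hρK (tsupport φ) hφ.sub hφ.cpt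
        have h2 : (ρ z : ℂ) ≠ 0 := by
          have := hc.trans_le (hcK z hzs)
          exact_mod_cast this.ne'
        field_simp
      · rw [image_eq_zero_of_notMem_tsupport hzs]
        simp

private theorem wdb3_int {U : Set ℂ} {f ψ : ℂ → ℂ} (hf : LocallyIntegrableOn f U)
    (hψ : Continuous ψ) (hc : HasCompactSupport ψ) (hs : tsupport ψ ⊆ U) :
    Integrable (fun z => f z * ψ z) := by
  have h1 : IntegrableOn f (tsupport ψ) := hf.integrableOn_compact_subset hs hc
  have h2 : IntegrableOn (fun z => f z * ψ z) (tsupport ψ) :=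
    h1.mul_continuousOn hψ.continuousOn hc
  rw [integrableOn_iff_integrable_of_support_subset] at h2
  · exact h2
  · intro z hz
    rw [Function.mem_support] at hz
    exact subset_tsupport _ (Function.mem_support.2 (right_ne_zero_of_mul hz))

private theorem wdb3_tendsto {U : Set ℂ} (hU : IsOpen U) {f ψ : ℂ → ℂ} {F : ℕ → ℂ → ℂ}
    (hf : LocallyIntegrableOn f U) (hF : ∀ n, LocallyIntegrableOn (F n) U)
    (hFf : TendstoLocallyUniformlyOn F f atTop U)
    (hψ : Continuous ψ) (hc : HasCompactSupport ψ) (hs : tsupport ψ ⊆ U) :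
    Tendsto (fun n => ∫ z, F n z * ψ z) atTop (𝓝 (∫ z, f z * ψ z)) := by
  have hint : Integrable ψ := hψ.integrable_of_hasCompactSupport hc
  have hu := (tendstoLocallyUniformlyOn_iff_forall_isCompact hU).1 hFf (tsupport ψ) hs hc
  rw [Metric.tendstoUniformlyOn_iff] at hu
  rw [Metric.tendsto_atTop]
  intro ε hε
  set M := ∫ z, ‖ψ z‖ with hM
  have hM0 : 0 ≤ M := integral_nonneg fun z => norm_nonneg _
  have hu2 := hu (ε / (M + 1)) (by positivity)
  rw [eventually_atTop] at hu2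
  obtain ⟨n₀, hn₀⟩ := hu2
  refine ⟨n₀, fun n hn => ?_⟩
  rw [dist_eq_norm, ← integral_sub (wdb3_int (hF n) hψ hc hs) (wdb3_int hf hψ hc hs)]
  have h1 : ‖∫ z, (F n z * ψ z - f z * ψ z)‖ ≤ ∫ z, ε / (M + 1) * ‖ψ z‖ := by
    refine norm_integral_le_of_norm_le (hint.norm.const_mul _) ?_
    refine Filter.Eventually.of_forall fun z => ?_
    rw [← sub_mul, norm_mul]
    by_cases hz : z ∈ tsupport ψ
    · refine mul_le_mul_of_nonneg_right ?_ (norm_nonneg _)
      have := hn₀ n hn z hz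
      rw [dist_comm, dist_eq_norm] at this
      exact this.le
    · rw [image_eq_zero_of_notMem_tsupport hz]
      simp
  rw [integral_const_mul] at h1
  refine lt_of_le_of_lt h1 ?_
  rw [← hM, div_mul_eq_mul_div, div_lt_iff₀ (by positivity)]
  nlinarith

/-- limits with bounded derivatives. -/
theorem WD.of_bdd {U : Set ℂ} (hU : IsOpen U) {f : ℂ → ℂ} (hf : ContinuousOn f U)
    {F A B : ℕ → ℂ → ℂ} (h : ∀ n, WD U (F n) (A n) (B n))
    (hF : TendstoLocallyUniformlyOn F f atTop U)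
    (hb : ∀ K ⊆ U, IsCompact K → ∃ C : ℝ≥0∞, C ≠ ⊤ ∧ ∀ n,
      eLpNorm (A n) 2 (volume.restrict K) ≤ C ∧ eLpNorm (B n) 2 (volume.restrict K) ≤ C) :
    ∃ a b, Measurable a ∧ Measurable b ∧ WD U f a b := by
  have hfl : LocallyIntegrableOn f U := hf.locallyIntegrableOn hU.measurableSet
  obtain ⟨a, ham, hal, ha⟩ := wdb3_loc hU (fun n => (h n).la) (fun K hK hc => by
    obtain ⟨C, hC, h1⟩ := hb K hK hc
    exact ⟨C, hC, fun n => (h1 n).1⟩)
  obtain ⟨b, hbm, hbl, hb'⟩ := wdb3_loc hU (fun n => (h n).lb) (fun K hK hc => by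
    obtain ⟨C, hC, h1⟩ := hb K hK hc
    exact ⟨C, hC, fun n => (h1 n).2⟩)
  refine ⟨a, b, ham, hbm, hfl, hal, hbl, fun φ hφ => ?_, fun φ hφ => ?_⟩
  · have h1 := wdb3_tendsto hU hfl (fun n => (h n).lif) hF hφ.dz.1.smooth.continuous hφ.dz.1.cpt
      hφ.dz.1.sub
    rw [ha φ hφ (-∫ z, f z * dz φ z) ?_, neg_neg]
    refine h1.neg.congr fun n => ?_
    rw [(h n).da φ hφ, neg_neg]
  · have h1 := wdb3_tendsto hU hfl (fun n => (h n).lif) hF hφ.dz.2.smooth.continuous hφ.dz.2.cpt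
      hφ.dz.2.sub
    rw [hb' φ hφ (-∫ z, f z * dzb φ z) ?_, neg_neg]
    refine h1.neg.congr fun n => ?_
    rw [(h n).db φ hφ, neg_neg]

end QC
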