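import Pool.Agent.Work.MP_217185_an.Wirt
import Pool.Agent.Work.MP_217185_an.WDb1

/-! # WDb4: basic properties of weak derivatives

* `of_contDiffOn`: `integral_mul_dz`.
* `unique`: Mathlib `IsOpen.ae_eq_zero_of_integral_contDiff_smul_eq_zero` (fundamental lemma of the
  calculus of variations; a complex function tested against real test functions, or against
  complex ones; a real bump `g` gives the test function `z ↦ (g z : ℂ)`).
* `conj`: conjugate the test functions (`dz_conj`).
* `of_local`: smooth partition of unity on the compact set `tsupport φ`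
  (`SmoothPartitionOfUnity` or a finite cover by balls and bump functions); `dz (∑ ψ_i φ) =
  ∑ dz (ψ_i φ)`.
* `of_bdd`: let `φ ∈ Test U`.  `∫ f dz φ = lim ∫ f_n dz φ = - lim ∫ a_n φ`, so the functional
  `φ ↦ ∫ f dz φ` is bounded by `C ‖φ‖_{L²}` on test functions supported in a fixed compact set
  `K ⊆ U`.  Exhaust `U` by relatively compact open sets `U_j`; on each `U_j` the functional extends
  to `L²(U_j)` (Hahn-Banach / extension to the closure) and is represented by a function (Riesz);
  the representing functions agree on overlaps by the uniqueness lemma, glue them. -/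

open MeasureTheory Complex Set Metric Filter
open scoped Topology ENNReal NNReal ContDiff ComplexConjugate

namespace QC

private theorem wdb4_restr {g φ : ℂ → ℂ} {K : Set ℂ} (h : tsupport φ ⊆ K) :
    ∫ z, g z * φ z = ∫ z in K, g z * φ z := by
  symm
  refine setIntegral_eq_integral_of_forall_compl_eq_zero ?_
  intro z hz
  have : φ z = 0 := image_eq_zero_of_notMem_tsupport fun h' => hz (h h')
  simp [this]

private theorem wdb4_lim {K : Set ℂ} (hK : IsCompact K) {a : ℂ → ℂ} {A : ℕ → ℂ → ℂ}
    (ha : MemLp a 2 (volume.restrict K)) (hA : ∀ n, MemLp (A n) 2 (volume.restrict K))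
    (h : Tendsto (fun n => eLpNorm (fun z => A n z - a z) 2 (volume.restrict K)) atTop (𝓝 0))
    {φ : ℂ → ℂ} (hφ : Continuous φ) (hs : tsupport φ ⊆ K) :
    Tendsto (fun n => ∫ z, A n z * φ z) atTop (𝓝 (∫ z, a z * φ z)) := by
  have hfin : IsFiniteMeasure (volume.restrict K) := ⟨by simpa using hK.measure_lt_top⟩
  have hφm : MemLp φ 2 (volume.restrict K) := by
    obtain ⟨C, hC⟩ := hK.exists_bound_of_continuousOn hφ.continuousOn
    refine MemLp.of_bound hφ.aestronglyMeasurable C ?_
    exact (ae_restrict_iff' hK.measurableSet).2 (Eventually.of_forall hC)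
  simp_rw [wdb4_restr hs]
  refine tendsto_integral_of_L1' (fun z => a z * φ z)
    (ha.aestronglyMeasurable.mul hφm.aestronglyMeasurable) ?_ ?_
  · exact Eventually.of_forall fun n => (hA n).integrable_mul hφm
  · have h1 : ∀ n, eLpNorm ((fun z => A n z * φ z) - fun z => a z * φ z) 1 (volume.restrict K)
        ≤ eLpNorm (fun z => A n z - a z) 2 (volume.restrict K)
          * eLpNorm φ 2 (volume.restrict K) := by
      intro n
      have e : ((fun z => A n z * φ z) - fun z => a z * φ z)
          = (fun z => A n z - a z) • φ := by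
        funext z
        simp [sub_mul]
      rw [e]
      exact eLpNorm_smul_le_mul_eLpNorm hφm.aestronglyMeasurable
        ((hA n).aestronglyMeasurable.sub ha.aestronglyMeasurable)
    have h2 := ENNReal.Tendsto.mul_const h (Or.inr hφm.eLpNorm_ne_top)
    rw [zero_mul] at h2
    exact tendsto_of_tendsto_of_tendsto_of_le_of_le tendsto_const_nhds h2
      (fun _ => by simp) h1

private theorem wdb4_unif {K : Set ℂ} (hK : IsCompact K) {f : ℂ → ℂ} {F : ℕ → ℂ → ℂ}
    (hf : ContinuousOn f K) (hFi : ∀ n, IntegrableOn (F n) K)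
    (hF : TendstoUniformlyOn F f atTop K)
    {φ : ℂ → ℂ} (hφ : Continuous φ) (hs : tsupport φ ⊆ K) :
    Tendsto (fun n => ∫ z, F n z * φ z) atTop (𝓝 (∫ z, f z * φ z)) := by
  have hfin : IsFiniteMeasure (volume.restrict K) := ⟨by simpa using hK.measure_lt_top⟩
  have hfi : IntegrableOn f K := hf.integrableOn_compact hK
  obtain ⟨C, hC⟩ := hK.exists_bound_of_continuousOn hφ.continuousOn
  have hφi : IntegrableOn φ K := hφ.continuousOn.integrableOn_compact hK
  simp_rw [wdb4_restr hs]
  have i1 : ∀ n, IntegrableOn (fun z => F n z * φ z) K := fun n =>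
    (hFi n).mul_continuousOn hφ.continuousOn hK
  have i2 : IntegrableOn (fun z => f z * φ z) K := hfi.mul_continuousOn hφ.continuousOn hK
  rw [Metric.tendsto_atTop]
  intro ε hε
  set M : ℝ := |C| * volume.real K + 1 with hM
  have hMpos : 0 < M := by positivity
  have h1 := Metric.tendstoUniformlyOn_iff.1 hF (ε / M) (by positivity)
  obtain ⟨N, hN⟩ := eventually_atTop.1 h1
  refine ⟨N, fun n hn => ?_⟩
  rw [dist_eq_norm, ← integral_sub (i1 n) i2]
  have h2 : ‖∫ z in K, (F n z * φ z - f z * φ z)‖ ≤ (ε / M * |C|) * volume.real K := by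
    refine norm_setIntegral_le_of_norm_le_const hK.measure_lt_top ?_
    intro z hz
    rw [← sub_mul, norm_mul]
    have h3 := hN n hn z hz
    rw [dist_comm, dist_eq_norm] at h3
    exact mul_le_mul h3.le ((hC z hz).trans (le_abs_self C)) (norm_nonneg _) (by positivity)
  refine lt_of_le_of_lt h2 ?_
  have h4 : ε / M * |C| * volume.real K = ε * (|C| * volume.real K / M) := by ring
  rw [h4]
  have h5 : |C| * volume.real K / M < 1 := by
    rw [div_lt_one hMpos, hM]
    linarith
  nlinarith

/-- limits with converging derivatives. -/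
theorem WD.of_tendsto {U : Set ℂ} (hU : IsOpen U) {f a b : ℂ → ℂ} (hf : ContinuousOn f U)
    (ha : L2loc U a) (hb' : L2loc U b)
    {F A B : ℕ → ℂ → ℂ} (h : ∀ n, WD U (F n) (A n) (B n))
    (hF : TendstoLocallyUniformlyOn F f atTop U)
    (hb : ∀ K ⊆ U, IsCompact K →
      Tendsto (fun n => eLpNorm (fun z => A n z - a z) 2 (volume.restrict K)) atTop (𝓝 0) ∧
      Tendsto (fun n => eLpNorm (fun z => B n z - b z) 2 (volume.restrict K)) atTop (𝓝 0)) :
    WD U f a b := by
  rw [tendstoLocallyUniformlyOn_iff_forall_isCompact hU] at hF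
  have hFi : ∀ n, ∀ K ⊆ U, IsCompact K → IntegrableOn (F n) K := fun n =>
    (locallyIntegrableOn_iff hU.isLocallyClosed).1 (h n).lif
  refine ⟨hf.locallyIntegrableOn hU.measurableSet, ha, hb', ?_, ?_⟩
  · intro φ hφ
    have t1 := wdb4_unif hφ.cpt (hf.mono hφ.sub) (fun n => hFi n _ hφ.sub hφ.cpt)
      (hF _ hφ.sub hφ.cpt) hφ.dz.1.smooth.continuous (φ := dz φ) (by
        refine closure_minimal ?_ (isClosed_tsupport φ)
        intro z hz
        by_contra h0
        apply hz
        have e : φ =ᶠ[𝓝 z] fun _ => 0 := notMem_tsupport_iff_eventuallyEq.1 h0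
        unfold dz
        rw [e.fderiv_eq]
        simp)
    have t2 := wdb4_lim hφ.cpt (ha _ hφ.sub hφ.cpt) (fun n => (h n).la _ hφ.sub hφ.cpt)
      (hb _ hφ.sub hφ.cpt).1 hφ.smooth.continuous subset_rfl
    have e : ∀ n, ∫ z, F n z * dz φ z = - ∫ z, A n z * φ z := fun n => (h n).da φ hφ
    simp_rw [e] at t1
    exact tendsto_nhds_unique t1 t2.neg
  · intro φ hφ
    have t1 := wdb4_unif hφ.cpt (hf.mono hφ.sub) (fun n => hFi n _ hφ.sub hφ.cpt)
      (hF _ hφ.sub hφ.cpt) hφ.dz.2.smooth.continuous (φ := dzb φ) (by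
        refine closure_minimal ?_ (isClosed_tsupport φ)
        intro z hz
        by_contra h0
        apply hz
        have e : φ =ᶠ[𝓝 z] fun _ => 0 := notMem_tsupport_iff_eventuallyEq.1 h0
        unfold dzb
        rw [e.fderiv_eq]
        simp)
    have t2 := wdb4_lim hφ.cpt (hb' _ hφ.sub hφ.cpt) (fun n => (h n).lb _ hφ.sub hφ.cpt)
      (hb _ hφ.sub hφ.cpt).2 hφ.smooth.continuous subset_rfl
    have e : ∀ n, ∫ z, F n z * dzb φ z = - ∫ z, B n z * φ z := fun n => (h n).db φ hφ
    simp_rw [e] at t1
    exact tendsto_nhds_unique t1 t2.neg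

end QC
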