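import Pool.Agent.Work.MP_217185_an.Cau1

/-! # Weyl: Weyl's lemma

Let `B` be a ball with closure in `U`, `χ` a test function in `U`, `χ = 1` on `B`.  Put
`g = Cau (f dzb χ)` (integrable function with compact support, zero on `B`), holomorphic on `B`
(differentiate under the integral).  Claim `f = g` a.e. on `B`: for a test function `ψ` in `B`,
`ψ = dzb (Cau ψ)` (`dz_cau`, `cau_dzb`) and `χ Cau ψ` is a test function in `U`, so
`∫ f ψ = ∫ f χ dzb (Cau ψ) = ∫ f (dzb (χ Cau ψ) - dzb χ Cau ψ) = - ∫ f dzb χ Cau ψ = ∫ g ψ`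
(Fubini; the kernel `1/(z - ζ)` is antisymmetric).  Then glue the local representatives: they are
continuous and agree a.e. on overlaps, so they agree. -/

open MeasureTheory Complex Set Metric Filter
open scoped Topology ENNReal NNReal ContDiff ComplexConjugate

namespace QC

/-- a locally integrable function times a continuous function with compact support is integrable -/
private theorem wy_int {U : Set ℂ} {f φ : ℂ → ℂ} (hf : LocallyIntegrableOn f U)
    (hφ : Continuous φ) (hc : HasCompactSupport φ) (hs : tsupport φ ⊆ U) :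
    Integrable (fun z => f z * φ z) := by
  have h1 : IntegrableOn f (tsupport φ) := hf.integrableOn_compact_subset hs hc
  have h2 : IntegrableOn (fun z => f z * φ z) (tsupport φ) :=
    h1.mul_continuousOn hφ.continuousOn hc
  rw [integrableOn_iff_integrable_of_support_subset] at h2
  · exact h2
  · intro z hz
    apply subset_tsupport
    rw [Function.mem_support] at hz ⊢
    exact right_ne_zero_of_mul hz

/-- the Cauchy transform is holomorphic off the support -/
private theorem wy_holo {q : ℂ → ℂ} (hq : Integrable q) {z₀ : ℂ} {r : ℝ}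
    (h0 : ∀ z ∈ ball z₀ r, q z = 0) : DifferentiableOn ℂ (Cau q) (ball z₀ r) := by
  intro ζ₀ hζ₀
  apply DifferentiableAt.differentiableWithinAt
  rw [mem_ball] at hζ₀
  obtain ⟨ε, hε⟩ : ∃ ε, ε = (r - dist ζ₀ z₀) / 2 := ⟨_, rfl⟩
  have hε0 : 0 < ε := by rw [hε]; linarith
  have hfar : ∀ x ∈ ball ζ₀ ε, ∀ z, q z ≠ 0 → ε ≤ ‖x - z‖ := by
    intro x hx z hz
    have h1 : r ≤ dist z z₀ := by
      by_contra hcon
      exact hz (h0 z (mem_ball.2 (not_le.1 hcon)))
    rw [mem_ball] at hx
    have h2 : dist z z₀ ≤ dist z x + dist x ζ₀ + dist ζ₀ z₀ := dist_triangle4 _ _ _ _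
    rw [dist_comm z x, dist_eq_norm x z] at h2
    linarith
  have hmeas : ∀ x : ℂ, AEStronglyMeasurable (fun z => q z / (x - z)) := by
    intro x
    have h1 : AEStronglyMeasurable (fun z : ℂ => (x - z)⁻¹) :=
      (measurable_const.sub measurable_id).inv.aestronglyMeasurable
    exact hq.aestronglyMeasurable.mul h1
  have hb : ∀ x ∈ ball ζ₀ ε, ∀ z, ‖q z / (x - z)‖ ≤ ε⁻¹ * ‖q z‖ := by
    intro x hx z
    by_cases hz : q z = 0
    · rw [hz]; simp
    · have h1 := hfar x hx z hz
      rw [norm_div, div_eq_inv_mul]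
      exact mul_le_mul_of_nonneg_right (inv_anti₀ hε0 h1) (norm_nonneg _)
  have h1 := hasDerivAt_integral_of_dominated_loc_of_deriv_le (μ := volume)
    (F := fun x z => q z / (x - z)) (F' := fun x z => -q z / (x - z) ^ 2) (x₀ := ζ₀)
    (s := ball ζ₀ ε) (bound := fun z => (ε ^ 2)⁻¹ * ‖q z‖)
    (ball_mem_nhds _ hε0) (Eventually.of_forall hmeas)
    ((hq.norm.const_mul ε⁻¹).mono' (hmeas ζ₀)
      (Eventually.of_forall (hb ζ₀ (mem_ball_self hε0))))
    (by
      have h1 : AEStronglyMeasurable (fun z : ℂ => ((ζ₀ - z) ^ 2)⁻¹) :=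
        ((measurable_const.sub measurable_id).pow_const 2).inv.aestronglyMeasurable
      exact hq.aestronglyMeasurable.neg.mul h1)
    (by
      refine Eventually.of_forall fun z x hx => ?_
      by_cases hz : q z = 0
      · rw [hz]; simp
      · have h1 := hfar x hx z hz
        rw [norm_div, norm_neg, norm_pow, div_eq_inv_mul]
        apply mul_le_mul_of_nonneg_right _ (norm_nonneg _)
        apply inv_anti₀ (by positivity)
        exact pow_le_pow_left₀ hε0.le h1 2)
    (hq.norm.const_mul _)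
    (by
      refine Eventually.of_forall fun z x hx => ?_
      by_cases hz : q z = 0
      · simp only [hz, zero_div, neg_zero]
        exact hasDerivAt_const _ _
      · have h1 := hfar x hx z hz
        have h2 : x - z ≠ 0 := by
          rw [← norm_pos_iff]; linarith
        have h3 := (((hasDerivAt_id' x).sub_const z).inv h2).const_mul (q z)
        refine h3.congr_deriv ?_
        field_simp)
  have h2 : DifferentiableAt ℂ (fun x => (1 / (Real.pi : ℂ)) * ∫ z, q z / (x - z)) ζ₀ :=
    h1.2.differentiableAt.const_mul _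
  exact h2

/-- Fubini -/
private theorem wy_fubini {q ψ : ℂ → ℂ} (hq : Integrable q) (hψ : Continuous ψ)
    (hc : HasCompactSupport ψ) {δ : ℝ} (hδ : 0 < δ)
    (hsep : ∀ z ζ, q z ≠ 0 → ψ ζ ≠ 0 → δ ≤ ‖z - ζ‖) :
    ∫ z, q z * Cau ψ z = - ∫ ζ, Cau q ζ * ψ ζ := by
  have hint : Integrable (Function.uncurry fun z ζ : ℂ => q z * (ψ ζ / (z - ζ)))
      (volume.prod volume) := by
    have h1 : Integrable (fun p : ℂ × ℂ => ‖q p.1‖ * (δ⁻¹ * ‖ψ p.2‖)) (volume.prod volume) :=
      hq.norm.mul_prod ((hψ.integrable_of_hasCompactSupport hc).norm.const_mul δ⁻¹)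
    refine h1.mono' ?_ (Eventually.of_forall fun p => ?_)
    · apply AEStronglyMeasurable.mul
      · exact hq.aestronglyMeasurable.comp_fst
      · apply Measurable.aestronglyMeasurable
        exact (hψ.measurable.comp measurable_snd).div (measurable_fst.sub measurable_snd)
    · simp only [Function.uncurry]
      by_cases hz : q p.1 = 0
      · rw [hz]; simp
      by_cases hζ : ψ p.2 = 0
      · rw [hζ]; simp
      rw [norm_mul, norm_div, div_eq_inv_mul ‖ψ p.2‖]
      apply mul_le_mul_of_nonneg_left _ (norm_nonneg _)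
      exact mul_le_mul_of_nonneg_right (inv_anti₀ hδ (hsep _ _ hz hζ)) (norm_nonneg _)
  have h1 := integral_integral_swap hint
  calc ∫ z, q z * Cau ψ z = (1 / (Real.pi : ℂ)) * ∫ z, ∫ ζ, q z * (ψ ζ / (z - ζ)) := by
        rw [← integral_const_mul]
        congr 1
        ext z
        rw [integral_const_mul]
        unfold Cau
        ring
    _ = (1 / (Real.pi : ℂ)) * ∫ ζ, ∫ z, q z * (ψ ζ / (z - ζ)) := by rw [h1]
    _ = - ∫ ζ, Cau q ζ * ψ ζ := by
        rw [← integral_const_mul, ← integral_neg]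
        congr 1
        ext ζ
        unfold Cau
        have h2 : ∀ z, q z * (ψ ζ / (z - ζ)) = -(ψ ζ * (q z / (ζ - z))) := by
          intro z
          rw [← neg_sub ζ z, div_neg]
          ring
        simp_rw [h2]
        rw [integral_neg, integral_const_mul]
        ring

/-- local version -/
private theorem wy_local {U : Set ℂ} {f : ℂ → ℂ} (hf : LocallyIntegrableOn f U)
    (h : ∀ φ, Test U φ → ∫ z, f z * dzb φ z = 0) {z₀ : ℂ} {r : ℝ} (hr : 0 < r)
    (hU : closedBall z₀ (2 * r) ⊆ U) :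
    ∃ g, DifferentiableOn ℂ g (ball z₀ r) ∧ f =ᵐ[volume.restrict (ball z₀ r)] g := by
  obtain ⟨b, hb⟩ : ∃ b : ContDiffBump z₀, b.rIn = r ∧ b.rOut = 2 * r :=
    ⟨⟨r, 2 * r, hr, by linarith⟩, rfl, rfl⟩
  obtain ⟨χ, hχ⟩ : ∃ χ : ℂ → ℂ, χ = fun z => ((b z : ℝ) : ℂ) := ⟨_, rfl⟩
  have hχs : ContDiff ℝ ∞ χ := by
    rw [hχ]
    exact ofRealCLM.contDiff.comp b.contDiff
  have hsup : Function.support χ = ball z₀ (2 * r) := by
    rw [← hb.2, ← b.support_eq, hχ]
    ext z
    simp
  have hts : tsupport χ = closedBall z₀ (2 * r) := by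
    unfold tsupport
    rw [hsup]
    exact closure_ball z₀ (by positivity)
  have hχT : Test U χ := ⟨hχs, by
    unfold HasCompactSupport
    rw [hts]
    exact isCompact_closedBall _ _, by rw [hts]; exact hU⟩
  have hone : ∀ z ∈ closedBall z₀ r, χ z = 1 := by
    intro z hz
    rw [hχ]
    have h1 : b z = 1 := b.one_of_mem_closedBall (by rw [hb.1]; exact hz)
    simp only [h1, ofReal_one]
  have hdz0 : ∀ z ∈ ball z₀ r, dzb χ z = 0 := by
    intro z hz
    have h1 : χ =ᶠ[𝓝 z] fun _ => 1 := by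
      filter_upwards [isOpen_ball.mem_nhds hz] with x hx
      exact hone x (ball_subset_closedBall hx)
    unfold dzb
    rw [h1.fderiv_eq]
    simp
  have hdT := hχT.dz.2
  obtain ⟨q, hq⟩ : ∃ q : ℂ → ℂ, q = fun z => f z * dzb χ z := ⟨_, rfl⟩
  have hqi : Integrable q := by
    rw [hq]
    exact wy_int hf hdT.smooth.continuous hdT.cpt hdT.sub
  have hq0 : ∀ z ∈ ball z₀ r, q z = 0 := by
    intro z hz
    rw [hq]
    simp only
    rw [hdz0 z hz, mul_zero]
  have hgh := wy_holo hqi hq0
  refine ⟨Cau q, hgh, ?_⟩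
  have hBU : ball z₀ r ⊆ U := by
    refine subset_trans ?_ hU
    intro z hz
    rw [mem_ball] at hz
    rw [mem_closedBall]
    linarith
  have hgl : LocallyIntegrableOn (Cau q) (ball z₀ r) :=
    hgh.continuousOn.locallyIntegrableOn measurableSet_ball
  have hfl : LocallyIntegrableOn f (ball z₀ r) := hf.mono_set hBU
  have hkey : ∀ᵐ x, x ∈ ball z₀ r → (f - Cau q) x = 0 := by
    apply isOpen_ball.ae_eq_zero_of_integral_contDiff_smul_eq_zero (hfl.sub hgl)
    intro φ hφ hφc hφs
    obtain ⟨ψ, hψ⟩ : ∃ ψ : ℂ → ℂ, ψ = fun z => ((φ z : ℝ) : ℂ) := ⟨_, rfl⟩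
    have hψs : ContDiff ℝ ∞ ψ := by
      rw [hψ]
      exact ofRealCLM.contDiff.comp hφ
    have hsupp : Function.support ψ = Function.support φ := by
      rw [hψ]; ext z; simp
    have hψt : tsupport ψ = tsupport φ := by
      unfold tsupport; rw [hsupp]
    have hψc : HasCompactSupport ψ := by
      unfold HasCompactSupport; rw [hψt]; exact hφc
    have hψT : Test univ ψ := ⟨hψs, hψc, subset_univ _⟩
    have hψB : tsupport ψ ⊆ ball z₀ r := by rw [hψt]; exact hφs
    have hΨs : ContDiff ℝ ∞ (Cau ψ) := cau_contDiff hψT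
    have hT : Test U (fun z => χ z * Cau ψ z) := by
      refine ⟨hχs.mul hΨs, hχT.cpt.mul_right, ?_⟩
      exact (tsupport_mul_subset_left).trans hχT.sub
    have h0 := h _ hT
    have h1 : ∀ z, f z * dzb (fun z => χ z * Cau ψ z) z = q z * Cau ψ z + f z * ψ z := by
      intro z
      rw [(dz_mul (hχs.differentiable (by simp) z) (hΨs.differentiable (by simp) z)).2,
        (dz_cau hψT z).2, cau_dzb hψT z, hq]
      have h2 : χ z * ψ z = ψ z := by
        by_cases hz : ψ z = 0
        · rw [hz, mul_zero]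
        · rw [hone z (ball_subset_closedBall (hψB (subset_tsupport _ hz))), one_mul]
      calc f z * (dzb χ z * Cau ψ z + χ z * ψ z) = f z * dzb χ z * Cau ψ z + f z * (χ z * ψ z) := by
            ring
        _ = _ := by rw [h2]
    have hfψ : Integrable (fun z => f z * ψ z) := wy_int hf hψs.continuous hψc (hψB.trans hBU)
    have hgψ : Integrable (fun z => Cau q z * ψ z) := wy_int hgl hψs.continuous hψc hψB
    have hqΨ : Integrable (fun z => q z * Cau ψ z) := by
      have h2 : Integrable (fun z => f z * (dzb χ z * Cau ψ z)) := by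
        apply wy_int hf (hdT.smooth.continuous.mul hΨs.continuous) hdT.cpt.mul_right
        exact (tsupport_mul_subset_left).trans hdT.sub
      refine h2.congr (Eventually.of_forall fun z => ?_)
      simp only [hq]
      ring
    simp_rw [h1] at h0
    rw [integral_add hqΨ hfψ] at h0
    obtain ⟨r', hr', hsub⟩ := exists_lt_subset_ball (isClosed_tsupport ψ) hψB
    have h3 := wy_fubini hqi hψs.continuous hψc (show 0 < r - r' by linarith) (by
      intro z ζ hz hζ
      have e1 : r ≤ dist z z₀ := by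
        by_contra hcon
        exact hz (hq0 z (mem_ball.2 (not_le.1 hcon)))
      have e2 : dist ζ z₀ < r' := mem_ball.1 (hsub (subset_tsupport _ hζ))
      have e3 := dist_triangle z ζ z₀
      rw [dist_eq_norm z ζ] at e3
      linarith)
    rw [h3] at h0
    have h4 : ∫ x, φ x • (f - Cau q) x = ∫ x, (f x * ψ x - Cau q x * ψ x) := by
      congr 1
      ext x
      rw [hψ, real_smul, Pi.sub_apply]
      ring
    rw [h4, integral_sub hfψ hgψ]
    linear_combination h0
  rw [Filter.EventuallyEq, ae_restrict_iff' measurableSet_ball]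
  filter_upwards [hkey] with x hx hxB
  exact sub_eq_zero.1 (hx hxB)

theorem weyl {U : Set ℂ} (hU : IsOpen U) {f : ℂ → ℂ} (hf : LocallyIntegrableOn f U)
    (h : ∀ φ, Test U φ → ∫ z, f z * dzb φ z = 0) :
    ∃ g, DifferentiableOn ℂ g U ∧ f =ᵐ[volume.restrict U] g := by
  have hloc : ∀ z : ℂ, ∃ (r : ℝ) (g : ℂ → ℂ), z ∈ U → 0 < r ∧ ball z r ⊆ U ∧
      DifferentiableOn ℂ g (ball z r) ∧ f =ᵐ[volume.restrict (ball z r)] g := by
    intro z
    by_cases hz : z ∈ U
    · obtain ⟨s, hs, hsU⟩ := Metric.isOpen_iff.1 hU z hz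
      obtain ⟨g, hg1, hg2⟩ := wy_local hf h (z₀ := z) (r := s / 4) (by positivity)
        (by
          refine subset_trans ?_ hsU
          intro x hx
          rw [mem_closedBall] at hx
          rw [mem_ball]
          linarith)
      refine ⟨s / 4, g, fun _ => ⟨by positivity, ?_, hg1, hg2⟩⟩
      refine subset_trans ?_ hsU
      exact ball_subset_ball (by linarith)
    · exact ⟨0, 0, fun h => absurd h hz⟩
  choose ρ G hG using hloc
  have hagree : ∀ z₀ ∈ U, EqOn (fun z => G z z) (G z₀) (ball z₀ (ρ z₀)) := by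
    intro z₀ hz₀ z hz
    obtain ⟨h1, h2, h3, h4⟩ := hG z₀ hz₀
    obtain ⟨h5, h6, h7, h8⟩ := hG z (h2 hz)
    have h9 : G z =ᵐ[volume.restrict (ball z (ρ z) ∩ ball z₀ (ρ z₀))] G z₀ := by
      have e1 : f =ᵐ[volume.restrict (ball z (ρ z) ∩ ball z₀ (ρ z₀))] G z :=
        ae_restrict_of_ae_restrict_of_subset inter_subset_left h8
      have e2 : f =ᵐ[volume.restrict (ball z (ρ z) ∩ ball z₀ (ρ z₀))] G z₀ :=
        ae_restrict_of_ae_restrict_of_subset inter_subset_right h4
      exact e1.symm.trans e2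
    have h10 := Measure.eqOn_open_of_ae_eq h9 (isOpen_ball.inter isOpen_ball)
      (h7.continuousOn.mono inter_subset_left) (h3.continuousOn.mono inter_subset_right)
    exact h10 ⟨mem_ball_self h5, hz⟩
  refine ⟨fun z => G z z, ?_, ?_⟩
  · intro z hz
    obtain ⟨h1, h2, h3, h4⟩ := hG z hz
    have h5 : DifferentiableAt ℂ (G z) z := h3.differentiableAt (ball_mem_nhds z h1)
    have h6 : (fun z => G z z) =ᶠ[𝓝 z] G z := (hagree z hz).eventuallyEq_of_mem (ball_mem_nhds z h1)
    exact (h5.congr_of_eventuallyEq h6).differentiableWithinAt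
  · rw [Filter.EventuallyEq, ae_restrict_iff' hU.measurableSet, ae_iff]
    apply measure_null_of_locally_null
    intro z hz
    simp only [Classical.not_imp, mem_ofPred_eq] at hz
    obtain ⟨h1, h2, h3, h4⟩ := hG z hz.1
    refine ⟨ball z (ρ z) ∩ {a | ¬(a ∈ U → f a = G a a)}, inter_mem
      (mem_nhdsWithin_of_mem_nhds (ball_mem_nhds z h1)) self_mem_nhdsWithin, ?_⟩
    rw [Filter.EventuallyEq, ae_restrict_iff' measurableSet_ball, ae_iff] at h4
    refine measure_mono_null ?_ h4
    rintro a ⟨ha1, ha2⟩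
    simp only [Classical.not_imp, mem_ofPred_eq] at ha2 ⊢
    refine ⟨ha1, fun h5 => ha2.2 ?_⟩
    rw [h5]
    exact (hagree z hz.1 ha1).symm

theorem weyl_cont {U : Set ℂ} (hU : IsOpen U) {f : ℂ → ℂ} (hf : ContinuousOn f U)
    (h : ∀ φ, Test U φ → ∫ z, f z * dzb φ z = 0) : DifferentiableOn ℂ f U := by
  obtain ⟨g, hg, hfg⟩ := weyl hU (hf.locallyIntegrableOn hU.measurableSet) h
  have h1 := Measure.eqOn_open_of_ae_eq hfg hU hf hg.continuousOn
  exact hg.congr h1

end QC
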