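import Pool.Agent.Work.MP_217185_an.Solve
import Pool.Agent.Work.MP_217185_an.Weyl
import Pool.Agent.Work.MP_217185_an.WDb

/-! # CauL2b: the Cauchy transform of a compactly supported `L²` function

Take test functions `F n → h` in `L²` supported in the ball of radius `R + 1`
(`exists_test_L2_supp`).  On every ball `B`, `∫_B ‖Cau h - Cau (F n)‖ ≤ (1/π) ∫ ‖h - F n‖(ζ)
(∫_B |z - ζ|⁻¹ dz) dζ → 0`, so `Cau h` is locally integrable and is the `L¹_loc` limit of
`Cau (F n)`; `dzb (Cau (F n)) = F n → h`, `dz (Cau (F n)) = T (F n) → T h` in `L²`.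
Outside the support differentiate under the integral.  `z Cau h z - (1/π) ∫ h =
(1/π) ∫ h ζ ζ/(z-ζ) → 0`. -/

open MeasureTheory Complex Set Metric Filter
open scoped Topology ENNReal NNReal ContDiff ComplexConjugate

namespace QC

variable {R : ℝ} {h : ℂ → ℂ}

private theorem integrable_supp' (hh : MemLp h 2 (volume : Measure ℂ)) (hs : SuppIn R h) :
    Integrable h := by
  have : IsFiniteMeasure ((volume : Measure ℂ).restrict (ball (0 : ℂ) R)) :=
    ⟨by rw [Measure.restrict_apply_univ]; exact measure_ball_lt_top⟩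
  have h1 : IntegrableOn h (ball (0 : ℂ) R) := (hh.restrict _).integrable (by norm_num)
  refine (integrableOn_iff_integrable_of_support_subset ?_).1 h1
  intro z hz
  rw [mem_ball_zero_iff]
  by_contra hcon
  exact hz (hs z (not_lt.1 hcon))

private theorem norm_L1_le (hh : MemLp h 2 (volume : Measure ℂ)) (hR : 0 ≤ R) (hs : SuppIn R h) :
    ∫ ζ, ‖h ζ‖ ≤ (eLpNorm h 2 volume).toReal * (Real.sqrt Real.pi * R) := by
  have hi := integrable_supp' hh hs
  have h0 : ∫ ζ, ‖h ζ‖ = ∫ ζ in ball (0 : ℂ) R, ‖h ζ‖ := by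
    rw [← integral_indicator measurableSet_ball]
    refine integral_congr_ae (Eventually.of_forall fun ζ => ?_)
    simp only
    by_cases hζ : ζ ∈ ball (0 : ℂ) R
    · rw [indicator_of_mem hζ]
    · rw [indicator_of_notMem hζ]
      rw [mem_ball_zero_iff, not_lt] at hζ
      rw [hs ζ hζ, norm_zero]
  have hm : AEStronglyMeasurable h ((volume : Measure ℂ).restrict (ball (0 : ℂ) R)) :=
    hh.1.restrict
  have h1 := eLpNorm_le_eLpNorm_mul_rpow_measure_univ (p := 1) (q := 2) (by norm_num) hm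
  have h2 : eLpNorm h 2 ((volume : Measure ℂ).restrict (ball (0 : ℂ) R)) ≤
      eLpNorm h 2 (volume : Measure ℂ) := eLpNorm_mono_measure _ Measure.restrict_le_self
  have h3 : ((volume : Measure ℂ).restrict (ball (0 : ℂ) R)) univ = ENNReal.ofReal (Real.pi * R ^ 2) := by
    rw [Measure.restrict_apply_univ, Complex.volume_ball, ENNReal.ofReal_mul Real.pi_pos.le,
      ENNReal.ofReal_pow hR, mul_comm]
    congr 1
    rw [← ENNReal.ofReal_coe_nnreal]
    rfl
  have h4 : (1 / (1 : ℝ≥0∞).toReal - 1 / (2 : ℝ≥0∞).toReal) = 1 / 2 := by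
    norm_num
  rw [h3, h4, ENNReal.ofReal_rpow_of_nonneg (by positivity) (by norm_num), ← Real.sqrt_eq_rpow,
    Real.sqrt_mul Real.pi_pos.le, Real.sqrt_sq hR] at h1
  have h5 : eLpNorm h 1 ((volume : Measure ℂ).restrict (ball (0 : ℂ) R)) ≤
      eLpNorm h 2 (volume : Measure ℂ) * ENNReal.ofReal (Real.sqrt Real.pi * R) :=
    h1.trans (mul_le_mul_left h2 _)
  have h6 := ENNReal.toReal_mono (ENNReal.mul_ne_top hh.2.ne ENNReal.ofReal_ne_top) h5
  rw [ENNReal.toReal_mul, ENNReal.toReal_ofReal (by positivity)] at h6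
  rw [h0]
  refine le_trans (le_of_eq ?_) h6
  rw [eLpNorm_one_eq_lintegral_enorm, integral_norm_eq_lintegral_enorm hm]

/-- bound for a Cauchy type integral -/
private theorem norm_cau_aux {g : ℂ → ℂ} (hg : Integrable g) (hs : SuppIn R g) {z : ℂ}
    (hz : R < ‖z‖) : ‖Cau g z‖ ≤ (1 / Real.pi) * ((∫ ζ, ‖g ζ‖) / (‖z‖ - R)) := by
  unfold Cau
  rw [norm_mul, norm_div, norm_one, Complex.norm_real, Real.norm_of_nonneg Real.pi_pos.le]
  refine mul_le_mul_of_nonneg_left ?_ (by positivity)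
  rw [div_eq_mul_inv, ← integral_mul_const]
  refine norm_integral_le_of_norm_le (hg.norm.mul_const _) (Eventually.of_forall fun ζ => ?_)
  rw [norm_div, div_eq_mul_inv]
  by_cases hζ : R ≤ ‖ζ‖
  · rw [hs ζ hζ]
    simp
  · push Not at hζ
    refine mul_le_mul_of_nonneg_left ?_ (norm_nonneg _)
    refine inv_anti₀ (by linarith) ?_
    have := norm_sub_norm_le z ζ
    linarith

theorem cau_holo (hh : MemLp h 2 (volume : Measure ℂ)) (hs : SuppIn R h) :
    DifferentiableOn ℂ (Cau h) {z | R < ‖z‖} := by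
  have hi := integrable_supp' hh hs
  intro z₀ hz₀
  have hz₀' : R < ‖z₀‖ := hz₀
  refine DifferentiableAt.differentiableWithinAt ?_
  set δ : ℝ := (‖z₀‖ - R) / 2 with hδ
  have hδ0 : 0 < δ := by
    rw [hδ]
    linarith
  have hkey : ∀ ζ, ‖ζ‖ < R → ∀ z ∈ ball z₀ δ, δ ≤ ‖z - ζ‖ := by
    intro ζ hζ z hz
    rw [mem_ball, dist_eq_norm] at hz
    have h1 := norm_sub_norm_le z ζ
    have h2 := norm_sub_norm_le z₀ z
    rw [norm_sub_rev] at h2
    rw [hδ] at hz ⊢
    linarith
  have hd := hasDerivAt_integral_of_dominated_loc_of_deriv_le (𝕜 := ℂ) (μ := (volume : Measure ℂ))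
    (F := fun z ζ => h ζ / (z - ζ)) (F' := fun z ζ => - (h ζ) / (z - ζ) ^ 2) (x₀ := z₀)
    (s := ball z₀ δ) (bound := fun ζ => ‖h ζ‖ * (δ ^ 2)⁻¹) (ball_mem_nhds z₀ hδ0)
    (Eventually.of_forall fun z => by
      have : Measurable (fun ζ : ℂ => (z - ζ)⁻¹) := by fun_prop
      exact (hh.1.mul this.aestronglyMeasurable).congr
        (Eventually.of_forall fun ζ => (div_eq_mul_inv (h ζ) (z - ζ)).symm)) ?_ ?_ ?_
    (hi.norm.mul_const _) ?_
  · have h1 : Cau h = fun z => (1 / (Real.pi : ℂ)) * ∫ ζ, h ζ / (z - ζ) := rfl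
    rw [h1]
    exact (hd.2.differentiableAt).const_mul _
  · refine Integrable.mono' (hi.norm.mul_const (δ⁻¹)) ?_ (Eventually.of_forall fun ζ => ?_)
    · have : Measurable (fun ζ : ℂ => (z₀ - ζ)⁻¹) := by fun_prop
      exact (hh.1.mul this.aestronglyMeasurable).congr
        (Eventually.of_forall fun ζ => (div_eq_mul_inv (h ζ) (z₀ - ζ)).symm)
    · rw [norm_div, div_eq_mul_inv]
      by_cases hζ : R ≤ ‖ζ‖
      · rw [hs ζ hζ]
        simp
      · push Not at hζ
        exact mul_le_mul_of_nonneg_left (inv_anti₀ hδ0 (hkey ζ hζ z₀ (mem_ball_self hδ0)))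
          (norm_nonneg _)
  · have : Measurable (fun ζ : ℂ => ((z₀ - ζ) ^ 2)⁻¹) := by fun_prop
    exact (hh.1.neg.mul this.aestronglyMeasurable).congr
      (Eventually.of_forall fun ζ => (div_eq_mul_inv (-(h ζ)) ((z₀ - ζ) ^ 2)).symm)
  · refine Eventually.of_forall fun ζ z hz => ?_
    rw [norm_div, norm_neg, norm_pow, div_eq_mul_inv]
    by_cases hζ : R ≤ ‖ζ‖
    · rw [hs ζ hζ]
      simp
    · push Not at hζ
      exact mul_le_mul_of_nonneg_left (inv_anti₀ (by positivity)
        (pow_le_pow_left₀ hδ0.le (hkey ζ hζ z hz) 2)) (norm_nonneg _)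
  · refine Eventually.of_forall fun ζ z hz => ?_
    by_cases hζ : R ≤ ‖ζ‖
    · simp only [hs ζ hζ]
      simpa using hasDerivAt_const z (0 : ℂ)
    · push Not at hζ
      have h1 := hkey ζ hζ z hz
      have h2 : z - ζ ≠ 0 := by
        intro h3
        rw [h3, norm_zero] at h1
        linarith
      have h3 : HasDerivAt (fun z : ℂ => z - ζ) 1 z := (hasDerivAt_id z).sub_const ζ
      have h4 := (h3.inv h2).const_mul (h ζ)
      refine HasDerivAt.congr_deriv (f' := _) h4 ?_
      ring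

theorem norm_cau_le (hh : MemLp h 2 (volume : Measure ℂ)) (hR : 0 ≤ R) (hs : SuppIn R h) {z : ℂ}
    (hz : R < ‖z‖) :
    ‖Cau h z‖ ≤ (eLpNorm h 2 volume).toReal * R / (‖z‖ - R) := by
  have hi := integrable_supp' hh hs
  have h1 := norm_cau_aux hi hs hz
  have h2 := norm_L1_le hh hR hs
  have hzR : 0 < ‖z‖ - R := by linarith
  have hN : 0 ≤ (eLpNorm h 2 volume).toReal := ENNReal.toReal_nonneg
  have hpi := Real.pi_gt_three
  have h3 : (1 / Real.pi) * Real.sqrt Real.pi ≤ 1 := by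
    have h4 : Real.sqrt Real.pi ≤ Real.pi := by
      rw [Real.sqrt_le_left (by linarith)]
      nlinarith
    calc (1 / Real.pi) * Real.sqrt Real.pi ≤ (1 / Real.pi) * Real.pi :=
          mul_le_mul_of_nonneg_left h4 (by positivity)
      _ = 1 := by
          field_simp
  calc ‖Cau h z‖ ≤ (1 / Real.pi) * ((∫ ζ, ‖h ζ‖) / (‖z‖ - R)) := h1
    _ ≤ (1 / Real.pi) * (((eLpNorm h 2 volume).toReal * (Real.sqrt Real.pi * R)) / (‖z‖ - R)) :=
        mul_le_mul_of_nonneg_left (div_le_div_of_nonneg_right h2 hzR.le) (by positivity)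
    _ = ((1 / Real.pi) * Real.sqrt Real.pi) * ((eLpNorm h 2 volume).toReal * R / (‖z‖ - R)) := by
        ring
    _ ≤ 1 * ((eLpNorm h 2 volume).toReal * R / (‖z‖ - R)) :=
        mul_le_mul_of_nonneg_right h3 (by positivity)
    _ = (eLpNorm h 2 volume).toReal * R / (‖z‖ - R) := one_mul _

theorem tendsto_mul_cau (hh : MemLp h 2 (volume : Measure ℂ)) (hs : SuppIn R h) :
    Tendsto (fun z => z * Cau h z) (cocompact ℂ) (𝓝 ((1 / (Real.pi : ℂ)) * ∫ ζ, h ζ)) := by
  have hi := integrable_supp' hh hs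
  set g : ℂ → ℂ := fun ζ => h ζ * ζ with hg
  have hgs : SuppIn R g := fun z hz => by simp [hg, hs z hz]
  have hgi : Integrable g := by
    refine Integrable.mono' (hi.norm.mul_const |R|) (hh.1.mul continuous_id.aestronglyMeasurable)
      (Eventually.of_forall fun ζ => ?_)
    simp only [hg]
    rw [norm_mul]
    by_cases hζ : R ≤ ‖ζ‖
    · rw [hs ζ hζ]
      simp
    · push Not at hζ
      exact mul_le_mul_of_nonneg_left (hζ.le.trans (le_abs_self R)) (norm_nonneg _)
  have hnorm : Tendsto (fun z : ℂ => ‖z‖) (cocompact ℂ) atTop := tendsto_norm_cocompact_atTop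
  have hlarge : ∀ᶠ z : ℂ in cocompact ℂ, max R 0 < ‖z‖ := hnorm.eventually_gt_atTop _
  have hpt : ∀ᶠ z : ℂ in cocompact ℂ,
      (1 / (Real.pi : ℂ)) * (∫ ζ, h ζ) + Cau g z = z * Cau h z := by
    filter_upwards [hlarge] with z hz
    have hzR : R < ‖z‖ := (le_max_left _ _).trans_lt hz
    have hint : Integrable (fun ζ => g ζ / (z - ζ)) := by
      refine Integrable.mono' (hgi.norm.mul_const (‖z‖ - R)⁻¹) ?_ (Eventually.of_forall fun ζ => ?_)
      · have : Measurable (fun ζ : ℂ => (z - ζ)⁻¹) := by fun_prop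
        exact (hgi.1.mul this.aestronglyMeasurable).congr
          (Eventually.of_forall fun ζ => (div_eq_mul_inv (g ζ) (z - ζ)).symm)
      · rw [norm_div, div_eq_mul_inv]
        by_cases hζ : R ≤ ‖ζ‖
        · rw [hgs ζ hζ]
          simp
        · push Not at hζ
          refine mul_le_mul_of_nonneg_left ?_ (norm_nonneg _)
          refine inv_anti₀ (by linarith) ?_
          have := norm_sub_norm_le z ζ
          linarith
    unfold Cau
    rw [← mul_add, ← integral_add hi hint, mul_left_comm,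
      ← integral_const_mul z (fun ζ => h ζ / (z - ζ))]
    congr 1
    refine integral_congr_ae (Eventually.of_forall fun ζ => ?_)
    simp only [hg]
    by_cases hζ : R ≤ ‖ζ‖
    · rw [hs ζ hζ]
      simp
    · push Not at hζ
      have h2 : z - ζ ≠ 0 := by
        intro h3
        have h4 : ‖z‖ = ‖ζ‖ := by rw [sub_eq_zero.1 h3]
        linarith
      field_simp
      ring
  have h0 : Tendsto (Cau g) (cocompact ℂ) (𝓝 0) := by
    rw [tendsto_zero_iff_norm_tendsto_zero]
    have h1 : Tendsto (fun z : ℂ => (1 / Real.pi) * ((∫ ζ, ‖g ζ‖) / (‖z‖ - R))) (cocompact ℂ)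
        (𝓝 ((1 / Real.pi) * 0)) := by
      refine Tendsto.const_mul _ ?_
      refine Tendsto.div_atTop (tendsto_const_nhds (x := ∫ ζ, ‖g ζ‖)) ?_
      exact tendsto_atTop_add_const_right _ (-R) hnorm
    rw [mul_zero] at h1
    refine squeeze_zero' (Eventually.of_forall fun z => norm_nonneg _) ?_ h1
    filter_upwards [hlarge] with z hz
    exact norm_cau_aux hgi hgs ((le_max_left _ _).trans_lt hz)
  have h1 := (tendsto_const_nhds (x := (1 / (Real.pi : ℂ)) * ∫ ζ, h ζ) (f := cocompact ℂ)).add h0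
  rw [add_zero] at h1
  exact h1.congr' hpt

theorem tendsto_cau (hh : MemLp h 2 (volume : Measure ℂ)) (hs : SuppIn R h) :
    Tendsto (Cau h) (cocompact ℂ) (𝓝 0) := by
  have h1 := tendsto_mul_cau hh hs
  have h2 : Tendsto (fun z : ℂ => z⁻¹) (cocompact ℂ) (𝓝 0) := by
    rw [← Metric.cobounded_eq_cocompact]
    exact tendsto_inv₀_cobounded
  have h3 := h2.mul h1
  rw [zero_mul] at h3
  refine h3.congr' ?_
  have h4 : ∀ᶠ z : ℂ in cocompact ℂ, z ≠ 0 := by
    exact (isCompact_singleton (x := (0 : ℂ))).compl_mem_cocompact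
  filter_upwards [h4] with z hz
  field_simp

end QC
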