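import Pool.Agent.Work.MP_217185_an.CauL2a
import Pool.Agent.Work.MP_217185_an.CauL2b

/-! # CauL2: umbrella file, nothing to prove here -/
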