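import Pool.Agent.Work.MP_217185_an.GlueA
import Pool.Agent.Work.MP_217185_an.WDb

/-! # Glue: the unit circle is removable

`W` continuous on the plane, with weak derivatives in `D` and in the complement of the closed disc,
square integrable over bounded sets.  For a test function `φ` and `η_n` from `exists_eta`, `φ η_n` is the
sum of a test function in `D` and one in `{1 < ‖z‖}`, so
`∫ W dz (φ η_n) = - ∫ A φ η_n → - ∫ A φ` (dominated convergence, the circle has measure zero), and
`∫ W dz (φ η_n) = ∫ W η_n dz φ + ∫ W φ dz η_n → ∫ W dz φ + 0`.  Same for `dzb`. -/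

open MeasureTheory Complex Set Metric Filter
open scoped Topology ENNReal NNReal ContDiff ComplexConjugate

namespace QC

/-- a locally square integrable function times a continuous function with compact support -/
private theorem gc_int {A φ : ℂ → ℂ} (hA : L2loc univ A) (hφ : Continuous φ)
    (hc : HasCompactSupport φ) : Integrable (fun z => A z * φ z) := by
  have h0 : IsFiniteMeasure (volume.restrict (tsupport φ)) :=
    ⟨by rw [Measure.restrict_apply_univ]; exact hc.measure_lt_top⟩
  have h1 : IntegrableOn A (tsupport φ) :=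
    (hA (tsupport φ) (subset_univ _) hc).integrable (by norm_num)
  have h2 : IntegrableOn (fun z => A z * φ z) (tsupport φ) :=
    h1.mul_continuousOn hφ.continuousOn hc
  rw [integrableOn_iff_integrable_of_support_subset] at h2
  · exact h2
  · intro z hz
    apply subset_tsupport
    rw [Function.mem_support] at hz ⊢
    exact right_ne_zero_of_mul hz

private theorem gc_ae : ∀ᵐ z : ℂ, ‖z‖ ≠ 1 := by
  have e3 : ∀ᵐ z : ℂ, z ∉ sphere (0 : ℂ) 1 :=
    measure_eq_zero_iff_ae_notMem.1 (Measure.addHaar_sphere _ _ _)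
  filter_upwards [e3] with z hz h
  exact hz (mem_sphere_zero_iff_norm.2 h)

private theorem gc_dom {η : ℕ → ℂ → ℂ} (hη1 : ∀ n, Continuous (η n)) (hη2 : ∀ n z, ‖η n z‖ ≤ 1)
    (hη3 : ∀ z : ℂ, ‖z‖ ≠ 1 → ∀ᶠ n in atTop, η n z = 1) {g : ℂ → ℂ} (hg : Integrable g) :
    Tendsto (fun n => ∫ z, g z * η n z) atTop (𝓝 (∫ z, g z)) := by
  have h1 : Tendsto (fun n => ∫ z, g z * η n z) atTop (𝓝 (∫ z, g z * 1)) := by
    apply tendsto_integral_of_dominated_convergence (fun z => ‖g z‖)
    · intro n
      exact hg.aestronglyMeasurable.mul (hη1 n).aestronglyMeasurable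
    · exact hg.norm
    · intro n
      refine Eventually.of_forall fun z => ?_
      rw [norm_mul]
      exact mul_le_of_le_one_right (norm_nonneg _) (hη2 n z)
    · filter_upwards [gc_ae] with z hz
      refine Tendsto.const_mul _ ?_
      refine tendsto_const_nhds.congr' ?_
      filter_upwards [hη3 z hz] with n hn
      exact hn.symm
  simpa using h1

theorem glue_circle {W A B : ℂ → ℂ} (hW : Continuous W) (h1 : WD D W A B)
    (h2 : WD {z | 1 < ‖z‖} W A B) (hA : L2loc univ A) (hB : L2loc univ B) : WD univ W A B := by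
  obtain ⟨U, hU⟩ : ∃ U : Set ℂ, U = {z | ‖z‖ ≠ 1} := ⟨_, rfl⟩
  have hUo : IsOpen U := by
    rw [hU]
    exact isOpen_ne_fun continuous_norm continuous_const
  have hEo : IsOpen {z : ℂ | 1 < ‖z‖} := isOpen_lt continuous_const continuous_norm
  have hWU : WD U W A B := by
    apply WD.of_local hUo
    intro z hz
    rw [hU] at hz
    rcases lt_or_gt_of_ne hz with h | h
    · refine ⟨D, isOpen_ball, mem_ball_zero_iff.2 h, ?_, h1⟩
      intro x hx
      rw [hU]
      exact ne_of_lt (mem_ball_zero_iff.1 hx)
    · refine ⟨{z | 1 < ‖z‖}, hEo, h, ?_, h2⟩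
      intro x hx
      rw [hU]
      exact ne_of_gt hx
  obtain ⟨η, hη1, hη2, hη3, hη4, hη5⟩ := exists_eta
  have hT : ∀ φ, Test univ φ → ∀ n, Test U (fun z => φ z * η n z) := by
    intro φ hφ n
    refine ⟨hφ.smooth.mul (hη1 n), hφ.cpt.mul_right, ?_⟩
    obtain ⟨δ, hδ, hδz⟩ := hη3 n
    have hcl : IsClosed {z : ℂ | δ ≤ |‖z‖ - 1|} :=
      isClosed_le continuous_const (continuous_norm.sub continuous_const).abs
    have hsub : tsupport (fun z => φ z * η n z) ⊆ {z : ℂ | δ ≤ |‖z‖ - 1|} := by
      apply closure_minimal _ hcl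
      intro z hz
      by_contra hcon
      have h3 : |‖z‖ - 1| < δ := not_le.1 hcon
      apply hz
      simp only [hδz z h3, mul_zero]
    refine hsub.trans ?_
    intro z hz
    rw [hU]
    intro h3
    have h4 : δ ≤ |‖z‖ - 1| := hz
    rw [h3, sub_self, abs_zero] at h4
    linarith
  have hηc : ∀ n, Continuous (η n) := fun n => (hη1 n).continuous
  have hηd : ∀ n, Differentiable ℝ (η n) := fun n => (hη1 n).differentiable (by simp)
  refine ⟨(hW.locallyIntegrable).locallyIntegrableOn _, hA, hB, ?_, ?_⟩
  · intro φ hφ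
    have hφd : Differentiable ℝ φ := hφ.smooth.differentiable (by simp)
    have hφc := hφ.smooth.continuous
    have hdT := hφ.dz.1
    have i1 : ∀ n, Integrable (fun z => W z * dz φ z * η n z) := fun n =>
      ((hW.mul hdT.smooth.continuous).mul (hηc n)).integrable_of_hasCompactSupport
        (hdT.cpt.mul_left.mul_right)
    have i2 : ∀ n, Integrable (fun z => W z * φ z * dz (η n) z) := fun n =>
      ((hW.mul hφc).mul (contDiff_dz (hη1 n)).1.continuous).integrable_of_hasCompactSupport
        (hφ.cpt.mul_left.mul_right)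
    have e1 : ∀ n, (∫ z, W z * dz φ z * η n z) + ∫ z, W z * φ z * dz (η n) z =
        - ∫ z, A z * φ z * η n z := by
      intro n
      have e2 := hWU.da _ (hT φ hφ n)
      rw [← integral_add (i1 n) (i2 n)]
      have e3 : (fun z => A z * (φ z * η n z)) = fun z => A z * φ z * η n z := by
        ext z; ring
      rw [e3] at e2
      rw [← e2]
      congr 1
      ext z
      rw [(dz_mul (hφd z) (hηd n z)).1]
      ring
    have l1 := gc_dom hηc hη2 hη4 (g := fun z => W z * dz φ z)
      ((hW.mul hdT.smooth.continuous).integrable_of_hasCompactSupport hdT.cpt.mul_left)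
    have l2 := (hη5 (fun z => W z * φ z) (hW.mul hφc) hφ.cpt.mul_left).1
    have l3 := gc_dom hηc hη2 hη4 (g := fun z => A z * φ z) (gc_int hA hφc hφ.cpt)
    have l4 := l1.add l2
    simp_rw [e1] at l4
    have l5 := tendsto_nhds_unique l4 l3.neg
    simpa using l5
  · intro φ hφ
    have hφd : Differentiable ℝ φ := hφ.smooth.differentiable (by simp)
    have hφc := hφ.smooth.continuous
    have hdT := hφ.dz.2
    have i1 : ∀ n, Integrable (fun z => W z * dzb φ z * η n z) := fun n =>
      ((hW.mul hdT.smooth.continuous).mul (hηc n)).integrable_of_hasCompactSupport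
        (hdT.cpt.mul_left.mul_right)
    have i2 : ∀ n, Integrable (fun z => W z * φ z * dzb (η n) z) := fun n =>
      ((hW.mul hφc).mul (contDiff_dz (hη1 n)).2.continuous).integrable_of_hasCompactSupport
        (hφ.cpt.mul_left.mul_right)
    have e1 : ∀ n, (∫ z, W z * dzb φ z * η n z) + ∫ z, W z * φ z * dzb (η n) z =
        - ∫ z, B z * φ z * η n z := by
      intro n
      have e2 := hWU.db _ (hT φ hφ n)
      rw [← integral_add (i1 n) (i2 n)]
      have e3 : (fun z => B z * (φ z * η n z)) = fun z => B z * φ z * η n z := by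
        ext z; ring
      rw [e3] at e2
      rw [← e2]
      congr 1
      ext z
      rw [(dz_mul (hφd z) (hηd n z)).2]
      ring
    have l1 := gc_dom hηc hη2 hη4 (g := fun z => W z * dzb φ z)
      ((hW.mul hdT.smooth.continuous).integrable_of_hasCompactSupport hdT.cpt.mul_left)
    have l2 := (hη5 (fun z => W z * φ z) (hW.mul hφc) hφ.cpt.mul_left).2
    have l3 := gc_dom hηc hη2 hη4 (g := fun z => B z * φ z) (gc_int hB hφc hφ.cpt)
    have l4 := l1.add l2
    simp_rw [e1] at l4
    have l5 := tendsto_nhds_unique l4 l3.neg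
    simpa using l5

end QC
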