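import Pool.Agent.Work.MP_217185_an.TOp

/-! # SolveA: the equation `h = μ T h + g` in `L²` and the function `hh μ`

Multiplication by `μ` has norm `≤ k < 1` on `L²` and `T` is an isometry: Banach fixed point
(`ContractingWith`) or Neumann series.  `hh μ` is the solution for `g = μ`, with the pointwise
representative `hh μ z = μ z (1 + T h z)`.
`tendsto`: `h_n - h = μ_n T (h_n - h) + (μ_n - μ)(1 + T h)`, so
`‖h_n - h‖₂ ≤ (1-k)⁻¹ ‖(μ_n - μ)(1 + T h)‖₂ → 0` by dominated convergence (all supports in a fixed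
ball; `1 + T h ∈ L²` on that ball).
`integral_sub`: with `a = 1 + T h_μ`, `c = 1 + T h_ν`: `∫ (μ-ν) a c = ∫ h_μ c - ∫ h_ν a = ∫ h_μ - ∫ h_ν
+ ∫ h_μ T h_ν - ∫ h_ν T h_μ` and use `Tf_symm`. -/

open MeasureTheory Complex Set Metric Filter
open scoped Topology ENNReal NNReal ContDiff ComplexConjugate

namespace QC

theorem SuppIn.memLp {k R : ℝ} {μ : ℂ → ℂ} (h : Bel k μ) (hs : SuppIn R μ) :
    MemLp μ 2 (volume : Measure ℂ) := by
  have h1 : μ = (ball (0 : ℂ) R).indicator μ := by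
    ext z
    by_cases hz : z ∈ ball (0 : ℂ) R
    · rw [indicator_of_mem hz]
    · rw [indicator_of_notMem hz]
      apply hs
      simpa using hz
  rw [h1, memLp_indicator_iff_restrict measurableSet_ball]
  have : IsFiniteMeasure (volume.restrict (ball (0 : ℂ) R)) :=
    ⟨by rw [Measure.restrict_apply_univ]; exact measure_ball_lt_top⟩
  exact MemLp.of_bound h.meas.aestronglyMeasurable k (Eventually.of_forall h.le)

private theorem SolveA_mul_le {k : ℝ} {μ : ℂ → ℂ} (hμ : Bel k μ) (f : ℂ → ℂ) :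
    eLpNorm (fun z => μ z * f z) 2 (volume : Measure ℂ)
      ≤ ENNReal.ofReal k * eLpNorm f 2 (volume : Measure ℂ) := by
  refine eLpNorm_le_mul_eLpNorm_of_ae_le_mul (Eventually.of_forall fun z => ?_) 2
  rw [norm_mul]
  exact mul_le_mul_of_nonneg_right (hμ.le z) (norm_nonneg _)

private theorem SolveA_mul_memLp {k : ℝ} {μ : ℂ → ℂ} (hμ : Bel k μ) {f : ℂ → ℂ}
    (hf : MemLp f 2 (volume : Measure ℂ)) : MemLp (fun z => μ z * f z) 2 (volume : Measure ℂ) := by
  refine MemLp.of_le_mul hf (hμ.meas.aestronglyMeasurable.mul hf.1)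
    (Eventually.of_forall fun z => ?_) (c := k)
  rw [norm_mul]
  exact mul_le_mul_of_nonneg_right (hμ.le z) (norm_nonneg _)

private theorem SolveA_nonneg {k : ℝ} {μ : ℂ → ℂ} (hμ : Bel k μ) : 0 ≤ k :=
  (norm_nonneg _).trans (hμ.le 0)

/-- a priori bound, in particular uniqueness. -/
theorem sol_bound {k : ℝ} {μ : ℂ → ℂ} (hμ : Bel k μ) {g h : ℂ → ℂ}
    (hg : MemLp g 2 (volume : Measure ℂ)) (hh : MemLp h 2 (volume : Measure ℂ))
    (he : h =ᵐ[volume] fun z => μ z * Tf h z + g z) :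
    eLpNorm h 2 volume ≤ ENNReal.ofReal (1 / (1 - k)) * eLpNorm g 2 volume := by
  have hk := SolveA_nonneg hμ
  have hk1 : 0 < 1 - k := sub_pos.mpr hμ.lt
  have h1 : eLpNorm h 2 volume ≤ ENNReal.ofReal k * eLpNorm h 2 volume + eLpNorm g 2 volume := by
    calc eLpNorm h 2 volume = eLpNorm (fun z => μ z * Tf h z + g z) 2 volume := eLpNorm_congr_ae he
      _ ≤ eLpNorm (fun z => μ z * Tf h z) 2 volume + eLpNorm g 2 volume :=
          eLpNorm_add_le (SolveA_mul_memLp hμ (memLp_Tf hh)).1 hg.1 (by norm_num)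
      _ ≤ ENNReal.ofReal k * eLpNorm h 2 volume + eLpNorm g 2 volume := by
          refine add_le_add ((SolveA_mul_le hμ _).trans ?_) le_rfl
          rw [eLpNorm_Tf hh]
  have hN : eLpNorm h 2 volume ≠ ⊤ := hh.2.ne
  have hG : eLpNorm g 2 volume ≠ ⊤ := hg.2.ne
  have h2 : (eLpNorm h 2 volume).toReal
      ≤ k * (eLpNorm h 2 volume).toReal + (eLpNorm g 2 volume).toReal := by
    have h3 := ENNReal.toReal_mono
      (ENNReal.add_ne_top.mpr ⟨ENNReal.mul_ne_top ENNReal.ofReal_ne_top hN, hG⟩) h1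
    rwa [ENNReal.toReal_add (ENNReal.mul_ne_top ENNReal.ofReal_ne_top hN) hG, ENNReal.toReal_mul,
      ENNReal.toReal_ofReal hk] at h3
  have h4 : (eLpNorm h 2 volume).toReal ≤ 1 / (1 - k) * (eLpNorm g 2 volume).toReal := by
    rw [one_div, ← div_eq_inv_mul, le_div_iff₀ hk1]
    linarith
  rw [← ENNReal.ofReal_toReal hN, ← ENNReal.ofReal_toReal hG,
    ← ENNReal.ofReal_mul (one_div_nonneg.mpr hk1.le)]
  exact ENNReal.ofReal_le_ofReal h4

theorem exists_sol {k : ℝ} {μ : ℂ → ℂ} (hμ : Bel k μ) {g : ℂ → ℂ}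
    (hg : MemLp g 2 (volume : Measure ℂ)) :
    ∃ h, MemLp h 2 (volume : Measure ℂ) ∧ (h =ᵐ[volume] fun z => μ z * Tf h z + g z) ∧
      eLpNorm h 2 volume ≤ ENNReal.ofReal (1 / (1 - k)) * eLpNorm g 2 volume := by
  have hk := SolveA_nonneg hμ
  have hm : ∀ x : Lp ℂ 2 (volume : Measure ℂ),
      MemLp (fun z => μ z * Tf (x : ℂ → ℂ) z + g z) 2 (volume : Measure ℂ) := fun x =>
    (SolveA_mul_memLp hμ (memLp_Tf (Lp.memLp x))).add hg
  set Φ : Lp ℂ 2 (volume : Measure ℂ) → Lp ℂ 2 (volume : Measure ℂ) := fun x => (hm x).toLp _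
    with hΦ
  have hc : ContractingWith ⟨k, hk⟩ Φ := by
    refine ⟨by exact_mod_cast hμ.lt, fun x y => ?_⟩
    rw [hΦ]
    simp only
    rw [Lp.edist_toLp_toLp, Lp.edist_def]
    have h1 : ((fun z => μ z * Tf (x : ℂ → ℂ) z + g z) - fun z => μ z * Tf (y : ℂ → ℂ) z + g z)
        = fun z => μ z * (Tf (x : ℂ → ℂ) z - Tf (y : ℂ → ℂ) z) := by
      ext z
      simp only [Pi.sub_apply]
      ring
    rw [h1]
    refine (SolveA_mul_le hμ _).trans ?_
    have h2 : eLpNorm (fun z => Tf (x : ℂ → ℂ) z - Tf (y : ℂ → ℂ) z) 2 volume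
        = eLpNorm ((x : ℂ → ℂ) - (y : ℂ → ℂ)) 2 volume := by
      exact (eLpNorm_congr_ae (Tf_sub (Lp.memLp x) (Lp.memLp y))).symm.trans
        (eLpNorm_Tf ((Lp.memLp x).sub (Lp.memLp y)))
    rw [h2]
    refine mul_le_mul_left ?_ _
    rw [ENNReal.ofReal_eq_coe_nnreal hk]
    exact le_rfl
  set h : Lp ℂ 2 (volume : Measure ℂ) := hc.fixedPoint Φ
  have hfix : Φ h = h := hc.fixedPoint_isFixedPt
  have he : (h : ℂ → ℂ) =ᵐ[volume] fun z => μ z * Tf (h : ℂ → ℂ) z + g z := by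
    have h1 := (hm h).coeFn_toLp
    have h2 : ((hm h).toLp _ : Lp ℂ 2 (volume : Measure ℂ)) = h := hfix
    rw [h2] at h1
    exact h1
  exact ⟨h, Lp.memLp h, he, sol_bound hμ hg (Lp.memLp h) he⟩

variable {k R : ℝ} {μ ν : ℂ → ℂ}

end QC
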