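import Pool.Agent.Work.MP_217185_an.TOp
import Pool.Agent.Work.MP_217185_an.SolveA

/-! # SolveDef: the equation `h = μ T h + g` in `L²` and the function `hh μ`

Multiplication by `μ` has norm `≤ k < 1` on `L²` and `T` is an isometry: Banach fixed point
(`ContractingWith`) or Neumann series.  `hh μ` is the solution for `g = μ`, with the pointwise
representative `hh μ z = μ z (1 + T h z)`.
`tendsto`: `h_n - h = μ_n T (h_n - h) + (μ_n - μ)(1 + T h)`, so
`‖h_n - h‖₂ ≤ (1-k)⁻¹ ‖(μ_n - μ)(1 + T h)‖₂ → 0` by dominated convergence (all supports in a fixed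
ball; `1 + T h ∈ L²` on that ball).
`integral_sub`: with `a = 1 + T h_μ`, `c = 1 + T h_ν`: `∫ (μ-ν) a c = ∫ h_μ c - ∫ h_ν a = ∫ h_μ - ∫ h_ν
+ ∫ h_μ T h_ν - ∫ h_ν T h_μ` and use `Tf_symm`. -/

open MeasureTheory Complex Set Metric Filter
open scoped Topology ENNReal NNReal ContDiff ComplexConjugate

namespace QC

open Classical in
/-- the solution of `h = μ (1 + T h)`. -/
noncomputable def hh (μ : ℂ → ℂ) : ℂ → ℂ :=
  if h : ∃ h, MemLp h 2 (volume : Measure ℂ) ∧ h =ᵐ[volume] fun z => μ z * Tf h z + μ z then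
    fun z => μ z * (1 + Tf h.choose z) else 0

variable {k R : ℝ} {μ ν : ℂ → ℂ}

end QC
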