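import Pool.Agent.Work.MP_217185_an.TOp
import Pool.Agent.Work.MP_217185_an.SolveDef

/-! # SolveB: the equation `h = μ T h + g` in `L²` and the function `hh μ`

Multiplication by `μ` has norm `≤ k < 1` on `L²` and `T` is an isometry: Banach fixed point
(`ContractingWith`) or Neumann series.  `hh μ` is the solution for `g = μ`, with the pointwise
representative `hh μ z = μ z (1 + T h z)`.
`tendsto`: `h_n - h = μ_n T (h_n - h) + (μ_n - μ)(1 + T h)`, so
`‖h_n - h‖₂ ≤ (1-k)⁻¹ ‖(μ_n - μ)(1 + T h)‖₂ → 0` by dominated convergence (all supports in a fixed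
ball; `1 + T h ∈ L²` on that ball).
`integral_sub`: with `a = 1 + T h_μ`, `c = 1 + T h_ν`: `∫ (μ-ν) a c = ∫ h_μ c - ∫ h_ν a = ∫ h_μ - ∫ h_ν
+ ∫ h_μ T h_ν - ∫ h_ν T h_μ` and use `Tf_symm`. -/

open MeasureTheory Complex Set Metric Filter
open scoped Topology ENNReal NNReal ContDiff ComplexConjugate

namespace QC

variable {k R : ℝ} {μ ν : ℂ → ℂ}

private theorem SolveB_ex (hμ : Bel k μ) (hs : SuppIn R μ) :
    ∃ h, MemLp h 2 (volume : Measure ℂ) ∧ h =ᵐ[volume] fun z => μ z * Tf h z + μ z := by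
  obtain ⟨h, h1, h2, -⟩ := exists_sol hμ (SuppIn.memLp hμ hs)
  exact ⟨h, h1, h2⟩

private theorem SolveB_spec (hμ : Bel k μ) (hs : SuppIn R μ) :
    ∃ h0, MemLp h0 2 (volume : Measure ℂ) ∧ h0 =ᵐ[volume] hh μ ∧
      hh μ = fun z => μ z * (1 + Tf h0 z) := by
  have hex := SolveB_ex hμ hs
  have h1 : hh μ = fun z => μ z * (1 + Tf hex.choose z) := by
    unfold hh
    rw [dif_pos hex]
  refine ⟨hex.choose, hex.choose_spec.1, ?_, h1⟩
  rw [h1]
  filter_upwards [hex.choose_spec.2] with z hz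
  rw [hz]
  ring

theorem hh_memLp (hμ : Bel k μ) (hs : SuppIn R μ) : MemLp (hh μ) 2 (volume : Measure ℂ) := by
  obtain ⟨h0, h1, h2, -⟩ := SolveB_spec hμ hs
  exact (memLp_congr_ae h2).mp h1

/-- pointwise everywhere. -/
theorem hh_eq (hμ : Bel k μ) (hs : SuppIn R μ) (z : ℂ) : hh μ z = μ z * (1 + Tf (hh μ) z) := by
  obtain ⟨h0, h1, h2, h3⟩ := SolveB_spec hμ hs
  rw [← Tf_congr h2]
  exact congrFun h3 z

theorem hh_measurable (hμ : Bel k μ) (hs : SuppIn R μ) : Measurable (hh μ) := by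
  have h : hh μ = fun z => μ z * (1 + Tf (hh μ) z) := funext (hh_eq hμ hs)
  rw [h]
  exact hμ.meas.mul (measurable_const.add (measurable_Tf _))

theorem hh_suppIn (hμ : Bel k μ) (hs : SuppIn R μ) : SuppIn R (hh μ) := by
  intro z hz
  rw [hh_eq hμ hs, hs z hz, zero_mul]

theorem hh_unique (hμ : Bel k μ) (hs : SuppIn R μ) {h : ℂ → ℂ}
    (hh' : MemLp h 2 (volume : Measure ℂ)) (he : h =ᵐ[volume] fun z => μ z * (1 + Tf h z)) :
    h =ᵐ[volume] hh μ := by
  have h1 : (fun z => h z - hh μ z) =ᵐ[volume]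
      fun z => μ z * Tf (fun z => h z - hh μ z) z + (0 : ℂ → ℂ) z := by
    filter_upwards [he, Tf_sub hh' (hh_memLp hμ hs)] with z hz1 hz2
    rw [hz2]
    have h3 := hh_eq hμ hs z
    simp only [Pi.zero_apply, add_zero]
    linear_combination hz1 - h3
  have h2 := sol_bound hμ (MemLp.zero' : MemLp (0 : ℂ → ℂ) 2 volume)
    (hh'.sub (hh_memLp hμ hs)) h1
  have h0 : eLpNorm (fun _ : ℂ => (0 : ℂ)) 2 (volume : Measure ℂ) = 0 := eLpNorm_zero'
  rw [h0, mul_zero] at h2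
  have h3 := (eLpNorm_eq_zero_iff (hh'.sub (hh_memLp hμ hs)).1 (by norm_num)).mp
    (le_antisymm h2 (zero_le))
  filter_upwards [h3] with z hz
  have h4 : h z - hh μ z = 0 := hz
  exact sub_eq_zero.mp h4

/-- `hh` only depends on the a.e. class. -/
theorem hh_congr (hμ : Bel k μ) (hs : SuppIn R μ) (hν : Bel k ν) (hs' : SuppIn R ν)
    (h : μ =ᵐ[volume] ν) : hh μ =ᵐ[volume] hh ν := by
  apply hh_unique hν hs' (hh_memLp hμ hs)
  filter_upwards [h] with z hz
  rw [← hz]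
  exact hh_eq hμ hs z

theorem hh_norm (hμ : Bel k μ) (hs : SuppIn R μ) :
    eLpNorm (hh μ) 2 volume ≤ ENNReal.ofReal (1 / (1 - k)) * eLpNorm μ 2 volume := by
  apply sol_bound hμ (SuppIn.memLp hμ hs) (hh_memLp hμ hs)
  refine Eventually.of_forall fun z => ?_
  rw [hh_eq hμ hs z]
  simp only
  ring

end QC
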