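import Pool.Agent.Work.MP_217185_an.TOp
import Pool.Agent.Work.MP_217185_an.SolveB

/-! # SolveC: the equation `h = μ T h + g` in `L²` and the function `hh μ`

Multiplication by `μ` has norm `≤ k < 1` on `L²` and `T` is an isometry: Banach fixed point
(`ContractingWith`) or Neumann series.  `hh μ` is the solution for `g = μ`, with the pointwise
representative `hh μ z = μ z (1 + T h z)`.
`tendsto`: `h_n - h = μ_n T (h_n - h) + (μ_n - μ)(1 + T h)`, so
`‖h_n - h‖₂ ≤ (1-k)⁻¹ ‖(μ_n - μ)(1 + T h)‖₂ → 0` by dominated convergence (all supports in a fixed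
ball; `1 + T h ∈ L²` on that ball).
`integral_sub`: with `a = 1 + T h_μ`, `c = 1 + T h_ν`: `∫ (μ-ν) a c = ∫ h_μ c - ∫ h_ν a = ∫ h_μ - ∫ h_ν
+ ∫ h_μ T h_ν - ∫ h_ν T h_μ` and use `Tf_symm`. -/

open MeasureTheory Complex Set Metric Filter
open scoped Topology ENNReal NNReal ContDiff ComplexConjugate

namespace QC

variable {k R : ℝ} {μ ν : ℂ → ℂ}

private theorem SolveC_ind {f : ℂ → ℂ} (hs : SuppIn R f) : (ball (0 : ℂ) R).indicator f = f := by
  ext z
  by_cases hz : z ∈ ball (0 : ℂ) R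
  · rw [indicator_of_mem hz]
  · rw [indicator_of_notMem hz]
    exact (hs z (by simpa using hz)).symm

private theorem SolveC_fin (R : ℝ) : IsFiniteMeasure ((volume : Measure ℂ).restrict (ball (0 : ℂ) R)) :=
  ⟨by rw [Measure.restrict_apply_univ]; exact measure_ball_lt_top⟩

private theorem SolveC_integrable {f : ℂ → ℂ} (hm : MemLp f 2 (volume : Measure ℂ))
    (hs : SuppIn R f) : Integrable f (volume : Measure ℂ) := by
  have := SolveC_fin R
  rw [← SolveC_ind hs, integrable_indicator_iff measurableSet_ball]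
  exact (hm.restrict _).integrable (by norm_num)

private theorem SolveC_one {f : ℂ → ℂ} (hf : MemLp f 2 (volume : Measure ℂ)) :
    MemLp (fun z => 1 + f z) 2 ((volume : Measure ℂ).restrict (ball (0 : ℂ) R)) := by
  have := SolveC_fin R
  exact (memLp_const (1 : ℂ)).add (hf.restrict _)

private theorem SolveC_diff (hμ : Bel k μ) (hs : SuppIn R μ) (hν : Bel k ν) (hs' : SuppIn R ν) :
    MemLp (fun z => (μ z - ν z) * (1 + Tf (hh ν) z)) 2 (volume : Measure ℂ) ∧
    eLpNorm (fun z => hh μ z - hh ν z) 2 volume ≤ ENNReal.ofReal (1 / (1 - k)) *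
      eLpNorm (fun z => (μ z - ν z) * (1 + Tf (hh ν) z)) 2 volume := by
  have hsup : SuppIn R (fun z => (μ z - ν z) * (1 + Tf (hh ν) z)) := by
    intro z hz
    simp only
    rw [hs z hz, hs' z hz, sub_zero, zero_mul]
  have hk : 0 ≤ k := (norm_nonneg _).trans (hμ.le 0)
  have hg : MemLp (fun z => (μ z - ν z) * (1 + Tf (hh ν) z)) 2 (volume : Measure ℂ) := by
    rw [← SolveC_ind hsup, memLp_indicator_iff_restrict measurableSet_ball]
    have h1 := SolveC_one (R := R) (memLp_Tf (hh_memLp hν hs'))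
    refine MemLp.of_le_mul h1 ((hμ.meas.sub hν.meas).aestronglyMeasurable.mul h1.1)
      (Eventually.of_forall fun z => ?_) (c := k + k)
    rw [norm_mul]
    exact mul_le_mul_of_nonneg_right ((norm_sub_le _ _).trans (add_le_add (hμ.le z) (hν.le z)))
      (norm_nonneg _)
  refine ⟨hg, sol_bound hμ hg ((hh_memLp hμ hs).sub (hh_memLp hν hs')) ?_⟩
  have h2 := Tf_sub (hh_memLp hμ hs) (hh_memLp hν hs')
  filter_upwards [h2] with z hz
  have h3 := hh_eq hμ hs z
  have h4 := hh_eq hν hs' z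
  rw [hz]
  linear_combination h3 - h4

private theorem SolveC_dct {f : ℕ → ℂ → ℂ} {a : ℂ → ℂ} {C : ℝ} (hC : 0 ≤ C)
    (hf : ∀ n, AEStronglyMeasurable (f n) (volume : Measure ℂ)) (ha : MemLp a 2 (volume : Measure ℂ))
    (hb : ∀ n z, ‖f n z‖ ≤ C * ‖a z‖) (ht : ∀ᵐ z, Tendsto (fun n => f n z) atTop (𝓝 0)) :
    Tendsto (fun n => eLpNorm (f n) 2 volume) atTop (𝓝 0) := by
  have h2 : (2 : ℝ≥0∞) ≠ 0 := by norm_num
  have h2' : (2 : ℝ≥0∞) ≠ ⊤ := by norm_num
  have key : Tendsto (fun n => ∫⁻ z, ‖f n z‖ₑ ^ (2 : ℝ≥0∞).toReal) atTop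
      (𝓝 (∫⁻ _ : ℂ, (0 : ℝ≥0∞))) := by
    refine tendsto_lintegral_of_dominated_convergence'
      (fun z => (ENNReal.ofReal C * ‖a z‖ₑ) ^ (2 : ℝ≥0∞).toReal) (fun n => ?_) (fun n => ?_) ?_ ?_
    · exact (hf n).enorm.pow_const _
    · refine Eventually.of_forall fun z => ?_
      refine ENNReal.rpow_le_rpow ?_ (by norm_num)
      rw [← ofReal_norm, ← ofReal_norm, ← ENNReal.ofReal_mul hC]
      exact ENNReal.ofReal_le_ofReal (hb n z)
    · have h3 : ∀ z, (ENNReal.ofReal C * ‖a z‖ₑ) ^ (2 : ℝ≥0∞).toReal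
          = ENNReal.ofReal C ^ (2 : ℝ≥0∞).toReal * ‖a z‖ₑ ^ (2 : ℝ≥0∞).toReal := fun z =>
        ENNReal.mul_rpow_of_nonneg _ _ (by norm_num)
      simp only [h3]
      rw [lintegral_const_mul' _ _ (by simp)]
      refine ENNReal.mul_ne_top (by simp) ?_
      exact (lintegral_rpow_enorm_lt_top_of_eLpNorm_lt_top h2 h2' ha.2).ne
    · filter_upwards [ht] with z hz
      have h4 : Tendsto (fun n => ‖f n z‖ₑ) atTop (𝓝 0) := by
        have := hz.enorm
        rwa [enorm_zero] at this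
      have h5 := (ENNReal.continuous_rpow_const (y := (2 : ℝ≥0∞).toReal)).tendsto 0 |>.comp h4
      rw [ENNReal.zero_rpow_of_pos (by norm_num)] at h5
      exact h5
  rw [lintegral_zero] at key
  have h6 := (ENNReal.continuous_rpow_const (y := 1 / (2 : ℝ≥0∞).toReal)).tendsto 0 |>.comp key
  rw [ENNReal.zero_rpow_of_pos (by norm_num)] at h6
  refine h6.congr fun n => ?_
  rw [eLpNorm_eq_lintegral_rpow_enorm_toReal h2 h2']
  rfl

theorem hh_tendsto {M : ℕ → ℂ → ℂ} (hM : ∀ n, Bel k (M n)) (hMs : ∀ n, SuppIn R (M n))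
    (hμ : Bel k μ) (hs : SuppIn R μ) (h : ∀ᵐ z, Tendsto (fun n => M n z) atTop (𝓝 (μ z))) :
    Tendsto (fun n => eLpNorm (fun z => hh (M n) z - hh μ z) 2 volume) atTop (𝓝 0) := by
  have hk : 0 ≤ k := (norm_nonneg _).trans (hμ.le 0)
  have hg : Tendsto (fun n => eLpNorm (fun z => (M n z - μ z) * (1 + Tf (hh μ) z)) 2 volume)
      atTop (𝓝 0) := by
    refine SolveC_dct (C := k + k) (a := (ball (0 : ℂ) R).indicator (fun z => 1 + Tf (hh μ) z))
      (by linarith) (fun n => (SolveC_diff (hM n) (hMs n) hμ hs).1.1) ?_ (fun n z => ?_) ?_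
    · rw [memLp_indicator_iff_restrict measurableSet_ball]
      exact SolveC_one (memLp_Tf (hh_memLp hμ hs))
    · by_cases hz : z ∈ ball (0 : ℂ) R
      · rw [indicator_of_mem hz, norm_mul]
        exact mul_le_mul_of_nonneg_right
          ((norm_sub_le _ _).trans (add_le_add ((hM n).le z) (hμ.le z))) (norm_nonneg _)
      · have hz' : R ≤ ‖z‖ := by simpa using hz
        rw [hMs n z hz', hs z hz', sub_zero, zero_mul, norm_zero]
        positivity
    · filter_upwards [h] with z hz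
      have h1 : Tendsto (fun n => M n z - μ z) atTop (𝓝 0) := by
        have := hz.sub_const (μ z)
        rwa [sub_self] at this
      have h2 := h1.mul_const (1 + Tf (hh μ) z)
      rwa [zero_mul] at h2
  have h3 := ENNReal.Tendsto.const_mul (a := ENNReal.ofReal (1 / (1 - k))) hg
    (Or.inr ENNReal.ofReal_ne_top)
  rw [mul_zero] at h3
  exact tendsto_of_tendsto_of_tendsto_of_le_of_le tendsto_const_nhds h3 (fun _ => zero_le)
    (fun n => (SolveC_diff (hM n) (hMs n) hμ hs).2)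

/-- Lipschitz dependence: if `‖μ - ν‖ ≤ ε` pointwise then `‖h_μ - h_ν‖₂ ≤ ε C`. -/
theorem hh_lipschitz (hμ : Bel k μ) (hs : SuppIn R μ) (hν : Bel k ν) (hs' : SuppIn R ν)
    {ε : ℝ} (hε : ∀ z, ‖μ z - ν z‖ ≤ ε) :
    eLpNorm (fun z => hh μ z - hh ν z) 2 volume ≤
      ENNReal.ofReal (ε / (1 - k)) * eLpNorm (fun z => 1 + Tf (hh ν) z) 2
        (volume.restrict (ball (0 : ℂ) R)) := by
  have hk1 : 0 < 1 - k := sub_pos.mpr hμ.lt
  refine (SolveC_diff hμ hs hν hs').2.trans ?_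
  have hsup : SuppIn R (fun z => (μ z - ν z) * (1 + Tf (hh ν) z)) := by
    intro z hz
    simp only
    rw [hs z hz, hs' z hz, sub_zero, zero_mul]
  have h1 : eLpNorm (fun z => (μ z - ν z) * (1 + Tf (hh ν) z)) 2 volume
      ≤ ENNReal.ofReal ε * eLpNorm (fun z => 1 + Tf (hh ν) z) 2
        (volume.restrict (ball (0 : ℂ) R)) := by
    rw [← SolveC_ind hsup, eLpNorm_indicator_eq_eLpNorm_restrict measurableSet_ball]
    refine eLpNorm_le_mul_eLpNorm_of_ae_le_mul (Eventually.of_forall fun z => ?_) 2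
    rw [norm_mul]
    exact mul_le_mul_of_nonneg_right (hε z) (norm_nonneg _)
  refine (mul_le_mul_right h1 _).trans ?_
  rw [← mul_assoc, ← ENNReal.ofReal_mul (one_div_nonneg.mpr hk1.le)]
  have h2 : 1 / (1 - k) * ε = ε / (1 - k) := by ring
  rw [h2]

/-- the difference formula. -/
theorem integral_hh_sub (hμ : Bel k μ) (hs : SuppIn R μ) (hν : Bel k ν) (hs' : SuppIn R ν) :
    (∫ z, hh μ z) - ∫ z, hh ν z
      = ∫ z, (μ z - ν z) * (1 + Tf (hh μ) z) * (1 + Tf (hh ν) z) := by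
  have m1 := hh_memLp hμ hs
  have m2 := hh_memLp hν hs'
  have i1 := SolveC_integrable m1 (hh_suppIn hμ hs)
  have i2 := SolveC_integrable m2 (hh_suppIn hν hs')
  have i3 : Integrable (fun z => hh μ z * Tf (hh ν) z) (volume : Measure ℂ) :=
    m1.integrable_mul (memLp_Tf m2)
  have i4 : Integrable (fun z => Tf (hh μ) z * hh ν z) (volume : Measure ℂ) :=
    (memLp_Tf m1).integrable_mul m2
  have h1 : ∀ z, (μ z - ν z) * (1 + Tf (hh μ) z) * (1 + Tf (hh ν) z)
      = (hh μ z - hh ν z) + (hh μ z * Tf (hh ν) z - Tf (hh μ) z * hh ν z) := by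
    intro z
    have h3 := hh_eq hμ hs z
    have h4 := hh_eq hν hs' z
    linear_combination (-(1 + Tf (hh ν) z)) * h3 + (1 + Tf (hh μ) z) * h4
  have h2 : ∫ z, (μ z - ν z) * (1 + Tf (hh μ) z) * (1 + Tf (hh ν) z)
      = ∫ z, ((hh μ z - hh ν z) + (hh μ z * Tf (hh ν) z - Tf (hh μ) z * hh ν z)) :=
    integral_congr_ae (Eventually.of_forall h1)
  have h3 : ∫ z, ((hh μ z - hh ν z) + (hh μ z * Tf (hh ν) z - Tf (hh μ) z * hh ν z))
      = (∫ z, (hh μ z - hh ν z)) + ∫ z, (hh μ z * Tf (hh ν) z - Tf (hh μ) z * hh ν z) :=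
    integral_add (i1.sub i2) (i3.sub i4)
  rw [h2, h3, integral_sub i1 i2, integral_sub i3 i4, Tf_symm m1 m2, sub_self, add_zero]

end QC
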