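import Pool.Agent.Work.MP_217185_an.SolveA
import Pool.Agent.Work.MP_217185_an.SolveDef
import Pool.Agent.Work.MP_217185_an.SolveB
import Pool.Agent.Work.MP_217185_an.SolveC

/-! # Solve: umbrella file, nothing to prove here -/
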