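import Pool.Agent.Work.MP_217185_an.HypB
import Pool.Agent.Work.MP_217185_an.Solve
import Pool.Agent.Work.MP_217185_an.Glue
import Pool.Agent.Work.MP_217185_an.CauL2

/-! # BAreaA: the area inequality in `L²` form

(1) `∫_D T h = 0` if `h ∈ L²` vanishes outside `D`: let `G z = conj z` for `|z| ≤ 1`, `1/z` for
`|z| > 1`, continuous.  By `glue_circle` (`WD.of_contDiffOn` on the two open sets) it has the weak
derivatives `A = -1/z² 1_{|z|>1}`, `B = 1_D`.  By `cau_WD` `Cau 1_D` has the weak derivatives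
`(T 1_D, 1_D)`, so `G - Cau 1_D` is a.e. equal to an entire function (`weyl`) that tends to `0` at infinity
(`tendsto_cau`; equality everywhere for `|z| > 1` by continuity, `cau_holo`), so it is `0` (Liouville)
and `T 1_D = A` a.e. (`WD.unique`), which vanishes on `D`.  Hence
`∫_D T h = ∫ 1_D T h = ∫ T 1_D h = 0` (`Tf_symm`).
(2) `∫_D ‖1 + T h‖² - ∫ ‖h‖² = π + 2 Re ∫_D T h + ∫_D ‖T h‖² - ∫ ‖h‖² ≤ π` (isometry).
(3) `h = μ (1 + T h)`, so `(1 - k²) ∫_D ‖1 + T h‖² ≤ π`; Cauchy-Schwarz for `∫ h = ∫_D μ (1 + T h)`. -/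

open MeasureTheory Complex Set Metric Filter
open scoped Topology ENNReal NNReal ContDiff ComplexConjugate

namespace QC

variable {k : ℝ} {μ : ℂ → ℂ}

private noncomputable def BAreaA_G (z : ℂ) : ℂ := if ‖z‖ ≤ 1 then conj z else z⁻¹

private noncomputable def BAreaA_A (z : ℂ) : ℂ := if ‖z‖ ≤ 1 then 0 else -(z ^ 2)⁻¹

private noncomputable def BAreaA_B (z : ℂ) : ℂ := if ‖z‖ < 1 then 1 else 0

private theorem BAreaA_cont : Continuous BAreaA_G := by
  unfold BAreaA_G
  refine continuous_if_le continuous_norm continuous_const Complex.continuous_conj.continuousOn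
    ?_ ?_
  · refine continuousOn_inv₀.mono ?_
    intro z hz
    have h1 : (1 : ℝ) ≤ ‖z‖ := hz
    have : z ≠ 0 := by
      rintro rfl
      rw [norm_zero] at h1
      linarith
    exact this
  · intro z hz
    exact (Complex.inv_eq_conj hz).symm

private theorem BAreaA_isOpen : IsOpen {z : ℂ | 1 < ‖z‖} := isOpen_lt continuous_const continuous_norm

private theorem BAreaA_wd1 : WD D BAreaA_G BAreaA_A BAreaA_B := by
  have h1 : WD D (fun z : ℂ => conj z) (dz (fun z : ℂ => conj z)) (dzb (fun z : ℂ => conj z)) :=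
    WD.of_contDiffOn isOpen_ball Complex.conjCLE.contDiff.contDiffOn
  refine WD.congr isOpen_ball h1 ?_ ?_ ?_
  · filter_upwards [ae_restrict_mem measurableSet_ball] with z hz
    have hz' : ‖z‖ < 1 := by simpa using hz
    unfold BAreaA_G
    rw [if_pos hz'.le]
  · filter_upwards [ae_restrict_mem measurableSet_ball] with z hz
    have hz' : ‖z‖ < 1 := by simpa using hz
    unfold BAreaA_A
    rw [if_pos hz'.le]
    have h2 := (dz_conj (fun z => z) z).1
    rw [h2, (dz_of_holo differentiableAt_id (f := fun z : ℂ => z)).2, map_zero]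
  · filter_upwards [ae_restrict_mem measurableSet_ball] with z hz
    have hz' : ‖z‖ < 1 := by simpa using hz
    unfold BAreaA_B
    rw [if_pos hz']
    have h2 := (dz_conj (fun z => z) z).2
    rw [h2, (dz_of_holo differentiableAt_id (f := fun z : ℂ => z)).1]
    have h3 : deriv (fun z : ℂ => z) z = 1 := deriv_id z
    rw [h3, map_one]

private theorem BAreaA_ne {z : ℂ} (hz : 1 < ‖z‖) : z ≠ 0 := by
  rintro rfl
  rw [norm_zero] at hz
  linarith

private theorem BAreaA_wd2 : WD {z | 1 < ‖z‖} BAreaA_G BAreaA_A BAreaA_B := by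
  have hc : ContDiffOn ℝ 1 (fun z : ℂ => z⁻¹) {z | 1 < ‖z‖} := by
    intro z hz
    have h1 : ContDiffAt ℂ 1 (fun z : ℂ => z⁻¹) z := contDiffAt_inv ℂ (BAreaA_ne hz)
    exact (h1.restrict_scalars ℝ).contDiffWithinAt
  have h1 := WD.of_contDiffOn BAreaA_isOpen hc
  refine WD.congr BAreaA_isOpen h1 ?_ ?_ ?_
  · filter_upwards [ae_restrict_mem BAreaA_isOpen.measurableSet] with z hz
    have hz' : 1 < ‖z‖ := hz
    unfold BAreaA_G
    rw [if_neg (not_le.mpr hz')]
  · filter_upwards [ae_restrict_mem BAreaA_isOpen.measurableSet] with z hz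
    have hz' : 1 < ‖z‖ := hz
    unfold BAreaA_A
    rw [if_neg (not_le.mpr hz'), (dz_of_holo (differentiableAt_inv (BAreaA_ne hz'))).1]
    exact deriv_inv
  · filter_upwards [ae_restrict_mem BAreaA_isOpen.measurableSet] with z hz
    have hz' : 1 < ‖z‖ := hz
    unfold BAreaA_B
    rw [if_neg (not_lt.mpr hz'.le), (dz_of_holo (differentiableAt_inv (BAreaA_ne hz'))).2]

private theorem BAreaA_memLpB : MemLp BAreaA_B 2 (volume : Measure ℂ) := by
  have h1 : BAreaA_B = (ball (0 : ℂ) 1).indicator (fun _ => (1 : ℂ)) := by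
    ext z
    unfold BAreaA_B
    by_cases hz : ‖z‖ < 1
    · rw [if_pos hz, indicator_of_mem (by simpa using hz)]
    · rw [if_neg hz, indicator_of_notMem (by simpa using hz)]
  rw [h1]
  exact memLp_indicator_const 2 measurableSet_ball _ (Or.inr measure_ball_lt_top.ne)

private theorem BAreaA_measA : Measurable BAreaA_A := by
  unfold BAreaA_A
  exact Measurable.ite (measurableSet_le measurable_norm measurable_const) measurable_const
    ((measurable_id.pow_const 2).inv.neg)

private theorem BAreaA_measB : Measurable BAreaA_B := by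
  unfold BAreaA_B
  exact Measurable.ite (measurableSet_lt measurable_norm measurable_const) measurable_const
    measurable_const

private theorem BAreaA_normA (z : ℂ) : ‖BAreaA_A z‖ ≤ 1 := by
  unfold BAreaA_A
  split_ifs with h
  · simp
  · rw [norm_neg, norm_inv, norm_pow]
    rw [not_le] at h
    exact inv_le_one_of_one_le₀ (one_le_pow₀ h.le)

private theorem BAreaA_L2A : L2loc univ BAreaA_A := by
  intro K _ hK
  have : IsFiniteMeasure (volume.restrict K) :=
    ⟨by rw [Measure.restrict_apply_univ]; exact hK.measure_lt_top⟩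
  exact MemLp.of_bound BAreaA_measA.aestronglyMeasurable 1 (Eventually.of_forall BAreaA_normA)

private theorem BAreaA_L2B : L2loc univ BAreaA_B := fun _ _ _ => BAreaA_memLpB.restrict _

private theorem BAreaA_wd : WD univ BAreaA_G BAreaA_A BAreaA_B :=
  glue_circle BAreaA_cont BAreaA_wd1 BAreaA_wd2 BAreaA_L2A BAreaA_L2B

private theorem BAreaA_suppB : SuppIn 1 BAreaA_B := by
  intro z hz
  unfold BAreaA_B
  rw [if_neg (not_lt.mpr hz)]

/-- the Beurling transform of the indicator function of the disc. -/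
private theorem BAreaA_TB : Tf BAreaA_B =ᵐ[volume] BAreaA_A := by
  have hw := cau_WD BAreaA_memLpB BAreaA_suppB
  have hd := BAreaA_wd.sub isOpen_univ hw
  obtain ⟨g, hg, hge⟩ := weyl isOpen_univ hd.lif (fun φ hφ => by
    rw [hd.db φ hφ]
    simp)
  rw [Measure.restrict_univ] at hge
  have hgd : Differentiable ℂ g := fun z => (hg z (mem_univ z)).differentiableAt univ_mem
  -- equality on the exterior of the disc
  have hco : ContinuousOn (fun z => BAreaA_G z - Cau BAreaA_B z) {z : ℂ | 1 < ‖z‖} :=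
    BAreaA_cont.continuousOn.sub (cau_holo BAreaA_memLpB BAreaA_suppB).continuousOn
  have heq : EqOn (fun z => BAreaA_G z - Cau BAreaA_B z) g {z : ℂ | 1 < ‖z‖} := by
    refine MeasureTheory.Measure.eqOn_open_of_ae_eq (μ := volume) (ae_restrict_of_ae hge)
      BAreaA_isOpen hco hgd.continuous.continuousOn
  have hlim : Tendsto g (cocompact ℂ) (𝓝 0) := by
    have h1 : Tendsto (fun z => BAreaA_G z - Cau BAreaA_B z) (cocompact ℂ) (𝓝 (0 - 0)) := by
      refine Tendsto.sub ?_ (tendsto_cau BAreaA_memLpB BAreaA_suppB)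
      have h2 : Tendsto (fun z : ℂ => z⁻¹) (cocompact ℂ) (𝓝 0) := by
        rw [← Metric.cobounded_eq_cocompact]
        exact tendsto_inv₀_cobounded
      refine h2.congr' ?_
      filter_upwards [(isCompact_closedBall (0 : ℂ) 1).compl_mem_cocompact] with z hz
      have hz' : ¬ ‖z‖ ≤ 1 := by simpa using hz
      unfold BAreaA_G
      rw [if_neg hz']
    rw [sub_zero] at h1
    refine h1.congr' ?_
    filter_upwards [(isCompact_closedBall (0 : ℂ) 1).compl_mem_cocompact] with z hz
    have hz' : 1 < ‖z‖ := by simpa using hz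
    exact heq hz'
  have hg0 : ∀ z, g z = 0 := fun z => hgd.apply_eq_of_tendsto_cocompact z hlim
  have hGC : BAreaA_G =ᵐ[volume.restrict univ] Cau BAreaA_B := by
    rw [Measure.restrict_univ]
    filter_upwards [hge] with z hz
    have h3 : BAreaA_G z - Cau BAreaA_B z = g z := hz
    rw [hg0] at h3
    exact sub_eq_zero.mp h3
  have h4 := WD.congr isOpen_univ BAreaA_wd hGC (ae_eq_refl _) (ae_eq_refl _)
  have h5 := (WD.unique isOpen_univ hw h4).1
  rw [Measure.restrict_univ] at h5
  exact h5

theorem integral_Tf_D {h : ℂ → ℂ} (hh : MemLp h 2 (volume : Measure ℂ)) (hs : SuppIn 1 h) :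
    ∫ z in D, Tf h z = 0 := by
  have h1 : ∫ z in D, Tf h z = ∫ z, Tf h z * BAreaA_B z := by
    rw [← integral_indicator measurableSet_ball]
    refine integral_congr_ae (Eventually.of_forall fun z => ?_)
    simp only
    unfold BAreaA_B
    by_cases hz : ‖z‖ < 1
    · rw [if_pos hz, mul_one, indicator_of_mem (by simpa using hz)]
    · rw [if_neg hz, mul_zero, indicator_of_notMem (by simpa using hz)]
  rw [h1, Tf_symm hh BAreaA_memLpB]
  refine integral_eq_zero_of_ae ?_
  filter_upwards [BAreaA_TB] with z hz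
  rw [hz]
  unfold BAreaA_A
  by_cases hz' : ‖z‖ < 1
  · rw [if_pos hz'.le, mul_zero]
    rfl
  · rw [hs z (not_lt.mp hz'), zero_mul]
    rfl

end QC
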