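import Pool.Agent.Work.MP_217185_an.HypB
import Pool.Agent.Work.MP_217185_an.Solve
import Pool.Agent.Work.MP_217185_an.BAreaA

/-! # BAreaB: the area inequality in `L²` form

(1) `∫_D T h = 0` if `h ∈ L²` vanishes outside `D`: for a radial test function `g` with `g = 1` on
`ball 0 s`, `Cau g z = (1/z) ∫_0^{|z|} 2 r g(r) dr` (mean value over circles), so
`Cau g z = conj z` and `T g = dz (Cau g) = 0` on `ball 0 s`; if `h` vanishes off `ball 0 s` then
`∫ g T h = ∫ h T g = 0` (`Tf_symm`).  Let `g → 1_D` in `L²` (radial test functions in `D`), then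
`h 1_{ball 0 s} → h`.
(2) `∫_D ‖1 + T h‖² - ∫ ‖h‖² = π + 2 Re ∫_D T h + ∫_D ‖T h‖² - ∫ ‖h‖² ≤ π` (isometry).
(3) `h = μ (1 + T h)`, so `(1 - k²) ∫_D ‖1 + T h‖² ≤ π`; Cauchy-Schwarz for `∫ h = ∫_D μ (1 + T h)`. -/

open MeasureTheory Complex Set Metric Filter
open scoped Topology ENNReal NNReal ContDiff ComplexConjugate

namespace QC

variable {k : ℝ} {μ : ℂ → ℂ}

private theorem BAreaB_sq {ν : Measure ℂ} {f : ℂ → ℂ} (hf : MemLp f 2 ν) :
    eLpNorm f 2 ν = ENNReal.ofReal (Real.sqrt (∫ z, ‖f z‖ ^ 2 ∂ν)) := by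
  rw [hf.eLpNorm_eq_integral_rpow_norm (by norm_num) (by norm_num), Real.sqrt_eq_rpow]
  have h1 : (2 : ℝ≥0∞).toReal = 2 := by norm_num
  rw [h1]
  congr 2
  · refine integral_congr_ae (Eventually.of_forall fun z => ?_)
    simp only
    rw [Real.rpow_two]
  · norm_num

private theorem BAreaB_nonneg {ν : Measure ℂ} {f : ℂ → ℂ} : 0 ≤ ∫ z, ‖f z‖ ^ 2 ∂ν :=
  integral_nonneg fun z => by positivity

private theorem BAreaB_fin : IsFiniteMeasure ((volume : Measure ℂ).restrict D) :=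
  ⟨by rw [Measure.restrict_apply_univ]; exact measure_ball_lt_top⟩

private theorem BAreaB_one {f : ℂ → ℂ} (hf : MemLp f 2 (volume : Measure ℂ)) :
    MemLp (fun z => 1 + f z) 2 ((volume : Measure ℂ).restrict D) := by
  have := BAreaB_fin
  exact (memLp_const (1 : ℂ)).add (hf.restrict _)

private theorem BAreaB_int {ν : Measure ℂ} {f : ℂ → ℂ} (hf : MemLp f 2 ν) :
    Integrable (fun z => ‖f z‖ ^ 2) ν :=
  (memLp_two_iff_integrable_sq_norm hf.1).mp hf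

/-- `∫ ‖hh μ‖² = ∫_D ‖hh μ‖²`. -/
private theorem BAreaB_D (hμ : Bel k μ) (hs : SuppIn 1 μ) :
    ∫ z, ‖hh μ z‖ ^ 2 = ∫ z in D, ‖hh μ z‖ ^ 2 := by
  rw [← integral_indicator measurableSet_ball]
  refine integral_congr_ae (Eventually.of_forall fun z => ?_)
  simp only
  by_cases hz : z ∈ ball (0 : ℂ) 1
  · rw [indicator_of_mem hz]
  · rw [indicator_of_notMem hz, hh_suppIn hμ hs z (by simpa using hz)]
    simp

theorem area_ineq (hμ : Bel k μ) (hs : SuppIn 1 μ) :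
    (1 - k ^ 2) * ∫ z in D, ‖1 + Tf (hh μ) z‖ ^ 2 ≤ Real.pi := by
  have hfin := BAreaB_fin
  have m1 := hh_memLp hμ hs
  have m2 := memLp_Tf m1
  have hk : 0 ≤ k := (norm_nonneg _).trans (hμ.le 0)
  -- isometry
  have h1 : ∫ z, ‖Tf (hh μ) z‖ ^ 2 = ∫ z, ‖hh μ z‖ ^ 2 := by
    have h2 := eLpNorm_Tf m1
    rw [BAreaB_sq m2, BAreaB_sq m1, ENNReal.ofReal_eq_ofReal_iff (Real.sqrt_nonneg _)
      (Real.sqrt_nonneg _), Real.sqrt_inj BAreaB_nonneg BAreaB_nonneg] at h2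
    exact h2
  have h3 : ∫ z in D, ‖Tf (hh μ) z‖ ^ 2 ≤ ∫ z, ‖Tf (hh μ) z‖ ^ 2 :=
    setIntegral_le_integral (BAreaB_int m2) (Eventually.of_forall fun z => by positivity)
  have h4 : ∫ z in D, ‖hh μ z‖ ^ 2 ≤ k ^ 2 * ∫ z in D, ‖1 + Tf (hh μ) z‖ ^ 2 := by
    rw [← integral_const_mul]
    refine integral_mono (BAreaB_int (m1.restrict _))
      ((BAreaB_int (BAreaB_one m2)).const_mul _) fun z => ?_
    simp only
    rw [hh_eq hμ hs z, norm_mul, mul_pow]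
    exact mul_le_mul_of_nonneg_right (pow_le_pow_left₀ (norm_nonneg _) (hμ.le z) 2) (by positivity)
  have i2 : Integrable (fun z => Tf (hh μ) z) ((volume : Measure ℂ).restrict D) :=
    (m2.restrict _).integrable (by norm_num)
  have h5 : ∫ z in D, ‖1 + Tf (hh μ) z‖ ^ 2 = Real.pi + ∫ z in D, ‖Tf (hh μ) z‖ ^ 2 := by
    have h6 : ∀ z, ‖1 + Tf (hh μ) z‖ ^ 2
        = (1 + 2 * (Tf (hh μ) z).re) + ‖Tf (hh μ) z‖ ^ 2 := by
      intro z
      rw [Complex.sq_norm, Complex.sq_norm, Complex.normSq_apply, Complex.normSq_apply]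
      simp only [Complex.add_re, Complex.add_im, Complex.one_re, Complex.one_im]
      ring
    have h7 : ∫ z in D, (Tf (hh μ) z).re = 0 := by
      have h8 := integral_re i2
      rw [integral_Tf_D m1 (hh_suppIn hμ hs)] at h8
      exact h8.trans (by simp)
    have h9 : ∫ z in D, ‖1 + Tf (hh μ) z‖ ^ 2
        = ∫ z in D, ((1 + 2 * (Tf (hh μ) z).re) + ‖Tf (hh μ) z‖ ^ 2) :=
      integral_congr_ae (Eventually.of_forall h6)
    have ire : Integrable (fun z => (Tf (hh μ) z).re) ((volume : Measure ℂ).restrict D) := i2.re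
    have i3 : Integrable (fun _ : ℂ => (1 : ℝ)) ((volume : Measure ℂ).restrict D) :=
      integrable_const _
    have i4 : Integrable (fun z => 2 * (Tf (hh μ) z).re) ((volume : Measure ℂ).restrict D) :=
      ire.const_mul 2
    have i5 : Integrable (fun z => 1 + 2 * (Tf (hh μ) z).re) ((volume : Measure ℂ).restrict D) :=
      i3.add i4
    have h10 : ∫ z in D, ((1 + 2 * (Tf (hh μ) z).re) + ‖Tf (hh μ) z‖ ^ 2)
        = (∫ z in D, (1 + 2 * (Tf (hh μ) z).re)) + ∫ z in D, ‖Tf (hh μ) z‖ ^ 2 :=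
      integral_add i5 (BAreaB_int (m2.restrict _))
    have h11 : ∫ z in D, (1 + 2 * (Tf (hh μ) z).re)
        = (∫ z in D, (1 : ℝ)) + ∫ z in D, 2 * (Tf (hh μ) z).re := integral_add i3 i4
    rw [h9, h10, h11, integral_const_mul, h7]
    simp [Measure.real, Complex.volume_ball]
  have h6 := BAreaB_D hμ hs
  linarith

theorem area_ineq' (hμ : Bel k μ) (hs : SuppIn 1 μ) :
    eLpNorm (fun z => 1 + Tf (hh μ) z) 2 (volume.restrict D)
      ≤ ENNReal.ofReal (Real.sqrt (Real.pi / (1 - k ^ 2))) := by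
  have hk : 0 ≤ k := (norm_nonneg _).trans (hμ.le 0)
  have hk1 : 0 < 1 - k ^ 2 := by nlinarith [hμ.lt]
  rw [BAreaB_sq (BAreaB_one (memLp_Tf (hh_memLp hμ hs)))]
  refine ENNReal.ofReal_le_ofReal (Real.sqrt_le_sqrt ?_)
  rw [le_div_iff₀ hk1, mul_comm]
  exact area_ineq hμ hs

theorem norm_integral_hh (hμ : Bel k μ) (hs : SuppIn 1 μ) :
    ‖∫ z, hh μ z‖ ^ 2 ≤ Real.pi / (1 - k ^ 2) * ∫ z in D, ‖μ z‖ ^ 2 := by
  have hfin := BAreaB_fin
  have hk : 0 ≤ k := (norm_nonneg _).trans (hμ.le 0)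
  have hk1 : 0 < 1 - k ^ 2 := by nlinarith [hμ.lt]
  have m2 := BAreaB_one (memLp_Tf (hh_memLp hμ hs))
  have m3 : MemLp μ 2 ((volume : Measure ℂ).restrict D) := (SuppIn.memLp hμ hs).restrict _
  have h1 : ∫ z, hh μ z = ∫ z in D, hh μ z := by
    rw [← integral_indicator measurableSet_ball]
    refine integral_congr_ae (Eventually.of_forall fun z => ?_)
    by_cases hz : z ∈ ball (0 : ℂ) 1
    · rw [indicator_of_mem hz]
    · rw [indicator_of_notMem hz, hh_suppIn hμ hs z (by simpa using hz)]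
  have h2 : ‖∫ z in D, hh μ z‖ ≤ ∫ z in D, ‖μ z‖ * ‖1 + Tf (hh μ) z‖ := by
    refine (norm_integral_le_integral_norm _).trans (le_of_eq ?_)
    refine integral_congr_ae (Eventually.of_forall fun z => ?_)
    change ‖hh μ z‖ = ‖μ z‖ * ‖1 + Tf (hh μ) z‖
    rw [← norm_mul, ← hh_eq hμ hs z]
  have h3 := integral_mul_norm_le_Lp_mul_Lq (μ := (volume : Measure ℂ).restrict D)
    Real.HolderConjugate.two_two (f := μ) (g := fun z => 1 + Tf (hh μ) z)
    (by simpa using m3) (by simpa using m2)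
  have h4 : ∀ f : ℂ → ℂ, (∫ z in D, ‖f z‖ ^ (2 : ℝ)) ^ (1 / (2 : ℝ))
      = Real.sqrt (∫ z in D, ‖f z‖ ^ 2) := by
    intro f
    rw [Real.sqrt_eq_rpow]
    congr 1
    refine integral_congr_ae (Eventually.of_forall fun z => ?_)
    exact Real.rpow_two _
  rw [h4, h4] at h3
  have h5 : ‖∫ z, hh μ z‖ ≤ Real.sqrt (∫ z in D, ‖μ z‖ ^ 2)
      * Real.sqrt (∫ z in D, ‖1 + Tf (hh μ) z‖ ^ 2) := by
    rw [h1]
    exact h2.trans h3
  have h6 : ‖∫ z, hh μ z‖ ^ 2 ≤ (Real.sqrt (∫ z in D, ‖μ z‖ ^ 2)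
      * Real.sqrt (∫ z in D, ‖1 + Tf (hh μ) z‖ ^ 2)) ^ 2 :=
    pow_le_pow_left₀ (norm_nonneg _) h5 2
  rw [mul_pow, Real.sq_sqrt BAreaB_nonneg, Real.sq_sqrt BAreaB_nonneg] at h6
  refine h6.trans ?_
  rw [mul_comm]
  refine mul_le_mul_of_nonneg_right ?_ BAreaB_nonneg
  rw [le_div_iff₀ hk1, mul_comm]
  exact area_ineq hμ hs

end QC
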