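import Pool.Agent.Work.MP_217185_an.HypB
import Pool.Agent.Work.MP_217185_an.Solve
import Pool.Agent.Work.MP_217185_an.BAreaB

/-! # BAreaC: the area inequality in `L²` form

(1) `∫_D T h = 0` if `h ∈ L²` vanishes outside `D`: for a radial test function `g` with `g = 1` on
`ball 0 s`, `Cau g z = (1/z) ∫_0^{|z|} 2 r g(r) dr` (mean value over circles), so
`Cau g z = conj z` and `T g = dz (Cau g) = 0` on `ball 0 s`; if `h` vanishes off `ball 0 s` then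
`∫ g T h = ∫ h T g = 0` (`Tf_symm`).  Let `g → 1_D` in `L²` (radial test functions in `D`), then
`h 1_{ball 0 s} → h`.
(2) `∫_D ‖1 + T h‖² - ∫ ‖h‖² = π + 2 Re ∫_D T h + ∫_D ‖T h‖² - ∫ ‖h‖² ≤ π` (isometry).
(3) `h = μ (1 + T h)`, so `(1 - k²) ∫_D ‖1 + T h‖² ≤ π`; Cauchy-Schwarz for `∫ h = ∫_D μ (1 + T h)`. -/

open MeasureTheory Complex Set Metric Filter
open scoped Topology ENNReal NNReal ContDiff ComplexConjugate

namespace QC

variable {k : ℝ} {μ : ℂ → ℂ}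

private theorem BAreaC_z {z : ℂ} (hz : ‖z‖ < 1) : ‖z‖ < ‖(1 : ℂ)‖ := by
  rw [norm_one]
  exact hz

private theorem BAreaC_fin : IsFiniteMeasure ((volume : Measure ℂ).restrict D) :=
  ⟨by rw [Measure.restrict_apply_univ]; exact measure_ball_lt_top⟩

private theorem BAreaC_int (hμ : Bel k μ) {z : ℂ} (hz : ‖z‖ < 1) :
    Integrable (fun ζ => ‖pull 1 z μ ζ‖ ^ 2) ((volume : Measure ℂ).restrict D) := by
  obtain ⟨h1, h2⟩ := pull_bel (BAreaC_z hz) hμ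
  have h3 := (SuppIn.memLp h1 h2).restrict D
  exact (memLp_two_iff_integrable_sq_norm h3.1).mp h3

private theorem BAreaC_real (hμ : Bel k μ) {z : ℂ} (hz : ‖z‖ < 1) :
    ‖bers μ z‖ ^ 2 ≤ 1 / (Real.pi * (1 - k ^ 2)) * ∫ ζ in D, ‖pull 1 z μ ζ‖ ^ 2 := by
  obtain ⟨h1, h2⟩ := pull_bel (BAreaC_z hz) hμ
  have h3 := norm_integral_hh h1 h2
  have hk : 0 ≤ k := (norm_nonneg _).trans (hμ.le 0)
  have hk1 : 0 < 1 - k ^ 2 := by nlinarith [hμ.lt]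
  have hpi := Real.pi_pos
  unfold bers
  rw [norm_mul, mul_pow]
  have h4 : ‖(1 / (Real.pi : ℂ))‖ ^ 2 = 1 / Real.pi ^ 2 := by
    rw [norm_div, norm_one, Complex.norm_real, Real.norm_eq_abs, abs_of_pos hpi, div_pow, one_pow]
  rw [h4]
  calc 1 / Real.pi ^ 2 * ‖∫ ζ, hh (pull 1 z μ) ζ‖ ^ 2
      ≤ 1 / Real.pi ^ 2 * (Real.pi / (1 - k ^ 2) * ∫ ζ in D, ‖pull 1 z μ ζ‖ ^ 2) :=
        mul_le_mul_of_nonneg_left h3 (by positivity)
    _ = 1 / (Real.pi * (1 - k ^ 2)) * ∫ ζ in D, ‖pull 1 z μ ζ‖ ^ 2 := by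
        rw [← mul_assoc]
        congr 1
        field_simp

/-- pointwise bound for the Bers functional. -/
theorem norm_bers_sq (hμ : Bel k μ) (hs : SuppIn 1 μ) {z : ℂ} (hz : ‖z‖ < 1) :
    ENNReal.ofReal (‖bers μ z‖ ^ 2) ≤ ENNReal.ofReal (1 / (Real.pi * (1 - k ^ 2))) *
      ∫⁻ ζ in D, ‖μ ζ‖ₑ ^ 2 * ENNReal.ofReal ((1 - ‖z‖ ^ 2) ^ 2 / ‖1 - conj z * ζ‖ ^ 4) := by
  have hk : 0 ≤ k := (norm_nonneg _).trans (hμ.le 0)
  have hk1 : 0 < 1 - k ^ 2 := by nlinarith [hμ.lt]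
  have hpi := Real.pi_pos
  have h1 := ENNReal.ofReal_le_ofReal (BAreaC_real hμ hz)
  rw [ENNReal.ofReal_mul (by positivity), ofReal_integral_eq_lintegral_ofReal (BAreaC_int hμ hz)
    (Eventually.of_forall fun ζ => by positivity)] at h1
  refine h1.trans (le_of_eq ?_)
  congr 1
  have h2 := lintegral_mob_volume hz (u := fun ζ => ‖μ ζ‖ₑ ^ 2) (hμ.meas.enorm.pow_const 2)
  rw [← h2]
  refine setLIntegral_congr_fun measurableSet_ball ?_
  intro ζ hζ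
  have hζ' : ‖ζ‖ < 1 := by simpa using hζ
  simp only
  rw [norm_pull (BAreaC_z hz) μ hζ', ENNReal.ofReal_pow (norm_nonneg _), ofReal_norm]

/-- sup bound. -/
theorem norm_bers_le (hμ : Bel k μ) (hs : SuppIn 1 μ) (z : ℂ) (hz : ‖z‖ < 1) {m : ℝ}
    (hm : ∀ ζ, ‖μ ζ‖ ≤ m) : ‖bers μ z‖ ≤ m / Real.sqrt (1 - k ^ 2) := by
  have hk : 0 ≤ k := (norm_nonneg _).trans (hμ.le 0)
  have hk1 : 0 < 1 - k ^ 2 := by nlinarith [hμ.lt]
  have hm0 : 0 ≤ m := (norm_nonneg _).trans (hm 0)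
  have hpi := Real.pi_pos
  have hfin := BAreaC_fin
  have h1 := BAreaC_real hμ hz
  have h2 : ∫ ζ in D, ‖pull 1 z μ ζ‖ ^ 2 ≤ m ^ 2 * Real.pi := by
    have h3 : ∫ _ζ in D, (m ^ 2 : ℝ) = m ^ 2 * Real.pi := by
      simp [Measure.real, Complex.volume_ball, mul_comm]
    rw [← h3]
    refine setIntegral_mono_on (BAreaC_int hμ hz) (integrable_const _) measurableSet_ball ?_
    intro ζ hζ
    have hζ' : ‖ζ‖ < 1 := by simpa using hζ
    rw [norm_pull (BAreaC_z hz) μ hζ']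
    exact pow_le_pow_left₀ (norm_nonneg _) (hm _) 2
  have h3 : ‖bers μ z‖ ^ 2 ≤ (m / Real.sqrt (1 - k ^ 2)) ^ 2 := by
    refine h1.trans ?_
    rw [div_pow, Real.sq_sqrt hk1.le]
    calc 1 / (Real.pi * (1 - k ^ 2)) * ∫ ζ in D, ‖pull 1 z μ ζ‖ ^ 2
        ≤ 1 / (Real.pi * (1 - k ^ 2)) * (m ^ 2 * Real.pi) :=
          mul_le_mul_of_nonneg_left h2 (by positivity)
      _ = m ^ 2 / (1 - k ^ 2) := by field_simp
  exact (pow_le_pow_iff_left₀ (norm_nonneg _) (by positivity) two_ne_zero).mp h3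

/-- only the a.e. class matters. -/
theorem bers_congr {k' : ℝ} {ν : ℂ → ℂ} (hμ : Bel k μ) (hs : SuppIn 1 μ) (hν : Bel k' ν)
    (hs' : SuppIn 1 ν) (he : μ =ᵐ[volume] ν) {z : ℂ} (hz : ‖z‖ < 1) : bers μ z = bers ν z := by
  have hμ' : Bel (max k k') μ := ⟨hμ.meas, fun z => (hμ.le z).trans (le_max_left _ _),
    max_lt hμ.lt hν.lt⟩
  have hν' : Bel (max k k') ν := ⟨hν.meas, fun z => (hν.le z).trans (le_max_right _ _),
    max_lt hμ.lt hν.lt⟩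
  obtain ⟨a1, a2⟩ := pull_bel (BAreaC_z hz) hμ'
  obtain ⟨b1, b2⟩ := pull_bel (BAreaC_z hz) hν'
  have hN : MeasurableSet {ζ | μ ζ ≠ ν ζ} := (measurableSet_eq_fun hμ.meas hν.meas).compl
  have hN0 : volume {ζ | μ ζ ≠ ν ζ} = 0 := he
  have hu : Measurable ({ζ | μ ζ ≠ ν ζ}.indicator (fun _ => (1 : ℝ≥0∞))) :=
    measurable_const.indicator hN
  have h1 := lintegral_mob_volume hz hu
  have h2 : ∫⁻ ζ in D, {ζ | μ ζ ≠ ν ζ}.indicator (fun _ => (1 : ℝ≥0∞)) ζ *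
      ENNReal.ofReal ((1 - ‖z‖ ^ 2) ^ 2 / ‖1 - conj z * ζ‖ ^ 4) = 0 := by
    refine lintegral_eq_zero_of_ae_eq_zero ?_
    refine ae_restrict_of_ae ?_
    filter_upwards [he] with ζ hζ
    have h3 : ζ ∉ {ζ | μ ζ ≠ ν ζ} := fun h => h hζ
    rw [indicator_of_notMem h3, zero_mul]
    rfl
  rw [h2] at h1
  have h3 : ∀ᵐ ζ ∂(volume.restrict D), μ (mob 1 z ζ) = ν (mob 1 z ζ) := by
    have hmeas : AEMeasurable (fun ζ => {ζ | μ ζ ≠ ν ζ}.indicator (fun _ => (1 : ℝ≥0∞))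
        (mob 1 z ζ)) (volume.restrict D) := by
      refine (hu.comp ?_).aemeasurable
      unfold mob
      fun_prop
    have h4 := (lintegral_eq_zero_iff' hmeas).mp h1
    filter_upwards [h4] with ζ hζ
    by_contra hne
    have h5 : mob 1 z ζ ∈ {ζ | μ ζ ≠ ν ζ} := hne
    rw [indicator_of_mem h5] at hζ
    exact one_ne_zero hζ
  have h4 : pull 1 z μ =ᵐ[volume] pull 1 z ν := by
    rw [ae_restrict_iff' measurableSet_ball] at h3
    filter_upwards [h3] with ζ hζ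
    unfold pull
    by_cases hz1 : ‖ζ‖ < 1
    · rw [if_pos hz1, if_pos hz1, hζ (by simpa using hz1)]
    · rw [if_neg hz1, if_neg hz1]
  have h5 := hh_congr a1 a2 b1 b2 h4
  unfold bers
  rw [integral_congr_ae h5]

end QC
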