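import Pool.Agent.Work.MP_217185_an.Schw
import Pool.Agent.Work.MP_217185_an.BArea

/-! # BHarmB: `bersD μ` is harmonic and natural

* `harm_bers`: `conj (bers μ z)/(1 - ‖z‖²)² = conj (-(1/6) S w (1/conj z)/(conj z)⁴)` is holomorphic
  in `z ≠ 0` (`bers_eq`; `z ↦ conj (S w (1/conj z))` is holomorphic), and tends at `0` to
  `conj (bers μ 0)` (`tendsto_schw`, `bers_zero`): removable singularity.
* `bers_pull`: `A ∘ A_z = A_{A z} ∘ rotation`, so
  `pull 1 z (pull a b μ) = pull e 0 (pull 1 (mob a b z) μ)`, and `integral_hh_rot`.  The factor is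
  `conj A'(z)/A'(z)`. -/

open MeasureTheory Complex Set Metric Filter
open scoped Topology ENNReal NNReal ContDiff ComplexConjugate

namespace QC

variable {k : ℝ} {μ : ℂ → ℂ}

private theorem schw_diff {w : ℂ → ℂ} {z : ℂ} (h : AnalyticAt ℂ w z) (h1 : deriv w z ≠ 0) :
    DifferentiableAt ℂ (schw w) z := by
  have e : schw w = fun z => deriv^[3] w z / deriv w z - 3 / 2 * (deriv^[2] w z / deriv w z) ^ 2 := by
    funext z
    unfold schw
    rw [iteratedDeriv_eq_iterate, iteratedDeriv_eq_iterate]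
  rw [e]
  have h2 := (h.iterated_deriv 3).differentiableAt
  have h3 := (h.iterated_deriv 2).differentiableAt
  have h4 := h.deriv.differentiableAt
  exact (h2.div h4 h1).sub (((h3.div h4 h1).pow 2).const_mul _)

theorem harm_bers (hμ : Bel k μ) (hs : SuppIn 1 μ) : Harm (bersD μ) := by
  obtain ⟨w, hw⟩ := mrmt hμ hs
  set q : ℂ → ℂ := fun z => conj (bersD μ z) / ((1 - ‖z‖ ^ 2 : ℝ) : ℂ) ^ 2 with hq
  have hpos : ∀ z : ℂ, ‖z‖ < 1 → ((1 - ‖z‖ ^ 2 : ℝ) : ℂ) ≠ 0 := by
    intro z hz
    have h1 : 0 < 1 - ‖z‖ ^ 2 := by nlinarith [norm_nonneg z]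
    exact_mod_cast h1.ne'
  have hrep : ∀ z : ℂ, ‖z‖ < 1 → z ≠ 0 →
      q z = (-(1 / 6)) * conj (schw w (1 / conj z)) / z ^ 4 := by
    intro z hz hz0
    have h1 := bers_eq hμ hs hw hz hz0
    have h2 := congrArg (fun u : ℂ => conj u) h1
    simp only [map_mul, map_pow, Complex.conj_ofReal, Complex.conj_conj, map_neg] at h2
    have h3 : conj (6 : ℂ) = 6 := by
      have := Complex.conj_ofReal 6
      simpa using this
    rw [h3] at h2
    have hz4 : z ^ 4 ≠ 0 := pow_ne_zero 4 hz0
    have hb : bersD μ z = bers μ z := by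
      unfold bersD
      rw [if_pos hz]
    simp only [hq]
    rw [hb, div_eq_div_iff (pow_ne_zero 2 (hpos z hz)) hz4]
    linear_combination (1 / 6 : ℂ) * h2
  have hqd : ∀ z : ℂ, ‖z‖ < 1 → z ≠ 0 → DifferentiableAt ℂ q z := by
    intro z hz hz0
    have h1 : q =ᶠ[𝓝 z] fun z => (-(1 / 6)) * conj (schw w (1 / conj z)) / z ^ 4 := by
      have h2 : (ball (0 : ℂ) 1) ∩ {0}ᶜ ∈ 𝓝 z :=
        (isOpen_ball.inter isOpen_compl_singleton).mem_nhds ⟨by simpa using hz, hz0⟩
      filter_upwards [h2] with u hu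
      exact hrep u (by simpa using hu.1) hu.2
    refine DifferentiableAt.congr_of_eventuallyEq ?_ h1
    have hout : 1 < ‖1 / conj z‖ := by
      rw [norm_div, norm_one, Complex.norm_conj, lt_div_iff₀ (norm_pos_iff.2 hz0), one_mul]
      exact hz
    have h3 := hw.holo_out hμ hs hout
    have h4 : DifferentiableAt ℂ (fun u : ℂ => schw w (1 / u)) (conj z) := by
      have hcz : conj z ≠ 0 := by
        intro h0
        exact hz0 (by simpa using h0)
      have h5 : DifferentiableAt ℂ (fun u : ℂ => 1 / u) (conj z) :=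
        (differentiableAt_const _).div differentiableAt_id hcz
      exact (schw_diff h3.1 h3.2).comp (conj z) h5
    have h6 : DifferentiableAt ℂ (fun z : ℂ => conj (schw w (1 / conj z))) z := by
      have := DifferentiableAt.conj_conj h4
      rw [Complex.conj_conj] at this
      exact this
    exact (h6.const_mul _).div (by fun_prop) (pow_ne_zero 4 hz0)
  have hq0 : ContinuousAt q 0 := by
    have h1 : Tendsto q (𝓝[≠] 0) (𝓝 (q 0)) := by
      have h2 := tendsto_schw hμ hs hw
      rw [← bers_zero hμ hs] at h2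
      have h3 : Tendsto (fun z : ℂ => 1 / conj z) (𝓝[≠] 0) (cocompact ℂ) := by
        rw [← Metric.cobounded_eq_cocompact]
        have h4 : Tendsto (fun z : ℂ => conj z) (𝓝[≠] 0) (𝓝[≠] 0) := by
          refine tendsto_nhdsWithin_iff.2 ⟨?_, ?_⟩
          · have := (Complex.continuous_conj.tendsto (0 : ℂ)).mono_left
              (nhdsWithin_le_nhds (s := {0}ᶜ))
            simpa using this
          · filter_upwards [self_mem_nhdsWithin] with z hz
            intro h0
            exact hz (by simpa using h0)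
        have h5 := (tendsto_inv₀_nhdsNE_zero (α := ℂ)).comp h4
        refine h5.congr fun z => ?_
        simp
      have h6 := h2.comp h3
      have h7 := (Complex.continuous_conj.tendsto (-6 * bers μ 0)).comp h6
      have h8 := h7.const_mul (-(1 / 6) : ℂ)
      have h9 : (-(1 / 6) : ℂ) * conj (-6 * bers μ 0) = q 0 := by
        have h3 : conj (6 : ℂ) = 6 := by
          have := Complex.conj_ofReal 6
          simpa using this
        simp only [hq, map_mul, map_neg, h3]
        unfold bersD
        simp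
      rw [h9] at h8
      refine h8.congr' ?_
      have h10 : (ball (0 : ℂ) 1) ∩ {0}ᶜ ∈ 𝓝[≠] (0 : ℂ) :=
        inter_mem (mem_nhdsWithin_of_mem_nhds (ball_mem_nhds 0 one_pos)) self_mem_nhdsWithin
      filter_upwards [h10] with z hz
      have hz1 : ‖z‖ < 1 := by simpa using hz.1
      rw [hrep z hz1 hz.2]
      simp only [Function.comp_apply, map_mul, map_pow, map_div₀, map_one, Complex.conj_conj]
      have := hz.2
      field_simp
    exact continuousAt_iff_punctured_nhds.2 h1
  refine ⟨⟨q, ?_, ?_⟩, ?_⟩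
  · intro z hz
    have hz1 : ‖z‖ < 1 := by simpa using hz
    refine DifferentiableAt.differentiableWithinAt ?_
    by_cases hz0 : z = 0
    · rw [hz0]
      refine (analyticAt_of_differentiable_on_punctured_nhds_of_continuousAt ?_ hq0).differentiableAt
      have h10 : (ball (0 : ℂ) 1) ∩ {0}ᶜ ∈ 𝓝[≠] (0 : ℂ) :=
        inter_mem (mem_nhdsWithin_of_mem_nhds (ball_mem_nhds 0 one_pos)) self_mem_nhdsWithin
      filter_upwards [h10] with z hz
      exact hqd z (by simpa using hz.1) hz.2
    · exact hqd z hz1 hz0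
  · intro z hz
    have hz1 : ‖z‖ < 1 := by simpa using hz
    have h1 : conj (q z) = bersD μ z / ((1 - ‖z‖ ^ 2 : ℝ) : ℂ) ^ 2 := by
      simp only [hq, map_div₀, map_pow, Complex.conj_ofReal, Complex.conj_conj]
    rw [h1, mul_div_cancel₀ _ (pow_ne_zero 2 (hpos z hz1))]
  · intro z hz
    unfold bersD
    rw [if_neg]
    simpa using hz

end QC
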