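import Mathlib

/-! # L2Kit: the bilinear pairing `∫ u v` on `L²` -/

open MeasureTheory Complex Set Metric Filter
open scoped Topology ENNReal NNReal ComplexConjugate

namespace QC

variable {μ : Measure ℂ}

theorem l2_integrable_mul {u v : ℂ → ℂ} (hu : MemLp u 2 μ) (hv : MemLp v 2 μ) :
    Integrable (fun z => u z * v z) μ := hu.integrable_mul hv

theorem l2_enorm_integral_le {u v : ℂ → ℂ} (hu : MemLp u 2 μ) (hv : MemLp v 2 μ) :
    ‖∫ z, u z * v z ∂μ‖ₑ ≤ eLpNorm u 2 μ * eLpNorm v 2 μ := by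
  refine (enorm_integral_le_lintegral_enorm _).trans ?_
  have h := eLpNorm_smul_le_mul_eLpNorm (p := 2) (q := 2) (r := 1) (μ := μ) (f := v) (φ := u)
    hv.aestronglyMeasurable hu.aestronglyMeasurable
  rw [eLpNorm_one_eq_lintegral_enorm] at h
  exact h

theorem l2_tendsto_zero {un vn : ℕ → ℂ → ℂ} (hu : ∀ n, MemLp (un n) 2 μ)
    (hv : ∀ n, MemLp (vn n) 2 μ) {C : ℝ≥0∞} (hC : C ≠ ⊤) (h1 : ∀ n, eLpNorm (un n) 2 μ ≤ C)
    (h2 : Tendsto (fun n => eLpNorm (vn n) 2 μ) atTop (𝓝 0)) :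
    Tendsto (fun n => ∫ z, un n z * vn n z ∂μ) atTop (𝓝 0) := by
  rw [tendsto_zero_iff_enorm_tendsto_zero]
  have h3 : Tendsto (fun n => C * eLpNorm (vn n) 2 μ) atTop (𝓝 0) := by
    have := ENNReal.Tendsto.const_mul h2 (Or.inr hC)
    simpa using this
  refine tendsto_of_tendsto_of_tendsto_of_le_of_le tendsto_const_nhds h3 (fun n => bot_le)
    (fun n => ?_)
  exact (l2_enorm_integral_le (hu n) (hv n)).trans (mul_le_mul' (h1 n) le_rfl)

/-- strong convergence of the factors implies convergence of the pairing. -/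
theorem l2_tendsto_integral_mul {un vn : ℕ → ℂ → ℂ} {u v : ℂ → ℂ}
    (hun : ∀ n, MemLp (un n) 2 μ) (hvn : ∀ n, MemLp (vn n) 2 μ) (hu : MemLp u 2 μ)
    (hv : MemLp v 2 μ)
    (h1 : Tendsto (fun n => eLpNorm (fun z => un n z - u z) 2 μ) atTop (𝓝 0))
    (h2 : Tendsto (fun n => eLpNorm (fun z => vn n z - v z) 2 μ) atTop (𝓝 0)) :
    Tendsto (fun n => ∫ z, un n z * vn n z ∂μ) atTop (𝓝 (∫ z, u z * v z ∂μ)) := by
  have hdu : ∀ n, MemLp (fun z => un n z - u z) 2 μ := fun n => (hun n).sub hu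
  have hdv : ∀ n, MemLp (fun z => vn n z - v z) 2 μ := fun n => (hvn n).sub hv
  have e : ∀ n, ∫ z, un n z * vn n z ∂μ = ∫ z, u z * v z ∂μ
      + (∫ z, vn n z * (un n z - u z) ∂μ + ∫ z, u z * (vn n z - v z) ∂μ) := by
    intro n
    have i3 : Integrable (fun z => vn n z * (un n z - u z) + u z * (vn n z - v z)) μ :=
      (l2_integrable_mul (hvn n) (hdu n)).add (l2_integrable_mul hu (hdv n))
    rw [← integral_add (l2_integrable_mul (hvn n) (hdu n)) (l2_integrable_mul hu (hdv n)),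
      ← integral_add (l2_integrable_mul hu hv) i3]
    congr 1
    funext z
    ring
  have hbd : ∀ᶠ n in atTop, eLpNorm (fun z => vn n z - v z) 2 μ ≤ 1 :=
    (h2.eventually (gt_mem_nhds (zero_lt_one))).mono fun n h => le_of_lt h
  have t1 : Tendsto (fun n => ∫ z, vn n z * (un n z - u z) ∂μ) atTop (𝓝 0) := by
    rw [tendsto_zero_iff_enorm_tendsto_zero]
    have h3 : Tendsto (fun n => (eLpNorm v 2 μ + 1) * eLpNorm (fun z => un n z - u z) 2 μ) atTop
        (𝓝 0) := by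
      have := ENNReal.Tendsto.const_mul h1
        (Or.inr (ENNReal.add_ne_top.2 ⟨hv.eLpNorm_ne_top, ENNReal.one_ne_top⟩))
      simpa using this
    refine tendsto_of_tendsto_of_tendsto_of_le_of_le' tendsto_const_nhds h3
      (Eventually.of_forall fun n => bot_le) ?_
    filter_upwards [hbd] with n hn
    refine (l2_enorm_integral_le (hvn n) (hdu n)).trans (mul_le_mul' ?_ le_rfl)
    have h4 : vn n = fun z => v z + (vn n z - v z) := by
      funext z; ring
    rw [h4]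
    refine (eLpNorm_add_le hv.aestronglyMeasurable (hdv n).aestronglyMeasurable
      (by norm_num)).trans ?_
    gcongr
  have t2 : Tendsto (fun n => ∫ z, u z * (vn n z - v z) ∂μ) atTop (𝓝 0) :=
    l2_tendsto_zero (fun _ => hu) hdv hu.eLpNorm_ne_top (fun _ => le_rfl) h2
  have := (tendsto_const_nhds (x := ∫ z, u z * v z ∂μ)).add (t1.add t2)
  simp only [add_zero] at this
  exact this.congr fun n => (e n).symm

theorem l2_memLp_conj {a : ℂ → ℂ} (ha : MemLp a 2 μ) : MemLp (fun z => conj (a z)) 2 μ := by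
  refine ha.of_le ?_ (Eventually.of_forall fun z => by simp)
  exact Complex.continuous_conj.comp_aestronglyMeasurable ha.aestronglyMeasurable

theorem l2_memLp_bdd_mul {a b : ℂ → ℂ} (hb : Continuous b) {C : ℝ} (hC : ∀ z, ‖b z‖ ≤ C)
    (ha : MemLp a 2 μ) : MemLp (fun z => b z * a z) 2 μ := by
  refine ha.of_le_mul (c := C) (hb.aestronglyMeasurable.mul ha.aestronglyMeasurable)
    (Eventually.of_forall fun z => ?_)
  rw [norm_mul]
  exact mul_le_mul_of_nonneg_right (hC z) (norm_nonneg _)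

theorem l2_memLp_of_continuous {K : Set ℂ} (hK : IsCompact K) {f : ℂ → ℂ} (hf : Continuous f) :
    MemLp f 2 (volume.restrict K) := by
  have : IsFiniteMeasure (volume.restrict K) := ⟨by simpa using hK.measure_lt_top⟩
  obtain ⟨C, hC⟩ := hK.exists_bound_of_continuousOn hf.continuousOn
  refine MemLp.of_bound hf.aestronglyMeasurable C ?_
  exact (ae_restrict_iff' hK.measurableSet).2 (Eventually.of_forall hC)

theorem l2_tendsto_conj {an : ℕ → ℂ → ℂ} {a : ℂ → ℂ}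
    (h : Tendsto (fun n => eLpNorm (fun z => an n z - a z) 2 μ) atTop (𝓝 0)) :
    Tendsto (fun n => eLpNorm (fun z => conj (an n z) - conj (a z)) 2 μ) atTop (𝓝 0) := by
  refine h.congr fun n => eLpNorm_congr_norm_ae (Eventually.of_forall fun z => ?_)
  rw [← map_sub, Complex.norm_conj]

theorem l2_tendsto_bdd_mul {b : ℂ → ℂ} {C : ℝ} (hC : ∀ z, ‖b z‖ ≤ C) {an : ℕ → ℂ → ℂ} {a : ℂ → ℂ}
    (h : Tendsto (fun n => eLpNorm (fun z => an n z - a z) 2 μ) atTop (𝓝 0)) :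
    Tendsto (fun n => eLpNorm (fun z => b z * an n z - b z * a z) 2 μ) atTop (𝓝 0) := by
  have h1 : Tendsto (fun n => ENNReal.ofReal C * eLpNorm (fun z => an n z - a z) 2 μ) atTop
      (𝓝 0) := by
    have := ENNReal.Tendsto.const_mul h (Or.inr (ENNReal.ofReal_ne_top (r := C)))
    simpa using this
  refine tendsto_of_tendsto_of_tendsto_of_le_of_le tendsto_const_nhds h1 (fun n => bot_le)
    (fun n => ?_)
  refine eLpNorm_le_mul_eLpNorm_of_ae_le_mul (Eventually.of_forall fun z => ?_) 2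
  rw [← mul_sub, norm_mul]
  exact mul_le_mul_of_nonneg_right (hC z) (norm_nonneg _)

theorem l2_tendsto_of_unif {K : Set ℂ} (hK : IsCompact K) {F : ℕ → ℂ → ℂ} {f : ℂ → ℂ}
    (h : TendstoUniformlyOn F f atTop K) :
    Tendsto (fun n => eLpNorm (fun z => F n z - f z) 2 (volume.restrict K)) atTop (𝓝 0) := by
  rw [ENNReal.tendsto_nhds_zero]
  intro ε hε
  have hKf : (volume K) ^ ((2 : ℝ≥0∞).toReal⁻¹) ≠ ⊤ :=
    ENNReal.rpow_ne_top_of_nonneg (by positivity) hK.measure_lt_top.ne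
  have h1 : Tendsto (fun t : ℝ => (volume K) ^ ((2 : ℝ≥0∞).toReal⁻¹) * ENNReal.ofReal t) (𝓝[>] 0)
      (𝓝 0) := by
    have h2 : Tendsto (fun t : ℝ => ENNReal.ofReal t) (𝓝[>] 0) (𝓝 0) := by
      have := (ENNReal.continuous_ofReal.tendsto (0 : ℝ)).mono_left
        (nhdsWithin_le_nhds (s := Ioi (0 : ℝ)))
      simpa using this
    have := ENNReal.Tendsto.const_mul h2 (Or.inr hKf)
    simpa using this
  obtain ⟨t, ht1, ht2⟩ := ((ENNReal.tendsto_nhds_zero.1 h1 ε hε).and self_mem_nhdsWithin).exists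
  have ht0 : (0 : ℝ) < t := ht2
  filter_upwards [Metric.tendstoUniformlyOn_iff.1 h t ht0] with n hn
  refine le_trans (eLpNorm_le_of_ae_bound (C := t)
    ((ae_restrict_iff' hK.measurableSet).2 (Eventually.of_forall fun z hz => ?_))) ?_
  · have := hn z hz
    rw [dist_comm, dist_eq_norm] at this
    exact this.le
  · rw [Measure.restrict_apply_univ]
    exact ht1

theorem l2_weak_of_dense {an : ℕ → ℂ → ℂ} {a ψ : ℂ → ℂ} {ψm : ℕ → ℂ → ℂ}
    (han : ∀ n, MemLp (an n) 2 μ) (ha : MemLp a 2 μ) (hψ : MemLp ψ 2 μ)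
    (hψm : ∀ m, MemLp (ψm m) 2 μ) {C : ℝ≥0∞} (hC : C ≠ ⊤) (hb : ∀ n, eLpNorm (an n) 2 μ ≤ C)
    (h1 : Tendsto (fun m => eLpNorm (fun z => ψm m z - ψ z) 2 μ) atTop (𝓝 0))
    (h2 : ∀ m, Tendsto (fun n => ∫ z, ψm m z * an n z ∂μ) atTop (𝓝 (∫ z, ψm m z * a z ∂μ))) :
    Tendsto (fun n => ∫ z, ψ z * an n z ∂μ) atTop (𝓝 (∫ z, ψ z * a z ∂μ)) := by
  rw [← tendsto_sub_nhds_zero_iff, tendsto_zero_iff_enorm_tendsto_zero, ENNReal.tendsto_nhds_zero]
  intro ε hε
  have hε2 : 0 < ε / 2 := ENNReal.half_pos hε.ne'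
  have hCA : C + eLpNorm a 2 μ ≠ ⊤ := ENNReal.add_ne_top.2 ⟨hC, ha.eLpNorm_ne_top⟩
  have h3 : Tendsto (fun m => (C + eLpNorm a 2 μ) * eLpNorm (fun z => ψm m z - ψ z) 2 μ) atTop
      (𝓝 0) := by
    have := ENNReal.Tendsto.const_mul h1 (Or.inr hCA)
    simpa using this
  obtain ⟨m, hm⟩ := (ENNReal.tendsto_nhds_zero.1 h3 (ε / 2) hε2).exists
  have h4 := h2 m
  rw [← tendsto_sub_nhds_zero_iff, tendsto_zero_iff_enorm_tendsto_zero,
    ENNReal.tendsto_nhds_zero] at h4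
  have hdm : MemLp (fun z => ψm m z - ψ z) 2 μ := (hψm m).sub hψ
  filter_upwards [h4 (ε / 2) hε2] with n hn
  have e : ∫ z, ψ z * an n z ∂μ - ∫ z, ψ z * a z ∂μ
      = (∫ z, ψm m z * an n z ∂μ - ∫ z, ψm m z * a z ∂μ)
        + (∫ z, (ψm m z - ψ z) * a z ∂μ - ∫ z, (ψm m z - ψ z) * an n z ∂μ) := by
    have e1 : ∫ z, (ψm m z - ψ z) * a z ∂μ = ∫ z, ψm m z * a z ∂μ - ∫ z, ψ z * a z ∂μ := by
      rw [← integral_sub (l2_integrable_mul (hψm m) ha) (l2_integrable_mul hψ ha)]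
      simp only [sub_mul]
    have e2 : ∫ z, (ψm m z - ψ z) * an n z ∂μ
        = ∫ z, ψm m z * an n z ∂μ - ∫ z, ψ z * an n z ∂μ := by
      rw [← integral_sub (l2_integrable_mul (hψm m) (han n)) (l2_integrable_mul hψ (han n))]
      simp only [sub_mul]
    rw [e1, e2]
    ring
  rw [e]
  refine (enorm_add_le _ _).trans ?_
  rw [← ENNReal.add_halves ε]
  refine add_le_add hn (le_trans ?_ hm)
  refine (enorm_sub_le).trans ?_
  rw [add_mul, add_comm]
  refine add_le_add ?_ ?_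
  · refine (l2_enorm_integral_le hdm (han n)).trans ?_
    rw [mul_comm]
    exact mul_le_mul' (hb n) le_rfl
  · refine (l2_enorm_integral_le hdm ha).trans ?_
    rw [mul_comm]

end QC
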