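import Pool.Agent.Work.MP_217185_an.Schw
import Pool.Agent.Work.MP_217185_an.BArea
import Pool.Agent.Work.MP_217185_an.L2Kit

/-! # BHarmC: `bersD μ` is harmonic and natural

* `harm_bers`: `conj (bers μ z)/(1 - ‖z‖²)² = conj (-(1/6) S w (1/conj z)/(conj z)⁴)` is holomorphic
  in `z ≠ 0` (`bers_eq`; `z ↦ conj (S w (1/conj z))` is holomorphic), and tends at `0` to
  `conj (bers μ 0)` (`tendsto_schw`, `bers_zero`): removable singularity.
* `bers_pull`: `A ∘ A_z = A_{A z} ∘ rotation`, so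
  `pull 1 z (pull a b μ) = pull e 0 (pull 1 (mob a b z) μ)`, and `integral_hh_rot`.  The factor is
  `conj A'(z)/A'(z)`. -/

open MeasureTheory Complex Set Metric Filter
open scoped Topology ENNReal NNReal ContDiff ComplexConjugate

namespace QC

variable {k : ℝ} {μ : ℂ → ℂ}

private theorem radial_integral :
    ∫ ζ : ℂ, (if ‖ζ‖ < 1 then (((1 - ‖ζ‖ ^ 2) ^ 2 : ℝ) : ℂ) else 0) = Real.pi / 3 := by
  have h1 := integral_fun_norm_addHaar (E := ℂ) (F := ℝ) (volume : Measure ℂ)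
    (fun r => if r < 1 then (1 - r ^ 2) ^ 2 else 0)
  rw [Complex.finrank_real_complex] at h1
  have h2 : (volume : Measure ℂ).real (ball 0 1) = Real.pi := by
    rw [Measure.real, Complex.volume_ball]
    simp
  have h3 : ∫ y in Ioi (0 : ℝ), y ^ (2 - 1) • (if y < 1 then (1 - y ^ 2) ^ 2 else (0 : ℝ)) =
      1 / 6 := by
    have e1 : ∫ y in Ioi (0 : ℝ), y ^ (2 - 1) • (if y < 1 then (1 - y ^ 2) ^ 2 else (0 : ℝ)) =
        ∫ y in Ioc (0 : ℝ) 1, y * (1 - y ^ 2) ^ 2 := by
      rw [← integral_indicator measurableSet_Ioi, ← integral_indicator measurableSet_Ioc]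
      refine integral_congr_ae ?_
      have hne : ∀ᵐ y : ℝ, y ≠ 1 := by
        simp [ae_iff, measure_singleton]
      filter_upwards [hne] with y hy
      by_cases h0 : 0 < y
      · rcases lt_or_gt_of_ne hy with h | h
        · rw [indicator_of_mem (show y ∈ Ioi (0 : ℝ) from h0),
            indicator_of_mem (show y ∈ Ioc (0 : ℝ) 1 from ⟨h0, h.le⟩), if_pos h]
          simp
        · rw [indicator_of_mem (show y ∈ Ioi (0 : ℝ) from h0),
            indicator_of_notMem (show y ∉ Ioc (0 : ℝ) 1 from fun hh => absurd hh.2 (not_le.2 h)),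
            if_neg (not_lt.2 h.le)]
          simp
      · rw [indicator_of_notMem (show y ∉ Ioi (0 : ℝ) from h0),
          indicator_of_notMem (show y ∉ Ioc (0 : ℝ) 1 from fun hh => h0 hh.1)]
    rw [e1, ← intervalIntegral.integral_of_le zero_le_one]
    have e2 : ∀ y ∈ uIcc (0 : ℝ) 1, HasDerivAt (fun y : ℝ => -(1 - y ^ 2) ^ 3 / 6)
        (y * (1 - y ^ 2) ^ 2) y := by
      intro y _
      have a1 : HasDerivAt (fun y : ℝ => 1 - y ^ 2) (-(2 * y)) y := by
        simpa using (hasDerivAt_pow 2 y).const_sub 1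
      have a2 := ((a1.pow 3).neg).div_const 6
      refine HasDerivAt.congr_deriv (f' := _) a2 ?_
      simp
      ring
    rw [intervalIntegral.integral_eq_sub_of_hasDerivAt e2
      ((by fun_prop : Continuous fun y : ℝ => y * (1 - y ^ 2) ^ 2).intervalIntegrable 0 1)]
    norm_num
  rw [h2, h3] at h1
  have h4 : (∫ ζ : ℂ, (if ‖ζ‖ < 1 then (((1 - ‖ζ‖ ^ 2) ^ 2 : ℝ) : ℂ) else 0)) =
      ((∫ ζ : ℂ, (if ‖ζ‖ < 1 then (1 - ‖ζ‖ ^ 2) ^ 2 else 0 : ℝ) : ℝ) : ℂ) := by
    rw [← integral_complex_ofReal]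
    refine integral_congr_ae (Eventually.of_forall fun ζ => ?_)
    simp only
    split_ifs <;> simp
  rw [h4, h1]
  simp
  ring

private theorem harm_integral {q : ℂ → ℂ} (hq : DifferentiableOn ℂ q D) {m : ℝ}
    {F : ℂ → ℂ} (hF : ∀ ζ, ‖ζ‖ < 1 → F ζ = (((1 - ‖ζ‖ ^ 2) ^ 2 : ℝ) : ℂ) * conj (q ζ))
    (hF0 : ∀ ζ, 1 ≤ ‖ζ‖ → F ζ = 0) (hFm : Measurable F) (hFb : ∀ ζ, ‖F ζ‖ ≤ m) :
    ∫ ζ, F ζ = (Real.pi / 3) * conj (q 0) := by
  have hpi := Real.pi_pos
  -- rotation
  have hrot : ∀ θ : ℝ, ∫ ζ, F (circleMap 0 1 θ * ζ) = ∫ ζ, F ζ := by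
    intro θ
    have h1 := (rotation (Circle.exp θ)).measurePreserving.integral_comp
      (rotation (Circle.exp θ)).toHomeomorph.measurableEmbedding F
    rw [← h1]
    refine integral_congr_ae (Eventually.of_forall fun ζ => ?_)
    simp only
    congr 1
    simp [circleMap, rotation_apply]
  have hcm : Continuous (fun p : ℝ × ℂ => circleMap 0 1 p.1 * p.2) := by
    have := continuous_circleMap 0 1
    fun_prop
  -- integrability on the product
  have hint : Integrable (fun p : ℝ × ℂ => F (circleMap 0 1 p.1 * p.2))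
      ((volume.restrict (Ioc 0 (2 * Real.pi))).prod volume) := by
    have h1 : Integrable (fun p : ℝ × ℂ => (1 : ℝ) *
        ((ball (0 : ℂ) 1).indicator (fun _ => m) p.2))
        ((volume.restrict (Ioc 0 (2 * Real.pi))).prod volume) := by
      refine Integrable.mul_prod (f := fun _ : ℝ => (1 : ℝ))
        (g := (ball (0 : ℂ) 1).indicator (fun _ => m)) ?_ ?_
      · exact integrable_const _
      · rw [integrable_indicator_iff measurableSet_ball]
        exact integrableOn_const (by exact measure_ball_lt_top.ne) (by simp)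
    refine Integrable.mono' h1 (hFm.comp hcm.measurable).aestronglyMeasurable
      (Eventually.of_forall fun p => ?_)
    simp only [one_mul]
    have hn : ‖circleMap 0 1 p.1 * p.2‖ = ‖p.2‖ := by
      rw [norm_mul]
      simp
    by_cases hp : p.2 ∈ ball (0 : ℂ) 1
    · rw [indicator_of_mem hp]
      exact hFb _
    · rw [indicator_of_notMem hp]
      rw [mem_ball_zero_iff, not_lt] at hp
      rw [hF0 _ (by rw [hn]; exact hp), norm_zero]
  have hswap := integral_integral_swap (f := fun (θ : ℝ) (ζ : ℂ) => F (circleMap 0 1 θ * ζ)) hint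
  simp only [hrot] at hswap
  rw [integral_const, Measure.real, Measure.restrict_apply_univ, Real.volume_Ioc, sub_zero,
    ENNReal.toReal_ofReal (by positivity)] at hswap
  have hinner : ∀ ζ : ℂ, ∫ θ in Ioc 0 (2 * Real.pi), F (circleMap 0 1 θ * ζ) =
      (2 * Real.pi * conj (q 0)) *
        (if ‖ζ‖ < 1 then (((1 - ‖ζ‖ ^ 2) ^ 2 : ℝ) : ℂ) else 0) := by
    intro ζ
    have hn : ∀ θ, ‖circleMap 0 1 θ * ζ‖ = ‖ζ‖ := by
      intro θ
      rw [norm_mul]
      simp
    split_ifs with hζ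
    · have hdc : DiffContOnCl ℂ (fun w => q (w * ζ)) (ball (0 : ℂ) |1|) := by
        refine DifferentiableOn.diffContOnCl ?_
        rw [abs_one, closure_ball 0 one_ne_zero]
        intro w hw
        rw [mem_closedBall_zero_iff] at hw
        have hwζ : ‖w * ζ‖ < 1 := by
          rw [norm_mul]
          calc ‖w‖ * ‖ζ‖ ≤ 1 * ‖ζ‖ := mul_le_mul_of_nonneg_right hw (norm_nonneg _)
            _ = ‖ζ‖ := one_mul _
            _ < 1 := hζ
        have h1 : DifferentiableAt ℂ q (w * ζ) :=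
          hq.differentiableAt (isOpen_ball.mem_nhds (by simpa using hwζ))
        exact (h1.comp w (by fun_prop : DifferentiableAt ℂ (fun w => w * ζ) w)).differentiableWithinAt
      have h1 := hdc.circleAverage
      rw [Real.circleAverage_def] at h1
      simp only [zero_mul] at h1
      have h2 : ∫ θ in (0 : ℝ)..2 * Real.pi, q (circleMap 0 1 θ * ζ) = 2 * Real.pi * q 0 := by
        rw [← h1, Complex.real_smul, ← mul_assoc]
        have : (2 * Real.pi : ℂ) * ((2 * Real.pi)⁻¹ : ℝ) = 1 := by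
          have hpi' : (Real.pi : ℂ) ≠ 0 := by exact_mod_cast hpi.ne'
          push_cast
          field_simp
        rw [this, one_mul]
      have h3 : ∫ θ in Ioc 0 (2 * Real.pi), F (circleMap 0 1 θ * ζ) =
          ∫ θ in Ioc 0 (2 * Real.pi), (((1 - ‖ζ‖ ^ 2) ^ 2 : ℝ) : ℂ) *
            conj (q (circleMap 0 1 θ * ζ)) := by
        refine integral_congr_ae (Eventually.of_forall fun θ => ?_)
        simp only
        rw [hF _ (by rw [hn]; exact hζ), hn]
      rw [h3, integral_const_mul, integral_conj, ← intervalIntegral.integral_of_le (by positivity),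
        h2]
      simp only [map_mul, Complex.conj_ofReal]
      have h4 : conj (2 : ℂ) = 2 := by
        have := Complex.conj_ofReal 2
        simpa using this
      rw [h4]
      ring
    · push Not at hζ
      rw [mul_zero]
      refine integral_eq_zero_of_ae (Eventually.of_forall fun θ => ?_)
      simp only [Pi.zero_apply]
      exact hF0 _ (by rw [hn]; exact hζ)
  simp only [hinner] at hswap
  rw [integral_const_mul, radial_integral, Complex.real_smul] at hswap
  have h2pi : ((2 * Real.pi : ℝ) : ℂ) ≠ 0 := by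
    exact_mod_cast (by positivity : (2 * Real.pi : ℝ) ≠ 0)
  refine mul_left_cancel₀ h2pi ?_
  rw [hswap]
  push_cast
  ring

private theorem harm_measurable {ν : ℂ → ℂ} (hν : Harm ν) : Measurable ν := by
  classical
  obtain ⟨⟨q, hq, hqe⟩, h0⟩ := hν
  have h1 : ν = (D : Set ℂ).piecewise (fun z => ((1 - ‖z‖ ^ 2 : ℝ) : ℂ) ^ 2 * conj (q z))
      (fun _ => 0) := by
    funext z
    by_cases hz : z ∈ D
    · rw [piecewise_eq_of_mem _ _ _ hz, hqe z hz]
    · rw [piecewise_eq_of_notMem _ _ _ hz, h0 z hz]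
  rw [h1]
  refine ContinuousOn.measurable_piecewise ?_ continuousOn_const measurableSet_ball
  refine ContinuousOn.mul (by fun_prop) ?_
  exact Complex.continuous_conj.comp_continuousOn hq.continuousOn

/-- the pull back is again harmonic -/
private theorem pull_rep {ν : ℂ → ℂ} {q : ℂ → ℂ}
    (hqe : ∀ z ∈ D, ν z = ((1 - ‖z‖ ^ 2 : ℝ) : ℂ) ^ 2 * conj (q z)) {z : ℂ} (hz : ‖z‖ < 1)
    {ζ : ℂ} (hζ : ‖ζ‖ < 1) :
    pull 1 z ν ζ = (((1 - ‖ζ‖ ^ 2) ^ 2 : ℝ) : ℂ) *
      conj (((1 - ‖z‖ ^ 2 : ℝ) : ℂ) ^ 2 * q (mob 1 z ζ) / (conj z * ζ + 1) ^ 4) := by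
  have h1 : ‖z‖ < ‖(1 : ℂ)‖ := by simpa using hz
  have hd := mob_denom_ne h1 hζ.le
  rw [map_one] at hd
  have hm := norm_mob_lt h1 hζ
  have hone := one_sub_norm_mob h1 hζ.le
  rw [map_one, norm_one, one_pow] at hone
  unfold pull
  rw [if_pos hζ, hqe _ (by simpa using hm), hone, map_one]
  set c : ℂ := conj z * ζ + 1 with hc
  have hcc : z * conj ζ + 1 = conj c := by
    rw [hc]
    simp only [map_add, map_mul, Complex.conj_conj, map_one]
  have hc0 : conj c ≠ 0 := by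
    intro h0
    exact hd (by simpa using h0)
  have hn : ((‖c‖ ^ 2 : ℝ) : ℂ) = c * conj c := by
    rw [Complex.mul_conj, Complex.normSq_eq_norm_sq]
  rw [hcc]
  have e1 : (((1 - ‖z‖ ^ 2) * (1 - ‖ζ‖ ^ 2) / ‖c‖ ^ 2 : ℝ) : ℂ) =
      ((1 - ‖z‖ ^ 2 : ℝ) : ℂ) * ((1 - ‖ζ‖ ^ 2 : ℝ) : ℂ) / (c * conj c) := by
    rw [← hn]
    push_cast
    ring
  rw [e1]
  simp only [map_mul, map_div₀, map_pow, Complex.conj_ofReal]
  rw [Complex.ofReal_pow]
  field_simp

/-- the derivative at the origin on harmonic coefficients: first order term of `bers (t ν)`. -/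
theorem deriv_bers_harm {ν : ℂ → ℂ} (hν : Harm ν) {m : ℝ} (hm : ∀ z, ‖ν z‖ ≤ m) {z : ℂ}
    (hz : ‖z‖ < 1) : HasDerivAt (fun t : ℂ => bers (fun ζ => t * ν ζ) z) (ν z / 3) 0 := by
  have hνm := harm_measurable hν
  obtain ⟨⟨q, hq, hqe⟩, h0⟩ := hν
  have hm0 : 0 ≤ m := (norm_nonneg _).trans (hm 0)
  have hz1 : ‖z‖ < ‖(1 : ℂ)‖ := by simpa using hz
  set ρ : ℂ → ℂ := pull 1 z ν with hρ
  set t0 : ℝ := 1 / (2 * (m + 1)) with ht0
  have ht0p : 0 < t0 := by positivity
  have hbel : ∀ t : ℂ, ‖t‖ ≤ t0 → Bel (1 / 2) (fun ζ => t * ν ζ) := by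
    intro t ht
    refine ⟨hνm.const_mul t, fun ζ => ?_, by norm_num⟩
    rw [norm_mul]
    calc ‖t‖ * ‖ν ζ‖ ≤ t0 * (m + 1) :=
          mul_le_mul ht ((hm ζ).trans (by linarith)) (norm_nonneg _) ht0p.le
      _ = 1 / 2 := by
          rw [ht0]
          field_simp
  have hpull : ∀ t : ℂ, pull 1 z (fun ζ => t * ν ζ) = fun ζ => t * ρ ζ := by
    intro t
    funext ζ
    simp only [hρ]
    unfold pull
    split_ifs
    · ring
    · ring
  have hpb : ∀ t : ℂ, ‖t‖ ≤ t0 → Bel (1 / 2) (fun ζ => t * ρ ζ) ∧ SuppIn 1 (fun ζ => t * ρ ζ) := by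
    intro t ht
    rw [← hpull]
    exact pull_bel hz1 (hbel t ht)
  have ht0c : ((t0 : ℝ) : ℂ) ≠ 0 := by exact_mod_cast ht0p.ne'
  have hb0 := hpb t0 (by rw [Complex.norm_real, Real.norm_of_nonneg ht0p.le])
  have hρe : ρ = fun ζ => ((t0 : ℝ) : ℂ)⁻¹ * (((t0 : ℝ) : ℂ) * ρ ζ) := by
    funext ζ
    rw [inv_mul_cancel_left₀ ht0c]
  have hρmem : MemLp ρ 2 (volume : Measure ℂ) := by
    rw [hρe]
    exact (SuppIn.memLp hb0.1 hb0.2).const_mul _
  have hρm : Measurable ρ := by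
    rw [hρe]
    exact hb0.1.meas.const_mul _
  have hρ0 : ∀ ζ, 1 ≤ ‖ζ‖ → ρ ζ = 0 := by
    intro ζ hζ
    simp only [hρ]
    unfold pull
    rw [if_neg (not_lt.2 hζ)]
  have hρb : ∀ ζ, ‖ρ ζ‖ ≤ m := by
    intro ζ
    by_cases hζ : ‖ζ‖ < 1
    · rw [hρ, norm_pull hz1 ν hζ]
      exact hm _
    · rw [hρ0 ζ (not_lt.1 hζ), norm_zero]
      exact hm0
  -- the integral of `ρ`
  have hI : ∫ ζ, ρ ζ = (Real.pi / 3) * ν z := by
    have hqd : DifferentiableOn ℂ (fun ζ => ((1 - ‖z‖ ^ 2 : ℝ) : ℂ) ^ 2 * q (mob 1 z ζ) /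
        (conj z * ζ + 1) ^ 4) D := by
      intro ζ hζ
      have hζ1 : ‖ζ‖ < 1 := by simpa using hζ
      have hd := mob_denom_ne hz1 hζ1.le
      rw [map_one] at hd
      have h1 : DifferentiableAt ℂ (mob 1 z) ζ := by
        have hd' : conj z * ζ + conj 1 ≠ 0 := by rwa [map_one]
        exact (hasDerivAt_mob hz1 hd').differentiableAt
      have h2 : DifferentiableAt ℂ q (mob 1 z ζ) :=
        hq.differentiableAt (isOpen_ball.mem_nhds (by simpa using norm_mob_lt hz1 hζ1))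
      refine DifferentiableAt.differentiableWithinAt ?_
      refine ((h2.comp ζ h1).const_mul _).div (by fun_prop) (pow_ne_zero 4 hd)
    have h1 := harm_integral hqd (F := ρ) (m := m) (fun ζ hζ => pull_rep hqe hz hζ) hρ0 hρm hρb
    rw [h1]
    congr 1
    have h2 : mob 1 z 0 = z := by
      unfold mob
      simp
    rw [h2, hqe z (by simpa using hz)]
    simp
  have hρi : Integrable ρ := by
    have : IsFiniteMeasure ((volume : Measure ℂ).restrict (ball (0 : ℂ) 1)) :=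
      ⟨by rw [Measure.restrict_apply_univ]; exact measure_ball_lt_top⟩
    have h1 : IntegrableOn ρ (ball (0 : ℂ) 1) := (hρmem.restrict _).integrable (by norm_num)
    refine (integrableOn_iff_integrable_of_support_subset ?_).1 h1
    intro ζ hζ
    rw [mem_ball_zero_iff]
    by_contra hcon
    exact hζ (hρ0 ζ (not_lt.1 hcon))
  -- second order bound
  set N : ℝ := (eLpNorm ρ 2 (volume : Measure ℂ)).toReal with hN
  have hbound : ∀ t : ℂ, ‖t‖ ≤ t0 →
      ‖bers (fun ζ => t * ν ζ) z - t * (ν z / 3)‖ ≤ (1 / Real.pi * (2 * N ^ 2)) * ‖t ^ 2‖ := by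
    intro t ht
    obtain ⟨hb, hs⟩ := hpb t ht
    set h : ℂ → ℂ := hh (fun ζ => t * ρ ζ) with hh_def
    have hmem : MemLp h 2 (volume : Measure ℂ) := hh_memLp hb hs
    have hTm : MemLp (Tf h) 2 (volume : Measure ℂ) := memLp_Tf hmem
    have e1 : ∫ ζ, h ζ = t * (∫ ζ, ρ ζ) + t * ∫ ζ, ρ ζ * Tf h ζ := by
      rw [← integral_const_mul, ← integral_const_mul, ← integral_add (hρi.const_mul t)
        ((l2_integrable_mul hρmem hTm).const_mul t)]
      refine integral_congr_ae (Eventually.of_forall fun ζ => ?_)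
      simp only
      rw [hh_def, hh_eq hb hs ζ]
      ring
    have hpi : (Real.pi : ℂ) ≠ 0 := by exact_mod_cast Real.pi_ne_zero
    have e2 : bers (fun ζ => t * ν ζ) z - t * (ν z / 3) =
        (1 / (Real.pi : ℂ)) * (t * ∫ ζ, ρ ζ * Tf h ζ) := by
      unfold bers
      rw [hpull, ← hh_def, e1, hI]
      field_simp
      ring
    have e3 : ‖∫ ζ, ρ ζ * Tf h ζ‖ ≤ N * (2 * (‖t‖ * N)) := by
      have a1 := l2_enorm_integral_le hρmem hTm
      rw [eLpNorm_Tf hmem] at a1
      have a2 := hh_norm hb hs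
      have a3 : eLpNorm (fun ζ => t * ρ ζ) 2 (volume : Measure ℂ) =
          ‖t‖ₑ * eLpNorm ρ 2 volume := by
        exact eLpNorm_const_smul t ρ 2 volume
      rw [a3] at a2
      have a4 : ‖∫ ζ, ρ ζ * Tf h ζ‖ₑ ≤ eLpNorm ρ 2 volume *
          (ENNReal.ofReal (1 / (1 - 1 / 2)) * (‖t‖ₑ * eLpNorm ρ 2 volume)) :=
        a1.trans (mul_le_mul_right a2 _)
      have hfin : eLpNorm ρ 2 (volume : Measure ℂ) ≠ ⊤ := hρmem.2.ne
      have a5 := ENNReal.toReal_mono (ENNReal.mul_ne_top hfin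
        (ENNReal.mul_ne_top ENNReal.ofReal_ne_top (ENNReal.mul_ne_top enorm_ne_top hfin))) a4
      rw [toReal_enorm, ENNReal.toReal_mul, ENNReal.toReal_mul, ENNReal.toReal_mul, toReal_enorm,
        ENNReal.toReal_ofReal (by norm_num)] at a5
      have a6 : (1 : ℝ) / (1 - 1 / 2) = 2 := by norm_num
      rw [a6] at a5
      exact a5
    rw [e2, norm_mul, norm_mul, norm_div, norm_one, Complex.norm_real,
      Real.norm_of_nonneg Real.pi_pos.le, norm_pow]
    calc 1 / Real.pi * (‖t‖ * ‖∫ ζ, ρ ζ * Tf h ζ‖)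
        ≤ 1 / Real.pi * (‖t‖ * (N * (2 * (‖t‖ * N)))) := by
          refine mul_le_mul_of_nonneg_left (mul_le_mul_of_nonneg_left e3 (norm_nonneg _)) ?_
          positivity
      _ = 1 / Real.pi * (2 * N ^ 2) * ‖t‖ ^ 2 := by ring
  have hf0 : bers (fun ζ => (0 : ℂ) * ν ζ) z = 0 := by
    have h1 := hbound 0 (by rw [norm_zero]; exact ht0p.le)
    rw [zero_mul, sub_zero] at h1
    have h2 : ‖(0 : ℂ) ^ 2‖ = 0 := by simp
    rw [h2, mul_zero] at h1
    exact norm_le_zero_iff.1 h1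
  rw [hasDerivAt_iff_isLittleO_nhds_zero]
  refine Asymptotics.IsBigO.trans_isLittleO (g := fun t : ℂ => t ^ 2) ?_
    (Asymptotics.isLittleO_pow_id one_lt_two)
  refine Asymptotics.IsBigO.of_bound (1 / Real.pi * (2 * N ^ 2)) ?_
  have hnh : closedBall (0 : ℂ) t0 ∈ 𝓝 (0 : ℂ) := closedBall_mem_nhds 0 ht0p
  filter_upwards [hnh] with t ht
  rw [mem_closedBall_zero_iff] at ht
  simp only [zero_add, smul_eq_mul]
  rw [hf0, sub_zero]
  exact hbound t ht

end QC
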