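import Pool.Agent.Work.MP_217185_an.Schw
import Pool.Agent.Work.MP_217185_an.BArea

/-! # BHarmA: `bersD μ` is harmonic and natural

* `harm_bers`: `conj (bers μ z)/(1 - ‖z‖²)² = conj (-(1/6) S w (1/conj z)/(conj z)⁴)` is holomorphic
  in `z ≠ 0` (`bers_eq`; `z ↦ conj (S w (1/conj z))` is holomorphic), and tends at `0` to
  `conj (bers μ 0)` (`tendsto_schw`, `bers_zero`): removable singularity.
* `bers_pull`: `A ∘ A_z = A_{A z} ∘ rotation`, so
  `pull 1 z (pull a b μ) = pull e 0 (pull 1 (mob a b z) μ)`, and `integral_hh_rot`.  The factor is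
  `conj A'(z)/A'(z)`. -/

open MeasureTheory Complex Set Metric Filter
open scoped Topology ENNReal NNReal ContDiff ComplexConjugate

namespace QC

variable {k : ℝ} {μ : ℂ → ℂ}

theorem bers_pull (hμ : Bel k μ) (hs : SuppIn 1 μ) {a b : ℂ} (h : ‖b‖ < ‖a‖) {z : ℂ}
    (hz : ‖z‖ < 1) : bersD (pull a b μ) z = pull a b (bersD μ) z := by
  have hm := norm_mob_lt h hz
  have hd := mob_denom_ne h hz.le
  have e0 : conj (a + b * conj z) = conj b * z + conj a := by
    simp only [map_add, map_mul, Complex.conj_conj]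
    ring
  have he : a + b * conj z ≠ 0 := by
    intro h0
    rw [h0, map_zero] at e0
    exact hd e0.symm
  have h1 : ‖z‖ < ‖(1 : ℂ)‖ := by simpa using hz
  have h2 : ‖mob a b z‖ < ‖(1 : ℂ)‖ := by simpa using hm
  have h3 : ‖(0 : ℂ)‖ < ‖a + b * conj z‖ := by
    rw [norm_zero]
    exact norm_pos_iff.2 he
  have e1 : pull 1 z (pull a b μ) = pull (a + b * conj z) 0 (pull 1 (mob a b z) μ) := by
    rw [pull_pull h h1, pull_pull h2 h3]
    congr 1
    · simp
    · rw [e0]
      unfold mob
      rw [map_one, mul_one, mul_zero, zero_add, div_mul_cancel₀ _ hd]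
  have hb := pull_bel h2 hμ
  have f1 : bersD (pull a b μ) z = bers (pull a b μ) z := by
    unfold bersD
    rw [if_pos hz]
  have f2 : bersD μ (mob a b z) = bers μ (mob a b z) := by
    unfold bersD
    rw [if_pos hm]
  have f3 : pull a b (bersD μ) z =
      bersD μ (mob a b z) * ((conj b * z + conj a) / (b * conj z + a)) ^ 2 := by
    unfold pull
    rw [if_pos hz]
  rw [f1, f3, f2]
  unfold bers
  rw [e1, integral_hh_rot hb.1 hb.2 he, e0]
  have e2 : b * conj z + a = a + b * conj z := add_comm _ _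
  rw [e2]
  ring

theorem inv_bers {S : Bord} (hμ : Bel k μ) (hs : SuppIn 1 μ) (hi : AEInv S μ) :
    Inv S (bersD μ) := by
  intro γ hγ a b hab hm z hz
  have hz' : ‖z‖ < 1 := by simpa using hz
  rw [← bers_pull hμ hs hab hz']
  unfold bersD
  rw [if_pos hz', if_pos hz']
  have hb := pull_bel hab hμ
  refine bers_congr hb.1 hb.2 hμ hs ?_ hz'
  have h1 := hi γ hγ a b hab hm
  have h2 := (ae_restrict_iff' (μ := (volume : Measure ℂ)) measurableSet_ball).1 h1
  filter_upwards [h2] with w hw
  by_cases hwD : w ∈ D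
  · exact hw hwD
  · have h3 : 1 ≤ ‖w‖ := by
      rw [mem_ball_zero_iff, not_lt] at hwD
      exact hwD
    rw [hb.2 w h3, hs w h3]

end QC
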