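import Pool.Agent.Work.MP_217185_an.DDefs

/-! # MobA1: Moebius transformations of the disc

`‖conj b z + conj a‖² - ‖a z + b‖² = (‖a‖² - ‖b‖²)(1 - ‖z‖²)`; composition
`mob a b (mob c d z) = mob (a c + b conj d) (a d + b conj c) z`; inverse `mob (conj a) (-b)`;
`(mob a b)' z = (‖a‖² - ‖b‖²)/(conj b z + conj a)²`. -/

open MeasureTheory Complex Set Metric Filter
open scoped Topology ENNReal NNReal ContDiff ComplexConjugate

namespace QC

variable {a b c d : ℂ}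

theorem mob_denom_ne (h : ‖b‖ < ‖a‖) {z : ℂ} (hz : ‖z‖ ≤ 1) : conj b * z + conj a ≠ 0 := by
  intro h0
  have h1 : conj a = -(conj b * z) := by linear_combination h0
  have h2 : ‖a‖ = ‖b‖ * ‖z‖ := by
    calc ‖a‖ = ‖conj a‖ := (Complex.norm_conj a).symm
      _ = ‖conj b * z‖ := by rw [h1, norm_neg]
      _ = ‖b‖ * ‖z‖ := by rw [norm_mul, Complex.norm_conj]
  have h3 : ‖b‖ * ‖z‖ ≤ ‖b‖ * 1 := mul_le_mul_of_nonneg_left hz (norm_nonneg b)
  linarith

private theorem key_id (a b z : ℂ) : ‖conj b * z + conj a‖ ^ 2 - ‖a * z + b‖ ^ 2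
    = (‖a‖ ^ 2 - ‖b‖ ^ 2) * (1 - ‖z‖ ^ 2) := by
  simp only [Complex.sq_norm, Complex.normSq_apply, add_re, add_im, mul_re, mul_im, conj_re,
    conj_im]
  ring

private theorem aux_div (x y N D : ℂ) (hD : D ≠ 0) : x * (N / D) + y = (x * N + y * D) / D := by
  field_simp

private theorem aux_div2 (N D : ℝ) (hD : D ≠ 0) : 1 - N / D = (D - N) / D := by
  field_simp

private theorem aux_div3 (N N' D : ℂ) (hD : D ≠ 0) : N / D / (N' / D) = N / N' := by
  field_simp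

private theorem sub_sq_pos (h : ‖b‖ < ‖a‖) : 0 < ‖a‖ ^ 2 - ‖b‖ ^ 2 := by
  have := norm_nonneg b
  nlinarith

private theorem one_sub_aux {z : ℂ} (hd : conj b * z + conj a ≠ 0) :
    1 - ‖mob a b z‖ ^ 2
      = (‖a‖ ^ 2 - ‖b‖ ^ 2) * (1 - ‖z‖ ^ 2) / ‖conj b * z + conj a‖ ^ 2 := by
  have h1 : ‖conj b * z + conj a‖ ≠ 0 := norm_ne_zero_iff.2 hd
  rw [← key_id]
  unfold mob
  rw [norm_div, div_pow]
  exact aux_div2 _ _ (pow_ne_zero 2 h1)

theorem one_sub_norm_mob (h : ‖b‖ < ‖a‖) {z : ℂ} (hz : ‖z‖ ≤ 1) :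
    1 - ‖mob a b z‖ ^ 2
      = (‖a‖ ^ 2 - ‖b‖ ^ 2) * (1 - ‖z‖ ^ 2) / ‖conj b * z + conj a‖ ^ 2 :=
  one_sub_aux (mob_denom_ne h hz)

theorem norm_mob_lt (h : ‖b‖ < ‖a‖) {z : ℂ} (hz : ‖z‖ < 1) : ‖mob a b z‖ < 1 := by
  have h1 := one_sub_norm_mob h hz.le
  have h2 : 0 < ‖conj b * z + conj a‖ := norm_pos_iff.2 (mob_denom_ne h hz.le)
  have h3 : 0 < 1 - ‖z‖ ^ 2 := by
    have := norm_nonneg z
    nlinarith
  have h4 : 0 < (‖a‖ ^ 2 - ‖b‖ ^ 2) * (1 - ‖z‖ ^ 2) / ‖conj b * z + conj a‖ ^ 2 :=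
    div_pos (mul_pos (sub_sq_pos h) h3) (by positivity)
  rw [← h1] at h4
  have h5 := norm_nonneg (mob a b z)
  nlinarith

theorem norm_mob_eq (h : ‖b‖ < ‖a‖) {z : ℂ} (hz : ‖z‖ = 1) : ‖mob a b z‖ = 1 := by
  have h1 := one_sub_norm_mob h hz.le
  rw [hz] at h1
  have h2 : 1 - ‖mob a b z‖ ^ 2 = 0 := by rw [h1]; simp
  have h5 := norm_nonneg (mob a b z)
  nlinarith

theorem norm_mob_gt (h : ‖b‖ < ‖a‖) {z : ℂ} (hz : 1 < ‖z‖) (hd : conj b * z + conj a ≠ 0) :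
    1 < ‖mob a b z‖ := by
  have h1 := one_sub_aux (a := a) (b := b) hd
  have h2 : 0 < ‖conj b * z + conj a‖ := norm_pos_iff.2 hd
  have h3 : 1 - ‖z‖ ^ 2 < 0 := by nlinarith
  have h4 : (‖a‖ ^ 2 - ‖b‖ ^ 2) * (1 - ‖z‖ ^ 2) / ‖conj b * z + conj a‖ ^ 2 < 0 :=
    div_neg_of_neg_of_pos (mul_neg_of_pos_of_neg (sub_sq_pos h) h3) (by positivity)
  rw [← h1] at h4
  have h5 := norm_nonneg (mob a b z)
  nlinarith

private theorem comp_lt (h : ‖b‖ < ‖a‖) (h' : ‖d‖ < ‖c‖) :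
    ‖a * d + b * conj c‖ < ‖a * c + b * conj d‖ := by
  have e : ‖a * c + b * conj d‖ ^ 2 - ‖a * d + b * conj c‖ ^ 2
      = (‖a‖ ^ 2 - ‖b‖ ^ 2) * (‖c‖ ^ 2 - ‖d‖ ^ 2) := by
    simp only [Complex.sq_norm, Complex.normSq_apply, add_re, add_im, mul_re, mul_im, conj_re,
      conj_im]
    ring
  have h1 : 0 < (‖a‖ ^ 2 - ‖b‖ ^ 2) * (‖c‖ ^ 2 - ‖d‖ ^ 2) := mul_pos (sub_sq_pos h) (sub_sq_pos h')
  rw [← e] at h1
  have h2 := norm_nonneg (a * c + b * conj d)
  have h3 := norm_nonneg (a * d + b * conj c)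
  nlinarith

theorem mob_comp (h : ‖b‖ < ‖a‖) (h' : ‖d‖ < ‖c‖) {z : ℂ} (hz : ‖z‖ ≤ 1) :
    mob a b (mob c d z) = mob (a * c + b * conj d) (a * d + b * conj c) z ∧
    ‖a * d + b * conj c‖ < ‖a * c + b * conj d‖ := by
  refine ⟨?_, comp_lt h h'⟩
  have h1 := mob_denom_ne h' hz
  have hle : ‖mob c d z‖ ≤ 1 := by
    rcases lt_or_eq_of_le hz with h2 | h2
    · exact (norm_mob_lt h' h2).le
    · exact (norm_mob_eq h' h2).le
  have h2 := mob_denom_ne h hle
  have h3 := mob_denom_ne (comp_lt h h') hz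
  have e1 : conj b * mob c d z + conj a =
      (conj (a * d + b * conj c) * z + conj (a * c + b * conj d)) / (conj d * z + conj c) := by
    unfold mob
    simp only [map_add, map_mul, Complex.conj_conj]
    rw [aux_div _ _ _ _ h1]
    congr 1
    ring
  have e2 : a * mob c d z + b =
      ((a * c + b * conj d) * z + (a * d + b * conj c)) / (conj d * z + conj c) := by
    unfold mob
    rw [aux_div _ _ _ _ h1]
    congr 1
    ring
  have e3 : mob a b (mob c d z) = (a * mob c d z + b) / (conj b * mob c d z + conj a) := rfl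
  rw [e3, e1, e2]
  unfold mob
  exact aux_div3 _ _ _ h1

theorem mob_inv (h : ‖b‖ < ‖a‖) {z : ℂ} (hz : ‖z‖ ≤ 1) :
    mob (conj a) (-b) (mob a b z) = z ∧ mob a b (mob (conj a) (-b) z) = z ∧
    ‖-b‖ < ‖conj a‖ := by
  have h' : ‖-b‖ < ‖conj a‖ := by rwa [norm_neg, Complex.norm_conj]
  have hne : conj a * a - b * conj b ≠ 0 := by
    intro h0
    have h1 : ((‖a‖ ^ 2 - ‖b‖ ^ 2 : ℝ) : ℂ) = 0 := by
      push_cast
      rw [← Complex.conj_mul', ← Complex.mul_conj', h0]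
    have h2 := sub_sq_pos h
    rw [Complex.ofReal_eq_zero] at h1
    linarith
  have key : ∀ e : ℂ, e ≠ 0 → mob e 0 z = (e * z) / conj e := by
    intro e _
    unfold mob
    simp
  refine ⟨?_, ?_, h'⟩
  · rw [(mob_comp h' h hz).1]
    have e1 : conj a * b + -b * conj a = 0 := by ring
    have e2 : conj a * a + -b * conj b = conj a * a - b * conj b := by ring
    rw [e1, e2, key _ hne]
    have e3 : conj (conj a * a - b * conj b) = conj a * a - b * conj b := by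
      simp only [map_sub, map_mul, Complex.conj_conj]
      ring
    rw [e3]
    field_simp
  · rw [(mob_comp h h' hz).1]
    have e1 : a * -b + b * conj (conj a) = 0 := by
      rw [Complex.conj_conj]
      ring
    have e2 : a * conj a + b * conj (-b) = conj a * a - b * conj b := by
      rw [map_neg]
      ring
    rw [e1, e2, key _ hne]
    have e3 : conj (conj a * a - b * conj b) = conj a * a - b * conj b := by
      simp only [map_sub, map_mul, Complex.conj_conj]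
      ring
    rw [e3]
    field_simp

theorem hasDerivAt_mob (h : ‖b‖ < ‖a‖) {z : ℂ} (hd : conj b * z + conj a ≠ 0) :
    HasDerivAt (mob a b) (((‖a‖ ^ 2 - ‖b‖ ^ 2 : ℝ) : ℂ) / (conj b * z + conj a) ^ 2) z := by
  have h1 : HasDerivAt (fun z => a * z + b) a z := by
    simpa using ((hasDerivAt_id z).const_mul a).add_const b
  have h2 : HasDerivAt (fun z => conj b * z + conj a) (conj b) z := by
    simpa using ((hasDerivAt_id z).const_mul (conj b)).add_const (conj a)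
  have h3 := h1.div h2 hd
  have e : (a * (conj b * z + conj a) - (a * z + b) * conj b) =
      ((‖a‖ ^ 2 - ‖b‖ ^ 2 : ℝ) : ℂ) := by
    push_cast
    rw [← Complex.mul_conj', ← Complex.mul_conj']
    ring
  rw [e] at h3
  exact h3

end QC
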