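import Pool.Agent.Work.MP_217185_an.DDefs
import Pool.Agent.Work.MP_217185_an.MobA1

/-! # MobA2: Moebius transformations of the disc

`‖conj b z + conj a‖² - ‖a z + b‖² = (‖a‖² - ‖b‖²)(1 - ‖z‖²)`; composition
`mob a b (mob c d z) = mob (a c + b conj d) (a d + b conj c) z`; inverse `mob (conj a) (-b)`;
`(mob a b)' z = (‖a‖² - ‖b‖²)/(conj b z + conj a)²`. -/

open MeasureTheory Complex Set Metric Filter
open scoped Topology ENNReal NNReal ContDiff ComplexConjugate

namespace QC

variable {a b c d : ℂ}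

private theorem aux_div (x y N D : ℂ) (hD : D ≠ 0) : x * (N / D) + y = (x * N + y * D) / D := by
  field_simp

private theorem aux_div4 (P Q X Y : ℂ) (hX : X ≠ 0) (hY : Y ≠ 0) (hQ : Q ≠ 0) :
    P / X / (Q / Y) * (X / Y) = P / Q := by
  field_simp

private theorem aux_div5 (r X Y : ℂ) (hr : r ≠ 0) (hX : X ≠ 0) (hY : Y ≠ 0) :
    (X / Y) ^ 2 = r / Y ^ 2 / (r / X ^ 2) := by
  field_simp

private theorem conj_den (a b z : ℂ) : conj (conj b * z + conj a) = b * conj z + a := by
  simp only [map_add, map_mul, Complex.conj_conj]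

/-- the factor in `pull` is `conj (A')/A'`. -/
theorem pull_factor (h : ‖b‖ < ‖a‖) {z : ℂ} (hz : ‖z‖ < 1) :
    ((conj b * z + conj a) / (b * conj z + a)) ^ 2
      = conj (deriv (mob a b) z) / deriv (mob a b) z ∧
    ‖((conj b * z + conj a) / (b * conj z + a)) ^ 2‖ = 1 := by
  have h1 := mob_denom_ne h hz.le
  have h2 : b * conj z + a ≠ 0 := by
    rw [← conj_den]
    exact fun h0 => h1 (by rwa [map_eq_zero] at h0)
  have h3 : ((‖a‖ ^ 2 - ‖b‖ ^ 2 : ℝ) : ℂ) ≠ 0 := by
    have := norm_nonneg b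
    have h4 : 0 < ‖a‖ ^ 2 - ‖b‖ ^ 2 := by nlinarith
    exact_mod_cast h4.ne'
  constructor
  · rw [(hasDerivAt_mob h h1).deriv, map_div₀, map_pow, conj_den, Complex.conj_ofReal]
    exact aux_div5 _ _ _ h3 h1 h2
  · rw [norm_pow, norm_div, ← conj_den, Complex.norm_conj, div_self (norm_ne_zero_iff.2 h1),
      one_pow]

/-- two Moebius maps that agree on the disc have proportional parameters, and `pull` only depends on
the map. -/
theorem pull_congr (h : ‖b‖ < ‖a‖) (h' : ‖d‖ < ‖c‖) (he : ∀ z, ‖z‖ < 1 → mob a b z = mob c d z)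
    (μ : ℂ → ℂ) : pull a b μ = pull c d μ := by
  funext ζ
  unfold pull
  split_ifs with hζ
  · rw [he ζ hζ, (pull_factor h hζ).1, (pull_factor h' hζ).1]
    have h1 : mob a b =ᶠ[𝓝 ζ] mob c d := by
      have : ball (0 : ℂ) 1 ∈ 𝓝 ζ := isOpen_ball.mem_nhds (by simpa using hζ)
      filter_upwards [this] with w hw
      exact he w (by simpa using hw)
    rw [h1.deriv_eq]
  · rfl

theorem pull_pull (h : ‖b‖ < ‖a‖) (h' : ‖d‖ < ‖c‖) (μ : ℂ → ℂ) :
    pull c d (pull a b μ) = pull (a * c + b * conj d) (a * d + b * conj c) μ := by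
  funext ζ
  unfold pull
  by_cases hζ : ‖ζ‖ < 1
  · have hw := norm_mob_lt h' hζ
    rw [if_pos hζ, if_pos hζ, if_pos hw, (mob_comp h h' hζ.le).1, mul_assoc]
    congr 1
    have h1 := mob_denom_ne h' hζ.le
    have h3 := mob_denom_ne (mob_comp h h' hζ.le).2 hζ.le
    have h1' : d * conj ζ + c ≠ 0 := by
      rw [← conj_den]
      exact fun h0 => h1 (by rwa [map_eq_zero] at h0)
    have h3' : (a * d + b * conj c) * conj ζ + (a * c + b * conj d) ≠ 0 := by
      rw [← conj_den]
      exact fun h0 => h3 (by rwa [map_eq_zero] at h0)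
    have e1 : conj b * mob c d ζ + conj a =
        (conj (a * d + b * conj c) * ζ + conj (a * c + b * conj d)) / (conj d * ζ + conj c) := by
      unfold mob
      simp only [map_add, map_mul, Complex.conj_conj]
      rw [aux_div _ _ _ _ h1]
      congr 1
      ring
    have e2 : b * conj (mob c d ζ) + a =
        ((a * d + b * conj c) * conj ζ + (a * c + b * conj d)) / (d * conj ζ + c) := by
      rw [← conj_den, e1, map_div₀, conj_den, conj_den]
    rw [e1, e2, ← mul_pow, aux_div4 _ _ _ _ h1 h1' h3']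
  · rw [if_neg hζ, if_neg hζ]

theorem pull_one_zero {μ : ℂ → ℂ} (hs : SuppIn 1 μ) : pull 1 0 μ = μ := by
  funext ζ
  unfold pull
  split_ifs with hζ
  · have e1 : mob 1 0 ζ = ζ := by
      unfold mob
      simp
    rw [e1]
    simp
  · exact (hs ζ (not_lt.1 hζ)).symm

theorem norm_pull (h : ‖b‖ < ‖a‖) (μ : ℂ → ℂ) {z : ℂ} (hz : ‖z‖ < 1) :
    ‖pull a b μ z‖ = ‖μ (mob a b z)‖ := by
  unfold pull
  rw [if_pos hz, norm_mul, (pull_factor h hz).2, mul_one]

theorem pull_bel {k : ℝ} {μ : ℂ → ℂ} (h : ‖b‖ < ‖a‖) (hμ : Bel k μ) :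
    Bel k (pull a b μ) ∧ SuppIn 1 (pull a b μ) := by
  have hk : 0 ≤ k := (norm_nonneg _).trans (hμ.le 0)
  refine ⟨⟨?_, ?_, hμ.lt⟩, ?_⟩
  · unfold pull
    refine Measurable.ite ?_ ?_ measurable_const
    · exact measurableSet_lt measurable_norm measurable_const
    · refine (hμ.meas.comp ?_).mul (Measurable.pow_const ?_ 2)
      · unfold mob
        fun_prop
      · have : Measurable fun z : ℂ => conj z := Complex.continuous_conj.measurable
        fun_prop
  · intro z
    by_cases hz : ‖z‖ < 1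
    · rw [norm_pull h μ hz]
      exact hμ.le _
    · unfold pull
      rw [if_neg hz, norm_zero]
      exact hk
  · intro z hz
    unfold pull
    rw [if_neg (not_lt.2 hz)]

end QC
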