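import Pool.Agent.Work.MP_217185_an.DDefs
import Pool.Agent.Work.MP_217185_an.MobA1

/-! # MobA3: Moebius transformations of the disc

`‖conj b z + conj a‖² - ‖a z + b‖² = (‖a‖² - ‖b‖²)(1 - ‖z‖²)`; composition
`mob a b (mob c d z) = mob (a c + b conj d) (a d + b conj c) z`; inverse `mob (conj a) (-b)`;
`(mob a b)' z = (‖a‖² - ‖b‖²)/(conj b z + conj a)²`. -/

open MeasureTheory Complex Set Metric Filter
open scoped Topology ENNReal NNReal ContDiff ComplexConjugate

namespace QC

variable {a b c d : ℂ}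

private theorem norm_le_CD (z : CD) : ‖(z : ℂ)‖ ≤ 1 := by
  have := z.2
  rwa [mem_closedBall, dist_zero_right] at this

private theorem norm_mob_le (h : ‖b‖ < ‖a‖) {z : ℂ} (hz : ‖z‖ ≤ 1) : ‖mob a b z‖ ≤ 1 := by
  rcases lt_or_eq_of_le hz with h2 | h2
  · exact (norm_mob_lt h h2).le
  · exact (norm_mob_eq h h2).le

private theorem cont_mob (h : ‖b‖ < ‖a‖) : Continuous fun z : CD => mob a b (z : ℂ) := by
  unfold mob
  refine Continuous.div ?_ ?_ ?_
  · fun_prop
  · fun_prop
  · exact fun z => mob_denom_ne h (norm_le_CD z)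

/-- the homeomorphism of the closed disc. -/
theorem exists_mobH (h : ‖b‖ < ‖a‖) : ∃ F : CD ≃ₜ CD, ∀ z : CD, (F z : ℂ) = mob a b z := by
  have h' : ‖-b‖ < ‖conj a‖ := (mob_inv h (z := 0) (by simp)).2.2
  have hm : ∀ z : CD, mob a b (z : ℂ) ∈ closedBall (0 : ℂ) 1 := fun z => by
    rw [mem_closedBall, dist_zero_right]
    exact norm_mob_le h (norm_le_CD z)
  have hm' : ∀ z : CD, mob (conj a) (-b) (z : ℂ) ∈ closedBall (0 : ℂ) 1 := fun z => by
    rw [mem_closedBall, dist_zero_right]
    exact norm_mob_le h' (norm_le_CD z)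
  refine ⟨{ toFun := fun z => ⟨mob a b z, hm z⟩
            invFun := fun z => ⟨mob (conj a) (-b) z, hm' z⟩
            left_inv := ?_
            right_inv := ?_
            continuous_toFun := ?_
            continuous_invFun := ?_ }, ?_⟩
  · intro z
    apply Subtype.ext
    exact (mob_inv h (norm_le_CD z)).1
  · intro z
    apply Subtype.ext
    exact (mob_inv h (norm_le_CD z)).2.1
  · exact (cont_mob h).subtype_mk _
  · exact (cont_mob h').subtype_mk _
  · intro z
    rfl

theorem isMob_one : IsMob 1 := by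
  refine ⟨1, 0, by simp, fun z => ?_⟩
  unfold mob
  simp

theorem IsMob.mul {F G : CD ≃ₜ CD} (hF : IsMob F) (hG : IsMob G) : IsMob (F * G) := by
  obtain ⟨a, b, h, hF⟩ := hF
  obtain ⟨c, d, h', hG⟩ := hG
  refine ⟨a * c + b * conj d, a * d + b * conj c, (mob_comp h h' (z := 0) (by simp)).2, fun z => ?_⟩
  have e : (F * G) z = F (G z) := rfl
  rw [e, hF, hG, (mob_comp h h' (norm_le_CD z)).1]

theorem IsMob.inv {F : CD ≃ₜ CD} (hF : IsMob F) : IsMob F⁻¹ := by
  obtain ⟨a, b, h, hF⟩ := hF
  refine ⟨conj a, -b, (mob_inv h (z := 0) (by simp)).2.2, fun z => ?_⟩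
  have e : F (F⁻¹ z) = z := F.apply_symm_apply z
  have e2 : (z : ℂ) = mob a b (F⁻¹ z : CD) := by
    rw [← hF, e]
  rw [e2, (mob_inv h (norm_le_CD _)).1]

/-- Moebius maps that agree on infinitely many points... here: on the open disc, or on the circle,
are equal. -/
theorem IsMob.ext_circle {F G : CD ≃ₜ CD} (hF : IsMob F) (hG : IsMob G)
    (h : ∀ z : CD, ‖(z : ℂ)‖ = 1 → F z = G z) : F = G := by
  obtain ⟨a, b, hab, hF⟩ := hF
  obtain ⟨c, d, hcd, hG⟩ := hG
  have key : ∀ z : ℂ, ‖z‖ = 1 → (a * z + b) * (conj d * z + conj c) =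
      (c * z + d) * (conj b * z + conj a) := by
    intro z hz
    have hzm : z ∈ closedBall (0 : ℂ) 1 := by
      rw [mem_closedBall, dist_zero_right]
      exact hz.le
    have h1 : mob a b z = mob c d z := by
      have := congrArg (fun w : CD => (w : ℂ)) (h ⟨z, hzm⟩ hz)
      simp only [hF, hG] at this
      exact this
    unfold mob at h1
    rwa [div_eq_div_iff (mob_denom_ne hab hz.le) (mob_denom_ne hcd hz.le)] at h1
  have k1 := key 1 (by simp)
  have k2 := key (-1) (by simp)
  have k3 := key I (by simp)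
  have hI : I ^ 2 = -1 := Complex.I_sq
  have hne : (2 : ℂ) ≠ 0 := two_ne_zero
  -- the coefficients
  have p1 : a * conj c + b * conj d = c * conj a + d * conj b := by
    have : (2 : ℂ) * ((a * conj c + b * conj d) - (c * conj a + d * conj b)) = 0 := by
      linear_combination k1 - k2
    rcases mul_eq_zero.1 this with h0 | h0
    · exact absurd h0 hne
    · linear_combination h0
  have p20 : (a * conj d - c * conj b) + (b * conj c - d * conj a) = 0 := by
    linear_combination (1 / 2 : ℂ) * k1 + (1 / 2 : ℂ) * k2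
  have p02 : -(a * conj d - c * conj b) + (b * conj c - d * conj a) = 0 := by
    have : (a * conj d - c * conj b) * I ^ 2 + (b * conj c - d * conj a) = 0 := by
      linear_combination k3 - I * p1
    rw [hI] at this
    linear_combination this
  have p0 : b * conj c - d * conj a = 0 := by
    have : (2 : ℂ) * (b * conj c - d * conj a) = 0 := by linear_combination p20 + p02
    rcases mul_eq_zero.1 this with h0 | h0
    · exact absurd h0 hne
    · exact h0
  have p2 : a * conj d - c * conj b = 0 := by linear_combination p20 - p0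
  ext z
  rw [hF, hG]
  unfold mob
  rw [div_eq_div_iff (mob_denom_ne hab (norm_le_CD z)) (mob_denom_ne hcd (norm_le_CD z))]
  linear_combination (z : ℂ) ^ 2 * p2 + (z : ℂ) * p1 + p0

/-- transitivity. -/
theorem exists_mob_zero {p : CD} (hp : ‖(p : ℂ)‖ < 1) :
    ∃ F : CD ≃ₜ CD, IsMob F ∧ (∀ z : CD, (F z : ℂ) = mob 1 p z) ∧ (F ⟨0, by simp⟩ : ℂ) = p := by
  have h : ‖(p : ℂ)‖ < ‖(1 : ℂ)‖ := by simpa using hp
  obtain ⟨F, hF⟩ := exists_mobH h
  refine ⟨F, ⟨1, p, h, hF⟩, hF, ?_⟩
  rw [hF]
  unfold mob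
  simp

end QC
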