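import Pool.Agent.Work.MP_217185_an.DDefs
import Pool.Agent.Work.MP_217185_an.MobA3

/-! # MobA4: Moebius transformations of the disc

`‖conj b z + conj a‖² - ‖a z + b‖² = (‖a‖² - ‖b‖²)(1 - ‖z‖²)`; composition
`mob a b (mob c d z) = mob (a c + b conj d) (a d + b conj c) z`; inverse `mob (conj a) (-b)`;
`(mob a b)' z = (‖a‖² - ‖b‖²)/(conj b z + conj a)²`. -/

open MeasureTheory Complex Set Metric Filter
open scoped Topology ENNReal NNReal ContDiff ComplexConjugate

namespace QC

variable {a b c d : ℂ}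

private theorem norm_le_CD' (z : CD) : ‖(z : ℂ)‖ ≤ 1 := by
  have := z.2
  rwa [mem_closedBall, dist_zero_right] at this

private theorem ext_apply (F : CD → CD) (z : CD) : ext F (z : ℂ) = F z := by
  unfold ext
  rw [dif_pos z.2]

private theorem ext_contOn {F : CD → CD} (hF : Continuous F) :
    ContinuousOn (ext F) (closedBall (0 : ℂ) 1) := by
  rw [continuousOn_iff_continuous_domRestrict]
  have : (closedBall (0 : ℂ) 1).domRestrict (ext F) = fun z : CD => (F z : ℂ) := by
    funext z
    exact ext_apply F z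
  rw [this]
  exact continuous_subtype_val.comp hF

/-- homeomorphisms of the closed disc that fix `0` and are holomorphic are rotations -/
private theorem rot_of_holo {g : ℂ → ℂ} (hc : ContinuousOn g (closedBall (0 : ℂ) 1))
    (hd : DifferentiableOn ℂ g D) (hinj : InjOn g (closedBall (0 : ℂ) 1)) (h0 : g 0 = 0)
    (hcirc : ∀ z : ℂ, ‖z‖ = 1 → ‖g z‖ = 1) :
    ∃ c : ℂ, ‖c‖ = 1 ∧ ∀ z ∈ closedBall (0 : ℂ) 1, g z = c * z := by
  have hD0 : (0 : ℂ) ∈ D := mem_ball_self one_pos
  have hCD0 : (0 : ℂ) ∈ closedBall (0 : ℂ) 1 := ball_subset_closedBall hD0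
  have hDn : D ∈ 𝓝 (0 : ℂ) := isOpen_ball.mem_nhds hD0
  have han : AnalyticAt ℂ g 0 := hd.analyticAt hDn
  -- the order is finite
  have hord : analyticOrderAt g 0 ≠ ⊤ := by
    intro htop
    rw [analyticOrderAt_eq_top] at htop
    obtain ⟨ε, hε, hball⟩ := Metric.eventually_nhds_iff_ball.1 htop
    have hm : 0 < min ε 1 := lt_min hε one_pos
    have hz : ((min ε 1 / 2 : ℝ) : ℂ) ∈ ball (0 : ℂ) (min ε 1) := by
      rw [mem_ball, dist_zero_right, Complex.norm_real, Real.norm_eq_abs, abs_of_pos (by positivity)]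
      linarith
    have h1 := hball _ (ball_subset_ball (min_le_left _ _) hz)
    have h2 : ((min ε 1 / 2 : ℝ) : ℂ) = 0 := by
      refine hinj ?_ hCD0 (by rw [h1, h0])
      exact ball_subset_closedBall (ball_subset_ball (min_le_right _ _) hz)
    rw [Complex.ofReal_eq_zero] at h2
    linarith
  obtain ⟨n, hn⟩ := ENat.ne_top_iff_exists.1 hord
  obtain ⟨h, hh, hh0, hgh⟩ := (han.analyticOrderAt_eq_natCast).1 hn.symm
  have hn0 : n ≠ 0 := by
    rintro rfl
    have := hgh.self_of_nhds
    rw [h0, pow_zero, one_smul] at this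
    exact hh0 this.symm
  -- the quotient
  set H : ℂ → ℂ := fun z => if z = 0 then h 0 else g z / z ^ n with hH
  have hH0 : H =ᶠ[𝓝 0] h := by
    filter_upwards [hgh] with z hz
    simp only [hH]
    split_ifs with hz0
    · rw [hz0]
    · rw [hz, sub_zero, smul_eq_mul]
      field_simp
  have hHz : ∀ z : ℂ, z ≠ 0 → H =ᶠ[𝓝 z] fun z => g z / z ^ n := by
    intro z hz
    filter_upwards [isOpen_ne.mem_nhds hz] with w hw
    simp only [hH]
    rw [if_neg hw]
  have hHc : ContinuousOn H (closedBall (0 : ℂ) 1) := by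
    intro z hz
    by_cases hz0 : z = 0
    · rw [hz0]
      exact ((hh.continuousAt).congr hH0.symm).continuousWithinAt
    · have h1 : ContinuousWithinAt (fun z => g z / z ^ n) (closedBall (0 : ℂ) 1) z :=
        (hc z hz).div (by fun_prop) (pow_ne_zero n hz0)
      exact h1.congr_of_eventuallyEq ((hHz z hz0).filter_mono nhdsWithin_le_nhds)
        (hHz z hz0).self_of_nhds
  have hHd : DifferentiableOn ℂ H D := by
    intro z hz
    refine DifferentiableAt.differentiableWithinAt ?_
    by_cases hz0 : z = 0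
    · rw [hz0]
      exact hh.differentiableAt.congr_of_eventuallyEq hH0
    · have h1 : DifferentiableAt ℂ (fun z => g z / z ^ n) z :=
        (hd.differentiableAt (isOpen_ball.mem_nhds hz)).div (by fun_prop) (pow_ne_zero n hz0)
      exact h1.congr_of_eventuallyEq (hHz z hz0)
  have hcl : closure D = closedBall (0 : ℂ) 1 := closure_ball 0 one_ne_zero
  have hfr : frontier D = sphere (0 : ℂ) 1 := frontier_ball 0 one_ne_zero
  have hdc : DiffContOnCl ℂ H D := ⟨hHd, by rw [hcl]; exact hHc⟩
  have hne : ∀ z ∈ closedBall (0 : ℂ) 1, H z ≠ 0 := by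
    intro z hz
    simp only [hH]
    split_ifs with hz0
    · exact hh0
    · refine div_ne_zero ?_ (pow_ne_zero n hz0)
      intro hg
      exact hz0 (hinj hz hCD0 (by rw [hg, h0]))
  have hsph : ∀ z ∈ sphere (0 : ℂ) 1, ‖H z‖ = 1 := by
    intro z hz
    rw [mem_sphere, dist_zero_right] at hz
    have hz0 : z ≠ 0 := by
      rintro rfl
      rw [norm_zero] at hz
      exact zero_ne_one hz
    simp only [hH]
    rw [if_neg hz0, norm_div, norm_pow, hz, hcirc z hz]
    simp
  have hle : ∀ z ∈ closure D, ‖H z‖ ≤ 1 := fun z hz =>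
    Complex.norm_le_of_forall_mem_frontier_norm_le isBounded_ball hdc
      (fun w hw => by rw [hfr] at hw; exact (hsph w hw).le) hz
  have hge : ∀ z ∈ closure D, ‖(H⁻¹) z‖ ≤ 1 := fun z hz =>
    Complex.norm_le_of_forall_mem_frontier_norm_le isBounded_ball
      (hdc.inv fun w hw => hne w (by rwa [hcl] at hw))
      (fun w hw => by
        rw [hfr] at hw
        rw [Pi.inv_apply, norm_inv, hsph w hw, inv_one]) hz
  have hone : ∀ z ∈ closure D, ‖H z‖ = 1 := by
    intro z hz
    have h1 := hle z hz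
    have h2 := hge z hz
    have h3 : 0 < ‖H z‖ := norm_pos_iff.2 (hne z (by rwa [hcl] at hz))
    rw [Pi.inv_apply, norm_inv] at h2
    have h4 : 1 ≤ ‖H z‖ := (inv_le_one₀ h3).1 h2
    exact le_antisymm h1 h4
  have hconst : EqOn H (Function.const ℂ (H 0)) (closure D) := by
    refine Complex.eqOn_closure_of_isPreconnected_of_isMaxOn_norm
      (convex_ball 0 1).isPreconnected isOpen_ball hdc hD0 ?_
    intro z hz
    show ‖H z‖ ≤ ‖H 0‖
    rw [hone z (subset_closure hz), hone 0 (subset_closure hD0)]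
  have hg : ∀ z ∈ closedBall (0 : ℂ) 1, g z = H 0 * z ^ n := by
    intro z hz
    by_cases hz0 : z = 0
    · rw [hz0, h0, zero_pow hn0, mul_zero]
    · have h1 := hconst (by rw [hcl]; exact hz)
      rw [Function.const_apply] at h1
      rw [← h1]
      simp only [hH]
      rw [if_neg hz0]
      field_simp
  have hn1 : n = 1 := by
    by_contra hne1
    have hn2 : 1 < n := by omega
    have hprim := Complex.isPrimitiveRoot_exp n hn0
    set ζ := Complex.exp (2 * Real.pi * I / n) with hζ
    have hζn : ζ ^ n = 1 := hprim.pow_eq_one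
    have hζ1 : ‖ζ‖ = 1 := Complex.norm_eq_one_of_pow_eq_one hζn hn0
    have hζm : ζ ∈ closedBall (0 : ℂ) 1 := by
      rw [mem_closedBall, dist_zero_right, hζ1]
    have h1m : (1 : ℂ) ∈ closedBall (0 : ℂ) 1 := by
      rw [mem_closedBall, dist_zero_right, norm_one]
    have : ζ = 1 := hinj hζm h1m (by rw [hg _ hζm, hg _ h1m, hζn, one_pow])
    exact hprim.ne_one hn2 this
  refine ⟨H 0, hone 0 (subset_closure hD0), fun z hz => ?_⟩
  rw [hg z hz, hn1, pow_one]

/-- conformal automorphisms of the disc are Moebius (Schwarz lemma), closed disc version. -/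
theorem isMob_of_holo {F : CD ≃ₜ CD} (hpres : ∀ z : CD, ‖(F z : ℂ)‖ < 1 ↔ ‖(z : ℂ)‖ < 1)
    (h : DifferentiableOn ℂ (ext F) D) : IsMob F := by
  set o : CD := ⟨0, by simp⟩ with ho
  have hq : ‖(F o : ℂ)‖ < 1 := (hpres o).2 (by simp [ho])
  obtain ⟨M, hM, -, hM0⟩ := exists_mob_zero hq
  obtain ⟨a, b, hab, hMi⟩ := hM.inv
  have hMo : M o = F o := Subtype.ext hM0
  set G : CD ≃ₜ CD := M⁻¹ * F with hG
  have hGapp : ∀ z : CD, G z = M⁻¹ (F z) := fun z => rfl
  have hGo : G o = o := by
    rw [hGapp, ← hMo]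
    exact M.symm_apply_apply o
  have hcirc : ∀ z : CD, ‖(z : ℂ)‖ = 1 → ‖(G z : ℂ)‖ = 1 := by
    intro z hz
    have h1 : ‖(F z : ℂ)‖ = 1 := by
      have h2 : ¬ ‖(F z : ℂ)‖ < 1 := fun h3 => by
        have := (hpres z).1 h3
        linarith
      exact le_antisymm (norm_le_CD' _) (not_lt.1 h2)
    rw [hGapp, hMi]
    exact norm_mob_eq hab h1
  have hrot := rot_of_holo (g := ext G) (ext_contOn G.continuous) ?_ ?_ ?_ ?_
  · obtain ⟨c, hc, hcz⟩ := hrot
    obtain ⟨e, he⟩ := IsAlgClosed.exists_pow_nat_eq c (n := 2) two_pos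
    have hen : ‖e‖ = 1 := by
      have h1 : ‖e‖ ^ 2 = 1 := by rw [← norm_pow, he, hc]
      have h2 := norm_nonneg e
      nlinarith
    have hee : e * conj e = 1 := by
      rw [Complex.mul_conj', hen]
      simp
    have he0 : conj e ≠ 0 := fun h0 => by
      rw [h0, mul_zero] at hee
      exact zero_ne_one hee
    have hGm : IsMob G := by
      refine ⟨e, 0, by rw [norm_zero, hen]; exact one_pos, fun z => ?_⟩
      have h1 : (G z : ℂ) = c * z := by
        rw [← ext_apply G z]
        exact hcz z z.2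
      rw [h1, ← he]
      unfold mob
      rw [map_zero, zero_mul, zero_add, add_zero, eq_div_iff he0]
      linear_combination e * (z : ℂ) * hee
    have hFG : F = M * G := by
      rw [hG]
      group
    rw [hFG]
    exact hM.mul hGm
  · -- differentiability
    have h1 : DifferentiableOn ℂ (fun z => mob a b (ext F z)) D := by
      intro z hz
      have hz' : z ∈ closedBall (0 : ℂ) 1 := ball_subset_closedBall hz
      have hn : ‖ext F z‖ < 1 := by
        have h2 : ext F z = F ⟨z, hz'⟩ := ext_apply F ⟨z, hz'⟩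
        rw [h2]
        exact (hpres _).2 (by simpa using hz)
      have h3 := (hasDerivAt_mob hab (mob_denom_ne hab hn.le)).differentiableAt
      exact (h3.comp z (h.differentiableAt (isOpen_ball.mem_nhds hz))).differentiableWithinAt
    refine h1.congr fun z hz => ?_
    have hz' : z ∈ closedBall (0 : ℂ) 1 := ball_subset_closedBall hz
    have h2 : ext F z = F ⟨z, hz'⟩ := ext_apply F ⟨z, hz'⟩
    have h3 : ext G z = G ⟨z, hz'⟩ := ext_apply G ⟨z, hz'⟩
    rw [h2, h3, hGapp, hMi]
  · -- injectivity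
    intro z hz w hw hzw
    have h2 : ext G z = G ⟨z, hz⟩ := ext_apply G ⟨z, hz⟩
    have h3 : ext G w = G ⟨w, hw⟩ := ext_apply G ⟨w, hw⟩
    rw [h2, h3] at hzw
    have := G.injective (Subtype.ext hzw)
    exact congrArg Subtype.val this
  · have h1 := ext_apply G o
    rw [hGo] at h1
    exact h1
  · intro z hz
    have hz' : z ∈ closedBall (0 : ℂ) 1 := by
      rw [mem_closedBall, dist_zero_right, hz]
    have h3 : ext G z = G ⟨z, hz'⟩ := ext_apply G ⟨z, hz'⟩
    rw [h3]
    exact hcirc _ hz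

end QC
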