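import Pool.Agent.Work.MP_217185_an.BArea
import Pool.Agent.Work.MP_217185_an.MobB

/-! # BHolo: complex differentiability of `x ↦ bers (m x) z`

`m : E → (ℂ → ℂ)` with `Bel k (m x)`, `SuppIn 1`, and a pointwise derivative `L : E →ₗ[ℂ] (ℂ → ℂ)`
at `x₀`, uniformly: `‖m (x₀ + x) ζ - m x₀ ζ - L x ζ‖ ≤ C ‖x‖²`, `‖L x ζ‖ ≤ C ‖x‖` for `‖x‖ < r`.
By `integral_hh_sub` with `μ = m (x₀+x)`, `ν = m x₀`:
`∫ h_μ - ∫ h_ν = ∫ (μ - ν)(1 + T h_μ)(1 + T h_ν) = ∫ L x (1 + T h_ν)² + O(‖x‖²)`, because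
`‖μ - ν - L x‖ ≤ C ‖x‖²`, `1 + T h ∈ L²(D)` bounded (`area_ineq'`) and
`‖T h_μ - T h_ν‖₂ = ‖h_μ - h_ν‖₂ ≤ C ‖x‖` (`hh_lipschitz`).
For `bers`, compose with `pull 1 z` (linear, norm preserving: `norm_pull`). -/

open MeasureTheory Complex Set Metric Filter
open scoped Topology ENNReal NNReal ContDiff ComplexConjugate

namespace QC

/-- `m` is complex differentiable at `x₀` as a map into the bounded functions. -/
def UDiff {E : Type} [NormedAddCommGroup E] [NormedSpace ℂ E] (m : E → ℂ → ℂ) (x₀ : E) : Prop :=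
  ∃ (r C : ℝ) (L : E → ℂ → ℂ), 0 < r ∧
    (∀ x y ζ, L (x + y) ζ = L x ζ + L y ζ) ∧ (∀ (c : ℂ) x ζ, L (c • x) ζ = c * L x ζ) ∧
    (∀ x, Measurable (L x)) ∧ (∀ x ζ, ‖L x ζ‖ ≤ C * ‖x‖) ∧
    ∀ x, ‖x‖ < r → ∀ ζ, ‖m (x₀ + x) ζ - m x₀ ζ - L x ζ‖ ≤ C * ‖x‖ ^ 2

private theorem bh_memLp_mul {b u : ℂ → ℂ} {κ : Measure ℂ} {B : ℝ} (hb : Measurable b)
    (hB : ∀ ζ, ‖b ζ‖ ≤ B) (hu : MemLp u 2 κ) : MemLp (fun ζ => b ζ * u ζ) 2 κ := by
  refine hu.of_le_mul (c := B) (hb.aestronglyMeasurable.mul hu.aestronglyMeasurable) ?_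
  refine Filter.Eventually.of_forall (fun ζ => ?_)
  rw [norm_mul]
  exact mul_le_mul_of_nonneg_right (hB ζ) (norm_nonneg _)

private theorem bh_integrable {b u v : ℂ → ℂ} {κ : Measure ℂ} {B : ℝ} (hb : Measurable b)
    (hB : ∀ ζ, ‖b ζ‖ ≤ B) (hu : MemLp u 2 κ) (hv : MemLp v 2 κ) :
    Integrable (fun ζ => b ζ * u ζ * v ζ) κ :=
  (bh_memLp_mul hb hB hu).integrable_mul hv

private theorem bh_bound {b u v : ℂ → ℂ} {κ : Measure ℂ} {B α β : ℝ} (hb : Measurable b)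
    (hB0 : 0 ≤ B) (hα0 : 0 ≤ α) (hβ0 : 0 ≤ β)
    (hB : ∀ ζ, ‖b ζ‖ ≤ B) (hu : MemLp u 2 κ) (hv : MemLp v 2 κ)
    (hα : eLpNorm u 2 κ ≤ ENNReal.ofReal α) (hβ : eLpNorm v 2 κ ≤ ENNReal.ofReal β) :
    ‖∫ ζ, b ζ * u ζ * v ζ ∂κ‖ ≤ B * α * β := by
  have h1 : ‖∫ ζ, b ζ * u ζ * v ζ ∂κ‖ₑ ≤ eLpNorm (fun ζ => b ζ * u ζ) 2 κ * eLpNorm v 2 κ := by
    refine (enorm_integral_le_lintegral_enorm _).trans ?_
    have h := eLpNorm_smul_le_mul_eLpNorm (p := 2) (q := 2) (r := 1) (μ := κ) (f := v)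
      (φ := fun ζ => b ζ * u ζ) hv.aestronglyMeasurable (bh_memLp_mul hb hB hu).aestronglyMeasurable
    rw [eLpNorm_one_eq_lintegral_enorm] at h
    exact h
  have h2 : eLpNorm (fun ζ => b ζ * u ζ) 2 κ ≤ ENNReal.ofReal B * eLpNorm u 2 κ := by
    refine eLpNorm_le_mul_eLpNorm_of_ae_le_mul (Filter.Eventually.of_forall (fun ζ => ?_)) 2
    rw [norm_mul]
    exact mul_le_mul_of_nonneg_right (hB ζ) (norm_nonneg _)
  have h3 : ‖∫ ζ, b ζ * u ζ * v ζ ∂κ‖ₑ ≤ ENNReal.ofReal (B * α * β) := by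
    rw [ENNReal.ofReal_mul (by positivity), ENNReal.ofReal_mul hB0]
    calc _ ≤ _ := h1
      _ ≤ (ENNReal.ofReal B * eLpNorm u 2 κ) * eLpNorm v 2 κ := by gcongr
      _ ≤ _ := by gcongr
  rw [← ofReal_norm] at h3
  exact (ENNReal.ofReal_le_ofReal_iff (by positivity)).1 h3

private theorem bh_pull_meas {a b : ℂ} {μ : ℂ → ℂ} (hμ : Measurable μ) :
    Measurable (pull a b μ) := by
  unfold pull
  refine Measurable.ite ?_ ?_ measurable_const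
  · exact measurableSet_lt measurable_norm measurable_const
  · refine (hμ.comp ?_).mul (Measurable.pow_const ?_ 2)
    · unfold mob
      fun_prop
    · have : Measurable fun z : ℂ => conj z := Complex.continuous_conj.measurable
      fun_prop

private theorem bh_pull_le {a b : ℂ} (h : ‖b‖ < ‖a‖) {μ : ℂ → ℂ} {B : ℝ} (hB : ∀ ζ, ‖μ ζ‖ ≤ B)
    (ζ : ℂ) : ‖pull a b μ ζ‖ ≤ B := by
  by_cases hz : ‖ζ‖ < 1
  · rw [norm_pull h μ hz]
    exact hB _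
  · unfold pull
    rw [if_neg hz, norm_zero]
    exact (norm_nonneg _).trans (hB 0)

private theorem bh_pull_add {a b : ℂ} {μ ν ρ : ℂ → ℂ} (h : ∀ ζ, ρ ζ = μ ζ + ν ζ) (ζ : ℂ) :
    pull a b ρ ζ = pull a b μ ζ + pull a b ν ζ := by
  unfold pull
  split_ifs
  · rw [h]; ring
  · simp

private theorem bh_pull_smul {a b c : ℂ} {μ ρ : ℂ → ℂ} (h : ∀ ζ, ρ ζ = c * μ ζ) (ζ : ℂ) :
    pull a b ρ ζ = c * pull a b μ ζ := by
  unfold pull
  split_ifs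
  · rw [h]; ring
  · simp

private theorem bh_pull_sub {a b : ℂ} {μ ν σ : ℂ → ℂ} (ζ : ℂ) :
    pull a b (fun ζ => μ ζ - ν ζ - σ ζ) ζ = pull a b μ ζ - pull a b ν ζ - pull a b σ ζ := by
  unfold pull
  split_ifs
  · ring
  · simp

private theorem bh_memLp {k : ℝ} {μ : ℂ → ℂ} (hμ : Bel k μ) (hs : SuppIn 1 μ) :
    MemLp (fun ζ => 1 + Tf (hh μ) ζ) 2 (volume.restrict D) := by
  have h1 : MemLp (fun _ : ℂ => (1 : ℂ)) 2 (volume.restrict D) := by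
    have : IsFiniteMeasure (volume.restrict D : Measure ℂ) :=
      ⟨by rw [Measure.restrict_apply_univ]; exact measure_ball_lt_top⟩
    exact memLp_const _
  exact h1.add ((memLp_Tf (hh_memLp hμ hs)).restrict D)

/-- the estimate. -/
private theorem bh_main {k : ℝ} {μ ν l : ℂ → ℂ} (hμ : Bel k μ) (hsμ : SuppIn 1 μ) (hν : Bel k ν)
    (hsν : SuppIn 1 ν) (hl : Measurable l) {ε δ : ℝ} (hε0 : 0 ≤ ε) (hδ0 : 0 ≤ δ)
    (hlε : ∀ ζ, ‖l ζ‖ ≤ ε) (hδ : ∀ ζ, ‖μ ζ - ν ζ - l ζ‖ ≤ δ) :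
    ‖(∫ ζ, hh μ ζ) - (∫ ζ, hh ν ζ)
        - (∫ ζ in D, l ζ * (1 + Tf (hh ν) ζ) * (1 + Tf (hh ν) ζ))‖ ≤
      δ * (Real.sqrt (Real.pi / (1 - k ^ 2))) * (Real.sqrt (Real.pi / (1 - k ^ 2))) +
      ε * ((ε + δ) / (1 - k) * (Real.sqrt (Real.pi / (1 - k ^ 2)))) *
        (Real.sqrt (Real.pi / (1 - k ^ 2))) := by
  set A := Real.sqrt (Real.pi / (1 - k ^ 2)) with hA
  have hA0 : 0 ≤ A := Real.sqrt_nonneg _
  have hk1 : 0 < 1 - k := by linarith [hμ.lt]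
  have hma := bh_memLp hμ hsμ
  have hmc := bh_memLp hν hsν
  have hna : eLpNorm (fun z => 1 + Tf (hh μ) z) 2 (volume.restrict D) ≤ ENNReal.ofReal A :=
    area_ineq' hμ hsμ
  have hnc : eLpNorm (fun z => 1 + Tf (hh ν) z) 2 (volume.restrict D) ≤ ENNReal.ofReal A :=
    area_ineq' hν hsν
  have hd : ∀ ζ, ‖μ ζ - ν ζ‖ ≤ ε + δ := by
    intro ζ
    have : μ ζ - ν ζ = l ζ + (μ ζ - ν ζ - l ζ) := by ring
    rw [this]
    exact (norm_add_le _ _).trans (add_le_add (hlε ζ) (hδ ζ))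
  -- the difference of the two factors
  have hmd : MemLp (fun ζ => (1 + Tf (hh μ) ζ) - (1 + Tf (hh ν) ζ)) 2 (volume.restrict D) :=
    hma.sub hmc
  have hnd : eLpNorm (fun ζ => (1 + Tf (hh μ) ζ) - (1 + Tf (hh ν) ζ)) 2 (volume.restrict D) ≤
      ENNReal.ofReal ((ε + δ) / (1 - k) * A) := by
    have h1 : (fun ζ => (1 + Tf (hh μ) ζ) - (1 + Tf (hh ν) ζ)) =
        fun ζ => Tf (hh μ) ζ - Tf (hh ν) ζ := by
      funext ζ; ring
    rw [h1]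
    calc eLpNorm (fun ζ => Tf (hh μ) ζ - Tf (hh ν) ζ) 2 (volume.restrict D)
        ≤ eLpNorm (fun ζ => Tf (hh μ) ζ - Tf (hh ν) ζ) 2 volume :=
          eLpNorm_mono_measure _ Measure.restrict_le_self
      _ = eLpNorm (Tf (fun ζ => hh μ ζ - hh ν ζ)) 2 volume :=
          (eLpNorm_congr_ae (Tf_sub (hh_memLp hμ hsμ) (hh_memLp hν hsν))).symm
      _ = eLpNorm (fun ζ => hh μ ζ - hh ν ζ) 2 volume :=
          eLpNorm_Tf ((hh_memLp hμ hsμ).sub (hh_memLp hν hsν))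
      _ ≤ ENNReal.ofReal ((ε + δ) / (1 - k)) * eLpNorm (fun z => 1 + Tf (hh ν) z) 2
            (volume.restrict (ball (0 : ℂ) 1)) := hh_lipschitz hμ hsμ hν hsν hd
      _ ≤ ENNReal.ofReal ((ε + δ) / (1 - k)) * ENNReal.ofReal A := by
          gcongr
      _ = ENNReal.ofReal ((ε + δ) / (1 - k) * A) := by
          rw [ENNReal.ofReal_mul (by positivity)]
  have hmm : Measurable fun ζ => μ ζ - ν ζ := hμ.meas.sub hν.meas
  have hml : Measurable fun ζ => μ ζ - ν ζ - l ζ := hmm.sub hl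
  have e1 : (∫ ζ, hh μ ζ) - (∫ ζ, hh ν ζ) =
      ∫ ζ in D, (μ ζ - ν ζ) * (1 + Tf (hh μ) ζ) * (1 + Tf (hh ν) ζ) := by
    rw [integral_hh_sub hμ hsμ hν hsν]
    symm
    refine setIntegral_eq_integral_of_forall_compl_eq_zero (fun ζ hζ => ?_)
    have h1 : 1 ≤ ‖ζ‖ := by
      by_contra hcon
      exact hζ (by simpa using hcon)
    rw [hsμ ζ h1, hsν ζ h1]
    ring
  have e2 : (∫ ζ in D, (μ ζ - ν ζ) * (1 + Tf (hh μ) ζ) * (1 + Tf (hh ν) ζ))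
      - (∫ ζ in D, l ζ * (1 + Tf (hh ν) ζ) * (1 + Tf (hh ν) ζ))
      = (∫ ζ in D, (μ ζ - ν ζ - l ζ) * (1 + Tf (hh μ) ζ) * (1 + Tf (hh ν) ζ))
        + (∫ ζ in D, l ζ * ((1 + Tf (hh μ) ζ) - (1 + Tf (hh ν) ζ)) * (1 + Tf (hh ν) ζ)) := by
    rw [← integral_sub (bh_integrable hmm hd hma hmc) (bh_integrable hl hlε hmc hmc),
      ← integral_add (bh_integrable hml hδ hma hmc) (bh_integrable hl hlε hmd hmc)]
    congr 1
    funext ζ
    ring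
  rw [e1, e2]
  refine (norm_add_le _ _).trans (add_le_add ?_ ?_)
  · exact bh_bound hml hδ0 hA0 hA0 hδ hma hmc hna hnc
  · exact bh_bound hl hε0 (by positivity) hA0 hlε hmd hmc hnd hnc

theorem bers_differentiableAt {E : Type} [NormedAddCommGroup E] [NormedSpace ℂ E] {k : ℝ}
    {m : E → ℂ → ℂ} {U : Set E} (hU : IsOpen U) (hm : ∀ x ∈ U, Bel k (m x))
    (hs : ∀ x ∈ U, SuppIn 1 (m x)) {x₀ : E} (hx₀ : x₀ ∈ U) (h : UDiff m x₀) {z : ℂ}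
    (hz : ‖z‖ < 1) : DifferentiableAt ℂ (fun x => bers (m x) z) x₀ := by
  obtain ⟨r, C₀, L, hr, hadd, hsmul, hmeas, hLC₀, hC₀⟩ := h
  obtain ⟨C, hC0, hLC, hC⟩ : ∃ C : ℝ, 0 ≤ C ∧ (∀ x ζ, ‖L x ζ‖ ≤ C * ‖x‖) ∧
      ∀ x, ‖x‖ < r → ∀ ζ, ‖m (x₀ + x) ζ - m x₀ ζ - L x ζ‖ ≤ C * ‖x‖ ^ 2 := by
    refine ⟨|C₀|, abs_nonneg _, fun x ζ => (hLC₀ x ζ).trans ?_, fun x hx ζ => (hC₀ x hx ζ).trans ?_⟩
    · exact mul_le_mul_of_nonneg_right (le_abs_self _) (norm_nonneg _)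
    · exact mul_le_mul_of_nonneg_right (le_abs_self _) (by positivity)
  have hz' : ‖z‖ < ‖(1 : ℂ)‖ := by simpa using hz
  set A := Real.sqrt (Real.pi / (1 - k ^ 2)) with hA
  have hA0 : 0 ≤ A := Real.sqrt_nonneg _
  have hk1 : 0 < 1 - k := by linarith [(hm x₀ hx₀).lt]
  set ν := pull 1 z (m x₀) with hνdef
  have hν : Bel k ν := (pull_bel hz' (hm x₀ hx₀)).1
  have hsν : SuppIn 1 ν := (pull_bel hz' (hm x₀ hx₀)).2
  have hmc := bh_memLp hν hsν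
  have hnc : eLpNorm (fun z => 1 + Tf (hh ν) z) 2 (volume.restrict D) ≤ ENNReal.ofReal A :=
    area_ineq' hν hsν
  have hlm : ∀ x, Measurable (pull 1 z (L x)) := fun x => bh_pull_meas (hmeas x)
  have hlb : ∀ x ζ, ‖pull 1 z (L x) ζ‖ ≤ C * ‖x‖ := fun x ζ => bh_pull_le hz' (hLC x) ζ
  -- the derivative
  let Λ₀ : E →ₗ[ℂ] ℂ :=
    { toFun := fun x => (1 / (Real.pi : ℂ)) *
        ∫ ζ in D, pull 1 z (L x) ζ * (1 + Tf (hh ν) ζ) * (1 + Tf (hh ν) ζ)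
      map_add' := by
        intro x y
        rw [← mul_add, ← integral_add (bh_integrable (hlm x) (hlb x) hmc hmc)
          (bh_integrable (hlm y) (hlb y) hmc hmc)]
        congr 2
        funext ζ
        rw [bh_pull_add (hadd x y) ζ]
        ring
      map_smul' := by
        intro c x
        have h1 : (∫ ζ in D, pull 1 z (L (c • x)) ζ * (1 + Tf (hh ν) ζ) * (1 + Tf (hh ν) ζ)) =
            c * ∫ ζ in D, pull 1 z (L x) ζ * (1 + Tf (hh ν) ζ) * (1 + Tf (hh ν) ζ) := by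
          rw [← integral_const_mul]
          congr 1
          funext ζ
          rw [bh_pull_smul (hsmul c x) ζ]
          ring
        simp only [RingHom.id_apply, smul_eq_mul]
        rw [h1]
        ring }
  have hπ : ‖(1 / (Real.pi : ℂ))‖ ≤ 1 := by
    rw [norm_div, norm_one, Complex.norm_real, Real.norm_of_nonneg Real.pi_pos.le]
    rw [div_le_one Real.pi_pos]
    linarith [Real.pi_gt_three]
  let Λ : E →L[ℂ] ℂ := Λ₀.mkContinuous (C * A * A) (by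
    intro x
    have h1 := bh_bound (hlm x) (by positivity) hA0 hA0 (hlb x) hmc hmc hnc hnc
    have h2 : ‖Λ₀ x‖ ≤ 1 * (C * ‖x‖ * A * A) := by
      change ‖(1 / (Real.pi : ℂ)) *
        ∫ ζ in D, pull 1 z (L x) ζ * (1 + Tf (hh ν) ζ) * (1 + Tf (hh ν) ζ)‖ ≤ _
      rw [norm_mul]
      exact mul_le_mul hπ h1 (norm_nonneg _) zero_le_one
    calc ‖Λ₀ x‖ ≤ 1 * (C * ‖x‖ * A * A) := h2
      _ = C * A * A * ‖x‖ := by ring)
  suffices hder : HasFDerivAt (fun x => bers (m x) z) Λ x₀ from hder.differentiableAt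
  rw [hasFDerivAt_iff_isLittleO_nhds_zero]
  have hO : (fun x => bers (m (x₀ + x)) z - bers (m x₀) z - Λ x) =O[𝓝 0]
      (fun x : E => ‖x‖ ^ 2) := by
    refine Asymptotics.IsBigO.of_bound
      (C * A * A + C * ((C + C) / (1 - k) * A) * A) ?_
    have hU' : ∀ᶠ x : E in 𝓝 0, x₀ + x ∈ U := by
      have hc : Tendsto (fun x : E => x₀ + x) (𝓝 0) (𝓝 x₀) := by
        have : Continuous fun x : E => x₀ + x := continuous_const.add continuous_id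
        have h1 := this.tendsto 0
        simpa using h1
      exact hc.eventually (hU.mem_nhds hx₀)
    have hr' : ∀ᶠ x : E in 𝓝 0, ‖x‖ < r := by
      have : ball (0 : E) r ∈ 𝓝 (0 : E) := ball_mem_nhds _ hr
      filter_upwards [this] with x hx
      simpa using hx
    have h1' : ∀ᶠ x : E in 𝓝 0, ‖x‖ < 1 := by
      have : ball (0 : E) 1 ∈ 𝓝 (0 : E) := ball_mem_nhds _ one_pos
      filter_upwards [this] with x hx
      simpa using hx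
    filter_upwards [hU', hr', h1'] with x hxU hxr hx1
    have hμ : Bel k (pull 1 z (m (x₀ + x))) := (pull_bel hz' (hm _ hxU)).1
    have hsμ : SuppIn 1 (pull 1 z (m (x₀ + x))) := (pull_bel hz' (hm _ hxU)).2
    have hd : ∀ ζ, ‖pull 1 z (m (x₀ + x)) ζ - ν ζ - pull 1 z (L x) ζ‖ ≤ C * ‖x‖ ^ 2 := by
      intro ζ
      rw [hνdef, ← bh_pull_sub]
      exact bh_pull_le hz' (hC x hxr) ζ
    have hmain := bh_main hμ hsμ hν hsν (hlm x) (by positivity) (by positivity) (hlb x) hd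
    rw [← hA] at hmain
    have e : bers (m (x₀ + x)) z - bers (m x₀) z - Λ x = (1 / (Real.pi : ℂ)) *
        ((∫ ζ, hh (pull 1 z (m (x₀ + x))) ζ) - (∫ ζ, hh ν ζ)
        - (∫ ζ in D, pull 1 z (L x) ζ * (1 + Tf (hh ν) ζ) * (1 + Tf (hh ν) ζ))) := by
      have e1 : Λ x = (1 / (Real.pi : ℂ)) *
          ∫ ζ in D, pull 1 z (L x) ζ * (1 + Tf (hh ν) ζ) * (1 + Tf (hh ν) ζ) := rfl
      rw [e1]
      unfold bers
      ring
    rw [e, norm_mul]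
    have hx0 : 0 ≤ ‖x‖ := norm_nonneg x
    have hxx : ‖x‖ ^ 2 ≤ ‖x‖ := by nlinarith
    have h9 : C * ‖x‖ * ((C * ‖x‖ + C * ‖x‖ ^ 2) / (1 - k) * A) * A ≤
        C * ((C + C) / (1 - k) * A) * A * ‖x‖ ^ 2 := by
      have h10 : (C * ‖x‖ + C * ‖x‖ ^ 2) / (1 - k) ≤ (C + C) / (1 - k) * ‖x‖ := by
        rw [div_mul_eq_mul_div]
        gcongr
        nlinarith [mul_le_mul_of_nonneg_left hxx hC0]
      calc C * ‖x‖ * ((C * ‖x‖ + C * ‖x‖ ^ 2) / (1 - k) * A) * A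
          ≤ C * ‖x‖ * ((C + C) / (1 - k) * ‖x‖ * A) * A := by gcongr
        _ = _ := by ring
    calc ‖(1 / (Real.pi : ℂ))‖ * _ ≤ 1 * _ :=
          mul_le_mul hπ hmain (norm_nonneg _) zero_le_one
      _ ≤ (C * A * A + C * ((C + C) / (1 - k) * A) * A) * ‖‖x‖ ^ 2‖ := by
          rw [Real.norm_of_nonneg (by positivity : (0 : ℝ) ≤ ‖x‖ ^ 2)]
          nlinarith [h9]
  refine hO.trans_isLittleO ?_
  have := Asymptotics.isLittleO_norm_pow_id (E' := E) one_lt_two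
  exact this

end QC
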