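import Pool.Agent.Work.MP_217185_an.Fund
import Pool.Agent.Work.MP_217185_an.BHarm

/-! # BL2: the `L²` bound (unfolding)

`∫_P ‖bers μ z‖² dhyp(z) ≤ C ∫_P ∫_D ‖μ ζ‖² 4/‖1 - conj z ζ‖⁴ dζ dz` (`norm_bers_sq`),
`C = 1/(π(1-k²))`.  In terms of `hyp`: `dζ = (1-‖ζ‖²)²/4 dhyp`, so the kernel is
`K(z,ζ) = (1-‖z‖²)²(1-‖ζ‖²)²/(4 ‖1 - conj z ζ‖⁴)`, invariant: `K(γz, γζ) = K(z, ζ)`.
`∫_P ∫_D = ∫_P ∑_γ ∫_P ‖μ ζ‖² K(z, γ ζ) = ∫_P ‖μ ζ‖² ∑_γ ∫_P K(γ⁻¹ z, ζ) = ∫_P ‖μ ζ‖² ∫_D K(z, ζ)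
dhyp(z) dhyp(ζ)` (`lintegral_D_eq`, Tonelli, countable sum) and `∫_D K(·,ζ) dhyp = π`
(`lintegral_kernel`). -/

open MeasureTheory Complex Set Metric Filter
open scoped Topology ENNReal NNReal ContDiff ComplexConjugate

namespace QC

/-- the invariant kernel. -/
noncomputable def bl2K (z ζ : ℂ) : ℝ≥0∞ :=
  ENNReal.ofReal ((1 - ‖z‖ ^ 2) ^ 2 * (1 - ‖ζ‖ ^ 2) ^ 2 / (4 * ‖1 - conj z * ζ‖ ^ 4))

theorem bl2K_meas : Measurable (Function.uncurry bl2K) := by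
  unfold bl2K Function.uncurry
  fun_prop

theorem bl2K_meas1 (z : ℂ) : Measurable (bl2K z) := by
  unfold bl2K
  fun_prop

theorem bl2K_meas2 (ζ : ℂ) : Measurable (fun z => bl2K z ζ) := by
  unfold bl2K
  fun_prop

theorem bl2_ne {z ζ : ℂ} (hz : ‖z‖ < 1) (hζ : ‖ζ‖ < 1) : 1 - conj z * ζ ≠ 0 := by
  intro h
  have h1 : conj z * ζ = 1 := by linear_combination -h
  have h2 : ‖conj z * ζ‖ = 1 := by rw [h1, norm_one]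
  rw [norm_mul, Complex.norm_conj] at h2
  nlinarith [norm_nonneg z, norm_nonneg ζ]

theorem bl2K_mob {a b : ℂ} (h : ‖b‖ < ‖a‖) {z ζ : ℂ} (hz : ‖z‖ < 1) (hζ : ‖ζ‖ < 1) :
    bl2K (mob a b z) (mob a b ζ) = bl2K z ζ := by
  have hdz := mob_denom_ne h hz.le
  have hdζ := mob_denom_ne h hζ.le
  have hA : 0 < ‖a‖ ^ 2 - ‖b‖ ^ 2 := by nlinarith [norm_nonneg b]
  have hne := bl2_ne hz hζ
  have hdz' : b * conj z + a ≠ 0 := by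
    intro h0
    apply hdz
    have := congrArg conj h0
    simpa [map_add, map_mul] using this
  have key : 1 - conj (mob a b z) * mob a b ζ =
      (((‖a‖ ^ 2 - ‖b‖ ^ 2 : ℝ) : ℂ)) * (1 - conj z * ζ) /
        ((b * conj z + a) * (conj b * ζ + conj a)) := by
    unfold mob
    rw [map_div₀]
    simp only [map_add, map_mul, Complex.conj_conj]
    have ha : ((‖a‖ ^ 2 : ℝ) : ℂ) = a * conj a := by
      rw [Complex.mul_conj, Complex.normSq_eq_norm_sq]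
    have hb : ((‖b‖ ^ 2 : ℝ) : ℂ) = b * conj b := by
      rw [Complex.mul_conj, Complex.normSq_eq_norm_sq]
    have hprod := mul_ne_zero hdz' hdζ
    rw [Complex.ofReal_sub, ha, hb, div_mul_div_comm, eq_div_iff hprod, sub_mul,
      div_mul_cancel₀ _ hprod]
    ring
  have hnz : 0 < ‖conj b * z + conj a‖ := norm_pos_iff.2 hdz
  have hnζ : 0 < ‖conj b * ζ + conj a‖ := norm_pos_iff.2 hdζ
  have hn : 0 < ‖1 - conj z * ζ‖ := norm_pos_iff.2 hne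
  have e1 : ‖b * conj z + a‖ = ‖conj b * z + conj a‖ := by
    rw [← Complex.norm_conj (b * conj z + a)]
    simp [map_add, map_mul]
  unfold bl2K
  rw [key, one_sub_norm_mob h hz.le, one_sub_norm_mob h hζ.le, norm_div, norm_mul, norm_mul, e1,
    Complex.norm_real, Real.norm_of_nonneg hA.le]
  congr 1
  field_simp

theorem bl2_w {z ζ : ℂ} (hz : ‖z‖ < 1) (hζ : ‖ζ‖ < 1) :
    ENNReal.ofReal (4 / (1 - ‖ζ‖ ^ 2) ^ 2) * bl2K z ζ =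
      ENNReal.ofReal ((1 - ‖z‖ ^ 2) ^ 2 / ‖1 - conj z * ζ‖ ^ 4) := by
  unfold bl2K
  rw [← ENNReal.ofReal_mul (by positivity)]
  congr 1
  have hn : 0 < ‖1 - conj z * ζ‖ := norm_pos_iff.2 (bl2_ne hz hζ)
  have hζ2 : 0 < 1 - ‖ζ‖ ^ 2 := by nlinarith [norm_nonneg ζ]
  field_simp

theorem bl2_int {z : ℂ} (hz : ‖z‖ < 1) {u : ℂ → ℝ≥0∞} (hu : Measurable u) :
    ∫⁻ ζ in D, u ζ * ENNReal.ofReal ((1 - ‖z‖ ^ 2) ^ 2 / ‖1 - conj z * ζ‖ ^ 4) =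
      ∫⁻ ζ in D, u ζ * bl2K z ζ ∂hyp := by
  rw [hypB1_lintegral measurableSet_ball subset_rfl (u := fun ζ => u ζ * bl2K z ζ)
    (hu.mul (bl2K_meas1 z))]
  refine setLIntegral_congr_fun measurableSet_ball fun ζ hζ => ?_
  show _ = _ * (u ζ * bl2K z ζ)
  rw [mul_left_comm, bl2_w hz (hypB1_norm_lt hζ)]

theorem bl2_pi {ζ : ℂ} (hζ : ‖ζ‖ < 1) :
    ∫⁻ z in D, bl2K z ζ ∂hyp = ENNReal.ofReal Real.pi := by
  rw [← lintegral_kernel hζ]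
  have h := bl2_int hζ (u := fun _ => 1) measurable_const
  simp only [one_mul] at h
  rw [h]
  refine lintegral_congr fun z => ?_
  unfold bl2K
  have e : ‖1 - conj z * ζ‖ = ‖1 - conj ζ * z‖ := by
    rw [← Complex.norm_conj (1 - conj z * ζ)]
    simp [map_sub, map_mul, mul_comm]
  rw [e, mul_comm ((1 - ‖z‖ ^ 2) ^ 2)]

theorem bl2_swap {ι : Type} [Countable ι] {ν : Measure ℂ} [SFinite ν] (F : ι → ℂ → ℂ → ℝ≥0∞)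
    (hF : ∀ i, Measurable (Function.uncurry (F i))) :
    ∫⁻ z, ∑' i, ∫⁻ ζ, F i z ζ ∂ν ∂ν = ∑' i, ∫⁻ ζ, ∫⁻ z, F i z ζ ∂ν ∂ν := by
  rw [lintegral_tsum (fun i => (Measurable.lintegral_prod_right (hF i)).aemeasurable)]
  refine tsum_congr fun i => ?_
  exact lintegral_lintegral_swap (hF i).aemeasurable

theorem bl2_pull {ι : Type} [Countable ι] {ν : Measure ℂ} (G : ℂ → ℝ≥0∞) (H : ι → ℂ → ℝ≥0∞)
    (hG : Measurable G) (hH : ∀ i, Measurable (H i)) :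
    ∑' i, ∫⁻ ζ, G ζ * H i ζ ∂ν = ∫⁻ ζ, G ζ * ∑' i, H i ζ ∂ν := by
  have h : ∀ i, AEMeasurable (fun ζ => G ζ * H i ζ) ν := fun i => (hG.mul (hH i)).aemeasurable
  rw [← lintegral_tsum h]
  refine lintegral_congr fun ζ => ?_
  rw [ENNReal.tsum_mul_left]

attribute [local irreducible] bl2K

theorem bers_L2 {S : Bord} {k : ℝ} {μ : ℂ → ℂ} (hμ : Bel k μ) (hs : SuppIn 1 μ) (hi : AEInv S μ)
    {P : Set ℂ} (hP : IsFund S P) :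
    ∫⁻ z in P, ‖bersD μ z‖ₑ ^ 2 ∂hyp
      ≤ ENNReal.ofReal (1 / (1 - k ^ 2)) * ∫⁻ z in P, ‖μ z‖ₑ ^ 2 ∂hyp := by
  classical
  have _ : SFinite hyp := by unfold hyp; infer_instance
  have _ : Countable S.Γ := countable_Γ S
  have hk0 : 0 ≤ k := (norm_nonneg _).trans (hμ.le 0)
  have hk1 : k < 1 := hμ.lt
  have hk2 : 0 < 1 - k ^ 2 := by nlinarith
  have hμm : Measurable μ := hμ.meas
  have hum : Measurable (fun ζ => ‖μ ζ‖ₑ ^ 2) := by fun_prop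
  have hPD : ∀ z ∈ P, ‖z‖ < 1 := fun z hz => hypB1_norm_lt (hP.sub hz)
  -- parameters of the elements of the group
  have hpar : ∀ γ : S.Γ, ∃ p : ℂ × ℂ, ‖p.2‖ < ‖p.1‖ ∧
      ∀ z : CD, (((γ : CD ≃ₜ CD) z : CD) : ℂ) = mob p.1 p.2 z := by
    intro γ
    obtain ⟨a, b, h1, h2⟩ := S.mob γ γ.2
    exact ⟨(a, b), h1, h2⟩
  choose p hp1 hp2 using hpar
  have hext : ∀ (γ : S.Γ) (z : ℂ), ‖z‖ < 1 → ext (γ : CD ≃ₜ CD) z = mob (p γ).1 (p γ).2 z := by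
    intro γ z hz
    have hz' : z ∈ closedBall (0 : ℂ) 1 := by simpa using hz.le
    unfold ext
    rw [dif_pos hz', hp2 γ ⟨z, hz'⟩]
  have hinv : ∀ (γ : S.Γ) (z : ℂ), ‖z‖ < 1 →
      ‖mob (p γ⁻¹).1 (p γ⁻¹).2 z‖ < 1 ∧ mob (p γ).1 (p γ).2 (mob (p γ⁻¹).1 (p γ⁻¹).2 z) = z := by
    intro γ z hz
    have hz' : z ∈ closedBall (0 : ℂ) 1 := by simpa using hz.le
    refine ⟨norm_mob_lt (hp1 _) hz, ?_⟩
    have h1 := hp2 γ⁻¹ ⟨z, hz'⟩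
    have h2 := hp2 γ (((γ⁻¹ : S.Γ) : CD ≃ₜ CD) ⟨z, hz'⟩)
    rw [h1] at h2
    rw [← h2]
    have h3 : (γ : CD ≃ₜ CD) (((γ⁻¹ : S.Γ) : CD ≃ₜ CD) ⟨z, hz'⟩) = ⟨z, hz'⟩ := by
      rw [← Homeomorph.mul_apply, ← Subgroup.coe_mul, mul_inv_cancel]
      rfl
    rw [h3]
  -- step 1
  have s1 : ∀ z ∈ P, ‖bersD μ z‖ₑ ^ 2 ≤ ENNReal.ofReal (1 / (Real.pi * (1 - k ^ 2))) *
      ∑' γ : S.Γ, ∫⁻ ζ in P, ‖μ ζ‖ₑ ^ 2 * bl2K z (mob (p γ).1 (p γ).2 ζ) ∂hyp := by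
    intro z hz
    have hz1 := hPD z hz
    have h1 := norm_bers_sq hμ hs hz1
    have e0 : ‖bersD μ z‖ₑ ^ 2 = ENNReal.ofReal (‖bers μ z‖ ^ 2) := by
      unfold bersD
      rw [if_pos hz1, ENNReal.ofReal_pow (norm_nonneg _), ofReal_norm]
    rw [e0]
    refine h1.trans ?_
    rw [bl2_int hz1 hum, lintegral_D_eq hP (u := fun ζ => ‖μ ζ‖ₑ ^ 2 * bl2K z ζ)
      (hum.mul (bl2K_meas1 z))]
    refine mul_le_mul_right (ENNReal.tsum_le_tsum fun γ => le_of_eq ?_) _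
    have hae : ∀ᵐ ζ ∂(hyp.restrict P), ‖μ (ext (γ : CD ≃ₜ CD) ζ)‖ = ‖μ ζ‖ := by
      have h2 := hi.norm γ γ.2
      have h3 : ∀ᵐ ζ ∂hyp, ‖μ (ext (γ : CD ≃ₜ CD) ζ)‖ = ‖μ ζ‖ := by
        unfold hyp
        exact (withDensity_absolutelyContinuous _ _).ae_le h2
      exact ae_restrict_of_ae h3
    refine lintegral_congr_ae ?_
    filter_upwards [hae, ae_restrict_mem hP.meas] with ζ h4 h5
    show ‖μ (ext (γ : CD ≃ₜ CD) ζ)‖ₑ ^ 2 * bl2K z (ext (γ : CD ≃ₜ CD) ζ) = _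
    rw [hext γ ζ (hPD ζ h5)] at h4 ⊢
    rw [← ofReal_norm, h4, ofReal_norm]
  -- joint measurability
  have hmm : ∀ γ : S.Γ, Measurable (Function.uncurry fun z ζ : ℂ =>
      ‖μ ζ‖ₑ ^ 2 * bl2K z (mob (p γ).1 (p γ).2 ζ)) := by
    intro γ
    have h1 : Measurable (fun q : ℂ × ℂ => ‖μ q.2‖ₑ ^ 2) := hum.comp measurable_snd
    have h2 : Measurable (fun q : ℂ × ℂ => (q.1, mob (p γ).1 (p γ).2 q.2)) :=
      measurable_fst.prodMk (hypB1_mob_meas.comp measurable_snd)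
    exact h1.mul (bl2K_meas.comp h2)
  have hmm' : ∀ γ : S.Γ, Measurable (Function.uncurry fun z ζ : ℂ =>
      bl2K (mob (p γ).1 (p γ).2 z) ζ) := by
    intro γ
    have h2 : Measurable (fun q : ℂ × ℂ => (mob (p γ).1 (p γ).2 q.1, q.2)) :=
      (hypB1_mob_meas.comp measurable_fst).prodMk measurable_snd
    exact bl2K_meas.comp h2
  -- step 2
  have s2 : ∫⁻ z in P, (∑' γ : S.Γ, ∫⁻ ζ in P, ‖μ ζ‖ₑ ^ 2 *
      bl2K z (mob (p γ).1 (p γ).2 ζ) ∂hyp) ∂hyp =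
      ENNReal.ofReal Real.pi * ∫⁻ ζ in P, ‖μ ζ‖ₑ ^ 2 ∂hyp := by
    have e0 := bl2_swap (ι := S.Γ) (ν := hyp.restrict P)
      (fun γ z ζ => ‖μ ζ‖ₑ ^ 2 * bl2K z (mob (p γ).1 (p γ).2 ζ)) hmm
    rw [e0]
    have e1 : ∀ γ : S.Γ, ∫⁻ ζ in P, (∫⁻ z in P, ‖μ ζ‖ₑ ^ 2 *
        bl2K z (mob (p γ).1 (p γ).2 ζ) ∂hyp) ∂hyp =
        ∫⁻ ζ in P, ‖μ ζ‖ₑ ^ 2 * (∫⁻ z in P, bl2K (mob (p γ⁻¹).1 (p γ⁻¹).2 z) ζ ∂hyp) ∂hyp := by
      intro γ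
      refine setLIntegral_congr_fun hP.meas fun ζ hζ => ?_
      show ∫⁻ z in P, ‖μ ζ‖ₑ ^ 2 * bl2K z (mob (p γ).1 (p γ).2 ζ) ∂hyp = _
      rw [lintegral_const_mul _ (bl2K_meas2 _)]
      congr 1
      refine setLIntegral_congr_fun hP.meas fun z hz => ?_
      show bl2K z (mob (p γ).1 (p γ).2 ζ) = bl2K (mob (p γ⁻¹).1 (p γ⁻¹).2 z) ζ
      obtain ⟨h1, h2⟩ := hinv γ z (hPD z hz)
      rw [← bl2K_mob (hp1 γ) h1 (hPD ζ hζ), h2]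
    rw [tsum_congr e1]
    have e3 := bl2_pull (ι := S.Γ) (ν := hyp.restrict P) (fun ζ => ‖μ ζ‖ₑ ^ 2)
      (fun γ ζ => ∫⁻ z in P, bl2K (mob (p γ⁻¹).1 (p γ⁻¹).2 z) ζ ∂hyp) hum
      (fun γ => Measurable.lintegral_prod_left (hmm' γ⁻¹))
    rw [e3, ← lintegral_const_mul _ hum]
    refine setLIntegral_congr_fun hP.meas fun ζ hζ => ?_
    show ‖μ ζ‖ₑ ^ 2 * ∑' γ : S.Γ, (∫⁻ z in P, bl2K (mob (p γ⁻¹).1 (p γ⁻¹).2 z) ζ ∂hyp) = _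
    rw [mul_comm]
    congr 1
    rw [← bl2_pi (hPD ζ hζ), lintegral_D_eq hP (bl2K_meas2 ζ)]
    have e2 := Equiv.tsum_eq (Equiv.inv S.Γ)
      (fun γ : S.Γ => ∫⁻ z in P, bl2K (mob (p γ).1 (p γ).2 z) ζ ∂hyp)
    simp only [Equiv.inv_apply] at e2
    rw [e2]
    refine tsum_congr fun γ => ?_
    refine setLIntegral_congr_fun hP.meas fun z hz => ?_
    show bl2K (mob (p γ).1 (p γ).2 z) ζ = bl2K (ext (γ : CD ≃ₜ CD) z) ζ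
    rw [hext γ z (hPD z hz)]
  calc ∫⁻ z in P, ‖bersD μ z‖ₑ ^ 2 ∂hyp
      ≤ ∫⁻ z in P, ENNReal.ofReal (1 / (Real.pi * (1 - k ^ 2))) *
        (∑' γ : S.Γ, ∫⁻ ζ in P, ‖μ ζ‖ₑ ^ 2 * bl2K z (mob (p γ).1 (p γ).2 ζ) ∂hyp) ∂hyp :=
        setLIntegral_mono' hP.meas s1
    _ = ENNReal.ofReal (1 / (Real.pi * (1 - k ^ 2))) *
        (ENNReal.ofReal Real.pi * ∫⁻ ζ in P, ‖μ ζ‖ₑ ^ 2 ∂hyp) := by
        rw [lintegral_const_mul' _ _ ENNReal.ofReal_ne_top, s2]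
    _ = ENNReal.ofReal (1 / (1 - k ^ 2)) * ∫⁻ z in P, ‖μ z‖ₑ ^ 2 ∂hyp := by
        rw [← mul_assoc, ← ENNReal.ofReal_mul (by positivity)]
        congr 2
        have := Real.pi_pos
        field_simp

end QC
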