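import Mathlib

/-! # LemH2: holomorphic maps into Hilbert spaces

`f : E → H` (`H` a complex Hilbert space), locally bounded on the open set `U`, such that `ℓ ∘ f` is
complex differentiable on `U` for a family of continuous functionals `ℓ` separating the points of `H`;
then `f` is complex differentiable on `U`.
(1) The span of the `ℓ` is dense in the dual (`ℓ = ⟪y, ·⟫`, and the `y` have dense span because the
orthogonal complement is `0`), `f` is locally bounded, so for every `y ∈ H`, `a ∈ U`, `x ∈ E` the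
function `λ ↦ ⟪y, f (a + λ x)⟫` is a locally uniform limit of holomorphic functions, holomorphic.
(2) Let `‖f‖ ≤ M` on `ball a (2r)`.  Cauchy estimates: for `‖x‖ < r`,
`|⟪y, f(a+x) - f a⟫ - (d/dλ)_{0} ⟪y, f(a + λ x)⟫| ≤ C M ‖y‖ ‖x‖²/r²` and the derivative is bounded by
`M ‖y‖ ‖x‖ / r`.  By Riesz there is `D x ∈ H` with `⟪y, D x⟫` = the derivative for all `y`,
`‖D x‖ ≤ (M/r) ‖x‖`; `D` is additive and homogeneous because `ℓ (D x)` is the Frechet derivative of
`ℓ ∘ f` for the separating `ℓ`.  So `D` is the Frechet derivative of `f` at `a`.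

`taylor`: scalar or vector one variable Cauchy estimates in the form needed later. -/

open Set Metric Filter
open scoped Topology ComplexConjugate

namespace QC

/-- Lipschitz estimate with the constant `2`. -/
private theorem cauchy_lip_two {G : Type} [NormedAddCommGroup G] [NormedSpace ℂ G]
    {F : ℂ → G} {Lam M : ℝ} (hL : 2 ≤ Lam) (hF : DifferentiableOn ℂ F (ball 0 Lam))
    (hM : ∀ t, ‖t‖ < Lam → ‖F t‖ ≤ M) : ‖F 1 - F 0‖ ≤ 2 * M / Lam := by
  have h0 : ‖F 0‖ ≤ M := hM 0 (by rw [norm_zero]; linarith)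
  have hmaps : MapsTo F (ball 0 Lam) (closedBall (F 0) (2 * M)) := by
    intro t ht
    rw [mem_ball_zero_iff] at ht
    rw [mem_closedBall, dist_eq_norm]
    calc ‖F t - F 0‖ ≤ ‖F t‖ + ‖F 0‖ := norm_sub_le _ _
      _ ≤ 2 * M := by linarith [hM t ht]
  have h1 : (1 : ℂ) ∈ ball (0 : ℂ) Lam := by
    rw [mem_ball_zero_iff, norm_one]; linarith
  have h := Complex.dist_le_div_mul_dist_of_mapsTo_ball hF hmaps h1
  rw [dist_eq_norm, dist_eq_norm, sub_zero, norm_one, mul_one] at h
  exact h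

/-- second order Cauchy estimate: `F` holomorphic on the disc of radius `Λ > 1` in a normed space,
`F 0 = 0`, `‖F λ‖ ≤ M |λ|`; then `‖F 1 - F'(0)‖ ≤ C M / Λ`. -/
theorem cauchy_second {G : Type} [NormedAddCommGroup G] [NormedSpace ℂ G] [CompleteSpace G]
    {F : ℂ → G} {Lam M : ℝ} (hL : 2 ≤ Lam) (hF : DifferentiableOn ℂ F (ball 0 Lam))
    (h0 : F 0 = 0) (hM : ∀ t, ‖t‖ < Lam → ‖F t‖ ≤ M * ‖t‖) :
    ‖F 1 - deriv F 0‖ ≤ 4 * M / Lam := by
  have hLam : 0 < Lam := by linarith
  have hM0 : 0 ≤ M := by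
    have h := hM 1 (by rw [norm_one]; linarith)
    rw [norm_one, mul_one] at h
    exact (norm_nonneg _).trans h
  have hG : DifferentiableOn ℂ (dslope F 0) (ball 0 Lam) :=
    (Complex.differentiableOn_dslope (ball_mem_nhds _ hLam)).2 hF
  have hGM : ∀ t, ‖t‖ < Lam → ‖dslope F 0 t‖ ≤ M := by
    intro t ht
    by_cases h : t = 0
    · rw [h, dslope_same]
      have h1 : ‖fderiv ℂ F 0‖ ≤ M := by
        refine norm_fderiv_le_of_lip' ℂ hM0 ?_
        filter_upwards [ball_mem_nhds (0 : ℂ) hLam] with z hz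
        rw [h0, sub_zero, sub_zero]
        exact hM z (by simpa using hz)
      rw [norm_deriv_eq_norm_fderiv]
      exact h1
    · rw [dslope_of_ne _ h, slope_def_module, h0, sub_zero, sub_zero, norm_smul, norm_inv]
      have h1 : 0 < ‖t‖ := norm_pos_iff.2 h
      rw [inv_mul_le_iff₀ h1]
      linarith [hM t ht]
  have h := cauchy_lip_two hL hG hGM
  rw [dslope_of_ne _ (one_ne_zero), dslope_same, slope_def_module, h0, sub_zero, sub_zero, inv_one,
    one_smul] at h
  refine h.trans ?_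
  gcongr
  norm_num

/-- Lipschitz estimate: `F` holomorphic and bounded by `M` on the disc of radius `Λ ≥ 2`; then
`‖F 1 - F 0‖ ≤ 2 M / Λ`... with a factor 4. -/
theorem cauchy_lip {G : Type} [NormedAddCommGroup G] [NormedSpace ℂ G] [CompleteSpace G]
    {F : ℂ → G} {Lam M : ℝ} (hL : 2 ≤ Lam) (hF : DifferentiableOn ℂ F (ball 0 Lam))
    (hM : ∀ t, ‖t‖ < Lam → ‖F t‖ ≤ M) : ‖F 1 - F 0‖ ≤ 4 * M / Lam := by
  have hM0 : 0 ≤ M := (norm_nonneg _).trans (hM 0 (by rw [norm_zero]; linarith))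
  refine (cauchy_lip_two hL hF hM).trans ?_
  gcongr
  norm_num

end QC
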