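import Pool.Agent.Work.MP_217185_an.HSpC
import Pool.Agent.Work.MP_217185_an.BHolo
import Pool.Agent.Work.MP_217185_an.LemH

/-! # BersDef: the Bers map into the Hilbert space, and its holomorphy

`bersE_fn`: `harm_bers`, `inv_bers`, `bers_L2`, `L2hyp_iff`.
`bersE_differentiableOn`: `differentiableOn_of_separating` with the evaluations `exists_eval`
(`z ∈ D`), `bers_differentiableAt`, local bound `norm_bersE`. -/

open MeasureTheory Complex Set Metric Filter
open scoped Topology ENNReal NNReal ContDiff ComplexConjugate

noncomputable section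

namespace QC

open Classical in
/-- the Bers map. -/
def bersE (S : Bord) (μ : ℂ → ℂ) : HSp S :=
  if h : Harm (bersD μ) ∧ Inv S (bersD μ) ∧ L2hyp S (bersD μ) then
    HSp.mk (bersD μ) h.1 h.2.1 h.2.2 else 0

variable {S : Bord} {k : ℝ} {μ : ℂ → ℂ}

end QC

end
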