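import Pool.Agent.Work.MP_217185_an.HSpC
import Pool.Agent.Work.MP_217185_an.BHolo
import Pool.Agent.Work.MP_217185_an.LemH
import Pool.Agent.Work.MP_217185_an.BersDef

/-! # BersEA: the Bers map into the Hilbert space, and its holomorphy

`bersE_fn`: `harm_bers`, `inv_bers`, `bers_L2`, `L2hyp_iff`.
`bersE_differentiableOn`: `differentiableOn_of_separating` with the evaluations `exists_eval`
(`z ∈ D`), `bers_differentiableAt`, local bound `norm_bersE`. -/

open MeasureTheory Complex Set Metric Filter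
open scoped Topology ENNReal NNReal ContDiff ComplexConjugate

noncomputable section

namespace QC

variable {S : Bord} {k : ℝ} {μ : ℂ → ℂ}

theorem bersE_fn (hμ : Bel k μ) (hs : SuppIn 1 μ) (hi : AEInv S μ) (hl : L2hyp S μ) :
    (bersE S μ).fn = bersD μ := by
  have h1 : Harm (bersD μ) := harm_bers hμ hs
  have h2 : Inv S (bersD μ) := inv_bers hμ hs hi
  have h3 : L2hyp S (bersD μ) := by
    rw [L2hyp_iff h1.measurable h2.aeInv (isFund_fund S)]
    refine (bers_L2 hμ hs hi (isFund_fund S)).trans_lt ?_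
    exact ENNReal.mul_lt_top ENNReal.ofReal_lt_top
      ((L2hyp_iff hμ.meas hi (isFund_fund S)).1 hl)
  unfold bersE
  rw [dif_pos ⟨h1, h2, h3⟩, HSp.fn_mk]

theorem norm_bersE (hμ : Bel k μ) (hs : SuppIn 1 μ) (hi : AEInv S μ) (hl : L2hyp S μ)
    {P : Set ℂ} (hP : IsFund S P) :
    ENNReal.ofReal (‖bersE S μ‖ ^ 2)
      ≤ ENNReal.ofReal (1 / (1 - k ^ 2)) * ∫⁻ z in P, ‖μ z‖ₑ ^ 2 ∂hyp := by
  rw [HSp.norm_sq _ hP, bersE_fn hμ hs hi hl]
  exact bers_L2 hμ hs hi hP

end QC

end
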