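import Pool.Agent.Work.MP_217185_an.HSpC
import Pool.Agent.Work.MP_217185_an.BHolo
import Pool.Agent.Work.MP_217185_an.LemH
import Pool.Agent.Work.MP_217185_an.BersEA

/-! # BersEB: the Bers map into the Hilbert space, and its holomorphy

`bersE_fn`: `harm_bers`, `inv_bers`, `bers_L2`, `L2hyp_iff`.
`bersE_differentiableOn`: `differentiableOn_of_separating` with the evaluations `exists_eval`
(`z ∈ D`), `bers_differentiableAt`, local bound `norm_bersE`. -/

open MeasureTheory Complex Set Metric Filter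
open scoped Topology ENNReal NNReal ContDiff ComplexConjugate

noncomputable section

namespace QC

variable {S : Bord} {k : ℝ} {μ : ℂ → ℂ}

theorem bersE_differentiableOn {E : Type} [NormedAddCommGroup E] [NormedSpace ℂ E]
    {m : E → ℂ → ℂ} {U : Set E} (hU : IsOpen U) (hm : ∀ x ∈ U, Bel k (m x))
    (hs : ∀ x ∈ U, SuppIn 1 (m x)) (hi : ∀ x ∈ U, AEInv S (m x)) (hl : ∀ x ∈ U, L2hyp S (m x))
    (hd : ∀ x ∈ U, UDiff m x) {P : Set ℂ} (hP : IsFund S P)
    (hb : ∀ a ∈ U, ∃ r > 0, ∃ M : ℝ, ∀ x ∈ U, dist x a < r →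
      ∫⁻ z in P, ‖m x z‖ₑ ^ 2 ∂hyp ≤ ENNReal.ofReal M) :
    DifferentiableOn ℂ (fun x => bersE S (m x)) U := by
  choose l hlv using fun z : ℂ => exists_eval S z
  refine differentiableOn_of_separating hU ?_ (ι := ↥D) (fun i => l i) ?_ ?_
  · intro a ha
    obtain ⟨r, hr, M, hM⟩ := hb a ha
    obtain ⟨s, hs', hsU⟩ := Metric.isOpen_iff.1 hU a ha
    refine ⟨min r s, lt_min hr hs', Real.sqrt (1 / (1 - k ^ 2) * max M 0), ?_⟩
    intro x hx
    have hxU : x ∈ U := hsU (ball_subset_ball (min_le_right _ _) hx)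
    have hxr : dist x a < r := by
      have := ball_subset_ball (min_le_left r s) hx
      exact this
    have hk0 : 0 ≤ k := (norm_nonneg _).trans ((hm x hxU).le 0)
    have hk1 : k < 1 := (hm x hxU).lt
    have hk2 : 0 < 1 - k ^ 2 := by nlinarith
    have h1 := norm_bersE (hm x hxU) (hs x hxU) (hi x hxU) (hl x hxU) hP
    have h2 : ENNReal.ofReal (‖bersE S (m x)‖ ^ 2)
        ≤ ENNReal.ofReal (1 / (1 - k ^ 2) * max M 0) := by
      rw [ENNReal.ofReal_mul (by positivity)]
      refine h1.trans ?_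
      gcongr
      exact (hM x hxU hxr).trans (ENNReal.ofReal_le_ofReal (le_max_left _ _))
    rw [ENNReal.ofReal_le_ofReal_iff (by positivity)] at h2
    exact Real.le_sqrt_of_sq_le h2
  · intro v hv
    apply HSp.ext
    funext z
    rw [HSp.fn_zero]
    by_cases hz : z ∈ D
    · rw [← hlv z v]
      exact hv ⟨z, hz⟩
    · exact v.harm.2 z hz
  · intro i x hx
    have hz : ‖(i : ℂ)‖ < 1 := mem_ball_zero_iff.1 i.2
    have h1 : DifferentiableAt ℂ (fun x => bers (m x) i) x :=
      bers_differentiableAt hU hm hs hx (hd x hx) hz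
    have h2 : EqOn (fun x => l i (bersE S (m x))) (fun x => bers (m x) i) U := by
      intro y hy
      simp only
      rw [hlv, bersE_fn (hm y hy) (hs y hy) (hi y hy) (hl y hy)]
      unfold bersD
      rw [if_pos hz]
    exact (h1.differentiableWithinAt (s := U)).congr h2 (h2 hx)

end QC

end
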