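import Pool.Agent.Work.MP_217185_an.Wirt

/-! # CL2: the Courant-Lebesgue lemma

Polar coordinates around `z0`: `∫_r^R (∫_0^{2π} ‖Df(z0 + ρ e^{iθ})‖² dθ) ρ dρ ≤ M`.  The curve
`θ ↦ f(z0 + ρ e^{iθ})` has length `ℓ(ρ) ≤ ρ ∫ ‖Df‖ dθ`, `ℓ(ρ)² ≤ 2π ρ² ∫ ‖Df‖² dθ`, so
`∫_r^R ℓ(ρ)²/ρ dρ ≤ 2π M` and some `ρ ∈ [r, R)` has `ℓ(ρ)² ≤ 2π M / log (R/r)`.  All distances of
points of `f (sphere z0 ρ)` are `≤ ℓ(ρ)`.  `f` is open on `ball z0 R` (inverse function theorem), so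
the frontier of the compact set `f '' closedBall z0 ρ` is contained in `f '' sphere z0 ρ`, and the
diameter of a compact set is attained at frontier points.

`dirichlet_le`: `‖Df‖² ≤ (‖dz f‖ + ‖dzb f‖)² ≤ ((1+k)/(1-k)) (‖dz f‖² - ‖dzb f‖²)` and the area
formula (Mathlib `lintegral_abs_det_fderiv_eq_addHaar_image`). -/

open MeasureTheory Complex Set Metric Filter
open scoped Topology ENNReal NNReal ContDiff ComplexConjugate

namespace QC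

theorem dirichlet_le {V : Set ℂ} (hV : IsOpen V) {f : ℂ → ℂ} (hf : ContDiffOn ℝ 1 f V)
    (hinj : InjOn f V) {k : ℝ} (hk0 : 0 ≤ k) (hk : k < 1) (hd : ∀ z ∈ V, ‖dzb f z‖ ≤ k * ‖dz f z‖)
    {E : Set ℂ} (hE : MeasurableSet E) (hEV : E ⊆ V) {A : ℝ} (hA0 : 0 ≤ A)
    (hA : volume (f '' E) ≤ ENNReal.ofReal A) :
    ∫⁻ z in E, ENNReal.ofReal (‖fderiv ℝ f z‖ ^ 2) ≤ ENNReal.ofReal ((1 + k) / (1 - k) * A) := by
  have hk1 : 0 < 1 - k := by linarith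
  have hK : 0 ≤ (1 + k) / (1 - k) := by positivity
  have hpt : ∀ z ∈ E, ‖fderiv ℝ f z‖ ^ 2 ≤ (1 + k) / (1 - k) * |(fderiv ℝ f z).det| := by
    intro z hz
    have h1 := norm_fderiv_le f z
    have h2 := hd z (hEV hz)
    have h3 := norm_nonneg (dz f z)
    have h4 := norm_nonneg (dzb f z)
    have h5 := norm_nonneg (fderiv ℝ f z)
    rw [det_fderiv]
    have h6 : ‖dzb f z‖ ≤ ‖dz f z‖ := h2.trans (by nlinarith)
    have h7 : 0 ≤ ‖dz f z‖ ^ 2 - ‖dzb f z‖ ^ 2 := by nlinarith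
    rw [abs_of_nonneg h7, div_mul_eq_mul_div, le_div_iff₀ hk1]
    have h8 : ‖fderiv ℝ f z‖ ^ 2 ≤ (‖dz f z‖ + ‖dzb f z‖) ^ 2 := by nlinarith
    have h9 : (‖dz f z‖ + ‖dzb f z‖) * (1 - k) ≤ (1 + k) * (‖dz f z‖ - ‖dzb f z‖) := by nlinarith
    calc ‖fderiv ℝ f z‖ ^ 2 * (1 - k) ≤ (‖dz f z‖ + ‖dzb f z‖) ^ 2 * (1 - k) :=
          mul_le_mul_of_nonneg_right h8 hk1.le
      _ = (‖dz f z‖ + ‖dzb f z‖) * ((‖dz f z‖ + ‖dzb f z‖) * (1 - k)) := by ring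
      _ ≤ (‖dz f z‖ + ‖dzb f z‖) * ((1 + k) * (‖dz f z‖ - ‖dzb f z‖)) :=
          mul_le_mul_of_nonneg_left h9 (by positivity)
      _ = (1 + k) * (‖dz f z‖ ^ 2 - ‖dzb f z‖ ^ 2) := by ring
  have hfd : ∀ z ∈ E, HasFDerivWithinAt f (fderiv ℝ f z) E z := by
    intro z hz
    have h1 : DifferentiableAt ℝ f z :=
      (hf.differentiableOn (by norm_num)).differentiableAt (hV.mem_nhds (hEV hz))
    exact h1.hasFDerivAt.hasFDerivWithinAt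
  have hfin : ENNReal.ofReal ((1 + k) / (1 - k)) ≠ ⊤ := ENNReal.ofReal_ne_top
  calc ∫⁻ z in E, ENNReal.ofReal (‖fderiv ℝ f z‖ ^ 2)
      ≤ ∫⁻ z in E, ENNReal.ofReal ((1 + k) / (1 - k)) * ENNReal.ofReal |(fderiv ℝ f z).det| := by
        refine setLIntegral_mono' hE ?_
        intro z hz
        rw [← ENNReal.ofReal_mul hK]
        exact ENNReal.ofReal_le_ofReal (hpt z hz)
    _ = ENNReal.ofReal ((1 + k) / (1 - k)) * ∫⁻ z in E, ENNReal.ofReal |(fderiv ℝ f z).det| :=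
        lintegral_const_mul' _ _ hfin
    _ = ENNReal.ofReal ((1 + k) / (1 - k)) * volume (f '' E) := by
        rw [lintegral_abs_det_fderiv_eq_addHaar_image volume hE hfd (hinj.mono hEV)]
    _ ≤ ENNReal.ofReal ((1 + k) / (1 - k)) * ENNReal.ofReal A := by gcongr
    _ = ENNReal.ofReal ((1 + k) / (1 - k) * A) := (ENNReal.ofReal_mul hK).symm

end QC
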