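import Pool.Agent.Work.MP_217185_an.Wirt

/-! # CL1: the Courant-Lebesgue lemma

Polar coordinates around `z0`: `∫_r^R (∫_0^{2π} ‖Df(z0 + ρ e^{iθ})‖² dθ) ρ dρ ≤ M`.  The curve
`θ ↦ f(z0 + ρ e^{iθ})` has length `ℓ(ρ) ≤ ρ ∫ ‖Df‖ dθ`, `ℓ(ρ)² ≤ 2π ρ² ∫ ‖Df‖² dθ`, so
`∫_r^R ℓ(ρ)²/ρ dρ ≤ 2π M` and some `ρ ∈ [r, R)` has `ℓ(ρ)² ≤ 2π M / log (R/r)`.  All distances of
points of `f (sphere z0 ρ)` are `≤ ℓ(ρ)`.  `f` is open on `ball z0 R` (inverse function theorem), so
the frontier of the compact set `f '' closedBall z0 ρ` is contained in `f '' sphere z0 ρ`, and the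
diameter of a compact set is attained at frontier points. -/

open MeasureTheory Complex Set Metric Filter
open scoped Topology ENNReal NNReal ContDiff ComplexConjugate

namespace QC

/-- points farther away from `c` arbitrarily close to `x`. -/
private lemma exists_farther (x c : ℂ) {ε : ℝ} (hε : 0 < ε) :
    ∃ y, dist y x < ε ∧ dist x c < dist y c := by
  by_cases h : x = c
  · refine ⟨x + (ε / 2 : ℝ), ?_, ?_⟩
    · rw [dist_eq_norm, add_sub_cancel_left, Complex.norm_real, Real.norm_eq_abs,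
        abs_of_pos (by positivity)]
      linarith
    · rw [h, dist_self, dist_eq_norm, add_sub_cancel_left, Complex.norm_real, Real.norm_eq_abs,
        abs_of_pos (by positivity)]
      positivity
  · have hd : 0 < ‖x - c‖ := norm_pos_iff.mpr (sub_ne_zero.mpr h)
    refine ⟨x + ((ε / (2 * ‖x - c‖) : ℝ) : ℂ) * (x - c), ?_, ?_⟩
    · rw [dist_eq_norm, add_sub_cancel_left, norm_mul, Complex.norm_real, Real.norm_eq_abs,
        abs_of_pos (by positivity)]
      rw [div_mul_eq_mul_div, div_lt_iff₀ (by positivity)]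
      nlinarith
    · rw [dist_eq_norm, dist_eq_norm]
      have : x + ((ε / (2 * ‖x - c‖) : ℝ) : ℂ) * (x - c) - c
          = ((1 + ε / (2 * ‖x - c‖) : ℝ) : ℂ) * (x - c) := by
        push_cast; ring
      rw [this, norm_mul, Complex.norm_real, Real.norm_eq_abs, abs_of_pos (by positivity)]
      have h2 : 0 < ε / (2 * ‖x - c‖) := by positivity
      nlinarith

/-- `f` is open at points with invertible derivative. -/
private lemma map_nhds_eq {V : Set ℂ} (hV : IsOpen V) {f : ℂ → ℂ} (hf : ContDiffOn ℝ 1 f V)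
    (hJ : ∀ z ∈ V, (fderiv ℝ f z).det ≠ 0) {a : ℂ} (ha : a ∈ V) : map f (𝓝 a) = 𝓝 (f a) := by
  have h1 : ContDiffAt ℝ 1 f a := hf.contDiffAt (hV.mem_nhds ha)
  have h2 : HasStrictFDerivAt f (fderiv ℝ f a) a := h1.hasStrictFDerivAt one_ne_zero
  have h3 : HasStrictFDerivAt f
      (((fderiv ℝ f a).toContinuousLinearEquivOfDetNeZero (hJ a ha) : ℂ ≃L[ℝ] ℂ) : ℂ →L[ℝ] ℂ) a := by
    simpa using h2
  exact h3.map_nhds_eq_of_equiv

/-- the farthest point of a disc from a given point can be moved to the circle. -/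
private lemma exists_sphere {V : Set ℂ} (hV : IsOpen V) {f : ℂ → ℂ} (hf : ContDiffOn ℝ 1 f V)
    (hJ : ∀ z ∈ V, (fderiv ℝ f z).det ≠ 0) {z₀ : ℂ} {ρ : ℝ}
    (hsub : closedBall z₀ ρ ⊆ V) (c : ℂ) {z : ℂ} (hz : z ∈ closedBall z₀ ρ) :
    ∃ a ∈ sphere z₀ ρ, dist (f z) c ≤ dist (f a) c := by
  have hcont : ContinuousOn (fun x => dist (f x) c) (closedBall z₀ ρ) :=
    (continuous_id.dist continuous_const).comp_continuousOn (hf.continuousOn.mono hsub)
  obtain ⟨a, ha, hmax⟩ := (isCompact_closedBall z₀ ρ).exists_isMaxOn ⟨z, hz⟩ hcont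
  refine ⟨a, ?_, hmax hz⟩
  by_contra hns
  have hb : a ∈ ball z₀ ρ := by
    rw [mem_closedBall] at ha
    rw [mem_sphere] at hns
    exact lt_of_le_of_ne ha hns
  have h1 : f '' closedBall z₀ ρ ∈ 𝓝 (f a) := by
    rw [← map_nhds_eq hV hf hJ (hsub ha)]
    exact image_mem_map (mem_of_superset (isOpen_ball.mem_nhds hb) ball_subset_closedBall)
  obtain ⟨ε, hε, hsub2⟩ := Metric.mem_nhds_iff.mp h1
  obtain ⟨y, hy1, hy2⟩ := exists_farther (f a) c hε
  obtain ⟨x, hx, hxy⟩ := hsub2 (mem_ball.mpr hy1)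
  have := hmax hx
  simp only [mem_ofPred_eq] at this
  rw [← hxy] at hy2
  linarith

/-- Cauchy-Schwarz. -/
private lemma sq_integral_le {g : ℝ → ℝ} (hg : ContinuousOn g (Icc (-Real.pi) Real.pi)) :
    (∫ θ in (-Real.pi)..Real.pi, g θ) ^ 2 ≤ 2 * Real.pi * ∫ θ in (-Real.pi)..Real.pi, g θ ^ 2 := by
  have hpi := Real.pi_pos
  have hle : -Real.pi ≤ Real.pi := by linarith
  have hu : uIcc (-Real.pi) Real.pi = Icc (-Real.pi) Real.pi := uIcc_of_le hle
  have hi : IntervalIntegrable g volume (-Real.pi) Real.pi :=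
    ContinuousOn.intervalIntegrable (by rwa [hu])
  have hi2 : IntervalIntegrable (fun θ => g θ ^ 2) volume (-Real.pi) Real.pi :=
    ContinuousOn.intervalIntegrable (by rw [hu]; exact hg.pow 2)
  set c : ℝ := (∫ θ in (-Real.pi)..Real.pi, g θ) / (2 * Real.pi) with hc
  have h0 : 0 ≤ ∫ θ in (-Real.pi)..Real.pi, (g θ - c) ^ 2 :=
    intervalIntegral.integral_nonneg hle (fun x _ => sq_nonneg _)
  have h1 : ∫ θ in (-Real.pi)..Real.pi, (g θ - c) ^ 2
      = (∫ θ in (-Real.pi)..Real.pi, g θ ^ 2) - 2 * c * (∫ θ in (-Real.pi)..Real.pi, g θ)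
        + c ^ 2 * (2 * Real.pi) := by
    have : ∀ θ, (g θ - c) ^ 2 = g θ ^ 2 - 2 * c * g θ + c ^ 2 := fun θ => by ring
    simp_rw [this]
    rw [intervalIntegral.integral_add (hi2.sub (hi.const_mul _)) intervalIntegrable_const,
      intervalIntegral.integral_sub hi2 (hi.const_mul _), intervalIntegral.integral_const_mul,
      intervalIntegral.integral_const]
    simp only [smul_eq_mul]
    ring
  rw [h1] at h0
  have h2 : (∫ θ in (-Real.pi)..Real.pi, g θ) = c * (2 * Real.pi) := by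
    rw [hc]; field_simp
  rw [h2] at h0 ⊢
  nlinarith

/-- two points of the same circle. -/
private lemma dist_circle_le {V : Set ℂ} (hV : IsOpen V) {f : ℂ → ℂ} (hf : ContDiffOn ℝ 1 f V)
    {z₀ : ℂ} {ρ : ℝ} (hρ : 0 < ρ) (hsub : closedBall z₀ ρ ⊆ V) {a b : ℂ} (ha : a ∈ sphere z₀ ρ)
    (hb : b ∈ sphere z₀ ρ) :
    dist (f a) (f b) ^ 2 ≤ 2 * Real.pi * (ρ ^ 2 *
      ∫ θ in (-Real.pi)..Real.pi, ‖fderiv ℝ f (circleMap z₀ ρ θ)‖ ^ 2) := by
  have hpi := Real.pi_pos
  have hle : -Real.pi ≤ Real.pi := by linarith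
  have hmem : ∀ θ, circleMap z₀ ρ θ ∈ V := fun θ =>
    hsub (sphere_subset_closedBall (circleMap_mem_sphere z₀ hρ.le θ))
  have hDc : Continuous (fun θ => fderiv ℝ f (circleMap z₀ ρ θ)) := by
    have h1 : ContinuousOn (fderiv ℝ f) V := hf.continuousOn_fderiv_of_isOpen hV le_rfl
    exact h1.comp_continuous (continuous_circleMap z₀ ρ) hmem
  have hN : Continuous (fun θ => ρ * ‖fderiv ℝ f (circleMap z₀ ρ θ)‖) :=
    continuous_const.mul hDc.norm
  -- the estimate for ordered angles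
  have key : ∀ s t : ℝ, -Real.pi ≤ s → s ≤ t → t ≤ Real.pi →
      dist (f (circleMap z₀ ρ s)) (f (circleMap z₀ ρ t)) ≤
        ∫ θ in (-Real.pi)..Real.pi, ρ * ‖fderiv ℝ f (circleMap z₀ ρ θ)‖ := by
    intro s t hs hst ht
    have hder : ∀ θ ∈ uIcc s t, HasDerivAt (fun θ => f (circleMap z₀ ρ θ))
        (fderiv ℝ f (circleMap z₀ ρ θ) (circleMap 0 ρ θ * I)) θ := by
      intro θ _
      have h1 : HasFDerivAt f (fderiv ℝ f (circleMap z₀ ρ θ)) (circleMap z₀ ρ θ) :=
        ((hf.contDiffAt (hV.mem_nhds (hmem θ))).differentiableAt one_ne_zero).hasFDerivAt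
      exact h1.comp_hasDerivAt θ (hasDerivAt_circleMap z₀ ρ θ)
    have hDcont : Continuous (fun θ => fderiv ℝ f (circleMap z₀ ρ θ) (circleMap 0 ρ θ * I)) :=
      hDc.clm_apply ((continuous_circleMap 0 ρ).mul continuous_const)
    have h2 := intervalIntegral.integral_eq_sub_of_hasDerivAt hder
      (hDcont.intervalIntegrable _ _)
    rw [dist_comm, dist_eq_norm, ← h2]
    calc ‖∫ θ in s..t, fderiv ℝ f (circleMap z₀ ρ θ) (circleMap 0 ρ θ * I)‖
        ≤ ∫ θ in s..t, ‖fderiv ℝ f (circleMap z₀ ρ θ) (circleMap 0 ρ θ * I)‖ :=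
          intervalIntegral.norm_integral_le_integral_norm hst
      _ ≤ ∫ θ in s..t, ρ * ‖fderiv ℝ f (circleMap z₀ ρ θ)‖ := by
          apply intervalIntegral.integral_mono_on hst (hDcont.norm.intervalIntegrable _ _)
            (hN.intervalIntegrable _ _)
          intro θ _
          refine (ContinuousLinearMap.le_opNorm _ _).trans (le_of_eq ?_)
          rw [norm_mul, norm_circleMap_zero, abs_of_pos hρ, norm_I]
          ring
      _ ≤ ∫ θ in (-Real.pi)..Real.pi, ρ * ‖fderiv ℝ f (circleMap z₀ ρ θ)‖ := by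
          apply intervalIntegral.integral_mono_interval hs hst ht
          · exact Filter.Eventually.of_forall (fun θ => by positivity)
          · exact hN.intervalIntegrable _ _
  have hpt : ∀ x ∈ sphere z₀ ρ, ∃ s : ℝ, -Real.pi ≤ s ∧ s ≤ Real.pi ∧ circleMap z₀ ρ s = x := by
    intro x hx
    refine ⟨arg (x - z₀), (neg_pi_lt_arg _).le, arg_le_pi _, ?_⟩
    have h1 : ‖x - z₀‖ = ρ := by rwa [← dist_eq_norm]
    rw [circleMap]
    have h2 := Complex.norm_mul_exp_arg_mul_I (x - z₀)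
    rw [h1] at h2
    rw [h2]
    ring
  obtain ⟨s, hs1, hs2, hs⟩ := hpt a ha
  obtain ⟨t, ht1, ht2, ht⟩ := hpt b hb
  have hmain : dist (f a) (f b) ≤ ∫ θ in (-Real.pi)..Real.pi,
      ρ * ‖fderiv ℝ f (circleMap z₀ ρ θ)‖ := by
    rw [← hs, ← ht]
    rcases le_total s t with h | h
    · exact key s t hs1 h ht2
    · rw [dist_comm]
      exact key t s ht1 h hs2
  calc dist (f a) (f b) ^ 2
      ≤ (∫ θ in (-Real.pi)..Real.pi, ρ * ‖fderiv ℝ f (circleMap z₀ ρ θ)‖) ^ 2 := by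
        gcongr
    _ ≤ 2 * Real.pi * ∫ θ in (-Real.pi)..Real.pi, (ρ * ‖fderiv ℝ f (circleMap z₀ ρ θ)‖) ^ 2 :=
        sq_integral_le hN.continuousOn
    _ = _ := by
        rw [← intervalIntegral.integral_const_mul (ρ ^ 2)]
        congr 2
        funext θ
        ring

/-- polar coordinates, the inequality that is needed. -/
private lemma polar_le {F : ℂ → ℝ} {z₀ : ℂ} {r R M : ℝ} (hr : 0 < r) (hrR : r < R)
    (hF0 : ∀ z, 0 ≤ F z) (hF : ContinuousOn F (closedBall z₀ R))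
    (hM : ∫ z in ball z₀ R, F z ≤ M) :
    IntervalIntegrable (fun ρ => ρ * ∫ θ in (-Real.pi)..Real.pi, F (circleMap z₀ ρ θ)) volume r R ∧
    ∫ ρ in r..R, ρ * ∫ θ in (-Real.pi)..Real.pi, F (circleMap z₀ ρ θ) ≤ M := by
  have hpi := Real.pi_pos
  have hR : 0 < R := hr.trans hrR
  have hle : -Real.pi ≤ Real.pi := by linarith
  set G : ℝ × ℝ → ℝ := fun p => p.1 * F (circleMap z₀ p.1 p.2) with hG
  have hcm : Continuous (fun p : ℝ × ℝ => circleMap z₀ p.1 p.2) := by
    unfold circleMap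
    fun_prop
  have hGc : ContinuousOn G (Icc r R ×ˢ Icc (-Real.pi) Real.pi) := by
    apply ContinuousOn.mul continuousOn_fst
    apply hF.comp hcm.continuousOn
    rintro ⟨ρ, θ⟩ ⟨h1, _⟩
    simp only [mem_Icc] at h1
    have : circleMap z₀ ρ θ ∈ sphere z₀ |ρ| := circleMap_mem_sphere' z₀ ρ θ
    rw [mem_closedBall]
    rw [mem_sphere, abs_of_pos (by linarith)] at this
    linarith
  have hGi : IntegrableOn G (Icc r R ×ˢ Icc (-Real.pi) Real.pi) :=
    hGc.integrableOn_compact (isCompact_Icc.prod isCompact_Icc)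
  have hGi' : IntegrableOn G (Ioo r R ×ˢ Ioo (-Real.pi) Real.pi) :=
    hGi.mono_set (prod_mono Ioo_subset_Icc_self Ioo_subset_Icc_self)
  have hG0 : ∀ p ∈ Ioo r R ×ˢ Ioo (-Real.pi) Real.pi, 0 ≤ G p := by
    rintro ⟨ρ, θ⟩ ⟨h1, _⟩
    simp only [mem_Ioo] at h1
    exact mul_nonneg (by linarith) (hF0 _)
  have e1 : ∫ ρ in r..R, ρ * ∫ θ in (-Real.pi)..Real.pi, F (circleMap z₀ ρ θ)
      = ∫ p in Ioo r R ×ˢ Ioo (-Real.pi) Real.pi, G p := by
    rw [Measure.volume_eq_prod, setIntegral_prod _ hGi', intervalIntegral.integral_of_le hrR.le,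
      integral_Ioc_eq_integral_Ioo]
    congr 1
    funext ρ
    rw [intervalIntegral.integral_of_le hle, integral_Ioc_eq_integral_Ioo]
    simp only [hG]
    rw [integral_const_mul]
  have e0 : IntervalIntegrable (fun ρ => ρ * ∫ θ in (-Real.pi)..Real.pi, F (circleMap z₀ ρ θ))
      volume r R := by
    rw [intervalIntegrable_iff_integrableOn_Ioo_of_le hrR.le]
    have h1 : IntegrableOn G (Ioo r R ×ˢ Ioo (-Real.pi) Real.pi)
        ((volume : Measure ℝ).prod volume) := hGi'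
    rw [IntegrableOn, ← Measure.prod_restrict] at h1
    have h2 := h1.integral_prod_left
    refine h2.congr (Filter.Eventually.of_forall ?_)
    intro ρ
    simp only [hG]
    rw [intervalIntegral.integral_of_le hle, integral_Ioc_eq_integral_Ioo, integral_const_mul]
  refine ⟨e0, ?_⟩
  rw [e1]
  refine le_trans ?_ hM
  have hFi : IntegrableOn F (ball z₀ R) :=
    (hF.integrableOn_compact (isCompact_closedBall _ _)).mono_set ball_subset_closedBall
  have hI0 : 0 ≤ ∫ z in ball z₀ R, F z := setIntegral_nonneg measurableSet_ball (fun z _ => hF0 z)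
  rw [← ENNReal.ofReal_le_ofReal_iff hI0]
  rw [ofReal_integral_eq_lintegral_ofReal hFi (Filter.Eventually.of_forall hF0)]
  rw [ofReal_integral_eq_lintegral_ofReal hGi'
    ((ae_restrict_iff' (measurableSet_Ioo.prod measurableSet_Ioo)).mpr
      (Filter.Eventually.of_forall hG0))]
  have e2 : ∫⁻ z in ball z₀ R, ENNReal.ofReal (F z)
      = ∫⁻ z, (ball (0:ℂ) R).indicator (fun z => ENNReal.ofReal (F (z₀ + z))) z := by
    rw [← lintegral_indicator measurableSet_ball,
      ← lintegral_add_left_eq_self _ z₀]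
    congr 1
    funext z
    simp only [indicator]
    congr 1
    simp [mem_ball, dist_eq_norm]
  rw [e2, ← Complex.lintegral_comp_polarCoord_symm]
  calc ∫⁻ p in Ioo r R ×ˢ Ioo (-Real.pi) Real.pi, ENNReal.ofReal (G p)
      = ∫⁻ p in Ioo r R ×ˢ Ioo (-Real.pi) Real.pi, ENNReal.ofReal p.1 •
          (ball (0:ℂ) R).indicator (fun z => ENNReal.ofReal (F (z₀ + z)))
            (Complex.polarCoord.symm p) := by
        apply setLIntegral_congr_fun (measurableSet_Ioo.prod measurableSet_Ioo)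
        rintro ⟨ρ, θ⟩ ⟨h1, _⟩
        simp only [mem_Ioo] at h1
        have hρ : 0 < ρ := by linarith
        have hmem : Complex.polarCoord.symm (ρ, θ) ∈ ball (0:ℂ) R := by
          rw [mem_ball_zero_iff, Complex.norm_polarCoord_symm, abs_of_pos hρ]
          exact h1.2
        simp only [indicator_of_mem hmem, smul_eq_mul, hG]
        rw [ENNReal.ofReal_mul hρ.le]
        congr 3
        rw [Complex.polarCoord_symm_apply, circleMap, Complex.exp_mul_I]
        push_cast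
        ring
    _ ≤ _ := by
        apply lintegral_mono_set
        refine subset_trans (prod_mono ?_ subset_rfl) (le_of_eq Complex.polarCoord_target.symm)
        intro x hx
        simp only [mem_Ioo] at hx
        exact mem_Ioi.mpr (by linarith)

theorem courant_lebesgue {V : Set ℂ} (hV : IsOpen V) {f : ℂ → ℂ} (hf : ContDiffOn ℝ 1 f V)
    (hJ : ∀ z ∈ V, (fderiv ℝ f z).det ≠ 0) {z₀ : ℂ} {r R M : ℝ} (hr : 0 < r) (hrR : r < R)
    (hsub : closedBall z₀ R ⊆ V) (hM : ∫ z in ball z₀ R, ‖fderiv ℝ f z‖ ^ 2 ≤ M) {z z' : ℂ}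
    (hz : z ∈ closedBall z₀ r) (hz' : z' ∈ closedBall z₀ r) :
    dist (f z) (f z') ^ 2 ≤ 2 * Real.pi * M / Real.log (R / r) := by
  have hpi := Real.pi_pos
  have hR : 0 < R := hr.trans hrR
  have hlog : 0 < Real.log (R / r) := Real.log_pos (by rw [one_lt_div hr]; exact hrR)
  have hFc : ContinuousOn (fun z => ‖fderiv ℝ f z‖ ^ 2) (closedBall z₀ R) :=
    (((hf.continuousOn_fderiv_of_isOpen hV le_rfl).mono hsub).norm).pow 2
  obtain ⟨hi2, hpol⟩ :=
    polar_le hr hrR (F := fun z => ‖fderiv ℝ f z‖ ^ 2) (fun z => sq_nonneg _) hFc hM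
  set g : ℝ → ℝ := fun ρ => ∫ θ in (-Real.pi)..Real.pi, ‖fderiv ℝ f (circleMap z₀ ρ θ)‖ ^ 2 with hg
  by_contra hcon
  push Not at hcon
  set d := dist (f z) (f z') with hd
  -- lower bound for every radius
  have hlow : ∀ ρ ∈ Icc r R, d ^ 2 / (2 * Real.pi) * ρ⁻¹ ≤ ρ * g ρ := by
    intro ρ hρ
    have hρ0 : 0 < ρ := hr.trans_le hρ.1
    have hsub' : closedBall z₀ ρ ⊆ V := (closedBall_subset_closedBall hρ.2).trans hsub
    obtain ⟨a, ha, hda⟩ := exists_sphere hV hf hJ hsub' (f z')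
      (closedBall_subset_closedBall hρ.1 hz)
    obtain ⟨b, hb, hdb⟩ := exists_sphere hV hf hJ hsub' (f a)
      (closedBall_subset_closedBall hρ.1 hz')
    have h1 : d ≤ dist (f a) (f b) := by
      rw [dist_comm (f b) (f a), dist_comm (f z') (f a)] at hdb
      exact hda.trans hdb
    have h2 := dist_circle_le hV hf hρ0 hsub' ha hb
    have h3 : d ^ 2 ≤ 2 * Real.pi * (ρ ^ 2 * g ρ) := by
      refine le_trans ?_ h2
      have : 0 ≤ d := dist_nonneg
      gcongr
    rw [div_mul_eq_mul_div, div_le_iff₀ (by positivity), ← div_eq_mul_inv, div_le_iff₀ hρ0]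
    calc d ^ 2 ≤ 2 * Real.pi * (ρ ^ 2 * g ρ) := h3
      _ = ρ * g ρ * (2 * Real.pi) * ρ := by ring
  have hi1 : IntervalIntegrable (fun ρ => d ^ 2 / (2 * Real.pi) * ρ⁻¹) volume r R := by
    apply ContinuousOn.intervalIntegrable
    rw [uIcc_of_le hrR.le]
    apply continuousOn_const.mul
    apply continuousOn_id.inv₀
    intro x hx
    exact (hr.trans_le hx.1).ne'
  have h4 := intervalIntegral.integral_mono_on hrR.le hi1 hi2 hlow
  rw [intervalIntegral.integral_const_mul, integral_inv_of_pos hr hR] at h4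
  have h5 : d ^ 2 / (2 * Real.pi) * Real.log (R / r) ≤ M := h4.trans hpol
  rw [div_lt_iff₀ hlog] at hcon
  rw [div_mul_eq_mul_div, div_le_iff₀ (by positivity)] at h5
  linarith

end QC
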