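import Pool.Agent.Work.MP_217185_an.Wirt
import Pool.Agent.Work.MP_089002_mp.Dbar

/-! # CauB: the Cauchy transform of a test function

`Cau g z = (1/π) ∫ g (z - ζ) / ζ dζ` (translation and reflection), `1/ζ` is locally integrable
(polar coordinates, Mathlib `Complex.integral_comp_polarCoord_symm` / `integral_comp_polarCoord_symm`),
so `Cau g` is smooth, `dz (Cau g) = Cau (dz g)`, `dzb (Cau g) = Cau (dzb g)`
(`HasCompactSupport.contDiff_convolution_left`, `hasFDerivAt_convolution`...).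
Cauchy-Pompeiu `Cau (dzb g) = g`: with `F ζ = g (z - ζ)`, `ζ = r e^{iθ}`,
`∂F/∂ζ̄ = (e^{iθ}/2) (∂_r F + (i/r) ∂_θ F)`, so `∫ (∂F/∂ζ̄)/ζ = (1/2) ∫∫ (∂_r F + (i/r) ∂_θ F) dr dθ
= - π F 0`.
Decay: for `‖z‖ ≥ 2R` (support in the ball of radius `R`) `‖Cau g z‖ ≤ C/‖z‖`; for
`dz (Cau g) = Cau (dz g)` use `∫ dz g = 0`: `Cau (dz g) z = (1/π) ∫ dz g ζ (1/(z-ζ) - 1/z)`. -/

open MeasureTheory Complex Set Metric Filter
open scoped Topology ENNReal NNReal ContDiff ComplexConjugate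

namespace QC

/-- Cauchy-Pompeiu formula. -/
theorem cau_dzb {g : ℂ → ℂ} (hg : Test univ g) (z : ℂ) : Cau (dzb g) z = g z := by
  have h1 := Pool.Agent.Work.MP_089002_mp.cauchy_pompeiu (hg.smooth.of_le (by simp)) hg.cpt z
  rw [← h1]
  have hpi : (Real.pi : ℂ) ≠ 0 := by exact_mod_cast Real.pi_ne_zero
  unfold Cau
  rw [← integral_sub_left_eq_self (fun ζ => dzb g ζ / (z - ζ)) volume z, ← integral_const_mul]
  refine integral_congr_ae (Eventually.of_forall fun t => ?_)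
  simp only [sub_sub_cancel]
  unfold Pool.Agent.Work.MP_089002_mp.ker dzb
  rw [div_eq_mul_inv _ t]
  field_simp

end QC
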