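import Pool.Agent.Work.MP_217185_an.Wirt
import Pool.Agent.Work.MP_089002_mp.Dbar

/-! # CauA: the Cauchy transform of a test function

`Cau g z = (1/π) ∫ g (z - ζ) / ζ dζ` (translation and reflection), `1/ζ` is locally integrable
(polar coordinates, Mathlib `Complex.integral_comp_polarCoord_symm` / `integral_comp_polarCoord_symm`),
so `Cau g` is smooth, `dz (Cau g) = Cau (dz g)`, `dzb (Cau g) = Cau (dzb g)`
(`HasCompactSupport.contDiff_convolution_left`, `hasFDerivAt_convolution`...).
Cauchy-Pompeiu `Cau (dzb g) = g`: with `F ζ = g (z - ζ)`, `ζ = r e^{iθ}`,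
`∂F/∂ζ̄ = (e^{iθ}/2) (∂_r F + (i/r) ∂_θ F)`, so `∫ (∂F/∂ζ̄)/ζ = (1/2) ∫∫ (∂_r F + (i/r) ∂_θ F) dr dθ
= - π F 0`.
Decay: for `‖z‖ ≥ 2R` (support in the ball of radius `R`) `‖Cau g z‖ ≤ C/‖z‖`; for
`dz (Cau g) = Cau (dz g)` use `∫ dz g = 0`: `Cau (dz g) z = (1/π) ∫ dz g ζ (1/(z-ζ) - 1/z)`. -/

open MeasureTheory Complex Set Metric Filter
open scoped Topology ENNReal NNReal ContDiff ComplexConjugate

namespace QC

open Pool.Agent.Work.MP_089002_mp (locallyIntegrable_ker)

/-- the Cauchy kernel -/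
noncomputable abbrev cker : ℂ → ℂ := Pool.Agent.Work.MP_089002_mp.ker

/-- the Cauchy transform as an integral against the kernel -/
theorem cau_eq_ker (g : ℂ → ℂ) (z : ℂ) : Cau g z = ∫ t, 2 * (cker t * g (z - t)) := by
  have hpi : (Real.pi : ℂ) ≠ 0 := by exact_mod_cast Real.pi_ne_zero
  unfold Cau
  rw [← integral_sub_left_eq_self (fun ζ => g ζ / (z - ζ)) volume z, ← integral_const_mul]
  refine integral_congr_ae (Eventually.of_forall fun t => ?_)
  simp only [sub_sub_cancel]
  unfold cker Pool.Agent.Work.MP_089002_mp.ker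
  rw [div_eq_mul_inv]
  field_simp

theorem cau_eq_conv (g : ℂ → ℂ) (z : ℂ) :
    Cau g z = 2 * (MeasureTheory.convolution cker g (ContinuousLinearMap.mul ℝ ℂ) volume) z := by
  rw [cau_eq_ker, integral_const_mul]
  rfl

theorem cau_integrable {g : ℂ → ℂ} (hg : Continuous g) (hc : HasCompactSupport g) (z : ℂ) :
    Integrable (fun t => cker t * g (z - t)) :=
  hc.convolutionExists_right (ContinuousLinearMap.mul ℝ ℂ) locallyIntegrable_ker hg z

theorem cau_lin {f g : ℂ → ℂ} (hf : Continuous f) (hfc : HasCompactSupport f)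
    (hg : Continuous g) (hgc : HasCompactSupport g) (a b : ℂ) (z : ℂ) :
    Cau (fun z => a * f z + b * g z) z = a * Cau f z + b * Cau g z := by
  rw [cau_eq_ker, cau_eq_ker, cau_eq_ker, ← integral_const_mul, ← integral_const_mul,
    ← integral_add]
  · refine integral_congr_ae (Eventually.of_forall fun t => ?_)
    simp only
    ring
  · exact ((cau_integrable hf hfc z).const_mul 2).const_mul a
  · exact ((cau_integrable hg hgc z).const_mul 2).const_mul b

theorem cau_contDiff {g : ℂ → ℂ} (hg : Test univ g) : ContDiff ℝ ∞ (Cau g) := by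
  have h1 := hg.cpt.contDiff_convolution_right (ContinuousLinearMap.mul ℝ ℂ)
    locallyIntegrable_ker hg.smooth
  have h2 : Cau g = fun z =>
      2 * (MeasureTheory.convolution cker g (ContinuousLinearMap.mul ℝ ℂ) volume) z := by
    funext z
    exact cau_eq_conv g z
  rw [h2]
  exact contDiff_const.mul h1

theorem cau_fderiv {g : ℂ → ℂ} (hg : Test univ g) (z v : ℂ) :
    fderiv ℝ (Cau g) z v = Cau (fun w => fderiv ℝ g w v) z := by
  have h1 := hg.cpt.hasFDerivAt_convolution_right (ContinuousLinearMap.mul ℝ ℂ)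
    locallyIntegrable_ker (hg.smooth.of_le (by simp)) z
  have h2 : Cau g = fun z =>
      2 * (MeasureTheory.convolution cker g (ContinuousLinearMap.mul ℝ ℂ) volume) z := by
    funext z
    exact cau_eq_conv g z
  have hcd : HasCompactSupport (fderiv ℝ g) := hg.cpt.fderiv ℝ
  have hcont : Continuous (fderiv ℝ g) := hg.smooth.continuous_fderiv (by simp)
  have h3 := (h1.const_mul (2 : ℂ)).fderiv
  rw [h2, h3, _root_.smul_apply,
    convolution_precompR_apply (ContinuousLinearMap.mul ℝ ℂ) locallyIntegrable_ker hcd hcont,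
    cau_eq_conv]
  rfl

theorem dz_cau {g : ℂ → ℂ} (hg : Test univ g) (z : ℂ) :
    dz (Cau g) z = Cau (dz g) z ∧ dzb (Cau g) z = Cau (dzb g) z := by
  have hcont : Continuous (fderiv ℝ g) := hg.smooth.continuous_fderiv (by simp)
  have hcd : HasCompactSupport (fderiv ℝ g) := hg.cpt.fderiv ℝ
  have hd : ∀ v : ℂ, Continuous (fun w => fderiv ℝ g w v) := fun v =>
    hcont.clm_apply continuous_const
  have hs : ∀ v : ℂ, HasCompactSupport (fun w => fderiv ℝ g w v) := fun v =>
    hcd.comp_left (g := fun D : ℂ →L[ℝ] ℂ => D v) rfl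
  constructor
  · have h1 : dz g = fun w => (1 / 2 : ℂ) * fderiv ℝ g w 1 + (-I / 2) * fderiv ℝ g w I := by
      funext w
      unfold dz
      ring
    rw [h1, cau_lin (hd 1) (hs 1) (hd I) (hs I)]
    unfold dz
    rw [cau_fderiv hg, cau_fderiv hg]
    ring
  · have h1 : dzb g = fun w => (1 / 2 : ℂ) * fderiv ℝ g w 1 + (I / 2) * fderiv ℝ g w I := by
      funext w
      unfold dzb
      ring
    rw [h1, cau_lin (hd 1) (hs 1) (hd I) (hs I)]
    unfold dzb
    rw [cau_fderiv hg, cau_fderiv hg]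
    ring

end QC
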