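import Pool.Agent.Work.MP_217185_an.Wirt
import Pool.Agent.Work.MP_217185_an.CauA
import Pool.Agent.Work.MP_217185_an.CauB

/-! # CauC2: the Cauchy transform of a test function

`Cau g z = (1/π) ∫ g (z - ζ) / ζ dζ` (translation and reflection), `1/ζ` is locally integrable
(polar coordinates, Mathlib `Complex.integral_comp_polarCoord_symm` / `integral_comp_polarCoord_symm`),
so `Cau g` is smooth, `dz (Cau g) = Cau (dz g)`, `dzb (Cau g) = Cau (dzb g)`
(`HasCompactSupport.contDiff_convolution_left`, `hasFDerivAt_convolution`...).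
Cauchy-Pompeiu `Cau (dzb g) = g`: with `F ζ = g (z - ζ)`, `ζ = r e^{iθ}`,
`∂F/∂ζ̄ = (e^{iθ}/2) (∂_r F + (i/r) ∂_θ F)`, so `∫ (∂F/∂ζ̄)/ζ = (1/2) ∫∫ (∂_r F + (i/r) ∂_θ F) dr dθ
= - π F 0`.
Decay: for `‖z‖ ≥ 2R` (support in the ball of radius `R`) `‖Cau g z‖ ≤ C/‖z‖`; for
`dz (Cau g) = Cau (dz g)` use `∫ dz g = 0`: `Cau (dz g) z = (1/π) ∫ dz g ζ (1/(z-ζ) - 1/z)`. -/

open MeasureTheory Complex Set Metric Filter
open scoped Topology ENNReal NNReal ContDiff ComplexConjugate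

namespace QC

/-- The two Wirtinger derivatives of a test function have the same `L²` norm
(`∫ dz φ conj (dz φ) = ∫ dzb φ conj (dzb φ)` by two integrations by parts). -/
theorem integral_dz_dzb {φ ψ : ℂ → ℂ} (hφ : Test univ φ) (hψ : Test univ ψ) :
    ∫ z, dz φ z * conj (dz ψ z) = ∫ z, dzb φ z * conj (dzb ψ z) ∧
    ∫ z, dz φ z * dzb ψ z = ∫ z, dzb φ z * dz ψ z := by
  have hconj : ContDiff ℝ ∞ (fun z : ℂ => conj z) := by
    exact Complex.conjCLE.toContinuousLinearMap.contDiff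
  have h1 : ContDiff ℝ ∞ (dz ψ) := (contDiff_dz hψ.smooth).1
  have h2 : ContDiff ℝ ∞ (dzb ψ) := (contDiff_dz hψ.smooth).2
  have h1c : ContDiff ℝ ∞ (fun z => conj (dz ψ z)) := hconj.comp h1
  have h2c : ContDiff ℝ ∞ (fun z => conj (dzb ψ z)) := hconj.comp h2
  have hφ1 : ContDiff ℝ 1 φ := hφ.smooth.of_le (by simp)
  have hib : ∀ f : ℂ → ℂ, ContDiff ℝ ∞ f →
      ∫ z, f z * dz φ z = - ∫ z, dz f z * φ z ∧ ∫ z, f z * dzb φ z = - ∫ z, dzb f z * φ z :=
    fun f hf => integral_mul_dz isOpen_univ ((hf.of_le (by simp)).contDiffOn) hφ1 hφ.cpt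
      (subset_univ _)
  constructor
  · have e1 : ∫ z, dz φ z * conj (dz ψ z) = ∫ z, conj (dz ψ z) * dz φ z := by
      simp only [mul_comm]
    have e2 : ∫ z, dzb φ z * conj (dzb ψ z) = ∫ z, conj (dzb ψ z) * dzb φ z := by
      simp only [mul_comm]
    rw [e1, e2, (hib _ h1c).1, (hib _ h2c).2]
    congr 1
    refine integral_congr_ae (Eventually.of_forall fun z => ?_)
    simp only
    rw [(dz_conj (dz ψ) z).1, (dz_conj (dzb ψ) z).2, dz_dzb_comm hψ.smooth]
  · have e1 : ∫ z, dz φ z * dzb ψ z = ∫ z, dzb ψ z * dz φ z := by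
      simp only [mul_comm]
    have e2 : ∫ z, dzb φ z * dz ψ z = ∫ z, dz ψ z * dzb φ z := by
      simp only [mul_comm]
    rw [e1, e2, (hib _ h2).1, (hib _ h1).2]
    congr 1
    refine integral_congr_ae (Eventually.of_forall fun z => ?_)
    simp only
    rw [dz_dzb_comm hψ.smooth]

end QC
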