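import Pool.Agent.Work.MP_217185_an.Wirt
import Pool.Agent.Work.MP_217185_an.CauA
import Pool.Agent.Work.MP_217185_an.CauB

/-! # CauC1: the Cauchy transform of a test function

`Cau g z = (1/π) ∫ g (z - ζ) / ζ dζ` (translation and reflection), `1/ζ` is locally integrable
(polar coordinates, Mathlib `Complex.integral_comp_polarCoord_symm` / `integral_comp_polarCoord_symm`),
so `Cau g` is smooth, `dz (Cau g) = Cau (dz g)`, `dzb (Cau g) = Cau (dzb g)`
(`HasCompactSupport.contDiff_convolution_left`, `hasFDerivAt_convolution`...).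
Cauchy-Pompeiu `Cau (dzb g) = g`: with `F ζ = g (z - ζ)`, `ζ = r e^{iθ}`,
`∂F/∂ζ̄ = (e^{iθ}/2) (∂_r F + (i/r) ∂_θ F)`, so `∫ (∂F/∂ζ̄)/ζ = (1/2) ∫∫ (∂_r F + (i/r) ∂_θ F) dr dθ
= - π F 0`.
Decay: for `‖z‖ ≥ 2R` (support in the ball of radius `R`) `‖Cau g z‖ ≤ C/‖z‖`; for
`dz (Cau g) = Cau (dz g)` use `∫ dz g = 0`: `Cau (dz g) z = (1/π) ∫ dz g ζ (1/(z-ζ) - 1/z)`. -/

open MeasureTheory Complex Set Metric Filter
open scoped Topology ENNReal NNReal ContDiff ComplexConjugate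

namespace QC

/-- the support lies in a ball of radius at least one -/
private theorem exists_radius {g : ℂ → ℂ} (hc : HasCompactSupport g) :
    ∃ R : ℝ, 1 ≤ R ∧ ∀ z, R ≤ ‖z‖ → g z = 0 := by
  obtain ⟨R₁, hR₁⟩ := hc.isCompact.isBounded.subset_closedBall 0
  refine ⟨|R₁| + 1, by linarith [abs_nonneg R₁], fun z hz => ?_⟩
  refine image_eq_zero_of_notMem_tsupport fun h => ?_
  have h1 := hR₁ h
  rw [mem_closedBall_zero_iff] at h1
  have := le_abs_self R₁
  linarith

/-- bound of the Cauchy integral away from the support -/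
private theorem cau_far {g : ℂ → ℂ} (hg : Continuous g) (hc : HasCompactSupport g) {R : ℝ}
    (hR : 1 ≤ R) (hs : ∀ z, R ≤ ‖z‖ → g z = 0) {z : ℂ} (hz : 2 * R ≤ ‖z‖) :
    ‖Cau g z‖ ≤ (∫ ζ, ‖g ζ‖) * 2 / ‖z‖ := by
  have hpi := Real.pi_gt_three
  have hz0 : 0 < ‖z‖ := by linarith
  unfold Cau
  rw [norm_mul, norm_div, norm_one, Complex.norm_real, Real.norm_of_nonneg Real.pi_pos.le]
  have h1 : ‖∫ ζ, g ζ / (z - ζ)‖ ≤ ∫ ζ, ‖g ζ‖ * (2 / ‖z‖) := by
    refine norm_integral_le_of_norm_le ?_ (Eventually.of_forall fun ζ => ?_)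
    · exact ((hg.integrable_of_hasCompactSupport hc).norm).mul_const _
    · rw [norm_div, div_eq_mul_inv]
      by_cases hζ : R ≤ ‖ζ‖
      · rw [hs ζ hζ]
        simp
      · push Not at hζ
        refine mul_le_mul_of_nonneg_left ?_ (norm_nonneg _)
        have h2 : ‖z‖ / 2 ≤ ‖z - ζ‖ := by
          have := norm_sub_norm_le z ζ
          linarith
        rw [show (2 : ℝ) / ‖z‖ = (‖z‖ / 2)⁻¹ by rw [inv_div]]
        exact inv_anti₀ (by linarith) h2
  rw [integral_mul_const] at h1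
  have h3 : 0 ≤ ∫ ζ, ‖g ζ‖ := integral_nonneg fun _ => norm_nonneg _
  have h4 : 1 / Real.pi ≤ 1 := by
    rw [div_le_one Real.pi_pos]
    linarith
  calc 1 / Real.pi * ‖∫ ζ, g ζ / (z - ζ)‖ ≤ 1 * ‖∫ ζ, g ζ / (z - ζ)‖ :=
        mul_le_mul_of_nonneg_right h4 (norm_nonneg _)
    _ = ‖∫ ζ, g ζ / (z - ζ)‖ := one_mul _
    _ ≤ (∫ ζ, ‖g ζ‖) * (2 / ‖z‖) := h1
    _ = (∫ ζ, ‖g ζ‖) * 2 / ‖z‖ := by ring

/-- a continuous function that is small at infinity is bounded after multiplication by a power -/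
private theorem exists_bound {F : ℂ → ℂ} (hF : Continuous F) (k : ℕ) {R A : ℝ} (hR : 1 ≤ R)
    (hA : 0 ≤ A) (h : ∀ z, 2 * R ≤ ‖z‖ → ‖F z‖ ≤ A / ‖z‖ ^ k) :
    ∃ C : ℝ, ∀ z, ‖F z‖ * (1 + ‖z‖) ^ k ≤ C := by
  obtain ⟨C, hC⟩ := (isCompact_closedBall (0 : ℂ) (2 * R)).exists_bound_of_continuousOn
    (f := fun z => ‖F z‖ * (1 + ‖z‖) ^ k) (by fun_prop)
  refine ⟨max C (A * 2 ^ k), fun z => ?_⟩
  rcases le_total ‖z‖ (2 * R) with hz | hz
  · have := hC z (mem_closedBall_zero_iff.2 hz)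
    rw [Real.norm_eq_abs] at this
    exact ((le_abs_self _).trans this).trans (le_max_left _ _)
  · refine le_trans ?_ (le_max_right _ _)
    have hz0 : 0 < ‖z‖ := by linarith
    calc ‖F z‖ * (1 + ‖z‖) ^ k ≤ (A / ‖z‖ ^ k) * (2 * ‖z‖) ^ k := by
          refine mul_le_mul (h z hz) (pow_le_pow_left₀ (by positivity) (by linarith) k)
            (by positivity) (by positivity)
      _ = A * 2 ^ k := by
          rw [mul_pow]
          field_simp

theorem cau_bound {g : ℂ → ℂ} (hg : Test univ g) : ∃ C : ℝ, ∀ z, ‖Cau g z‖ * (1 + ‖z‖) ≤ C := by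
  obtain ⟨R, hR, hs⟩ := exists_radius hg.cpt
  obtain ⟨C, hC⟩ := exists_bound (cau_contDiff hg).continuous 1 hR
    (A := (∫ ζ, ‖g ζ‖) * 2) (mul_nonneg (integral_nonneg fun _ => norm_nonneg _) (by norm_num))
    (fun z hz => by
      rw [pow_one]
      exact cau_far hg.smooth.continuous hg.cpt hR hs hz)
  exact ⟨C, fun z => by simpa using hC z⟩

theorem dz_cau_bound {g : ℂ → ℂ} (hg : Test univ g) :
    ∃ C : ℝ, ∀ z, ‖dz (Cau g) z‖ * (1 + ‖z‖) ^ 2 ≤ C := by
  have hg1 : Test univ (dz g) := hg.dz.1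
  have h0 : ∫ z, dz g z = 0 := (integral_dz_eq_zero (hg.smooth.of_le (by simp)) hg.cpt).1
  obtain ⟨R, hR, hs⟩ := exists_radius hg1.cpt
  have hgi : Integrable (dz g) := hg1.smooth.continuous.integrable_of_hasCompactSupport hg1.cpt
  set g' : ℂ → ℂ := fun z => dz g z * z with hg'
  have hg'c : Continuous g' := hg1.smooth.continuous.mul continuous_id
  have hg's : HasCompactSupport g' := hg1.cpt.mul_right
  have hpt : ∀ z, 2 * R ≤ ‖z‖ → Cau (dz g) z = Cau g' z / z := by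
    intro z hz
    have hz0 : z ≠ 0 := by
      rintro rfl
      rw [norm_zero] at hz
      linarith
    have e1 : ∀ ζ, dz g ζ / (z - ζ) = dz g ζ * (1 / z) + (g' ζ / (z - ζ)) * (1 / z) := by
      intro ζ
      by_cases hζ : R ≤ ‖ζ‖
      · simp only [hg', hs ζ hζ]
        simp
      · push Not at hζ
        have h1 : z - ζ ≠ 0 := by
          intro h
          have h2 : ‖z‖ = ‖ζ‖ := by rw [sub_eq_zero.1 h]
          linarith
        simp only [hg']
        field_simp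
        ring
    have hi : Integrable (fun ζ => g' ζ / (z - ζ)) := by
      have h1 := cau_integrable hg'c hg's z
      have h2 : Integrable (fun ζ => cker (z - ζ) * g' ζ) := by
        have := h1.comp_sub_left z
        simpa using this
      have h3 := h2.const_mul (2 * Real.pi : ℂ)
      refine h3.congr (Eventually.of_forall fun ζ => ?_)
      simp only
      unfold cker Pool.Agent.Work.MP_089002_mp.ker
      have hpi : (Real.pi : ℂ) ≠ 0 := by exact_mod_cast Real.pi_ne_zero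
      rw [div_eq_mul_inv]
      field_simp
    unfold Cau
    rw [integral_congr_ae (Eventually.of_forall e1), integral_add (hgi.mul_const _)
      (hi.mul_const _), integral_mul_const, integral_mul_const, h0]
    ring
  obtain ⟨C, hC⟩ := exists_bound (F := dz (Cau g)) (contDiff_dz (cau_contDiff hg)).1.continuous 2 hR
    (A := (∫ ζ, ‖g' ζ‖) * 2) (mul_nonneg (integral_nonneg fun _ => norm_nonneg _) (by norm_num))
    (fun z hz => by
      have hz0 : 0 < ‖z‖ := by linarith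
      rw [(dz_cau hg z).1, hpt z hz, norm_div]
      have h1 := cau_far hg'c hg's hR (fun z hz => by simp [hg', hs z hz]) hz
      calc ‖Cau g' z‖ / ‖z‖ ≤ ((∫ ζ, ‖g' ζ‖) * 2 / ‖z‖) / ‖z‖ :=
            div_le_div_of_nonneg_right h1 hz0.le
        _ = (∫ ζ, ‖g' ζ‖) * 2 / ‖z‖ ^ 2 := by
            rw [div_div, sq])
  exact ⟨C, hC⟩

theorem cau_sub {g g' : ℂ → ℂ} (hg : Test univ g) (hg' : Test univ g') (z : ℂ) :
    Cau (fun z => g z - g' z) z = Cau g z - Cau g' z := by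
  have h1 := cau_lin hg.smooth.continuous hg.cpt hg'.smooth.continuous hg'.cpt 1 (-1) z
  have h2 : (fun z => g z - g' z) = fun z => 1 * g z + (-1) * g' z := by
    funext z
    ring
  rw [h2, h1]
  ring

end QC
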