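import Pool.Agent.Work.MP_217185_an.Solve
import Pool.Agent.Work.MP_217185_an.Weyl
import Pool.Agent.Work.MP_217185_an.WDb

/-! # CauL2a: the Cauchy transform of a compactly supported `L²` function

Take test functions `F n → h` in `L²` supported in the ball of radius `R + 1`
(`exists_test_L2_supp`).  On every ball `B`, `∫_B ‖Cau h - Cau (F n)‖ ≤ (1/π) ∫ ‖h - F n‖(ζ)
(∫_B |z - ζ|⁻¹ dz) dζ → 0`, so `Cau h` is locally integrable and is the `L¹_loc` limit of
`Cau (F n)`; `dzb (Cau (F n)) = F n → h`, `dz (Cau (F n)) = T (F n) → T h` in `L²`.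
Outside the support differentiate under the integral.  `z Cau h z - (1/π) ∫ h =
(1/π) ∫ h ζ ζ/(z-ζ) → 0`. -/

open MeasureTheory Complex Set Metric Filter
open scoped Topology ENNReal NNReal ContDiff ComplexConjugate

namespace QC

variable {R : ℝ} {h : ℂ → ℂ}

private theorem integrable_supp (hh : MemLp h 2 (volume : Measure ℂ)) (hs : SuppIn R h) :
    Integrable h := by
  have : IsFiniteMeasure ((volume : Measure ℂ).restrict (ball (0 : ℂ) R)) :=
    ⟨by rw [Measure.restrict_apply_univ]; exact measure_ball_lt_top⟩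
  have h1 : IntegrableOn h (ball (0 : ℂ) R) := (hh.restrict _).integrable (by norm_num)
  refine (integrableOn_iff_integrable_of_support_subset ?_).1 h1
  intro z hz
  rw [mem_ball_zero_iff]
  by_contra hcon
  exact hz (hs z (not_lt.1 hcon))

/-- the kernel restricted to a ball -/
private noncomputable def kk (r : ℝ) : ℂ → ℂ :=
  indicator (ball (0 : ℂ) r) (fun w => 2 * cker w)

private theorem kk_integrable (r : ℝ) : Integrable (kk r) := by
  unfold kk
  rw [integrable_indicator_iff measurableSet_ball]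
  exact (Pool.Agent.Work.MP_089002_mp.integrableOn_ker r).const_mul 2

private theorem kk_of_lt {r : ℝ} {w : ℂ} (hw : ‖w‖ < r) : kk r w = (1 / (Real.pi : ℂ)) * w⁻¹ := by
  unfold kk
  rw [indicator_of_mem (by simpa using hw)]
  unfold cker Pool.Agent.Work.MP_089002_mp.ker
  have hpi : (Real.pi : ℂ) ≠ 0 := by exact_mod_cast Real.pi_ne_zero
  field_simp

private theorem cau_eq_kk (hs : SuppIn R h) {ρ : ℝ} {z : ℂ} (hz : ‖z‖ < ρ) :
    Cau h z = ∫ ζ, h ζ * kk (ρ + R) (z - ζ) := by
  unfold Cau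
  rw [← integral_const_mul]
  refine integral_congr_ae (Eventually.of_forall fun ζ => ?_)
  simp only
  by_cases hζ : R ≤ ‖ζ‖
  · rw [hs ζ hζ]
    simp
  · push Not at hζ
    have h1 : ‖z - ζ‖ < ρ + R := (norm_sub_le z ζ).trans_lt (add_lt_add hz hζ)
    rw [kk_of_lt h1]
    ring

private theorem prod_integrable (hi : Integrable h) (r : ℝ) :
    Integrable (fun p : ℂ × ℂ => h p.2 * kk r (p.1 - p.2)) (volume.prod volume) :=
  Integrable.convolution_integrand (ContinuousLinearMap.mul ℝ ℂ) hi (kk_integrable r)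

/-- Fubini and antisymmetry of the kernel. -/
theorem cau_fubini (hi : Integrable h) (hs : SuppIn R h) {ψ : ℂ → ℂ} (hψ : Continuous ψ)
    (hψc : HasCompactSupport ψ) :
    ∫ z, Cau h z * ψ z = - ∫ z, h z * Cau ψ z := by
  obtain ⟨ρ₁, hρ₁⟩ := hψc.isCompact.isBounded.subset_closedBall 0
  set ρ : ℝ := ρ₁ + 1 with hρ
  have hψ0 : ∀ z, ρ ≤ ‖z‖ → ψ z = 0 := by
    intro z hz
    refine image_eq_zero_of_notMem_tsupport fun h1 => ?_
    have h2 := hρ₁ h1
    rw [mem_closedBall_zero_iff] at h2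
    linarith
  obtain ⟨C, hC⟩ := hψc.exists_bound_of_continuous hψ
  have hF : Integrable (fun p : ℂ × ℂ => h p.2 * kk (ρ + R) (p.1 - p.2) * ψ p.1)
      (volume.prod volume) := by
    refine (prod_integrable hi (ρ + R)).mul_bdd (c := C) ?_ (Eventually.of_forall fun p => hC p.1)
    exact (hψ.comp continuous_fst).aestronglyMeasurable
  have e1 : ∫ z, Cau h z * ψ z = ∫ z, ∫ ζ, h ζ * kk (ρ + R) (z - ζ) * ψ z := by
    refine integral_congr_ae (Eventually.of_forall fun z => ?_)
    simp only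
    by_cases hz : ρ ≤ ‖z‖
    · rw [hψ0 z hz]
      simp
    · push Not at hz
      rw [cau_eq_kk hs hz, integral_mul_const]
  have e2 : ∫ z, ∫ ζ, h ζ * kk (ρ + R) (z - ζ) * ψ z = ∫ ζ, ∫ z, h ζ * kk (ρ + R) (z - ζ) * ψ z :=
    integral_integral_swap (f := fun z ζ => h ζ * kk (ρ + R) (z - ζ) * ψ z) hF
  rw [e1, e2, ← integral_neg]
  refine integral_congr_ae (Eventually.of_forall fun ζ => ?_)
  simp only
  by_cases hζ : R ≤ ‖ζ‖
  · rw [hs ζ hζ]
    simp
  · push Not at hζ
    unfold Cau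
    rw [← integral_const_mul, ← integral_const_mul, ← integral_neg]
    refine integral_congr_ae (Eventually.of_forall fun z => ?_)
    simp only
    by_cases hz : ρ ≤ ‖z‖
    · rw [hψ0 z hz]
      simp
    · push Not at hz
      have h1 : ‖z - ζ‖ < ρ + R := (norm_sub_le z ζ).trans_lt (add_lt_add hz hζ)
      rw [kk_of_lt h1, ← neg_sub z ζ, div_neg, div_eq_mul_inv (ψ z)]
      ring

private theorem cau_locInt (hi : Integrable h) (hs : SuppIn R h) :
    LocallyIntegrable (Cau h) (volume : Measure ℂ) := by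
  intro z
  refine ⟨ball 0 (‖z‖ + 1), isOpen_ball.mem_nhds (by simp), ?_⟩
  have h1 : Integrable (fun z => ∫ ζ, h ζ * kk (‖z‖ + 1 + R) (z - ζ)) ∨ True := Or.inr trivial
  clear h1
  have h2 := (prod_integrable hi (‖z‖ + 1 + R)).integral_prod_left
  refine (h2.integrableOn (s := ball (0 : ℂ) (‖z‖ + 1))).congr_fun ?_ measurableSet_ball
  intro w hw
  rw [mem_ball_zero_iff] at hw
  simp only
  rw [cau_eq_kk hs hw]

theorem cau_WD (hh : MemLp h 2 (volume : Measure ℂ)) (hs : SuppIn R h) :
    WD univ (Cau h) (Tf h) h := by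
  have hi := integrable_supp hh hs
  refine ⟨(cau_locInt hi hs).locallyIntegrableOn _, fun K _ _ => (memLp_Tf hh).restrict _,
    fun K _ _ => hh.restrict _, fun φ hφ => ?_, fun φ hφ => ?_⟩
  · have h1 : Test univ (dz φ) := hφ.dz.1
    rw [cau_fubini hi hs h1.smooth.continuous h1.cpt]
    congr 1
    have h2 : ∫ z, h z * Cau (dz φ) z = ∫ z, h z * Tf φ z := by
      refine integral_congr_ae ?_
      filter_upwards [Tf_cau hφ] with z hz
      rw [hz, (dz_cau hφ z).1]
    rw [h2, Tf_symm hh hφ.memLp]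
  · have h1 : Test univ (dzb φ) := hφ.dz.2
    rw [cau_fubini hi hs h1.smooth.continuous h1.cpt]
    congr 1
    refine integral_congr_ae (Eventually.of_forall fun z => ?_)
    simp only
    rw [cau_dzb hφ]

end QC
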