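import Pool.Agent.Work.MP_217185_an.Factor

/-! # Chain: the chain rule `f ∘ w⁻¹`

With `J = ‖a‖² - ‖b‖² > 0` a.e. put `d' = [(d a - c b)/J] ∘ w.symm`, `c' = [(c conj a - d conj b)/J] ∘
w.symm`.  By `Approx.weak` and the change of variables `Approx.lintegral` (for integrals)
`∫ f(w.symm y) dzb φ = ∫ (φ∘w) (c b - d a) = - ∫ d' φ`, same for `dz`.  Locally square integrable:
`∫_{w(K)} ‖d'‖² = ∫_K ‖d a - c b‖²/J ≤ ∫_K (‖d‖‖a‖ + ‖c‖‖b‖)²/((1-k²)‖a‖²)`.  -/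

open MeasureTheory Complex Set Metric Filter
open scoped Topology ENNReal NNReal ContDiff ComplexConjugate

namespace QC

variable {k : ℝ} {w : ℂ ≃ₜ ℂ} {a b : ℂ → ℂ}

private theorem chain_lif {U : Set ℂ} (hU : IsOpen U) {a : ℂ → ℂ} (h : L2loc U a) :
    LocallyIntegrableOn a U := by
  rw [locallyIntegrableOn_iff hU.isLocallyClosed]
  intro K hK hKc
  have : IsFiniteMeasure (volume.restrict K) := ⟨by simpa using hKc.measure_lt_top⟩
  exact (h K hK hKc).integrable (by norm_num)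

private theorem chain_map (h : Approx k w a b) :
    Measure.map w.symm volume =
      volume.withDensity (fun z => ENNReal.ofReal (‖a z‖ ^ 2 - ‖b z‖ ^ 2)) := by
  ext E hE
  rw [Measure.map_apply w.symm.continuous.measurable hE, withDensity_apply _ hE, ← h.area hE]
  congr 1
  exact (w.image_eq_preimage_symm E).symm

private theorem chain_J_nonneg (h : Approx k w a b) : ∀ᵐ z, 0 ≤ ‖a z‖ ^ 2 - ‖b z‖ ^ 2 := by
  filter_upwards [h.le] with z hz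
  have h1 : k * ‖a z‖ ≤ 1 * ‖a z‖ := mul_le_mul_of_nonneg_right h.lt.le (norm_nonneg _)
  have h2 := norm_nonneg (b z)
  nlinarith

private theorem chain_cov (h : Approx k w a b) (G : ℂ → ℂ) :
    ∫ y, G (w.symm y) = ∫ z, ((‖a z‖ ^ 2 - ‖b z‖ ^ 2 : ℝ) : ℂ) * G z := by
  have hm : Measurable (fun z => ENNReal.ofReal (‖a z‖ ^ 2 - ‖b z‖ ^ 2)) :=
    ((h.meas_a.norm.pow_const 2).sub (h.meas_b.norm.pow_const 2)).ennreal_ofReal
  have h1 : ∫ y, G (w.symm y) = ∫ z, G z ∂(Measure.map w.symm volume) :=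
    (w.symm.measurableEmbedding.integral_map G).symm
  rw [h1, chain_map h, integral_withDensity_eq_integral_toReal_smul hm
    (Eventually.of_forall fun z => ENNReal.ofReal_lt_top)]
  refine integral_congr_ae ?_
  filter_upwards [chain_J_nonneg h] with z hz
  rw [ENNReal.toReal_ofReal hz, Complex.real_smul]

/-- the pointwise bound -/
private theorem chain_pt {k : ℝ} {a b c d x : ℂ} (hk0 : 0 ≤ k) (hk : k < 1) (hb : ‖b‖ ≤ k * ‖a‖)
    (ha : a ≠ 0) (hx : ‖x‖ ≤ ‖a‖ * (‖c‖ + ‖d‖)) :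
    ‖x / ((‖a‖ ^ 2 - ‖b‖ ^ 2 : ℝ) : ℂ)‖ ^ 2 * (‖a‖ ^ 2 - ‖b‖ ^ 2) ≤
      2 / (1 - k ^ 2) * (‖c‖ ^ 2 + ‖d‖ ^ 2) := by
  have ha' : 0 < ‖a‖ := norm_pos_iff.2 ha
  have hk2 : 0 < 1 - k ^ 2 := by nlinarith
  have hb2 : ‖b‖ ^ 2 ≤ (k * ‖a‖) ^ 2 := pow_le_pow_left₀ (norm_nonneg _) hb 2
  have hJ : (1 - k ^ 2) * ‖a‖ ^ 2 ≤ ‖a‖ ^ 2 - ‖b‖ ^ 2 := by nlinarith
  have hJ0 : 0 < ‖a‖ ^ 2 - ‖b‖ ^ 2 := lt_of_lt_of_le (by positivity) hJ
  rw [norm_div, Complex.norm_real, Real.norm_of_nonneg hJ0.le, div_pow]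
  have e1 : ‖x‖ ^ 2 / (‖a‖ ^ 2 - ‖b‖ ^ 2) ^ 2 * (‖a‖ ^ 2 - ‖b‖ ^ 2) =
      ‖x‖ ^ 2 / (‖a‖ ^ 2 - ‖b‖ ^ 2) := by
    field_simp
  rw [e1]
  have h1 : ‖x‖ ^ 2 ≤ (‖a‖ * (‖c‖ + ‖d‖)) ^ 2 := pow_le_pow_left₀ (norm_nonneg _) hx 2
  have h2 : (‖c‖ + ‖d‖) ^ 2 ≤ 2 * (‖c‖ ^ 2 + ‖d‖ ^ 2) := by nlinarith [sq_nonneg (‖c‖ - ‖d‖)]
  rw [div_le_iff₀ hJ0]
  calc ‖x‖ ^ 2 ≤ (‖a‖ * (‖c‖ + ‖d‖)) ^ 2 := h1
    _ = ‖a‖ ^ 2 * (‖c‖ + ‖d‖) ^ 2 := by ring
    _ ≤ ‖a‖ ^ 2 * (2 * (‖c‖ ^ 2 + ‖d‖ ^ 2)) := mul_le_mul_of_nonneg_left h2 (by positivity)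
    _ = 2 / (1 - k ^ 2) * (‖c‖ ^ 2 + ‖d‖ ^ 2) * ((1 - k ^ 2) * ‖a‖ ^ 2) := by
        field_simp
    _ ≤ 2 / (1 - k ^ 2) * (‖c‖ ^ 2 + ‖d‖ ^ 2) * (‖a‖ ^ 2 - ‖b‖ ^ 2) :=
        mul_le_mul_of_nonneg_left hJ (by positivity)

/-- local square integrability -/
private theorem chain_L2 (h : Approx k w a b) (hk0 : 0 ≤ k) {U : Set ℂ} {c d x : ℂ → ℂ}
    (hxm : Measurable x) (hc : L2loc U c) (hd : L2loc U d)
    (hx : ∀ᵐ z ∂(volume.restrict U), ‖x z‖ ≤ ‖a z‖ * (‖c z‖ + ‖d z‖)) :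
    L2loc (w '' U) (fun y => (fun z => x z / ((‖a z‖ ^ 2 - ‖b z‖ ^ 2 : ℝ) : ℂ)) (w.symm y)) := by
  intro K hKU hKc
  set q : ℂ → ℂ := fun z => x z / ((‖a z‖ ^ 2 - ‖b z‖ ^ 2 : ℝ) : ℂ) with hq
  have hqm : Measurable q := by
    refine hxm.div ?_
    exact Complex.measurable_ofReal.comp
      ((h.meas_a.norm.pow_const 2).sub (h.meas_b.norm.pow_const 2))
  have hqm' : Measurable (fun y => q (w.symm y)) := hqm.comp w.symm.continuous.measurable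
  -- the compact set below
  set L := w.symm '' K with hL
  have hLc : IsCompact L := hKc.image w.symm.continuous
  have hLU : L ⊆ U := by
    rintro _ ⟨y, hy, rfl⟩
    obtain ⟨x, hx, hxy⟩ := hKU hy
    rw [← hxy, w.symm_apply_apply]
    exact hx
  have hwL : w '' L = K := by
    rw [hL, ← image_comp]
    simp
  rw [memLp_two_iff_integrable_sq_norm hqm'.aestronglyMeasurable]
  refine ⟨(hqm'.norm.pow_const 2).aestronglyMeasurable, ?_⟩
  rw [hasFiniteIntegral_iff_ofReal (Eventually.of_forall fun y => by positivity)]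
  have h1 := h.lintegral hLc.measurableSet
    (u := fun y => ENNReal.ofReal (‖q (w.symm y)‖ ^ 2)) (hqm'.norm.pow_const 2).ennreal_ofReal
  rw [hwL] at h1
  rw [h1]
  simp only [w.symm_apply_apply]
  have hcL := (memLp_two_iff_integrable_sq_norm (hc L hLU hLc).1).1 (hc L hLU hLc)
  have hdL := (memLp_two_iff_integrable_sq_norm (hd L hLU hLc).1).1 (hd L hLU hLc)
  have hint : Integrable (fun z => 2 / (1 - k ^ 2) * (‖c z‖ ^ 2 + ‖d z‖ ^ 2))
      (volume.restrict L) := (hcL.add hdL).const_mul _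
  refine lt_of_le_of_lt (lintegral_mono_ae (g := fun z =>
    ENNReal.ofReal (2 / (1 - k ^ 2) * (‖c z‖ ^ 2 + ‖d z‖ ^ 2))) ?_) ?_
  · have hx' := ae_mono (Measure.restrict_mono hLU le_rfl) hx
    filter_upwards [hx', ae_restrict_of_ae h.le, ae_restrict_of_ae h.ne_zero] with z hz1 hz2 hz3
    rw [← ENNReal.ofReal_mul (by positivity)]
    exact ENNReal.ofReal_le_ofReal (chain_pt hk0 h.lt hz2 hz3 hz1)
  · have h2 := hint.2
    rw [hasFiniteIntegral_iff_ofReal] at h2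
    · exact h2
    · have hk2 : 0 < 1 - k ^ 2 := by nlinarith [h.lt]
      exact Eventually.of_forall fun y => by positivity

theorem chain (h : Approx k w a b) {U : Set ℂ} (hU : IsOpen U) {f c d : ℂ → ℂ}
    (hf : ContinuousOn f U) (hWD : WD U f c d) :
    ∃ c' d', WD (w '' U) (fun y => f (w.symm y)) c' d' ∧
      ∀ᵐ z ∂(volume.restrict U),
        c' (w z) * ((‖a z‖ ^ 2 - ‖b z‖ ^ 2 : ℝ) : ℂ) = c z * conj (a z) - d z * conj (b z) ∧
        d' (w z) * ((‖a z‖ ^ 2 - ‖b z‖ ^ 2 : ℝ) : ℂ) = d z * a z - c z * b z := by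
  have hk0 : 0 ≤ k := by
    obtain ⟨z, hz1, hz2⟩ := (h.le.and h.ne_zero).exists
    have h1 : 0 < ‖a z‖ := norm_pos_iff.2 hz2
    by_contra hcon
    push Not at hcon
    have := norm_nonneg (b z)
    nlinarith
  have hcm : AEStronglyMeasurable c (volume.restrict U) :=
    (chain_lif hU hWD.la).aestronglyMeasurable
  have hdm : AEStronglyMeasurable d (volume.restrict U) :=
    (chain_lif hU hWD.lb).aestronglyMeasurable
  set c₁ := hcm.mk c with hc₁d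
  set d₁ := hdm.mk d with hd₁d
  have hc₁m : Measurable c₁ := hcm.stronglyMeasurable_mk.measurable
  have hd₁m : Measurable d₁ := hdm.stronglyMeasurable_mk.measurable
  have hc₁ : c =ᵐ[volume.restrict U] c₁ := hcm.ae_eq_mk
  have hd₁ : d =ᵐ[volume.restrict U] d₁ := hdm.ae_eq_mk
  have hcm2 : Measurable (fun z => conj (a z)) := Complex.continuous_conj.measurable.comp h.meas_a
  have hcm3 : Measurable (fun z => conj (b z)) := Complex.continuous_conj.measurable.comp h.meas_b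
  set X : ℂ → ℂ := fun z => c₁ z * conj (a z) - d₁ z * conj (b z) with hX
  set Y : ℂ → ℂ := fun z => d₁ z * a z - c₁ z * b z with hY
  have hXm : Measurable X := (hc₁m.mul hcm2).sub (hd₁m.mul hcm3)
  have hYm : Measurable Y := (hd₁m.mul h.meas_a).sub (hc₁m.mul h.meas_b)
  have hba : ∀ᵐ z, ‖b z‖ ≤ ‖a z‖ := by
    filter_upwards [h.le] with z hz
    have h1 : k * ‖a z‖ ≤ 1 * ‖a z‖ := mul_le_mul_of_nonneg_right h.lt.le (norm_nonneg _)
    linarith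
  have hXb : ∀ᵐ z ∂(volume.restrict U), ‖X z‖ ≤ ‖a z‖ * (‖c z‖ + ‖d z‖) := by
    filter_upwards [hc₁, hd₁, ae_restrict_of_ae hba] with z h1 h2 h3
    simp only [hX]
    rw [← h1, ← h2]
    refine (norm_sub_le _ _).trans ?_
    rw [norm_mul, norm_mul, Complex.norm_conj, Complex.norm_conj]
    nlinarith [norm_nonneg (c z), norm_nonneg (d z)]
  have hYb : ∀ᵐ z ∂(volume.restrict U), ‖Y z‖ ≤ ‖a z‖ * (‖c z‖ + ‖d z‖) := by
    filter_upwards [hc₁, hd₁, ae_restrict_of_ae hba] with z h1 h2 h3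
    simp only [hY]
    rw [← h1, ← h2]
    refine (norm_sub_le _ _).trans ?_
    rw [norm_mul, norm_mul]
    nlinarith [norm_nonneg (c z), norm_nonneg (d z)]
  set ct : ℂ → ℂ := fun z => X z / ((‖a z‖ ^ 2 - ‖b z‖ ^ 2 : ℝ) : ℂ) with hct
  set dt : ℂ → ℂ := fun z => Y z / ((‖a z‖ ^ 2 - ‖b z‖ ^ 2 : ℝ) : ℂ) with hdt
  have hJpos : ∀ᵐ z, 0 < ‖a z‖ ^ 2 - ‖b z‖ ^ 2 := by
    filter_upwards [h.le, h.ne_zero] with z h1 h2
    have h3 : 0 < ‖a z‖ := norm_pos_iff.2 h2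
    have h4 : ‖b z‖ < ‖a z‖ := lt_of_le_of_lt h1 (by nlinarith [h.lt])
    have h5 := norm_nonneg (b z)
    nlinarith
  -- support
  have hsupp : ∀ φ, Test (w '' U) φ → ∀ z, z ∉ U → φ (w z) = 0 := by
    intro φ hφ z hz
    by_contra hne
    obtain ⟨x, hx, hxz⟩ := hφ.sub (subset_tsupport φ hne)
    exact hz (w.injective hxz ▸ hx)
  have hint : ∀ (Z Z' : ℂ → ℂ) (φ : ℂ → ℂ), Test (w '' U) φ →
      (∀ᵐ z ∂(volume.restrict U), Z z = Z' z) →
      ∫ y, (fun z => Z z / ((‖a z‖ ^ 2 - ‖b z‖ ^ 2 : ℝ) : ℂ)) (w.symm y) * φ y =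
        ∫ z, φ (w z) * Z' z := by
    intro Z Z' φ hφ hZ
    have h1 := chain_cov h (fun z => Z z / ((‖a z‖ ^ 2 - ‖b z‖ ^ 2 : ℝ) : ℂ) * φ (w z))
    simp only [w.apply_symm_apply] at h1
    refine h1.trans ?_
    refine integral_congr_ae ?_
    have hZ' := (ae_restrict_iff' hU.measurableSet).1 hZ
    filter_upwards [hJpos, hZ'] with z hz1 hz2
    have hne : ((‖a z‖ ^ 2 - ‖b z‖ ^ 2 : ℝ) : ℂ) ≠ 0 := by
      exact_mod_cast hz1.ne'
    by_cases hzU : z ∈ U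
    · rw [hz2 hzU]
      generalize ((‖a z‖ ^ 2 - ‖b z‖ ^ 2 : ℝ) : ℂ) = j at hne
      field_simp
    · rw [hsupp φ hφ z hzU, mul_zero, mul_zero, zero_mul]
  refine ⟨fun y => ct (w.symm y), fun y => dt (w.symm y), ⟨?_, ?_, ?_, ?_, ?_⟩, ?_⟩
  · refine ContinuousOn.locallyIntegrableOn ?_ (w.isOpenMap U hU).measurableSet
    refine hf.comp w.symm.continuous.continuousOn ?_
    rintro _ ⟨x, hx, rfl⟩
    rw [w.symm_apply_apply]
    exact hx
  · exact chain_L2 h hk0 hXm hWD.la hWD.lb hXb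
  · exact chain_L2 h hk0 hYm hWD.la hWD.lb hYb
  · intro φ hφ
    rw [(h.weak hU hf hWD hφ).2]
    have h1 := hint X (fun z => c z * conj (a z) - d z * conj (b z)) φ hφ (by
      filter_upwards [hc₁, hd₁] with z h1 h2
      simp only [hX]
      rw [← h1, ← h2])
    have h2 : ∫ y, (fun y => ct (w.symm y)) y * φ y =
        ∫ z, φ (w z) * (c z * conj (a z) - d z * conj (b z)) := h1
    rw [h2, ← integral_neg]
    refine integral_congr_ae (Eventually.of_forall fun z => ?_)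
    show φ (w z) * (d z * conj (b z) - c z * conj (a z)) =
      -(φ (w z) * (c z * conj (a z) - d z * conj (b z)))
    ring
  · intro φ hφ
    rw [(h.weak hU hf hWD hφ).1]
    have h1 := hint Y (fun z => d z * a z - c z * b z) φ hφ (by
      filter_upwards [hc₁, hd₁] with z h1 h2
      simp only [hY]
      rw [← h1, ← h2])
    have h2 : ∫ y, (fun y => dt (w.symm y)) y * φ y =
        ∫ z, φ (w z) * (d z * a z - c z * b z) := h1
    rw [h2, ← integral_neg]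
    refine integral_congr_ae (Eventually.of_forall fun z => ?_)
    show φ (w z) * (c z * b z - d z * a z) = -(φ (w z) * (d z * a z - c z * b z))
    ring
  · filter_upwards [hc₁, hd₁, ae_restrict_of_ae hJpos] with z h1 h2 h3
    have hne : ((‖a z‖ ^ 2 - ‖b z‖ ^ 2 : ℝ) : ℂ) ≠ 0 := by
      exact_mod_cast h3.ne'
    simp only [hct, hdt, hX, hY, w.symm_apply_apply]
    rw [← h1, ← h2]
    exact ⟨div_mul_cancel₀ _ hne, div_mul_cancel₀ _ hne⟩

end QC
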