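import Pool.Agent.Work.MP_217185_an.EqvInv
import Pool.Agent.Work.MP_217185_an.BHolo

/-! # CoefDef: the coefficient of `F ∘ H⁻¹` as a function of the coefficient of `F`

`coefC_isQC`: `IsQC.comp_inv` and `IsQC.congr` (`ext H` preserves null sets).
`coefC_udiff`: for `u, u' ` in the disc of radius `k`, `v` in that of radius `k'`,
`f(u) = (u - v)/(1 - u conj v)`: `f(u') - f(u) - (1-‖v‖²)/(1-u conj v)² (u' - u)` is
`O(‖u' - u‖²)` uniformly.
`coefC_L2`: `‖(m - ν)/(1 - m conj ν)‖² ≤ 2(‖m‖² + ‖ν‖²)/(1 - k k')²` and `NiceJ.lintegral_le`. -/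

open MeasureTheory Complex Set Metric Filter
open scoped Topology ENNReal NNReal ContDiff ComplexConjugate

noncomputable section

namespace QC

open Classical in
/-- coefficient of `F ∘ H⁻¹`, `F` with coefficient `m`, `H` with coefficient `ν`, `s = ∂H`. -/
def coefC (H : CD ≃ₜ CD) (s ν m : ℂ → ℂ) (ζ : ℂ) : ℂ :=
  if ‖ζ‖ < 1 then
    (m (ext H.symm ζ) - ν (ext H.symm ζ)) / (1 - m (ext H.symm ζ) * conj (ν (ext H.symm ζ))) *
      (s (ext H.symm ζ) / conj (s (ext H.symm ζ)))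
  else 0

variable {k k' : ℝ} {F H : CD ≃ₜ CD} {s t ν m : ℂ → ℂ}

end QC

end
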