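import Pool.Agent.Work.MP_217185_an.EqvInv
import Pool.Agent.Work.MP_217185_an.BHolo
import Pool.Agent.Work.MP_217185_an.CoefDef

/-! # CoefA: the coefficient of `F ∘ H⁻¹` as a function of the coefficient of `F`

`coefC_isQC`: `IsQC.comp_inv` and `IsQC.congr` (`ext H` preserves null sets).
`coefC_udiff`: for `u, u' ` in the disc of radius `k`, `v` in that of radius `k'`,
`f(u) = (u - v)/(1 - u conj v)`: `f(u') - f(u) - (1-‖v‖²)/(1-u conj v)² (u' - u)` is
`O(‖u' - u‖²)` uniformly.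
`coefC_L2`: `‖(m - ν)/(1 - m conj ν)‖² ≤ 2(‖m‖² + ‖ν‖²)/(1 - k k')²` and `NiceJ.lintegral_le`. -/

open MeasureTheory Complex Set Metric Filter
open scoped Topology ENNReal NNReal ContDiff ComplexConjugate

noncomputable section

namespace QC

variable {k k' : ℝ} {F H : CD ≃ₜ CD} {s t ν m : ℂ → ℂ}

theorem measurable_ext (F : CD ≃ₜ CD) : Measurable (ext F) := by
  classical
  have h : Measurable fun z : ℂ => if hz : z ∈ closedBall (0 : ℂ) 1 then ((F ⟨z, hz⟩ : CD) : ℂ)
      else z :=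
    Measurable.dite (f := fun z : closedBall (0 : ℂ) 1 => ((F z : CD) : ℂ))
      (g := fun z : ((closedBall (0 : ℂ) 1)ᶜ : Set ℂ) => (z : ℂ))
      ((continuous_subtype_val.comp F.continuous).measurable) measurable_subtype_coe
      measurableSet_closedBall
  have e : ext F = fun z : ℂ => if hz : z ∈ closedBall (0 : ℂ) 1 then ((F ⟨z, hz⟩ : CD) : ℂ)
      else z := by
    funext z
    unfold ext
    by_cases hz : z ∈ closedBall (0 : ℂ) 1
    · simp only [dif_pos hz]
    · simp only [dif_neg hz]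
  rw [e]; exact h

theorem ext_symm_ext (F : CD ≃ₜ CD) {z : ℂ} (hz : z ∈ D) : ext F.symm (ext F z) = z := by
  have hz' : z ∈ closedBall (0 : ℂ) 1 := ball_subset_closedBall hz
  have h1 : ext F z = (F ⟨z, hz'⟩ : ℂ) := ext_apply F ⟨z, hz'⟩
  rw [h1, ext_apply, F.symm_apply_apply]

theorem ext_ext_symm (F : CD ≃ₜ CD) {z : ℂ} (hz : z ∈ D) : ext F (ext F.symm z) = z := by
  have hz' : z ∈ closedBall (0 : ℂ) 1 := ball_subset_closedBall hz
  have h1 : ext F.symm z = (F.symm ⟨z, hz'⟩ : ℂ) := ext_apply F.symm ⟨z, hz'⟩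
  rw [h1, ext_apply, F.apply_symm_apply]

theorem IsQC.ext_mem {F : CD ≃ₜ CD} {k : ℝ} {μ : ℂ → ℂ} (hF : IsQC k F μ) {z : ℂ} (hz : z ∈ D) :
    ext F z ∈ D := by
  have hz' : z ∈ closedBall (0 : ℂ) 1 := ball_subset_closedBall hz
  have h1 : ext F z = (F ⟨z, hz'⟩ : ℂ) := ext_apply F ⟨z, hz'⟩
  rw [h1]
  exact mem_ball_zero_iff.2 ((hF.pres ⟨z, hz'⟩).2 (mem_ball_zero_iff.1 hz))

theorem IsQC.ext_symm_mem {F : CD ≃ₜ CD} {k : ℝ} {μ : ℂ → ℂ} (hF : IsQC k F μ) {z : ℂ}
    (hz : z ∈ D) : ext F.symm z ∈ D := by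
  have hz' : z ∈ closedBall (0 : ℂ) 1 := ball_subset_closedBall hz
  have h1 : ext F.symm z = (F.symm ⟨z, hz'⟩ : ℂ) := ext_apply F.symm ⟨z, hz'⟩
  rw [h1]
  refine mem_ball_zero_iff.2 ((hF.pres (F.symm ⟨z, hz'⟩)).1 ?_)
  rw [F.apply_symm_apply]
  exact mem_ball_zero_iff.1 hz

theorem key_ineq {k k' : ℝ} {m n : ℂ} (hk : k < 1) (hk' : k' < 1) (hm : ‖m‖ ≤ k)
    (hn : ‖n‖ ≤ k') : ‖m - n‖ * (1 + k * k') ≤ (k + k') * ‖1 - m * conj n‖ := by
  have ha := norm_nonneg m
  have hb := norm_nonneg n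
  have hk0 : 0 ≤ k := ha.trans hm
  have hk0' : 0 ≤ k' := hb.trans hn
  have h1 : ‖m - n‖ ^ 2 = ‖m‖ ^ 2 + ‖n‖ ^ 2 - 2 * (m * conj n).re := by
    rw [← Complex.normSq_eq_norm_sq, ← Complex.normSq_eq_norm_sq, ← Complex.normSq_eq_norm_sq,
      Complex.normSq_sub]
  have h2 : ‖1 - m * conj n‖ ^ 2 = 1 + (‖m‖ * ‖n‖) ^ 2 - 2 * (m * conj n).re := by
    rw [← Complex.normSq_eq_norm_sq, Complex.normSq_sub]
    simp only [map_one, one_mul, map_mul, Complex.norm_conj,
      Complex.normSq_eq_norm_sq, mul_pow, Complex.conj_conj]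
    have : (conj m * n).re = (m * conj n).re := by
      rw [← Complex.conj_re (conj m * n)]
      simp
    rw [this]
  have h3 : -(‖m‖ * ‖n‖) ≤ (m * conj n).re := by
    have := Complex.abs_re_le_norm (m * conj n)
    rw [norm_mul, Complex.norm_conj] at this
    exact (abs_le.1 this).1
  refine le_of_sq_le_sq ?_ (by positivity)
  rw [mul_pow, mul_pow, h1, h2]
  set a := ‖m‖
  set b := ‖n‖
  set x := (m * conj n).re
  have h4 : (a + b) * (1 + k * k') ≤ (k + k') * (1 + a * b) := by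
    have e : (k + k') * (1 + a * b) - (a + b) * (1 + k * k')
        = (k - a) * (1 - b * k') + (k' - b) * (1 - a * k) := by ring
    have f1 : 0 ≤ (k - a) * (1 - b * k') := mul_nonneg (by linarith) (by nlinarith)
    have f2 : 0 ≤ (k' - b) * (1 - a * k) := mul_nonneg (by linarith) (by nlinarith)
    linarith
  have h5 : ((a + b) * (1 + k * k')) ^ 2 ≤ ((k + k') * (1 + a * b)) ^ 2 :=
    pow_le_pow_left₀ (by positivity) h4 2
  have h6 : 0 ≤ (1 - k ^ 2) * (1 - k' ^ 2) := mul_nonneg (by nlinarith) (by nlinarith)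
  nlinarith [mul_nonneg h6 (by linarith : 0 ≤ x + a * b)]

theorem norm_div_conj_le (s : ℂ) : ‖s / conj s‖ ≤ 1 := by
  rw [norm_div, Complex.norm_conj]
  exact div_self_le_one _

theorem coefC_bel (hH : IsQC k' H ν) (hs : Measurable s) (hm : Bel k m) :
    Bel ((k + k') / (1 + k * k')) (coefC H s ν m) ∧ SuppIn 1 (coefC H s ν m) := by
  have hk0 : 0 ≤ k := (norm_nonneg _).trans (hm.le 0)
  have hk0' : 0 ≤ k' := (norm_nonneg _).trans (hH.bel.le 0)
  have hk1 := hm.lt
  have hk1' := hH.bel.lt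
  refine ⟨⟨?_, fun z => ?_, ?_⟩, fun z hz => ?_⟩
  · have h1 : Measurable (ext H.symm) := measurable_ext H.symm
    have h2 : Measurable fun z => (m z - ν z) / (1 - m z * conj (ν z)) * (s z / conj (s z)) := by
      have hc : Measurable (fun z : ℂ => conj z) := Complex.continuous_conj.measurable
      exact ((hm.meas.sub hH.bel.meas).div (measurable_const.sub (hm.meas.mul
        (hc.comp hH.bel.meas)))).mul (hs.div (hc.comp hs))
    exact Measurable.ite (measurableSet_lt measurable_norm measurable_const) (h2.comp h1)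
      measurable_const
  · unfold coefC
    split_ifs with hz
    · have h1 := key_ineq hk1 hk1' (hm.le (ext H.symm z)) (hH.bel.le (ext H.symm z))
      set w := ext H.symm z
      have h2 : 0 < ‖1 - m w * conj (ν w)‖ := by
        rw [norm_pos_iff]
        intro h3
        have h4 : ‖m w * conj (ν w)‖ = 1 := by
          rw [← sub_eq_zero.1 h3, norm_one]
        rw [norm_mul, Complex.norm_conj] at h4
        have := hm.le w
        have := hH.bel.le w
        nlinarith [norm_nonneg (m w), norm_nonneg (ν w)]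
      rw [norm_mul]
      calc ‖(m w - ν w) / (1 - m w * conj (ν w))‖ * ‖s w / conj (s w)‖
          ≤ ‖(m w - ν w) / (1 - m w * conj (ν w))‖ * 1 := by
            gcongr; exact norm_div_conj_le _
        _ ≤ (k + k') / (1 + k * k') := by
            rw [mul_one, norm_div, div_le_div_iff₀ h2 (by positivity)]
            exact h1
    · rw [norm_zero]; positivity
  · rw [div_lt_one (by positivity)]
    nlinarith
  · unfold coefC
    rw [if_neg (not_lt.2 hz)]

/-- there is a measurable derivative. -/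
theorem exists_meas_deriv (hH : IsQC k' H ν) : ∃ s t, Measurable s ∧ Measurable t ∧
    WD D (ext H) s t := by
  obtain ⟨a, b, hw, _⟩ := hH.wd
  have hD : D = ⋃ n : ℕ, closedBall (0 : ℂ) (1 - 1 / ((n : ℝ) + 2)) := by
    ext z
    simp only [D, mem_ball_zero_iff, mem_iUnion, mem_closedBall_zero_iff]
    constructor
    · intro hz
      obtain ⟨n, hn⟩ := exists_nat_gt (1 / (1 - ‖z‖))
      refine ⟨n, ?_⟩
      have h1 : 0 < 1 - ‖z‖ := by linarith
      have h2 : 1 / ((n : ℝ) + 2) ≤ 1 - ‖z‖ := by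
        rw [div_le_iff₀ (by positivity)]
        rw [div_lt_iff₀ h1] at hn
        nlinarith
      linarith
    · rintro ⟨n, hn⟩
      have : 0 < 1 / ((n : ℝ) + 2) := by positivity
      linarith
  have hsub : ∀ n : ℕ, closedBall (0 : ℂ) (1 - 1 / ((n : ℝ) + 2)) ⊆ D := by
    intro n
    rw [hD]; exact subset_iUnion (fun n : ℕ => closedBall (0 : ℂ) (1 - 1 / ((n : ℝ) + 2))) n
  have hm : ∀ c : ℂ → ℂ, L2loc D c → AEStronglyMeasurable c (volume.restrict D) := by
    intro c hc
    rw [hD, aestronglyMeasurable_iUnion_iff]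
    intro n
    exact (hc _ (hsub n) (isCompact_closedBall _ _)).1
  have ha := hm a hw.la
  have hb := hm b hw.lb
  refine ⟨ha.mk a, hb.mk b, ha.stronglyMeasurable_mk.measurable,
    hb.stronglyMeasurable_mk.measurable, ?_⟩
  exact hw.congr isOpen_ball (EventuallyEq.refl _ _) ha.ae_eq_mk hb.ae_eq_mk

/-- sup norm: small difference of the coefficients gives a small coefficient. -/
theorem coefC_small (hH : IsQC k' H ν) (hm : Bel k m) {ε : ℝ} (hε : ∀ z, ‖m z - ν z‖ ≤ ε)
    (z : ℂ) : ‖coefC H s ν m z‖ ≤ ε / (1 - k * k') := by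
  have hk0 : 0 ≤ k := (norm_nonneg _).trans (hm.le 0)
  have hk0' : 0 ≤ k' := (norm_nonneg _).trans (hH.bel.le 0)
  have hε0 : 0 ≤ ε := (norm_nonneg _).trans (hε 0)
  have hk1 := hm.lt
  have hk1' := hH.bel.lt
  have hkk : 0 < 1 - k * k' := by nlinarith
  unfold coefC
  split_ifs with hz
  · set w := ext H.symm z
    have h2 : 1 - k * k' ≤ ‖1 - m w * conj (ν w)‖ := by
      have h3 : ‖m w * conj (ν w)‖ ≤ k * k' := by
        rw [norm_mul, Complex.norm_conj]
        exact mul_le_mul (hm.le w) (hH.bel.le w) (norm_nonneg _) hk0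
      have h4 : ‖(1 : ℂ)‖ - ‖m w * conj (ν w)‖ ≤ ‖1 - m w * conj (ν w)‖ := norm_sub_norm_le _ _
      rw [norm_one] at h4
      linarith
    rw [norm_mul]
    calc ‖(m w - ν w) / (1 - m w * conj (ν w))‖ * ‖s w / conj (s w)‖
        ≤ ‖(m w - ν w) / (1 - m w * conj (ν w))‖ * 1 := by
          gcongr; exact norm_div_conj_le _
      _ ≤ ε / (1 - k * k') := by
          rw [mul_one, norm_div]
          exact div_le_div₀ hε0 (hε w) hkk h2
  · rw [norm_zero]; positivity

end QC

end
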