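import Pool.Agent.Work.MP_217185_an.EqvInv
import Pool.Agent.Work.MP_217185_an.BHolo
import Pool.Agent.Work.MP_217185_an.CoefA

/-! # CoefB: the coefficient of `F ∘ H⁻¹` as a function of the coefficient of `F`

`coefC_isQC`: `IsQC.comp_inv` and `IsQC.congr` (`ext H` preserves null sets).
`coefC_udiff`: for `u, u' ` in the disc of radius `k`, `v` in that of radius `k'`,
`f(u) = (u - v)/(1 - u conj v)`: `f(u') - f(u) - (1-‖v‖²)/(1-u conj v)² (u' - u)` is
`O(‖u' - u‖²)` uniformly.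
`coefC_L2`: `‖(m - ν)/(1 - m conj ν)‖² ≤ 2(‖m‖² + ‖ν‖²)/(1 - k k')²` and `NiceJ.lintegral_le`. -/

open MeasureTheory Complex Set Metric Filter
open scoped Topology ENNReal NNReal ContDiff ComplexConjugate

noncomputable section

namespace QC

variable {k k' : ℝ} {F H : CD ≃ₜ CD} {s t ν m : ℂ → ℂ}

theorem coefC_isQC (hF : IsQC k F m) (hH : IsQC k' H ν) (hs : Measurable s)
    (hst : WD D (ext H) s t) :
    IsQC ((k + k') / (1 + k * k')) (F * H⁻¹) (coefC H s ν m) := by
  obtain ⟨κ, h1, s', t', h2, h3⟩ := hF.comp_inv hH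
  obtain ⟨hb, hsu⟩ := coefC_bel hH hs hF.bel
  refine h1.congr hb hsu ?_
  have h4 := (hst.unique isOpen_ball h2).1
  have h5 : ∀ᵐ z ∂(volume.restrict D), κ (ext H z) = coefC H s ν m (ext H z) := by
    filter_upwards [h3, h4, ae_restrict_mem measurableSet_ball] with z hz hz' hzD
    rw [hz]
    unfold coefC
    rw [if_pos (mem_ball_zero_iff.1 (hH.ext_mem hzD)), ext_symm_ext H hzD, hz']
  rw [ae_restrict_iff' measurableSet_ball] at h5
  have h6 : volume {z | ¬ (z ∈ D → κ (ext H z) = coefC H s ν m (ext H z))} = 0 := h5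
  have h7 : {z | ¬ (z ∈ D → κ (ext H z) = coefC H s ν m (ext H z))} ⊆ D := by
    intro z hz
    simp only [mem_setOf_eq, Classical.not_imp] at hz
    exact hz.1
  have h8 := ((hH.area hst).2.2.2 _ h7).1 h6
  rw [Filter.EventuallyEq, ae_iff]
  refine measure_mono_null (fun ζ hζ => ?_) h8
  rw [mem_setOf_eq] at hζ
  have hζD : ζ ∈ D := by
    by_contra hn
    have hn' : 1 ≤ ‖ζ‖ := by
      rw [mem_ball_zero_iff, not_lt] at hn; exact hn
    exact hζ (by rw [h1.supp ζ hn', hsu ζ hn'])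
  refine ⟨ext H.symm ζ, ?_, ext_ext_symm H hζD⟩
  simp only [mem_setOf_eq, Classical.not_imp]
  refine ⟨hH.ext_symm_mem hζD, ?_⟩
  rw [ext_ext_symm H hζD]
  exact hζ

end QC

end
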