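import Pool.Agent.Work.MP_217185_an.EqvInv
import Pool.Agent.Work.MP_217185_an.BHolo
import Pool.Agent.Work.MP_217185_an.CoefA
import Pool.Agent.Work.MP_217185_an.CoefB

/-! # CoefD: the coefficient of `F ∘ H⁻¹` as a function of the coefficient of `F`

`coefC_isQC`: `IsQC.comp_inv` and `IsQC.congr` (`ext H` preserves null sets).
`coefC_udiff`: for `u, u' ` in the disc of radius `k`, `v` in that of radius `k'`,
`f(u) = (u - v)/(1 - u conj v)`: `f(u') - f(u) - (1-‖v‖²)/(1-u conj v)² (u' - u)` is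
`O(‖u' - u‖²)` uniformly.
`coefC_L2`: `‖(m - ν)/(1 - m conj ν)‖² ≤ 2(‖m‖² + ‖ν‖²)/(1 - k k')²` and `NiceJ.lintegral_le`. -/

open MeasureTheory Complex Set Metric Filter
open scoped Topology ENNReal NNReal ContDiff ComplexConjugate

noncomputable section

namespace QC

variable {k k' : ℝ} {F H : CD ≃ₜ CD} {s t ν m : ℂ → ℂ}

theorem coefC_aeInv {S S' : Bord} (hm : Bel k m) (hms : SuppIn 1 m) (hi : AEInv S m)
    (hH : IsQC k' H ν) (hT : Tgt S H S') (hs : Measurable s) (hst : WD D (ext H) s t) :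
    AEInv S' (coefC H s ν m) := by
  obtain ⟨F, hF⟩ := exists_qc hm hms
  have h1 := hF.isQCS hi
  refine (coefC_isQC hF hH hs hst).aeInv fun γ hγ => ?_
  have h2 := h1.eqv _ ((hT.grp γ).1 hγ)
  have h3 : F * H⁻¹ * γ * (F * H⁻¹)⁻¹ = F * (H⁻¹ * γ * H) * F⁻¹ := by group
  rw [h3]
  exact h2

end QC

end
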