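import Pool.Agent.Work.MP_217185_an.EqvInv
import Pool.Agent.Work.MP_217185_an.BHolo
import Pool.Agent.Work.MP_217185_an.CoefA

/-! # CoefE: the coefficient of `F ∘ H⁻¹` as a function of the coefficient of `F`

`coefC_isQC`: `IsQC.comp_inv` and `IsQC.congr` (`ext H` preserves null sets).
`coefC_udiff`: for `u, u' ` in the disc of radius `k`, `v` in that of radius `k'`,
`f(u) = (u - v)/(1 - u conj v)`: `f(u') - f(u) - (1-‖v‖²)/(1-u conj v)² (u' - u)` is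
`O(‖u' - u‖²)` uniformly.
`coefC_L2`: `‖(m - ν)/(1 - m conj ν)‖² ≤ 2(‖m‖² + ‖ν‖²)/(1 - k k')²` and `NiceJ.lintegral_le`. -/

open MeasureTheory Complex Set Metric Filter
open scoped Topology ENNReal NNReal ContDiff ComplexConjugate

noncomputable section

namespace QC

variable {k k' : ℝ} {F H : CD ≃ₜ CD} {s t ν m : ℂ → ℂ}

theorem one_sub_ge {k k' : ℝ} {m n : ℂ} (hm : ‖m‖ ≤ k) (hn : ‖n‖ ≤ k') :
    1 - k * k' ≤ ‖1 - m * conj n‖ := by
  have hk0 : 0 ≤ k := (norm_nonneg _).trans hm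
  have h3 : ‖m * conj n‖ ≤ k * k' := by
    rw [norm_mul, Complex.norm_conj]
    exact mul_le_mul hm hn (norm_nonneg _) hk0
  have h4 : ‖(1 : ℂ)‖ - ‖m * conj n‖ ≤ ‖1 - m * conj n‖ := norm_sub_norm_le _ _
  rw [norm_one] at h4
  linarith

theorem mob_ident {u u' v c l X Y : ℂ} (hX : X = 1 - u * c) (hY : Y = 1 - u' * c) (h1 : X ≠ 0)
    (h2 : Y ≠ 0) : (u' - v) / Y - (u - v) / X - (1 - v * c) / X ^ 2 * l
      = (u' - u) ^ 2 * (1 - v * c) * c / (X ^ 2 * Y) + (1 - v * c) / X ^ 2 * (u' - u - l) := by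
  field_simp
  rw [hX, hY]
  ring

theorem mob_remainder {u u' v l : ℂ} {δ a b : ℝ} (hδ : 0 < δ) (h1 : δ ≤ ‖1 - u * conj v‖)
    (h2 : δ ≤ ‖1 - u' * conj v‖) (hv : ‖v‖ ≤ 1) (ha : ‖u' - u‖ ≤ a) (hb : ‖u' - u - l‖ ≤ b) :
    ‖(u' - v) / (1 - u' * conj v) - (u - v) / (1 - u * conj v)
      - ((1 - ‖v‖ ^ 2 : ℝ) : ℂ) / (1 - u * conj v) ^ 2 * l‖ ≤ a ^ 2 / δ ^ 3 + b / δ ^ 2 := by
  have n1 : 1 - u * conj v ≠ 0 := by
    intro h; rw [h, norm_zero] at h1; linarith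
  have n2 : 1 - u' * conj v ≠ 0 := by
    intro h; rw [h, norm_zero] at h2; linarith
  have hvv : ((‖v‖ ^ 2 : ℝ) : ℂ) = v * conj v := by
    rw [Complex.mul_conj, Complex.normSq_eq_norm_sq]
  have e : (u' - v) / (1 - u' * conj v) - (u - v) / (1 - u * conj v)
      - ((1 - ‖v‖ ^ 2 : ℝ) : ℂ) / (1 - u * conj v) ^ 2 * l
      = (u' - u) ^ 2 * ((1 - ‖v‖ ^ 2 : ℝ) : ℂ) * conj v / ((1 - u * conj v) ^ 2 * (1 - u' * conj v))
        + ((1 - ‖v‖ ^ 2 : ℝ) : ℂ) / (1 - u * conj v) ^ 2 * (u' - u - l) := by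
    have hc : ((1 - ‖v‖ ^ 2 : ℝ) : ℂ) = 1 - v * conj v := by
      rw [← hvv]; push_cast; ring
    rw [hc]
    exact mob_ident rfl rfl n1 n2
  rw [e]
  have hv2 : ‖((1 - ‖v‖ ^ 2 : ℝ) : ℂ)‖ ≤ 1 := by
    rw [Complex.norm_real, Real.norm_eq_abs, abs_le]
    constructor <;> nlinarith [norm_nonneg v]
  have ha0 : 0 ≤ a := (norm_nonneg _).trans ha
  have hb0 : 0 ≤ b := (norm_nonneg _).trans hb
  refine (norm_add_le _ _).trans (add_le_add ?_ ?_)
  · rw [norm_div, norm_mul, norm_mul, norm_mul, norm_pow, norm_pow, Complex.norm_conj]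
    refine div_le_div₀ (by positivity) ?_ (by positivity) ?_
    · calc ‖u' - u‖ ^ 2 * ‖((1 - ‖v‖ ^ 2 : ℝ) : ℂ)‖ * ‖v‖ ≤ a ^ 2 * 1 * 1 := by
            gcongr
        _ = a ^ 2 := by ring
    · calc δ ^ 3 = δ ^ 2 * δ := by ring
        _ ≤ _ := by gcongr
  · rw [norm_mul, norm_div, norm_pow]
    calc ‖((1 - ‖v‖ ^ 2 : ℝ) : ℂ)‖ / ‖1 - u * conj v‖ ^ 2 * ‖u' - u - l‖
        ≤ 1 / δ ^ 2 * b := by gcongr
      _ = b / δ ^ 2 := by ring

open Classical in
/-- the derivative. -/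
private def LL (H : CD ≃ₜ CD) (s ν u l : ℂ → ℂ) (ζ : ℂ) : ℂ :=
  if ‖ζ‖ < 1 then
    ((1 - ‖ν (ext H.symm ζ)‖ ^ 2 : ℝ) : ℂ) /
      (1 - u (ext H.symm ζ) * conj (ν (ext H.symm ζ))) ^ 2 * l (ext H.symm ζ) *
      (s (ext H.symm ζ) / conj (s (ext H.symm ζ)))
  else 0

theorem coefC_udiff {E : Type} [NormedAddCommGroup E] [NormedSpace ℂ E] {M : E → ℂ → ℂ}
    {U : Set E} (hU : IsOpen U) (hM : ∀ x ∈ U, Bel k (M x)) {x₀ : E} (hx : x₀ ∈ U)
    (hd : UDiff M x₀) (hH : IsQC k' H ν) (hs : Measurable s) :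
    UDiff (fun x => coefC H s ν (M x)) x₀ := by
  obtain ⟨r, C, L, hr, hLa, hLs, hLm, hLb, hLr⟩ := hd
  have hm := hM x₀ hx
  have hk0 : 0 ≤ k := (norm_nonneg _).trans (hm.le 0)
  have hk0' : 0 ≤ k' := (norm_nonneg _).trans (hH.bel.le 0)
  have hk1 := hm.lt
  have hk1' := hH.bel.lt
  have hδ : 0 < 1 - k * k' := by nlinarith
  set δ := 1 - k * k' with hδd
  obtain ⟨r', hr', hrU⟩ := Metric.isOpen_iff.1 hU x₀ hx
  have hv : ∀ z, ‖ν z‖ ≤ 1 := fun z => (hH.bel.le z).trans hk1'.le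
  refine ⟨min (min r r') 1, 4 * |C| ^ 2 / δ ^ 3 + |C| / δ ^ 2,
    fun x => LL H s ν (M x₀) (L x), by positivity, fun x y ζ => ?_, fun c x ζ => ?_,
    fun x => ?_, fun x ζ => ?_, fun x hxr ζ => ?_⟩
  · change LL H s ν (M x₀) (L (x + y)) ζ = LL H s ν (M x₀) (L x) ζ + LL H s ν (M x₀) (L y) ζ
    unfold LL
    split_ifs
    · rw [hLa]; ring
    · ring
  · change LL H s ν (M x₀) (L (c • x)) ζ = c * LL H s ν (M x₀) (L x) ζ
    unfold LL
    split_ifs
    · rw [hLs]; ring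
    · ring
  · have h1 : Measurable (ext H.symm) := measurable_ext H.symm
    have hc : Measurable (fun z : ℂ => conj z) := Complex.continuous_conj.measurable
    have h2 : Measurable fun z => ((1 - ‖ν z‖ ^ 2 : ℝ) : ℂ) /
        (1 - M x₀ z * conj (ν z)) ^ 2 * L x z * (s z / conj (s z)) := by
      refine Measurable.mul (Measurable.mul (Measurable.div ?_ ?_) (hLm x))
        (hs.div (hc.comp hs))
      · exact Complex.measurable_ofReal.comp (measurable_const.sub (hH.bel.meas.norm.pow_const 2))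
      · exact (measurable_const.sub (hm.meas.mul (hc.comp hH.bel.meas))).pow_const 2
    exact Measurable.ite (measurableSet_lt measurable_norm measurable_const) (h2.comp h1)
      measurable_const
  · change ‖LL H s ν (M x₀) (L x) ζ‖ ≤ _
    unfold LL
    split_ifs with hz
    · set w := ext H.symm ζ
      have h2 := one_sub_ge (hm.le w) (hH.bel.le w)
      have hv2 : ‖((1 - ‖ν w‖ ^ 2 : ℝ) : ℂ)‖ ≤ 1 := by
        rw [Complex.norm_real, Real.norm_eq_abs, abs_le]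
        constructor <;> nlinarith [norm_nonneg (ν w), hv w]
      rw [norm_mul, norm_mul, norm_div, norm_pow]
      calc ‖((1 - ‖ν w‖ ^ 2 : ℝ) : ℂ)‖ / ‖1 - M x₀ w * conj (ν w)‖ ^ 2 * ‖L x w‖
            * ‖s w / conj (s w)‖
          ≤ 1 / δ ^ 2 * (|C| * ‖x‖) * 1 := by
            gcongr
            · exact (hLb x w).trans (by gcongr; exact le_abs_self C)
            · exact norm_div_conj_le _
        _ = (|C| / δ ^ 2) * ‖x‖ := by ring
        _ ≤ (4 * |C| ^ 2 / δ ^ 3 + |C| / δ ^ 2) * ‖x‖ := by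
            gcongr
            have : 0 ≤ 4 * |C| ^ 2 / δ ^ 3 := by positivity
            linarith
    · rw [norm_zero]; positivity
  · have hx1 : ‖x‖ < r := hxr.trans_le ((min_le_left _ _).trans (min_le_left _ _))
    have hx2 : ‖x‖ < r' := hxr.trans_le ((min_le_left _ _).trans (min_le_right _ _))
    have hx3 : ‖x‖ < 1 := hxr.trans_le (min_le_right _ _)
    have hxU : x₀ + x ∈ U := hrU (by rw [mem_ball, dist_eq_norm]; simpa using hx2)
    have hm' := hM _ hxU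
    change ‖coefC H s ν (M (x₀ + x)) ζ - coefC H s ν (M x₀) ζ - LL H s ν (M x₀) (L x) ζ‖ ≤ _
    unfold LL coefC
    split_ifs with hz
    · set w := ext H.symm ζ
      have hR := hLr x hx1 w
      have hLw := hLb x w
      have hR' : ‖M (x₀ + x) w - M x₀ w - L x w‖ ≤ |C| * ‖x‖ ^ 2 :=
        hR.trans (by gcongr; exact le_abs_self C)
      have hL' : ‖L x w‖ ≤ |C| * ‖x‖ := hLw.trans (by gcongr; exact le_abs_self C)
      have hD : ‖M (x₀ + x) w - M x₀ w‖ ≤ 2 * |C| * ‖x‖ := by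
        have e : M (x₀ + x) w - M x₀ w = (M (x₀ + x) w - M x₀ w - L x w) + L x w := by ring
        rw [e]
        refine (norm_add_le _ _).trans ?_
        have : |C| * ‖x‖ ^ 2 ≤ |C| * ‖x‖ := by
          have h0 := abs_nonneg C
          have h1 := norm_nonneg x
          have : ‖x‖ ^ 2 ≤ ‖x‖ := by nlinarith
          exact mul_le_mul_of_nonneg_left this h0
        linarith
      have key := mob_remainder hδ (one_sub_ge (hm.le w) (hH.bel.le w))
        (one_sub_ge (hm'.le w) (hH.bel.le w)) (hv w) hD hR'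
      have e : (M (x₀ + x) w - ν w) / (1 - M (x₀ + x) w * conj (ν w)) * (s w / conj (s w)) -
          (M x₀ w - ν w) / (1 - M x₀ w * conj (ν w)) * (s w / conj (s w)) -
          ((1 - ‖ν w‖ ^ 2 : ℝ) : ℂ) / (1 - M x₀ w * conj (ν w)) ^ 2 * L x w *
            (s w / conj (s w)) =
          ((M (x₀ + x) w - ν w) / (1 - M (x₀ + x) w * conj (ν w)) -
            (M x₀ w - ν w) / (1 - M x₀ w * conj (ν w))
            - ((1 - ‖ν w‖ ^ 2 : ℝ) : ℂ) / (1 - M x₀ w * conj (ν w)) ^ 2 * L x w) *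
            (s w / conj (s w)) := by ring
      rw [e, norm_mul]
      calc _ ≤ ((2 * |C| * ‖x‖) ^ 2 / δ ^ 3 + |C| * ‖x‖ ^ 2 / δ ^ 2) * 1 := by
            gcongr
            exact norm_div_conj_le _
        _ = (4 * |C| ^ 2 / δ ^ 3 + |C| / δ ^ 2) * ‖x‖ ^ 2 := by ring
    · simp only [sub_zero, norm_zero]
      positivity

end QC

end
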