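import Pool.Agent.Work.MP_217185_an.EqvInv
import Pool.Agent.Work.MP_217185_an.BHolo
import Pool.Agent.Work.MP_217185_an.CoefA

/-! # CoefF: the coefficient of `F ∘ H⁻¹` as a function of the coefficient of `F`

`coefC_isQC`: `IsQC.comp_inv` and `IsQC.congr` (`ext H` preserves null sets).
`coefC_udiff`: for `u, u' ` in the disc of radius `k`, `v` in that of radius `k'`,
`f(u) = (u - v)/(1 - u conj v)`: `f(u') - f(u) - (1-‖v‖²)/(1-u conj v)² (u' - u)` is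
`O(‖u' - u‖²)` uniformly.
`coefC_L2`: `‖(m - ν)/(1 - m conj ν)‖² ≤ 2(‖m‖² + ‖ν‖²)/(1 - k k')²` and `NiceJ.lintegral_le`. -/

open MeasureTheory Complex Set Metric Filter
open scoped Topology ENNReal NNReal ContDiff ComplexConjugate

noncomputable section

namespace QC

variable {k k' : ℝ} {F H : CD ≃ₜ CD} {s t ν m : ℂ → ℂ}

theorem coefC_L2 {S S' : Bord} {C : ℝ≥0∞} (hC : NiceJ C H) (hT : Tgt S H S')
    (hH : IsQC k' H ν) (hs : Measurable s) (hm : Bel k m) {P : Set ℂ} (hP : IsFund S P) :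
    ∫⁻ z in ext H '' P, ‖coefC H s ν m z‖ₑ ^ 2 ∂hyp
      ≤ ENNReal.ofReal (2 / (1 - k * k') ^ 2) * C *
        (∫⁻ z in P, ‖m z‖ₑ ^ 2 ∂hyp + ∫⁻ z in P, ‖ν z‖ₑ ^ 2 ∂hyp) := by
  have hk0 : 0 ≤ k := (norm_nonneg _).trans (hm.le 0)
  have hk0' : 0 ≤ k' := (norm_nonneg _).trans (hH.bel.le 0)
  have hk1 := hm.lt
  have hk1' := hH.bel.lt
  have hδ : 0 < 1 - k * k' := by nlinarith
  have hmeas : Measurable fun z => ‖coefC H s ν m z‖ₑ ^ 2 :=
    ((coefC_bel hH hs hm).1.meas.enorm).pow_const 2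
  refine ((hC.lintegral_le hT hP.sub hP.meas hmeas).2).trans ?_
  have hpt : ∀ z ∈ P, ‖coefC H s ν m (ext H z)‖ₑ ^ 2
      ≤ ENNReal.ofReal (2 / (1 - k * k') ^ 2) * (‖m z‖ₑ ^ 2 + ‖ν z‖ₑ ^ 2) := by
    intro z hz
    have hzD := hP.sub hz
    have h1 : ‖coefC H s ν m (ext H z)‖ ^ 2
        ≤ 2 / (1 - k * k') ^ 2 * (‖m z‖ ^ 2 + ‖ν z‖ ^ 2) := by
      unfold coefC
      rw [if_pos (mem_ball_zero_iff.1 (hH.ext_mem hzD)), ext_symm_ext H hzD, norm_mul, norm_div,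
        mul_pow, div_pow]
      have h3 : ‖m z * conj (ν z)‖ ≤ k * k' := by
        rw [norm_mul, Complex.norm_conj]
        exact mul_le_mul (hm.le z) (hH.bel.le z) (norm_nonneg _) hk0
      have h4 : ‖(1 : ℂ)‖ - ‖m z * conj (ν z)‖ ≤ ‖1 - m z * conj (ν z)‖ := norm_sub_norm_le _ _
      rw [norm_one] at h4
      have h5 : 1 - k * k' ≤ ‖1 - m z * conj (ν z)‖ := by linarith
      have h6 : ‖m z - ν z‖ ^ 2 ≤ 2 * (‖m z‖ ^ 2 + ‖ν z‖ ^ 2) := by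
        have h7 := norm_sub_le (m z) (ν z)
        nlinarith [norm_nonneg (m z), norm_nonneg (ν z), norm_nonneg (m z - ν z),
          sq_nonneg (‖m z‖ - ‖ν z‖)]
      calc ‖m z - ν z‖ ^ 2 / ‖1 - m z * conj (ν z)‖ ^ 2 * ‖s z / conj (s z)‖ ^ 2
          ≤ (2 * (‖m z‖ ^ 2 + ‖ν z‖ ^ 2)) / (1 - k * k') ^ 2 * 1 ^ 2 := by
            gcongr
            exact norm_div_conj_le _
        _ = 2 / (1 - k * k') ^ 2 * (‖m z‖ ^ 2 + ‖ν z‖ ^ 2) := by ring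
    have h2 := ENNReal.ofReal_le_ofReal h1
    rw [ENNReal.ofReal_mul (by positivity), ENNReal.ofReal_add (by positivity) (by positivity),
      ENNReal.ofReal_pow (norm_nonneg _), ENNReal.ofReal_pow (norm_nonneg _),
      ENNReal.ofReal_pow (norm_nonneg _), ofReal_norm, ofReal_norm, ofReal_norm] at h2
    exact h2
  calc C * ∫⁻ z in P, ‖coefC H s ν m (ext H z)‖ₑ ^ 2 ∂hyp
      ≤ C * ∫⁻ z in P, ENNReal.ofReal (2 / (1 - k * k') ^ 2) *
          (‖m z‖ₑ ^ 2 + ‖ν z‖ₑ ^ 2) ∂hyp := by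
        gcongr C * ?_
        exact setLIntegral_mono' hP.meas hpt
    _ = ENNReal.ofReal (2 / (1 - k * k') ^ 2) * C *
        (∫⁻ z in P, ‖m z‖ₑ ^ 2 ∂hyp + ∫⁻ z in P, ‖ν z‖ₑ ^ 2 ∂hyp) := by
        rw [lintegral_const_mul' _ _ ENNReal.ofReal_ne_top,
          lintegral_add_left ((hm.meas.enorm).pow_const 2)]
        ring

end QC

end
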