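import Pool.Agent.Work.MP_217185_an.Defs

/-! # CompactB: Arzela-Ascoli

On each `closedBall 0 m` the functions are uniformly bounded and equicontinuous; Mathlib's
Arzela-Ascoli (`BoundedContinuousFunction.arzela_ascoli`, or
`ContinuousMap.isCompact_of_equicontinuous`/`ArzelaAscoli`) and a diagonal sequence; or a direct
diagonal argument on a countable dense set. -/

open MeasureTheory Complex Set Metric Filter
open scoped Topology ENNReal NNReal ContDiff ComplexConjugate

namespace QC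

theorem arzela {w : ℕ → ℂ → ℂ} {C : ℝ} (hC : ∀ n z, ‖w n z - z‖ ≤ C)
    (he : ∀ ε > (0 : ℝ), ∃ δ > (0 : ℝ), ∀ n z z', dist z z' < δ → dist (w n z) (w n z') < ε) :
    ∃ φ : ℕ → ℕ, StrictMono φ ∧ ∃ W : ℂ → ℂ, Continuous W ∧
      TendstoLocallyUniformly (fun n z => w (φ n) z) W atTop := by
  let q : ℕ → ℂ := TopologicalSpace.denseSeq ℂ
  have hK : IsCompact (Set.pi univ fun j : ℕ => closedBall (q j) C) :=
    isCompact_univ_pi fun j => isCompact_closedBall _ _
  have hmem : ∀ n, (fun j => w n (q j)) ∈ Set.pi univ fun j : ℕ => closedBall (q j) C := by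
    intro n j _
    rw [mem_closedBall, dist_eq_norm]
    exact hC n (q j)
  obtain ⟨a, _, φ, hφ, hlim⟩ := hK.tendsto_subseq hmem
  have hlimj : ∀ j, Tendsto (fun n => w (φ n) (q j)) atTop (𝓝 (a j)) := fun j =>
    (tendsto_pi_nhds.mp hlim) j
  have hcauchy : ∀ z, CauchySeq fun n => w (φ n) z := by
    intro z
    rw [Metric.cauchySeq_iff']
    intro ε hε
    obtain ⟨δ, hδ, hd⟩ := he (ε / 3) (by positivity)
    obtain ⟨j, hj⟩ := (TopologicalSpace.denseRange_denseSeq ℂ).exists_dist_lt z hδ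
    obtain ⟨N, hN⟩ := Metric.cauchySeq_iff'.mp (hlimj j).cauchySeq (ε / 3) (by positivity)
    refine ⟨N, fun n hn => ?_⟩
    have h1 := hd (φ n) z (q j) hj
    have h2 := hd (φ N) z (q j) hj
    have h3 := hN n hn
    have h4 := dist_triangle4 (w (φ n) z) (w (φ n) (q j)) (w (φ N) (q j)) (w (φ N) z)
    rw [dist_comm (w (φ N) (q j)) (w (φ N) z)] at h4
    linarith
  have hex : ∀ z, ∃ y, Tendsto (fun n => w (φ n) z) atTop (𝓝 y) := fun z =>
    cauchySeq_tendsto_of_complete (hcauchy z)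
  choose W hW using hex
  have hWe : ∀ ε > (0 : ℝ), ∃ δ > (0 : ℝ), ∀ z z', dist z z' < δ → dist (W z) (W z') ≤ ε := by
    intro ε hε
    obtain ⟨δ, hδ, hd⟩ := he ε hε
    refine ⟨δ, hδ, fun z z' hz => ?_⟩
    exact le_of_tendsto ((hW z).dist (hW z')) (Eventually.of_forall fun n => (hd (φ n) z z' hz).le)
  refine ⟨φ, hφ, W, ?_, ?_⟩
  · rw [Metric.continuous_iff]
    intro z ε hε
    obtain ⟨δ, hδ, hd⟩ := hWe (ε / 2) (by positivity)
    exact ⟨δ, hδ, fun z' hz' => lt_of_le_of_lt (hd z' z hz') (by linarith)⟩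
  · rw [Metric.tendstoLocallyUniformly_iff]
    intro ε hε z
    obtain ⟨δ, hδ, hd⟩ := he (ε / 3) (by positivity)
    obtain ⟨δ', hδ', hd'⟩ := hWe (ε / 3) (by positivity)
    refine ⟨ball z (min δ δ'), ball_mem_nhds z (lt_min hδ hδ'), ?_⟩
    have h1 : ∀ᶠ n in atTop, dist (w (φ n) z) (W z) < ε / 3 :=
      (Metric.tendsto_nhds.mp (hW z)) (ε / 3) (by positivity)
    filter_upwards [h1] with n hn y hy
    rw [mem_ball] at hy
    have h2 := hd (φ n) y z (lt_of_lt_of_le hy (min_le_left _ _))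
    have h3 := hd' y z (lt_of_lt_of_le hy (min_le_right _ _))
    have h4 := dist_triangle4 (W y) (W z) (w (φ n) z) (w (φ n) y)
    rw [dist_comm (W z) (w (φ n) z), dist_comm (w (φ n) z) (w (φ n) y)] at h4
    linarith

end QC
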