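import Pool.Agent.Work.MP_217185_an.CompactA
import Pool.Agent.Work.MP_217185_an.CompactB

/-! # Compact: normal families of diffeomorphisms with bounded displacement

Put `v n = (w n).symm`; `‖v n z - z‖ ≤ C` too, and `‖dzb (v n)‖ ≤ k ‖dz (v n)‖`, `dz (v n) ≠ 0`
(`dz_symm`).  `equi` for `w n` and `v n`, `arzela` twice (subsequence of a subsequence) give
`w → W`, `v → V` locally uniformly; `W ∘ V = V ∘ W = id` (`v n z → V z`, `w n` equicontinuous), so
`W` is a homeomorphism. -/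

open MeasureTheory Complex Set Metric Filter
open scoped Topology ENNReal NNReal ContDiff ComplexConjugate

namespace QC

theorem exists_limit {k : ℝ} (hk0 : 0 ≤ k) (hk : k < 1) {w : ℕ → ℂ ≃ₜ ℂ}
    (h1 : ∀ n, ContDiff ℝ ∞ (w n)) (h2 : ∀ n, ContDiff ℝ ∞ (w n).symm)
    (h3 : ∀ n z, ‖dzb (w n) z‖ ≤ k * ‖dz (w n) z‖) (h4 : ∀ n z, dz (w n) z ≠ 0)
    {C : ℝ} (hC : ∀ n z, ‖w n z - z‖ ≤ C) :
    ∃ φ : ℕ → ℕ, StrictMono φ ∧ ∃ W : ℂ ≃ₜ ℂ,
      TendstoLocallyUniformly (fun n z => w (φ n) z) W atTop ∧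
      TendstoLocallyUniformly (fun n z => (w (φ n)).symm z) W.symm atTop := by
  have hinf : (∞ : WithTop ℕ∞) ≠ 0 := by simp
  have hvC : ∀ n z, ‖(w n).symm z - z‖ ≤ C := by
    intro n z
    have := hC n ((w n).symm z)
    rw [Homeomorph.apply_symm_apply, norm_sub_rev] at this
    exact this
  have hv : ∀ n z, ‖dzb (w n).symm z‖ ≤ k * ‖dz (w n).symm z‖ ∧ dz (w n).symm z ≠ 0 := by
    intro n z
    obtain ⟨y, rfl⟩ := (w n).surjective z
    obtain ⟨e1, e2⟩ := dz_symm (w := w n) ((h1 n).differentiable hinf)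
      ((h2 n).differentiable hinf) y
    have g1 := h3 n y
    have g2 : 0 < ‖dz (w n) y‖ := norm_pos_iff.mpr (h4 n y)
    have g3 : ‖dzb (w n) y‖ < ‖dz (w n) y‖ := by nlinarith
    have g4 := norm_nonneg (dzb (w n) y)
    set J : ℝ := ‖dz (w n) y‖ ^ 2 - ‖dzb (w n) y‖ ^ 2 with hJ
    have hJ0 : 0 < J := by rw [hJ]; nlinarith
    have n1 : ‖dz (w n).symm (w n y)‖ * J = ‖dz (w n) y‖ := by
      have := congrArg norm e1
      rw [norm_mul, Complex.norm_real, Real.norm_of_nonneg hJ0.le, RCLike.norm_conj] at this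
      exact this
    have n2 : ‖dzb (w n).symm (w n y)‖ * J = ‖dzb (w n) y‖ := by
      have := congrArg norm e2
      rw [norm_mul, Complex.norm_real, Real.norm_of_nonneg hJ0.le, norm_neg] at this
      exact this
    constructor
    · have h5 : ‖dzb (w n).symm (w n y)‖ * J ≤ (k * ‖dz (w n).symm (w n y)‖) * J := by
        rw [n2, mul_assoc, n1]; exact g1
      exact le_of_mul_le_mul_right h5 hJ0
    · intro h0
      rw [h0, norm_zero, zero_mul] at n1
      exact absurd n1.symm g2.ne'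
  obtain ⟨φ₁, hφ₁, W, hWc, hW⟩ := arzela (w := fun n z => w n z) hC (by
    intro ε hε
    obtain ⟨δ, hδ, hd⟩ := equi (k := k) (C := C) hk0 hk ε hε
    exact ⟨δ, hδ, fun n z z' hz => hd (w n) (h1 n) (h3 n) (h4 n) (hC n) z z' hz⟩)
  obtain ⟨φ₂, hφ₂, V, hVc, hV⟩ := arzela (w := fun n z => (w (φ₁ n)).symm z)
    (fun n z => hvC (φ₁ n) z) (by
    intro ε hε
    obtain ⟨δ, hδ, hd⟩ := equi (k := k) (C := C) hk0 hk ε hε
    exact ⟨δ, hδ, fun n z z' hz => hd (w (φ₁ n)).symm (h2 (φ₁ n)) (fun z => (hv (φ₁ n) z).1)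
      (fun z => (hv (φ₁ n) z).2) (hvC (φ₁ n)) z z' hz⟩)
  have hW' : TendstoLocallyUniformly (fun n z => w (φ₁ (φ₂ n)) z) W atTop := by
    intro u hu x
    obtain ⟨t, ht, hev⟩ := hW u hu x
    exact ⟨t, ht, hφ₂.tendsto_atTop.eventually hev⟩
  have hleft : ∀ z, V (W z) = z := by
    intro z
    have ha : Tendsto (fun n => w (φ₁ (φ₂ n)) z) atTop (𝓝 (W z)) :=
      hW'.tendsto_comp hWc.continuousAt tendsto_const_nhds
    have hb := hV.tendsto_comp hVc.continuousAt ha
    have hc : (fun n => (w (φ₁ (φ₂ n))).symm (w (φ₁ (φ₂ n)) z)) = fun _ => z := by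
      funext n; rw [Homeomorph.symm_apply_apply]
    rw [hc] at hb
    exact tendsto_nhds_unique hb tendsto_const_nhds
  have hright : ∀ z, W (V z) = z := by
    intro z
    have ha : Tendsto (fun n => (w (φ₁ (φ₂ n))).symm z) atTop (𝓝 (V z)) :=
      hV.tendsto_comp hVc.continuousAt tendsto_const_nhds
    have hb := hW'.tendsto_comp hWc.continuousAt ha
    have hc : (fun n => w (φ₁ (φ₂ n)) ((w (φ₁ (φ₂ n))).symm z)) = fun _ => z := by
      funext n; rw [Homeomorph.apply_symm_apply]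
    rw [hc] at hb
    exact tendsto_nhds_unique hb tendsto_const_nhds
  refine ⟨fun n => φ₁ (φ₂ n), hφ₁.comp hφ₂,
    { toFun := W, invFun := V, left_inv := hleft, right_inv := hright,
      continuous_toFun := hWc, continuous_invFun := hVc }, hW', hV⟩

end QC
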