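import Pool.Agent.Work.MP_217185_an.CL

/-! # CompactA: equicontinuity of diffeomorphisms with bounded displacement

For `z₀`, `w` maps `ball z₀ 1` into `ball z₀ (1 + C)`, so the Dirichlet integral over `ball z₀ 1` is
bounded by a constant `M` (`dirichlet_le`), and `courant_lebesgue` with `R = 1/2`, `r` small gives
`dist (w z) (w z')² ≤ 2π M / log (1/(2r))` for `z, z' ∈ closedBall z₀ r`. -/

open MeasureTheory Complex Set Metric Filter
open scoped Topology ENNReal NNReal ContDiff ComplexConjugate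

namespace QC

theorem equi {k C : ℝ} (hk0 : 0 ≤ k) (hk : k < 1) : ∀ ε > (0 : ℝ), ∃ δ > (0 : ℝ), ∀ w : ℂ ≃ₜ ℂ,
    ContDiff ℝ ∞ w → (∀ z, ‖dzb w z‖ ≤ k * ‖dz w z‖) → (∀ z, dz w z ≠ 0) →
    (∀ z, ‖w z - z‖ ≤ C) → ∀ z z', dist z z' < δ → dist (w z) (w z') < ε := by
  intro ε hε
  have hk1 : 0 < 1 - k := by linarith
  set A : ℝ := Real.pi * (1 / 2 + |C|) ^ 2 with hA
  have hA0 : 0 ≤ A := by positivity
  set M : ℝ := (1 + k) / (1 - k) * A with hM
  have hM0 : 0 ≤ M := by
    rw [hM]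
    have : 0 ≤ (1 + k) / (1 - k) := div_nonneg (by linarith) hk1.le
    positivity
  set T : ℝ := 2 * Real.pi * M / ε ^ 2 + 1 with hT
  have hT0 : 0 < T := by positivity
  set δ : ℝ := 1 / 2 * Real.exp (-T) with hδ
  have hδ0 : 0 < δ := by positivity
  have hδ1 : δ < 1 / 2 := by
    have : Real.exp (-T) < Real.exp 0 := Real.exp_lt_exp.mpr (by linarith)
    rw [Real.exp_zero] at this
    rw [hδ]; linarith
  refine ⟨δ, hδ0, ?_⟩
  intro w hw hdil hdz hC z z' hzz'
  have hC0 : 0 ≤ C := (norm_nonneg _).trans (hC 0)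
  have hw1 : ContDiffOn ℝ 1 w univ := (hw.of_le (by simp)).contDiffOn
  have hdet : ∀ y ∈ (univ : Set ℂ), (fderiv ℝ w y).det ≠ 0 := by
    intro y _
    rw [det_fderiv]
    have h1 := hdil y
    have h2 : 0 < ‖dz w y‖ := norm_pos_iff.mpr (hdz y)
    have h3 : ‖dzb w y‖ < ‖dz w y‖ := by nlinarith
    have h4 := norm_nonneg (dzb w y)
    have h5 : 0 < ‖dz w y‖ ^ 2 - ‖dzb w y‖ ^ 2 := by nlinarith
    exact h5.ne'
  have himg : w '' ball z (1 / 2) ⊆ ball z (1 / 2 + |C|) := by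
    rintro _ ⟨y, hy, rfl⟩
    rw [mem_ball] at hy ⊢
    have h1 : dist (w y) y ≤ |C| := by rw [dist_eq_norm, abs_of_nonneg hC0]; exact hC y
    have h2 := dist_triangle (w y) y z
    linarith
  have hvol : volume (w '' ball z (1 / 2)) ≤ ENNReal.ofReal A := by
    refine (measure_mono himg).trans ?_
    rw [Complex.volume_ball, hA, ENNReal.ofReal_mul Real.pi_pos.le]
    rw [mul_comm]
    have h0 : (0 : ℝ) ≤ 1 / 2 + |C| := by positivity
    rw [ENNReal.ofReal_pow h0]
    have : ((NNReal.pi : ℝ≥0) : ℝ≥0∞) = ENNReal.ofReal Real.pi := by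
      rw [← NNReal.coe_real_pi, ENNReal.ofReal_coe_nnreal]
    rw [this]
  have hdir := dirichlet_le isOpen_univ hw1 (w.injective.injOn) hk0 hk (fun y _ => hdil y)
    (E := ball z (1 / 2)) measurableSet_ball (subset_univ _) hA0 hvol
  have hcont : Continuous fun y => ‖fderiv ℝ w y‖ ^ 2 :=
    ((hw.continuous_fderiv (by simp)).norm).pow 2
  have hint : ∫ y in ball z (1 / 2), ‖fderiv ℝ w y‖ ^ 2 ≤ M := by
    rw [integral_eq_lintegral_of_nonneg_ae (Eventually.of_forall fun y => by positivity)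
      hcont.aestronglyMeasurable.restrict]
    refine ENNReal.toReal_le_of_le_ofReal hM0 ?_
    exact hdir
  have hcl := courant_lebesgue isOpen_univ hw1 hdet (z₀ := z) (r := δ) (R := 1 / 2) hδ0 hδ1
    (subset_univ _) hint (z := z) (z' := z') (mem_closedBall_self hδ0.le)
    (by rw [mem_closedBall, dist_comm]; exact hzz'.le)
  have hlog : Real.log (1 / 2 / δ) = T := by
    have : 1 / 2 / δ = Real.exp T := by
      rw [hδ, Real.exp_neg]
      field_simp
    rw [this, Real.log_exp]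
  rw [hlog] at hcl
  have h1 : 2 * Real.pi * M / T < ε ^ 2 := by
    rw [div_lt_iff₀ hT0, hT, mul_add, mul_one]
    have : ε ^ 2 * (2 * Real.pi * M / ε ^ 2) = 2 * Real.pi * M := by field_simp
    rw [this]
    have : 0 < ε ^ 2 := by positivity
    linarith
  have h2 : dist (w z) (w z') ^ 2 < ε ^ 2 := lt_of_le_of_lt hcl h1
  exact lt_of_pow_lt_pow_left₀ 2 hε.le h2

end QC
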