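import Pool.Agent.Work.MP_217185_an.BersE

/-! # ContrA1: first order estimates for the Bers map

Let `m ≥ ‖ν‖` pointwise (sup norm), `e(ν) = bersD ν - ν/3`.
(1) `m ≤ 1/8`: `F t = bers (t ν) z` is holomorphic on `|t| < Λ = 1/(2 m)`
(`bers_differentiableAt` with `m t = t ν`), `|F t| ≤ 2 |t| m` (`norm_bers_le`, `k = 1/2`),
`F' 0 = ν z/3` (`deriv_bers_harm`), so `|e(ν) z| ≤ C m²` (`cauchy_second`).
(2) `|e(ν) z - e(ν') z| ≤ C ρ d` for `‖ν‖, ‖ν'‖ ≤ ρ/4`, `ρ ≤ 1/8`, `‖ν - ν'‖ ≤ d ≤ ρ/2` pointwise: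
`cauchy_lip` for `t ↦ e(ν + t (ν' - ν)) z` on `|t| < ρ/d`, where it is `≤ C (2ρ)²`.
(3) If moreover `ν ∈ HSp S`: `t ↦ bersE S (t ν)` is holomorphic into `HSp S`
(`bersE_differentiableOn`), norm `≤ C |t| ‖ν‖` (`norm_bersE`), derivative at `0` is `ν/3` (evaluate);
so `‖bersE S ν - ν/3‖ ≤ C m ‖ν‖` (`cauchy_second`).  (If `m = 0` then `ν = 0`.) -/

open MeasureTheory Complex Set Metric Filter
open scoped Topology ENNReal NNReal ContDiff ComplexConjugate

namespace QC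

private theorem ContrA1_bersD {ν : ℂ → ℂ} {z : ℂ} (hz : z ∈ D) : bersD ν z = bers ν z := by
  unfold bersD
  rw [if_pos]
  simpa using hz

private theorem ContrA1_bel {ν : ℂ → ℂ} (hν : Harm ν) {m : ℝ} (hm : 0 < m)
    (hb : ∀ z, ‖ν z‖ ≤ m) {t : ℂ} (ht : ‖t‖ < 1 / (2 * m)) : Bel (1 / 2) (fun ζ => t * ν ζ) := by
  refine ⟨hν.measurable.const_mul t, fun z => ?_, by norm_num⟩
  rw [norm_mul]
  calc ‖t‖ * ‖ν z‖ ≤ 1 / (2 * m) * m := by
        apply mul_le_mul ht.le (hb z) (norm_nonneg _)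
        positivity
    _ = 1 / 2 := by field_simp

private theorem ContrA1_supp {ν : ℂ → ℂ} (hν : Harm ν) (t : ℂ) :
    SuppIn 1 (fun ζ => t * ν ζ) := (Harm.smul t hν).suppIn

private theorem ContrA1_udiff {ν : ℂ → ℂ} (hν : Harm ν) {m : ℝ} (hm : 0 < m)
    (hb : ∀ z, ‖ν z‖ ≤ m) (t₀ : ℂ) : UDiff (fun (t : ℂ) (ζ : ℂ) => t * ν ζ) t₀ := by
  refine ⟨1, m, fun x ζ => x * ν ζ, one_pos, fun x y ζ => by ring, fun c x ζ => ?_,
    fun x => hν.measurable.const_mul x, fun x ζ => ?_, fun x _ ζ => ?_⟩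
  · rw [smul_eq_mul]; ring
  · rw [norm_mul, mul_comm]
    exact mul_le_mul_of_nonneg_right (hb ζ) (norm_nonneg _)
  · have : (t₀ + x) * ν ζ - t₀ * ν ζ - x * ν ζ = 0 := by ring
    rw [this, norm_zero]
    positivity

private theorem ContrA1_sqrt : 1 / 2 ≤ Real.sqrt (1 - (1 / 2 : ℝ) ^ 2) := by
  apply Real.le_sqrt_of_sq_le
  norm_num

theorem err_sup : ∃ C : ℝ, 0 < C ∧ ∀ (ν : ℂ → ℂ) (m : ℝ), Harm ν → m ≤ 1 / 8 →
    (∀ z, ‖ν z‖ ≤ m) → ∀ z ∈ D, ‖bersD ν z - ν z / 3‖ ≤ C * m ^ 2 := by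
  refine ⟨16, by norm_num, ?_⟩
  intro ν m hν hm8 hb z hz
  have hz' : ‖z‖ < 1 := by simpa using hz
  have hm0 : 0 ≤ m := (norm_nonneg _).trans (hb 0)
  rw [ContrA1_bersD hz]
  rcases hm0.eq_or_lt with hm | hm
  · -- the trivial case
    have hz0 : ν = fun _ => 0 := by
      funext w
      have := hb w
      rw [← hm] at this
      exact norm_le_zero_iff.1 this
    have hB : Bel (1 / 2) ν := ⟨hν.measurable, fun w => (hb w).trans (by linarith), by norm_num⟩
    have h1 := norm_bers_le hB hν.suppIn z hz' hb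
    rw [← hm, zero_div] at h1
    have h2 : bers ν z = 0 := norm_le_zero_iff.1 h1
    have h3 : ν z = 0 := by rw [hz0]
    rw [h2, h3]
    simp
    positivity
  · set Lam : ℝ := 1 / (2 * m) with hLam
    have hLpos : 0 < Lam := by positivity
    have hL2 : 2 ≤ Lam := by
      rw [hLam, le_div_iff₀ (by positivity)]
      linarith
    set F : ℂ → ℂ := fun t => bers (fun ζ => t * ν ζ) z with hF
    have hbound : ∀ t, ‖t‖ < Lam → ‖F t‖ ≤ (2 * m) * ‖t‖ := by
      intro t ht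
      have h1 := norm_bers_le (ContrA1_bel hν hm hb ht) (ContrA1_supp hν t) z hz'
        (m := ‖t‖ * m) (fun ζ => by
          rw [norm_mul]
          exact mul_le_mul_of_nonneg_left (hb ζ) (norm_nonneg _))
      refine h1.trans ?_
      rw [div_le_iff₀ (lt_of_lt_of_le (by norm_num) ContrA1_sqrt)]
      have h2 : 0 ≤ 2 * m * ‖t‖ := by positivity
      calc ‖t‖ * m = 2 * m * ‖t‖ * (1 / 2) := by ring
        _ ≤ 2 * m * ‖t‖ * Real.sqrt (1 - (1 / 2 : ℝ) ^ 2) :=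
          mul_le_mul_of_nonneg_left ContrA1_sqrt h2
    have hdiff : DifferentiableOn ℂ F (ball 0 Lam) := by
      intro t ht
      have ht' : ‖t‖ < Lam := by simpa using ht
      refine DifferentiableAt.differentiableWithinAt ?_
      exact bers_differentiableAt (E := ℂ) (k := 1 / 2) (m := fun (t : ℂ) (ζ : ℂ) => t * ν ζ)
        isOpen_ball (fun x hx => ContrA1_bel hν hm hb (mem_ball_zero_iff.1 hx))
        (fun x _ => ContrA1_supp hν x) ht (ContrA1_udiff hν hm hb t) hz'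
    have hF0 : F 0 = 0 := by
      have h1 := hbound 0 (by rw [norm_zero]; exact hLpos)
      rw [norm_zero, mul_zero] at h1
      exact norm_le_zero_iff.1 h1
    have hmain := cauchy_second hL2 hdiff hF0 hbound
    have hd : deriv F 0 = ν z / 3 := (deriv_bers_harm hν hb hz').deriv
    have hF1 : F 1 = bers ν z := by
      rw [hF]
      simp only [one_mul]
    rw [hd, hF1] at hmain
    refine hmain.trans (le_of_eq ?_)
    rw [hLam]
    field_simp
    norm_num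

end QC
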