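import Pool.Agent.Work.MP_217185_an.BersE
import Pool.Agent.Work.MP_217185_an.ContrA1

/-! # ContrA2: first order estimates for the Bers map

Let `m ≥ ‖ν‖` pointwise (sup norm), `e(ν) = bersD ν - ν/3`.
(1) `m ≤ 1/8`: `F t = bers (t ν) z` is holomorphic on `|t| < Λ = 1/(2 m)`
(`bers_differentiableAt` with `m t = t ν`), `|F t| ≤ 2 |t| m` (`norm_bers_le`, `k = 1/2`),
`F' 0 = ν z/3` (`deriv_bers_harm`), so `|e(ν) z| ≤ C m²` (`cauchy_second`).
(2) `|e(ν) z - e(ν') z| ≤ C ρ d` for `‖ν‖, ‖ν'‖ ≤ ρ/4`, `ρ ≤ 1/8`, `‖ν - ν'‖ ≤ d` pointwise.  If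
`d ≥ ρ/4` use `err_sup` twice.  If `0 < d < ρ/4`: `cauchy_lip` for `t ↦ e(ν + t (ν' - ν)) z` on
`|t| < ρ/(2 d)` (`≥ 2`), where the coefficient is `≤ ρ/4 + ρ/2 ≤ 1/8`, so it is `≤ C ρ²`
(`bers_differentiableAt` for holomorphy).  `d ≤ 0`: `ν = ν'`.
(3) If moreover `ν ∈ HSp S`: `t ↦ bersE S (t ν)` is holomorphic into `HSp S`
(`bersE_differentiableOn`), norm `≤ C |t| ‖ν‖` (`norm_bersE`), derivative at `0` is `ν/3` (evaluate);
so `‖bersE S ν - ν/3‖ ≤ C m ‖ν‖` (`cauchy_second`).  (If `m = 0` then `ν = 0`.) -/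

open MeasureTheory Complex Set Metric Filter
open scoped Topology ENNReal NNReal ContDiff ComplexConjugate

namespace QC

/-- the line `t ↦ ν' + t (ν - ν')`. -/
private noncomputable def ContrA2_line (ν ν' : ℂ → ℂ) (t : ℂ) (ζ : ℂ) : ℂ :=
  ν' ζ + t * (ν ζ - ν' ζ)

private theorem ContrA2_harm {ν ν' : ℂ → ℂ} (h : Harm ν) (h' : Harm ν') (t : ℂ) :
    Harm (ContrA2_line ν ν' t) := by
  have h1 := h'.add ((h.add (Harm.smul (-1) h')).smul t)
  have h2 : (fun z => ν' z + t * (ν z + -1 * ν' z)) = ContrA2_line ν ν' t := by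
    funext z
    unfold ContrA2_line
    ring
  rw [← h2]
  exact h1

private theorem ContrA2_le {ν ν' : ℂ → ℂ} {ρ d : ℝ} (hd : 0 < d)
    (h1 : ∀ z, ‖ν' z‖ ≤ ρ / 4) (h2 : ∀ z, ‖ν z - ν' z‖ ≤ d) {t : ℂ} (ht : ‖t‖ < ρ / (2 * d))
    (z : ℂ) : ‖ContrA2_line ν ν' t z‖ ≤ 3 * ρ / 4 := by
  unfold ContrA2_line
  have h3 : ‖t * (ν z - ν' z)‖ ≤ ρ / 2 := by
    rw [norm_mul]
    calc ‖t‖ * ‖ν z - ν' z‖ ≤ ρ / (2 * d) * d :=
          mul_le_mul ht.le (h2 z) (norm_nonneg _) ((norm_nonneg _).trans ht.le)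
      _ = ρ / 2 := by field_simp
  calc ‖ν' z + t * (ν z - ν' z)‖ ≤ ‖ν' z‖ + ‖t * (ν z - ν' z)‖ := norm_add_le _ _
    _ ≤ ρ / 4 + ρ / 2 := add_le_add (h1 z) h3
    _ = 3 * ρ / 4 := by ring

private theorem ContrA2_udiff {ν ν' : ℂ → ℂ} (h : Harm ν) (h' : Harm ν') {d : ℝ} (hd : 0 < d)
    (h2 : ∀ z, ‖ν z - ν' z‖ ≤ d) (t₀ : ℂ) : UDiff (ContrA2_line ν ν') t₀ := by
  refine ⟨1, d, fun x ζ => x * (ν ζ - ν' ζ), one_pos, fun x y ζ => by ring, fun c x ζ => ?_,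
    fun x => (h.measurable.sub h'.measurable).const_mul x, fun x ζ => ?_, fun x _ ζ => ?_⟩
  · rw [smul_eq_mul]; ring
  · rw [norm_mul, mul_comm]
    exact mul_le_mul_of_nonneg_right (h2 ζ) (norm_nonneg _)
  · have : ContrA2_line ν ν' (t₀ + x) ζ - ContrA2_line ν ν' t₀ ζ - x * (ν ζ - ν' ζ) = 0 := by
      unfold ContrA2_line
      ring
    rw [this, norm_zero]
    positivity

theorem err_lip : ∃ C : ℝ, 0 < C ∧ ∀ (ν ν' : ℂ → ℂ) (ρ d : ℝ), Harm ν → Harm ν' → 0 < ρ →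
    ρ ≤ 1 / 8 → (∀ z, ‖ν z‖ ≤ ρ / 4) → (∀ z, ‖ν' z‖ ≤ ρ / 4) → (∀ z, ‖ν z - ν' z‖ ≤ d) →
    ∀ z ∈ D, ‖(bersD ν z - ν z / 3) - (bersD ν' z - ν' z / 3)‖ ≤ C * ρ * d := by
  obtain ⟨C, hC, hsup⟩ := err_sup
  refine ⟨8 * C, by positivity, ?_⟩
  intro ν ν' ρ d hν hν' hρ hρ8 hb hb' hd z hz
  have hz' : ‖z‖ < 1 := by simpa using hz
  have hd0 : 0 ≤ d := (norm_nonneg _).trans (hd 0)
  rcases hd0.eq_or_lt with hd1 | hd1
  · have h1 : ν = ν' := by
      funext w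
      have := hd w
      rw [← hd1] at this
      exact sub_eq_zero.1 (norm_le_zero_iff.1 this)
    rw [h1, sub_self, norm_zero]
    positivity
  rcases le_or_gt (ρ / 4) d with hd2 | hd2
  · have h1 := hsup ν (ρ / 4) hν (by linarith) hb z hz
    have h2 := hsup ν' (ρ / 4) hν' (by linarith) hb' z hz
    calc ‖(bersD ν z - ν z / 3) - (bersD ν' z - ν' z / 3)‖
        ≤ ‖bersD ν z - ν z / 3‖ + ‖bersD ν' z - ν' z / 3‖ := norm_sub_le _ _
      _ ≤ C * (ρ / 4) ^ 2 + C * (ρ / 4) ^ 2 := add_le_add h1 h2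
      _ = C * ρ * (ρ / 8) := by ring
      _ ≤ C * ρ * (8 * d) := by
          apply mul_le_mul_of_nonneg_left _ (by positivity)
          linarith
      _ = 8 * C * ρ * d := by ring
  · set Lam : ℝ := ρ / (2 * d) with hLam
    have hLpos : 0 < Lam := by positivity
    have hL2 : 2 ≤ Lam := by
      rw [hLam, le_div_iff₀ (by positivity)]
      linarith
    set G : ℂ → ℂ := fun t => bers (ContrA2_line ν ν' t) z - ContrA2_line ν ν' t z / 3 with hG
    have hle : ∀ t, ‖t‖ < Lam → ∀ ζ, ‖ContrA2_line ν ν' t ζ‖ ≤ 3 * ρ / 4 := fun t ht ζ =>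
      ContrA2_le hd1 hb' hd ht ζ
    have hbd : ∀ μ : ℂ → ℂ, bersD μ z = bers μ z := fun μ => by
      unfold bersD
      rw [if_pos hz']
    have hbound : ∀ t, ‖t‖ < Lam → ‖G t‖ ≤ C * ρ ^ 2 := by
      intro t ht
      have h1 := hsup (ContrA2_line ν ν' t) (3 * ρ / 4) (ContrA2_harm hν hν' t) (by linarith)
        (hle t ht) z hz
      rw [hbd] at h1
      refine h1.trans ?_
      apply mul_le_mul_of_nonneg_left _ hC.le
      nlinarith
    have hdiff : DifferentiableOn ℂ G (ball 0 Lam) := by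
      intro t ht
      have ht' : ‖t‖ < Lam := mem_ball_zero_iff.1 ht
      refine DifferentiableAt.differentiableWithinAt (DifferentiableAt.sub ?_ ?_)
      · exact bers_differentiableAt (E := ℂ) (k := 3 * ρ / 4) (m := ContrA2_line ν ν')
          isOpen_ball (fun x hx => ⟨(ContrA2_harm hν hν' x).measurable,
            hle x (mem_ball_zero_iff.1 hx), by linarith⟩)
          (fun x _ => (ContrA2_harm hν hν' x).suppIn) ht (ContrA2_udiff hν hν' hd1 hd t) hz'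
      · unfold ContrA2_line
        fun_prop
    have hmain := cauchy_lip hL2 hdiff hbound
    have h1 : ContrA2_line ν ν' 1 = ν := by
      funext w
      unfold ContrA2_line
      ring
    have h0 : ContrA2_line ν ν' 0 = ν' := by
      funext w
      unfold ContrA2_line
      ring
    have hG1 : G 1 = bersD ν z - ν z / 3 := by
      simp only [hG, h1, hbd]
    have hG0 : G 0 = bersD ν' z - ν' z / 3 := by
      simp only [hG, h0, hbd]
    rw [hG1, hG0] at hmain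
    refine hmain.trans (le_of_eq ?_)
    rw [hLam]
    field_simp
    norm_num

end QC
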