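import Pool.Agent.Work.MP_217185_an.BersE

/-! # ContrA3: first order estimates for the Bers map

Let `m ≥ ‖ν‖` pointwise (sup norm), `e(ν) = bersD ν - ν/3`.
(1) `m ≤ 1/8`: `F t = bers (t ν) z` is holomorphic on `|t| < Λ = 1/(2 m)`
(`bers_differentiableAt` with `m t = t ν`), `|F t| ≤ 2 |t| m` (`norm_bers_le`, `k = 1/2`),
`F' 0 = ν z/3` (`deriv_bers_harm`), so `|e(ν) z| ≤ C m²` (`cauchy_second`).
(2) `|e(ν) z - e(ν') z| ≤ C ρ d` for `‖ν‖, ‖ν'‖ ≤ ρ/4`, `ρ ≤ 1/8`, `‖ν - ν'‖ ≤ d ≤ ρ/2` pointwise: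
`cauchy_lip` for `t ↦ e(ν + t (ν' - ν)) z` on `|t| < ρ/d`, where it is `≤ C (2ρ)²`.
(3) If moreover `ν ∈ HSp S`: `t ↦ bersE S (t ν)` is holomorphic into `HSp S`
(`bersE_differentiableOn`), norm `≤ C |t| ‖ν‖` (`norm_bersE`), derivative at `0` is `ν/3` (evaluate);
so `‖bersE S ν - ν/3‖ ≤ C m ‖ν‖` (`cauchy_second`).  (If `m = 0` then `ν = 0`.) -/

open MeasureTheory Complex Set Metric Filter
open scoped Topology ENNReal NNReal ContDiff ComplexConjugate

namespace QC

private theorem ContrA3_bel {S : Bord} (x : HSp S) {m : ℝ} (hm : 0 < m)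
    (hb : ∀ z, ‖x.fn z‖ ≤ m) {t : ℂ} (ht : ‖t‖ < 1 / (2 * m)) : Bel (1 / 2) (t • x).fn := by
  refine ⟨(t • x).harm.measurable, fun z => ?_, by norm_num⟩
  rw [HSp.fn_smul, norm_mul]
  calc ‖t‖ * ‖x.fn z‖ ≤ 1 / (2 * m) * m := by
        apply mul_le_mul ht.le (hb z) (norm_nonneg _)
        positivity
    _ = 1 / 2 := by field_simp

private theorem ContrA3_udiff {S : Bord} (x : HSp S) {m : ℝ} (hm : 0 < m)
    (hb : ∀ z, ‖x.fn z‖ ≤ m) (t₀ : ℂ) : UDiff (fun t : ℂ => (t • x).fn) t₀ := by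
  refine ⟨1, m, fun y ζ => y * x.fn ζ, one_pos, fun y y' ζ => by ring, fun c y ζ => ?_,
    fun y => x.harm.measurable.const_mul y, fun y ζ => ?_, fun y _ ζ => ?_⟩
  · rw [smul_eq_mul]; ring
  · rw [norm_mul, mul_comm]
    exact mul_le_mul_of_nonneg_right (hb ζ) (norm_nonneg _)
  · have : ((t₀ + y) • x).fn ζ - (t₀ • x).fn ζ - y * x.fn ζ = 0 := by
      rw [HSp.fn_smul, HSp.fn_smul]
      ring
    rw [this, norm_zero]
    positivity

/-- `‖bersE S ν‖ ≤ 2 ‖ν‖` for coefficients bounded by `1/2`. -/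
private theorem ContrA3_norm {S : Bord} (x : HSp S) (hB : Bel (1 / 2) x.fn) :
    ‖bersE S x.fn‖ ≤ 2 * ‖x‖ := by
  have h1 := norm_bersE hB x.harm.suppIn x.inv.aeInv x.l2 (isFund_fund S)
  rw [← HSp.norm_sq x (isFund_fund S), ← ENNReal.ofReal_mul (by norm_num),
    ENNReal.ofReal_le_ofReal_iff (by positivity)] at h1
  have h2 : ‖bersE S x.fn‖ ^ 2 ≤ (2 * ‖x‖) ^ 2 := by
    refine h1.trans ?_
    have := sq_nonneg ‖x‖
    nlinarith
  exact (pow_le_pow_iff_left₀ (norm_nonneg _) (by positivity) two_ne_zero).mp h2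

theorem bersE_sub_le : ∃ C : ℝ, 0 < C ∧ ∀ (S : Bord) (x : HSp S) (m : ℝ), m ≤ 1 / 8 →
    (∀ z, ‖x.fn z‖ ≤ m) → ‖bersE S x.fn - (1 / 3 : ℂ) • x‖ ≤ C * m * ‖x‖ := by
  refine ⟨16, by norm_num, ?_⟩
  intro S x m hm8 hb
  have hm0 : 0 ≤ m := (norm_nonneg _).trans (hb 0)
  rcases hm0.eq_or_lt with hm | hm
  · -- the trivial case
    have hx0 : x = 0 := by
      apply HSp.ext
      funext w
      have := hb w
      rw [← hm] at this
      rw [HSp.fn_zero]
      exact norm_le_zero_iff.1 this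
    have hB : Bel (1 / 2) x.fn :=
      ⟨x.harm.measurable, fun w => (hb w).trans (by linarith), by norm_num⟩
    have h1 := ContrA3_norm x hB
    rw [hx0, norm_zero, mul_zero] at h1
    have h2 : bersE S (0 : HSp S).fn = 0 := norm_le_zero_iff.1 h1
    rw [hx0, h2]
    simp
  · set Lam : ℝ := 1 / (2 * m) with hLam
    have hLpos : 0 < Lam := by positivity
    have hL2 : 2 ≤ Lam := by
      rw [hLam, le_div_iff₀ (by positivity)]
      linarith
    set F : ℂ → HSp S := fun t => bersE S (t • x).fn with hF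
    have hbel : ∀ t : ℂ, ‖t‖ < Lam → Bel (1 / 2) (t • x).fn := fun t ht =>
      ContrA3_bel x hm hb ht
    have hbound : ∀ t, ‖t‖ < Lam → ‖F t‖ ≤ (2 * ‖x‖) * ‖t‖ := by
      intro t ht
      have h1 := ContrA3_norm (t • x) (hbel t ht)
      rw [norm_smul] at h1
      calc ‖F t‖ ≤ 2 * (‖t‖ * ‖x‖) := h1
        _ = (2 * ‖x‖) * ‖t‖ := by ring
    have hdiff : DifferentiableOn ℂ F (ball 0 Lam) := by
      refine bersE_differentiableOn (E := ℂ) (k := 1 / 2) (m := fun t : ℂ => (t • x).fn)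
        isOpen_ball (fun t ht => hbel t (mem_ball_zero_iff.1 ht))
        (fun t _ => (t • x).harm.suppIn) (fun t _ => (t • x).inv.aeInv) (fun t _ => (t • x).l2)
        (fun t _ => ContrA3_udiff x hm hb t) (isFund_fund S) ?_
      intro a _
      refine ⟨1, one_pos, (Lam * ‖x‖) ^ 2, fun t ht _ => ?_⟩
      rw [← HSp.norm_sq (t • x) (isFund_fund S)]
      apply ENNReal.ofReal_le_ofReal
      rw [norm_smul]
      have h1 : ‖t‖ ≤ Lam := (mem_ball_zero_iff.1 ht).le
      gcongr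
    have hF0 : F 0 = 0 := by
      have h1 := hbound 0 (by rw [norm_zero]; exact hLpos)
      rw [norm_zero, mul_zero] at h1
      exact norm_le_zero_iff.1 h1
    have hmain := cauchy_second hL2 hdiff hF0 hbound
    have hd : deriv F 0 = (1 / 3 : ℂ) • x := by
      have hFd : HasDerivAt F (deriv F 0) 0 :=
        ((hdiff 0 (mem_ball_self hLpos)).differentiableAt (ball_mem_nhds _ hLpos)).hasDerivAt
      apply HSp.ext
      funext z
      change (deriv F 0).fn z = 1 / 3 * x.fn z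
      by_cases hz : z ∈ D
      · have hz' : ‖z‖ < 1 := by simpa using hz
        obtain ⟨l, hl⟩ := exists_eval S z
        have h1 : HasDerivAt (fun t => l (F t)) (l (deriv F 0)) 0 :=
          l.hasFDerivAt.comp_hasDerivAt 0 hFd
        have h2 := deriv_bers_harm x.harm hb hz'
        have h3 : (fun t => l (F t)) =ᶠ[𝓝 0] fun t : ℂ => bers (fun ζ => t * x.fn ζ) z := by
          filter_upwards [ball_mem_nhds (0 : ℂ) hLpos] with t ht
          have ht' : ‖t‖ < Lam := mem_ball_zero_iff.1 ht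
          rw [hl, hF]
          simp only
          rw [bersE_fn (hbel t ht') (t • x).harm.suppIn (t • x).inv.aeInv (t • x).l2]
          unfold bersD
          rw [if_pos hz', HSp.fn_smul]
        have h4 := (h2.congr_of_eventuallyEq h3).unique h1
        rw [← hl, ← h4]
        ring
      · rw [(deriv F 0).harm.2 z hz, x.harm.2 z hz, mul_zero]
    have hF1 : F 1 = bersE S x.fn := by
      simp only [hF, one_smul]
    rw [hd, hF1] at hmain
    refine hmain.trans (le_of_eq ?_)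
    rw [hLam]
    field_simp
    ring

end QC
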