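import Pool.Agent.Work.MP_217185_an.ContrA

/-! # ContrB: solving `bers ν = φ` with small sup norm

Iterate `ν_{n+1} = 3 (φ - e(ν_n))` (`e(ν) = bersE S ν - ν/3`), `ν_0 = 0`, in `HSp S`: for `ρ` small
(depending only on `ε₀` and the constants of `ContrA`) and `‖φ‖_∞ ≤ ρ/24` it stays in the sup ball of
radius `ρ/4` (`err_sup`) and is uniformly Cauchy (`err_lip`, ratio `3 C ρ ≤ 1/2`); the uniform limit is
harmonic and invariant (`Harm.of_tendsto`).  `‖ν_{n+1}‖ ≤ 3 ‖φ‖ + 3 C ρ ‖ν_n‖` (`bersE_sub_le`), so the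
Hilbert norms stay bounded and the limit is square integrable (Fatou).  In the limit
`bersD ν = φ` by `err_lip` (continuity of `e` for the sup norm). -/

open MeasureTheory Complex Set Metric Filter
open scoped Topology ENNReal NNReal ContDiff ComplexConjugate

namespace QC

private theorem bersE_fn_of_small {S : Bord} (x : HSp S) (h : ∀ z, ‖x.fn z‖ ≤ 1 / 8) :
    (bersE S x.fn).fn = bersD x.fn :=
  bersE_fn (k := 1 / 8) ⟨x.harm.measurable, h, by norm_num⟩ x.harm.suppIn x.inv.aeInv x.l2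

/-- the iteration -/
private noncomputable def itr (S : Bord) (φ : HSp S) : ℕ → HSp S
  | 0 => 0
  | n + 1 => (3 : ℂ) • (φ - (bersE S (itr S φ n).fn - (1 / 3 : ℂ) • itr S φ n))

private theorem itr_fn (S : Bord) (φ : HSp S) (n : ℕ) (h : ∀ z, ‖(itr S φ n).fn z‖ ≤ 1 / 8)
    (z : ℂ) : (itr S φ (n + 1)).fn z =
      3 * (φ.fn z - (bersD (itr S φ n).fn z - (itr S φ n).fn z / 3)) := by
  have h1 : (itr S φ (n + 1)).fn z =
      3 * (φ.fn z - ((bersE S (itr S φ n).fn).fn z - (1 / 3 : ℂ) * (itr S φ n).fn z)) := rfl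
  rw [h1, bersE_fn_of_small _ h]
  ring

theorem solve_small {ε₀ : ℝ} (hε₀ : 0 < ε₀) : ∃ ε > 0, ∀ (S : Bord) (φ : HSp S),
    (∀ z, ‖φ.fn z‖ ≤ ε) → ∃ x : HSp S, (∀ z, ‖x.fn z‖ ≤ ε₀) ∧ bersE S x.fn = φ := by
  obtain ⟨Cs, hCs, hsup⟩ := err_sup
  obtain ⟨Cl, hCl, hlip⟩ := err_lip
  obtain ⟨Cq, hCq, hquad⟩ := bersE_sub_le
  obtain ⟨ρ, hρ, hρ1, hρ2, hρ3, hρ4, hρ5⟩ : ∃ ρ : ℝ, 0 < ρ ∧ ρ ≤ 1 / 8 ∧ ρ ≤ ε₀ ∧
      3 * Cs * ρ ≤ 2 ∧ 3 * Cl * ρ ≤ 1 / 2 ∧ 3 * Cq * ρ ≤ 2 := by
    refine ⟨min (1 / 8) (min ε₀ (min (2 / (3 * Cs)) (min (1 / (6 * Cl)) (2 / (3 * Cq))))),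
      by positivity, min_le_left _ _, (min_le_right _ _).trans (min_le_left _ _), ?_, ?_, ?_⟩
    · calc 3 * Cs * min (1 / 8) (min ε₀ (min (2 / (3 * Cs)) (min (1 / (6 * Cl)) (2 / (3 * Cq)))))
          ≤ 3 * Cs * (2 / (3 * Cs)) := by
            apply mul_le_mul_of_nonneg_left _ (by positivity)
            exact (min_le_right _ _).trans ((min_le_right _ _).trans (min_le_left _ _))
        _ = 2 := by field_simp
    · calc 3 * Cl * min (1 / 8) (min ε₀ (min (2 / (3 * Cs)) (min (1 / (6 * Cl)) (2 / (3 * Cq)))))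
          ≤ 3 * Cl * (1 / (6 * Cl)) := by
            apply mul_le_mul_of_nonneg_left _ (by positivity)
            exact (min_le_right _ _).trans ((min_le_right _ _).trans ((min_le_right _ _).trans
              (min_le_left _ _)))
        _ = 1 / 2 := by field_simp; norm_num
    · calc 3 * Cq * min (1 / 8) (min ε₀ (min (2 / (3 * Cs)) (min (1 / (6 * Cl)) (2 / (3 * Cq)))))
          ≤ 3 * Cq * (2 / (3 * Cq)) := by
            apply mul_le_mul_of_nonneg_left _ (by positivity)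
            exact (min_le_right _ _).trans ((min_le_right _ _).trans ((min_le_right _ _).trans
              (min_le_right _ _)))
        _ = 2 := by field_simp
  refine ⟨ρ / 24, by positivity, ?_⟩
  intro S φ hφ
  set x : ℕ → HSp S := itr S φ with hx
  -- sup bounds
  have hb : ∀ n z, ‖(x n).fn z‖ ≤ ρ / 4 := by
    intro n
    induction n with
    | zero =>
      intro z
      have : (x 0).fn z = 0 := rfl
      rw [this, norm_zero]
      positivity
    | succ n ih =>
      intro z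
      by_cases hz : z ∈ D
      · rw [hx, itr_fn S φ n (fun z => (ih z).trans (by linarith)) z, norm_mul]
        have h1 := hsup (x n).fn (ρ / 4) (x n).harm (by linarith) ih z hz
        have h2 : ‖φ.fn z - (bersD (itr S φ n).fn z - (itr S φ n).fn z / 3)‖ ≤
            ρ / 24 + Cs * (ρ / 4) ^ 2 := (norm_sub_le _ _).trans (add_le_add (hφ z) h1)
        have h3 : ‖(3 : ℂ)‖ = 3 := by norm_num
        rw [h3]
        have h4 : 3 * Cs * ρ * ρ ≤ 2 * ρ := mul_le_mul_of_nonneg_right hρ3 hρ.le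
        nlinarith
      · rw [(x (n + 1)).harm.2 z hz, norm_zero]
        positivity
  have hb8 : ∀ n z, ‖(x n).fn z‖ ≤ 1 / 8 := fun n z => (hb n z).trans (by linarith)
  have hstep : ∀ n z, (x (n + 1)).fn z = 3 * (φ.fn z - (bersD (x n).fn z - (x n).fn z / 3)) :=
    fun n z => itr_fn S φ n (hb8 n) z
  -- differences
  have hdiff : ∀ n z, ‖(x (n + 1)).fn z - (x n).fn z‖ ≤ ρ / 4 / 2 ^ n := by
    intro n
    induction n with
    | zero =>
      intro z
      have : (x 0).fn z = 0 := rfl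
      rw [this, sub_zero, pow_zero, div_one]
      exact hb 1 z
    | succ n ih =>
      intro z
      by_cases hz : z ∈ D
      · rw [hstep (n + 1) z]
        nth_rewrite 2 [hstep n z]
        have h1 := hlip (x (n + 1)).fn (x n).fn ρ (ρ / 4 / 2 ^ n) (x (n + 1)).harm (x n).harm hρ hρ1
          (hb (n + 1)) (hb n) ih z hz
        have h2 : 3 * (φ.fn z - (bersD (x (n + 1)).fn z - (x (n + 1)).fn z / 3)) -
            3 * (φ.fn z - (bersD (x n).fn z - (x n).fn z / 3)) =
            -(3 * ((bersD (x (n + 1)).fn z - (x (n + 1)).fn z / 3) -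
              (bersD (x n).fn z - (x n).fn z / 3))) := by ring
        rw [h2, norm_neg, norm_mul]
        have h3 : ‖(3 : ℂ)‖ = 3 := by norm_num
        rw [h3]
        have h4 : 0 ≤ ρ / 4 / 2 ^ n := by positivity
        calc 3 * ‖(bersD (x (n + 1)).fn z - (x (n + 1)).fn z / 3) -
              (bersD (x n).fn z - (x n).fn z / 3)‖ ≤ 3 * (Cl * ρ * (ρ / 4 / 2 ^ n)) := by linarith
          _ = (3 * Cl * ρ) * (ρ / 4 / 2 ^ n) := by ring
          _ ≤ 1 / 2 * (ρ / 4 / 2 ^ n) := mul_le_mul_of_nonneg_right hρ4 h4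
          _ = ρ / 4 / 2 ^ (n + 1) := by rw [pow_succ]; field_simp
      · rw [(x (n + 1 + 1)).harm.2 z hz, (x (n + 1)).harm.2 z hz, sub_zero, norm_zero]
        positivity
  -- the limit
  have hcau : ∀ z, CauchySeq (fun n => (x n).fn z) := by
    intro z
    refine cauchySeq_of_le_geometric_two (C := ρ / 2) (fun n => ?_)
    rw [dist_comm, dist_eq_norm]
    refine (hdiff n z).trans (le_of_eq ?_)
    ring
  choose ν hν using fun z => cauchySeq_tendsto_of_complete (hcau z)
  have hrate : ∀ n z, ‖(x n).fn z - ν z‖ ≤ ρ / 2 / 2 ^ n := by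
    intro n z
    have := dist_le_of_le_geometric_two_of_tendsto (C := ρ / 2) (f := fun n => (x n).fn z)
      (fun n => by
        rw [dist_comm, dist_eq_norm]
        refine (hdiff n z).trans (le_of_eq ?_)
        ring) (hν z) n
    rwa [dist_eq_norm] at this
  have hgeo : Tendsto (fun n : ℕ => ρ / 2 / 2 ^ n) atTop (𝓝 0) := by
    have h1 : Tendsto (fun n : ℕ => ((1 / 2 : ℝ)) ^ n) atTop (𝓝 0) :=
      tendsto_pow_atTop_nhds_zero_of_lt_one (by norm_num) (by norm_num)
    have h2 := h1.const_mul (ρ / 2)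
    rw [mul_zero] at h2
    refine h2.congr (fun n => ?_)
    rw [one_div, inv_pow]
    rfl
  have hunif : TendstoUniformly (fun n => (x n).fn) ν atTop := by
    rw [Metric.tendstoUniformly_iff]
    intro δ hδ
    filter_upwards [hgeo.eventually (gt_mem_nhds hδ)] with n hn z
    rw [dist_comm, dist_eq_norm]
    exact lt_of_le_of_lt (hrate n z) hn
  have hharm : Harm ν := Harm.of_tendsto (fun n => (x n).harm) hunif
  have hνb : ∀ z, ‖ν z‖ ≤ ρ / 4 := fun z =>
    le_of_tendsto (hν z).norm (Filter.Eventually.of_forall (fun n => hb n z))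
  have hinv : Inv S ν := by
    intro γ hγ a b hab hm z hz
    have h1 : ∀ n, pull a b (x n).fn z = (x n).fn z := fun n => (x n).inv γ hγ a b hab hm z hz
    have hz' : ‖z‖ < 1 := by simpa using hz
    have h2 : Tendsto (fun n => pull a b (x n).fn z) atTop (𝓝 (pull a b ν z)) := by
      unfold pull
      simp only [if_pos hz']
      exact (hν _).mul_const _
    have h3 := hν z
    simp only [h1] at h2
    exact tendsto_nhds_unique h2 h3
  -- Hilbert norms
  have hnorm : ∀ n, ‖x n‖ ≤ 6 * ‖φ‖ := by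
    intro n
    induction n with
    | zero =>
      have : x 0 = 0 := rfl
      rw [this, norm_zero]
      positivity
    | succ n ih =>
      have h1 : x (n + 1) = (3 : ℂ) • (φ - (bersE S (x n).fn - (1 / 3 : ℂ) • x n)) := rfl
      have h2 := hquad S (x n) (ρ / 4) (by linarith) (hb n)
      have h3 : ‖φ - (bersE S (x n).fn - (1 / 3 : ℂ) • x n)‖ ≤ ‖φ‖ + Cq * (ρ / 4) * ‖x n‖ :=
        (norm_sub_le _ _).trans (by linarith)
      have h4 : ‖(3 : ℂ)‖ = 3 := by norm_num
      rw [h1, norm_smul, h4]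
      have h5 : 3 * Cq * ρ * ‖x n‖ ≤ 2 * ‖x n‖ :=
        mul_le_mul_of_nonneg_right hρ5 (norm_nonneg _)
      nlinarith
  have hl2 : L2hyp S ν := by
    refine ⟨fund S, isFund_fund S, ?_⟩
    have h1 : ∫⁻ z in fund S, ‖ν z‖ₑ ^ 2 ∂hyp ≤
        liminf (fun n => ∫⁻ z in fund S, ‖(x n).fn z‖ₑ ^ 2 ∂hyp) atTop := by
      have h2 : ∀ z, ‖ν z‖ₑ ^ 2 = liminf (fun n => ‖(x n).fn z‖ₑ ^ 2) atTop := by
        intro z
        refine (Tendsto.liminf_eq ?_).symm
        exact ((ENNReal.continuous_pow 2).tendsto _).comp (hν z).enorm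
      calc ∫⁻ z in fund S, ‖ν z‖ₑ ^ 2 ∂hyp =
          ∫⁻ z in fund S, liminf (fun n => ‖(x n).fn z‖ₑ ^ 2) atTop ∂hyp := by
            simp only [← h2]
        _ ≤ _ := lintegral_liminf_le (fun n => (x n).harm.measurable.enorm.pow_const 2)
    refine lt_of_le_of_lt h1 ?_
    have h3 : ∀ n, ∫⁻ z in fund S, ‖(x n).fn z‖ₑ ^ 2 ∂hyp ≤
        ENNReal.ofReal ((6 * ‖φ‖) ^ 2) := by
      intro n
      rw [← HSp.norm_sq (x n) (isFund_fund S)]
      apply ENNReal.ofReal_le_ofReal
      have := hnorm n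
      gcongr
    have h5 : liminf (fun n => ∫⁻ z in fund S, ‖(x n).fn z‖ₑ ^ 2 ∂hyp) atTop ≤
        ENNReal.ofReal ((6 * ‖φ‖) ^ 2) :=
      (liminf_le_liminf (Filter.Eventually.of_forall h3)).trans_eq (liminf_const _)
    exact lt_of_le_of_lt h5 ENNReal.ofReal_lt_top
  refine ⟨HSp.mk ν hharm hinv hl2, ?_, ?_⟩
  · intro z
    rw [HSp.fn_mk]
    exact (hνb z).trans (by linarith)
  · apply HSp.ext
    have h8 : ∀ z, ‖(HSp.mk ν hharm hinv hl2).fn z‖ ≤ 1 / 8 := by
      intro z
      rw [HSp.fn_mk]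
      exact (hνb z).trans (by linarith)
    rw [bersE_fn_of_small _ h8, HSp.fn_mk]
    funext z
    by_cases hz : z ∈ D
    · have h1 : Tendsto (fun n => bersD (x n).fn z - (x n).fn z / 3) atTop
          (𝓝 (bersD ν z - ν z / 3)) := by
        rw [tendsto_iff_norm_sub_tendsto_zero]
        refine squeeze_zero (fun n => norm_nonneg _) (fun n => hlip (x n).fn ν ρ (ρ / 2 / 2 ^ n)
          (x n).harm hharm hρ hρ1 (hb n) hνb (fun z => hrate n z) z hz) ?_
        have := hgeo.const_mul (Cl * ρ)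
        rwa [mul_zero] at this
      have h2 : Tendsto (fun n => (x (n + 1)).fn z) atTop (𝓝 (ν z)) :=
        (hν z).comp (tendsto_add_atTop_nat 1)
      have h3 : Tendsto (fun n => (x (n + 1)).fn z) atTop
          (𝓝 (3 * (φ.fn z - (bersD ν z - ν z / 3)))) := by
        simp only [hstep]
        exact (tendsto_const_nhds.sub h1).const_mul 3
      have h4 := tendsto_nhds_unique h2 h3
      linear_combination (1 / 3 : ℂ) * h4
    · rw [φ.harm.2 z hz]
      unfold bersD
      rw [if_neg]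
      intro h
      exact hz (by simpa using h)

end QC
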