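import Pool.Agent.Work.MP_217185_an.ContrA

/-! # ContrC: the local inverse of the Bers map

`b x = bersE S x.fn` on a small ball of `HSp S`: holomorphic (`bersE_differentiableOn`), and
`‖(b x - x/3) - (b y - y/3)‖ ≤ (1/6) ‖x - y‖` on `ball 0 δ` (`cauchy_lip` in `HSp S` for
`t ↦ b(x + t(y-x)) - (x + t(y-x))/3`, using `‖b x - x/3‖ ≤ C ‖x‖²` from `bersE_sub_le` and
`HSp.sup_le`), so `b` is injective with open image and continuous inverse
(`ApproximatesLinearOn.toOpenPartialHomeomorph`, linear part `x/3`), its derivative at each point is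
invertible (`‖Db - 1/3‖ ≤ 1/6`), so the inverse is differentiable
(`OpenPartialHomeomorph.hasFDerivAt_symm`). -/

open MeasureTheory Complex Set Metric Filter
open scoped Topology ENNReal NNReal ContDiff ComplexConjugate

namespace QC

section abstractInverse

variable {E : Type} [NormedAddCommGroup E] [NormedSpace ℂ E]

/-- multiplication by `1/3`. -/
private noncomputable def thirdE (E : Type) [NormedAddCommGroup E] [NormedSpace ℂ E] : E ≃L[ℂ] E :=
  ContinuousLinearEquiv.smulLeft (Units.mk0 (1 / 3 : ℂ) (by norm_num))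

private theorem thirdE_apply (x : E) : thirdE E x = (1 / 3 : ℂ) • x := rfl

private theorem thirdE_symm_apply (x : E) : (thirdE E).symm x = (3 : ℂ) • x := by
  rw [ContinuousLinearEquiv.symm_apply_eq, thirdE_apply, smul_smul]
  norm_num

private theorem thirdE_symm_nnnorm : ‖((thirdE E).symm : E →L[ℂ] E)‖₊ ≤ 3 := by
  rw [← NNReal.coe_le_coe, coe_nnnorm]
  refine ContinuousLinearMap.opNorm_le_bound _ (by norm_num) (fun x => ?_)
  have : ((thirdE E).symm : E →L[ℂ] E) x = (3 : ℂ) • x := thirdE_symm_apply x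
  rw [this, norm_smul]
  norm_num

/-- Lipschitz estimate for the error. -/
private theorem lip_of_quadratic [CompleteSpace E] {b : E → E} {K R : ℝ} (hR : 0 < R)
    (hb : DifferentiableOn ℂ b (ball 0 R)) (hK : 0 ≤ K)
    (hq : ∀ x ∈ ball (0 : E) R, ‖b x - (1 / 3 : ℂ) • x‖ ≤ K * ‖x‖ ^ 2) {x y : E}
    (hx : ‖x‖ < R / 8) (hy : ‖y‖ < R / 8) :
    ‖(b x - (1 / 3 : ℂ) • x) - (b y - (1 / 3 : ℂ) • y)‖ ≤ 8 * K * R * ‖x - y‖ := by
  by_cases hxy : x = y
  · subst hxy
    simp
  have hd : 0 < ‖x - y‖ := norm_pos_iff.2 (sub_ne_zero.2 hxy)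
  have hd2 : ‖x - y‖ ≤ R / 4 := (norm_sub_le _ _).trans (by linarith)
  set Lam : ℝ := R / (2 * ‖x - y‖) with hLam
  have hLamp : 2 ≤ Lam := by
    rw [hLam, le_div_iff₀ (by positivity)]
    linarith
  have hin : ∀ t : ℂ, ‖t‖ < Lam → ‖y + t • (x - y)‖ < R := by
    intro t ht
    have h1 : ‖t‖ * ‖x - y‖ ≤ Lam * ‖x - y‖ := mul_le_mul_of_nonneg_right ht.le hd.le
    have h2 : Lam * ‖x - y‖ = R / 2 := by
      rw [hLam]
      field_simp
    calc ‖y + t • (x - y)‖ ≤ ‖y‖ + ‖t • (x - y)‖ := norm_add_le _ _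
      _ = ‖y‖ + ‖t‖ * ‖x - y‖ := by rw [norm_smul]
      _ < R := by linarith
  have hc := cauchy_lip (G := E)
    (F := fun t : ℂ => b (y + t • (x - y)) - (1 / 3 : ℂ) • (y + t • (x - y)))
    (Lam := Lam) (M := K * R ^ 2) hLamp
    (by
      have h1 : DifferentiableOn ℂ (fun t : ℂ => y + t • (x - y)) (ball 0 Lam) :=
        ((differentiable_const y).add (differentiable_id.smul_const (x - y))).differentiableOn
      refine DifferentiableOn.sub ?_ (h1.const_smul _)
      refine hb.comp h1 (fun t ht => ?_)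
      rw [mem_ball_zero_iff] at ht ⊢
      exact hin t ht)
    (by
      intro t ht
      have h1 := hin t ht
      refine (hq _ (by rwa [mem_ball_zero_iff])).trans ?_
      gcongr)
  simp only [one_smul, zero_smul, add_zero, add_sub_cancel] at hc
  refine hc.trans (le_of_eq ?_)
  rw [hLam]
  field_simp
  ring

private theorem exists_local_inverse [CompleteSpace E] {b : E → E} {K R : ℝ} (hR : 0 < R)
    (hb : DifferentiableOn ℂ b (ball 0 R)) (hK : 0 ≤ K)
    (hq : ∀ x ∈ ball (0 : E) R, ‖b x - (1 / 3 : ℂ) • x‖ ≤ K * ‖x‖ ^ 2) (hKR : 48 * K * R ≤ 1) :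
    ∃ e : OpenPartialHomeomorph E E, e.source = ball 0 (R / 8) ∧
      (∀ x ∈ ball (0 : E) (R / 8), e x = b x) ∧ DifferentiableOn ℂ e e.source ∧
      DifferentiableOn ℂ e.symm e.target := by
  have hlip : ∀ x ∈ ball (0 : E) (R / 8), ∀ y ∈ ball (0 : E) (R / 8),
      ‖(b x - (1 / 3 : ℂ) • x) - (b y - (1 / 3 : ℂ) • y)‖ ≤ 1 / 6 * ‖x - y‖ := by
    intro x hx y hy
    rw [mem_ball_zero_iff] at hx hy
    refine (lip_of_quadratic hR hb hK hq hx hy).trans ?_
    apply mul_le_mul_of_nonneg_right _ (norm_nonneg _)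
    linarith
  have happ : ApproximatesLinearOn b (thirdE E : E →L[ℂ] E) (ball 0 (R / 8)) (1 / 6 : ℝ≥0) := by
    intro x hx y hy
    have h1 := hlip x hx y hy
    have h2 : b x - b y - (thirdE E : E →L[ℂ] E) (x - y) =
        (b x - (1 / 3 : ℂ) • x) - (b y - (1 / 3 : ℂ) • y) := by
      have : (thirdE E : E →L[ℂ] E) (x - y) = (1 / 3 : ℂ) • (x - y) := rfl
      rw [this, smul_sub]
      abel
    rw [h2]
    refine h1.trans (le_of_eq ?_)
    push_cast
    rfl
  have hc : Subsingleton E ∨ (1 / 6 : ℝ≥0) < ‖((thirdE E).symm : E →L[ℂ] E)‖₊⁻¹ := by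
    by_cases hs : Subsingleton E
    · exact Or.inl hs
    · right
      have hnt : Nontrivial E := not_subsingleton_iff_nontrivial.1 hs
      have hpos : 0 < ‖((thirdE E).symm : E →L[ℂ] E)‖₊ := by
        rw [pos_iff_ne_zero, Ne, nnnorm_eq_zero]
        intro h0
        obtain ⟨x, hx⟩ := exists_ne (0 : E)
        have h1 : ((thirdE E).symm : E →L[ℂ] E) x = 0 := by rw [h0]; rfl
        have h2 : (thirdE E).symm x = 0 := h1
        rw [ContinuousLinearEquiv.symm_apply_eq, map_zero] at h2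
        exact hx h2
      have h3 : (3 : ℝ≥0)⁻¹ ≤ ‖((thirdE E).symm : E →L[ℂ] E)‖₊⁻¹ :=
        inv_anti₀ hpos thirdE_symm_nnnorm
      refine lt_of_lt_of_le ?_ h3
      rw [← NNReal.coe_lt_coe]
      push_cast
      norm_num
  refine ⟨happ.toOpenPartialHomeomorph b (ball 0 (R / 8)) hc isOpen_ball, rfl, fun x _ => rfl,
    ?_, ?_⟩
  · exact hb.mono (ball_subset_ball (by linarith))
  · intro y hy
    set e := happ.toOpenPartialHomeomorph b (ball 0 (R / 8)) hc isOpen_ball with he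
    have hx : e.symm y ∈ ball (0 : E) (R / 8) := e.map_target hy
    set x := e.symm y with hxdef
    have hbx : DifferentiableAt ℂ b x :=
      (hb.mono (ball_subset_ball (by linarith))).differentiableAt (isOpen_ball.mem_nhds hx)
    set Dx : E →L[ℂ] E := fderiv ℂ b x with hDx
    have hg : HasFDerivAt (fun z => b z - (1 / 3 : ℂ) • z)
        (Dx - (1 / 3 : ℂ) • ContinuousLinearMap.id ℂ E) x :=
      hbx.hasFDerivAt.sub ((hasFDerivAt_id x).const_smul _)
    have hn : ‖Dx - (1 / 3 : ℂ) • ContinuousLinearMap.id ℂ E‖ ≤ 1 / 6 := by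
      refine hg.le_of_lip' (by norm_num) ?_
      filter_upwards [isOpen_ball.mem_nhds hx] with z hz
      exact hlip z hz x hx
    have ht : ‖(1 : E →L[ℂ] E) - (3 : ℂ) • Dx‖ < 1 := by
      have h1 : (1 : E →L[ℂ] E) - (3 : ℂ) • Dx =
          (-3 : ℂ) • (Dx - (1 / 3 : ℂ) • ContinuousLinearMap.id ℂ E) := by
        ext z
        simp only [sub_apply, ContinuousLinearMap.one_apply,
          smul_apply, ContinuousLinearMap.id_apply, smul_sub, smul_smul]
        norm_num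
        abel
      rw [h1, norm_smul]
      have : ‖(-3 : ℂ)‖ = 3 := by norm_num
      rw [this]
      linarith
    set u : (E →L[ℂ] E)ˣ := Units.oneSub _ ht with hu
    have huv : (u : E →L[ℂ] E) = (3 : ℂ) • Dx := by
      have : (u : E →L[ℂ] E) = 1 - (1 - (3 : ℂ) • Dx) := rfl
      rw [this]
      abel
    set D' : E ≃L[ℂ] E := (ContinuousLinearEquiv.unitsEquiv ℂ E u).trans (thirdE E) with hD'
    have hD'v : (D' : E →L[ℂ] E) = Dx := by
      ext z
      have h1 : (D' : E →L[ℂ] E) z = (1 / 3 : ℂ) • ((u : E →L[ℂ] E) z) := rfl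
      rw [h1, huv, ContinuousLinearMap.smul_apply, smul_smul]
      norm_num
    have hfd : HasFDerivAt e (D' : E →L[ℂ] E) (e.symm y) := by
      rw [hD'v]
      exact hbx.hasFDerivAt
    exact (e.hasFDerivAt_symm hy hfd).differentiableAt.differentiableWithinAt

end abstractInverse

theorem loc_inv (S : Bord) {ε₀ : ℝ} (hε₀ : 0 < ε₀) : ∃ δ > 0,
    (∀ x : HSp S, ‖x‖ < δ → ∀ z, ‖x.fn z‖ ≤ ε₀) ∧
    ∃ e : OpenPartialHomeomorph (HSp S) (HSp S), e.source = ball 0 δ ∧
      (∀ x ∈ ball (0 : HSp S) δ, e x = bersE S x.fn) ∧ DifferentiableOn ℂ e e.source ∧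
      DifferentiableOn ℂ e.symm e.target := by
  obtain ⟨C₀, hC₀, hsup⟩ := HSp.sup_le S
  obtain ⟨C₁, hC₁, hquad⟩ := bersE_sub_le
  -- the radius
  obtain ⟨R, hR, hR1, hR2, hR3⟩ : ∃ R : ℝ, 0 < R ∧ C₀ * R ≤ 1 / 8 ∧ 48 * (C₁ * C₀) * R ≤ 1 ∧
      C₀ * R ≤ ε₀ := by
    refine ⟨min (1 / (8 * C₀)) (min (1 / (48 * (C₁ * C₀))) (ε₀ / C₀)), by positivity, ?_, ?_, ?_⟩
    · calc C₀ * min (1 / (8 * C₀)) (min (1 / (48 * (C₁ * C₀))) (ε₀ / C₀))
          ≤ C₀ * (1 / (8 * C₀)) := mul_le_mul_of_nonneg_left (min_le_left _ _) hC₀.le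
        _ = 1 / 8 := by field_simp
    · calc 48 * (C₁ * C₀) * min (1 / (8 * C₀)) (min (1 / (48 * (C₁ * C₀))) (ε₀ / C₀))
          ≤ 48 * (C₁ * C₀) * (1 / (48 * (C₁ * C₀))) :=
            mul_le_mul_of_nonneg_left ((min_le_right _ _).trans (min_le_left _ _)) (by positivity)
        _ = 1 := by field_simp
    · calc C₀ * min (1 / (8 * C₀)) (min (1 / (48 * (C₁ * C₀))) (ε₀ / C₀))
          ≤ C₀ * (ε₀ / C₀) :=
            mul_le_mul_of_nonneg_left ((min_le_right _ _).trans (min_le_right _ _)) hC₀.le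
        _ = ε₀ := by field_simp
  have hsup' : ∀ x : HSp S, x ∈ ball (0 : HSp S) R → ∀ z, ‖x.fn z‖ ≤ 1 / 8 := by
    intro x hx z
    rw [mem_ball_zero_iff] at hx
    refine (hsup x z).trans (le_trans ?_ hR1)
    gcongr
  have hdiff : DifferentiableOn ℂ (fun x : HSp S => bersE S x.fn) (ball 0 R) := by
    refine bersE_differentiableOn (k := 1 / 8) (m := fun x : HSp S => x.fn) isOpen_ball
      (fun x hx => ⟨x.harm.measurable, hsup' x hx, by norm_num⟩) (fun x _ => x.harm.suppIn)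
      (fun x _ => x.inv.aeInv) (fun x _ => x.l2) ?_ (isFund_fund S) ?_
    · intro x _
      refine ⟨1, C₀, fun y => y.fn, one_pos, ?_, ?_, ?_, ?_, ?_⟩
      · intro y z ζ
        rfl
      · intro c y ζ
        rfl
      · intro y
        exact y.harm.measurable
      · intro y ζ
        exact hsup y ζ
      · intro y _ ζ
        show ‖x.fn ζ + y.fn ζ - x.fn ζ - y.fn ζ‖ ≤ C₀ * ‖y‖ ^ 2
        have : x.fn ζ + y.fn ζ - x.fn ζ - y.fn ζ = 0 := by ring
        rw [this, norm_zero]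
        positivity
    · intro a _
      refine ⟨1, one_pos, (‖a‖ + 1) ^ 2, ?_⟩
      intro x _ hxa
      rw [← HSp.norm_sq x (isFund_fund S)]
      apply ENNReal.ofReal_le_ofReal
      have h1 : ‖x‖ ≤ ‖a‖ + 1 := by
        have h2 : ‖x‖ ≤ ‖a‖ + ‖x - a‖ := by
          calc ‖x‖ = ‖a + (x - a)‖ := by rw [add_sub_cancel]
            _ ≤ _ := norm_add_le _ _
        rw [dist_eq_norm] at hxa
        linarith
      gcongr
  have hq : ∀ x ∈ ball (0 : HSp S) R,
      ‖bersE S x.fn - (1 / 3 : ℂ) • x‖ ≤ C₁ * C₀ * ‖x‖ ^ 2 := by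
    intro x hx
    have h1 : C₀ * ‖x‖ ≤ 1 / 8 := by
      rw [mem_ball_zero_iff] at hx
      refine le_trans ?_ hR1
      gcongr
    refine (hquad S x (C₀ * ‖x‖) h1 (fun z => hsup x z)).trans (le_of_eq ?_)
    ring
  obtain ⟨e, he1, he2, he3, he4⟩ := exists_local_inverse (b := fun x : HSp S => bersE S x.fn) hR
    hdiff (by positivity) hq hR2
  refine ⟨R / 8, by positivity, ?_, e, he1, he2, he3, he4⟩
  intro x hx z
  refine (hsup x z).trans (le_trans ?_ hR3)
  have : ‖x‖ ≤ R := by linarith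
  gcongr

end QC
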