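import Pool.Agent.Work.MP_217185_an.HypIntA

/-! # HypIntB: interpolation: equivariance

`A = mob a b`, `N = ‖a‖² - ‖b‖²`, `q = conj b z + conj a`, `1 - ‖A z‖² = N (1-‖z‖²)/‖q‖²`,
`A z = (a z + b)/q`.  The vector `X(z) = (T_z, V_z)` transforms linearly:
`N V_{A z} = a² V_z + b² conj V_z + 2 a b T_z`, `N T_{A z} = (‖a‖²+‖b‖²) T_z + 2 Re(a conj b V_z)`
(check: multiply by `1 - ‖z‖²`), so the same holds for the convex combination `(T, V)`; the linear map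
preserves `T² - ‖V‖²`.  Finally `V/(T+s)`, `s = √(T²-‖V‖²)`, is `hal` and for `u = V/(T+s)` one has
`‖u‖ < 1`, `(T, V) = s ((1+‖u‖²)/(1-‖u‖²), 2u/(1-‖u‖²))`; so `(T', V')` = the image corresponds to
`s` and `A u`, i.e. `V'/(T'+s) = A u`. -/

open MeasureTheory Complex Set Metric Filter
open scoped Topology ENNReal NNReal ContDiff ComplexConjugate

namespace QC

private theorem hib_pos {z : ℂ} (hz : z ∈ D) : 0 < 1 - ‖z‖ ^ 2 := by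
  have h1 : ‖z‖ < 1 := by simpa [D] using hz
  have h2 := norm_nonneg z
  nlinarith

private theorem hib_conj (z : ℂ) : z * conj z = ((‖z‖ ^ 2 : ℝ) : ℂ) := by
  rw [Complex.mul_conj, Complex.normSq_eq_norm_sq]

private theorem hib_N {a b : ℂ} (h : ‖b‖ < ‖a‖) : 0 < ‖a‖ ^ 2 - ‖b‖ ^ 2 := by
  have := norm_nonneg b
  nlinarith

/-- one point: the two components. -/
private theorem hib_one {a b : ℂ} (h : ‖b‖ < ‖a‖) {z : ℂ} (hz : z ∈ D) :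
    (((2 / (1 - ‖mob a b z‖ ^ 2) : ℝ) : ℂ) * mob a b z) * ((‖a‖ ^ 2 - ‖b‖ ^ 2 : ℝ) : ℂ)
      = a ^ 2 * (((2 / (1 - ‖z‖ ^ 2) : ℝ) : ℂ) * z)
        + b ^ 2 * conj (((2 / (1 - ‖z‖ ^ 2) : ℝ) : ℂ) * z)
        + 2 * a * b * (((1 + ‖z‖ ^ 2) / (1 - ‖z‖ ^ 2) : ℝ) : ℂ) ∧
    (((1 + ‖mob a b z‖ ^ 2) / (1 - ‖mob a b z‖ ^ 2) : ℝ) : ℂ) * ((‖a‖ ^ 2 - ‖b‖ ^ 2 : ℝ) : ℂ)
      = ((‖a‖ ^ 2 + ‖b‖ ^ 2 : ℝ) : ℂ) * (((1 + ‖z‖ ^ 2) / (1 - ‖z‖ ^ 2) : ℝ) : ℂ)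
        + a * conj b * (((2 / (1 - ‖z‖ ^ 2) : ℝ) : ℂ) * z)
        + conj a * b * conj (((2 / (1 - ‖z‖ ^ 2) : ℝ) : ℂ) * z) := by
  have hz1 : ‖z‖ < 1 := by simpa [D] using hz
  have hA := hib_pos hz
  have hN := hib_N h
  have hq : conj b * z + conj a ≠ 0 := mob_denom_ne h hz1.le
  have hq2 : 0 < ‖conj b * z + conj a‖ ^ 2 := by positivity
  have hone := one_sub_norm_mob h hz1.le
  have hAC : ((1 - ‖z‖ ^ 2 : ℝ) : ℂ) ≠ 0 := by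
    rw [Complex.ofReal_ne_zero]; exact hA.ne'
  have hNC : ((‖a‖ ^ 2 - ‖b‖ ^ 2 : ℝ) : ℂ) ≠ 0 := by
    rw [Complex.ofReal_ne_zero]; exact hN.ne'
  have hz2 : z * conj z = ((‖z‖ ^ 2 : ℝ) : ℂ) := hib_conj z
  have ha2 : a * conj a = ((‖a‖ ^ 2 : ℝ) : ℂ) := hib_conj a
  have hb2 : b * conj b = ((‖b‖ ^ 2 : ℝ) : ℂ) := hib_conj b
  have hqq : ((‖conj b * z + conj a‖ ^ 2 : ℝ) : ℂ)
      = (conj b * z + conj a) * (b * conj z + a) := by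
    rw [← hib_conj]; simp
  have e1 : 2 / (1 - ‖mob a b z‖ ^ 2)
      = 2 * ‖conj b * z + conj a‖ ^ 2 / ((‖a‖ ^ 2 - ‖b‖ ^ 2) * (1 - ‖z‖ ^ 2)) := by
    rw [hone]; field_simp
  have e2 : (1 + ‖mob a b z‖ ^ 2) / (1 - ‖mob a b z‖ ^ 2)
      = 2 / (1 - ‖mob a b z‖ ^ 2) - 1 := by
    have : 1 - ‖mob a b z‖ ^ 2 ≠ 0 := by rw [hone]; positivity
    field_simp; ring
  have k1 : ((1 - ‖z‖ ^ 2 : ℝ) : ℂ) = 1 - z * conj z := by rw [hz2]; push_cast; ring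
  have k2 : ((‖a‖ ^ 2 - ‖b‖ ^ 2 : ℝ) : ℂ) = a * conj a - b * conj b := by
    rw [ha2, hb2]; push_cast; ring
  have k3 : ((‖a‖ ^ 2 + ‖b‖ ^ 2 : ℝ) : ℂ) = a * conj a + b * conj b := by
    rw [ha2, hb2]; push_cast; ring
  have k4 : ((1 + ‖z‖ ^ 2 : ℝ) : ℂ) = 1 + z * conj z := by rw [hz2]; push_cast; ring
  constructor
  · rw [e1]
    have c1 : ((2 * ‖conj b * z + conj a‖ ^ 2 / ((‖a‖ ^ 2 - ‖b‖ ^ 2) * (1 - ‖z‖ ^ 2)) : ℝ) : ℂ)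
        = 2 * ((‖conj b * z + conj a‖ ^ 2 : ℝ) : ℂ)
          / (((‖a‖ ^ 2 - ‖b‖ ^ 2 : ℝ) : ℂ) * ((1 - ‖z‖ ^ 2 : ℝ) : ℂ)) := by
      push_cast; ring
    have c2 : ((2 / (1 - ‖z‖ ^ 2) : ℝ) : ℂ) = 2 / ((1 - ‖z‖ ^ 2 : ℝ) : ℂ) := by push_cast; ring
    have c3 : (((1 + ‖z‖ ^ 2) / (1 - ‖z‖ ^ 2) : ℝ) : ℂ)
        = ((1 + ‖z‖ ^ 2 : ℝ) : ℂ) / ((1 - ‖z‖ ^ 2 : ℝ) : ℂ) := by push_cast; ring
    rw [c1, hqq, map_mul, Complex.conj_ofReal, c2, c3]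
    unfold mob
    field_simp
    rw [k4]
    ring
  · rw [e2, e1]
    have c1 : ((2 * ‖conj b * z + conj a‖ ^ 2 / ((‖a‖ ^ 2 - ‖b‖ ^ 2) * (1 - ‖z‖ ^ 2)) - 1 : ℝ) : ℂ)
        = 2 * ((‖conj b * z + conj a‖ ^ 2 : ℝ) : ℂ)
          / (((‖a‖ ^ 2 - ‖b‖ ^ 2 : ℝ) : ℂ) * ((1 - ‖z‖ ^ 2 : ℝ) : ℂ)) - 1 := by
      push_cast; ring
    have c2 : ((2 / (1 - ‖z‖ ^ 2) : ℝ) : ℂ) = 2 / ((1 - ‖z‖ ^ 2 : ℝ) : ℂ) := by push_cast; ring
    have c3 : (((1 + ‖z‖ ^ 2) / (1 - ‖z‖ ^ 2) : ℝ) : ℂ)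
        = ((1 + ‖z‖ ^ 2 : ℝ) : ℂ) / ((1 - ‖z‖ ^ 2 : ℝ) : ℂ) := by push_cast; ring
    rw [c1, hqq, map_mul, Complex.conj_ofReal, c2, c3]
    field_simp
    rw [k4, k3, k2, k1]
    ring

private theorem hib_V (t : ℝ) (z w : ℂ) : halV t z w
    = ((1 - t : ℝ) : ℂ) * (((2 / (1 - ‖z‖ ^ 2) : ℝ) : ℂ) * z)
      + (t : ℂ) * (((2 / (1 - ‖w‖ ^ 2) : ℝ) : ℂ) * w) := by
  unfold halV
  push_cast
  ring

private theorem hib_T (t : ℝ) (z w : ℂ) : ((halT t z w : ℝ) : ℂ)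
    = ((1 - t : ℝ) : ℂ) * (((1 + ‖z‖ ^ 2) / (1 - ‖z‖ ^ 2) : ℝ) : ℂ)
      + (t : ℂ) * (((1 + ‖w‖ ^ 2) / (1 - ‖w‖ ^ 2) : ℝ) : ℂ) := by
  unfold halT
  push_cast
  ring

theorem hal_mob {a b : ℂ} (h : ‖b‖ < ‖a‖) {t : ℝ} (ht : t ∈ Icc (0 : ℝ) 1) {z w : ℂ}
    (hz : z ∈ D) (hw : w ∈ D) : hal t (mob a b z) (mob a b w) = mob a b (hal t z w) := by
  have hz1 : ‖z‖ < 1 := by simpa [D] using hz
  have hw1 : ‖w‖ < 1 := by simpa [D] using hw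
  have hmz : mob a b z ∈ D := by simpa [D] using norm_mob_lt h hz1
  have hmw : mob a b w ∈ D := by simpa [D] using norm_mob_lt h hw1
  have hN := hib_N h
  obtain ⟨vz, tz⟩ := hib_one h hz
  obtain ⟨vw, tw⟩ := hib_one h hw
  obtain ⟨T, hT⟩ : ∃ T, T = halT t z w := ⟨_, rfl⟩
  obtain ⟨V, hV⟩ : ∃ V, V = halV t z w := ⟨_, rfl⟩
  obtain ⟨T', hT'⟩ : ∃ T, T = halT t (mob a b z) (mob a b w) := ⟨_, rfl⟩
  obtain ⟨V', hV'⟩ : ∃ V, V = halV t (mob a b z) (mob a b w) := ⟨_, rfl⟩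
  obtain ⟨N, hNd⟩ : ∃ N : ℝ, N = ‖a‖ ^ 2 - ‖b‖ ^ 2 := ⟨_, rfl⟩
  have hNC : (N : ℂ) ≠ 0 := by
    rw [Complex.ofReal_ne_zero, hNd]; exact hN.ne'
  have k2 : (N : ℂ) = a * conj a - b * conj b := by
    rw [hNd, hib_conj, hib_conj]; push_cast; ring
  have k3 : ((‖a‖ ^ 2 + ‖b‖ ^ 2 : ℝ) : ℂ) = a * conj a + b * conj b := by
    rw [hib_conj, hib_conj]; push_cast; ring
  have EV : V' * (N : ℂ) = a ^ 2 * V + b ^ 2 * conj V + 2 * a * b * (T : ℂ) := by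
    rw [hV', hV, hT, hib_V, hib_V t z w, hib_T, hNd]
    simp only [map_add, map_mul, Complex.conj_ofReal] at vz vw ⊢
    linear_combination ((1 - t : ℝ) : ℂ) * vz + (t : ℂ) * vw
  have ET : (T' : ℂ) * (N : ℂ) = (a * conj a + b * conj b) * (T : ℂ) + a * conj b * V
      + conj a * b * conj V := by
    rw [hV, hT, hT', hib_V t z w, hib_T, hib_T, hNd, ← k3]
    simp only [map_add, map_mul, Complex.conj_ofReal] at tz tw ⊢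
    linear_combination ((1 - t : ℝ) : ℂ) * tz + (t : ℂ) * tw
  -- the Lorentz norm is preserved
  obtain ⟨g1, g2⟩ := halT_sq ht hz hw
  obtain ⟨g1', g2'⟩ := halT_sq ht hmz hmw
  rw [← hT] at g1
  rw [← hT'] at g1'
  rw [← hT, ← hV] at g2
  rw [← hT', ← hV'] at g2'
  have hq : T' ^ 2 - ‖V'‖ ^ 2 = T ^ 2 - ‖V‖ ^ 2 := by
    have hc : ((T' ^ 2 - ‖V'‖ ^ 2 : ℝ) : ℂ) = ((T ^ 2 - ‖V‖ ^ 2 : ℝ) : ℂ) := by
      have e1 : ((T' ^ 2 - ‖V'‖ ^ 2 : ℝ) : ℂ) = (T' : ℂ) ^ 2 - V' * conj V' := by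
        rw [hib_conj]; push_cast; ring
      have e2 : ((T ^ 2 - ‖V‖ ^ 2 : ℝ) : ℂ) = (T : ℂ) ^ 2 - V * conj V := by
        rw [hib_conj]; push_cast; ring
      rw [e1, e2]
      have EVc : conj V' * (N : ℂ)
          = (conj a) ^ 2 * conj V + (conj b) ^ 2 * V + 2 * conj a * conj b * (T : ℂ) := by
        have h2 : conj (2 : ℂ) = 2 := by exact_mod_cast Complex.conj_ofReal 2
        have := congrArg conj EV
        simpa [h2] using this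
      have key : ((T' : ℂ) ^ 2 - V' * conj V') * (N : ℂ) ^ 2
          = ((T : ℂ) ^ 2 - V * conj V) * (N : ℂ) ^ 2 := by
        have l1 : ((T' : ℂ) ^ 2 - V' * conj V') * (N : ℂ) ^ 2
            = ((T' : ℂ) * N) ^ 2 - (V' * N) * (conj V' * N) := by ring
        rw [l1, ET, EV, EVc, k2]
        ring
      exact mul_right_cancel₀ (pow_ne_zero 2 hNC) key
    exact_mod_cast hc
  obtain ⟨s, hs⟩ : ∃ s, s = Real.sqrt (T ^ 2 - ‖V‖ ^ 2) := ⟨_, rfl⟩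
  have hs0 : 0 ≤ s := hs ▸ Real.sqrt_nonneg _
  have hss : s ^ 2 = T ^ 2 - ‖V‖ ^ 2 := by rw [hs, Real.sq_sqrt (by linarith)]
  have hssC : (s : ℂ) ^ 2 = (T : ℂ) ^ 2 - V * conj V := by
    have : ((s ^ 2 : ℝ) : ℂ) = ((T ^ 2 - ‖V‖ ^ 2 : ℝ) : ℂ) := by rw [hss]
    rw [hib_conj]
    push_cast at this ⊢
    exact this
  have hL : hal t (mob a b z) (mob a b w) = V' / ((T' : ℂ) + s) := by
    unfold hal
    rw [← hT', ← hV', hq, ← hs]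
    push_cast
    rfl
  have hR : hal t z w = V / ((T : ℂ) + s) := by
    unfold hal
    rw [← hT, ← hV, ← hs]
    push_cast
    rfl
  have hu : hal t z w ∈ D := hal_mem ht hz hw
  have hu1 : ‖hal t z w‖ < 1 := by simpa [D] using hu
  have hd := mob_denom_ne h hu1.le
  rw [hR] at hd
  have hTs : (T : ℂ) + s ≠ 0 := by
    have : ((T + s : ℝ) : ℂ) ≠ 0 := by
      rw [Complex.ofReal_ne_zero]; linarith
    push_cast at this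
    exact this
  have hTs' : (T' : ℂ) + s ≠ 0 := by
    have : ((T' + s : ℝ) : ℂ) ≠ 0 := by
      rw [Complex.ofReal_ne_zero]; linarith
    push_cast at this
    exact this
  have hd2 : conj b * V + conj a * ((T : ℂ) + s) ≠ 0 := by
    intro h0
    apply hd
    have : conj b * (V / ((T : ℂ) + s)) + conj a
        = (conj b * V + conj a * ((T : ℂ) + s)) / ((T : ℂ) + s) := by
      field_simp
    rw [this, h0, zero_div]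
  have hm : mob a b (V / ((T : ℂ) + s))
      = (a * V + b * ((T : ℂ) + s)) / (conj b * V + conj a * ((T : ℂ) + s)) := by
    unfold mob
    have e1 : a * (V / ((T : ℂ) + s)) + b = (a * V + b * ((T : ℂ) + s)) / ((T : ℂ) + s) := by
      field_simp
    have e2 : conj b * (V / ((T : ℂ) + s)) + conj a
        = (conj b * V + conj a * ((T : ℂ) + s)) / ((T : ℂ) + s) := by
      field_simp
    rw [e1, e2, div_div_div_cancel_right₀ hTs]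
  rw [hL, hR, hm, div_eq_div_iff hTs' hd2]
  apply mul_right_cancel₀ hNC
  have l1 : V' * (conj b * V + conj a * ((T : ℂ) + s)) * N
      = (V' * N) * (conj b * V + conj a * ((T : ℂ) + s)) := by ring
  have l2 : (a * V + b * ((T : ℂ) + s)) * ((T' : ℂ) + s) * N
      = (a * V + b * ((T : ℂ) + s)) * ((T' : ℂ) * N + s * N) := by ring
  rw [l1, l2, EV, ET, k2]
  linear_combination (-(b * (a * conj a - b * conj b))) * hssC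

end QC
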