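import Pool.Agent.Work.MP_217185_an.HypIntA

/-! # HypIntC: interpolation: behaviour near the circle

`V/T` is a convex combination of `V_z/T_z = 2z/(1+‖z‖²)` and `V_w/T_w`, which are close to `x` when
`z, w` are; so `V/T` is close to `x`, `√(T²-‖V‖²)/T = √(1 - ‖V/T‖²)` is close to `0`, and
`hal = (V/T)/(1 + √(1-‖V/T‖²))` is close to `x`, uniformly in `t`. -/

open MeasureTheory Complex Set Metric Filter
open scoped Topology ENNReal NNReal ContDiff ComplexConjugate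

namespace QC

private theorem hic_pos {z : ℂ} (hz : z ∈ D) : 0 < 1 - ‖z‖ ^ 2 := by
  have h1 : ‖z‖ < 1 := by simpa [D] using hz
  have h2 := norm_nonneg z
  nlinarith

private theorem hic_one {x z : ℂ} (hx : ‖x‖ = 1) (hz : z ∈ D) {δ : ℝ} (hd : ‖z - x‖ < δ) :
    ‖((2 / (1 - ‖z‖ ^ 2) : ℝ) : ℂ) * z - (((1 + ‖z‖ ^ 2) / (1 - ‖z‖ ^ 2) : ℝ) : ℂ) * x‖
      ≤ 4 * δ * ((1 + ‖z‖ ^ 2) / (1 - ‖z‖ ^ 2)) := by
  have hA := hic_pos hz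
  have hz1 : ‖z‖ < 1 := by simpa [D] using hz
  have e : ((2 / (1 - ‖z‖ ^ 2) : ℝ) : ℂ) * z - (((1 + ‖z‖ ^ 2) / (1 - ‖z‖ ^ 2) : ℝ) : ℂ) * x
      = ((1 / (1 - ‖z‖ ^ 2) : ℝ) : ℂ) * (2 * (z - x) + ((1 - ‖z‖ ^ 2 : ℝ) : ℂ) * x) := by
    push_cast; ring
  rw [e, norm_mul, Complex.norm_real, Real.norm_eq_abs, abs_of_pos (by positivity)]
  have h1 : ‖2 * (z - x) + ((1 - ‖z‖ ^ 2 : ℝ) : ℂ) * x‖ ≤ 2 * ‖z - x‖ + (1 - ‖z‖ ^ 2) := by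
    refine (norm_add_le _ _).trans ?_
    rw [norm_mul, norm_mul, Complex.norm_real, Real.norm_eq_abs, abs_of_pos hA, hx]
    simp
  have h2 : 1 - ‖z‖ ≤ ‖z - x‖ := by
    have := norm_sub_norm_le x z
    rw [hx, norm_sub_rev] at this
    exact this
  have h3 : 1 - ‖z‖ ^ 2 ≤ 2 * ‖z - x‖ := by nlinarith [norm_nonneg z, norm_nonneg (z - x)]
  have h4 : ‖2 * (z - x) + ((1 - ‖z‖ ^ 2 : ℝ) : ℂ) * x‖ ≤ 4 * δ * (1 + ‖z‖ ^ 2) := by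
    have : 0 ≤ δ := (norm_nonneg _).trans hd.le
    nlinarith [norm_nonneg (z - x), sq_nonneg ‖z‖, mul_nonneg this (sq_nonneg ‖z‖)]
  calc 1 / (1 - ‖z‖ ^ 2) * ‖2 * (z - x) + ((1 - ‖z‖ ^ 2 : ℝ) : ℂ) * x‖
      ≤ 1 / (1 - ‖z‖ ^ 2) * (4 * δ * (1 + ‖z‖ ^ 2)) :=
        mul_le_mul_of_nonneg_left h4 (by positivity)
    _ = 4 * δ * ((1 + ‖z‖ ^ 2) / (1 - ‖z‖ ^ 2)) := by ring

theorem hal_near (x : ℂ) (hx : ‖x‖ = 1) (ε : ℝ) (hε : 0 < ε) : ∃ δ > (0 : ℝ),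
    ∀ t ∈ Icc (0 : ℝ) 1, ∀ z ∈ D, ∀ w ∈ D, ‖z - x‖ < δ → ‖w - x‖ < δ →
      ‖hal t z w - x‖ < ε := by
  refine ⟨min (ε / 16) (ε ^ 2 / 64), lt_min (by positivity) (by positivity), ?_⟩
  intro t ht z hz w hw hzx hwx
  obtain ⟨δ, hδ⟩ : ∃ δ, δ = min (ε / 16) (ε ^ 2 / 64) := ⟨_, rfl⟩
  rw [← hδ] at hzx hwx
  have hd1 : δ ≤ ε / 16 := hδ ▸ min_le_left _ _
  have hd2 : δ ≤ ε ^ 2 / 64 := hδ ▸ min_le_right _ _
  have hd0 : 0 < δ := by rw [hδ]; exact lt_min (by positivity) (by positivity)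
  obtain ⟨g1, g2⟩ := halT_sq ht hz hw
  obtain ⟨T, hT⟩ : ∃ T, T = halT t z w := ⟨_, rfl⟩
  obtain ⟨V, hV⟩ : ∃ V, V = halV t z w := ⟨_, rfl⟩
  rw [← hT] at g1
  rw [← hT, ← hV] at g2
  have ht0 : 0 ≤ t := ht.1
  have ht1 : 0 ≤ 1 - t := by linarith [ht.2]
  have hVT : ‖V - (T : ℂ) * x‖ ≤ 4 * δ * T := by
    have e : V - (T : ℂ) * x
        = ((1 - t : ℝ) : ℂ) * (((2 / (1 - ‖z‖ ^ 2) : ℝ) : ℂ) * z
            - (((1 + ‖z‖ ^ 2) / (1 - ‖z‖ ^ 2) : ℝ) : ℂ) * x)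
          + (t : ℂ) * (((2 / (1 - ‖w‖ ^ 2) : ℝ) : ℂ) * w
            - (((1 + ‖w‖ ^ 2) / (1 - ‖w‖ ^ 2) : ℝ) : ℂ) * x) := by
      rw [hV, hT]; unfold halV halT; push_cast; ring
    rw [e]
    refine (norm_add_le _ _).trans ?_
    rw [norm_mul, norm_mul, Complex.norm_real, Complex.norm_real, Real.norm_eq_abs,
      Real.norm_eq_abs, abs_of_nonneg ht0, abs_of_nonneg ht1]
    have a1 := mul_le_mul_of_nonneg_left (hic_one hx hz hzx) ht1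
    have a2 := mul_le_mul_of_nonneg_left (hic_one hx hw hwx) ht0
    refine (add_le_add a1 a2).trans (le_of_eq ?_)
    rw [hT]; unfold halT; ring
  obtain ⟨s, hs⟩ : ∃ s, s = Real.sqrt (T ^ 2 - ‖V‖ ^ 2) := ⟨_, rfl⟩
  have hs0 : 0 ≤ s := hs ▸ Real.sqrt_nonneg _
  have hss : s ^ 2 = T ^ 2 - ‖V‖ ^ 2 := by rw [hs, Real.sq_sqrt (by linarith)]
  have hTpos : 0 < T := by linarith
  have hVle : ‖V‖ ≤ T := by
    have : ‖V‖ ^ 2 ≤ T ^ 2 := by linarith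
    exact le_of_sq_le_sq this hTpos.le
  have hTV : T - ‖V‖ ≤ 4 * δ * T := by
    have h1 : ‖(T : ℂ) * x‖ = T := by
      rw [norm_mul, Complex.norm_real, Real.norm_eq_abs, abs_of_pos hTpos, hx, mul_one]
    have h2 := norm_sub_norm_le ((T : ℂ) * x) V
    rw [h1, norm_sub_rev] at h2
    linarith
  have hs2 : s ^ 2 ≤ (ε / 2 * T) ^ 2 * (1 / 2) := by
    have h1 : s ^ 2 = (T - ‖V‖) * (T + ‖V‖) := by rw [hss]; ring
    have h2 : (T - ‖V‖) * (T + ‖V‖) ≤ (4 * δ * T) * (2 * T) := by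
      refine mul_le_mul hTV (by linarith) (by positivity) (by positivity)
    have h3 : (4 * δ * T) * (2 * T) = 8 * δ * T ^ 2 := by ring
    have h4 : 8 * δ * T ^ 2 ≤ 8 * (ε ^ 2 / 64) * T ^ 2 := by
      have : 0 ≤ T ^ 2 := by positivity
      nlinarith
    nlinarith
  have hsT : s ≤ ε / 2 * T := by
    have h1 : s ^ 2 ≤ (ε / 2 * T) ^ 2 := by nlinarith [sq_nonneg (ε / 2 * T)]
    exact le_of_sq_le_sq h1 (by positivity)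
  have hTs : 0 < T + s := by linarith
  have hTsC : ((T + s : ℝ) : ℂ) ≠ 0 := by
    rw [Complex.ofReal_ne_zero]; exact hTs.ne'
  have hR : hal t z w = V / ((T + s : ℝ) : ℂ) := by
    unfold hal
    rw [← hT, ← hV, ← hs]
  have e : hal t z w - x = (V - (T : ℂ) * x - (s : ℂ) * x) / ((T + s : ℝ) : ℂ) := by
    rw [hR]; field_simp; push_cast; ring
  rw [e, norm_div, Complex.norm_real, Real.norm_eq_abs, abs_of_pos hTs, div_lt_iff₀ hTs]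
  have h5 : ‖V - (T : ℂ) * x - (s : ℂ) * x‖ ≤ 4 * δ * T + s := by
    refine (norm_sub_le _ _).trans ?_
    rw [norm_mul, Complex.norm_real, Real.norm_eq_abs, abs_of_nonneg hs0, hx, mul_one]
    linarith
  nlinarith [mul_pos hε hTpos, mul_nonneg hε.le hs0]

end QC
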