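import Pool.Agent.Work.MP_217185_an.HypIntA
import Pool.Agent.Work.MP_217185_an.HypIntB
import Pool.Agent.Work.MP_217185_an.HypIntC

/-! # HypInt: equivariant interpolation in the hyperbolic disc -/

open MeasureTheory Complex Set Metric Filter
open scoped Topology ENNReal NNReal ContDiff ComplexConjugate

namespace QC

theorem exists_interp : ∃ L : ℝ → ℂ → ℂ → ℂ,
    (∀ t ∈ Icc (0 : ℝ) 1, ∀ z ∈ D, ∀ w ∈ D, L t z w ∈ D) ∧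
    (∀ z ∈ D, ∀ w ∈ D, L 0 z w = z ∧ L 1 z w = w) ∧
    ContinuousOn (fun p : ℝ × ℂ × ℂ => L p.1 p.2.1 p.2.2) (Icc (0 : ℝ) 1 ×ˢ D ×ˢ D) ∧
    (∀ a b : ℂ, ‖b‖ < ‖a‖ → ∀ t ∈ Icc (0 : ℝ) 1, ∀ z ∈ D, ∀ w ∈ D,
      L t (mob a b z) (mob a b w) = mob a b (L t z w)) ∧
    ∀ x : ℂ, ‖x‖ = 1 → ∀ ε > 0, ∃ δ > 0, ∀ t ∈ Icc (0 : ℝ) 1, ∀ z ∈ D, ∀ w ∈ D,
      ‖z - x‖ < δ → ‖w - x‖ < δ → ‖L t z w - x‖ < ε :=
  ⟨hal, fun _ ht _ hz _ hw => hal_mem ht hz hw, fun _ hz _ hw => hal_ends hz hw, hal_cont,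
    fun _ _ h _ ht _ hz _ hw => hal_mob h ht hz hw, fun x hx ε hε => hal_near x hx ε hε⟩

end QC
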