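import Pool.Agent.Work.MP_217185_an.TDefs
import Pool.Agent.Work.MP_217185_an.HypInt

/-! # CritA2: markings that agree on the circle are equivalent

Let `F₂ = σ F₁` on the circle, `G = F₂⁻¹ σ F₁ : CD ≃ₜ CD`, identity on the circle.  For `γ ∈ Γ`,
`γ₁ = F₁ γ F₁⁻¹`, `γ₂ = F₂ γ F₂⁻¹` (Moebius, `Tgt.grp`): `σ γ₁ σ⁻¹ = γ₂` on the circle, so everywhere
(`IsMob.ext_circle`), whence `G γ = γ G` and `Tgt T₁ σ T₂`.  Homotopy: `h t x = L t x (G x)` for `x` in
the open disc, `h t x = x` on the circle (`exists_interp`); continuous at circle points because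
`G x → x`; equivariant; `Reg Γ` contains the open disc and `h t x = x` at regular points of the
circle. -/

open MeasureTheory Complex Set Metric Filter
open scoped Topology ENNReal NNReal ContDiff ComplexConjugate

namespace QC

private theorem ca2_le (z : CD) : ‖(z : ℂ)‖ ≤ 1 := by
  have := z.2
  rwa [mem_closedBall, dist_zero_right] at this

private theorem ca2_tgt {S S₃ S₃' : Bord} {G G' σ : CD ≃ₜ CD} (hG : Tgt S G S₃)
    (hG' : Tgt S G' S₃') (hσ : IsMob σ) (he : ∀ x : CD, ‖(x : ℂ)‖ = 1 → G' x = σ (G x)) :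
    Tgt S₃ σ S₃' := by
  obtain ⟨T, hT⟩ := tgt_mob hσ S₃
  have h1 : Tgt S (σ * G) T := hT.comp hG
  have h2 : Tgt S G' T := h1.congr hG'.isQCS he
  rw [hG'.unique h2]
  exact hT

private theorem ca2_lt {S S' : Bord} {F : CD ≃ₜ CD} (h : Tgt S F S') (x : CD) :
    ‖(F x : ℂ)‖ < 1 ↔ ‖(x : ℂ)‖ < 1 := by
  obtain ⟨k, μ, hq⟩ := h.qc
  exact hq.pres x

private theorem ca2_eq {S S' : Bord} {F : CD ≃ₜ CD} (h : Tgt S F S') (x : CD) :
    ‖(F x : ℂ)‖ = 1 ↔ ‖(x : ℂ)‖ = 1 := by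
  have h1 := ca2_lt h x
  have h2 := ca2_le x
  have h3 := ca2_le (F x)
  constructor
  · intro h4
    by_contra h5
    have := h1.2 (lt_of_le_of_ne h2 h5)
    linarith
  · intro h4
    by_contra h5
    have := h1.1 (lt_of_le_of_ne h3 h5)
    linarith

private theorem ca2_mob_eq {γ : CD ≃ₜ CD} (h : IsMob γ) {x : CD} (hx : ‖(x : ℂ)‖ = 1) :
    ‖(γ x : ℂ)‖ = 1 := by
  obtain ⟨a, b, hab, hγ⟩ := h
  rw [hγ]
  exact norm_mob_eq hab hx

private theorem ca2_mob_lt {γ : CD ≃ₜ CD} (h : IsMob γ) {x : CD} (hx : ‖(x : ℂ)‖ < 1) :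
    ‖(γ x : ℂ)‖ < 1 := by
  obtain ⟨a, b, hab, hγ⟩ := h
  rw [hγ]
  exact norm_mob_lt hab hx

private theorem ca2_tgt_mob {S S' : Bord} {F : CD ≃ₜ CD} (h : Tgt S F S') {γ : CD ≃ₜ CD}
    (hγ : γ ∈ S.Γ) : IsMob (F * γ * F⁻¹) := by
  apply S'.mob
  rw [h.grp]
  have : F⁻¹ * (F * γ * F⁻¹) * F = γ := by group
  rw [this]
  exact hγ

open Classical in
/-- the homotopy. -/
private noncomputable def ca2_h (L : ℝ → ℂ → ℂ → ℂ) (G : CD → CD)
    (hL : ∀ t ∈ Icc (0 : ℝ) 1, ∀ z ∈ D, ∀ w ∈ D, L t z w ∈ D)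
    (hG : ∀ x : CD, ‖(x : ℂ)‖ < 1 → ‖(G x : ℂ)‖ < 1) (t : unitInterval) (x : CD) : CD :=
  if h : ‖(x : ℂ)‖ < 1 then ⟨L t x (G x), ball_subset_closedBall
    (hL t t.2 x (by simpa [D] using h) (G x) (by simpa [D] using hG x h))⟩ else x

theorem CEquiv.mequiv {S : Bord} {m₁ m₂ : Marked S} (h : CEquiv S m₁ m₂) : MEquiv S m₁ m₂ := by
  obtain ⟨σ, hσ, he⟩ := h
  obtain ⟨L, L1, L2, L3, L4, L5⟩ := exists_interp
  have hT : Tgt m₁.T σ m₂.T := ca2_tgt m₁.tgt m₂.tgt hσ he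
  obtain ⟨G, hG⟩ : ∃ G : CD ≃ₜ CD, G = m₂.F⁻¹ * σ * m₁.F := ⟨_, rfl⟩
  have hGx : ∀ x : CD, G x = m₂.F.symm (σ (m₁.F x)) := fun x => by rw [hG]; rfl
  -- `G` on the circle
  have hGc : ∀ x : CD, ‖(x : ℂ)‖ = 1 → G x = x := by
    intro x hx
    rw [hGx, ← he x hx, m₂.F.symm_apply_apply]
  have hGl : ∀ x : CD, ‖(x : ℂ)‖ < 1 → ‖(G x : ℂ)‖ < 1 := by
    intro x hx
    rw [← ca2_lt m₂.tgt (G x), hGx, m₂.F.apply_symm_apply, ca2_lt hT, ca2_lt m₁.tgt]
    exact hx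
  -- equivariance of `G`
  have hGe : ∀ γ ∈ S.Γ, ∀ x : CD, G (γ x) = γ (G x) := by
    intro γ hγ x
    have hm : IsMob γ := S.mob γ hγ
    have k : σ * (m₁.F * γ * m₁.F⁻¹) * σ⁻¹ = m₂.F * γ * m₂.F⁻¹ := by
      refine ((hσ.mul (ca2_tgt_mob m₁.tgt hγ)).mul hσ.inv).ext_circle (ca2_tgt_mob m₂.tgt hγ) ?_
      intro y hy
      change σ (m₁.F (γ (m₁.F.symm (σ.symm y)))) = m₂.F (γ (m₂.F.symm y))
      obtain ⟨x, hx⟩ : ∃ x, x = m₂.F.symm y := ⟨_, rfl⟩
      have hy2 : y = m₂.F x := by rw [hx, m₂.F.apply_symm_apply]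
      have hx1 : ‖(x : ℂ)‖ = 1 := by rw [← ca2_eq m₂.tgt, ← hy2]; exact hy
      rw [hy2, he x hx1, σ.symm_apply_apply, m₁.F.symm_apply_apply, ← he x hx1,
        m₂.F.symm_apply_apply]
      exact (he _ (ca2_mob_eq hm hx1)).symm
    have k2 : σ (m₁.F (γ x)) = m₂.F (γ (m₂.F.symm (σ (m₁.F x)))) := by
      have := congrArg (fun f : CD ≃ₜ CD => f (σ (m₁.F x))) k
      change σ (m₁.F (γ (m₁.F.symm (σ.symm (σ (m₁.F x)))))) = _ at this
      rw [σ.symm_apply_apply, m₁.F.symm_apply_apply] at this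
      exact this
    rw [hGx, hGx, k2, m₂.F.symm_apply_apply]
  have hh1 : ∀ (t : unitInterval) (x : CD), ‖(x : ℂ)‖ < 1 →
      ((ca2_h L G L1 hGl t x : CD) : ℂ) = L t x (G x) := by
    intro t x hx
    unfold ca2_h
    rw [dif_pos hx]
  have hh2 : ∀ (t : unitInterval) (x : CD), ¬ ‖(x : ℂ)‖ < 1 → ca2_h L G L1 hGl t x = x := by
    intro t x hx
    unfold ca2_h
    rw [dif_neg hx]
  have hh3 : ∀ (t : unitInterval) (x : CD), ‖(x : ℂ)‖ < 1 →
      ‖((ca2_h L G L1 hGl t x : CD) : ℂ)‖ < 1 := by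
    intro t x hx
    rw [hh1 t x hx]
    have := L1 t t.2 x (by simpa [D] using hx) (G x) (by simpa [D] using hGl x hx)
    simpa [D] using this
  have hcirc : ∀ x : CD, ¬ ‖(x : ℂ)‖ < 1 → ‖(x : ℂ)‖ = 1 := fun x hx =>
    le_antisymm (ca2_le x) (not_lt.1 hx)
  refine ⟨σ, hσ, hT, ca2_h L G L1 hGl, ?_, ?_, ?_, ?_, ?_, ?_⟩
  · -- continuity
    apply Continuous.continuousOn
    rw [continuous_iff_continuousAt]
    rintro ⟨t, x⟩
    rw [ContinuousAt, tendsto_subtype_rng]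
    by_cases hx : ‖(x : ℂ)‖ < 1
    · have hev : ∀ᶠ p : unitInterval × CD in 𝓝 (t, x), ‖(p.2 : ℂ)‖ < 1 := by
        have : Continuous fun p : unitInterval × CD => ‖(p.2 : ℂ)‖ := by fun_prop
        exact this.continuousAt.eventually_lt continuousAt_const hx
      have hc : ContinuousAt (fun p : unitInterval × CD => L p.1 p.2 (G p.2)) (t, x) := by
        have c1 : ContinuousAt (fun p : unitInterval × CD =>
            (((p.1 : ℝ), (p.2 : ℂ), (G p.2 : ℂ)) : ℝ × ℂ × ℂ)) (t, x) := by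
          have : Continuous (fun p : unitInterval × CD =>
            (((p.1 : ℝ), (p.2 : ℂ), (G p.2 : ℂ)) : ℝ × ℂ × ℂ)) := by
            have := G.continuous
            fun_prop
          exact this.continuousAt
        have c2 := L3 ((t : ℝ), (x : ℂ), (G x : ℂ))
          ⟨t.2, by simpa [D] using hx, by simpa [D] using hGl x hx⟩
        have c3 : Tendsto (fun p : unitInterval × CD =>
            (((p.1 : ℝ), (p.2 : ℂ), (G p.2 : ℂ)) : ℝ × ℂ × ℂ)) (𝓝 (t, x))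
            (𝓝[Icc (0 : ℝ) 1 ×ˢ D ×ˢ D] ((t : ℝ), (x : ℂ), (G x : ℂ))) := by
          rw [tendsto_nhdsWithin_iff]
          refine ⟨c1, ?_⟩
          filter_upwards [hev] with p hp
          exact ⟨p.1.2, by simpa [D] using hp, by simpa [D] using hGl p.2 hp⟩
        exact c2.tendsto.comp c3
      have hc2 : Tendsto (fun p : unitInterval × CD => ((ca2_h L G L1 hGl p.1 p.2 : CD) : ℂ))
          (𝓝 (t, x)) (𝓝 (L t x (G x))) := by
        refine hc.tendsto.congr' ?_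
        filter_upwards [hev] with p hp
        exact (hh1 p.1 p.2 hp).symm
      rw [← hh1 t x hx] at hc2
      exact hc2
    · have hx1 := hcirc x hx
      rw [hh2 t x hx, Metric.tendsto_nhds]
      intro ε hε
      obtain ⟨δ, hδ, hL⟩ := L5 x hx1 ε hε
      have e1 : ∀ᶠ p : unitInterval × CD in 𝓝 (t, x), ‖(p.2 : ℂ) - x‖ < min δ ε := by
        have c : Continuous fun p : unitInterval × CD => ‖(p.2 : ℂ) - x‖ := by fun_prop
        refine c.continuousAt.eventually_lt continuousAt_const ?_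
        simp only [sub_self, norm_zero]
        exact lt_min hδ hε
      have e2 : ∀ᶠ p : unitInterval × CD in 𝓝 (t, x), ‖(G p.2 : ℂ) - x‖ < δ := by
        have c : Continuous fun p : unitInterval × CD => ‖(G p.2 : ℂ) - x‖ := by
          have := G.continuous
          fun_prop
        refine c.continuousAt.eventually_lt continuousAt_const ?_
        rw [hGc x hx1]
        simpa using hδ
      filter_upwards [e1, e2] with p p1 p2
      by_cases hp : ‖(p.2 : ℂ)‖ < 1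
      · rw [hh1 _ _ hp, dist_eq_norm]
        exact hL p.1 p.1.2 _ (by simpa [D] using hp) _ (by simpa [D] using hGl _ hp)
          (p1.trans_le (min_le_left _ _)) p2
      · rw [hh2 _ _ hp, dist_eq_norm]
        exact p1.trans_le (min_le_right _ _)
  · intro t x hx
    by_cases h1 : ‖(x : ℂ)‖ < 1
    · exact S.disc _ (hh3 t x h1)
    · rw [hh2 t x h1]
      exact hx
  · intro x _
    by_cases h1 : ‖(x : ℂ)‖ < 1
    · apply Subtype.ext
      rw [hh1 _ _ h1]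
      exact (L2 x (by simpa [D] using h1) (G x) (by simpa [D] using hGl x h1)).1
    · exact hh2 _ _ h1
  · intro x _
    rw [← hG]
    by_cases h1 : ‖(x : ℂ)‖ < 1
    · apply Subtype.ext
      rw [hh1 _ _ h1]
      exact (L2 x (by simpa [D] using h1) (G x) (by simpa [D] using hGl x h1)).2
    · rw [hh2 _ _ h1, hGc x (hcirc x h1)]
  · intro t x _ hx
    exact hh2 _ _ (by rw [hx]; exact lt_irrefl _)
  · intro γ hγ t x _
    have hm : IsMob γ := S.mob γ hγ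
    by_cases h1 : ‖(x : ℂ)‖ < 1
    · have h2 := ca2_mob_lt hm h1
      obtain ⟨a, b, hab, hγx⟩ := hm
      apply Subtype.ext
      rw [hh1 _ _ h2, hγx (ca2_h L G L1 hGl t x), hh1 _ _ h1, hGe γ hγ x, hγx, hγx]
      exact L4 a b hab t t.2 x (by simpa [D] using h1) (G x) (by simpa [D] using hGl x h1)
    · have h2 := ca2_mob_eq hm (hcirc x h1)
      rw [hh2 _ _ h1, hh2 _ _ (by rw [h2]; exact lt_irrefl _)]

end QC
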