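import Pool.Agent.Work.MP_217185_an.CritA1
import Pool.Agent.Work.MP_217185_an.CritA2

/-! # CritA: the equivalence relation in terms of boundary values -/

open MeasureTheory Complex Set Metric Filter
open scoped Topology ENNReal NNReal ContDiff ComplexConjugate

namespace QC

theorem mequiv_iff {S : Bord} (m₁ m₂ : Marked S) : MEquiv S m₁ m₂ ↔ CEquiv S m₁ m₂ :=
  ⟨MEquiv.cequiv, CEquiv.mequiv⟩

end QC
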