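import Pool.Agent.Work.MP_217185_an.LimA

/-! # Lim: the regular points are dense in the circle

Let `y₀ ∈ Reg Γ`, `‖y₀‖ = 1` (`Bord.border`); its orbit consists of regular points of the circle
(`γ (Reg Γ) = Reg Γ`; Moebius maps preserve the circle).  Let `x` be a point of the circle that is not
regular; show that `x` is a limit of orbit points.  There are `u_n → x`, `γ_n ≠ 1`, `γ_n ∈ Γ`,
`γ_n u_n → x` (metric space, balls of radius `1/n`).
Case A: the set `{γ_n}` is infinite; pass to an injective subsequence and then to the subsequence of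
`exists_conv`.  If `x ≠ b` then `γ_n u_n → a`, so `x = a`, and `γ_n y₀ → a = x` (`y₀ ≠ b` as `b` is not
regular).  If `x = b` then `γ_n⁻¹ y₀ → b = x`.
Case B: otherwise some `γ ≠ 1` occurs infinitely often, then `γ x = x`.  With `t z = 1/(z - x)`:
`t (γ z) = l t z + c`, `l > 0`, so `t (γ^n y₀)` or `t (γ^{-n} y₀)` tends to infinity. -/

open MeasureTheory Complex Set Metric Filter
open scoped Topology ENNReal NNReal ContDiff ComplexConjugate

namespace QC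

private theorem lm_cd (z : CD) : ‖(z : ℂ)‖ ≤ 1 := mem_closedBall_zero_iff.1 z.2

private theorem lm_reg {Γ : Subgroup (CD ≃ₜ CD)} {γ : CD ≃ₜ CD} (hγ : γ ∈ Γ) {y : CD}
    (hy : y ∈ Reg Γ) : γ y ∈ Reg Γ := by
  obtain ⟨U, hU, hdisj⟩ := hy
  refine ⟨γ '' U, ?_, ?_⟩
  · exact (γ.isOpenMap.image_mem_nhds hU)
  · intro δ hδ hδ1
    rw [Set.disjoint_left]
    rintro _ ⟨_, ⟨u, hu, rfl⟩, rfl⟩ ⟨v, hv, hvu⟩
    have hne : γ⁻¹ * δ * γ ≠ 1 := by
      intro h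
      apply hδ1
      calc δ = γ * (γ⁻¹ * δ * γ) * γ⁻¹ := by group
        _ = 1 := by rw [h]; group
    have h1 := hdisj (γ⁻¹ * δ * γ) (Γ.mul_mem (Γ.mul_mem (Γ.inv_mem hγ) hδ) hγ) hne
    refine Set.disjoint_left.1 h1 ⟨u, hu, rfl⟩ ?_
    change γ.symm (δ (γ u)) ∈ U
    rw [← hvu, γ.symm_apply_apply]
    exact hv

private theorem lm_circle {S : Bord} {γ : CD ≃ₜ CD} (hγ : γ ∈ S.Γ) {y : CD}
    (hy : ‖(y : ℂ)‖ = 1) : ‖(γ y : ℂ)‖ = 1 := by
  obtain ⟨a, b, hab, h⟩ := S.mob γ hγ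
  rw [h]
  exact norm_mob_eq hab hy

/-- affine recursion with multiplier at least one -/
private theorem lm_rec {t : ℕ → ℂ} {l : ℝ} {c : ℂ} (hl : 1 ≤ l)
    (ht : ∀ n, t (n + 1) = (l : ℂ) * t n + c) (h01 : t 1 ≠ t 0) :
    Tendsto (fun n => ‖t n‖) atTop atTop := by
  have h1 : ∀ n, t (n + 1) - t n = (l : ℂ) ^ n * (t 1 - t 0) := by
    intro n
    induction n with
    | zero => simp
    | succ n ih =>
      rw [ht (n + 1), ht n, pow_succ]
      have h2 : (l : ℂ) * (t (n + 1) - t n) = (l : ℂ) * ((l : ℂ) ^ n * (t 1 - t 0)) := by rw [ih]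
      rw [ht n] at h2
      linear_combination h2
  have h2 : ∀ n, t n = t 0 + ((∑ i ∈ Finset.range n, l ^ i : ℝ) : ℂ) * (t 1 - t 0) := by
    intro n
    induction n with
    | zero => simp
    | succ n ih =>
      rw [Finset.sum_range_succ]
      have h3 := h1 n
      have h4 : t (n + 1) = t n + (l : ℂ) ^ n * (t 1 - t 0) := by rw [← h3]; ring
      rw [h4]
      nth_rewrite 1 [ih]
      push_cast
      ring
  have h3 : ∀ n : ℕ, (n : ℝ) ≤ ∑ i ∈ Finset.range n, l ^ i := by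
    intro n
    calc (n : ℝ) = ∑ i ∈ Finset.range n, (1 : ℝ) := by simp
      _ ≤ _ := Finset.sum_le_sum (fun i _ => one_le_pow₀ hl)
  have hd : 0 < ‖t 1 - t 0‖ := norm_pos_iff.2 (sub_ne_zero.2 h01)
  have h4 : ∀ n : ℕ, (n : ℝ) * ‖t 1 - t 0‖ - ‖t 0‖ ≤ ‖t n‖ := by
    intro n
    have h5 : ‖((∑ i ∈ Finset.range n, l ^ i : ℝ) : ℂ) * (t 1 - t 0)‖ ≤ ‖t n‖ + ‖t 0‖ := by
      have h6 : ((∑ i ∈ Finset.range n, l ^ i : ℝ) : ℂ) * (t 1 - t 0) = t n - t 0 := by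
        rw [h2 n]; ring
      rw [h6]
      exact norm_sub_le _ _
    rw [norm_mul, Complex.norm_real] at h5
    have h7 : (n : ℝ) ≤ ‖∑ i ∈ Finset.range n, l ^ i‖ := (h3 n).trans (le_abs_self _)
    have h8 := mul_le_mul_of_nonneg_right h7 hd.le
    linarith
  refine tendsto_atTop_mono h4 ?_
  refine tendsto_atTop_add_const_right _ _ ?_
  exact tendsto_natCast_atTop_atTop.atTop_mul_const hd

private theorem lm_inv {z : ℕ → CD} {x : CD} (_ : ∀ n, z n ≠ x)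
    (h : Tendsto (fun n => ‖1 / ((z n : ℂ) - x)‖) atTop atTop) : Tendsto z atTop (𝓝 x) := by
  rw [tendsto_subtype_rng, tendsto_iff_norm_sub_tendsto_zero]
  have h1 := h.inv_tendsto_atTop
  refine h1.congr (fun n => ?_)
  simp

private theorem lm_alg {a b A B N x z w X : ℂ} (hN : N = a * A - b * B) (hN0 : N ≠ 0)
    (hw : w = B * x + A) (hX : X = B * z + A) (hw0 : w ≠ 0) (hX0 : X ≠ 0) (hzx : z - x ≠ 0)
    (hfx : a * x + b = x * w) :
    1 / ((a * z + b) / X - x) = w ^ 2 / N * (1 / (z - x)) + B * w / N := by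
  have key : (a * z + b - x * X) * w = N * (z - x) := by
    have h1 : (a * z + b) * w - (a * x + b) * X = N * (z - x) := by
      rw [hN, hw, hX]; ring
    linear_combination h1 + X * hfx
  have h2 : (a * z + b) / X - x = N * (z - x) / (X * w) := by
    rw [eq_div_iff (mul_ne_zero hX0 hw0)]
    have h3 : ((a * z + b) / X - x) * (X * w) = ((a * z + b) / X * X - x * X) * w := by ring
    rw [h3, div_mul_cancel₀ _ hX0, key]
  have h4 : X = w + B * (z - x) := by rw [hX, hw]; ring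
  rw [h2, one_div_div, mul_one_div, div_div]
  rw [eq_comm, div_add_div _ _ (mul_ne_zero hN0 hzx) hN0, div_eq_div_iff
    (mul_ne_zero (mul_ne_zero hN0 hzx) hN0) (mul_ne_zero hN0 hzx), h4]
  ring

/-- a fixed point on the circle: the affine formula -/
private theorem lm_fix {γ : CD ≃ₜ CD} (hγ : IsMob γ) {x : CD} (hx : ‖(x : ℂ)‖ = 1)
    (hfix : γ x = x) : ∃ (l : ℝ) (c : ℂ), 0 < l ∧ ∀ z : CD, z ≠ x →
      1 / ((γ z : ℂ) - x) = (l : ℂ) * (1 / ((z : ℂ) - x)) + c := by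
  obtain ⟨a, b, hab, h⟩ := hγ
  have hN : 0 < ‖a‖ ^ 2 - ‖b‖ ^ 2 := by
    have := norm_nonneg b
    nlinarith
  have hNC : ((‖a‖ ^ 2 - ‖b‖ ^ 2 : ℝ) : ℂ) ≠ 0 := by
    exact_mod_cast hN.ne'
  have hNe : ((‖a‖ ^ 2 - ‖b‖ ^ 2 : ℝ) : ℂ) = a * conj a - b * conj b := by
    rw [Complex.mul_conj, Complex.mul_conj, Complex.normSq_eq_norm_sq, Complex.normSq_eq_norm_sq]
    push_cast
    ring
  obtain ⟨w, hw⟩ : ∃ w, w = conj b * (x : ℂ) + conj a := ⟨_, rfl⟩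
  have hdx : w ≠ 0 := by
    rw [hw]
    exact mob_denom_ne hab (lm_cd x)
  have hfx : a * (x : ℂ) + b = x * w := by
    have h1 := h x
    rw [hfix] at h1
    unfold mob at h1
    rw [← hw, eq_div_iff hdx] at h1
    exact h1.symm
  have hxx : (x : ℂ) * conj (x : ℂ) = 1 := by
    rw [Complex.mul_conj, Complex.normSq_eq_norm_sq, hx]
    norm_num
  have hx0 : (x : ℂ) ≠ 0 := by
    intro h0
    rw [h0, norm_zero] at hx
    exact zero_ne_one hx
  have hwr : conj w = w := by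
    have h1 : (x : ℂ) * conj w = x * w := by
      rw [← hfx, hw, map_add, map_mul, Complex.conj_conj, Complex.conj_conj]
      linear_combination b * hxx
    exact mul_left_cancel₀ hx0 h1
  obtain ⟨w1, hw1⟩ := Complex.conj_eq_iff_real.1 hwr
  have hw10 : w1 ≠ 0 := by
    rintro rfl
    apply hdx
    rw [hw1]
    simp
  refine ⟨w1 ^ 2 / (‖a‖ ^ 2 - ‖b‖ ^ 2), conj b * w / ((‖a‖ ^ 2 - ‖b‖ ^ 2 : ℝ) : ℂ), by positivity, ?_⟩
  intro z hz
  have hzx : (z : ℂ) - x ≠ 0 := sub_ne_zero.2 (fun h0 => hz (Subtype.ext h0))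
  have hdz := mob_denom_ne hab (lm_cd z)
  have h1 := lm_alg hNe hNC hw rfl hdx hdz hzx hfx
  have h2 : ((w1 ^ 2 / (‖a‖ ^ 2 - ‖b‖ ^ 2) : ℝ) : ℂ) = w ^ 2 / ((‖a‖ ^ 2 - ‖b‖ ^ 2 : ℝ) : ℂ) := by
    rw [hw1]
    push_cast
    rfl
  rw [h2, ← h1, h z]
  rfl

private theorem lm_seq {S : Bord} {γ : CD ≃ₜ CD} (hγ : γ ∈ S.Γ) (hγ1 : γ ≠ 1) {x y : CD}
    (hx : x ∉ Reg S.Γ) (hy : y ∈ Reg S.Γ) {l : ℝ} {c : ℂ} (hl : 1 ≤ l)
    (h : ∀ z : CD, z ≠ x → 1 / ((γ z : ℂ) - x) = (l : ℂ) * (1 / ((z : ℂ) - x)) + c) :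
    Tendsto (fun n : ℕ => (γ ^ n) y) atTop (𝓝 x) := by
  have hreg : ∀ n : ℕ, (γ ^ n) y ∈ Reg S.Γ := fun n => lm_reg (S.Γ.pow_mem hγ n) hy
  have hne : ∀ n : ℕ, (γ ^ n) y ≠ x := fun n h0 => hx (h0 ▸ hreg n)
  have hstep : ∀ n : ℕ, (γ ^ (n + 1)) y = γ ((γ ^ n) y) := by
    intro n
    rw [pow_succ']
    rfl
  refine lm_inv hne (lm_rec (c := c) hl (fun n => ?_) ?_)
  · rw [hstep]
    exact h _ (hne n)
  · intro h0
    simp only [one_div] at h0
    have h1 := inv_injective h0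
    have h2 : (((γ ^ 1) y : CD) : ℂ) = ((γ ^ 0) y : CD) := by
      linear_combination h1
    have h3 : γ y = y := by
      apply Subtype.ext
      rw [pow_one, pow_zero] at h2
      exact h2
    obtain ⟨U, hU, hdisj⟩ := hy
    have h4 := mem_of_mem_nhds hU
    exact Set.disjoint_left.1 (hdisj γ hγ hγ1) ⟨y, h4, rfl⟩ (h3.symm ▸ h4)

/-- case B -/
private theorem lm_caseB {S : Bord} {γ : CD ≃ₜ CD} (hγ : γ ∈ S.Γ) (hγ1 : γ ≠ 1) {x y : CD}
    (hx1 : ‖(x : ℂ)‖ = 1) (hx : x ∉ Reg S.Γ) (hy : y ∈ Reg S.Γ) (hfix : γ x = x) :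
    ∃ δ : ℕ → CD ≃ₜ CD, (∀ n, δ n ∈ S.Γ) ∧ Tendsto (fun n => δ n y) atTop (𝓝 x) := by
  obtain ⟨l, c, hl0, hlc⟩ := lm_fix (S.mob γ hγ) hx1 hfix
  rcases le_or_gt 1 l with hl | hl
  · exact ⟨fun n => γ ^ n, fun n => S.Γ.pow_mem hγ n, lm_seq hγ hγ1 hx hy hl hlc⟩
  · refine ⟨fun n => γ⁻¹ ^ n, fun n => S.Γ.pow_mem (S.Γ.inv_mem hγ) n,
      lm_seq (S.Γ.inv_mem hγ) (inv_ne_one.2 hγ1) hx hy (l := l⁻¹) (c := -c / l)
        ((one_le_inv₀ hl0).2 hl.le) ?_⟩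
    intro z hz
    have h1 : γ⁻¹ z ≠ x := by
      intro h0
      apply hz
      calc z = γ (γ⁻¹ z) := (γ.apply_symm_apply z).symm
        _ = x := by rw [h0, hfix]
    have h2 := hlc _ h1
    have h3 : γ (γ⁻¹ z) = z := γ.apply_symm_apply z
    rw [h3] at h2
    have hl' : (l : ℂ) ≠ 0 := by exact_mod_cast hl0.ne'
    rw [h2]
    push_cast
    field_simp
    ring

/-- an injective subsequence -/
private theorem lm_sub {α : Type*} {g : ℕ → α} (h : ∀ a, {n | g n = a}.Finite) :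
    ∃ ψ : ℕ → ℕ, StrictMono ψ ∧ Function.Injective (fun n => g (ψ n)) := by
  obtain ⟨ψ, -, hψ⟩ := exists_seq_of_forall_finset_exists (fun _ : ℕ => True)
    (fun m n => m < n ∧ g m ≠ g n) (by
      intro s _
      have h1 : (⋃ m ∈ s, {n | g n = g m}).Finite :=
        Set.Finite.biUnion s.finite_toSet (fun m _ => h (g m))
      have h2 : (⋃ m ∈ s, {n | n ≤ m}).Finite :=
        Set.Finite.biUnion s.finite_toSet (fun m _ => Set.finite_le_nat m)
      obtain ⟨n, hn⟩ := (h1.union h2).infinite_compl.nonempty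
      refine ⟨n, trivial, fun m hm => ⟨?_, ?_⟩⟩
      · by_contra hcon
        apply hn
        right
        simp only [Set.mem_iUnion, Set.mem_ofPred_eq]
        exact ⟨m, hm, not_lt.1 hcon⟩
      · intro h0
        apply hn
        left
        simp only [Set.mem_iUnion, Set.mem_ofPred_eq]
        exact ⟨m, hm, h0.symm⟩)
  have hmono : StrictMono ψ := fun m n hmn => (hψ m n hmn).1
  refine ⟨ψ, hmono, ?_⟩
  intro m n hmn
  by_contra hcon
  rcases lt_or_gt_of_ne hcon with h1 | h1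
  · exact (hψ m n h1).2 hmn
  · exact (hψ n m h1).2 hmn.symm

theorem dense_border (S : Bord) (x : CD) (hx : ‖(x : ℂ)‖ = 1) :
    x ∈ closure {y : CD | y ∈ Reg S.Γ ∧ ‖(y : ℂ)‖ = 1} := by
  by_cases hreg : x ∈ Reg S.Γ
  · exact subset_closure ⟨hreg, hx⟩
  obtain ⟨y, hy, hy1⟩ := S.border
  -- it suffices to find orbit points tending to `x`
  suffices hs : ∃ δ : ℕ → CD ≃ₜ CD, (∀ n, δ n ∈ S.Γ) ∧ Tendsto (fun n => δ n y) atTop (𝓝 x) by
    obtain ⟨δ, hδ, hlim⟩ := hs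
    exact mem_closure_of_tendsto hlim
      (Eventually.of_forall fun n => ⟨lm_reg (hδ n) hy, lm_circle (hδ n) hy1⟩)
  have h1 : ∀ n : ℕ, ∃ γ ∈ S.Γ, γ ≠ 1 ∧ ∃ u : CD, dist u x < 1 / ((n : ℝ) + 1) ∧
      dist (γ u) x < 1 / ((n : ℝ) + 1) := by
    intro n
    by_contra hcon
    push Not at hcon
    apply hreg
    refine ⟨ball x (1 / ((n : ℝ) + 1)), ball_mem_nhds _ (by positivity), ?_⟩
    intro γ hγ hγ1
    rw [Set.disjoint_left]
    rintro _ ⟨u, hu, rfl⟩ hgu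
    exact absurd hgu (not_lt.2 (hcon γ hγ hγ1 u hu))
  choose γ hγ hγ1 u hu hgu using h1
  have hu0 : Tendsto u atTop (𝓝 x) := by
    rw [tendsto_iff_dist_tendsto_zero]
    exact squeeze_zero (fun _ => dist_nonneg) (fun n => (hu n).le) tendsto_one_div_add_atTop_nhds_zero_nat
  have hgu0 : Tendsto (fun n => γ n (u n)) atTop (𝓝 x) := by
    rw [tendsto_iff_dist_tendsto_zero]
    exact squeeze_zero (fun _ => dist_nonneg) (fun n => (hgu n).le)
      tendsto_one_div_add_atTop_nhds_zero_nat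
  by_cases hfin : ∀ δ : CD ≃ₜ CD, {n | γ n = δ}.Finite
  · -- case A
    obtain ⟨ψ, hψ, hinj⟩ := lm_sub hfin
    obtain ⟨φ, hφ, a, b, ha, hb, har, hbr, hA, hB⟩ := exists_conv S (fun n => hγ (ψ n)) hinj
    have hsub : Tendsto (fun n => ψ (φ n)) atTop atTop := hψ.tendsto_atTop.comp hφ.tendsto_atTop
    by_cases hxb : x = b
    · refine ⟨fun n => (γ (ψ (φ n)))⁻¹, fun n => S.Γ.inv_mem (hγ _), ?_⟩
      rw [hxb]
      exact hB y (fun _ => y) (fun h0 => har (h0 ▸ hy)) tendsto_const_nhds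
    · have h2 : Tendsto (fun n => γ (ψ (φ n)) (u (ψ (φ n)))) atTop (𝓝 a) :=
        hA x (fun n => u (ψ (φ n))) hxb (hu0.comp hsub)
      have h3 : Tendsto (fun n => γ (ψ (φ n)) (u (ψ (φ n)))) atTop (𝓝 x) := hgu0.comp hsub
      have h4 : x = a := tendsto_nhds_unique h3 h2
      refine ⟨fun n => γ (ψ (φ n)), fun n => hγ _, ?_⟩
      rw [h4]
      exact hA y (fun _ => y) (fun h0 => hbr (h0 ▸ hy)) tendsto_const_nhds
  · -- case B
    push Not at hfin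
    obtain ⟨δ, hδ⟩ := hfin
    have hfreq : ∃ᶠ n in atTop, γ n = δ := by
      rw [Nat.frequently_atTop_iff_infinite]
      exact hδ
    obtain ⟨ψ, hψ, hψδ⟩ := extraction_of_frequently_atTop hfreq
    have h2 : Tendsto (fun n => δ (u (ψ n))) atTop (𝓝 (δ x)) :=
      (δ.continuous.tendsto x).comp (hu0.comp hψ.tendsto_atTop)
    have h3 : Tendsto (fun n => δ (u (ψ n))) atTop (𝓝 x) := by
      have := hgu0.comp hψ.tendsto_atTop
      refine this.congr (fun n => ?_)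
      change γ (ψ n) (u (ψ n)) = δ (u (ψ n))
      rw [hψδ n]
    have hfix : δ x = x := tendsto_nhds_unique h2 h3
    have hδΓ : δ ∈ S.Γ := hψδ 0 ▸ hγ (ψ 0)
    have hδ1 : δ ≠ 1 := hψδ 0 ▸ hγ1 (ψ 0)
    exact lm_caseB hδΓ hδ1 hx hreg hy hfix

end QC
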