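import Pool.Agent.Work.MP_217185_an.TDefs
import Pool.Agent.Work.MP_217185_an.Lim
import Pool.Agent.Work.MP_217185_an.HypInt
import Pool.Agent.Work.MP_217185_an.CritA

/-! # CritB: the equivalence relation in terms of boundary values

`→`: `G = F₂⁻¹ σ F₁` is the identity at the regular points of the circle (`t = 1`), hence on the circle
(`dense_border`, continuity).
`←`: let `F₂ = σ F₁` on the circle, `G = F₂⁻¹ σ F₁`, identity on the circle.  For `γ ∈ Γ`,
`γ₁ = F₁ γ F₁⁻¹`, `γ₂ = F₂ γ F₂⁻¹`: `σ γ₁ σ⁻¹ = γ₂` on the circle, so everywhere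
(`IsMob.ext_circle`), whence `G γ = γ G` and `Tgt T₁ σ T₂`.  Homotopy: `h t x = L t x (G x)` for `x` in
the open disc, `h t x = x` on the circle (`exists_interp`); continuous at circle points because
`G x → x`; equivariant. -/

open MeasureTheory Complex Set Metric Filter
open scoped Topology ENNReal NNReal ContDiff ComplexConjugate

namespace QC

theorem cequiv_equivalence (S : Bord) : Equivalence (CEquiv S) := by
  refine ⟨?_, ?_, ?_⟩
  · intro m
    exact ⟨1, isMob_one, fun x _ => rfl⟩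
  · rintro m₁ m₂ ⟨σ, hσ, h⟩
    refine ⟨σ⁻¹, hσ.inv, fun x hx => ?_⟩
    rw [h x hx]
    exact (σ.symm_apply_apply _).symm
  · rintro m₁ m₂ m₃ ⟨σ, hσ, h⟩ ⟨τ, hτ, h'⟩
    refine ⟨τ * σ, hτ.mul hσ, fun x hx => ?_⟩
    rw [h' x hx, h x hx]
    rfl

theorem mk_eq_iff {S : Bord} (m₁ m₂ : Marked S) :
    Teich.mk m₁ = Teich.mk m₂ ↔ CEquiv S m₁ m₂ := by
  have he : MEquiv S = CEquiv S := by
    funext a b
    exact propext (mequiv_iff a b)
  have h1 : (Quot.mk (MEquiv S) m₁ = Quot.mk (MEquiv S) m₂)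
      ↔ Relation.EqvGen (MEquiv S) m₁ m₂ := Quot.eq
  have h2 : Relation.EqvGen (MEquiv S) m₁ m₂ ↔ CEquiv S m₁ m₂ := by
    rw [he]
    exact (cequiv_equivalence S).eqvGen_iff
  exact h1.trans h2

end QC
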