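import Pool.Agent.Work.MP_217185_an.TDefs
import Pool.Agent.Work.MP_217185_an.Lim

/-! # CritA1: equivalent markings have boundary values that agree up to a Moebius map

`G = F₂⁻¹ σ F₁` is the identity at the regular points of the circle (`t = 1` in the homotopy), hence on
the circle (`dense_border`, continuity). -/

open MeasureTheory Complex Set Metric Filter
open scoped Topology ENNReal NNReal ContDiff ComplexConjugate

namespace QC

theorem MEquiv.cequiv {S : Bord} {m₁ m₂ : Marked S} (h : MEquiv S m₁ m₂) : CEquiv S m₁ m₂ := by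
  obtain ⟨σ, hσ, -, h, -, -, -, h1, hb, -⟩ := h
  refine ⟨σ, hσ, fun x hx => ?_⟩
  have hcl : IsClosed {y : CD | m₂.F y = σ (m₁.F y)} :=
    isClosed_eq m₂.F.continuous (σ.continuous.comp m₁.F.continuous)
  have hsub : {y : CD | y ∈ Reg S.Γ ∧ ‖(y : ℂ)‖ = 1} ⊆ {y : CD | m₂.F y = σ (m₁.F y)} := by
    rintro y ⟨hy, hy1⟩
    have e1 : h 1 y = m₂.F.symm (σ (m₁.F y)) := h1 y hy
    have e2 : h 1 y = y := hb 1 y hy hy1
    rw [e2] at e1
    change m₂.F y = σ (m₁.F y)
    rw [e1, m₂.F.apply_symm_apply, ← e1]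
  exact hcl.closure_subset_iff.2 hsub (dense_border S x hx)

end QC
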