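import Pool.Agent.Work.MP_217185_an.DFact

/-! # DComp1A: composition of quasiconformal homeomorphisms of the disc

* `comp_inv`: `H = g ∘ w` (`IsQC.fact`), so `F ∘ H⁻¹ = (F ∘ w⁻¹) ∘ g⁻¹` on `D`: `chain` (`U = D`,
  `f = ext F`) and `WD.comp_holo` with the holomorphic inverse of `g`.  If `F` has derivatives
  `(p, μ p)` and `H` has `(s, ν s)` then the derivatives `(c', d')` of `F ∘ H⁻¹` satisfy
  `c'(H z) J = p conj s (1 - μ conj ν)`, `d'(H z) J = p s (μ - ν)`, so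
  `κ(H z) = (μ - ν)/(1 - μ conj ν) s/conj s`.  `‖κ‖ ≤ (k + k')/(1 + k k')`.  Choose a measurable
  everywhere bounded representative. -/

open MeasureTheory Complex Set Metric Filter
open scoped Topology ENNReal NNReal ContDiff ComplexConjugate

namespace QC

variable {k k' : ℝ} {F H : CD ≃ₜ CD} {μ ν : ℂ → ℂ}

theorem dc_ext_of_mem (F : CD → CD) {z : ℂ} (hz : z ∈ closedBall (0:ℂ) 1) :
    ext F z = F ⟨z, hz⟩ := by
  unfold ext
  rw [dif_pos hz]

theorem dc_ext_mem (F : CD → CD) {z : ℂ} (hz : z ∈ closedBall (0:ℂ) 1) :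
    ext F z ∈ closedBall (0:ℂ) 1 := by
  rw [dc_ext_of_mem F hz]; exact (F ⟨z, hz⟩).2

theorem dc_ext_mul (F H : CD ≃ₜ CD) {z : ℂ} (hz : z ∈ closedBall (0:ℂ) 1) :
    ext (F * H : CD ≃ₜ CD) z = ext F (ext H z) := by
  rw [dc_ext_of_mem _ hz, dc_ext_of_mem F (dc_ext_mem H hz)]
  have : (⟨ext H z, dc_ext_mem H hz⟩ : CD) = H ⟨z, hz⟩ := Subtype.ext (dc_ext_of_mem H hz)
  rw [this]; rfl

theorem dc_ext_inv_left (H : CD ≃ₜ CD) {z : ℂ} (hz : z ∈ closedBall (0:ℂ) 1) :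
    ext (H⁻¹ : CD ≃ₜ CD) (ext H z) = z := by
  rw [← dc_ext_mul _ _ hz, dc_ext_of_mem _ hz]
  simp

theorem dc_ext_inv_right (H : CD ≃ₜ CD) {z : ℂ} (hz : z ∈ closedBall (0:ℂ) 1) :
    ext H (ext (H⁻¹ : CD ≃ₜ CD) z) = z := by
  rw [← dc_ext_mul _ _ hz, dc_ext_of_mem _ hz]
  simp

theorem dc_D_sub : D ⊆ closedBall (0:ℂ) 1 := ball_subset_closedBall

theorem dc_ext_D (h : ∀ z : CD, ‖(F z : ℂ)‖ < 1 ↔ ‖(z : ℂ)‖ < 1) {z : ℂ} (hz : z ∈ D) :
    ext F z ∈ D := by
  rw [dc_ext_of_mem _ (dc_D_sub hz), mem_ball_zero_iff]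
  exact (h _).2 (by simpa using hz)

theorem dc_pres_inv (h : ∀ z : CD, ‖(F z : ℂ)‖ < 1 ↔ ‖(z : ℂ)‖ < 1) (z : CD) :
    ‖((F⁻¹ : CD ≃ₜ CD) z : ℂ)‖ < 1 ↔ ‖(z : ℂ)‖ < 1 := by
  have h1 := h ((F⁻¹ : CD ≃ₜ CD) z)
  have h2 : F ((F⁻¹ : CD ≃ₜ CD) z) = z := by
    have : (F * F⁻¹ : CD ≃ₜ CD) z = z := by simp
    exact this
  rw [h2] at h1
  exact h1.symm

theorem dc_pres_mul (h : ∀ z : CD, ‖(F z : ℂ)‖ < 1 ↔ ‖(z : ℂ)‖ < 1)
    (h' : ∀ z : CD, ‖(H z : ℂ)‖ < 1 ↔ ‖(z : ℂ)‖ < 1) (z : CD) :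
    ‖((F * H : CD ≃ₜ CD) z : ℂ)‖ < 1 ↔ ‖(z : ℂ)‖ < 1 := by
  have h2 : (F * H : CD ≃ₜ CD) z = F (H z) := rfl
  rw [h2, h, h']

theorem dc_measurable_ext (F : CD ≃ₜ CD) : Measurable (ext F) := by
  classical
  have h1 : Measurable (fun z : CD => (F z : ℂ)) :=
    (continuous_subtype_val.comp F.continuous).measurable
  unfold ext
  exact Measurable.dite (s := closedBall (0:ℂ) 1) (f := fun z => (F z : ℂ))
    (g := fun z => (z : ℂ)) h1 measurable_subtype_coe isClosed_closedBall.measurableSet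

/-- pseudo hyperbolic distance. -/
theorem dc_ph {x y : ℂ} (hk : k < 1) (hk' : k' < 1) (hx : ‖x‖ ≤ k) (hy : ‖y‖ ≤ k') :
    ‖(x - y) / (1 - x * conj y)‖ ≤ (k + k') / (1 + k * k') := by
  have hk0 : 0 ≤ k := (norm_nonneg _).trans hx
  have hk0' : 0 ≤ k' := (norm_nonneg _).trans hy
  set a := ‖x‖ with ha
  set b := ‖y‖ with hb
  have ha0 : 0 ≤ a := norm_nonneg _
  have hb0 : 0 ≤ b := norm_nonneg _
  have hxy : ‖x * conj y‖ = a * b := by rw [norm_mul, Complex.norm_conj]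
  have hab : a * b < 1 := by nlinarith
  have hden : 0 < ‖1 - x * conj y‖ := by
    rw [norm_pos_iff]
    intro h0
    have : x * conj y = 1 := by linear_combination -h0
    rw [this] at hxy
    simp at hxy
    linarith
  set r := (x * conj y).re with hr
  have hr1 : |r| ≤ a * b := by rw [← hxy]; exact Complex.abs_re_le_norm _
  have e1 : ‖x - y‖ ^ 2 = a ^ 2 - 2 * r + b ^ 2 := by
    rw [ha, hb, hr, ← Complex.normSq_eq_norm_sq, ← Complex.normSq_eq_norm_sq,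
      ← Complex.normSq_eq_norm_sq, Complex.normSq_sub]
    ring
  have e2 : ‖1 - x * conj y‖ ^ 2 = 1 - 2 * r + a ^ 2 * b ^ 2 := by
    rw [ha, hb, hr, ← Complex.normSq_eq_norm_sq, ← Complex.normSq_eq_norm_sq,
      ← Complex.normSq_eq_norm_sq, Complex.normSq_sub, Complex.normSq_mul, Complex.normSq_conj]
    simp
    ring
  have key : ‖x - y‖ * (1 + a * b) ≤ (a + b) * ‖1 - x * conj y‖ := by
    apply le_of_sq_le_sq _ (by positivity)
    rw [mul_pow, mul_pow, e1, e2]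
    have h1 : 0 ≤ a * b + r := by linarith [neg_abs_le r]
    have h2 : 0 ≤ (1 - a ^ 2) * (1 - b ^ 2) := by
      apply mul_nonneg <;> nlinarith
    nlinarith [mul_nonneg h1 h2]
  have key2 : (a + b) * (1 + k * k') ≤ (k + k') * (1 + a * b) := by
    have h1 : 0 ≤ (k - a) * (1 - b * k') := by
      apply mul_nonneg <;> nlinarith
    have h2 : 0 ≤ (k' - b) * (1 - a * k) := by
      apply mul_nonneg <;> nlinarith
    nlinarith
  rw [norm_div, div_le_div_iff₀ hden (by positivity)]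
  have h3 : 0 < 1 + a * b := by positivity
  have h4 : ‖x - y‖ * (1 + k * k') * (1 + a * b) ≤ (k + k') * ‖1 - x * conj y‖ * (1 + a * b) := by
    calc ‖x - y‖ * (1 + k * k') * (1 + a * b) = (‖x - y‖ * (1 + a * b)) * (1 + k * k') := by ring
      _ ≤ ((a + b) * ‖1 - x * conj y‖) * (1 + k * k') := by gcongr
      _ = ((a + b) * (1 + k * k')) * ‖1 - x * conj y‖ := by ring
      _ ≤ ((k + k') * (1 + a * b)) * ‖1 - x * conj y‖ := by gcongr
      _ = _ := by ring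
  exact le_of_mul_le_mul_right h4 h3

/-- the chain rule for `F ∘ H⁻¹` on the disc. -/
theorem IsQC.chain_inv (_hF : IsQC k F μ) (hH : IsQC k' H ν) {p q s t : ℂ → ℂ}
    (hp : WD D (ext F) p q) (hs : WD D (ext H) s t) :
    ∃ A B, WD D (ext (F * H⁻¹ : CD ≃ₜ CD)) A B ∧ ∀ᵐ z ∂(volume.restrict D),
      A (ext H z) * ((‖s z‖ ^ 2 - ‖t z‖ ^ 2 : ℝ) : ℂ) = p z * conj (s z) - q z * conj (t z) ∧
      B (ext H z) * ((‖s z‖ ^ 2 - ‖t z‖ ^ 2 : ℝ) : ℂ) = q z * s z - p z * t z := by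
  obtain ⟨w, hw, g, hg, hgi, himg, hgw, hg'⟩ := hH.fact
  have hDo : IsOpen (D : Set ℂ) := isOpen_ball
  have hVo : IsOpen (w '' D) := w.isOpenMap _ hDo
  have hinvD : ∀ z ∈ D, ext (H⁻¹ : CD ≃ₜ CD) z ∈ D := fun z hz => dc_ext_D (dc_pres_inv hH.pres) hz
  -- the inverse of g
  set gi : ℂ → ℂ := fun z => w (ext (H⁻¹ : CD ≃ₜ CD) z) with hgi_def
  have hgiV : MapsTo gi D (w '' D) := fun z hz => ⟨_, hinvD z hz, rfl⟩
  have hggi : ∀ z ∈ D, g (gi z) = z := by
    intro z hz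
    rw [hgi_def]
    simp only
    rw [← hgw _ (hinvD z hz), dc_ext_inv_right H (dc_D_sub hz)]
  have hginj : InjOn gi D := by
    intro z hz z' hz' h
    rw [← hggi z hz, ← hggi z' hz', h]
  have hgic : ContinuousOn gi D := by
    have h1 : ContinuousOn (ext (H⁻¹ : CD ≃ₜ CD)) D := (continuousOn_ext _).mono dc_D_sub
    exact w.continuous.comp_continuousOn h1
  have hg'V : ∀ z ∈ D, deriv g (gi z) ≠ 0 := by
    intro z hz
    have h1 := hinvD z hz
    exact hg' ⟨_, dc_D_sub h1⟩ (by simpa using h1)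
  have hgid : ∀ z ∈ D, HasDerivAt gi (deriv g (gi z))⁻¹ z := by
    intro z hz
    apply HasDerivAt.of_local_left_inverse (f := g)
    · exact hgic.continuousAt (hDo.mem_nhds hz)
    · exact (hg.differentiableAt (hVo.mem_nhds (hgiV hz))).hasDerivAt
    · exact hg'V z hz
    · filter_upwards [hDo.mem_nhds hz] with y hy using hggi y hy
  have hgiD : DifferentiableOn ℂ gi D := fun z hz => (hgid z hz).differentiableAt.differentiableWithinAt
  obtain ⟨c', d', hcd, hae⟩ := chain hw.approx hDo ((continuousOn_ext F).mono dc_D_sub) hp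
  have hcomp := WD.comp_holo hVo hDo hgiD hginj hgiV hcd
  refine ⟨_, _, hcomp.congr hDo ?_ ae_eq_rfl ae_eq_rfl, ?_⟩
  · filter_upwards [ae_restrict_mem hDo.measurableSet] with z hz
    rw [hgi_def]
    simp only [Homeomorph.symm_apply_apply]
    rw [dc_ext_mul _ _ (dc_D_sub hz)]
  · -- derivatives of H
    have hwd : WD D w (fun z => 1 + Tf (hh ν) z) (hh ν) := hw.wd.mono hDo (subset_univ _)
    have h2 := WD.holo_comp hDo hVo hwd w.continuous.continuousOn (mapsTo_image _ _) hg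
    have h3 := h2.congr hDo (f' := ext H) (by
      filter_upwards [ae_restrict_mem hDo.measurableSet] with z hz
      exact (hgw z hz).symm) ae_eq_rfl ae_eq_rfl
    obtain ⟨hsa, htb⟩ := WD.unique hDo hs h3
    filter_upwards [hae, hsa, htb, ae_restrict_mem hDo.measurableSet] with z h1 h2 h3 hz
    have hgiz : gi (ext H z) = w z := by
      rw [hgi_def]
      simp only
      rw [dc_ext_inv_left H (dc_D_sub hz)]
    have hHz : ext H z ∈ D := dc_ext_D hH.pres hz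
    have hdgi : deriv gi (ext H z) = (deriv g (w z))⁻¹ := by
      rw [(hgid _ hHz).deriv, hgiz]
    have hG : deriv g (w z) ≠ 0 := by rw [← hgiz]; exact hg'V _ hHz
    have hG' : conj (deriv g (w z)) ≠ 0 := by simpa using hG
    rw [hgiz, hdgi, h2, h3]
    obtain ⟨e1, e2⟩ := h1
    have hn : ((‖deriv g (w z) * (1 + Tf (hh ν) z)‖ ^ 2 - ‖deriv g (w z) * hh ν z‖ ^ 2 : ℝ) : ℂ)
        = deriv g (w z) * conj (deriv g (w z)) *
          ((‖1 + Tf (hh ν) z‖ ^ 2 - ‖hh ν z‖ ^ 2 : ℝ) : ℂ) := by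
      rw [Complex.mul_conj, Complex.normSq_eq_norm_sq, norm_mul, norm_mul]
      push_cast
      ring
    rw [hn]
    constructor
    · rw [map_mul, map_mul]
      have : c' (w z) * (deriv g (w z))⁻¹ * (deriv g (w z) * conj (deriv g (w z)) *
          ((‖1 + Tf (hh ν) z‖ ^ 2 - ‖hh ν z‖ ^ 2 : ℝ) : ℂ)) = 
          (c' (w z) * ((‖1 + Tf (hh ν) z‖ ^ 2 - ‖hh ν z‖ ^ 2 : ℝ) : ℂ)) *
            conj (deriv g (w z)) := by
        field_simp
      rw [this, e1]
      ring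
    · rw [map_inv₀]
      have : d' (w z) * (conj (deriv g (w z)))⁻¹ * (deriv g (w z) * conj (deriv g (w z)) *
          ((‖1 + Tf (hh ν) z‖ ^ 2 - ‖hh ν z‖ ^ 2 : ℝ) : ℂ)) = 
          (d' (w z) * ((‖1 + Tf (hh ν) z‖ ^ 2 - ‖hh ν z‖ ^ 2 : ℝ) : ℂ)) *
            deriv g (w z) := by
        field_simp
      rw [this, e2]
      ring

/-- measurable derivatives of `H`. -/
theorem IsQC.meas_deriv (hH : IsQC k' H ν) : ∃ s t, Measurable s ∧ Measurable t ∧
    WD D (ext H) s t := by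
  obtain ⟨w, hw, g, hg, hgi, himg, hgw, hg'⟩ := hH.fact
  have hDo : IsOpen (D : Set ℂ) := isOpen_ball
  have hVo : IsOpen (w '' D) := w.isOpenMap _ hDo
  have hwd : WD D w (fun z => 1 + Tf (hh ν) z) (hh ν) := hw.wd.mono hDo (subset_univ _)
  have h2 := WD.holo_comp hDo hVo hwd w.continuous.continuousOn (mapsTo_image _ _) hg
  have h3 := h2.congr hDo (f' := ext H) (by
    filter_upwards [ae_restrict_mem hDo.measurableSet] with z hz
    exact (hgw z hz).symm) ae_eq_rfl ae_eq_rfl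
  refine ⟨_, _, ?_, ?_, h3⟩
  · exact ((measurable_deriv g).comp w.continuous.measurable).mul hw.approx.meas_a
  · exact ((measurable_deriv g).comp w.continuous.measurable).mul hw.approx.meas_b

/-- a.e. statements on the disc transfer along `H`. -/
theorem IsQC.ae_ext (hH : IsQC k' H ν) {P : ℂ → Prop}
    (h : ∀ᵐ z ∂(volume.restrict D), P (ext H z)) : ∀ᵐ y ∂(volume.restrict D), P y := by
  obtain ⟨s, t, hs⟩ := hH.wd
  have hn := (hH.area hs.1).2.2.2
  have hDm : MeasurableSet (D : Set ℂ) := measurableSet_ball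
  rw [ae_restrict_iff' hDm] at h ⊢
  have h1 : volume {z | z ∈ D ∧ ¬ P (ext H z)} = 0 := by
    rw [ae_iff] at h
    convert h using 2
    ext z; simp
  have h2 := (hn {z | z ∈ D ∧ ¬ P (ext H z)} (fun z hz => hz.1)).1 h1
  rw [ae_iff]
  refine measure_mono_null ?_ h2
  intro y hy
  simp only [mem_ofPred_eq, Classical.not_imp] at hy
  have hy1 : ext (H⁻¹ : CD ≃ₜ CD) y ∈ D := dc_ext_D (dc_pres_inv hH.pres) hy.1
  have hy2 := dc_ext_inv_right H (dc_D_sub hy.1)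
  refine ⟨ext (H⁻¹ : CD ≃ₜ CD) y, ⟨hy1, ?_⟩, hy2⟩
  rw [hy2]; exact hy.2

/-- coefficient of `F ∘ H⁻¹`, with prescribed measurable derivatives. -/
theorem IsQC.comp_inv' (hF : IsQC k F μ) (hH : IsQC k' H ν) {s t : ℂ → ℂ} (hsm : Measurable s)
    (hs : WD D (ext H) s t) :
    ∃ κ, IsQC ((k + k') / (1 + k * k')) (F * H⁻¹) κ ∧
      ∀ z ∈ D, κ (ext H z) = (μ z - ν z) / (1 - μ z * conj (ν z)) * (s z / conj (s z)) := by
  classical
  obtain ⟨p, q, hp, hq⟩ := hF.wd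
  obtain ⟨A, B, hAB, hae⟩ := hF.chain_inv hH hp hs
  have hDo : IsOpen (D : Set ℂ) := isOpen_ball
  have hk0 : 0 ≤ k := (norm_nonneg _).trans (hF.bel.le 0)
  have hk0' : 0 ≤ k' := (norm_nonneg _).trans (hH.bel.le 0)
  have hk1 := hF.bel.lt
  have hk1' := hH.bel.lt
  set m : ℂ → ℂ := fun z => (μ z - ν z) / (1 - μ z * conj (ν z)) * (s z / conj (s z)) with hm
  have hmm : Measurable m := by
    have h1 := hF.bel.meas
    have h2 := hH.bel.meas
    have hc : Measurable (fun z : ℂ => conj z) := Complex.continuous_conj.measurable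
    exact ((h1.sub h2).div (measurable_const.sub (h1.mul (hc.comp h2)))).mul
      (hsm.div (hc.comp hsm))
  have hmb : ∀ z, ‖m z‖ ≤ (k + k') / (1 + k * k') := by
    intro z
    rw [hm]
    simp only
    rw [norm_mul]
    have h1 := dc_ph hk1 hk1' (hF.bel.le z) (hH.bel.le z)
    have h2 : ‖s z / conj (s z)‖ ≤ 1 := by
      rw [norm_div, Complex.norm_conj]
      exact div_self_le_one _
    calc _ ≤ (k + k') / (1 + k * k') * 1 := by gcongr
      _ = _ := mul_one _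
  set κ : ℂ → ℂ := fun y => if ‖y‖ < 1 then m (ext (H⁻¹ : CD ≃ₜ CD) y) else 0 with hκ
  have hκe : ∀ z ∈ D, κ (ext H z) = m z := by
    intro z hz
    have h1 : ext H z ∈ D := dc_ext_D hH.pres hz
    rw [hκ]
    simp only
    rw [if_pos (by simpa using h1), dc_ext_inv_left H (dc_D_sub hz)]
  refine ⟨κ, ⟨?_, ⟨?_, ?_, ?_⟩, ?_, ⟨A, B, hAB, ?_⟩⟩, hκe⟩
  · exact dc_pres_mul hF.pres (dc_pres_inv hH.pres)
  · exact Measurable.ite (measurableSet_lt measurable_norm measurable_const)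
      (hmm.comp (dc_measurable_ext _)) measurable_const
  · intro z
    rw [hκ]
    simp only
    split_ifs
    · exact hmb _
    · simp; positivity
  · rw [div_lt_one (by positivity)]
    nlinarith
  · intro z hz
    rw [hκ]
    simp only
    rw [if_neg (by linarith)]
  · apply hH.ae_ext
    have har := hH.area hs
    filter_upwards [hae, hq, har.1, har.2.1, ae_restrict_mem hDo.measurableSet] with z h1 h2 h3 h4 hz
    rw [hκe z hz, hm]
    simp only
    obtain ⟨e1, e2⟩ := h1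
    have hlt : ‖t z‖ < ‖s z‖ := by
      rw [h3, norm_mul]
      have : 0 < ‖s z‖ := norm_pos_iff.2 h4
      nlinarith [hH.bel.le z]
    have hJ : ((‖s z‖ ^ 2 - ‖t z‖ ^ 2 : ℝ) : ℂ) ≠ 0 := by
      rw [Ne, Complex.ofReal_eq_zero]
      nlinarith [norm_nonneg (t z)]
    have hden : 1 - μ z * conj (ν z) ≠ 0 := by
      intro h0
      have h5 : μ z * conj (ν z) = 1 := by linear_combination -h0
      have h6 : ‖μ z * conj (ν z)‖ = 1 := by rw [h5]; simp
      rw [norm_mul, Complex.norm_conj] at h6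
      nlinarith [hH.bel.le z, hF.bel.le z, norm_nonneg (μ z), norm_nonneg (ν z)]
    have hs' : conj (s z) ≠ 0 := by simpa using h4
    apply mul_right_cancel₀ hJ
    rw [e2]
    have : (μ z - ν z) / (1 - μ z * conj (ν z)) * (s z / conj (s z)) * A (ext H z) *
        ((‖s z‖ ^ 2 - ‖t z‖ ^ 2 : ℝ) : ℂ) = (μ z - ν z) / (1 - μ z * conj (ν z)) *
          (s z / conj (s z)) * (A (ext H z) * ((‖s z‖ ^ 2 - ‖t z‖ ^ 2 : ℝ) : ℂ)) := by ring
    rw [this, e1, h2, h3, map_mul]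
    field_simp

/-- coefficient of `F ∘ H⁻¹`. -/
theorem IsQC.comp_inv (hF : IsQC k F μ) (hH : IsQC k' H ν) :
    ∃ κ, IsQC ((k + k') / (1 + k * k')) (F * H⁻¹) κ ∧
      ∃ s t, WD D (ext H) s t ∧ ∀ᵐ z ∂(volume.restrict D),
        κ (ext H z) = (μ z - ν z) / (1 - μ z * conj (ν z)) * (s z / conj (s z)) := by
  obtain ⟨s, t, hsm, -, hs⟩ := hH.meas_deriv
  obtain ⟨κ, h1, h2⟩ := hF.comp_inv' hH hsm hs
  refine ⟨κ, h1, s, t, hs, ?_⟩
  filter_upwards [ae_restrict_mem (measurableSet_ball : MeasurableSet (D : Set ℂ))] with z hz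
  exact h2 z hz

end QC
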