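import Pool.Agent.Work.MP_217185_an.DFact
import Pool.Agent.Work.MP_217185_an.DComp1A

/-! # DComp1B: the inverse of a quasiconformal homeomorphism of the disc

`inv`: `comp_inv` with `F = 1`. -/

open MeasureTheory Complex Set Metric Filter
open scoped Topology ENNReal NNReal ContDiff ComplexConjugate

namespace QC

variable {k k' : ℝ} {F H : CD ≃ₜ CD} {μ ν : ℂ → ℂ}

/-- `ext F` is holomorphic: derivatives. -/
theorem dc_wd_holo {f : ℂ → ℂ} (hf : DifferentiableOn ℂ f D) : WD D f (deriv f) (fun _ => 0) := by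
  have hDo : IsOpen (D : Set ℂ) := isOpen_ball
  have h1 : ContDiffOn ℝ 1 f D := (hf.contDiffOn hDo).restrict_scalars ℝ
  have hd : ∀ z ∈ D, ∀ v : ℂ, fderiv ℝ f z v = v * deriv f z := by
    intro z hz v
    have h2 : HasDerivAt f (deriv f z) z := (hf.differentiableAt (hDo.mem_nhds hz)).hasDerivAt
    have h3 := (h2.hasFDerivAt.restrictScalars ℝ).fderiv
    rw [h3]
    simp
  refine (WD.of_contDiffOn hDo h1).congr hDo ae_eq_rfl ?_ ?_
  · filter_upwards [ae_restrict_mem hDo.measurableSet] with z hz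
    rw [dz, hd z hz, hd z hz]
    linear_combination (-1/2 * deriv f z) * I_mul_I
  · filter_upwards [ae_restrict_mem hDo.measurableSet] with z hz
    rw [dzb, hd z hz, hd z hz]
    linear_combination (1/2 * deriv f z) * I_mul_I

theorem dc_isQC_one : IsQC 0 (1 : CD ≃ₜ CD) (fun _ => 0) := by
  have hDo : IsOpen (D : Set ℂ) := isOpen_ball
  have h1 : ∀ z ∈ D, ext (1 : CD ≃ₜ CD) z = z := by
    intro z hz
    rw [dc_ext_of_mem _ (dc_D_sub hz)]; rfl
  refine ⟨fun z => Iff.rfl, ⟨measurable_const, fun z => by simp, by norm_num⟩, fun z _ => rfl,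
    ⟨_, _, dc_wd_holo ?_, ?_⟩⟩
  · exact differentiableOn_id.congr h1
  · filter_upwards with z
    simp

theorem IsQC.inv (hH : IsQC k' H ν) :
    ∃ κ, IsQC k' H⁻¹ κ ∧ ∀ᵐ z ∂(volume.restrict D), ‖κ (ext H z)‖ = ‖ν z‖ := by
  obtain ⟨s, t, hsm, -, hs⟩ := hH.meas_deriv
  obtain ⟨κ, h1, h2⟩ := dc_isQC_one.comp_inv' hH hsm hs
  have e : (0 + k') / (1 + 0 * k') = k' := by ring
  rw [e, one_mul] at h1
  refine ⟨κ, h1, ?_⟩
  filter_upwards [(hH.area hs).2.1, ae_restrict_mem (measurableSet_ball : MeasurableSet (D : Set ℂ))]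
    with z h3 hz
  rw [h2 z hz, norm_mul, norm_div, norm_div, Complex.norm_conj, div_self (norm_ne_zero_iff.2 h3)]
  simp

end QC
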