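import Pool.Agent.Work.MP_217185_an.DFact
import Pool.Agent.Work.MP_217185_an.DComp1

/-! # DComp2: uniqueness

`uniq`: same coefficient: `F₂ ∘ F₁⁻¹` has coefficient `0`, so it is holomorphic (`weyl_cont`),
Moebius by `isMob_of_holo`. -/

open MeasureTheory Complex Set Metric Filter
open scoped Topology ENNReal NNReal ContDiff ComplexConjugate

namespace QC

variable {k k' : ℝ} {F H : CD ≃ₜ CD} {μ ν : ℂ → ℂ}

theorem IsQC.uniq {F' : CD ≃ₜ CD} (hF : IsQC k F μ) (hF' : IsQC k' F' μ) :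
    IsMob (F' * F⁻¹) := by
  obtain ⟨s, t, hsm, -, hs⟩ := hF.meas_deriv
  obtain ⟨κ, h1, h2⟩ := hF'.comp_inv' hF hsm hs
  have hDo : IsOpen (D : Set ℂ) := isOpen_ball
  have hκ : ∀ y ∈ D, κ y = 0 := by
    intro y hy
    have h3 := dc_ext_inv_right F (dc_D_sub hy)
    have h4 := dc_ext_D (dc_pres_inv hF.pres) hy
    rw [← h3, h2 _ h4]
    simp
  obtain ⟨a, b, hab, hb⟩ := h1.wd
  refine isMob_of_holo h1.pres ?_
  apply weyl_cont hDo ((continuousOn_ext _).mono dc_D_sub)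
  intro φ hφ
  rw [hab.db φ hφ, neg_eq_zero]
  apply integral_eq_zero_of_ae
  rw [ae_restrict_iff' hDo.measurableSet] at hb
  filter_upwards [hb] with z hz
  by_cases hzD : z ∈ D
  · rw [hz hzD, hκ z hzD]; simp
  · have : φ z = 0 := by
      apply image_eq_zero_of_notMem_tsupport
      exact fun h => hzD (hφ.sub h)
    rw [this]; simp

/-- a.e. version. -/
theorem IsQC.uniq_ae {F' : CD ≃ₜ CD} (hF : IsQC k F μ) (hF' : IsQC k' F' ν)
    (he : μ =ᵐ[volume] ν) : IsMob (F' * F⁻¹) :=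
  hF.uniq (hF'.congr hF.bel hF.supp he.symm)

end QC
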