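import Pool.Agent.Work.MP_217185_an.DFact
import Pool.Agent.Work.MP_217185_an.DComp1

/-! # DComp3: composition with Moebius maps -/

open MeasureTheory Complex Set Metric Filter
open scoped Topology ENNReal NNReal ContDiff ComplexConjugate

namespace QC

variable {k k' : ℝ} {F H : CD ≃ₜ CD} {μ ν : ℂ → ℂ}

theorem dc_mob_diff {a b : ℂ} (hab : ‖b‖ < ‖a‖) : DifferentiableOn ℂ (mob a b) D := by
  intro z hz
  have : ‖z‖ ≤ 1 := by simpa using dc_D_sub hz
  exact (hasDerivAt_mob hab (mob_denom_ne hab this)).differentiableAt.differentiableWithinAt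

theorem dc_mob_pres {a b : ℂ} (hab : ‖b‖ < ‖a‖) (hH : ∀ z : CD, (H z : ℂ) = mob a b z) (z : CD) :
    ‖(H z : ℂ)‖ < 1 ↔ ‖(z : ℂ)‖ < 1 := by
  rw [hH]
  constructor
  · intro h
    by_contra h1
    have h2 : ‖(z : ℂ)‖ = 1 := le_antisymm (mem_closedBall_zero_iff.1 z.2) (by linarith)
    rw [norm_mob_eq hab h2] at h
    exact lt_irrefl _ h
  · exact norm_mob_lt hab

theorem IsMob.isQC (hF : IsMob F) : IsQC 0 F 0 := by
  obtain ⟨a, b, hab, hm⟩ := hF
  have hDo : IsOpen (D : Set ℂ) := isOpen_ball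
  refine ⟨dc_mob_pres hab hm, ⟨measurable_const, fun z => by simp, by norm_num⟩, fun z _ => rfl,
    ⟨_, _, dc_wd_holo ?_, ?_⟩⟩
  · refine (dc_mob_diff hab).congr fun z hz => ?_
    rw [dc_ext_of_mem _ (dc_D_sub hz), hm]
  · filter_upwards with z
    simp

theorem IsQC.mob_comp (hF : IsQC k F μ) (hH : IsMob H) : IsQC k (H * F) μ := by
  obtain ⟨a, b, hab, hm⟩ := hH
  have hDo : IsOpen (D : Set ℂ) := isOpen_ball
  obtain ⟨p, q, hp, hq⟩ := hF.wd
  have h1 := WD.holo_comp hDo hDo hp ((continuousOn_ext F).mono dc_D_sub)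
    (fun z hz => dc_ext_D hF.pres hz) (dc_mob_diff hab)
  refine ⟨dc_pres_mul (dc_mob_pres hab hm) hF.pres, hF.bel, hF.supp, _, _, h1.congr hDo ?_ ae_eq_rfl
    ae_eq_rfl, ?_⟩
  · filter_upwards [ae_restrict_mem hDo.measurableSet] with z hz
    rw [dc_ext_mul _ _ (dc_D_sub hz), dc_ext_of_mem _ (dc_ext_mem F (dc_D_sub hz)), hm]
  · filter_upwards [hq] with z hz
    rw [hz]; ring

theorem IsQC.comp_mob (hF : IsQC k F μ) {a b : ℂ} (hab : ‖b‖ < ‖a‖)
    (hH : ∀ z : CD, (H z : ℂ) = mob a b z) : IsQC k (F * H) (pull a b μ) := by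
  have hDo : IsOpen (D : Set ℂ) := isOpen_ball
  obtain ⟨p, q, hp, hq⟩ := hF.wd
  have hDm := dc_mob_pres hab hH
  have hmD : MapsTo (mob a b) D D := by
    intro z hz
    rw [mem_ball_zero_iff] at hz ⊢
    exact norm_mob_lt hab hz
  have hinj : InjOn (mob a b) D := by
    intro z hz z' hz' h
    have h1 := (mob_inv hab (by simpa using dc_D_sub hz : ‖z‖ ≤ 1)).1
    have h2 := (mob_inv hab (by simpa using dc_D_sub hz' : ‖z'‖ ≤ 1)).1
    rw [← h1, ← h2, h]
  have h1 := WD.comp_holo hDo hDo (dc_mob_diff hab) hinj hmD hp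
  refine ⟨dc_pres_mul hF.pres hDm, (pull_bel hab hF.bel).1, (pull_bel hab hF.bel).2, _, _,
    h1.congr hDo ?_ ae_eq_rfl ae_eq_rfl, ?_⟩
  · filter_upwards [ae_restrict_mem hDo.measurableSet] with z hz
    rw [dc_ext_mul _ _ (dc_D_sub hz), dc_ext_of_mem H (dc_D_sub hz), hH]
  · have h2 : ∀ᵐ z ∂(volume.restrict D), q (mob a b z) = μ (mob a b z) * p (mob a b z) := by
      rw [ae_restrict_iff' hDo.measurableSet] at hq ⊢
      rw [ae_iff] at hq ⊢
      simp only [Classical.not_imp] at hq ⊢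
      -- null set pulled back
      set N : Set ℂ := {x | x ∈ D ∧ ¬ q x = μ x * p x} with hN
      have h3 : {x | x ∈ D ∧ ¬ q (mob a b x) = μ (mob a b x) * p (mob a b x)}
          ⊆ mob (conj a) (-b) '' N := by
        rintro x ⟨hx, hx'⟩
        exact ⟨mob a b x, ⟨hmD hx, hx'⟩, (mob_inv hab (by simpa using dc_D_sub hx)).1⟩
      refine measure_mono_null h3 ?_
      apply addHaar_image_eq_zero_of_differentiableOn_of_addHaar_eq_zero volume _ hq
      have h4 : ‖-b‖ < ‖conj a‖ := by rw [norm_neg, Complex.norm_conj]; exact hab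
      have h5 : DifferentiableOn ℝ (mob (conj a) (-b)) D := (dc_mob_diff h4).restrictScalars ℝ
      exact h5.mono fun x hx => hx.1
    filter_upwards [h2, ae_restrict_mem hDo.measurableSet] with z hz hzD
    have hz1 : ‖z‖ < 1 := by simpa using hzD
    have hder : deriv (mob a b) z ≠ 0 := by
      rw [(hasDerivAt_mob hab (mob_denom_ne hab hz1.le)).deriv]
      apply div_ne_zero
      · rw [Ne, Complex.ofReal_eq_zero]
        nlinarith [norm_nonneg b]
      · exact pow_ne_zero _ (mob_denom_ne hab hz1.le)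
    rw [hz, pull, if_pos hz1, (pull_factor hab hz1).1]
    field_simp

end QC
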