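import Pool.Agent.Work.MP_217185_an.DFact
import Pool.Agent.Work.MP_217185_an.DComp1

/-! # DComp4: composition of quasiconformal homeomorphisms of the disc

`F ∘ H = F ∘ (H⁻¹)⁻¹`.  If `H` has derivatives `(s, t)`, `J = ‖s‖² - ‖t‖²`, then
`∂(H⁻¹)(H z) = conj (s z) / J z` (`chain_inv` with `F = 1`), and `H⁻¹` has the coefficient
`- ν s / conj s` at `H z` (`comp_inv'` with `F = 1`).  Apply `comp_inv'` to `F` and `H⁻¹`. -/

open MeasureTheory Complex Set Metric Filter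
open scoped Topology ENNReal NNReal ContDiff ComplexConjugate

namespace QC

variable {k k' : ℝ} {F H : CD ≃ₜ CD} {μ ν : ℂ → ℂ}

theorem IsQC.comp (hF : IsQC k F μ) (hH : IsQC k' H ν) :
    ∃ κ, IsQC ((k + k') / (1 + k * k')) (F * H) κ ∧
      ∃ s t, WD D (ext H) s t ∧ ∀ᵐ z ∂(volume.restrict D),
        κ z = (ν z + μ (ext H z) * (conj (s z) / s z)) /
          (1 + conj (ν z) * μ (ext H z) * (conj (s z) / s z)) := by
  have hDo : IsOpen (D : Set ℂ) := isOpen_ball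
  obtain ⟨s, t, hsm, -, hs⟩ := hH.meas_deriv
  obtain ⟨κ₁, h1, h2⟩ := dc_isQC_one.comp_inv' hH hsm hs
  have e : (0 + k') / (1 + 0 * k') = k' := by ring
  rw [e, one_mul] at h1
  -- derivatives of the inverse
  have hid : WD D (ext (1 : CD ≃ₜ CD)) (fun _ => 1) (fun _ => 0) := by
    refine (dc_wd_holo differentiableOn_id).congr hDo ?_ ?_ ae_eq_rfl
    · filter_upwards [ae_restrict_mem hDo.measurableSet] with z hz
      rw [dc_ext_of_mem _ (dc_D_sub hz)]; rfl
    · filter_upwards with z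
      simp
  obtain ⟨A, B, hAB, hae⟩ := dc_isQC_one.chain_inv hH hid hs
  rw [one_mul] at hAB
  obtain ⟨s', t', hsm', -, hs'⟩ := h1.meas_deriv
  have hsA := (WD.unique hDo hs' hAB).1
  -- pull back along H
  have hsA' : ∀ᵐ z ∂(volume.restrict D), s' (ext H z) = A (ext H z) := by
    have h3 : ∀ᵐ y ∂(volume.restrict D), s' (ext H (ext (H⁻¹ : CD ≃ₜ CD) y)) 
        = A (ext H (ext (H⁻¹ : CD ≃ₜ CD) y)) := by
      filter_upwards [hsA, ae_restrict_mem hDo.measurableSet] with y hy hyD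
      rw [dc_ext_inv_right H (dc_D_sub hyD)]; exact hy
    exact h1.ae_ext (P := fun z => s' (ext H z) = A (ext H z)) h3
  obtain ⟨κ, h4, h5⟩ := hF.comp_inv' h1 hsm' hs'
  rw [inv_inv] at h4
  refine ⟨κ, h4, s, t, hs, ?_⟩
  have har := hH.area hs
  filter_upwards [hsA', hae, har.1, har.2.1, ae_restrict_mem hDo.measurableSet] with z g1 g2 g3 g4 hz
  have hHz : ext H z ∈ D := dc_ext_D hH.pres hz
  have h6 := h5 _ hHz
  rw [dc_ext_inv_left H (dc_D_sub hz), h2 z hz, g1] at h6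
  rw [h6]
  have hlt : ‖t z‖ < ‖s z‖ := by
    rw [g3, norm_mul]
    have : 0 < ‖s z‖ := norm_pos_iff.2 g4
    nlinarith [hH.bel.le z, hH.bel.lt]
  have hJ : ((‖s z‖ ^ 2 - ‖t z‖ ^ 2 : ℝ) : ℂ) ≠ 0 := by
    rw [Ne, Complex.ofReal_eq_zero]
    nlinarith [norm_nonneg (t z)]
  have hA : A (ext H z) = conj (s z) / ((‖s z‖ ^ 2 - ‖t z‖ ^ 2 : ℝ) : ℂ) := by
    rw [eq_div_iff hJ, g2.1]; ring
  have hsc : conj (s z) ≠ 0 := by simpa using g4
  have hq : A (ext H z) / conj (A (ext H z)) = conj (s z) / s z := by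
    rw [hA, map_div₀, Complex.conj_conj, Complex.conj_ofReal]
    field_simp
  rw [hq]
  have c1 : conj ((0 - ν z) / (1 - 0 * conj (ν z)) * (s z / conj (s z)))
      = - conj (ν z) * (conj (s z) / s z) := by
    rw [map_mul, map_div₀, map_div₀, Complex.conj_conj]
    simp
  rw [c1]
  have hden : 1 - μ (ext H z) * (- conj (ν z) * (conj (s z) / s z))
      = 1 + conj (ν z) * μ (ext H z) * (conj (s z) / s z) := by ring
  rw [hden, div_mul_eq_mul_div]
  congr 1
  have : (1 - 0 * conj (ν z)) = 1 := by ring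
  rw [this]
  field_simp
  ring

end QC
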