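import Pool.Agent.Work.MP_217185_an.Mrmt

/-! # Definitions on the closed unit disc: Moebius maps, quasiconformal homeomorphisms, bordered
Riemann surfaces, hyperbolic area -/

open MeasureTheory Complex Set Metric Filter
open scoped Topology ENNReal NNReal ContDiff ComplexConjugate

noncomputable section

namespace QC

/-- the closed unit disc. -/
abbrev CD : Type := ↥(closedBall (0 : ℂ) 1)

/-- the Moebius transformation with parameters `a`, `b` (`‖b‖ < ‖a‖`). -/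
def mob (a b z : ℂ) : ℂ := (a * z + b) / (conj b * z + conj a)

/-- `F` is a Moebius transformation of the closed disc. -/
def IsMob (F : CD ≃ₜ CD) : Prop :=
  ∃ a b : ℂ, ‖b‖ < ‖a‖ ∧ ∀ z : CD, (F z : ℂ) = mob a b z

open Classical in
/-- a self map of the closed disc as a function on the plane (the identity outside). -/
def ext (F : CD → CD) (z : ℂ) : ℂ := if h : z ∈ closedBall (0 : ℂ) 1 then (F ⟨z, h⟩ : ℂ) else z

/-- `F` is a quasiconformal homeomorphism of the closed disc, with Beltrami coefficient `μ`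
(bounded by `k < 1`, zero outside the open disc). -/
structure IsQC (k : ℝ) (F : CD ≃ₜ CD) (μ : ℂ → ℂ) : Prop where
  pres : ∀ z : CD, ‖(F z : ℂ)‖ < 1 ↔ ‖(z : ℂ)‖ < 1
  bel : Bel k μ
  supp : SuppIn 1 μ
  wd : ∃ a b, WD D (ext F) a b ∧ ∀ᵐ z ∂(volume.restrict D), b z = μ z * a z

open Classical in
/-- pull back of a Beltrami coefficient on the disc under a Moebius transformation:
`(μ ∘ A) conj (A') / A'`. -/
def pull (a b : ℂ) (μ : ℂ → ℂ) (ζ : ℂ) : ℂ :=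
  if ‖ζ‖ < 1 then μ (mob a b ζ) * ((conj b * ζ + conj a) / (b * conj ζ + a)) ^ 2 else 0

/-- hyperbolic area (curvature `-1`). -/
def hyp : Measure ℂ :=
  (volume.restrict D).withDensity (fun z => ENNReal.ofReal (4 / (1 - ‖z‖ ^ 2) ^ 2))

/-- points of the closed disc at which the group acts freely and discontinuously. -/
def Reg (Γ : Subgroup (CD ≃ₜ CD)) : Set CD :=
  {x | ∃ U ∈ 𝓝 x, ∀ γ ∈ Γ, γ ≠ 1 → Disjoint (γ '' U) U}

/-- A bordered Riemann surface of type `(g, n)`, `n ≥ 1`, uniformised: a group of Moebius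
transformations acting freely and discontinuously on the open disc, such that the quotient of the
regular set (open disc + regular points of the circle) is compact and there are regular points on the
circle. -/
structure Bord where
  Γ : Subgroup (CD ≃ₜ CD)
  mob : ∀ γ ∈ Γ, IsMob γ
  disc : ∀ x : CD, ‖(x : ℂ)‖ < 1 → x ∈ Reg Γ
  cocompact : ∃ K : Set CD, IsCompact K ∧ K ⊆ Reg Γ ∧ ∀ x ∈ Reg Γ, ∃ γ ∈ Γ, γ x ∈ K
  border : ∃ x ∈ Reg Γ, ‖(x : ℂ)‖ = 1

/-- exact measurable fundamental domain in the open disc. -/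
structure IsFund (S : Bord) (P : Set ℂ) : Prop where
  meas : MeasurableSet P
  sub : P ⊆ D
  uniq : ∀ z : CD, ‖(z : ℂ)‖ < 1 → ∃! γ : CD ≃ₜ CD, γ ∈ S.Γ ∧ (γ z : ℂ) ∈ P

/-- square integrable with respect to the hyperbolic area of the surface. -/
def L2hyp (S : Bord) (ν : ℂ → ℂ) : Prop :=
  ∃ P, IsFund S P ∧ ∫⁻ z in P, ‖ν z‖ₑ ^ 2 ∂hyp < ⊤

/-- `F` is a lift of a quasiconformal map of the surface `S` onto a bordered Riemann surface. -/
structure IsQCS (S : Bord) (F : CD ≃ₜ CD) : Prop where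
  qc : ∃ k μ, IsQC k F μ
  eqv : ∀ γ ∈ S.Γ, IsMob (F * γ * F⁻¹)

/-- invariance of a Beltrami coefficient under the group, almost everywhere. -/
def AEInv (S : Bord) (μ : ℂ → ℂ) : Prop :=
  ∀ γ ∈ S.Γ, ∀ a b : ℂ, ‖b‖ < ‖a‖ → (∀ z : CD, (γ z : ℂ) = QC.mob a b z) →
    pull a b μ =ᵐ[volume.restrict D] μ

/-- invariance everywhere. -/
def Inv (S : Bord) (μ : ℂ → ℂ) : Prop :=
  ∀ γ ∈ S.Γ, ∀ a b : ℂ, ‖b‖ < ‖a‖ → (∀ z : CD, (γ z : ℂ) = QC.mob a b z) →
    ∀ z ∈ D, pull a b μ z = μ z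

/-- `ν z = (1 - ‖z‖²)² conj (q z)` with `q` holomorphic in the disc, and `ν = 0` outside. -/
def Harm (ν : ℂ → ℂ) : Prop :=
  (∃ q : ℂ → ℂ, DifferentiableOn ℂ q D ∧
    ∀ z ∈ D, ν z = ((1 - ‖z‖ ^ 2 : ℝ) : ℂ) ^ 2 * conj (q z)) ∧ ∀ z, z ∉ D → ν z = 0

/-- the hyperbolic area is distorted by a bounded factor. -/
def NiceJ (C : ℝ≥0∞) (F : CD ≃ₜ CD) : Prop :=
  C ≠ ⊤ ∧ ∀ E ⊆ D, MeasurableSet E → hyp (ext F '' E) ≤ C * hyp E ∧ hyp E ≤ C * hyp (ext F '' E)

/-- The Bers functional: `b(μ)(z) = (1/π) ∫ h_{A_z^* μ}`, `A_z ζ = (ζ + z)/(1 + conj z ζ)`. -/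
def bers (μ : ℂ → ℂ) (z : ℂ) : ℂ := (1 / (Real.pi : ℂ)) * ∫ ζ, hh (pull 1 z μ) ζ

open Classical in
/-- `bers μ` on the disc, zero outside. -/
def bersD (μ : ℂ → ℂ) (z : ℂ) : ℂ := if ‖z‖ < 1 then bers μ z else 0

end QC

end
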