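import Pool.Agent.Work.MP_217185_an.DFact

/-! # DExistA: existence on the disc when the coefficient vanishes near a boundary point

(1) Half plane.  Let `λ` be bounded by `k`, with bounded support contained in the upper half plane.
Put `λ̃ z = λ z` (Im z > 0), `conj (λ (conj z))` (Im z < 0), `0` on the real line.  `w` from `mrmt`.
`z ↦ conj (w (conj z))` is continuous with derivatives `conj ∘ (A ∘ conj)`, ... and the same
coefficient and normalisation, so it equals `w` (`unique_sol`, continuity).  So `w` maps the real line
into itself, homeomorphically onto itself (`w x - x → 0`), hence the upper half plane onto itself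
(connectedness, `w (i y) - i y → 0`). -/

open MeasureTheory Complex Set Metric Filter
open scoped Topology ENNReal NNReal ContDiff ComplexConjugate

namespace QC

private lemma DExistA_mp : MeasurePreserving (fun z : ℂ => conj z) (volume : Measure ℂ) volume :=
  Complex.conjLIE.measurePreserving

private lemma DExistA_dz (φ : ℂ → ℂ) (h : Differentiable ℝ φ) (z : ℂ) :
    dz (fun z => conj (φ (conj z))) z = conj (dz φ (conj z)) ∧
    dzb (fun z => conj (φ (conj z))) z = conj (dzb φ (conj z)) := by
  have hc : Differentiable ℝ (fun z : ℂ => conj z) := Complex.conjCLE.differentiable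
  have h1 := dz_conj (fun z => φ (conj z)) z
  have h2 := dz_comp (f := φ) (g := fun z => conj z) (z := z) (h _) (hc z)
  have h3 := dz_conj (fun z => z) z
  have h4 : dz (fun z : ℂ => z) z = 1 ∧ dzb (fun z : ℂ => z) z = 0 := by
    have := dz_of_holo (f := fun z : ℂ => z) (z := z) differentiableAt_id
    simpa using this
  rw [h4.1, h4.2] at h3
  rw [h1.1, h1.2, h2.1, h2.2, h3.1, h3.2]
  simp

private lemma DExistA_test {φ : ℂ → ℂ} (h : Test univ φ) :
    Test univ (fun z => conj (φ (conj z))) := by
  refine ⟨?_, ?_, subset_univ _⟩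
  · exact Complex.conjCLE.contDiff.comp (h.smooth.comp Complex.conjCLE.contDiff)
  · have h1 : HasCompactSupport (fun z => φ (conj z)) :=
      h.cpt.comp_homeomorph Complex.conjCLE.toHomeomorph
    exact h1.comp_left (g := fun z : ℂ => conj z) (map_zero _)

private lemma DExistA_L2 {a : ℂ → ℂ} (h : L2loc univ a) :
    L2loc univ (fun z => conj (a (conj z))) := by
  intro K _ hK
  set K' : Set ℂ := (fun z : ℂ => conj z) ⁻¹' K with hK'
  have hKK : K = (fun z : ℂ => conj z) ⁻¹' K' := by
    ext z
    simp [hK']
  have hK'c : IsCompact K' := by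
    have : K' = (fun z : ℂ => conj z) '' K := by
      ext z
      constructor
      · intro hz
        exact ⟨conj z, hz, by simp⟩
      · rintro ⟨y, hy, rfl⟩
        simpa [hK'] using hy
    rw [this]
    exact hK.image Complex.continuous_conj
  have h1 : MemLp a 2 (volume.restrict K') := h K' (subset_univ _) hK'c
  have h2 : MemLp (a ∘ (fun z : ℂ => conj z)) 2 (volume.restrict K) := by
    have h3 := DExistA_mp.restrict_preimage hK'c.isClosed.measurableSet
    rw [← hKK] at h3
    exact h1.comp_measurePreserving h3
  have h4 : MemLp (fun z => conj ((a ∘ (fun z : ℂ => conj z)) z)) 2 (volume.restrict K) := by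
    refine ⟨Complex.continuous_conj.comp_aestronglyMeasurable h2.1, ?_⟩
    rw [eLpNorm_congr_norm_ae (g := a ∘ (fun z : ℂ => conj z))]
    · exact h2.2
    · exact Filter.Eventually.of_forall fun z => by simp
  exact h4

private lemma DExistA_wd {f a b : ℂ → ℂ} (hf : Continuous f) (h : WD univ f a b) :
    WD univ (fun z => conj (f (conj z))) (fun z => conj (a (conj z)))
      (fun z => conj (b (conj z))) := by
  have hfc : Continuous (fun z => conj (f (conj z))) :=
    Complex.continuous_conj.comp (hf.comp Complex.continuous_conj)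
  -- integrals
  have key : ∀ (u v : ℂ → ℂ), ∫ z, conj (u (conj z)) * v z
      = conj (∫ z, u z * conj (v (conj z))) := by
    intro u v
    rw [← integral_conj]
    have h1 : ∫ z, conj (u (conj z)) * v z
        = ∫ z, (fun z => conj (u z) * v (conj z)) (conj z) := by
      congr 1
      funext z
      simp
    rw [h1]
    have h2 := DExistA_mp.integral_comp
      (Complex.conjLIE.toHomeomorph.measurableEmbedding) (fun z => conj (u z) * v (conj z))
    rw [h2]
    congr 1
    funext z
    simp
  refine ⟨hfc.locallyIntegrable.locallyIntegrableOn _, DExistA_L2 h.la, DExistA_L2 h.lb, ?_, ?_⟩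
  · intro φ hφ
    have hd : Differentiable ℝ φ := hφ.smooth.differentiable (by simp)
    rw [key, key]
    have e1 : ∀ z, conj (dz φ (conj z)) = dz (fun z => conj (φ (conj z))) z :=
      fun z => (DExistA_dz φ hd z).1.symm
    simp_rw [e1]
    rw [h.da _ (DExistA_test hφ), map_neg]
  · intro φ hφ
    have hd : Differentiable ℝ φ := hφ.smooth.differentiable (by simp)
    rw [key, key]
    have e1 : ∀ z, conj (dzb φ (conj z)) = dzb (fun z => conj (φ (conj z))) z :=
      fun z => (DExistA_dz φ hd z).2.symm
    simp_rw [e1]
    rw [h.db _ (DExistA_test hφ), map_neg]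

theorem exists_half {k R : ℝ} {lam : ℂ → ℂ} (hl : Bel k lam) (hs : SuppIn R lam)
    (h0 : ∀ z, z.im ≤ 0 → lam z = 0) :
    ∃ w : ℂ ≃ₜ ℂ, (∀ z, w (conj z) = conj (w z)) ∧ (∀ z, 0 < (w z).im ↔ 0 < z.im) ∧
      Tendsto (fun z => w z - z) (cocompact ℂ) (𝓝 0) ∧
      ∃ a b, WD {z | 0 < z.im} w a b ∧
        ∀ᵐ z ∂(volume.restrict {z : ℂ | 0 < z.im}), b z = lam z * a z := by
  have hk0 : 0 ≤ k := (norm_nonneg _).trans (hl.le 0)
  set L : ℂ → ℂ := fun z => lam z + conj (lam (conj z)) with hL
  have hLpos : ∀ z : ℂ, 0 ≤ z.im → L z = lam z := by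
    intro z hz
    simp only [hL]
    rw [h0 (conj z) (by simpa using hz)]
    simp
  have hLneg : ∀ z : ℂ, z.im ≤ 0 → L z = conj (lam (conj z)) := by
    intro z hz
    simp only [hL]
    rw [h0 z hz]
    simp
  have hLB : Bel k L := by
    refine ⟨hl.meas.add (Complex.continuous_conj.measurable.comp
      (hl.meas.comp Complex.continuous_conj.measurable)), ?_, hl.lt⟩
    intro z
    rcases le_total 0 z.im with hz | hz
    · rw [hLpos z hz]
      exact hl.le z
    · rw [hLneg z hz]
      simpa using hl.le (conj z)
  have hLs : SuppIn R L := by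
    intro z hz
    simp only [hL]
    rw [hs z hz, hs (conj z) (by simpa using hz)]
    simp
  have hLc : ∀ z, conj (L (conj z)) = L z := by
    intro z
    simp only [hL, map_add, Complex.conj_conj]
    ring
  obtain ⟨w, hw⟩ := mrmt hLB hLs
  -- symmetry
  have hsym0 : ∀ z, conj (w (conj z)) = w z := by
    have hwd := DExistA_wd w.continuous hw.wd
    have hc : Continuous (fun z => conj (w (conj z))) :=
      Complex.continuous_conj.comp (w.continuous.comp Complex.continuous_conj)
    have hB : (fun z => conj (hh L (conj z))) =ᵐ[volume]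
        fun z => L z * conj ((fun z => 1 + Tf (hh L) z) (conj z)) := by
      refine Filter.Eventually.of_forall fun z => ?_
      simp only
      rw [hh_eq hLB hLs (conj z), map_mul, hLc]
    have hinf : Tendsto (fun z => conj (w (conj z)) - z) (cocompact ℂ) (𝓝 0) := by
      have h1 : Tendsto (fun z : ℂ => conj z) (cocompact ℂ) (cocompact ℂ) :=
        Complex.conjCLE.toHomeomorph.isClosedEmbedding.tendsto_cocompact
      have h2 := (Complex.continuous_conj.tendsto (0:ℂ)).comp (hw.inf.comp h1)
      rw [map_zero] at h2
      refine h2.congr fun z => ?_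
      simp
    have hu := (unique_sol hLB hLs hc hwd hB hinf).2.2.1
    have h3 : (fun z => conj (w (conj z))) =ᵐ[volume] w := by
      filter_upwards [hu, hw.ae] with z h4 h5
      rw [h4, h5]
    have h6 := (hc.ae_eq_iff_eq volume w.continuous).mp h3
    exact fun z => congrFun h6 z
  have hsym : ∀ z, w (conj z) = conj (w z) := by
    intro z
    rw [← hsym0 z, Complex.conj_conj]
  have hreal : ∀ z, (w z).im = 0 ↔ z.im = 0 := by
    intro z
    rw [← Complex.conj_eq_iff_im, ← Complex.conj_eq_iff_im, ← hsym z]
    exact w.injective.eq_iff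
  -- the upper half plane
  have hpos : ∀ z, 0 < z.im → 0 < (w z).im := by
    intro z hz
    by_contra hcon
    rw [not_lt] at hcon
    have hlt : (w z).im < 0 := lt_of_le_of_ne hcon fun h => hz.ne' ((hreal z).mp h)
    -- a point high up
    have hconv : IsPreconnected {z : ℂ | 0 < z.im} := (convex_halfSpace_im_gt 0).isPreconnected
    obtain ⟨y, hy0, hy⟩ : ∃ y : ℝ, 0 < y ∧ 0 < (w (y * I)).im := by
      have h1 : Tendsto (fun y : ℝ => (y * I : ℂ)) atTop (cocompact ℂ) := by
        rw [← Metric.cobounded_eq_cocompact, ← tendsto_norm_atTop_iff_cobounded]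
        have : (fun y : ℝ => ‖(y * I : ℂ)‖) = fun y : ℝ => |y| := by
          funext y
          simp
        rw [this]
        exact tendsto_abs_atTop_atTop
      have h2 := (hw.inf.comp h1).norm
      rw [norm_zero] at h2
      have h3 : ∀ᶠ y : ℝ in atTop, ‖w (y * I) - y * I‖ < 1 := by
        filter_upwards [h2.eventually (gt_mem_nhds one_pos)] with y hy
        exact hy
      obtain ⟨y, h4, h5⟩ := (h3.and (eventually_ge_atTop (1:ℝ))).exists
      refine ⟨y, by linarith, ?_⟩
      have h6 := (Complex.abs_im_le_norm (w (y * I) - y * I)).trans_lt h4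
      rw [abs_lt] at h6
      have h7 : (w (y * I) - y * I).im = (w (y * I)).im - y := by simp
      rw [h7] at h6
      linarith [h6.1]
    have hc : ContinuousOn (fun z => (w z).im) {z : ℂ | 0 < z.im} :=
      (Complex.continuous_im.comp w.continuous).continuousOn
    have h8 := hconv.intermediate_value (a := z) (b := y * I) hz (by simpa using hy0) hc
    obtain ⟨x, hx, hx0⟩ := h8 ⟨hlt.le, hy.le⟩
    have hx' : 0 < x.im := hx
    have := (hreal x).mp hx0
    linarith
  refine ⟨w, hsym, ?_, hw.inf, (fun z => 1 + Tf (hh L) z), hh L, ?_, ?_⟩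
  · intro z
    refine ⟨fun h => ?_, hpos z⟩
    by_contra hcon
    rw [not_lt] at hcon
    rcases hcon.lt_or_eq with h1 | h1
    · have h2 := hpos (conj z) (by simpa using h1)
      rw [hsym z] at h2
      simp only [Complex.conj_im] at h2
      linarith
    · have := (hreal z).mpr h1
      linarith
  · exact hw.wd.mono (isOpen_lt continuous_const Complex.continuous_im) (subset_univ _)
  · rw [ae_restrict_iff' (isOpen_lt continuous_const Complex.continuous_im).measurableSet]
    refine Filter.Eventually.of_forall fun z hz => ?_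
    have hz' : 0 < z.im := hz
    rw [hh_eq hLB hLs z, hLpos z hz'.le]

end QC
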