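import Pool.Agent.Work.MP_217185_an.DFact
import Pool.Agent.Work.MP_217185_an.DExistA

/-! # DExistB: existence on the disc when the coefficient vanishes near a boundary point

(2) Cayley map `c z = i (p + z)/(p - z)` maps `D` onto the upper half plane,
`c p = ∞`, inverse `e ζ = p (ζ - i)/(ζ + i)`.  `λ ζ = μ (e ζ) conj (e' ζ) / e' ζ`: bounded support
since `μ` vanishes near `p`.
`F = e ∘ w ∘ c` on the closed disc minus `{p}`, `F p = p` (continuous because `w z → ∞` as
`z → ∞`).  Weak derivatives: `WD.comp_holo`, `WD.holo_comp`. -/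

open MeasureTheory Complex Set Metric Filter
open scoped Topology ENNReal NNReal ContDiff ComplexConjugate

namespace QC

namespace DExistB

/-- Cayley map -/
private noncomputable def cay (p z : ℂ) : ℂ := I * (p + z) / (p - z)

/-- inverse Cayley map -/
private noncomputable def inv (p ζ : ℂ) : ℂ := p * (ζ - I) / (ζ + I)

variable {p : ℂ}

private lemma p_ne (hp : ‖p‖ = 1) : p ≠ 0 := by
  rintro rfl
  simp at hp

private lemma inv_cay (hp : ‖p‖ = 1) {z : ℂ} (hz : z ≠ p) : inv p (cay p z) = z := by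
  have h1 : p - z ≠ 0 := sub_ne_zero.mpr hz.symm
  have h2 : cay p z + I = 2 * I * p / (p - z) := by
    unfold cay
    field_simp
    ring
  have h3 : cay p z - I = 2 * I * z / (p - z) := by
    unfold cay
    field_simp
    ring
  unfold inv
  rw [h2, h3]
  have := p_ne hp
  field_simp

private lemma add_I_ne {ζ : ℂ} (h : 0 ≤ ζ.im) : ζ + I ≠ 0 := by
  intro h0
  have := congrArg Complex.im h0
  simp at this
  linarith

private lemma inv_ne (hp : ‖p‖ = 1) {ζ : ℂ} (h : 0 ≤ ζ.im) : inv p ζ ≠ p := by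
  intro h0
  unfold inv at h0
  rw [div_eq_iff (add_I_ne h)] at h0
  have h1 := mul_left_cancel₀ (p_ne hp) h0
  have := congrArg Complex.im h1
  simp at this
  linarith

private lemma cay_inv (hp : ‖p‖ = 1) {ζ : ℂ} (h : 0 ≤ ζ.im) : cay p (inv p ζ) = ζ := by
  have h1 := add_I_ne h
  have hp0 := p_ne hp
  have h2 : p - inv p ζ = 2 * I * p / (ζ + I) := by
    unfold inv
    field_simp
    ring
  have h3 : p + inv p ζ = 2 * ζ * p / (ζ + I) := by
    unfold inv
    field_simp
    ring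
  unfold cay
  rw [h2, h3]
  field_simp

private lemma cay_im (hp : ‖p‖ = 1) {z : ℂ} (hz : z ≠ p) :
    (cay p z).im = (1 - ‖z‖ ^ 2) / ‖p - z‖ ^ 2 := by
  have h1 : p - z ≠ 0 := sub_ne_zero.mpr hz.symm
  have h2 : cay p z = (I * (p + z) * conj (p - z)) / ((‖p - z‖ ^ 2 : ℝ) : ℂ) := by
    unfold cay
    have h3 : ((‖p - z‖ ^ 2 : ℝ) : ℂ) = (p - z) * conj (p - z) := by
      rw [Complex.mul_conj, Complex.normSq_eq_norm_sq]
    have h4 : conj (p - z) ≠ 0 := (map_ne_zero _).mpr h1
    rw [h3, mul_div_mul_right _ _ h4]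
  rw [h2, Complex.div_ofReal_im]
  congr 1
  have h5 : ‖p‖ ^ 2 = 1 := by rw [hp]; norm_num
  rw [← Complex.normSq_eq_norm_sq, Complex.normSq_apply] at h5
  rw [← Complex.normSq_eq_norm_sq, Complex.normSq_apply]
  simp
  linear_combination h5

private lemma one_sub_inv (hp : ‖p‖ = 1) {ζ : ℂ} (h : 0 ≤ ζ.im) :
    1 - ‖inv p ζ‖ ^ 2 = ζ.im * ‖p - inv p ζ‖ ^ 2 := by
  have h1 := cay_im hp (inv_ne hp h)
  rw [cay_inv hp h] at h1
  have h2 : ‖p - inv p ζ‖ ^ 2 ≠ 0 := by
    have := norm_pos_iff.mpr (sub_ne_zero.mpr (inv_ne hp h).symm)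
    positivity
  rw [h1, div_mul_cancel₀ _ h2]

private lemma hasDerivAt_cay (hp : ‖p‖ = 1) {z : ℂ} (hz : z ≠ p) :
    HasDerivAt (cay p) (2 * I * p / (p - z) ^ 2) z := by
  have h1 : p - z ≠ 0 := sub_ne_zero.mpr hz.symm
  have h2 : HasDerivAt (fun z => I * (p + z) / (p - z))
      ((I * 1 * (p - z) - I * (p + z) * (-1)) / (p - z) ^ 2) z :=
    (((hasDerivAt_id z).const_add p).const_mul I).div ((hasDerivAt_id z).const_sub p) h1
  have h3 : (I * 1 * (p - z) - I * (p + z) * (-1)) / (p - z) ^ 2 = 2 * I * p / (p - z) ^ 2 := by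
    congr 1
    ring
  rw [h3] at h2
  exact h2

private lemma hasDerivAt_invC {ζ : ℂ} (h : ζ + I ≠ 0) :
    HasDerivAt (inv p) (2 * I * p / (ζ + I) ^ 2) ζ := by
  have h2 : HasDerivAt (fun ζ => p * (ζ - I) / (ζ + I))
      ((p * 1 * (ζ + I) - p * (ζ - I) * 1) / (ζ + I) ^ 2) ζ :=
    (((hasDerivAt_id ζ).sub_const I).const_mul p).div ((hasDerivAt_id ζ).add_const I) h
  have h3 : (p * 1 * (ζ + I) - p * (ζ - I) * 1) / (ζ + I) ^ 2 = 2 * I * p / (ζ + I) ^ 2 := by
    congr 1
    ring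
  rw [h3] at h2
  exact h2

/-- the map of the closed disc. -/
private noncomputable def Phi (p : ℂ) (v : ℂ → ℂ) (z : ℂ) : ℂ :=
  if z = p then p else inv p (v (cay p z))

private lemma cay_im_nonneg (hp : ‖p‖ = 1) {z : ℂ} (hz : z ≠ p) (h1 : ‖z‖ ≤ 1) :
    0 ≤ (cay p z).im := by
  rw [cay_im hp hz]
  apply div_nonneg _ (by positivity)
  nlinarith [norm_nonneg z]

private lemma cay_im_pos (hp : ‖p‖ = 1) {z : ℂ} (hz : z ≠ p) : 0 < (cay p z).im ↔ ‖z‖ < 1 := by
  rw [cay_im hp hz]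
  have h2 : 0 < ‖p - z‖ ^ 2 := by
    have := norm_pos_iff.mpr (sub_ne_zero.mpr hz.symm)
    positivity
  rw [div_pos_iff_of_pos_right h2, sub_pos]
  rw [sq_lt_one_iff₀ (norm_nonneg z)]

private lemma norm_inv_le (hp : ‖p‖ = 1) {ζ : ℂ} (h : 0 ≤ ζ.im) : ‖inv p ζ‖ ≤ 1 := by
  have h1 := one_sub_inv hp h
  have h2 : 0 ≤ ζ.im * ‖p - inv p ζ‖ ^ 2 := by positivity
  rw [← h1] at h2
  nlinarith [norm_nonneg (inv p ζ)]

private lemma norm_inv_lt (hp : ‖p‖ = 1) {ζ : ℂ} (h : 0 ≤ ζ.im) : ‖inv p ζ‖ < 1 ↔ 0 < ζ.im := by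
  have h1 := one_sub_inv hp h
  have h3 : 0 < ‖p - inv p ζ‖ ^ 2 := by
    have := norm_pos_iff.mpr (sub_ne_zero.mpr (inv_ne hp h).symm)
    positivity
  constructor
  · intro h2
    have h4 : 0 < ζ.im * ‖p - inv p ζ‖ ^ 2 := by
      rw [← h1]
      nlinarith [norm_nonneg (inv p ζ)]
    exact (pos_iff_pos_of_mul_pos h4).mpr h3
  · intro h2
    have h4 : 0 < ζ.im * ‖p - inv p ζ‖ ^ 2 := by positivity
    rw [← h1] at h4
    nlinarith [norm_nonneg (inv p ζ)]

private lemma cay_tendsto (hp : ‖p‖ = 1) : Tendsto (cay p) (𝓝[≠] p) (cocompact ℂ) := by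
  rw [← Metric.cobounded_eq_cocompact, ← tendsto_norm_atTop_iff_cobounded]
  have h1 : Tendsto (fun z => ‖p - z‖) (𝓝[≠] p) (𝓝[>] 0) := by
    rw [tendsto_nhdsWithin_iff]
    constructor
    · have : Continuous (fun z => ‖p - z‖) := by fun_prop
      have h2 := this.tendsto p
      simp only [sub_self, norm_zero] at h2
      exact h2.mono_left nhdsWithin_le_nhds
    · filter_upwards [self_mem_nhdsWithin] with z hz
      exact norm_pos_iff.mpr (sub_ne_zero.mpr (Ne.symm hz))
  have h2 : Tendsto (fun z => ‖I * (p + z)‖) (𝓝[≠] p) (𝓝 2) := by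
    have : Continuous (fun z => ‖I * (p + z)‖) := by fun_prop
    have h3 := this.tendsto p
    have h4 : ‖I * (p + p)‖ = 2 := by
      rw [norm_mul, norm_I, ← two_mul, norm_mul, hp]
      simp
    rw [h4] at h3
    exact h3.mono_left nhdsWithin_le_nhds
  have h3 : Tendsto (fun z => ‖p - z‖⁻¹) (𝓝[≠] p) atTop := tendsto_inv_nhdsGT_zero.comp h1
  have h4 := h2.pos_mul_atTop (by norm_num) h3
  refine h4.congr fun z => ?_
  unfold cay
  rw [norm_div, div_eq_mul_inv]

private lemma inv_tendsto : Tendsto (inv p) (cocompact ℂ) (𝓝 p) := by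
  have h1 : Tendsto (fun ζ : ℂ => ζ + I) (cocompact ℂ) (cocompact ℂ) :=
    (Homeomorph.addRight I).isClosedEmbedding.tendsto_cocompact
  have h2 : Tendsto (fun ζ : ℂ => (ζ + I)⁻¹) (cocompact ℂ) (𝓝 0) :=
    tendsto_inv₀_cobounded.comp (by
      rw [← Metric.cobounded_eq_cocompact] at h1 ⊢
      exact h1)
  have h3 : Tendsto (fun ζ : ℂ => p * (1 - 2 * I * (ζ + I)⁻¹)) (cocompact ℂ) (𝓝 (p * (1 - 2 * I * 0))) :=
    (tendsto_const_nhds.sub (h2.const_mul _)).const_mul _
  have h4 : p * (1 - 2 * I * 0) = p := by ring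
  rw [h4] at h3
  have h5 : ∀ᶠ ζ : ℂ in cocompact ℂ, ζ + I ≠ 0 := by
    have : ∀ᶠ ζ : ℂ in cocompact ℂ, 1 < ‖ζ‖ :=
      tendsto_norm_cocompact_atTop.eventually (eventually_gt_atTop 1)
    filter_upwards [this] with ζ hζ h0
    have h6 : ζ = -I := eq_neg_of_add_eq_zero_left h0
    rw [h6, norm_neg, norm_I] at hζ
    exact lt_irrefl _ hζ
  refine h3.congr' ?_
  filter_upwards [h5] with ζ hζ
  unfold inv
  field_simp
  ring

variable {v : ℂ → ℂ}

private lemma phi_norm_le (hp : ‖p‖ = 1) (hv0 : ∀ z : ℂ, 0 ≤ z.im → 0 ≤ (v z).im) {z : ℂ}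
    (hz : ‖z‖ ≤ 1) : ‖Phi p v z‖ ≤ 1 := by
  unfold Phi
  split_ifs with h
  · exact hp.le
  · exact norm_inv_le hp (hv0 _ (cay_im_nonneg hp h hz))

private lemma phi_cont (hp : ‖p‖ = 1) (hv : Continuous v) (hv0 : ∀ z : ℂ, 0 ≤ z.im → 0 ≤ (v z).im)
    (hvi : Tendsto v (cocompact ℂ) (cocompact ℂ)) : ContinuousOn (Phi p v) (closedBall 0 1) := by
  intro z hz
  by_cases h : z = p
  · subst h
    apply ContinuousAt.continuousWithinAt
    rw [continuousAt_iff_punctured_nhds]
    have h1 : Tendsto (fun x => inv z (v (cay z x))) (𝓝[≠] z) (𝓝 z) :=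
      inv_tendsto.comp (hvi.comp (cay_tendsto hp))
    have h2 : Phi z v z = z := by simp [Phi]
    rw [h2]
    refine h1.congr' ?_
    filter_upwards [self_mem_nhdsWithin] with x hx
    have hx' : x ≠ z := hx
    simp [Phi, hx']
  · apply ContinuousAt.continuousWithinAt
    have h1 : ContinuousAt (fun x => inv p (v (cay p x))) z := by
      have h2 : ContinuousAt (inv p) (v (cay p z)) := by
        apply HasDerivAt.continuousAt (hasDerivAt_invC _)
        exact add_I_ne (hv0 _ (cay_im_nonneg hp h (mem_closedBall_zero_iff.mp hz)))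
      exact ContinuousAt.comp (f := fun x => v (cay p x)) h2
        (hv.continuousAt.comp (hasDerivAt_cay hp h).continuousAt)
    refine h1.congr ?_
    filter_upwards [isOpen_ne.mem_nhds h] with x hx
    have hx' : x ≠ p := hx
    simp [Phi, hx']

private lemma phi_inv (hp : ‖p‖ = 1) {u : ℂ → ℂ} (hv0 : ∀ z : ℂ, 0 ≤ z.im → 0 ≤ (v z).im)
    (huv : ∀ z, u (v z) = z) {z : ℂ} (hz : ‖z‖ ≤ 1) : Phi p u (Phi p v z) = z := by
  by_cases h : z = p
  · subst h
    simp [Phi]
  · have h1 : 0 ≤ (v (cay p z)).im := hv0 _ (cay_im_nonneg hp h hz)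
    have h2 : Phi p v z = inv p (v (cay p z)) := by simp [Phi, h]
    rw [h2]
    have h3 : inv p (v (cay p z)) ≠ p := inv_ne hp h1
    have h4 : Phi p u (inv p (v (cay p z))) = inv p (u (cay p (inv p (v (cay p z))))) := by
      simp [Phi, h3]
    rw [h4, cay_inv hp h1, huv, inv_cay hp h]

end DExistB

open DExistB

theorem exists_qc_vanish {k : ℝ} {μ : ℂ → ℂ} (hμ : Bel k μ) (hs : SuppIn 1 μ) {p : ℂ}
    (hp : ‖p‖ = 1) {ε : ℝ} (hε : 0 < ε) (h0 : ∀ z, ‖z - p‖ < ε → μ z = 0) :
    ∃ F, IsQC k F μ := by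
  have hk0 : 0 ≤ k := (norm_nonneg _).trans (hμ.le 0)
  have hp0 := p_ne hp
  set H : Set ℂ := {z : ℂ | 0 < z.im} with hH
  have hHo : IsOpen H := isOpen_lt continuous_const Complex.continuous_im
  -- the coefficient in the half plane
  set θ : ℂ → ℂ := fun ζ => conj (2 * I * p / (ζ + I) ^ 2) / (2 * I * p / (ζ + I) ^ 2) with hθ
  set lam : ℂ → ℂ := H.indicator (fun ζ => μ (inv p ζ) * θ ζ) with hlam
  have hinvm : Measurable (inv p) := by
    unfold DExistB.inv
    fun_prop
  have hθm : Measurable θ := by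
    have h1 : Measurable (fun ζ : ℂ => 2 * I * p / (ζ + I) ^ 2) := by fun_prop
    exact (Complex.continuous_conj.measurable.comp h1).div h1
  have hθn : ∀ ζ, ‖θ ζ‖ ≤ 1 := by
    intro ζ
    rw [hθ]
    simp only
    rw [norm_div, RCLike.norm_conj]
    exact div_self_le_one _
  have hlB : Bel k lam := by
    refine ⟨((hμ.meas.comp hinvm).mul hθm).indicator hHo.measurableSet, ?_, hμ.lt⟩
    intro ζ
    by_cases hζ : ζ ∈ H
    · rw [hlam, indicator_of_mem hζ, norm_mul]
      calc ‖μ (inv p ζ)‖ * ‖θ ζ‖ ≤ k * 1 :=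
            mul_le_mul (hμ.le _) (hθn _) (norm_nonneg _) hk0
        _ = k := mul_one k
    · rw [hlam, indicator_of_notMem hζ, norm_zero]
      exact hk0
  have hls : SuppIn (2 / ε + 2) lam := by
    intro ζ hζ
    by_cases hζH : ζ ∈ H
    · rw [hlam, indicator_of_mem hζH]
      have h1 : 2 / ε < ‖ζ + I‖ := by
        have : ‖ζ‖ ≤ ‖ζ + I‖ + 1 := by
          calc ‖ζ‖ = ‖(ζ + I) - I‖ := by rw [add_sub_cancel_right]
            _ ≤ ‖ζ + I‖ + ‖I‖ := norm_sub_le _ _
            _ = _ := by rw [norm_I]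
        linarith
      have h2 : ζ + I ≠ 0 := add_I_ne (le_of_lt hζH)
      have h3 : inv p ζ - p = -(2 * I * p) / (ζ + I) := by
        unfold DExistB.inv
        field_simp
        ring
      have h4 : ‖inv p ζ - p‖ < ε := by
        rw [h3, norm_div, norm_neg, norm_mul, norm_mul, norm_I, hp]
        have h5 : 0 < ‖ζ + I‖ := norm_pos_iff.mpr h2
        rw [div_lt_iff₀ h5]
        rw [div_lt_iff₀ hε] at h1
        have : ‖(2:ℂ)‖ = 2 := by simp
        rw [this]
        linarith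
      rw [h0 _ h4, zero_mul]
    · rw [hlam, indicator_of_notMem hζH]
  have hl0 : ∀ z : ℂ, z.im ≤ 0 → lam z = 0 := by
    intro z hz
    rw [hlam, indicator_of_notMem]
    intro h
    have h' : 0 < z.im := h
    linarith
  obtain ⟨w, hsym, hpos, hinf, a, b, hwd, hba⟩ := exists_half hlB hls hl0
  have hreal : ∀ z : ℂ, z.im = 0 → (w z).im = 0 := by
    intro z hz
    rw [← Complex.conj_eq_iff_im, ← hsym z, Complex.conj_eq_iff_im.mpr hz]
  have hreal' : ∀ z : ℂ, z.im = 0 → (w.symm z).im = 0 := by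
    intro z hz
    rw [← Complex.conj_eq_iff_im]
    apply w.injective
    rw [hsym, w.apply_symm_apply, Complex.conj_eq_iff_im.mpr hz]
  have hnn : ∀ z : ℂ, 0 ≤ z.im → 0 ≤ (w z).im := by
    intro z hz
    rcases hz.lt_or_eq with h | h
    · exact ((hpos z).mpr h).le
    · exact (hreal z h.symm).ge
  have hnn' : ∀ z : ℂ, 0 ≤ z.im → 0 ≤ (w.symm z).im := by
    intro z hz
    rcases hz.lt_or_eq with h | h
    · exact ((hpos (w.symm z)).mp (by rwa [w.apply_symm_apply])).le
    · exact (hreal' z h.symm).ge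
  have hwi : Tendsto w (cocompact ℂ) (cocompact ℂ) := w.isClosedEmbedding.tendsto_cocompact
  have hwi' : Tendsto w.symm (cocompact ℂ) (cocompact ℂ) :=
    w.symm.isClosedEmbedding.tendsto_cocompact
  -- the homeomorphism
  set Fe : CD ≃ CD :=
    { toFun := fun z => ⟨Phi p w z, mem_closedBall_zero_iff.mpr
        (phi_norm_le hp hnn (mem_closedBall_zero_iff.mp z.2))⟩
      invFun := fun z => ⟨Phi p w.symm z, mem_closedBall_zero_iff.mpr
        (phi_norm_le hp hnn' (mem_closedBall_zero_iff.mp z.2))⟩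
      left_inv := fun z => Subtype.ext (phi_inv hp hnn (fun z => w.symm_apply_apply z)
        (mem_closedBall_zero_iff.mp z.2))
      right_inv := fun z => Subtype.ext (phi_inv hp hnn' (fun z => w.apply_symm_apply z)
        (mem_closedBall_zero_iff.mp z.2)) } with hFe
  have hFc : Continuous Fe := by
    apply Continuous.subtype_mk
    exact continuousOn_iff_continuous_domRestrict.mp (phi_cont hp w.continuous hnn hwi)
  have hGc : Continuous Fe.symm := by
    apply Continuous.subtype_mk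
    exact continuousOn_iff_continuous_domRestrict.mp (phi_cont hp w.symm.continuous hnn' hwi')
  set F : CD ≃ₜ CD := { toEquiv := Fe, continuous_toFun := hFc, continuous_invFun := hGc } with hF
  have hFapp : ∀ z : CD, (F z : ℂ) = Phi p w z := fun z => rfl
  have hDp : ∀ z ∈ D, z ≠ p := by
    rintro z hz rfl
    rw [mem_ball_zero_iff, hp] at hz
    exact lt_irrefl _ hz
  have hext : ∀ z ∈ D, ext F z = inv p (w (cay p z)) := by
    intro z hz
    have h1 := ext_apply F ⟨z, ball_subset_closedBall hz⟩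
    simp only at h1
    rw [h1, hFapp]
    simp [Phi, hDp z hz]
  have hcayH : MapsTo (cay p) D H := fun z hz =>
    (cay_im_pos hp (hDp z hz)).mpr (mem_ball_zero_iff.mp hz)
  have hcayd : DifferentiableOn ℂ (cay p) D := fun z hz =>
    (hasDerivAt_cay hp (hDp z hz)).differentiableAt.differentiableWithinAt
  have hcayi : InjOn (cay p) D := by
    intro x hx y hy hxy
    rw [← inv_cay hp (hDp x hx), ← inv_cay hp (hDp y hy), hxy]
  have hinvd : DifferentiableOn ℂ (inv p) H := fun ζ hζ =>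
    (hasDerivAt_invC (add_I_ne (le_of_lt hζ))).differentiableAt.differentiableWithinAt
  have hcomp1 := hwd.comp_holo hHo isOpen_ball hcayd hcayi hcayH
  have hcomp2 := hcomp1.holo_comp isOpen_ball hHo
    (w.continuous.comp_continuousOn hcayd.continuousOn)
    (fun z hz => (hpos _).mpr (hcayH hz)) hinvd
  refine ⟨F, ?_, hμ, hs, _, _, hcomp2.congr isOpen_ball ?_ (Filter.EventuallyEq.refl _ _)
    (Filter.EventuallyEq.refl _ _), ?_⟩
  · intro z
    rw [hFapp]
    by_cases hz : (z : ℂ) = p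
    · simp [Phi, hz, hp]
    · have h1 : Phi p w z = inv p (w (cay p z)) := by simp [Phi, hz]
      have h2 : 0 ≤ (cay p z).im := cay_im_nonneg hp hz (mem_closedBall_zero_iff.mp z.2)
      rw [h1, norm_inv_lt hp (hnn _ h2), hpos, cay_im_pos hp hz]
  · rw [Filter.EventuallyEq, ae_restrict_iff' measurableSet_ball]
    exact Filter.Eventually.of_forall fun z hz => (hext z hz).symm
  · -- null sets
    rw [ae_restrict_iff' hHo.measurableSet] at hba
    have hnull : volume {ζ : ℂ | ¬ (ζ ∈ H → b ζ = lam ζ * a ζ)} = 0 := hba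
    have hnull2 : volume (inv p '' {ζ : ℂ | ¬ (ζ ∈ H → b ζ = lam ζ * a ζ)}) = 0 := by
      apply addHaar_image_eq_zero_of_differentiableOn_of_addHaar_eq_zero volume _ hnull
      intro ζ hζ
      have hζH : ζ ∈ H := by
        by_contra hcon
        exact hζ fun h => absurd h hcon
      exact ((hasDerivAt_invC (p := p)
        (add_I_ne (le_of_lt hζH))).differentiableAt.restrictScalars ℝ).differentiableWithinAt
    rw [ae_restrict_iff' measurableSet_ball]
    have h5 : ∀ᵐ z : ℂ, z ∉ inv p '' {ζ : ℂ | ¬ (ζ ∈ H → b ζ = lam ζ * a ζ)} :=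
      measure_eq_zero_iff_ae_notMem.mp hnull2
    filter_upwards [h5] with z hz hzD
    have h6 : b (cay p z) = lam (cay p z) * a (cay p z) := by
      by_contra hcon
      apply hz
      refine ⟨cay p z, fun h => hcon (h (hcayH hzD)), inv_cay hp (hDp z hzD)⟩
    rw [h6]
    have h7 : lam (cay p z) = μ z * θ (cay p z) := by
      rw [hlam, indicator_of_mem (hcayH hzD), inv_cay hp (hDp z hzD)]
    rw [h7]
    have h8 : deriv (cay p) z = 2 * I * p / (p - z) ^ 2 := (hasDerivAt_cay hp (hDp z hzD)).deriv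
    have h9 : p - z ≠ 0 := sub_ne_zero.mpr (hDp z hzD).symm
    have h10 : cay p z + I = 2 * I * p / (p - z) := by
      unfold DExistB.cay
      field_simp
      ring
    have h11 : 2 * I * p / (cay p z + I) ^ 2 = (deriv (cay p) z)⁻¹ := by
      rw [h8, h10]
      field_simp
    have h12 : deriv (cay p) z ≠ 0 := by
      rw [h8]
      have : (2 * I * p : ℂ) ≠ 0 := by
        simp [hp0]
      exact div_ne_zero this (pow_ne_zero _ h9)
    have h13 : θ (cay p z) * conj (deriv (cay p) z) = deriv (cay p) z := by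
      rw [hθ]
      simp only
      rw [h11]
      have h14 : conj (deriv (cay p) z) ≠ 0 := by simpa using h12
      rw [map_inv₀]
      field_simp
    linear_combination (deriv (inv p) (w (cay p z)) * μ z * a (cay p z)) * h13

end QC
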