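import Pool.Agent.Work.MP_217185_an.DExist1
import Pool.Agent.Work.MP_217185_an.DComp

/-! # DExist2: existence on the disc

`μ = μ₁ + μ₂`, `μ₁ = μ 1_{Re z ≤ 0}`, vanishing near `1`; `F₁` from `exists_qc_vanish` (`p = 1`).
Let `s = ∂F₁`.  Define `ν` on `D` by `ν (F₁ z) = μ₂ z s/conj s` (measurable, bounded by `k`); it
vanishes near `p = F₁(-1)`.  `F₂` from `exists_qc_vanish`.  `F = F₂ ∘ F₁` has coefficient `μ`
(`IsQC.comp`: on `{Re z > 0}` `(0 + ν(F₁) θ)/1 = μ₂`, on the rest `μ₁`) a.e.; change on a null set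
(`IsQC.congr`). -/

open MeasureTheory Complex Set Metric Filter
open scoped Topology ENNReal NNReal ContDiff ComplexConjugate

namespace QC

/-- measurable representative of a weak derivative. -/
private lemma DExist2_meas {a : ℂ → ℂ} (ha : L2loc D a) :
    ∃ S : ℂ → ℂ, Measurable S ∧ a =ᵐ[volume.restrict D] S := by
  have h1 : ∀ n : ℕ, AEMeasurable a (volume.restrict (closedBall (0:ℂ) (1 - 1 / ((n:ℝ) + 1)))) := by
    intro n
    apply (ha _ _ (isCompact_closedBall _ _)).1.aemeasurable
    apply closedBall_subset_ball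
    have : (0:ℝ) < 1 / ((n:ℝ) + 1) := by positivity
    linarith
  have h2 : AEMeasurable a (volume.restrict (⋃ n : ℕ, closedBall (0:ℂ) (1 - 1 / ((n:ℝ) + 1)))) :=
    aemeasurable_iUnion_iff.mpr h1
  have h3 : (D : Set ℂ) ⊆ ⋃ n : ℕ, closedBall (0:ℂ) (1 - 1 / ((n:ℝ) + 1)) := by
    intro z hz
    rw [mem_ball_zero_iff] at hz
    obtain ⟨n, hn⟩ := exists_nat_one_div_lt (sub_pos.mpr hz)
    rw [mem_iUnion]
    exact ⟨n, mem_closedBall_zero_iff.mpr (by linarith)⟩
  have h4 := h2.mono_set h3
  exact ⟨h4.mk a, h4.measurable_mk, h4.ae_eq_mk⟩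

theorem exists_qc {k : ℝ} {μ : ℂ → ℂ} (hμ : Bel k μ) (hs : SuppIn 1 μ) : ∃ F, IsQC k F μ := by
  have hk0 : 0 ≤ k := (norm_nonneg _).trans (hμ.le 0)
  set P : Set ℂ := {z : ℂ | 0 < z.re} with hP
  have hPo : IsOpen P := isOpen_lt continuous_const Complex.continuous_re
  set μ₂ : ℂ → ℂ := P.indicator μ with hμ₂
  set μ₁ : ℂ → ℂ := Pᶜ.indicator μ with hμ₁
  have hB : ∀ Q : Set ℂ, MeasurableSet Q → Bel k (Q.indicator μ) ∧ SuppIn 1 (Q.indicator μ) := by
    intro Q hQ
    refine ⟨⟨hμ.meas.indicator hQ, fun z => ?_, hμ.lt⟩, fun z hz => ?_⟩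
    · by_cases h : z ∈ Q
      · rw [indicator_of_mem h]
        exact hμ.le z
      · rw [indicator_of_notMem h, norm_zero]
        exact hk0
    · by_cases h : z ∈ Q
      · rw [indicator_of_mem h]
        exact hs z hz
      · rw [indicator_of_notMem h]
  have hB1 : Bel k μ₁ := (hB _ hPo.measurableSet.compl).1
  have hs1 : SuppIn 1 μ₁ := (hB _ hPo.measurableSet.compl).2
  have hB2 : Bel k μ₂ := (hB _ hPo.measurableSet).1
  obtain ⟨F₁, hF₁⟩ := exists_qc_vanish hB1 hs1 (p := 1) (by simp) one_pos (by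
    intro z hz
    rw [hμ₁, indicator_of_notMem]
    intro h
    apply h
    have h1 := (Complex.abs_re_le_norm (z - 1)).trans_lt hz
    rw [abs_lt, Complex.sub_re, Complex.one_re] at h1
    change 0 < z.re
    linarith [h1.1])
  obtain ⟨s, t, hst, _⟩ := hF₁.wd
  obtain ⟨S, hSm, hsS⟩ := DExist2_meas hst.la
  -- the coefficient on the target
  set G : ℂ → ℂ := ext F₁.symm with hG
  have hGm : ∀ u : ℂ → ℂ, Measurable u → Measurable (D.indicator (fun y => u (G y))) := by
    intro u hu
    refine measurable_of_restrict_of_restrict_compl (s := D) measurableSet_ball ?_ ?_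
    · have h1 : Continuous (D.domRestrict G) :=
        continuousOn_iff_continuous_domRestrict.mp
          ((continuousOn_ext F₁.symm).mono ball_subset_closedBall)
      have h2 : D.domRestrict (D.indicator (fun y => u (G y))) = u ∘ D.domRestrict G := by
        funext x
        simp [domRestrict, indicator_of_mem x.2]
      rw [h2]
      exact hu.comp h1.measurable
    · have h2 : Dᶜ.domRestrict (D.indicator (fun y => u (G y))) = fun _ => 0 := by
        funext x
        simp [domRestrict, indicator_of_notMem x.2]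
      rw [h2]
      exact measurable_const
  set ν : ℂ → ℂ := D.indicator (fun y => (fun z => μ₂ z * (S z / conj (S z))) (G y)) with hν
  have hνm : Measurable ν := by
    exact hGm (fun z => μ₂ z * (S z / conj (S z)))
      (hB2.meas.mul (hSm.div (Complex.continuous_conj.measurable.comp hSm)))
  have hνB : Bel k ν := by
    refine ⟨hνm, fun y => ?_, hμ.lt⟩
    by_cases h : y ∈ D
    · rw [hν, indicator_of_mem h, norm_mul]
      calc ‖μ₂ (G y)‖ * ‖S (G y) / conj (S (G y))‖ ≤ k * 1 := by
            apply mul_le_mul (hB2.le _) _ (norm_nonneg _) hk0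
            rw [norm_div, RCLike.norm_conj]
            exact div_self_le_one _
        _ = k := mul_one k
    · rw [hν, indicator_of_notMem h, norm_zero]
      exact hk0
  have hνs : SuppIn 1 ν := by
    intro y hy
    rw [hν, indicator_of_notMem]
    rw [mem_ball_zero_iff, not_lt]
    exact hy
  -- `ν` vanishes near `F₁ (-1)`
  set m : CD := ⟨-1, by simp⟩ with hm
  have hmn : ‖((F₁ m : CD) : ℂ)‖ = 1 := by
    have h1 : ¬ ‖((F₁ m : CD) : ℂ)‖ < 1 := by
      rw [hF₁.pres]
      simp [hm]
    exact le_antisymm (mem_closedBall_zero_iff.mp (F₁ m).2) (not_lt.mp h1)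
  have hcontG : ContinuousAt F₁.symm (F₁ m) := F₁.symm.continuous.continuousAt
  have hnb : {x : CD | (x : ℂ).re < 0} ∈ 𝓝 (F₁.symm (F₁ m)) := by
    rw [F₁.symm_apply_apply]
    apply IsOpen.mem_nhds
    · exact isOpen_lt (Complex.continuous_re.comp continuous_subtype_val) continuous_const
    · simp [hm]
  obtain ⟨ε, hε, hball⟩ := Metric.mem_nhds_iff.mp (hcontG hnb)
  have hνv : ∀ y, ‖y - (F₁ m : ℂ)‖ < ε → ν y = 0 := by
    intro y hy
    by_cases h : y ∈ D
    · rw [hν, indicator_of_mem h]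
      have h1 : (⟨y, ball_subset_closedBall h⟩ : CD) ∈ ball (F₁ m) ε := by
        rw [mem_ball, Subtype.dist_eq, dist_eq_norm]
        exact hy
      have h2 := hball h1
      have h3 : (F₁.symm ⟨y, ball_subset_closedBall h⟩ : ℂ).re < 0 := h2
      have h4 : G y = (F₁.symm ⟨y, ball_subset_closedBall h⟩ : ℂ) :=
        ext_apply F₁.symm ⟨y, ball_subset_closedBall h⟩
      have h5 : μ₂ (G y) = 0 := by
        rw [hμ₂, indicator_of_notMem]
        intro h6
        have h7 : 0 < (G y).re := h6
        rw [h4] at h7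
        linarith
      simp only
      rw [h5, zero_mul]
    · rw [hν, indicator_of_notMem h]
  obtain ⟨F₂, hF₂⟩ := exists_qc_vanish hνB hνs hmn hε hνv
  obtain ⟨κ, hκ, s', t', hst', hκe⟩ := hF₂.comp hF₁
  refine ⟨F₂ * F₁, hκ.congr hμ hs ?_⟩
  obtain ⟨-, hs'0, -, -⟩ := hF₁.area hst'
  have hss' := (WD.unique isOpen_ball hst hst').1
  have hD : ∀ᵐ z ∂(volume.restrict D), κ z = μ z := by
    have hmem : ∀ᵐ z ∂(volume.restrict D), z ∈ D := ae_restrict_mem measurableSet_ball
    filter_upwards [hκe, hs'0, hss', hsS, hmem] with z h1 h2 h3 h4 h5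
    have hGz : G (ext F₁ z) = z := by
      have e1 := ext_apply F₁ ⟨z, ball_subset_closedBall h5⟩
      simp only at e1
      rw [e1]
      have e2 := ext_apply F₁.symm (F₁ ⟨z, ball_subset_closedBall h5⟩)
      rw [hG, e2, F₁.symm_apply_apply]
    have hνz : ν (ext F₁ z) = μ₂ z * (S z / conj (S z)) := by
      have e1 : ext F₁ z ∈ D := by
        rw [← hF₁.image_D]
        exact mem_image_of_mem _ h5
      rw [hν, indicator_of_mem e1]
      simp only
      rw [hGz]
    rw [h1, hνz]
    have hSz : S z = s' z := by rw [← h4, h3]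
    rw [hSz]
    have h6 : conj (s' z) ≠ 0 := by simpa using h2
    have h7 : μ₂ z * (s' z / conj (s' z)) * (conj (s' z) / s' z) = μ₂ z := by
      field_simp
    by_cases hz : z ∈ P
    · have e1 : μ₁ z = 0 := by
        rw [hμ₁, indicator_of_notMem]
        exact fun h => h hz
      have e2 : μ₂ z = μ z := by rw [hμ₂, indicator_of_mem hz]
      rw [e1, h7, map_zero, e2]
      simp
    · have e1 : μ₁ z = μ z := by
        rw [hμ₁, indicator_of_mem]
        exact hz
      have e2 : μ₂ z = 0 := by rw [hμ₂, indicator_of_notMem hz]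
      rw [e1, e2]
      simp
  rw [ae_restrict_iff' measurableSet_ball] at hD
  filter_upwards [hD] with z hz
  by_cases h : z ∈ D
  · exact hz h
  · rw [mem_ball_zero_iff, not_lt] at h
    rw [hs z h, hκ.supp z h]

end QC
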