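import Pool.Agent.Work.MP_217185_an.Moll

/-! # WDcomp2: weak derivatives and holomorphic changes of variable

* `comp_holo`: `g` is a biholomorphic map of `V` onto the open set `g '' V` (`g' ≠ 0` for injective
  holomorphic maps, Mathlib has the open mapping theorem and the nonvanishing of the derivative; the
  inverse is holomorphic).  For a test function `φ` in `V` put `ψ = (φ / conj g') ∘ g⁻¹`, a test
  function in `g '' V`; `dz ψ = ((dz φ) / (g' conj g')) ∘ g⁻¹` since `1 / conj g' ∘ g⁻¹` is
  antiholomorphic.  Change of variables `ζ = g z`, `dA(ζ) = ‖g'‖² dA(z)` (Mathlib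
  `integral_image_eq_integral_abs_det_fderiv_smul`): `∫ f(g z) dz φ = ∫ f dz ψ = - ∫ a ψ =
  - ∫ a(g z) g' φ`.  Same for `dzb` with `φ / g'`.
* `holo_comp`: let `φ ∈ Test U` with compact support `K`; approximate `f` by `F n`
  (`exists_smooth_approx`) on `K`; for `n` large `F n` maps `K` into a compact subset of `W`, so
  `∫ G(F n) dz φ = - ∫ G'(F n) dz (F n) φ` (`G ∘ F n` is `C^1` near `K`), let `n → ∞`. -/

open MeasureTheory Complex Set Metric Filter
open scoped Topology ENNReal NNReal ContDiff ComplexConjugate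

namespace QC

private theorem WDcomp2_lim {K : Set ℂ} (hK : IsCompact K) {u : ℕ → ℂ → ℂ} {u0 : ℂ → ℂ}
    {v : ℕ → ℂ → ℂ} {v0 : ℂ → ℂ} (hu : TendstoUniformlyOn u u0 atTop K)
    (hu0 : ContinuousOn u0 K) (hun : ∀ᶠ n in atTop, ContinuousOn (u n) K)
    (hv : Tendsto (fun n => eLpNorm (fun z => v n z - v0 z) 2 (volume.restrict K)) atTop (𝓝 0))
    (hv0 : MemLp v0 2 (volume.restrict K))
    (hvn : ∀ n, MemLp (v n) 2 (volume.restrict K)) :
    Tendsto (fun n => ∫ z in K, u n z * v n z) atTop (𝓝 (∫ z in K, u0 z * v0 z)) := by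
  have : IsFiniteMeasure (volume.restrict K) := ⟨by
    rw [Measure.restrict_apply_univ]; exact hK.measure_lt_top⟩
  obtain ⟨C, hC⟩ := hK.exists_bound_of_continuousOn hu0
  have hC0 : ∀ z ∈ K, ‖u0 z‖ ≤ max C 0 := fun z hz => (hC z hz).trans (le_max_left _ _)
  have hi0 : Integrable v0 (volume.restrict K) := hv0.integrable (by norm_num)
  have hin : ∀ n, Integrable (v n) (volume.restrict K) := fun n => (hvn n).integrable (by norm_num)
  have hint : ∀ (w : ℂ → ℂ) (g : ℂ → ℂ), ContinuousOn w K → Integrable g (volume.restrict K) →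
      Integrable (fun z => w z * g z) (volume.restrict K) := by
    intro w g hw hg
    obtain ⟨M, hM⟩ := hK.exists_bound_of_continuousOn hw
    exact hg.bdd_mul (hw.aestronglyMeasurable hK.measurableSet)
      (ae_restrict_of_forall_mem hK.measurableSet hM)
  -- the L¹ norms tend to zero
  have hL1 : Tendsto (fun n => ∫ z in K, ‖v n z - v0 z‖) atTop (𝓝 0) := by
    have h1 : ∀ n, ∫ z in K, ‖v n z - v0 z‖
        = (eLpNorm (fun z => v n z - v0 z) 1 (volume.restrict K)).toReal := by
      intro n
      rw [eLpNorm_one_eq_lintegral_enorm, integral_norm_eq_lintegral_enorm]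
      exact ((hvn n).1.sub hv0.1)
    have h2 : Tendsto (fun n => eLpNorm (fun z => v n z - v0 z) 1 (volume.restrict K))
        atTop (𝓝 0) := by
      have h3 : Tendsto (fun n => eLpNorm (fun z => v n z - v0 z) 2 (volume.restrict K) *
          (volume.restrict K) univ ^ (1 / (1 : ℝ≥0∞).toReal - 1 / (2 : ℝ≥0∞).toReal))
          atTop (𝓝 0) := by
        have : Tendsto (fun n => eLpNorm (fun z => v n z - v0 z) 2 (volume.restrict K) *
          (volume.restrict K) univ ^ (1 / (1 : ℝ≥0∞).toReal - 1 / (2 : ℝ≥0∞).toReal))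
          atTop (𝓝 (0 * (volume.restrict K) univ ^
            (1 / (1 : ℝ≥0∞).toReal - 1 / (2 : ℝ≥0∞).toReal))) := by
          refine ENNReal.Tendsto.mul_const hv (Or.inr ?_)
          refine ENNReal.rpow_ne_top_of_nonneg ?_ (measure_ne_top _ _)
          norm_num
        simpa using this
      refine tendsto_of_tendsto_of_tendsto_of_le_of_le tendsto_const_nhds h3
        (fun n => bot_le) (fun n => ?_)
      exact eLpNorm_le_eLpNorm_mul_rpow_measure_univ (by norm_num) ((hvn n).1.sub hv0.1)
    have h4 := (ENNReal.tendsto_toReal (by simp : (0 : ℝ≥0∞) ≠ ⊤)).comp h2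
    simp only [ENNReal.toReal_zero] at h4
    refine h4.congr (fun n => ?_)
    rw [h1]; rfl
  rw [Metric.tendsto_atTop]
  intro ε hε
  set A : ℝ := max C 0 + 1 with hA
  have hApos : 0 < A := by have := le_max_right C 0; linarith
  set B : ℝ := (∫ z in K, ‖v0 z‖) + 1 with hB
  have hBpos : 0 < B := by
    have : 0 ≤ ∫ z in K, ‖v0 z‖ := integral_nonneg (fun _ => norm_nonneg _)
    linarith
  rw [Metric.tendstoUniformlyOn_iff] at hu
  have e1 := hu (min 1 (ε / (2 * B))) (by positivity)
  have e2 := (Metric.tendsto_atTop.1 hL1) (ε / (2 * A)) (by positivity)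
  obtain ⟨N2, hN2⟩ := e2
  obtain ⟨N1, hN1⟩ := eventually_atTop.1 (e1.and hun)
  refine ⟨max N1 N2, fun n hn => ?_⟩
  obtain ⟨hc1, hc2⟩ := hN1 n (le_of_max_le_left hn)
  have hc3 := hN2 n (le_of_max_le_right hn)
  rw [Real.dist_eq, sub_zero] at hc3
  have hc4 : ∫ z in K, ‖v n z - v0 z‖ < ε / (2 * A) := lt_of_abs_lt hc3
  rw [dist_eq_norm, ← integral_sub (hint _ _ hc2 (hin n)) (hint _ _ hu0 hi0)]
  have hd : Integrable (fun z => ‖v n z - v0 z‖) (volume.restrict K) :=
    ((hin n).sub hi0).norm
  have hbound : ∀ z ∈ K, ‖u n z * v n z - u0 z * v0 z‖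
      ≤ A * ‖v n z - v0 z‖ + ε / (2 * B) * ‖v0 z‖ := by
    intro z hz
    have h1 : u n z * v n z - u0 z * v0 z
        = u n z * (v n z - v0 z) + (u n z - u0 z) * v0 z := by ring
    rw [h1]
    refine (norm_add_le _ _).trans ?_
    rw [norm_mul, norm_mul]
    have h2 := hc1 z hz
    rw [dist_comm, dist_eq_norm] at h2
    have h3 : ‖u n z‖ ≤ A := by
      have := norm_sub_norm_le (u n z) (u0 z)
      have h4 := hC0 z hz
      have h5 : ‖u n z - u0 z‖ < 1 := h2.trans_le (min_le_left _ _)
      linarith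
    have h6 : ‖u n z - u0 z‖ ≤ ε / (2 * B) := (h2.trans_le (min_le_right _ _)).le
    gcongr
  calc ‖∫ z in K, (u n z * v n z - u0 z * v0 z)‖
      ≤ ∫ z in K, (A * ‖v n z - v0 z‖ + ε / (2 * B) * ‖v0 z‖) := by
        refine norm_integral_le_of_norm_le ((hd.const_mul _).add (hi0.norm.const_mul _)) ?_
        exact ae_restrict_of_forall_mem hK.measurableSet hbound
    _ = A * (∫ z in K, ‖v n z - v0 z‖) + ε / (2 * B) * ∫ z in K, ‖v0 z‖ := by
        rw [integral_add (hd.const_mul _) (hi0.norm.const_mul _), integral_const_mul,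
          integral_const_mul]
    _ < ε := by
        have h1 : A * (∫ z in K, ‖v n z - v0 z‖) < ε / 2 := by
          calc A * (∫ z in K, ‖v n z - v0 z‖) < A * (ε / (2 * A)) := by gcongr
            _ = ε / 2 := by field_simp
        have h2 : ε / (2 * B) * ∫ z in K, ‖v0 z‖ ≤ ε / 2 := by
          calc ε / (2 * B) * ∫ z in K, ‖v0 z‖ ≤ ε / (2 * B) * B := by
                gcongr; linarith
            _ = ε / 2 := by field_simp
        linarith

/-- composition with a function which is continuous on an open set, uniformly on compact sets -/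
private theorem WDcomp2_unif {K W : Set ℂ} (hK : IsCompact K) (hW : IsOpen W) {F : ℕ → ℂ → ℂ}
    {f H : ℂ → ℂ} (hF : TendstoUniformlyOn F f atTop K) (hf : ContinuousOn f K)
    (hm : MapsTo f K W) (hH : ContinuousOn H W) :
    (∀ᶠ n in atTop, MapsTo (F n) K W) ∧
      TendstoUniformlyOn (fun n z => H (F n z)) (fun z => H (f z)) atTop K := by
  have hfK : IsCompact (f '' K) := hK.image_of_continuousOn hf
  obtain ⟨δ, hδ, hδW⟩ := hfK.exists_cthickening_subset_open hW (by
    rintro _ ⟨z, hz, rfl⟩; exact hm hz)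
  have hM : IsCompact (cthickening δ (f '' K)) := hfK.cthickening
  have hmem : ∀ᶠ n in atTop, ∀ z ∈ K, F n z ∈ cthickening δ (f '' K) := by
    filter_upwards [(Metric.tendstoUniformlyOn_iff.1 hF) δ hδ] with n hn z hz
    refine mem_cthickening_of_dist_le _ (f z) _ _ ⟨z, hz, rfl⟩ ?_
    rw [dist_comm]; exact (hn z hz).le
  refine ⟨hmem.mono fun n hn z hz => hδW (hn z hz), ?_⟩
  have huc : UniformContinuousOn H (cthickening δ (f '' K)) :=
    hM.uniformContinuousOn_of_continuous (hH.mono hδW)
  rw [Metric.tendstoUniformlyOn_iff]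
  intro ε hε
  obtain ⟨η, hη, hη2⟩ := (Metric.uniformContinuousOn_iff.1 huc) ε hε
  filter_upwards [hmem, (Metric.tendstoUniformlyOn_iff.1 hF) η hη] with n h1 h2 z hz
  refine hη2 _ ?_ _ (h1 z hz) (h2 z hz)
  exact self_subset_cthickening _ ⟨z, hz, rfl⟩

private theorem WDcomp2_L2 {U : Set ℂ} {a H : ℂ → ℂ} (ha : L2loc U a)
    (hH : ContinuousOn H U) : L2loc U (fun z => H z * a z) := by
  intro K hKU hK
  obtain ⟨M, hM⟩ := hK.exists_bound_of_continuousOn (hH.mono hKU)
  have h1 : MemLp a 2 (volume.restrict K) := ha K hKU hK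
  refine h1.of_le_mul (c := M) (((hH.mono hKU).aestronglyMeasurable hK.measurableSet).mul h1.1)
    (ae_restrict_of_forall_mem hK.measurableSet fun z hz => ?_)
  rw [norm_mul]
  exact mul_le_mul_of_nonneg_right (hM z hz) (norm_nonneg _)

private theorem WDcomp2_memLp {K : Set ℂ} (hK : IsCompact K) {g : ℂ → ℂ} (hg : ContinuousOn g K) :
    MemLp g 2 (volume.restrict K) := by
  have : IsFiniteMeasure (volume.restrict K) := ⟨by
    rw [Measure.restrict_apply_univ]; exact hK.measure_lt_top⟩
  obtain ⟨M, hM⟩ := hK.exists_bound_of_continuousOn hg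
  exact MemLp.of_bound (hg.aestronglyMeasurable hK.measurableSet) M
    (ae_restrict_of_forall_mem hK.measurableSet hM)

private theorem WDcomp2_cont_dz {f : ℂ → ℂ} (hf : ContDiff ℝ ∞ f) :
    Continuous (dz f) ∧ Continuous (dzb f) := by
  have h : Continuous (fderiv ℝ f) := hf.continuous_fderiv (by simp)
  unfold dz dzb
  constructor <;> fun_prop

private theorem WDcomp2_supp {f : ℂ → ℂ} {z : ℂ} (hz : z ∉ tsupport f) :
    dz f z = 0 ∧ dzb f z = 0 := by
  have h : fderiv ℝ f z = 0 := by
    have h1 : f =ᶠ[𝓝 z] fun _ => 0 := notMem_tsupport_iff_eventuallyEq.1 hz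
    rw [h1.fderiv_eq]; simp
  unfold dz dzb
  simp [h]

theorem WD.holo_comp {U W : Set ℂ} (hU : IsOpen U) (hW : IsOpen W) {f a b : ℂ → ℂ}
    (h : WD U f a b) (hf : ContinuousOn f U) (hm : MapsTo f U W) {G : ℂ → ℂ}
    (hG : DifferentiableOn ℂ G W) :
    WD U (fun z => G (f z)) (fun z => deriv G (f z) * a z) (fun z => deriv G (f z) * b z) := by
  have hGc : ContinuousOn G W := hG.continuousOn
  have hG' : ContinuousOn (deriv G) W := (hG.deriv hW).continuousOn
  have hc1 : ContinuousOn (fun z => G (f z)) U := hGc.comp hf hm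
  have hc2 : ContinuousOn (fun z => deriv G (f z)) U := hG'.comp hf hm
  -- the key computation for a test function
  have key : ∀ φ, Test U φ →
      (∫ z, G (f z) * dz φ z = - ∫ z, deriv G (f z) * a z * φ z) ∧
      (∫ z, G (f z) * dzb φ z = - ∫ z, deriv G (f z) * b z * φ z) := by
    intro φ hφ
    set K := tsupport φ with hKdef
    have hK : IsCompact K := hφ.cpt
    have hKU : K ⊆ U := hφ.sub
    obtain ⟨F, hFs, hFu, hFa, hFb⟩ := exists_smooth_approx hU h hf hK hKU
    have hfK : ContinuousOn f K := hf.mono hKU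
    have hmK : MapsTo f K W := fun z hz => hm (hKU hz)
    obtain ⟨hev, hu1⟩ := WDcomp2_unif hK hW hFu hfK hmK hGc
    obtain ⟨-, hu2⟩ := WDcomp2_unif hK hW hFu hfK hmK hG'
    have hφc : Continuous φ := hφ.smooth.continuous
    obtain ⟨hdc, hdbc⟩ := WDcomp2_cont_dz hφ.smooth
    have hφ0 : ∀ z, z ∉ K → φ z = 0 := fun z hz => image_eq_zero_of_notMem_tsupport hz
    -- restriction of the integrals to K
    have hres : ∀ g : ℂ → ℂ, (∫ z, g z * φ z = ∫ z in K, g z * φ z) ∧
        (∫ z, g z * dz φ z = ∫ z in K, g z * dz φ z) ∧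
        (∫ z, g z * dzb φ z = ∫ z in K, g z * dzb φ z) := by
      intro g
      refine ⟨?_, ?_, ?_⟩ <;>
        refine (setIntegral_eq_integral_of_forall_compl_eq_zero fun z hz => ?_).symm
      · rw [hφ0 z hz, mul_zero]
      · rw [(WDcomp2_supp hz).1, mul_zero]
      · rw [(WDcomp2_supp hz).2, mul_zero]
    -- limits of the left hand sides
    have hun1 : ∀ᶠ n in atTop, ContinuousOn (fun z => G (F n z)) K := hev.mono fun n hn =>
      hGc.comp (hFs n).continuous.continuousOn hn
    have hun2 : ∀ᶠ n in atTop, ContinuousOn (fun z => deriv G (F n z) * φ z) K :=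
      hev.mono fun n hn =>
        (hG'.comp (hFs n).continuous.continuousOn hn).mul hφc.continuousOn
    have hL1 : Tendsto (fun n => ∫ z in K, G (F n z) * dz φ z) atTop
        (𝓝 (∫ z in K, G (f z) * dz φ z)) := by
      refine WDcomp2_lim (v := fun _ => dz φ) hK hu1 (hc1.mono hKU) hun1 ?_
        (WDcomp2_memLp hK hdc.continuousOn) (fun _ => WDcomp2_memLp hK hdc.continuousOn)
      simp
    have hL2 : Tendsto (fun n => ∫ z in K, G (F n z) * dzb φ z) atTop
        (𝓝 (∫ z in K, G (f z) * dzb φ z)) := by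
      refine WDcomp2_lim (v := fun _ => dzb φ) hK hu1 (hc1.mono hKU) hun1 ?_
        (WDcomp2_memLp hK hdbc.continuousOn) (fun _ => WDcomp2_memLp hK hdbc.continuousOn)
      simp
    -- limits of the right hand sides
    have hu3 : TendstoUniformlyOn (fun n z => deriv G (F n z) * φ z)
        (fun z => deriv G (f z) * φ z) atTop K := by
      obtain ⟨M, hM⟩ := hK.exists_bound_of_continuousOn hφc.continuousOn
      rw [Metric.tendstoUniformlyOn_iff] at hu2 ⊢
      intro ε hε
      have hM1 : 0 < max M 0 + 1 := by have := le_max_right M 0; linarith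
      filter_upwards [hu2 (ε / (max M 0 + 1)) (by positivity)] with n hn z hz
      rw [dist_eq_norm, ← sub_mul, norm_mul, ← dist_eq_norm]
      have h1 := hn z hz
      have h2 : ‖φ z‖ < max M 0 + 1 := by
        have := hM z hz
        have := le_max_left M 0
        linarith
      calc dist (deriv G (f z)) (deriv G (F n z)) * ‖φ z‖
          ≤ dist (deriv G (f z)) (deriv G (F n z)) * (max M 0 + 1) := by gcongr
        _ < ε / (max M 0 + 1) * (max M 0 + 1) := by gcongr
        _ = ε := by field_simp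
    have hR1 : Tendsto (fun n => ∫ z in K, (deriv G (F n z) * φ z) * dz (F n) z) atTop
        (𝓝 (∫ z in K, (deriv G (f z) * φ z) * a z)) :=
      WDcomp2_lim hK hu3 ((hc2.mono hKU).mul hφc.continuousOn) hun2 hFa (h.la K hKU hK)
        (fun n => WDcomp2_memLp hK (WDcomp2_cont_dz (hFs n)).1.continuousOn)
    have hR2 : Tendsto (fun n => ∫ z in K, (deriv G (F n z) * φ z) * dzb (F n) z) atTop
        (𝓝 (∫ z in K, (deriv G (f z) * φ z) * b z)) :=
      WDcomp2_lim hK hu3 ((hc2.mono hKU).mul hφc.continuousOn) hun2 hFb (h.lb K hKU hK)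
        (fun n => WDcomp2_memLp hK (WDcomp2_cont_dz (hFs n)).2.continuousOn)
    -- the identities for the approximating functions
    have hid : ∀ᶠ n in atTop,
        (∫ z in K, G (F n z) * dz φ z = - ∫ z in K, (deriv G (F n z) * φ z) * dz (F n) z) ∧
        (∫ z in K, G (F n z) * dzb φ z = - ∫ z in K, (deriv G (F n z) * φ z) * dzb (F n) z) := by
      filter_upwards [hev] with n hn
      have hVo : IsOpen ((F n) ⁻¹' W) := hW.preimage (hFs n).continuous
      have hcd : ContDiffOn ℝ 1 (fun z => G (F n z)) ((F n) ⁻¹' W) := by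
        have h1 : ContDiffOn ℂ 1 G W := hG.contDiffOn hW
        exact (h1.restrict_scalars ℝ).comp ((hFs n).of_le (by simp)).contDiffOn
          (fun z hz => hz)
      have hwd := WD.of_contDiffOn hVo hcd
      have hT : Test ((F n) ⁻¹' W) φ := ⟨hφ.smooth, hφ.cpt, fun z hz => hn hz⟩
      have hcomp : ∀ z ∈ K, dz (fun z => G (F n z)) z = deriv G (F n z) * dz (F n) z ∧
          dzb (fun z => G (F n z)) z = deriv G (F n z) * dzb (F n) z := by
        intro z hz
        have hd : DifferentiableAt ℂ G (F n z) := (hG _ (hn hz)).differentiableAt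
          (hW.mem_nhds (hn hz))
        have h1 := dz_comp (f := G) (g := F n) (z := z) (hd.restrictScalars ℝ)
          ((hFs n).differentiable (by simp) z)
        obtain ⟨h2, h3⟩ := dz_of_holo hd
        rw [h2, h3] at h1
        simpa using h1
      refine ⟨?_, ?_⟩
      · have h1 := hwd.da φ hT
        rw [(hres _).2.1, (hres _).1] at h1
        rw [h1]
        congr 1
        refine setIntegral_congr_fun hK.measurableSet fun z hz => ?_
        rw [(hcomp z hz).1]; ring
      · have h1 := hwd.db φ hT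
        rw [(hres _).2.2, (hres _).1] at h1
        rw [h1]
        congr 1
        refine setIntegral_congr_fun hK.measurableSet fun z hz => ?_
        rw [(hcomp z hz).2]; ring
    refine ⟨?_, ?_⟩
    · rw [(hres _).2.1, (hres _).1]
      have h1 : Tendsto (fun n => ∫ z in K, G (F n z) * dz φ z) atTop
          (𝓝 (- ∫ z in K, (deriv G (f z) * φ z) * a z)) :=
        hR1.neg.congr' (hid.mono fun n hn => hn.1.symm)
      rw [tendsto_nhds_unique hL1 h1]
      congr 1
      refine setIntegral_congr_fun hK.measurableSet fun z hz => ?_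
      ring
    · rw [(hres _).2.2, (hres _).1]
      have h1 : Tendsto (fun n => ∫ z in K, G (F n z) * dzb φ z) atTop
          (𝓝 (- ∫ z in K, (deriv G (f z) * φ z) * b z)) :=
        hR2.neg.congr' (hid.mono fun n hn => hn.2.symm)
      rw [tendsto_nhds_unique hL2 h1]
      congr 1
      refine setIntegral_congr_fun hK.measurableSet fun z hz => ?_
      ring
  exact
    { lif := hc1.locallyIntegrableOn hU.measurableSet
      la := WDcomp2_L2 h.la hc2
      lb := WDcomp2_L2 h.lb hc2
      da := fun φ hφ => (key φ hφ).1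
      db := fun φ hφ => (key φ hφ).2 }

end QC
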