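import Pool.Agent.Work.MP_217185_an.HypB
import Pool.Agent.Work.MP_217185_an.Chain
import Pool.Agent.Work.MP_217185_an.WDcomp

/-! # DFact1: quasiconformal homeomorphisms of the disc

`fact`: `mrmt` gives `w` with `IsW k μ w`, and `factor` (`U = D`, `f = ext F`, continuous on `D`) shows
that `g = ext F ∘ w.symm` is holomorphic on `w '' D`; it is injective with image `D`.
`area`: `ext F = g ∘ w` on `D`, `volume (g '' E') = ∫_{E'} ‖g'‖²`, `Approx.lintegral`, and the weak
derivatives of `ext F` are `a = (g' ∘ w) (1 + T h)`, `b = (g' ∘ w) h` (`WD.holo_comp`, `WD.unique`). -/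

open MeasureTheory Complex Set Metric Filter
open scoped Topology ENNReal NNReal ContDiff ComplexConjugate

namespace QC

variable {k : ℝ} {F : CD ≃ₜ CD} {μ : ℂ → ℂ}

theorem ext_apply (F : CD → CD) (z : CD) : ext F z = F z := by
  unfold ext
  rw [dif_pos z.2]

theorem continuousOn_ext (F : CD ≃ₜ CD) : ContinuousOn (ext F) (closedBall 0 1) := by
  rw [continuousOn_iff_continuous_domRestrict]
  have : (closedBall (0:ℂ) 1).domRestrict (ext F) = fun z : CD => (F z : ℂ) := by
    funext z
    exact ext_apply F z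
  rw [this]
  exact continuous_subtype_val.comp F.continuous

theorem injOn_ext (F : CD ≃ₜ CD) : InjOn (ext F) (closedBall 0 1) := by
  intro x hx y hy hxy
  have h1 := ext_apply F ⟨x, hx⟩
  have h2 := ext_apply F ⟨y, hy⟩
  simp only at h1 h2
  rw [h1, h2] at hxy
  have h3 := F.injective (Subtype.ext hxy)
  exact congrArg Subtype.val h3

theorem IsQC.image_D (h : IsQC k F μ) : ext F '' D = D := by
  ext y
  constructor
  · rintro ⟨x, hx, rfl⟩
    have hx' : ‖x‖ < 1 := mem_ball_zero_iff.mp hx
    have h1 := ext_apply F ⟨x, ball_subset_closedBall hx⟩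
    simp only at h1
    rw [h1]
    exact mem_ball_zero_iff.mpr ((h.pres ⟨x, ball_subset_closedBall hx⟩).mpr hx')
  · intro hy
    have hy' : ‖y‖ < 1 := mem_ball_zero_iff.mp hy
    set Y : CD := ⟨y, ball_subset_closedBall hy⟩ with hY
    set X : CD := F.symm Y with hX
    have hFX : F X = Y := F.apply_symm_apply Y
    have hXn : ‖(X : ℂ)‖ < 1 := by
      rw [← h.pres X, hFX]
      exact hy'
    refine ⟨(X : ℂ), mem_ball_zero_iff.mpr hXn, ?_⟩
    rw [ext_apply F X, hFX]

end QC
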