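import Mathlib

/-! # InjDeriv: an injective holomorphic function has nonvanishing derivative -/

open MeasureTheory Complex Set Metric Filter
open scoped Topology

namespace QC

theorem deriv_ne_zero_of_injOn {U : Set ℂ} (hU : IsOpen U) {g : ℂ → ℂ}
    (hg : DifferentiableOn ℂ g U) (hinj : InjOn g U) {z₀ : ℂ} (hz₀ : z₀ ∈ U) :
    deriv g z₀ ≠ 0 := by
  intro hd
  have hga : AnalyticAt ℂ g z₀ := hg.analyticAt (hU.mem_nhds hz₀)
  set f : ℂ → ℂ := fun z => g z - g z₀ with hf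
  have hfa : AnalyticAt ℂ f z₀ := hga.sub analyticAt_const
  have hf0 : f z₀ = 0 := sub_self _
  have hUn : U ∈ 𝓝 z₀ := hU.mem_nhds hz₀
  have hne : ¬ ∀ᶠ z in 𝓝 z₀, f z = 0 := by
    intro hev
    have h1 : ∀ᶠ z in 𝓝[≠] z₀, f z = 0 ∧ z ∈ U :=
      (hev.and hUn).filter_mono nhdsWithin_le_nhds
    obtain ⟨z, ⟨hz1, hz2⟩, hz3⟩ := (h1.and self_mem_nhdsWithin).exists
    exact hz3 (hinj hz2 hz₀ (sub_eq_zero.mp hz1))
  obtain ⟨n, h, hha, hh0, hfe⟩ := hfa.exists_eventuallyEq_pow_smul_nonzero_iff.mpr hne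
  have hn0 : n ≠ 0 := by
    rintro rfl
    have := hfe.self_of_nhds
    rw [hf0] at this
    simp at this
    exact hh0 this.symm
  have hn1 : n ≠ 1 := by
    rintro rfl
    have h1 : HasDerivAt (fun z => (z - z₀) ^ 1 • h z) (h z₀) z₀ := by
      have h2 : HasDerivAt (fun z => (z - z₀) * h z) (1 * h z₀ + (z₀ - z₀) * deriv h z₀) z₀ :=
        ((hasDerivAt_id z₀).sub_const z₀).mul hha.differentiableAt.hasDerivAt
      simpa using h2
    have h3 : HasDerivAt f (h z₀) z₀ := h1.congr_of_eventuallyEq hfe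
    have h4 : deriv f z₀ = deriv g z₀ := by
      rw [hf]
      exact deriv_sub_const _
    rw [h3.deriv, hd] at h4
    exact hh0 h4
  have hn2 : 2 ≤ n := by omega
  -- an `n`-th root of `h`
  obtain ⟨c, hc⟩ := IsAlgClosed.exists_pow_nat_eq (h z₀) (Nat.pos_of_ne_zero hn0)
  have hc0 : c ≠ 0 := by
    rintro rfl
    rw [zero_pow hn0] at hc
    exact hh0 hc.symm
  set r : ℂ → ℂ := fun z => c * exp (log (h z / h z₀) / n) with hr
  have hdiv : AnalyticAt ℂ (fun z => h z / h z₀) z₀ := hha.div analyticAt_const hh0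
  have hra : AnalyticAt ℂ r z₀ := by
    apply analyticAt_const.mul
    apply AnalyticAt.cexp
    apply AnalyticAt.div _ analyticAt_const (by exact_mod_cast hn0)
    apply hdiv.clog
    rw [div_self hh0]
    exact one_mem_slitPlane
  have hr0 : r z₀ = c := by
    simp [hr, div_self hh0]
  have hrn : ∀ᶠ z in 𝓝 z₀, r z ^ n = h z := by
    have : ∀ᶠ z in 𝓝 z₀, h z ≠ 0 := hha.continuousAt.eventually_ne hh0
    filter_upwards [this] with z hz
    rw [hr]
    simp only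
    rw [mul_pow, hc, ← exp_nat_mul, mul_div_cancel₀ _ (by exact_mod_cast hn0 : (n:ℂ) ≠ 0),
      exp_log (div_ne_zero hz hh0), mul_div_cancel₀ _ hh0]
  set φ : ℂ → ℂ := fun z => (z - z₀) * r z with hφ
  have hφ0 : φ z₀ = 0 := by simp [hφ]
  have hφa : AnalyticAt ℂ φ z₀ := (analyticAt_id.sub analyticAt_const).mul hra
  have hφd : deriv φ z₀ = c := by
    have h2 : HasDerivAt φ (1 * r z₀ + (z₀ - z₀) * deriv r z₀) z₀ :=
      ((hasDerivAt_id z₀).sub_const z₀).mul hra.differentiableAt.hasDerivAt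
    rw [h2.deriv, hr0]
    simp
  have hφs : HasStrictDerivAt φ c z₀ := by
    have := hφa.hasStrictDerivAt
    rwa [hφd] at this
  have hmap : map φ (𝓝 z₀) = 𝓝 (φ z₀) := hφs.map_nhds_eq hc0
  rw [hφ0] at hmap
  have hfφ : ∀ᶠ z in 𝓝 z₀, f z = φ z ^ n := by
    filter_upwards [hfe, hrn] with z h1 h2
    rw [h1, hφ]
    simp only
    rw [mul_pow, h2, smul_eq_mul]
  set S : Set ℂ := {z | z ∈ U ∧ f z = φ z ^ n} with hS
  have hSn : S ∈ 𝓝 z₀ := by
    filter_upwards [hUn, hfφ] with z h1 h2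
    exact ⟨h1, h2⟩
  have himg : φ '' S ∈ 𝓝 (0:ℂ) := by
    rw [← hmap]
    exact image_mem_map hSn
  -- rotation
  set ω : ℂ := exp (2 * Real.pi * I / n) with hω
  have hωp : IsPrimitiveRoot ω n := Complex.isPrimitiveRoot_exp n hn0
  have hω1 : ω ≠ 1 := hωp.ne_one (by omega)
  have hev1 : ∀ᶠ w in 𝓝 (0:ℂ), w ∈ φ '' S := himg
  have hev2 : ∀ᶠ w in 𝓝 (0:ℂ), ω * w ∈ φ '' S := by
    have hcont : Tendsto (fun w : ℂ => ω * w) (𝓝 0) (𝓝 0) := by
      have : Continuous (fun w : ℂ => ω * w) := by fun_prop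
      simpa using this.tendsto 0
    exact hcont himg
  have hev3 : ∀ᶠ w in 𝓝[≠] (0:ℂ), w ∈ φ '' S ∧ ω * w ∈ φ '' S :=
    (hev1.and hev2).filter_mono nhdsWithin_le_nhds
  obtain ⟨w, ⟨⟨z1, hz1, h1⟩, ⟨z2, hz2, h2⟩⟩, hw0⟩ := (hev3.and self_mem_nhdsWithin).exists
  have hw0' : w ≠ 0 := hw0
  have hgz : g z1 = g z2 := by
    have e1 : f z1 = w ^ n := by rw [hz1.2, h1]
    have e2 : f z2 = w ^ n := by rw [hz2.2, h2, mul_pow, hωp.pow_eq_one, one_mul]
    have e3 : f z1 = f z2 := by rw [e1, e2]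
    simpa [hf] using e3
  have hzz : z1 = z2 := hinj hz1.1 hz2.1 hgz
  rw [hzz, h2] at h1
  have : (ω - 1) * w = 0 := by linear_combination h1
  rcases mul_eq_zero.mp this with h | h
  · exact hω1 (sub_eq_zero.mp h)
  · exact hw0' h

end QC
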