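import Pool.Agent.Work.MP_217185_an.HypB
import Pool.Agent.Work.MP_217185_an.Chain
import Pool.Agent.Work.MP_217185_an.WDcomp
import Pool.Agent.Work.MP_217185_an.DFact1
import Pool.Agent.Work.MP_217185_an.InjDeriv

/-! # DFact2: quasiconformal homeomorphisms of the disc

`fact`: `mrmt` gives `w` with `IsW k μ w`, and `factor` (`U = D`, `f = ext F`, continuous on `D`) shows
that `g = ext F ∘ w.symm` is holomorphic on `w '' D`; it is injective with image `D`.
`area`: `ext F = g ∘ w` on `D`, `volume (g '' E') = ∫_{E'} ‖g'‖²`, `Approx.lintegral`, and the weak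
derivatives of `ext F` are `a = (g' ∘ w) (1 + T h)`, `b = (g' ∘ w) h` (`WD.holo_comp`, `WD.unique`). -/

open MeasureTheory Complex Set Metric Filter
open scoped Topology ENNReal NNReal ContDiff ComplexConjugate

namespace QC

variable {k : ℝ} {F : CD ≃ₜ CD} {μ : ℂ → ℂ}

theorem IsQC.fact (h : IsQC k F μ) :
    ∃ w, IsW k μ w ∧ ∃ g : ℂ → ℂ, DifferentiableOn ℂ g (w '' D) ∧ InjOn g (w '' D) ∧
      g '' (w '' D) = D ∧ (∀ z ∈ D, ext F z = g (w z)) ∧
      (∀ z : CD, ‖(z : ℂ)‖ < 1 → deriv g (w z) ≠ 0) := by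
  obtain ⟨w, hw⟩ := mrmt h.bel h.supp
  obtain ⟨c, d, hcd, hd⟩ := h.wd
  have hb : hh μ =ᵐ[volume] fun z => μ z * (1 + Tf (hh μ) z) :=
    Filter.Eventually.of_forall fun z => hh_eq h.bel h.supp z
  have hcont : ContinuousOn (ext F) D := (continuousOn_ext F).mono ball_subset_closedBall
  have hdiff := factor hw.approx hb isOpen_ball hcont hcd hd
  have hg : ∀ z, (fun y => ext F (w.symm y)) (w z) = ext F z := fun z => by simp
  have hinj : InjOn (fun y => ext F (w.symm y)) (w '' D) := by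
    rintro _ ⟨x, hx, rfl⟩ _ ⟨y, hy, rfl⟩ hxy
    rw [hg, hg] at hxy
    rw [injOn_ext F (ball_subset_closedBall hx) (ball_subset_closedBall hy) hxy]
  refine ⟨w, hw, fun y => ext F (w.symm y), hdiff, hinj, ?_, fun z _ => (hg z).symm, ?_⟩
  · rw [image_image]
    simp only [Homeomorph.symm_apply_apply]
    exact h.image_D
  · intro z hz
    exact deriv_ne_zero_of_injOn (w.isOpenMap _ isOpen_ball) hdiff hinj
      (mem_image_of_mem _ (mem_ball_zero_iff.mpr hz))

end QC
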