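import Pool.Agent.Work.MP_217185_an.HypB
import Pool.Agent.Work.MP_217185_an.Chain
import Pool.Agent.Work.MP_217185_an.WDcomp
import Pool.Agent.Work.MP_217185_an.DFact2

/-! # DFact3: quasiconformal homeomorphisms of the disc

`fact`: `mrmt` gives `w` with `IsW k μ w`, and `factor` (`U = D`, `f = ext F`, continuous on `D`) shows
that `g = ext F ∘ w.symm` is holomorphic on `w '' D`; it is injective with image `D`.
`area`: `ext F = g ∘ w` on `D`, `volume (g '' E') = ∫_{E'} ‖g'‖²`, `Approx.lintegral`, and the weak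
derivatives of `ext F` are `a = (g' ∘ w) (1 + T h)`, `b = (g' ∘ w) h` (`WD.holo_comp`, `WD.unique`). -/

open MeasureTheory Complex Set Metric Filter
open scoped Topology ENNReal NNReal ContDiff ComplexConjugate

namespace QC

variable {k : ℝ} {F : CD ≃ₜ CD} {μ : ℂ → ℂ}

private lemma DFact3_core (h : IsQC k F μ) {a b : ℂ → ℂ} (hw : WD D (ext F) a b) :
    (∀ᵐ z ∂(volume.restrict D), b z = μ z * a z) ∧
    (∀ᵐ z ∂(volume.restrict D), a z ≠ 0) ∧
    (∀ E ⊆ D, MeasurableSet E → MeasurableSet (ext F '' E) ∧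
      volume (ext F '' E) = ∫⁻ z in E, ENNReal.ofReal (‖a z‖ ^ 2 - ‖b z‖ ^ 2)) ∧
    (∀ N ⊆ D, volume N = 0 → volume (ext F '' N) = 0) ∧
    ∃ J : ℂ → ℝ≥0∞, Measurable J ∧
      ∀ᵐ z ∂(volume.restrict D), ENNReal.ofReal (‖a z‖ ^ 2 - ‖b z‖ ^ 2) = J z := by
  obtain ⟨w, hW, g, hg, hginj, hgim, hext, hg0⟩ := h.fact
  have hwo : IsOpen (w '' D) := w.isOpenMap _ isOpen_ball
  set α : ℂ → ℂ := fun z => 1 + Tf (hh μ) z with hα
  have hβm : Measurable (hh μ) := hh_measurable h.bel h.supp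
  have hαm : Measurable α := measurable_const.add (measurable_Tf _)
  -- the first statement
  obtain ⟨a', b', hab', hb'⟩ := h.wd
  obtain ⟨hu1, hu2⟩ := WD.unique isOpen_ball hw hab'
  have hfirst : ∀ᵐ z ∂(volume.restrict D), b z = μ z * a z := by
    filter_upwards [hu1, hu2, hb'] with z h1 h2 h3
    rw [h2, h3, h1]
  -- the derivatives from the factorisation
  have hwD : WD D w α (hh μ) := hW.wd.mono isOpen_ball (subset_univ _)
  have hcomp := WD.holo_comp isOpen_ball hwo hwD w.continuous.continuousOn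
    (mapsTo_image _ _) hg
  have hcomp' : WD D (ext F) (fun z => deriv g (w z) * α z) (fun z => deriv g (w z) * hh μ z) := by
    refine hcomp.congr isOpen_ball ?_ (Filter.EventuallyEq.refl _ _) (Filter.EventuallyEq.refl _ _)
    rw [Filter.EventuallyEq, ae_restrict_iff' measurableSet_ball]
    exact Filter.Eventually.of_forall fun z hz => (hext z hz).symm
  obtain ⟨ha, hb⟩ := WD.unique isOpen_ball hw hcomp'
  have hne : ∀ᵐ z ∂(volume.restrict D), a z ≠ 0 := by
    have h1 : ∀ᵐ z ∂(volume.restrict D), α z ≠ 0 := ae_restrict_of_ae hW.approx.ne_zero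
    have h2 : ∀ᵐ z ∂(volume.restrict D), z ∈ D := ae_restrict_mem measurableSet_ball
    filter_upwards [h1, h2, ha] with z h1 h2 h3
    rw [h3]
    exact mul_ne_zero (hg0 ⟨z, ball_subset_closedBall h2⟩ (mem_ball_zero_iff.mp h2)) h1
  -- Jacobian
  have hJac : ∀ᵐ z ∂(volume.restrict D), ENNReal.ofReal (‖a z‖ ^ 2 - ‖b z‖ ^ 2)
      = ENNReal.ofReal (‖deriv g (w z)‖ ^ 2) * ENNReal.ofReal (‖α z‖ ^ 2 - ‖hh μ z‖ ^ 2) := by
    filter_upwards [ha, hb] with z h1 h2
    rw [h1, h2, ← ENNReal.ofReal_mul (by positivity)]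
    congr 1
    rw [norm_mul, norm_mul]
    ring
  have hum : Measurable (fun y => ENNReal.ofReal (‖deriv g y‖ ^ 2)) :=
    ((measurable_deriv g).norm.pow_const 2).ennreal_ofReal
  have himgE : ∀ E ⊆ D, ext F '' E = g '' (w '' E) := by
    intro E hE
    rw [image_image]
    exact image_congr fun z hz => hext z (hE hz)
  have hdet : ∀ y ∈ w '' D, |(fderiv ℝ g y).det| = ‖deriv g y‖ ^ 2 := by
    intro y hy
    have h1 : DifferentiableAt ℂ g y := hg.differentiableAt (hwo.mem_nhds hy)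
    rw [det_fderiv, (dz_of_holo h1).1, (dz_of_holo h1).2, norm_zero]
    have h2 : ‖deriv g y‖ ^ 2 - 0 ^ 2 = ‖deriv g y‖ ^ 2 := by ring
    rw [h2, abs_of_nonneg (by positivity)]
  have hgd : ∀ y ∈ w '' D, HasFDerivAt g (fderiv ℝ g y) y := by
    intro y hy
    have h1 : DifferentiableAt ℂ g y := hg.differentiableAt (hwo.mem_nhds hy)
    exact (h1.restrictScalars ℝ).hasFDerivAt
  refine ⟨hfirst, hne, ?_, ?_, ?_⟩
  · intro E hE hEm
    have hwE : MeasurableSet (w '' E) := (w.measurableEmbedding.measurableSet_image).mpr hEm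
    have hsub : w '' E ⊆ w '' D := image_mono hE
    rw [himgE E hE]
    refine ⟨measurable_image_of_fderivWithin hwE
      (fun y hy => (hgd y (hsub hy)).hasFDerivWithinAt) (hginj.mono hsub), ?_⟩
    rw [← lintegral_abs_det_fderiv_eq_addHaar_image volume hwE
      (fun y hy => (hgd y (hsub hy)).hasFDerivWithinAt) (hginj.mono hsub)]
    rw [setLIntegral_congr_fun hwE (g := fun y => ENNReal.ofReal (‖deriv g y‖ ^ 2))
      (fun y hy => by simp only; rw [hdet y (hsub hy)])]
    rw [hW.approx.lintegral hEm hum]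
    have h3 := ae_restrict_of_ae_restrict_of_subset hE hJac
    exact (lintegral_congr_ae h3).symm
  · intro N hN h0
    rw [himgE N hN]
    apply addHaar_image_eq_zero_of_differentiableOn_of_addHaar_eq_zero
    · intro y hy
      exact (hgd y (image_mono hN hy)).differentiableAt.differentiableWithinAt
    · exact hW.approx.null h0
  · refine ⟨fun z => ENNReal.ofReal (‖deriv g (w z)‖ ^ 2)
      * ENNReal.ofReal (‖α z‖ ^ 2 - ‖hh μ z‖ ^ 2), ?_, hJac⟩
    exact (hum.comp w.continuous.measurable).mul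
      (((hαm.norm.pow_const 2).sub (hβm.norm.pow_const 2)).ennreal_ofReal)

/-- everything about the derivatives of `F`. -/
theorem IsQC.area (h : IsQC k F μ) {a b : ℂ → ℂ} (hw : WD D (ext F) a b) :
    (∀ᵐ z ∂(volume.restrict D), b z = μ z * a z) ∧
    (∀ᵐ z ∂(volume.restrict D), a z ≠ 0) ∧
    (∀ E ⊆ D, MeasurableSet E → MeasurableSet (ext F '' E) ∧
      volume (ext F '' E) = ∫⁻ z in E, ENNReal.ofReal (‖a z‖ ^ 2 - ‖b z‖ ^ 2)) ∧
    (∀ N ⊆ D, volume N = 0 ↔ volume (ext F '' N) = 0) := by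
  obtain ⟨h1, h2, h3, h4, J, hJm, hJ⟩ := DFact3_core h hw
  refine ⟨h1, h2, h3, fun N hN => ⟨h4 N hN, fun h0 => ?_⟩⟩
  set M : Set ℂ := toMeasurable volume (ext F '' N) with hM
  have hMm : MeasurableSet M := measurableSet_toMeasurable _ _
  have hM0 : volume M = 0 := by rw [hM, measure_toMeasurable, h0]
  set E : Set ℂ := Subtype.val '' {x : D | ext F (x : ℂ) ∈ M} with hE
  have hEm : MeasurableSet E := by
    apply MeasurableSet.subtype_image measurableSet_ball
    have hc : Continuous (fun x : D => ext F (x : ℂ)) := by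
      have := (continuousOn_ext F).mono (ball_subset_closedBall (x := (0:ℂ)) (ε := 1))
      exact continuousOn_iff_continuous_domRestrict.mp this
    exact hc.measurable hMm
  have hED : E ⊆ D := by
    rintro _ ⟨x, _, rfl⟩
    exact x.2
  have hNE : N ⊆ E := by
    intro z hz
    exact ⟨⟨z, hN hz⟩, subset_toMeasurable _ _ (mem_image_of_mem _ hz), rfl⟩
  have hEM : ext F '' E ⊆ M := by
    rintro _ ⟨_, ⟨x, hx, rfl⟩, rfl⟩
    exact hx
  have h5 : volume (ext F '' E) = 0 := measure_mono_null hEM hM0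
  rw [(h3 E hED hEm).2] at h5
  have hJE := ae_restrict_of_ae_restrict_of_subset hED hJ
  rw [lintegral_congr_ae hJE, lintegral_eq_zero_iff hJm] at h5
  have h6 : ∀ᵐ z ∂(volume.restrict E), False := by
    have e1 := ae_restrict_of_ae_restrict_of_subset hED h1
    have e2 := ae_restrict_of_ae_restrict_of_subset hED h2
    filter_upwards [hJE, h5, e1, e2] with z g1 g2 g3 g4
    rw [g2] at g1
    have g5 : 0 < ‖a z‖ := norm_pos_iff.mpr g4
    have g6 : ‖b z‖ ≤ k * ‖a z‖ := by
      rw [g3, norm_mul]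
      exact mul_le_mul_of_nonneg_right (h.bel.le z) g5.le
    have hk := h.bel.lt
    have g7 : ‖b z‖ < ‖a z‖ := by nlinarith
    have g8 : 0 < ‖a z‖ ^ 2 - ‖b z‖ ^ 2 := by nlinarith [norm_nonneg (b z)]
    have g9 := ENNReal.ofReal_pos.mpr g8
    rw [g1] at g9
    exact lt_irrefl _ g9
  have h7 : volume E = 0 := by
    rw [ae_iff] at h6
    simpa using h6
  exact measure_mono_null hNE h7

/-- the coefficient is unique a.e. -/
theorem IsQC.coeff_unique {k' : ℝ} {μ' : ℂ → ℂ} (h : IsQC k F μ) (h' : IsQC k' F μ') :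
    μ =ᵐ[volume] μ' := by
  obtain ⟨a, b, hab, _⟩ := h.wd
  obtain ⟨h1, h2, -, -⟩ := h.area hab
  obtain ⟨h1', -, -, -⟩ := h'.area hab
  have h3 : ∀ᵐ z ∂(volume.restrict D), μ z = μ' z := by
    filter_upwards [h1, h2, h1'] with z g1 g2 g3
    rw [g1] at g3
    exact mul_right_cancel₀ g2 g3
  rw [ae_restrict_iff' measurableSet_ball] at h3
  filter_upwards [h3] with z hz
  by_cases hzD : z ∈ D
  · exact hz hzD
  · have hz1 : 1 ≤ ‖z‖ := by
      rw [mem_ball_zero_iff, not_lt] at hzD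
      exact hzD
    rw [h.supp z hz1, h'.supp z hz1]

/-- the coefficient may be changed on a null set. -/
theorem IsQC.congr {k' : ℝ} {μ' : ℂ → ℂ} (h : IsQC k F μ) (hb : Bel k' μ') (hs : SuppIn 1 μ')
    (he : μ =ᵐ[volume] μ') : IsQC k' F μ' := by
  obtain ⟨a, b, hab, hm⟩ := h.wd
  refine ⟨h.pres, hb, hs, a, b, hab, ?_⟩
  filter_upwards [hm, ae_restrict_of_ae he] with z g1 g2
  rw [g1, g2]

end QC
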