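import Mathlib

/-! # Basic definitions (analysis in the plane)

Everything is elementary real analysis in the plane `ℂ` with Lebesgue measure.
-/

open MeasureTheory Complex Set Metric Filter
open scoped Topology ENNReal NNReal ContDiff

noncomputable section

namespace QC

/-- the open unit disc -/
abbrev D : Set ℂ := ball (0 : ℂ) 1

/-- Wirtinger derivative `∂f`. -/
def dz (f : ℂ → ℂ) (z : ℂ) : ℂ := (fderiv ℝ f z 1 - I * fderiv ℝ f z I) / 2

/-- Wirtinger derivative `∂̄f`. -/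
def dzb (f : ℂ → ℂ) (z : ℂ) : ℂ := (fderiv ℝ f z 1 + I * fderiv ℝ f z I) / 2

/-- smooth test functions with compact support in `U`. -/
structure Test (U : Set ℂ) (φ : ℂ → ℂ) : Prop where
  smooth : ContDiff ℝ ∞ φ
  cpt : HasCompactSupport φ
  sub : tsupport φ ⊆ U

/-- locally square integrable on `U`. -/
def L2loc (U : Set ℂ) (a : ℂ → ℂ) : Prop :=
  ∀ K ⊆ U, IsCompact K → MemLp a 2 (volume.restrict K)

/-- `f` has the weak derivatives `∂f = a`, `∂̄f = b` in `U`, and they are locally square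
integrable. -/
structure WD (U : Set ℂ) (f a b : ℂ → ℂ) : Prop where
  lif : LocallyIntegrableOn f U
  la : L2loc U a
  lb : L2loc U b
  da : ∀ φ, Test U φ → ∫ z, f z * dz φ z = - ∫ z, a z * φ z
  db : ∀ φ, Test U φ → ∫ z, f z * dzb φ z = - ∫ z, b z * φ z

/-- the Cauchy transform. -/
def Cau (h : ℂ → ℂ) (z : ℂ) : ℂ := (1 / (Real.pi : ℂ)) * ∫ ζ, h ζ / (z - ζ)

/-- `μ` is measurable and bounded by `k < 1`. -/
structure Bel (k : ℝ) (μ : ℂ → ℂ) : Prop where
  meas : Measurable μ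
  le : ∀ z, ‖μ z‖ ≤ k
  lt : k < 1

/-- `μ` vanishes outside the open ball of radius `R`. -/
def SuppIn (R : ℝ) (μ : ℂ → ℂ) : Prop := ∀ z, R ≤ ‖z‖ → μ z = 0

/-- The homeomorphism `w` of the plane is the limit of diffeomorphisms with uniformly bounded
dilatation, and its weak derivatives are `a`, `b`. -/
structure Approx (k : ℝ) (w : ℂ ≃ₜ ℂ) (a b : ℂ → ℂ) : Prop where
  lt : k < 1
  meas_a : Measurable a
  meas_b : Measurable b
  ex : ∃ wn : ℕ → ℂ ≃ₜ ℂ,
    (∀ n, ContDiff ℝ ∞ (wn n)) ∧ (∀ n, ContDiff ℝ ∞ (wn n).symm) ∧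
    (∀ n z, ‖dzb (wn n) z‖ ≤ k * ‖dz (wn n) z‖) ∧ (∀ n z, dz (wn n) z ≠ 0) ∧
    TendstoLocallyUniformly (fun n z => wn n z) w atTop ∧
    TendstoLocallyUniformly (fun n z => (wn n).symm z) w.symm atTop ∧
    (∀ K, IsCompact K → Tendsto (fun n => eLpNorm (fun z => dz (wn n) z - a z) 2
      (volume.restrict K)) atTop (𝓝 0)) ∧
    (∀ K, IsCompact K → Tendsto (fun n => eLpNorm (fun z => dzb (wn n) z - b z) 2
      (volume.restrict K)) atTop (𝓝 0))

end QC

end
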