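import Pool.Agent.Work.MP_217185_an.DComp
import Pool.Agent.Work.MP_217185_an.CL

/-! # DistA: interior distortion of quasiconformal maps of the disc

(1) Let `IsQC k F μ`, `F = g ∘ w` (`IsQC.fact`), `w n → w` the diffeomorphisms of `Approx`.  On
`closedBall 0 (1/2)` and `n` large `f n = g ∘ w n` is defined, injective, smooth near that ball, with
`‖dzb (f n)‖ ≤ k ‖dz (f n)‖`, image in `D`, so its Dirichlet integral over the ball is
`≤ K π` (`dirichlet_le`), and `courant_lebesgue` gives in the limit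
`‖F z - F 0‖² ≤ 2π K π / log (1/(2 r))` for `‖z‖ ≤ r < 1/2`.  So there is `s > 0` depending only on
`k` with `‖F z - F 0‖ ≤ 1/2` for `‖z‖ ≤ s`.
(2) If `F 0 = 0`, a point `z` with `‖z‖ ≤ r < 1` is joined to `0` by a chain
`0 = z_0, ..., z_N = z` on the segment with `‖A_{z_j}⁻¹ z_{j+1}‖ ≤ s`, `N` depending only on `r`, `s`;
apply (1) to the maps `σ_j ∘ F ∘ A_{z_j}` which fix `0` (`IsQC.mob_comp`, `IsQC.comp_mob`):
the hyperbolic distance of `F z_j`, `F z_{j+1}` is at most that of `0`, `1/2`.  Hence `‖F z‖ ≤ r'`. -/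

open MeasureTheory Complex Set Metric Filter
open scoped Topology ENNReal NNReal ContDiff ComplexConjugate

namespace QC

/-- the estimate for one map -/
private theorem distA_one {k : ℝ} (hk0 : 0 ≤ k) (hk : k < 1) {F : CD ≃ₜ CD} {μ : ℂ → ℂ}
    (hF : IsQC k F μ) {r : ℝ} (hr : 0 < r) (hr2 : r < 1 / 2) {z : ℂ} (hz : ‖z‖ ≤ r) :
    dist (ext F z) (ext F 0) ^ 2 ≤ 2 * Real.pi *
      ((1 + k) / (1 - k) * (volume D : ℝ≥0∞).toReal) / Real.log ((1 / 2) / r) := by
  obtain ⟨w, hw, g, hgd, hgi, hgD, hgw, hg'⟩ := hF.fact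
  obtain ⟨wn, hw1, hw2, hkn, hne, hlu, hlus, -, -⟩ := hw.approx.ex
  have hD : IsOpen (w '' D) := w.isOpenMap D isOpen_ball
  -- large n
  have hKc : IsCompact (closedBall (0 : ℂ) (3 / 4)) := isCompact_closedBall _ _
  have hKD : closedBall (0 : ℂ) (3 / 4) ⊆ D := closedBall_subset_ball (by norm_num)
  have hwK : IsCompact (w '' closedBall (0 : ℂ) (3 / 4)) := hKc.image w.continuous
  have hev : ∀ᶠ n in atTop, ∀ z ∈ closedBall (0 : ℂ) (3 / 4), wn n z ∈ w '' D := by
    have h1 : TendstoUniformlyOn (fun n z => wn n z) w atTop (closedBall (0 : ℂ) (3 / 4)) :=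
      (tendstoLocallyUniformlyOn_iff_tendstoUniformlyOn_of_compact hKc).1
        hlu.tendstoLocallyUniformlyOn
    obtain ⟨ε, hε, hεU⟩ := hwK.exists_thickening_subset_open hD (image_mono hKD)
    have h2 := Metric.tendstoUniformlyOn_iff.1 h1 ε hε
    filter_upwards [h2] with n hn z hz
    apply hεU
    rw [mem_thickening_iff]
    exact ⟨w z, mem_image_of_mem _ hz, by rw [dist_comm]; exact hn z hz⟩
  -- the bound for the approximations
  have hbound : ∀ᶠ n in atTop, dist (g (wn n z)) (g (wn n 0)) ^ 2 ≤ 2 * Real.pi *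
      ((1 + k) / (1 - k) * (volume D : ℝ≥0∞).toReal) / Real.log ((1 / 2) / r) := by
    filter_upwards [hev] with n hn
    set V : Set ℂ := ball (0 : ℂ) (3 / 4) with hV
    have hVo : IsOpen V := isOpen_ball
    have hVn : MapsTo (wn n) V (w '' D) := fun x hx => hn x (ball_subset_closedBall hx)
    have hwd : Differentiable ℝ (wn n) := (hw1 n).differentiable (by simp)
    have hgdiff : ∀ x ∈ V, DifferentiableAt ℂ g (wn n x) := fun x hx =>
      hgd.differentiableAt (hD.mem_nhds (hVn hx))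
    have hf : ContDiffOn ℝ 1 (fun x => g (wn n x)) V := by
      have h1 : ContDiffOn ℂ 1 g (w '' D) := hgd.contDiffOn hD
      have h2 : ContDiffOn ℝ 1 g (w '' D) := h1.restrict_scalars ℝ
      exact h2.comp ((hw1 n).of_le (by norm_cast)).contDiffOn hVn
    have hfinj : InjOn (fun x => g (wn n x)) V := by
      intro x hx y hy hxy
      exact (wn n).injective (hgi (hVn hx) (hVn hy) hxy)
    have hdz : ∀ x ∈ V, dz (fun x => g (wn n x)) x = deriv g (wn n x) * dz (wn n) x ∧
        dzb (fun x => g (wn n x)) x = deriv g (wn n x) * dzb (wn n) x := by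
      intro x hx
      have h1 := dz_comp (f := g) (g := wn n) (z := x) ((hgdiff x hx).restrictScalars ℝ) (hwd x)
      have h2 := dz_of_holo (hgdiff x hx)
      rw [h2.1, h2.2] at h1
      simpa using h1
    have hd : ∀ x ∈ V, ‖dzb (fun x => g (wn n x)) x‖ ≤ k * ‖dz (fun x => g (wn n x)) x‖ := by
      intro x hx
      rw [(hdz x hx).1, (hdz x hx).2, norm_mul, norm_mul]
      calc ‖deriv g (wn n x)‖ * ‖dzb (wn n) x‖ ≤ ‖deriv g (wn n x)‖ * (k * ‖dz (wn n) x‖) :=
            mul_le_mul_of_nonneg_left (hkn n x) (norm_nonneg _)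
        _ = k * (‖deriv g (wn n x)‖ * ‖dz (wn n) x‖) := by ring
    have hJ : ∀ x ∈ V, (fderiv ℝ (fun x => g (wn n x)) x).det ≠ 0 := by
      intro x hx
      have h1 := hd x hx
      have h3 : deriv g (wn n x) ≠ 0 := by
        obtain ⟨y, hy, hyx⟩ := hVn hx
        have hy' : ‖y‖ < 1 := by simpa using hy
        have h4 := hg' ⟨y, by rw [mem_closedBall_zero_iff]; exact hy'.le⟩ hy'
        rw [← hyx]
        exact h4
      have h2 : 0 < ‖dz (fun x => g (wn n x)) x‖ := by
        rw [(hdz x hx).1]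
        exact norm_pos_iff.2 (mul_ne_zero h3 (hne n x))
      rw [det_fderiv]
      have h5 : ‖dzb (fun x => g (wn n x)) x‖ < ‖dz (fun x => g (wn n x)) x‖ :=
        lt_of_le_of_lt h1 (by nlinarith)
      have h6 := norm_nonneg (dzb (fun x => g (wn n x)) x)
      nlinarith
    have hsub : closedBall (0 : ℂ) (1 / 2) ⊆ V := closedBall_subset_ball (by norm_num)
    have hvol : volume ((fun x => g (wn n x)) '' ball (0 : ℂ) (1 / 2)) ≤
        ENNReal.ofReal (volume D : ℝ≥0∞).toReal := by
      rw [ENNReal.ofReal_toReal (measure_ball_lt_top).ne]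
      refine measure_mono ?_
      rintro _ ⟨x, hx, rfl⟩
      have h7 : g (wn n x) ∈ g '' (w '' D) :=
        mem_image_of_mem g (hVn (hsub (ball_subset_closedBall hx)))
      rw [hgD] at h7
      exact h7
    have hdir := dirichlet_le hVo hf hfinj hk0 hk hd (measurableSet_ball (x := (0 : ℂ)) (ε := 1 / 2))
      (ball_subset_closedBall.trans hsub) ENNReal.toReal_nonneg hvol
    have hM0 : 0 ≤ (1 + k) / (1 - k) * (volume D : ℝ≥0∞).toReal := by
      have : 0 < 1 - k := by linarith
      positivity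
    have hM : ∫ x in ball (0 : ℂ) (1 / 2), ‖fderiv ℝ (fun x => g (wn n x)) x‖ ^ 2 ≤
        (1 + k) / (1 - k) * (volume D : ℝ≥0∞).toReal := by
      rw [integral_eq_lintegral_of_nonneg_ae (Eventually.of_forall fun x => by positivity)]
      · exact ENNReal.toReal_le_of_le_ofReal hM0 hdir
      · have h1 : ContinuousOn (fderiv ℝ (fun x => g (wn n x))) V :=
          hf.continuousOn_fderiv_of_isOpen hVo le_rfl
        exact ((h1.norm.pow 2).mono (ball_subset_closedBall.trans hsub)).aestronglyMeasurable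
          measurableSet_ball
    exact courant_lebesgue hVo hf hJ hr hr2 hsub hM (by rwa [mem_closedBall_zero_iff])
      (by rw [mem_closedBall_zero_iff, norm_zero]; exact hr.le)
  -- the limit
  have hlim : ∀ x : ℂ, ‖x‖ < 1 → Tendsto (fun n => g (wn n x)) atTop (𝓝 (ext F x)) := by
    intro x hx
    have hxD : x ∈ D := by simpa using hx
    rw [hgw x hxD]
    have h1 : ContinuousAt g (w x) :=
      (hgd.differentiableAt (hD.mem_nhds (mem_image_of_mem _ hxD))).continuousAt
    exact h1.tendsto.comp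
      ((hlu.tendstoLocallyUniformlyOn (s := univ)).tendsto_at (mem_univ x))
  have h1 := ((hlim z (by linarith)).dist (hlim 0 (by simp))).pow 2
  exact le_of_tendsto h1 hbound

/-- equicontinuity at the centre. -/
theorem distort_small {k : ℝ} (hk0 : 0 ≤ k) (hk : k < 1) : ∀ η : ℝ, 0 < η → ∃ s : ℝ, 0 < s ∧
    ∀ (F : CD ≃ₜ CD) (μ : ℂ → ℂ), IsQC k F μ → ext F 0 = 0 → ∀ z, ‖z‖ ≤ s → ‖ext F z‖ ≤ η := by
  intro η hη
  set M : ℝ := 2 * Real.pi * ((1 + k) / (1 - k) * (volume D : ℝ≥0∞).toReal) with hM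
  have hM0 : 0 ≤ M := by
    have : 0 < 1 - k := by linarith
    have := Real.pi_pos
    positivity
  set L : ℝ := M / η ^ 2 + 1 with hL
  have hL0 : 0 < L := by positivity
  refine ⟨Real.exp (-L) / 2, by positivity, fun F μ hF hF0 z hz => ?_⟩
  have hexp : Real.exp (-L) < 1 := by
    rw [Real.exp_lt_one_iff]
    linarith
  have h1 := distA_one hk0 hk hF (r := Real.exp (-L) / 2) (by positivity) (by linarith) hz
  have h2 : Real.log ((1 / 2) / (Real.exp (-L) / 2)) = L := by
    have h3 : (1 / 2 : ℝ) / (Real.exp (-L) / 2) = Real.exp L := by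
      rw [Real.exp_neg]
      have := Real.exp_pos L
      field_simp
    rw [h3, Real.log_exp]
  rw [h2, ← hM, hF0, dist_zero_right] at h1
  have h3 : M / L ≤ η ^ 2 := by
    rw [div_le_iff₀ hL0, hL]
    have : η ^ 2 * (M / η ^ 2 + 1) = M + η ^ 2 := by field_simp
    rw [this]
    nlinarith
  exact (abs_le_of_sq_le_sq' (h1.trans h3) hη.le).2

end QC
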