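import Pool.Agent.Work.MP_217185_an.DComp
import Pool.Agent.Work.MP_217185_an.CL
import Pool.Agent.Work.MP_217185_an.DistA

/-! # DistB: interior distortion of quasiconformal maps of the disc

(1) Let `IsQC k F μ`, `F = g ∘ w` (`IsQC.fact`), `w n → w` the diffeomorphisms of `Approx`.  On
`closedBall 0 (1/2)` and `n` large `f n = g ∘ w n` is defined, injective, smooth near that ball, with
`‖dzb (f n)‖ ≤ k ‖dz (f n)‖`, image in `D`, so its Dirichlet integral over the ball is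
`≤ K π` (`dirichlet_le`), and `courant_lebesgue` gives in the limit
`‖F z - F 0‖² ≤ 2π K π / log (1/(2 r))` for `‖z‖ ≤ r < 1/2`.  So there is `s > 0` depending only on
`k` with `‖F z - F 0‖ ≤ 1/2` for `‖z‖ ≤ s`.
(2) If `F 0 = 0`, a point `z` with `‖z‖ ≤ r < 1` is joined to `0` by a chain
`0 = z_0, ..., z_N = z` on the segment with `‖A_{z_j}⁻¹ z_{j+1}‖ ≤ s`, `N` depending only on `r`, `s`;
apply (1) to the maps `σ_j ∘ F ∘ A_{z_j}` which fix `0` (`IsQC.mob_comp`, `IsQC.comp_mob`):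
the hyperbolic distance of `F z_j`, `F z_{j+1}` is at most that of `0`, `1/2`.  Hence `‖F z‖ ≤ r'`. -/

open MeasureTheory Complex Set Metric Filter
open scoped Topology ENNReal NNReal ContDiff ComplexConjugate

namespace QC

private theorem distB_symm {p : ℂ} (hp : ‖p‖ < 1) {A : CD ≃ₜ CD}
    (hA : ∀ z : CD, (A z : ℂ) = mob 1 p z) (x : CD) :
    ‖((A.symm x : CD) : ℂ)‖ * ‖1 - conj p * x‖ = ‖(x : ℂ) - p‖ ∧ 0 < ‖1 - conj p * (x : ℂ)‖ := by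
  have hx : ‖(x : ℂ)‖ ≤ 1 := mem_closedBall_zero_iff.1 x.2
  have hu : ‖((A.symm x : CD) : ℂ)‖ ≤ 1 := mem_closedBall_zero_iff.1 (A.symm x).2
  have h := (mob_inv (a := 1) (b := p) (by simpa using hp) hu).1
  rw [← hA, A.apply_symm_apply] at h
  have hne : (1 : ℂ) - conj p * x ≠ 0 := by
    intro h0
    have h1 : (1 : ℂ) = conj p * x := by linear_combination h0
    have h2 : ‖(1 : ℂ)‖ = ‖p‖ * ‖(x : ℂ)‖ := by
      rw [h1, norm_mul, Complex.norm_conj]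
    rw [norm_one] at h2
    nlinarith [norm_nonneg p, norm_nonneg (x : ℂ)]
  refine ⟨?_, norm_pos_iff.2 hne⟩
  rw [← h, ← norm_mul]
  congr 1
  unfold mob
  simp only [map_one, map_neg]
  have e : (-conj p * (x : ℂ) + 1) = 1 - conj p * x := by ring
  rw [e, div_mul_cancel₀ _ hne]
  ring

private theorem distB_step {k s : ℝ}
    (hds : ∀ (F : CD ≃ₜ CD) (μ : ℂ → ℂ), IsQC k F μ → ext F 0 = 0 → ∀ z, ‖z‖ ≤ s →
      ‖ext F z‖ ≤ 1 / 2) {F : CD ≃ₜ CD} {μ : ℂ → ℂ} (hF : IsQC k F μ) (x x' : CD)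
    (hx : ‖(x : ℂ)‖ < 1) (h : ‖(x' : ℂ) - x‖ ≤ s * ‖1 - conj (x : ℂ) * x'‖) :
    3 / 16 * (1 - ‖((F x : CD) : ℂ)‖ ^ 2) ≤ 1 - ‖((F x' : CD) : ℂ)‖ ^ 2 := by
  have hy : ‖((F x : CD) : ℂ)‖ < 1 := (hF.pres x).2 hx
  obtain ⟨Ay, hAy, hAy1, hAy0⟩ := exists_mob_zero hy
  obtain ⟨Ax, hAx, hAx1, hAx0⟩ := exists_mob_zero hx
  have hG1 : IsQC k (F * Ax) (pull 1 (x : ℂ) μ) := hF.comp_mob (by simpa using hx) hAx1
  have hG := hG1.mob_comp hAy.inv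
  set Gh : CD ≃ₜ CD := Ay⁻¹ * (F * Ax) with hGh
  have hval : ∀ x : CD, Gh x = Ay.symm (F (Ax x)) := fun x => rfl
  have hG0 : ext Gh 0 = 0 := by
    have h1 : ext Gh 0 = (Gh ⟨0, by simp⟩ : CD) :=
      ext_apply Gh ⟨0, by simp⟩
    rw [h1, hval]
    have h2 : Ay ⟨0, by simp⟩ = F x := Subtype.ext hAy0
    have h3 : Ax ⟨0, by simp⟩ = x := Subtype.ext hAx0
    rw [h3, ← h2, Ay.symm_apply_apply]
  -- the points
  obtain ⟨hv, hv0⟩ := distB_symm hx hAx1 x'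
  have hvs : ‖((Ax.symm x' : CD) : ℂ)‖ ≤ s := by
    rw [← hv] at h
    exact le_of_mul_le_mul_right h hv0
  have hu := hds _ _ hG hG0 _ hvs
  have hGu : ext Gh ((Ax.symm x' : CD) : ℂ) = ((Ay.symm (F x') : CD) : ℂ) := by
    rw [ext_apply, hval, Ax.apply_symm_apply]
  rw [hGu] at hu
  set u : CD := Ay.symm (F x') with hudef
  have hu1 : ‖(u : ℂ)‖ ≤ 1 := mem_closedBall_zero_iff.1 u.2
  have e1 : ((F x' : CD) : ℂ) = mob 1 (F x : ℂ) u := by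
    rw [← hAy1, hudef, Ay.apply_symm_apply]
  have e2 := one_sub_norm_mob (a := 1) (b := (F x : ℂ)) (by simpa using hy) hu1
  rw [e1, e2]
  simp only [map_one, norm_one, one_pow]
  have hd0 : 0 < ‖conj ((F x : CD) : ℂ) * (u : ℂ) + 1‖ := by
    have h3 := norm_sub_norm_le (1 : ℂ) (-(conj ((F x : CD) : ℂ) * (u : ℂ)))
    rw [norm_one, norm_neg, norm_mul, Complex.norm_conj, sub_neg_eq_add, add_comm (1 : ℂ)] at h3
    nlinarith [norm_nonneg ((F x : CD) : ℂ), norm_nonneg (u : ℂ)]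
  have hd2 : ‖conj ((F x : CD) : ℂ) * (u : ℂ) + 1‖ ≤ 2 := by
    refine (norm_add_le _ _).trans ?_
    rw [norm_one, norm_mul, Complex.norm_conj]
    nlinarith [norm_nonneg ((F x : CD) : ℂ), norm_nonneg (u : ℂ)]
  rw [le_div_iff₀ (by positivity)]
  have h5 : ‖conj ((F x : CD) : ℂ) * (u : ℂ) + 1‖ ^ 2 ≤ 4 := by nlinarith
  have h6 : ‖(u : ℂ)‖ ^ 2 ≤ 1 / 4 := by nlinarith [norm_nonneg (u : ℂ)]
  have h7 : 0 ≤ 1 - ‖((F x : CD) : ℂ)‖ ^ 2 := by nlinarith [norm_nonneg ((F x : CD) : ℂ)]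
  calc 3 / 16 * (1 - ‖((F x : CD) : ℂ)‖ ^ 2) * ‖conj ((F x : CD) : ℂ) * (u : ℂ) + 1‖ ^ 2
      ≤ 3 / 16 * (1 - ‖((F x : CD) : ℂ)‖ ^ 2) * 4 :=
        mul_le_mul_of_nonneg_left h5 (by positivity)
    _ = (1 - ‖((F x : CD) : ℂ)‖ ^ 2) * (3 / 4) := by ring
    _ ≤ (1 - ‖((F x : CD) : ℂ)‖ ^ 2) * (1 - ‖(u : ℂ)‖ ^ 2) :=
        mul_le_mul_of_nonneg_left (by linarith) h7

theorem distort {k : ℝ} (hk0 : 0 ≤ k) (hk : k < 1) : ∀ r : ℝ, 0 ≤ r → r < 1 → ∃ r' : ℝ, r' < 1 ∧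
    ∀ (F : CD ≃ₜ CD) (μ : ℂ → ℂ), IsQC k F μ → ext F 0 = 0 → ∀ z, ‖z‖ ≤ r → ‖ext F z‖ ≤ r' := by
  intro r hr0 hr1
  obtain ⟨s, hs, hds⟩ := distort_small hk0 hk (1 / 2) (by norm_num)
  obtain ⟨N, hN⟩ := exists_nat_ge (1 / (s * (1 - r)))
  have h1r : 0 < 1 - r := by linarith
  have hsr : 0 < s * (1 - r) := mul_pos hs h1r
  have hNpos : (0 : ℝ) < N := lt_of_lt_of_le (by positivity) hN
  have hNs : 1 / (N : ℝ) ≤ s * (1 - r) := by
    rw [div_le_iff₀ hsr] at hN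
    rw [div_le_iff₀ hNpos]
    linarith
  have hq : (0 : ℝ) < (3 / 16) ^ N := by positivity
  have hq1 : (3 / 16 : ℝ) ^ N ≤ 1 := pow_le_one₀ (by norm_num) (by norm_num)
  refine ⟨Real.sqrt (1 - (3 / 16) ^ N), ?_, fun F μ hF hF0 z hz => ?_⟩
  · rw [Real.sqrt_lt' one_pos]
    linarith
  have hcoef : ∀ j : ℕ, j ≤ N → (j : ℝ) / N ≤ 1 := by
    intro j hj
    rw [div_le_one hNpos]
    exact_mod_cast hj
  have hnorm : ∀ j : ℕ, j ≤ N → ‖((j / N : ℝ) : ℂ) * z‖ ≤ r := by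
    intro j hj
    rw [norm_mul, Complex.norm_real, Real.norm_of_nonneg (by positivity)]
    calc (j : ℝ) / N * ‖z‖ ≤ 1 * ‖z‖ := mul_le_mul_of_nonneg_right (hcoef j hj) (norm_nonneg _)
      _ ≤ r := by linarith
  have hmem : ∀ j : ℕ, j ≤ N → ((j / N : ℝ) : ℂ) * z ∈ closedBall (0 : ℂ) 1 := by
    intro j hj
    rw [mem_closedBall_zero_iff]
    exact (hnorm j hj).trans hr1.le
  have hind : ∀ j : ℕ, ∀ hj : j ≤ N,
      (3 / 16 : ℝ) ^ j ≤ 1 - ‖((F ⟨((j / N : ℝ) : ℂ) * z, hmem j hj⟩ : CD) : ℂ)‖ ^ 2 := by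
    intro j
    induction j with
    | zero =>
      intro hj
      have h1 : ext F 0 = ((F ⟨(((0 : ℕ) / N : ℝ) : ℂ) * z, hmem 0 hj⟩ : CD) : ℂ) := by
        rw [← ext_apply F]
        simp
      rw [← h1, hF0]
      simp
    | succ j ih =>
      intro hj
      have hj' : j ≤ N := by omega
      have h1 := ih hj'
      set x : CD := ⟨((j / N : ℝ) : ℂ) * z, hmem j hj'⟩ with hx
      set x' : CD := ⟨(((j + 1 : ℕ) / N : ℝ) : ℂ) * z, hmem (j + 1) hj⟩ with hx'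
      have hxr : ‖(x : ℂ)‖ ≤ r := hnorm j hj'
      have hx'r : ‖(x' : ℂ)‖ ≤ r := hnorm (j + 1) hj
      have h2 : ‖(x' : ℂ) - x‖ ≤ s * ‖1 - conj (x : ℂ) * x'‖ := by
        have h3 : (x' : ℂ) - x = ((1 / N : ℝ) : ℂ) * z := by
          show (((j + 1 : ℕ) / N : ℝ) : ℂ) * z - ((j / N : ℝ) : ℂ) * z = ((1 / N : ℝ) : ℂ) * z
          push_cast
          ring
        have h4 : ‖(x' : ℂ) - x‖ ≤ s * (1 - r) := by
          rw [h3, norm_mul, Complex.norm_real, Real.norm_of_nonneg (by positivity)]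
          calc 1 / (N : ℝ) * ‖z‖ ≤ 1 / (N : ℝ) * 1 :=
                mul_le_mul_of_nonneg_left (hz.trans hr1.le) (by positivity)
            _ ≤ s * (1 - r) := by linarith
        refine h4.trans (mul_le_mul_of_nonneg_left ?_ hs.le)
        have h5 := norm_sub_norm_le (1 : ℂ) (conj (x : ℂ) * (x' : ℂ))
        rw [norm_one, norm_mul, Complex.norm_conj] at h5
        have h6 : ‖(x : ℂ)‖ * ‖(x' : ℂ)‖ ≤ r * 1 :=
          mul_le_mul hxr (hx'r.trans hr1.le) (norm_nonneg _) hr0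
        linarith
      have h3 := distB_step hds hF x x' (lt_of_le_of_lt hxr hr1) h2
      have h4 : (3 / 16 : ℝ) ^ (j + 1) = 3 / 16 * (3 / 16) ^ j := by rw [pow_succ]; ring
      rw [h4]
      linarith
  have hfin := hind N le_rfl
  have h1 : ((F ⟨((N / N : ℝ) : ℂ) * z, hmem N le_rfl⟩ : CD) : ℂ) = ext F z := by
    rw [← ext_apply F]
    have h2 : (((N : ℝ) / N : ℝ) : ℂ) * z = z := by
      rw [div_self hNpos.ne']
      simp
    congr 1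
  rw [h1] at hfin
  refine Real.le_sqrt_of_sq_le ?_
  linarith

end QC
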