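import Pool.Agent.Work.MP_217185_an.PushM
import Pool.Agent.Work.MP_217185_an.DExist2

/-! # EqvInv: equivariance of `F` is invariance of its coefficient

`F ∘ γ` has coefficient `pull a b μ` (`IsQC.comp_mob`), `σ ∘ F` has coefficient `μ`
(`IsQC.mob_comp`).  `aeInv`: `F γ = σ F`, `IsQC.coeff_unique`.  Conversely `IsQC.uniq_ae` applied to
`F` and `F ∘ γ`. -/

open MeasureTheory Complex Set Metric Filter
open scoped Topology ENNReal NNReal ContDiff ComplexConjugate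

namespace QC

variable {S : Bord} {k : ℝ} {F : CD ≃ₜ CD} {μ : ℂ → ℂ}

theorem IsQC.aeInv (h : IsQC k F μ) (he : ∀ γ ∈ S.Γ, IsMob (F * γ * F⁻¹)) : AEInv S μ := by
  intro γ hγ a b hab hγe
  have h1 : IsQC k (F * γ) (pull a b μ) := h.comp_mob hab hγe
  have h2 : IsQC k ((F * γ * F⁻¹) * F) μ := h.mob_comp (he γ hγ)
  have h3 : (F * γ * F⁻¹) * F = F * γ := by group
  rw [h3] at h2
  exact ae_restrict_of_ae (h1.coeff_unique h2)

theorem IsQC.isQCS (h : IsQC k F μ) (hi : AEInv S μ) : IsQCS S F := by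
  refine ⟨⟨k, μ, h⟩, fun γ hγ => ?_⟩
  obtain ⟨a, b, hab, hγe⟩ := S.mob γ hγ
  have h1 : IsQC k (F * γ) (pull a b μ) := h.comp_mob hab hγe
  refine h.uniq_ae h1 ?_
  have h2 := (ae_restrict_iff' (measurableSet_ball)).1 (hi γ hγ a b hab hγe)
  filter_upwards [h2] with z hz
  by_cases hzD : z ∈ ball (0 : ℂ) 1
  · exact (hz hzD).symm
  · have hz1 : 1 ≤ ‖z‖ := by
      rw [mem_ball_zero_iff, not_lt] at hzD; exact hzD
    rw [h.supp z hz1, h1.supp z hz1]

/-- existence of the quasiconformal map of `S` with a given invariant coefficient. -/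
theorem exists_tgt_of_coeff (hμ : Bel k μ) (hs : SuppIn 1 μ) (hi : AEInv S μ) :
    ∃ F S', IsQC k F μ ∧ Tgt S F S' := by
  obtain ⟨F, hF⟩ := exists_qc hμ hs
  obtain ⟨S', hS'⟩ := exists_tgt (hF.isQCS hi)
  exact ⟨F, S', hF, hS'⟩

end QC
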