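import Mathlib

/-! # ManDefs: complex Hilbert manifolds -/

open Set Metric Filter
open scoped Topology

noncomputable section

namespace QC

/-- A complex Hilbert manifold structure on the set `X`: a Hausdorff topology and an atlas of charts
with values in complex Hilbert spaces, with holomorphic (complex differentiable) transition maps. -/
structure CHM (X : Type) where
  top : TopologicalSpace X
  t2 : @T2Space X top
  ι : Type
  E : ι → Type
  [nacg : ∀ i, NormedAddCommGroup (E i)]
  [ips : ∀ i, InnerProductSpace ℂ (E i)]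
  [cs : ∀ i, CompleteSpace (E i)]
  chart : ∀ i, OpenPartialHomeomorph X (E i)
  cover : ∀ x, ∃ i, x ∈ (chart i).source
  holo : ∀ i j, DifferentiableOn ℂ (chart j ∘ (chart i).symm)
    ((chart i).target ∩ (chart i).symm ⁻¹' (chart j).source)

attribute [instance] CHM.nacg CHM.ips CHM.cs

/-- the manifold structure of a Hilbert space. -/
def CHM.ofSpace (E : Type) [NormedAddCommGroup E] [InnerProductSpace ℂ E] [CompleteSpace E] :
    CHM E where
  top := inferInstance
  t2 := inferInstance
  ι := Unit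
  E := fun _ => E
  chart := fun _ => OpenPartialHomeomorph.refl E
  cover := fun _ => ⟨(), mem_univ _⟩
  holo := fun _ _ => by
    refine DifferentiableOn.congr differentiableOn_id fun x _ => ?_
    rfl

variable {X Y : Type}

/-- `f` is holomorphic on the open set `U` (continuous, and holomorphic in charts). -/
def HolOn (M : CHM X) (N : CHM Y) (f : X → Y) (U : Set X) : Prop :=
  letI := M.top
  letI := N.top
  ContinuousOn f U ∧ ∀ i j, DifferentiableOn ℂ (N.chart j ∘ f ∘ (M.chart i).symm)
    ((M.chart i).target ∩ (M.chart i).symm ⁻¹' (U ∩ f ⁻¹' (N.chart j).source))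

/-- `f` is a biholomorphism of the open set `U` onto the open set `V`. -/
structure Biholo (M : CHM X) (N : CHM Y) (f : X → Y) (U : Set X) (V : Set Y) : Prop where
  openU : IsOpen[M.top] U
  openV : IsOpen[N.top] V
  bij : BijOn f U V
  hol : HolOn M N f U
  inv : ∃ g : Y → X, (∀ x ∈ U, g (f x) = x) ∧ HolOn N M g V

/-- A system of parametrisations that defines a complex Hilbert manifold structure. -/
structure ParamSys (X : Type) where
  ι : Type
  E : ι → Type
  [nacg : ∀ i, NormedAddCommGroup (E i)]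
  [ips : ∀ i, InnerProductSpace ℂ (E i)]
  [cs : ∀ i, CompleteSpace (E i)]
  U : ∀ i, Set (E i)
  φ : ∀ i, E i → X
  isOpen : ∀ i, IsOpen (U i)
  inj : ∀ i, InjOn (φ i) (U i)
  cover : ∀ p, ∃ i, ∃ x ∈ U i, φ i x = p
  openV : ∀ i j, IsOpen {x | x ∈ U i ∧ φ i x ∈ φ j '' U j}
  trans : ∀ i j, ∃ g : E i → E j, DifferentiableOn ℂ g {x | x ∈ U i ∧ φ i x ∈ φ j '' U j} ∧
    ∀ x, x ∈ U i → φ i x ∈ φ j '' U j → g x ∈ U j ∧ φ j (g x) = φ i x
  sep : ∀ p q, p ≠ q → ∃ i j, ∃ x ∈ U i, ∃ y ∈ U j, φ i x = p ∧ φ j y = q ∧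
    ∃ A ∈ 𝓝 x, ∃ B ∈ 𝓝 y, Disjoint (φ i '' (A ∩ U i)) (φ j '' (B ∩ U j))

attribute [instance] ParamSys.nacg ParamSys.ips ParamSys.cs

end QC

end
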