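import Pool.Agent.Work.MP_217185_an.Crit
import Pool.Agent.Work.MP_217185_an.ManDefs

/-! # FDefs: right translations, the standard structure -/

open MeasureTheory Complex Set Metric Filter
open scoped Topology ENNReal NNReal ContDiff ComplexConjugate

noncomputable section

namespace QC

theorem comp_congr {S S₂ : Bord} {h : CD ≃ₜ CD} (hh : Tgt S h S₂) (m₁ m₂ : Marked S₂)
    (he : MEquiv S₂ m₁ m₂) : MEquiv S (m₁.comp hh) (m₂.comp hh) := by
  rw [mequiv_iff] at he ⊢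
  obtain ⟨σ, hσ, he⟩ := he
  obtain ⟨k, μ, hq⟩ := hh.qc
  refine ⟨σ, hσ, fun x hx => ?_⟩
  have h1 : ‖((h x : CD) : ℂ)‖ = 1 := by
    have h2 : ‖((h x : CD) : ℂ)‖ ≤ 1 := mem_closedBall_zero_iff.1 (h x).2
    have h3 : ¬ ‖((h x : CD) : ℂ)‖ < 1 := by rw [hq.pres x, hx]; exact lt_irrefl _
    exact le_antisymm h2 (not_lt.1 h3)
  exact he (h x) h1

/-- the right translation `R_h : T(S₂) → T(S)`, `[S₂, f, S₁] ↦ [S, f ∘ h, S₁]`. -/
def Rmap {S S₂ : Bord} {h : CD ≃ₜ CD} (hh : Tgt S h S₂) : Teich S₂ → Teich S :=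
  Quot.map (Marked.comp hh) (comp_congr hh)

theorem Rmap_mk {S S₂ : Bord} {h : CD ≃ₜ CD} (hh : Tgt S h S₂) (m : Marked S₂) :
    Rmap hh (Teich.mk m) = Teich.mk (m.comp hh) := rfl

/-- On the ball of radius `δ` of the space of harmonic Beltrami differentials of `S₂`, `φ` is the map
`μ ↦ R_h [S₂, f_μ, S_μ]`, where `f_μ` is quasiconformal with Beltrami coefficient `μ`. -/
def IsBersParam {S S₂ : Bord} {h : CD ≃ₜ CD} (hh : Tgt S h S₂) (δ : ℝ) (φ : HSp S₂ → Teich S) :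
    Prop :=
  ∀ x : HSp S₂, ‖x‖ < δ → (∃ (m : Marked S₂) (k : ℝ), IsQC k m.F x.fn) ∧
    ∀ (m : Marked S₂) (k : ℝ), IsQC k m.F x.fn → φ x = Rmap hh (Teich.mk m)

/-- `M` is the standard complex Hilbert manifold structure of `T_WP(S)`: for every WP-class
quasiconformal map `h : S → S₂`, the map `μ ↦ R_h [S₂, f_μ, S_μ]` is a biholomorphism of a
neighbourhood of `0` in the space of harmonic Beltrami differentials of `S₂` onto an open set. -/
def IsStd (S : Bord) (M : CHM ↥(TWP S)) : Prop :=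
  ∀ (S₂ : Bord) (h : CD ≃ₜ CD) (hh : Tgt S h S₂), (∃ k μ, IsQC k h μ ∧ L2hyp S μ) →
    ∃ δ > 0, ∃ φ : HSp S₂ → ↥(TWP S), IsBersParam hh δ (fun x => (φ x : Teich S)) ∧
      Biholo (CHM.ofSpace (HSp S₂)) M φ (ball 0 δ) (φ '' ball 0 δ)

end QC

end
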