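import Pool.Agent.Work.MP_217185_an.Wirt
import Pool.Agent.Work.MP_217185_an.WDb

/-! # FactorA: change of variables by a diffeomorphism in the weak derivatives

`Φ = φ ∘ w` is a test function with support in `U`.  Change of variables `y = w z` (Jacobian
`J = ‖dz w‖² - ‖dzb w‖² > 0`, `det_fderiv`) and the chain rule (`dz_comp`):
`dzb Φ dz w - dz Φ dzb w = (dzb φ ∘ w) J`, and
`dzb Φ dz w - dz Φ dzb w = dzb (Φ dz w) - dz (Φ dzb w)` (`dz_dzb_comm`), so
`∫ f(w.symm y) dzb φ y dy = ∫ f [dzb (Φ dz w) - dz (Φ dzb w)] = ∫ Φ (c dzb w - d dz w)`.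
Second: `(dz φ ∘ w) J = dz Φ conj (dz w) - dzb Φ conj (dzb w)
= dz (Φ conj (dz w)) - dzb (Φ conj (dzb w))`. -/

open MeasureTheory Complex Set Metric Filter
open scoped Topology ENNReal NNReal ContDiff ComplexConjugate

namespace QC

private theorem factorA_lif {U : Set ℂ} (hU : IsOpen U) {a : ℂ → ℂ} (h : L2loc U a) :
    LocallyIntegrableOn a U := by
  rw [locallyIntegrableOn_iff hU.isLocallyClosed]
  intro K hK hKc
  have : IsFiniteMeasure (volume.restrict K) := ⟨by simpa using hKc.measure_lt_top⟩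
  exact (h K hK hKc).integrable (by norm_num)

private theorem factorA_int {U : Set ℂ} (hU : IsOpen U) {f g : ℂ → ℂ}
    (hf : LocallyIntegrableOn f U) (hg : Continuous g) (hc : HasCompactSupport g)
    (hs : tsupport g ⊆ U) : Integrable (fun z => f z * g z) := by
  have h1 : IntegrableOn f (tsupport g) :=
    (locallyIntegrableOn_iff hU.isLocallyClosed).1 hf _ hs hc
  have h2 : IntegrableOn (fun z => f z * g z) (tsupport g) :=
    h1.mul_continuousOn hg.continuousOn hc
  refine (integrableOn_iff_integrable_of_support_subset ?_).1 h2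
  intro z hz
  apply subset_tsupport g
  intro h0
  exact hz (by simp [h0])

/-- product of a test function with a smooth function -/
private theorem factorA_test {U : Set ℂ} {φ g : ℂ → ℂ} (hφ : Test U φ) (hg : ContDiff ℝ ∞ g) :
    Test U (fun z => φ z * g z) := by
  refine ⟨hφ.smooth.mul hg, hφ.cpt.mul_right, ?_⟩
  refine (closure_mono ?_).trans hφ.sub
  intro z hz h0
  exact hz (by simp [h0])

/-- change of variables -/
private theorem factorA_cov {w : ℂ ≃ₜ ℂ} (h1 : ContDiff ℝ ∞ w)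
    (hJ : ∀ z, 0 < ‖dz w z‖ ^ 2 - ‖dzb w z‖ ^ 2) (G : ℂ → ℂ) :
    ∫ y, G y = ∫ z, ((‖dz w z‖ ^ 2 - ‖dzb w z‖ ^ 2 : ℝ) : ℂ) * G (w z) := by
  have h2 := integral_image_eq_integral_abs_det_fderiv_smul (μ := (volume : Measure ℂ))
    (s := (univ : Set ℂ)) (f := w) (f' := fun z => fderiv ℝ w z) MeasurableSet.univ
    (fun z _ => ((h1.differentiable (by simp)) z).hasFDerivAt.hasFDerivWithinAt)
    (w.injective.injOn) G
  rw [image_univ, w.surjective.range_eq, setIntegral_univ, setIntegral_univ] at h2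
  rw [h2]
  refine integral_congr_ae (Eventually.of_forall fun z => ?_)
  show |(fderiv ℝ w z).det| • G (w z) = _
  rw [det_fderiv, abs_of_pos (hJ z), Complex.real_smul]

theorem weak_smooth {w : ℂ ≃ₜ ℂ} (h1 : ContDiff ℝ ∞ w) (h2 : ContDiff ℝ ∞ w.symm)
    (hJ : ∀ z, 0 < ‖dz w z‖ ^ 2 - ‖dzb w z‖ ^ 2) {U : Set ℂ} (hU : IsOpen U) {f c d : ℂ → ℂ}
    (hWD : WD U f c d) {φ : ℂ → ℂ} (hφ : Test univ φ) (hs : w.symm '' tsupport φ ⊆ U) :
    ∫ y, f (w.symm y) * dzb φ y = ∫ z, φ (w z) * (c z * dzb w z - d z * dz w z) ∧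
    ∫ y, f (w.symm y) * dz φ y
      = ∫ z, φ (w z) * (d z * conj (dzb w z) - c z * conj (dz w z)) := by
  -- the pulled back test function
  have hΦ : Test U (fun z => φ (w z)) := by
    refine ⟨hφ.smooth.comp h1, ?_, ?_⟩
    · exact hφ.cpt.comp_homeomorph w
    · have h3 : tsupport (fun z => φ (w z)) = w ⁻¹' tsupport φ :=
        tsupport_comp_eq_preimage φ w
      rw [h3, ← w.image_symm]
      exact hs
  have hdw := contDiff_dz h1
  have hwd : Differentiable ℝ w := h1.differentiable (by simp)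
  have hφd : Differentiable ℝ φ := hφ.smooth.differentiable (by simp)
  have hΦd : Differentiable ℝ (fun z => φ (w z)) := hΦ.smooth.differentiable (by simp)
  have hdwd : Differentiable ℝ (dz w) := hdw.1.differentiable (by simp)
  have hdbwd : Differentiable ℝ (dzb w) := hdw.2.differentiable (by simp)
  have hc1 : ContDiff ℝ ∞ (fun z => conj (dz w z)) := Complex.conjCLE.contDiff.comp hdw.1
  have hc2 : ContDiff ℝ ∞ (fun z => conj (dzb w z)) := Complex.conjCLE.contDiff.comp hdw.2
  have hlc := factorA_lif hU hWD.la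
  have hld := factorA_lif hU hWD.lb
  constructor
  · have t1 := factorA_test hΦ hdw.1
    have t2 := factorA_test hΦ hdw.2
    have e1 : ∫ y, f (w.symm y) * dzb φ y =
        ∫ z, (f z * dzb (fun z => φ (w z) * dz w z) z - f z * dz (fun z => φ (w z) * dzb w z) z) := by
      rw [factorA_cov h1 hJ]
      refine integral_congr_ae (Eventually.of_forall fun z => ?_)
      show ((‖dz w z‖ ^ 2 - ‖dzb w z‖ ^ 2 : ℝ) : ℂ) * (f (w.symm (w z)) * dzb φ (w z)) = _
      beta_reduce
      rw [w.symm_apply_apply, (dz_mul (hΦd z) (hdwd z)).2, (dz_mul (hΦd z) (hdbwd z)).1,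
        (dz_comp (hφd _) (hwd z)).1, (dz_comp (hφd _) (hwd z)).2, dz_dzb_comm h1 z]
      have n1 : ((‖dz w z‖ ^ 2 : ℝ) : ℂ) = dz w z * conj (dz w z) := by
        rw [Complex.mul_conj, Complex.normSq_eq_norm_sq]
      have n2 : ((‖dzb w z‖ ^ 2 : ℝ) : ℂ) = dzb w z * conj (dzb w z) := by
        rw [Complex.mul_conj, Complex.normSq_eq_norm_sq]
      rw [Complex.ofReal_sub, n1, n2]
      ring
    rw [e1, integral_sub (factorA_int hU hWD.lif t1.dz.2.smooth.continuous t1.dz.2.cpt t1.dz.2.sub)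
      (factorA_int hU hWD.lif t2.dz.1.smooth.continuous t2.dz.1.cpt t2.dz.1.sub),
      hWD.db _ t1, hWD.da _ t2]
    have e2 : (fun z => φ (w z) * (c z * dzb w z - d z * dz w z)) =
        fun z => c z * (φ (w z) * dzb w z) - d z * (φ (w z) * dz w z) := by
      funext z
      ring
    rw [e2, integral_sub (factorA_int hU hlc t2.smooth.continuous t2.cpt t2.sub)
      (factorA_int hU hld t1.smooth.continuous t1.cpt t1.sub)]
    ring
  · have t1 := factorA_test hΦ hc1
    have t2 := factorA_test hΦ hc2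
    have e1 : ∫ y, f (w.symm y) * dz φ y =
        ∫ z, (f z * dz (fun z => φ (w z) * conj (dz w z)) z -
          f z * dzb (fun z => φ (w z) * conj (dzb w z)) z) := by
      rw [factorA_cov h1 hJ]
      refine integral_congr_ae (Eventually.of_forall fun z => ?_)
      show ((‖dz w z‖ ^ 2 - ‖dzb w z‖ ^ 2 : ℝ) : ℂ) * (f (w.symm (w z)) * dz φ (w z)) = _
      beta_reduce
      rw [w.symm_apply_apply, (dz_mul (hΦd z) (hc1.differentiable (by simp) z)).1,
        (dz_mul (hΦd z) (hc2.differentiable (by simp) z)).2,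
        (dz_comp (hφd _) (hwd z)).1, (dz_comp (hφd _) (hwd z)).2,
        (dz_conj (dz w) z).1, (dz_conj (dzb w) z).2, dz_dzb_comm h1 z]
      have n1 : ((‖dz w z‖ ^ 2 : ℝ) : ℂ) = dz w z * conj (dz w z) := by
        rw [Complex.mul_conj, Complex.normSq_eq_norm_sq]
      have n2 : ((‖dzb w z‖ ^ 2 : ℝ) : ℂ) = dzb w z * conj (dzb w z) := by
        rw [Complex.mul_conj, Complex.normSq_eq_norm_sq]
      rw [Complex.ofReal_sub, n1, n2]
      ring
    rw [e1, integral_sub (factorA_int hU hWD.lif t1.dz.1.smooth.continuous t1.dz.1.cpt t1.dz.1.sub)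
      (factorA_int hU hWD.lif t2.dz.2.smooth.continuous t2.dz.2.cpt t2.dz.2.sub),
      hWD.da _ t1, hWD.db _ t2]
    have e2 : (fun z => φ (w z) * (d z * conj (dzb w z) - c z * conj (dz w z))) =
        fun z => d z * (φ (w z) * conj (dzb w z)) - c z * (φ (w z) * conj (dz w z)) := by
      funext z
      ring
    rw [e2, integral_sub (factorA_int hU hld t2.smooth.continuous t2.cpt t2.sub)
      (factorA_int hU hlc t1.smooth.continuous t1.cpt t1.sub)]
    ring

end QC
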