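import Pool.Agent.Work.MP_217185_an.Jac
import Pool.Agent.Work.MP_217185_an.FactorA
import Pool.Agent.Work.MP_217185_an.Weyl

/-! # FactorB: the change of variables formula for limits of diffeomorphisms

Use `weak_smooth` for the approximating diffeomorphisms `w n` and pass to the limit.

Let `v = w.symm`, `v n = (w n).symm`, `φ ∈ Test (w '' U)`.  For `n` large `v n (tsupport φ)` lies in a
fixed compact `U' ⊆ U` and `Φ n = φ ∘ w n ∈ Test U` has support in `U'`.  Change of variables
`y = w n z` (diffeomorphism, Jacobian `J = ‖dz w_n‖² - ‖dzb w_n‖² > 0`) and the chain rule: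
`dzb Φ dz w_n - dz Φ dzb w_n = (dzb φ ∘ w_n) J`, and
`dzb Φ dz w_n - dz Φ dzb w_n = dzb (Φ dz w_n) - dz (Φ dzb w_n)` (the mixed derivatives cancel), so
`∫ f(v n y) dzb φ y dy = ∫ f [dzb (Φ dz w_n) - dz (Φ dzb w_n)] = ∫ Φ (c dzb w_n - d dz w_n)`,
test functions in `U` because `w_n` is smooth.  As `n → ∞`, on `U'`: `dz w_n → a`, `dzb w_n → b` in
`L²`, `Φ n` bounded, so the right side tends to `∫ (φ ∘ w) (c b - d a) = ∫ (φ∘w) (c μ a - μ c a) = 0`;
the left side tends to `∫ f(v y) dzb φ y dy` (uniform convergence, `f` is continuous on `U'`).  Now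
`weyl_cont`. -/

open MeasureTheory Complex Set Metric Filter
open scoped Topology ENNReal NNReal ContDiff ComplexConjugate

namespace QC

variable {k : ℝ} {w : ℂ ≃ₜ ℂ} {a b : ℂ → ℂ}

private theorem factorB_memLp {K : Set ℂ} (hK : IsCompact K) {g : ℂ → ℂ} (hg : Continuous g) :
    MemLp g 2 (volume.restrict K) := by
  have : IsFiniteMeasure (volume.restrict K) := ⟨by simpa using hK.measure_lt_top⟩
  obtain ⟨C, hC⟩ := hK.exists_bound_of_continuousOn hg.continuousOn
  refine MemLp.of_bound hg.aestronglyMeasurable C ?_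
  exact (ae_restrict_iff' hK.measurableSet).2 (Eventually.of_forall hC)

/-- limit of integrals of products -/
private theorem factorB_lim {μ : Measure ℂ} {c A ψ : ℂ → ℂ} {An ψn : ℕ → ℂ → ℂ} {M : ℝ}
    (hM : 0 ≤ M) (hc : MemLp c 2 μ) (hA : MemLp A 2 μ) (hAn : ∀ n, MemLp (An n) 2 μ)
    (hlim : Tendsto (fun n => eLpNorm (fun z => An n z - A z) 2 μ) atTop (𝓝 0))
    (hψm : ∀ n, AEStronglyMeasurable (ψn n) μ) (hψb : ∀ n z, ‖ψn n z‖ ≤ M)
    (hψ : ∀ z, Tendsto (fun n => ψn n z) atTop (𝓝 (ψ z))) :
    Tendsto (fun n => ∫ z, ψn n z * (c z * An n z) ∂μ) atTop (𝓝 (∫ z, ψ z * (c z * A z) ∂μ)) ∧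
    (∀ n, Integrable (fun z => ψn n z * (c z * An n z)) μ) ∧
    Integrable (fun z => ψ z * (c z * A z)) μ := by
  have hcA : Integrable (fun z => c z * A z) μ := hc.integrable_mul hA
  have hcD : ∀ n, Integrable (fun z => c z * (An n z - A z)) μ := fun n =>
    hc.integrable_mul ((hAn n).sub hA)
  have hcAn : ∀ n, Integrable (fun z => c z * An n z) μ := fun n => hc.integrable_mul (hAn n)
  have hi1 : ∀ n, Integrable (fun z => ψn n z * (c z * (An n z - A z))) μ := fun n =>
    (hcD n).bdd_mul (hψm n) (Eventually.of_forall (hψb n))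
  have hi2 : ∀ n, Integrable (fun z => ψn n z * (c z * A z)) μ := fun n =>
    hcA.bdd_mul (hψm n) (Eventually.of_forall (hψb n))
  have hi3 : ∀ n, Integrable (fun z => ψn n z * (c z * An n z)) μ := fun n =>
    (hcAn n).bdd_mul (hψm n) (Eventually.of_forall (hψb n))
  have hψm' : AEStronglyMeasurable ψ μ :=
    aestronglyMeasurable_of_tendsto_ae atTop hψm (Eventually.of_forall hψ)
  have hψb' : ∀ z, ‖ψ z‖ ≤ M := fun z =>
    le_of_tendsto (hψ z).norm (Eventually.of_forall fun n => hψb n z)
  have hi4 : Integrable (fun z => ψ z * (c z * A z)) μ :=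
    hcA.bdd_mul hψm' (Eventually.of_forall hψb')
  refine ⟨?_, hi3, hi4⟩
  -- first part
  have h1 : Tendsto (fun n => ∫ z, ψn n z * (c z * (An n z - A z)) ∂μ) atTop (𝓝 0) := by
    rw [tendsto_iff_edist_tendsto_0]
    have h2 : ∀ n, edist (∫ z, ψn n z * (c z * (An n z - A z)) ∂μ) 0 ≤
        ENNReal.ofReal M * (eLpNorm c 2 μ * eLpNorm (fun z => An n z - A z) 2 μ) := by
      intro n
      rw [edist_zero_right]
      refine (enorm_integral_le_lintegral_enorm _).trans ?_
      have h3 : ∫⁻ z, ‖ψn n z * (c z * (An n z - A z))‖ₑ ∂μ ≤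
          ∫⁻ z, ENNReal.ofReal M * ‖c z * (An n z - A z)‖ₑ ∂μ := by
        refine lintegral_mono fun z => ?_
        rw [enorm_mul]
        refine mul_le_mul_left ?_ _
        rw [← ofReal_norm]
        exact ENNReal.ofReal_le_ofReal (hψb n z)
      refine h3.trans ?_
      rw [lintegral_const_mul' _ _ ENNReal.ofReal_ne_top]
      refine mul_le_mul_right ?_ _
      have h4 := eLpNorm_smul_le_mul_eLpNorm (p := 2) (q := 2) (r := 1)
        ((hAn n).sub hA).aestronglyMeasurable hc.aestronglyMeasurable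
      rw [eLpNorm_one_eq_lintegral_enorm] at h4
      exact h4
    have h5 : Tendsto (fun n => ENNReal.ofReal M *
        (eLpNorm c 2 μ * eLpNorm (fun z => An n z - A z) 2 μ)) atTop (𝓝 0) := by
      have h6 := ENNReal.Tendsto.const_mul (a := eLpNorm c 2 μ) hlim (Or.inr hc.2.ne)
      have h7 := ENNReal.Tendsto.const_mul (a := ENNReal.ofReal M) h6 (Or.inr ENNReal.ofReal_ne_top)
      simpa using h7
    exact tendsto_of_tendsto_of_tendsto_of_le_of_le tendsto_const_nhds h5 (fun n => zero_le) h2
  have h2 : Tendsto (fun n => ∫ z, ψn n z * (c z * A z) ∂μ) atTop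
      (𝓝 (∫ z, ψ z * (c z * A z) ∂μ)) := by
    refine tendsto_integral_of_dominated_convergence (fun z => M * ‖c z * A z‖)
      (fun n => (hi2 n).aestronglyMeasurable) (hcA.norm.const_mul M) ?_ ?_
    · intro n
      refine Eventually.of_forall fun z => ?_
      rw [norm_mul]
      exact mul_le_mul_of_nonneg_right (hψb n z) (norm_nonneg _)
    · exact Eventually.of_forall fun z => (hψ z).mul_const _
  have h3 := h1.add h2
  rw [zero_add] at h3
  refine h3.congr fun n => ?_
  rw [← integral_add (hi1 n) (hi2 n)]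
  refine integral_congr_ae (Eventually.of_forall fun z => ?_)
  show ψn n z * (c z * (An n z - A z)) + ψn n z * (c z * A z) = ψn n z * (c z * An n z)
  ring

/-- the left side -/
private theorem factorB_left {U K U' : Set ℂ} (hU : IsOpen U) (hK : IsCompact K)
    (hU'c : IsCompact U') (hU'U : U' ⊆ U) {f : ℂ → ℂ} (hf : ContinuousOn f U)
    {vn : ℕ → ℂ → ℂ} {v : ℂ → ℂ} (hvn : ∀ n, Continuous (vn n))
    (hev : ∀ᶠ n in atTop, vn n '' K ⊆ U') (hv : v '' K ⊆ U)
    (hlim : ∀ y, Tendsto (fun n => vn n y) atTop (𝓝 (v y)))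
    {ψ : ℂ → ℂ} (hψ : Continuous ψ) (hψs : tsupport ψ ⊆ K) :
    Tendsto (fun n => ∫ y, f (vn n y) * ψ y) atTop (𝓝 (∫ y, f (v y) * ψ y)) := by
  have hψc : HasCompactSupport ψ := hK.of_isClosed_subset (isClosed_tsupport ψ) hψs
  obtain ⟨M, hM⟩ := hU'c.exists_bound_of_continuousOn (hf.mono hU'U)
  refine tendsto_integral_filter_of_dominated_convergence (fun y => M * ‖ψ y‖) ?_ ?_ ?_ ?_
  · filter_upwards [hev] with n hn
    refine Continuous.aestronglyMeasurable ?_
    rw [continuous_iff_continuousAt]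
    intro y
    by_cases hy : y ∈ tsupport ψ
    · have h1 : vn n y ∈ U := hU'U (hn (mem_image_of_mem _ (hψs hy)))
      have h2 : ContinuousAt f (vn n y) := hf.continuousAt (hU.mem_nhds h1)
      exact (ContinuousAt.comp (f := vn n) h2 (hvn n).continuousAt).mul hψ.continuousAt
    · have h0 := notMem_tsupport_iff_eventuallyEq.1 hy
      have h3 : (fun y => f (vn n y) * ψ y) =ᶠ[𝓝 y] fun _ => 0 := by
        filter_upwards [h0] with x hx
        simp [hx]
      exact continuousAt_const.congr h3.symm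
  · filter_upwards [hev] with n hn
    refine Eventually.of_forall fun y => ?_
    rw [norm_mul]
    by_cases hy : y ∈ K
    · exact mul_le_mul_of_nonneg_right (hM _ (hn (mem_image_of_mem _ hy))) (norm_nonneg _)
    · have h0 : ψ y = 0 := by
        by_contra h
        exact hy (hψs (subset_tsupport ψ h))
      simp [h0]
  · exact ((hψ.integrable_of_hasCompactSupport hψc).norm).const_mul M
  · refine Eventually.of_forall fun y => ?_
    by_cases hy : y ∈ K
    · have h1 : v y ∈ U := hv (mem_image_of_mem _ hy)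
      have h2 : ContinuousAt f (v y) := hf.continuousAt (hU.mem_nhds h1)
      exact (h2.tendsto.comp (hlim y)).mul_const _
    · have h0 : ψ y = 0 := by
        by_contra h
        exact hy (hψs (subset_tsupport ψ h))
      simp [h0]

/-- The computation of the header, for general `f`. -/
theorem Approx.weak (h : Approx k w a b) {U : Set ℂ} (hU : IsOpen U) {f c d : ℂ → ℂ}
    (hf : ContinuousOn f U) (hWD : WD U f c d) {φ : ℂ → ℂ} (hφ : Test (w '' U) φ) :
    ∫ y, f (w.symm y) * dzb φ y = ∫ z, φ (w z) * (c z * b z - d z * a z) ∧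
    ∫ y, f (w.symm y) * dz φ y
      = ∫ z, φ (w z) * (d z * conj (b z) - c z * conj (a z)) := by
  obtain ⟨wn, hw1, hw2, hk, hne, hlu, hlus, hLa, hLb⟩ := h.ex
  have hJ : ∀ n z, 0 < ‖dz (wn n) z‖ ^ 2 - ‖dzb (wn n) z‖ ^ 2 := by
    intro n z
    have h0 : 0 < ‖dz (wn n) z‖ := norm_pos_iff.2 (hne n z)
    have h1 := hk n z
    have h2 : ‖dzb (wn n) z‖ < ‖dz (wn n) z‖ := lt_of_le_of_lt h1 (by nlinarith [h.lt])
    have h3 := norm_nonneg (dzb (wn n) z)
    nlinarith
  set K := tsupport φ with hK
  have hKc : IsCompact K := hφ.cpt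
  have hwK : IsCompact (w.symm '' K) := hKc.image w.symm.continuous
  have hwKU : w.symm '' K ⊆ U := by
    rintro _ ⟨y, hy, rfl⟩
    obtain ⟨x, hx, hxy⟩ := hφ.sub hy
    rw [← hxy, w.symm_apply_apply]
    exact hx
  obtain ⟨U', hU'c, hKU', hU'U⟩ := exists_compact_between hwK hU hwKU
  have hev : ∀ᶠ n in atTop, (fun y => (wn n).symm y) '' K ⊆ U' := by
    have h1 : TendstoUniformlyOn (fun n z => (wn n).symm z) w.symm atTop K :=
      (tendstoLocallyUniformlyOn_iff_tendstoUniformlyOn_of_compact hKc).1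
        hlus.tendstoLocallyUniformlyOn
    obtain ⟨ε, hε, hεU⟩ := hwK.exists_thickening_subset_open isOpen_interior hKU'
    have h2 := Metric.tendstoUniformlyOn_iff.1 h1 ε hε
    filter_upwards [h2] with n hn
    rintro _ ⟨y, hy, rfl⟩
    apply interior_subset
    apply hεU
    rw [mem_thickening_iff]
    exact ⟨w.symm y, mem_image_of_mem _ hy, by rw [dist_comm]; exact hn y hy⟩
  have hφ' : Test univ φ := ⟨hφ.smooth, hφ.cpt, subset_univ _⟩
  have hφc : Continuous φ := hφ.smooth.continuous
  obtain ⟨M, hM⟩ := hKc.exists_bound_of_continuousOn hφc.continuousOn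
  have hMφ : ∀ x, ‖φ x‖ ≤ max M 0 := by
    intro x
    by_cases hx : x ∈ K
    · exact (hM x hx).trans (le_max_left _ _)
    · have h0 : φ x = 0 := by
        by_contra h
        exact hx (subset_tsupport φ h)
      rw [h0, norm_zero]
      exact le_max_right _ _
  have hlimw : ∀ z, Tendsto (fun n => wn n z) atTop (𝓝 (w z)) := fun z =>
    (hlu.tendstoLocallyUniformlyOn (s := univ)).tendsto_at (mem_univ z)
  have hlimv : ∀ z, Tendsto (fun n => (wn n).symm z) atTop (𝓝 (w.symm z)) := fun z =>
    (hlus.tendstoLocallyUniformlyOn (s := univ)).tendsto_at (mem_univ z)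
  -- square integrability of the derivatives
  have hda : ∀ n, Continuous (dz (wn n)) := fun n => (contDiff_dz (hw1 n)).1.continuous
  have hdb : ∀ n, Continuous (dzb (wn n)) := fun n => (contDiff_dz (hw1 n)).2.continuous
  have hmem : ∀ (A : ℂ → ℂ) (An : ℕ → ℂ → ℂ), Measurable A → (∀ n, Continuous (An n)) →
      Tendsto (fun n => eLpNorm (fun z => An n z - A z) 2 (volume.restrict U')) atTop (𝓝 0) →
      MemLp A 2 (volume.restrict U') := by
    intro A An hA hAn hlim
    obtain ⟨n, hn⟩ := (hlim.eventually (gt_mem_nhds zero_lt_one)).exists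
    have h1 : MemLp (fun z => An n z - A z) 2 (volume.restrict U') :=
      ⟨(hAn n).aestronglyMeasurable.sub hA.aestronglyMeasurable, hn.trans ENNReal.one_lt_top⟩
    have h2 := (factorB_memLp hU'c (hAn n)).sub h1
    refine h2.ae_eq (Eventually.of_forall fun z => ?_)
    show An n z - (An n z - A z) = A z
    ring
  have hA := hmem a _ h.meas_a hda (hLa U' hU'c)
  have hB := hmem b _ h.meas_b hdb (hLb U' hU'c)
  have hcL : MemLp c 2 (volume.restrict U') := hWD.la U' hU'U hU'c
  have hdL : MemLp d 2 (volume.restrict U') := hWD.lb U' hU'U hU'c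
  have hψm : ∀ n, AEStronglyMeasurable (fun z => φ (wn n z)) (volume.restrict U') := fun n =>
    (hφc.comp (wn n).continuous).aestronglyMeasurable
  have hψl : ∀ z, Tendsto (fun n => φ (wn n z)) atTop (𝓝 (φ (w z))) := fun z =>
    (hφc.tendsto _).comp (hlimw z)
  -- the general limit of the right side
  have hright : ∀ (A B : ℂ → ℂ) (An Bn : ℕ → ℂ → ℂ) (c d : ℂ → ℂ),
      MemLp A 2 (volume.restrict U') → MemLp B 2 (volume.restrict U') →
      (∀ n, MemLp (An n) 2 (volume.restrict U')) → (∀ n, MemLp (Bn n) 2 (volume.restrict U')) →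
      Tendsto (fun n => eLpNorm (fun z => An n z - A z) 2 (volume.restrict U')) atTop (𝓝 0) →
      Tendsto (fun n => eLpNorm (fun z => Bn n z - B z) 2 (volume.restrict U')) atTop (𝓝 0) →
      MemLp c 2 (volume.restrict U') → MemLp d 2 (volume.restrict U') →
      Tendsto (fun n => ∫ z, φ (wn n z) * (c z * An n z - d z * Bn n z)) atTop
        (𝓝 (∫ z, φ (w z) * (c z * A z - d z * B z))) := by
    intro A B An Bn c d hA hB hAn hBn hlA hlB hc hd
    obtain ⟨t1, i1, j1⟩ := factorB_lim (le_max_right M 0) hc hA hAn hlA hψm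
      (fun n z => hMφ (wn n z)) hψl
    obtain ⟨t2, i2, j2⟩ := factorB_lim (le_max_right M 0) hd hB hBn hlB hψm
      (fun n z => hMφ (wn n z)) hψl
    have t3 := t1.sub t2
    have e1 : ∫ z, φ (w z) * (c z * A z - d z * B z) =
        (∫ z in U', φ (w z) * (c z * A z)) - ∫ z in U', φ (w z) * (d z * B z) := by
      rw [← integral_sub j1 j2, ← setIntegral_eq_integral_of_forall_compl_eq_zero (s := U')]
      · refine integral_congr_ae (Eventually.of_forall fun z => ?_)
        show φ (w z) * (c z * A z - d z * B z) = φ (w z) * (c z * A z) - φ (w z) * (d z * B z)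
        ring
      · intro z hz
        have h0 : φ (w z) = 0 := by
          by_contra hne0
          have h1 : w z ∈ K := subset_tsupport φ hne0
          apply hz
          apply interior_subset
          apply hKU'
          exact ⟨w z, h1, w.symm_apply_apply z⟩
        rw [h0, zero_mul]
    rw [e1]
    refine t3.congr' ?_
    filter_upwards [hev] with n hn
    rw [← integral_sub (i1 n) (i2 n), ← setIntegral_eq_integral_of_forall_compl_eq_zero (s := U')
      (f := fun z => φ (wn n z) * (c z * An n z - d z * Bn n z))]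
    · refine integral_congr_ae (Eventually.of_forall fun z => ?_)
      show φ (wn n z) * (c z * An n z) - φ (wn n z) * (d z * Bn n z) =
        φ (wn n z) * (c z * An n z - d z * Bn n z)
      ring
    · intro z hz
      have h0 : φ (wn n z) = 0 := by
        by_contra hne0
        have h1 : wn n z ∈ K := subset_tsupport φ hne0
        apply hz
        apply hn
        exact ⟨wn n z, h1, (wn n).symm_apply_apply z⟩
      rw [h0, zero_mul]
  have hconj : ∀ (A : ℂ → ℂ), MemLp A 2 (volume.restrict U') →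
      MemLp (fun z => conj (A z)) 2 (volume.restrict U') := by
    intro A hA
    refine ⟨Complex.continuous_conj.comp_aestronglyMeasurable hA.1, ?_⟩
    have h1 : eLpNorm (fun z => conj (A z)) 2 (volume.restrict U') =
        eLpNorm A 2 (volume.restrict U') :=
      eLpNorm_congr_norm_ae (Eventually.of_forall fun z => by simp)
    rw [h1]
    exact hA.2
  have hconjl : ∀ (A : ℂ → ℂ) (An : ℕ → ℂ → ℂ),
      Tendsto (fun n => eLpNorm (fun z => An n z - A z) 2 (volume.restrict U')) atTop (𝓝 0) →
      Tendsto (fun n => eLpNorm (fun z => conj (An n z) - conj (A z)) 2 (volume.restrict U'))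
        atTop (𝓝 0) := by
    intro A An hl
    refine hl.congr fun n => ?_
    refine eLpNorm_congr_norm_ae (Eventually.of_forall fun z => ?_)
    show ‖An n z - A z‖ = ‖conj (An n z) - conj (A z)‖
    rw [← map_sub, Complex.norm_conj]
  have hAn : ∀ n, MemLp (dz (wn n)) 2 (volume.restrict U') := fun n => factorB_memLp hU'c (hda n)
  have hBn : ∀ n, MemLp (dzb (wn n)) 2 (volume.restrict U') := fun n => factorB_memLp hU'c (hdb n)
  constructor
  · have hL := factorB_left hU hKc hU'c hU'U hf (fun n => (wn n).symm.continuous) hev hwKU hlimv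
      hφ'.dz.2.smooth.continuous (ψ := dzb φ) ?_
    · have hR := hright b a _ _ c d hB hA hBn hAn (hLb U' hU'c) (hLa U' hU'c) hcL hdL
      refine tendsto_nhds_unique_of_eventuallyEq hL hR ?_
      filter_upwards [hev] with n hn
      exact (weak_smooth (hw1 n) (hw2 n) (hJ n) hU hWD hφ' (hn.trans hU'U)).1
    · have h1 : Test (tsupport φ) φ := ⟨hφ.smooth, hφ.cpt, le_rfl⟩
      exact h1.dz.2.sub
  · have hL := factorB_left hU hKc hU'c hU'U hf (fun n => (wn n).symm.continuous) hev hwKU hlimv
      hφ'.dz.1.smooth.continuous (ψ := dz φ) ?_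
    · have hR := hright (fun z => conj (b z)) (fun z => conj (a z))
        (fun n z => conj (dzb (wn n) z)) (fun n z => conj (dz (wn n) z)) d c
        (hconj b hB) (hconj a hA) (fun n => hconj _ (hBn n)) (fun n => hconj _ (hAn n))
        (hconjl _ _ (hLb U' hU'c)) (hconjl _ _ (hLa U' hU'c)) hdL hcL
      refine tendsto_nhds_unique_of_eventuallyEq hL hR ?_
      filter_upwards [hev] with n hn
      exact (weak_smooth (hw1 n) (hw2 n) (hJ n) hU hWD hφ' (hn.trans hU'U)).2
    · have h1 : Test (tsupport φ) φ := ⟨hφ.smooth, hφ.cpt, le_rfl⟩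
      exact h1.dz.1.sub

end QC
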