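import Pool.Agent.Work.MP_217185_an.Jac
import Pool.Agent.Work.MP_217185_an.Weyl
import Pool.Agent.Work.MP_217185_an.FactorB

/-! # FactorC: Stoilow factorization

Use `Approx.weak` (`c b - d a = 0` a.e. on `U`) and `weyl_cont`.

Let `v = w.symm`, `v n = (w n).symm`, `φ ∈ Test (w '' U)`.  For `n` large `v n (tsupport φ)` lies in a
fixed compact `U' ⊆ U` and `Φ n = φ ∘ w n ∈ Test U` has support in `U'`.  Change of variables
`y = w n z` (diffeomorphism, Jacobian `J = ‖dz w_n‖² - ‖dzb w_n‖² > 0`) and the chain rule: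
`dzb Φ dz w_n - dz Φ dzb w_n = (dzb φ ∘ w_n) J`, and
`dzb Φ dz w_n - dz Φ dzb w_n = dzb (Φ dz w_n) - dz (Φ dzb w_n)` (the mixed derivatives cancel), so
`∫ f(v n y) dzb φ y dy = ∫ f [dzb (Φ dz w_n) - dz (Φ dzb w_n)] = ∫ Φ (c dzb w_n - d dz w_n)`,
test functions in `U` because `w_n` is smooth.  As `n → ∞`, on `U'`: `dz w_n → a`, `dzb w_n → b` in
`L²`, `Φ n` bounded, so the right side tends to `∫ (φ ∘ w) (c b - d a) = ∫ (φ∘w) (c μ a - μ c a) = 0`;
the left side tends to `∫ f(v y) dzb φ y dy` (uniform convergence, `f` is continuous on `U'`).  Now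
`weyl_cont`. -/

open MeasureTheory Complex Set Metric Filter
open scoped Topology ENNReal NNReal ContDiff ComplexConjugate

namespace QC

variable {k : ℝ} {w : ℂ ≃ₜ ℂ} {a b : ℂ → ℂ}

theorem factor (h : Approx k w a b) {μ : ℂ → ℂ} (hb : b =ᵐ[volume] fun z => μ z * a z)
    {U : Set ℂ} (hU : IsOpen U) {f c d : ℂ → ℂ} (hf : ContinuousOn f U) (hWD : WD U f c d)
    (hd : ∀ᵐ z ∂(volume.restrict U), d z = μ z * c z) :
    DifferentiableOn ℂ (fun y => f (w.symm y)) (w '' U) := by
  refine weyl_cont (w.isOpenMap U hU) ?_ ?_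
  · refine hf.comp w.symm.continuous.continuousOn ?_
    rintro _ ⟨x, hx, rfl⟩
    rw [w.symm_apply_apply]
    exact hx
  · intro φ hφ
    rw [(h.weak hU hf hWD hφ).1]
    refine integral_eq_zero_of_ae ?_
    have hd' := (ae_restrict_iff' hU.measurableSet).1 hd
    filter_upwards [hb, hd'] with z hz1 hz2
    show φ (w z) * (c z * b z - d z * a z) = 0
    by_cases hzU : z ∈ U
    · rw [hz1, hz2 hzU]
      ring
    · have h0 : φ (w z) = 0 := by
        by_contra hne
        obtain ⟨x, hx, hxz⟩ := hφ.sub (subset_tsupport φ hne)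
        exact hzU (w.injective hxz ▸ hx)
      rw [h0, zero_mul]

end QC
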