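import Pool.Agent.Work.MP_217185_an.FDefs

/-! # GoodDef: the properties (a), (b) of the question -/

open MeasureTheory Complex Set Metric Filter
open scoped Topology ENNReal NNReal ContDiff ComplexConjugate

noncomputable section

namespace QC

/-- The properties asked for: (a) the connected component of the identity is `T_WP(S)`, with its
standard structure; (b) every connected component is `R_h (T_WP(S₂))` for a quasiconformal
`h : S → S₂` such that `R_h` is a biholomorphism of `T_WP(S₂)` (standard structure) onto it. -/
structure Good (S : Bord) (M : CHM (Teich S)) : Prop where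
  comp_base : @connectedComponent (Teich S) M.top (Teich.base S) = TWP S
  hol_base : ∀ M₀ : CHM ↥(TWP S), IsStd S M₀ → Biholo M₀ M Subtype.val univ (TWP S)
  comp : ∀ p : Teich S, ∃ (S₂ : Bord) (h : CD ≃ₜ CD) (hh : Tgt S h S₂),
    @connectedComponent (Teich S) M.top p = Rmap hh '' TWP S₂ ∧
    ∀ M₂ : CHM ↥(TWP S₂), IsStd S₂ M₂ →
      Biholo M₂ M (fun q => Rmap hh q) univ (Rmap hh '' TWP S₂)

end QC

end
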