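import Pool.Agent.Work.MP_217185_an.FinalDef
import Pool.Agent.Work.MP_217185_an.GoodDef

/-! # Final: assembly

`ParamSys (Teich S)`: index set the triples `(h, S₂, hh)`, `U = ball 0 (rad S₂)`, `φ = phi hh`
(`phi_inj`, `phi_zero` for the covering, `trans_phi`, `sep_phi`).  `ParamSys ↥(TWP S)`: the triples
with `IsWP S h S₂`.
Standard: `ParamSys.biholo`.  Uniqueness: `Biholo.of_local`: each point of `TWP S` is
`phi hh 0` with `hh` WP.
Components: `ParamSys.conn` with `W = Leaf hh` (`phi_mem_leaf`, `leaf_eq`, `path_phi`), `leaf_base`.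
`R_h`: `Rmap hh '' TWP S₂ = Leaf hh`; `Rmap hh ∘ phi hg = phi (hg.comp hh)`; `Biholo.of_local`. -/

open MeasureTheory Complex Set Metric Filter
open scoped Topology ENNReal NNReal ContDiff ComplexConjugate

noncomputable section

namespace QC

theorem Biholo.congr {X Y : Type} {M : CHM X} {N : CHM Y} {f f' : X → Y} {U : Set X} {V : Set Y}
    (hf : Biholo M N f U V) (h : ∀ x ∈ U, f x = f' x) : Biholo M N f' U V := by
  refine ⟨hf.openU, hf.openV, hf.bij.congr h, ?_, ?_⟩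
  · let _ := M.top
    let _ := N.top
    obtain ⟨h1, h2⟩ := hf.hol
    refine ⟨h1.congr fun x hx => (h x hx).symm, fun i j => ?_⟩
    have hs : (M.chart i).target ∩ (M.chart i).symm ⁻¹' (U ∩ f' ⁻¹' (N.chart j).source) ⊆
        (M.chart i).target ∩ (M.chart i).symm ⁻¹' (U ∩ f ⁻¹' (N.chart j).source) := by
      rintro x ⟨hx1, hx2, hx3⟩
      refine ⟨hx1, hx2, ?_⟩
      rw [mem_preimage, h _ hx2]; exact hx3
    refine ((h2 i j).mono hs).congr fun x hx => ?_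
    simp only [Function.comp_apply]
    rw [h _ hx.2.1]
  · obtain ⟨g, hg1, hg2⟩ := hf.inv
    exact ⟨g, fun x hx => by rw [← h x hx]; exact hg1 x hx, hg2⟩

theorem ofSpace_isOpen {E : Type} [NormedAddCommGroup E] [InnerProductSpace ℂ E] [CompleteSpace E]
    (δ : ℝ) : IsOpen[(CHM.ofSpace E).top] (ball (0 : E) δ) := isOpen_ball

theorem biholo_aux {S : Bord} {M₀ : CHM ↥(TWP S)} (h₀ : IsStd S M₀) {Y : Type} (N : CHM Y)
    (f : ↥(TWP S) → Y) (hinj : Function.Injective f)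
    (hloc : ∀ m : Marked S, IsWP S m.F m.T → ∃ δ : ℝ, 0 < δ ∧ ∃ ψ : HSp m.T → Y,
      Biholo (CHM.ofSpace (HSp m.T)) N ψ (ball 0 δ) (ψ '' ball 0 δ) ∧
      ∀ x : HSp m.T, ‖x‖ < δ → ∀ (q : ↥(TWP S)) (m' : Marked m.T) (k : ℝ), IsQC k m'.F x.fn →
        (q : Teich S) = Rmap m.tgt (Teich.mk m') → f q = ψ x) :
    Biholo M₀ N f univ (f '' univ) := by
  have _ne : Nonempty ↥(TWP S) := ⟨⟨Teich.base S, base_mem S⟩⟩
  refine Biholo.of_local hinj.injOn fun p _ => ?_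
  obtain ⟨m, hm, k, μ, h1, h2⟩ := p.2
  have hw : IsWP S m.F m.T := ⟨m.tgt, k, μ, h1, h2⟩
  obtain ⟨δ, hδ, φ, hφ, hb⟩ := h₀ m.T m.F m.tgt ⟨k, μ, h1, h2⟩
  obtain ⟨δ', hδ', ψ, hψ, he⟩ := hloc m hw
  set r := min δ δ' with hr
  have hr0 : 0 < r := lt_min hδ hδ'
  have hb1 : Biholo (CHM.ofSpace (HSp m.T)) M₀ φ (ball 0 r) (φ '' ball 0 r) :=
    hb.mono (ofSpace_isOpen r) (ball_subset_ball (min_le_left _ _))
  have hb2 : Biholo (CHM.ofSpace (HSp m.T)) N ψ (ball 0 r) (ψ '' ball 0 r) :=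
    hψ.mono (ofSpace_isOpen r) (ball_subset_ball (min_le_right _ _))
  have key : ∀ x ∈ ball (0 : HSp m.T) r, f (φ x) = ψ x := by
    intro x hx
    rw [mem_ball_zero_iff] at hx
    obtain ⟨⟨m', k', hk'⟩, h3⟩ := hφ x (hx.trans_le (min_le_left _ _))
    exact he x (hx.trans_le (min_le_right _ _)) (φ x) m' k' hk' (h3 m' k' hk')
  obtain ⟨g, hg1, hg2⟩ := hb1.symm
  have hb3 := hg2.trans hb2
  have hb4 : Biholo M₀ N f (φ '' ball 0 r) (ψ '' ball 0 r) := by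
    refine hb3.congr ?_
    rintro _ ⟨x, hx, rfl⟩
    rw [Function.comp_apply, hg1 x hx, key x hx]
  have hp : p ∈ φ '' ball 0 r := by
    refine ⟨0, mem_ball_self hr0, Subtype.ext ?_⟩
    obtain ⟨_, h3⟩ := hφ 0 (by simpa using hδ)
    have h4 := h3 ⟨1, m.T, tgt_one m.T⟩ 0 (by
      have := (isMob_one).isQC
      exact this)
    refine h4.trans ?_
    rw [← hm]
    rfl
  refine ⟨φ '' ball 0 r, subset_univ _, hp, ?_⟩
  have himg : f '' (φ '' ball 0 r) = ψ '' ball 0 r := hb4.bij.image_eq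
  rw [himg]
  exact hb4

/-- the standard structure exists. -/
theorem exists_std (S : Bord) : ∃ M : CHM ↥(TWP S), IsStd S M := by
  refine ⟨(psysW S).chm, fun S₂ h hh hl => ?_⟩
  obtain ⟨k, μ, h1, h2⟩ := hl
  have hw : IsWP S h S₂ := ⟨hh, k, μ, h1, h2⟩
  refine ⟨rad S₂, rad_pos S₂, phiW (⟨⟨h, S₂, hh⟩, hw⟩ : WMarked S), ?_,
    (psysW S).biholo (⟨⟨h, S₂, hh⟩, hw⟩ : WMarked S)⟩
  intro x hx
  obtain ⟨⟨m', hm', _⟩, h3⟩ := phi_spec hh hx
  refine ⟨⟨m', hm'⟩, fun m'' k' hk => ?_⟩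
  have h4 := phiW_coe (⟨⟨h, S₂, hh⟩, hw⟩ : WMarked S) (x := x) hx
  simp only at h4 ⊢
  rw [h4]
  exact h3 m'' ⟨k', hk⟩

/-- the standard structure is unique. -/
theorem std_unique (S : Bord) (M M' : CHM ↥(TWP S)) (h : IsStd S M) (h' : IsStd S M') :
    Biholo M M' id univ univ := by
  have := biholo_aux h M' id Function.injective_id (fun m hw => by
    obtain ⟨k, μ, h1, h2⟩ := hw.l2
    obtain ⟨δ, hδ, φ, hφ, hb⟩ := h' m.T m.F m.tgt ⟨k, μ, h1, h2⟩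
    refine ⟨δ, hδ, φ, hb, fun x hx q m' k' hk hq => Subtype.ext ?_⟩
    rw [id, hq]
    exact ((hφ x hx).2 m' k' hk).symm)
  rwa [image_id] at this

theorem Rmap_inj {S S₂ : Bord} {h : CD ≃ₜ CD} (hh : Tgt S h S₂) :
    Function.Injective (Rmap hh) := by
  intro p q hpq
  obtain ⟨m₁, rfl⟩ := Quot.exists_rep p
  obtain ⟨m₂, rfl⟩ := Quot.exists_rep q
  have h1 : Teich.mk (m₁.comp hh) = Teich.mk (m₂.comp hh) := hpq
  rw [mk_eq_iff] at h1
  obtain ⟨σ, hσ, he⟩ := h1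
  change Teich.mk m₁ = Teich.mk m₂
  rw [mk_eq_iff]
  refine ⟨σ, hσ, fun x hx => ?_⟩
  obtain ⟨k, μ, hq⟩ := hh.qc
  have h2 : ‖((h.symm x : CD) : ℂ)‖ = 1 := by
    have h3 : ‖((h.symm x : CD) : ℂ)‖ ≤ 1 := mem_closedBall_zero_iff.1 (h.symm x).2
    have h4 : ¬ ‖((h.symm x : CD) : ℂ)‖ < 1 := by
      rw [← hq.pres (h.symm x), h.apply_symm_apply, hx]; exact lt_irrefl _
    exact le_antisymm h3 (not_lt.1 h4)
  have h5 := he (h.symm x) h2
  have h6 : (m₂.comp hh).F (h.symm x) = m₂.F x := by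
    change m₂.F (h (h.symm x)) = m₂.F x
    rw [h.apply_symm_apply]
  have h7 : (m₁.comp hh).F (h.symm x) = m₁.F x := by
    change m₁.F (h (h.symm x)) = m₁.F x
    rw [h.apply_symm_apply]
  rw [h6, h7] at h5
  exact h5

theorem Rmap_TWP {S S₂ : Bord} {h : CD ≃ₜ CD} (hh : Tgt S h S₂) :
    Rmap hh '' TWP S₂ = Leaf hh := by
  ext p
  constructor
  · rintro ⟨q, ⟨m, rfl, k, μ, h1, h2⟩, rfl⟩
    exact ⟨m, ⟨m.tgt, k, μ, h1, h2⟩, rfl⟩
  · rintro ⟨m, ⟨_, k, μ, h1, h2⟩, rfl⟩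
    exact ⟨Teich.mk m, ⟨m, rfl, k, μ, h1, h2⟩, rfl⟩

theorem comp_leaf {S S₂ : Bord} {h : CD ≃ₜ CD} (hh : Tgt S h S₂) :
    @connectedComponent (Teich S) (psys S).chm.top (Teich.mk ⟨h, S₂, hh⟩) = Leaf hh := by
  refine (psys S).conn (leaf_self hh) (fun i => ?_) ?_
  · have h1 : (psys S).φ i '' (psys S).U i ⊆ Leaf i.tgt := by
      rintro _ ⟨x, hx, rfl⟩
      exact phi_mem_leaf i.tgt (mem_ball_zero_iff.1 hx)
    by_cases hne : (Leaf i.tgt ∩ Leaf hh).Nonempty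
    · left
      rw [← leaf_eq i.tgt hh hne]; exact h1
    · right
      intro p hp hp'
      exact hne ⟨p, h1 hp, hp'⟩
  · rintro _ ⟨m, hm, rfl⟩
    obtain ⟨c, h1, h2, h3, h4⟩ := path_phi hh hm
    refine ⟨c, h1, h2, h3, fun t ht => ?_⟩
    obtain ⟨h₀, S₀, hh₀, y, h5, h6⟩ := h4 t ht
    exact ⟨⟨h₀, S₀, hh₀⟩, y, h5, h6⟩

/-- The main theorem, with all right translations. -/
theorem main_strong (S : Bord) : ∃ M : CHM (Teich S),
    (@connectedComponent (Teich S) M.top (Teich.base S) = TWP S ∧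
      ∀ M₀ : CHM ↥(TWP S), IsStd S M₀ → Biholo M₀ M Subtype.val univ (TWP S)) ∧
    ∀ (S₂ : Bord) (h : CD ≃ₜ CD) (hh : Tgt S h S₂),
      @connectedComponent (Teich S) M.top (Teich.mk ⟨h, S₂, hh⟩) = Rmap hh '' TWP S₂ ∧
      ∀ M₂ : CHM ↥(TWP S₂), IsStd S₂ M₂ →
        Biholo M₂ M (fun q => Rmap hh q) univ (Rmap hh '' TWP S₂) := by
  refine ⟨(psys S).chm, ⟨?_, fun M₀ hM₀ => ?_⟩, fun S₂ h hh => ⟨?_, fun M₂ hM₂ => ?_⟩⟩
  · rw [← leaf_base]; exact comp_leaf (tgt_one S)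
  · have := biholo_aux hM₀ (psys S).chm Subtype.val Subtype.val_injective (fun m hw => by
      refine ⟨rad m.T, rad_pos _, phi m.tgt, (psys S).biholo m, fun x hx q m' k hk hq => ?_⟩
      rw [hq]
      exact ((phi_spec m.tgt hx).2 m' ⟨k, hk⟩).symm)
    rwa [image_univ, Subtype.range_coe] at this
  · rw [Rmap_TWP]; exact comp_leaf hh
  · have := biholo_aux hM₂ (psys S).chm (fun q => Rmap hh q)
      (fun a b hab => Subtype.ext (Rmap_inj hh hab)) (fun m₁ hw => by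
      refine ⟨rad m₁.T, rad_pos _, phi (m₁.tgt.comp hh),
        (psys S).biholo ⟨m₁.F * h, m₁.T, m₁.tgt.comp hh⟩,
        fun x hx q m' k hk hq => ?_⟩
      rw [hq, (phi_spec (m₁.tgt.comp hh) hx).2 m' ⟨k, hk⟩]
      rfl)
    have h2 : (fun q : ↥(TWP S₂) => Rmap hh (q : Teich S₂)) '' univ =
        Rmap hh '' TWP S₂ := by
      rw [image_univ]
      ext r
      constructor
      · rintro ⟨q, rfl⟩; exact ⟨q, q.2, rfl⟩
      · rintro ⟨q, hq, rfl⟩; exact ⟨⟨q, hq⟩, rfl⟩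
    rwa [h2] at this

/-- The main theorem. -/
theorem main (S : Bord) : ∃ M : CHM (Teich S), Good S M := by
  obtain ⟨M, ⟨h1, h2⟩, h3⟩ := main_strong S
  refine ⟨M, h1, h2, fun p => ?_⟩
  obtain ⟨m, rfl⟩ := Quot.exists_rep p
  exact ⟨m.T, m.F, m.tgt, h3 m.T m.F m.tgt⟩

theorem good_unique_aux {S : Bord} {M M' : CHM (Teich S)}
    (h3 : ∀ (S₂ : Bord) (h : CD ≃ₜ CD) (hh : Tgt S h S₂),
      ∀ M₂ : CHM ↥(TWP S₂), IsStd S₂ M₂ →
        Biholo M₂ M (fun q => Rmap hh q) univ (Rmap hh '' TWP S₂)) (h' : Good S M') :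
    Biholo M M' id univ univ := by
  have _ne : Nonempty (Teich S) := ⟨Teich.base S⟩
  have key : Biholo M M' id univ (id '' univ) := by
    refine Biholo.of_local Function.injective_id.injOn fun p _ => ?_
    obtain ⟨S₂, h, hh, hc, hb⟩ := h'.comp p
    obtain ⟨M₂, hM₂⟩ := exists_std S₂
    obtain ⟨g, hg1, hg2⟩ := (h3 S₂ h hh M₂ hM₂).symm
    have h4 := hg2.trans (hb M₂ hM₂)
    have h5 : Biholo M M' id (Rmap hh '' TWP S₂) (Rmap hh '' TWP S₂) := by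
      refine h4.congr ?_
      rintro _ ⟨q, hq, rfl⟩
      have h6 := hg1 (⟨q, hq⟩ : ↥(TWP S₂)) (mem_univ _)
      rw [Function.comp_apply, id]
      simp only at h6
      rw [h6]
    refine ⟨Rmap hh '' TWP S₂, subset_univ _, ?_, ?_⟩
    · rw [← hc]; exact @mem_connectedComponent _ M'.top p
    · rw [image_id]; exact h5
  rwa [image_id] at key

/-- the structure is unique. -/
theorem good_unique (S : Bord) (M M' : CHM (Teich S)) (h : Good S M) (h' : Good S M') :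
    Biholo M M' id univ univ := by
  obtain ⟨N, _, h3⟩ := main_strong S
  have h1 := good_unique_aux (fun S₂ f hf => (h3 S₂ f hf).2) h
  have h2 := good_unique_aux (fun S₂ f hf => (h3 S₂ f hf).2) h'
  obtain ⟨g, hg1, hg2⟩ := h1.symm
  have hg : ∀ x : Teich S, g x = x := fun x => by
    have := hg1 x (mem_univ x)
    simpa using this
  exact (hg2.trans h2).congr fun x _ => by rw [Function.comp_apply, hg x]

end QC

end
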