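import Pool.Agent.Work.MP_217185_an.ManDefs

/-! # ManB: construction of a Hilbert manifold from parametrisations

Topology: `W` open iff `U i ∩ φ i ⁻¹' W` is open for all `i`.  `φ i '' A` is open for open
`A ⊆ U i`: `U j ∩ φ j ⁻¹' (φ i '' A) = {y ∈ V_{ji} | g_{ji} y ∈ A}`.  So `φ i` is an open embedding of
`U i`; charts `= (φ i)⁻¹`.  Hausdorff by `sep`.
`conn`: `W` is open and closed and path connected in the sense given, so it is a connected component.
`biholo_of_params`: a map that carries parametrisations to parametrisations (same parameter domain) is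
a biholomorphism onto its image. -/

open Set Metric Filter
open scoped Topology

noncomputable section

namespace QC

variable {X Y : Type}

private def dm (M : CHM X) (N : CHM Y) (f : X → Y) (U : Set X) (i : M.ι) (j : N.ι) : Set (M.E i) :=
  letI := M.top
  letI := N.top
  (M.chart i).target ∩ (M.chart i).symm ⁻¹' (U ∩ f ⁻¹' (N.chart j).source)

private def cm (M : CHM X) (N : CHM Y) (f : X → Y) (i : M.ι) (j : N.ι) : M.E i → N.E j :=
  letI := M.top
  letI := N.top
  N.chart j ∘ f ∘ (M.chart i).symm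

private theorem holOn_iff {M : CHM X} {N : CHM Y} {f : X → Y} {U : Set X} :
    HolOn M N f U ↔ @ContinuousOn X Y M.top N.top f U ∧
      ∀ i j, DifferentiableOn ℂ (cm M N f i j) (dm M N f U i j) := Iff.rfl

private theorem isOpen_dm {M : CHM X} {N : CHM Y} {f : X → Y} {U : Set X}
    (hU : IsOpen[M.top] U) (hc : @ContinuousOn X Y M.top N.top f U) (i : M.ι) (j : N.ι) :
    IsOpen (dm M N f U i j) := by
  let := M.top
  let := N.top
  have h1 : IsOpen (U ∩ f ⁻¹' (N.chart j).source) :=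
    hc.isOpen_inter_preimage hU (N.chart j).open_source
  exact (M.chart i).isOpen_inter_preimage_symm h1

private theorem HolOn.diffAt {M : CHM X} {N : CHM Y} {f : X → Y} {U : Set X}
    (hU : IsOpen[M.top] U) (h : HolOn M N f U) (i : M.ι) (j : N.ι) {e : M.E i}
    (he : e ∈ dm M N f U i j) : DifferentiableAt ℂ (cm M N f i j) e :=
  (h.2 i j e he).differentiableAt ((isOpen_dm hU h.1 i j).mem_nhds he)

/-- differentiability in one good chart of the target. -/
private theorem HolOn.of_pt {M : CHM X} {N : CHM Y} {f : X → Y} {U : Set X}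
    (hc : @ContinuousOn X Y M.top N.top f U)
    (h : ∀ i j, ∀ e ∈ dm M N f U i j, DifferentiableAt ℂ (cm M N f i j) e) : HolOn M N f U :=
  ⟨hc, fun i j e he => (h i j e he).differentiableWithinAt⟩

private theorem HolOn.comp' {Z : Type} {M : CHM X} {N : CHM Y} {K : CHM Z} {f : X → Y} {g : Y → Z}
    {U : Set X} {V : Set Y} (hU : IsOpen[M.top] U) (hV : IsOpen[N.top] V) (hf : HolOn M N f U)
    (hg : HolOn N K g V) (hm : MapsTo f U V) : HolOn M K (g ∘ f) U := by
  let := M.top
  let := N.top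
  let := K.top
  have hf1 : ContinuousOn f U := hf.1
  have hg1 : ContinuousOn g V := hg.1
  refine HolOn.of_pt (hg1.comp hf1 hm) fun i k e he => ?_
  obtain ⟨he1, he2, he3⟩ := he
  obtain ⟨j, hj⟩ := N.cover (f ((M.chart i).symm e))
  have hxV : f ((M.chart i).symm e) ∈ V := hm he2
  have hmem : e ∈ dm M N f U i j := ⟨he1, he2, hj⟩
  have hd1 := HolOn.diffAt hU hf i j hmem
  have hinv : (N.chart j).symm ((N.chart j) (f ((M.chart i).symm e))) = f ((M.chart i).symm e) :=
    (N.chart j).left_inv hj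
  have hmem2 : (N.chart j) (f ((M.chart i).symm e)) ∈ dm N K g V j k := by
    refine ⟨(N.chart j).map_source hj, ?_⟩
    rw [mem_preimage, hinv]
    exact ⟨hxV, he3⟩
  have hd2 : DifferentiableAt ℂ (cm N K g j k) (cm M N f i j e) := HolOn.diffAt hV hg j k hmem2
  have hd : DifferentiableAt ℂ (cm N K g j k ∘ cm M N f i j) e := DifferentiableAt.comp e hd2 hd1
  refine hd.congr_of_eventuallyEq ?_
  filter_upwards [(isOpen_dm hU hf.1 i j).mem_nhds hmem] with e' he'
  have : (N.chart j).symm ((N.chart j) (f ((M.chart i).symm e'))) = f ((M.chart i).symm e') :=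
    (N.chart j).left_inv he'.2.2
  simp only [cm, Function.comp_apply]
  rw [this]

private theorem HolOn.mono' {M : CHM X} {N : CHM Y} {f : X → Y} {U U' : Set X}
    (h : HolOn M N f U) (hs : U' ⊆ U) : HolOn M N f U' := by
  let := M.top
  let := N.top
  have h1 : ContinuousOn f U := h.1
  exact ⟨h1.mono hs, fun i j => (h.2 i j).mono fun e he => ⟨he.1, hs he.2.1, he.2.2⟩⟩

private theorem HolOn.congr' {M : CHM X} {N : CHM Y} {f g : X → Y} {U : Set X}
    (h : HolOn M N f U) (hs : ∀ x ∈ U, g x = f x) : HolOn M N g U := by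
  let := M.top
  let := N.top
  have h1 : ContinuousOn f U := h.1
  refine ⟨h1.congr hs, fun i j => ?_⟩
  have hset : dm M N g U i j ⊆ dm M N f U i j := by
    intro e he
    refine ⟨he.1, he.2.1, ?_⟩
    have := he.2.2
    rw [mem_preimage, hs _ he.2.1] at this
    exact this
  refine ((h.2 i j).mono hset).congr fun e he => ?_
  simp only [Function.comp_apply]
  rw [hs _ he.2.1]

theorem Biholo.trans {Z : Type} {M : CHM X} {N : CHM Y} {K : CHM Z} {f : X → Y} {g : Y → Z}
    {U : Set X} {V : Set Y} {W : Set Z} (hf : Biholo M N f U V) (hg : Biholo N K g V W) :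
    Biholo M K (g ∘ f) U W := by
  obtain ⟨f', hf'1, hf'2⟩ := hf.inv
  obtain ⟨g', hg'1, hg'2⟩ := hg.inv
  refine ⟨hf.openU, hg.openV, hg.bij.comp hf.bij,
    HolOn.comp' hf.openU hf.openV hf.hol hg.hol hf.bij.mapsTo, f' ∘ g', ?_, ?_⟩
  · intro x hx
    simp only [Function.comp_apply]
    rw [hg'1 _ (hf.bij.mapsTo hx), hf'1 _ hx]
  · refine HolOn.comp' hg.openV hg.openU hg'2 hf'2 ?_
    intro z hz
    obtain ⟨y, hy, rfl⟩ := hg.bij.surjOn hz
    rw [hg'1 _ hy]
    exact hy

theorem Biholo.symm {M : CHM X} {N : CHM Y} {f : X → Y} {U : Set X} {V : Set Y}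
    (hf : Biholo M N f U V) : ∃ g : Y → X, (∀ x ∈ U, g (f x) = x) ∧ Biholo N M g V U := by
  obtain ⟨g, hg1, hg2⟩ := hf.inv
  refine ⟨g, hg1, hf.openV, hf.openU, ⟨?_, ?_, ?_⟩, hg2, f, ?_, hf.hol⟩
  · intro y hy
    obtain ⟨x, hx, rfl⟩ := hf.bij.surjOn hy
    rw [hg1 _ hx]
    exact hx
  · intro y hy y' hy' h
    obtain ⟨x, hx, rfl⟩ := hf.bij.surjOn hy
    obtain ⟨x', hx', rfl⟩ := hf.bij.surjOn hy'
    rw [hg1 _ hx, hg1 _ hx'] at h
    rw [h]
  · intro x hx
    exact ⟨f x, hf.bij.mapsTo hx, hg1 _ hx⟩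
  · intro y hy
    obtain ⟨x, hx, rfl⟩ := hf.bij.surjOn hy
    rw [hg1 _ hx]

theorem Biholo.mono {M : CHM X} {N : CHM Y} {f : X → Y} {U U' : Set X} {V : Set Y}
    (hf : Biholo M N f U V) (hU : IsOpen[M.top] U') (h : U' ⊆ U) : Biholo M N f U' (f '' U') := by
  let := M.top
  let := N.top
  obtain ⟨g, hg1, hg2⟩ := hf.inv
  have hsub : f '' U' ⊆ V := by
    rintro _ ⟨x, hx, rfl⟩
    exact hf.bij.mapsTo (h hx)
  have himg : f '' U' = V ∩ g ⁻¹' U' := by
    ext y
    constructor
    · rintro ⟨x, hx, rfl⟩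
      exact ⟨hf.bij.mapsTo (h hx), by rw [mem_preimage, hg1 _ (h hx)]; exact hx⟩
    · rintro ⟨hy, hy'⟩
      obtain ⟨x, hx, rfl⟩ := hf.bij.surjOn hy
      rw [mem_preimage, hg1 _ hx] at hy'
      exact ⟨x, hy', rfl⟩
  have hopen : IsOpen (f '' U') := by
    rw [himg]
    have hc : ContinuousOn g V := hg2.1
    exact hc.isOpen_inter_preimage hf.openV hU
  refine ⟨hU, hopen, (hf.bij.injOn.mono h).bijOn_image, HolOn.mono' hf.hol h, g, ?_, ?_⟩
  · intro x hx
    exact hg1 _ (h hx)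
  · exact HolOn.mono' hg2 hsub

/-- a bijection of an open set onto an open set that is locally biholomorphic. -/
theorem Biholo.of_local [Nonempty X] {M : CHM X} {N : CHM Y} {f : X → Y} {U : Set X} (hinj : InjOn f U)
    (h : ∀ x ∈ U, ∃ U' ⊆ U, x ∈ U' ∧ Biholo M N f U' (f '' U')) : Biholo M N f U (f '' U) := by
  let := M.top
  let := N.top
  have hopenU : IsOpen U := by
    rw [isOpen_iff_mem_nhds]
    intro x hx
    obtain ⟨U', hU', hxU', hB⟩ := h x hx
    exact mem_of_superset (hB.openU.mem_nhds hxU') hU'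
  have hopenV : IsOpen (f '' U) := by
    rw [isOpen_iff_mem_nhds]
    rintro _ ⟨x, hx, rfl⟩
    obtain ⟨U', hU', hxU', hB⟩ := h x hx
    exact mem_of_superset (hB.openV.mem_nhds (mem_image_of_mem f hxU')) (image_mono hU')
  have hcont : ContinuousOn f U := by
    intro x hx
    obtain ⟨U', hU', hxU', hB⟩ := h x hx
    have hc : ContinuousOn f U' := hB.hol.1
    exact (hc.continuousAt (hB.openU.mem_nhds hxU')).continuousWithinAt
  set g : Y → X := Function.invFunOn f U with hg
  have hgl : ∀ x ∈ U, g (f x) = x := fun x hx => hinj.leftInvOn_invFunOn hx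
  have hloc : ∀ x ∈ U, ∃ U' ⊆ U, x ∈ U' ∧ IsOpen (f '' U') ∧ HolOn N M g (f '' U') := by
    intro x hx
    obtain ⟨U', hU', hxU', hB⟩ := h x hx
    obtain ⟨g', hg'1, hg'2⟩ := hB.inv
    refine ⟨U', hU', hxU', hB.openV, ?_⟩
    refine HolOn.congr' hg'2 ?_
    rintro _ ⟨z, hz, rfl⟩
    rw [hgl _ (hU' hz), hg'1 _ hz]
  refine ⟨hopenU, hopenV, hinj.bijOn_image, ?_, g, hgl, ?_⟩
  · refine HolOn.of_pt hcont fun i j e he => ?_
    obtain ⟨U', hU', hxU', hB⟩ := h _ he.2.1
    exact HolOn.diffAt hB.openU hB.hol i j ⟨he.1, hxU', he.2.2⟩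
  · refine HolOn.of_pt ?_ fun i j e he => ?_
    · rintro _ ⟨x, hx, rfl⟩
      obtain ⟨U', hU', hxU', ho, hh⟩ := hloc x hx
      have hc : ContinuousOn g (f '' U') := hh.1
      exact (hc.continuousAt (ho.mem_nhds (mem_image_of_mem f hxU'))).continuousWithinAt
    · obtain ⟨x, hx, hxe⟩ := he.2.1
      obtain ⟨U', hU', hxU', ho, hh⟩ := hloc x hx
      exact HolOn.diffAt ho hh i j ⟨he.1, ⟨x, hxU', hxe⟩, he.2.2⟩

end QC

end
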