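import Pool.Agent.Work.MP_217185_an.ManDefs

/-! # ManA: construction of a Hilbert manifold from parametrisations

Topology: `W` open iff `U i ∩ φ i ⁻¹' W` is open for all `i`.  `φ i '' A` is open for open
`A ⊆ U i`: `U j ∩ φ j ⁻¹' (φ i '' A) = {y ∈ V_{ji} | g_{ji} y ∈ A}`.  So `φ i` is an open embedding of
`U i`; charts `= (φ i)⁻¹`.  Hausdorff by `sep`.
`conn`: `W` is open and closed and path connected in the sense given, so it is a connected component.
`biholo_of_params`: a map that carries parametrisations to parametrisations (same parameter domain) is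
a biholomorphism onto its image. -/

open Set Metric Filter
open scoped Topology

noncomputable section

namespace QC

variable {X Y : Type}

@[instance_reducible] private def ptop (P : ParamSys X) : TopologicalSpace X where
  IsOpen W := ∀ i, IsOpen (P.U i ∩ P.φ i ⁻¹' W)
  isOpen_univ i := by simpa using P.isOpen i
  isOpen_inter W W' h h' i := by
    have := (h i).inter (h' i)
    convert this using 1
    ext x
    simp only [mem_inter_iff, mem_preimage]
    tauto
  isOpen_sUnion S h i := by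
    have : P.U i ∩ P.φ i ⁻¹' ⋃₀ S = ⋃ W ∈ S, (P.U i ∩ P.φ i ⁻¹' W) := by
      ext x
      simp only [mem_inter_iff, mem_preimage, mem_sUnion, mem_iUnion, exists_prop]
      tauto
    rw [this]
    exact isOpen_biUnion fun W hW => h W hW i

private theorem isOpen_img (P : ParamSys X) (i : P.ι) {A : Set (P.E i)} (hA : IsOpen A)
    (hAU : A ⊆ P.U i) : IsOpen[ptop P] (P.φ i '' A) := by
  intro j
  obtain ⟨g, hg1, hg2⟩ := P.trans j i
  have : P.U j ∩ P.φ j ⁻¹' (P.φ i '' A) =
      {x | x ∈ P.U j ∧ P.φ j x ∈ P.φ i '' P.U i} ∩ g ⁻¹' A := by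
    ext y
    constructor
    · rintro ⟨hy, a, ha, hay⟩
      have hy' : P.φ j y ∈ P.φ i '' P.U i := ⟨a, hAU ha, hay⟩
      refine ⟨⟨hy, hy'⟩, ?_⟩
      obtain ⟨h1, h2⟩ := hg2 y hy hy'
      have : g y = a := P.inj i h1 (hAU ha) (h2.trans hay.symm)
      rw [mem_preimage, this]
      exact ha
    · rintro ⟨⟨hy, hy'⟩, hya⟩
      obtain ⟨h1, h2⟩ := hg2 y hy hy'
      exact ⟨hy, g y, hya, h2⟩
  rw [this]
  exact hg1.continuousOn.isOpen_inter_preimage (P.openV j i) hA

private theorem cont_phi (P : ParamSys X) (i : P.ι) :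
    @ContinuousOn _ _ _ (ptop P) (P.φ i) (P.U i) := by
  let := ptop P
  rw [continuousOn_open_iff (P.isOpen i)]
  intro t ht
  exact ht i

private def pinv (P : ParamSys X) (i : P.ι) : X → P.E i := Function.invFunOn (P.φ i) (P.U i)

private theorem pinv_left (P : ParamSys X) (i : P.ι) {x : P.E i} (hx : x ∈ P.U i) :
    pinv P i (P.φ i x) = x := (P.inj i).leftInvOn_invFunOn hx

private theorem cont_inv (P : ParamSys X) (i : P.ι) :
    @ContinuousOn _ _ (ptop P) _ (pinv P i) (P.φ i '' P.U i) := by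
  let := ptop P
  rw [continuousOn_open_iff (isOpen_img P i (P.isOpen i) Subset.rfl)]
  intro t ht
  have : P.φ i '' P.U i ∩ pinv P i ⁻¹' t = P.φ i '' (P.U i ∩ t) := by
    ext y
    constructor
    · rintro ⟨⟨x, hx, rfl⟩, hxt⟩
      rw [mem_preimage, pinv_left P i hx] at hxt
      exact ⟨x, ⟨hx, hxt⟩, rfl⟩
    · rintro ⟨x, ⟨hx, hxt⟩, rfl⟩
      refine ⟨⟨x, hx, rfl⟩, ?_⟩
      rw [mem_preimage, pinv_left P i hx]
      exact hxt
  rw [this]
  exact isOpen_img P i ((P.isOpen i).inter ht) inter_subset_left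

private def pchart (P : ParamSys X) (i : P.ι) :
    @OpenPartialHomeomorph X (P.E i) (ptop P) _ :=
  letI := ptop P
  { toFun := pinv P i
    invFun := P.φ i
    source := P.φ i '' P.U i
    target := P.U i
    map_source' := by
      rintro _ ⟨x, hx, rfl⟩
      rw [pinv_left P i hx]
      exact hx
    map_target' := fun x hx => ⟨x, hx, rfl⟩
    left_inv' := by
      rintro _ ⟨x, hx, rfl⟩
      rw [pinv_left P i hx]
    right_inv' := fun x hx => pinv_left P i hx
    open_source := isOpen_img P i (P.isOpen i) Subset.rfl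
    open_target := P.isOpen i
    continuousOn_toFun := cont_inv P i
    continuousOn_invFun := cont_phi P i }

private theorem pholo (P : ParamSys X) (i j : P.ι) :
    DifferentiableOn ℂ (pinv P j ∘ P.φ i) (P.U i ∩ P.φ i ⁻¹' (P.φ j '' P.U j)) := by
  obtain ⟨g, hg1, hg2⟩ := P.trans i j
  refine hg1.congr ?_
  rintro x ⟨hx, hx'⟩
  obtain ⟨h1, h2⟩ := hg2 x hx hx'
  simp only [Function.comp_apply]
  rw [← h2, pinv_left P j h1]

private def pchm (P : ParamSys X) : CHM X where
  top := ptop P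
  t2 := by
    let := ptop P
    refine ⟨fun p q hpq => ?_⟩
    obtain ⟨i, j, x, hx, y, hy, hxp, hyq, A, hA, B, hB, hd⟩ := P.sep p q hpq
    refine ⟨P.φ i '' (interior A ∩ P.U i), P.φ j '' (interior B ∩ P.U j),
      isOpen_img P i (isOpen_interior.inter (P.isOpen i)) inter_subset_right,
      isOpen_img P j (isOpen_interior.inter (P.isOpen j)) inter_subset_right,
      ⟨x, ⟨mem_interior_iff_mem_nhds.2 hA, hx⟩, hxp⟩,
      ⟨y, ⟨mem_interior_iff_mem_nhds.2 hB, hy⟩, hyq⟩, ?_⟩
    exact hd.mono (image_mono (inter_subset_inter_left _ interior_subset))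
      (image_mono (inter_subset_inter_left _ interior_subset))
  ι := P.ι
  E := P.E
  chart := pchart P
  cover := fun p => by
    obtain ⟨i, x, hx, hxp⟩ := P.cover p
    exact ⟨i, x, hx, hxp⟩
  holo := fun i j => pholo P i j

theorem exists_chm (P : ParamSys X) : ∃ M : CHM X,
    (∀ W : Set X, IsOpen[M.top] W ↔ ∀ i, IsOpen (P.U i ∩ P.φ i ⁻¹' W)) ∧
    ∀ i, Biholo (CHM.ofSpace (P.E i)) M (P.φ i) (P.U i) (P.φ i '' P.U i) := by
  refine ⟨pchm P, fun W => Iff.rfl, fun i => ?_⟩
  refine ⟨P.isOpen i, isOpen_img P i (P.isOpen i) Subset.rfl, (P.inj i).bijOn_image, ?_,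
    pinv P i, fun x hx => pinv_left P i hx, ?_⟩
  · refine ⟨cont_phi P i, ?_⟩
    intro _ (j : P.ι)
    have h := pholo P i j
    have h2 := h.mono (s := {x | x ∈ P.U i ∧ P.φ i x ∈ P.φ j '' P.U j}) (fun x hx => hx)
    intro x hx
    exact (h2.mono (fun y (hy : y ∈ univ ∩ {x | x ∈ P.U i ∧ P.φ i x ∈ P.φ j '' P.U j}) => hy.2)) x hx
  · refine ⟨cont_inv P i, ?_⟩
    intro (j : P.ι) _
    have h := pholo P j i
    intro x hx
    exact (h.mono (fun y (hy : y ∈ P.U j ∩ P.φ j ⁻¹' (P.φ i '' P.U i ∩ univ)) =>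
      ⟨hy.1, hy.2.1⟩)) x hx

end QC

end
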