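import Pool.Agent.Work.MP_217185_an.ManDefs
import Pool.Agent.Work.MP_217185_an.ManA

/-! # ManDef2: construction of a Hilbert manifold from parametrisations

Topology: `W` open iff `U i ∩ φ i ⁻¹' W` is open for all `i`.  `φ i '' A` is open for open
`A ⊆ U i`: `U j ∩ φ j ⁻¹' (φ i '' A) = {y ∈ V_{ji} | g_{ji} y ∈ A}`.  So `φ i` is an open embedding of
`U i`; charts `= (φ i)⁻¹`.  Hausdorff by `sep`.
`conn`: `W` is open and closed and path connected in the sense given, so it is a connected component.
`biholo_of_params`: a map that carries parametrisations to parametrisations (same parameter domain) is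
a biholomorphism onto its image. -/

open Set Metric Filter
open scoped Topology

noncomputable section

namespace QC

variable {X Y : Type}

/-- the manifold defined by the parametrisations. -/
def ParamSys.chm (P : ParamSys X) : CHM X := (exists_chm P).choose

theorem ParamSys.isOpen_iff (P : ParamSys X) (W : Set X) :
    IsOpen[P.chm.top] W ↔ ∀ i, IsOpen (P.U i ∩ P.φ i ⁻¹' W) := (exists_chm P).choose_spec.1 W

theorem ParamSys.biholo (P : ParamSys X) (i : P.ι) :
    Biholo (CHM.ofSpace (P.E i)) P.chm (P.φ i) (P.U i) (P.φ i '' P.U i) :=
  (exists_chm P).choose_spec.2 i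

end QC

end
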