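import Pool.Agent.Work.MP_217185_an.ManDefs
import Pool.Agent.Work.MP_217185_an.ManDef2

/-! # ManC: construction of a Hilbert manifold from parametrisations

Topology: `W` open iff `U i ∩ φ i ⁻¹' W` is open for all `i`.  `φ i '' A` is open for open
`A ⊆ U i`: `U j ∩ φ j ⁻¹' (φ i '' A) = {y ∈ V_{ji} | g_{ji} y ∈ A}`.  So `φ i` is an open embedding of
`U i`; charts `= (φ i)⁻¹`.  Hausdorff by `sep`.
`conn`: `W` is open and closed and path connected in the sense given, so it is a connected component.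
`biholo_of_params`: a map that carries parametrisations to parametrisations (same parameter domain) is
a biholomorphism onto its image. -/

open Set Metric Filter
open scoped Topology

noncomputable section

namespace QC

variable {X Y : Type}

/-- If `W` is a union of parametrised pieces, as well as its complement, and its points are joined to
`p` by continuous paths, then `W` is the connected component of `p`. -/
theorem ParamSys.conn (P : ParamSys X) {W : Set X} {p : X} (hp : p ∈ W)
    (h1 : ∀ i, (P.φ i '' P.U i ⊆ W) ∨ (P.φ i '' P.U i ⊆ Wᶜ))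
    (h2 : ∀ q ∈ W, ∃ c : ℝ → X, c 0 = p ∧ c 1 = q ∧ (∀ t ∈ Icc (0 : ℝ) 1, c t ∈ W) ∧
      ∀ t ∈ Icc (0 : ℝ) 1, ∃ i, ∃ y : ℝ → P.E i, ContinuousWithinAt y (Icc 0 1) t ∧
        ∀ᶠ s in 𝓝[Icc 0 1] t, y s ∈ P.U i ∧ P.φ i (y s) = c s) :
    @connectedComponent X P.chm.top p = W := by
  let := P.chm.top
  have hWo : IsOpen W := by
    rw [P.isOpen_iff]
    intro i
    rcases h1 i with h | h
    · have : P.U i ∩ P.φ i ⁻¹' W = P.U i := by
        ext x
        exact ⟨fun hx => hx.1, fun hx => ⟨hx, h ⟨x, hx, rfl⟩⟩⟩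
      rw [this]
      exact P.isOpen i
    · have : P.U i ∩ P.φ i ⁻¹' W = ∅ := by
        ext x
        exact ⟨fun hx => (h ⟨x, hx.1, rfl⟩) hx.2, fun hx => hx.elim⟩
      rw [this]
      exact isOpen_empty
  have hWc : IsOpen Wᶜ := by
    rw [P.isOpen_iff]
    intro i
    rcases h1 i with h | h
    · have : P.U i ∩ P.φ i ⁻¹' Wᶜ = ∅ := by
        ext x
        exact ⟨fun hx => hx.2 (h ⟨x, hx.1, rfl⟩), fun hx => hx.elim⟩
      rw [this]
      exact isOpen_empty
    · have : P.U i ∩ P.φ i ⁻¹' Wᶜ = P.U i := by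
        ext x
        exact ⟨fun hx => hx.1, fun hx => ⟨hx, h ⟨x, hx, rfl⟩⟩⟩
      rw [this]
      exact P.isOpen i
  have hclopen : IsClopen W := ⟨⟨hWc⟩, hWo⟩
  have hphi : ∀ i, ContinuousOn (P.φ i) (P.U i) := fun i => (P.biholo i).hol.1
  apply Subset.antisymm
  · exact hclopen.connectedComponent_subset hp
  · refine IsPreconnected.subset_connectedComponent ?_ hp
    refine isPreconnected_of_forall p fun q hq => ?_
    obtain ⟨c, hc0, hc1, hcW, hc⟩ := h2 q hq
    have hcc : ContinuousOn c (Icc (0 : ℝ) 1) := by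
      intro t ht
      obtain ⟨i, y, hy, hev⟩ := hc t ht
      have ht' := hev.self_of_nhdsWithin ht
      have h3 : ContinuousWithinAt (P.φ i ∘ y) (Icc (0 : ℝ) 1) t := by
        have h4 : ContinuousAt (P.φ i) (y t) := (hphi i).continuousAt ((P.isOpen i).mem_nhds ht'.1)
        exact h4.comp_continuousWithinAt hy
      refine h3.congr_of_eventuallyEq ?_ ht'.2.symm
      filter_upwards [hev] with s hs
      exact hs.2.symm
    refine ⟨c '' Icc (0 : ℝ) 1, ?_, ⟨0, by simp, hc0⟩, ⟨1, by simp, hc1⟩,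
      isPreconnected_Icc.image c hcc⟩
    rintro _ ⟨t, ht, rfl⟩
    exact hcW t ht

end QC

end
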