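import Pool.Agent.Work.MP_217185_an.PhiM

/-! # TransA: holomorphic transitions, Hausdorff property, paths

* `trans_phi`: suppose `phi hh x₀ = phi hh' x₀'`.  `F_{x₀} h = σ F_{x₀'} h'` on the circle (up to the
  direction of `σ`), `K = F_{x₀'}⁻¹ σ⁻¹ F_{x₀}` is nice, `K h = h'` on the circle, so
  `Tgt S₂ K S₂'` (`Tgt.unique`, `Tgt.congr`).  For `x` in the ball, `y` in the ball of `S₂'`:
  `phi hh x = phi hh' y` iff `F_x h ~ F_y K h` iff `F_x K⁻¹ ~ F_y` iff `Ψ x = bersE y` (`transK` for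
  `H = K`, `bers_inj`), i.e. `Ψ x = e y` with `e` from `loc_inv S₂'`.  So the domain is
  `{x | Ψ x ∈ e.target}` (open, `Ψ` continuous) and the transition is `e.symm ∘ Ψ`.
  If there is no such pair `(x₀, x₀')` the set is empty.
* `sep_phi`: different leaves: use `phi hh`, `phi hh'` at `0` (`phi_mem_leaf`, `leaf_eq`).  Same leaf
  `Leaf hh`: `p = [G h]`, `q = [G' h]`, `G, G'` nice (`leaf_nice`); parametrisations at `G h`, `G' h`.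
  `transK` for `H = G⁻¹`: `Ψ x = bersE S₂` of the coefficient of `F_x G`, similarly `Ψ'`; they are
  continuous, `Ψ 0 ≠ Ψ' 0` because `p ≠ q` (`bers_inj`), and `phi x = phi y` implies
  `Ψ x = Ψ' y`.  Separate in `HSp S₂`.
* `path_phi`: `m` WP marking of `S₂`, coefficient `μ`; `F_t` with coefficient `t μ`
  (`exists_tgt_of_coeff`), `c t = [F_t h]`.  At `t₀`: nice `G : S₂ → S₃` with `G = F_{t₀}` on the
  circle (`exists_nice`), parametrisation at `G h`.  `transK_gen` with `E = ℂ`,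
  `c t = t μ` on the open set `‖t‖ < 1 + η`, `H = G`: `Ψ t = bersE S₃` of the coefficient of
  `F_t G⁻¹`, holomorphic in `t`, `Ψ t₀ = 0` (`F_{t₀} G⁻¹` is the identity on the circle).  For
  `t` near `t₀`, `Ψ t ∈ e.target`, `y t = e.symm (Ψ t)`, `phi (y t) = c t` (`bers_inj`). -/

open MeasureTheory Complex Set Metric Filter
open scoped Topology ENNReal NNReal ContDiff ComplexConjugate

noncomputable section

namespace QC

variable {S S₂ S₂' : Bord} {h h' : CD ≃ₜ CD}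

/-- the Bers coordinate of `F_x ∘ K`, `K : S₂' → S₂` nice, depends holomorphically on `x`. -/
theorem exists_Psi {K : CD ≃ₜ CD} (hK : Nice S₂' K S₂) :
    ∃ Ψ : HSp S₂ → HSp S₂', DifferentiableOn ℂ Ψ (ball 0 (rad S₂)) ∧
      ∀ x ∈ ball (0 : HSp S₂) (rad S₂), ∀ m : Marked S₂, (∃ k, IsQC k m.F x.fn) →
        ∀ (n : CD ≃ₜ CD) (k' : ℝ) (μ' : ℂ → ℂ), IsQC k' n μ' → AEInv S₂' μ' → L2hyp S₂' μ' →
          (Ψ x = bersE S₂' μ' ↔
            ∃ σ, IsMob σ ∧ ∀ u : CD, ‖(u : ℂ)‖ = 1 → n u = σ (m.F (K u))) := by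
  obtain ⟨Ψ, h1, h2⟩ := transK hK.inv
  refine ⟨Ψ, h1, fun x hx m hm n k' μ' hn hi hl => ?_⟩
  obtain ⟨⟨m₁, ⟨k₁, hk₁⟩, hm₁⟩, _⟩ := phi_spec hK.tgt (mem_ball_zero_iff.1 hx)
  have h3 : Nice S₂' (m₁.F * K) m₁.T := hm₁.comp hK
  obtain ⟨k₂, ν, h4, h5⟩ := h3.l2
  have h6 : (Ψ x).fn = bersD ν := h2 x hx m₁.F k₁ k₂ ν hk₁ (by rw [inv_inv]; exact h4)
  have h7 : AEInv S₂' ν := h4.aeInv h3.tgt.isQCS.eqv
  have h8 : Ψ x = bersE S₂' ν := HSp.ext (by rw [h6, bersE_fn h4.bel h4.supp h7 h5])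
  rw [h8, bersE_eq_iff h4 hn h7 hi h5 hl]
  obtain ⟨k, hk⟩ := hm
  have h9 : IsMob (m.F * m₁.F⁻¹) := hk₁.uniq hk
  constructor
  · rintro ⟨σ, hσ, he⟩
    refine ⟨σ * (m.F * m₁.F⁻¹)⁻¹, hσ.mul h9.inv, fun u hu => ?_⟩
    rw [he u hu]
    change σ (m₁.F (K u)) = σ (((m.F * m₁.F⁻¹)⁻¹) (m.F (K u)))
    congr 1
    change m₁.F (K u) = m₁.F (m.F.symm (m.F (K u)))
    rw [m.F.symm_apply_apply]
  · rintro ⟨σ, hσ, he⟩
    refine ⟨σ * (m.F * m₁.F⁻¹), hσ.mul h9, fun u hu => ?_⟩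
    rw [he u hu]
    change σ (m.F (K u)) = σ (m.F (m₁.F.symm (m₁.F (K u))))
    rw [m₁.F.symm_apply_apply]

/-- the comparison of two parametrisations. -/
theorem phi_eq_iff (hh : Tgt S h S₂) (hh' : Tgt S h' S₂') {K : CD ≃ₜ CD} (hK : Nice S₂' K S₂)
    (hKe : ∀ x : CD, ‖(x : ℂ)‖ = 1 → K (h' x) = h x) :
    ∃ Ψ : HSp S₂ → HSp S₂', DifferentiableOn ℂ Ψ (ball 0 (rad S₂)) ∧
      ∀ x ∈ ball (0 : HSp S₂) (rad S₂), ∀ m : Marked S₂', ∀ (k : ℝ) (μ : ℂ → ℂ),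
        IsQC k m.F μ → L2hyp S₂' μ →
        (phi hh x = Teich.mk (m.comp hh') ↔ Ψ x = bersE S₂' μ) := by
  obtain ⟨Ψ, h1, h2⟩ := exists_Psi hK
  refine ⟨Ψ, h1, fun x hx m k μ hm hl => ?_⟩
  obtain ⟨⟨m₁, hm₁, hn₁⟩, h3⟩ := phi_spec hh (mem_ball_zero_iff.1 hx)
  rw [h2 x hx m₁ hm₁ m.F k μ hm (hm.aeInv m.tgt.isQCS.eqv) hl, h3 m₁ hm₁, mk_eq_iff]
  obtain ⟨k', ν, hq⟩ := hh'.qc
  constructor
  · rintro ⟨σ, hσ, he⟩
    refine ⟨σ, hσ, fun u hu => ?_⟩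
    have h4 := he (h'.symm u) (circle_surj hq u hu)
    have h5 : m.F (h' (h'.symm u)) = σ (m₁.F (h (h'.symm u))) := h4
    rw [← hKe _ (circle_surj hq u hu), h'.apply_symm_apply] at h5
    exact h5
  · rintro ⟨σ, hσ, he⟩
    refine ⟨σ, hσ, fun u hu => ?_⟩
    have h1 : ‖((h' u : CD) : ℂ)‖ = 1 := by
      have h2 : ‖((h' u : CD) : ℂ)‖ ≤ 1 := mem_closedBall_zero_iff.1 (h' u).2
      have h3 : ¬ ‖((h' u : CD) : ℂ)‖ < 1 := by rw [hq.pres u, hu]; exact lt_irrefl _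
      exact le_antisymm h2 (not_lt.1 h3)
    change m.F (h' u) = σ (m₁.F (h u))
    rw [he _ h1, hKe u hu]

theorem trans_phi (hh : Tgt S h S₂) (hh' : Tgt S h' S₂') :
    IsOpen {x | x ∈ ball (0 : HSp S₂) (rad S₂) ∧ phi hh x ∈ phi hh' '' ball 0 (rad S₂')} ∧
    ∃ g : HSp S₂ → HSp S₂', DifferentiableOn ℂ g
        {x | x ∈ ball (0 : HSp S₂) (rad S₂) ∧ phi hh x ∈ phi hh' '' ball 0 (rad S₂')} ∧
      ∀ x, x ∈ ball (0 : HSp S₂) (rad S₂) → phi hh x ∈ phi hh' '' ball 0 (rad S₂') →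
        g x ∈ ball (0 : HSp S₂') (rad S₂') ∧ phi hh' (g x) = phi hh x := by
  by_cases hne : ∃ x₀ ∈ ball (0 : HSp S₂) (rad S₂), ∃ y₀ ∈ ball (0 : HSp S₂') (rad S₂'),
      phi hh' y₀ = phi hh x₀
  · obtain ⟨x₀, hx₀, y₀, hy₀, h0⟩ := hne
    obtain ⟨⟨m, hm, hn⟩, s1⟩ := phi_spec hh (mem_ball_zero_iff.1 hx₀)
    obtain ⟨⟨m', hm', hn'⟩, s2⟩ := phi_spec hh' (mem_ball_zero_iff.1 hy₀)
    rw [s1 m hm, s2 m' hm'] at h0
    obtain ⟨K, hK, hKe⟩ := exists_compare hh hh' hn hn' h0.symm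
    obtain ⟨Ψ, h1, h2⟩ := phi_eq_iff hh hh' hK hKe
    obtain ⟨e, e1, e2, e3, e4⟩ := rad_spec S₂'
    have key : ∀ x ∈ ball (0 : HSp S₂) (rad S₂), ∀ y ∈ ball (0 : HSp S₂') (rad S₂'),
        (phi hh x = phi hh' y ↔ Ψ x = e y) := by
      intro x hx y hy
      obtain ⟨⟨n, ⟨k, hk⟩, _⟩, s3⟩ := phi_spec hh' (mem_ball_zero_iff.1 hy)
      rw [s3 n ⟨k, hk⟩, h2 x hx n k y.fn hk y.l2, e2 y hy]
    have hset : {x | x ∈ ball (0 : HSp S₂) (rad S₂) ∧ phi hh x ∈ phi hh' '' ball 0 (rad S₂')} =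
        ball (0 : HSp S₂) (rad S₂) ∩ Ψ ⁻¹' e.target := by
      ext x
      constructor
      · rintro ⟨hx, y, hy, hxy⟩
        refine ⟨hx, ?_⟩
        rw [mem_preimage, (key x hx y hy).1 hxy.symm]
        exact e.map_source (by rw [e1]; exact hy)
      · rintro ⟨hx, hx2⟩
        have h3 : e.symm (Ψ x) ∈ ball (0 : HSp S₂') (rad S₂') := by
          rw [← e1]; exact e.map_target hx2
        refine ⟨hx, e.symm (Ψ x), h3, ?_⟩
        rw [(key x hx _ h3).2 (e.right_inv hx2).symm]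
    rw [hset]
    refine ⟨h1.continuousOn.isOpen_inter_preimage isOpen_ball e.open_target,
      fun x => e.symm (Ψ x), ?_, ?_⟩
    · exact e4.comp (h1.mono inter_subset_left) fun x hx => hx.2
    · intro x hx hxy
      have hx2 : x ∈ ball (0 : HSp S₂) (rad S₂) ∩ Ψ ⁻¹' e.target := by
        rw [← hset]; exact ⟨hx, hxy⟩
      have h3 : e.symm (Ψ x) ∈ ball (0 : HSp S₂') (rad S₂') := by
        rw [← e1]; exact e.map_target hx2.2
      exact ⟨h3, ((key x hx _ h3).2 (e.right_inv hx2.2).symm).symm⟩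
  · have hset : {x | x ∈ ball (0 : HSp S₂) (rad S₂) ∧
        phi hh x ∈ phi hh' '' ball 0 (rad S₂')} = ∅ := by
      ext x
      constructor
      · rintro ⟨hx, y, hy, hxy⟩
        exact (hne ⟨x, hx, y, hy, hxy⟩).elim
      · exact fun hx => hx.elim
    rw [hset]
    refine ⟨isOpen_empty, fun _ => 0, differentiableOn_empty, fun x hx hxy => ?_⟩
    obtain ⟨y, hy, hxy⟩ := hxy
    exact (hne ⟨x, hx, y, hy, hxy⟩).elim

end QC

end
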