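import Pool.Agent.Work.MP_217185_an.PhiM
import Pool.Agent.Work.MP_217185_an.TransA

/-! # TransB: holomorphic transitions, Hausdorff property, paths

* `trans_phi`: suppose `phi hh x₀ = phi hh' x₀'`.  `F_{x₀} h = σ F_{x₀'} h'` on the circle (up to the
  direction of `σ`), `K = F_{x₀'}⁻¹ σ⁻¹ F_{x₀}` is nice, `K h = h'` on the circle, so
  `Tgt S₂ K S₂'` (`Tgt.unique`, `Tgt.congr`).  For `x` in the ball, `y` in the ball of `S₂'`: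
  `phi hh x = phi hh' y` iff `F_x h ~ F_y K h` iff `F_x K⁻¹ ~ F_y` iff `Ψ x = bersE y` (`transK` for
  `H = K`, `bers_inj`), i.e. `Ψ x = e y` with `e` from `loc_inv S₂'`.  So the domain is
  `{x | Ψ x ∈ e.target}` (open, `Ψ` continuous) and the transition is `e.symm ∘ Ψ`.
  If there is no such pair `(x₀, x₀')` the set is empty.
* `sep_phi`: different leaves: use `phi hh`, `phi hh'` at `0` (`phi_mem_leaf`, `leaf_eq`).  Same leaf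
  `Leaf hh`: `p = [G h]`, `q = [G' h]`, `G, G'` nice (`leaf_nice`); parametrisations at `G h`, `G' h`.
  `transK` for `H = G⁻¹`: `Ψ x = bersE S₂` of the coefficient of `F_x G`, similarly `Ψ'`; they are
  continuous, `Ψ 0 ≠ Ψ' 0` because `p ≠ q` (`bers_inj`), and `phi x = phi y` implies
  `Ψ x = Ψ' y`.  Separate in `HSp S₂`.
* `path_phi`: `m` WP marking of `S₂`, coefficient `μ`; `F_t` with coefficient `t μ`
  (`exists_tgt_of_coeff`), `c t = [F_t h]`.  At `t₀`: nice `G : S₂ → S₃` with `G = F_{t₀}` on the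
  circle (`exists_nice`), parametrisation at `G h`.  `transK_gen` with `E = ℂ`,
  `c t = t μ` on the open set `‖t‖ < 1 + η`, `H = G`: `Ψ t = bersE S₃` of the coefficient of
  `F_t G⁻¹`, holomorphic in `t`, `Ψ t₀ = 0` (`F_{t₀} G⁻¹` is the identity on the circle).  For
  `t` near `t₀`, `Ψ t ∈ e.target`, `y t = e.symm (Ψ t)`, `phi (y t) = c t` (`bers_inj`). -/

open MeasureTheory Complex Set Metric Filter
open scoped Topology ENNReal NNReal ContDiff ComplexConjugate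

noncomputable section

namespace QC

variable {S S₂ S₂' : Bord} {h h' : CD ≃ₜ CD}

theorem sep_same {h₀ : CD ≃ₜ CD} {S₀ : Bord} (hh₀ : Tgt S h₀ S₀) {p q : Teich S}
    (hp : p ∈ Leaf hh₀) (hq : q ∈ Leaf hh₀) (hpq : p ≠ q) :
    ∃ m m' : Marked S₀, Nice S₀ m.F m.T ∧ Nice S₀ m'.F m'.T ∧
      phi (m.tgt.comp hh₀) 0 = p ∧ phi (m'.tgt.comp hh₀) 0 = q ∧
      ∃ A ∈ 𝓝 (0 : HSp m.T), ∃ B ∈ 𝓝 (0 : HSp m'.T),
        Disjoint (phi (m.tgt.comp hh₀) '' (A ∩ ball 0 (rad m.T)))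
          (phi (m'.tgt.comp hh₀) '' (B ∩ ball 0 (rad m'.T))) := by
  obtain ⟨m, hm, h1⟩ := leaf_nice hh₀ hp
  obtain ⟨m', hm', h2⟩ := leaf_nice hh₀ hq
  have e1 : phi (m.tgt.comp hh₀) 0 = p := by rw [phi_zero]; exact h1
  have e2 : phi (m'.tgt.comp hh₀) 0 = q := by rw [phi_zero]; exact h2
  refine ⟨m, m', hm, hm', e1, e2, ?_⟩
  obtain ⟨Ψ, c1, d1⟩ := phi_eq_iff (m.tgt.comp hh₀) hh₀ hm (fun _ _ => rfl)
  obtain ⟨Ψ', c2, d2⟩ := phi_eq_iff (m'.tgt.comp hh₀) hh₀ hm' (fun _ _ => rfl)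
  have z1 : (0 : HSp m.T) ∈ ball (0 : HSp m.T) (rad m.T) := mem_ball_self (rad_pos _)
  have z2 : (0 : HSp m'.T) ∈ ball (0 : HSp m'.T) (rad m'.T) := mem_ball_self (rad_pos _)
  obtain ⟨k', μ', hk', hl'⟩ := hm'.l2
  have hne : Ψ 0 ≠ Ψ' 0 := by
    intro heq
    apply hpq
    have h3 : Ψ' 0 = bersE S₀ μ' := (d2 0 z2 m' k' μ' hk' hl').1 (by rw [e2, h2])
    rw [← e1, (d1 0 z1 m' k' μ' hk' hl').2 (heq.trans h3), h2]
  obtain ⟨V, V', hV, hV', hV0, hV0', hVV⟩ := t2_separation hne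
  have n1 : ball (0 : HSp m.T) (rad m.T) ∩ Ψ ⁻¹' V ∈ 𝓝 (0 : HSp m.T) :=
    (c1.continuousOn.isOpen_inter_preimage isOpen_ball hV).mem_nhds ⟨z1, hV0⟩
  have n2 : ball (0 : HSp m'.T) (rad m'.T) ∩ Ψ' ⁻¹' V' ∈ 𝓝 (0 : HSp m'.T) :=
    (c2.continuousOn.isOpen_inter_preimage isOpen_ball hV').mem_nhds ⟨z2, hV0'⟩
  refine ⟨_, n1, _, n2, ?_⟩
  rw [Set.disjoint_left]
  rintro r ⟨x, ⟨⟨hx, hxV⟩, _⟩, rfl⟩ ⟨y, ⟨⟨hy, hyV⟩, _⟩, hxy⟩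
  obtain ⟨⟨m₁, hm₁, hn₁⟩, s1⟩ := phi_spec (m.tgt.comp hh₀) (mem_ball_zero_iff.1 hx)
  have hn : Nice S₀ (m₁.F * m.F) m₁.T := hn₁.comp hm
  obtain ⟨k, μ, hk, hl⟩ := hn.l2
  have e3 : phi (m.tgt.comp hh₀) x =
      Teich.mk ((⟨m₁.F * m.F, m₁.T, hn.tgt⟩ : Marked S₀).comp hh₀) := s1 m₁ hm₁
  have e4 : Ψ x = bersE S₀ μ := (d1 x hx ⟨m₁.F * m.F, m₁.T, hn.tgt⟩ k μ hk hl).1 e3
  have e5 : Ψ' y = bersE S₀ μ :=
    (d2 y hy ⟨m₁.F * m.F, m₁.T, hn.tgt⟩ k μ hk hl).1 (hxy.trans e3)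
  have hxV' : Ψ x ∈ V := hxV
  have hyV' : Ψ' y ∈ V' := hyV
  rw [e4] at hxV'
  rw [e5] at hyV'
  exact Set.disjoint_left.1 hVV hxV' hyV'

theorem sep_phi {p q : Teich S} (hpq : p ≠ q) :
    ∃ (h : CD ≃ₜ CD) (S₂ : Bord) (hh : Tgt S h S₂) (h' : CD ≃ₜ CD) (S₂' : Bord)
      (hh' : Tgt S h' S₂'), phi hh 0 = p ∧ phi hh' 0 = q ∧
      ∃ A ∈ 𝓝 (0 : HSp S₂), ∃ B ∈ 𝓝 (0 : HSp S₂'),
        Disjoint (phi hh '' (A ∩ ball 0 (rad S₂))) (phi hh' '' (B ∩ ball 0 (rad S₂'))) := by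
  obtain ⟨m, hm⟩ := Quot.exists_rep p
  obtain ⟨m', hm'⟩ := Quot.exists_rep q
  have l1 : p ∈ Leaf m.tgt := by rw [← hm]; exact leaf_self m.tgt
  have l2 : q ∈ Leaf m'.tgt := by rw [← hm']; exact leaf_self m'.tgt
  by_cases hne : (Leaf m.tgt ∩ Leaf m'.tgt).Nonempty
  · have l3 : q ∈ Leaf m.tgt := by rw [leaf_eq _ _ hne]; exact l2
    obtain ⟨n, n', _, _, h1, h2, A, hA, B, hB, hAB⟩ := sep_same m.tgt l1 l3 hpq
    exact ⟨_, _, n.tgt.comp m.tgt, _, _, n'.tgt.comp m.tgt, h1, h2, A, hA, B, hB, hAB⟩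
  · refine ⟨m.F, m.T, m.tgt, m'.F, m'.T, m'.tgt, ?_, ?_, univ, univ_mem, univ, univ_mem, ?_⟩
    · rw [phi_zero]; exact hm
    · rw [phi_zero]; exact hm'
    · rw [Set.disjoint_left]
      rintro r ⟨x, hx, rfl⟩ ⟨y, hy, hxy⟩
      refine hne ⟨phi m.tgt x, phi_mem_leaf m.tgt (mem_ball_zero_iff.1 hx.2), ?_⟩
      rw [← hxy]
      exact phi_mem_leaf m'.tgt (mem_ball_zero_iff.1 hy.2)

/-- for two points of `TWP S` the parametrisations may be chosen at WP markings. -/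
theorem sep_phi_wp {p q : Teich S} (hp : p ∈ TWP S) (hq : q ∈ TWP S) (hpq : p ≠ q) :
    ∃ (h : CD ≃ₜ CD) (S₂ : Bord) (hh : Tgt S h S₂) (h' : CD ≃ₜ CD) (S₂' : Bord)
      (hh' : Tgt S h' S₂'), IsWP S h S₂ ∧ IsWP S h' S₂' ∧ phi hh 0 = p ∧ phi hh' 0 = q ∧
      ∃ A ∈ 𝓝 (0 : HSp S₂), ∃ B ∈ 𝓝 (0 : HSp S₂'),
        Disjoint (phi hh '' (A ∩ ball 0 (rad S₂))) (phi hh' '' (B ∩ ball 0 (rad S₂'))) := by
  rw [← leaf_base] at hp hq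
  obtain ⟨n, n', h3, h4, h1, h2, A, hA, B, hB, hAB⟩ := sep_same (tgt_one S) hp hq hpq
  exact ⟨_, _, n.tgt.comp (tgt_one S), _, _, n'.tgt.comp (tgt_one S),
    (h3.comp (nice_one S)).isWP, (h4.comp (nice_one S)).isWP, h1, h2, A, hA, B, hB, hAB⟩

end QC

end
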