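import Pool.Agent.Work.MP_217185_an.PhiM
import Pool.Agent.Work.MP_217185_an.TransA

/-! # TransC: holomorphic transitions, Hausdorff property, paths

* `trans_phi`: suppose `phi hh x₀ = phi hh' x₀'`.  `F_{x₀} h = σ F_{x₀'} h'` on the circle (up to the
  direction of `σ`), `K = F_{x₀'}⁻¹ σ⁻¹ F_{x₀}` is nice, `K h = h'` on the circle, so
  `Tgt S₂ K S₂'` (`Tgt.unique`, `Tgt.congr`).  For `x` in the ball, `y` in the ball of `S₂'`:
  `phi hh x = phi hh' y` iff `F_x h ~ F_y K h` iff `F_x K⁻¹ ~ F_y` iff `Ψ x = bersE y` (`transK` for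
  `H = K`, `bers_inj`), i.e. `Ψ x = e y` with `e` from `loc_inv S₂'`.  So the domain is
  `{x | Ψ x ∈ e.target}` (open, `Ψ` continuous) and the transition is `e.symm ∘ Ψ`.
  If there is no such pair `(x₀, x₀')` the set is empty.
* `sep_phi`: different leaves: use `phi hh`, `phi hh'` at `0` (`phi_mem_leaf`, `leaf_eq`).  Same leaf
  `Leaf hh`: `p = [G h]`, `q = [G' h]`, `G, G'` nice (`leaf_nice`); parametrisations at `G h`, `G' h`.
  `transK` for `H = G⁻¹`: `Ψ x = bersE S₂` of the coefficient of `F_x G`, similarly `Ψ'`; they are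
  continuous, `Ψ 0 ≠ Ψ' 0` because `p ≠ q` (`bers_inj`), and `phi x = phi y` implies
  `Ψ x = Ψ' y`.  Separate in `HSp S₂`.
* `path_phi`: `m` WP marking of `S₂`, coefficient `μ`; `F_t` with coefficient `t μ`
  (`exists_tgt_of_coeff`), `c t = [F_t h]`.  At `t₀`: nice `G : S₂ → S₃` with `G = F_{t₀}` on the
  circle (`exists_nice`), parametrisation at `G h`.  `transK_gen` with `E = ℂ`,
  `c t = t μ` on the open set `‖t‖ < 1 + η`, `H = G`: `Ψ t = bersE S₃` of the coefficient of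
  `F_t G⁻¹`, holomorphic in `t`, `Ψ t₀ = 0` (`F_{t₀} G⁻¹` is the identity on the circle).  For
  `t` near `t₀`, `Ψ t ∈ e.target`, `y t = e.symm (Ψ t)`, `phi (y t) = c t` (`bers_inj`). -/

open MeasureTheory Complex Set Metric Filter
open scoped Topology ENNReal NNReal ContDiff ComplexConjugate

noncomputable section

namespace QC

variable {S S₂ S₂' : Bord} {h h' : CD ≃ₜ CD}

theorem aeInv_mul {μ : ℂ → ℂ} (hi : AEInv S μ) (s : ℂ) : AEInv S (fun z => s * μ z) := by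
  intro γ hγ a b hab he
  filter_upwards [hi γ hγ a b hab he] with z hz
  have h1 : pull a b (fun z => s * μ z) z = s * pull a b μ z := by
    unfold pull
    split_ifs
    · ring
    · ring
  rw [h1, hz]

theorem lint_mul {μ : ℂ → ℂ} (s : ℂ) (P : Set ℂ) :
    ∫⁻ z in P, ‖s * μ z‖ₑ ^ 2 ∂hyp = ‖s‖ₑ ^ 2 * ∫⁻ z in P, ‖μ z‖ₑ ^ 2 ∂hyp := by
  rw [← lintegral_const_mul' _ _ (by simp)]
  refine lintegral_congr fun z => ?_
  rw [enorm_mul, mul_pow]

theorem l2_mul {μ : ℂ → ℂ} (hl : L2hyp S μ) (s : ℂ) : L2hyp S (fun z => s * μ z) := by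
  obtain ⟨P, hP, h⟩ := hl
  refine ⟨P, hP, ?_⟩
  rw [lint_mul]
  exact ENNReal.mul_lt_top (by simp) h

theorem udiff_mul {k : ℝ} {μ : ℂ → ℂ} (hμ : Bel k μ) (s₀ : ℂ) :
    UDiff (fun (s : ℂ) z => s * μ z) s₀ := by
  refine ⟨1, k, fun s z => s * μ z, one_pos, fun x y ζ => ?_, fun c x ζ => ?_,
    fun s => hμ.meas.const_mul s, fun s ζ => ?_, fun s _ ζ => ?_⟩
  · ring
  · simp only [smul_eq_mul]; ring
  · rw [norm_mul, mul_comm]
    exact mul_le_mul_of_nonneg_right (hμ.le ζ) (norm_nonneg _)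
  · have h1 : (s₀ + s) * μ ζ - s₀ * μ ζ - s * μ ζ = 0 := by ring
    simp only [h1, norm_zero]
    have := (norm_nonneg _).trans (hμ.le ζ)
    positivity

theorem bel_mul {k R : ℝ} {μ : ℂ → ℂ} (hμ : Bel k μ) {s : ℂ} (hs : ‖s‖ ≤ R) (hR : R * k < 1) :
    Bel (R * k) (fun z => s * μ z) := by
  refine ⟨hμ.meas.const_mul s, fun z => ?_, hR⟩
  rw [norm_mul]
  exact mul_le_mul hs (hμ.le z) (norm_nonneg _) ((norm_nonneg _).trans hs)

theorem path_phi (hh : Tgt S h S₂) {m : Marked S₂} (hm : IsWP S₂ m.F m.T) :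
    ∃ c : ℝ → Teich S, c 0 = Teich.mk ⟨h, S₂, hh⟩ ∧ c 1 = Teich.mk (m.comp hh) ∧
      (∀ t ∈ Icc (0 : ℝ) 1, c t ∈ Leaf hh) ∧
      ∀ t ∈ Icc (0 : ℝ) 1, ∃ (h₀ : CD ≃ₜ CD) (S₀ : Bord) (hh₀ : Tgt S h₀ S₀) (y : ℝ → HSp S₀),
        ContinuousWithinAt y (Icc 0 1) t ∧
        ∀ᶠ s in 𝓝[Icc 0 1] t, y s ∈ ball (0 : HSp S₀) (rad S₀) ∧ phi hh₀ (y s) = c s := by
  obtain ⟨k, μ, hq, hl⟩ := hm.l2
  have hk0 : 0 ≤ k := (norm_nonneg _).trans (hq.bel.le 0)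
  have hk1 : k < 1 := hq.bel.lt
  have hi : AEInv S₂ μ := hq.aeInv hm.tgt.isQCS.eqv
  have hsup : ∀ s : ℂ, SuppIn 1 (fun z => s * μ z) := fun s z hz => by
    simp only [hq.supp z hz, mul_zero]
  -- the markings
  have hex : ∀ t ∈ Icc (0 : ℝ) 1, ∃ n : Marked S₂, IsQC (1 * k) n.F (fun z => (t : ℂ) * μ z) := by
    intro t ht
    have hb : Bel (1 * k) (fun z => (t : ℂ) * μ z) := by
      refine bel_mul hq.bel ?_ (by linarith)
      rw [Complex.norm_real, Real.norm_of_nonneg ht.1]; exact ht.2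
    obtain ⟨F, T, h1, h2⟩ := exists_tgt_of_coeff hb (hsup _) (aeInv_mul hi (t : ℂ))
    exact ⟨⟨F, T, h2⟩, h1⟩
  haveI : Nonempty (Marked S₂) := ⟨m⟩
  choose! n hn using hex
  have hwp : ∀ t ∈ Icc (0 : ℝ) 1, IsWP S₂ (n t).F (n t).T := fun t ht =>
    ⟨(n t).tgt, _, _, hn t ht, l2_mul hl _⟩
  refine ⟨fun t => Teich.mk ((n t).comp hh), ?_, ?_, fun t ht => ⟨n t, hwp t ht, rfl⟩, ?_⟩
  · have h0 := hn 0 ⟨le_rfl, zero_le_one⟩
    have h1 : IsQC (1 * k) (n 0).F 0 := by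
      have : (fun z => ((0 : ℝ) : ℂ) * μ z) = 0 := by funext z; simp
      rwa [this] at h0
    have h2 : Teich.mk ((n 0).comp hh) =
        Teich.mk ((⟨1, S₂, tgt_one S₂⟩ : Marked S₂).comp hh) := by
      rw [mk_comp_eq_iff]
      refine ⟨(1 : CD ≃ₜ CD) * (n 0).F⁻¹, h1.uniq isMob_one.isQC, fun x _ => ?_⟩
      change x = (n 0).F.symm ((n 0).F x)
      rw [(n 0).F.symm_apply_apply]
    exact h2
  · have h0 := hn 1 ⟨zero_le_one, le_rfl⟩
    have h1 : IsQC (1 * k) (n 1).F μ := by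
      have : (fun z => ((1 : ℝ) : ℂ) * μ z) = μ := by funext z; simp
      rwa [this] at h0
    simp only
    rw [mk_comp_eq_iff]
    refine ⟨m.F * (n 1).F⁻¹, h1.uniq hq, fun x _ => ?_⟩
    change m.F x = m.F ((n 1).F.symm ((n 1).F x))
    rw [(n 1).F.symm_apply_apply]
  · intro t₀ ht₀
    obtain ⟨G, hG, hGe⟩ := exists_nice (hwp t₀ ht₀)
    set T₀ := (n t₀).T with hT₀
    have hR : (1 + (1 - k) / 2) * k < 1 := by nlinarith
    obtain ⟨Ψ, d1, d2⟩ := transK_gen (S := S₂) (S' := T₀) (H := G) (E := ℂ)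
      (k := (1 + (1 - k) / 2) * k) (U := ball (0 : ℂ) (1 + (1 - k) / 2))
      (c := fun (s : ℂ) z => s * μ z) isOpen_ball
      (fun s hs => bel_mul hq.bel (mem_ball_zero_iff.1 hs).le hR) (fun s _ => hsup s)
      (fun s _ => aeInv_mul hi s) (fun s _ => l2_mul hl s) (fun s _ => udiff_mul hq.bel s)
      (fun a _ => by
        refine ⟨1, one_pos, ((ENNReal.ofReal (1 + (1 - k) / 2)) ^ 2 *
          ∫⁻ z in fund S₂, ‖μ z‖ₑ ^ 2 ∂hyp).toReal, fun s hs _ => ?_⟩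
        have hfin : ∫⁻ z in fund S₂, ‖μ z‖ₑ ^ 2 ∂hyp < ⊤ :=
          (L2hyp_iff hq.bel.meas hi (isFund_fund S₂)).1 hl
        rw [ENNReal.ofReal_toReal (ENNReal.mul_lt_top (by simp) hfin).ne, lint_mul]
        gcongr
        rw [← ofReal_norm_eq_enorm]
        exact ENNReal.ofReal_le_ofReal (mem_ball_zero_iff.1 hs).le) hG
    obtain ⟨e, e1, e2, e3, e4⟩ := rad_spec T₀
    -- value of Ψ on the interval
    have hval : ∀ t ∈ Icc (0 : ℝ) 1, ∀ (N : CD ≃ₜ CD) (k' : ℝ) (ν : ℂ → ℂ), IsQC k' N ν →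
        AEInv T₀ ν → L2hyp T₀ ν → (Ψ (t : ℂ) = bersE T₀ ν ↔
          ∃ σ, IsMob σ ∧ ∀ u : CD, ‖(u : ℂ)‖ = 1 → N u = σ ((n t).F (G⁻¹ u))) := by
      intro t ht N k' ν hN hNi hNl
      have htb : (t : ℂ) ∈ ball (0 : ℂ) (1 + (1 - k) / 2) := by
        rw [mem_ball_zero_iff, Complex.norm_real, Real.norm_of_nonneg ht.1]
        linarith [ht.2]
      have hw : IsWP T₀ ((n t).F * G⁻¹) (n t).T := (hwp t ht).comp_inv hG
      obtain ⟨k₂, μ', h1, h2⟩ := hw.l2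
      have h3 : (Ψ (t : ℂ)).fn = bersD μ' := d2 t htb (n t).F _ k₂ μ' (hn t ht) h1
      have h4 : AEInv T₀ μ' := h1.aeInv hw.tgt.isQCS.eqv
      have h5 : Ψ (t : ℂ) = bersE T₀ μ' := HSp.ext (by rw [h3, bersE_fn h1.bel h1.supp h4 h2])
      rw [h5, bersE_eq_iff h1 hN h4 hNi h2 hNl]
      rfl
    have htb₀ : (t₀ : ℂ) ∈ ball (0 : ℂ) (1 + (1 - k) / 2) := by
      rw [mem_ball_zero_iff, Complex.norm_real, Real.norm_of_nonneg ht₀.1]
      linarith [ht₀.2]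
    have z0 : (0 : HSp T₀) ∈ ball (0 : HSp T₀) (rad T₀) := mem_ball_self (rad_pos _)
    have hΨ0 : Ψ (t₀ : ℂ) = e 0 := by
      rw [e2 0 z0]
      refine (hval t₀ ht₀ 1 0 _ isMob_one.isQC (0 : HSp T₀).inv.aeInv (0 : HSp T₀).l2).2
        ⟨1, isMob_one, fun u hu => ?_⟩
      change u = (n t₀).F (G.symm u)
      obtain ⟨kG, μG, hGq, _⟩ := hG.l2
      rw [← hGe _ (circle_surj hGq u hu), G.apply_symm_apply]
    have hcont : ContinuousAt (fun t : ℝ => Ψ (t : ℂ)) t₀ := by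
      have h1 : ContinuousAt Ψ (t₀ : ℂ) :=
        (d1.continuousOn.continuousAt (isOpen_ball.mem_nhds htb₀))
      exact ContinuousAt.comp (f := fun t : ℝ => (t : ℂ)) h1 Complex.continuous_ofReal.continuousAt
    have htgt : Ψ (t₀ : ℂ) ∈ e.target := by
      rw [hΨ0]; exact e.map_source (by rw [e1]; exact z0)
    refine ⟨G * h, T₀, hG.tgt.comp hh, fun t => e.symm (Ψ (t : ℂ)), ?_, ?_⟩
    · have h1 : ContinuousAt e.symm (Ψ (t₀ : ℂ)) :=
        e4.continuousOn.continuousAt (e.open_target.mem_nhds htgt)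
      exact (ContinuousAt.comp (f := fun t : ℝ => Ψ (t : ℂ)) h1 hcont).continuousWithinAt
    · have h1 : ∀ᶠ t in 𝓝 t₀, Ψ ((t : ℝ) : ℂ) ∈ e.target :=
        hcont.eventually (e.open_target.mem_nhds htgt)
      filter_upwards [nhdsWithin_le_nhds h1, self_mem_nhdsWithin] with t ht ht'
      have hy : e.symm (Ψ (t : ℂ)) ∈ ball (0 : HSp T₀) (rad T₀) := by
        rw [← e1]; exact e.map_target ht
      refine ⟨hy, ?_⟩
      obtain ⟨⟨N, ⟨k', hN⟩, _⟩, s1⟩ :=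
        phi_spec (hG.tgt.comp hh) (mem_ball_zero_iff.1 hy)
      rw [s1 N ⟨k', hN⟩]
      have h2 : Ψ (t : ℂ) = bersE T₀ (e.symm (Ψ (t : ℂ))).fn := by
        rw [← e2 _ hy, e.right_inv ht]
      obtain ⟨σ, hσ, he⟩ := (hval t ht' N.F k' _ hN (e.symm (Ψ (t : ℂ))).inv.aeInv
        (e.symm (Ψ (t : ℂ))).l2).1 h2
      symm
      rw [mk_eq_iff]
      refine ⟨σ, hσ, fun u hu => ?_⟩
      change N.F (G (h u)) = σ ((n t).F (h u))
      obtain ⟨kG, μG, hGq, _⟩ := hG.l2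
      obtain ⟨kh, μh, hhq⟩ := hh.qc
      have h3 : ‖((G (h u) : CD) : ℂ)‖ = 1 := by
        have h5 : ‖((G (h u) : CD) : ℂ)‖ ≤ 1 := mem_closedBall_zero_iff.1 (G (h u)).2
        have h6 : ¬ ‖((G (h u) : CD) : ℂ)‖ < 1 := by
          rw [hGq.pres, hhq.pres, hu]; exact lt_irrefl _
        exact le_antisymm h5 (not_lt.1 h6)
      rw [he _ h3]
      change σ ((n t).F (G.symm (G (h u)))) = _
      rw [G.symm_apply_apply]

end QC

end
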