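import Pool.Agent.Work.MP_217185_an.FDefs
import Pool.Agent.Work.MP_217185_an.ManP
import Pool.Agent.Work.MP_217185_an.TransH

/-! # FinalDef: the systems of parametrisations -/

open MeasureTheory Complex Set Metric Filter
open scoped Topology ENNReal NNReal ContDiff ComplexConjugate

noncomputable section

namespace QC

/-- the parametrisations `x ↦ [S, f_x ∘ h, S_x]` of the whole Teichmueller space. -/
def psys (S : Bord) : ParamSys (Teich S) where
  ι := Marked S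
  E := fun m => HSp m.T
  U := fun m => ball 0 (rad m.T)
  φ := fun m => phi m.tgt
  isOpen := fun _ => isOpen_ball
  inj := fun m => phi_inj m.tgt
  cover := fun p => by
    obtain ⟨m, rfl⟩ := Quot.exists_rep p
    exact ⟨m, 0, mem_ball_self (rad_pos _), phi_zero m.tgt⟩
  openV := fun i j => (trans_phi i.tgt j.tgt).1
  trans := fun i j => (trans_phi i.tgt j.tgt).2
  sep := fun p q hpq => by
    obtain ⟨h, S₂, hh, h', S₂', hh', hp, hq, A, hA, B, hB, hAB⟩ := sep_phi hpq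
    exact ⟨⟨h, S₂, hh⟩, ⟨h', S₂', hh'⟩, 0, mem_ball_self (rad_pos _), 0,
      mem_ball_self (rad_pos _), hp, hq, A, hA, B, hB, hAB⟩

/-- markings of WP class. -/
abbrev WMarked (S : Bord) : Type := {m : Marked S // IsWP S m.F m.T}

theorem phi_mem_wp {S : Bord} (m : WMarked S) {x : HSp m.1.T} (hx : ‖x‖ < rad m.1.T) :
    phi m.1.tgt x ∈ TWP S := by
  have h1 := phi_mem_leaf m.1.tgt hx
  have h2 : Leaf m.1.tgt = TWP S := by
    rw [← leaf_base]
    have h3 : Leaf (m.1.tgt.comp (tgt_one S)) = Leaf (tgt_one S) :=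
      leaf_comp (tgt_one S) m.1 m.2
    rw [← h3]
    congr 1
  rw [← h2]; exact h1

theorem base_mem (S : Bord) : Teich.base S ∈ TWP S := by
  rw [← leaf_base]; exact leaf_self (tgt_one S)

open Classical in
/-- the parametrisation of `T_WP(S)` at a WP-class marking. -/
def phiW {S : Bord} (m : WMarked S) (x : HSp m.1.T) : ↥(TWP S) :=
  if h : phi m.1.tgt x ∈ TWP S then ⟨phi m.1.tgt x, h⟩ else ⟨Teich.base S, base_mem S⟩

theorem phiW_coe {S : Bord} (m : WMarked S) {x : HSp m.1.T} (hx : ‖x‖ < rad m.1.T) :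
    (phiW m x : Teich S) = phi m.1.tgt x := by
  unfold phiW
  rw [dif_pos (phi_mem_wp m hx)]

theorem phiW_mem_image {S : Bord} (i j : WMarked S) (x : HSp i.1.T) (hx : x ∈ ball 0 (rad i.1.T)) :
    phiW i x ∈ phiW j '' ball 0 (rad j.1.T) ↔ phi i.1.tgt x ∈ phi j.1.tgt '' ball 0 (rad j.1.T) := by
  rw [mem_ball_zero_iff] at hx
  constructor
  · rintro ⟨y, hy, hxy⟩
    refine ⟨y, hy, ?_⟩
    rw [← phiW_coe j (mem_ball_zero_iff.1 hy), hxy, phiW_coe i hx]
  · rintro ⟨y, hy, hxy⟩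
    refine ⟨y, hy, Subtype.ext ?_⟩
    rw [phiW_coe j (mem_ball_zero_iff.1 hy), hxy, phiW_coe i hx]

theorem phiW_set {S : Bord} (i j : WMarked S) :
    {x : HSp i.1.T | x ∈ ball (0 : HSp i.1.T) (rad i.1.T) ∧
      phiW i x ∈ phiW j '' ball 0 (rad j.1.T)} =
    {x | x ∈ ball (0 : HSp i.1.T) (rad i.1.T) ∧
      phi i.1.tgt x ∈ phi j.1.tgt '' ball 0 (rad j.1.T)} := by
  ext x
  constructor
  · rintro ⟨h1, h2⟩; exact ⟨h1, (phiW_mem_image i j x h1).1 h2⟩
  · rintro ⟨h1, h2⟩; exact ⟨h1, (phiW_mem_image i j x h1).2 h2⟩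

/-- the parametrisations of `T_WP(S)`. -/
def psysW (S : Bord) : ParamSys ↥(TWP S) where
  ι := WMarked S
  E := fun m => HSp m.1.T
  U := fun m => ball 0 (rad m.1.T)
  φ := fun m => phiW m
  isOpen := fun _ => isOpen_ball
  inj := fun m => by
    intro x hx y hy hxy
    refine phi_inj m.1.tgt hx hy ?_
    rw [← phiW_coe m (mem_ball_zero_iff.1 hx), hxy, phiW_coe m (mem_ball_zero_iff.1 hy)]
  cover := fun p => by
    obtain ⟨m, hm, k, μ, h1, h2⟩ := p.2
    have hw : IsWP S m.F m.T := ⟨m.tgt, k, μ, h1, h2⟩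
    refine ⟨⟨m, hw⟩, 0, mem_ball_self (rad_pos _), Subtype.ext ?_⟩
    rw [phiW_coe ⟨m, hw⟩ (by simpa using rad_pos m.T), ← hm]
    exact phi_zero m.tgt
  openV := fun i j => by
    rw [phiW_set i j]
    exact (trans_phi i.1.tgt j.1.tgt).1
  trans := fun i j => by
    obtain ⟨g, h1, h2⟩ := (trans_phi i.1.tgt j.1.tgt).2
    refine ⟨g, ?_, ?_⟩
    · rw [phiW_set i j]; exact h1
    · intro x hx hxy
      obtain ⟨h3, h4⟩ := h2 x hx ((phiW_mem_image i j x hx).1 hxy)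
      refine ⟨h3, Subtype.ext ?_⟩
      rw [phiW_coe j (mem_ball_zero_iff.1 h3), h4, phiW_coe i (mem_ball_zero_iff.1 hx)]
  sep := fun p q hpq => by
    have hne : (p : Teich S) ≠ q := fun h => hpq (Subtype.ext h)
    obtain ⟨h, S₂, hh, h', S₂', hh', hw, hw', hp, hq, A, hA, B, hB, hAB⟩ :=
      sep_phi_wp p.2 q.2 hne
    refine ⟨⟨⟨h, S₂, hh⟩, hw⟩, ⟨⟨h', S₂', hh'⟩, hw'⟩, 0, mem_ball_self (rad_pos _), 0,
      mem_ball_self (rad_pos _), Subtype.ext ?_, Subtype.ext ?_, A, hA, B, hB, ?_⟩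
    · rw [phiW_coe _ (by simpa using rad_pos S₂)]; exact hp
    · rw [phiW_coe _ (by simpa using rad_pos S₂')]; exact hq
    · rw [Set.disjoint_left] at hAB ⊢
      rintro r ⟨x, hx, rfl⟩ ⟨y, hy, hxy⟩
      refine hAB ⟨x, hx, rfl⟩ ⟨y, hy, ?_⟩
      have := congrArg Subtype.val hxy
      rw [phiW_coe _ (mem_ball_zero_iff.1 hy.2), phiW_coe _ (mem_ball_zero_iff.1 hx.2)] at this
      exact this

end QC

end
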