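import Pool.Agent.Work.MP_217185_an.HypB
import Pool.Agent.Work.MP_217185_an.DFact

/-! # FundA: fundamental domains

* discreteness: for `R < 1` finitely many `γ ∈ Γ` have `‖γ 0‖ ≤ R`: otherwise distinct `γ_n` with
  `γ_n 0 → y ∈ D`, then `γ_n⁻¹ γ_m 0` is close to `0` in the (pseudo)hyperbolic metric, contradicting
  `0 ∈ Reg Γ` (a neighbourhood of `0` on which all `γ ≠ 1` act disjointly).  So `Γ` is countable.
* existence: cover `D` by countably many open sets `U_i ⊆ D` with `γ U_i ∩ U_i = ∅` (`γ ≠ 1`,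
  `Bord.disc`); `P = ⋃_i (U_i \ ⋃_{j<i} Γ U_j)`.
* independence: `∫_P u = ∑_γ ∫_{P ∩ γ P'} u = ∑_γ ∫_{γ⁻¹ P ∩ P'} u = ∫_{P'} u`. -/

open MeasureTheory Complex Set Metric Filter
open scoped Topology ENNReal NNReal ContDiff ComplexConjugate

namespace QC

variable (S : Bord)

lemma fa_ext (F : CD ≃ₜ CD) {z : ℂ} (hz : ‖z‖ ≤ 1) :
    ext F z = (F ⟨z, by simpa using hz⟩ : ℂ) := ext_apply F ⟨z, by simpa using hz⟩

lemma fa_norm_ext (F : CD ≃ₜ CD) {z : ℂ} (hz : ‖z‖ ≤ 1) : ‖ext F z‖ ≤ 1 := by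
  rw [fa_ext F hz]
  exact mem_closedBall_zero_iff.1 (F ⟨z, by simpa using hz⟩).2

lemma fa_ext_out (F : CD ≃ₜ CD) {z : ℂ} (hz : ¬ ‖z‖ ≤ 1) : ext F z = z := by
  unfold ext
  rw [dif_neg]
  simpa using hz

lemma fa_ext_mul (F G : CD ≃ₜ CD) (z : ℂ) : ext (F * G : CD ≃ₜ CD) z = ext F (ext G z) := by
  by_cases hz : ‖z‖ ≤ 1
  · rw [fa_ext G hz, fa_ext _ hz]
    exact (ext_apply F (G ⟨z, by simpa using hz⟩)).symm
  · rw [fa_ext_out _ hz, fa_ext_out _ hz, fa_ext_out _ hz]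

lemma fa_ext_one (z : ℂ) : ext (1 : CD ≃ₜ CD) z = z := by
  by_cases hz : ‖z‖ ≤ 1
  · rw [fa_ext _ hz]; rfl
  · rw [fa_ext_out _ hz]

lemma fa_ext_inv (F : CD ≃ₜ CD) (z : ℂ) : ext (F⁻¹ : CD ≃ₜ CD) (ext F z) = z := by
  rw [← fa_ext_mul, inv_mul_cancel, fa_ext_one]

lemma fa_ext_inv' (F : CD ≃ₜ CD) (z : ℂ) : ext F (ext (F⁻¹ : CD ≃ₜ CD) z) = z := by
  rw [← fa_ext_mul, mul_inv_cancel, fa_ext_one]

/-- elements of the group in coordinates -/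
lemma fa_mob {γ : CD ≃ₜ CD} (hγ : γ ∈ S.Γ) :
    ∃ a b : ℂ, ‖b‖ < ‖a‖ ∧ ∀ z : ℂ, ‖z‖ ≤ 1 → ext γ z = mob a b z := by
  obtain ⟨a, b, hab, h⟩ := S.mob γ hγ
  exact ⟨a, b, hab, fun z hz => by rw [fa_ext γ hz, h]⟩

lemma fa_ext_lt {γ : CD ≃ₜ CD} (hγ : γ ∈ S.Γ) {z : ℂ} (hz : ‖z‖ < 1) : ‖ext γ z‖ < 1 := by
  obtain ⟨a, b, hab, h⟩ := fa_mob S hγ
  rw [h z hz.le]
  exact norm_mob_lt hab hz

/-- discreteness, quantitative -/
lemma fa_sep {R : ℝ} (hR0 : 0 ≤ R) (hR : R < 1) : ∃ δ : ℝ, 0 < δ ∧ ∀ γ ∈ S.Γ, ∀ γ' ∈ S.Γ,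
    ‖ext γ 0‖ ≤ R → ‖ext γ' 0‖ ≤ R → ‖ext γ' 0 - ext γ 0‖ < δ → γ = γ' := by
  set o : CD := ⟨0, by simp⟩ with ho
  obtain ⟨U, hU, hdisj⟩ := S.disc o (by simp [ho])
  obtain ⟨s, hs, hsU⟩ := Metric.mem_nhds_iff.1 hU
  have hR2 : 0 < 1 - R ^ 2 := by nlinarith
  refine ⟨s * (1 - R ^ 2), by positivity, ?_⟩
  intro γ hγ γ' hγ' hp hq hpq
  set p := ext γ 0 with hpdef
  set q := ext γ' 0 with hqdef
  by_contra hne
  set η : CD ≃ₜ CD := γ⁻¹ * γ' with hη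
  have hηΓ : η ∈ S.Γ := S.Γ.mul_mem (S.Γ.inv_mem hγ) hγ'
  have hη1 : η ≠ 1 := fun h => hne (inv_mul_eq_one.1 h)
  obtain ⟨c, d, hcd, hmob⟩ := fa_mob S (S.Γ.inv_mem hγ)
  have hp1 : ‖p‖ ≤ 1 := hp.trans hR.le
  have hq1 : ‖q‖ ≤ 1 := hq.trans hR.le
  have h0 : mob c d p = 0 := by
    rw [← hmob p hp1, hpdef, fa_ext_inv]
  have hη0 : ext η 0 = mob c d q := by
    rw [hη, fa_ext_mul, hmob _ hq1]
  have hden : conj d * p + conj c ≠ 0 := mob_denom_ne hcd hp1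
  have hd : d = -(c * p) := by
    unfold QC.mob at h0
    rw [div_eq_zero_iff] at h0
    rcases h0 with h0 | h0
    · linear_combination h0
    · exact absurd h0 hden
  have hc : c ≠ 0 := by
    intro h
    rw [h, norm_zero] at hcd
    exact absurd hcd (not_lt.2 (norm_nonneg _))
  have hpq' : 1 - conj p * q ≠ 0 := by
    intro h
    have h1 : ‖conj p * q‖ < 1 := by
      rw [norm_mul, RCLike.norm_conj]
      nlinarith [norm_nonneg p, norm_nonneg q]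
    have h2 : conj p * q = 1 := by linear_combination -h
    rw [h2, norm_one] at h1
    exact lt_irrefl _ h1
  have hlow : 1 - R ^ 2 ≤ ‖1 - conj p * q‖ := by
    have h1 : ‖(1 : ℂ)‖ - ‖conj p * q‖ ≤ ‖1 - conj p * q‖ := norm_sub_norm_le _ _
    rw [norm_one, norm_mul, RCLike.norm_conj] at h1
    nlinarith [norm_nonneg p, norm_nonneg q]
  have hval : ‖mob c d q‖ = ‖q - p‖ / ‖1 - conj p * q‖ := by
    unfold QC.mob
    rw [hd]
    have h1 : c * q + -(c * p) = c * (q - p) := by ring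
    have h2 : conj (-(c * p)) * q + conj c = conj c * (1 - conj p * q) := by
      rw [map_neg, map_mul]; ring
    rw [h1, h2, norm_div, norm_mul, norm_mul, RCLike.norm_conj, mul_div_mul_left]
    exact norm_ne_zero_iff.2 hc
  have hlt : ‖ext η 0‖ < s := by
    rw [hη0, hval, div_lt_iff₀ (norm_pos_iff.2 hpq')]
    calc ‖q - p‖ < s * (1 - R ^ 2) := hpq
      _ ≤ s * ‖1 - conj p * q‖ := by gcongr
  have hext : ext η 0 = (η o : ℂ) := ext_apply η o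
  have hoU : o ∈ U := mem_of_mem_nhds hU
  have hηU : η o ∈ U := by
    apply hsU
    rw [Metric.mem_ball, Subtype.dist_eq, ← hext]
    simpa [ho, dist_eq_norm] using hlt
  exact Set.disjoint_left.1 (hdisj η hηΓ hη1) ⟨o, hoU, rfl⟩ hηU

/-- infinitely many elements go to the boundary. -/
theorem finite_le {R : ℝ} (hR : R < 1) : {γ : CD ≃ₜ CD | γ ∈ S.Γ ∧ ‖ext γ 0‖ ≤ R}.Finite := by
  set R' := max R 0 with hR'
  have hR'1 : R' < 1 := max_lt hR one_pos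
  obtain ⟨δ, hδ, hsep⟩ := fa_sep S (le_max_right R 0) hR'1
  have htb : TotallyBounded (closedBall (0 : ℂ) R') := (isCompact_closedBall _ _).totallyBounded
  obtain ⟨t, ht, hcov⟩ := Metric.totallyBounded_iff.1 htb (δ / 2) (by positivity)
  have hchoose : ∀ γ ∈ {γ : CD ≃ₜ CD | γ ∈ S.Γ ∧ ‖ext γ 0‖ ≤ R}, ∃ c ∈ t, dist (ext γ 0) c < δ / 2 := by
    rintro γ ⟨hγ, hle⟩
    have h1 : ext γ 0 ∈ closedBall (0 : ℂ) R' :=
      mem_closedBall_zero_iff.2 (hle.trans (le_max_left R 0))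
    have h2 := hcov h1
    simp only [Set.mem_iUnion, Metric.mem_ball] at h2
    obtain ⟨c, hc, hc2⟩ := h2
    exact ⟨c, hc, hc2⟩
  choose! f hf1 hf2 using hchoose
  refine Set.Finite.of_injOn hf1 ?_ ht
  intro γ hγ γ' hγ' hff
  refine hsep γ hγ.1 γ' hγ'.1 (hγ.2.trans (le_max_left _ _)) (hγ'.2.trans (le_max_left _ _)) ?_
  have h1 := hf2 γ hγ
  have h2 := hf2 γ' hγ'
  rw [← hff] at h2
  rw [← dist_eq_norm]
  calc dist (ext γ' 0) (ext γ 0) ≤ dist (ext γ' 0) (f γ) + dist (ext γ 0) (f γ) :=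
        dist_triangle_right _ _ _
    _ < δ / 2 + δ / 2 := add_lt_add h2 h1
    _ = δ := by ring

theorem countable_Γ : Countable S.Γ := by
  have h : (S.Γ : Set (CD ≃ₜ CD)) ⊆
      ⋃ n : ℕ, {γ : CD ≃ₜ CD | γ ∈ S.Γ ∧ ‖ext γ 0‖ ≤ 1 - 1 / ((n : ℝ) + 1)} := by
    intro γ hγ
    have h1 : ‖ext γ 0‖ < 1 := fa_ext_lt S hγ (by simp)
    obtain ⟨n, hn⟩ := exists_nat_one_div_lt (sub_pos.2 h1)
    exact Set.mem_iUnion.2 ⟨n, hγ, by linarith⟩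
  have hc : (S.Γ : Set (CD ≃ₜ CD)).Countable := by
    refine Set.Countable.mono h (Set.countable_iUnion fun n => (finite_le S ?_).countable)
    have : (0 : ℝ) < 1 / ((n : ℝ) + 1) := by positivity
    linarith
  exact hc.to_subtype

end QC
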