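import Pool.Agent.Work.MP_217185_an.HypB
import Pool.Agent.Work.MP_217185_an.DFact
import Pool.Agent.Work.MP_217185_an.FundA

/-! # FundB: fundamental domains

* discreteness: for `R < 1` finitely many `γ ∈ Γ` have `‖γ 0‖ ≤ R`: otherwise distinct `γ_n` with
  `γ_n 0 → y ∈ D`, then `γ_n⁻¹ γ_m 0` is close to `0` in the (pseudo)hyperbolic metric, contradicting
  `0 ∈ Reg Γ` (a neighbourhood of `0` on which all `γ ≠ 1` act disjointly).  So `Γ` is countable.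
* existence: cover `D` by countably many open sets `U_i ⊆ D` with `γ U_i ∩ U_i = ∅` (`γ ≠ 1`,
  `Bord.disc`); `P = ⋃_i (U_i \ ⋃_{j<i} Γ U_j)`.
* independence: `∫_P u = ∑_γ ∫_{P ∩ γ P'} u = ∑_γ ∫_{γ⁻¹ P ∩ P'} u = ∫_{P'} u`. -/

open MeasureTheory Complex Set Metric Filter
open scoped Topology ENNReal NNReal ContDiff ComplexConjugate

namespace QC

variable (S : Bord)

/-- small open sets -/
lemma fb_nhd {z : ℂ} (hz : ‖z‖ < 1) : ∃ O : Set ℂ, IsOpen O ∧ z ∈ O ∧ O ⊆ D ∧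
    ∀ γ ∈ S.Γ, γ ≠ 1 → ∀ w ∈ O, ext γ w ∉ O := by
  set x : CD := ⟨z, by simpa using hz.le⟩ with hx
  obtain ⟨U, hU, hdisj⟩ := S.disc x hz
  obtain ⟨V, hV, hVU⟩ := mem_nhds_subtype _ x U |>.1 hU
  obtain ⟨O, hOV, hO, hzO⟩ := _root_.mem_nhds_iff.1 hV
  refine ⟨O ∩ D, hO.inter isOpen_ball, ⟨hzO, by simpa using hz⟩, inter_subset_right, ?_⟩
  rintro γ hγ hγ1 w ⟨hwO, hwD⟩ ⟨hw'O, hw'D⟩
  have hw1 : ‖w‖ ≤ 1 := (mem_ball_zero_iff.1 hwD).le
  set y : CD := ⟨w, by simpa using hw1⟩ with hy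
  have hyU : y ∈ U := hVU (hOV hwO)
  have hγy : γ y ∈ U := by
    apply hVU
    show (γ y : ℂ) ∈ V
    rw [← ext_apply γ y]
    exact hOV hw'O
  exact Set.disjoint_left.1 (hdisj γ hγ hγ1) ⟨y, hyU, rfl⟩ hγy

lemma fb_measurable (F : CD ≃ₜ CD) : Measurable (ext F) := by
  classical
  have h : ext F = (closedBall (0 : ℂ) 1).piecewise (ext F) id := by
    funext z
    by_cases hz : z ∈ closedBall (0 : ℂ) 1
    · rw [Set.piecewise_eq_of_mem _ _ _ hz]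
    · rw [Set.piecewise_eq_of_notMem _ _ _ hz, id]
      exact fa_ext_out F (by simpa using hz)
  rw [h]
  exact (continuousOn_ext F).measurable_piecewise continuous_id.continuousOn
    isClosed_closedBall.measurableSet

theorem exists_isFund : ∃ P, IsFund S P := by
  classical
  choose! O hO1 hO2 hO3 hO4 using fun z (hz : ‖z‖ < 1) => fb_nhd S hz
  have hDne : (0 : ℂ) ∈ D := by simp
  -- countable subcover
  obtain ⟨T, hTc, hT⟩ := TopologicalSpace.isOpen_iUnion_countable (fun z : D => O z)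
    (fun z => hO1 z (mem_ball_zero_iff.1 z.2))
  have hTne : T.Nonempty := by
    have h0 : (0 : ℂ) ∈ ⋃ z : D, O z := Set.mem_iUnion.2 ⟨⟨0, hDne⟩, hO2 0 (by simp)⟩
    rw [← hT] at h0
    obtain ⟨i, hi, -⟩ := Set.mem_iUnion₂.1 h0
    exact ⟨i, hi⟩
  obtain ⟨f, hf⟩ := hTc.exists_eq_range hTne
  set U : ℕ → Set ℂ := fun n => O (f n) with hU
  have hfn : ∀ n, ‖((f n : D) : ℂ)‖ < 1 := fun n => mem_ball_zero_iff.1 (f n).2
  have hUo : ∀ n, IsOpen (U n) := fun n => hO1 _ (hfn n)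
  have hUD : ∀ n, U n ⊆ D := fun n => hO3 _ (hfn n)
  have hUd : ∀ n, ∀ γ ∈ S.Γ, γ ≠ 1 → ∀ w ∈ U n, ext γ w ∉ U n := fun n => hO4 _ (hfn n)
  have hUcov : ∀ z ∈ D, ∃ n, z ∈ U n := by
    intro z hz
    have h0 : z ∈ ⋃ z : D, O z := Set.mem_iUnion.2 ⟨⟨z, hz⟩, hO2 z (mem_ball_zero_iff.1 hz)⟩
    rw [← hT, hf] at h0
    obtain ⟨i, hi, hzi⟩ := Set.mem_iUnion₂.1 h0
    obtain ⟨n, rfl⟩ := hi
    exact ⟨n, hzi⟩
  -- the saturations
  set V : ℕ → Set ℂ := fun n => {z | z ∈ D ∧ ∃ γ ∈ S.Γ, ext γ z ∈ U n} with hV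
  have hcount : Countable S.Γ := countable_Γ S
  have hVm : ∀ n, MeasurableSet (V n) := by
    intro n
    have h1 : V n = D ∩ ⋃ γ : S.Γ, (ext (γ : CD ≃ₜ CD)) ⁻¹' (U n) := by
      ext z
      simp only [hV, Set.mem_ofPred_eq, Set.mem_inter_iff, Set.mem_iUnion, Set.mem_preimage]
      constructor
      · rintro ⟨h1, γ, hγ, h2⟩
        exact ⟨h1, ⟨γ, hγ⟩, h2⟩
      · rintro ⟨h1, γ, h2⟩
        exact ⟨h1, γ, γ.2, h2⟩
    rw [h1]
    exact isOpen_ball.measurableSet.inter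
      (MeasurableSet.iUnion fun γ => fb_measurable _ (hUo n).measurableSet)
  have hVinv : ∀ n, ∀ γ ∈ S.Γ, ∀ z ∈ D, ext γ z ∈ V n ↔ z ∈ V n := by
    intro n γ hγ z hz
    constructor
    · rintro ⟨-, δ, hδ, h⟩
      exact ⟨hz, δ * γ, S.Γ.mul_mem hδ hγ, by rw [fa_ext_mul]; exact h⟩
    · rintro ⟨-, δ, hδ, h⟩
      refine ⟨mem_ball_zero_iff.2 (fa_ext_lt S hγ (mem_ball_zero_iff.1 hz)), δ * γ⁻¹,
        S.Γ.mul_mem hδ (S.Γ.inv_mem hγ), ?_⟩
      rw [fa_ext_mul, fa_ext_inv]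
      exact h
  have hUV : ∀ n, U n ⊆ V n := fun n z hz => ⟨hUD n hz, 1, S.Γ.one_mem, by rw [fa_ext_one]; exact hz⟩
  refine ⟨⋃ n, (U n \ ⋃ j ∈ Finset.range n, V j), ?_, ?_, ?_⟩
  · exact MeasurableSet.iUnion fun n => (hUo n).measurableSet.diff
      (Finset.measurableSet_biUnion _ fun j _ => hVm j)
  · exact Set.iUnion_subset fun n => sdiff_subset.trans (hUD n)
  · intro z hz
    have hzD : (z : ℂ) ∈ D := mem_ball_zero_iff.2 hz
    have hex : ∃ n, (z : ℂ) ∈ V n := by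
      obtain ⟨n, hn⟩ := hUcov z hzD
      exact ⟨n, hUV n hn⟩
    set N := Nat.find hex with hN
    obtain ⟨-, γ, hγ, hγz⟩ : (z : ℂ) ∈ V N := Nat.find_spec hex
    have hmin : ∀ j < N, (z : ℂ) ∉ V j := fun j hj => Nat.find_min hex hj
    have hmem : ∀ δ ∈ S.Γ, ((δ z : CD) : ℂ) ∈ (⋃ n, (U n \ ⋃ j ∈ Finset.range n, V j)) →
        ext δ z ∈ U N := by
      intro δ hδ h
      rw [← ext_apply δ z] at h
      obtain ⟨n, hn, hn'⟩ := Set.mem_iUnion.1 h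
      have h1 : (z : ℂ) ∈ V n := (hVinv n δ hδ z hzD).1 (hUV n hn)
      have h2 : n = N := by
        rcases lt_trichotomy n N with h3 | h3 | h3
        · exact absurd h1 (hmin n h3)
        · exact h3
        · exfalso
          apply hn'
          refine Set.mem_iUnion₂.2 ⟨N, Finset.mem_range.2 h3, ?_⟩
          exact (hVinv N δ hδ z hzD).2 (Nat.find_spec hex)
      rw [← h2]; exact hn
    refine ⟨γ, ⟨hγ, ?_⟩, ?_⟩
    · rw [← ext_apply γ z]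
      refine Set.mem_iUnion.2 ⟨N, hγz, ?_⟩
      intro h
      obtain ⟨j, hj, hj'⟩ := Set.mem_iUnion₂.1 h
      exact hmin j (Finset.mem_range.1 hj) ((hVinv j γ hγ z hzD).1 hj')
    · rintro δ ⟨hδ, hδz⟩
      have h1 := hmem δ hδ hδz
      by_contra hne
      refine hUd N (δ * γ⁻¹) (S.Γ.mul_mem hδ (S.Γ.inv_mem hγ))
        (fun h => hne (mul_inv_eq_one.1 h)) (ext γ z) hγz ?_
      rw [fa_ext_mul, fa_ext_inv]
      exact h1

end QC
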