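import Pool.Agent.Work.MP_217185_an.HypB
import Pool.Agent.Work.MP_217185_an.DFact
import Pool.Agent.Work.MP_217185_an.FundB

/-! # FundDef: fundamental domains

* discreteness: for `R < 1` finitely many `γ ∈ Γ` have `‖γ 0‖ ≤ R`: otherwise distinct `γ_n` with
  `γ_n 0 → y ∈ D`, then `γ_n⁻¹ γ_m 0` is close to `0` in the (pseudo)hyperbolic metric, contradicting
  `0 ∈ Reg Γ` (a neighbourhood of `0` on which all `γ ≠ 1` act disjointly).  So `Γ` is countable.
* existence: cover `D` by countably many open sets `U_i ⊆ D` with `γ U_i ∩ U_i = ∅` (`γ ≠ 1`,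
  `Bord.disc`); `P = ⋃_i (U_i \ ⋃_{j<i} Γ U_j)`.
* independence: `∫_P u = ∑_γ ∫_{P ∩ γ P'} u = ∑_γ ∫_{γ⁻¹ P ∩ P'} u = ∫_{P'} u`. -/

open MeasureTheory Complex Set Metric Filter
open scoped Topology ENNReal NNReal ContDiff ComplexConjugate

namespace QC

variable (S : Bord)

noncomputable def fund : Set ℂ := (exists_isFund S).choose

theorem isFund_fund : IsFund S (fund S) := (exists_isFund S).choose_spec

variable {S}

end QC
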