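import Pool.Agent.Work.MP_217185_an.HypB
import Pool.Agent.Work.MP_217185_an.DFact
import Pool.Agent.Work.MP_217185_an.FundDef

/-! # FundC: fundamental domains

* discreteness: for `R < 1` finitely many `γ ∈ Γ` have `‖γ 0‖ ≤ R`: otherwise distinct `γ_n` with
  `γ_n 0 → y ∈ D`, then `γ_n⁻¹ γ_m 0` is close to `0` in the (pseudo)hyperbolic metric, contradicting
  `0 ∈ Reg Γ` (a neighbourhood of `0` on which all `γ ≠ 1` act disjointly).  So `Γ` is countable.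
* existence: cover `D` by countably many open sets `U_i ⊆ D` with `γ U_i ∩ U_i = ∅` (`γ ≠ 1`,
  `Bord.disc`); `P = ⋃_i (U_i \ ⋃_{j<i} Γ U_j)`.
* independence: `∫_P u = ∑_γ ∫_{P ∩ γ P'} u = ∑_γ ∫_{γ⁻¹ P ∩ P'} u = ∫_{P'} u`. -/

open MeasureTheory Complex Set Metric Filter
open scoped Topology ENNReal NNReal ContDiff ComplexConjugate

namespace QC

variable (S : Bord)

variable {S}

lemma fc_ae {p : ℂ → Prop} (h : ∀ᵐ z ∂(volume.restrict D), p z) : ∀ᵐ z ∂hyp, p z :=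
  (withDensity_absolutelyContinuous _ _).ae_le h

lemma fc_img {γ : CD ≃ₜ CD} (hγ : γ ∈ S.Γ) {E : Set ℂ} (hE : MeasurableSet E) (hED : E ⊆ D)
    {u : ℂ → ℝ≥0∞} (hu : Measurable u) :
    ∫⁻ z in ext γ '' E, u z ∂hyp = ∫⁻ z in E, u (ext γ z) ∂hyp ∧ MeasurableSet (ext γ '' E) ∧
      ext γ '' E ⊆ D := by
  obtain ⟨a, b, hab, h⟩ := fa_mob S hγ
  have h1 : ∀ z ∈ E, ext γ z = mob a b z := fun z hz => h z (mem_ball_zero_iff.1 (hED hz)).le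
  have h2 : ext γ '' E = mob a b '' E := Set.image_congr h1
  refine ⟨?_, ?_, ?_⟩
  · rw [h2, lintegral_mob hab hE hED hu]
    exact setLIntegral_congr_fun hE fun z hz => by rw [h1 z hz]
  · rw [h2]; exact (hyp_mob hab hE hED).2.1
  · rw [h2]; exact (hyp_mob hab hE hED).2.2

lemma fc_uniq {P : Set ℂ} (hP : IsFund S P) {z : ℂ} (hz : z ∈ D) :
    ∃! γ : S.Γ, ext (γ : CD ≃ₜ CD) z ∈ P := by
  have hz1 : ‖z‖ < 1 := mem_ball_zero_iff.1 hz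
  obtain ⟨γ, ⟨hγ, hγz⟩, huni⟩ := hP.uniq ⟨z, by simpa using hz1.le⟩ hz1
  refine ⟨⟨γ, hγ⟩, ?_, ?_⟩
  · show ext γ z ∈ P
    rw [fa_ext γ hz1.le]; exact hγz
  · rintro ⟨δ, hδ⟩ h
    have h' : ext δ z ∈ P := h
    rw [fa_ext δ hz1.le] at h'
    exact Subtype.ext (huni δ ⟨hδ, h'⟩)

/-- the pieces of `A` in the translates of a fundamental domain -/
lemma fc_sum {P : Set ℂ} (hP : IsFund S P) {A : Set ℂ} (hA : MeasurableSet A) (hAD : A ⊆ D)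
    {u : ℂ → ℝ≥0∞} (hu : Measurable u) :
    ∫⁻ z in A, u z ∂hyp
      = ∑' γ : S.Γ, ∫⁻ z in P ∩ (ext (γ : CD ≃ₜ CD)) ⁻¹' A, u (ext (γ : CD ≃ₜ CD) z) ∂hyp := by
  have hcount : Countable S.Γ := countable_Γ S
  have hm : ∀ γ : S.Γ, MeasurableSet (P ∩ (ext (γ : CD ≃ₜ CD)) ⁻¹' A) := fun γ =>
    hP.meas.inter (fb_measurable _ hA)
  have hs : ∀ γ : S.Γ, P ∩ (ext (γ : CD ≃ₜ CD)) ⁻¹' A ⊆ D := fun γ =>
    inter_subset_left.trans hP.sub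
  have h1 : A = ⋃ γ : S.Γ, ext (γ : CD ≃ₜ CD) '' (P ∩ (ext (γ : CD ≃ₜ CD)) ⁻¹' A) := by
    apply Set.Subset.antisymm
    · intro z hz
      obtain ⟨γ, hγ, -⟩ := fc_uniq hP (hAD hz)
      refine Set.mem_iUnion.2 ⟨γ⁻¹, ext (γ : CD ≃ₜ CD) z, ⟨hγ, ?_⟩, ?_⟩
      · show ext ((γ⁻¹ : S.Γ) : CD ≃ₜ CD) (ext (γ : CD ≃ₜ CD) z) ∈ A
        rw [Subgroup.coe_inv, fa_ext_inv]; exact hz
      · rw [Subgroup.coe_inv, fa_ext_inv]
    · refine Set.iUnion_subset fun γ => ?_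
      rintro _ ⟨z, ⟨-, hz⟩, rfl⟩
      exact hz
  have hdisj : Pairwise (Function.onFun Disjoint fun γ : S.Γ =>
      ext (γ : CD ≃ₜ CD) '' (P ∩ (ext (γ : CD ≃ₜ CD)) ⁻¹' A)) := by
    intro γ δ hne
    refine Set.disjoint_left.2 ?_
    rintro _ ⟨z, ⟨hzP, hzA⟩, rfl⟩ ⟨w, ⟨hwP, hwA⟩, hwz⟩
    apply hne
    have hD : ext (γ : CD ≃ₜ CD) z ∈ D := hAD hzA
    obtain ⟨η, -, hη⟩ := fc_uniq hP hD
    have e1 : γ⁻¹ = η := by
      apply hη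
      show ext ((γ⁻¹ : S.Γ) : CD ≃ₜ CD) (ext (γ : CD ≃ₜ CD) z) ∈ P
      rw [Subgroup.coe_inv, fa_ext_inv]; exact hzP
    have e2 : δ⁻¹ = η := by
      apply hη
      show ext ((δ⁻¹ : S.Γ) : CD ≃ₜ CD) (ext (γ : CD ≃ₜ CD) z) ∈ P
      rw [Subgroup.coe_inv, ← hwz, fa_ext_inv]; exact hwP
    exact inv_injective (e1.trans e2.symm)
  conv_lhs => rw [h1]
  rw [lintegral_iUnion (fun γ => (fc_img γ.2 (hm γ) (hs γ) hu).2.1) hdisj]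
  exact tsum_congr fun γ => (fc_img γ.2 (hm γ) (hs γ) hu).1

theorem lintegral_fund_eq {P P' : Set ℂ} (hP : IsFund S P) (hP' : IsFund S P') {u : ℂ → ℝ≥0∞}
    (hu : Measurable u)
    (hi : ∀ γ ∈ S.Γ, ∀ᵐ z ∂(volume.restrict D), u (ext γ z) = u z) :
    ∫⁻ z in P, u z ∂hyp = ∫⁻ z in P', u z ∂hyp := by
  have hcount : Countable S.Γ := countable_Γ S
  rw [fc_sum hP' hP.meas hP.sub hu]
  have h1 : P' = ⋃ γ : S.Γ, P' ∩ (ext (γ : CD ≃ₜ CD)) ⁻¹' P := by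
    apply Set.Subset.antisymm
    · intro z hz
      obtain ⟨γ, hγ, -⟩ := fc_uniq hP (hP'.sub hz)
      exact Set.mem_iUnion.2 ⟨γ, hz, hγ⟩
    · exact Set.iUnion_subset fun γ => inter_subset_left
  have hdisj : Pairwise (Function.onFun Disjoint fun γ : S.Γ =>
      P' ∩ (ext (γ : CD ≃ₜ CD)) ⁻¹' P) := by
    intro γ δ hne
    refine Set.disjoint_left.2 ?_
    rintro z ⟨hzP', hz⟩ ⟨-, hz'⟩
    obtain ⟨η, -, hη⟩ := fc_uniq hP (hP'.sub hzP')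
    exact hne ((hη γ hz).trans (hη δ hz').symm)
  conv_rhs => rw [h1]
  rw [lintegral_iUnion (fun γ => hP'.meas.inter (fb_measurable _ hP.meas)) hdisj]
  refine tsum_congr fun γ => ?_
  exact lintegral_congr_ae (ae_restrict_of_ae (fc_ae (hi γ γ.2)))

/-- a set that meets every orbit at most once has smaller integral. -/
theorem lintegral_le_fund {P E : Set ℂ} (hP : IsFund S P) (hE : MeasurableSet E) (hED : E ⊆ D)
    (hpack : ∀ γ ∈ S.Γ, γ ≠ 1 → Disjoint (ext γ '' E) E) {u : ℂ → ℝ≥0∞} (hu : Measurable u)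
    (hi : ∀ γ ∈ S.Γ, ∀ᵐ z ∂(volume.restrict D), u (ext γ z) = u z) :
    ∫⁻ z in E, u z ∂hyp ≤ ∫⁻ z in P, u z ∂hyp := by
  have hcount : Countable S.Γ := countable_Γ S
  rw [fc_sum hP hE hED hu]
  have hdisj : Pairwise (Function.onFun Disjoint fun γ : S.Γ =>
      P ∩ (ext (γ : CD ≃ₜ CD)) ⁻¹' E) := by
    intro γ δ hne
    refine Set.disjoint_left.2 ?_
    rintro z ⟨hzP, hz⟩ ⟨-, hz'⟩
    have h1 : ((δ : CD ≃ₜ CD) * (γ : CD ≃ₜ CD)⁻¹) ≠ 1 := by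
      intro h
      apply hne
      exact Subtype.ext (mul_inv_eq_one.1 h).symm
    have h2 := hpack _ (S.Γ.mul_mem δ.2 (S.Γ.inv_mem γ.2)) h1
    refine Set.disjoint_left.1 h2 ⟨ext (γ : CD ≃ₜ CD) z, hz, rfl⟩ ?_
    rw [fa_ext_mul, fa_ext_inv]
    exact hz'
  calc ∑' γ : S.Γ, ∫⁻ z in P ∩ (ext (γ : CD ≃ₜ CD)) ⁻¹' E, u (ext (γ : CD ≃ₜ CD) z) ∂hyp
      = ∑' γ : S.Γ, ∫⁻ z in P ∩ (ext (γ : CD ≃ₜ CD)) ⁻¹' E, u z ∂hyp :=
        tsum_congr fun γ => lintegral_congr_ae (ae_restrict_of_ae (fc_ae (hi γ γ.2)))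
    _ = ∫⁻ z in ⋃ γ : S.Γ, P ∩ (ext (γ : CD ≃ₜ CD)) ⁻¹' E, u z ∂hyp :=
        (lintegral_iUnion (fun γ => hP.meas.inter (fb_measurable _ hE)) hdisj _).symm
    _ ≤ ∫⁻ z in P, u z ∂hyp :=
        lintegral_mono_set (Set.iUnion_subset fun γ => inter_subset_left)

/-- integral over the disc as a sum over the group. -/
theorem lintegral_D_eq {P : Set ℂ} (hP : IsFund S P) {u : ℂ → ℝ≥0∞} (hu : Measurable u) :
    ∫⁻ z in D, u z ∂hyp = ∑' γ : S.Γ, ∫⁻ z in P, u (ext (γ : CD ≃ₜ CD) z) ∂hyp := by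
  rw [fc_sum hP isOpen_ball.measurableSet Set.Subset.rfl hu]
  refine tsum_congr fun γ => ?_
  have h1 : P ∩ (ext (γ : CD ≃ₜ CD)) ⁻¹' D = P := by
    apply Set.inter_eq_left.2
    intro z hz
    exact mem_ball_zero_iff.2 (fa_ext_lt S γ.2 (mem_ball_zero_iff.1 (hP.sub hz)))
  rw [h1]

end QC
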