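import Pool.Agent.Work.MP_217185_an.HypB
import Pool.Agent.Work.MP_217185_an.DFact
import Pool.Agent.Work.MP_217185_an.FundC

/-! # FundD: fundamental domains

* discreteness: for `R < 1` finitely many `γ ∈ Γ` have `‖γ 0‖ ≤ R`: otherwise distinct `γ_n` with
  `γ_n 0 → y ∈ D`, then `γ_n⁻¹ γ_m 0` is close to `0` in the (pseudo)hyperbolic metric, contradicting
  `0 ∈ Reg Γ` (a neighbourhood of `0` on which all `γ ≠ 1` act disjointly).  So `Γ` is countable.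
* existence: cover `D` by countably many open sets `U_i ⊆ D` with `γ U_i ∩ U_i = ∅` (`γ ≠ 1`,
  `Bord.disc`); `P = ⋃_i (U_i \ ⋃_{j<i} Γ U_j)`.
* independence: `∫_P u = ∑_γ ∫_{P ∩ γ P'} u = ∑_γ ∫_{γ⁻¹ P ∩ P'} u = ∫_{P'} u`. -/

open MeasureTheory Complex Set Metric Filter
open scoped Topology ENNReal NNReal ContDiff ComplexConjugate

namespace QC

variable (S : Bord)

variable {S}

theorem AEInv.norm {μ : ℂ → ℂ} (h : AEInv S μ) :
    ∀ γ ∈ S.Γ, ∀ᵐ z ∂(volume.restrict D), ‖μ (ext γ z)‖ = ‖μ z‖ := by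
  intro γ hγ
  obtain ⟨a, b, hab, hm⟩ := S.mob γ hγ
  have h1 := h γ hγ a b hab hm
  have h2 : ∀ᵐ z ∂(volume.restrict D), z ∈ D := ae_restrict_mem isOpen_ball.measurableSet
  filter_upwards [h1, h2] with z hz hzD
  have hz1 : ‖z‖ < 1 := mem_ball_zero_iff.1 hzD
  rw [fa_ext γ hz1.le, hm, ← norm_pull hab μ hz1, hz]

theorem Inv.norm {μ : ℂ → ℂ} (h : Inv S μ) :
    ∀ γ ∈ S.Γ, ∀ z ∈ D, ‖μ (ext γ z)‖ = ‖μ z‖ := by
  intro γ hγ z hzD
  obtain ⟨a, b, hab, hm⟩ := S.mob γ hγ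
  have hz1 : ‖z‖ < 1 := mem_ball_zero_iff.1 hzD
  rw [fa_ext γ hz1.le, hm, ← norm_pull hab μ hz1, h γ hγ a b hab hm z hzD]

theorem Inv.aeInv {μ : ℂ → ℂ} (h : Inv S μ) : AEInv S μ := by
  intro γ hγ a b hab hm
  have h2 : ∀ᵐ z ∂(volume.restrict D), z ∈ D := ae_restrict_mem isOpen_ball.measurableSet
  filter_upwards [h2] with z hz
  exact h γ hγ a b hab hm z hz

/-- square integrability does not depend on the fundamental domain. -/
theorem L2hyp_iff {μ : ℂ → ℂ} (hm : Measurable μ) (hi : AEInv S μ) {P : Set ℂ}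
    (hP : IsFund S P) : L2hyp S μ ↔ ∫⁻ z in P, ‖μ z‖ₑ ^ 2 ∂hyp < ⊤ := by
  constructor
  · rintro ⟨P', hP', h⟩
    rw [lintegral_fund_eq hP hP' (u := fun z => ‖μ z‖ₑ ^ 2) (hm.enorm.pow_const 2)]
    · exact h
    · intro γ hγ
      filter_upwards [hi.norm γ hγ] with z hz
      show ‖μ (ext γ z)‖ₑ ^ 2 = ‖μ z‖ₑ ^ 2
      rw [enorm_eq_iff_norm_eq.2 hz]
  · intro h
    exact ⟨P, hP, h⟩

end QC
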