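import Pool.Agent.Work.MP_217185_an.Wirt

/-! # GlueA: cutoff functions that vanish near the unit circle

`η_n z = smoothTransition (n² (‖z‖² - 1)² - 1)` (`Real.smoothTransition`, complex valued): `0` if
`|‖z‖² - 1| ≤ 1/n`, `1` if `(‖z‖² - 1)² ≥ 2/n²`, gradient `≤ C n`, supported in
`|‖z‖² - 1| ≤ 2/n`, a set of area `≤ C/n`.
Last claim: for a test function `u`, `∫ u dz η_n = ∫ u dz (η_n - 1) = - ∫ dz u (η_n - 1) → 0`
(`integral_mul_dz`; `η_n - 1` is bounded and supported in a set of area `→ 0`).  For a continuous `u`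
with compact support choose test functions `u_j` with `sup ‖u - u_j‖ ≤ 1/j` (mollify):
`‖∫ (u - u_j) dz η_n‖ ≤ (1/j) (C n)(C/n)`. -/

open MeasureTheory Complex Set Metric Filter
open scoped Topology ENNReal NNReal ContDiff ComplexConjugate

namespace QC

/-- the derivative of the transition function is bounded and vanishes above `1` -/
private theorem gl_sT : ∃ C : ℝ, 0 ≤ C ∧ (∀ x, |deriv Real.smoothTransition x| ≤ C) ∧
    ∀ x, 1 < x → deriv Real.smoothTransition x = 0 := by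
  have hc : Continuous (deriv Real.smoothTransition) :=
    (Real.smoothTransition.contDiff (n := 1)).continuous_deriv le_rfl
  have h1 : ∀ x, 1 < x → deriv Real.smoothTransition x = 0 := by
    intro x hx
    have h : Real.smoothTransition =ᶠ[𝓝 x] fun _ => (1 : ℝ) := by
      filter_upwards [isOpen_Ioi.mem_nhds hx] with y hy
      exact Real.smoothTransition.one_of_one_le (le_of_lt hy)
    rw [h.deriv_eq]
    simp
  have h0 : ∀ x, x < 0 → deriv Real.smoothTransition x = 0 := by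
    intro x hx
    have h : Real.smoothTransition =ᶠ[𝓝 x] fun _ => (0 : ℝ) := by
      filter_upwards [isOpen_Iio.mem_nhds hx] with y hy
      exact Real.smoothTransition.zero_of_nonpos (le_of_lt hy)
    rw [h.deriv_eq]
    simp
  obtain ⟨C, hC⟩ := (isCompact_Icc (a := (0 : ℝ)) (b := 1)).exists_bound_of_continuousOn
    hc.continuousOn
  have hC0 : 0 ≤ C := (norm_nonneg _).trans (hC 0 ⟨le_rfl, zero_le_one⟩)
  refine ⟨C, hC0, fun x => ?_, h1⟩
  rcases lt_or_ge x 0 with hx | hx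
  · rw [h0 x hx, abs_zero]; exact hC0
  rcases lt_or_ge 1 x with hx' | hx'
  · rw [h1 x hx', abs_zero]; exact hC0
  · exact hC x ⟨hx, hx'⟩

/-- the cutoff function -/
private noncomputable def glE (n : ℕ) (z : ℂ) : ℂ :=
  ((Real.smoothTransition (((n : ℝ) + 1) ^ 2 * (‖z‖ ^ 2 - 1) ^ 2 - 1) : ℝ) : ℂ)

/-- the annulus -/
private def glS (n : ℕ) : Set ℂ := {z | |‖z‖ ^ 2 - 1| ≤ 2 / ((n : ℝ) + 1)}

private theorem glE_contDiff (n : ℕ) : ContDiff ℝ ∞ (glE n) := by
  unfold glE
  apply ofRealCLM.contDiff.comp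
  apply Real.smoothTransition.contDiff.comp
  apply ContDiff.sub _ contDiff_const
  apply contDiff_const.mul
  exact ((contDiff_norm_sq ℝ).sub contDiff_const).pow 2

private theorem glS_meas (n : ℕ) : MeasurableSet (glS n) := by
  unfold glS
  apply IsClosed.measurableSet
  exact isClosed_le (by fun_prop) continuous_const

private theorem glS_vol (n : ℕ) : volume (glS n) < ⊤ ∧
    volume.real (glS n) ≤ 4 * Real.pi / ((n : ℝ) + 1) := by
  obtain ⟨t, ht⟩ : ∃ t : ℝ, t = 2 / ((n : ℝ) + 1) := ⟨_, rfl⟩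
  have ht0 : 0 < t := by rw [ht]; positivity
  obtain ⟨r, hr⟩ : ∃ r : ℝ, r = Real.sqrt (1 + t) := ⟨_, rfl⟩
  obtain ⟨s, hs⟩ : ∃ s : ℝ, s = Real.sqrt (max 0 (1 - t)) := ⟨_, rfl⟩
  have hr2 : r ^ 2 = 1 + t := by rw [hr]; exact Real.sq_sqrt (by linarith)
  have hs2 : s ^ 2 = max 0 (1 - t) := by rw [hs]; exact Real.sq_sqrt (le_max_left _ _)
  have hr0 : 0 ≤ r := by rw [hr]; exact Real.sqrt_nonneg _
  have hs0 : 0 ≤ s := by rw [hs]; exact Real.sqrt_nonneg _
  have hsub : glS n ∪ ball 0 s ⊆ closedBall 0 r := by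
    rintro z (hz | hz)
    · have h1 : |‖z‖ ^ 2 - 1| ≤ t := by rw [ht]; exact hz
      rw [mem_closedBall_zero_iff]
      have h2 := (abs_le.1 h1).2
      exact abs_le_of_sq_le_sq' (by linarith) hr0 |>.2
    · rw [mem_ball_zero_iff] at hz
      rw [mem_closedBall_zero_iff]
      have h3 : s ≤ r := by
        apply abs_le_of_sq_le_sq' _ hr0 |>.2
        rw [hr2, hs2]
        exact max_le (by linarith) (by linarith)
      linarith
  have hdis : Disjoint (glS n) (ball 0 s) := by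
    rw [disjoint_left]
    intro z hz hz'
    have h1 : |‖z‖ ^ 2 - 1| ≤ t := by rw [ht]; exact hz
    rw [mem_ball_zero_iff] at hz'
    have h2 := (abs_le.1 h1).1
    have h3 : ‖z‖ ^ 2 < s ^ 2 := pow_lt_pow_left₀ hz' (norm_nonneg _) two_ne_zero
    rw [hs2] at h3
    rcases lt_max_iff.1 h3 with h4 | h4
    · have := sq_nonneg ‖z‖
      linarith
    · linarith
  have hfin : volume (closedBall (0 : ℂ) r) < ⊤ := measure_closedBall_lt_top
  have hSfin : volume (glS n) < ⊤ :=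
    (measure_mono (subset_union_left.trans hsub)).trans_lt hfin
  refine ⟨hSfin, ?_⟩
  have h1 : volume.real (glS n ∪ ball 0 s) ≤ volume.real (closedBall (0 : ℂ) r) :=
    measureReal_mono hsub hfin.ne
  rw [measureReal_union hdis measurableSet_ball hSfin.ne measure_ball_lt_top.ne] at h1
  have h2 : volume.real (closedBall (0 : ℂ) r) = Real.pi * r ^ 2 := by
    rw [Measure.real, Complex.volume_closedBall, ENNReal.toReal_mul, ENNReal.toReal_pow,
      ENNReal.toReal_ofReal hr0, mul_comm]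
    rfl
  have h3 : volume.real (ball (0 : ℂ) s) = Real.pi * s ^ 2 := by
    rw [Measure.real, Complex.volume_ball, ENNReal.toReal_mul, ENNReal.toReal_pow,
      ENNReal.toReal_ofReal hs0, mul_comm]
    rfl
  rw [h2, h3, hr2, hs2] at h1
  have h4 : 4 * Real.pi / ((n : ℝ) + 1) = Real.pi * (2 * t) := by rw [ht]; ring
  rw [h4]
  have h5 : 1 + t - max 0 (1 - t) ≤ 2 * t := by
    rcases le_total 0 (1 - t) with h | h
    · rw [max_eq_right h]; linarith
    · rw [max_eq_left h]; linarith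
  have h6 := mul_le_mul_of_nonneg_left h5 Real.pi_pos.le
  linarith

private theorem glE_fderiv : ∃ C : ℝ, 0 ≤ C ∧ ∀ n z, ‖fderiv ℝ (glE n) z‖ ≤ C * ((n : ℝ) + 1) ∧
    (z ∉ glS n → fderiv ℝ (glE n) z = 0) := by
  obtain ⟨C, hC0, hC, hC1⟩ := gl_sT
  refine ⟨16 * C, by positivity, fun n z => ?_⟩
  obtain ⟨N, hN⟩ : ∃ N : ℝ, N = (n : ℝ) + 1 := ⟨_, rfl⟩
  have hN1 : 1 ≤ N := by rw [hN]; linarith [Nat.cast_nonneg (α := ℝ) n]
  obtain ⟨a, ha⟩ : ∃ a : ℝ, a = ‖z‖ ^ 2 - 1 := ⟨_, rfl⟩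
  have hg : HasFDerivAt (fun z : ℂ => N ^ 2 * (‖z‖ ^ 2 - 1) ^ 2 - 1)
      ((N ^ 2 * (2 * a)) • ((2 : ℝ) • innerSL ℝ z)) z := by
    have h1 : HasFDerivAt (fun z : ℂ => ‖z‖ ^ 2) ((2 : ℝ) • innerSL ℝ z) z := by
      have h0 := (hasStrictFDerivAt_norm_sq (F := ℂ) z).hasFDerivAt
      refine h0.congr_fderiv ?_
      rw [two_smul, two_smul]
    have h2 := (((h1.sub_const 1).pow 2).const_mul (N ^ 2)).sub_const 1
    refine h2.congr_fderiv ?_
    ext v
    simp [ha]
    ring
  have hs : HasDerivAt Real.smoothTransition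
      (deriv Real.smoothTransition (N ^ 2 * a ^ 2 - 1)) (N ^ 2 * (‖z‖ ^ 2 - 1) ^ 2 - 1) := by
    rw [ha]
    exact ((Real.smoothTransition.contDiff (n := 1)).differentiable (by simp) _).hasDerivAt
  have hE : HasFDerivAt (glE n) (ofRealCLM.comp
      ((deriv Real.smoothTransition (N ^ 2 * a ^ 2 - 1)) •
        ((N ^ 2 * (2 * a)) • ((2 : ℝ) • innerSL ℝ z)))) z := by
    have h1 := ofRealCLM.hasFDerivAt.comp z (hs.comp_hasFDerivAt z hg)
    refine h1.congr_of_eventuallyEq (Eventually.of_forall fun x => ?_)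
    simp only [glE, hN, Function.comp_apply, ofRealCLM_apply]
  rw [hE.fderiv]
  by_cases hz : z ∈ glS n
  · refine ⟨?_, fun h => absurd hz h⟩
    have h1 : |a| ≤ 2 / N := by rw [ha, hN]; exact hz
    have h2 : ‖z‖ ≤ 2 := by
      have h3 := (abs_le.1 h1).2
      have h4 : 2 / N ≤ 2 := by
        rw [div_le_iff₀ (by linarith)]
        linarith
      rw [ha] at h3
      nlinarith [norm_nonneg z]
    refine (ContinuousLinearMap.opNorm_comp_le _ _).trans ?_
    rw [ofRealCLM_norm, one_mul, norm_smul, norm_smul, norm_smul, innerSL_apply_norm,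
      Real.norm_eq_abs, Real.norm_eq_abs, Real.norm_eq_abs, abs_two, abs_mul, abs_mul, abs_two,
      abs_of_nonneg (by positivity : 0 ≤ N ^ 2), ← hN]
    have h5 : N ^ 2 * (2 * |a|) ≤ 4 * N := by
      have h6 : N ^ 2 * (2 * |a|) ≤ N ^ 2 * (2 * (2 / N)) := by gcongr
      have h7 : N ^ 2 * (2 * (2 / N)) = 4 * N := by field_simp; ring
      linarith
    calc |deriv Real.smoothTransition (N ^ 2 * a ^ 2 - 1)| * (N ^ 2 * (2 * |a|) * (2 * ‖z‖)) ≤
        C * (4 * N * (2 * 2)) := by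
          gcongr
          exact hC _
      _ = 16 * C * N := by ring
  · have h1 : 1 < N ^ 2 * a ^ 2 - 1 := by
      have h2 : 2 / N < |a| := by
        rw [ha, hN]
        exact not_le.1 hz
      have h3 : 2 < N * |a| := by
        rw [div_lt_iff₀ (by linarith)] at h2
        linarith
      have h4 : N ^ 2 * a ^ 2 = (N * |a|) ^ 2 := by rw [mul_pow, sq_abs]
      rw [h4]
      nlinarith
    rw [hC1 _ h1, zero_smul, ContinuousLinearMap.comp_zero]
    refine ⟨?_, fun _ => rfl⟩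
    rw [norm_zero]
    positivity

private theorem glE_norm (n : ℕ) (z : ℂ) : ‖glE n z‖ ≤ 1 := by
  unfold glE
  rw [norm_real, Real.norm_eq_abs, abs_of_nonneg (Real.smoothTransition.nonneg _)]
  exact Real.smoothTransition.le_one _

private theorem glE_one {z : ℂ} (hz : ‖z‖ ≠ 1) : ∀ᶠ n in atTop, glE n z = 1 := by
  have h1 : 0 < |‖z‖ ^ 2 - 1| := by
    rw [abs_pos]
    intro h
    apply hz
    have h2 : ‖z‖ ^ 2 = 1 := by linarith
    exact (pow_eq_one_iff_of_nonneg (norm_nonneg _) two_ne_zero).1 h2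
  obtain ⟨m, hm⟩ := exists_nat_gt (2 / |‖z‖ ^ 2 - 1|)
  filter_upwards [eventually_ge_atTop m] with n hn
  unfold glE
  rw [Real.smoothTransition.one_of_one_le]
  · simp
  · have h2 : (m : ℝ) ≤ n := by exact_mod_cast hn
    rw [div_lt_iff₀ h1] at hm
    have h3 : 2 < ((n : ℝ) + 1) * |‖z‖ ^ 2 - 1| := by nlinarith
    have h4 : ((n : ℝ) + 1) ^ 2 * (‖z‖ ^ 2 - 1) ^ 2 = (((n : ℝ) + 1) * |‖z‖ ^ 2 - 1|) ^ 2 := by
      rw [mul_pow, sq_abs]
    rw [h4]
    nlinarith

private theorem gl_lim {d : (ℂ → ℂ) → ℂ → ℂ} (h1 : ∀ f z, ‖d f z‖ ≤ ‖fderiv ℝ f z‖)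
    (h2 : ∀ f v, ContDiff ℝ ∞ f → Test univ v → ∫ z, f z * d v z = - ∫ z, d f z * v z)
    (h3 : ∀ v, Test univ v → Test univ (d v) ∧ ∫ z, d v z = 0)
    (h4 : ∀ f, ContDiff ℝ ∞ f → Continuous (d f))
    {u : ℂ → ℂ} (hu : Continuous u) (hc : HasCompactSupport u) :
    Tendsto (fun n => ∫ z, u z * d (glE n) z) atTop (𝓝 0) := by
  obtain ⟨C, hC0, hC⟩ := glE_fderiv
  -- test functions
  have htest : ∀ v, Test univ v → Tendsto (fun n => ∫ z, v z * d (glE n) z) atTop (𝓝 0) := by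
    intro v hv
    have e1 : ∀ n, ∫ z, v z * d (glE n) z = - ∫ z, glE n z * d v z := by
      intro n
      rw [h2 (glE n) v (glE_contDiff n) hv, neg_neg]
      congr 1
      ext z
      ring
    simp_rw [e1]
    have e2 : Tendsto (fun n => ∫ z, glE n z * d v z) atTop (𝓝 (∫ z, 1 * d v z)) := by
      have hdv := (h3 v hv).1
      apply tendsto_integral_of_dominated_convergence (fun z => ‖d v z‖)
      · intro n
        exact ((glE_contDiff n).continuous.mul hdv.smooth.continuous).aestronglyMeasurable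
      · exact (hdv.smooth.continuous.integrable_of_hasCompactSupport hdv.cpt).norm
      · intro n
        refine Eventually.of_forall fun z => ?_
        rw [norm_mul]
        calc ‖glE n z‖ * ‖d v z‖ ≤ 1 * ‖d v z‖ :=
              mul_le_mul_of_nonneg_right (glE_norm n z) (norm_nonneg _)
          _ = ‖d v z‖ := one_mul _
      · have e3 : ∀ᵐ z : ℂ, z ∉ sphere (0 : ℂ) 1 :=
          measure_eq_zero_iff_ae_notMem.1 (Measure.addHaar_sphere _ _ _)
        filter_upwards [e3] with z hz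
        have e4 : ‖z‖ ≠ 1 := by
          intro h
          exact hz (mem_sphere_zero_iff_norm.2 h)
        refine Tendsto.mul_const _ ?_
        refine tendsto_const_nhds.congr' ?_
        filter_upwards [glE_one e4] with n hn
        exact hn.symm
    have e5 : ∫ z, 1 * d v z = 0 := by
      simp_rw [one_mul]
      exact (h3 v hv).2
    rw [e5] at e2
    simpa using e2.neg
  rw [Metric.tendsto_nhds]
  intro ε hε
  obtain ⟨δ, hδ⟩ : ∃ δ : ℝ, δ = ε / (2 * (C * (4 * Real.pi) + 1)) := ⟨_, rfl⟩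
  have hpi := Real.pi_pos
  have hδ0 : 0 < δ := by rw [hδ]; positivity
  obtain ⟨v, hv1, hv2, hv3⟩ := hu.exists_contDiff_approx (⊤ : ℕ∞) (ε := fun _ => δ)
    continuous_const (fun _ => hδ0)
  have hvT : Test univ v := ⟨hv1, hc.mono hv3, subset_univ _⟩
  filter_upwards [(Metric.tendsto_nhds.1 (htest v hvT)) (ε / 2) (by positivity)] with n hn
  rw [dist_zero_right] at hn ⊢
  have hdc : Continuous (d (glE n)) := h4 _ (glE_contDiff n)
  have i1 : Integrable (fun z => u z * d (glE n) z) :=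
    (hu.mul hdc).integrable_of_hasCompactSupport hc.mul_right
  have i2 : Integrable (fun z => v z * d (glE n) z) :=
    (hvT.smooth.continuous.mul hdc).integrable_of_hasCompactSupport hvT.cpt.mul_right
  have e1 : ∫ z, u z * d (glE n) z =
      (∫ z, v z * d (glE n) z) + ∫ z, (u z - v z) * d (glE n) z := by
    have : (fun z => (u z - v z) * d (glE n) z) =
        fun z => u z * d (glE n) z - v z * d (glE n) z := by
      ext z; ring
    rw [this, integral_sub i1 i2]
    ring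
  obtain ⟨hS1, hS2⟩ := glS_vol n
  have e2 : ‖∫ z, (u z - v z) * d (glE n) z‖ ≤ δ * (C * ((n : ℝ) + 1)) * volume.real (glS n) := by
    rw [← setIntegral_eq_integral_of_forall_compl_eq_zero (s := glS n)]
    · apply norm_setIntegral_le_of_norm_le_const hS1
      intro z _
      rw [norm_mul]
      apply mul_le_mul _ ((h1 _ _).trans (hC n z).1) (norm_nonneg _) hδ0.le
      rw [← dist_eq_norm, dist_comm]
      exact (hv2 z).le
    · intro z hz
      have e3 : d (glE n) z = 0 := by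
        rw [← norm_le_zero_iff]
        refine (h1 _ _).trans ?_
        rw [(hC n z).2 hz, norm_zero]
      rw [e3, mul_zero]
  have e3 : δ * (C * ((n : ℝ) + 1)) * volume.real (glS n) ≤ δ * (C * (4 * Real.pi)) := by
    calc δ * (C * ((n : ℝ) + 1)) * volume.real (glS n) ≤
        δ * (C * ((n : ℝ) + 1)) * (4 * Real.pi / ((n : ℝ) + 1)) := by gcongr
      _ = δ * (C * (4 * Real.pi)) := by field_simp
  have e4 : δ * (C * (4 * Real.pi)) < ε / 2 := by
    have e5 : δ * (C * (4 * Real.pi) + 1) = ε / 2 := by rw [hδ]; field_simp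
    linarith
  rw [e1]
  refine (norm_add_le _ _).trans_lt ?_
  linarith

theorem exists_eta : ∃ η : ℕ → ℂ → ℂ, (∀ n, ContDiff ℝ ∞ (η n)) ∧ (∀ n z, ‖η n z‖ ≤ 1) ∧
    (∀ n, ∃ δ > (0 : ℝ), ∀ z, |‖z‖ - 1| < δ → η n z = 0) ∧
    (∀ z : ℂ, ‖z‖ ≠ 1 → ∀ᶠ n in atTop, η n z = 1) ∧
    ∀ u : ℂ → ℂ, Continuous u → HasCompactSupport u →
      Tendsto (fun n => ∫ z, u z * dz (η n) z) atTop (𝓝 0) ∧
      Tendsto (fun n => ∫ z, u z * dzb (η n) z) atTop (𝓝 0) := by
  refine ⟨glE, glE_contDiff, glE_norm, ?_, fun z hz => glE_one hz, ?_⟩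
  · intro n
    refine ⟨1 / (3 * ((n : ℝ) + 1)), by positivity, fun z hz => ?_⟩
    unfold glE
    rw [Real.smoothTransition.zero_of_nonpos, ofReal_zero]
    have hn : (0 : ℝ) < (n : ℝ) + 1 := by positivity
    have h1 : |‖z‖ - 1| ≤ 1 := by
      refine hz.le.trans ?_
      rw [div_le_one (by positivity)]
      linarith [Nat.cast_nonneg (α := ℝ) n]
    have h2 : ‖z‖ + 1 ≤ 3 := by linarith [(abs_le.1 h1).2]
    have h3 : ((n : ℝ) + 1) * |‖z‖ ^ 2 - 1| ≤ 1 := by
      have e1 : ‖z‖ ^ 2 - 1 = (‖z‖ - 1) * (‖z‖ + 1) := by ring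
      rw [e1, abs_mul, abs_of_nonneg (by positivity : 0 ≤ ‖z‖ + 1)]
      rw [lt_div_iff₀ (by positivity)] at hz
      have h5 : |‖z‖ - 1| * (‖z‖ + 1) ≤ |‖z‖ - 1| * 3 :=
        mul_le_mul_of_nonneg_left h2 (abs_nonneg _)
      nlinarith
    have h4 : ((n : ℝ) + 1) ^ 2 * (‖z‖ ^ 2 - 1) ^ 2 = (((n : ℝ) + 1) * |‖z‖ ^ 2 - 1|) ^ 2 := by
      rw [mul_pow, sq_abs]
    rw [h4]
    have h5 : 0 ≤ ((n : ℝ) + 1) * |‖z‖ ^ 2 - 1| := by positivity
    nlinarith
  · intro u hu hc
    constructor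
    · exact gl_lim (fun f z => norm_dz_le f z)
        (fun f v hf hv => (integral_mul_dz isOpen_univ ((hf.of_le (by simp)).contDiffOn)
          (hv.smooth.of_le (by simp)) hv.cpt hv.sub).1)
        (fun v hv => ⟨hv.dz.1, (integral_dz_eq_zero (hv.smooth.of_le (by simp)) hv.cpt).1⟩)
        (fun f hf => (contDiff_dz hf).1.continuous) hu hc
    · exact gl_lim (fun f z => norm_dzb_le f z)
        (fun f v hf hv => (integral_mul_dz isOpen_univ ((hf.of_le (by simp)).contDiffOn)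
          (hv.smooth.of_le (by simp)) hv.cpt hv.sub).2)
        (fun v hv => ⟨hv.dz.2, (integral_dz_eq_zero (hv.smooth.of_le (by simp)) hv.cpt).2⟩)
        (fun f hf => (contDiff_dz hf).2.continuous) hu hc

end QC
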