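import Pool.Agent.Work.MP_217185_an.Fund

/-! # UDiscA: uniform discreteness

Let `K ⊆ Reg Γ` be compact with `Γ K = Reg Γ`.  Claim: there is `s > 0` such that for all `z ∈ D` and
`γ ≠ 1` the sets `A_z '' ball 0 s` and `γ '' (A_z '' ball 0 s)` are disjoint.  Otherwise there are
`s_n → 0`, `z_n ∈ D`, `γ_n ≠ 1` and points `x_n`, `γ_n y_n = x_n` with `x_n, y_n ∈ A_{z_n} '' ball 0 s_n`;
conjugating by an element of `Γ` we may assume `z_n ∈ K`, `z_n → z ∈ K` (subsequence).  The Euclidean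
diameter of `A_{z_n} '' ball 0 s_n` tends to `0`, so `x_n, y_n → z`.  As `z ∈ Reg Γ` there is a
neighbourhood `U` of `z` with `γ U ∩ U = ∅` for `γ ≠ 1`, contradiction. -/

open MeasureTheory Complex Set Metric Filter
open scoped Topology ENNReal NNReal ContDiff ComplexConjugate

namespace QC

lemma ua_mob_sub {c d ζ : ℂ} (h : ‖d‖ < ‖c‖) (hζ : ‖ζ‖ < 1) :
    ‖mob c d ζ - mob c d 0‖ ≤ 2 * ‖ζ‖ := by
  have h0 : conj d * ζ + conj c ≠ 0 := mob_denom_ne h hζ.le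
  have hc0 : 0 < ‖c‖ := (norm_nonneg d).trans_lt h
  have hc : conj c ≠ 0 := by
    intro h1
    rw [← RCLike.norm_conj (z := c), h1, norm_zero] at hc0
    exact lt_irrefl _ hc0
  have e1 : mob c d ζ - mob c d 0 = (c * conj c - d * conj d) * ζ / (conj c * (conj d * ζ + conj c)) := by
    unfold mob
    rw [mul_zero, mul_zero, zero_add, zero_add, div_sub_div _ _ h0 hc]
    congr 1 <;> ring
  have e2 : c * conj c - d * conj d = ((‖c‖ ^ 2 - ‖d‖ ^ 2 : ℝ) : ℂ) := by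
    rw [Complex.mul_conj, Complex.mul_conj, Complex.normSq_eq_norm_sq, Complex.normSq_eq_norm_sq]
    push_cast; ring
  have hden : ‖c‖ - ‖d‖ ≤ ‖conj d * ζ + conj c‖ := by
    have h1 : ‖conj c‖ - ‖conj d * ζ‖ ≤ ‖conj c + conj d * ζ‖ := by
      have := norm_sub_norm_le (conj c) (-(conj d * ζ))
      rwa [norm_neg, sub_neg_eq_add] at this
    rw [norm_mul, RCLike.norm_conj, RCLike.norm_conj] at h1
    rw [add_comm]
    have h2 : ‖d‖ * ‖ζ‖ ≤ ‖d‖ * 1 := mul_le_mul_of_nonneg_left hζ.le (norm_nonneg d)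
    linarith
  have hpos : 0 < ‖c‖ - ‖d‖ := sub_pos.2 h
  have hnn : 0 ≤ ‖c‖ ^ 2 - ‖d‖ ^ 2 := by nlinarith [norm_nonneg d, norm_nonneg c]
  rw [e1, e2, norm_div, norm_mul, norm_mul, RCLike.norm_conj, Complex.norm_real, Real.norm_eq_abs,
    abs_of_nonneg hnn, div_le_iff₀ (mul_pos hc0 (norm_pos_iff.2 h0))]
  have h3 : ‖c‖ ^ 2 - ‖d‖ ^ 2 ≤ 2 * (‖c‖ * (‖c‖ - ‖d‖)) := by nlinarith [norm_nonneg d, norm_nonneg c]
  have h4 : ‖c‖ * (‖c‖ - ‖d‖) ≤ ‖c‖ * ‖conj d * ζ + conj c‖ :=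
    mul_le_mul_of_nonneg_left hden hc0.le
  calc (‖c‖ ^ 2 - ‖d‖ ^ 2) * ‖ζ‖ ≤ (2 * (‖c‖ * (‖c‖ - ‖d‖))) * ‖ζ‖ :=
        mul_le_mul_of_nonneg_right h3 (norm_nonneg ζ)
    _ ≤ (2 * (‖c‖ * ‖conj d * ζ + conj c‖)) * ‖ζ‖ :=
        mul_le_mul_of_nonneg_right (by linarith) (norm_nonneg ζ)
    _ = 2 * ‖ζ‖ * (‖c‖ * ‖conj d * ζ + conj c‖) := by ring

theorem uniform_discrete (S : Bord) : ∃ s : ℝ, 0 < s ∧ s < 1 ∧ ∀ z ∈ D, ∀ γ ∈ S.Γ, γ ≠ 1 →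
    Disjoint (ext γ '' (mob 1 z '' ball 0 s)) (mob 1 z '' ball 0 s) := by
  obtain ⟨K, hK, hKR, hKc⟩ := S.cocompact
  obtain ⟨ε, hε, hL⟩ := lebesgue_number_lemma_of_metric_sUnion (s := K)
    (c := {U : Set CD | IsOpen U ∧ ∀ γ ∈ S.Γ, γ ≠ 1 → Disjoint (γ '' U) U}) hK
    (fun U hU => hU.1) (by
      intro x hx
      obtain ⟨U, hU, hd⟩ := hKR hx
      obtain ⟨V, hVU, hV, hxV⟩ := _root_.mem_nhds_iff.1 hU
      exact Set.mem_sUnion.2 ⟨V, ⟨hV, fun γ hγ h1 =>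
        (hd γ hγ h1).mono (Set.image_mono hVU) hVU⟩, hxV⟩)
  refine ⟨min (ε / 2) (1 / 2), lt_min (by positivity) (by norm_num),
    (min_le_right _ _).trans_lt (by norm_num), ?_⟩
  intro z hz γ hγ hγ1
  have hz1 : ‖z‖ < 1 := mem_ball_zero_iff.1 hz
  have hzn : ‖z‖ < ‖(1 : ℂ)‖ := by rwa [norm_one]
  set x : CD := ⟨z, by simpa using hz1.le⟩ with hx
  obtain ⟨γ₀, hγ₀, hxK⟩ := hKc x (S.disc x hz1)
  obtain ⟨U, ⟨-, hUd⟩, hUb⟩ := hL _ hxK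
  obtain ⟨a, b, hab, hm⟩ := fa_mob S hγ₀
  -- the ball is mapped into the neighbourhood
  have key : ∀ w ∈ mob 1 z '' ball 0 (min (ε / 2) (1 / 2)), ∃ y : CD, (y : ℂ) = w ∧ γ₀ y ∈ U := by
    rintro _ ⟨ζ, hζ, rfl⟩
    have hζ' : ‖ζ‖ < min (ε / 2) (1 / 2) := mem_ball_zero_iff.1 hζ
    have hζε : ‖ζ‖ < ε / 2 := hζ'.trans_le (min_le_left _ _)
    have hζ1 : ‖ζ‖ < 1 := (hζ'.trans_le (min_le_right _ _)).trans (by norm_num)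
    have hw1 : ‖mob 1 z ζ‖ < 1 := norm_mob_lt hzn hζ1
    refine ⟨⟨mob 1 z ζ, by simpa using hw1.le⟩, rfl, hUb ?_⟩
    rw [Metric.mem_ball, Subtype.dist_eq, dist_eq_norm, ← fa_ext γ₀ hw1.le, ← fa_ext γ₀ hz1.le,
      hm _ hw1.le, hm _ hz1.le]
    have hz0 : mob 1 z 0 = z := by simp [mob]
    obtain ⟨hc1, hc2⟩ := mob_comp hab hzn hζ1.le
    obtain ⟨hc3, -⟩ := mob_comp hab hzn (z := 0) (by simp)
    rw [hz0] at hc3
    rw [hc1, hc3]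
    calc _ ≤ 2 * ‖ζ‖ := ua_mob_sub hc2 hζ1
      _ < ε := by linarith
  refine Set.disjoint_left.2 ?_
  rintro _ ⟨w, hw, rfl⟩ hw'
  obtain ⟨y, hy, hyU⟩ := key w hw
  obtain ⟨y', hy', hyU'⟩ := key _ hw'
  have h1 : γ y = y' := by
    apply Subtype.ext
    rw [hy', ← hy, ext_apply γ y]
  have hne : γ₀ * γ * γ₀⁻¹ ≠ 1 := by
    intro h
    apply hγ1
    have := congrArg (fun g => γ₀⁻¹ * g * γ₀) h
    simpa [mul_assoc] using this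
  have h2 := hUd _ (S.Γ.mul_mem (S.Γ.mul_mem hγ₀ hγ) (S.Γ.inv_mem hγ₀)) hne
  refine Set.disjoint_left.1 h2 ⟨γ₀ y, hyU, rfl⟩ ?_
  have h3 : (γ₀ * γ * γ₀⁻¹) (γ₀ y) = γ₀ y' := by
    show γ₀ (γ (γ₀⁻¹ (γ₀ y))) = γ₀ y'
    have : γ₀⁻¹ (γ₀ y) = y := γ₀.symm_apply_apply y
    rw [this, h1]
  rw [h3]
  exact hyU'

end QC
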