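import Pool.Agent.Work.MP_217185_an.Fund
import Pool.Agent.Work.MP_217185_an.UDiscA

/-! # UDiscB: uniform discreteness

Let `K ⊆ Reg Γ` be compact with `Γ K = Reg Γ`.  Claim: there is `s > 0` such that for all `z ∈ D` and
`γ ≠ 1` the sets `A_z '' ball 0 s` and `γ '' (A_z '' ball 0 s)` are disjoint.  Otherwise there are
`s_n → 0`, `z_n ∈ D`, `γ_n ≠ 1` and points `x_n`, `γ_n y_n = x_n` with `x_n, y_n ∈ A_{z_n} '' ball 0 s_n`;
conjugating by an element of `Γ` we may assume `z_n ∈ K`, `z_n → z ∈ K` (subsequence).  The Euclidean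
diameter of `A_{z_n} '' ball 0 s_n` tends to `0`, so `x_n, y_n → z`.  As `z ∈ Reg Γ` there is a
neighbourhood `U` of `z` with `γ U ∩ U = ∅` for `γ ≠ 1`, contradiction. -/

open MeasureTheory Complex Set Metric Filter
open scoped Topology ENNReal NNReal ContDiff ComplexConjugate

namespace QC

/-- area mean value inequality -/
lemma ub_mean {g : ℂ → ℂ} (hg : DifferentiableOn ℂ g D) {s : ℝ} (hs : 0 < s) (hs1 : s < 1) :
    ENNReal.ofReal (Real.pi * s ^ 2) * ‖g 0‖ₑ ≤ ∫⁻ ζ in ball (0 : ℂ) s, ‖g ζ‖ₑ := by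
  have hpi := Real.pi_pos
  have hpol : ∀ r θ : ℝ, Complex.polarCoord.symm (r, θ) = circleMap 0 r θ := by
    intro r θ
    rw [Complex.polarCoord_symm_apply, circleMap, zero_add, Complex.exp_mul_I, Complex.ofReal_cos,
      Complex.ofReal_sin]
  -- the circles
  have hcirc : ∀ r ∈ Ioo (0 : ℝ) s, ENNReal.ofReal (2 * Real.pi) * ‖g 0‖ₑ
      ≤ ∫⁻ θ in Ioo (-Real.pi) Real.pi, ‖g (Complex.polarCoord.symm (r, θ))‖ₑ := by
    rintro r ⟨hr0, hrs⟩
    have hd : DiffContOnCl ℂ g (ball 0 |r|) := by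
      rw [abs_of_pos hr0]
      refine (hg.mono ?_).diffContOnCl
      rw [closure_ball _ hr0.ne']
      exact closedBall_subset_ball (hrs.trans hs1)
    have h1 := hd.circleAverage
    rw [Real.circleAverage_def] at h1
    have hper : Function.Periodic (fun θ => g (circleMap 0 r θ)) (2 * Real.pi) := fun x => by
      simp only [periodic_circleMap 0 r x]
    have h2 := hper.intervalIntegral_add_eq 0 (-Real.pi)
    rw [zero_add] at h2
    rw [h2] at h1
    have h3 : -Real.pi + 2 * Real.pi = Real.pi := by ring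
    rw [h3, intervalIntegral.integral_of_le (by linarith), integral_Ioc_eq_integral_Ioo] at h1
    have h4 : ∫ θ in Ioo (-Real.pi) Real.pi, g (circleMap 0 r θ) = (2 * Real.pi : ℝ) • g 0 := by
      rw [← h1, smul_smul, mul_inv_cancel₀ (by positivity), one_smul]
    calc ENNReal.ofReal (2 * Real.pi) * ‖g 0‖ₑ = ‖(2 * Real.pi : ℝ) • g 0‖ₑ := by
          rw [enorm_smul, Real.enorm_of_nonneg (by positivity)]
      _ = ‖∫ θ in Ioo (-Real.pi) Real.pi, g (circleMap 0 r θ)‖ₑ := by rw [h4]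
      _ ≤ ∫⁻ θ in Ioo (-Real.pi) Real.pi, ‖g (circleMap 0 r θ)‖ₑ :=
          enorm_integral_le_lintegral_enorm _
      _ = _ := by simp only [hpol]
  have hsub : Ioo 0 s ×ˢ Ioo (-Real.pi) Real.pi ⊆ polarCoord.target := by
    rintro ⟨a, b⟩ ⟨⟨h1, h2⟩, h3⟩
    exact ⟨h1, h3⟩
  have hms : MeasurableSet (Ioo 0 s ×ˢ Ioo (-Real.pi) Real.pi) :=
    measurableSet_Ioo.prod measurableSet_Ioo
  have hball : ∀ p ∈ Ioo 0 s ×ˢ Ioo (-Real.pi) Real.pi,
      Complex.polarCoord.symm p ∈ ball (0 : ℂ) s := by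
    rintro ⟨a, b⟩ ⟨⟨h1, h2⟩, h3⟩
    rw [mem_ball_zero_iff, Complex.norm_polarCoord_symm]
    simpa [abs_of_pos h1] using h2
  have hcont : ContinuousOn (fun p : ℝ × ℝ => g (Complex.polarCoord.symm p))
      (Ioo 0 s ×ˢ Ioo (-Real.pi) Real.pi) := by
    have h1 : Continuous (fun p : ℝ × ℝ => Complex.polarCoord.symm p) := by
      have : (fun p : ℝ × ℝ => Complex.polarCoord.symm p) =
          fun p : ℝ × ℝ => (p.1 : ℂ) * (Real.cos p.2 + Real.sin p.2 * Complex.I) := by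
        funext p; rw [Complex.polarCoord_symm_apply]
      rw [this]
      fun_prop
    refine hg.continuousOn.comp h1.continuousOn fun p hp => ?_
    exact ball_subset_ball hs1.le (hball p hp)
  have hae : AEMeasurable (fun p : ℝ × ℝ => ENNReal.ofReal p.1 * ‖g (Complex.polarCoord.symm p)‖ₑ)
      ((volume.restrict (Ioo 0 s)).prod (volume.restrict (Ioo (-Real.pi) Real.pi))) := by
    rw [Measure.prod_restrict, ← Measure.volume_eq_prod]
    exact (measurable_fst.ennreal_ofReal.aemeasurable).mul (hcont.aemeasurable hms).enorm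
  calc ENNReal.ofReal (Real.pi * s ^ 2) * ‖g 0‖ₑ
      = ∫⁻ r in Ioo 0 s, ENNReal.ofReal r * (ENNReal.ofReal (2 * Real.pi) * ‖g 0‖ₑ) := by
        rw [lintegral_mul_const _ (by fun_prop)]
        have h5 : ∫⁻ r in Ioo 0 s, ENNReal.ofReal r = ENNReal.ofReal (s ^ 2 / 2) := by
          rw [← ofReal_integral_eq_lintegral_ofReal]
          · rw [← integral_Ioc_eq_integral_Ioo, ← intervalIntegral.integral_of_le hs.le,
              integral_id]
            congr 1; ring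
          · exact (continuous_id.continuousOn.integrableOn_Icc).mono_set Ioo_subset_Icc_self
          · exact (ae_restrict_iff' measurableSet_Ioo).2 (Eventually.of_forall fun r hr => hr.1.le)
        rw [h5, ← mul_assoc, ← ENNReal.ofReal_mul (by positivity)]
        congr 2; ring
    _ ≤ ∫⁻ r in Ioo 0 s, ENNReal.ofReal r *
          ∫⁻ θ in Ioo (-Real.pi) Real.pi, ‖g (Complex.polarCoord.symm (r, θ))‖ₑ := by
        refine setLIntegral_mono' measurableSet_Ioo fun r hr => ?_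
        gcongr
        exact hcirc r hr
    _ = ∫⁻ r in Ioo 0 s, ∫⁻ θ in Ioo (-Real.pi) Real.pi,
          ENNReal.ofReal r * ‖g (Complex.polarCoord.symm (r, θ))‖ₑ := by
        refine lintegral_congr fun r => ?_
        rw [lintegral_const_mul' _ _ ENNReal.ofReal_ne_top]
    _ = ∫⁻ p in Ioo 0 s ×ˢ Ioo (-Real.pi) Real.pi,
          ENNReal.ofReal p.1 * ‖g (Complex.polarCoord.symm p)‖ₑ := by
        rw [Measure.volume_eq_prod, ← Measure.prod_restrict, lintegral_prod _ hae]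
    _ = ∫⁻ p in Ioo 0 s ×ˢ Ioo (-Real.pi) Real.pi,
          ENNReal.ofReal p.1 • (ball (0 : ℂ) s).indicator (fun ζ => ‖g ζ‖ₑ)
            (Complex.polarCoord.symm p) := by
        refine setLIntegral_congr_fun hms fun p hp => ?_
        simp only [indicator_of_mem (hball p hp), smul_eq_mul]
    _ ≤ ∫⁻ p in polarCoord.target, ENNReal.ofReal p.1 •
          (ball (0 : ℂ) s).indicator (fun ζ => ‖g ζ‖ₑ) (Complex.polarCoord.symm p) :=
        lintegral_mono_set hsub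
    _ = ∫⁻ ζ in ball (0 : ℂ) s, ‖g ζ‖ₑ := by
        rw [Complex.lintegral_comp_polarCoord_symm, lintegral_indicator isOpen_ball.measurableSet]

lemma ub_hyp : (volume.restrict D : Measure ℂ) ≤ hyp := by
  have h1 : (volume.restrict D : Measure ℂ).withDensity 1 ≤ hyp := by
    refine withDensity_mono ?_
    have h2 : ∀ᵐ z ∂(volume.restrict D), z ∈ D := ae_restrict_mem isOpen_ball.measurableSet
    filter_upwards [h2] with z hz
    have hz1 : ‖z‖ < 1 := mem_ball_zero_iff.1 hz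
    have h3 : 0 < 1 - ‖z‖ ^ 2 := by nlinarith [norm_nonneg z]
    have h4 : 1 - ‖z‖ ^ 2 ≤ 1 := by nlinarith [norm_nonneg z]
    rw [Pi.one_apply, ← ENNReal.ofReal_one]
    apply ENNReal.ofReal_le_ofReal
    rw [le_div_iff₀ (by positivity)]
    nlinarith
  rwa [withDensity_one] at h1

lemma ub_meas {ν : ℂ → ℂ} (h : Harm ν) : Measurable ν := by
  classical
  obtain ⟨⟨q, hq, hν⟩, h0⟩ := h
  have h1 : ν = D.piecewise (fun z => ((1 - ‖z‖ ^ 2 : ℝ) : ℂ) ^ 2 * conj (q z)) (fun _ => 0) := by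
    funext z
    by_cases hz : z ∈ D
    · rw [Set.piecewise_eq_of_mem _ _ _ hz, hν z hz]
    · rw [Set.piecewise_eq_of_notMem _ _ _ hz, h0 z hz]
  rw [h1]
  refine ContinuousOn.measurable_piecewise ?_ continuousOn_const isOpen_ball.measurableSet
  have h2 : ContinuousOn (fun z => conj (q z)) D := Complex.continuous_conj.comp_continuousOn
    hq.continuousOn
  have h3 : Continuous (fun z : ℂ => ((1 - ‖z‖ ^ 2 : ℝ) : ℂ) ^ 2) := by fun_prop
  exact h3.continuousOn.mul h2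

/-- sup norm bounded by the `L²` norm for harmonic coefficients.  Normalise at `z`
(`pull 1 z ν` is harmonic, value at `0` of modulus `‖ν z‖`), mean value property on `ball 0 s`, the
image ball injects into the quotient (`lintegral_le_fund`). -/
theorem sup_le_of_harm (S : Bord) : ∃ C : ℝ, 0 < C ∧ ∀ ν : ℂ → ℂ, Harm ν → Inv S ν →
    ∀ P, IsFund S P → ∀ z, ENNReal.ofReal (‖ν z‖ ^ 2)
      ≤ ENNReal.ofReal C * ∫⁻ z in P, ‖ν z‖ₑ ^ 2 ∂hyp := by
  obtain ⟨s, hs, hs1, hpack⟩ := uniform_discrete S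
  have hpi := Real.pi_pos
  have hs2 : 0 < 1 - s ^ 2 := by nlinarith
  set c : ℝ := (1 - s ^ 2) ^ 4 * (Real.pi * s ^ 2) with hc
  have hcpos : 0 < c := by positivity
  refine ⟨c⁻¹, by positivity, ?_⟩
  intro ν hν hinv P hP z
  by_cases hz : z ∈ D
  swap
  · rw [hν.2 z hz]; simp
  have hz1 : ‖z‖ < 1 := mem_ball_zero_iff.1 hz
  have hzn : ‖z‖ < ‖(1 : ℂ)‖ := by rwa [norm_one]
  have hzs : 0 < 1 - ‖z‖ ^ 2 := by nlinarith [norm_nonneg z]
  have hm := ub_meas hν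
  have hum : Measurable (fun w => ‖ν w‖ₑ ^ 2) := hm.enorm.pow_const 2
  have hbs : ball (0 : ℂ) s ⊆ D := ball_subset_ball hs1.le
  have hE := hyp_mob hzn (E := ball (0 : ℂ) s) isOpen_ball.measurableSet hbs
  have h1 : ∫⁻ w in mob 1 z '' ball 0 s, ‖ν w‖ₑ ^ 2 ∂hyp ≤ ∫⁻ w in P, ‖ν w‖ₑ ^ 2 ∂hyp := by
    refine lintegral_le_fund hP hE.2.1 hE.2.2 (fun γ hγ h => hpack z hz γ hγ h) hum ?_
    intro γ hγ
    filter_upwards [hinv.aeInv.norm γ hγ] with w hw
    show ‖ν (ext γ w)‖ₑ ^ 2 = ‖ν w‖ₑ ^ 2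
    rw [enorm_eq_iff_norm_eq.2 hw]
  rw [lintegral_mob hzn isOpen_ball.measurableSet hbs hum] at h1
  have h2 : ∫⁻ ζ in ball (0 : ℂ) s, ‖ν (mob 1 z ζ)‖ₑ ^ 2
      ≤ ∫⁻ ζ in ball (0 : ℂ) s, ‖ν (mob 1 z ζ)‖ₑ ^ 2 ∂hyp := by
    have h3 : (volume.restrict (ball (0 : ℂ) s)) ≤ hyp.restrict (ball (0 : ℂ) s) := by
      have := Measure.restrict_mono (s := ball (0 : ℂ) s) Set.Subset.rfl ub_hyp
      rwa [Measure.restrict_restrict isOpen_ball.measurableSet, Set.inter_eq_left.2 hbs] at this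
    exact lintegral_mono' h3 le_rfl
  -- the holomorphic function
  obtain ⟨⟨q, hq, hνq⟩, -⟩ := hν
  have hden : ∀ ζ ∈ D, conj z * ζ + conj (1 : ℂ) ≠ 0 := fun ζ hζ =>
    mob_denom_ne hzn (mem_ball_zero_iff.1 hζ).le
  set Q : ℂ → ℂ := fun ζ =>
    q (mob 1 z ζ) * (((1 - ‖z‖ ^ 2 : ℝ) : ℂ) ^ 2 / (conj z * ζ + conj (1 : ℂ)) ^ 4) with hQ
  have hQd : DifferentiableOn ℂ Q D := by
    have h3 : DifferentiableOn ℂ (mob 1 z) D := fun ζ hζ =>
      (hasDerivAt_mob hzn (hden ζ hζ)).differentiableAt.differentiableWithinAt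
    have h4 : DifferentiableOn ℂ (fun ζ => q (mob 1 z ζ)) D :=
      hq.comp h3 fun ζ hζ => mem_ball_zero_iff.2 (norm_mob_lt hzn (mem_ball_zero_iff.1 hζ))
    refine h4.mul ((differentiableOn_const _).div ?_ fun ζ hζ => pow_ne_zero _ (hden ζ hζ))
    fun_prop
  have hQn : ∀ ζ ∈ D, ‖ν (mob 1 z ζ)‖ = (1 - ‖ζ‖ ^ 2) ^ 2 * ‖Q ζ‖ := by
    intro ζ hζ
    have hζ1 : ‖ζ‖ < 1 := mem_ball_zero_iff.1 hζ
    have h3 := one_sub_norm_mob hzn hζ1.le
    have h4 : 0 < ‖conj z * ζ + conj (1 : ℂ)‖ := norm_pos_iff.2 (hden ζ hζ)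
    rw [hνq _ (mem_ball_zero_iff.2 (norm_mob_lt hzn hζ1)), hQ]
    simp only [norm_mul, norm_pow, norm_div, Complex.norm_real, RCLike.norm_conj]
    rw [h3, Real.norm_eq_abs, Real.norm_eq_abs, norm_one, one_pow, sq_abs, sq_abs]
    field_simp
  have hν0 : ‖ν z‖ = ‖Q 0‖ := by
    have h3 := hQn 0 (by simp)
    have h4 : mob 1 z 0 = z := by simp [mob]
    rw [h4] at h3
    rw [h3]; simp
  have h5 := ub_mean (g := fun ζ => Q ζ ^ 2) (hQd.pow 2) hs hs1
  have h6 : ENNReal.ofReal ((1 - s ^ 2) ^ 4) * ∫⁻ ζ in ball (0 : ℂ) s, ‖Q ζ ^ 2‖ₑ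
      ≤ ∫⁻ ζ in ball (0 : ℂ) s, ‖ν (mob 1 z ζ)‖ₑ ^ 2 := by
    rw [← lintegral_const_mul' _ _ ENNReal.ofReal_ne_top]
    refine setLIntegral_mono' isOpen_ball.measurableSet fun ζ hζ => ?_
    have hζs : ‖ζ‖ < s := mem_ball_zero_iff.1 hζ
    have hle : 1 - s ^ 2 ≤ 1 - ‖ζ‖ ^ 2 := by nlinarith [norm_nonneg ζ]
    rw [← ofReal_norm, ← ofReal_norm, ← ENNReal.ofReal_mul (by positivity),
      ← ENNReal.ofReal_pow (norm_nonneg _)]
    apply ENNReal.ofReal_le_ofReal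
    rw [hQn ζ (hbs hζ), norm_pow, mul_pow, ← pow_mul]
    gcongr
  have h7 : ENNReal.ofReal c * ENNReal.ofReal (‖ν z‖ ^ 2) ≤ ∫⁻ w in P, ‖ν w‖ₑ ^ 2 ∂hyp := by
    have e1 : ENNReal.ofReal (‖ν z‖ ^ 2) = ‖Q 0 ^ 2‖ₑ := by
      rw [hν0, ← norm_pow, ofReal_norm]
    rw [e1, hc, ENNReal.ofReal_mul (by positivity), mul_assoc]
    calc _ ≤ ENNReal.ofReal ((1 - s ^ 2) ^ 4) * ∫⁻ ζ in ball (0 : ℂ) s, ‖Q ζ ^ 2‖ₑ := by
          gcongr
      _ ≤ _ := (h6.trans h2).trans h1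
  calc ENNReal.ofReal (‖ν z‖ ^ 2)
      = ENNReal.ofReal c⁻¹ * (ENNReal.ofReal c * ENNReal.ofReal (‖ν z‖ ^ 2)) := by
        rw [← mul_assoc, ← ENNReal.ofReal_mul (by positivity), inv_mul_cancel₀ hcpos.ne',
          ENNReal.ofReal_one, one_mul]
    _ ≤ _ := by gcongr

end QC
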