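import Pool.Agent.Work.MP_217185_an.BL2
import Pool.Agent.Work.MP_217185_an.UDisc

/-! # HSpA1: the space of square integrable harmonic Beltrami differentials is a submodule

`L2hyp_iff` with the fixed domain `fund S`; a harmonic `ν` is measurable (continuous on `D`, zero
outside).  Uniform limits: `q_n z = conj (N_n z)/(1 - ‖z‖²)²` converges locally uniformly
(`TendstoLocallyUniformlyOn.differentiableOn`). -/

open MeasureTheory Complex Set Metric Filter
open scoped Topology ENNReal NNReal ContDiff ComplexConjugate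

namespace QC

theorem Harm.continuousOn {ν : ℂ → ℂ} (h : Harm ν) : ContinuousOn ν D := by
  obtain ⟨⟨q, hq, hν⟩, -⟩ := h
  have h1 : ContinuousOn (fun z : ℂ => ((1 - ‖z‖ ^ 2 : ℝ) : ℂ) ^ 2 * conj (q z)) D := by
    refine ContinuousOn.mul ?_ (continuous_conj.comp_continuousOn hq.continuousOn)
    exact Continuous.continuousOn (by fun_prop)
  exact h1.congr hν

open Classical in
theorem Harm.measurable {ν : ℂ → ℂ} (h : Harm ν) : Measurable ν := by
  have h1 : ν = D.piecewise ν (fun _ => 0) := by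
    funext z
    by_cases hz : z ∈ D
    · rw [Set.piecewise_eq_of_mem _ _ _ hz]
    · rw [Set.piecewise_eq_of_notMem _ _ _ hz]
      exact h.2 z hz
  rw [h1]
  exact ContinuousOn.measurable_piecewise h.continuousOn continuousOn_const measurableSet_ball

theorem Harm.suppIn {ν : ℂ → ℂ} (h : Harm ν) : SuppIn 1 ν := by
  intro z hz
  refine h.2 z fun hz' => ?_
  rw [mem_ball_zero_iff] at hz'
  linarith

theorem Harm.add {ν ν' : ℂ → ℂ} (h : Harm ν) (h' : Harm ν') : Harm (fun z => ν z + ν' z) := by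
  obtain ⟨⟨q, hq, hν⟩, h0⟩ := h
  obtain ⟨⟨q', hq', hν'⟩, h0'⟩ := h'
  refine ⟨⟨fun z => q z + q' z, hq.add hq', fun z hz => ?_⟩, fun z hz => ?_⟩
  · beta_reduce
    rw [hν z hz, hν' z hz, map_add]
    ring
  · beta_reduce
    rw [h0 z hz, h0' z hz, add_zero]

theorem Harm.smul {ν : ℂ → ℂ} (c : ℂ) (h : Harm ν) : Harm (fun z => c * ν z) := by
  obtain ⟨⟨q, hq, hν⟩, h0⟩ := h
  refine ⟨⟨fun z => conj c * q z, hq.const_mul _, fun z hz => ?_⟩, fun z hz => ?_⟩
  · beta_reduce
    rw [hν z hz, map_mul, Complex.conj_conj]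
    ring
  · beta_reduce
    rw [h0 z hz, mul_zero]

theorem harm_zero : Harm (fun _ => 0) :=
  ⟨⟨fun _ => 0, differentiableOn_const _, fun z _ => by simp⟩, fun _ _ => rfl⟩

/-- uniform limits. -/
theorem Harm.of_tendsto {N : ℕ → ℂ → ℂ} {ν : ℂ → ℂ} (h : ∀ n, Harm (N n))
    (hl : TendstoUniformly N ν atTop) : Harm ν := by
  choose q hq using fun n => (h n).1
  have hpos : ∀ z ∈ D, 0 < 1 - ‖z‖ ^ 2 := by
    intro z hz
    rw [mem_ball_zero_iff] at hz
    nlinarith [norm_nonneg z]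
  set Q : ℂ → ℂ := fun z => conj (ν z) / ((1 - ‖z‖ ^ 2 : ℝ) : ℂ) ^ 2 with hQ
  have hqn : ∀ n, ∀ z ∈ D, q n z = conj (N n z) / ((1 - ‖z‖ ^ 2 : ℝ) : ℂ) ^ 2 := by
    intro n z hz
    have h1 : ((1 - ‖z‖ ^ 2 : ℝ) : ℂ) ≠ 0 := by
      exact_mod_cast (hpos z hz).ne'
    rw [(hq n).2 z hz, map_mul, map_pow, Complex.conj_ofReal, Complex.conj_conj]
    field_simp
  have hloc : TendstoLocallyUniformlyOn q Q atTop D := by
    rw [Metric.tendstoLocallyUniformlyOn_iff]
    intro ε hε x hx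
    have hx' : ‖x‖ < 1 := by simpa using hx
    set r : ℝ := (1 + ‖x‖) / 2 with hr
    have hr1 : r < 1 := by rw [hr]; linarith
    have hr0 : 0 ≤ r := by rw [hr]; linarith [norm_nonneg x]
    have hc : 0 < 1 - r ^ 2 := by nlinarith
    refine ⟨ball 0 r, mem_nhdsWithin_of_mem_nhds (isOpen_ball.mem_nhds ?_), ?_⟩
    · rw [mem_ball_zero_iff, hr]
      linarith
    have hε' : 0 < ε * (1 - r ^ 2) ^ 2 := by positivity
    filter_upwards [Metric.tendstoUniformly_iff.1 hl _ hε'] with n hn y hy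
    rw [mem_ball_zero_iff] at hy
    have hyD : y ∈ D := by
      rw [mem_ball_zero_iff]
      linarith
    have h2 : 1 - r ^ 2 ≤ 1 - ‖y‖ ^ 2 := by nlinarith [norm_nonneg y]
    have hn' := hn y
    rw [hqn n y hyD, hQ, dist_eq_norm, ← sub_div, ← map_sub, norm_div, norm_pow,
      Complex.norm_real, Real.norm_of_nonneg (hpos y hyD).le, RCLike.norm_conj,
      div_lt_iff₀ (by have := hpos y hyD; positivity)]
    rw [dist_eq_norm] at hn'
    refine hn'.trans_le ?_
    gcongr
  refine ⟨⟨Q, hloc.differentiableOn (Eventually.of_forall fun n => (hq n).1) isOpen_ball,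
    fun z hz => ?_⟩, fun z hz => ?_⟩
  · have h1 : ((1 - ‖z‖ ^ 2 : ℝ) : ℂ) ≠ 0 := by
      exact_mod_cast (hpos z hz).ne'
    rw [hQ]
    simp only
    rw [map_div₀, map_pow, Complex.conj_ofReal, Complex.conj_conj]
    field_simp
  · have h1 : Tendsto (fun n => N n z) atTop (𝓝 (ν z)) := hl.tendsto_at z
    have h2 : (fun n => N n z) = fun _ => 0 := by
      funext n
      exact (h n).2 z hz
    rw [h2] at h1
    exact tendsto_nhds_unique h1 tendsto_const_nhds

variable (S : Bord)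

end QC
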