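import Pool.Agent.Work.MP_217185_an.BL2
import Pool.Agent.Work.MP_217185_an.UDisc
import Pool.Agent.Work.MP_217185_an.HSpA1

/-! # HSpA2: the space of square integrable harmonic Beltrami differentials is a submodule

`L2hyp_iff` with the fixed domain `fund S`; a harmonic `ν` is measurable (continuous on `D`, zero
outside).  Uniform limits: `q_n z = conj (N_n z)/(1 - ‖z‖²)²` converges locally uniformly
(`TendstoLocallyUniformlyOn.differentiableOn`). -/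

open MeasureTheory Complex Set Metric Filter
open scoped Topology ENNReal NNReal ContDiff ComplexConjugate

namespace QC

variable (S : Bord)

private theorem l2_bound {S : Bord} {x : ℂ → ℂ} (h : Harm x) (hi : Inv S x) (hl : L2hyp S x) :
    ∫⁻ z in fund S, ‖x z‖ₑ ^ 2 ∂hyp < ⊤ :=
  (L2hyp_iff h.measurable hi.aeInv (isFund_fund S)).1 hl

theorem harmSub_add {x y : ℂ → ℂ} (hx : Harm x ∧ Inv S x ∧ L2hyp S x)
    (hy : Harm y ∧ Inv S y ∧ L2hyp S y) : Harm (x + y) ∧ Inv S (x + y) ∧ L2hyp S (x + y) := by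
  obtain ⟨hx1, hx2, hx3⟩ := hx
  obtain ⟨hy1, hy2, hy3⟩ := hy
  refine ⟨Harm.add hx1 hy1, ?_, fund S, isFund_fund S, ?_⟩
  · intro γ hγ a b hab hm z hz
    have h1 := hx2 γ hγ a b hab hm z hz
    have h2 := hy2 γ hγ a b hab hm z hz
    have hz' : ‖z‖ < 1 := by simpa using hz
    simp only [pull, hz', if_true, Pi.add_apply] at h1 h2 ⊢
    rw [add_mul, h1, h2]
  · have h1 := l2_bound hx1 hx2 hx3
    have h2 := l2_bound hy1 hy2 hy3
    have hmx : Measurable fun z => ‖x z‖ₑ ^ 2 := hx1.measurable.enorm.pow_const 2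
    calc ∫⁻ z in fund S, ‖(x + y) z‖ₑ ^ 2 ∂hyp
        ≤ ∫⁻ z in fund S, (2 * ‖x z‖ₑ ^ 2 + 2 * ‖y z‖ₑ ^ 2) ∂hyp := by
          refine lintegral_mono fun z => ?_
          have h3 : ‖(x + y) z‖ₑ ≤ ‖x z‖ₑ + ‖y z‖ₑ := enorm_add_le _ _
          have h4 : ((‖x z‖₊ + ‖y z‖₊) ^ 2 : ℝ≥0) ≤ 2 * ‖x z‖₊ ^ 2 + 2 * ‖y z‖₊ ^ 2 := by
            rw [← NNReal.coe_le_coe]
            push_cast
            nlinarith [sq_nonneg (‖x z‖ - ‖y z‖)]
          calc ‖(x + y) z‖ₑ ^ 2 ≤ (‖x z‖ₑ + ‖y z‖ₑ) ^ 2 := by gcongr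
            _ ≤ 2 * ‖x z‖ₑ ^ 2 + 2 * ‖y z‖ₑ ^ 2 := by
              simp only [enorm_eq_nnnorm]
              exact_mod_cast h4
      _ = 2 * ∫⁻ z in fund S, ‖x z‖ₑ ^ 2 ∂hyp + 2 * ∫⁻ z in fund S, ‖y z‖ₑ ^ 2 ∂hyp := by
          rw [lintegral_add_left (hmx.const_mul 2), lintegral_const_mul _ hmx,
            lintegral_const_mul _ (hy1.measurable.enorm.pow_const 2)]
      _ < ⊤ := ENNReal.add_lt_top.2 ⟨ENNReal.mul_lt_top (by simp) h1,
          ENNReal.mul_lt_top (by simp) h2⟩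

theorem harmSub_zero : Harm (0 : ℂ → ℂ) ∧ Inv S 0 ∧ L2hyp S 0 := by
  refine ⟨harm_zero, ?_, fund S, isFund_fund S, ?_⟩
  · intro γ _ a b _ _ z _
    simp [pull]
  · simp

theorem harmSub_smul (c : ℂ) {x : ℂ → ℂ} (hx : Harm x ∧ Inv S x ∧ L2hyp S x) :
    Harm (c • x) ∧ Inv S (c • x) ∧ L2hyp S (c • x) := by
  obtain ⟨hx1, hx2, hx3⟩ := hx
  refine ⟨Harm.smul c hx1, ?_, fund S, isFund_fund S, ?_⟩
  · intro γ hγ a b hab hm z hz
    have h1 := hx2 γ hγ a b hab hm z hz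
    have hz' : ‖z‖ < 1 := by simpa using hz
    simp only [pull, hz', if_true, Pi.smul_apply, smul_eq_mul] at h1 ⊢
    rw [mul_assoc, h1]
  · have h1 := l2_bound hx1 hx2 hx3
    have h2 : ∀ z, ‖(c • x) z‖ₑ ^ 2 = ‖c‖ₑ ^ 2 * ‖x z‖ₑ ^ 2 := by
      intro z
      rw [Pi.smul_apply, smul_eq_mul, enorm_mul, mul_pow]
    simp_rw [h2]
    rw [lintegral_const_mul _ (hx1.measurable.enorm.pow_const 2)]
    exact ENNReal.mul_lt_top (by simp) h1

end QC
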