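import Pool.Agent.Work.MP_217185_an.HSpA

/-! # HSpB: the inner product

`core_definite`: `∫_P ‖ν‖² = 0` implies `ν = 0` a.e. on `P`, so a.e. on `D = ⋃ γ P` (`Inv.norm`,
`lintegral_D_eq`), so everywhere on `D` (continuity). -/

open MeasureTheory Complex Set Metric Filter
open scoped Topology ENNReal NNReal ContDiff ComplexConjugate

noncomputable section

namespace QC

variable (S : Bord)

/-- harmonic Beltrami differentials, square integrable on the surface. -/
def harmSub : Submodule ℂ (ℂ → ℂ) where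
  carrier := {x | Harm x ∧ Inv S x ∧ L2hyp S x}
  add_mem' := fun hx hy => harmSub_add S hx hy
  zero_mem' := harmSub_zero S
  smul_mem' := fun c _ hx => harmSub_smul S c hx

/-- the Hilbert space of harmonic Beltrami differentials of the surface. -/
def HSp : Type := ↥(harmSub S)

instance : AddCommGroup (HSp S) := inferInstanceAs (AddCommGroup ↥(harmSub S))

instance : Module ℂ (HSp S) := inferInstanceAs (Module ℂ ↥(harmSub S))

variable {S}

/-- the function. -/
def HSp.fn (x : HSp S) : ℂ → ℂ := x.1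

theorem HSp.harm (x : HSp S) : Harm x.fn := x.2.1

theorem HSp.inv (x : HSp S) : Inv S x.fn := x.2.2.1

theorem HSp.l2 (x : HSp S) : L2hyp S x.fn := x.2.2.2

theorem HSp.fn_add (x y : HSp S) : (x + y).fn = fun z => x.fn z + y.fn z := rfl

theorem HSp.fn_sub (x y : HSp S) : (x - y).fn = fun z => x.fn z - y.fn z := rfl

theorem HSp.fn_smul (c : ℂ) (x : HSp S) : (c • x).fn = fun z => c * x.fn z := rfl

theorem HSp.fn_zero : (0 : HSp S).fn = fun _ => 0 := rfl

theorem HSp.ext {x y : HSp S} (h : x.fn = y.fn) : x = y := Subtype.ext h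

/-- the element of `HSp S` given by a function. -/
def HSp.mk (ν : ℂ → ℂ) (h : Harm ν) (hi : Inv S ν) (hl : L2hyp S ν) : HSp S := ⟨ν, h, hi, hl⟩

theorem HSp.fn_mk (ν : ℂ → ℂ) (h : Harm ν) (hi : Inv S ν) (hl : L2hyp S ν) :
    (HSp.mk ν h hi hl).fn = ν := rfl

private theorem memLp_fn (x : HSp S) : MemLp x.fn 2 (hyp.restrict (fund S)) := by
  refine ⟨x.harm.measurable.aestronglyMeasurable, ?_⟩
  have h1 : ∫⁻ z in fund S, ‖x.fn z‖ₑ ^ 2 ∂hyp < ⊤ :=
    (L2hyp_iff x.harm.measurable x.inv.aeInv (isFund_fund S)).1 x.l2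
  rw [eLpNorm_lt_top_iff_lintegral_rpow_enorm_lt_top (by simp) (by simp)]
  convert h1 using 3
  simp

private theorem integrable_fn (x y : HSp S) :
    Integrable (fun z => conj (x.fn z) * y.fn z) (hyp.restrict (fund S)) := by
  have h1 : MemLp (fun z => conj (x.fn z)) 2 (hyp.restrict (fund S)) := (memLp_fn x).star
  exact h1.integrable_mul (memLp_fn y)

theorem core_symm (x y : HSp S) :
    conj (∫ z in fund S, conj (y.fn z) * x.fn z ∂hyp) =
      ∫ z in fund S, conj (x.fn z) * y.fn z ∂hyp := by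
  rw [← integral_conj]
  congr 1
  funext z
  rw [map_mul, Complex.conj_conj, mul_comm]

private theorem conj_mul_self' (w : ℂ) : conj w * w = ((‖w‖ ^ 2 : ℝ) : ℂ) := by
  rw [mul_comm, Complex.mul_conj, Complex.normSq_eq_norm_sq]

theorem core_nonneg (x : HSp S) :
    0 ≤ RCLike.re (∫ z in fund S, conj (x.fn z) * x.fn z ∂hyp) := by
  simp_rw [conj_mul_self']
  rw [integral_complex_ofReal]
  simp only [RCLike.re_eq_complex_re, Complex.ofReal_re]
  exact integral_nonneg fun z => by positivity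

theorem core_add_left (x y z : HSp S) :
    ∫ w in fund S, conj ((x + y).fn w) * z.fn w ∂hyp
      = ∫ w in fund S, conj (x.fn w) * z.fn w ∂hyp +
        ∫ w in fund S, conj (y.fn w) * z.fn w ∂hyp := by
  rw [← integral_add (integrable_fn x z) (integrable_fn y z)]
  congr 1
  funext w
  rw [HSp.fn_add, map_add]
  ring

theorem core_smul_left (x y : HSp S) (r : ℂ) :
    ∫ w in fund S, conj ((r • x).fn w) * y.fn w ∂hyp
      = conj r * ∫ w in fund S, conj (x.fn w) * y.fn w ∂hyp := by
  rw [← integral_const_mul]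
  congr 1
  funext w
  rw [HSp.fn_smul, map_mul]
  ring

theorem core_definite (x : HSp S) (h : ∫ z in fund S, conj (x.fn z) * x.fn z ∂hyp = 0) :
    x = 0 := by
  have h0 : ∫⁻ z in fund S, ‖x.fn z‖ₑ ^ 2 ∂hyp = 0 := by
    simp_rw [conj_mul_self'] at h
    rw [integral_complex_ofReal] at h
    have h1 : ∫ z in fund S, ‖x.fn z‖ ^ 2 ∂hyp = 0 := by exact_mod_cast h
    have hint : Integrable (fun z => ‖x.fn z‖ ^ 2) (hyp.restrict (fund S)) :=
      (memLp_fn x).norm.integrable_sq
    have h2 := (integral_eq_zero_iff_of_nonneg (fun z => by positivity) hint).1 h1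
    rw [lintegral_eq_zero_iff (x.harm.measurable.enorm.pow_const 2)]
    filter_upwards [h2] with z hz
    have h3 : ‖x.fn z‖ = 0 := by
      have : ‖x.fn z‖ ^ 2 = 0 := hz
      exact pow_eq_zero_iff (two_ne_zero) |>.1 this
    have h4 : x.fn z = 0 := norm_eq_zero.1 h3
    simp [h4]
  obtain ⟨C, hC, hsup⟩ := sup_le_of_harm S
  apply HSp.ext
  funext z
  have h1 := hsup x.fn x.harm x.inv (fund S) (isFund_fund S) z
  rw [h0, mul_zero, nonpos_iff_eq_zero, ENNReal.ofReal_eq_zero] at h1
  have h2 : ‖x.fn z‖ = 0 := by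
    have := norm_nonneg (x.fn z)
    nlinarith
  rw [HSp.fn_zero]
  exact norm_eq_zero.1 h2

end QC

end
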