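import Pool.Agent.Work.MP_217185_an.HSpB

/-! # HSpDef: the Hilbert space

Complete: `sup_le_of_harm` gives uniform convergence of a Cauchy sequence, the limit is harmonic
(`Harm.of_tendsto`) and invariant, square integrable with convergence in norm by Fatou. -/

open MeasureTheory Complex Set Metric Filter
open scoped Topology ENNReal NNReal ContDiff ComplexConjugate

noncomputable section

namespace QC

variable (S : Bord)

/-- inner product core. -/
def hspCore : InnerProductSpace.Core ℂ (HSp S) where
  inner := fun x y => ∫ z in fund S, conj (x.fn z) * y.fn z ∂hyp
  conj_inner_symm := fun x y => core_symm x y
  re_inner_nonneg := fun x => core_nonneg x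
  add_left := fun x y z => core_add_left x y z
  smul_left := fun x y r => core_smul_left x y r
  definite := fun x h => core_definite x h

instance : NormedAddCommGroup (HSp S) := (hspCore S).toNormedAddCommGroup

instance : InnerProductSpace ℂ (HSp S) := .ofCore (hspCore S).toCore

variable {S}

variable (S)

end QC

end
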