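import Pool.Agent.Work.MP_217185_an.HSpB
import Pool.Agent.Work.MP_217185_an.HSpDef

/-! # HSpC1: the Hilbert space

Complete: `sup_le_of_harm` gives uniform convergence of a Cauchy sequence, the limit is harmonic
(`Harm.of_tendsto`) and invariant, square integrable with convergence in norm by Fatou. -/

open MeasureTheory Complex Set Metric Filter
open scoped Topology ENNReal NNReal ContDiff ComplexConjugate

noncomputable section

namespace QC

variable (S : Bord)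

variable {S}

theorem HSp.norm_sq (x : HSp S) {P : Set ℂ} (hP : IsFund S P) :
    ENNReal.ofReal (‖x‖ ^ 2) = ∫⁻ z in P, ‖x.fn z‖ₑ ^ 2 ∂hyp := by
  have hm : Measurable fun z => ‖x.fn z‖ₑ ^ 2 := x.harm.measurable.enorm.pow_const 2
  have hfin : ∫⁻ z in fund S, ‖x.fn z‖ₑ ^ 2 ∂hyp < ⊤ :=
    (L2hyp_iff x.harm.measurable x.inv.aeInv (isFund_fund S)).1 x.l2
  have h1 : ∫⁻ z in P, ‖x.fn z‖ₑ ^ 2 ∂hyp = ∫⁻ z in fund S, ‖x.fn z‖ₑ ^ 2 ∂hyp := by
    refine lintegral_fund_eq hP (isFund_fund S) hm fun γ hγ => ?_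
    rw [ae_restrict_iff' measurableSet_ball]
    refine Eventually.of_forall fun z hz => ?_
    have := x.inv.norm γ hγ z hz
    rw [← ofReal_norm, ← ofReal_norm, this]
  rw [h1]
  have h2 : ‖x‖ ^ 2 = RCLike.re (∫ z in fund S, conj (x.fn z) * x.fn z ∂hyp) := by
    rw [← inner_self_eq_norm_sq (𝕜 := ℂ)]
    rfl
  have h3 : ∀ w : ℂ, conj w * w = ((‖w‖ ^ 2 : ℝ) : ℂ) := fun w => by
    rw [mul_comm, Complex.mul_conj, Complex.normSq_eq_norm_sq]
  rw [h2]
  simp_rw [h3]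
  rw [integral_complex_ofReal]
  simp only [RCLike.re_eq_complex_re, Complex.ofReal_re]
  rw [integral_eq_lintegral_of_nonneg_ae (Eventually.of_forall fun z => by positivity)
    (x.harm.measurable.norm.pow_const 2).aestronglyMeasurable]
  have h4 : ∀ z, ENNReal.ofReal (‖x.fn z‖ ^ 2) = ‖x.fn z‖ₑ ^ 2 := fun z => by
    rw [ENNReal.ofReal_pow (norm_nonneg _), ofReal_norm]
  simp_rw [h4]
  exact ENNReal.ofReal_toReal hfin.ne

theorem HSp.sup_le (S : Bord) : ∃ C : ℝ, 0 < C ∧ ∀ (x : HSp S) (z : ℂ), ‖x.fn z‖ ≤ C * ‖x‖ := by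
  obtain ⟨C, hC, h⟩ := sup_le_of_harm S
  refine ⟨Real.sqrt C, Real.sqrt_pos.2 hC, fun x z => ?_⟩
  have h1 := h x.fn x.harm x.inv (fund S) (isFund_fund S) z
  rw [← HSp.norm_sq x (isFund_fund S), ← ENNReal.ofReal_mul hC.le,
    ENNReal.ofReal_le_ofReal_iff (by positivity)] at h1
  have h2 : (Real.sqrt C * ‖x‖) ^ 2 = C * ‖x‖ ^ 2 := by
    rw [mul_pow, Real.sq_sqrt hC.le]
  exact abs_le_of_sq_le_sq' (h1.trans_eq h2.symm) (by positivity) |>.2

variable (S)

end QC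

end
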