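import Pool.Agent.Work.MP_217185_an.HSpB
import Pool.Agent.Work.MP_217185_an.HSpC1

/-! # HSpC2: the Hilbert space

Complete: `sup_le_of_harm` gives uniform convergence of a Cauchy sequence, the limit is harmonic
(`Harm.of_tendsto`) and invariant, square integrable with convergence in norm by Fatou. -/

open MeasureTheory Complex Set Metric Filter
open scoped Topology ENNReal NNReal ContDiff ComplexConjugate

noncomputable section

namespace QC

variable (S : Bord)

variable {S}

variable (S)

instance hsp_complete : CompleteSpace (HSp S) := by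
  obtain ⟨C, hC, hsup⟩ := HSp.sup_le S
  refine Metric.complete_of_cauchySeq_tendsto fun u hu => ?_
  have hdiff : ∀ n m z, ‖(u n).fn z - (u m).fn z‖ ≤ C * ‖u n - u m‖ := fun n m z => by
    have := hsup (u n - u m) z
    rwa [HSp.fn_sub] at this
  have hc : ∀ z, CauchySeq fun n => (u n).fn z := by
    intro z
    rw [Metric.cauchySeq_iff'] at hu ⊢
    intro ε hε
    obtain ⟨N, hN⟩ := hu (ε / C) (by positivity)
    refine ⟨N, fun n hn => ?_⟩
    have h1 := hN n hn
    rw [dist_eq_norm] at h1 ⊢
    calc ‖(u n).fn z - (u N).fn z‖ ≤ C * ‖u n - u N‖ := hdiff n N z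
      _ < C * (ε / C) := by gcongr
      _ = ε := by field_simp
  choose ν hν using fun z => cauchySeq_tendsto_of_complete (hc z)
  have hunif : TendstoUniformly (fun n => (u n).fn) ν atTop := by
    rw [Metric.tendstoUniformly_iff]
    intro ε hε
    rw [Metric.cauchySeq_iff] at hu
    obtain ⟨N, hN⟩ := hu (ε / 2 / C) (by positivity)
    filter_upwards [eventually_ge_atTop N] with n hn z
    have h2 : ‖ν z - (u n).fn z‖ ≤ ε / 2 := by
      refine le_of_tendsto (((hν z).sub_const _).norm) ?_
      filter_upwards [eventually_ge_atTop N] with m hm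
      have h1 := hN m hm n hn
      rw [dist_eq_norm] at h1
      calc ‖(u m).fn z - (u n).fn z‖ ≤ C * ‖u m - u n‖ := hdiff m n z
        _ ≤ C * (ε / 2 / C) := by gcongr
        _ = ε / 2 := by field_simp
    rw [dist_eq_norm]
    linarith
  have hH : Harm ν := Harm.of_tendsto (fun n => (u n).harm) hunif
  have hI : Inv S ν := by
    intro γ hγ a b hab hm z hz
    have hz' : ‖z‖ < 1 := by simpa using hz
    have h1 : Tendsto (fun n => pull a b (u n).fn z) atTop (𝓝 (pull a b ν z)) := by
      simp only [pull, hz', if_true]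
      exact (hν _).mul_const _
    have h2 : (fun n => pull a b (u n).fn z) = fun n => (u n).fn z := by
      funext n
      exact (u n).inv γ hγ a b hab hm z hz
    rw [h2] at h1
    exact tendsto_nhds_unique h1 (hν z)
  have hP := isFund_fund S
  -- Fatou
  have hF : ∀ m, ∀ ε : ℝ, (∀ᶠ n in atTop, ‖u n - u m‖ ≤ ε) →
      ∫⁻ z in fund S, ‖ν z - (u m).fn z‖ₑ ^ 2 ∂hyp ≤ ENNReal.ofReal (ε ^ 2) := by
    intro m ε hε
    have h1 : ∀ n, ∫⁻ z in fund S, ‖(u n).fn z - (u m).fn z‖ₑ ^ 2 ∂hyp
        = ENNReal.ofReal (‖u n - u m‖ ^ 2) := by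
      intro n
      have := HSp.norm_sq (u n - u m) hP
      rw [HSp.fn_sub] at this
      exact this.symm
    have hlim : ∀ z, Tendsto (fun n => ‖(u n).fn z - (u m).fn z‖ₑ ^ 2) atTop
        (𝓝 (‖ν z - (u m).fn z‖ₑ ^ 2)) := by
      intro z
      have h3 : Tendsto (fun n => ‖(u n).fn z - (u m).fn z‖ₑ) atTop
          (𝓝 (‖ν z - (u m).fn z‖ₑ)) := ((hν z).sub_const _).enorm
      exact ENNReal.Tendsto.pow h3
    calc ∫⁻ z in fund S, ‖ν z - (u m).fn z‖ₑ ^ 2 ∂hyp
        = ∫⁻ z in fund S, liminf (fun n => ‖(u n).fn z - (u m).fn z‖ₑ ^ 2) atTop ∂hyp := by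
          refine lintegral_congr fun z => ?_
          exact (hlim z).liminf_eq.symm
      _ ≤ liminf (fun n => ∫⁻ z in fund S, ‖(u n).fn z - (u m).fn z‖ₑ ^ 2 ∂hyp) atTop :=
          lintegral_liminf_le fun n =>
            ((u n).harm.measurable.sub (u m).harm.measurable).enorm.pow_const 2
      _ ≤ ENNReal.ofReal (ε ^ 2) := by
          refine liminf_le_of_frequently_le' ?_
          refine Eventually.frequently ?_
          filter_upwards [hε] with n hn
          rw [h1 n]
          refine ENNReal.ofReal_le_ofReal ?_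
          gcongr
  have hcau : ∀ ε : ℝ, 0 < ε → ∃ N, ∀ m ≥ N, ∀ᶠ n in atTop, ‖u n - u m‖ ≤ ε := by
    intro ε hε
    rw [Metric.cauchySeq_iff] at hu
    obtain ⟨N, hN⟩ := hu ε hε
    refine ⟨N, fun m hm => ?_⟩
    filter_upwards [eventually_ge_atTop N] with n hn
    have := hN n hn m hm
    rw [dist_eq_norm] at this
    exact this.le
  have hL : L2hyp S ν := by
    obtain ⟨N, hN⟩ := hcau 1 one_pos
    have h1 := hF N 1 (hN N le_rfl)
    have h2 : Harm (fun z => ν z - (u N).fn z) := by
      have := hH.add ((u N).harm.smul (-1))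
      convert this using 2 with z
      ring
    have h3 : Inv S (fun z => ν z - (u N).fn z) := by
      intro γ hγ a b hab hm z hz
      have hz' : ‖z‖ < 1 := by simpa using hz
      have h4 := hI γ hγ a b hab hm z hz
      have h5 := (u N).inv γ hγ a b hab hm z hz
      simp only [pull, hz', if_true] at h4 h5 ⊢
      rw [sub_mul, h4, h5]
    have h6 : L2hyp S (fun z => ν z - (u N).fn z) :=
      ⟨fund S, hP, h1.trans_lt ENNReal.ofReal_lt_top⟩
    have h7 := harmSub_add S (x := fun z => ν z - (u N).fn z) (y := (u N).fn) ⟨h2, h3, h6⟩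
      ⟨(u N).harm, (u N).inv, (u N).l2⟩
    have h8 : (fun z => ν z - (u N).fn z) + (u N).fn = ν := by
      funext z
      simp
    rw [h8] at h7
    exact h7.2.2
  set w : HSp S := HSp.mk ν hH hI hL with hw
  refine ⟨w, ?_⟩
  rw [Metric.tendsto_atTop]
  intro ε hε
  obtain ⟨N, hN⟩ := hcau (ε / 2) (by positivity)
  refine ⟨N, fun m hm => ?_⟩
  have h1 := hF m (ε / 2) (hN m hm)
  have h2 := HSp.norm_sq (w - u m) hP
  rw [HSp.fn_sub] at h2
  have h3 : w.fn = ν := rfl
  rw [h3] at h2
  rw [← h2, ENNReal.ofReal_le_ofReal_iff (by positivity)] at h1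
  have h4 : ‖w - u m‖ ≤ ε / 2 := abs_le_of_sq_le_sq' h1 (by positivity) |>.2
  rw [dist_comm, dist_eq_norm]
  linarith

end QC

end
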