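import Pool.Agent.Work.MP_217185_an.HSpB
import Pool.Agent.Work.MP_217185_an.HSpC1

/-! # HSpC3: the Hilbert space

Complete: `sup_le_of_harm` gives uniform convergence of a Cauchy sequence, the limit is harmonic
(`Harm.of_tendsto`) and invariant, square integrable with convergence in norm by Fatou. -/

open MeasureTheory Complex Set Metric Filter
open scoped Topology ENNReal NNReal ContDiff ComplexConjugate

noncomputable section

namespace QC

variable (S : Bord)

variable {S}

variable (S)

/-- evaluation at a point. -/
theorem exists_eval (z : ℂ) : ∃ l : HSp S →L[ℂ] ℂ, ∀ x, l x = x.fn z := by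
  obtain ⟨C, hC, h⟩ := HSp.sup_le S
  let l : HSp S →ₗ[ℂ] ℂ :=
    { toFun := fun x => x.fn z
      map_add' := fun x y => by rw [HSp.fn_add]
      map_smul' := fun c x => by rw [HSp.fn_smul]; rfl }
  exact ⟨l.mkContinuous C fun x => h x z, fun x => rfl⟩

end QC

end
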