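import Pool.Agent.Work.MP_217185_an.MobB

/-! # HypB1: hyperbolic area

Invariance: change of variables with the holomorphic injective map `mob a b`
(`lintegral_image_eq_lintegral_abs_det_fderiv_mul`), Jacobian `‖A' z‖²`, and
`‖A' z‖² / (1 - ‖A z‖²)² = 1/(1 - ‖z‖²)²` (`one_sub_norm_mob`). -/

open MeasureTheory Complex Set Metric Filter
open scoped Topology ENNReal NNReal ContDiff ComplexConjugate

namespace QC

variable {a b : ℂ}

theorem hypB1_fderiv {f : ℂ → ℂ} {c z : ℂ} (hf : HasDerivAt f c z) :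
    ∃ L : ℂ →L[ℝ] ℂ, HasFDerivAt f L z ∧ L.det = ‖c‖ ^ 2 := by
  refine ⟨_, hf.hasFDerivAt.restrictScalars ℝ, ?_⟩
  simp [ContinuousLinearMap.det, LinearMap.det_restrictScalars,
      Algebra.norm_complex_eq, Complex.normSq_eq_norm_sq]

/-- change of variables for injective holomorphic maps. -/
theorem hypB1_lint {f f' : ℂ → ℂ} {E : Set ℂ} (hE : MeasurableSet E)
    (hd : ∀ z ∈ E, HasDerivAt f (f' z) z) (hi : InjOn f E) (g : ℂ → ℝ≥0∞) :
    ∫⁻ x in f '' E, g x = ∫⁻ x in E, ENNReal.ofReal (‖f' x‖ ^ 2) * g (f x) := by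
  classical
  have hex : ∀ z : ℂ, ∃ L : ℂ →L[ℝ] ℂ, z ∈ E → (HasFDerivAt f L z ∧ L.det = ‖f' z‖ ^ 2) := by
    intro z
    by_cases hz : z ∈ E
    · obtain ⟨L, hL⟩ := hypB1_fderiv (hd z hz)
      exact ⟨L, fun _ => hL⟩
    · exact ⟨0, fun h => absurd h hz⟩
  choose L hL using hex
  rw [lintegral_image_eq_lintegral_abs_det_fderiv_mul volume hE
    (fun x hx => (hL x hx).1.hasFDerivWithinAt) hi]
  refine setLIntegral_congr_fun hE fun x hx => ?_
  show ENNReal.ofReal |(L x).det| * g (f x) = _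
  rw [(hL x hx).2, abs_of_nonneg (by positivity)]

theorem hypB1_meas {f f' : ℂ → ℂ} {E : Set ℂ} (hE : MeasurableSet E)
    (hd : ∀ z ∈ E, HasDerivAt f (f' z) z) (hi : InjOn f E) : MeasurableSet (f '' E) := by
  classical
  have hex : ∀ z : ℂ, ∃ L : ℂ →L[ℝ] ℂ, z ∈ E → (HasFDerivAt f L z ∧ L.det = ‖f' z‖ ^ 2) := by
    intro z
    by_cases hz : z ∈ E
    · obtain ⟨L, hL⟩ := hypB1_fderiv (hd z hz)
      exact ⟨L, fun _ => hL⟩
    · exact ⟨0, fun h => absurd h hz⟩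
  choose L hL using hex
  exact measurable_image_of_fderivWithin hE (fun x hx => (hL x hx).1.hasFDerivWithinAt) hi

theorem hypB1_w_meas : Measurable (fun z : ℂ => ENNReal.ofReal (4 / (1 - ‖z‖ ^ 2) ^ 2)) := by
  fun_prop

theorem hypB1_mob_meas : Measurable (mob a b) := by
  unfold mob
  have : Measurable (fun z : ℂ => conj b * z + conj a) := by fun_prop
  fun_prop

theorem hypB1_norm_lt {z : ℂ} (hz : z ∈ D) : ‖z‖ < 1 := by simpa using hz

theorem hypB1_inj (h : ‖b‖ < ‖a‖) {E : Set ℂ} (hED : E ⊆ D) : InjOn (mob a b) E := by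
  intro z hz w hw hzw
  have h1 := (mob_inv h (hypB1_norm_lt (hED hz)).le).1
  have h2 := (mob_inv h (hypB1_norm_lt (hED hw)).le).1
  rw [← h1, ← h2, hzw]

theorem hypB1_deriv (h : ‖b‖ < ‖a‖) {E : Set ℂ} (hED : E ⊆ D) : ∀ z ∈ E,
    HasDerivAt (mob a b) (((‖a‖ ^ 2 - ‖b‖ ^ 2 : ℝ) : ℂ) / (conj b * z + conj a) ^ 2) z :=
  fun _ hz => hasDerivAt_mob h (mob_denom_ne h (hypB1_norm_lt (hED hz)).le)

theorem hyp_apply {E : Set ℂ} (hE : MeasurableSet E) (hED : E ⊆ D) :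
    hyp E = ∫⁻ z in E, ENNReal.ofReal (4 / (1 - ‖z‖ ^ 2) ^ 2) := by
  unfold hyp
  rw [withDensity_apply _ hE, Measure.restrict_restrict hE, inter_eq_self_of_subset_left hED]

theorem hypB1_lintegral {E : Set ℂ} (hE : MeasurableSet E) (hED : E ⊆ D)
    {u : ℂ → ℝ≥0∞} (hu : Measurable u) :
    ∫⁻ z in E, u z ∂hyp = ∫⁻ z in E, ENNReal.ofReal (4 / (1 - ‖z‖ ^ 2) ^ 2) * u z := by
  unfold hyp
  rw [restrict_withDensity hE, Measure.restrict_restrict hE, inter_eq_self_of_subset_left hED,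
    lintegral_withDensity_eq_lintegral_mul _ hypB1_w_meas hu]
  rfl

theorem lintegral_mob (h : ‖b‖ < ‖a‖) {E : Set ℂ} (hE : MeasurableSet E) (hED : E ⊆ D)
    {u : ℂ → ℝ≥0∞} (hu : Measurable u) :
    ∫⁻ z in mob a b '' E, u z ∂hyp = ∫⁻ z in E, u (mob a b z) ∂hyp := by
  have him : MeasurableSet (mob a b '' E) :=
    hypB1_meas hE (hypB1_deriv h hED) (hypB1_inj h hED)
  have hsub : mob a b '' E ⊆ D := by
    rintro _ ⟨z, hz, rfl⟩
    have := norm_mob_lt h (hypB1_norm_lt (hED hz))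
    simpa using this
  rw [hypB1_lintegral him hsub hu,
    hypB1_lintegral hE hED (u := fun z => u (mob a b z)) (hu.comp hypB1_mob_meas),
    hypB1_lint hE (hypB1_deriv h hED) (hypB1_inj h hED)]
  refine setLIntegral_congr_fun hE fun z hz => ?_
  have hz1 := hypB1_norm_lt (hED hz)
  have hden := mob_denom_ne h hz1.le
  have hden' : 0 < ‖conj b * z + conj a‖ := norm_pos_iff.2 hden
  have hA : 0 < ‖a‖ ^ 2 - ‖b‖ ^ 2 := by nlinarith [norm_nonneg b]
  have hz2 : 0 < 1 - ‖z‖ ^ 2 := by nlinarith [norm_nonneg z]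
  rw [← mul_assoc, ← ENNReal.ofReal_mul (by positivity), one_sub_norm_mob h hz1.le]
  congr 2
  rw [norm_div, norm_pow, Complex.norm_real, Real.norm_of_nonneg hA.le]
  field_simp

theorem hyp_mob (h : ‖b‖ < ‖a‖) {E : Set ℂ} (hE : MeasurableSet E) (hED : E ⊆ D) :
    hyp (mob a b '' E) = hyp E ∧ MeasurableSet (mob a b '' E) ∧ mob a b '' E ⊆ D := by
  refine ⟨?_, hypB1_meas hE (hypB1_deriv h hED) (hypB1_inj h hED), ?_⟩
  · have := lintegral_mob h hE hED (u := fun _ => 1) measurable_const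
    simpa using this
  · rintro _ ⟨z, hz, rfl⟩
    have := norm_mob_lt h (hypB1_norm_lt (hED hz))
    simpa using this

end QC
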