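import Pool.Agent.Work.MP_217185_an.MobB
import Pool.Agent.Work.MP_217185_an.HypB1

/-! # HypB2: hyperbolic area

Invariance: change of variables with the holomorphic injective map `mob a b`
(`lintegral_image_eq_lintegral_abs_det_fderiv_mul`), Jacobian `‖A' z‖²`, and
`‖A' z‖² / (1 - ‖A z‖²)² = 1/(1 - ‖z‖²)²` (`one_sub_norm_mob`). -/

open MeasureTheory Complex Set Metric Filter
open scoped Topology ENNReal NNReal ContDiff ComplexConjugate

namespace QC

variable {a b : ℂ}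

/-- change of variables for the Lebesgue measure: `∫_D u (A_z ζ) dζ`. -/
theorem lintegral_mob_volume {z : ℂ} (hz : ‖z‖ < 1) {u : ℂ → ℝ≥0∞} (hu : Measurable u) :
    ∫⁻ ζ in D, u (mob 1 z ζ)
      = ∫⁻ ζ in D, u ζ * ENNReal.ofReal ((1 - ‖z‖ ^ 2) ^ 2 / ‖1 - conj z * ζ‖ ^ 4) := by
  have h1 : ‖z‖ < ‖(1 : ℂ)‖ := by simpa using hz
  have h : ‖-z‖ < ‖(1 : ℂ)‖ := by simpa using hz
  have hD : MeasurableSet D := measurableSet_ball
  have himg : mob 1 (-z) '' D = D := by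
    ext ζ
    constructor
    · rintro ⟨w, hw, rfl⟩
      have := norm_mob_lt h (hypB1_norm_lt hw)
      simpa using this
    · intro hζ
      refine ⟨mob 1 z ζ, ?_, ?_⟩
      · have := norm_mob_lt h1 (hypB1_norm_lt hζ)
        simpa using this
      · have := (mob_inv h1 (hypB1_norm_lt hζ).le).1
        simpa using this
  have key := hypB1_lint hD (hypB1_deriv h subset_rfl) (hypB1_inj h subset_rfl)
    (fun ζ => u (mob 1 z ζ))
  rw [himg] at key
  rw [key]
  refine setLIntegral_congr_fun hD fun ζ hζ => ?_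
  have hζ1 := hypB1_norm_lt hζ
  have hz2 : 0 < 1 - ‖z‖ ^ 2 := by nlinarith [norm_nonneg z]
  have e1 : mob 1 z (mob 1 (-z) ζ) = ζ := by
    have := (mob_inv h1 hζ1.le).2.1
    simpa using this
  rw [e1, mul_comm]
  congr 2
  have e2 : conj (-z) * ζ + conj (1 : ℂ) = 1 - conj z * ζ := by simp; ring
  rw [e2, norm_div, norm_pow, Complex.norm_real, norm_neg, norm_one, one_pow,
    Real.norm_of_nonneg hz2.le, div_pow, ← pow_mul]

theorem lintegral_kernel {z : ℂ} (hz : ‖z‖ < 1) :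
    ∫⁻ ζ in D, ENNReal.ofReal ((1 - ‖z‖ ^ 2) ^ 2 / ‖1 - conj z * ζ‖ ^ 4)
      = ENNReal.ofReal Real.pi := by
  have h := lintegral_mob_volume hz (u := fun _ => 1) measurable_const
  simp only [one_mul] at h
  rw [← h]
  rw [setLIntegral_const, one_mul, Complex.volume_ball]
  simp only [ENNReal.ofReal_one, one_pow, one_mul]
  rw [ENNReal.ofReal, Real.toNNReal_of_nonneg Real.pi_pos.le]
  rfl

theorem hyp_null {N : Set ℂ} (hN : N ⊆ D) : hyp N = 0 ↔ volume N = 0 := by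
  unfold hyp
  rw [withDensity_apply_eq_zero hypB1_w_meas, Measure.restrict_apply' measurableSet_ball]
  have : ({x : ℂ | ENNReal.ofReal (4 / (1 - ‖x‖ ^ 2) ^ 2) ≠ 0} ∩ N) ∩ ball (0 : ℂ) 1 = N := by
    ext x
    constructor
    · exact fun hx => hx.1.2
    · intro hx
      refine ⟨⟨?_, hx⟩, hN hx⟩
      have hx1 := hypB1_norm_lt (hN hx)
      have hz2 : 0 < 1 - ‖x‖ ^ 2 := by nlinarith [norm_nonneg x]
      show ENNReal.ofReal (4 / (1 - ‖x‖ ^ 2) ^ 2) ≠ 0
      have : 0 < 4 / (1 - ‖x‖ ^ 2) ^ 2 := by positivity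
      exact (ENNReal.ofReal_pos.2 this).ne'
  rw [this]

theorem volume_le_hyp {E : Set ℂ} (hE : MeasurableSet E) (hED : E ⊆ D) :
    4 * volume E ≤ hyp E := by
  rw [hyp_apply hE hED, ← setLIntegral_const]
  refine setLIntegral_mono' hE fun z hz => ?_
  have hz1 := hypB1_norm_lt (hED hz)
  have hz2 : 0 < 1 - ‖z‖ ^ 2 := by nlinarith [norm_nonneg z]
  have : (4 : ℝ≥0∞) = ENNReal.ofReal 4 := by simp
  rw [this]
  apply ENNReal.ofReal_le_ofReal
  rw [le_div_iff₀ (by positivity)]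
  have h3 : (1 - ‖z‖ ^ 2) ^ 2 ≤ 1 := by nlinarith [sq_nonneg ‖z‖]
  linarith

theorem hyp_le_volume {r : ℝ} (hr0 : 0 ≤ r) (hr : r < 1) {E : Set ℂ} (hE : MeasurableSet E)
    (hED : E ⊆ closedBall 0 r) :
    hyp E ≤ ENNReal.ofReal (4 / (1 - r ^ 2) ^ 2) * volume E := by
  have hED' : E ⊆ D := fun z hz => by
    have := hED hz
    simp only [mem_closedBall, dist_zero_right, mem_ball] at this ⊢
    linarith
  rw [hyp_apply hE hED', ← setLIntegral_const]
  refine setLIntegral_mono' hE fun z hz => ?_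
  have hz1 : ‖z‖ ≤ r := by simpa using hED hz
  have hr2 : 0 < 1 - r ^ 2 := by nlinarith
  have hz2 : 1 - r ^ 2 ≤ 1 - ‖z‖ ^ 2 := by nlinarith [norm_nonneg z]
  apply ENNReal.ofReal_le_ofReal
  gcongr

end QC
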