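import Pool.Agent.Work.MP_217185_an.HypIntDef

/-! # HypIntA: interpolation: basic properties

`T² - ‖V‖² ≥ 1`: it is `(1-t)² + t² + 2 t (1-t) (T_z T_w - Re(V_z conj V_w))` with `T_z² - ‖V_z‖² = 1`,
`T_z T_w - Re(V_z conj V_w) ≥ 1` (equivalently `T_z T_w ≥ 1 + ...`; it is
`1 + 2‖z-w‖²/((1-‖z‖²)(1-‖w‖²))`), and `T ≥ 1`.  So `‖V‖ < T`, `‖hal‖ = ‖V‖/(T + √(T²-‖V‖²)) < 1`.
`hal 0 z w = z`: `T + 1 = 2/(1-‖z‖²)`, `V = 2z/(1-‖z‖²)`. -/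

open MeasureTheory Complex Set Metric Filter
open scoped Topology ENNReal NNReal ContDiff ComplexConjugate

namespace QC

private theorem hia_pos {z : ℂ} (hz : z ∈ D) : 0 < 1 - ‖z‖ ^ 2 := by
  have h1 : ‖z‖ < 1 := by simpa [D] using hz
  have h2 := norm_nonneg z
  nlinarith

private theorem hia_sq (z : ℂ) : ‖z‖ ^ 2 = z.re ^ 2 + z.im ^ 2 := by
  rw [Complex.sq_norm, Complex.normSq_apply]; ring

private theorem hia_V (t : ℝ) (z w : ℂ) : ‖halV t z w‖ ^ 2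
    = ((2 * (1 - t) / (1 - ‖z‖ ^ 2)) * z.re + (2 * t / (1 - ‖w‖ ^ 2)) * w.re) ^ 2
      + ((2 * (1 - t) / (1 - ‖z‖ ^ 2)) * z.im + (2 * t / (1 - ‖w‖ ^ 2)) * w.im) ^ 2 := by
  rw [hia_sq]
  have h1 : (halV t z w).re
      = (2 * (1 - t) / (1 - ‖z‖ ^ 2)) * z.re + (2 * t / (1 - ‖w‖ ^ 2)) * w.re := by
    unfold halV
    rw [Complex.add_re, Complex.re_ofReal_mul, Complex.re_ofReal_mul]
  have h2 : (halV t z w).im
      = (2 * (1 - t) / (1 - ‖z‖ ^ 2)) * z.im + (2 * t / (1 - ‖w‖ ^ 2)) * w.im := by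
    unfold halV
    rw [Complex.add_im, Complex.im_ofReal_mul, Complex.im_ofReal_mul]
  rw [h1, h2]

/-- the exact value of the Lorentz norm. -/
theorem halT_sq_eq {t : ℝ} {z w : ℂ} (hz : z ∈ D) (hw : w ∈ D) :
    halT t z w ^ 2 - ‖halV t z w‖ ^ 2
      = 1 + 4 * t * (1 - t) * (1 / (1 - ‖z‖ ^ 2)) * (1 / (1 - ‖w‖ ^ 2))
        * ((z.re - w.re) ^ 2 + (z.im - w.im) ^ 2) := by
  have hA := hia_pos hz
  have hB := hia_pos hw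
  rw [hia_V]
  unfold halT
  obtain ⟨u, hu⟩ : ∃ u, u = 1 / (1 - ‖z‖ ^ 2) := ⟨_, rfl⟩
  obtain ⟨v, hv⟩ : ∃ v, v = 1 / (1 - ‖w‖ ^ 2) := ⟨_, rfl⟩
  have hux : u * (z.re ^ 2 + z.im ^ 2) = u - 1 := by
    rw [← hia_sq, hu]; field_simp; ring
  have hvy : v * (w.re ^ 2 + w.im ^ 2) = v - 1 := by
    rw [← hia_sq, hv]; field_simp; ring
  have e1 : (1 + ‖z‖ ^ 2) / (1 - ‖z‖ ^ 2) = 2 * u - 1 := by
    rw [hu]; field_simp; ring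
  have e2 : (1 + ‖w‖ ^ 2) / (1 - ‖w‖ ^ 2) = 2 * v - 1 := by
    rw [hv]; field_simp; ring
  have e3 : 2 * (1 - t) / (1 - ‖z‖ ^ 2) = 2 * (1 - t) * u := by
    rw [hu]; ring
  have e4 : 2 * t / (1 - ‖w‖ ^ 2) = 2 * t * v := by
    rw [hv]; ring
  rw [e1, e2, e3, e4, ← hu, ← hv]
  linear_combination (-4 * (1 - t) ^ 2 * u - 4 * t * (1 - t) * v) * hux
    + (-4 * t ^ 2 * v - 4 * t * (1 - t) * u) * hvy

theorem halT_sq {t : ℝ} (ht : t ∈ Icc (0 : ℝ) 1) {z w : ℂ} (hz : z ∈ D) (hw : w ∈ D) :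
    1 ≤ halT t z w ∧ 1 ≤ halT t z w ^ 2 - ‖halV t z w‖ ^ 2 := by
  have hA := hia_pos hz
  have hB := hia_pos hw
  obtain ⟨t0, t1⟩ := ht
  constructor
  · have h1 : 1 ≤ (1 + ‖z‖ ^ 2) / (1 - ‖z‖ ^ 2) := by
      rw [le_div_iff₀ hA]; nlinarith [sq_nonneg ‖z‖]
    have h2 : 1 ≤ (1 + ‖w‖ ^ 2) / (1 - ‖w‖ ^ 2) := by
      rw [le_div_iff₀ hB]; nlinarith [sq_nonneg ‖w‖]
    unfold halT
    nlinarith
  · rw [halT_sq_eq hz hw]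
    have h1 : 0 ≤ 1 / (1 - ‖z‖ ^ 2) := by positivity
    have h2 : 0 ≤ 1 / (1 - ‖w‖ ^ 2) := by positivity
    have h3 : 0 ≤ 1 - t := by linarith
    have : 0 ≤ 4 * t * (1 - t) * (1 / (1 - ‖z‖ ^ 2)) * (1 / (1 - ‖w‖ ^ 2))
        * ((z.re - w.re) ^ 2 + (z.im - w.im) ^ 2) := by positivity
    linarith

/-- a point of the future cone projects to the disc. -/
theorem hal_lt_one {T : ℝ} {V : ℂ} (hT : 1 ≤ T) (hV : 1 ≤ T ^ 2 - ‖V‖ ^ 2) :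
    ‖V / ((T + Real.sqrt (T ^ 2 - ‖V‖ ^ 2) : ℝ) : ℂ)‖ < 1 := by
  have hs : 0 ≤ Real.sqrt (T ^ 2 - ‖V‖ ^ 2) := Real.sqrt_nonneg _
  have hp : 0 < T + Real.sqrt (T ^ 2 - ‖V‖ ^ 2) := by linarith
  rw [norm_div, Complex.norm_real, Real.norm_eq_abs, abs_of_pos hp, div_lt_one hp]
  have h1 : ‖V‖ ^ 2 < T ^ 2 := by linarith
  have h2 : ‖V‖ < T := lt_of_pow_lt_pow_left₀ 2 (by linarith) h1
  linarith

theorem hal_mem {t : ℝ} (ht : t ∈ Icc (0 : ℝ) 1) {z w : ℂ} (hz : z ∈ D) (hw : w ∈ D) :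
    hal t z w ∈ D := by
  obtain ⟨h1, h2⟩ := halT_sq ht hz hw
  have := hal_lt_one h1 h2
  simpa [D, hal] using this

theorem hal_ends {z w : ℂ} (hz : z ∈ D) (hw : w ∈ D) : hal 0 z w = z ∧ hal 1 z w = w := by
  have hA := hia_pos hz
  have hB := hia_pos hw
  constructor
  · have h1 : halT 0 z w ^ 2 - ‖halV 0 z w‖ ^ 2 = 1 := by
      rw [halT_sq_eq hz hw]; ring
    have h2 : halT 0 z w + 1 = 2 / (1 - ‖z‖ ^ 2) := by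
      unfold halT; field_simp; ring
    have h3 : halV 0 z w = ((2 / (1 - ‖z‖ ^ 2) : ℝ) : ℂ) * z := by
      unfold halV; simp
    unfold hal
    rw [h1, Real.sqrt_one, h2, h3, mul_comm]
    have : ((2 / (1 - ‖z‖ ^ 2) : ℝ) : ℂ) ≠ 0 := by
      rw [Complex.ofReal_ne_zero]; positivity
    field_simp
  · have h1 : halT 1 z w ^ 2 - ‖halV 1 z w‖ ^ 2 = 1 := by
      rw [halT_sq_eq hz hw]; ring
    have h2 : halT 1 z w + 1 = 2 / (1 - ‖w‖ ^ 2) := by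
      unfold halT; field_simp; ring
    have h3 : halV 1 z w = ((2 / (1 - ‖w‖ ^ 2) : ℝ) : ℂ) * w := by
      unfold halV; simp
    unfold hal
    rw [h1, Real.sqrt_one, h2, h3, mul_comm]
    have : ((2 / (1 - ‖w‖ ^ 2) : ℝ) : ℂ) ≠ 0 := by
      rw [Complex.ofReal_ne_zero]; positivity
    field_simp

theorem hal_cont :
    ContinuousOn (fun p : ℝ × ℂ × ℂ => hal p.1 p.2.1 p.2.2) (Icc (0 : ℝ) 1 ×ˢ D ×ˢ D) := by
  have cz : ContinuousOn (fun p : ℝ × ℂ × ℂ => 1 - ‖p.2.1‖ ^ 2) (Icc (0 : ℝ) 1 ×ˢ D ×ˢ D) := by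
    fun_prop
  have cw : ContinuousOn (fun p : ℝ × ℂ × ℂ => 1 - ‖p.2.2‖ ^ 2) (Icc (0 : ℝ) 1 ×ˢ D ×ˢ D) := by
    fun_prop
  have nz : ∀ p ∈ (Icc (0 : ℝ) 1 ×ˢ D ×ˢ D : Set (ℝ × ℂ × ℂ)), 1 - ‖p.2.1‖ ^ 2 ≠ 0 :=
    fun p hp => (hia_pos hp.2.1).ne'
  have nw : ∀ p ∈ (Icc (0 : ℝ) 1 ×ˢ D ×ˢ D : Set (ℝ × ℂ × ℂ)), 1 - ‖p.2.2‖ ^ 2 ≠ 0 :=
    fun p hp => (hia_pos hp.2.2).ne'
  have cT : ContinuousOn (fun p : ℝ × ℂ × ℂ => halT p.1 p.2.1 p.2.2)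
      (Icc (0 : ℝ) 1 ×ˢ D ×ˢ D) := by
    unfold halT
    refine ContinuousOn.add (ContinuousOn.mul (by fun_prop) (ContinuousOn.div (by fun_prop) cz nz))
      (ContinuousOn.mul (by fun_prop) (ContinuousOn.div (by fun_prop) cw nw))
  have cV : ContinuousOn (fun p : ℝ × ℂ × ℂ => halV p.1 p.2.1 p.2.2)
      (Icc (0 : ℝ) 1 ×ˢ D ×ˢ D) := by
    unfold halV
    refine ContinuousOn.add (ContinuousOn.mul ?_ (by fun_prop)) (ContinuousOn.mul ?_ (by fun_prop))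
    · exact Complex.continuous_ofReal.comp_continuousOn (ContinuousOn.div (by fun_prop) cz nz)
    · exact Complex.continuous_ofReal.comp_continuousOn (ContinuousOn.div (by fun_prop) cw nw)
  unfold hal
  refine ContinuousOn.div cV ?_ ?_
  · refine Complex.continuous_ofReal.comp_continuousOn (cT.add ?_)
    exact Real.continuous_sqrt.comp_continuousOn ((cT.pow 2).sub (cV.norm.pow 2))
  · intro p hp
    obtain ⟨h1, -⟩ := halT_sq hp.1 hp.2.1 hp.2.2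
    rw [Complex.ofReal_ne_zero]
    have := Real.sqrt_nonneg (halT p.1 p.2.1 p.2.2 ^ 2 - ‖halV p.1 p.2.1 p.2.2‖ ^ 2)
    positivity

end QC
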