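import Pool.Agent.Work.MP_217185_an.MobB

/-! # HypIntDef: equivariant interpolation in the hyperbolic disc: definition

`hal t z w` is the normalised convex combination in the hyperboloid model:
`X(z) = ((1+‖z‖²)/(1-‖z‖²), 2z/(1-‖z‖²))`, `(T, V) = (1-t) X(z) + t X(w)`,
`hal = V/(T + √(T² - ‖V‖²))`. -/

open MeasureTheory Complex Set Metric Filter
open scoped Topology ENNReal NNReal ContDiff ComplexConjugate

noncomputable section

namespace QC

/-- time component. -/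
def halT (t : ℝ) (z w : ℂ) : ℝ :=
  (1 - t) * ((1 + ‖z‖ ^ 2) / (1 - ‖z‖ ^ 2)) + t * ((1 + ‖w‖ ^ 2) / (1 - ‖w‖ ^ 2))

/-- space component. -/
def halV (t : ℝ) (z w : ℂ) : ℂ :=
  ((2 * (1 - t) / (1 - ‖z‖ ^ 2) : ℝ) : ℂ) * z + ((2 * t / (1 - ‖w‖ ^ 2) : ℝ) : ℂ) * w

/-- the interpolation. -/
def hal (t : ℝ) (z w : ℂ) : ℂ :=
  halV t z w / ((halT t z w + Real.sqrt (halT t z w ^ 2 - ‖halV t z w‖ ^ 2) : ℝ) : ℂ)

end QC

end
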