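import Pool.Agent.Work.MP_217185_an.CauL2

/-! # UniqW: uniqueness of the normalised global solution

`B` vanishes a.e. off the ball of radius `R` and is in `L²` there, so `B ∈ L²`; change it on a null
set so that `SuppIn R B`.  `R0 = W - z - Cau B` has `dzb R0 = 0` weakly (`cau_WD`), so it is a.e. an
entire function `g` (`weyl` with `U = univ`); for `|z| > R` both sides are continuous so equality
holds there, and `g → 0` at infinity, so `g = 0` (Liouville, `tendsto_cau`).  Hence
`W = z + Cau B` a.e., so `A = 1 + T B` a.e. (`WD.unique`), `B = μ A = μ (1 + T B)`, `B = hh μ` a.e.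
(`hh_unique`); `Cau B = Cau (hh μ)` everywhere (integral of a.e. equal functions). -/

open MeasureTheory Complex Set Metric Filter
open scoped Topology ENNReal NNReal ContDiff ComplexConjugate

namespace QC

private lemma dz_id (z : ℂ) : dz (fun z => z) z = 1 := by
  have h : fderiv ℝ (fun z : ℂ => z) z = ContinuousLinearMap.id ℝ ℂ := fderiv_id
  unfold dz
  rw [h]
  simp only [ContinuousLinearMap.coe_id', id_eq, I_mul_I]
  norm_num

private lemma dzb_id (z : ℂ) : dzb (fun z => z) z = 0 := by
  have h : fderiv ℝ (fun z : ℂ => z) z = ContinuousLinearMap.id ℝ ℂ := fderiv_id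
  unfold dzb
  rw [h]
  simp only [ContinuousLinearMap.coe_id', id_eq, I_mul_I]
  norm_num

private lemma dz_zero (z : ℂ) : dz (fun _ => (0:ℂ)) z = 0 := by
  have h : fderiv ℝ (fun _ : ℂ => (0:ℂ)) z = 0 := by simp
  unfold dz
  rw [h]
  simp

private lemma dzb_zero (z : ℂ) : dzb (fun _ => (0:ℂ)) z = 0 := by
  have h : fderiv ℝ (fun _ : ℂ => (0:ℂ)) z = 0 := by simp
  unfold dzb
  rw [h]
  simp

theorem unique_sol {k R : ℝ} {μ : ℂ → ℂ} (hμ : Bel k μ) (hs : SuppIn R μ) {W A B : ℂ → ℂ}
    (hW : Continuous W) (h : WD univ W A B) (hB : B =ᵐ[volume] fun z => μ z * A z)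
    (hinf : Tendsto (fun z => W z - z) (cocompact ℂ) (𝓝 0)) :
    B =ᵐ[volume] hh μ ∧ (A =ᵐ[volume] fun z => 1 + Tf (hh μ) z) ∧
      (W =ᵐ[volume] fun z => z + Cau (hh μ) z) ∧ ∀ z, R < ‖z‖ → W z = z + Cau (hh μ) z := by
  -- the modification of `B`
  set B' : ℂ → ℂ := (closedBall (0:ℂ) R ∩ {z | ‖z‖ < R}).indicator B with hB'
  have hmeas : MeasurableSet (closedBall (0:ℂ) R ∩ {z | ‖z‖ < R}) :=
    measurableSet_closedBall.inter (isOpen_lt continuous_norm continuous_const).measurableSet
  have hB'mem : MemLp B' 2 (volume : Measure ℂ) := by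
    rw [hB', memLp_indicator_iff_restrict hmeas]
    exact (h.lb _ (subset_univ _) (isCompact_closedBall _ _)).mono_measure
      (Measure.restrict_mono inter_subset_left le_rfl)
  have hB's : SuppIn R B' := by
    intro z hz
    apply indicator_of_notMem
    rintro ⟨_, h2⟩
    have h2 : ‖z‖ < R := h2
    linarith
  have hBB' : B =ᵐ[volume] B' := by
    filter_upwards [hB] with z hz
    by_cases hzR : ‖z‖ < R
    · rw [hB', indicator_of_mem]
      exact ⟨mem_closedBall_zero_iff.mpr hzR.le, hzR⟩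
    · rw [hB's z (not_lt.mp hzR), hz, hs z (not_lt.mp hzR), zero_mul]
  have hcau := cau_WD hB'mem hB's
  have hid : WD univ (fun z => z) (fun _ => (1:ℂ)) (fun _ => (0:ℂ)) := by
    have h1 := WD.of_contDiffOn isOpen_univ (f := fun z : ℂ => z) contDiff_id.contDiffOn
    have e1 : dz (fun z : ℂ => z) = fun _ => (1:ℂ) := funext dz_id
    have e2 : dzb (fun z : ℂ => z) = fun _ => (0:ℂ) := funext dzb_id
    rwa [e1, e2] at h1
  have hR0 : WD univ (fun z => (W z - z) - Cau B' z) (fun z => (A z - 1) - Tf B' z)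
      (fun z => (B z - 0) - B' z) :=
    (h.sub isOpen_univ hid).sub isOpen_univ hcau
  have hz0 : ∀ φ, Test univ φ → ∫ z, ((W z - z) - Cau B' z) * dzb φ z = 0 := by
    intro φ hφ
    rw [hR0.db φ hφ]
    rw [neg_eq_zero]
    have : (fun z => ((B z - 0) - B' z) * φ z) =ᵐ[volume] fun _ => (0:ℂ) := by
      filter_upwards [hBB'] with z hz
      rw [hz]; ring
    rw [integral_congr_ae this]
    simp
  obtain ⟨g, hg, hge⟩ := weyl isOpen_univ hR0.lif hz0
  rw [Measure.restrict_univ] at hge
  have hgd : Differentiable ℂ g := differentiableOn_univ.mp hg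
  -- equality outside the ball
  have hopen : IsOpen {z : ℂ | R < ‖z‖} := isOpen_lt continuous_const continuous_norm
  have hcauc : ContinuousOn (Cau B') {z | R < ‖z‖} := (cau_holo hB'mem hB's).continuousOn
  have hout : EqOn (fun z => (W z - z) - Cau B' z) g {z : ℂ | R < ‖z‖} := by
    apply Measure.eqOn_open_of_ae_eq (μ := volume) (ae_restrict_of_ae hge) hopen
    · exact ((hW.sub continuous_id).continuousOn).sub hcauc
    · exact hgd.continuous.continuousOn
  have hevR : ∀ᶠ z : ℂ in cocompact ℂ, R < ‖z‖ :=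
    tendsto_norm_cocompact_atTop.eventually (eventually_gt_atTop R)
  have hg0 : ∀ z, g z = 0 := by
    intro z
    apply hgd.apply_eq_of_tendsto_cocompact
    have h1 : Tendsto (fun z => (W z - z) - Cau B' z) (cocompact ℂ) (𝓝 (0 - 0)) :=
      hinf.sub (tendsto_cau hB'mem hB's)
    rw [sub_zero] at h1
    refine h1.congr' ?_
    filter_upwards [hevR] with z hz
    exact hout hz
  have hW0 : (fun z => (W z - z) - Cau B' z) =ᵐ[volume] fun _ => (0:ℂ) := by
    filter_upwards [hge] with z hz
    rw [hz, hg0]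
  -- the derivatives
  have hR1 : WD univ (fun _ => (0:ℂ)) (fun z => (A z - 1) - Tf B' z)
      (fun z => (B z - 0) - B' z) := by
    refine hR0.congr isOpen_univ ?_ (Filter.EventuallyEq.refl _ _) (Filter.EventuallyEq.refl _ _)
    rw [Measure.restrict_univ]
    exact hW0
  have hR2 : WD univ (fun _ => (0:ℂ)) (fun _ => (0:ℂ)) (fun _ => (0:ℂ)) := by
    have h1 := WD.of_contDiffOn isOpen_univ (f := fun _ : ℂ => (0:ℂ)) contDiff_const.contDiffOn
    have e1 : dz (fun _ : ℂ => (0:ℂ)) = fun _ => (0:ℂ) := funext dz_zero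
    have e2 : dzb (fun _ : ℂ => (0:ℂ)) = fun _ => (0:ℂ) := funext dzb_zero
    rwa [e1, e2] at h1
  have hA0 := (WD.unique isOpen_univ hR1 hR2).1
  rw [Measure.restrict_univ] at hA0
  have hAB : A =ᵐ[volume] fun z => 1 + Tf B' z := by
    filter_upwards [hA0] with z hz
    linear_combination hz
  have hBh : B' =ᵐ[volume] hh μ := by
    apply hh_unique hμ hs hB'mem
    filter_upwards [hBB', hB, hAB] with z h1 h2 h3
    rw [← h1, h2, h3]
  have hTf : Tf B' = Tf (hh μ) := Tf_congr hBh
  have hCau : ∀ z, Cau B' z = Cau (hh μ) z := by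
    intro z
    unfold Cau
    congr 1
    apply integral_congr_ae
    filter_upwards [hBh] with ζ hζ
    rw [hζ]
  refine ⟨hBB'.trans hBh, ?_, ?_, ?_⟩
  · rw [hTf] at hAB
    exact hAB
  · filter_upwards [hW0] with z hz
    rw [← hCau]
    linear_combination hz
  · intro z hz
    have h1 := hout (show z ∈ {z : ℂ | R < ‖z‖} from hz)
    simp only [hg0] at h1
    rw [← hCau]
    linear_combination h1

end QC
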