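import Pool.Agent.Work.MP_217185_an.DComp
import Pool.Agent.Work.MP_217185_an.Glue
import Pool.Agent.Work.MP_217185_an.UniqW

open MeasureTheory Complex Set Metric Filter
open scoped Topology ENNReal NNReal ContDiff ComplexConjugate

/-! # InjA: equal boundary values give equal plane solutions outside the disc

Let `F' = σ F` on the circle and `τ = F'⁻¹ σ F` (the identity on the circle).  `W = w' ∘ ext τ` is
continuous, `W = G ∘ F` on `D` with `G = w' ∘ F'⁻¹ ∘ σ` holomorphic and injective, and `W = w'`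
outside; `glue_circle` and `unique_sol`. -/

namespace QC

private theorem injA_aem {f : ℂ → ℂ} (hf : L2loc D f) :
    AEStronglyMeasurable f (volume.restrict D) := by
  have h1 : D = ⋃ n : ℕ, closedBall (0 : ℂ) (1 - 1 / ((n : ℝ) + 1)) := by
    ext z
    rw [mem_iUnion]
    constructor
    · intro hz
      rw [mem_ball_zero_iff] at hz
      obtain ⟨n, hn⟩ := exists_nat_one_div_lt (sub_pos.2 hz)
      refine ⟨n, ?_⟩
      rw [mem_closedBall_zero_iff]
      linarith
    · rintro ⟨n, hn⟩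
      rw [mem_closedBall_zero_iff] at hn
      rw [mem_ball_zero_iff]
      have : (0 : ℝ) < 1 / ((n : ℝ) + 1) := by positivity
      linarith
  rw [h1, aestronglyMeasurable_iUnion_iff]
  intro n
  refine (hf _ ?_ (isCompact_closedBall _ _)).1
  intro z hz
  rw [h1]
  exact mem_iUnion.2 ⟨n, hz⟩

private theorem injA_out (F : CD → CD) {z : ℂ} (hz : 1 < ‖z‖) : ext F z = z := by
  unfold ext
  rw [dif_neg]
  rw [mem_closedBall_zero_iff]
  exact not_le.2 hz

private theorem injA_measurable (F : CD ≃ₜ CD) : Measurable (ext F) := by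
  classical
  have h1 : ext F = (closedBall (0 : ℂ) 1).piecewise (ext F) id := by
    ext z
    by_cases hz : z ∈ closedBall (0 : ℂ) 1
    · rw [piecewise_eq_of_mem _ _ _ hz]
    · rw [piecewise_eq_of_notMem _ _ _ hz]
      apply injA_out
      rw [mem_closedBall_zero_iff] at hz
      exact not_le.1 hz
  rw [h1]
  exact (continuousOn_ext F).measurable_piecewise continuousOn_id isClosed_closedBall.measurableSet

/-- change of variables for quasiconformal homeomorphisms of the disc. -/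
private theorem injA_cov {k : ℝ} {F : CD ≃ₜ CD} {μ : ℂ → ℂ} (h : IsQC k F μ) {a b : ℂ → ℂ}
    (hw : WD D (ext F) a b) {u : ℂ → ℝ≥0∞} (hu : Measurable u) :
    ∫⁻ z in D, ENNReal.ofReal (‖a z‖ ^ 2 - ‖b z‖ ^ 2) * u (ext F z) = ∫⁻ z in D, u z := by
  obtain ⟨-, -, hA, -⟩ := h.area hw
  have hDm : MeasurableSet D := measurableSet_ball
  have ha := injA_aem hw.la
  have hb := injA_aem hw.lb
  have hJ : AEMeasurable (fun z => ENNReal.ofReal (‖a z‖ ^ 2 - ‖b z‖ ^ 2)) (volume.restrict D) :=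
    ((ha.norm.aemeasurable.pow_const 2).sub (hb.norm.aemeasurable.pow_const 2)).ennreal_ofReal
  have hF := injA_measurable F
  set ν : Measure ℂ := (volume.restrict D).withDensity
    (fun z => ENNReal.ofReal (‖a z‖ ^ 2 - ‖b z‖ ^ 2)) with hν
  have hmap : Measure.map (ext F) ν = volume.restrict D := by
    ext E hE
    rw [Measure.map_apply hF hE, Measure.restrict_apply hE, hν, withDensity_apply _ (hF hE),
      Measure.restrict_restrict (hF hE), ← (hA _ inter_subset_right ((hF hE).inter hDm)).2,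
      image_preimage_inter, h.image_D]
  have h2 : ∫⁻ z in D, u z = ∫⁻ z, u z ∂(Measure.map (ext F) ν) := by rw [hmap]
  have h3 := lintegral_withDensity_eq_lintegral_mul₀ hJ (hu.comp hF).aemeasurable
  rw [h2, lintegral_map hu hF, hν]
  exact h3.symm

private theorem injA_volume {G : ℂ → ℂ} (hG : DifferentiableOn ℂ G D) (hi : InjOn G D) :
    ∫⁻ z in D, ‖deriv G z‖ₑ ^ (2 : ℝ) = volume (G '' D) := by
  have hd : ∀ z ∈ D, DifferentiableAt ℂ G z := fun z hz =>
    (hG z hz).differentiableAt (isOpen_ball.mem_nhds hz)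
  have h1 := lintegral_abs_det_fderiv_eq_addHaar_image (μ := volume) (f := G) (s := D)
    (f' := fun z => fderiv ℝ G z) measurableSet_ball
    (fun z hz => ((hd z hz).restrictScalars ℝ).hasFDerivAt.hasFDerivWithinAt) hi
  rw [← h1]
  refine setLIntegral_congr_fun measurableSet_ball fun z hz => ?_
  rw [det_fderiv, (dz_of_holo (hd z hz)).1, (dz_of_holo (hd z hz)).2, norm_zero]
  rw [← ofReal_norm, ENNReal.ofReal_rpow_of_nonneg (norm_nonneg _) (by norm_num)]
  congr 1
  rw [Real.rpow_two, abs_of_nonneg (by nlinarith [sq_nonneg ‖deriv G z‖])]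
  ring

private theorem injA_memLp {k : ℝ} {F : CD ≃ₜ CD} {μ : ℂ → ℂ} (h : IsQC k F μ) {a b : ℂ → ℂ}
    (hw : WD D (ext F) a b) {G : ℂ → ℂ} (hG : DifferentiableOn ℂ G D) (hi : InjOn G D)
    {R : ℝ} (hR : G '' D ⊆ closedBall 0 R) :
    MemLp (fun z => deriv G (ext F z) * a z) 2 (volume.restrict D) ∧
    MemLp (fun z => deriv G (ext F z) * b z) 2 (volume.restrict D) := by
  have hDm : MeasurableSet D := measurableSet_ball
  obtain ⟨hba, -, -, -⟩ := h.area hw
  have ha := injA_aem hw.la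
  have hb := injA_aem hw.lb
  have hk0 : 0 ≤ k := (norm_nonneg _).trans (h.bel.le 0)
  have hk1 : k < 1 := h.bel.lt
  have hk2 : 0 < 1 - k ^ 2 := by nlinarith
  have hGF : AEStronglyMeasurable (fun z => deriv G (ext F z)) (volume.restrict D) :=
    ((measurable_deriv G).comp (injA_measurable F)).aestronglyMeasurable
  have h1 : MemLp (fun z => deriv G (ext F z) * a z) 2 (volume.restrict D) := by
    refine ⟨hGF.mul ha, ?_⟩
    rw [eLpNorm_lt_top_iff_lintegral_rpow_enorm_lt_top (by norm_num) (by norm_num)]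
    have e2 : (2 : ℝ≥0∞).toReal = 2 := by norm_num
    rw [e2]
    have h2 : ∫⁻ z in D, ‖deriv G (ext F z) * a z‖ₑ ^ (2 : ℝ) ≤
        ENNReal.ofReal (1 / (1 - k ^ 2)) * ∫⁻ z in D, ENNReal.ofReal (‖a z‖ ^ 2 - ‖b z‖ ^ 2) *
          ‖deriv G (ext F z)‖ₑ ^ (2 : ℝ) := by
      rw [← lintegral_const_mul' _ _ ENNReal.ofReal_ne_top]
      refine lintegral_mono_ae ?_
      filter_upwards [hba] with z hz
      rw [enorm_mul, ENNReal.mul_rpow_of_nonneg _ _ (by norm_num), mul_comm, ← mul_assoc]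
      refine mul_le_mul_left ?_ _
      rw [← ENNReal.ofReal_mul (by positivity), ← ofReal_norm,
        ENNReal.ofReal_rpow_of_nonneg (norm_nonneg _) (by norm_num)]
      refine ENNReal.ofReal_le_ofReal ?_
      rw [hz, norm_mul, Real.rpow_two, one_div, ← div_eq_inv_mul, le_div_iff₀ hk2]
      have h3 := h.bel.le z
      have h4 : ‖μ z‖ ^ 2 ≤ k ^ 2 := by
        have := norm_nonneg (μ z)
        nlinarith
      nlinarith [sq_nonneg ‖a z‖, mul_le_mul_of_nonneg_right h4 (sq_nonneg ‖a z‖)]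
    refine lt_of_le_of_lt h2 (ENNReal.mul_lt_top ENNReal.ofReal_lt_top ?_)
    rw [injA_cov h hw (u := fun z => ‖deriv G z‖ₑ ^ (2 : ℝ))
      ((measurable_deriv G).enorm.pow_const _), injA_volume hG hi]
    exact lt_of_le_of_lt (measure_mono hR) measure_closedBall_lt_top
  refine ⟨h1, MemLp.of_le_mul (c := 1) h1 (hGF.mul hb) ?_⟩
  filter_upwards [hba] with z hz
  rw [hz, norm_mul, norm_mul, norm_mul, one_mul]
  have h3 : ‖μ z‖ ≤ 1 := (h.bel.le z).trans hk1.le
  have h4 : ‖μ z‖ * ‖a z‖ ≤ ‖a z‖ := mul_le_of_le_one_left (norm_nonneg _) h3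
  exact mul_le_mul_of_nonneg_left h4 (norm_nonneg _)

private theorem injA_maps (E : CD ≃ₜ CD) (hE : ∀ z : CD, ‖(z : ℂ)‖ < 1 → ‖(E z : ℂ)‖ < 1) :
    MapsTo (ext E) D D := by
  intro z hz
  have hz' : z ∈ closedBall (0 : ℂ) 1 := ball_subset_closedBall hz
  have h1 := ext_apply (fun x => E x) ⟨z, hz'⟩
  rw [mem_ball_zero_iff] at hz ⊢
  have h2 : ext (fun x => E x) z = ext (fun x => E x) ((⟨z, hz'⟩ : CD) : ℂ) := rfl
  rw [h2, h1]
  exact hE ⟨z, hz'⟩ hz

private theorem injA_symm {k : ℝ} {F : CD ≃ₜ CD} {μ : ℂ → ℂ} (h : IsQC k F μ) (z : CD)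
    (hz : ‖(z : ℂ)‖ < 1) : ‖(F.symm z : ℂ)‖ < 1 := by
  have := h.pres (F.symm z)
  rw [Homeomorph.apply_symm_apply] at this
  exact this.1 hz

/-- the inverse of the holomorphic factor -/
private theorem injA_L {k' : ℝ} {F' : CD ≃ₜ CD} {μ' : ℂ → ℂ} (h' : IsQC k' F' μ')
    {w' : ℂ ≃ₜ ℂ} (hw' : IsW k' μ' w') :
    DifferentiableOn ℂ (fun y => w' (ext F'.symm y)) D := by
  obtain ⟨w1, hw1, g, hg, -, -, hFg, hg0⟩ := h'.fact
  have he : w' = w1 := IsW.unique h'.bel h'.supp h'.bel h'.supp (ae_eq_refl _) hw' hw1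
  subst he
  have hm : MapsTo (ext F'.symm) D D := injA_maps F'.symm (injA_symm h')
  intro y hy
  refine DifferentiableAt.differentiableWithinAt ?_
  have hcont : ContinuousAt (fun y => w' (ext F'.symm y)) y := by
    refine w'.continuous.continuousAt.comp ?_
    exact ((continuousOn_ext F'.symm).mono ball_subset_closedBall).continuousAt
      (isOpen_ball.mem_nhds hy)
  have hopen : IsOpen (w' '' D) := w'.isOpenMap D isOpen_ball
  have hder : HasDerivAt g (deriv g (w' (ext F'.symm y))) (w' (ext F'.symm y)) :=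
    ((hg _ (mem_image_of_mem _ (hm hy))).differentiableAt
      (hopen.mem_nhds (mem_image_of_mem _ (hm hy)))).hasDerivAt
  have hz := hm hy
  have hne : deriv g (w' (ext F'.symm y)) ≠ 0 := by
    have := hg0 ⟨ext F'.symm y, ball_subset_closedBall hz⟩ (mem_ball_zero_iff.1 hz)
    exact this
  refine (HasDerivAt.of_local_left_inverse (f := g) (g := fun y => w' (ext F'.symm y)) hcont hder
    hne ?_).differentiableAt
  filter_upwards [isOpen_ball.mem_nhds hy] with x hx
  rw [← hFg _ (hm hx)]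
  have hx' : x ∈ closedBall (0 : ℂ) 1 := ball_subset_closedBall hx
  have e1 : ext F'.symm x = (F'.symm ⟨x, hx'⟩ : ℂ) := ext_apply F'.symm ⟨x, hx'⟩
  rw [e1, ext_apply F' (F'.symm ⟨x, hx'⟩), Homeomorph.apply_symm_apply]

private theorem injA_cont (τ : CD ≃ₜ CD) (hτ : ∀ x : CD, ‖(x : ℂ)‖ = 1 → τ x = x) :
    Continuous (ext τ) := by
  rw [← continuousOn_univ]
  have hu : (univ : Set ℂ) = closedBall (0 : ℂ) 1 ∪ {z | 1 ≤ ‖z‖} := by
    ext z
    simp only [mem_univ, mem_union, mem_closedBall_zero_iff, true_iff]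
    exact le_total _ _
  rw [hu]
  refine (continuousOn_ext τ).union_of_isClosed ?_ isClosed_closedBall
    (isClosed_le continuous_const continuous_norm)
  refine continuousOn_id.congr fun z hz => ?_
  rcases eq_or_lt_of_le (show 1 ≤ ‖z‖ from hz) with h1 | h1
  · have hz' : z ∈ closedBall (0 : ℂ) 1 := by
      rw [mem_closedBall_zero_iff, ← h1]
    have e1 : ext τ z = (τ ⟨z, hz'⟩ : ℂ) := ext_apply τ ⟨z, hz'⟩
    rw [e1, hτ ⟨z, hz'⟩ h1.symm]
    rfl
  · exact injA_out τ h1

theorem IsQC.eq_out {k k' : ℝ} {F F' : CD ≃ₜ CD} {μ μ' : ℂ → ℂ} (h : IsQC k F μ)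
    (h' : IsQC k' F' μ') {σ : CD ≃ₜ CD} (hσ : IsMob σ)
    (he : ∀ x : CD, ‖(x : ℂ)‖ = 1 → F' x = σ (F x)) {w w' : ℂ ≃ₜ ℂ} (hw : IsW k μ w)
    (hw' : IsW k' μ' w') : ∀ z, 1 ≤ ‖z‖ → w z = w' z := by
  classical
  obtain ⟨c, d, hcd, hσ⟩ := hσ
  set τ : CD ≃ₜ CD := (F.trans σ).trans F'.symm with hτ
  have hτ1 : ∀ x : CD, ‖(x : ℂ)‖ = 1 → τ x = x := fun x hx => by
    rw [hτ]
    simp only [Homeomorph.trans_apply]
    rw [← he x hx, Homeomorph.symm_apply_apply]
  have hτc := injA_cont τ hτ1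
  set W : ℂ → ℂ := fun z => w' (ext τ z) with hW
  have hWc : Continuous W := w'.continuous.comp hτc
  have hWout : ∀ z : ℂ, 1 < ‖z‖ → W z = w' z := fun z hz => by
    rw [hW]
    simp only
    rw [injA_out τ hz]
  set G : ℂ → ℂ := fun ζ => w' (ext F'.symm (mob c d ζ)) with hG
  have hmobm : MapsTo (mob c d) D D := fun z hz => by
    rw [mem_ball_zero_iff] at hz ⊢
    exact norm_mob_lt hcd hz
  have hGd : DifferentiableOn ℂ G D := by
    refine (injA_L h' hw').comp (g := fun y => w' (ext F'.symm y)) (f := mob c d) ?_ hmobm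
    intro z hz
    refine (hasDerivAt_mob hcd ?_).differentiableAt.differentiableWithinAt
    exact mob_denom_ne hcd (mem_ball_zero_iff.1 hz).le
  have hGi : InjOn G D := by
    intro x hx y hy hxy
    have h1 : ext F'.symm (mob c d x) = ext F'.symm (mob c d y) := w'.injective hxy
    have h2 := injOn_ext F'.symm (ball_subset_closedBall (hmobm hx))
      (ball_subset_closedBall (hmobm hy)) h1
    rw [← (mob_inv hcd (mem_ball_zero_iff.1 hx).le).1, h2,
      (mob_inv hcd (mem_ball_zero_iff.1 hy).le).1]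
  obtain ⟨R, hR⟩ : ∃ R, G '' D ⊆ closedBall 0 R := by
    obtain ⟨R, hR⟩ := ((isCompact_closedBall (0 : ℂ) 1).image
      w'.continuous).isBounded.subset_closedBall 0
    refine ⟨R, ?_⟩
    rintro _ ⟨z, hz, rfl⟩
    apply hR
    exact mem_image_of_mem _ (ball_subset_closedBall
      (injA_maps F'.symm (injA_symm h') (hmobm hz)))
  have hWG : ∀ z ∈ D, W z = G (ext F z) := fun z hz => by
    have hz' : z ∈ closedBall (0 : ℂ) 1 := ball_subset_closedBall hz
    have e1 : ext τ z = (τ ⟨z, hz'⟩ : ℂ) := ext_apply τ ⟨z, hz'⟩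
    have e2 : ext F z = (F ⟨z, hz'⟩ : ℂ) := ext_apply F ⟨z, hz'⟩
    rw [hW, hG]
    simp only
    rw [e1, e2, ← hσ, ext_apply F'.symm (σ (F ⟨z, hz'⟩))]
    rfl
  obtain ⟨a, b, hab, hba⟩ := h.wd
  have hFm : MapsTo (ext F) D D := injA_maps F (fun z hz => (h.pres z).2 hz)
  have hFc : ContinuousOn (ext F) D := (continuousOn_ext F).mono ball_subset_closedBall
  obtain ⟨hm1, hm2⟩ := injA_memLp h hab hGd hGi hR
  have hDm : MeasurableSet D := measurableSet_ball
  set A : ℂ → ℂ := D.piecewise (fun z => deriv G (ext F z) * a z)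
    (fun z => 1 + Tf (hh μ') z) with hA
  set B : ℂ → ℂ := D.indicator (fun z => deriv G (ext F z) * b z) with hB
  have hWD1 : WD D W A B := by
    refine (WD.holo_comp isOpen_ball isOpen_ball hab hFc hFm hGd).congr isOpen_ball ?_ ?_ ?_
    · rw [Filter.EventuallyEq, ae_restrict_iff' hDm]
      exact Filter.Eventually.of_forall fun z hz => (hWG z hz).symm
    · rw [Filter.EventuallyEq, ae_restrict_iff' hDm]
      refine Filter.Eventually.of_forall fun z hz => ?_
      rw [hA, piecewise_eq_of_mem _ _ _ hz]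
    · rw [Filter.EventuallyEq, ae_restrict_iff' hDm]
      refine Filter.Eventually.of_forall fun z hz => ?_
      rw [hB, indicator_of_mem hz]
  have hOo : IsOpen {z : ℂ | 1 < ‖z‖} := isOpen_lt continuous_const continuous_norm
  have hnD : ∀ z : ℂ, 1 ≤ ‖z‖ → z ∉ D := fun z hz hz2 => by
    rw [mem_ball_zero_iff] at hz2
    linarith
  have hWD2 : WD {z | 1 < ‖z‖} W A B := by
    refine (hw'.wd.mono hOo (subset_univ _)).congr hOo ?_ ?_ ?_
    · rw [Filter.EventuallyEq, ae_restrict_iff' hOo.measurableSet]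
      exact Filter.Eventually.of_forall fun z hz => (hWout z hz).symm
    · rw [Filter.EventuallyEq, ae_restrict_iff' hOo.measurableSet]
      refine Filter.Eventually.of_forall fun z hz => ?_
      rw [hA, piecewise_eq_of_notMem _ _ _ (hnD z (le_of_lt hz))]
    · rw [Filter.EventuallyEq, ae_restrict_iff' hOo.measurableSet]
      refine Filter.Eventually.of_forall fun z hz => ?_
      rw [hB, indicator_of_notMem (hnD z (le_of_lt hz))]
      exact hh_suppIn h'.bel h'.supp z (le_of_lt hz)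
  have hBm : MemLp B 2 (volume : Measure ℂ) := by
    rw [hB, memLp_indicator_iff_restrict hDm]
    exact hm2
  have hBl : L2loc univ B := fun K _ _ => hBm.restrict K
  have hAl : L2loc univ A := by
    intro K hK hKc
    have e1 : A = fun z => D.indicator (fun z => deriv G (ext F z) * a z) z +
        Dᶜ.indicator (fun z => 1 + Tf (hh μ') z) z := by
      ext z
      rw [hA]
      by_cases hz : z ∈ D
      · rw [piecewise_eq_of_mem _ _ _ hz, indicator_of_mem hz,
          indicator_of_notMem (notMem_compl_iff.2 hz), add_zero]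
      · rw [piecewise_eq_of_notMem _ _ _ hz, indicator_of_notMem hz,
          indicator_of_mem (mem_compl hz), zero_add]
    rw [e1]
    refine MemLp.add ?_ ?_
    · have h1 : MemLp (D.indicator (fun z => deriv G (ext F z) * a z)) 2
          (volume : Measure ℂ) := by
        rw [memLp_indicator_iff_restrict hDm]
        exact hm1
      exact h1.restrict K
    · exact (hw'.wd.la K (subset_univ _) hKc).indicator hDm.compl
  have hWD : WD univ W A B := glue_circle hWc hWD1 hWD2 hAl hBl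
  have hBA : B =ᵐ[volume] fun z => μ z * A z := by
    rw [ae_restrict_iff' hDm] at hba
    filter_upwards [hba] with z hz
    by_cases hzD : z ∈ D
    · rw [hB, hA, indicator_of_mem hzD, piecewise_eq_of_mem _ _ _ hzD, hz hzD]
      ring
    · rw [hB, indicator_of_notMem hzD, h.supp z (by
        rw [mem_ball_zero_iff] at hzD
        exact not_lt.1 hzD), zero_mul]
  have hinf : Tendsto (fun z => W z - z) (cocompact ℂ) (𝓝 0) := by
    refine hw'.inf.congr' ?_
    have h1 : (closedBall (0 : ℂ) 1)ᶜ ∈ cocompact ℂ :=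
      (isCompact_closedBall (0 : ℂ) 1).compl_mem_cocompact
    filter_upwards [h1] with z hz
    rw [mem_compl_iff, mem_closedBall_zero_iff, not_le] at hz
    rw [hWout z hz]
  obtain ⟨-, -, -, hfin⟩ := unique_sol h.bel h.supp hWc hWD hBA hinf
  have h1 : ∀ z : ℂ, 1 < ‖z‖ → w z = w' z := fun z hz => by
    rw [← hWout z hz, hfin z hz, hw.out 1 h.supp z hz]
  intro z hz
  have hcl : IsClosed {z : ℂ | w z = w' z} := isClosed_eq w.continuous w'.continuous
  have hsub : closure {z : ℂ | 1 < ‖z‖} ⊆ {z : ℂ | w z = w' z} :=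
    closure_minimal (fun z hz => h1 z hz) hcl
  apply hsub
  have h2 : {z : ℂ | 1 < ‖z‖} = (closedBall (0 : ℂ) 1)ᶜ := by
    ext z
    rw [mem_compl_iff, mem_closedBall_zero_iff, not_le]
    rfl
  rw [h2, closure_compl, interior_closedBall _ one_ne_zero, mem_compl_iff, mem_ball_zero_iff,
    not_lt]
  exact hz

end QC
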