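import Pool.Agent.Work.MP_217185_an.SchwN

/-! # SchwDef: the Schwarzian derivative of the plane solution outside the disc

`S f = f'''/f' - (3/2) (f''/f')²`.
* `schw_mob_left`, `schw_mob_right`: computation (locally, `f` holomorphic with `f' ≠ 0`).
* at infinity: for `|z| > 1`, `ω z = z + Cau h z`, `h = hh ν`, `Cau h z = (1/π) ∫ h/(z - ζ)`;
  `ω' → 1`, `z³ ω'' → 2 b₁`, `z⁴ ω''' → - 6 b₁`, `b₁ = (1/π) ∫ h`, so `z⁴ S ω z → - 6 b₁`
  (differentiate under the integral, or Cauchy estimates for `z Cau h z - b₁ = O(1/z)`).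
* `bers_eq`: `A = mob 1 z`, `ω` the plane solution for `pull 1 z μ`.  For `z ≠ 0` `mob_nat` gives
  `w ∘ A = M ∘ ω`, so `S w (A u) A'(u)² = S ω u` for `|u| > 1` away from the pole;
  multiply by `u⁴`, `u → ∞`: `A u → 1/conj z`, `u² A'(u) → (1 - ‖z‖²)/(conj z)²`, so
  `S w (1/conj z) (1 - ‖z‖²)² / (conj z)⁴ = - 6 (1/π) ∫ h_{pull 1 z μ} = - 6 bers μ z`. -/

open MeasureTheory Complex Set Metric Filter
open scoped Topology ENNReal NNReal ContDiff ComplexConjugate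

namespace QC

/-- Schwarzian derivative. -/
noncomputable def schw (f : ℂ → ℂ) (z : ℂ) : ℂ :=
  iteratedDeriv 3 f z / deriv f z - 3 / 2 * (iteratedDeriv 2 f z / deriv f z) ^ 2

variable {k : ℝ} {μ : ℂ → ℂ} {w : ℂ ≃ₜ ℂ}

end QC
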