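import Pool.Agent.Work.MP_217185_an.Defs

/-! # SchwPre: a holomorphic homeomorphism has nonzero derivative (auxiliary file for SchwN1, SchwB) -/

open MeasureTheory Complex Set Metric Filter
open scoped Topology ENNReal NNReal ContDiff ComplexConjugate

namespace QC

/-- a homeomorphism of the plane has nonzero derivative at every point at which it is analytic. -/
theorem homeo_deriv_ne_zero {w : ℂ ≃ₜ ℂ} {z : ℂ} (h : AnalyticAt ℂ w z) : deriv w z ≠ 0 := by
  rcases h.deriv.eventually_eq_zero_or_eventually_ne_zero with h0 | h0
  · exfalso
    obtain ⟨r, hr, hball⟩ := Metric.eventually_nhds_iff_ball.1 (h0.and h.eventually_analyticAt)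
    have hconst : ∀ y ∈ ball z r, w y = w z := fun y hy =>
      isOpen_ball.is_const_of_deriv_eq_zero (convex_ball z r).isPreconnected
        (fun u hu => (hball u hu).2.differentiableAt.differentiableWithinAt)
        (fun u hu => (hball u hu).1) hy (mem_ball_self hr)
    have h1 : z + (r / 2 : ℝ) ∈ ball z r := by
      rw [mem_ball, dist_eq_norm, add_sub_cancel_left, Complex.norm_real, Real.norm_of_nonneg (by positivity)]
      linarith
    have h2 := w.injective (hconst _ h1)
    have h3 : ((r / 2 : ℝ) : ℂ) = 0 := by
      have : z + ((r / 2 : ℝ) : ℂ) = z + 0 := by rw [add_zero]; exact h2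
      exact add_left_cancel this
    rw [Complex.ofReal_eq_zero] at h3
    linarith
  · have hs : AnalyticAt ℂ w.symm (w z) := by
      apply analyticAt_of_differentiable_on_punctured_nhds_of_continuousAt
      · have h1 : Tendsto w.symm (𝓝[≠] (w z)) (𝓝[≠] z) := by
          apply tendsto_nhdsWithin_of_tendsto_nhds_of_eventually_within
          · have := w.symm.continuous.tendsto (w z)
            rw [w.symm_apply_apply] at this
            exact this.mono_left nhdsWithin_le_nhds
          · filter_upwards [self_mem_nhdsWithin] with y hy
            intro hc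
            apply hy
            rw [mem_singleton_iff] at hc ⊢
            rw [← hc, w.apply_symm_apply]
        have h2 : ∀ᶠ u in 𝓝[≠] z, AnalyticAt ℂ w u :=
          h.eventually_analyticAt.filter_mono nhdsWithin_le_nhds
        filter_upwards [h1.eventually h0, h1.eventually h2] with y hy1 hy2
        exact (HasDerivAt.of_local_left_inverse w.symm.continuous.continuousAt
          hy2.differentiableAt.hasDerivAt hy1
          (Eventually.of_forall fun y => w.apply_symm_apply y)).differentiableAt
      · exact w.symm.continuous.continuousAt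
    have h1 : HasDerivAt (fun u => w.symm (w u)) (deriv w.symm (w z) * deriv w z) z :=
      hs.differentiableAt.hasDerivAt.comp z h.differentiableAt.hasDerivAt
    have h2 : (fun u => w.symm (w u)) = fun u => u := by
      funext u
      exact w.symm_apply_apply u
    rw [h2] at h1
    have h3 := h1.unique (hasDerivAt_id' z)
    intro h4
    rw [h4, mul_zero] at h3
    exact zero_ne_one h3

/-- computation of the Schwarzian derivative from first and second derivatives near a point. -/
theorem iteratedDeriv_of_hasDerivAt {F P P2 : ℂ → ℂ} {P3 z : ℂ}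
    (h1 : ∀ᶠ u in 𝓝 z, HasDerivAt F (P u) u) (h2 : ∀ᶠ u in 𝓝 z, HasDerivAt P (P2 u) u)
    (h3 : HasDerivAt P2 P3 z) :
    deriv F z = P z ∧ iteratedDeriv 2 F z = P2 z ∧ iteratedDeriv 3 F z = P3 := by
  have e1 : deriv F =ᶠ[𝓝 z] P := h1.mono fun u hu => hu.deriv
  have e2 : deriv (deriv F) =ᶠ[𝓝 z] P2 := by
    have := e1.deriv
    exact this.trans (h2.mono fun u hu => hu.deriv)
  have e3 : deriv (deriv (deriv F)) z = P3 := by
    rw [e2.deriv_eq]
    exact h3.deriv
  refine ⟨e1.self_of_nhds, ?_, ?_⟩
  · rw [iteratedDeriv_succ, iteratedDeriv_one]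
    exact e2.self_of_nhds
  · rw [iteratedDeriv_succ, iteratedDeriv_succ, iteratedDeriv_one]
    exact e3

end QC
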