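import Pool.Agent.Work.MP_217185_an.SchwN
import Pool.Agent.Work.MP_217185_an.SchwDef
import Pool.Agent.Work.MP_217185_an.SchwPre

/-! # SchwA: the Schwarzian derivative of the plane solution outside the disc

`S f = f'''/f' - (3/2) (f''/f')²`.
* `schw_mob_left`, `schw_mob_right`: computation (locally, `f` holomorphic with `f' ≠ 0`).
* at infinity: for `|z| > 1`, `ω z = z + Cau h z`, `h = hh ν`, `Cau h z = (1/π) ∫ h/(z - ζ)`;
  `ω' → 1`, `z³ ω'' → 2 b₁`, `z⁴ ω''' → - 6 b₁`, `b₁ = (1/π) ∫ h`, so `z⁴ S ω z → - 6 b₁`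
  (differentiate under the integral, or Cauchy estimates for `z Cau h z - b₁ = O(1/z)`).
* `bers_eq`: `A = mob 1 z`, `ω` the plane solution for `pull 1 z μ`.  For `z ≠ 0` `mob_nat` gives
  `w ∘ A = M ∘ ω`, so `S w (A u) A'(u)² = S ω u` for `|u| > 1` away from the pole;
  multiply by `u⁴`, `u → ∞`: `A u → 1/conj z`, `u² A'(u) → (1 - ‖z‖²)/(conj z)²`, so
  `S w (1/conj z) (1 - ‖z‖²)² / (conj z)⁴ = - 6 (1/π) ∫ h_{pull 1 z μ} = - 6 bers μ z`. -/

open MeasureTheory Complex Set Metric Filter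
open scoped Topology ENNReal NNReal ContDiff ComplexConjugate

namespace QC

private theorem sa_derivs {f : ℂ → ℂ} {z : ℂ} (hf : AnalyticAt ℂ f z) :
    (∀ᶠ u in 𝓝 z, HasDerivAt f (deriv f u) u) ∧
    (∀ᶠ u in 𝓝 z, HasDerivAt (deriv f) (deriv (deriv f) u) u) ∧
    HasDerivAt (deriv (deriv f)) (deriv (deriv (deriv f)) z) z :=
  ⟨hf.eventually_analyticAt.mono fun _ hu => hu.differentiableAt.hasDerivAt,
    hf.eventually_analyticAt.mono fun _ hu => hu.deriv.differentiableAt.hasDerivAt,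
    hf.deriv.deriv.differentiableAt.hasDerivAt⟩

private theorem sa_schw {f : ℂ → ℂ} {z : ℂ} (hf : AnalyticAt ℂ f z) :
    schw f z = deriv (deriv (deriv f)) z / deriv f z
      - 3 / 2 * (deriv (deriv f) z / deriv f z) ^ 2 := by
  obtain ⟨h1, h2, h3⟩ := sa_derivs hf
  obtain ⟨-, e2, e3⟩ := iteratedDeriv_of_hasDerivAt h1 h2 h3
  unfold schw
  rw [e2, e3]

theorem schw_mob_left {f : ℂ → ℂ} {z c d e : ℂ} (hf : AnalyticAt ℂ f z) (h1 : deriv f z ≠ 0)
    (hd : d ≠ 0) (he : f z ≠ e) : schw (fun u => c + d / (f u - e)) z = schw f z := by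
  rw [sa_schw hf]
  obtain ⟨d1, d2, d3⟩ := sa_derivs hf
  set f1 := deriv f with hf1
  set f2 := deriv f1 with hf2
  set f3 := deriv f2 z with hf3
  have hne : ∀ᶠ u in 𝓝 z, f u - e ≠ 0 := by
    have : ContinuousAt (fun u => f u - e) z := hf.continuousAt.sub continuousAt_const
    exact this.eventually_ne (sub_ne_zero.2 he)
  have hz := sub_ne_zero.2 he
  have g1 : ∀ᶠ u in 𝓝 z, HasDerivAt (fun u => c + d / (f u - e))
      (-d * f1 u / (f u - e) ^ 2) u := by
    filter_upwards [d1, hne] with u hu hu0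
    have t : HasDerivAt (fun u => c + d / (f u - e))
        ((0 * (f u - e) - d * f1 u) / (f u - e) ^ 2) u :=
      ((hasDerivAt_const u d).div (hu.sub_const e) hu0).const_add c
    exact t.congr_deriv (by ring)
  have g2 : ∀ᶠ u in 𝓝 z, HasDerivAt (fun u => -d * f1 u / (f u - e) ^ 2)
      (-d * f2 u / (f u - e) ^ 2 + 2 * d * f1 u ^ 2 / (f u - e) ^ 3) u := by
    filter_upwards [d1, d2, hne] with u hu hu2 hu0
    have t0 : HasDerivAt (fun u => (f u - e) ^ 2) (2 * (f u - e) * f1 u) u := by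
      have t := (hu.sub_const e).pow 2
      exact t.congr_deriv (by norm_num)
    have t : HasDerivAt (fun u => -d * f1 u / (f u - e) ^ 2)
        ((-d * f2 u * (f u - e) ^ 2 - -d * f1 u * (2 * (f u - e) * f1 u)) /
          ((f u - e) ^ 2) ^ 2) u :=
      (hu2.const_mul (-d)).div t0 (pow_ne_zero 2 hu0)
    exact t.congr_deriv (by field_simp; ring)
  have g3 : HasDerivAt (fun u => -d * f2 u / (f u - e) ^ 2 + 2 * d * f1 u ^ 2 / (f u - e) ^ 3)
      (-d * f3 / (f z - e) ^ 2 + 6 * d * f1 z * f2 z / (f z - e) ^ 3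
        - 6 * d * f1 z ^ 3 / (f z - e) ^ 4) z := by
    have hu := d1.self_of_nhds
    have hu2 := d2.self_of_nhds
    have s0 : HasDerivAt (fun u => (f u - e) ^ 2) (2 * (f z - e) * f1 z) z := by
      have t := (hu.sub_const e).pow 2
      exact t.congr_deriv (by norm_num)
    have s1 : HasDerivAt (fun u => (f u - e) ^ 3) (3 * (f z - e) ^ 2 * f1 z) z := by
      have t := (hu.sub_const e).pow 3
      exact t.congr_deriv (by norm_num)
    have s2 : HasDerivAt (fun u => f1 u ^ 2) (2 * f1 z * f2 z) z := by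
      have t := hu2.pow 2
      exact t.congr_deriv (by norm_num)
    have t1 : HasDerivAt (fun u => -d * f2 u / (f u - e) ^ 2)
        ((-d * f3 * (f z - e) ^ 2 - -d * f2 z * (2 * (f z - e) * f1 z)) /
          ((f z - e) ^ 2) ^ 2) z :=
      (d3.const_mul (-d)).div s0 (pow_ne_zero 2 hz)
    have t2 : HasDerivAt (fun u => 2 * d * f1 u ^ 2 / (f u - e) ^ 3)
        ((2 * d * (2 * f1 z * f2 z) * (f z - e) ^ 3
          - 2 * d * f1 z ^ 2 * (3 * (f z - e) ^ 2 * f1 z)) / ((f z - e) ^ 3) ^ 2) z :=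
      (s2.const_mul (2 * d)).div s1 (pow_ne_zero 3 hz)
    have t : HasDerivAt (fun u => -d * f2 u / (f u - e) ^ 2 + 2 * d * f1 u ^ 2 / (f u - e) ^ 3)
        _ z := t1.add t2
    exact t.congr_deriv (by field_simp; ring)
  obtain ⟨q1, q2, q3⟩ := iteratedDeriv_of_hasDerivAt g1 g2 g3
  unfold schw
  rw [q1, q2, q3]
  field_simp
  ring

theorem schw_mob_right {f : ℂ → ℂ} {z a b : ℂ} (h : ‖b‖ < ‖a‖) (hp : conj b * z + conj a ≠ 0)
    (hf : AnalyticAt ℂ f (mob a b z)) (h1 : deriv f (mob a b z) ≠ 0) :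
    schw (fun u => f (mob a b u)) z = schw f (mob a b z) * deriv (mob a b) z ^ 2 := by
  rw [sa_schw hf]
  obtain ⟨d1, d2, d3⟩ := sa_derivs hf
  set f1 := deriv f with hf1
  set f2 := deriv f1 with hf2
  set δ : ℂ := ((‖a‖ ^ 2 - ‖b‖ ^ 2 : ℝ) : ℂ) with hδ
  have hδ0 : δ ≠ 0 := by
    rw [hδ, Complex.ofReal_ne_zero]
    have : 0 ≤ ‖b‖ := norm_nonneg b
    nlinarith
  have hm := hasDerivAt_mob h hp
  rw [hm.deriv]
  have hne : ∀ᶠ u in 𝓝 z, conj b * u + conj a ≠ 0 := by
    have : ContinuousAt (fun u => conj b * u + conj a) z :=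
      (continuousAt_const.mul continuousAt_id).add continuousAt_const
    exact this.eventually_ne hp
  have hcont : Tendsto (mob a b) (𝓝 z) (𝓝 (mob a b z)) := hm.continuousAt
  have hq : ∀ u, HasDerivAt (fun u => conj b * u + conj a) (conj b) u := fun u => by
    simpa using ((hasDerivAt_id u).const_mul (conj b)).add_const (conj a)
  have g1 : ∀ᶠ u in 𝓝 z, HasDerivAt (fun u => f (mob a b u))
      (f1 (mob a b u) * (δ / (conj b * u + conj a) ^ 2)) u := by
    filter_upwards [hcont.eventually d1, hne] with u hu hu0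
    exact hu.comp u (hasDerivAt_mob h hu0)
  have g2 : ∀ᶠ u in 𝓝 z, HasDerivAt
      (fun u => f1 (mob a b u) * (δ / (conj b * u + conj a) ^ 2))
      (f2 (mob a b u) * (δ / (conj b * u + conj a) ^ 2) ^ 2
        - 2 * conj b * δ * f1 (mob a b u) / (conj b * u + conj a) ^ 3) u := by
    filter_upwards [hcont.eventually d2, hne] with u hu hu0
    have t1 : HasDerivAt (fun u => f1 (mob a b u))
        (f2 (mob a b u) * (δ / (conj b * u + conj a) ^ 2)) u :=
      hu.comp u (hasDerivAt_mob h hu0)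
    have t2 : HasDerivAt (fun u => (conj b * u + conj a) ^ 2)
        (2 * (conj b * u + conj a) * conj b) u := by
      have t := (hq u).pow 2
      exact t.congr_deriv (by norm_num)
    have t3 : HasDerivAt (fun u => δ / (conj b * u + conj a) ^ 2)
        ((0 * (conj b * u + conj a) ^ 2 - δ * (2 * (conj b * u + conj a) * conj b)) /
          ((conj b * u + conj a) ^ 2) ^ 2) u :=
      (hasDerivAt_const u δ).div t2 (pow_ne_zero 2 hu0)
    have t : HasDerivAt (fun u => f1 (mob a b u) * (δ / (conj b * u + conj a) ^ 2)) _ u :=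
      t1.mul t3
    exact t.congr_deriv (by field_simp; ring)
  have g3 : HasDerivAt (fun u => f2 (mob a b u) * (δ / (conj b * u + conj a) ^ 2) ^ 2
        - 2 * conj b * δ * f1 (mob a b u) / (conj b * u + conj a) ^ 3)
      (deriv f2 (mob a b z) * (δ / (conj b * z + conj a) ^ 2) ^ 3
        - 6 * conj b * δ ^ 2 * f2 (mob a b z) / (conj b * z + conj a) ^ 5
        + 6 * conj b ^ 2 * δ * f1 (mob a b z) / (conj b * z + conj a) ^ 4) z := by
    have t1 : HasDerivAt (fun u => f1 (mob a b u))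
        (f2 (mob a b z) * (δ / (conj b * z + conj a) ^ 2)) z :=
      (hcont.eventually d2).self_of_nhds.comp z hm
    have t2 : HasDerivAt (fun u => f2 (mob a b u))
        (deriv f2 (mob a b z) * (δ / (conj b * z + conj a) ^ 2)) z := d3.comp z hm
    have p2 : HasDerivAt (fun u => (conj b * u + conj a) ^ 2)
        (2 * (conj b * z + conj a) * conj b) z := by
      have t := (hq z).pow 2
      exact t.congr_deriv (by norm_num)
    have p3 : HasDerivAt (fun u => (conj b * u + conj a) ^ 3)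
        (3 * (conj b * z + conj a) ^ 2 * conj b) z := by
      have t := (hq z).pow 3
      exact t.congr_deriv (by norm_num)
    have p4 : HasDerivAt (fun u => δ / (conj b * u + conj a) ^ 2)
        ((0 * (conj b * z + conj a) ^ 2 - δ * (2 * (conj b * z + conj a) * conj b)) /
          ((conj b * z + conj a) ^ 2) ^ 2) z :=
      (hasDerivAt_const z δ).div p2 (pow_ne_zero 2 hp)
    have p5 : HasDerivAt (fun u => (δ / (conj b * u + conj a) ^ 2) ^ 2)
        (2 * (δ / (conj b * z + conj a) ^ 2) *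
          ((0 * (conj b * z + conj a) ^ 2 - δ * (2 * (conj b * z + conj a) * conj b)) /
          ((conj b * z + conj a) ^ 2) ^ 2)) z := by
      have t := p4.pow 2
      exact t.congr_deriv (by norm_num)
    have s1 : HasDerivAt (fun u => f2 (mob a b u) * (δ / (conj b * u + conj a) ^ 2) ^ 2) _ z :=
      t2.mul p5
    have s2 : HasDerivAt (fun u => 2 * conj b * δ * f1 (mob a b u) / (conj b * u + conj a) ^ 3)
        _ z := (t1.const_mul (2 * conj b * δ)).div p3 (pow_ne_zero 3 hp)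
    have t : HasDerivAt (fun u => f2 (mob a b u) * (δ / (conj b * u + conj a) ^ 2) ^ 2
        - 2 * conj b * δ * f1 (mob a b u) / (conj b * u + conj a) ^ 3) _ z := s1.sub s2
    exact t.congr_deriv (by field_simp; ring)
  obtain ⟨q1, q2, q3⟩ := iteratedDeriv_of_hasDerivAt g1 g2 g3
  unfold schw
  rw [q1, q2, q3]
  field_simp
  ring

variable {k : ℝ} {μ : ℂ → ℂ} {w : ℂ ≃ₜ ℂ}

end QC
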