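import Pool.Agent.Work.MP_217185_an.SchwN
import Pool.Agent.Work.MP_217185_an.SchwDef
import Pool.Agent.Work.MP_217185_an.SchwPre

/-! # SchwB: the Schwarzian derivative of the plane solution outside the disc

`S f = f'''/f' - (3/2) (f''/f')²`.
* `schw_mob_left`, `schw_mob_right`: computation (locally, `f` holomorphic with `f' ≠ 0`).
* at infinity: for `|z| > 1`, `ω z = z + Cau h z`, `h = hh ν`, `Cau h z = (1/π) ∫ h/(z - ζ)`;
  `ω' → 1`, `z³ ω'' → 2 b₁`, `z⁴ ω''' → - 6 b₁`, `b₁ = (1/π) ∫ h`, so `z⁴ S ω z → - 6 b₁`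
  (differentiate under the integral, or Cauchy estimates for `z Cau h z - b₁ = O(1/z)`).
* `bers_eq`: `A = mob 1 z`, `ω` the plane solution for `pull 1 z μ`.  For `z ≠ 0` `mob_nat` gives
  `w ∘ A = M ∘ ω`, so `S w (A u) A'(u)² = S ω u` for `|u| > 1` away from the pole;
  multiply by `u⁴`, `u → ∞`: `A u → 1/conj z`, `u² A'(u) → (1 - ‖z‖²)/(conj z)²`, so
  `S w (1/conj z) (1 - ‖z‖²)² / (conj z)⁴ = - 6 (1/π) ∫ h_{pull 1 z μ} = - 6 bers μ z`. -/

open MeasureTheory Complex Set Metric Filter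
open scoped Topology ENNReal NNReal ContDiff ComplexConjugate

namespace QC

variable {k : ℝ} {μ : ℂ → ℂ} {w : ℂ ≃ₜ ℂ}

/-- `w` is holomorphic with nonzero derivative outside the closed disc. -/
theorem IsW.holo_out (hμ : Bel k μ) (hs : SuppIn 1 μ) (hw : IsW k μ w) {z : ℂ} (hz : 1 < ‖z‖) :
    AnalyticAt ℂ w z ∧ deriv w z ≠ 0 := by
  have hopen : IsOpen {z : ℂ | 1 < ‖z‖} := isOpen_lt continuous_const continuous_norm
  have h1 : AnalyticAt ℂ (fun z => z + Cau (hh μ) z) z :=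
    analyticAt_id.add ((cau_holo (hh_memLp hμ hs) (hh_suppIn hμ hs)).analyticAt
      (hopen.mem_nhds hz))
  have h2 : AnalyticAt ℂ w z := h1.congr (by
    filter_upwards [hopen.mem_nhds hz] with u hu
    exact (hw.out 1 hs u hu).symm)
  exact ⟨h2, homeo_deriv_ne_zero h2⟩

private theorem sb_inv {x : ℂ} (hx : x ≠ 0) : HasDerivAt (fun x : ℂ => x⁻¹) (-(x⁻¹) ^ 2) x :=
  (hasDerivAt_inv hx).congr_deriv (by rw [inv_pow])

private theorem sb_pow {x : ℂ} (hx : x ≠ 0) (n : ℕ) :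
    HasDerivAt (fun x : ℂ => (x⁻¹) ^ (n + 1)) (-((n : ℂ) + 1) * (x⁻¹) ^ (n + 2)) x := by
  have t := (sb_inv hx).pow (n + 1)
  refine t.congr_deriv ?_
  simp only [Nat.add_sub_cancel]
  push_cast
  ring

/-- derivatives of `x + g (1/x)`. -/
private theorem sb_chain {g : ℂ → ℂ} {W : ℂ → ℂ} {z : ℂ} (hz : z ≠ 0) (hg : AnalyticAt ℂ g z⁻¹)
    (hW : ∀ᶠ x in 𝓝 z, W x = x + g x⁻¹) :
    deriv W z = 1 - deriv g z⁻¹ * z⁻¹ ^ 2 ∧
    iteratedDeriv 2 W z = deriv (deriv g) z⁻¹ * z⁻¹ ^ 4 + 2 * (deriv g z⁻¹ * z⁻¹ ^ 3) ∧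
    iteratedDeriv 3 W z = - deriv (deriv (deriv g)) z⁻¹ * z⁻¹ ^ 6
      - 6 * deriv (deriv g) z⁻¹ * z⁻¹ ^ 5 - 6 * deriv g z⁻¹ * z⁻¹ ^ 4 := by
  have hne : ∀ᶠ x in 𝓝 z, x ≠ 0 := isOpen_ne.mem_nhds hz
  have hcont : Tendsto (fun x : ℂ => x⁻¹) (𝓝 z) (𝓝 z⁻¹) := (sb_inv hz).continuousAt
  have han : ∀ᶠ x in 𝓝 z, AnalyticAt ℂ g x⁻¹ := hcont.eventually hg.eventually_analyticAt
  have c1 : ∀ x, x ≠ 0 → AnalyticAt ℂ g x⁻¹ → HasDerivAt (fun x => g x⁻¹)
      (deriv g x⁻¹ * (-(x⁻¹) ^ 2)) x := fun x hx h =>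
    HasDerivAt.comp x h.differentiableAt.hasDerivAt (sb_inv hx)
  have c2 : ∀ x, x ≠ 0 → AnalyticAt ℂ g x⁻¹ → HasDerivAt (fun x => deriv g x⁻¹)
      (deriv (deriv g) x⁻¹ * (-(x⁻¹) ^ 2)) x := fun x hx h =>
    HasDerivAt.comp x h.deriv.differentiableAt.hasDerivAt (sb_inv hx)
  have c3 : HasDerivAt (fun x => deriv (deriv g) x⁻¹)
      (deriv (deriv (deriv g)) z⁻¹ * (-(z⁻¹) ^ 2)) z :=
    HasDerivAt.comp z hg.deriv.deriv.differentiableAt.hasDerivAt (sb_inv hz)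
  have h1 : ∀ᶠ x in 𝓝 z, HasDerivAt W (1 - deriv g x⁻¹ * x⁻¹ ^ 2) x := by
    filter_upwards [hW.eventually_nhds, hne, han] with x hx hx0 hxa
    have t : HasDerivAt (fun x => x + g x⁻¹) (1 + deriv g x⁻¹ * (-(x⁻¹) ^ 2)) x :=
      (hasDerivAt_id' x).add (c1 x hx0 hxa)
    exact (t.congr_of_eventuallyEq hx).congr_deriv (by ring)
  have h2 : ∀ᶠ x in 𝓝 z, HasDerivAt (fun x => 1 - deriv g x⁻¹ * x⁻¹ ^ 2)
      (deriv (deriv g) x⁻¹ * x⁻¹ ^ 4 + 2 * (deriv g x⁻¹ * x⁻¹ ^ 3)) x := by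
    filter_upwards [hne, han] with x hx0 hxa
    have t : HasDerivAt (fun x => 1 - deriv g x⁻¹ * x⁻¹ ^ 2) _ x :=
      ((c2 x hx0 hxa).mul (sb_pow hx0 1)).const_sub 1
    exact t.congr_deriv (by push_cast; ring)
  have h3 : HasDerivAt (fun x => deriv (deriv g) x⁻¹ * x⁻¹ ^ 4 + 2 * (deriv g x⁻¹ * x⁻¹ ^ 3))
      (- deriv (deriv (deriv g)) z⁻¹ * z⁻¹ ^ 6
        - 6 * deriv (deriv g) z⁻¹ * z⁻¹ ^ 5 - 6 * deriv g z⁻¹ * z⁻¹ ^ 4) z := by
    have t : HasDerivAt (fun x => deriv (deriv g) x⁻¹ * x⁻¹ ^ 4 + 2 * (deriv g x⁻¹ * x⁻¹ ^ 3))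
        _ z := (c3.mul (sb_pow hz 3)).add (((c2 z hz hg).mul (sb_pow hz 2)).const_mul 2)
    exact t.congr_deriv (by push_cast; ring)
  exact iteratedDeriv_of_hasDerivAt h1 h2 h3

theorem tendsto_schw (hμ : Bel k μ) (hs : SuppIn 1 μ) (hw : IsW k μ w) :
    Tendsto (fun z => z ^ 4 * schw w z) (cocompact ℂ)
      (𝓝 (-6 * ((1 / (Real.pi : ℂ)) * ∫ ζ, hh μ ζ))) := by
  set b₁ : ℂ := (1 / (Real.pi : ℂ)) * ∫ ζ, hh μ ζ with hb₁
  have hM := hh_memLp hμ hs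
  have hS := hh_suppIn hμ hs
  have hopen : IsOpen {z : ℂ | 1 < ‖z‖} := isOpen_lt continuous_const continuous_norm
  have hinv : Tendsto (fun u : ℂ => u⁻¹) (𝓝[≠] 0) (cocompact ℂ) := by
    rw [← Metric.cobounded_eq_cocompact]
    exact tendsto_inv₀_nhdsNE_zero
  have hinv' : Tendsto (fun u : ℂ => u⁻¹) (cocompact ℂ) (𝓝 0) := by
    rw [← Metric.cobounded_eq_cocompact]
    exact tendsto_inv₀_cobounded
  have hbig : ∀ᶠ z in cocompact ℂ, 1 < ‖z‖ :=
    (tendsto_norm_cocompact_atTop (E := ℂ)).eventually (eventually_gt_atTop 1)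
  set g : ℂ → ℂ := Function.update (fun u => Cau (hh μ) u⁻¹) 0 0 with hg
  have hg0 : g 0 = 0 := by simp [hg]
  have hgne : ∀ u, u ≠ 0 → g u = Cau (hh μ) u⁻¹ := fun u hu => by
    simp [hg, Function.update_of_ne hu]
  have hgc : ContinuousAt g 0 := by
    rw [continuousAt_iff_punctured_nhds, hg0]
    refine ((tendsto_cau hM hS).comp hinv).congr' ?_
    filter_upwards [self_mem_nhdsWithin] with u hu
    exact (hgne u hu).symm
  have hgan : AnalyticAt ℂ g 0 := by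
    apply analyticAt_of_differentiable_on_punctured_nhds_of_continuousAt _ hgc
    filter_upwards [hinv.eventually hbig, self_mem_nhdsWithin] with u hu hu0
    have t : DifferentiableAt ℂ (fun u => Cau (hh μ) u⁻¹) u :=
      DifferentiableAt.comp (g := Cau (hh μ)) u
        ((cau_holo hM hS).differentiableAt (hopen.mem_nhds hu)) (sb_inv hu0).differentiableAt
    refine t.congr_of_eventuallyEq ?_
    filter_upwards [isOpen_ne.mem_nhds hu0] with v hv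
    exact hgne v hv
  have hg1 : deriv g 0 = b₁ := by
    have h1 : Tendsto (slope g 0) (𝓝[≠] 0) (𝓝 (deriv g 0)) :=
      hasDerivAt_iff_tendsto_slope.1 hgan.differentiableAt.hasDerivAt
    have h2 : Tendsto (slope g 0) (𝓝[≠] 0) (𝓝 b₁) := by
      refine ((tendsto_mul_cau hM hS).comp hinv).congr' ?_
      filter_upwards [self_mem_nhdsWithin] with u hu
      simp only [Function.comp_apply]
      rw [slope_def_field, hg0, sub_zero, sub_zero, hgne u hu]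
      rw [div_eq_mul_inv, mul_comm]
    exact tendsto_nhds_unique h1 h2
  set Φ : ℂ → ℂ := fun u => (-(u ^ 2) * deriv (deriv (deriv g)) u - 6 * u * deriv (deriv g) u
    - 6 * deriv g u) / (1 - u ^ 2 * deriv g u)
    - 3 / 2 * ((u ^ 2 * deriv (deriv g) u + 2 * u * deriv g u) / (1 - u ^ 2 * deriv g u)) ^ 2
    with hΦ
  have hΦc : ContinuousAt Φ 0 := by
    have c1 : ContinuousAt (deriv g) 0 := hgan.deriv.continuousAt
    have c2 : ContinuousAt (deriv (deriv g)) 0 := hgan.deriv.deriv.continuousAt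
    have c3 : ContinuousAt (deriv (deriv (deriv g))) 0 := hgan.deriv.deriv.deriv.continuousAt
    have ci : ContinuousAt (fun u : ℂ => u) 0 := continuousAt_id
    have cd : ContinuousAt (fun u : ℂ => 1 - u ^ 2 * deriv g u) 0 :=
      continuousAt_const.sub ((ci.pow 2).mul c1)
    have hd : (1 : ℂ) - 0 ^ 2 * deriv g 0 ≠ 0 := by simp
    have hn1 : ContinuousAt (fun u : ℂ => -(u ^ 2) * deriv (deriv (deriv g)) u
        - 6 * u * deriv (deriv g) u - 6 * deriv g u) 0 :=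
      ((((ci.pow 2).neg).mul c3).sub ((continuousAt_const.mul ci).mul c2)).sub
        (continuousAt_const.mul c1)
    have hn2 : ContinuousAt (fun u : ℂ => u ^ 2 * deriv (deriv g) u + 2 * u * deriv g u) 0 :=
      ((ci.pow 2).mul c2).add ((continuousAt_const.mul ci).mul c1)
    exact (hn1.div cd hd).sub (continuousAt_const.mul ((hn2.div cd hd).pow 2))
  have hΦ0 : Φ 0 = -6 * b₁ := by
    simp [hΦ, hg1]
  rw [← hΦ0]
  refine (hΦc.tendsto.comp hinv').congr' ?_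
  filter_upwards [hbig, hinv'.eventually hgan.eventually_analyticAt] with z hz hza
  have hz0 : z ≠ 0 := by
    rintro rfl
    rw [norm_zero] at hz
    linarith
  have hW : ∀ᶠ x in 𝓝 z, w x = x + g x⁻¹ := by
    filter_upwards [hopen.mem_nhds hz, isOpen_ne.mem_nhds hz0] with x hx hx0
    rw [hgne _ (inv_ne_zero hx0), inv_inv]
    exact hw.out 1 hs x hx
  obtain ⟨q1, q2, q3⟩ := sb_chain hz0 hza hW
  have hd0 : deriv w z ≠ 0 := (IsW.holo_out hμ hs hw hz).2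
  rw [q1] at hd0
  simp only [Function.comp_apply, hΦ, schw]
  rw [q1, q2, q3]
  set v := z⁻¹ with hv
  have hzv : z = v⁻¹ := by rw [hv, inv_inv]
  have hv0 : v ≠ 0 := inv_ne_zero hz0
  have hd1 : 1 - v ^ 2 * deriv g v ≠ 0 := by
    rw [mul_comm]
    exact hd0
  rw [hzv, mul_comm (deriv g v) (v ^ 2)]
  field_simp

theorem bers_zero (hμ : Bel k μ) (hs : SuppIn 1 μ) :
    bers μ 0 = (1 / (Real.pi : ℂ)) * ∫ ζ, hh μ ζ := by
  unfold bers
  rw [pull_one_zero hs]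

end QC
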