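import Pool.Agent.Work.MP_217185_an.SchwN
import Pool.Agent.Work.MP_217185_an.SchwA
import Pool.Agent.Work.MP_217185_an.SchwB

/-! # SchwC: the Schwarzian derivative of the plane solution outside the disc

`S f = f'''/f' - (3/2) (f''/f')²`.
* `schw_mob_left`, `schw_mob_right`: computation (locally, `f` holomorphic with `f' ≠ 0`).
* at infinity: for `|z| > 1`, `ω z = z + Cau h z`, `h = hh ν`, `Cau h z = (1/π) ∫ h/(z - ζ)`;
  `ω' → 1`, `z³ ω'' → 2 b₁`, `z⁴ ω''' → - 6 b₁`, `b₁ = (1/π) ∫ h`, so `z⁴ S ω z → - 6 b₁`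
  (differentiate under the integral, or Cauchy estimates for `z Cau h z - b₁ = O(1/z)`).
* `bers_eq`: `A = mob 1 z`, `ω` the plane solution for `pull 1 z μ`.  For `z ≠ 0` `mob_nat` gives
  `w ∘ A = M ∘ ω`, so `S w (A u) A'(u)² = S ω u` for `|u| > 1` away from the pole;
  multiply by `u⁴`, `u → ∞`: `A u → 1/conj z`, `u² A'(u) → (1 - ‖z‖²)/(conj z)²`, so
  `S w (1/conj z) (1 - ‖z‖²)² / (conj z)⁴ = - 6 (1/π) ∫ h_{pull 1 z μ} = - 6 bers μ z`. -/

open MeasureTheory Complex Set Metric Filter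
open scoped Topology ENNReal NNReal ContDiff ComplexConjugate

namespace QC

variable {k : ℝ} {μ : ℂ → ℂ} {w : ℂ ≃ₜ ℂ}

private theorem sc_congr {f g : ℂ → ℂ} {z : ℂ} (h : f =ᶠ[𝓝 z] g) : schw f z = schw g z := by
  unfold schw
  rw [h.iteratedDeriv_eq, h.iteratedDeriv_eq, h.deriv_eq]

private theorem sc_cont {f : ℂ → ℂ} {z : ℂ} (h : AnalyticAt ℂ f z) (h0 : deriv f z ≠ 0) :
    ContinuousAt (schw f) z := by
  have e2 : iteratedDeriv 2 f = deriv (deriv f) := by
    rw [iteratedDeriv_succ, iteratedDeriv_one]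
  have e3 : iteratedDeriv 3 f = deriv (deriv (deriv f)) := by
    rw [iteratedDeriv_succ, e2]
  have c1 : ContinuousAt (deriv f) z := h.deriv.continuousAt
  have c2 : ContinuousAt (iteratedDeriv 2 f) z := by rw [e2]; exact h.deriv.deriv.continuousAt
  have c3 : ContinuousAt (iteratedDeriv 3 f) z := by
    rw [e3]; exact h.deriv.deriv.deriv.continuousAt
  exact (c3.div c1 h0).sub (continuousAt_const.mul ((c2.div c1 h0).pow 2))

theorem bers_eq (hμ : Bel k μ) (hs : SuppIn 1 μ) (hw : IsW k μ w) {z : ℂ} (hz : ‖z‖ < 1)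
    (hz0 : z ≠ 0) :
    schw w (1 / conj z) * ((1 - ‖z‖ ^ 2 : ℝ) : ℂ) ^ 2 = -6 * bers μ z * conj z ^ 4 := by
  have hlt : ‖z‖ < ‖(1 : ℂ)‖ := by rw [norm_one]; exact hz
  have hzc : conj z ≠ 0 := by simpa using hz0
  obtain ⟨hpB, hpS⟩ := pull_bel hlt hμ
  obtain ⟨om, hom⟩ := mrmt hpB hpS
  obtain ⟨c, d, hd, hM⟩ := mob_nat hμ hs hlt hz0 hw hom
  set e : ℂ := om (- conj 1 / conj z) with he
  have hout : 1 < ‖1 / conj z‖ := by
    rw [norm_div, norm_one, Complex.norm_conj, lt_div_iff₀ (norm_pos_iff.2 hz0), one_mul]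
    exact hz
  have hbig : ∀ᶠ u in cocompact ℂ, 1 < ‖u‖ :=
    (tendsto_norm_cocompact_atTop (E := ℂ)).eventually (eventually_gt_atTop 1)
  have hne : ∀ᶠ u in cocompact ℂ, conj z * u + conj 1 ≠ 0 := by
    filter_upwards [(isCompact_singleton (x := - conj 1 / conj z)).compl_mem_cocompact] with u hu
    intro h0
    apply hu
    rw [mem_singleton_iff, eq_div_iff hzc]
    linear_combination h0
  have hinv : Tendsto (fun u : ℂ => u⁻¹) (cocompact ℂ) (𝓝 0) := by
    rw [← Metric.cobounded_eq_cocompact]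
    exact tendsto_inv₀_cobounded
  have hkey : ∀ᶠ u in cocompact ℂ, schw w (mob 1 z u) *
      (((1 - ‖z‖ ^ 2 : ℝ) : ℂ) / (conj z + u⁻¹) ^ 2) ^ 2 = u ^ 4 * schw om u := by
    filter_upwards [hbig, hne] with u hu hud
    have hu0 : u ≠ 0 := by
      rintro rfl
      rw [norm_zero] at hu
      linarith
    have hAu := norm_mob_gt hlt hu hud
    obtain ⟨w1, w2⟩ := IsW.holo_out hμ hs hw hAu
    obtain ⟨o1, o2⟩ := IsW.holo_out hpB hpS hom hu
    have s1 := schw_mob_right hlt hud w1 w2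
    have hev : (fun u => w (mob 1 z u)) =ᶠ[𝓝 u] fun u => c + d / (om u - e) := by
      have hop : ∀ᶠ v in 𝓝 u, conj z * v + conj 1 ≠ 0 := by
        have : ContinuousAt (fun v => conj z * v + conj 1) u :=
          (continuousAt_const.mul continuousAt_id).add continuousAt_const
        exact this.eventually_ne hud
      filter_upwards [hop] with v hv
      exact (hM v hv).2
    rw [sc_congr hev, schw_mob_left o1 o2 hd (hM u hud).1, (hasDerivAt_mob hlt hud).deriv] at s1
    rw [s1, norm_one, one_pow]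
    have hden : conj z * u + conj 1 = u * (conj z + u⁻¹) := by
      rw [map_one]
      field_simp
    have h3 : conj z + u⁻¹ ≠ 0 := by
      intro h0
      apply hud
      rw [hden, h0, mul_zero]
    rw [hden]
    field_simp
  have hA : Tendsto (mob 1 z) (cocompact ℂ) (𝓝 (1 / conj z)) := by
    have h1 : Tendsto (fun u : ℂ => (1 + z * u⁻¹) / (conj z + u⁻¹)) (cocompact ℂ)
        (𝓝 ((1 + z * 0) / (conj z + 0))) :=
      ((hinv.const_mul z).const_add 1).div (hinv.const_add _) (by rw [add_zero]; exact hzc)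
    rw [mul_zero, add_zero, add_zero] at h1
    refine h1.congr' ?_
    filter_upwards [hbig, hne] with u hu hud
    have hu0 : u ≠ 0 := by
      rintro rfl
      rw [norm_zero] at hu
      linarith
    have hden : conj z * u + conj 1 = u * (conj z + u⁻¹) := by
      rw [map_one]
      field_simp
    have h3 : conj z + u⁻¹ ≠ 0 := by
      intro h0
      apply hud
      rw [hden, h0, mul_zero]
    unfold mob
    rw [hden]
    field_simp
  have hout2 := IsW.holo_out hμ hs hw hout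
  have l1 : Tendsto (fun u => schw w (mob 1 z u) *
      (((1 - ‖z‖ ^ 2 : ℝ) : ℂ) / (conj z + u⁻¹) ^ 2) ^ 2) (cocompact ℂ)
      (𝓝 (schw w (1 / conj z) * (((1 - ‖z‖ ^ 2 : ℝ) : ℂ) / (conj z + 0) ^ 2) ^ 2)) := by
    refine ((sc_cont hout2.1 hout2.2).tendsto.comp hA).mul ?_
    refine Tendsto.pow (Tendsto.div tendsto_const_nhds ((hinv.const_add _).pow 2) ?_) 2
    rw [add_zero]
    exact pow_ne_zero 2 hzc
  have l2 := (tendsto_schw hpB hpS hom).congr' (hkey.mono fun u hu => hu.symm)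
  have h := tendsto_nhds_unique l1 l2
  rw [add_zero] at h
  unfold bers
  rw [← h]
  field_simp

end QC
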