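import Pool.Agent.Work.MP_217185_an.DComp
import Pool.Agent.Work.MP_217185_an.Schw
import Pool.Agent.Work.MP_217185_an.InjA

/-! # InjB2: `bers` determines the boundary values up to a Moebius map

* `IsQC.of_eq_out`: `w = w'` on the complement of `D`, so `T = w'⁻¹ ∘ w` is a homeomorphism of the
  closed disc which is the identity on the circle.  `F = g ∘ w`, `F' = g' ∘ w'` on `D`;
  `H = F' ∘ T ∘ F⁻¹` is a homeomorphism of the closed disc equal to `g' ∘ g⁻¹` on `D`,
  so `H` is Moebius (`isMob_of_holo`), and `F' = H ∘ F` on the circle. -/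

open MeasureTheory Complex Set Metric Filter
open scoped Topology ENNReal NNReal ContDiff ComplexConjugate

namespace QC

variable {k k' : ℝ} {F F' : CD ≃ₜ CD} {μ μ' : ℂ → ℂ}

private theorem ib_factor (h : IsQC k F μ) {w : ℂ ≃ₜ ℂ} (hw : IsW k μ w) :
    DifferentiableOn ℂ (fun y => ext F (w.symm y)) (w '' D) := by
  obtain ⟨c, d, hcd, hd⟩ := h.wd
  have hb : hh μ =ᵐ[volume] fun z => μ z * (1 + Tf (hh μ) z) :=
    Filter.Eventually.of_forall fun z => hh_eq h.bel h.supp z
  exact factor hw.approx hb isOpen_ball ((continuousOn_ext F).mono ball_subset_closedBall) hcd hd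

private theorem ib_mem {w w' : ℂ ≃ₜ ℂ} (he : ∀ z, 1 ≤ ‖z‖ → w z = w' z) (x : CD) :
    w'.symm (w x) ∈ closedBall (0 : ℂ) 1 := by
  rw [mem_closedBall_zero_iff]
  by_contra hc
  rw [not_le] at hc
  have h1 := he _ hc.le
  rw [w'.apply_symm_apply] at h1
  have h2 := w.injective h1
  rw [h2] at hc
  exact absurd (mem_closedBall_zero_iff.1 x.2) (not_le.2 hc)

private theorem ib_T {w w' : ℂ ≃ₜ ℂ} (he : ∀ z, 1 ≤ ‖z‖ → w z = w' z) :
    ∃ T : CD ≃ₜ CD, ∀ x : CD, (T x : ℂ) = w'.symm (w x) := by
  have he' : ∀ z, 1 ≤ ‖z‖ → w' z = w z := fun z hz => (he z hz).symm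
  refine ⟨{ toFun := fun x => ⟨w'.symm (w x), ib_mem he x⟩
            invFun := fun x => ⟨w.symm (w' x), ib_mem he' x⟩
            left_inv := fun x => Subtype.ext (by simp)
            right_inv := fun x => Subtype.ext (by simp)
            continuous_toFun := (w'.symm.continuous.comp
              (w.continuous.comp continuous_subtype_val)).subtype_mk _
            continuous_invFun := (w.symm.continuous.comp
              (w'.continuous.comp continuous_subtype_val)).subtype_mk _ }, fun x => rfl⟩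

theorem IsQC.of_eq_out (h : IsQC k F μ) (h' : IsQC k' F' μ') {w w' : ℂ ≃ₜ ℂ} (hw : IsW k μ w)
    (hw' : IsW k' μ' w') (he : ∀ z, 1 ≤ ‖z‖ → w z = w' z) :
    ∃ σ, IsMob σ ∧ ∀ x : CD, ‖(x : ℂ)‖ = 1 → F' x = σ (F x) := by
  obtain ⟨T, hT⟩ := ib_T he
  have hTc : ∀ x : CD, ‖(x : ℂ)‖ = 1 → T x = x := by
    intro x hx
    apply Subtype.ext
    rw [hT, he _ hx.ge, w'.symm_apply_apply]
  have hle : ∀ x : CD, ‖(x : ℂ)‖ ≤ 1 := fun x => mem_closedBall_zero_iff.1 x.2
  have hTp : ∀ x : CD, ‖(T x : ℂ)‖ < 1 ↔ ‖(x : ℂ)‖ < 1 := by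
    intro x
    rw [← not_iff_not, not_lt, not_lt]
    constructor
    · intro h1
      have h2 := hTc (T x) (le_antisymm (hle _) h1)
      rw [T.injective h2] at h1
      exact h1
    · intro h1
      rw [hTc x (le_antisymm (hle _) h1)]
      exact h1
  have hg := ib_factor h hw
  have hg' := ib_factor h' hw'
  have hFp : ∀ z : CD, ‖(F.symm z : ℂ)‖ < 1 ↔ ‖(z : ℂ)‖ < 1 := by
    intro z
    rw [← h.pres, F.apply_symm_apply]
  set H : CD ≃ₜ CD := (F.symm.trans T).trans F' with hH
  have hHa : ∀ z : CD, H z = F' (T (F.symm z)) := fun z => rfl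
  refine ⟨H, isMob_of_holo ?_ ?_, ?_⟩
  · intro z
    rw [hHa, h'.pres, hTp, hFp]
  · intro z hz
    have hDz : D ∈ 𝓝 z := isOpen_ball.mem_nhds hz
    -- the inverse of `g`
    have hF1 : ∀ y ∈ D, ∀ hy : y ∈ closedBall (0 : ℂ) 1,
        ext F.symm y = (F.symm ⟨y, hy⟩ : ℂ) := fun y _ hy => ext_apply F.symm ⟨y, hy⟩
    have hinv : HasDerivAt (fun y => w (ext F.symm y))
        (deriv (fun y => ext F (w.symm y)) (w (ext F.symm z)))⁻¹ z := by
      have hmem : w (ext F.symm z) ∈ w '' D := by
        apply mem_image_of_mem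
        rw [hF1 z hz (ball_subset_closedBall hz), mem_ball_zero_iff, hFp]
        exact mem_ball_zero_iff.1 hz
      have hopen : IsOpen (w '' D) := w.isOpenMap _ isOpen_ball
      have hdz : DifferentiableAt ℂ (fun y => ext F (w.symm y)) (w (ext F.symm z)) :=
        (hg _ hmem).differentiableAt (hopen.mem_nhds hmem)
      have hinj : InjOn (fun y => ext F (w.symm y)) (w '' D) := by
        rintro _ ⟨x, hx, rfl⟩ _ ⟨y, hy, rfl⟩ hxy
        simp only [Homeomorph.symm_apply_apply] at hxy
        rw [injOn_ext F (ball_subset_closedBall hx) (ball_subset_closedBall hy) hxy]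
      have hc : ContinuousAt (fun y => w (ext F.symm y)) z :=
        w.continuous.continuousAt.comp
          (((continuousOn_ext F.symm).mono ball_subset_closedBall).continuousAt hDz)
      have hl : ∀ᶠ y in 𝓝 z, (fun y => ext F (w.symm y)) ((fun y => w (ext F.symm y)) y) = y := by
        filter_upwards [hDz] with y hy
        simp only [Homeomorph.symm_apply_apply]
        rw [hF1 y hy (ball_subset_closedBall hy), ext_apply, F.apply_symm_apply]
      exact HasDerivAt.of_local_left_inverse (g := fun y => w (ext F.symm y)) hc hdz.hasDerivAt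
        (deriv_ne_zero_of_injOn hopen hg hinj hmem) hl
    have hcomp : DifferentiableAt ℂ (fun y => (fun y => ext F' (w'.symm y)) (w (ext F.symm y))) z := by
      have hTz : w (ext F.symm z) = w' (T (F.symm ⟨z, ball_subset_closedBall hz⟩)) := by
        rw [hT, w'.apply_symm_apply, hF1 z hz (ball_subset_closedBall hz)]
      have hmem : w (ext F.symm z) ∈ w' '' D := by
        rw [hTz]
        apply mem_image_of_mem
        rw [mem_ball_zero_iff, hTp, hFp]
        exact mem_ball_zero_iff.1 hz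
      have hopen : IsOpen (w' '' D) := w'.isOpenMap _ isOpen_ball
      have hdz : DifferentiableAt ℂ (fun y => ext F' (w'.symm y)) (w (ext F.symm z)) :=
        (hg' _ hmem).differentiableAt (hopen.mem_nhds hmem)
      exact DifferentiableAt.comp z hdz hinv.differentiableAt
    refine (hcomp.congr_of_eventuallyEq ?_).differentiableWithinAt
    filter_upwards [hDz] with y hy
    have hy' : y ∈ closedBall (0 : ℂ) 1 := ball_subset_closedBall hy
    have e1 : ext H y = H ⟨y, hy'⟩ := ext_apply H ⟨y, hy'⟩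
    have e2 : w'.symm (w (ext F.symm y)) = (T (F.symm ⟨y, hy'⟩) : ℂ) := by
      rw [hT, hF1 y hy hy']
    have e3 : ext F' (w'.symm (w (ext F.symm y))) = F' (T (F.symm ⟨y, hy'⟩)) := by
      rw [e2, ext_apply]
    rw [e1, hHa]
    exact e3.symm
  · intro x hx
    have h1 : ‖(F x : ℂ)‖ = 1 := by
      have h3 : ¬ ‖(F x : ℂ)‖ < 1 := by rw [h.pres x, hx]; exact lt_irrefl _
      exact le_antisymm (hle _) (not_lt.1 h3)
    rw [hHa, F.symm_apply_apply, hTc x hx]

end QC
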