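import Pool.Agent.Work.MP_217185_an.DComp
import Pool.Agent.Work.MP_217185_an.Schw
import Pool.Agent.Work.MP_217185_an.InjA

/-! # InjB1: `bers` determines the boundary values up to a Moebius map

* `schw_inj`: `w`, `w'` plane solutions with equal Schwarzians for `|z| > 1`.  With `A = w'`,
  `B = (w')'` (the two derivatives), `N = A' B - A B'`, `N² / (A B)³` has derivative zero, so it is
  constant for `|z| > 1`; it tends to zero at infinity, so `N = 0`, `(A / B)' = 0`, `A = B`
  (limit `1`), `w_1 = w_2`. -/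

open MeasureTheory Complex Set Metric Filter
open scoped Topology ENNReal NNReal ContDiff ComplexConjugate

namespace QC

variable {k k' : ℝ} {F F' : CD ≃ₜ CD} {μ μ' : ℂ → ℂ}

private theorem ib_open : IsOpen {z : ℂ | 1 < ‖z‖} := isOpen_lt continuous_const continuous_norm

private theorem ib_conn : IsPreconnected {z : ℂ | 1 < ‖z‖} := by
  have h : {z : ℂ | 1 < ‖z‖} = Complex.exp '' {z : ℂ | 0 < z.re} := by
    ext z
    constructor
    · intro hz
      have hz' : 1 < ‖z‖ := hz
      have hz0 : z ≠ 0 := by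
        rintro rfl
        rw [norm_zero] at hz'
        linarith
      refine ⟨Complex.log z, ?_, Complex.exp_log hz0⟩
      show 0 < (Complex.log z).re
      rw [Complex.log_re]
      exact Real.log_pos hz'
    · rintro ⟨u, hu, rfl⟩
      show 1 < ‖Complex.exp u‖
      rw [Complex.norm_exp]
      exact Real.one_lt_exp_iff.2 hu
  rw [h]
  exact ((convex_halfSpace_re_gt 0).isPreconnected).image _ Complex.continuous_exp.continuousOn

private theorem ib_big : {z : ℂ | 1 < ‖z‖} ∈ cocompact ℂ :=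
  (tendsto_norm_cocompact_atTop (E := ℂ)).eventually (eventually_gt_atTop 1)

/-- a function with zero derivative for `|z| > 1` is equal to its limit at infinity. -/
private theorem ib_const {f : ℂ → ℂ} {c : ℂ} (hf : ∀ z, 1 < ‖z‖ → HasDerivAt f 0 z)
    (hc : Tendsto f (cocompact ℂ) (𝓝 c)) {z : ℂ} (hz : 1 < ‖z‖) : f z = c := by
  have h1 : ∀ y ∈ {z : ℂ | 1 < ‖z‖}, f y = f z := fun y hy =>
    ib_open.is_const_of_deriv_eq_zero ib_conn
      (fun u hu => (hf u hu).differentiableAt.differentiableWithinAt)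
      (fun u hu => (hf u hu).deriv) hy hz
  have h2 : Tendsto f (cocompact ℂ) (𝓝 (f z)) := by
    refine tendsto_const_nhds.congr' ?_
    filter_upwards [ib_big] with y hy
    exact (h1 y hy).symm
  exact tendsto_nhds_unique h2 hc

/-- Cauchy estimate at infinity. -/
private theorem ib_deriv {f : ℂ → ℂ} (hf : ∀ z, 1 < ‖z‖ → DifferentiableAt ℂ f z)
    (h0 : Tendsto f (cocompact ℂ) (𝓝 0)) : Tendsto (deriv f) (cocompact ℂ) (𝓝 0) := by
  rw [Metric.tendsto_nhds]
  intro ε hε
  have h1 : ∀ᶠ z in cocompact ℂ, ‖f z‖ < ε / 2 := by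
    have := (Metric.tendsto_nhds.1 h0) (ε / 2) (by positivity)
    simpa [dist_eq_norm] using this
  rw [← Metric.cobounded_eq_cocompact, ] at h1 ⊢
  obtain ⟨R, hR⟩ := (Metric.hasBasis_cobounded_compl_closedBall (0 : ℂ)).mem_iff.1 h1
  refine (Metric.hasBasis_cobounded_compl_closedBall (0 : ℂ)).mem_iff.2 ⟨max R 1 + 2, trivial, ?_⟩
  intro z hz
  have hz' : max R 1 + 2 < ‖z‖ := by
    rw [mem_compl_iff, mem_closedBall_zero_iff, not_le] at hz
    exact hz
  have hball : ∀ y ∈ closedBall z 1, max R 1 < ‖y‖ := by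
    intro y hy
    rw [mem_closedBall, dist_eq_norm] at hy
    have h3 : ‖z‖ ≤ ‖y‖ + ‖y - z‖ := by
      have h4 := norm_sub_le y (y - z)
      rwa [sub_sub_cancel] at h4
    linarith
  have hd : DiffContOnCl ℂ f (ball z 1) := by
    apply DifferentiableOn.diffContOnCl
    rw [closure_ball z one_ne_zero]
    intro y hy
    exact (hf y (lt_of_le_of_lt (le_max_right _ _) (hball y hy))).differentiableWithinAt
  have h5 : ‖deriv f z‖ ≤ (ε / 2) / 1 := by
    apply Complex.norm_deriv_le_of_forall_mem_sphere_norm_le one_pos hd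
    intro y hy
    have h6 : y ∈ {z | ‖f z‖ < ε / 2} := hR.2 (by
      rw [mem_compl_iff, mem_closedBall_zero_iff, not_le]
      exact lt_of_le_of_lt (le_max_left _ _) (hball y (sphere_subset_closedBall hy)))
    exact le_of_lt h6
  show dist (deriv f z) 0 < ε
  rw [dist_eq_norm, sub_zero]
  linarith

private theorem ib_lim (hμ : Bel k μ) (hs : SuppIn 1 μ) {w : ℂ ≃ₜ ℂ} (hw : IsW k μ w) :
    Tendsto (deriv w) (cocompact ℂ) (𝓝 1) ∧ Tendsto (deriv (deriv w)) (cocompact ℂ) (𝓝 0) := by
  have h1 : Tendsto (deriv (fun z => w z - z)) (cocompact ℂ) (𝓝 0) :=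
    ib_deriv (fun z hz => (IsW.holo_out hμ hs hw hz).1.differentiableAt.sub differentiableAt_id)
      hw.inf
  have h2 : ∀ z : ℂ, 1 < ‖z‖ → deriv (fun z => w z - z) z = deriv w z - 1 := fun z hz =>
    ((IsW.holo_out hμ hs hw hz).1.differentiableAt.hasDerivAt.sub (hasDerivAt_id' z)).deriv
  have h3 : Tendsto (fun z => deriv w z - 1) (cocompact ℂ) (𝓝 0) := by
    refine h1.congr' ?_
    filter_upwards [ib_big] with z hz
    exact h2 z hz
  have h4 : Tendsto (deriv (fun z => deriv w z - 1)) (cocompact ℂ) (𝓝 0) :=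
    ib_deriv (fun z hz => (IsW.holo_out hμ hs hw hz).1.deriv.differentiableAt.sub_const 1) h3
  refine ⟨?_, ?_⟩
  · have := h3.add_const 1
    simpa using this
  · refine h4.congr' ?_
    filter_upwards [ib_big] with z hz
    exact deriv_sub_const 1

theorem schw_inj (hμ : Bel k μ) (hs : SuppIn 1 μ) (hμ' : Bel k' μ') (hs' : SuppIn 1 μ')
    {w w' : ℂ ≃ₜ ℂ} (hw : IsW k μ w) (hw' : IsW k' μ' w')
    (he : ∀ z, 1 < ‖z‖ → schw w z = schw w' z) : ∀ z, 1 ≤ ‖z‖ → w z = w' z := by
  have ha : ∀ z, 1 < ‖z‖ → AnalyticAt ℂ w z := fun z hz => (IsW.holo_out hμ hs hw hz).1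
  have hb : ∀ z, 1 < ‖z‖ → AnalyticAt ℂ w' z := fun z hz => (IsW.holo_out hμ' hs' hw' hz).1
  have hA : ∀ z, 1 < ‖z‖ → deriv w z ≠ 0 := fun z hz => (IsW.holo_out hμ hs hw hz).2
  have hB : ∀ z, 1 < ‖z‖ → deriv w' z ≠ 0 := fun z hz => (IsW.holo_out hμ' hs' hw' hz).2
  obtain ⟨la1, la2⟩ := ib_lim hμ hs hw
  obtain ⟨lb1, lb2⟩ := ib_lim hμ' hs' hw'
  -- step 1: `N = 0`
  have hE : ∀ z, 1 < ‖z‖ → HasDerivAt (fun z => (deriv (deriv w) z * deriv w' z
      - deriv w z * deriv (deriv w') z) ^ 2 / (deriv w z * deriv w' z) ^ 3) 0 z := by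
    intro z hz
    have a0 : HasDerivAt (deriv w) (deriv (deriv w) z) z :=
      (ha z hz).deriv.differentiableAt.hasDerivAt
    have a1 : HasDerivAt (deriv (deriv w)) (deriv (deriv (deriv w)) z) z :=
      (ha z hz).deriv.deriv.differentiableAt.hasDerivAt
    have b0 : HasDerivAt (deriv w') (deriv (deriv w') z) z :=
      (hb z hz).deriv.differentiableAt.hasDerivAt
    have b1 : HasDerivAt (deriv (deriv w')) (deriv (deriv (deriv w')) z) z :=
      (hb z hz).deriv.deriv.differentiableAt.hasDerivAt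
    have hAz := hA z hz
    have hBz := hB z hz
    have h1 := he z hz
    unfold schw at h1
    have e2 : ∀ f : ℂ → ℂ, iteratedDeriv 2 f z = deriv (deriv f) z := fun f => by
      rw [iteratedDeriv_succ, iteratedDeriv_one]
    have e3 : ∀ f : ℂ → ℂ, iteratedDeriv 3 f z = deriv (deriv (deriv f)) z := fun f => by
      rw [iteratedDeriv_succ, iteratedDeriv_succ, iteratedDeriv_one]
    rw [e2, e2, e3, e3] at h1
    have h2 := (((a1.mul b0).sub (a0.mul b1)).pow 2).div ((a0.mul b0).pow 3)
      (pow_ne_zero 3 (mul_ne_zero hAz hBz))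
    refine h2.congr_deriv ?_
    rw [div_eq_zero_iff]
    left
    field_simp at h1
    simp only [Pi.mul_apply, Pi.sub_apply, Pi.pow_apply]
    push_cast
    generalize deriv w z = A at *
    generalize deriv w' z = B at *
    generalize deriv (deriv w) z = A1 at *
    generalize deriv (deriv w') z = B1 at *
    generalize deriv (deriv (deriv w)) z = A2 at *
    generalize deriv (deriv (deriv w')) z = B2 at *
    linear_combination (A1 * B - A * B1) * (A * B) ^ 2 * h1
  have hN : ∀ z, 1 < ‖z‖ → deriv (deriv w) z * deriv w' z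
      - deriv w z * deriv (deriv w') z = 0 := by
    intro z hz
    have hl : Tendsto (fun z => (deriv (deriv w) z * deriv w' z
      - deriv w z * deriv (deriv w') z) ^ 2 / (deriv w z * deriv w' z) ^ 3) (cocompact ℂ) (𝓝 0) := by
      have h1 : Tendsto (fun z => (deriv (deriv w) z * deriv w' z
        - deriv w z * deriv (deriv w') z) ^ 2 / (deriv w z * deriv w' z) ^ 3) (cocompact ℂ)
        (𝓝 ((0 * 1 - 1 * 0) ^ 2 / (1 * 1) ^ 3)) :=
        (((la2.mul lb1).sub (la1.mul lb2)).pow 2).div ((la1.mul lb1).pow 3) (by norm_num)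
      simpa using h1
    have h2 := ib_const hE hl hz
    rw [div_eq_zero_iff] at h2
    rcases h2 with h2 | h2
    · exact pow_eq_zero_iff (two_ne_zero) |>.1 h2
    · exact absurd h2 (pow_ne_zero 3 (mul_ne_zero (hA z hz) (hB z hz)))
  -- step 2: equal derivatives
  have hQ : ∀ z, 1 < ‖z‖ → deriv w z = deriv w' z := by
    intro z hz
    have hl : Tendsto (fun z => deriv w z / deriv w' z) (cocompact ℂ) (𝓝 1) := by
      have h1 : Tendsto (fun z => deriv w z / deriv w' z) (cocompact ℂ) (𝓝 (1 / 1)) :=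
        la1.div lb1 one_ne_zero
      simpa using h1
    have hd : ∀ z, 1 < ‖z‖ → HasDerivAt (fun z => deriv w z / deriv w' z) 0 z := by
      intro z hz
      have a0 : HasDerivAt (deriv w) (deriv (deriv w) z) z :=
        (ha z hz).deriv.differentiableAt.hasDerivAt
      have b0 : HasDerivAt (deriv w') (deriv (deriv w') z) z :=
        (hb z hz).deriv.differentiableAt.hasDerivAt
      refine (a0.div b0 (hB z hz)).congr_deriv ?_
      rw [hN z hz, zero_div]
    have h2 := ib_const hd hl hz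
    rwa [div_eq_one_iff_eq (hB z hz)] at h2
  -- step 3
  have hU : ∀ z, 1 < ‖z‖ → w z = w' z := by
    intro z hz
    have hl : Tendsto (fun z => w z - w' z) (cocompact ℂ) (𝓝 0) := by
      have h1 := hw.inf.sub hw'.inf
      simpa using h1
    have hd : ∀ z, 1 < ‖z‖ → HasDerivAt (fun z => w z - w' z) 0 z := by
      intro z hz
      refine ((ha z hz).differentiableAt.hasDerivAt.sub
        (hb z hz).differentiableAt.hasDerivAt).congr_deriv ?_
      rw [hQ z hz, sub_self]
    exact sub_eq_zero.1 (ib_const hd hl hz)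
  -- step 4: the circle
  intro z hz
  have hz0 : z ≠ 0 := by
    rintro rfl
    rw [norm_zero] at hz
    linarith
  have hseq : Tendsto (fun n : ℕ => (1 + 1 / ((n : ℝ) + 1) : ℝ) • z) atTop (𝓝 z) := by
    have h1 : Tendsto (fun n : ℕ => (1 + 1 / ((n : ℝ) + 1) : ℝ)) atTop (𝓝 1) := by
      have := (tendsto_one_div_add_atTop_nhds_zero_nat (𝕜 := ℝ)).const_add 1
      simpa using this
    have h2 := h1.smul_const z
    simpa using h2
  have h1 : Tendsto (fun n : ℕ => w ((1 + 1 / ((n : ℝ) + 1) : ℝ) • z)) atTop (𝓝 (w z)) :=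
    (w.continuous.tendsto z).comp hseq
  have h2 : Tendsto (fun n : ℕ => w' ((1 + 1 / ((n : ℝ) + 1) : ℝ) • z)) atTop (𝓝 (w' z)) :=
    (w'.continuous.tendsto z).comp hseq
  have h3 : ∀ n : ℕ, w ((1 + 1 / ((n : ℝ) + 1) : ℝ) • z) = w' ((1 + 1 / ((n : ℝ) + 1) : ℝ) • z) := by
    intro n
    apply hU
    rw [norm_smul, Real.norm_of_nonneg (by positivity)]
    have h4 : (0 : ℝ) < 1 / ((n : ℝ) + 1) := by positivity
    nlinarith
  simp only [h3] at h1
  exact tendsto_nhds_unique h1 h2

end QC
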