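import Pool.Agent.Work.MP_217185_an.DComp
import Pool.Agent.Work.MP_217185_an.Schw
import Pool.Agent.Work.MP_217185_an.InjA
import Pool.Agent.Work.MP_217185_an.InjB1
import Pool.Agent.Work.MP_217185_an.InjB2

/-! # InjB3: `bers` determines the boundary values up to a Moebius map

* `bers_inj`: by `bers_eq` (`bers_zero`, `tendsto_schw` for `z = 0`) the Bers functionals agree on
  the disc iff the Schwarzians of the plane solutions agree outside the closed disc; then use
  `schw_inj`, `IsQC.of_eq_out` and, conversely, `IsQC.eq_out`. -/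

open MeasureTheory Complex Set Metric Filter
open scoped Topology ENNReal NNReal ContDiff ComplexConjugate

namespace QC

variable {k k' : ℝ} {F F' : CD ≃ₜ CD} {μ μ' : ℂ → ℂ}

/-- the main injectivity statement. -/
theorem bers_inj (h : IsQC k F μ) (h' : IsQC k' F' μ') :
    (∀ z ∈ D, bers μ z = bers μ' z) ↔
      ∃ σ, IsMob σ ∧ ∀ x : CD, ‖(x : ℂ)‖ = 1 → F' x = σ (F x) := by
  obtain ⟨w, hw⟩ := mrmt h.bel h.supp
  obtain ⟨w', hw'⟩ := mrmt h'.bel h'.supp
  constructor
  · intro hb
    have he : ∀ z, 1 < ‖z‖ → schw w z = schw w' z := by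
      intro z hz
      have hz0 : z ≠ 0 := by
        rintro rfl
        rw [norm_zero] at hz
        linarith
      have hc0 : conj z ≠ 0 := (map_ne_zero _).2 hz0
      have hn : ‖1 / conj z‖ < 1 := by
        rw [norm_div, norm_one, Complex.norm_conj, div_lt_one (by linarith)]
        exact hz
      have h0 : 1 / conj z ≠ 0 := one_div_ne_zero hc0
      have e : 1 / conj (1 / conj z) = z := by
        rw [map_div₀, map_one, Complex.conj_conj, one_div_one_div]
      have h1 := bers_eq h.bel h.supp hw hn h0
      have h2 := bers_eq h'.bel h'.supp hw' hn h0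
      rw [e] at h1 h2
      rw [hb _ (mem_ball_zero_iff.2 hn)] at h1
      rw [← h1] at h2
      have h3 : ((1 - ‖1 / conj z‖ ^ 2 : ℝ) : ℂ) ^ 2 ≠ 0 := by
        apply pow_ne_zero
        rw [Complex.ofReal_ne_zero]
        have := norm_nonneg (1 / conj z)
        nlinarith
      exact (mul_right_cancel₀ h3 h2).symm
    exact h.of_eq_out h' hw hw' (schw_inj h.bel h.supp h'.bel h'.supp hw hw' he)
  · rintro ⟨σ, hσ, hF⟩
    have he := h.eq_out h' hσ hF hw hw'
    have hs : ∀ z, 1 < ‖z‖ → schw w z = schw w' z := by
      intro z hz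
      have hev : (w : ℂ → ℂ) =ᶠ[𝓝 z] w' := by
        filter_upwards [(isOpen_lt continuous_const continuous_norm).mem_nhds hz] with y hy
        exact he y (le_of_lt hy)
      unfold schw
      rw [hev.iteratedDeriv_eq, hev.iteratedDeriv_eq, hev.deriv_eq]
    intro z hz
    have hz' : ‖z‖ < 1 := mem_ball_zero_iff.1 hz
    by_cases hz0 : z = 0
    · subst hz0
      rw [bers_zero h.bel h.supp, bers_zero h'.bel h'.supp]
      have h1 := tendsto_schw h.bel h.supp hw
      have h2 := tendsto_schw h'.bel h'.supp hw'
      have h3 : (fun z => z ^ 4 * schw w z) =ᶠ[cocompact ℂ] fun z => z ^ 4 * schw w' z := by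
        filter_upwards [(tendsto_norm_cocompact_atTop (E := ℂ)).eventually
          (eventually_gt_atTop 1)] with y hy
        rw [hs y hy]
      have h4 := tendsto_nhds_unique (h1.congr' h3) h2
      exact mul_left_cancel₀ (by norm_num) h4
    · have h1 := bers_eq h.bel h.supp hw hz' hz0
      have h2 := bers_eq h'.bel h'.supp hw' hz' hz0
      have hc0 : conj z ≠ 0 := (map_ne_zero _).2 hz0
      have hn : 1 < ‖1 / conj z‖ := by
        rw [norm_div, norm_one, Complex.norm_conj, lt_div_iff₀ (norm_pos_iff.2 hz0), one_mul]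
        exact hz'
      rw [hs _ hn, h2] at h1
      have h3 := mul_right_cancel₀ (pow_ne_zero 4 hc0) h1
      exact (mul_left_cancel₀ (by norm_num) h3).symm

end QC
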