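import Pool.Agent.Work.MP_217185_an.JacG

/-! # JacA: area formula for limits of diffeomorphisms

`push_formula` with `u = w.symm`, `un n = (w n).symm` (weak derivatives of `w` are unique, `Approx.wd`)
gives `area`; with `u = w`, `un = w n` (`dz_symm` gives the bound for the inverses) it gives
`symm_wd` and `volume (w.symm '' N) = 0` for null sets `N`.
* `le`: a subsequence of the derivatives converges a.e. on each ball.  `wd`: `WD.of_tendsto`.
* `ne_zero`: on `E = {a = 0}` also `b = 0`, `volume (w '' E) = 0`, `E = w.symm '' (w '' E)` is null.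
* `lintegral`: measures `volume.map`-type identity from `area`. -/

open MeasureTheory Complex Set Metric Filter
open scoped Topology ENNReal NNReal ContDiff ComplexConjugate

namespace QC

variable {k : ℝ} {w : ℂ ≃ₜ ℂ} {a b : ℂ → ℂ}

theorem Approx.le (h : Approx k w a b) : ∀ᵐ z, ‖b z‖ ≤ k * ‖a z‖ := by
  obtain ⟨wn, h1, h2, h3, h4, h5, h6, h7, h8⟩ := h.ex
  have hloc : ∀ m : ℕ, ∀ᵐ z ∂(volume.restrict (closedBall (0 : ℂ) m)), ‖b z‖ ≤ k * ‖a z‖ := by
    intro m
    set K : Set ℂ := closedBall (0 : ℂ) m with hKd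
    have hK : IsCompact K := isCompact_closedBall _ _
    set g : ℂ → ℝ := fun z => max (‖b z‖ - k * ‖a z‖) 0 with hg
    have hgm : Measurable g :=
      (h.meas_b.norm.sub (h.meas_a.norm.const_mul k)).max measurable_const
    have hbound : ∀ n, eLpNorm g 2 (volume.restrict K) ≤
        eLpNorm (fun z => dzb (wn n) z - b z) 2 (volume.restrict K) +
        ENNReal.ofReal |k| * eLpNorm (fun z => dz (wn n) z - a z) 2 (volume.restrict K) := by
      intro n
      have m1 : AEStronglyMeasurable (fun z => ‖dzb (wn n) z - b z‖) (volume.restrict K) :=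
        (((contDiff_dz (h1 n)).2.continuous.measurable.sub h.meas_b).norm).aestronglyMeasurable
      have m2 : AEStronglyMeasurable (fun z => |k| * ‖dz (wn n) z - a z‖) (volume.restrict K) :=
        ((((contDiff_dz (h1 n)).1.continuous.measurable.sub h.meas_a).norm).const_mul
          |k|).aestronglyMeasurable
      have e1 : eLpNorm g 2 (volume.restrict K) ≤ eLpNorm ((fun z => ‖dzb (wn n) z - b z‖) +
          fun z => |k| * ‖dz (wn n) z - a z‖) 2 (volume.restrict K) := by
        refine eLpNorm_mono_real fun z => ?_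
        rw [Real.norm_of_nonneg (le_max_right _ _), Pi.add_apply]
        refine max_le ?_ (by positivity)
        have a1 : ‖b z‖ ≤ ‖dzb (wn n) z‖ + ‖dzb (wn n) z - b z‖ := by
          have := norm_sub_le (dzb (wn n) z) (dzb (wn n) z - b z)
          simpa using this
        have a2 := h3 n z
        have a3 : k * ‖dz (wn n) z‖ - k * ‖a z‖ ≤ |k| * ‖dz (wn n) z - a z‖ := by
          rw [← mul_sub]
          refine (le_abs_self _).trans ?_
          rw [abs_mul]
          exact mul_le_mul_of_nonneg_left (abs_norm_sub_norm_le _ _) (abs_nonneg _)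
        linarith
      refine e1.trans ((eLpNorm_add_le m1 m2 (by norm_num)).trans ?_)
      refine add_le_add (le_of_eq (eLpNorm_norm _)) ?_
      refine eLpNorm_le_mul_eLpNorm_of_ae_le_mul (Eventually.of_forall fun z => ?_) 2
      rw [Real.norm_of_nonneg (by positivity)]
    have hlim : Tendsto (fun n => eLpNorm (fun z => dzb (wn n) z - b z) 2 (volume.restrict K) +
        ENNReal.ofReal |k| * eLpNorm (fun z => dz (wn n) z - a z) 2 (volume.restrict K)) atTop
        (𝓝 0) := by
      have := (h8 K hK).add (ENNReal.Tendsto.const_mul (h7 K hK)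
        (Or.inr (ENNReal.ofReal_ne_top (r := |k|))))
      simpa using this
    have h0 : eLpNorm g 2 (volume.restrict K) = 0 :=
      le_antisymm (ge_of_tendsto hlim (Eventually.of_forall hbound)) bot_le
    rw [eLpNorm_eq_zero_iff hgm.aestronglyMeasurable (by norm_num)] at h0
    filter_upwards [h0] with z hz
    have h9 : max (‖b z‖ - k * ‖a z‖) 0 = 0 := hz
    have := le_max_left (‖b z‖ - k * ‖a z‖) 0
    rw [h9] at this
    linarith
  have hU : (⋃ m : ℕ, closedBall (0 : ℂ) m) = univ := iUnion_closedBall_nat 0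
  rw [← Measure.restrict_univ (μ := (volume : Measure ℂ)), ← hU, ae_restrict_iUnion_iff]
  exact hloc

theorem Approx.wd (h : Approx k w a b) : WD univ w a b := by
  obtain ⟨wn, h1, h2, h3, h4, h5, h6, h7, h8⟩ := h.ex
  have hL : ∀ (c : ℂ → ℂ) (An : ℕ → ℂ → ℂ), Measurable c → (∀ n, Continuous (An n)) →
      (∀ K, IsCompact K → Tendsto (fun n => eLpNorm (fun z => An n z - c z) 2
        (volume.restrict K)) atTop (𝓝 0)) → L2loc univ c := by
    intro c An hc hA ht K _ hK
    obtain ⟨n, hn⟩ := ((ht K hK).eventually (gt_mem_nhds zero_lt_one)).exists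
    have m1 : MemLp (fun z => An n z - c z) 2 (volume.restrict K) :=
      ⟨((hA n).measurable.sub hc).aestronglyMeasurable, hn.trans ENNReal.one_lt_top⟩
    have m2 := (l2_memLp_of_continuous hK (hA n)).sub m1
    refine m2.ae_eq (Eventually.of_forall fun z => ?_)
    simp
  refine WD.of_tendsto isOpen_univ w.continuous.continuousOn
    (hL a (fun n => dz (wn n)) h.meas_a (fun n => (contDiff_dz (h1 n)).1.continuous) h7)
    (hL b (fun n => dzb (wn n)) h.meas_b (fun n => (contDiff_dz (h1 n)).2.continuous) h8)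
    (F := fun n z => wn n z) (A := fun n => dz (wn n)) (B := fun n => dzb (wn n))
    (fun n => WD.of_contDiffOn isOpen_univ (((h1 n).of_le (by simp)).contDiffOn))
    (tendstoLocallyUniformlyOn_univ.2 h5) (fun K _ hK => ⟨h7 K hK, h8 K hK⟩)

/-- bounds for the derivatives of the inverse. -/
theorem dz_symm_bound {w : ℂ ≃ₜ ℂ} {k : ℝ} (hk : k < 1) (h1 : ContDiff ℝ ∞ w)
    (h2 : ContDiff ℝ ∞ w.symm) (h3 : ∀ z, ‖dzb w z‖ ≤ k * ‖dz w z‖) (h4 : ∀ z, dz w z ≠ 0) (y : ℂ) :
    ‖dzb w.symm y‖ ≤ k * ‖dz w.symm y‖ ∧ dz w.symm y ≠ 0 := by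
  obtain ⟨z, rfl⟩ := w.surjective y
  obtain ⟨e1, e2⟩ := dz_symm (h1.differentiable (by simp)) (h2.differentiable (by simp)) z
  have hpos : 0 < ‖dz w z‖ := norm_pos_iff.2 (h4 z)
  have hk0 : ‖dzb w z‖ < ‖dz w z‖ := (h3 z).trans_lt (by nlinarith)
  have hJ : 0 < ‖dz w z‖ ^ 2 - ‖dzb w z‖ ^ 2 := by
    have := norm_nonneg (dzb w z)
    nlinarith
  set J : ℝ := ‖dz w z‖ ^ 2 - ‖dzb w z‖ ^ 2 with hJd
  have n1 := congrArg norm e1
  have n2 := congrArg norm e2
  rw [norm_mul, Complex.norm_real, Real.norm_of_nonneg hJ.le, Complex.norm_conj] at n1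
  rw [norm_mul, Complex.norm_real, Real.norm_of_nonneg hJ.le, norm_neg] at n2
  constructor
  · have h5 := h3 z
    rw [← n1, ← n2] at h5
    have h6 : ‖dzb w.symm (w z)‖ * J ≤ (k * ‖dz w.symm (w z)‖) * J := by
      calc _ ≤ k * (‖dz w.symm (w z)‖ * J) := h5
        _ = _ := by ring
    exact le_of_mul_le_mul_right h6 hJ
  · intro h0
    rw [h0, norm_zero, zero_mul] at n1
    exact hpos.ne n1

theorem Approx.symm_wd (h : Approx k w a b) :
    ∃ c d, Measurable c ∧ Measurable d ∧ WD univ w.symm c d := by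
  obtain ⟨wn, h1, h2, h3, h4, h5, h6, h7, h8⟩ := h.ex
  obtain ⟨c, d, hc, hd, hW, _⟩ := push_formula h.lt h1 h2
    (fun n z => (dz_symm_bound h.lt (h1 n) (h2 n) (h3 n) (h4 n) z).1)
    (fun n z => (dz_symm_bound h.lt (h1 n) (h2 n) (h3 n) (h4 n) z).2) h5 h6
  exact ⟨c, d, hc, hd, hW⟩

end QC
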