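import Pool.Agent.Work.MP_217185_an.JacG
import Pool.Agent.Work.MP_217185_an.JacA

/-! # JacB: area formula for limits of diffeomorphisms

`push_formula` with `u = w.symm`, `un n = (w n).symm` (weak derivatives of `w` are unique, `Approx.wd`)
gives `area`; with `u = w`, `un = w n` (`dz_symm` gives the bound for the inverses) it gives
`symm_wd` and `volume (w.symm '' N) = 0` for null sets `N`.
* `le`: a subsequence of the derivatives converges a.e. on each ball.  `wd`: `WD.of_tendsto`.
* `ne_zero`: on `E = {a = 0}` also `b = 0`, `volume (w '' E) = 0`, `E = w.symm '' (w '' E)` is null.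
* `lintegral`: measures `volume.map`-type identity from `area`. -/

open MeasureTheory Complex Set Metric Filter
open scoped Topology ENNReal NNReal ContDiff ComplexConjugate

namespace QC

variable {k : ℝ} {w : ℂ ≃ₜ ℂ} {a b : ℂ → ℂ}

theorem Approx.area (h : Approx k w a b) {E : Set ℂ} (hE : MeasurableSet E) :
    volume (w '' E) = ∫⁻ z in E, ENNReal.ofReal (‖a z‖ ^ 2 - ‖b z‖ ^ 2) := by
  obtain ⟨wn, h1, h2, h3, h4, h5, h6, h7, h8⟩ := h.ex
  obtain ⟨c, d, hc, hd, hW, _, hA⟩ := push_formula (u := w.symm) (un := fun n => (wn n).symm)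
    h.lt h2 h1 h3 h4 h6 h5
  have hW' : WD univ w c d := hW
  obtain ⟨u1, u2⟩ := WD.unique isOpen_univ hW' h.wd
  rw [Measure.restrict_univ] at u1 u2
  have hA' : volume (w '' E) = ∫⁻ z in E, ENNReal.ofReal (‖c z‖ ^ 2 - ‖d z‖ ^ 2) := hA E hE
  rw [hA']
  refine lintegral_congr_ae (ae_restrict_of_ae ?_)
  filter_upwards [u1, u2] with z hz1 hz2
  rw [hz1, hz2]

theorem Approx.null_symm (h : Approx k w a b) {N : Set ℂ} (hN : volume N = 0) :
    volume (w.symm '' N) = 0 := by
  obtain ⟨wn, h1, h2, h3, h4, h5, h6, h7, h8⟩ := h.ex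
  obtain ⟨c, d, hc, hd, hW, _, hA⟩ := push_formula h.lt h1 h2
    (fun n z => (dz_symm_bound h.lt (h1 n) (h2 n) (h3 n) (h4 n) z).1)
    (fun n z => (dz_symm_bound h.lt (h1 n) (h2 n) (h3 n) (h4 n) z).2) h5 h6
  have h9 := hA (toMeasurable volume N) (measurableSet_toMeasurable _ _)
  have h10 : volume (toMeasurable volume N) = 0 := by rw [measure_toMeasurable, hN]
  rw [setLIntegral_measure_zero _ _ h10] at h9
  exact measure_mono_null (image_mono (subset_toMeasurable _ _)) h9

theorem Approx.null (h : Approx k w a b) {N : Set ℂ} (hN : volume N = 0) :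
    volume (w '' N) = 0 := by
  have h9 := h.area (measurableSet_toMeasurable volume N)
  have h10 : volume (toMeasurable volume N) = 0 := by rw [measure_toMeasurable, hN]
  rw [setLIntegral_measure_zero _ _ h10] at h9
  exact measure_mono_null (image_mono (subset_toMeasurable _ _)) h9

theorem Approx.ne_zero (h : Approx k w a b) : ∀ᵐ z, a z ≠ 0 := by
  have hE : MeasurableSet {z | a z = 0} := h.meas_a (measurableSet_singleton 0)
  have h1 := h.area hE
  have h2 : ∫⁻ z in {z | a z = 0}, ENNReal.ofReal (‖a z‖ ^ 2 - ‖b z‖ ^ 2) = 0 := by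
    rw [setLIntegral_congr_fun hE (g := fun _ => 0) (fun z hz => ?_)]
    · simp
    · have hz' : a z = 0 := hz
      refine ENNReal.ofReal_of_nonpos ?_
      rw [hz', norm_zero]
      nlinarith [norm_nonneg (b z)]
  rw [h2] at h1
  have h3 := h.null_symm h1
  have h4 : w.symm '' (w '' {z | a z = 0}) = {z | a z = 0} := by
    rw [← image_comp]
    simp
  rw [h4] at h3
  rw [ae_iff]
  simpa using h3

/-- change of variables. -/
theorem Approx.lintegral (h : Approx k w a b) {E : Set ℂ} (hE : MeasurableSet E) {u : ℂ → ℝ≥0∞}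
    (hu : Measurable u) :
    ∫⁻ y in w '' E, u y = ∫⁻ z in E, u (w z) * ENNReal.ofReal (‖a z‖ ^ 2 - ‖b z‖ ^ 2) := by
  have hJ : Measurable fun z => ENNReal.ofReal (‖a z‖ ^ 2 - ‖b z‖ ^ 2) :=
    ((h.meas_a.norm.pow_const 2).sub (h.meas_b.norm.pow_const 2)).ennreal_ofReal
  have hmap : Measure.map w.symm (volume : Measure ℂ)
      = volume.withDensity fun z => ENNReal.ofReal (‖a z‖ ^ 2 - ‖b z‖ ^ 2) := by
    ext F hF
    rw [Measure.map_apply w.symm.continuous.measurable hF, withDensity_apply _ hF, ← h.area hF]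
    congr 1
    exact (w.image_eq_preimage_symm F).symm
  have hwE : MeasurableSet (w '' E) := by
    rw [w.image_eq_preimage_symm]
    exact w.symm.continuous.measurable hE
  have huw : Measurable fun z => u (w z) := hu.comp w.continuous.measurable
  rw [← lintegral_indicator hwE, ← lintegral_indicator hE]
  have e1 : ∀ y, (w '' E).indicator u y = (E.indicator fun z => u (w z)) (w.symm y) := by
    intro y
    by_cases hy : w.symm y ∈ E
    · rw [indicator_of_mem hy, w.apply_symm_apply,
        indicator_of_mem (by rw [w.image_eq_preimage_symm]; exact hy)]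
    · rw [indicator_of_notMem hy,
        indicator_of_notMem (by rw [w.image_eq_preimage_symm]; exact hy)]
  rw [lintegral_congr e1, ← lintegral_map (huw.indicator hE) w.symm.continuous.measurable, hmap,
    lintegral_withDensity_eq_lintegral_mul _ hJ (huw.indicator hE)]
  refine lintegral_congr fun z => ?_
  rw [Pi.mul_apply]
  by_cases hz : z ∈ E
  · rw [indicator_of_mem hz, indicator_of_mem hz, mul_comm]
  · rw [indicator_of_notMem hz, indicator_of_notMem hz, mul_zero]

end QC
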