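import Pool.Agent.Work.MP_217185_an.WDb

/-! # Moll2: approximation by smooth functions

Choose a compact neighbourhood `K' ⊆ U` of `K` and `F n = ρ_n * (f 1_{K'})` with a mollifier `ρ_n`
supported in a ball of radius `r_n → 0` (Mathlib `ContDiffBump`, `convolution`).  For `z ∈ K` and
`n` large, `dz (F n) z = ∫ (dz ρ_n) (z - y) f y dy = - ∫ f y (dz [ρ_n (z - ·)]) y dy =
∫ a y ρ_n (z - y) dy = (ρ_n * (a 1_{K'})) z`, and `ρ_n * u → u` in `L²` for `u ∈ L²` (density of
continuous functions with compact support and Young/Minkowski: `‖ρ_n * u‖₂ ≤ ‖u‖₂`).  Uniform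
convergence on `K` from the uniform continuity of `f` on `K'`.  -/

open MeasureTheory Complex Set Metric Filter
open scoped Topology ENNReal NNReal ContDiff ComplexConjugate Convolution

namespace QC

/-- A bounded measurable function with compact support is an a.e. limit of test functions with the
same bound. -/
theorem exists_test_approx {k R : ℝ} {μ : ℂ → ℂ} (hμ : Measurable μ) (hk : ∀ z, ‖μ z‖ ≤ k)
    (hs : SuppIn R μ) :
    ∃ M : ℕ → ℂ → ℂ, (∀ n, Test univ (M n)) ∧ (∀ n z, ‖M n z‖ ≤ k) ∧
      (∀ n, SuppIn (R + 1) (M n)) ∧ ∀ᵐ z, Tendsto (fun n => M n z) atTop (𝓝 (μ z)) := by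
  have hk0 : 0 ≤ k := (norm_nonneg _).trans (hk 0)
  let φ : ℕ → ContDiffBump (0 : ℂ) := fun n =>
    { rIn := 1 / (2 * ((n : ℝ) + 1))
      rOut := 1 / ((n : ℝ) + 1)
      rIn_pos := by positivity
      rIn_lt_rOut := by
        have : (0 : ℝ) < (n : ℝ) + 1 := by positivity
        apply one_div_lt_one_div_of_lt this
        linarith }
  have hout : ∀ n, (φ n).rOut = 1 / ((n : ℝ) + 1) := fun n => rfl
  have hin : ∀ n, (φ n).rIn = 1 / (2 * ((n : ℝ) + 1)) := fun n => rfl
  have hint : LocallyIntegrable μ (volume : Measure ℂ) := by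
    rw [locallyIntegrable_iff]
    intro K hK
    refine Measure.integrableOn_of_bounded (M := k) hK.measure_lt_top.ne
      hμ.aestronglyMeasurable (Eventually.of_forall fun z => hk z)
  let M : ℕ → ℂ → ℂ := fun n =>
    ((φ n).normed volume ⋆[ContinuousLinearMap.lsmul ℝ ℝ, volume] μ)
  have hM : ∀ n z, M n z = ∫ t, (φ n).normed volume t • μ (z - t) := fun n z => by
    simp only [M, convolution_def, ContinuousLinearMap.lsmul_apply]
  have hsup : ∀ n, SuppIn (R + 1) (M n) := by
    intro n z hz
    rw [hM]
    refine integral_eq_zero_of_ae (Eventually.of_forall fun t => ?_)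
    simp only [Pi.zero_apply]
    by_cases ht : t ∈ ball (0 : ℂ) (φ n).rOut
    · have h1 : ‖t‖ < 1 := by
        have h2 : ‖t‖ < (φ n).rOut := by simpa using ht
        have h3 : (φ n).rOut ≤ 1 := by
          rw [hout]
          rw [div_le_one (by positivity)]
          have : (0 : ℝ) ≤ n := Nat.cast_nonneg n
          linarith
        linarith
      have h4 : R ≤ ‖z - t‖ := by
        have := norm_sub_norm_le z t
        linarith
      rw [hs _ h4, smul_zero]
    · have h1 : (φ n).normed volume t = 0 := by
        have h2 : t ∉ Function.support ((φ n).normed volume) := by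
          rw [ContDiffBump.support_normed_eq]
          exact ht
        simpa using h2
      rw [h1, zero_smul]
  refine ⟨M, ?_, ?_, hsup, ?_⟩
  · intro n
    refine ⟨?_, ?_, subset_univ _⟩
    · exact (φ n).hasCompactSupport_normed.contDiff_convolution_left _
        ((φ n).contDiff_normed) hint
    · refine HasCompactSupport.of_support_subset_isCompact (isCompact_closedBall (0 : ℂ) (R + 1)) ?_
      intro z hz
      rw [mem_closedBall, dist_zero_right]
      by_contra hcon
      rw [not_le] at hcon
      exact hz (hsup n z hcon.le)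
  · intro n z
    rw [hM]
    have h1 : ‖∫ t, (φ n).normed volume t • μ (z - t)‖ ≤ ∫ t, (φ n).normed volume t * k := by
      refine norm_integral_le_of_norm_le ((φ n).integrable_normed.mul_const k)
        (Eventually.of_forall fun t => ?_)
      rw [norm_smul, Real.norm_of_nonneg ((φ n).nonneg_normed t)]
      exact mul_le_mul_of_nonneg_left (hk _) ((φ n).nonneg_normed t)
    refine h1.trans ?_
    rw [integral_mul_const, (φ n).integral_normed, one_mul]
  · refine ContDiffBump.ae_convolution_tendsto_right_of_locallyIntegrable (K := 2) ?_ ?_ hint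
    · simp only [hout]
      exact tendsto_one_div_add_atTop_nhds_zero_nat
    · refine Eventually.of_forall fun n => ?_
      rw [hout, hin]
      apply le_of_eq
      field_simp

end QC
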