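import Pool.Agent.Work.MP_217185_an.Cau1

/-! # TOpA: the Beurling transform on `L²(ℂ)`

`exists_T`: for a test function `g` put `T g = dz (Cau g) ∈ L²` (`dz_cau_bound`).  With a smooth
cutoff `χ_R` (`= 1` on the ball of radius `R`, support in `2R`, gradient `≤ C/R`) and
`φ_R = χ_R Cau g`: `dzb φ_R = χ_R g + dzb χ_R Cau g → g`, `dz φ_R → dz (Cau g)` in `L²` because
`‖dzb χ_R Cau g‖₂ ≤ (C/R) (∫_{R<|z|<2R} (C/|z|)²)^{1/2} = O(1/R)`.  By `integral_dz_dzb`
`⟪T g, T g'⟫ = ⟪g, g'⟫`, `∫ T g g' = ∫ g T g'`.  Test functions are dense in `L²`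
(Mathlib: `MeasureTheory.MemLp.exists_hasCompactSupport_eLpNorm_sub_le` for continuous functions, then
mollify; or density of Schwartz functions / smooth compactly supported functions), `T` is linear on
them, so it extends to a linear isometry (`LinearIsometry.extend`-type statement or
`LinearMap.extendOfNorm` / `ContinuousLinearMap.extend`).
For a test function `φ`, `Cau (dzb φ) = φ` so `T (dzb φ) = dz φ`. -/

open MeasureTheory Complex Set Metric Filter
open scoped Topology ENNReal NNReal ContDiff ComplexConjugate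

namespace QC

theorem Test.memLp {φ : ℂ → ℂ} (h : Test univ φ) : MemLp φ 2 (volume : Measure ℂ) :=
  h.smooth.continuous.memLp_of_hasCompactSupport h.cpt

theorem memLp_dz_cau {g : ℂ → ℂ} (h : Test univ g) :
    MemLp (QC.dz (Cau g)) 2 (volume : Measure ℂ) := by
  obtain ⟨C, hC⟩ := dz_cau_bound h
  have hc : Continuous (QC.dz (Cau g)) := (contDiff_dz (cau_contDiff h)).1.continuous
  rw [memLp_two_iff_integrable_sq_norm hc.aestronglyMeasurable]
  have h1 : Integrable (fun z : ℂ => C ^ 2 * (1 + ‖z‖) ^ (-(4 : ℝ))) := by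
    refine (integrable_one_add_norm ?_).const_mul _
    rw [Complex.finrank_real_complex]
    norm_num
  refine h1.mono' ((hc.norm.pow 2).aestronglyMeasurable) (Eventually.of_forall fun z => ?_)
  have hpos : (0 : ℝ) < 1 + ‖z‖ := by positivity
  rw [Real.norm_of_nonneg (by positivity), Real.rpow_neg hpos.le]
  have h2 : (1 + ‖z‖ : ℝ) ^ (4 : ℝ) = (1 + ‖z‖) ^ 2 * (1 + ‖z‖) ^ 2 := by
    rw [← pow_add]
    exact_mod_cast Real.rpow_natCast (1 + ‖z‖) 4
  rw [h2, ← div_eq_mul_inv, le_div_iff₀ (by positivity)]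
  have h3 := hC z
  have h4 : 0 ≤ ‖QC.dz (Cau g) z‖ * (1 + ‖z‖) ^ 2 := by positivity
  nlinarith

/-- test functions are dense in `L²`. -/
theorem exists_test_L2 {h : ℂ → ℂ} (hh : MemLp h 2 (volume : Measure ℂ)) :
    ∃ F : ℕ → ℂ → ℂ, (∀ n, Test univ (F n)) ∧
      Tendsto (fun n => eLpNorm (fun z => F n z - h z) 2 volume) atTop (𝓝 0) := by
  have h1 : ∀ n : ℕ, ∃ g : ℂ → ℂ, HasCompactSupport g ∧ ContDiff ℝ ∞ g ∧
      eLpNorm (h - g) 2 volume ≤ ENNReal.ofReal (1 / ((n : ℝ) + 1)) := fun n =>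
    hh.exist_eLpNorm_sub_le (by simp) (by norm_num) (by positivity)
  choose F hF1 hF2 hF3 using h1
  refine ⟨F, fun n => ⟨hF2 n, hF1 n, subset_univ _⟩, ?_⟩
  have h2 : Tendsto (fun n : ℕ => ENNReal.ofReal (1 / ((n : ℝ) + 1))) atTop (𝓝 0) := by
    have := ENNReal.tendsto_ofReal (tendsto_one_div_add_atTop_nhds_zero_nat (𝕜 := ℝ))
    simpa using this
  refine tendsto_of_tendsto_of_tendsto_of_le_of_le tendsto_const_nhds h2 (fun n => bot_le)
    (fun n => ?_)
  have h3 : eLpNorm (fun z => F n z - h z) 2 volume = eLpNorm (h - F n) 2 volume := by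
    rw [← eLpNorm_neg]
    congr 1
    funext z
    simp
  rw [h3]
  exact hF3 n

/-- test functions supported in a slightly larger ball are dense in the functions in `L²` supported
in a ball. -/
theorem exists_test_L2_supp {h : ℂ → ℂ} (hh : MemLp h 2 (volume : Measure ℂ)) {R : ℝ}
    (hs : SuppIn R h) :
    ∃ F : ℕ → ℂ → ℂ, (∀ n, Test univ (F n)) ∧ (∀ n, SuppIn (R + 1) (F n)) ∧
      Tendsto (fun n => eLpNorm (fun z => F n z - h z) 2 volume) atTop (𝓝 0) := by
  rcases le_or_gt R 0 with hR | hR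
  · refine ⟨fun _ _ => 0, fun n => ⟨contDiff_const, HasCompactSupport.zero, subset_univ _⟩,
      fun n z _ => rfl, ?_⟩
    have h0 : h = fun _ => 0 := by
      funext z
      exact hs z (hR.trans (norm_nonneg z))
    simp [h0]
  · obtain ⟨F, hF1, hF2⟩ := exists_test_L2 hh
    let χ : ContDiffBump (0 : ℂ) := ⟨R, R + 1, hR, by linarith⟩
    have hχs : ContDiff ℝ ∞ (fun z => ((χ z : ℝ) : ℂ)) := Complex.ofRealCLM.contDiff.comp χ.contDiff
    refine ⟨fun n z => (χ z : ℂ) * F n z, fun n => ⟨hχs.mul (hF1 n).smooth, (hF1 n).cpt.mul_left,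
      subset_univ _⟩, fun n z hz => ?_, ?_⟩
    · have : χ z = 0 := χ.zero_of_le_dist (by simpa [χ] using hz)
      simp [this]
    · refine tendsto_of_tendsto_of_tendsto_of_le_of_le tendsto_const_nhds hF2 (fun n => bot_le)
        (fun n => ?_)
      refine eLpNorm_mono fun z => ?_
      have e : (χ z : ℂ) * F n z - h z = (χ z : ℂ) * (F n z - h z) := by
        rcases le_or_gt R ‖z‖ with hz | hz
        · rw [hs z hz]; ring
        · have : χ z = 1 := χ.one_of_mem_closedBall (by simpa [χ] using hz.le)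
          simp [this]
      rw [e, norm_mul, Complex.norm_real, Real.norm_of_nonneg χ.nonneg]
      exact mul_le_of_le_one_left (norm_nonneg _) χ.le_one

end QC
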