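import Pool.Agent.Work.MP_217185_an.WDb
import Pool.Agent.Work.MP_217185_an.Moll
import Pool.Agent.Work.MP_217185_an.L2Kit
import Pool.Agent.Work.MP_217185_an.TOpA

/-! # JacG3: weak convergence of the derivatives

For a test function `ψ`: `∫ ψ dz (F n) = - ∫ dz ψ F n → - ∫ dz ψ v = ∫ ψ c`.  For a continuous `ψ` with
compact support: approximate uniformly by test functions supported in a fixed compact set `K`
(mollify), `|∫ (ψ - ψ') dz (F n)| ≤ sup ‖ψ - ψ'‖ (volume K)^{1/2} C`. -/

open MeasureTheory Complex Set Metric Filter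
open scoped Topology ENNReal NNReal ContDiff ComplexConjugate

namespace QC

private theorem jacG3_test {v c : ℂ → ℂ} {F A : ℕ → ℂ → ℂ} {ψ ψ' : ℂ → ℂ} (hv : Continuous v)
    (hF : ∀ n, Continuous (F n)) (hl : TendstoLocallyUniformly F v atTop)
    (hψ' : Continuous ψ') (hs : HasCompactSupport ψ')
    (h1 : ∀ n, ∫ z, F n z * ψ' z = - ∫ z, A n z * ψ z)
    (h2 : ∫ z, v z * ψ' z = - ∫ z, c z * ψ z) :
    Tendsto (fun n => ∫ z, ψ z * A n z) atTop (𝓝 (∫ z, ψ z * c z)) := by
  set K := tsupport ψ' with hKd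
  have hK : IsCompact K := hs
  obtain ⟨C, hC⟩ := hψ'.bounded_above_of_compact_support hs
  have hu : TendstoUniformlyOn F v atTop K :=
    (tendstoLocallyUniformly_iff_forall_isCompact.1 hl) K hK
  have hl2 := l2_tendsto_of_unif hK hu
  have hz : ∀ z, z ∉ K → ψ' z = 0 := fun z hz => image_eq_zero_of_notMem_tsupport hz
  have e : ∀ f : ℂ → ℂ, ∫ z, f z * ψ' z = ∫ z in K, ψ' z * f z := by
    intro f
    rw [← setIntegral_eq_integral_of_forall_compl_eq_zero (s := K)
      (fun z hz' => by rw [hz z hz', mul_zero])]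
    simp only [mul_comm]
  have t := l2_tendsto_integral_mul (μ := volume.restrict K) (un := fun _ => ψ') (u := ψ')
    (fun _ => l2_memLp_of_continuous hK hψ') (fun n => l2_memLp_of_continuous hK (hF n))
    (l2_memLp_of_continuous hK hψ') (l2_memLp_of_continuous hK hv) (by simp) hl2
  have t2 := t.neg
  rw [← e v, h2, neg_neg] at t2
  have e3 : ∀ g : ℂ → ℂ, ∫ z, g z * ψ z = ∫ z, ψ z * g z := fun g => by simp only [mul_comm]
  rw [e3] at t2
  refine t2.congr fun n => ?_
  rw [← e (F n), h1 n, neg_neg, e3]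

theorem weak_conv {v c d : ℂ → ℂ} {F : ℕ → ℂ → ℂ} (hF : ∀ n, ContDiff ℝ ∞ (F n))
    (hv : Continuous v) (h : WD univ v c d) (hl : TendstoLocallyUniformly F v atTop)
    (hb : ∀ K : Set ℂ, IsCompact K → ∃ C : ℝ≥0∞, C ≠ ⊤ ∧ ∀ n,
      eLpNorm (dz (F n)) 2 (volume.restrict K) ≤ C ∧
      eLpNorm (dzb (F n)) 2 (volume.restrict K) ≤ C)
    {ψ : ℂ → ℂ} (hψ : Continuous ψ) (hs : HasCompactSupport ψ) :
    Tendsto (fun n => ∫ z, ψ z * dz (F n) z) atTop (𝓝 (∫ z, ψ z * c z)) ∧
    Tendsto (fun n => ∫ z, ψ z * dzb (F n) z) atTop (𝓝 (∫ z, ψ z * d z)) := by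
  obtain ⟨R, hR⟩ := hs.isCompact.isBounded.subset_closedBall 0
  have hsR : SuppIn (R + 1) ψ := by
    intro z hz
    refine image_eq_zero_of_notMem_tsupport fun h => ?_
    have := hR h
    rw [mem_closedBall_zero_iff] at this
    linarith
  obtain ⟨G, hG, hGs, hGl⟩ := exists_test_L2_supp (hψ.memLp_of_hasCompactSupport hs) hsR
  set K : Set ℂ := closedBall 0 (R + 1 + 1) with hKd
  have hK : IsCompact K := isCompact_closedBall _ _
  obtain ⟨C, hC, hCb⟩ := hb K hK
  have hGl' : Tendsto (fun n => eLpNorm (fun z => G n z - ψ z) 2 (volume.restrict K)) atTop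
      (𝓝 0) :=
    tendsto_of_tendsto_of_tendsto_of_le_of_le tendsto_const_nhds hGl (fun n => bot_le)
      (fun n => eLpNorm_mono_measure _ Measure.restrict_le_self)
  have hψ0 : ∀ z, z ∉ K → ψ z = 0 := by
    intro z hz
    refine hsR z ?_
    rw [hKd, mem_closedBall_zero_iff, not_le] at hz
    linarith
  have hG0 : ∀ m z, z ∉ K → G m z = 0 := by
    intro m z hz
    refine hGs m z ?_
    rw [hKd, mem_closedBall_zero_iff, not_le] at hz
    linarith
  have main : ∀ (a : ℂ → ℂ) (an : ℕ → ℂ → ℂ), MemLp a 2 (volume.restrict K) →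
      (∀ n, MemLp (an n) 2 (volume.restrict K)) → (∀ n, eLpNorm (an n) 2 (volume.restrict K) ≤ C) →
      (∀ m, Tendsto (fun n => ∫ z, G m z * an n z) atTop (𝓝 (∫ z, G m z * a z))) →
      Tendsto (fun n => ∫ z, ψ z * an n z) atTop (𝓝 (∫ z, ψ z * a z)) := by
    intro a an ha han hbd ht
    have e1 : ∀ g : ℂ → ℂ, ∫ z, ψ z * g z = ∫ z in K, ψ z * g z := fun g =>
      (setIntegral_eq_integral_of_forall_compl_eq_zero
        (fun z hz' => by rw [hψ0 z hz', zero_mul])).symm
    have e2 : ∀ (m : ℕ) (g : ℂ → ℂ), ∫ z, G m z * g z = ∫ z in K, G m z * g z := fun m g =>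
      (setIntegral_eq_integral_of_forall_compl_eq_zero
        (fun z hz' => by rw [hG0 m z hz', zero_mul])).symm
    rw [e1]
    simp only [e1]
    refine l2_weak_of_dense han ha (l2_memLp_of_continuous hK hψ)
      (fun m => l2_memLp_of_continuous hK (hG m).smooth.continuous) hC hbd hGl' fun m => ?_
    have := ht m
    rw [e2] at this
    exact this.congr fun n => e2 m _
  have hle : ∀ n, ContDiffOn ℝ 1 (F n) univ := fun n => ((hF n).of_le (by simp)).contDiffOn
  refine ⟨main c (fun n => dz (F n)) (h.la K (subset_univ _) hK)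
    (fun n => l2_memLp_of_continuous hK (contDiff_dz (hF n)).1.continuous)
    (fun n => (hCb n).1) (fun m => ?_), main d (fun n => dzb (F n)) (h.lb K (subset_univ _) hK)
    (fun n => l2_memLp_of_continuous hK (contDiff_dz (hF n)).2.continuous)
    (fun n => (hCb n).2) (fun m => ?_)⟩
  · exact jacG3_test hv (fun n => (hF n).continuous) hl (hG m).dz.1.smooth.continuous
      (hG m).dz.1.cpt (fun n => (integral_mul_dz isOpen_univ (hle n)
        ((hG m).smooth.of_le (by simp)) (hG m).cpt (subset_univ _)).1) (h.da _ (hG m))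
  · exact jacG3_test hv (fun n => (hF n).continuous) hl (hG m).dz.2.smooth.continuous
      (hG m).dz.2.cpt (fun n => (integral_mul_dz isOpen_univ (hle n)
        ((hG m).smooth.of_le (by simp)) (hG m).cpt (subset_univ _)).2) (h.db _ (hG m))

end QC
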