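import Pool.Agent.Work.MP_217185_an.CL

/-! # JacG4: bounded Dirichlet integrals

`K ⊆ ball 0 m`; for all `n`, `vn n '' K` is contained in a fixed ball (uniform convergence on `K` for
large `n`, compactness for the others), so `dirichlet_le` (`V = univ`) bounds
`∫_K ‖D(vn n)‖²`; `norm_dz_le`, `norm_dzb_le`. -/

open MeasureTheory Complex Set Metric Filter
open scoped Topology ENNReal NNReal ContDiff ComplexConjugate

namespace QC

private theorem jacG4_image {v : ℂ ≃ₜ ℂ} {vn : ℕ → ℂ ≃ₜ ℂ}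
    (h6 : TendstoLocallyUniformly (fun n z => vn n z) v atTop) {K : Set ℂ} (hK : IsCompact K) :
    ∃ A : ℝ, ∀ n, vn n '' K ⊆ closedBall 0 A := by
  have hu : TendstoUniformlyOn (fun n z => vn n z) v atTop K :=
    (tendstoLocallyUniformlyOn_iff_tendstoUniformlyOn_of_compact hK).mp
      h6.tendstoLocallyUniformlyOn
  obtain ⟨N, hN⟩ := eventually_atTop.mp (Metric.tendstoUniformlyOn_iff.mp hu 1 one_pos)
  obtain ⟨B, hB⟩ := (hK.image v.continuous).isBounded.subset_closedBall 0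
  have hb : ∀ n, ∃ A : ℝ, vn n '' K ⊆ closedBall 0 A := fun n =>
    (hK.image (vn n).continuous).isBounded.subset_closedBall 0
  choose a ha using hb
  refine ⟨(B + 1) ⊔ ((Finset.range (N + 1)).sup' ⟨0, by simp⟩ a), fun n => ?_⟩
  rcases le_or_gt N n with h | h
  · rintro _ ⟨z, hz, rfl⟩
    have h1 := hN n h z hz
    have h2 := hB (mem_image_of_mem v hz)
    rw [mem_closedBall_zero_iff] at h2 ⊢
    refine le_trans ?_ (le_sup_left)
    rw [dist_comm, dist_eq_norm] at h1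
    have h3 : ‖vn n z‖ ≤ ‖vn n z - v z‖ + ‖v z‖ := by
      have := norm_add_le (vn n z - v z) (v z)
      simpa using this
    linarith
  · refine (ha n).trans (closedBall_subset_closedBall ?_)
    refine le_trans ?_ (le_sup_right)
    exact Finset.le_sup' a (Finset.mem_range.mpr (by omega))

theorem dirichlet_seq {k : ℝ} (hk : k < 1) {v : ℂ ≃ₜ ℂ} {vn : ℕ → ℂ ≃ₜ ℂ}
    (h2 : ∀ n, ContDiff ℝ ∞ (vn n)) (h3 : ∀ n z, ‖dzb (vn n) z‖ ≤ k * ‖dz (vn n) z‖)
    (h4 : ∀ n z, dz (vn n) z ≠ 0)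
    (h6 : TendstoLocallyUniformly (fun n z => vn n z) v atTop) {K : Set ℂ} (hK : IsCompact K) :
    ∃ C : ℝ≥0∞, C ≠ ⊤ ∧ ∀ n, eLpNorm (dz (vn n)) 2 (volume.restrict K) ≤ C ∧
      eLpNorm (dzb (vn n)) 2 (volume.restrict K) ≤ C := by
  have hk0 : 0 ≤ k := by
    have h1 := h3 0 0
    have h5 : 0 < ‖dz (vn 0) 0‖ := norm_pos_iff.mpr (h4 0 0)
    have h7 := norm_nonneg (dzb (vn 0) 0)
    by_contra hc
    push Not at hc
    nlinarith
  obtain ⟨A, hA⟩ := jacG4_image h6 hK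
  set M : ℝ := (volume (closedBall (0 : ℂ) A)).toReal with hM
  have hMfin : volume (closedBall (0 : ℂ) A) ≠ ⊤ := measure_closedBall_lt_top.ne
  refine ⟨(ENNReal.ofReal ((1 + k) / (1 - k) * M)) ^ (1 / 2 : ℝ),
    ENNReal.rpow_ne_top_of_nonneg (by norm_num) ENNReal.ofReal_ne_top, fun n => ?_⟩
  have h1 : ∫⁻ z in K, ENNReal.ofReal (‖fderiv ℝ (vn n) z‖ ^ 2)
      ≤ ENNReal.ofReal ((1 + k) / (1 - k) * M) := by
    apply dirichlet_le isOpen_univ ((h2 n).of_le (by norm_cast)).contDiffOn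
      ((vn n).injective.injOn) hk0 hk (fun z _ => h3 n z) hK.measurableSet (subset_univ _)
      ENNReal.toReal_nonneg
    rw [ENNReal.ofReal_toReal hMfin]
    exact measure_mono (hA n)
  have key : ∀ g : ℂ → ℂ, (∀ z, ‖g z‖ ≤ ‖fderiv ℝ (vn n) z‖) →
      eLpNorm g 2 (volume.restrict K) ≤ (ENNReal.ofReal ((1 + k) / (1 - k) * M)) ^ (1 / 2 : ℝ) := by
    intro g hg
    rw [eLpNorm_eq_lintegral_rpow_enorm_toReal (by norm_num) (by norm_num)]
    simp only [ENNReal.toReal_ofNat]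
    apply ENNReal.rpow_le_rpow _ (by norm_num)
    refine le_trans ?_ h1
    apply lintegral_mono
    intro z
    simp only
    rw [← ofReal_norm, ENNReal.ofReal_rpow_of_nonneg (norm_nonneg _) (by norm_num)]
    apply ENNReal.ofReal_le_ofReal
    rw [Real.rpow_ofNat]
    have := hg z
    gcongr
  exact ⟨key _ (norm_dz_le _), key _ (norm_dzb_le _)⟩

end QC
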