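import Pool.Agent.Work.MP_217185_an.Wirt

/-! # JacG5: a measure determined by test functions

`J ≥ 0` a.e.: for a real test function `φ ≥ 0`, `∫ φ J = ∫ φ ∘ u ≥ 0`; if `J < 0` on a set of positive
measure choose a compact subset and approximate its indicator by test functions
(or: `J⁻` ... `ae_nonneg_of_forall_setIntegral_nonneg` with indicators of compact/measurable sets by
approximation).  The measures `E ↦ volume (u.symm '' E) = volume (u ⁻¹' E)` (`Measure.map u volume`)
and `volume.withDensity (ENNReal.ofReal ∘ J)` are locally finite Borel measures on `ℂ` with the same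
integrals of nonnegative real test functions, so they agree on compact sets (a compact set is a
decreasing limit of test functions with values in `[0,1]`), hence are equal. -/

open MeasureTheory Complex Set Metric Filter
open scoped Topology ENNReal NNReal ContDiff ComplexConjugate

namespace QC

private theorem jacG5_bump {K U : Set ℂ} (hK : IsCompact K) (hU : IsOpen U) (h : K ⊆ U) :
    ∃ f : ℂ → ℝ, ContDiff ℝ ∞ f ∧ HasCompactSupport f ∧ (∀ x, 0 ≤ f x) ∧ (∀ x, f x ≤ 1) ∧
      (∀ x ∈ K, f x = 1) ∧ ∀ x ∉ U, f x = 0 := by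
  have hs : IsOpen (U ∩ thickening 1 K) := hU.inter isOpen_thickening
  obtain ⟨f, f1, f2, f3, f4⟩ := exists_contMDiff_support_eq_eq_one_iff
    (modelWithCornersSelf ℝ ℂ) hs hK.isClosed
    (subset_inter h (self_subset_thickening one_pos K))
  refine ⟨f, f1.contDiff, ?_, fun x => (f2 (mem_range_self x)).1,
    fun x => (f2 (mem_range_self x)).2, fun x hx => (f4 x).1 hx, fun x hx => ?_⟩
  · refine HasCompactSupport.of_support_subset_isCompact
      (hK.isBounded.cthickening (δ := 1)).isCompact_closure ?_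
    rw [f3]
    exact inter_subset_right.trans ((thickening_subset_cthickening 1 K).trans subset_closure)
  · by_contra h0
    have : x ∈ Function.support f := h0
    rw [f3] at this
    exact hx this.1

private theorem jacG5_le {μ1 μ2 : Measure ℂ} [IsLocallyFiniteMeasure μ1]
    [IsLocallyFiniteMeasure μ2]
    (h : ∀ f : ℂ → ℝ, ContDiff ℝ ∞ f → HasCompactSupport f → (∀ x, 0 ≤ f x) →
      ∫⁻ x, ENNReal.ofReal (f x) ∂μ1 ≤ ∫⁻ x, ENNReal.ofReal (f x) ∂μ2) (U : Set ℂ)
    (hU : IsOpen U) : μ1 U ≤ μ2 U := by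
  rw [hU.measure_eq_iSup_isCompact]
  refine iSup_le fun K => iSup_le fun hKU => iSup_le fun hK => ?_
  obtain ⟨f, f1, f2, f3, f4, f5, f6⟩ := jacG5_bump hK hU hKU
  calc μ1 K = ∫⁻ x, K.indicator 1 x ∂μ1 := (lintegral_indicator_one hK.measurableSet).symm
    _ ≤ ∫⁻ x, ENNReal.ofReal (f x) ∂μ1 := by
        refine lintegral_mono fun x => ?_
        by_cases hx : x ∈ K
        · simp [hx, f5 x hx]
        · simp [hx]
    _ ≤ ∫⁻ x, ENNReal.ofReal (f x) ∂μ2 := h f f1 f2 f3
    _ ≤ ∫⁻ x, U.indicator 1 x ∂μ2 := by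
        refine lintegral_mono fun x => ?_
        by_cases hx : x ∈ U
        · simpa [hx] using f4 x
        · simp [hx, f6 x hx]
    _ = μ2 U := lintegral_indicator_one hU.measurableSet

private theorem jacG5_ext {μ1 μ2 : Measure ℂ} [IsLocallyFiniteMeasure μ1]
    [IsLocallyFiniteMeasure μ2]
    (h : ∀ f : ℂ → ℝ, ContDiff ℝ ∞ f → HasCompactSupport f → (∀ x, 0 ≤ f x) →
      ∫⁻ x, ENNReal.ofReal (f x) ∂μ1 = ∫⁻ x, ENNReal.ofReal (f x) ∂μ2) : μ1 = μ2 :=
  Measure.OuterRegular.ext_isOpen fun U hU =>
    le_antisymm (jacG5_le (fun f a b c => (h f a b c).le) U hU)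
      (jacG5_le (fun f a b c => (h f a b c).ge) U hU)

private theorem jacG5_lf {J : ℂ → ℝ} (hJ : LocallyIntegrable J) :
    IsLocallyFiniteMeasure (volume.withDensity fun z => ENNReal.ofReal (J z)) := by
  refine ⟨fun x => ?_⟩
  obtain ⟨s, hs, hi⟩ := hJ x
  obtain ⟨t, hts, hto, hxt⟩ := _root_.mem_nhds_iff.1 hs
  refine ⟨t, hto.mem_nhds hxt, ?_⟩
  rw [withDensity_apply _ hto.measurableSet]
  have h1 : IntegrableOn J t := hi.mono_set hts
  exact h1.lintegral_lt_top

theorem measure_of_test {u : ℂ ≃ₜ ℂ} {J : ℂ → ℝ} (hJm : Measurable J) (hJ : LocallyIntegrable J)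
    (h : ∀ φ : ℂ → ℂ, Test univ φ → ∫ z, φ (u z) = ∫ z, φ z * ((J z : ℝ) : ℂ)) :
    (∀ᵐ z, 0 ≤ J z) ∧ ∀ E, MeasurableSet E →
      volume (u.symm '' E) = ∫⁻ z in E, ENNReal.ofReal (J z) := by
  set ν : Measure ℂ := Measure.map u volume with hν
  have hJn : Measurable fun z => ENNReal.ofReal (-J z) := hJm.neg.ennreal_ofReal
  have : IsLocallyFiniteMeasure ν := by
    refine ⟨fun x => ⟨closedBall x 1, closedBall_mem_nhds x one_pos, ?_⟩⟩
    rw [hν, Measure.map_apply u.continuous.measurable measurableSet_closedBall]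
    have : u ⁻¹' closedBall x 1 = u.symm '' closedBall x 1 := (u.symm.image_eq_preimage_symm _).symm
    rw [this]
    exact ((isCompact_closedBall x 1).image u.symm.continuous).measure_lt_top
  have : IsLocallyFiniteMeasure (volume.withDensity fun z => ENNReal.ofReal (J z)) := jacG5_lf hJ
  have : IsLocallyFiniteMeasure (volume.withDensity fun z => ENNReal.ofReal (-J z)) :=
    jacG5_lf hJ.neg
  have : IsLocallyFiniteMeasure (ν + volume.withDensity fun z => ENNReal.ofReal (-J z)) := by
    refine ⟨fun x => ?_⟩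
    obtain ⟨s, hs, hi⟩ := ν.finiteAt_nhds x
    obtain ⟨t, ht, hj⟩ :=
      (volume.withDensity fun z => ENNReal.ofReal (-J z)).finiteAt_nhds x
    refine ⟨s ∩ t, inter_mem hs ht, ?_⟩
    rw [Measure.add_apply]
    exact ENNReal.add_lt_top.2 ⟨(measure_mono inter_subset_left).trans_lt hi,
      (measure_mono inter_subset_right).trans_lt hj⟩
  have key : ν + (volume.withDensity fun z => ENNReal.ofReal (-J z))
      = volume.withDensity fun z => ENNReal.ofReal (J z) := by
    refine jacG5_ext fun f f1 f2 f3 => ?_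
    have hfm : Measurable fun z => ENNReal.ofReal (f z) := f1.continuous.measurable.ennreal_ofReal
    rw [lintegral_add_measure, hν, lintegral_map hfm u.continuous.measurable,
      lintegral_withDensity_eq_lintegral_mul _ hJn hfm,
      lintegral_withDensity_eq_lintegral_mul _ hJm.ennreal_ofReal hfm]
    have hT : Test univ (fun z => ((f z : ℝ) : ℂ)) :=
      ⟨Complex.ofRealCLM.contDiff.comp f1, f2.comp_left (g := fun x : ℝ => (x : ℂ)) (by simp),
        subset_univ _⟩
    have h0 := h _ hT
    have hgi : Integrable (fun z => J z * f z) := by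
      have := hJ.integrable_smul_left_of_hasCompactSupport f1.continuous f2
      refine this.congr (Filter.Eventually.of_forall fun z => ?_)
      simp [mul_comm]
    have hfu : Integrable (fun z => f (u z)) := by
      refine (f1.continuous.comp u.continuous).integrable_of_hasCompactSupport ?_
      exact f2.comp_homeomorph u
    have h1 : ∫ z, f (u z) = ∫ z, J z * f z := by
      have e1 : ∫ z, ((f (u z) : ℝ) : ℂ) = ((∫ z, f (u z) : ℝ) : ℂ) := integral_ofReal
      have e2 : ∫ z, ((f z : ℝ) : ℂ) * ((J z : ℝ) : ℂ) = ((∫ z, J z * f z : ℝ) : ℂ) := by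
        have e3 : ∫ z, ((J z * f z : ℝ) : ℂ) = ((∫ z, J z * f z : ℝ) : ℂ) := integral_ofReal
        rw [← e3]
        congr 1
        funext z
        push_cast
        ring
      rw [e1, e2] at h0
      exact_mod_cast h0
    rw [integral_eq_lintegral_of_nonneg_ae (Filter.Eventually.of_forall fun z => f3 (u z))
      hfu.aestronglyMeasurable, integral_eq_lintegral_pos_part_sub_lintegral_neg_part hgi] at h1
    have hA : ∫⁻ z, ENNReal.ofReal (f (u z)) ≠ ⊤ := hfu.lintegral_lt_top.ne
    have hP : ∫⁻ z, ENNReal.ofReal (J z * f z) ≠ ⊤ := hgi.lintegral_lt_top.ne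
    have hN : ∫⁻ z, ENNReal.ofReal (-(J z * f z)) ≠ ⊤ := hgi.neg.lintegral_lt_top.ne
    have e3 : ∀ z, ((fun z => ENNReal.ofReal (-J z)) * fun z => ENNReal.ofReal (f z)) z
        = ENNReal.ofReal (-(J z * f z)) := by
      intro z
      rw [Pi.mul_apply, ← ENNReal.ofReal_mul' (f3 z)]
      congr 1; ring
    have e4 : ∀ z, ((fun z => ENNReal.ofReal (J z)) * fun z => ENNReal.ofReal (f z)) z
        = ENNReal.ofReal (J z * f z) := by
      intro z
      rw [Pi.mul_apply, ← ENNReal.ofReal_mul' (f3 z)]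
    rw [lintegral_congr e3, lintegral_congr e4]
    rw [← ENNReal.toReal_eq_toReal_iff' (ENNReal.add_ne_top.2 ⟨hA, hN⟩) hP,
      ENNReal.toReal_add hA hN]
    linarith
  have hnn : ∀ᵐ z, 0 ≤ J z := by
    have hA : MeasurableSet {z | J z < 0} := measurableSet_lt hJm measurable_const
    have h1 : (volume.withDensity fun z => ENNReal.ofReal (J z)) {z | J z < 0} = 0 := by
      rw [withDensity_apply _ hA, setLIntegral_congr_fun hA
        (g := fun _ => 0) (fun z hz => ENNReal.ofReal_of_nonpos (le_of_lt hz))]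
      simp
    rw [← key, Measure.add_apply, add_eq_zero] at h1
    have h2 := h1.2
    rw [withDensity_apply _ hA, lintegral_eq_zero_iff hJn] at h2
    have h3 := (ae_restrict_iff' hA).1 h2
    filter_upwards [h3] with z hz
    by_contra hlt
    have h4 := hz (not_le.1 hlt)
    have h5 : -J z ≤ 0 := ENNReal.ofReal_eq_zero.1 h4
    linarith [not_le.1 hlt]
  refine ⟨hnn, fun E hE => ?_⟩
  have hz : (volume.withDensity fun z => ENNReal.ofReal (-J z)) = 0 := by
    have : (fun z => ENNReal.ofReal (-J z)) =ᵐ[volume] 0 := by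
      filter_upwards [hnn] with z hz
      exact ENNReal.ofReal_of_nonpos (by linarith)
    rw [withDensity_congr_ae this, withDensity_zero]
  rw [hz, add_zero] at key
  rw [← withDensity_apply _ hE, ← key, hν, Measure.map_apply u.continuous.measurable hE]
  congr 1
  exact u.symm.image_eq_preimage_symm E

end QC
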