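import Pool.Agent.Work.MP_217185_an.JacG2
import Pool.Agent.Work.MP_217185_an.JacG3
import Pool.Agent.Work.MP_217185_an.JacG4
import Pool.Agent.Work.MP_217185_an.JacG5

/-! # JacG: weak continuity of the Jacobian and the pushforward formula

Let `v n = (u n).symm`, `v = u.symm`.  `dirichlet_seq` and `WD.of_bdd` (`WD.of_contDiffOn` for `v n`)
give the weak derivatives `c, d` of `v`.  For a test function `φ`:
`∫ φ (un n z) dz = ∫ φ J(v n)` (change of variables `z = v n y`, `det_fderiv`; the Jacobian is positive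
by `h3`, `h4`), which equals `- ∫ v n (∂φ conj(∂(v n)) - ∂̄φ conj (∂̄(v n)))` (`jac_formula`).  As
`n → ∞`: `v n → v` uniformly on `tsupport φ`, the derivatives are bounded in `L²` and converge weakly
(`weak_conv` with the conjugated integrals, `ψ = conj (v ∂φ)`), so the right side tends to
`- ∫ v (∂φ conj c - ∂̄φ conj d) = ∫ φ (‖c‖² - ‖d‖²)` (`jac_formula_wd`); the left side tends to
`∫ φ (u z) dz` (`un → u` locally uniformly; the supports of `φ ∘ un n = un n ⁻¹' (tsupport φ) =
v n '' (tsupport φ)` stay in a compact set).  Then `measure_of_test`. -/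

open MeasureTheory Complex Set Metric Filter
open scoped Topology ENNReal NNReal ContDiff ComplexConjugate

namespace QC

private theorem jacG_lim {K : Set ℂ} (hK : IsCompact K) {p V a : ℂ → ℂ} {Vn An : ℕ → ℂ → ℂ}
    (hp : Continuous p) (hpc : HasCompactSupport p) (hps : ∀ z, z ∉ K → p z = 0)
    (hV : Continuous V) (hVn : ∀ n, Continuous (Vn n)) (hu : TendstoUniformlyOn Vn V atTop K)
    (hAn : ∀ n, MemLp (An n) 2 (volume.restrict K)) {C : ℝ≥0∞}
    (hC : C ≠ ⊤) (hb : ∀ n, eLpNorm (An n) 2 (volume.restrict K) ≤ C)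
    (hw : Tendsto (fun n => ∫ z, conj (p z * V z) * An n z) atTop
      (𝓝 (∫ z, conj (p z * V z) * a z))) :
    Tendsto (fun n => ∫ z in K, (p z * Vn n z) * conj (An n z)) atTop
      (𝓝 (∫ z in K, (p z * V z) * conj (a z))) := by
  obtain ⟨C1, hC1⟩ := hp.bounded_above_of_compact_support hpc
  have hVK := l2_memLp_of_continuous hK hV
  have hVnK := fun n => l2_memLp_of_continuous hK (hVn n)
  have h1 := l2_tendsto_bdd_mul (b := p) hC1 (l2_tendsto_of_unif hK hu)
  have mV := l2_memLp_bdd_mul hp hC1 hVK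
  have mVn := fun n => l2_memLp_bdd_mul hp hC1 (hVnK n)
  have hd : ∀ n, MemLp (fun z => p z * Vn n z - p z * V z) 2 (volume.restrict K) :=
    fun n => (mVn n).sub mV
  have t1 : Tendsto (fun n => ∫ z in K, conj (An n z) * (p z * Vn n z - p z * V z)) atTop
      (𝓝 0) := by
    refine l2_tendsto_zero (fun n => l2_memLp_conj (hAn n)) hd hC (fun n => ?_) h1
    refine le_trans (le_of_eq ?_) (hb n)
    exact eLpNorm_congr_norm_ae (Eventually.of_forall fun z => by simp)
  have e0 : ∀ g : ℂ → ℂ, ∫ z in K, (p z * V z) * conj (g z)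
      = conj (∫ z, conj (p z * V z) * g z) := by
    intro g
    rw [← integral_conj, setIntegral_eq_integral_of_forall_compl_eq_zero
      (fun z hz => by rw [hps z hz]; ring)]
    congr 1
    funext z
    simp
  have t2 : Tendsto (fun n => ∫ z in K, (p z * V z) * conj (An n z)) atTop
      (𝓝 (∫ z in K, (p z * V z) * conj (a z))) := by
    rw [e0]
    exact ((Complex.continuous_conj.tendsto _).comp hw).congr fun n => (e0 _).symm
  have t3 := t1.add t2
  rw [zero_add] at t3
  refine t3.congr fun n => ?_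
  rw [← integral_add (l2_integrable_mul (l2_memLp_conj (hAn n)) (hd n))
    (l2_integrable_mul mV (l2_memLp_conj (hAn n)))]
  congr 1
  funext z
  ring

private theorem jacG_left {u : ℂ ≃ₜ ℂ} {un : ℕ → ℂ ≃ₜ ℂ}
    (h5 : TendstoLocallyUniformly (fun n z => un n z) u atTop)
    (h6 : TendstoLocallyUniformly (fun n z => (un n).symm z) u.symm atTop) {φ : ℂ → ℂ}
    (hφ : Test univ φ) :
    Tendsto (fun n => ∫ z, φ (un n z)) atTop (𝓝 (∫ z, φ (u z))) := by
  set K := tsupport φ with hKd
  have hK : IsCompact K := hφ.cpt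
  obtain ⟨C, hC⟩ := hφ.smooth.continuous.bounded_above_of_compact_support hφ.cpt
  have hC0 : 0 ≤ C := (norm_nonneg _).trans (hC 0)
  have huK := (tendstoLocallyUniformly_iff_forall_isCompact.1 h6) K hK
  have hK1 : IsCompact (u.symm '' K) := hK.image u.symm.continuous
  set K' := cthickening 1 (u.symm '' K) with hK'd
  have hK' : IsCompact K' := hK1.cthickening
  refine tendsto_integral_filter_of_dominated_convergence (K'.indicator fun _ => C)
    (Eventually.of_forall fun n =>
      (hφ.smooth.continuous.comp (un n).continuous).aestronglyMeasurable) ?_ ?_ ?_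
  · filter_upwards [Metric.tendstoUniformlyOn_iff.1 huK 1 one_pos] with n hn
    refine Eventually.of_forall fun z => ?_
    by_cases hz : z ∈ K'
    · rw [indicator_of_mem hz]
      exact hC _
    · rw [indicator_of_notMem hz]
      have h0 : φ (un n z) = 0 := by
        refine image_eq_zero_of_notMem_tsupport fun h => hz ?_
        have h1 := hn (un n z) h
        simp only [Homeomorph.symm_apply_apply] at h1
        refine thickening_subset_cthickening 1 _ ?_
        rw [mem_thickening_iff]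
        exact ⟨_, mem_image_of_mem _ h, by rwa [dist_comm]⟩
      rw [h0, norm_zero]
  · exact (integrable_indicator_iff hK'.measurableSet).2
      (integrableOn_const hK'.measure_lt_top.ne)
  · refine Eventually.of_forall fun z => (hφ.smooth.continuous.tendsto _).comp ?_
    have := (tendstoLocallyUniformlyOn_univ.2 h5).tendsto_at (mem_univ z)
    exact this

private theorem jacG_change {k : ℝ} (hk : k < 1) {w : ℂ ≃ₜ ℂ} (h2 : ContDiff ℝ ∞ w.symm)
    (h3 : ∀ z, ‖dzb w.symm z‖ ≤ k * ‖dz w.symm z‖) (φ : ℂ → ℂ) :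
    ∫ z, φ (w z) = ∫ z, φ z * ((‖dz w.symm z‖ ^ 2 - ‖dzb w.symm z‖ ^ 2 : ℝ) : ℂ) := by
  have hd : ∀ z, HasFDerivAt w.symm (fderiv ℝ w.symm z) z := fun z =>
    ((h2.differentiable (by simp)) z).hasFDerivAt
  have h := integral_image_eq_integral_abs_det_fderiv_smul volume MeasurableSet.univ
    (fun z _ => (hd z).hasFDerivWithinAt) w.symm.injective.injOn (fun z => φ (w z))
  rw [image_univ, w.symm.surjective.range_eq, setIntegral_univ, setIntegral_univ] at h
  rw [h]
  congr 1
  funext z
  have hnn : 0 ≤ ‖dz w.symm z‖ ^ 2 - ‖dzb w.symm z‖ ^ 2 := by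
    have h4 : ‖dzb w.symm z‖ ≤ ‖dz w.symm z‖ :=
      (h3 z).trans (mul_le_of_le_one_left (norm_nonneg _) hk.le)
    have := pow_le_pow_left₀ (norm_nonneg _) h4 2
    linarith
  rw [det_fderiv, abs_of_nonneg hnn, Homeomorph.apply_symm_apply, Complex.real_smul, mul_comm]

theorem push_formula {k : ℝ} (hk : k < 1) {u : ℂ ≃ₜ ℂ} {un : ℕ → ℂ ≃ₜ ℂ}
    (h1 : ∀ n, ContDiff ℝ ∞ (un n)) (h2 : ∀ n, ContDiff ℝ ∞ (un n).symm)
    (h3 : ∀ n z, ‖dzb (un n).symm z‖ ≤ k * ‖dz (un n).symm z‖)
    (h4 : ∀ n z, dz (un n).symm z ≠ 0)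
    (h5 : TendstoLocallyUniformly (fun n z => un n z) u atTop)
    (h6 : TendstoLocallyUniformly (fun n z => (un n).symm z) u.symm atTop) :
    ∃ c d, Measurable c ∧ Measurable d ∧ WD univ u.symm c d ∧ (∀ᵐ z, ‖d z‖ ≤ ‖c z‖) ∧
      ∀ E, MeasurableSet E →
        volume (u.symm '' E) = ∫⁻ z in E, ENNReal.ofReal (‖c z‖ ^ 2 - ‖d z‖ ^ 2) := by
  have hbd : ∀ K : Set ℂ, IsCompact K → ∃ C : ℝ≥0∞, C ≠ ⊤ ∧ ∀ n,
      eLpNorm (dz (un n).symm) 2 (volume.restrict K) ≤ C ∧
      eLpNorm (dzb (un n).symm) 2 (volume.restrict K) ≤ C := fun K hK =>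
    dirichlet_seq hk (v := u.symm) (vn := fun n => (un n).symm) h2 h3 h4 h6 hK
  obtain ⟨c, d, hc, hd, hW⟩ := WD.of_bdd isOpen_univ (f := u.symm) u.symm.continuous.continuousOn
    (F := fun n z => (un n).symm z) (A := fun n => dz (un n).symm) (B := fun n => dzb (un n).symm)
    (fun n => WD.of_contDiffOn isOpen_univ (((h2 n).of_le (by simp)).contDiffOn))
    (tendstoLocallyUniformlyOn_univ.2 h6) (fun K _ hK => hbd K hK)
  have hJl : LocallyIntegrable (fun z => ‖c z‖ ^ 2 - ‖d z‖ ^ 2) := by
    rw [locallyIntegrable_iff]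
    intro K hK
    have a1 := (memLp_two_iff_integrable_sq_norm
      (hW.la K (subset_univ _) hK).aestronglyMeasurable).1 (hW.la K (subset_univ _) hK)
    have a2 := (memLp_two_iff_integrable_sq_norm
      (hW.lb K (subset_univ _) hK).aestronglyMeasurable).1 (hW.lb K (subset_univ _) hK)
    exact a1.sub a2
  have hJm : Measurable (fun z => ‖c z‖ ^ 2 - ‖d z‖ ^ 2) :=
    (hc.norm.pow_const 2).sub (hd.norm.pow_const 2)
  have key : ∀ φ : ℂ → ℂ, Test univ φ →
      ∫ z, φ (u z) = ∫ z, φ z * ((‖c z‖ ^ 2 - ‖d z‖ ^ 2 : ℝ) : ℂ) := by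
    intro φ hφ
    refine tendsto_nhds_unique (jacG_left h5 h6 hφ) ?_
    set K := tsupport φ with hKd
    have hK : IsCompact K := hφ.cpt
    obtain ⟨C, hC, hCb⟩ := hbd K hK
    have hsm : ∀ n, ContDiff ℝ ∞ (un n).symm := h2
    have hu := (tendstoLocallyUniformly_iff_forall_isCompact.1 h6) K hK
    have hdφ := hφ.dz
    have hz0 : ∀ z, z ∉ K → fderiv ℝ φ z = 0 := by
      intro z hz
      have : z ∉ Function.support (fderiv ℝ φ) := fun h => hz (support_fderiv_subset ℝ h)
      simpa using this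
    have hz1 : ∀ z, z ∉ K → dz φ z = 0 := fun z hz => by simp [QC.dz, hz0 z hz]
    have hz2 : ∀ z, z ∉ K → dzb φ z = 0 := fun z hz => by simp [QC.dzb, hz0 z hz]
    have hconj : ∀ p : ℂ → ℂ, Continuous p → HasCompactSupport p →
        Continuous (fun z => conj (p z * u.symm z)) ∧
        HasCompactSupport (fun z => conj (p z * u.symm z)) := by
      intro p hp hpc
      refine ⟨Complex.continuous_conj.comp (hp.mul u.symm.continuous), ?_⟩
      exact (hpc.mul_right (f' := fun z => u.symm z)).comp_left (g := fun x : ℂ => conj x)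
        (by simp)
    have c1 := hconj _ hdφ.1.smooth.continuous hdφ.1.cpt
    have c2 := hconj _ hdφ.2.smooth.continuous hdφ.2.cpt
    have w1 := (weak_conv (F := fun n z => (un n).symm z) hsm u.symm.continuous hW h6
      hbd c1.1 c1.2).1
    have w2 := (weak_conv (F := fun n z => (un n).symm z) hsm u.symm.continuous hW h6
      hbd c2.1 c2.2).2
    have t1 := jacG_lim hK (Vn := fun n z => (un n).symm z) (An := fun n => dz (un n).symm)
      hdφ.1.smooth.continuous hdφ.1.cpt hz1 u.symm.continuous (fun n => (un n).symm.continuous) hu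
      (fun n => l2_memLp_of_continuous hK (contDiff_dz (h2 n)).1.continuous) hC
      (fun n => (hCb n).1) w1
    have t2 := jacG_lim hK (Vn := fun n z => (un n).symm z) (An := fun n => dzb (un n).symm)
      hdφ.2.smooth.continuous hdφ.2.cpt hz2 u.symm.continuous (fun n => (un n).symm.continuous) hu
      (fun n => l2_memLp_of_continuous hK (contDiff_dz (h2 n)).2.continuous) hC
      (fun n => (hCb n).2) w2
    have s0 := jac_split hK hφ (le_refl _) u.symm.continuous (hW.la K (subset_univ _) hK)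
      (hW.lb K (subset_univ _) hK)
    have sn := fun n => jac_split (V := (un n).symm) hK hφ (le_refl _) (un n).symm.continuous
      (l2_memLp_of_continuous hK (contDiff_dz (h2 n)).1.continuous)
      (l2_memLp_of_continuous hK (contDiff_dz (h2 n)).2.continuous)
    rw [jac_formula_wd u.symm.continuous hW hφ, s0.2]
    refine ((t1.sub t2).neg).congr fun n => ?_
    rw [jacG_change hk (h2 n) (h3 n) φ, jac_formula (h2 n) hφ, (sn n).2]
  obtain ⟨r1, r2⟩ := measure_of_test hJm hJl key
  refine ⟨c, d, hc, hd, hW, ?_, r2⟩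
  filter_upwards [r1] with z hz
  exact (pow_le_pow_iff_left₀ (norm_nonneg _) (norm_nonneg _) two_ne_zero).1 (by linarith)

end QC
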