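import Pool.Agent.Work.MP_217185_an.Wirt

/-! # JacG1: the Jacobian of a smooth function as a divergence

Integrate by parts: `∫ φ ∂v conj(∂v) = - ∫ v ∂(φ conj(∂v)) = - ∫ v (∂φ conj(∂v) + φ ∂(conj(∂v)))`,
`∫ φ ∂̄v conj(∂̄v) = - ∫ v (∂̄φ conj(∂̄v) + φ ∂̄(conj(∂̄v)))`, and
`∂(conj(∂v)) = conj(∂̄∂v) = conj(∂∂̄v) = ∂̄(conj(∂̄v))` (`dz_conj`, `dz_dzb_comm`). -/

open MeasureTheory Complex Set Metric Filter
open scoped Topology ENNReal NNReal ContDiff ComplexConjugate

namespace QC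

theorem jac_formula {v φ : ℂ → ℂ} (hv : ContDiff ℝ ∞ v) (hφ : Test univ φ) :
    ∫ z, φ z * ((‖dz v z‖ ^ 2 - ‖dzb v z‖ ^ 2 : ℝ) : ℂ)
      = - ∫ z, v z * (dz φ z * conj (dz v z) - dzb φ z * conj (dzb v z)) := by
  obtain ⟨hdv, hdbv⟩ := contDiff_dz hv
  have hconj : ContDiff ℝ ∞ (fun z : ℂ => conj z) := Complex.conjCLE.contDiff
  set g1 : ℂ → ℂ := fun z => φ z * conj (dz v z) with hg1
  set g2 : ℂ → ℂ := fun z => φ z * conj (dzb v z) with hg2
  have s1 : ContDiff ℝ ∞ g1 := hφ.smooth.mul (hconj.comp hdv)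
  have s2 : ContDiff ℝ ∞ g2 := hφ.smooth.mul (hconj.comp hdbv)
  have c1 : HasCompactSupport g1 := hφ.cpt.mul_right
  have c2 : HasCompactSupport g2 := hφ.cpt.mul_right
  have h1le : (1 : WithTop ℕ∞) ≤ ((⊤ : ℕ∞) : WithTop ℕ∞) := WithTop.coe_le_coe.2 (le_top : (1 : ℕ∞) ≤ ⊤)
  have i1 := (integral_mul_dz isOpen_univ (f := v) (hv.of_le h1le).contDiffOn
    (s1.of_le h1le) c1 (subset_univ _)).1
  have i2 := (integral_mul_dz isOpen_univ (f := v) (hv.of_le h1le).contDiffOn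
    (s2.of_le h1le) c2 (subset_univ _)).2
  have d1 : ∀ z, dz g1 z = dz φ z * conj (dz v z) + φ z * conj (dzb (dz v) z) := by
    intro z
    rw [hg1, (dz_mul (f := φ) (g := fun z => conj (dz v z)) (z := z)
      ((hφ.smooth.differentiable (by simp)) z)
      (((hconj.comp hdv).differentiable (by simp)) z)).1, (dz_conj (dz v) z).1]
  have d2 : ∀ z, dzb g2 z = dzb φ z * conj (dzb v z) + φ z * conj (dz (dzb v) z) := by
    intro z
    rw [hg2, (dz_mul (f := φ) (g := fun z => conj (dzb v z)) (z := z)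
      ((hφ.smooth.differentiable (by simp)) z)
      (((hconj.comp hdbv).differentiable (by simp)) z)).2, (dz_conj (dzb v) z).2]
  have j1 : Integrable (fun z => dz v z * g1 z) :=
    (hdv.continuous.mul s1.continuous).integrable_of_hasCompactSupport c1.mul_left
  have j2 : Integrable (fun z => dzb v z * g2 z) :=
    (hdbv.continuous.mul s2.continuous).integrable_of_hasCompactSupport c2.mul_left
  have t1 := (contDiff_dz s1).1
  have t2 := (contDiff_dz s2).2
  have Tg1 : Test univ g1 := ⟨s1, c1, subset_univ _⟩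
  have Tg2 : Test univ g2 := ⟨s2, c2, subset_univ _⟩
  have j3 : Integrable (fun z => v z * dz g1 z) :=
    (hv.continuous.mul t1.continuous).integrable_of_hasCompactSupport Tg1.dz.1.cpt.mul_left
  have j4 : Integrable (fun z => v z * dzb g2 z) :=
    (hv.continuous.mul t2.continuous).integrable_of_hasCompactSupport Tg2.dz.2.cpt.mul_left
  have e1 : (fun z => φ z * ((‖dz v z‖ ^ 2 - ‖dzb v z‖ ^ 2 : ℝ) : ℂ))
      = fun z => dz v z * g1 z - dzb v z * g2 z := by
    funext z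
    have n1 : ((‖dz v z‖ ^ 2 : ℝ) : ℂ) = dz v z * conj (dz v z) := by
      rw [Complex.mul_conj, Complex.normSq_eq_norm_sq]
    have n2 : ((‖dzb v z‖ ^ 2 : ℝ) : ℂ) = dzb v z * conj (dzb v z) := by
      rw [Complex.mul_conj, Complex.normSq_eq_norm_sq]
    rw [Complex.ofReal_sub, n1, n2]
    simp only [hg1, hg2]
    ring
  have e2 : (fun z => v z * (dz φ z * conj (dz v z) - dzb φ z * conj (dzb v z)))
      = fun z => v z * dz g1 z - v z * dzb g2 z := by
    funext z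
    rw [d1 z, d2 z, dz_dzb_comm hv z]
    ring
  rw [e1, e2, integral_sub j1 j2, integral_sub j3 j4]
  rw [i1, i2]
  ring

end QC
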