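import Pool.Agent.Work.MP_217185_an.JacG1
import Pool.Agent.Work.MP_217185_an.Moll
import Pool.Agent.Work.MP_217185_an.L2Kit

/-! # JacG2: the Jacobian as a divergence, weak form

`exists_smooth_approx` on `K = tsupport φ`, `jac_formula` for `F n`, pass to the limit: `dz (F n) → c` in
`L²(K)` so `‖dz (F n)‖² → ‖c‖²` in `L¹(K)`, `F n → v` uniformly on `K`. -/

open MeasureTheory Complex Set Metric Filter
open scoped Topology ENNReal NNReal ContDiff ComplexConjugate

namespace QC

/-- both sides of the Jacobian formula as pairings on a compact set. -/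
theorem jac_split {K : Set ℂ} {φ V A B : ℂ → ℂ} (hK : IsCompact K) (hφ : Test univ φ)
    (hs : tsupport φ ⊆ K) (hV : Continuous V) (hA : MemLp A 2 (volume.restrict K))
    (hB : MemLp B 2 (volume.restrict K)) :
    (∫ z, φ z * ((‖A z‖ ^ 2 - ‖B z‖ ^ 2 : ℝ) : ℂ))
      = (∫ z in K, (φ z * A z) * conj (A z)) - ∫ z in K, (φ z * B z) * conj (B z) ∧
    (∫ z, V z * (dz φ z * conj (A z) - dzb φ z * conj (B z)))
      = (∫ z in K, (dz φ z * V z) * conj (A z)) - ∫ z in K, (dzb φ z * V z) * conj (B z) := by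
  have hd := hφ.dz
  have h0 : ∀ z, z ∉ K → φ z = 0 := fun z hz => image_eq_zero_of_notMem_tsupport fun h => hz (hs h)
  have h1 : ∀ z, z ∉ K → fderiv ℝ φ z = 0 := by
    intro z hz
    have : z ∉ Function.support (fderiv ℝ φ) := fun h => hz (hs (support_fderiv_subset ℝ h))
    simpa using this
  have hVK := l2_memLp_of_continuous hK hV
  obtain ⟨C0, hC0⟩ := hφ.smooth.continuous.bounded_above_of_compact_support hφ.cpt
  have m1 := l2_memLp_bdd_mul hφ.smooth.continuous hC0 hA
  have m2 := l2_memLp_bdd_mul hφ.smooth.continuous hC0 hB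
  have m3 : MemLp (fun z => dz φ z * V z) 2 (volume.restrict K) :=
    l2_memLp_of_continuous hK (hd.1.smooth.continuous.mul hV)
  have m4 : MemLp (fun z => dzb φ z * V z) 2 (volume.restrict K) :=
    l2_memLp_of_continuous hK (hd.2.smooth.continuous.mul hV)
  have cA := l2_memLp_conj hA
  have cB := l2_memLp_conj hB
  constructor
  · rw [← setIntegral_eq_integral_of_forall_compl_eq_zero (s := K)
      (fun z hz => by rw [h0 z hz, zero_mul]),
      ← integral_sub (l2_integrable_mul m1 cA) (l2_integrable_mul m2 cB)]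
    congr 1
    funext z
    have n1 : ((‖A z‖ ^ 2 : ℝ) : ℂ) = A z * conj (A z) := by
      rw [Complex.mul_conj, Complex.normSq_eq_norm_sq]
    have n2 : ((‖B z‖ ^ 2 : ℝ) : ℂ) = B z * conj (B z) := by
      rw [Complex.mul_conj, Complex.normSq_eq_norm_sq]
    rw [Complex.ofReal_sub, n1, n2]
    ring
  · rw [← setIntegral_eq_integral_of_forall_compl_eq_zero (s := K)
      (fun z hz => by simp [QC.dz, QC.dzb, h1 z hz]),
      ← integral_sub (l2_integrable_mul m3 cA) (l2_integrable_mul m4 cB)]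
    congr 1
    funext z
    ring

theorem jac_formula_wd {v c d φ : ℂ → ℂ} (hv : Continuous v) (h : WD univ v c d)
    (hφ : Test univ φ) :
    ∫ z, φ z * ((‖c z‖ ^ 2 - ‖d z‖ ^ 2 : ℝ) : ℂ)
      = - ∫ z, v z * (dz φ z * conj (c z) - dzb φ z * conj (d z)) := by
  set K := tsupport φ with hKdef
  have hK : IsCompact K := hφ.cpt
  obtain ⟨F, hF, hFu, hFc, hFd⟩ := exists_smooth_approx isOpen_univ h hv.continuousOn hK
    (subset_univ _)
  have hcK := h.la K (subset_univ _) hK
  have hdK := h.lb K (subset_univ _) hK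
  have hdφ := hφ.dz
  obtain ⟨C0, hC0⟩ := hφ.smooth.continuous.bounded_above_of_compact_support hφ.cpt
  obtain ⟨C1, hC1⟩ := hdφ.1.smooth.continuous.bounded_above_of_compact_support hdφ.1.cpt
  obtain ⟨C2, hC2⟩ := hdφ.2.smooth.continuous.bounded_above_of_compact_support hdφ.2.cpt
  have mA : ∀ n, MemLp (dz (F n)) 2 (volume.restrict K) := fun n =>
    l2_memLp_of_continuous hK (contDiff_dz (hF n)).1.continuous
  have mB : ∀ n, MemLp (dzb (F n)) 2 (volume.restrict K) := fun n =>
    l2_memLp_of_continuous hK (contDiff_dz (hF n)).2.continuous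
  have hFl := l2_tendsto_of_unif hK hFu
  have hvK := l2_memLp_of_continuous hK hv
  have hFK := fun n => l2_memLp_of_continuous hK (hF n).continuous
  have t1 := l2_tendsto_integral_mul
    (fun n => l2_memLp_bdd_mul hφ.smooth.continuous hC0 (mA n)) (fun n => l2_memLp_conj (mA n))
    (l2_memLp_bdd_mul hφ.smooth.continuous hC0 hcK) (l2_memLp_conj hcK)
    (l2_tendsto_bdd_mul hC0 hFc) (l2_tendsto_conj hFc)
  have t2 := l2_tendsto_integral_mul
    (fun n => l2_memLp_bdd_mul hφ.smooth.continuous hC0 (mB n)) (fun n => l2_memLp_conj (mB n))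
    (l2_memLp_bdd_mul hφ.smooth.continuous hC0 hdK) (l2_memLp_conj hdK)
    (l2_tendsto_bdd_mul hC0 hFd) (l2_tendsto_conj hFd)
  have t3 := l2_tendsto_integral_mul
    (fun n => l2_memLp_bdd_mul hdφ.1.smooth.continuous hC1 (hFK n)) (fun n => l2_memLp_conj (mA n))
    (l2_memLp_bdd_mul hdφ.1.smooth.continuous hC1 hvK) (l2_memLp_conj hcK)
    (l2_tendsto_bdd_mul hC1 hFl) (l2_tendsto_conj hFc)
  have t4 := l2_tendsto_integral_mul
    (fun n => l2_memLp_bdd_mul hdφ.2.smooth.continuous hC2 (hFK n)) (fun n => l2_memLp_conj (mB n))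
    (l2_memLp_bdd_mul hdφ.2.smooth.continuous hC2 hvK) (l2_memLp_conj hdK)
    (l2_tendsto_bdd_mul hC2 hFl) (l2_tendsto_conj hFd)
  have s0 := jac_split hK hφ (le_refl _) hv hcK hdK
  have sn := fun n => jac_split hK hφ (le_refl _) (hF n).continuous (mA n) (mB n)
  rw [s0.1, s0.2]
  refine tendsto_nhds_unique (t1.sub t2) (((t3.sub t4).neg).congr fun n => ?_)
  rw [← (sn n).1, ← (sn n).2]
  exact (jac_formula (hF n) hφ).symm

end QC
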