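import Mathlib

/-! # LemH1: holomorphic maps into Hilbert spaces

`f : E → H` (`H` a complex Hilbert space), locally bounded on the open set `U`, such that `ℓ ∘ f` is
complex differentiable on `U` for a family of continuous functionals `ℓ` separating the points of `H`;
then `f` is complex differentiable on `U`.
(1) The span of the `ℓ` is dense in the dual (`ℓ = ⟪y, ·⟫`, and the `y` have dense span because the
orthogonal complement is `0`), `f` is locally bounded, so for every `y ∈ H`, `a ∈ U`, `x ∈ E` the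
function `λ ↦ ⟪y, f (a + λ x)⟫` is a locally uniform limit of holomorphic functions, holomorphic.
(2) Let `‖f‖ ≤ M` on `ball a (2r)`.  Cauchy estimates: for `‖x‖ < r`,
`|⟪y, f(a+x) - f a⟫ - (d/dλ)_{0} ⟪y, f(a + λ x)⟫| ≤ C M ‖y‖ ‖x‖²/r²` and the derivative is bounded by
`M ‖y‖ ‖x‖ / r`.  By Riesz there is `D x ∈ H` with `⟪y, D x⟫` = the derivative for all `y`,
`‖D x‖ ≤ (M/r) ‖x‖`; `D` is additive and homogeneous because `ℓ (D x)` is the Frechet derivative of
`ℓ ∘ f` for the separating `ℓ`.  So `D` is the Frechet derivative of `f` at `a`.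

`taylor`: scalar or vector one variable Cauchy estimates in the form needed later. -/

open Set Metric Filter
open scoped Topology ComplexConjugate

namespace QC

section

variable {E G : Type} [NormedAddCommGroup E] [NormedSpace ℂ E]
    [NormedAddCommGroup G] [NormedSpace ℂ G]

/-- Cauchy estimates of first and second order. -/
private theorem lemH_taylor {g : E → G} {a : E} {R M : ℝ} (hR : 0 < R)
    (hg : DifferentiableOn ℂ g (ball a R)) (hM : ∀ x ∈ ball a R, ‖g x‖ ≤ M) :
    ‖fderiv ℂ g a‖ ≤ 2 * M / R ∧ ∀ x, ‖x‖ < R →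
      ‖g (a + x) - g a - fderiv ℂ g a x‖ ≤ 4 * M / R ^ 2 * ‖x‖ ^ 2 := by
  have ha : a ∈ ball a R := mem_ball_self hR
  have h0 : ‖g a‖ ≤ M := hM a ha
  have hM0 : 0 ≤ M := (norm_nonneg _).trans h0
  have hmaps : MapsTo g (ball a R) (closedBall (g a) (2 * M)) := by
    intro t ht
    rw [mem_closedBall, dist_eq_norm]
    calc ‖g t - g a‖ ≤ ‖g t‖ + ‖g a‖ := norm_sub_le _ _
      _ ≤ 2 * M := by linarith [hM t ht]
  have h1 : ‖fderiv ℂ g a‖ ≤ 2 * M / R := Complex.norm_fderiv_le_div_of_mapsTo_ball hg hmaps hR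
  refine ⟨h1, fun x hx => ?_⟩
  have hda : DifferentiableAt ℂ g a := hg.differentiableAt (ball_mem_nhds _ hR)
  have h2 : DifferentiableOn ℂ (fun z => g z - fderiv ℂ g a (z - a)) (ball a R) :=
    hg.sub ((fderiv ℂ g a).differentiable.comp (differentiable_id.sub_const a)).differentiableOn
  have h3 : MapsTo (fun z => g z - fderiv ℂ g a (z - a)) (ball a R)
      (closedBall (g a - fderiv ℂ g a (a - a)) (4 * M)) := by
    intro t ht
    rw [mem_closedBall, dist_eq_norm, sub_self, map_zero, sub_zero]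
    have e1 : ‖g t - g a‖ ≤ 2 * M := by
      have := hmaps ht
      rwa [mem_closedBall, dist_eq_norm] at this
    have e2 : ‖fderiv ℂ g a (t - a)‖ ≤ 2 * M := by
      refine (ContinuousLinearMap.le_opNorm _ _).trans ?_
      have e3 : ‖t - a‖ ≤ R := by
        rw [mem_ball, dist_eq_norm] at ht
        exact ht.le
      calc ‖fderiv ℂ g a‖ * ‖t - a‖ ≤ 2 * M / R * R :=
            mul_le_mul h1 e3 (norm_nonneg _) (by positivity)
        _ = 2 * M := by field_simp
    calc ‖g t - fderiv ℂ g a (t - a) - g a‖ = ‖(g t - g a) - fderiv ℂ g a (t - a)‖ := by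
          congr 1; abel
      _ ≤ ‖g t - g a‖ + ‖fderiv ℂ g a (t - a)‖ := norm_sub_le _ _
      _ ≤ 4 * M := by linarith
  have h4 : (fun w => (g w - fderiv ℂ g a (w - a)) - (g a - fderiv ℂ g a (a - a))) =o[𝓝 a]
      (fun w => ‖w - a‖ ^ 1) := by
    have h5 := hda.hasFDerivAt.isLittleO
    have h6 : (fun w => (g w - fderiv ℂ g a (w - a)) - (g a - fderiv ℂ g a (a - a))) =
        fun w => g w - g a - fderiv ℂ g a (w - a) := by
      funext w
      rw [sub_self, map_zero, sub_zero]
      abel
    rw [h6]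
    simpa using h5.norm_right
  have hz : a + x ∈ ball a R := by
    rw [mem_ball, dist_eq_norm, add_sub_cancel_left]
    exact hx
  have h7 := Complex.dist_le_mul_div_pow_of_mapsTo_ball_of_isLittleO (n := 1) h2 h3 h4 hz
  rw [dist_eq_norm, dist_eq_norm, add_sub_cancel_left, sub_self, map_zero, sub_zero] at h7
  calc ‖g (a + x) - g a - fderiv ℂ g a x‖ = ‖g (a + x) - fderiv ℂ g a x - g a‖ := by
        congr 1; abel
    _ ≤ 4 * M * (‖x‖ / R) ^ (1 + 1) := h7
    _ = 4 * M / R ^ 2 * ‖x‖ ^ 2 := by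
        rw [div_pow]
        ring

private theorem lemH_hasFDerivAt {g : E → G} {a : E} {L : E →L[ℂ] G} {C r : ℝ} (hr : 0 < r)
    (h : ∀ x, ‖x‖ < r → ‖g (a + x) - g a - L x‖ ≤ C * ‖x‖ ^ 2) : HasFDerivAt g L a := by
  rw [hasFDerivAt_iff_isLittleO_nhds_zero]
  have h1 : (fun x : E => g (a + x) - g a - L x) =O[𝓝 0] fun x => ‖x‖ ^ 2 := by
    refine Asymptotics.IsBigO.of_bound C ?_
    filter_upwards [ball_mem_nhds (0 : E) hr] with x hx
    rw [mem_ball_zero_iff] at hx
    rw [norm_pow, norm_norm]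
    exact h x hx
  refine h1.trans_isLittleO ?_
  have h2 : (fun x : E => ‖x‖ ^ 2) =o[𝓝 0] fun x => x := by
    refine (Asymptotics.isLittleO_norm_pow_id (E' := E) (n := 2) (by norm_num)).congr_right ?_
    intro x; rfl
  exact h2

end

theorem differentiableOn_of_separating {E H : Type} [NormedAddCommGroup E] [NormedSpace ℂ E]
    [NormedAddCommGroup H] [InnerProductSpace ℂ H] [CompleteSpace H] {U : Set E} (hU : IsOpen U)
    {f : E → H} (hb : ∀ a ∈ U, ∃ r > 0, ∃ M : ℝ, ∀ x ∈ ball a r, ‖f x‖ ≤ M) {ι : Type}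
    (l : ι → H →L[ℂ] ℂ) (hsep : ∀ v : H, (∀ i, l i v = 0) → v = 0)
    (hd : ∀ i, DifferentiableOn ℂ (fun x => l i (f x)) U) : DifferentiableOn ℂ f U := by
  classical
  -- local boundedness inside `U`
  have hb' : ∀ a ∈ U, ∃ R > 0, ∃ M : ℝ, ball a R ⊆ U ∧ ∀ x ∈ ball a R, ‖f x‖ ≤ M := by
    intro a ha
    obtain ⟨r, hr, M, hM⟩ := hb a ha
    obtain ⟨s, hs, hsU⟩ := Metric.isOpen_iff.1 hU a ha
    refine ⟨min r s, lt_min hr hs, M, (ball_subset_ball (min_le_right _ _)).trans hsU, ?_⟩
    intro x hx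
    exact hM x (ball_subset_ball (min_le_left _ _) hx)
  -- the submodule of good vectors
  let S : Submodule ℂ H :=
    { carrier := {y | DifferentiableOn ℂ (fun x => inner ℂ y (f x)) U}
      add_mem' := by
        intro y z hy hz
        have h : (fun x => inner ℂ (y + z) (f x)) =
            fun x => inner ℂ y (f x) + inner ℂ z (f x) := by
          funext x; rw [inner_add_left]
        show DifferentiableOn ℂ (fun x => inner ℂ (y + z) (f x)) U
        rw [h]
        exact DifferentiableOn.add hy hz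
      zero_mem' := by
        show DifferentiableOn ℂ (fun x => inner ℂ (0 : H) (f x)) U
        simp only [inner_zero_left]
        exact differentiableOn_const _
      smul_mem' := by
        intro c y hy
        have h : (fun x => inner ℂ (c • y) (f x)) =
            fun x => conj c * inner ℂ y (f x) := by
          funext x; rw [inner_smul_left]
        show DifferentiableOn ℂ (fun x => inner ℂ (c • y) (f x)) U
        rw [h]
        exact DifferentiableOn.const_mul hy _ }
  have hSmem : ∀ y, y ∈ S ↔ DifferentiableOn ℂ (fun x => inner ℂ y (f x)) U := fun y => Iff.rfl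
  -- estimates
  have est : ∀ y ∈ S, ∀ a ∈ U, ∀ R > 0, ∀ M : ℝ, ball a R ⊆ U → (∀ x ∈ ball a R, ‖f x‖ ≤ M) →
      ‖fderiv ℂ (fun x => inner ℂ y (f x)) a‖ ≤ 2 * (‖y‖ * M) / R ∧ ∀ x, ‖x‖ < R →
      ‖inner ℂ y (f (a + x)) - inner ℂ y (f a) - fderiv ℂ (fun x => inner ℂ y (f x)) a x‖ ≤
        4 * (‖y‖ * M) / R ^ 2 * ‖x‖ ^ 2 := by
    intro y hy a ha R hR M hRU hM
    have h1 : DifferentiableOn ℂ (fun x => inner ℂ y (f x)) (ball a R) :=
      ((hSmem y).1 hy).mono hRU
    have h2 : ∀ x ∈ ball a R, ‖inner ℂ y (f x)‖ ≤ ‖y‖ * M := fun x hx =>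
      (norm_inner_le_norm _ _).trans (mul_le_mul_of_nonneg_left (hM x hx) (norm_nonneg _))
    exact lemH_taylor (g := fun x => inner ℂ y (f x)) hR h1 h2
  have fsub : ∀ y ∈ S, ∀ z ∈ S, ∀ a ∈ U, fderiv ℂ (fun x => inner ℂ (y - z) (f x)) a =
      fderiv ℂ (fun x => inner ℂ y (f x)) a - fderiv ℂ (fun x => inner ℂ z (f x)) a := by
    intro y hy z hz a ha
    have h : (fun x => inner ℂ (y - z) (f x)) =
        fun x => inner ℂ y (f x) - inner ℂ z (f x) := by
      funext x; rw [inner_sub_left]
    rw [h]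
    exact fderiv_fun_sub (((hSmem y).1 hy).differentiableAt (hU.mem_nhds ha))
      (((hSmem z).1 hz).differentiableAt (hU.mem_nhds ha))
  -- `S` is closed
  have hScl : IsClosed (S : Set H) := by
    rw [← isSeqClosed_iff_isClosed]
    intro yn y hyn hy
    show DifferentiableOn ℂ (fun x => inner ℂ y (f x)) U
    intro a ha
    obtain ⟨R, hR, M, hRU, hM⟩ := hb' a ha
    have hM0 : 0 ≤ M := (norm_nonneg _).trans (hM a (mem_ball_self hR))
    have hc : CauchySeq fun n => fderiv ℂ (fun x => inner ℂ (yn n) (f x)) a := by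
      rw [Metric.cauchySeq_iff']
      intro ε hε
      have hc' := Metric.cauchySeq_iff'.1 hy.cauchySeq (ε / (2 * M / R + 1)) (by positivity)
      obtain ⟨N, hN⟩ := hc'
      refine ⟨N, fun n hn => ?_⟩
      have h1 := hN n hn
      rw [dist_eq_norm] at h1 ⊢
      rw [← fsub _ (hyn n) _ (hyn N) a ha]
      refine ((est _ (S.sub_mem (hyn n) (hyn N)) a ha R hR M hRU hM).1).trans_lt ?_
      have h2 : ‖yn n - yn N‖ * (2 * M / R + 1) < ε := by
        rwa [lt_div_iff₀ (by positivity)] at h1
      have h3 : 2 * (‖yn n - yn N‖ * M) / R ≤ ‖yn n - yn N‖ * (2 * M / R + 1) := by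
        have : 2 * (‖yn n - yn N‖ * M) / R = ‖yn n - yn N‖ * (2 * M / R) := by ring
        rw [this, mul_add, mul_one]
        linarith [norm_nonneg (yn n - yn N)]
      linarith
    obtain ⟨L, hL⟩ := cauchySeq_tendsto_of_complete hc
    have h4 : HasFDerivAt (fun x => inner ℂ y (f x)) L a := by
      refine lemH_hasFDerivAt (C := 4 * (‖y‖ * M) / R ^ 2) hR ?_
      intro x hx
      have t1 : Tendsto (fun n => inner ℂ (yn n) (f (a + x)) - inner ℂ (yn n) (f a) -
          fderiv ℂ (fun x => inner ℂ (yn n) (f x)) a x) atTop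
          (𝓝 (inner ℂ y (f (a + x)) - inner ℂ y (f a) - L x)) := by
        refine ((hy.inner tendsto_const_nhds).sub (hy.inner tendsto_const_nhds)).sub ?_
        exact ((ContinuousLinearMap.apply ℂ ℂ x).continuous.tendsto L).comp hL
      have t2 : Tendsto (fun n => 4 * (‖yn n‖ * M) / R ^ 2 * ‖x‖ ^ 2) atTop
          (𝓝 (4 * (‖y‖ * M) / R ^ 2 * ‖x‖ ^ 2)) := by
        have : Continuous fun z : H => 4 * (‖z‖ * M) / R ^ 2 * ‖x‖ ^ 2 := by fun_prop
        exact (this.tendsto y).comp hy
      exact le_of_tendsto_of_tendsto' t1.norm t2 fun n =>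
        (est _ (hyn n) a ha R hR M hRU hM).2 x hx
    exact h4.differentiableAt.differentiableWithinAt
  -- `S` is everything
  have hS : ∀ y, y ∈ S := by
    have h1 : Sᗮ = ⊥ := by
      rw [Submodule.eq_bot_iff]
      intro v hv
      apply hsep
      intro i
      have h2 : (InnerProductSpace.toDual ℂ H).symm (l i) ∈ S := by
        rw [hSmem]
        have : (fun x => inner ℂ ((InnerProductSpace.toDual ℂ H).symm (l i)) (f x)) =
            fun x => l i (f x) := by
          funext x; rw [InnerProductSpace.toDual_symm_apply]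
        rw [this]
        exact hd i
      have h3 := (Submodule.mem_orthogonal S v).1 hv _ h2
      rwa [InnerProductSpace.toDual_symm_apply] at h3
    have h2 : S = ⊤ := by
      have h3 := Submodule.topologicalClosure_eq_top_iff (K := S)
      rw [← h3] at h1
      rwa [IsClosed.submodule_topologicalClosure_eq hScl] at h1
    intro y
    rw [h2]
    exact Submodule.mem_top
  -- the derivative
  intro a ha
  obtain ⟨R, hR, M, hRU, hM⟩ := hb' a ha
  have hM0 : 0 ≤ M := (norm_nonneg _).trans (hM a (mem_ball_self hR))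
  have hda : ∀ y, DifferentiableAt ℂ (fun x => inner ℂ y (f x)) a := fun y =>
    ((hSmem y).1 (hS y)).differentiableAt (hU.mem_nhds ha)
  have fadd : ∀ y z, fderiv ℂ (fun x => inner ℂ (y + z) (f x)) a =
      fderiv ℂ (fun x => inner ℂ y (f x)) a + fderiv ℂ (fun x => inner ℂ z (f x)) a := by
    intro y z
    have h : (fun x => inner ℂ (y + z) (f x)) =
        fun x => inner ℂ y (f x) + inner ℂ z (f x) := by
      funext x; rw [inner_add_left]
    rw [h]
    exact fderiv_fun_add (hda y) (hda z)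
  have fsmul : ∀ (c : ℂ) y, fderiv ℂ (fun x => inner ℂ (c • y) (f x)) a =
      conj c • fderiv ℂ (fun x => inner ℂ y (f x)) a := by
    intro c y
    have h : (fun x => inner ℂ (c • y) (f x)) =
        fun x => conj c • inner ℂ y (f x) := by
      funext x; rw [inner_smul_left, smul_eq_mul]
    rw [h]
    exact fderiv_fun_const_smul (hda y) _
  let ψ : E → StrongDual ℂ H := fun x => LinearMap.mkContinuous
    { toFun := fun y => conj (fderiv ℂ (fun x => inner ℂ y (f x)) a x)
      map_add' := by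
        intro y z
        rw [fadd, ContinuousLinearMap.add_apply, map_add]
      map_smul' := by
        intro c y
        rw [fsmul, ContinuousLinearMap.smul_apply, smul_eq_mul, map_mul, Complex.conj_conj]
        rfl } (2 * M / R * ‖x‖) (by
      intro y
      show ‖conj (fderiv ℂ (fun x => inner ℂ y (f x)) a x)‖ ≤ _
      rw [RCLike.norm_conj]
      refine (ContinuousLinearMap.le_opNorm _ _).trans ?_
      calc ‖fderiv ℂ (fun x => inner ℂ y (f x)) a‖ * ‖x‖ ≤ 2 * (‖y‖ * M) / R * ‖x‖ :=
            mul_le_mul_of_nonneg_right (est y (hS y) a ha R hR M hRU hM).1 (norm_nonneg _)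
        _ = 2 * M / R * ‖x‖ * ‖y‖ := by ring)
  have hψ : ∀ x y, inner ℂ y ((InnerProductSpace.toDual ℂ H).symm (ψ x)) =
      fderiv ℂ (fun x => inner ℂ y (f x)) a x := by
    intro x y
    rw [← inner_conj_symm, InnerProductSpace.toDual_symm_apply]
    show conj (conj (fderiv ℂ (fun x => inner ℂ y (f x)) a x)) = _
    rw [Complex.conj_conj]
  let D₀ : E →ₗ[ℂ] H :=
    { toFun := fun x => (InnerProductSpace.toDual ℂ H).symm (ψ x)
      map_add' := by
        intro x z
        refine ext_inner_left ℂ fun y => ?_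
        rw [inner_add_right, hψ, hψ, hψ, map_add]
      map_smul' := by
        intro c x
        refine ext_inner_left ℂ fun y => ?_
        rw [inner_smul_right, hψ, hψ, map_smul, smul_eq_mul, RingHom.id_apply] }
  let D : E →L[ℂ] H := D₀.mkContinuous (2 * M / R) (by
    intro x
    show ‖(InnerProductSpace.toDual ℂ H).symm (ψ x)‖ ≤ _
    rw [LinearIsometryEquiv.norm_map]
    exact LinearMap.mkContinuous_norm_le _ (by positivity) _)
  have hD : ∀ x y, inner ℂ y (D x) = fderiv ℂ (fun x => inner ℂ y (f x)) a x := hψ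
  have h4 : HasFDerivAt f D a := by
    refine lemH_hasFDerivAt (C := 4 * M / R ^ 2) hR ?_
    intro x hx
    have h5 := (est (f (a + x) - f a - D x) (hS _) a ha R hR M hRU hM).2 x hx
    rw [← hD, ← inner_sub_right, ← inner_sub_right, inner_self_eq_norm_sq_to_K] at h5
    have h6 : ‖f (a + x) - f a - D x‖ ^ 2 ≤
        4 * (‖f (a + x) - f a - D x‖ * M) / R ^ 2 * ‖x‖ ^ 2 := by
      refine le_trans (le_of_eq ?_) h5
      simp
    rcases eq_or_lt_of_le (norm_nonneg (f (a + x) - f a - D x)) with h7 | h7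
    · rw [← h7]; positivity
    · have h8 : ‖f (a + x) - f a - D x‖ * ‖f (a + x) - f a - D x‖ ≤
          ‖f (a + x) - f a - D x‖ * (4 * M / R ^ 2 * ‖x‖ ^ 2) := by
        calc _ = ‖f (a + x) - f a - D x‖ ^ 2 := by ring
          _ ≤ _ := h6
          _ = _ := by ring
      exact le_of_mul_le_mul_left h8 h7
  exact h4.differentiableAt.differentiableWithinAt

end QC
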