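import Pool.Agent.Work.MP_217185_an.Fund

/-! # LimA: convergence property of the group

Distinct elements `γ_n`: `‖γ_n 0‖ → 1` and `‖γ_n⁻¹ 0‖ → 1` (`finite_le`; `‖g 0‖ = ‖g⁻¹ 0‖` for Moebius
maps); pass to a subsequence with `γ_n 0 → a`, `γ_n⁻¹ 0 → b` (closed disc compact).  For a Moebius map
`g` with `p = g⁻¹ 0`: `g z = e (z - p)/(1 - conj p z)`, `‖e‖ = 1`, `g 0 = - e p`,
`g z - g 0 = e z (1 - ‖p‖²)/(1 - conj p z)`; if `z_n → x ≠ b` then `‖1 - conj p_n z_n‖` is bounded below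
(its limit is `‖1 - conj b x‖ > 0`), so `γ_n z_n → a`.  Same for the inverses.
`a` is not regular: otherwise let `U` be a neighbourhood of `a` with `γ U ∩ U = ∅` for `γ ≠ 1`; for
large `n ≠ m` `γ_n 0, γ_m 0 ∈ U`, contradiction with `γ = γ_m γ_n⁻¹ ≠ 1`.  Same for `b`. -/

open MeasureTheory Complex Set Metric Filter
open scoped Topology ENNReal NNReal ContDiff ComplexConjugate

namespace QC

/-- the centre -/
private def oo : CD := ⟨0, by simp⟩

private theorem la_oo : (oo : ℂ) = 0 := rfl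

private theorem la_ext (γ : CD ≃ₜ CD) : ext γ 0 = (γ oo : ℂ) := by
  unfold ext
  rw [dif_pos (by simp)]
  rfl

private theorem la_cd (z : CD) : ‖(z : ℂ)‖ ≤ 1 := by
  exact mem_closedBall_zero_iff.1 z.2

/-- parameters of the inverse -/
private theorem la_inv {γ : CD ≃ₜ CD} {a b : ℂ} (h : ‖b‖ < ‖a‖)
    (hγ : ∀ z : CD, (γ z : ℂ) = mob a b z) (z : CD) :
    (γ⁻¹ z : ℂ) = mob (conj a) (-b) z := by
  have h1 : γ (γ⁻¹ z) = z := by
    change γ (γ.symm z) = z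
    exact γ.apply_symm_apply z
  have h2 := hγ (γ⁻¹ z)
  rw [h1] at h2
  rw [h2]
  exact ((mob_inv h (la_cd (γ⁻¹ z))).1).symm

private theorem la_zero {γ : CD ≃ₜ CD} {a b : ℂ} (h : ‖b‖ < ‖a‖)
    (hγ : ∀ z : CD, (γ z : ℂ) = mob a b z) :
    (γ oo : ℂ) = b / conj a ∧ (γ⁻¹ oo : ℂ) = -b / a := by
  constructor
  · rw [hγ, la_oo]
    unfold mob
    simp
  · rw [la_inv h hγ, la_oo]
    unfold mob
    simp

private theorem la_norm {γ : CD ≃ₜ CD} (h : IsMob γ) : ‖(γ⁻¹ oo : ℂ)‖ = ‖(γ oo : ℂ)‖ := by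
  obtain ⟨a, b, hab, hγ⟩ := h
  rw [(la_zero hab hγ).1, (la_zero hab hγ).2, norm_div, norm_div, norm_neg, Complex.norm_conj]

private theorem la_isMob_inv {γ : CD ≃ₜ CD} (h : IsMob γ) : IsMob γ⁻¹ := by
  obtain ⟨a, b, hab, hγ⟩ := h
  exact ⟨conj a, -b, by rwa [norm_neg, Complex.norm_conj], la_inv hab hγ⟩

private theorem la_aux (a b A B X z : ℂ) (hX : X ≠ 0) (hA : A ≠ 0) (h : X = B * z + A) :
    ((a * z + b) / X - b / A) * (1 - (-B / A) * z) = ((a * A - b * B) / (A * A)) * z := by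
  field_simp
  rw [h]
  ring

/-- the contraction estimate. -/
private theorem la_est {γ : CD ≃ₜ CD} (h : IsMob γ) (z : CD) :
    ‖(γ z : ℂ) - (γ oo : ℂ)‖ * ‖1 - conj (γ⁻¹ oo : ℂ) * z‖ ≤ 1 - ‖(γ oo : ℂ)‖ ^ 2 := by
  obtain ⟨a, b, hab, hγ⟩ := h
  have ha : a ≠ 0 := by
    intro h0
    rw [h0, norm_zero] at hab
    exact absurd hab (not_lt.2 (norm_nonneg b))
  have ha' : conj a ≠ 0 := by simpa using ha
  have hd := mob_denom_ne hab (la_cd z)
  have e : ((γ z : ℂ) - (γ oo : ℂ)) * (1 - conj (γ⁻¹ oo : ℂ) * z) =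
      ((a * conj a - b * conj b) / (conj a * conj a)) * z := by
    rw [(la_zero hab hγ).1, (la_zero hab hγ).2, hγ z]
    unfold mob
    rw [map_div₀, map_neg]
    exact la_aux a b (conj a) (conj b) _ z hd ha' rfl
  have e2 : ‖(a * conj a - b * conj b) / (conj a * conj a)‖ = 1 - ‖(γ oo : ℂ)‖ ^ 2 := by
    rw [(la_zero hab hγ).1, norm_div, norm_div, norm_mul, Complex.norm_conj]
    have e3 : a * conj a - b * conj b = ((‖a‖ ^ 2 - ‖b‖ ^ 2 : ℝ) : ℂ) := by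
      rw [Complex.mul_conj, Complex.mul_conj, Complex.normSq_eq_norm_sq, Complex.normSq_eq_norm_sq]
      push_cast
      ring
    have hb0 := norm_nonneg b
    rw [e3, Complex.norm_real, Real.norm_of_nonneg (by nlinarith)]
    have hpa : ‖a‖ ≠ 0 := norm_ne_zero_iff.2 ha
    field_simp
  rw [← norm_mul, e, norm_mul, e2]
  have h1 : 0 ≤ 1 - ‖(γ oo : ℂ)‖ ^ 2 := by
    have := la_cd (γ oo)
    nlinarith [norm_nonneg (γ oo : ℂ)]
  exact mul_le_of_le_one_right h1 (la_cd z)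

private theorem la_conv {g : ℕ → CD ≃ₜ CD} (hg : ∀ n, IsMob (g n)) {a b : CD}
    (hp : Tendsto (fun n => g n oo) atTop (𝓝 a)) (hq : Tendsto (fun n => (g n)⁻¹ oo) atTop (𝓝 b))
    (ha : ‖(a : ℂ)‖ = 1) (hb : ‖(b : ℂ)‖ = 1) (x : CD) (u : ℕ → CD) (hx : x ≠ b)
    (hu : Tendsto u atTop (𝓝 x)) : Tendsto (fun n => g n (u n)) atTop (𝓝 a) := by
  have hp' : Tendsto (fun n => (g n oo : ℂ)) atTop (𝓝 (a : ℂ)) :=
    (continuous_subtype_val.tendsto a).comp hp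
  have hq' : Tendsto (fun n => ((g n)⁻¹ oo : ℂ)) atTop (𝓝 (b : ℂ)) :=
    (continuous_subtype_val.tendsto b).comp hq
  have hu' : Tendsto (fun n => (u n : ℂ)) atTop (𝓝 (x : ℂ)) :=
    (continuous_subtype_val.tendsto x).comp hu
  have hne : ‖1 - conj (b : ℂ) * x‖ ≠ 0 := by
    rw [norm_ne_zero_iff]
    intro h0
    have h1 : conj (b : ℂ) * x = 1 := (sub_eq_zero.1 h0).symm
    have h2 : (b : ℂ) * conj (b : ℂ) = 1 := by
      rw [Complex.mul_conj, Complex.normSq_eq_norm_sq, hb]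
      norm_num
    apply hx
    apply Subtype.ext
    calc (x : ℂ) = ((b : ℂ) * conj (b : ℂ)) * x := by rw [h2, one_mul]
      _ = (b : ℂ) * (conj (b : ℂ) * x) := by ring
      _ = b := by rw [h1, mul_one]
  have hden : Tendsto (fun n => ‖1 - conj ((g n)⁻¹ oo : ℂ) * (u n : ℂ)‖) atTop
      (𝓝 ‖1 - conj (b : ℂ) * x‖) := by
    have h1 : Tendsto (fun n => conj ((g n)⁻¹ oo : ℂ)) atTop (𝓝 (conj (b : ℂ))) :=
      (Complex.continuous_conj.tendsto _).comp hq'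
    exact (tendsto_const_nhds.sub (h1.mul hu')).norm
  have hnum : Tendsto (fun n => 1 - ‖(g n oo : ℂ)‖ ^ 2) atTop (𝓝 0) := by
    have h1 := (hp'.norm.pow 2).const_sub 1
    rw [ha] at h1
    simpa using h1
  have hquot : Tendsto (fun n => (1 - ‖(g n oo : ℂ)‖ ^ 2) / ‖1 - conj ((g n)⁻¹ oo : ℂ) * (u n : ℂ)‖)
      atTop (𝓝 0) := by
    have h1 := hnum.div hden hne
    rwa [zero_div] at h1
  have hdiff : Tendsto (fun n => (g n (u n) : ℂ) - (g n oo : ℂ)) atTop (𝓝 0) := by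
    rw [tendsto_zero_iff_norm_tendsto_zero]
    refine tendsto_of_tendsto_of_tendsto_of_le_of_le' tendsto_const_nhds hquot
      (Eventually.of_forall fun n => norm_nonneg _) ?_
    have hpos : ∀ᶠ n in atTop, 0 < ‖1 - conj ((g n)⁻¹ oo : ℂ) * (u n : ℂ)‖ :=
      hden.eventually (lt_mem_nhds (lt_of_le_of_ne (norm_nonneg _) (Ne.symm hne)))
    filter_upwards [hpos] with n hn
    rw [le_div_iff₀ hn]
    exact la_est (hg n) (u n)
  rw [tendsto_subtype_rng]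
  have h1 := hdiff.add hp'
  simpa using h1

private theorem la_not_reg {Γ : Subgroup (CD ≃ₜ CD)} {g : ℕ → CD ≃ₜ CD} (hg : ∀ n, g n ∈ Γ)
    (hinj : Function.Injective g) {a : CD} (hp : Tendsto (fun n => g n oo) atTop (𝓝 a)) :
    a ∉ Reg Γ := by
  rintro ⟨U, hU, hdisj⟩
  have h1 : ∀ᶠ n in atTop, g n oo ∈ U := hp.eventually hU
  obtain ⟨N, hN⟩ := eventually_atTop.1 h1
  have h2 := hN N le_rfl
  have h3 := hN (N + 1) (Nat.le_succ N)
  have hne : g (N + 1) * (g N)⁻¹ ≠ 1 := by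
    intro h
    have h4 : g (N + 1) = g N := mul_inv_eq_one.1 h
    have := hinj h4
    omega
  have h5 := hdisj (g (N + 1) * (g N)⁻¹) (Γ.mul_mem (hg _) (Γ.inv_mem (hg _))) hne
  refine Set.disjoint_left.1 h5 ⟨g N oo, h2, ?_⟩ h3
  change g (N + 1) ((g N).symm (g N oo)) = g (N + 1) oo
  rw [(g N).symm_apply_apply]

theorem exists_conv (S : Bord) {g : ℕ → CD ≃ₜ CD} (hg : ∀ n, g n ∈ S.Γ)
    (hinj : Function.Injective g) : ∃ φ : ℕ → ℕ, StrictMono φ ∧ ∃ a b : CD, ‖(a : ℂ)‖ = 1 ∧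
      ‖(b : ℂ)‖ = 1 ∧ a ∉ Reg S.Γ ∧ b ∉ Reg S.Γ ∧
      (∀ (x : CD) (u : ℕ → CD), x ≠ b → Tendsto u atTop (𝓝 x) →
        Tendsto (fun n => g (φ n) (u n)) atTop (𝓝 a)) ∧
      ∀ (x : CD) (u : ℕ → CD), x ≠ a → Tendsto u atTop (𝓝 x) →
        Tendsto (fun n => (g (φ n))⁻¹ (u n)) atTop (𝓝 b) := by
  have : CompactSpace CD := isCompact_iff_compactSpace.1 (isCompact_closedBall (0 : ℂ) 1)
  have hlim : Tendsto (fun n => ‖(g n oo : ℂ)‖) atTop (𝓝 1) := by
    rw [tendsto_order]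
    constructor
    · intro R hR
      have h1 : {n : ℕ | ‖(g n oo : ℂ)‖ ≤ R}.Finite := by
        have h2 : (g ⁻¹' {γ : CD ≃ₜ CD | γ ∈ S.Γ ∧ ‖ext γ 0‖ ≤ R}).Finite :=
          (finite_le S hR).preimage hinj.injOn
        refine h2.subset (fun n hn => ⟨hg n, ?_⟩)
        rw [la_ext]
        exact hn
      have h3 : ∀ᶠ n in atTop, n ∉ {n : ℕ | ‖(g n oo : ℂ)‖ ≤ R} := by
        rw [← Nat.cofinite_eq_atTop]
        exact h1.compl_mem_cofinite
      filter_upwards [h3] with n hn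
      exact not_le.1 hn
    · intro R hR
      exact Eventually.of_forall fun n => (la_cd _).trans_lt hR
  obtain ⟨⟨a, b⟩, φ, hφ, hconv⟩ :=
    CompactSpace.tendsto_subseq (fun n => ((g n oo, (g n)⁻¹ oo) : CD × CD))
  have hp : Tendsto (fun n => g (φ n) oo) atTop (𝓝 a) :=
    (continuous_fst.tendsto (a, b)).comp hconv
  have hq : Tendsto (fun n => (g (φ n))⁻¹ oo) atTop (𝓝 b) :=
    (continuous_snd.tendsto (a, b)).comp hconv
  have hmob : ∀ n, IsMob (g (φ n)) := fun n => S.mob _ (hg _)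
  have ha : ‖(a : ℂ)‖ = 1 :=
    tendsto_nhds_unique ((continuous_subtype_val.tendsto a).comp hp).norm
      (hlim.comp hφ.tendsto_atTop)
  have hb : ‖(b : ℂ)‖ = 1 := by
    refine tendsto_nhds_unique ((continuous_subtype_val.tendsto b).comp hq).norm ?_
    have h1 := hlim.comp hφ.tendsto_atTop
    refine h1.congr (fun n => ?_)
    exact (la_norm (hmob n)).symm
  have hinjφ : Function.Injective (fun n => g (φ n)) := hinj.comp hφ.injective
  have hinjφ' : Function.Injective (fun n => (g (φ n))⁻¹) := inv_injective.comp hinjφ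
  refine ⟨φ, hφ, a, b, ha, hb, la_not_reg (fun n => hg _) hinjφ hp,
    la_not_reg (fun n => S.Γ.inv_mem (hg _)) hinjφ' hq, ?_, ?_⟩
  · intro x u hx hu
    exact la_conv hmob hp hq ha hb x u hx hu
  · intro x u hx hu
    refine la_conv (g := fun n => (g (φ n))⁻¹) (fun n => la_isMob_inv (hmob n)) hq ?_ hb ha x u hx hu
    simpa using hp

end QC
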