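import Pool.Agent.Work.MP_217185_an.WDb
import Pool.Agent.Work.MP_ebc928_an.Mollify

/-! # Moll1: approximation by smooth functions

Choose a compact neighbourhood `K' ⊆ U` of `K` and `F n = ρ_n * (f 1_{K'})` with a mollifier `ρ_n`
supported in a ball of radius `r_n → 0` (Mathlib `ContDiffBump`, `convolution`).  For `z ∈ K` and
`n` large, `dz (F n) z = ∫ (dz ρ_n) (z - y) f y dy = - ∫ f y (dz [ρ_n (z - ·)]) y dy =
∫ a y ρ_n (z - y) dy = (ρ_n * (a 1_{K'})) z`, and `ρ_n * u → u` in `L²` for `u ∈ L²` (density of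
continuous functions with compact support and Young/Minkowski: `‖ρ_n * u‖₂ ≤ ‖u‖₂`).  Uniform
convergence on `K` from the uniform continuity of `f` on `K'`.  -/

open MeasureTheory Complex Set Metric Filter
open scoped Topology ENNReal NNReal ContDiff ComplexConjugate

namespace QC

private theorem Moll1_phi {r : ℂ → ℝ} (hr : ContDiff ℝ ∞ r) (hc : HasCompactSupport r) (z : ℂ) :
    ContDiff ℝ ∞ (fun t : ℂ => ((r (z - t) : ℝ) : ℂ)) ∧
    HasCompactSupport (fun t : ℂ => ((r (z - t) : ℝ) : ℂ)) ∧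
    ∀ t e : ℂ, fderiv ℝ (fun t : ℂ => ((r (z - t) : ℝ) : ℂ)) t e =
      - ((fderiv ℝ r (z - t) e : ℝ) : ℂ) := by
  refine ⟨?_, ?_, ?_⟩
  · exact Complex.ofRealCLM.contDiff.comp (hr.comp (contDiff_const.sub contDiff_id))
  · exact (hc.comp_homeomorph (Homeomorph.subLeft z)).comp_left
      (g := fun x : ℝ => (x : ℂ)) (by simp)
  · intro t e
    have hd : HasFDerivAt r (fderiv ℝ r (z - t)) (z - t) :=
      ((hr.differentiable (by simp)) _).hasFDerivAt
    have hd2 : HasFDerivAt (fun t : ℂ => z - t) (-(ContinuousLinearMap.id ℝ ℂ)) t := by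
      simpa using (hasFDerivAt_id t).const_sub z
    have h3 := Complex.ofRealCLM.hasFDerivAt.comp t (hd.comp t hd2)
    have h4 : fderiv ℝ (fun t : ℂ => ((r (z - t) : ℝ) : ℂ)) t =
      Complex.ofRealCLM.comp ((fderiv ℝ r (z - t)).comp (-(ContinuousLinearMap.id ℝ ℂ))) :=
      h3.fderiv
    rw [h4]
    simp

private theorem Moll1_int {u : ℂ → ℂ} (hu : LocallyIntegrable u (volume : Measure ℂ))
    {r : ℂ → ℝ} (hr : ContDiff ℝ ∞ r) (hc : HasCompactSupport r) (z e : ℂ) :
    Integrable (fun t => u t * fderiv ℝ (fun t : ℂ => ((r (z - t) : ℝ) : ℂ)) t e) := by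
  obtain ⟨h1, h2, h3⟩ := Moll1_phi hr hc z
  have h4 : Continuous (fun t => fderiv ℝ (fun t : ℂ => ((r (z - t) : ℝ) : ℂ)) t e) :=
    (h1.continuous_fderiv (by simp)).clm_apply continuous_const
  have h5 : HasCompactSupport (fun t => fderiv ℝ (fun t : ℂ => ((r (z - t) : ℝ) : ℂ)) t e) :=
    (h2.fderiv (𝕜 := ℝ)).comp_left (g := fun L : ℂ →L[ℝ] ℂ => L e) (by simp)
  have := hu.integrable_smul_left_of_hasCompactSupport h4 h5
  refine this.congr (Eventually.of_forall fun t => ?_)
  simp only [smul_eq_mul]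
  ring

private theorem Moll1_fderiv {u : ℂ → ℂ} (hu : LocallyIntegrable u (volume : Measure ℂ))
    {r : ℂ → ℝ} (hr : ContDiff ℝ ∞ r) (hc : HasCompactSupport r) (z e : ℂ) :
    fderiv ℝ (EBC.mol r u) z e =
      - ∫ t, u t * fderiv ℝ (fun t : ℂ => ((r (z - t) : ℝ) : ℂ)) t e := by
  obtain ⟨h1, h2, h3⟩ := Moll1_phi hr hc z
  have hfd := hc.hasFDerivAt_convolution_left (μ := volume)
    (ContinuousLinearMap.lsmul ℝ ℝ) (hr.of_le (by norm_cast)) hu z
  rw [EBC.mol_eq_conv, hfd.fderiv]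
  rw [convolution_def]
  have hex : ConvolutionExistsAt (fderiv ℝ r) u z
      (ContinuousLinearMap.precompL ℂ (ContinuousLinearMap.lsmul ℝ ℝ)) volume :=
    (hc.fderiv ℝ).convolutionExists_left _ (hr.continuous_fderiv (by simp)) hu z
  rw [ContinuousLinearMap.integral_apply hex.integrable]
  simp only [ContinuousLinearMap.precompL_apply, ContinuousLinearMap.lsmul_apply]
  have h4 : ∫ t, (fderiv ℝ r t e) • u (z - t) = ∫ t, (fderiv ℝ r (z - t) e) • u t := by
    rw [← integral_sub_left_eq_self (fun t => (fderiv ℝ r (z - t) e) • u t) volume z]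
    simp
  rw [h4, ← integral_neg]
  congr 1
  funext t
  rw [h3]
  simp only [Complex.real_smul]
  ring

private theorem Moll1_dz {u : ℂ → ℂ} (hu : LocallyIntegrable u (volume : Measure ℂ))
    {r : ℂ → ℝ} (hr : ContDiff ℝ ∞ r) (hc : HasCompactSupport r) (z : ℂ) :
    dz (EBC.mol r u) z = - ∫ t, u t * dz (fun t : ℂ => ((r (z - t) : ℝ) : ℂ)) t ∧
    dzb (EBC.mol r u) z = - ∫ t, u t * dzb (fun t : ℂ => ((r (z - t) : ℝ) : ℂ)) t := by
  have e1 := Moll1_fderiv hu hr hc z 1
  have e2 := Moll1_fderiv hu hr hc z I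
  have i1 := Moll1_int hu hr hc z 1
  have i2 := Moll1_int hu hr hc z I
  constructor
  · unfold dz
    rw [e1, e2]
    have : ∀ t, u t * ((fderiv ℝ (fun t : ℂ => ((r (z - t) : ℝ) : ℂ)) t 1 -
        I * fderiv ℝ (fun t : ℂ => ((r (z - t) : ℝ) : ℂ)) t I) / 2) =
        (1 / 2 : ℂ) * (u t * fderiv ℝ (fun t : ℂ => ((r (z - t) : ℝ) : ℂ)) t 1) -
        (I / 2) * (u t * fderiv ℝ (fun t : ℂ => ((r (z - t) : ℝ) : ℂ)) t I) := by
      intro t
      ring
    simp only [this]
    rw [integral_sub (i1.const_mul _) (i2.const_mul _), integral_const_mul, integral_const_mul]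
    ring
  · unfold dzb
    rw [e1, e2]
    have : ∀ t, u t * ((fderiv ℝ (fun t : ℂ => ((r (z - t) : ℝ) : ℂ)) t 1 +
        I * fderiv ℝ (fun t : ℂ => ((r (z - t) : ℝ) : ℂ)) t I) / 2) =
        (1 / 2 : ℂ) * (u t * fderiv ℝ (fun t : ℂ => ((r (z - t) : ℝ) : ℂ)) t 1) +
        (I / 2) * (u t * fderiv ℝ (fun t : ℂ => ((r (z - t) : ℝ) : ℂ)) t I) := by
      intro t
      ring
    simp only [this]
    rw [integral_add (i1.const_mul _) (i2.const_mul _), integral_const_mul, integral_const_mul]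
    ring

private theorem Moll1_der_zero {φ : ℂ → ℂ} {t : ℂ} (h : t ∉ tsupport φ) :
    dz φ t = 0 ∧ dzb φ t = 0 := by
  have : fderiv ℝ φ t = 0 := by
    by_contra hcon
    exact h (support_fderiv_subset ℝ hcon)
  simp [dz, dzb, this]

private theorem Moll1_key {U : Set ℂ} {f a b : ℂ → ℂ} (h : WD U f a b) {K' : Set ℂ}
    (hK' : K' ⊆ U) (hu : LocallyIntegrable (K'.indicator f) (volume : Measure ℂ))
    {r : ℂ → ℝ} (hr : ContDiff ℝ ∞ r) (hc : HasCompactSupport r) {z : ℂ}
    (hz : tsupport (fun t : ℂ => ((r (z - t) : ℝ) : ℂ)) ⊆ K') :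
    dz (EBC.mol r (K'.indicator f)) z = EBC.mol r (K'.indicator a) z ∧
    dzb (EBC.mol r (K'.indicator f)) z = EBC.mol r (K'.indicator b) z := by
  obtain ⟨h1, h2, h3⟩ := Moll1_phi hr hc z
  have hT : Test U (fun t : ℂ => ((r (z - t) : ℝ) : ℂ)) := ⟨h1, h2, hz.trans hK'⟩
  have hm : ∀ g : ℂ → ℂ, EBC.mol r (K'.indicator g) z =
      ∫ t, g t * ((r (z - t) : ℝ) : ℂ) := by
    intro g
    unfold EBC.mol
    rw [← integral_sub_left_eq_self (fun t => g t * ((r (z - t) : ℝ) : ℂ)) volume z]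
    congr 1
    funext w
    rw [sub_sub_cancel, Complex.real_smul]
    by_cases hw : z - w ∈ K'
    · rw [indicator_of_mem hw, mul_comm]
    · rw [indicator_of_notMem hw]
      have h5 : z - w ∉ tsupport (fun t : ℂ => ((r (z - t) : ℝ) : ℂ)) := fun hh => hw (hz hh)
      have h6 : ((r (z - (z - w)) : ℝ) : ℂ) = 0 := by
        by_contra hcon
        exact h5 (subset_tsupport _ hcon)
      rw [sub_sub_cancel] at h6
      rw [h6]
      simp
  obtain ⟨e1, e2⟩ := Moll1_dz hu hr hc z
  constructor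
  · rw [e1, hm]
    have h4 : (fun t => K'.indicator f t * dz (fun t : ℂ => ((r (z - t) : ℝ) : ℂ)) t) =
        fun t => f t * dz (fun t : ℂ => ((r (z - t) : ℝ) : ℂ)) t := by
      funext t
      by_cases ht : t ∈ K'
      · rw [indicator_of_mem ht]
      · rw [(Moll1_der_zero fun hh => ht (hz hh)).1]
        simp
    rw [h4, h.da _ hT, neg_neg]
  · rw [e2, hm]
    have h4 : (fun t => K'.indicator f t * dzb (fun t : ℂ => ((r (z - t) : ℝ) : ℂ)) t) =
        fun t => f t * dzb (fun t : ℂ => ((r (z - t) : ℝ) : ℂ)) t := by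
      funext t
      by_cases ht : t ∈ K'
      · rw [indicator_of_mem ht]
      · rw [(Moll1_der_zero fun hh => ht (hz hh)).2]
        simp
    rw [h4, h.db _ hT, neg_neg]

theorem exists_smooth_approx {U : Set ℂ} (hU : IsOpen U) {f a b : ℂ → ℂ} (h : WD U f a b)
    (hf : ContinuousOn f U) {K : Set ℂ} (hK : IsCompact K) (hKU : K ⊆ U) :
    ∃ F : ℕ → ℂ → ℂ, (∀ n, ContDiff ℝ ∞ (F n)) ∧ TendstoUniformlyOn F f atTop K ∧
      Tendsto (fun n => eLpNorm (fun z => dz (F n) z - a z) 2 (volume.restrict K)) atTop (𝓝 0) ∧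
      Tendsto (fun n => eLpNorm (fun z => dzb (F n) z - b z) 2 (volume.restrict K)) atTop (𝓝 0) := by
  obtain ⟨K', hK', hKK', hK'U⟩ := exists_compact_between hK hU hKU
  obtain ⟨ρ, hρ⟩ := EBC.exists_moll
  obtain ⟨δ, hδ, hδK⟩ := hK.exists_cthickening_subset_open isOpen_interior hKK'
  have hsub : ∀ z ∈ K, ∀ t, dist t z ≤ δ → t ∈ K' := by
    intro z hz t ht
    refine interior_subset (hδK ?_)
    exact mem_cthickening_of_dist_le t z δ K hz ht
  have hKK : K ⊆ K' := hKK'.trans interior_subset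
  have hfi : IntegrableOn f K' := (hf.mono hK'U).integrableOn_compact hK'
  have hf0 : Integrable (K'.indicator f) (volume : Measure ℂ) :=
    (integrable_indicator_iff hK'.measurableSet).2 hfi
  have hfl : LocallyIntegrable (K'.indicator f) (volume : Measure ℂ) := hf0.locallyIntegrable
  have hL : ∀ g : ℂ → ℂ, L2loc U g → MemLp (K'.indicator g) 2 (volume : Measure ℂ) := by
    intro g hg
    exact (memLp_indicator_iff_restrict hK'.measurableSet).2 (hg K' hK'U hK')
  have ht0 : Tendsto (fun n : ℕ => 1 / ((n : ℝ) + 1)) atTop (𝓝 0) :=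
    tendsto_one_div_add_atTop_nhds_zero_nat
  have hsupp : ∀ᶠ n in atTop, ∀ z ∈ K,
      tsupport (fun t : ℂ => ((ρ n (z - t) : ℝ) : ℂ)) ⊆ K' := by
    filter_upwards [ht0.eventually_lt_const hδ] with n hn z hz
    have h1 : tsupport (fun t : ℂ => ((ρ n (z - t) : ℝ) : ℂ)) ⊆
        closedBall z (1 / ((n : ℝ) + 1)) := by
      refine closure_minimal ?_ isClosed_closedBall
      intro t ht
      have h2 : z - t ∈ tsupport (ρ n) := by
        refine subset_tsupport _ ?_
        intro hcon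
        exact ht (by simp [hcon])
      have h3 := hρ.supp n h2
      rw [mem_closedBall, dist_zero_right] at h3
      rw [mem_closedBall, dist_comm, dist_eq_norm]
      exact h3
    intro t ht
    exact hsub z hz t ((mem_closedBall.1 (h1 ht)).trans hn.le)
  have hlim : ∀ (g : ℂ → ℂ) (G : ℕ → ℂ → ℂ), L2loc U g →
      (∀ᶠ n in atTop, ∀ z ∈ K, G n z = EBC.mol (ρ n) (K'.indicator g) z) →
      Tendsto (fun n => eLpNorm (fun z => G n z - g z) 2 (volume.restrict K)) atTop (𝓝 0) := by
    intro g G hg hG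
    have h1 := EBC.mol_eLpNorm_tendsto hρ (hL g hg)
    refine tendsto_of_tendsto_of_tendsto_of_le_of_le' tendsto_const_nhds h1
      (Eventually.of_forall fun n => bot_le) ?_
    filter_upwards [hG] with n hn
    have h2 : eLpNorm (fun z => G n z - g z) 2 (volume.restrict K) =
        eLpNorm (fun z => K'.indicator g z - EBC.mol (ρ n) (K'.indicator g) z) 2
          (volume.restrict K) := by
      refine eLpNorm_congr_norm_ae ?_
      filter_upwards [ae_restrict_mem hK.measurableSet] with z hz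
      rw [hn z hz, indicator_of_mem (hKK hz), norm_sub_rev]
    rw [h2]
    exact eLpNorm_mono_measure _ Measure.restrict_le_self
  refine ⟨fun n => EBC.mol (ρ n) (K'.indicator f), ?_, ?_, ?_, ?_⟩
  · intro n
    show ContDiff ℝ ∞ (EBC.mol (ρ n) (K'.indicator f))
    rw [EBC.mol_eq_conv]
    exact (hρ.hcs n).contDiff_convolution_left _ (hρ.smooth n) hfl
  · rw [Metric.tendstoUniformlyOn_iff]
    intro ε hε
    have huc : UniformContinuousOn f K' := hK'.uniformContinuousOn_of_continuous (hf.mono hK'U)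
    rw [Metric.uniformContinuousOn_iff] at huc
    obtain ⟨η, hη, hη'⟩ := huc (ε / 2) (half_pos hε)
    filter_upwards [ht0.eventually_lt_const hη, ht0.eventually_lt_const hδ] with n hn hn' z hz
    have := dist_convolution_le (μ := volume) (f := ρ n) (g := K'.indicator f) (x₀ := z)
      (R := min η δ) (ε := ε / 2) (z₀ := f z) (half_pos hε).le (by
        intro w hw
        have := hρ.supp n (subset_tsupport _ hw)
        rw [Metric.mem_closedBall] at this
        exact Metric.mem_ball.2 (this.trans_lt (lt_min hn hn'))) (hρ.nonneg n) (hρ.int_one n)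
      hf0.aestronglyMeasurable (by
        intro x hx
        have hx' := Metric.mem_ball.1 hx
        have hxK : x ∈ K' := hsub z hz x ((hx'.trans_le (min_le_right _ _)).le)
        rw [indicator_of_mem hxK]
        exact (hη' x hxK z (hKK hz) (hx'.trans_le (min_le_left _ _))).le)
    rw [EBC.mol_eq_conv, dist_comm]
    exact this.trans_lt (half_lt_self hε)
  · refine hlim a _ h.la ?_
    filter_upwards [hsupp] with n hn z hz
    exact (Moll1_key h hK'U hfl (hρ.smooth n) (hρ.hcs n) (hn z hz)).1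
  · refine hlim b _ h.lb ?_
    filter_upwards [hsupp] with n hn z hz
    exact (Moll1_key h hK'U hfl (hρ.smooth n) (hρ.hcs n) (hn z hz)).2

end QC
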