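import Pool.Agent.Work.MP_217185_an.Sm2
import Pool.Agent.Work.MP_217185_an.CauL2

/-! # MrmtA: uniform displacement bound

`w` from `smooth_mrmt`: `w z = z + Cau (hh μ) z`.  `‖hh μ‖₂ ≤ (1-k)⁻¹ ‖μ‖₂ ≤ (1-k)⁻¹ (π R²)^{1/2}`
(`hh_norm`), so `‖w z - z‖ ≤ C` for `|z| ≥ R + 1` (`norm_cau_le`).  For `|z| ≤ R + 1`: the frontier of
the compact set `w '' closedBall 0 (R+1)` is contained in `w '' sphere 0 (R+1)`, so the set lies in
the ball of radius `R + 1 + C` (a nonempty compact set whose frontier is contained in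
`closedBall 0 ρ` is contained in `closedBall 0 ρ`), and `‖w z - z‖ ≤ 2(R+1) + C`. -/

open MeasureTheory Complex Set Metric Filter
open scoped Topology ENNReal NNReal ContDiff ComplexConjugate

namespace QC

theorem smooth_disp {k R : ℝ} (hk0 : 0 ≤ k) (hk : k < 1) (hR : 0 < R) : ∃ C : ℝ,
    ∀ (μ : ℂ → ℂ) (w : ℂ ≃ₜ ℂ), Bel k μ → SuppIn R μ → (∀ z, w z = z + Cau (hh μ) z) →
      ∀ z, ‖w z - z‖ ≤ C := by
  set N : ℝ≥0∞ := ENNReal.ofReal (1 / (1 - k)) *
    eLpNorm ((closedBall (0:ℂ) R).indicator (fun _ => (k : ℂ))) 2 volume with hN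
  have hNtop : N ≠ ⊤ := by
    apply ENNReal.mul_ne_top ENNReal.ofReal_ne_top
    have : MemLp ((closedBall (0:ℂ) R).indicator (fun _ => (k : ℂ))) 2 volume :=
      memLp_indicator_const 2 measurableSet_closedBall _
        (Or.inr (isCompact_closedBall _ _).measure_lt_top.ne)
    exact this.eLpNorm_ne_top
  refine ⟨2 * (R + 1) + N.toReal * R, ?_⟩
  intro μ w hμ hs hw z
  have hnn : 0 ≤ N.toReal := ENNReal.toReal_nonneg
  -- the norm of `hh μ`
  have h1 : (eLpNorm (hh μ) 2 volume).toReal ≤ N.toReal := by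
    apply ENNReal.toReal_mono hNtop
    refine (hh_norm hμ hs).trans ?_
    rw [hN]
    gcongr
    apply eLpNorm_mono
    intro x
    by_cases hx : x ∈ closedBall (0:ℂ) R
    · rw [indicator_of_mem hx, Complex.norm_real, Real.norm_eq_abs, abs_of_nonneg hk0]
      exact hμ.le x
    · rw [indicator_of_notMem hx]
      rw [mem_closedBall_zero_iff, not_le] at hx
      rw [hs x hx.le]
  have h2 : ∀ x, R + 1 ≤ ‖x‖ → ‖w x - x‖ ≤ N.toReal * R := by
    intro x hx
    rw [hw x, add_sub_cancel_left]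
    refine (norm_cau_le (hh_memLp hμ hs) hR.le (hh_suppIn hμ hs) (by linarith)).trans ?_
    have h3 : 1 ≤ ‖x‖ - R := by linarith
    calc (eLpNorm (hh μ) 2 volume).toReal * R / (‖x‖ - R)
        ≤ (eLpNorm (hh μ) 2 volume).toReal * R / 1 := by
          apply div_le_div_of_nonneg_left _ one_pos h3
          positivity
      _ ≤ N.toReal * R := by
          rw [div_one]
          gcongr
  rcases le_total (R + 1) ‖z‖ with hz | hz
  · have := h2 z hz
    linarith
  · have hcont : ContinuousOn (fun x => ‖w x‖) (closedBall (0:ℂ) (R + 1)) :=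
      w.continuous.norm.continuousOn
    obtain ⟨a, ha, hmax⟩ := (isCompact_closedBall (0:ℂ) (R + 1)).exists_isMaxOn
      ⟨z, mem_closedBall_zero_iff.mpr hz⟩ hcont
    have ha' : ‖a‖ = R + 1 := by
      by_contra hne
      have hlt : a ∈ ball (0:ℂ) (R + 1) := by
        rw [mem_closedBall_zero_iff] at ha
        exact mem_ball_zero_iff.mpr (lt_of_le_of_ne ha hne)
      have h3 : w '' ball (0:ℂ) (R + 1) ∈ 𝓝 (w a) :=
        (w.isOpenMap _ isOpen_ball).mem_nhds (mem_image_of_mem _ hlt)
      obtain ⟨ε, hε, hsub⟩ := Metric.mem_nhds_iff.mp h3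
      -- a point with larger norm
      have h4 : ∃ y : ℂ, dist y (w a) < ε ∧ ‖w a‖ < ‖y‖ := by
        by_cases h0 : w a = 0
        · refine ⟨((ε / 2 : ℝ) : ℂ), ?_, ?_⟩
          · rw [h0, dist_zero_right, Complex.norm_real, Real.norm_eq_abs,
              abs_of_pos (by positivity)]
            linarith
          · rw [h0, norm_zero, Complex.norm_real, Real.norm_eq_abs, abs_of_pos (by positivity)]
            positivity
        · have hd : 0 < ‖w a‖ := norm_pos_iff.mpr h0
          refine ⟨((1 + ε / (2 * ‖w a‖) : ℝ) : ℂ) * w a, ?_, ?_⟩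
          · rw [dist_eq_norm]
            have : ((1 + ε / (2 * ‖w a‖) : ℝ) : ℂ) * w a - w a
                = ((ε / (2 * ‖w a‖) : ℝ) : ℂ) * w a := by push_cast; ring
            rw [this, norm_mul, Complex.norm_real, Real.norm_eq_abs, abs_of_pos (by positivity)]
            rw [div_mul_eq_mul_div, div_lt_iff₀ (by positivity)]
            nlinarith
          · rw [norm_mul, Complex.norm_real, Real.norm_eq_abs, abs_of_pos (by positivity)]
            have h2 : 0 < ε / (2 * ‖w a‖) := by positivity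
            nlinarith
      obtain ⟨y, hy1, hy2⟩ := h4
      obtain ⟨x, hx, hxy⟩ := hsub (mem_ball.mpr hy1)
      have := hmax (ball_subset_closedBall hx)
      simp only [mem_ofPred_eq] at this
      rw [hxy] at this
      linarith
    have h5 : ‖w z‖ ≤ R + 1 + N.toReal * R := by
      have h6 : ‖w z‖ ≤ ‖w a‖ := hmax (mem_closedBall_zero_iff.mpr hz)
      have h7 : ‖w a‖ ≤ ‖w a - a‖ + ‖a‖ := by
        calc ‖w a‖ = ‖(w a - a) + a‖ := by rw [sub_add_cancel]
          _ ≤ _ := norm_add_le _ _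
      have h8 := h2 a ha'.ge
      linarith
    have h9 : ‖w z - z‖ ≤ ‖w z‖ + ‖z‖ := norm_sub_le _ _
    linarith

end QC
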