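import Pool.Agent.Work.MP_217185_an.Sm1

/-! # Sm2a: a local diffeomorphism that is close to the identity at infinity is a diffeomorphism

`w` is proper (`w z - z → 0`), a local diffeomorphism (inverse function theorem), so it is open and
closed, hence surjective.  Injective: (a) near infinity: `u = w - z` is holomorphic for `|z| > R` and
tends to `0`, so `u' → 0` (Cauchy estimate), so for some `R'` and all `z ≠ z'` with `|z|, |z'| > R'`,
`|z - z'| ≤ 2`: `|u z - u z'| ≤ |z - z'| / 2`, `w z ≠ w z'`; and if `|u| ≤ 1/2` there then points with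
`w z = w z'` have `|z - z'| ≤ 1`.  Hence points `y` of large modulus have exactly one preimage.
(b) the number of preimages is finite (compact + discrete) and locally constant (proper local
homeomorphism), `ℂ` is connected, so it is always `1`.  (Alternatively the set
`{y | ∃ z ≠ z', w z = y = w z'}` is open and closed: closed because `w` is proper and locally
injective.)  The inverse is smooth (`ContDiffAt.to_localInverse` / inverse function theorem). -/

open MeasureTheory Complex Set Metric Filter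
open scoped Topology ENNReal NNReal ContDiff ComplexConjugate

namespace QC

theorem diffeo_of_local {w : ℂ → ℂ} (hw : ContDiff ℝ ∞ w) (hJ : ∀ z, (fderiv ℝ w z).det ≠ 0)
    (hinf : Tendsto (fun z => w z - z) (cocompact ℂ) (𝓝 0)) {R : ℝ}
    (hol : ∀ z, R < ‖z‖ → dzb w z = 0) :
    ∃ e : ℂ ≃ₜ ℂ, (∀ z, e z = w z) ∧ ContDiff ℝ ∞ e.symm := by
  have hdiff : Differentiable ℝ w := hw.differentiable (by simp)
  have hcont : Continuous w := hw.continuous
  obtain ⟨A, hA⟩ : ∃ A : ℂ → ℂ ≃L[ℝ] ℂ, ∀ z, ((A z : ℂ ≃L[ℝ] ℂ) : ℂ →L[ℝ] ℂ) = fderiv ℝ w z :=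
    ⟨fun z => (fderiv ℝ w z).toContinuousLinearEquivOfDetNeZero (hJ z), fun z =>
      ContinuousLinearMap.coe_toContinuousLinearEquivOfDetNeZero _ _⟩
  have hstrict : ∀ z, HasStrictFDerivAt w ((A z : ℂ ≃L[ℝ] ℂ) : ℂ →L[ℝ] ℂ) z := by
    intro z
    rw [hA]
    exact hw.contDiffAt.hasStrictFDerivAt (by simp)
  have hopen : IsOpenMap w := isOpenMap_of_hasStrictFDerivAt_equiv hstrict
  -- near infinity
  obtain ⟨M, hM⟩ : ∃ M : ℝ, ∀ z, M < ‖z‖ → ‖w z - z‖ ≤ 1 / 8 := by
    have h1 : ∀ᶠ z in cocompact ℂ, w z - z ∈ closedBall (0 : ℂ) (1 / 8) :=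
      hinf.eventually (closedBall_mem_nhds _ (by norm_num))
    rw [← Metric.cobounded_eq_cocompact, (Metric.hasBasis_cobounded_compl_closedBall 0).eventually_iff]
      at h1
    obtain ⟨M, -, hM⟩ := h1
    refine ⟨M, fun z hz => ?_⟩
    have h2 : z ∈ (closedBall (0 : ℂ) M)ᶜ := by
      rw [mem_compl_iff, mem_closedBall_zero_iff]
      exact not_le.2 hz
    have h3 := hM h2
    rwa [mem_closedBall_zero_iff] at h3
  have hprop : IsProperMap w := by
    rw [isProperMap_iff_tendsto_cocompact]
    refine ⟨hcont, ?_⟩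
    apply Filter.tendsto_cocompact_cocompact_of_norm
    intro ε
    refine ⟨max M (ε + 1), fun z hz => ?_⟩
    have h1 := hM z (lt_of_le_of_lt (le_max_left _ _) hz)
    have h2 : ε + 1 < ‖z‖ := lt_of_le_of_lt (le_max_right _ _) hz
    have h3 : ‖z‖ ≤ ‖w z‖ + ‖w z - z‖ := by
      calc ‖z‖ = ‖w z - (w z - z)‖ := by congr 1; ring
        _ ≤ ‖w z‖ + ‖w z - z‖ := norm_sub_le _ _
    linarith
  have hsurj : Function.Surjective w := by
    rw [← range_eq_univ]
    exact IsClopen.eq_univ ⟨hprop.isClosedMap.isClosed_range, hopen.isOpen_range⟩ (range_nonempty w)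
  have hinj : Function.Injective w := by
    -- the set of pairs of different points with the same image is closed
    obtain ⟨S, hS⟩ : ∃ S : Set (ℂ × ℂ), S = {p | w p.1 = w p.2 ∧ p.1 ≠ p.2} := ⟨_, rfl⟩
    have hSc : IsClosed S := by
      rw [← isOpen_compl_iff, isOpen_iff_mem_nhds]
      intro p hp
      by_cases h : w p.1 = w p.2
      · have h2 : p.1 = p.2 := by
          by_contra h3
          exact hp (by rw [hS]; exact ⟨h, h3⟩)
        obtain ⟨E, hE⟩ : ∃ E : OpenPartialHomeomorph ℂ ℂ,
            E = (hstrict p.1).toOpenPartialHomeomorph := ⟨_, rfl⟩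
        have h4 : p.1 ∈ E.source := by
          rw [hE]; exact (hstrict p.1).mem_toOpenPartialHomeomorph_source
        have h5 : E.source ×ˢ E.source ∈ 𝓝 p := by
          apply (E.open_source.prod E.open_source).mem_nhds
          exact ⟨h4, h2 ▸ h4⟩
        refine mem_of_superset h5 ?_
        rintro q ⟨hq1, hq2⟩ hq
        rw [hS] at hq
        apply hq.2
        apply E.injOn hq1 hq2
        rw [hE]
        exact hq.1
      · have h2 : {q : ℂ × ℂ | w q.1 ≠ w q.2} ∈ 𝓝 p := by
          apply IsOpen.mem_nhds _ h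
          exact isOpen_ne_fun (hcont.comp continuous_fst) (hcont.comp continuous_snd)
        refine mem_of_superset h2 ?_
        intro q hq hq2
        rw [hS] at hq2
        exact hq hq2.1
    obtain ⟨B, hB⟩ : ∃ B : Set ℂ, B = {y | ∃ z z', z ≠ z' ∧ w z = y ∧ w z' = y} := ⟨_, rfl⟩
    have hBc : IsClosed B := by
      have h1 : IsClosed (Prod.map w w '' S) := (hprop.prodMap hprop).isClosedMap _ hSc
      have h2 : B = (fun y : ℂ => (y, y)) ⁻¹' (Prod.map w w '' S) := by
        ext y
        rw [hB, hS]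
        constructor
        · rintro ⟨z, z', h3, h4, h5⟩
          exact ⟨(z, z'), ⟨h4.trans h5.symm, h3⟩, by rw [Prod.map_apply, h4, h5]⟩
        · rintro ⟨⟨z, z'⟩, ⟨h3, h4⟩, h5⟩
          rw [Prod.map_apply, Prod.mk.injEq] at h5
          exact ⟨z, z', h4, h5.1, h5.2⟩
      rw [h2]
      exact h1.preimage (continuous_id.prodMk continuous_id)
    have hBo : IsOpen B := by
      rw [isOpen_iff_mem_nhds]
      intro y hy
      rw [hB] at hy
      obtain ⟨z, z', h1, h2, h3⟩ := hy
      obtain ⟨U, V, hU, hV, hzU, hzV, hUV⟩ := t2_separation h1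
      have h4 : w '' U ∩ w '' V ∈ 𝓝 y := inter_mem
        ((hopen U hU).mem_nhds ⟨z, hzU, h2⟩) ((hopen V hV).mem_nhds ⟨z', hzV, h3⟩)
      refine mem_of_superset h4 ?_
      rintro x ⟨⟨a, ha, hax⟩, ⟨b, hb, hbx⟩⟩
      rw [hB]
      exact ⟨a, b, fun hab => disjoint_left.1 hUV ha (hab ▸ hb), hax, hbx⟩
    have hBe : B = ∅ := by
      rcases isClopen_iff.1 ⟨hBc, hBo⟩ with h | h
      · exact h
      · exfalso
        -- a point far away
        obtain ⟨M', hM'⟩ : ∃ M' : ℝ, M' = max M R + 3 := ⟨_, rfl⟩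
        obtain ⟨C, hC⟩ := ((isCompact_closedBall (0 : ℂ) M').image hcont).isBounded.subset_closedBall 0
        have hy : ((|C| + 1 : ℝ) : ℂ) ∈ B := by rw [h]; exact mem_univ _
        rw [hB] at hy
        obtain ⟨z, z', h1, h2, h3⟩ := hy
        have hfar : ∀ ζ, w ζ = ((|C| + 1 : ℝ) : ℂ) → M' < ‖ζ‖ := by
          intro ζ hζ
          by_contra h4
          push Not at h4
          have h5 : w ζ ∈ closedBall (0 : ℂ) C :=
            hC ⟨ζ, by rwa [mem_closedBall_zero_iff], rfl⟩
          rw [mem_closedBall_zero_iff, hζ, norm_real, Real.norm_eq_abs] at h5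
          have h6 : |C| + 1 ≤ |(|C| + 1)| := le_abs_self _
          have h7 := le_abs_self C
          linarith
        have hz := hfar z h2
        have hz' := hfar z' h3
        have hMM : M ≤ max M R := le_max_left _ _
        have hRM : R ≤ max M R := le_max_right _ _
        obtain ⟨u, hu⟩ : ∃ u : ℂ → ℂ, u = fun ζ => w ζ - ζ := ⟨_, rfl⟩
        have hub : ∀ ζ, max M R < ‖ζ‖ → ‖u ζ‖ ≤ 1 / 8 := by
          intro ζ hζ
          rw [hu]
          exact hM ζ (lt_of_le_of_lt hMM hζ)
        have hud : ∀ ζ, max M R < ‖ζ‖ → DifferentiableAt ℂ u ζ := by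
          intro ζ hζ
          rw [hu]
          exact (holo_of_dzb (hdiff ζ) (hol ζ (lt_of_le_of_lt hRM hζ))).sub differentiableAt_id
        have hkey : u z' - u z = z - z' := by
          rw [hu]
          simp only
          rw [h2, h3]
          ring
        have hd1 : ‖z - z'‖ ≤ 1 / 4 := by
          rw [← hkey]
          have e1 := hub z (by linarith)
          have e2 := hub z' (by linarith)
          have e3 := norm_sub_le (u z') (u z)
          linarith
        have hball : ∀ ζ ∈ ball z 1, ∀ ξ ∈ closedBall ζ 1, max M R < ‖ξ‖ := by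
          intro ζ hζ ξ hξ
          rw [mem_ball, dist_eq_norm] at hζ
          rw [mem_closedBall, dist_eq_norm] at hξ
          have e1 : ‖z‖ ≤ ‖ξ‖ + ‖ξ - ζ‖ + ‖ζ - z‖ := by
            calc ‖z‖ = ‖ξ - (ξ - ζ) - (ζ - z)‖ := by congr 1; ring
              _ ≤ ‖ξ - (ξ - ζ)‖ + ‖ζ - z‖ := norm_sub_le _ _
              _ ≤ ‖ξ‖ + ‖ξ - ζ‖ + ‖ζ - z‖ := by gcongr; exact norm_sub_le _ _
          linarith
        have hder : ∀ ζ ∈ ball z 1, ‖deriv u ζ‖ ≤ 1 / 8 := by
          intro ζ hζ
          have e1 : DiffContOnCl ℂ u (ball ζ 1) := by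
            apply DifferentiableOn.diffContOnCl
            rw [closure_ball ζ one_ne_zero]
            intro ξ hξ
            exact (hud ξ (hball ζ hζ ξ hξ)).differentiableWithinAt
          have e2 := Complex.norm_deriv_le_of_forall_mem_sphere_norm_le one_pos e1
            (C := 1 / 8) (fun ξ hξ => hub ξ (hball ζ hζ ξ (sphere_subset_closedBall hξ)))
          simpa using e2
        have hz'b : z' ∈ ball z 1 := by
          rw [mem_ball, dist_eq_norm, ← norm_neg, neg_sub]
          linarith
        have hzb : z ∈ ball z 1 := mem_ball_self one_pos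
        have hfin := (convex_ball z 1).norm_image_sub_le_of_norm_deriv_le (f := u)
          (fun ζ hζ => hud ζ (hball ζ hζ ζ (mem_closedBall_self zero_le_one))) hder hzb hz'b
        rw [hkey, norm_sub_rev z' z] at hfin
        have hpos : 0 < ‖z - z'‖ := norm_pos_iff.2 (sub_ne_zero.2 h1)
        linarith
    intro z z' hzz
    by_contra hne
    have : w z ∈ B := by rw [hB]; exact ⟨z, z', hne, rfl, hzz.symm⟩
    rw [hBe] at this
    exact this
  refine ⟨(Equiv.ofBijective w ⟨hinj, hsurj⟩).toHomeomorphOfContinuousOpen hcont hopen,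
    fun z => rfl, ?_⟩
  refine Homeomorph.contDiff_symm _ (f₀' := A) (fun a => ?_) hw
  exact (hstrict a).hasFDerivAt

end QC
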