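import Pool.Agent.Work.MP_217185_an.Sm1
import Pool.Agent.Work.MP_217185_an.Sm2a

/-! # Sm2b: a local diffeomorphism that is close to the identity at infinity is a diffeomorphism

`w` is proper (`w z - z → 0`), a local diffeomorphism (inverse function theorem), so it is open and
closed, hence surjective.  Injective: (a) near infinity: `u = w - z` is holomorphic for `|z| > R` and
tends to `0`, so `u' → 0` (Cauchy estimate), so for some `R'` and all `z ≠ z'` with `|z|, |z'| > R'`,
`|z - z'| ≤ 2`: `|u z - u z'| ≤ |z - z'| / 2`, `w z ≠ w z'`; and if `|u| ≤ 1/2` there then points with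
`w z = w z'` have `|z - z'| ≤ 1`.  Hence points `y` of large modulus have exactly one preimage.
(b) the number of preimages is finite (compact + discrete) and locally constant (proper local
homeomorphism), `ℂ` is connected, so it is always `1`.  (Alternatively the set
`{y | ∃ z ≠ z', w z = y = w z'}` is open and closed: closed because `w` is proper and locally
injective.)  The inverse is smooth (`ContDiffAt.to_localInverse` / inverse function theorem). -/

open MeasureTheory Complex Set Metric Filter
open scoped Topology ENNReal NNReal ContDiff ComplexConjugate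

namespace QC

/-- the measurable Riemann mapping theorem for smooth compactly supported coefficients. -/
theorem smooth_mrmt {k R : ℝ} {μ : ℂ → ℂ} (hμ : Bel k μ) (hs : Test univ μ) (hR : SuppIn R μ) :
    ∃ w : ℂ ≃ₜ ℂ, ContDiff ℝ ∞ w ∧ ContDiff ℝ ∞ w.symm ∧ (∀ z, dzb w z = μ z * dz w z) ∧
      (∀ z, dz w z ≠ 0) ∧ Tendsto (fun z => w z - z) (cocompact ℂ) (𝓝 0) ∧
      (dzb w =ᵐ[volume] hh μ) ∧ (dz w =ᵐ[volume] fun z => 1 + Tf (hh μ) z) ∧
      (∀ z, w z = z + Cau (dzb w) z) ∧ (∀ z, w z = z + Cau (hh μ) z) := by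
  obtain ⟨w, hw1, hw2, hw3, hw4, hw5⟩ := smooth_sol hμ hs
  have hk0 : 0 ≤ k := (norm_nonneg _).trans (hμ.le 0)
  have hdet : ∀ z, (fderiv ℝ w z).det ≠ 0 := by
    intro z
    rw [det_fderiv]
    have h1 : ‖dzb w z‖ ≤ k * ‖dz w z‖ := by
      rw [hw2 z, norm_mul]
      exact mul_le_mul_of_nonneg_right (hμ.le z) (norm_nonneg _)
    have h2 : 0 < ‖dz w z‖ := norm_pos_iff.2 (hw3 z)
    have h3 : ‖dzb w z‖ < ‖dz w z‖ := by
      have := mul_lt_mul_of_pos_right hμ.lt h2
      linarith
    have h4 : ‖dzb w z‖ ^ 2 < ‖dz w z‖ ^ 2 := pow_lt_pow_left₀ h3 (norm_nonneg _) two_ne_zero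
    intro h5
    linarith
  have hinf : Tendsto (fun z => w z - z) (cocompact ℂ) (𝓝 0) := by
    obtain ⟨C, hC⟩ := cau_bound hw4
    rw [tendsto_zero_iff_norm_tendsto_zero]
    have h1 : Tendsto (fun z : ℂ => C / (1 + ‖z‖)) (cocompact ℂ) (𝓝 0) := by
      apply Tendsto.const_div_atTop
      exact tendsto_atTop_add_const_left _ _ tendsto_norm_cocompact_atTop
    refine squeeze_zero (fun z => norm_nonneg _) (fun z => ?_) h1
    rw [le_div_iff₀ (by positivity)]
    have h2 : w z - z = Cau (dzb w) z := by
      have := hw5 z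
      linear_combination this
    rw [h2]
    exact hC z
  obtain ⟨e, he, hes⟩ := diffeo_of_local hw1 hdet hinf (R := R) (fun z hz => by
    rw [hw2 z, hR z hz.le, zero_mul])
  have hew : (e : ℂ → ℂ) = w := funext he
  have hwd : Differentiable ℝ w := hw1.differentiable (by simp)
  have hCd : Differentiable ℝ (Cau (dzb w)) := (cau_contDiff hw4).differentiable (by simp)
  have hdz : ∀ z, dz w z = 1 + dz (Cau (dzb w)) z := by
    intro z
    have h1 : w = fun z => z + Cau (dzb w) z := funext hw5
    have h2 := dz_add (f := fun z : ℂ => z) (g := Cau (dzb w)) (z := z) differentiableAt_id (hCd z)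
    have h3 := dz_of_holo (f := fun z : ℂ => z) (z := z) differentiableAt_id
    have h4 : deriv (fun z : ℂ => z) z = 1 := deriv_id z
    rw [h3.1, h4, ← h1] at h2
    exact h2.1
  have hTc : Tf (dzb w) =ᵐ[volume] dz (Cau (dzb w)) := Tf_cau hw4
  have hhe : dzb w =ᵐ[volume] hh μ := by
    apply hh_unique hμ hR hw4.memLp
    filter_upwards [hTc] with z hz
    rw [hz, ← hdz z]
    exact hw2 z
  refine ⟨e, ?_, hes, ?_, ?_, ?_, ?_, ?_, ?_, ?_⟩
  · rw [hew]; exact hw1
  · rw [hew]; exact hw2
  · rw [hew]; exact hw3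
  · rw [hew]; exact hinf
  · rw [hew]; exact hhe
  · rw [hew, ← Tf_congr hhe]
    filter_upwards [hTc] with z hz
    rw [hz]
    exact hdz z
  · rw [hew]; exact hw5
  · intro z
    rw [hew, hw5 z]
    congr 1
    unfold Cau
    congr 1
    apply integral_congr_ae
    filter_upwards [hhe] with x hx
    rw [hx]

end QC
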