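import Pool.Agent.Work.MP_217185_an.Compact
import Pool.Agent.Work.MP_217185_an.Sm2
import Pool.Agent.Work.MP_217185_an.UniqW

/-! # MrmtDef: the measurable Riemann mapping theorem

Approximate `μ` by test functions `M n` with the same bound (`exists_test_approx`), supported in the
ball of radius `R + 1`; `w n` from `smooth_mrmt`.  Displacement bound: `‖hh (M n)‖₂ ≤ C`
(`hh_norm`), so `‖w n z - z‖ ≤ C` for `|z| ≥ R + 2` (`norm_cau_le`); for `|z| ≤ R + 2` use that
`w n (closedBall 0 (R+2))` has its frontier in `w n (sphere)`, so `‖w n z‖ ≤ R + 2 + C`.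
`exists_limit` gives a subsequence and `w`.  `hh (M n) → hh μ`, `T hh (M n) → T hh μ` in `L²`
(`hh_tendsto`, `eLpNorm_Tf`, `Tf_sub`), so `Approx` holds; `WD` from `WD.of_tendsto`;
`w z = z + Cau (hh μ) z` a.e. because `Cau (hh (M n)) → Cau (hh μ)` in `L¹_loc`, and for `|z| > R`
everywhere (continuity, `cau_holo`); `w z - z → 0` (`tendsto_cau`). -/

open MeasureTheory Complex Set Metric Filter
open scoped Topology ENNReal NNReal ContDiff ComplexConjugate

namespace QC

/-- `w` is the normalised quasiconformal homeomorphism of the plane with coefficient `μ`. -/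
structure IsW (k : ℝ) (μ : ℂ → ℂ) (w : ℂ ≃ₜ ℂ) : Prop where
  wd : WD univ w (fun z => 1 + Tf (hh μ) z) (hh μ)
  ae : ∀ᵐ z, w z = z + Cau (hh μ) z
  out : ∀ R, SuppIn R μ → ∀ z, R < ‖z‖ → w z = z + Cau (hh μ) z
  inf : Tendsto (fun z => w z - z) (cocompact ℂ) (𝓝 0)
  approx : Approx k w (fun z => 1 + Tf (hh μ) z) (hh μ)

end QC
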