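import Pool.Agent.Work.MP_217185_an.Compact
import Pool.Agent.Work.MP_217185_an.Sm2
import Pool.Agent.Work.MP_217185_an.UniqW
import Pool.Agent.Work.MP_217185_an.MrmtDef
import Pool.Agent.Work.MP_217185_an.MrmtA
import Pool.Agent.Work.MP_217185_an.Moll2

/-! # MrmtB: the measurable Riemann mapping theorem

Approximate `μ` by test functions `M n` with the same bound (`exists_test_approx`), supported in the
ball of radius `R + 1`; `w n` from `smooth_mrmt`.  Displacement bound (`smooth_disp`): `‖hh (M n)‖₂ ≤ C`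
(`hh_norm`), so `‖w n z - z‖ ≤ C` for `|z| ≥ R + 2` (`norm_cau_le`); for `|z| ≤ R + 2` use that
`w n (closedBall 0 (R+2))` has its frontier in `w n (sphere)`, so `‖w n z‖ ≤ R + 2 + C`.
`exists_limit` gives a subsequence and `w`.  `hh (M n) → hh μ`, `T hh (M n) → T hh μ` in `L²`
(`hh_tendsto`, `eLpNorm_Tf`, `Tf_sub`), so `Approx` holds; `WD` from `WD.of_tendsto`;
`w z = z + Cau (hh μ) z` a.e. because `Cau (hh (M n)) → Cau (hh μ)` in `L¹_loc`, and for `|z| > R`
everywhere (continuity, `cau_holo`); `w z - z → 0` (`tendsto_cau`). -/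

open MeasureTheory Complex Set Metric Filter
open scoped Topology ENNReal NNReal ContDiff ComplexConjugate

namespace QC

theorem mrmt {k R : ℝ} {μ : ℂ → ℂ} (hμ : Bel k μ) (hs : SuppIn R μ) : ∃ w, IsW k μ w := by
  have hk0 : 0 ≤ k := (norm_nonneg _).trans (hμ.le 0)
  have hk := hμ.lt
  obtain ⟨M, hMt, hMk, hMs, hMlim⟩ := exists_test_approx hμ.meas hμ.le hs
  set R' : ℝ := max R 0 + 1 with hR'
  have hR'0 : 0 < R' := by have := le_max_right R 0; linarith
  have hRR' : R + 1 ≤ R' := by have := le_max_left R 0; linarith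
  have hMs' : ∀ n, SuppIn R' (M n) := fun n z hz => hMs n z (hRR'.trans hz)
  have hs' : SuppIn R' μ := fun z hz => hs z (by linarith)
  have hMB : ∀ n, Bel k (M n) := fun n => ⟨(hMt n).smooth.continuous.measurable, hMk n, hk⟩
  choose w hw1 hw2 hw3 hw4 hw5 hw6 hw7 hw8 hw9 using
    fun n => smooth_mrmt (hMB n) (hMt n) (hMs' n)
  obtain ⟨C, hC⟩ := smooth_disp hk0 hk hR'0
  have hdisp : ∀ n z, ‖w n z - z‖ ≤ C := fun n => hC (M n) (w n) (hMB n) (hMs' n) (hw9 n)
  have hratio : ∀ n z, ‖dzb (w n) z‖ ≤ k * ‖dz (w n) z‖ := by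
    intro n z
    rw [hw3 n z, norm_mul]
    exact mul_le_mul_of_nonneg_right (hMk n z) (norm_nonneg _)
  obtain ⟨φ, hφ, W, hW1, hW2⟩ := exists_limit hk0 hk hw1 hw2 hratio hw4 hdisp
  have hφt : Tendsto φ atTop atTop := hφ.tendsto_atTop
  -- convergence in `L²`
  have hmem : MemLp (hh μ) 2 (volume : Measure ℂ) := hh_memLp hμ hs
  have hmemn : ∀ n, MemLp (hh (M n)) 2 (volume : Measure ℂ) := fun n => hh_memLp (hMB n) (hMs' n)
  have hB : Tendsto (fun n => eLpNorm (fun z => hh (M n) z - hh μ z) 2 volume) atTop (𝓝 0) :=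
    hh_tendsto hMB hMs' hμ hs' hMlim
  have hA : Tendsto (fun n => eLpNorm (fun z => Tf (hh (M n)) z - Tf (hh μ) z) 2 volume)
      atTop (𝓝 0) := by
    refine hB.congr fun n => ?_
    rw [← eLpNorm_congr_ae (Tf_sub (hmemn n) hmem)]
    exact (eLpNorm_Tf ((hmemn n).sub hmem)).symm
  have hAw : Tendsto (fun n => eLpNorm (fun z => dz (w (φ n)) z - (1 + Tf (hh μ) z)) 2 volume)
      atTop (𝓝 0) := by
    refine (hA.comp hφt).congr fun n => ?_
    apply eLpNorm_congr_ae
    filter_upwards [hw7 (φ n)] with z hz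
    rw [hz]; ring
  have hBw : Tendsto (fun n => eLpNorm (fun z => dzb (w (φ n)) z - hh μ z) 2 volume)
      atTop (𝓝 0) := by
    refine (hB.comp hφt).congr fun n => ?_
    apply eLpNorm_congr_ae
    filter_upwards [hw6 (φ n)] with z hz
    rw [hz]
  have hAK : ∀ K : Set ℂ, Tendsto (fun n => eLpNorm (fun z => dz (w (φ n)) z
      - (1 + Tf (hh μ) z)) 2 (volume.restrict K)) atTop (𝓝 0) := fun K =>
    tendsto_of_tendsto_of_tendsto_of_le_of_le tendsto_const_nhds hAw (fun n => zero_le)
      (fun n => eLpNorm_mono_measure _ Measure.restrict_le_self)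
  have hBK : ∀ K : Set ℂ, Tendsto (fun n => eLpNorm (fun z => dzb (w (φ n)) z
      - hh μ z) 2 (volume.restrict K)) atTop (𝓝 0) := fun K =>
    tendsto_of_tendsto_of_tendsto_of_le_of_le tendsto_const_nhds hBw (fun n => zero_le)
      (fun n => eLpNorm_mono_measure _ Measure.restrict_le_self)
  have hap : Approx k W (fun z => 1 + Tf (hh μ) z) (hh μ) := by
    refine ⟨hk, measurable_const.add (measurable_Tf _), hh_measurable hμ hs,
      fun n => w (φ n), fun n => hw1 _, fun n => hw2 _, fun n => hratio _, fun n => hw4 _,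
      hW1, hW2, fun K _ => hAK K, fun K _ => hBK K⟩
  have hL2b : L2loc univ (hh μ) := fun K _ _ => hmem.restrict K
  have hL2a : L2loc univ (fun z => 1 + Tf (hh μ) z) := by
    intro K _ hK
    have : IsFiniteMeasure ((volume : Measure ℂ).restrict K) :=
      ⟨by rw [Measure.restrict_apply_univ]; exact hK.measure_lt_top⟩
    exact (memLp_const (1 : ℂ)).add ((memLp_Tf hmem).restrict K)
  have hwd : WD univ W (fun z => 1 + Tf (hh μ) z) (hh μ) := by
    refine WD.of_tendsto isOpen_univ W.continuous.continuousOn hL2a hL2b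
      (F := fun n => w (φ n)) (A := fun n => dz (w (φ n))) (B := fun n => dzb (w (φ n)))
      (fun n => WD.of_contDiffOn isOpen_univ ((hw1 (φ n)).of_le (by simp)).contDiffOn) ?_
      (fun K _ _ => ⟨hAK K, hBK K⟩)
    exact hW1.tendstoLocallyUniformlyOn
  -- at infinity
  set N : ℝ := (eLpNorm (hh μ) 2 volume).toReal with hN
  have hbound : ∀ z, R' < ‖z‖ → ‖W z - z‖ ≤ (N + 1) * R' / (‖z‖ - R') := by
    intro z hz
    have hpt : Tendsto (fun n => w (φ n) z - z) atTop (𝓝 (W z - z)) :=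
      ((hW1.tendstoLocallyUniformlyOn (s := univ)).tendsto_at (mem_univ z)).sub
        tendsto_const_nhds
    refine le_of_tendsto hpt.norm ?_
    have hev : ∀ᶠ n in atTop, eLpNorm (fun z => hh (M (φ n)) z - hh μ z) 2 volume < 1 :=
      (hB.comp hφt).eventually (gt_mem_nhds one_pos)
    filter_upwards [hev] with n hn
    have h1 : (eLpNorm (hh (M (φ n))) 2 volume).toReal ≤ N + 1 := by
      have h2 : eLpNorm (hh (M (φ n))) 2 volume ≤ eLpNorm (hh μ) 2 volume + 1 := by
        have h3 : hh (M (φ n)) = (fun z => hh μ z) + (fun z => hh (M (φ n)) z - hh μ z) := by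
          funext z; simp
        rw [h3]
        refine (eLpNorm_add_le hmem.1 ((hmemn _).sub hmem).1 (by norm_num)).trans ?_
        exact add_le_add le_rfl hn.le
      have h4 : eLpNorm (hh μ) 2 volume + 1 ≠ ⊤ := by
        simp [hmem.eLpNorm_ne_top]
      have h5 := ENNReal.toReal_mono h4 h2
      rwa [ENNReal.toReal_add hmem.eLpNorm_ne_top (by simp), ENNReal.toReal_one] at h5
    rw [hw9 (φ n) z, add_sub_cancel_left]
    refine (norm_cau_le (hmemn (φ n)) hR'0.le (hh_suppIn (hMB _) (hMs' _)) hz).trans ?_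
    have h6 : 0 < ‖z‖ - R' := by linarith
    gcongr
  have hinf : Tendsto (fun z => W z - z) (cocompact ℂ) (𝓝 0) := by
    rw [tendsto_zero_iff_norm_tendsto_zero]
    have hlim : Tendsto (fun z : ℂ => (N + 1) * R' / (‖z‖ - R')) (cocompact ℂ) (𝓝 0) := by
      apply Tendsto.const_div_atTop
      exact tendsto_atTop_add_const_right _ _ tendsto_norm_cocompact_atTop
    refine squeeze_zero' (Filter.Eventually.of_forall fun z => norm_nonneg _) ?_ hlim
    have : ∀ᶠ z : ℂ in cocompact ℂ, R' < ‖z‖ :=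
      tendsto_norm_cocompact_atTop.eventually (eventually_gt_atTop R')
    filter_upwards [this] with z hz
    exact hbound z hz
  have heq : hh μ =ᵐ[volume] fun z => μ z * (1 + Tf (hh μ) z) :=
    Filter.Eventually.of_forall fun z => hh_eq hμ hs z
  refine ⟨W, hwd, (unique_sol hμ hs W.continuous hwd heq hinf).2.2.1, ?_, hinf, hap⟩
  intro R₁ hR₁
  exact (unique_sol hμ hR₁ W.continuous hwd heq hinf).2.2.2

end QC
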