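import Pool.Agent.Work.MP_217185_an.Compact
import Pool.Agent.Work.MP_217185_an.Sm2
import Pool.Agent.Work.MP_217185_an.UniqW
import Pool.Agent.Work.MP_217185_an.MrmtDef

/-! # MrmtC: the measurable Riemann mapping theorem

Approximate `μ` by test functions `M n` with the same bound (`exists_test_approx`), supported in the
ball of radius `R + 1`; `w n` from `smooth_mrmt`.  Displacement bound: `‖hh (M n)‖₂ ≤ C`
(`hh_norm`), so `‖w n z - z‖ ≤ C` for `|z| ≥ R + 2` (`norm_cau_le`); for `|z| ≤ R + 2` use that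
`w n (closedBall 0 (R+2))` has its frontier in `w n (sphere)`, so `‖w n z‖ ≤ R + 2 + C`.
`exists_limit` gives a subsequence and `w`.  `hh (M n) → hh μ`, `T hh (M n) → T hh μ` in `L²`
(`hh_tendsto`, `eLpNorm_Tf`, `Tf_sub`), so `Approx` holds; `WD` from `WD.of_tendsto`;
`w z = z + Cau (hh μ) z` a.e. because `Cau (hh (M n)) → Cau (hh μ)` in `L¹_loc`, and for `|z| > R`
everywhere (continuity, `cau_holo`); `w z - z → 0` (`tendsto_cau`). -/

open MeasureTheory Complex Set Metric Filter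
open scoped Topology ENNReal NNReal ContDiff ComplexConjugate

namespace QC

/-- uniqueness. -/
theorem IsW.unique {k k' R : ℝ} {μ μ' : ℂ → ℂ} (hμ : Bel k μ) (hs : SuppIn R μ) (hμ' : Bel k' μ')
    (hs' : SuppIn R μ') (he : μ =ᵐ[volume] μ') {w w' : ℂ ≃ₜ ℂ} (h : IsW k μ w) (h' : IsW k' μ' w') :
    w = w' := by
  have hK : Bel (max k k') μ := ⟨hμ.meas, fun z => (hμ.le z).trans (le_max_left _ _),
    max_lt hμ.lt hμ'.lt⟩
  have hK' : Bel (max k k') μ' := ⟨hμ'.meas, fun z => (hμ'.le z).trans (le_max_right _ _),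
    max_lt hμ.lt hμ'.lt⟩
  have h1 : hh μ =ᵐ[volume] hh μ' := hh_congr hK hs hK' hs' he
  have h2 : ∀ z, Cau (hh μ) z = Cau (hh μ') z := by
    intro z
    unfold Cau
    congr 1
    apply integral_congr_ae
    filter_upwards [h1] with ζ hζ
    rw [hζ]
  have h3 : (w : ℂ → ℂ) =ᵐ[volume] w' := by
    filter_upwards [h.ae, h'.ae] with z hz hz'
    rw [hz, hz', h2]
  have h4 : (w : ℂ → ℂ) = w' := (w.continuous.ae_eq_iff_eq volume w'.continuous).mp h3
  ext z
  exact congrFun h4 z

end QC
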