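import Pool.Agent.Work.MP_217185_an.Defs

/-! # WirtA: Wirtinger calculus

Everything follows from `fderiv_apply_eq` (write `v = v.re • 1 + v.im • I`) and the corresponding
rules for `fderiv ℝ`.  `dz`, `dzb` are ℂ-linear in `f`.
Integration by parts: Mathlib `integral_mul_fderiv_eq_neg_fderiv_mul_of_integrable` or
`integral_fderiv...` (integral of the derivative of a compactly supported C^1 function is zero). -/

open MeasureTheory Complex Set Metric Filter
open scoped Topology ENNReal NNReal ContDiff ComplexConjugate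

namespace QC

theorem fderiv_apply_eq (f : ℂ → ℂ) (z v : ℂ) :
    fderiv ℝ f z v = dz f z * v + dzb f z * conj v := by
  have h : v = v.re • (1:ℂ) + v.im • I := by
    apply Complex.ext <;> simp
  have hp : v + conj v = 2 * (v.re : ℂ) := by
    apply Complex.ext <;> (simp; try ring)
  have hm : v - conj v = 2 * (v.im : ℂ) * I := by
    apply Complex.ext <;> (simp; try ring)
  have hF : fderiv ℝ f z v = (v.re : ℂ) * fderiv ℝ f z 1 + (v.im : ℂ) * fderiv ℝ f z I := by
    conv_lhs => rw [h]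
    rw [map_add, map_smul, map_smul, Complex.real_smul, Complex.real_smul]
  rw [hF]
  unfold dz dzb
  generalize fderiv ℝ f z 1 = A
  generalize fderiv ℝ f z I = B
  linear_combination (-(A / 2)) * hp + (I * B / 2) * hm + ((v.im : ℂ) * B) * I_sq

theorem det_fderiv (f : ℂ → ℂ) (z : ℂ) :
    (fderiv ℝ f z).det = ‖dz f z‖ ^ 2 - ‖dzb f z‖ ^ 2 := by
  have h1 : (fderiv ℝ f z).det = (fderiv ℝ f z 1).re * (fderiv ℝ f z I).im
      - (fderiv ℝ f z I).re * (fderiv ℝ f z 1).im := by
    rw [ContinuousLinearMap.det, ← LinearMap.det_toMatrix Complex.basisOneI, Matrix.det_fin_two]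
    simp [LinearMap.toMatrix_apply]
  rw [h1, ← Complex.normSq_eq_norm_sq, ← Complex.normSq_eq_norm_sq]
  unfold dz dzb
  generalize fderiv ℝ f z 1 = A
  generalize fderiv ℝ f z I = B
  simp only [Complex.normSq_apply, Complex.div_re, Complex.div_im, Complex.sub_re, Complex.sub_im,
    Complex.add_re, Complex.add_im, Complex.mul_re, Complex.mul_im, Complex.I_re, Complex.I_im,
    Complex.re_ofNat, Complex.im_ofNat]
  ring

theorem norm_fderiv_le (f : ℂ → ℂ) (z : ℂ) : ‖fderiv ℝ f z‖ ≤ ‖dz f z‖ + ‖dzb f z‖ := by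
  refine ContinuousLinearMap.opNorm_le_bound _ (by positivity) (fun v => ?_)
  rw [fderiv_apply_eq]
  refine (norm_add_le _ _).trans ?_
  rw [norm_mul, norm_mul, Complex.norm_conj, add_mul]

private theorem wirtA_norm1 (f : ℂ → ℂ) (z : ℂ) : ‖fderiv ℝ f z 1‖ ≤ ‖fderiv ℝ f z‖ := by
  have h := (fderiv ℝ f z).le_opNorm 1
  simpa using h

private theorem wirtA_normI (f : ℂ → ℂ) (z : ℂ) : ‖I * fderiv ℝ f z I‖ ≤ ‖fderiv ℝ f z‖ := by
  have h := (fderiv ℝ f z).le_opNorm I
  simpa using h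

theorem norm_dz_le (f : ℂ → ℂ) (z : ℂ) : ‖dz f z‖ ≤ ‖fderiv ℝ f z‖ := by
  unfold dz
  rw [norm_div, Complex.norm_ofNat, div_le_iff₀ (by norm_num : (0:ℝ) < 2)]
  have := norm_sub_le (fderiv ℝ f z 1) (I * fderiv ℝ f z I)
  linarith [wirtA_norm1 f z, wirtA_normI f z]

theorem norm_dzb_le (f : ℂ → ℂ) (z : ℂ) : ‖dzb f z‖ ≤ ‖fderiv ℝ f z‖ := by
  unfold dzb
  rw [norm_div, Complex.norm_ofNat, div_le_iff₀ (by norm_num : (0:ℝ) < 2)]
  have := norm_add_le (fderiv ℝ f z 1) (I * fderiv ℝ f z I)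
  linarith [wirtA_norm1 f z, wirtA_normI f z]

theorem dz_add {f g : ℂ → ℂ} {z : ℂ} (hf : DifferentiableAt ℝ f z) (hg : DifferentiableAt ℝ g z) :
    dz (fun z => f z + g z) z = dz f z + dz g z ∧
    dzb (fun z => f z + g z) z = dzb f z + dzb g z := by
  unfold dz dzb
  rw [fderiv_fun_add hf hg]
  constructor <;> simp only [add_apply] <;> ring

theorem dz_sub {f g : ℂ → ℂ} {z : ℂ} (hf : DifferentiableAt ℝ f z) (hg : DifferentiableAt ℝ g z) :
    dz (fun z => f z - g z) z = dz f z - dz g z ∧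
    dzb (fun z => f z - g z) z = dzb f z - dzb g z := by
  unfold dz dzb
  rw [fderiv_fun_sub hf hg]
  constructor <;> simp only [sub_apply] <;> ring

theorem dz_mul {f g : ℂ → ℂ} {z : ℂ} (hf : DifferentiableAt ℝ f z) (hg : DifferentiableAt ℝ g z) :
    dz (fun z => f z * g z) z = dz f z * g z + f z * dz g z ∧
    dzb (fun z => f z * g z) z = dzb f z * g z + f z * dzb g z := by
  unfold dz dzb
  rw [fderiv_fun_mul hf hg]
  constructor <;>
    simp only [add_apply, smul_apply, smul_eq_mul] <;> ring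

theorem dz_conj (f : ℂ → ℂ) (z : ℂ) :
    dz (fun z => conj (f z)) z = conj (dzb f z) ∧ dzb (fun z => conj (f z)) z = conj (dz f z) := by
  have h : fderiv ℝ (fun z => conj (f z)) z
      = (Complex.conjCLE : ℂ →L[ℝ] ℂ).comp (fderiv ℝ f z) :=
    Complex.conjCLE.comp_fderiv (f := f) (x := z)
  unfold dz dzb
  rw [h]
  constructor <;>
    simp only [ContinuousLinearMap.comp_apply, ContinuousLinearEquiv.coe_coe, Complex.conjCLE_apply,
      map_div₀, map_add, map_sub, map_mul, Complex.conj_I, Complex.conj_ofNat] <;> ring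

/-- chain rule. -/
theorem dz_comp {f g : ℂ → ℂ} {z : ℂ} (hf : DifferentiableAt ℝ f (g z))
    (hg : DifferentiableAt ℝ g z) :
    dz (fun z => f (g z)) z = dz f (g z) * dz g z + dzb f (g z) * conj (dzb g z) ∧
    dzb (fun z => f (g z)) z = dz f (g z) * dzb g z + dzb f (g z) * conj (dz g z) := by
  have h : fderiv ℝ (fun z => f (g z)) z = (fderiv ℝ f (g z)).comp (fderiv ℝ g z) :=
    fderiv_comp z hf hg
  have h1 : fderiv ℝ (fun z => f (g z)) z 1 =
      dz f (g z) * (dz g z + dzb g z) + dzb f (g z) * conj (dz g z + dzb g z) := by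
    rw [h, ContinuousLinearMap.comp_apply, fderiv_apply_eq f (g z), fderiv_apply_eq g z 1]
    simp
  have h2 : fderiv ℝ (fun z => f (g z)) z I =
      dz f (g z) * ((dz g z - dzb g z) * I)
        + dzb f (g z) * conj ((dz g z - dzb g z) * I) := by
    rw [h, ContinuousLinearMap.comp_apply, fderiv_apply_eq f (g z), fderiv_apply_eq g z I]
    have : dz g z * I + dzb g z * conj I = (dz g z - dzb g z) * I := by
      rw [Complex.conj_I]; ring
    rw [this]
  have e1 : dz (fun z => f (g z)) z = (fderiv ℝ (fun z => f (g z)) z 1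
    - I * fderiv ℝ (fun z => f (g z)) z I) / 2 := rfl
  have e2 : dzb (fun z => f (g z)) z = (fderiv ℝ (fun z => f (g z)) z 1
    + I * fderiv ℝ (fun z => f (g z)) z I) / 2 := rfl
  rw [e1, e2, h1, h2]
  simp only [map_mul, map_sub, map_add, Complex.conj_I]
  generalize dz f (g z) = A
  generalize dzb f (g z) = B
  generalize conj (dz g z) = P
  generalize conj (dzb g z) = Q
  generalize dz g z = R
  generalize dzb g z = S
  constructor
  · linear_combination (-(A * (R - S) / 2) + B * (P - Q) / 2) * I_sq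
  · linear_combination ((A * (R - S) / 2) - B * (P - Q) / 2) * I_sq

theorem dz_of_holo {f : ℂ → ℂ} {z : ℂ} (h : DifferentiableAt ℂ f z) :
    dz f z = deriv f z ∧ dzb f z = 0 := by
  have h1 : fderiv ℝ f z = (fderiv ℂ f z).restrictScalars ℝ := h.fderiv_restrictScalars ℝ
  have h2 : ∀ v : ℂ, fderiv ℝ f z v = deriv f z * v := by
    intro v
    rw [h1, ContinuousLinearMap.coe_restrictScalars', fderiv_eq_deriv_mul]
  unfold dz dzb
  rw [h2, h2]
  constructor
  · linear_combination (-(deriv f z / 2)) * I_sq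
  · linear_combination ((deriv f z / 2)) * I_sq

theorem holo_of_dzb {f : ℂ → ℂ} {z : ℂ} (h : DifferentiableAt ℝ f z) (h0 : dzb f z = 0) :
    DifferentiableAt ℂ f z := by
  rw [differentiableAt_iff_restrictScalars ℝ h]
  refine ⟨ContinuousLinearMap.toSpanSingleton ℂ (dz f z), ?_⟩
  ext v
  rw [fderiv_apply_eq f z v, h0]
  simp [ContinuousLinearMap.toSpanSingleton_apply, mul_comm]

/-- derivatives of the inverse of a diffeomorphism. -/
theorem dz_symm {w : ℂ ≃ₜ ℂ} (hw : Differentiable ℝ w) (hv : Differentiable ℝ w.symm) (z : ℂ) :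
    dz w.symm (w z) * ((‖dz w z‖ ^ 2 - ‖dzb w z‖ ^ 2 : ℝ) : ℂ) = conj (dz w z) ∧
    dzb w.symm (w z) * ((‖dz w z‖ ^ 2 - ‖dzb w z‖ ^ 2 : ℝ) : ℂ) = - dzb w z := by
  have hc := dz_comp (f := w.symm) (g := w) (z := z) (hv _) (hw _)
  have hid : (fun z => w.symm (w z)) = fun z : ℂ => z := by
    funext x; exact w.symm_apply_apply x
  have hid1 := dz_of_holo (f := fun z : ℂ => z) (z := z) differentiableAt_id
  rw [hid, hid1.1, hid1.2] at hc
  obtain ⟨h1, h2⟩ := hc
  have hd : deriv (fun z : ℂ => z) z = 1 := by simp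
  rw [hd] at h1
  have n1 : ((‖dz w z‖ ^ 2 : ℝ) : ℂ) = dz w z * conj (dz w z) := by
    rw [Complex.mul_conj, Complex.normSq_eq_norm_sq]
  have n2 : ((‖dzb w z‖ ^ 2 : ℝ) : ℂ) = dzb w z * conj (dzb w z) := by
    rw [Complex.mul_conj, Complex.normSq_eq_norm_sq]
  rw [Complex.ofReal_sub, n1, n2]
  constructor
  · linear_combination (-conj (dz w z)) * h1 + (conj (dzb w z)) * h2
  · linear_combination (dzb w z) * h1 - (dz w z) * h2

end QC
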