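import Pool.Agent.Work.MP_217185_an.Defs
import Pool.Agent.Work.MP_217185_an.WirtA

/-! # WirtB: Wirtinger calculus

Everything follows from `fderiv_apply_eq` (write `v = v.re • 1 + v.im • I`) and the corresponding
rules for `fderiv ℝ`.  `dz`, `dzb` are ℂ-linear in `f`.
Integration by parts: Mathlib `integral_mul_fderiv_eq_neg_fderiv_mul_of_integrable` or
`integral_fderiv...` (integral of the derivative of a compactly supported C^1 function is zero). -/

open MeasureTheory Complex Set Metric Filter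
open scoped Topology ENNReal NNReal ContDiff ComplexConjugate

namespace QC

theorem contDiff_dz {f : ℂ → ℂ} (h : ContDiff ℝ ∞ f) :
    ContDiff ℝ ∞ (dz f) ∧ ContDiff ℝ ∞ (dzb f) := by
  have h1 : ContDiff ℝ ∞ (fderiv ℝ f) := h.fderiv_right (by simp)
  have h2 : ∀ v : ℂ, ContDiff ℝ ∞ (fun z => fderiv ℝ f z v) := fun v => h1.clm_apply contDiff_const
  constructor
  · exact ((h2 1).sub (contDiff_const.mul (h2 I))).div_const 2
  · exact ((h2 1).add (contDiff_const.mul (h2 I))).div_const 2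

theorem dz_dzb_comm {f : ℂ → ℂ} (h : ContDiff ℝ ∞ f) (z : ℂ) :
    dz (dzb f) z = dzb (dz f) z := by
  have h1 : ContDiff ℝ ∞ (fderiv ℝ f) := h.fderiv_right (by simp)
  have hd : DifferentiableAt ℝ (fderiv ℝ f) z := (h1.differentiable (by simp)) z
  have h2 : ∀ v : ℂ, HasFDerivAt (fun z => fderiv ℝ f z v)
      ((ContinuousLinearMap.apply ℝ ℂ v).comp (fderiv ℝ (fderiv ℝ f) z)) z := fun v =>
    (ContinuousLinearMap.apply ℝ ℂ v).hasFDerivAt.comp z hd.hasFDerivAt
  have hsymm : fderiv ℝ (fderiv ℝ f) z 1 I = fderiv ℝ (fderiv ℝ f) z I 1 := by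
    have := (h.contDiffAt (x := z)).isSymmSndFDerivAt (by
      simp only [minSmoothness_of_isRCLikeNormedField]; exact WithTop.coe_le_coe.2 (le_top : (2 : ℕ∞) ≤ ⊤))
    exact this 1 I
  have e1 : HasFDerivAt (dzb f) ((2:ℂ)⁻¹ • (((ContinuousLinearMap.apply ℝ ℂ (1:ℂ)).comp
      (fderiv ℝ (fderiv ℝ f) z)) + I • ((ContinuousLinearMap.apply ℝ ℂ I).comp
      (fderiv ℝ (fderiv ℝ f) z)))) z := by
    have := ((h2 1).add ((h2 I).const_smul I)).const_smul (2:ℂ)⁻¹
    refine this.congr_of_eventuallyEq (Filter.Eventually.of_forall fun w => ?_)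
    simp only [dzb, Pi.add_apply, Pi.smul_apply, smul_eq_mul]
    ring
  have e2 : HasFDerivAt (dz f) ((2:ℂ)⁻¹ • (((ContinuousLinearMap.apply ℝ ℂ (1:ℂ)).comp
      (fderiv ℝ (fderiv ℝ f) z)) - I • ((ContinuousLinearMap.apply ℝ ℂ I).comp
      (fderiv ℝ (fderiv ℝ f) z)))) z := by
    have := ((h2 1).sub ((h2 I).const_smul I)).const_smul (2:ℂ)⁻¹
    refine this.congr_of_eventuallyEq (Filter.Eventually.of_forall fun w => ?_)
    simp only [dz, Pi.sub_apply, Pi.smul_apply, smul_eq_mul]
    ring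
  have a1 : dz (dzb f) z = (fderiv ℝ (dzb f) z 1 - I * fderiv ℝ (dzb f) z I) / 2 := rfl
  have a2 : dzb (dz f) z = (fderiv ℝ (dz f) z 1 + I * fderiv ℝ (dz f) z I) / 2 := rfl
  rw [a1, a2, e1.fderiv, e2.fderiv]
  simp only [smul_apply, add_apply, sub_apply, ContinuousLinearMap.comp_apply,
    ContinuousLinearMap.apply_apply, smul_eq_mul]
  rw [hsymm]
  ring

private theorem wirtB_support (f : ℂ → ℂ) :
    Function.support (dz f) ⊆ tsupport f ∧ Function.support (dzb f) ⊆ tsupport f := by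
  have h0 : ∀ z, z ∉ tsupport f → fderiv ℝ f z = 0 := by
    intro z hz
    have : z ∉ Function.support (fderiv ℝ f) := fun h => hz (support_fderiv_subset ℝ h)
    simpa using this
  constructor
  · intro z hz
    by_contra h
    exact hz (by simp [dz, h0 z h])
  · intro z hz
    by_contra h
    exact hz (by simp [dzb, h0 z h])

theorem Test.dz {U : Set ℂ} {φ : ℂ → ℂ} (h : Test U φ) : Test U (dz φ) ∧ Test U (dzb φ) := by
  have hs := wirtB_support φ
  have c1 : tsupport (QC.dz φ) ⊆ tsupport φ :=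
    closure_minimal hs.1 (isClosed_tsupport φ)
  have c2 : tsupport (QC.dzb φ) ⊆ tsupport φ :=
    closure_minimal hs.2 (isClosed_tsupport φ)
  have hd := contDiff_dz h.smooth
  exact ⟨⟨hd.1, h.cpt.mono' hs.1, c1.trans h.sub⟩, ⟨hd.2, h.cpt.mono' hs.2, c2.trans h.sub⟩⟩

private theorem wirtB_cont {U : Set ℂ} (hU : IsOpen U) {f g : ℂ → ℂ} (hf : ContinuousOn f U)
    (hg : Continuous g) (hs : tsupport g ⊆ U) : Continuous (fun z => f z * g z) := by
  rw [continuous_iff_continuousAt]
  intro z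
  by_cases hz : z ∈ tsupport g
  · exact (hf.continuousAt (hU.mem_nhds (hs hz))).mul hg.continuousAt
  · have : (fun z => f z * g z) =ᶠ[𝓝 z] fun _ => 0 := by
      have h0 := (notMem_tsupport_iff_eventuallyEq.1 hz)
      filter_upwards [h0] with w hw
      simp [hw]
    exact continuousAt_const.congr this.symm

private theorem wirtB_int {U : Set ℂ} (hU : IsOpen U) {f g : ℂ → ℂ} (hf : ContinuousOn f U)
    (hg : Continuous g) (hc : HasCompactSupport g) (hs : tsupport g ⊆ U) :
    Integrable (fun z => f z * g z) := by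
  refine (wirtB_cont hU hf hg hs).integrable_of_hasCompactSupport ?_
  exact hc.mul_left

private theorem wirtB_ibp {U : Set ℂ} (hU : IsOpen U) {f φ : ℂ → ℂ} (hf : ContDiffOn ℝ 1 f U)
    (hφ : ContDiff ℝ 1 φ) (hc : HasCompactSupport φ) (hs : tsupport φ ⊆ U) (v : ℂ) :
    ∫ z, f z * fderiv ℝ φ z v = - ∫ z, fderiv ℝ f z v * φ z ∧
    Integrable (fun z => f z * fderiv ℝ φ z v) ∧ Integrable (fun z => fderiv ℝ f z v * φ z) := by
  have hcf : ContinuousOn (fun z => fderiv ℝ f z v) U := by
    have h1 : ContinuousOn (fderiv ℝ f) U := hf.continuousOn_fderiv_of_isOpen hU le_rfl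
    exact h1.clm_apply continuousOn_const
  have hcφ : Continuous (fun z => fderiv ℝ φ z v) :=
    (hφ.continuous_fderiv (by simp)).clm_apply continuous_const
  have hsub : Function.support (fun z => fderiv ℝ φ z v) ⊆ tsupport φ := by
    intro z hz
    refine support_fderiv_subset ℝ ?_
    intro h0
    exact hz (by simp [h0])
  have i1 : Integrable (fun z => fderiv ℝ f z v * φ z) := wirtB_int hU hcf hφ.continuous hc hs
  have i2 : Integrable (fun z => f z * fderiv ℝ φ z v) :=
    wirtB_int hU hf.continuousOn hcφ (hc.mono' hsub)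
      ((closure_minimal hsub (isClosed_tsupport φ)).trans hs)
  have i3 : Integrable (fun z => f z * φ z) := wirtB_int hU hf.continuousOn hφ.continuous hc hs
  refine ⟨integral_mul_fderiv_eq_neg_fderiv_mul_of_integrable i1 i2 i3 ?_ ?_, i2, i1⟩
  · intro x hx
    exact (hf.contDiffAt (hU.mem_nhds (hs hx))).differentiableAt (by simp)
  · intro x _
    exact (hφ.differentiable (by simp)) x

/-- integration by parts. -/
theorem integral_mul_dz {U : Set ℂ} (hU : IsOpen U) {f φ : ℂ → ℂ} (hf : ContDiffOn ℝ 1 f U)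
    (hφ : ContDiff ℝ 1 φ) (hc : HasCompactSupport φ) (hs : tsupport φ ⊆ U) :
    ∫ z, f z * dz φ z = - ∫ z, dz f z * φ z ∧ ∫ z, f z * dzb φ z = - ∫ z, dzb f z * φ z := by
  obtain ⟨a1, b1, c1⟩ := wirtB_ibp hU hf hφ hc hs 1
  obtain ⟨a2, b2, c2⟩ := wirtB_ibp hU hf hφ hc hs I
  constructor
  · have e1 : (fun z => f z * QC.dz φ z)
        = fun z => (1 / 2 : ℂ) * (f z * fderiv ℝ φ z 1) - (I / 2) * (f z * fderiv ℝ φ z I) := by
      funext z; simp only [QC.dz]; ring
    have e2 : (fun z => QC.dz f z * φ z)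
        = fun z => (1 / 2 : ℂ) * (fderiv ℝ f z 1 * φ z) - (I / 2) * (fderiv ℝ f z I * φ z) := by
      funext z; simp only [QC.dz]; ring
    rw [e1, e2, integral_sub (b1.const_mul _) (b2.const_mul _),
      integral_sub (c1.const_mul _) (c2.const_mul _)]
    simp only [integral_const_mul]
    rw [a1, a2]
    ring
  · have e1 : (fun z => f z * QC.dzb φ z)
        = fun z => (1 / 2 : ℂ) * (f z * fderiv ℝ φ z 1) + (I / 2) * (f z * fderiv ℝ φ z I) := by
      funext z; simp only [QC.dzb]; ring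
    have e2 : (fun z => QC.dzb f z * φ z)
        = fun z => (1 / 2 : ℂ) * (fderiv ℝ f z 1 * φ z) + (I / 2) * (fderiv ℝ f z I * φ z) := by
      funext z; simp only [QC.dzb]; ring
    rw [e1, e2, integral_add (b1.const_mul _) (b2.const_mul _),
      integral_add (c1.const_mul _) (c2.const_mul _)]
    simp only [integral_const_mul]
    rw [a1, a2]
    ring

theorem integral_dz_eq_zero {φ : ℂ → ℂ} (h : ContDiff ℝ 1 φ) (hc : HasCompactSupport φ) :
    ∫ z, dz φ z = 0 ∧ ∫ z, dzb φ z = 0 := by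
  have h1 := integral_mul_dz isOpen_univ (f := fun _ => (1:ℂ)) contDiffOn_const h hc
    (subset_univ _)
  constructor
  · have h3 := h1.1
    have : (fun z => QC.dz (fun _ => (1:ℂ)) z * φ z) = fun _ => 0 := by
      funext z
      rw [(dz_of_holo (f := fun _ => (1:ℂ)) (z := z) (differentiableAt_const _)).1]
      simp
    rw [this] at h3
    simpa using h3
  · have h3 := h1.2
    have : (fun z => QC.dzb (fun _ => (1:ℂ)) z * φ z) = fun _ => 0 := by
      funext z
      rw [(dz_of_holo (f := fun _ => (1:ℂ)) (z := z) (differentiableAt_const _)).2]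
      simp
    rw [this] at h3
    simpa using h3

end QC
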