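import Pool.Agent.Work.MP_217185_an.HSpA
import Pool.Agent.Work.MP_217185_an.Wirt

/-! # NHarmA: cutting off a harmonic coefficient

`ν z = (1 - ‖z‖²)² conj (q z)` on `D`, `‖ν‖ ≤ ε`: `‖q‖ ≤ C ε` on `closedBall 0 (7/8)`; Cauchy
estimates (`Complex.norm_deriv_le_of_forall_mem_sphere_norm_le`, twice) bound `q', q''` by `C ε` on
`closedBall 0 (3/4)`.  `q` is smooth on `D` (`DifferentiableOn.contDiffOn`/`analyticOn`), so
`κ = χ ν` (a fixed smooth cutoff `χ = 1` on `ball 0 (1/2)` with support in `ball 0 (3/4)`; e.g. a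
`ContDiffBump`) is a test function, and by the Leibniz rule its first and second derivatives are
bounded by `C ε` (`C` absolute). -/

open MeasureTheory Complex Set Metric Filter
open scoped Topology ENNReal NNReal ContDiff ComplexConjugate

namespace QC

/-- the bump function -/
private noncomputable def bmp : ContDiffBump (0 : ℂ) := ⟨1 / 2, 3 / 4, by norm_num, by norm_num⟩

/-- the fixed factor -/
private noncomputable def mfac (z : ℂ) : ℂ := ((bmp z * (1 - ‖z‖ ^ 2) ^ 2 : ℝ) : ℂ)

private theorem mfac_smooth : ContDiff ℝ ∞ mfac := by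
  unfold mfac
  have h1 : ContDiff ℝ ∞ fun z : ℂ => bmp z * (1 - ‖z‖ ^ 2) ^ 2 := by
    refine bmp.contDiff.mul ((contDiff_const.sub ?_).pow 2)
    exact contDiff_norm_sq ℝ
  exact Complex.ofRealCLM.contDiff.comp h1

private theorem mfac_cpt : HasCompactSupport mfac := by
  have h1 : HasCompactSupport fun z : ℂ => bmp z * (1 - ‖z‖ ^ 2) ^ 2 :=
    bmp.hasCompactSupport.mul_right
  exact h1.comp_left (g := fun x : ℝ => (x : ℂ)) Complex.ofReal_zero

private theorem mfac_bound : ∃ M : ℝ, 0 < M ∧ ∀ i ≤ 2, ∀ z, ‖iteratedFDeriv ℝ i mfac z‖ ≤ M := by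
  have h : ∀ i : ℕ, ∃ C, ∀ z, ‖iteratedFDeriv ℝ i mfac z‖ ≤ C := fun i =>
    (mfac_smooth.continuous_iteratedFDeriv (m := i)
      (by exact_mod_cast le_top)).bounded_above_of_compact_support
      (mfac_cpt.iteratedFDeriv i)
  obtain ⟨C0, h0⟩ := h 0
  obtain ⟨C1, h1⟩ := h 1
  obtain ⟨C2, h2⟩ := h 2
  refine ⟨max 1 (max C0 (max C1 C2)), lt_max_of_lt_left one_pos, ?_⟩
  intro i hi z
  interval_cases i
  · exact (h0 z).trans ((le_max_left _ _).trans (le_max_right _ _))
  · exact (h1 z).trans (((le_max_left _ _).trans (le_max_right _ _)).trans (le_max_right _ _))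
  · exact (h2 z).trans (((le_max_right _ _).trans (le_max_right _ _)).trans (le_max_right _ _))

/-- the derivatives of the holomorphic factor -/
private theorem q_bound {q : ℂ → ℂ} (hq : DifferentiableOn ℂ q D) {B : ℝ} (hB : 0 ≤ B)
    (hb : ∀ z, ‖z‖ ≤ 7 / 8 → ‖q z‖ ≤ B) {j : ℕ} (hj : j ≤ 2) {z : ℂ} (hz : ‖z‖ ≤ 3 / 4) :
    ‖iteratedFDeriv ℝ j q z‖ ≤ 128 * B := by
  have hzD : z ∈ D := by
    rw [mem_ball, dist_zero_right]
    linarith
  have hsub : closedBall z (1 / 8) ⊆ D := by
    intro w hw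
    rw [mem_closedBall, dist_eq_norm] at hw
    rw [mem_ball, dist_zero_right]
    have := norm_le_norm_add_norm_sub' w z
    linarith
  have hcd : ContDiffAt ℂ j q z :=
    (hq.contDiffOn isOpen_ball).contDiffAt (isOpen_ball.mem_nhds hzD)
  have h1 : ‖iteratedFDeriv ℝ j q z‖ = ‖iteratedDeriv j q z‖ := by
    rw [← hcd.restrictScalars_iteratedFDeriv (𝕜 := ℝ), Function.comp_apply,
      ContinuousMultilinearMap.norm_restrictScalars, norm_iteratedFDeriv_eq_norm_iteratedDeriv]
  rw [h1]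
  have hdc : DiffContOnCl ℂ q (ball z (1 / 8)) := by
    refine ⟨hq.mono (ball_subset_closedBall.trans hsub), ?_⟩
    rw [closure_ball z (by norm_num)]
    exact (hq.mono hsub).continuousOn
  have h2 := Complex.norm_iteratedDeriv_le_of_forall_mem_sphere_norm_le (C := B) j
    (by norm_num : (0 : ℝ) < 1 / 8) hdc (fun w hw => by
      refine hb w ?_
      rw [mem_sphere, dist_eq_norm] at hw
      have := norm_le_norm_add_norm_sub' w z
      linarith)
  refine h2.trans ?_
  interval_cases j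
  · simp
    linarith
  · simp
    linarith
  · norm_num
    linarith

theorem exists_cut : ∃ C : ℝ, 0 < C ∧ ∀ (ν : ℂ → ℂ) (ε : ℝ), Harm ν → (∀ z, ‖ν z‖ ≤ ε) →
    ∃ κ : ℂ → ℂ, Test univ κ ∧ SuppIn 1 κ ∧ (∀ z ∈ ball (0 : ℂ) (1 / 2), κ z = ν z) ∧
      ∀ z, ‖κ z‖ ≤ C * ε ∧ ‖fderiv ℝ κ z‖ ≤ C * ε ∧ ‖fderiv ℝ (fderiv ℝ κ) z‖ ≤ C * ε := by
  obtain ⟨M, hM, hMb⟩ := mfac_bound
  refine ⟨4 * M * (128 * 19), by positivity, ?_⟩
  intro ν ε hν hε
  have hε0 : 0 ≤ ε := (norm_nonneg _).trans (hε 0)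
  obtain ⟨⟨q, hq, hqν⟩, hν0⟩ := hν
  have hb : ∀ z, ‖z‖ ≤ 7 / 8 → ‖q z‖ ≤ 19 * ε := by
    intro z hz
    have hzD : z ∈ D := by
      rw [mem_ball, dist_zero_right]
      linarith
    have h1 := hε z
    rw [hqν z hzD, norm_mul, norm_pow, Complex.norm_real, Complex.norm_conj,
      Real.norm_eq_abs, sq_abs] at h1
    have h2 : (15 / 64 : ℝ) ≤ 1 - ‖z‖ ^ 2 := by
      have := norm_nonneg z
      nlinarith
    have h3 : (15 / 64 : ℝ) ^ 2 ≤ (1 - ‖z‖ ^ 2) ^ 2 := pow_le_pow_left₀ (by norm_num) h2 2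
    have h4 : (15 / 64 : ℝ) ^ 2 * ‖q z‖ ≤ ε :=
      (mul_le_mul_of_nonneg_right h3 (norm_nonneg _)).trans h1
    have h5 := norm_nonneg (q z)
    nlinarith
  set κ : ℂ → ℂ := fun z => (bmp z : ℂ) * ν z with hκ
  set g : ℂ → ℂ := fun z => Complex.conjLIE (q z) with hg
  -- near a point of the disc
  have hloc : ∀ z ∈ D, κ =ᶠ[𝓝 z] fun w => mfac w * g w := by
    intro z hz
    filter_upwards [isOpen_ball.mem_nhds hz] with w hw
    simp only [hκ, hg, mfac]
    rw [hqν w hw, Complex.conjLIE_apply]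
    push_cast
    ring
  have hfar : ∀ z, 3 / 4 < ‖z‖ → κ =ᶠ[𝓝 z] fun _ => 0 := by
    intro z hz
    have h1 : IsOpen {w : ℂ | 3 / 4 < ‖w‖} := isOpen_lt continuous_const continuous_norm
    filter_upwards [h1.mem_nhds hz] with w hw
    simp only [hκ]
    have h2 : bmp w = 0 := bmp.zero_of_le_dist (by
      rw [dist_zero_right]
      exact le_of_lt hw)
    rw [h2]
    simp
  have hgs : ContDiffOn ℝ ∞ g D := by
    have h1 : ContDiffOn ℝ ∞ q D := (hq.contDiffOn (n := ∞) isOpen_ball).restrict_scalars ℝ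
    exact Complex.conjLIE.contDiff.comp_contDiffOn h1
  have hsmooth : ContDiff ℝ ∞ κ := by
    rw [contDiff_iff_contDiffAt]
    intro z
    by_cases hz : z ∈ D
    · have h1 : ContDiffAt ℝ ∞ (fun w => mfac w * g w) z :=
        mfac_smooth.contDiffAt.mul (hgs.contDiffAt (isOpen_ball.mem_nhds hz))
      exact h1.congr_of_eventuallyEq (hloc z hz)
    · have h1 : 3 / 4 < ‖z‖ := by
        rw [mem_ball, dist_zero_right, not_lt] at hz
        linarith
      exact contDiffAt_const.congr_of_eventuallyEq (hfar z h1)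
  have hsupp : HasCompactSupport κ := by
    have h1 : HasCompactSupport fun z : ℂ => (bmp z : ℂ) :=
      bmp.hasCompactSupport.comp_left (g := fun x : ℝ => (x : ℂ)) Complex.ofReal_zero
    exact h1.mul_right
  -- the bounds
  have hbound : ∀ n ≤ 2, ∀ z, ‖iteratedFDeriv ℝ n κ z‖ ≤ 4 * M * (128 * 19) * ε := by
    intro n hn z
    by_cases hz : ‖z‖ ≤ 3 / 4
    · have hzD : z ∈ D := by
        rw [mem_ball, dist_zero_right]
        linarith
      rw [(hloc z hzD).iteratedFDeriv ℝ n |>.self_of_nhds,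
        ← iteratedFDerivWithin_of_isOpen n isOpen_ball hzD]
      refine (norm_iteratedFDerivWithin_mul_le (N := ∞) mfac_smooth.contDiffOn hgs
        isOpen_ball.uniqueDiffOn hzD (by exact_mod_cast le_top)).trans ?_
      calc ∑ i ∈ Finset.range (n + 1), (n.choose i : ℝ) * ‖iteratedFDerivWithin ℝ i mfac D z‖ *
              ‖iteratedFDerivWithin ℝ (n - i) g D z‖
          ≤ ∑ i ∈ Finset.range (n + 1), (n.choose i : ℝ) * M * (128 * (19 * ε)) := by
            refine Finset.sum_le_sum fun i hi => ?_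
            rw [Finset.mem_range] at hi
            rw [iteratedFDerivWithin_of_isOpen i isOpen_ball hzD,
              iteratedFDerivWithin_of_isOpen (n - i) isOpen_ball hzD]
            have h1 : ‖iteratedFDeriv ℝ (n - i) g z‖ ≤ 128 * (19 * ε) := by
              have h2 : g = Complex.conjLIE ∘ q := rfl
              rw [h2, Complex.conjLIE.norm_iteratedFDeriv_comp_left]
              exact q_bound hq (by positivity) hb (by omega) hz
            have h2 := hMb i (by omega) z
            gcongr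
        _ = (∑ i ∈ Finset.range (n + 1), (n.choose i : ℝ)) * (M * (128 * (19 * ε))) := by
            rw [Finset.sum_mul]
            refine Finset.sum_congr rfl fun i _ => by ring
        _ = (2 : ℝ) ^ n * (M * (128 * (19 * ε))) := by
            congr 1
            have := Nat.sum_range_choose n
            exact_mod_cast this
        _ ≤ 4 * (M * (128 * (19 * ε))) := by
            refine mul_le_mul_of_nonneg_right ?_ (by positivity)
            calc (2 : ℝ) ^ n ≤ 2 ^ 2 := pow_le_pow_right₀ (by norm_num) hn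
              _ = 4 := by norm_num
        _ = 4 * M * (128 * 19) * ε := by ring
    · rw [((hfar z (not_le.1 hz)).iteratedFDeriv ℝ n).self_of_nhds]
      have h1 : iteratedFDeriv ℝ n (fun _ : ℂ => (0 : ℂ)) z = 0 := by
        have := iteratedFDeriv_zero_fun (𝕜 := ℝ) (E := ℂ) (F := ℂ) (n := n)
        exact congrFun this z
      rw [h1, norm_zero]
      positivity
  refine ⟨κ, ⟨hsmooth, hsupp, subset_univ _⟩, ?_, ?_, ?_⟩
  · intro z hz
    simp only [hκ]
    rw [hν0 z, mul_zero]
    rw [mem_ball, dist_zero_right, not_lt]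
    exact hz
  · intro z hz
    simp only [hκ]
    have : bmp z = 1 := bmp.one_of_mem_closedBall (ball_subset_closedBall hz)
    rw [this, Complex.ofReal_one, one_mul]
  · intro z
    refine ⟨?_, ?_, ?_⟩
    · have := hbound 0 (by norm_num) z
      rwa [norm_iteratedFDeriv_zero] at this
    · have := hbound 1 (by norm_num) z
      rwa [norm_iteratedFDeriv_one] at this
    · have := hbound 2 le_rfl z
      rwa [← norm_iteratedFDeriv_fderiv (n := 1), norm_iteratedFDeriv_one] at this

end QC
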