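import Pool.Agent.Work.MP_217185_an.RegSmall1

/-! # RegSmall: small smooth coefficients

`h = κ T h + κ` has a smooth solution `h` (`reg` with `μ = g = κ`).  `small_l2`, and sup bounds by
`sup_le_L2` applied to `h` (`R = 1`, `h` vanishes where `κ` does) and to `χ dz (Cau h)` with a fixed
smooth cutoff `χ = 1` on the closed unit disc, support in the ball of radius 2 (Leibniz rule for
`∂_I ∂_1`); both are `≤ C' ε`, choose `ε` small. -/

open MeasureTheory Complex Set Metric Filter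
open scoped Topology ENNReal NNReal ContDiff ComplexConjugate

namespace QC

private theorem rss_chi : ∃ χ : ℂ → ℂ, Test univ χ ∧ (∀ z, ‖z‖ ≤ 1 → χ z = 1) ∧ SuppIn 2 χ := by
  let b : ContDiffBump (0 : ℂ) := ⟨1, 2, one_pos, by norm_num⟩
  refine ⟨fun z => (b z : ℂ), ⟨Complex.ofRealCLM.contDiff.comp b.contDiff, ?_, subset_univ _⟩,
    ?_, ?_⟩
  · exact b.hasCompactSupport.comp_left (g := fun x : ℝ => (x : ℂ)) (by simp)
  · intro z hz
    have : b z = 1 := b.one_of_mem_closedBall (by simpa [b] using hz)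
    simp [this]
  · intro z hz
    have : b z = 0 := b.zero_of_le_dist (by simpa [b] using hz)
    simp [this]

private theorem rss_bdd {u : ℂ → ℂ} (hu : Test univ u) : ∃ M : ℝ, 0 ≤ M ∧ ∀ z, ‖u z‖ ≤ M := by
  obtain ⟨C, hC⟩ := hu.cpt.exists_bound_of_continuous hu.smooth.continuous
  exact ⟨max C 0, le_max_right _ _, fun z => (hC z).trans (le_max_left _ _)⟩

private theorem rss_eq {u : ℂ → ℂ} (hu : MemLp u 2 volume) :
    (∫ w, ‖u w‖ ^ 2) ^ (1 / 2 : ℝ) = rs1_n u := by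
  unfold rs1_n
  rw [hu.eLpNorm_eq_integral_rpow_norm (by norm_num) (by norm_num)]
  have h : (0 : ℝ) ≤ (∫ w, ‖u w‖ ^ 2) ^ (1 / 2 : ℝ) := by positivity
  simp only [ENNReal.toReal_ofNat, Real.rpow_ofNat]
  rw [ENNReal.toReal_ofReal (by positivity)]
  norm_num

private theorem rss_sup {u : ℂ → ℂ} (hu : Test univ u) {R : ℝ} (hR : 0 ≤ R) (hs : SuppIn R u)
    (z : ℂ) : ‖u z‖ ≤ 2 * R * rs1_n (rs1_P I (rs1_P 1 u)) := by
  have h1 := sup_le_L2 (hu.smooth.of_le (by norm_cast)) hR hs z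
  rw [← rss_eq (rs1_test (rs1_test hu 1) I).memLp]
  exact h1

theorem reg_small : ∃ ε : ℝ, 0 < ε ∧ ε ≤ 1 / 2 ∧ ∀ κ : ℂ → ℂ, Test univ κ → SuppIn 1 κ →
    (∀ z, ‖κ z‖ ≤ ε ∧ ‖fderiv ℝ κ z‖ ≤ ε ∧ ‖fderiv ℝ (fderiv ℝ κ) z‖ ≤ ε) →
    ∃ h, Test univ h ∧ (∀ z, h z = κ z * (1 + dz (Cau h) z)) ∧ (∀ z, ‖h z‖ ≤ 1 / 4) ∧
      ∀ z, ‖z‖ ≤ 1 → ‖dz (Cau h) z‖ ≤ 1 / 4 := by
  obtain ⟨C, hC, hsmall⟩ := small_l2
  obtain ⟨χ, hχ, hχ1, hχ2⟩ := rss_chi
  have t1 := rs1_test hχ 1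
  have tI := rs1_test hχ I
  have t1I := rs1_test t1 I
  obtain ⟨M0, hM0, hM0'⟩ := rss_bdd hχ
  obtain ⟨M1, hM1, hM1'⟩ := rss_bdd t1
  obtain ⟨M2, hM2, hM2'⟩ := rss_bdd tI
  obtain ⟨M3, hM3, hM3'⟩ := rss_bdd t1I
  obtain ⟨M, hM, e0, e1, e2, e3⟩ : ∃ M : ℝ, 0 ≤ M ∧ M0 ≤ M ∧ M1 ≤ M ∧ M2 ≤ M ∧ M3 ≤ M :=
    ⟨M0 + M1 + M2 + M3, by positivity, by linarith, by linarith, by linarith, by linarith⟩
  have hden : 0 < 64 * (M + 1) * (C + 1) := by positivity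
  refine ⟨1 / (64 * (M + 1) * (C + 1)), by positivity, ?_, ?_⟩
  · rw [div_le_div_iff₀ hden (by norm_num)]
    nlinarith [mul_nonneg hM hC.le]
  intro κ hκ hκs hκb
  obtain ⟨ε, hεdef⟩ : ∃ ε : ℝ, ε = 1 / (64 * (M + 1) * (C + 1)) := ⟨_, rfl⟩
  rw [← hεdef] at hκb
  have hε : 0 < ε := by rw [hεdef]; positivity
  have hε2 : ε ≤ 1 / 2 := by
    rw [hεdef, div_le_div_iff₀ hden (by norm_num)]
    nlinarith [mul_nonneg hM hC.le]
  have hbel : Bel (1 / 2) κ :=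
    ⟨hκ.smooth.continuous.measurable, fun z => (hκb z).1.trans hε2, by norm_num⟩
  obtain ⟨h, hh, heq⟩ := reg hbel hκ hκ
  have heq' : ∀ z, h z = κ z * (1 + dz (Cau h) z) := fun z => by rw [heq z]; ring
  have hs := hsmall κ h ε hε.le hε2 hκ hκs hκb hh heq'
  have hhs : SuppIn 1 h := by
    intro z hz
    rw [heq', hκs z hz, zero_mul]
  have toR : ∀ {u : ℂ → ℂ}, MemLp u 2 volume → eLpNorm u 2 volume ≤ ENNReal.ofReal (C * ε) →
      rs1_n u ≤ C * ε := by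
    intro u hu h1
    exact (ENNReal.le_ofReal_iff_toReal_le hu.2.ne (by positivity)).1 h1
  refine ⟨h, hh, heq', ?_, ?_⟩
  · intro z
    refine (rss_sup hh zero_le_one hhs z).trans ?_
    have h1 : rs1_n (rs1_P I (rs1_P 1 h)) ≤ C * ε :=
      toR (rs1_test (rs1_test hh 1) I).memLp
        (hs h (Or.inl rfl) 1 I (Or.inl rfl) (Or.inr rfl)).2.2
    have h2 : C * ε ≤ 1 / 64 := by
      rw [hεdef, mul_one_div, div_le_div_iff₀ hden (by norm_num)]
      nlinarith [mul_nonneg hM hC.le]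
    linarith
  · intro z hz
    obtain ⟨v, hv⟩ : ∃ v, v = dz (Cau h) := ⟨_, rfl⟩
    have hvs : ContDiff ℝ ∞ v := by rw [hv]; exact (contDiff_dz (cau_contDiff hh)).1
    have tu : Test univ (fun z => χ z * v z) :=
      ⟨hχ.smooth.mul hvs, hχ.cpt.mul_right, subset_univ _⟩
    have hsv := hs v (Or.inr hv)
    have hvm : MemLp v 2 volume := by rw [hv]; exact memLp_dz_cau hh
    have hvPs : ∀ e, ContDiff ℝ ∞ (rs1_P e v) := fun e =>
      (hvs.fderiv_right (m := ∞) (by simp)).clm_apply contDiff_const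
    have hvP : ∀ e, MemLp (rs1_P e v) 2 volume := by
      intro e
      rw [hv, rs1_comm hh]
      exact memLp_dz_cau (rs1_test hh e)
    have hvPP : ∀ e f, MemLp (rs1_P f (rs1_P e v)) 2 volume := by
      intro e f
      rw [hv, rs1_comm hh, rs1_comm (rs1_test hh e)]
      exact memLp_dz_cau (rs1_test (rs1_test hh e) f)
    have n0 : rs1_n v ≤ C * ε := toR hvm (hsv 1 I (Or.inl rfl) (Or.inr rfl)).1
    have n1 : rs1_n (rs1_P 1 v) ≤ C * ε :=
      toR (hvP 1) (hsv 1 I (Or.inl rfl) (Or.inr rfl)).2.1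
    have nI : rs1_n (rs1_P I v) ≤ C * ε :=
      toR (hvP I) (hsv I I (Or.inr rfl) (Or.inr rfl)).2.1
    have n1I : rs1_n (rs1_P I (rs1_P 1 v)) ≤ C * ε :=
      toR (hvPP 1 I) (hsv 1 I (Or.inl rfl) (Or.inr rfl)).2.2
    have hL : rs1_P I (rs1_P 1 (fun z => χ z * v z)) = fun z =>
        (rs1_P I (rs1_P 1 χ) z * v z + rs1_P 1 χ z * rs1_P I v z) +
        (rs1_P I χ z * rs1_P 1 v z + χ z * rs1_P I (rs1_P 1 v) z) := by
      rw [rs1_P_mul hχ.smooth hvs, rs1_P_add (t1.smooth.mul hvs) (hχ.smooth.mul (hvPs 1)),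
        rs1_P_mul t1.smooth hvs, rs1_P_mul hχ.smooth (hvPs 1)]
    have mm : ∀ {a b : ℂ → ℂ}, Test univ a → ContDiff ℝ ∞ b → MemLp (fun z => a z * b z) 2 volume :=
      fun ha hb => Test.memLp ⟨ha.smooth.mul hb, ha.cpt.mul_right, subset_univ _⟩
    have m1 := mm t1I hvs
    have m2 := mm t1 (hvPs I)
    have m3 := mm tI (hvPs 1)
    have m4 : MemLp (fun z => χ z * rs1_P I (rs1_P 1 v) z) 2 volume :=
      mm hχ (((hvPs 1).fderiv_right (m := ∞) (by simp)).clm_apply contDiff_const)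
    have hn : rs1_n (rs1_P I (rs1_P 1 (fun z => χ z * v z))) ≤ 4 * (M * (C * ε)) := by
      rw [hL]
      have q : ∀ {a b : ℂ → ℂ} {Ma : ℝ}, 0 ≤ Ma → Ma ≤ M → (∀ z, ‖a z‖ ≤ Ma) → MemLp b 2 volume →
          rs1_n b ≤ C * ε → rs1_n (fun z => a z * b z) ≤ M * (C * ε) := by
        intro a b Ma h0 h1 h2 h3 h4
        refine (rs1_mul h0 h2 h3).trans ?_
        have h5 : 0 ≤ rs1_n b := ENNReal.toReal_nonneg
        exact mul_le_mul h1 h4 h5 hM
      calc _ ≤ rs1_n (fun z => rs1_P I (rs1_P 1 χ) z * v z + rs1_P 1 χ z * rs1_P I v z) +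
            rs1_n (fun z => rs1_P I χ z * rs1_P 1 v z + χ z * rs1_P I (rs1_P 1 v) z) :=
            rs1_add (m1.add m2) (m3.add m4)
        _ ≤ (rs1_n (fun z => rs1_P I (rs1_P 1 χ) z * v z) +
              rs1_n (fun z => rs1_P 1 χ z * rs1_P I v z)) +
            (rs1_n (fun z => rs1_P I χ z * rs1_P 1 v z) +
              rs1_n (fun z => χ z * rs1_P I (rs1_P 1 v) z)) :=
            add_le_add (rs1_add m1 m2) (rs1_add m3 m4)
        _ ≤ (M * (C * ε) + M * (C * ε)) + (M * (C * ε) + M * (C * ε)) :=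
            add_le_add (add_le_add (q hM3 e3 hM3' hvm n0) (q hM1 e1 hM1' (hvP I) nI))
              (add_le_add (q hM2 e2 hM2' (hvP 1) n1) (q hM0 e0 hM0' (hvPP 1 I) n1I))
        _ = 4 * (M * (C * ε)) := by ring
    have hsupp : SuppIn 2 (fun z => χ z * v z) := by
      intro w hw
      show χ w * v w = 0
      rw [hχ2 w hw, zero_mul]
    have hfin := rss_sup tu (by norm_num : (0 : ℝ) ≤ 2) hsupp z
    rw [hχ1 z hz, one_mul] at hfin
    rw [← hv]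
    refine hfin.trans ?_
    have h3 : M * (C * ε) ≤ 1 / 64 := by
      rw [hεdef, mul_one_div, mul_div_assoc', div_le_div_iff₀ hden (by norm_num)]
      nlinarith [mul_nonneg hM hC.le]
    linarith

end QC
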