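import Pool.Agent.Work.MP_217185_an.NHarmA
import Pool.Agent.Work.MP_217185_an.RegSmall
import Pool.Agent.Work.MP_217185_an.Mrmt

/-! # NHarmB: the local model

`κ` from `exists_cut` satisfies the hypothesis of `reg_small` if `ε₁` is small; `h` from `reg_small`,
`w` from `smooth_mrmt` (for `κ`, `Bel (1/2) κ`).  `w z = z + Cau (dzb w) z` and
`dzb w = κ dz w`, so `dzb w` is a test function and solves `g = κ (1 + dz (Cau g))`; `h` solves the same
equation, so `h = dzb w` a.e. (`hh_unique` with `Tf_test`; both are `=ᵐ hh κ`), so everywhere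
(continuous).  Hence `dz w = 1 + dz (Cau h)`, `dzb w = h`, and the bounds of `reg_small`.
`Approx`: the constant sequence `w`. -/

open MeasureTheory Complex Set Metric Filter
open scoped Topology ENNReal NNReal ContDiff ComplexConjugate

namespace QC

private theorem nharmB_approx {w : ℂ ≃ₜ ℂ} (hw : ContDiff ℝ ∞ w) (hws : ContDiff ℝ ∞ w.symm)
    (hb : ∀ z, ‖dzb w z‖ ≤ 1 / 2 * ‖dz w z‖) (hn : ∀ z, dz w z ≠ 0) :
    Approx (1 / 2) w (dz w) (dzb w) where
  lt := by norm_num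
  meas_a := (contDiff_dz hw).1.continuous.measurable
  meas_b := (contDiff_dz hw).2.continuous.measurable
  ex := by
    refine ⟨fun _ => w, fun _ => hw, fun _ => hws, fun _ => hb, fun _ => hn, ?_, ?_, ?_, ?_⟩
    · intro u hu z
      exact ⟨univ, univ_mem, Eventually.of_forall fun _ y _ => refl_mem_uniformity hu⟩
    · intro u hu z
      exact ⟨univ, univ_mem, Eventually.of_forall fun _ y _ => refl_mem_uniformity hu⟩
    · intro K _
      simp
    · intro K _
      simp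

theorem harm_model : ∃ ε₁ : ℝ, 0 < ε₁ ∧ ε₁ ≤ 1 / 8 ∧ ∀ ν : ℂ → ℂ, Harm ν → (∀ z, ‖ν z‖ ≤ ε₁) →
    ∃ (w : ℂ ≃ₜ ℂ) (κ : ℂ → ℂ), ContDiff ℝ ∞ w ∧ ContDiff ℝ ∞ w.symm ∧
      Approx (1 / 2) w (dz w) (dzb w) ∧ (∀ z, dzb w z = κ z * dz w z) ∧
      (∀ z ∈ ball (0 : ℂ) (1 / 2), κ z = ν z) ∧
      ∀ z, ‖z‖ ≤ 1 → ‖dz w z - 1‖ ≤ 1 / 4 ∧ ‖dzb w z‖ ≤ 1 / 4 := by
  obtain ⟨C, hC, hcut⟩ := exists_cut
  obtain ⟨ε, hε0, hε1, hreg⟩ := reg_small
  refine ⟨min (1 / 8) (ε / C), lt_min (by norm_num) (by positivity), min_le_left _ _, ?_⟩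
  intro ν hν hb
  obtain ⟨κ, hκt, hκs, hκν, hκb⟩ := hcut ν _ hν hb
  have hle : C * min (1 / 8) (ε / C) ≤ ε := by
    calc C * min (1 / 8) (ε / C) ≤ C * (ε / C) := by gcongr; exact min_le_right _ _
      _ = ε := by field_simp
  obtain ⟨h, hht, hheq, hhb, hhd⟩ := hreg κ hκt hκs
    (fun z => ⟨(hκb z).1.trans hle, (hκb z).2.1.trans hle, (hκb z).2.2.trans hle⟩)
  have hbel : Bel (1 / 2) κ := ⟨hκt.smooth.continuous.measurable,
    fun z => ((hκb z).1.trans hle).trans hε1, by norm_num⟩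
  obtain ⟨w, hw1, hw2, hw3, hw4, -, hw6, -, hw8, -⟩ := smooth_mrmt hbel hκt hκs
  -- `h = dzb w`
  have hhae : h =ᵐ[volume] hh κ := by
    refine hh_unique hbel hκs (hht.smooth.continuous.memLp_of_hasCompactSupport hht.cpt) ?_
    filter_upwards [Tf_cau hht] with z hz
    rw [hz]
    exact hheq z
  have hdc : Continuous (dzb w) := (contDiff_dz hw1).2.continuous
  have hhw : h = dzb w :=
    (hht.smooth.continuous.ae_eq_iff_eq volume hdc).1 (hhae.trans hw6.symm)
  have hcd : ContDiff ℝ ∞ (Cau h) := cau_contDiff hht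
  have hdz : ∀ z, dz w z = 1 + dz (Cau h) z := by
    intro z
    have e : (w : ℂ → ℂ) = fun z => z + Cau h z := by
      funext z
      rw [hhw]
      exact hw8 z
    have h1 := (dz_add (f := fun z => z) (g := Cau h) (z := z) differentiableAt_id
      (hcd.differentiable (by simp) z)).1
    have h2 : dz (fun z => z) z = 1 := by
      rw [(dz_of_holo (f := fun z => z) (z := z) differentiableAt_id).1]
      exact deriv_id z
    rw [e, h1, h2]
  refine ⟨w, κ, hw1, hw2, nharmB_approx hw1 hw2 ?_ hw4, hw3, hκν, ?_⟩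
  · intro z
    rw [hw3 z, norm_mul]
    exact mul_le_mul_of_nonneg_right (hbel.le z) (norm_nonneg _)
  · intro z hz
    refine ⟨?_, ?_⟩
    · rw [hdz z, add_sub_cancel_left]
      exact hhd z hz
    · rw [← hhw]
      exact hhb z

end QC
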