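import Pool.Agent.Work.MP_217185_an.Wirt

/-! # NHarmC: a smooth homeomorphism with derivative close to the identity

`‖fderiv ℝ w z - 1‖ ≤ 1/2` on the unit disc (`fderiv_apply_eq`), so `w - id` is `1/2`-Lipschitz on
the unit disc (convex); third claim: otherwise the segment from `w z` to a point of the ball outside
`w '' ball 0 (1/2)` meets the frontier `w '' sphere 0 (1/2)`, at distance `≥ (1/4)/2` from `w z`.
Area: change of variables (`lintegral_image_eq_lintegral_abs_det_fderiv_mul`), the Jacobian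
`‖dz w‖² - ‖dzb w‖²` (`det_fderiv`) is between `(3/4)² - (1/4)² = 1/2` and `(5/4)² ≤ 2`. -/

open MeasureTheory Complex Set Metric Filter
open scoped Topology ENNReal NNReal ContDiff ComplexConjugate

namespace QC

private theorem nharmC_lip {w : ℂ ≃ₜ ℂ} (hw : ContDiff ℝ ∞ w)
    (h : ∀ z, ‖z‖ ≤ 1 → ‖dz w z - 1‖ ≤ 1 / 4 ∧ ‖dzb w z‖ ≤ 1 / 4) :
    ∀ z z', ‖z‖ ≤ 1 → ‖z'‖ ≤ 1 → ‖z - z'‖ / 2 ≤ ‖w z - w z'‖ ∧ ‖w z - w z'‖ ≤ 2 * ‖z - z'‖ := by
  intro z z' hz hz'
  have hd : Differentiable ℝ w := hw.differentiable (by simp)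
  have key : ‖w z - w z' - (ContinuousLinearMap.id ℝ ℂ) (z - z')‖ ≤ 1 / 2 * ‖z - z'‖ := by
    refine (convex_closedBall (0 : ℂ) 1).norm_image_sub_le_of_norm_fderiv_le' (𝕜 := ℝ)
      (fun x _ => hd x) (fun x hx => ?_) (by simpa using hz') (by simpa using hz)
    have hx' : ‖x‖ ≤ 1 := by simpa using hx
    obtain ⟨h1, h2⟩ := h x hx'
    refine ContinuousLinearMap.opNorm_le_bound _ (by norm_num) (fun v => ?_)
    rw [sub_apply, fderiv_apply_eq]
    have e : dz w x * v + dzb w x * conj v - (ContinuousLinearMap.id ℝ ℂ) v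
        = (dz w x - 1) * v + dzb w x * conj v := by
      simp only [ContinuousLinearMap.id_apply]
      ring
    rw [e]
    refine (norm_add_le _ _).trans ?_
    rw [norm_mul, norm_mul, Complex.norm_conj]
    nlinarith [norm_nonneg v, norm_nonneg (dz w x - 1), norm_nonneg (dzb w x)]
  simp only [ContinuousLinearMap.id_apply] at key
  have h1 := norm_sub_norm_le (z - z') (w z - w z')
  have h2 := norm_sub_norm_le (w z - w z') (z - z')
  rw [norm_sub_rev (z - z') (w z - w z')] at h1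
  constructor
  · linarith
  · linarith [norm_nonneg (z - z')]

private theorem nharmC_jac {w : ℂ ≃ₜ ℂ}
    (h : ∀ z, ‖z‖ ≤ 1 → ‖dz w z - 1‖ ≤ 1 / 4 ∧ ‖dzb w z‖ ≤ 1 / 4) (z : ℂ) (hz : ‖z‖ ≤ 1) :
    1 / 2 ≤ |(fderiv ℝ w z).det| ∧ |(fderiv ℝ w z).det| ≤ 2 := by
  obtain ⟨h1, h2⟩ := h z hz
  have h3 := norm_sub_norm_le (1 : ℂ) (dz w z)
  rw [norm_sub_rev (1 : ℂ) (dz w z), norm_one] at h3
  have h4 := norm_sub_norm_le (dz w z) (1 : ℂ)
  rw [norm_one] at h4
  have h5 := norm_nonneg (dzb w z)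
  have a1 : 3 / 4 ≤ ‖dz w z‖ := by linarith
  have a2 : ‖dz w z‖ ≤ 5 / 4 := by linarith
  have b : 1 / 2 ≤ ‖dz w z‖ ^ 2 - ‖dzb w z‖ ^ 2 := by nlinarith
  have c : ‖dz w z‖ ^ 2 - ‖dzb w z‖ ^ 2 ≤ 2 := by nlinarith
  rw [det_fderiv, abs_of_nonneg (by linarith)]
  exact ⟨b, c⟩

theorem model_lip {w : ℂ ≃ₜ ℂ} (hw : ContDiff ℝ ∞ w)
    (h : ∀ z, ‖z‖ ≤ 1 → ‖dz w z - 1‖ ≤ 1 / 4 ∧ ‖dzb w z‖ ≤ 1 / 4) :
    (∀ z z', ‖z‖ ≤ 1 → ‖z'‖ ≤ 1 → ‖z - z'‖ / 2 ≤ ‖w z - w z'‖ ∧ ‖w z - w z'‖ ≤ 2 * ‖z - z'‖) ∧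
    (∀ z, ‖z‖ ≤ 1 / 4 → ball (w z) (1 / 8) ⊆ w '' ball 0 (1 / 2)) ∧
    ∀ E ⊆ ball (0 : ℂ) 1, MeasurableSet E →
      volume (w '' E) ≤ 2 * volume E ∧ volume E ≤ 2 * volume (w '' E) := by
  have hl := nharmC_lip hw h
  refine ⟨hl, ?_, ?_⟩
  · intro z hz
    have hpre : IsPreconnected (ball (w z) (1 / 8)) := (convex_ball _ _).isPreconnected
    have hopen1 : IsOpen (w '' ball (0 : ℂ) (1 / 2)) := w.isOpenMap _ isOpen_ball
    have hopen2 : IsOpen ((w '' closedBall (0 : ℂ) (1 / 2))ᶜ) :=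
      (w.isClosedMap _ isClosed_closedBall).isOpen_compl
    refine hpre.subset_left_of_subset_union hopen1 hopen2 ?_ ?_ ?_
    · rw [disjoint_compl_right_iff_subset]
      exact image_mono ball_subset_closedBall
    · intro y hy
      by_contra hcon
      rw [mem_union, not_or, mem_compl_iff, not_not] at hcon
      obtain ⟨h1, x, hx, hxy⟩ := hcon
      have hx1 : ‖x‖ ≤ 1 / 2 := by simpa using hx
      have hx2 : ¬ ‖x‖ < 1 / 2 := by
        intro hlt
        exact h1 ⟨x, by simpa using hlt, hxy⟩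
      have h3 := (hl x z (by linarith) (by linarith)).1
      have h4 := norm_sub_norm_le x z
      rw [hxy] at h3
      rw [mem_ball, dist_eq_norm] at hy
      linarith
    · refine ⟨w z, mem_ball_self (by norm_num), z, ?_, rfl⟩
      rw [mem_ball_zero_iff]
      linarith
  · intro E hE hEm
    have hd : Differentiable ℝ w := hw.differentiable (by simp)
    have hch := lintegral_abs_det_fderiv_eq_addHaar_image volume hEm
      (fun x _ => (hd x).hasFDerivAt.hasFDerivWithinAt) (w.injective.injOn (s := E))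
    have hz : ∀ x ∈ E, ‖x‖ ≤ 1 := by
      intro x hx
      have := hE hx
      rw [mem_ball_zero_iff] at this
      exact this.le
    constructor
    · rw [← hch]
      calc ∫⁻ x in E, ENNReal.ofReal |(fderiv ℝ w x).det| ≤ ∫⁻ x in E, 2 := by
            refine setLIntegral_mono' hEm (fun x hx => ?_)
            rw [show (2 : ℝ≥0∞) = ENNReal.ofReal 2 by simp]
            exact ENNReal.ofReal_le_ofReal (nharmC_jac h x (hz x hx)).2
        _ = 2 * volume E := by rw [setLIntegral_const]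
    · have h5 : ∫⁻ _ in E, (1 / 2 : ℝ≥0∞) ≤ volume (w '' E) := by
        rw [← hch]
        refine setLIntegral_mono' hEm (fun x hx => ?_)
        rw [show (1 / 2 : ℝ≥0∞) = ENNReal.ofReal (1 / 2) by
          rw [ENNReal.ofReal_div_of_pos (by norm_num)]; simp]
        exact ENNReal.ofReal_le_ofReal (nharmC_jac h x (hz x hx)).1
      rw [setLIntegral_const] at h5
      calc volume E = 2 * (1 / 2 * volume E) := by
            rw [← mul_assoc, one_div, ENNReal.mul_inv_cancel (by norm_num) (by norm_num), one_mul]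
        _ ≤ 2 * volume (w '' E) := by gcongr

end QC
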