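import Pool.Agent.Work.MP_217185_an.Distort

/-! # NHarmD: two points of the disc are not pushed together

`distort` gives `r'` for `r = 1/4`.  `G = A_z⁻¹ ∘ F⁻¹ ∘ A_y`, `y = F z`, fixes `0` and has a
coefficient bounded by `k` (`IsQC.inv`, `IsQC.comp_mob`, `IsQC.mob_comp`, `exists_mob_zero`).
`distort_small` with `η = 1/5` gives `s`; the pseudohyperbolic distance of `z`, `ζ` is at least
`(1/4)/(9/8) = 2/9 > 1/5`, so `u = A_y⁻¹ (F ζ)` has `‖u‖ > s`, and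
`‖u‖ = ‖F ζ - y‖ / ‖1 - conj y F ζ‖ ≤ ‖F ζ - y‖/(1 - r')`.  So `c = s (1 - r')`
(take `r' ≥ 0`). -/

open MeasureTheory Complex Set Metric Filter
open scoped Topology ENNReal NNReal ContDiff ComplexConjugate

namespace QC

private theorem nharmD_symm {p : ℂ} (hp : ‖p‖ < 1) {A : CD ≃ₜ CD}
    (hA : ∀ z : CD, (A z : ℂ) = mob 1 p z) (x : CD) :
    ‖((A.symm x : CD) : ℂ)‖ * ‖1 - conj p * x‖ = ‖(x : ℂ) - p‖ := by
  have hx : ‖(x : ℂ)‖ ≤ 1 := mem_closedBall_zero_iff.1 x.2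
  have hu : ‖((A.symm x : CD) : ℂ)‖ ≤ 1 := mem_closedBall_zero_iff.1 (A.symm x).2
  have h := (mob_inv (a := 1) (b := p) (by simpa using hp) hu).1
  rw [← hA, A.apply_symm_apply] at h
  have hne : (1 : ℂ) - conj p * x ≠ 0 := by
    intro h0
    have h1 : (1 : ℂ) = conj p * x := by linear_combination h0
    have h2 : ‖(1 : ℂ)‖ = ‖p‖ * ‖(x : ℂ)‖ := by
      rw [h1, norm_mul, Complex.norm_conj]
    rw [norm_one] at h2
    nlinarith [norm_nonneg p, norm_nonneg (x : ℂ)]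
  rw [← h, ← norm_mul]
  congr 1
  unfold mob
  simp only [map_one, map_neg]
  have e : (-conj p * (x : ℂ) + 1) = 1 - conj p * x := by ring
  rw [e, div_mul_cancel₀ _ hne]
  ring

theorem distort_pair {k : ℝ} (hk0 : 0 ≤ k) (hk : k < 1) : ∃ c : ℝ, 0 < c ∧
    ∀ (F : CD ≃ₜ CD) (μ : ℂ → ℂ), IsQC k F μ → ext F 0 = 0 → ∀ z ζ, ‖z‖ ≤ 1 / 4 → ‖ζ‖ = 1 / 2 →
      c ≤ ‖ext F ζ - ext F z‖ := by
  obtain ⟨r', hr', hd⟩ := distort hk0 hk (1 / 4) (by norm_num) (by norm_num)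
  obtain ⟨s, hs, hds⟩ := distort_small hk0 hk (1 / 5) (by norm_num)
  refine ⟨s * (1 - r'), mul_pos hs (by linarith), fun F μ hF hF0 z ζ hz hζ => ?_⟩
  have hzm : z ∈ closedBall (0 : ℂ) 1 := by rw [mem_closedBall_zero_iff]; linarith
  have hζm : ζ ∈ closedBall (0 : ℂ) 1 := by rw [mem_closedBall_zero_iff]; linarith
  set zc : CD := ⟨z, hzm⟩ with hzc
  set ζc : CD := ⟨ζ, hζm⟩ with hζc
  have hzlt : ‖(zc : ℂ)‖ < 1 := by show ‖z‖ < 1; linarith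
  have hy : ‖((F zc : CD) : ℂ)‖ < 1 := (hF.pres zc).2 hzlt
  have e1 : ext F z = F zc := ext_apply F zc
  have e2 : ext F ζ = F ζc := ext_apply F ζc
  have hyr : ‖((F zc : CD) : ℂ)‖ ≤ r' := by
    rw [← e1]
    exact hd F μ hF hF0 z hz
  rw [e1, e2]
  obtain ⟨Ay, hAy, hAy1, hAy0⟩ := exists_mob_zero hy
  obtain ⟨Az, hAz, hAz1, hAz0⟩ := exists_mob_zero hzlt
  obtain ⟨κ, hκ, _⟩ := hF.inv
  have hG1 : IsQC k (F⁻¹ * Ay) (pull 1 (F zc : ℂ) κ) := hκ.comp_mob (by simpa using hy) hAy1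
  have hG := hG1.mob_comp hAz.inv
  set Gh : CD ≃ₜ CD := Az⁻¹ * (F⁻¹ * Ay) with hGh
  have hval : ∀ x : CD, Gh x = Az.symm (F.symm (Ay x)) := fun x => rfl
  have hG0 : ext Gh 0 = 0 := by
    have h1 : ext Gh 0 = (Gh ⟨0, by simp⟩ : CD) :=
      ext_apply Gh ⟨0, by simp⟩
    rw [h1, hval]
    have h2 : Ay ⟨0, by simp⟩ = F zc := Subtype.ext hAy0
    have h3 : Az ⟨0, by simp⟩ = zc := Subtype.ext hAz0
    rw [h2, F.symm_apply_apply, ← h3, Az.symm_apply_apply]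
  -- the point u
  set u : CD := Ay.symm (F ζc) with hu
  have hGu : ext Gh (u : ℂ) = ((Az.symm ζc : CD) : ℂ) := by
    rw [ext_apply, hval, hu, Ay.apply_symm_apply, F.symm_apply_apply]
  have hv := nharmD_symm hzlt hAz1 ζc
  have hv1 : ‖(1 : ℂ) - conj (zc : ℂ) * ζc‖ ≤ 9 / 8 := by
    refine (norm_sub_le _ _).trans ?_
    rw [norm_one, norm_mul, Complex.norm_conj]
    show 1 + ‖z‖ * ‖ζ‖ ≤ 9 / 8
    rw [hζ]
    linarith
  have hv2 : 1 / 4 ≤ ‖(ζc : ℂ) - zc‖ := by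
    have h1 := norm_sub_norm_le (ζc : ℂ) (zc : ℂ)
    have h2 : ‖(ζc : ℂ)‖ = 1 / 2 := hζ
    have h3 : ‖(zc : ℂ)‖ ≤ 1 / 4 := hz
    linarith
  have hus : s < ‖(u : ℂ)‖ := by
    by_contra hcon
    push Not at hcon
    have h1 := hds _ _ hG hG0 (u : ℂ) hcon
    rw [hGu] at h1
    have h2 : ‖((Az.symm ζc : CD) : ℂ)‖ * ‖(1 : ℂ) - conj (zc : ℂ) * ζc‖ ≤ 1 / 5 * (9 / 8) :=
      mul_le_mul h1 hv1 (norm_nonneg _) (by norm_num)
    rw [hv] at h2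
    linarith
  have hu1 := nharmD_symm hy hAy1 (F ζc)
  have hu2 : 1 - r' ≤ ‖(1 : ℂ) - conj (F zc : ℂ) * (F ζc : ℂ)‖ := by
    have h1 := norm_sub_norm_le (1 : ℂ) (conj (F zc : ℂ) * (F ζc : ℂ))
    rw [norm_one, norm_mul, Complex.norm_conj] at h1
    have h2 : ‖((F ζc : CD) : ℂ)‖ ≤ 1 := mem_closedBall_zero_iff.1 (F ζc).2
    have h3 := norm_nonneg ((F zc : CD) : ℂ)
    nlinarith
  rw [← hu1]
  exact mul_le_mul hus.le hu2 (by linarith) (norm_nonneg _)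

end QC
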