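import Pool.Agent.Work.MP_217185_an.Wirt
import Pool.Agent.Work.MP_217185_an.InjDeriv

/-! # NHarmE: area distortion of an injective holomorphic function

Upper bound of `‖g'‖` by `8`: Cauchy estimate on `ball y (1/8)`.  Lower bound: the inverse function
`g⁻¹ : ball (g y) c → V` is holomorphic and its values differ by at most `R`, so its derivative at
`g y` is at most `R / c` (Cauchy estimate for `g⁻¹ - y`).  Then
`volume (g '' E) = ∫_E ‖g'‖²` (`lintegral_image_eq_lintegral_abs_det_fderiv_mul`, the determinant of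
multiplication by `c` is `‖c‖²`). -/

open MeasureTheory Complex Set Metric Filter
open scoped Topology ENNReal NNReal ContDiff ComplexConjugate

namespace QC

/-- the inverse of an injective holomorphic function is holomorphic. -/
private theorem nharmE_inv {V : Set ℂ} (hV : IsOpen V) {g : ℂ → ℂ} (hg : DifferentiableOn ℂ g V)
    (hi : InjOn g V) {y : ℂ} (hy : y ∈ V) :
    HasDerivAt (Function.invFunOn g V) (deriv g y)⁻¹ (g y) := by
  have h0 := deriv_ne_zero_of_injOn hV hg hi hy
  have ha : AnalyticAt ℂ g y := hg.analyticAt (hV.mem_nhds hy)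
  have hs : HasStrictDerivAt g (deriv g y) y := ha.hasStrictDerivAt
  refine (hs.to_local_left_inverse h0 ?_).hasDerivAt
  filter_upwards [hV.mem_nhds hy] with x hx
  exact hi.leftInvOn_invFunOn hx

private theorem nharmE_upper {g : ℂ → ℂ} {y : ℂ} (hg : DifferentiableOn ℂ g (ball y (1 / 8)))
    (hb : ∀ x ∈ ball y (1 / 8), ‖g x‖ ≤ 1) : ‖deriv g y‖ ≤ 8 := by
  have h : ∀ s : ℝ, 0 < s → s < 1 / 8 → ‖deriv g y‖ ≤ 1 / s := by
    intro s hs hs'
    refine Complex.norm_deriv_le_of_forall_mem_sphere_norm_le hs ?_ ?_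
    · have : closure (ball y s) ⊆ ball y (1 / 8) := by
        rw [closure_ball y hs.ne']
        exact closedBall_subset_ball hs'
      exact (hg.mono this).diffContOnCl
    · intro z hz
      exact hb z (closedBall_subset_ball hs' (sphere_subset_closedBall hz))
  by_contra hcon
  push Not at hcon
  have hpos : 0 < ‖deriv g y‖ := by linarith
  set t := ‖deriv g y‖ with ht
  have h1 := h ((1 / 8 + 1 / t) / 2) (by positivity) (by
    have : 1 / t < 1 / 8 := by
      apply one_div_lt_one_div_of_lt <;> linarith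
    linarith)
  have h2 : 1 / t < (1 / 8 + 1 / t) / 2 := by
    have : 1 / t < 1 / 8 := by
      apply one_div_lt_one_div_of_lt <;> linarith
    linarith
  have h3 : 1 / ((1 / 8 + 1 / t) / 2) < 1 / (1 / t) := one_div_lt_one_div_of_lt (by positivity) h2
  rw [one_div_one_div] at h3
  linarith

private theorem nharmE_lower {V : Set ℂ} (hV : IsOpen V) {g : ℂ → ℂ} (hg : DifferentiableOn ℂ g V)
    (hi : InjOn g V) {R c : ℝ} (hc : 0 < c) (hR : 0 < R)
    (hVR : ∀ y ∈ V, ∀ y' ∈ V, ‖y - y'‖ ≤ R) {y : ℂ} (hy : y ∈ V)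
    (hyc : ball (g y) c ⊆ g '' V) : c / R ≤ ‖deriv g y‖ := by
  have hd : DifferentiableOn ℂ (Function.invFunOn g V) (ball (g y) c) := by
    intro x hx
    obtain ⟨a, ha, rfl⟩ := hyc hx
    exact (nharmE_inv hV hg hi ha).differentiableAt.differentiableWithinAt
  have hm : MapsTo (Function.invFunOn g V) (ball (g y) c)
      (closedBall (Function.invFunOn g V (g y)) R) := by
    intro x hx
    have hex : ∃ a ∈ V, g a = x := hyc hx
    have hey : ∃ a ∈ V, g a = g y := ⟨y, hy, rfl⟩
    rw [mem_closedBall, dist_eq_norm]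
    exact hVR _ (Function.invFunOn_mem hex) _ (Function.invFunOn_mem hey)
  have h1 := Complex.norm_deriv_le_div_of_mapsTo_ball hd hm hc
  rw [(nharmE_inv hV hg hi hy).deriv, norm_inv] at h1
  have h0 : 0 < ‖deriv g y‖ := norm_pos_iff.mpr (deriv_ne_zero_of_injOn hV hg hi hy)
  rw [inv_le_comm₀ h0 (by positivity), inv_div] at h1
  exact h1

theorem holo_area {V : Set ℂ} (hV : IsOpen V) {g : ℂ → ℂ} (hg : DifferentiableOn ℂ g V)
    (hi : InjOn g V) (hb : ∀ y ∈ V, ‖g y‖ ≤ 1) {R c : ℝ} (hc : 0 < c) (hR : 0 < R)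
    (hVR : ∀ y ∈ V, ∀ y' ∈ V, ‖y - y'‖ ≤ R) {E : Set ℂ} (hE : MeasurableSet E)
    (hEV : ∀ y ∈ E, ball y (1 / 8) ⊆ V) (hEc : ∀ y ∈ E, ball (g y) c ⊆ g '' V) :
    volume (g '' E) ≤ ENNReal.ofReal 64 * volume E ∧
    volume E ≤ ENNReal.ofReal ((R / c) ^ 2) * volume (g '' E) := by
  have hEsub : E ⊆ V := fun y hy => hEV y hy (mem_ball_self (by norm_num))
  have hdR : ∀ y ∈ V, DifferentiableAt ℂ g y := fun y hy => hg.differentiableAt (hV.mem_nhds hy)
  have hch := lintegral_abs_det_fderiv_eq_addHaar_image volume hE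
    (fun x hx => ((hdR x (hEsub hx)).restrictScalars ℝ).hasFDerivAt.hasFDerivWithinAt)
    (hi.mono hEsub)
  have hdet : ∀ x ∈ E, |(fderiv ℝ g x).det| = ‖deriv g x‖ ^ 2 := by
    intro x hx
    obtain ⟨e1, e2⟩ := dz_of_holo (hdR x (hEsub hx))
    rw [det_fderiv, e1, e2, norm_zero]
    rw [show ‖deriv g x‖ ^ 2 - (0 : ℝ) ^ 2 = ‖deriv g x‖ ^ 2 by ring]
    exact abs_of_nonneg (by positivity)
  constructor
  · rw [← hch]
    calc ∫⁻ x in E, ENNReal.ofReal |(fderiv ℝ g x).det| ≤ ∫⁻ x in E, ENNReal.ofReal 64 := by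
          refine setLIntegral_mono' hE (fun x hx => ?_)
          apply ENNReal.ofReal_le_ofReal
          rw [hdet x hx]
          have h8 : ‖deriv g x‖ ≤ 8 := nharmE_upper (hg.mono (hEV x hx))
            (fun z hz => hb z (hEV x hx hz))
          nlinarith [norm_nonneg (deriv g x)]
      _ = ENNReal.ofReal 64 * volume E := by rw [setLIntegral_const]
  · have h5 : ∫⁻ _ in E, ENNReal.ofReal ((c / R) ^ 2) ≤ volume (g '' E) := by
      rw [← hch]
      refine setLIntegral_mono' hE (fun x hx => ?_)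
      apply ENNReal.ofReal_le_ofReal
      rw [hdet x hx]
      have hlow := nharmE_lower hV hg hi hc hR hVR (hEsub hx) (hEc x hx)
      have : 0 < c / R := by positivity
      gcongr
    rw [setLIntegral_const] at h5
    calc volume E = ENNReal.ofReal ((R / c) ^ 2) * (ENNReal.ofReal ((c / R) ^ 2) * volume E) := by
          rw [← mul_assoc, ← ENNReal.ofReal_mul (by positivity)]
          have : (R / c) ^ 2 * (c / R) ^ 2 = 1 := by
            field_simp
          rw [this, ENNReal.ofReal_one, one_mul]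
      _ ≤ ENNReal.ofReal ((R / c) ^ 2) * volume (g '' E) := by gcongr

end QC
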