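import Pool.Agent.Work.MP_217185_an.NHarmB
import Pool.Agent.Work.MP_217185_an.NHarmC
import Pool.Agent.Work.MP_217185_an.NHarmD
import Pool.Agent.Work.MP_217185_an.NHarmE

/-! # NHarmF: Jacobian bounds near the centre for small harmonic coefficients

`ε₀ = ε₁` of `harm_model`.  `factor` (`U = ball 0 (1/2)`, `f = ext F`, the coefficient of `F` and `w` is
`ν = κ` on `U`) gives `g = ext F ∘ w.symm` holomorphic on `V = w '' U`, injective, `ext F = g ∘ w` on
`U`.  `‖y - y'‖ ≤ 2` on `V` (`model_lip`).  With `c` from `distort_pair`,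
`ball (F z) c ⊆ F '' ball 0 (1/2)` for `‖z‖ ≤ 1/4` (`F '' ball 0 (1/2)` is open with frontier
`F '' sphere`; a segment from `F z` to a point outside meets the frontier).  `E ⊆ ball 0 (1/4)`:
`F '' E = g '' (w '' E)`, use `holo_area` for `w '' E` and `model_lip`.
`r'` from `distort` with `r = 1/4` (take the maximum with `0`). -/

open MeasureTheory Complex Set Metric Filter
open scoped Topology ENNReal NNReal ContDiff ComplexConjugate

namespace QC

theorem harm_local : ∃ ε₀ : ℝ, 0 < ε₀ ∧ ε₀ ≤ 1 / 8 ∧ ∃ C : ℝ≥0∞, C ≠ ⊤ ∧ ∃ r' : ℝ, 0 ≤ r' ∧ r' < 1 ∧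
    ∀ (F : CD ≃ₜ CD) (ν : ℂ → ℂ), IsQC ε₀ F ν → Harm ν → ext F 0 = 0 →
      ext F '' ball 0 (1 / 4) ⊆ closedBall 0 r' ∧
      ∀ E ⊆ ball (0 : ℂ) (1 / 4), MeasurableSet E →
        volume (ext F '' E) ≤ C * volume E ∧ volume E ≤ C * volume (ext F '' E) := by
  obtain ⟨ε₁, hε0, hε1, hmod⟩ := harm_model
  have hk0 : 0 ≤ ε₁ := hε0.le
  have hk1 : ε₁ < 1 := by linarith
  obtain ⟨r'', hr'', hdist⟩ := distort hk0 hk1 (1 / 4) (by norm_num) (by norm_num)
  obtain ⟨c, hc, hpair⟩ := distort_pair hk0 hk1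
  refine ⟨ε₁, hε0, hε1, 2 * (ENNReal.ofReal 64 + ENNReal.ofReal ((2 / c) ^ 2)), ?_,
    max r'' 0, le_max_right _ _, max_lt hr'' one_pos, ?_⟩
  · exact ENNReal.mul_ne_top (by norm_num)
      (ENNReal.add_ne_top.2 ⟨ENNReal.ofReal_ne_top, ENNReal.ofReal_ne_top⟩)
  intro F ν hF hν hF0
  refine ⟨?_, ?_⟩
  · rintro _ ⟨x, hx, rfl⟩
    rw [mem_closedBall_zero_iff]
    rw [mem_ball_zero_iff] at hx
    exact (hdist F ν hF hF0 x hx.le).trans (le_max_left _ _)
  obtain ⟨w, κ, hw1, hw2, hA, hwκ, hκν, hwb⟩ := hmod ν hν hF.bel.le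
  obtain ⟨hlip, hball, hvol⟩ := model_lip hw1 hwb
  set U : Set ℂ := ball (0 : ℂ) (1 / 2) with hU
  have hUo : IsOpen U := isOpen_ball
  have hUD : U ⊆ D := ball_subset_ball (by norm_num)
  have hUC : closedBall (0 : ℂ) (1 / 2) ⊆ closedBall (0 : ℂ) 1 := closedBall_subset_closedBall
    (by norm_num)
  set V : Set ℂ := w '' U with hV
  have hVo : IsOpen V := w.isOpenMap _ hUo
  set g : ℂ → ℂ := fun y => ext F (w.symm y) with hg
  obtain ⟨a, b, hWD, hab⟩ := hF.wd
  have hholo : DifferentiableOn ℂ g V := by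
    refine factor hA (μ := κ) (Eventually.of_forall hwκ) hUo
      ((continuousOn_ext F).mono (hUD.trans ball_subset_closedBall)) (hWD.mono hUo hUD) ?_
    have h1 := ae_restrict_of_ae_restrict_of_subset hUD hab
    rw [ae_restrict_iff' hUo.measurableSet] at h1 ⊢
    filter_upwards [h1] with z hz hzU
    rw [hκν z hzU]
    exact hz hzU
  have hgi : InjOn g V := by
    rintro _ ⟨x, hx, rfl⟩ _ ⟨y, hy, rfl⟩ hxy
    simp only [hg, w.symm_apply_apply] at hxy
    rw [injOn_ext F (ball_subset_closedBall (hUD hx)) (ball_subset_closedBall (hUD hy)) hxy]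
  have himg : ∀ E : Set ℂ, g '' (w '' E) = ext F '' E := by
    intro E
    rw [image_image]
    simp only [hg, w.symm_apply_apply]
  have hb1 : ∀ y ∈ V, ‖g y‖ ≤ 1 := by
    rintro _ ⟨x, hx, rfl⟩
    simp only [hg, w.symm_apply_apply]
    have := ext_apply F ⟨x, ball_subset_closedBall (hUD hx)⟩
    simp only at this
    rw [this]
    exact mem_closedBall_zero_iff.1 (F ⟨x, ball_subset_closedBall (hUD hx)⟩).2
  have hVR : ∀ y ∈ V, ∀ y' ∈ V, ‖y - y'‖ ≤ 2 := by
    rintro _ ⟨x, hx, rfl⟩ _ ⟨x', hx', rfl⟩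
    rw [hU, mem_ball_zero_iff] at hx hx'
    have h1 := (hlip x x' (by linarith) (by linarith)).2
    have h2 := norm_sub_le x x'
    linarith
  -- the image of the small ball is open
  have hgo : IsOpen (g '' V) := by
    rw [isOpen_iff_mem_nhds]
    rintro _ ⟨y, hy, rfl⟩
    have hd := deriv_ne_zero_of_injOn hVo hholo hgi hy
    have hs : HasStrictDerivAt g (deriv g y) y :=
      (hholo.analyticAt (hVo.mem_nhds hy)).hasStrictDerivAt
    rw [← hs.map_nhds_eq hd]
    exact image_mem_map (hVo.mem_nhds hy)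
  have hsub : ∀ z, ‖z‖ < 1 / 4 → ball (ext F z) c ⊆ g '' V := by
    intro z hz
    have hzU : z ∈ U := by rw [hU, mem_ball_zero_iff]; linarith
    have hpre : IsPreconnected (ball (ext F z) c) := (convex_ball _ _).isPreconnected
    have hcl : IsClosed (ext F '' closedBall (0 : ℂ) (1 / 2)) :=
      ((isCompact_closedBall (0 : ℂ) (1 / 2)).image_of_continuousOn
        ((continuousOn_ext F).mono hUC)).isClosed
    refine hpre.subset_left_of_subset_union hgo hcl.isOpen_compl ?_ ?_ ?_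
    · rw [disjoint_compl_right_iff_subset, hV, himg]
      exact image_mono ball_subset_closedBall
    · intro y hy
      by_contra hcon
      rw [mem_union, not_or, mem_compl_iff, not_not, hV, himg] at hcon
      obtain ⟨h1, x, hx, hxy⟩ := hcon
      have hx1 : ‖x‖ ≤ 1 / 2 := by simpa using hx
      have hx2 : ¬ ‖x‖ < 1 / 2 := by
        intro hlt
        exact h1 ⟨x, by rw [hU, mem_ball_zero_iff]; exact hlt, hxy⟩
      have h3 := hpair F ν hF hF0 z x hz.le (le_antisymm hx1 (not_lt.1 hx2))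
      rw [hxy] at h3
      rw [mem_ball, dist_eq_norm] at hy
      linarith
    · refine ⟨ext F z, mem_ball_self hc, ?_⟩
      rw [hV, himg]
      exact ⟨z, hzU, rfl⟩
  intro E hE hEm
  have hE4 : ∀ z ∈ E, ‖z‖ < 1 / 4 := fun z hz => by
    have := hE hz
    rwa [mem_ball_zero_iff] at this
  have hwE : MeasurableSet (w '' E) := w.measurableEmbedding.measurableSet_image.2 hEm
  obtain ⟨ha1, ha2⟩ := holo_area hVo hholo hgi hb1 hc (by norm_num : (0 : ℝ) < 2) hVR hwE
    (by
      rintro _ ⟨z, hz, rfl⟩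
      exact hball z (hE4 z hz).le)
    (by
      rintro _ ⟨z, hz, rfl⟩
      simp only [hg, w.symm_apply_apply]
      exact hsub z (hE4 z hz))
  obtain ⟨hv1, hv2⟩ := hvol E (hE.trans (ball_subset_ball (by norm_num))) hEm
  rw [himg] at ha1 ha2
  set c₁ := ENNReal.ofReal 64
  set c₂ := ENNReal.ofReal ((2 / c) ^ 2)
  constructor
  · calc volume (ext F '' E) ≤ c₁ * volume (w '' E) := ha1
      _ ≤ c₁ * (2 * volume E) := by gcongr
      _ = 2 * c₁ * volume E := by ring
      _ ≤ 2 * (c₁ + c₂) * volume E := by gcongr; exact le_self_add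
  · calc volume E ≤ 2 * volume (w '' E) := hv2
      _ ≤ 2 * (c₂ * volume (ext F '' E)) := by gcongr
      _ = 2 * c₂ * volume (ext F '' E) := by ring
      _ ≤ 2 * (c₁ + c₂) * volume (ext F '' E) := by gcongr; exact le_add_self

end QC
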