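import Pool.Agent.Work.MP_217185_an.HSpA

/-! # NHarmG: pull back of a harmonic coefficient

`q` is replaced by `(q ∘ A) A'²`: `(1 - ‖A z‖²)² = (1 - ‖z‖²)² ‖A'‖²` (`one_sub_norm_mob`) and the factor
of `pull` is `conj A'/A'` (`pull_factor`). -/

open MeasureTheory Complex Set Metric Filter
open scoped Topology ENNReal NNReal ContDiff ComplexConjugate

namespace QC

theorem Harm.pull {ν : ℂ → ℂ} (h : Harm ν) {a b : ℂ} (hab : ‖b‖ < ‖a‖) : Harm (pull a b ν) := by
  obtain ⟨⟨q, hq, hνq⟩, hν0⟩ := h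
  refine ⟨⟨fun ζ => q (QC.mob a b ζ) *
    (((‖a‖ ^ 2 - ‖b‖ ^ 2 : ℝ) : ℂ) / (conj b * ζ + conj a) ^ 2) ^ 2, ?_, ?_⟩, ?_⟩
  · intro ζ hζ
    have hζ1 : ‖ζ‖ < 1 := by simpa using hζ
    have hden := mob_denom_ne hab hζ1.le
    have h1 : DifferentiableAt ℂ (fun z => QC.mob a b z) ζ :=
      (hasDerivAt_mob hab hden).differentiableAt
    have h2 : DifferentiableAt ℂ q (QC.mob a b ζ) := by
      refine hq.differentiableAt (isOpen_ball.mem_nhds ?_)
      rw [mem_ball_zero_iff]
      exact norm_mob_lt hab hζ1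
    have h3 : DifferentiableAt ℂ (fun z => q (QC.mob a b z)) ζ :=
      DifferentiableAt.comp ζ h2 h1
    have h4 : DifferentiableAt ℂ (fun z => (((‖a‖ ^ 2 - ‖b‖ ^ 2 : ℝ) : ℂ)
        / (conj b * z + conj a) ^ 2) ^ 2) ζ := by
      refine DifferentiableAt.pow (DifferentiableAt.div (differentiableAt_const _) ?_ ?_) 2
      · fun_prop
      · exact pow_ne_zero 2 hden
    exact (h3.mul h4).differentiableWithinAt
  · intro ζ hζ
    have hζ1 : ‖ζ‖ < 1 := by simpa using hζ
    have hden := mob_denom_ne hab hζ1.le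
    have hA : ‖QC.mob a b ζ‖ < 1 := norm_mob_lt hab hζ1
    have hcd : conj (conj b * ζ + conj a) = b * conj ζ + a := by simp
    have hden2 : b * conj ζ + a ≠ 0 := by
      rw [← hcd]
      exact (map_ne_zero _).mpr hden
    have hone := one_sub_norm_mob hab hζ1.le
    have hn : ((‖conj b * ζ + conj a‖ ^ 2 : ℝ) : ℂ)
        = (conj b * ζ + conj a) * (b * conj ζ + a) := by
      rw [← hcd, Complex.mul_conj, Complex.normSq_eq_norm_sq]
    unfold QC.pull
    rw [if_pos hζ1, hνq _ (by rw [mem_ball_zero_iff]; exact hA), hone]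
    rw [Complex.ofReal_div, hn]
    simp only [map_mul, map_pow, map_div₀, hcd, Complex.conj_ofReal]
    generalize conj (q (QC.mob a b ζ)) = Q
    push_cast
    generalize b * conj ζ + a = Y at hden2 ⊢
    generalize conj b * ζ + conj a = X at hden ⊢
    field_simp
  · intro ζ hζ
    have hζ1 : ¬ ‖ζ‖ < 1 := by simpa using hζ
    unfold QC.pull
    rw [if_neg hζ1]

end QC
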