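import Pool.Agent.Work.MP_217185_an.NHarm1
import Pool.Agent.Work.MP_217185_an.NHarmG
import Pool.Agent.Work.MP_217185_an.HypB

/-! # NHarmH: small harmonic coefficients distort the hyperbolic area by a bounded factor

Cover `D` by countably many `A_{z_i} '' ball 0 (1/4)`, split `E` accordingly (disjoint measurable
pieces).  For one `i` apply `harm_local` to `σ ∘ F ∘ A_{z_i}` with `σ` Moebius, `σ (F z_i) = 0`; its
coefficient `pull 1 z_i ν` is harmonic (`Harm.pull`, `IsQC.comp_mob`, `IsQC.mob_comp`).  `hyp` and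
`volume` are comparable on `closedBall 0 r` (`volume_le_hyp`, `hyp_le_volume`), `hyp` is invariant
(`hyp_mob`). -/

open MeasureTheory Complex Set Metric Filter
open scoped Topology ENNReal NNReal ContDiff ComplexConjugate

namespace QC

private theorem ext_mulH (G H : CD ≃ₜ CD) (z : ℂ) :
    ext (G * H : CD ≃ₜ CD) z = ext G (ext H z) := by
  by_cases hz : z ∈ closedBall (0 : ℂ) 1
  · have h1 : ext H z = (H ⟨z, hz⟩ : CD) := ext_apply H ⟨z, hz⟩
    have h2 : ext (G * H : CD ≃ₜ CD) z = ((G * H : CD ≃ₜ CD) ⟨z, hz⟩ : CD) :=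
      ext_apply (G * H : CD ≃ₜ CD) ⟨z, hz⟩
    rw [h1, h2, ext_apply]
    rfl
  · have h1 : ext H z = z := by
      unfold ext
      rw [dif_neg hz]
    have h2 : ext (G * H : CD ≃ₜ CD) z = z := by
      unfold ext
      rw [dif_neg hz]
    have h3 : ext G z = z := by
      unfold ext
      rw [dif_neg hz]
    rw [h1, h2, h3]

private theorem img_mulH (G H : CD ≃ₜ CD) (E : Set ℂ) :
    ext (G * H : CD ≃ₜ CD) '' E = ext G '' (ext H '' E) := by
  rw [image_image]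
  exact image_congr fun z _ => ext_mulH G H z

private theorem img_measH {k : ℝ} {ν : ℂ → ℂ} {H : CD ≃ₜ CD} (hq : IsQC k H ν) {E : Set ℂ}
    (hE : E ⊆ D) (hEm : MeasurableSet E) : MeasurableSet (ext H '' E) ∧ ext H '' E ⊆ D := by
  obtain ⟨a, b, hw, -⟩ := hq.wd
  refine ⟨((hq.area hw).2.2.1 E hE hEm).1, ?_⟩
  rw [← hq.image_D]
  exact image_mono hE

private theorem img_mobH {σ : CD ≃ₜ CD} {a b : ℂ} (hσ : ∀ z : CD, (σ z : ℂ) = mob a b z)
    {E : Set ℂ} (hE : E ⊆ D) : ext σ '' E = mob a b '' E := by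
  refine image_congr fun z hz => ?_
  have hzc : z ∈ closedBall (0 : ℂ) 1 := ball_subset_closedBall (hE hz)
  have h3 : ext σ z = (σ ⟨z, hzc⟩ : CD) := ext_apply σ ⟨z, hzc⟩
  rw [h3, hσ]

/-- the neighbourhoods -/
private def UU (z : ℂ) : Set ℂ := D ∩ mob 1 (-z) ⁻¹' ball 0 (1 / 4)

private theorem UU_open {z : ℂ} (hz : z ∈ D) : IsOpen (UU z) := by
  have hab : ‖-z‖ < ‖(1 : ℂ)‖ := by
    rw [norm_neg, norm_one]
    simpa using hz
  refine ContinuousOn.isOpen_inter_preimage ?_ isOpen_ball isOpen_ball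
  intro w hw
  have h1 : ‖w‖ ≤ 1 := by
    have : ‖w‖ < 1 := by simpa using hw
    exact this.le
  exact (hasDerivAt_mob hab (mob_denom_ne hab h1)).continuousAt.continuousWithinAt

private theorem mem_UU {z : ℂ} (hz : z ∈ D) : z ∈ UU z := by
  refine ⟨hz, ?_⟩
  rw [mem_preimage]
  have : mob 1 (-z) z = 0 := by
    unfold mob
    simp
  rw [this]
  exact mem_ball_self (by norm_num)

/-- the local estimate -/
private theorem local_est {ε₀ r' : ℝ} {C : ℝ≥0∞} (hr0 : 0 ≤ r') (hr1 : r' < 1)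
    (hloc : ∀ (F : CD ≃ₜ CD) (ν : ℂ → ℂ), IsQC ε₀ F ν → Harm ν → ext F 0 = 0 →
      ext F '' ball 0 (1 / 4) ⊆ closedBall 0 r' ∧
      ∀ E ⊆ ball (0 : ℂ) (1 / 4), MeasurableSet E →
        volume (ext F '' E) ≤ C * volume E ∧ volume E ≤ C * volume (ext F '' E))
    {F : CD ≃ₜ CD} {ν : ℂ → ℂ} (hF : IsQC ε₀ F ν) (hν : Harm ν) {z : ℂ} (hz : z ∈ D)
    {E : Set ℂ} (hE : E ⊆ UU z) (hEm : MeasurableSet E) :
    hyp (ext F '' E) ≤ (ENNReal.ofReal (4 / (1 - r' ^ 2) ^ 2) +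
      ENNReal.ofReal (4 / (1 - (1 / 4 : ℝ) ^ 2) ^ 2)) * C * hyp E ∧
    hyp E ≤ (ENNReal.ofReal (4 / (1 - r' ^ 2) ^ 2) +
      ENNReal.ofReal (4 / (1 - (1 / 4 : ℝ) ^ 2) ^ 2)) * C * hyp (ext F '' E) := by
  have hab : ‖z‖ < ‖(1 : ℂ)‖ := by
    rw [norm_one]
    simpa using hz
  have hab' : ‖-z‖ < ‖(1 : ℂ)‖ := by rwa [norm_neg]
  have hz1 : ‖z‖ < 1 := by simpa using hz
  have hzc : z ∈ closedBall (0 : ℂ) 1 := ball_subset_closedBall hz
  have hED : E ⊆ D := fun w hw => (hE hw).1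
  -- the set near the origin
  set E₀ : Set ℂ := mob 1 (-z) '' E with hE₀
  obtain ⟨hh1, hE₀m, hE₀D⟩ := hyp_mob hab' hEm hED
  have hE₀b : E₀ ⊆ ball 0 (1 / 4) := by
    rintro _ ⟨w, hw, rfl⟩
    exact (hE hw).2
  have hEE₀ : mob 1 z '' E₀ = E := by
    rw [hE₀, image_image]
    have : ∀ w ∈ E, mob 1 z (mob 1 (-z) w) = w := by
      intro w hw
      have hwD : ‖w‖ < 1 := by simpa using hED hw
      have h1 := (mob_inv hab' hwD.le).1
      rwa [map_one, neg_neg] at h1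
    rw [image_congr this, image_id']
  -- the maps
  obtain ⟨B, hB⟩ := exists_mobH hab
  set p : CD := F ⟨z, hzc⟩ with hp
  have hp1 : ‖(p : ℂ)‖ < 1 := (hF.pres _).2 hz1
  obtain ⟨M, hM, -, hM0⟩ := exists_mob_zero hp1
  have hσ := hM.inv
  set G : CD ≃ₜ CD := M⁻¹ * (F * B) with hG
  have hFB : IsQC ε₀ (F * B) (pull 1 z ν) := hF.comp_mob hab hB
  have hGq : IsQC ε₀ G (pull 1 z ν) := hFB.mob_comp hσ
  have hG0 : ext G 0 = 0 := by
    have h0 : (0 : ℂ) ∈ closedBall (0 : ℂ) 1 := by simp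
    have h1 : ext G 0 = (G ⟨0, h0⟩ : CD) := ext_apply G ⟨0, h0⟩
    rw [h1]
    have h2 : G ⟨0, h0⟩ = M⁻¹ (F (B ⟨0, h0⟩)) := rfl
    have h3 : B ⟨0, h0⟩ = ⟨z, hzc⟩ := by
      apply Subtype.ext
      rw [hB]
      unfold mob
      simp
    have h4 : M ⟨0, h0⟩ = p := Subtype.ext hM0
    rw [h2, h3, ← hp, ← h4]
    have h5 : M⁻¹ (M ⟨0, h0⟩) = ⟨0, h0⟩ := M.symm_apply_apply _
    rw [h5]
  obtain ⟨hsub, hvol⟩ := hloc G _ hGq (hν.pull hab) hG0
  obtain ⟨hv1, hv2⟩ := hvol E₀ hE₀b hE₀m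
  -- images
  have hE₀img : ext B '' E₀ = E := by rw [img_mobH hB hE₀D, hEE₀]
  have hFBimg : ext (F * B : CD ≃ₜ CD) '' E₀ = ext F '' E := by rw [img_mulH, hE₀img]
  obtain ⟨hFm, hFD⟩ := img_measH hF hED hEm
  have hGimg : hyp (ext G '' E₀) = hyp (ext F '' E) := by
    rw [hG, img_mulH, hFBimg]
    obtain ⟨a, b, hab2, hσm⟩ := hσ
    rw [img_mobH hσm hFD, (hyp_mob hab2 hFm hFD).1]
  obtain ⟨hGm, hGD⟩ := img_measH hGq hE₀D hE₀m
  have hGsub : ext G '' E₀ ⊆ closedBall 0 r' := (image_mono hE₀b).trans hsub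
  have hE₀sub : E₀ ⊆ closedBall 0 (1 / 4) := hE₀b.trans ball_subset_closedBall
  have hhE : hyp E = hyp E₀ := hh1.symm
  rw [hhE, ← hGimg]
  set c₁ := ENNReal.ofReal (4 / (1 - r' ^ 2) ^ 2) with hc₁
  set c₂ := ENNReal.ofReal (4 / (1 - (1 / 4 : ℝ) ^ 2) ^ 2) with hc₂
  have hvh : ∀ {A : Set ℂ}, MeasurableSet A → A ⊆ D → volume A ≤ hyp A := by
    intro A hA hAD
    calc volume A ≤ 4 * volume A := by
          calc volume A = 1 * volume A := (one_mul _).symm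
            _ ≤ 4 * volume A := by gcongr; norm_num
      _ ≤ hyp A := volume_le_hyp hA hAD
  constructor
  · calc hyp (ext G '' E₀) ≤ c₁ * volume (ext G '' E₀) := hyp_le_volume hr0 hr1 hGm hGsub
      _ ≤ c₁ * (C * volume E₀) := by gcongr
      _ ≤ c₁ * (C * hyp E₀) := mul_le_mul' le_rfl (mul_le_mul' le_rfl (hvh hE₀m hE₀D))
      _ = c₁ * C * hyp E₀ := by rw [mul_assoc]
      _ ≤ (c₁ + c₂) * C * hyp E₀ := by gcongr; exact le_self_add
  · calc hyp E₀ ≤ c₂ * volume E₀ := hyp_le_volume (by norm_num) (by norm_num) hE₀m hE₀sub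
      _ ≤ c₂ * (C * volume (ext G '' E₀)) := by gcongr
      _ ≤ c₂ * (C * hyp (ext G '' E₀)) := mul_le_mul' le_rfl (mul_le_mul' le_rfl (hvh hGm hGD))
      _ = c₂ * C * hyp (ext G '' E₀) := by rw [mul_assoc]
      _ ≤ (c₁ + c₂) * C * hyp (ext G '' E₀) := by gcongr; exact le_add_self

theorem nice_harm : ∃ ε₀ : ℝ, 0 < ε₀ ∧ ε₀ ≤ 1 / 8 ∧ ∃ C : ℝ≥0∞, C ≠ ⊤ ∧
    ∀ (F : CD ≃ₜ CD) (ν : ℂ → ℂ), IsQC ε₀ F ν → Harm ν → NiceJ C F := by
  obtain ⟨ε₀, hε0, hε1, C, hC, r', hr0, hr1, hloc⟩ := harm_local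
  set C' : ℝ≥0∞ := (ENNReal.ofReal (4 / (1 - r' ^ 2) ^ 2) +
      ENNReal.ofReal (4 / (1 - (1 / 4 : ℝ) ^ 2) ^ 2)) * C with hC'
  have hC't : C' ≠ ⊤ :=
    ENNReal.mul_ne_top (ENNReal.add_ne_top.2 ⟨ENNReal.ofReal_ne_top, ENNReal.ofReal_ne_top⟩) hC
  refine ⟨ε₀, hε0, hε1, C', hC't, fun F ν hF hν => ⟨hC't, fun E hE hEm => ?_⟩⟩
  -- a countable cover
  obtain ⟨t, htD, htc, htcov⟩ := TopologicalSpace.countable_cover_nhdsWithin
    (f := UU) (s := D) (fun z hz => mem_nhdsWithin_of_mem_nhds ((UU_open hz).mem_nhds (mem_UU hz)))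
  have htne : t.Nonempty := by
    obtain ⟨x, hx⟩ := mem_iUnion.1 (htcov (mem_ball_self one_pos : (0 : ℂ) ∈ D))
    obtain ⟨hx1, -⟩ := mem_iUnion.1 hx
    exact ⟨x, hx1⟩
  obtain ⟨f, hf⟩ := htc.exists_eq_range htne
  have hfD : ∀ n, f n ∈ D := fun n => htD (by rw [hf]; exact mem_range_self n)
  set U : ℕ → Set ℂ := fun n => UU (f n) with hU
  have hUm : ∀ n, MeasurableSet (U n) := fun n => (UU_open (hfD n)).measurableSet
  have hcov : D ⊆ ⋃ n, U n := by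
    intro z hz
    obtain ⟨x, hx⟩ := mem_iUnion.1 (htcov hz)
    obtain ⟨hx1, hx2⟩ := mem_iUnion.1 hx
    rw [hf] at hx1
    obtain ⟨n, hn⟩ := hx1
    rw [mem_iUnion]
    exact ⟨n, by rw [hU]; simp only; rw [hn]; exact hx2⟩
  set P : ℕ → Set ℂ := fun n => E ∩ disjointed U n with hP
  have hPm : ∀ n, MeasurableSet (P n) := fun n => hEm.inter (MeasurableSet.disjointed hUm n)
  have hPU : ∀ n, P n ⊆ UU (f n) := fun n => inter_subset_right.trans (disjointed_subset U n)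
  have hPE : ⋃ n, P n = E := by
    rw [← inter_iUnion, iUnion_disjointed]
    exact inter_eq_left.2 (hE.trans hcov)
  have hPd : Pairwise (Function.onFun Disjoint P) := by
    intro m n hmn
    exact (disjoint_disjointed U hmn).mono inter_subset_right inter_subset_right
  have hest : ∀ n, hyp (ext F '' P n) ≤ C' * hyp (P n) ∧ hyp (P n) ≤ C' * hyp (ext F '' P n) :=
    fun n => local_est hr0 hr1 hloc hF hν (hfD n) (hPU n) (hPm n)
  have hPD : ∀ n, P n ⊆ D := fun n => inter_subset_left.trans hE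
  have hinj : InjOn (ext F) D := (injOn_ext F).mono ball_subset_closedBall
  have hID : Pairwise (Function.onFun Disjoint fun n => ext F '' P n) := by
    intro m n hmn
    have h1 := hPd hmn
    simp only [Function.onFun] at h1 ⊢
    rw [Set.disjoint_left] at h1 ⊢
    rintro _ ⟨x, hx, rfl⟩ ⟨y, hy, hyx⟩
    have := hinj (hPD n hy) (hPD m hx) hyx
    rw [this] at hy
    exact h1 hx hy
  have hIm : ∀ n, MeasurableSet (ext F '' P n) := fun n => (img_measH hF (hPD n) (hPm n)).1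
  have e1 : hyp E = ∑' n, hyp (P n) := by
    rw [← measure_iUnion hPd hPm, hPE]
  have e2 : hyp (ext F '' E) = ∑' n, hyp (ext F '' P n) := by
    rw [← measure_iUnion hID hIm, ← image_iUnion, hPE]
  rw [e1, e2, ← ENNReal.tsum_mul_left, ← ENNReal.tsum_mul_left]
  exact ⟨ENNReal.tsum_le_tsum fun n => (hest n).1, ENNReal.tsum_le_tsum fun n => (hest n).2⟩

end QC
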