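import Pool.Agent.Work.MP_217185_an.CoefC

/-! # NiceDef: nice maps -/

open MeasureTheory Complex Set Metric Filter
open scoped Topology ENNReal NNReal ContDiff ComplexConjugate

namespace QC

/-- `H : S → S'` quasiconformal with square integrable coefficient and hyperbolic area distorted by a
bounded factor. -/
structure Nice (S : Bord) (H : CD ≃ₜ CD) (S' : Bord) : Prop where
  tgt : Tgt S H S'
  nice : ∃ C, NiceJ C H
  l2 : ∃ k μ, IsQC k H μ ∧ L2hyp S μ

variable {S S' S'' : Bord} {H G : CD ≃ₜ CD}

/-- `WP` representative: square integrable coefficient. -/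
structure IsWP (S : Bord) (H : CD ≃ₜ CD) (S' : Bord) : Prop where
  tgt : Tgt S H S'
  l2 : ∃ k μ, IsQC k H μ ∧ L2hyp S μ

end QC
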