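import Pool.Agent.Work.MP_217185_an.CoefC
import Pool.Agent.Work.MP_217185_an.NiceDef

/-! # NiceA: nice maps -/

open MeasureTheory Complex Set Metric Filter
open scoped Topology ENNReal NNReal ContDiff ComplexConjugate

namespace QC

variable {S S' S'' : Bord} {H G : CD ≃ₜ CD}

private theorem ext_one' (z : ℂ) : ext (1 : CD ≃ₜ CD) z = z := by
  unfold ext
  split_ifs <;> rfl

private theorem ext_mul' (G H : CD ≃ₜ CD) (z : ℂ) :
    ext (G * H : CD ≃ₜ CD) z = ext G (ext H z) := by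
  by_cases hz : z ∈ closedBall (0 : ℂ) 1
  · have h1 : ext H z = (H ⟨z, hz⟩ : CD) := ext_apply H ⟨z, hz⟩
    have h2 : ext (G * H : CD ≃ₜ CD) z = ((G * H : CD ≃ₜ CD) ⟨z, hz⟩ : CD) :=
      ext_apply (G * H : CD ≃ₜ CD) ⟨z, hz⟩
    rw [h1, h2, ext_apply]
    rfl
  · have h1 : ext H z = z := by
      unfold ext
      rw [dif_neg hz]
    have h2 : ext (G * H : CD ≃ₜ CD) z = z := by
      unfold ext
      rw [dif_neg hz]
    have h3 : ext G z = z := by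
      unfold ext
      rw [dif_neg hz]
    rw [h1, h2, h3]

private theorem img_mul' (G H : CD ≃ₜ CD) (E : Set ℂ) :
    ext (G * H : CD ≃ₜ CD) '' E = ext G '' (ext H '' E) := by
  rw [image_image]
  exact image_congr fun z _ => ext_mul' G H z

private theorem img_meas' {k : ℝ} {ν : ℂ → ℂ} (hq : IsQC k H ν) {E : Set ℂ} (hE : E ⊆ D)
    (hEm : MeasurableSet E) : MeasurableSet (ext H '' E) ∧ ext H '' E ⊆ D := by
  obtain ⟨a, b, hw, -⟩ := hq.wd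
  refine ⟨((hq.area hw).2.2.1 E hE hEm).1, ?_⟩
  rw [← hq.image_D]
  exact image_mono hE

private theorem hyp_ac' : hyp ≪ volume.restrict D := withDensity_absolutelyContinuous _ _

theorem nice_one (S : Bord) : Nice S 1 S := by
  refine ⟨tgt_one S, ⟨1, ENNReal.one_ne_top, fun E _ _ => ?_⟩, ?_⟩
  · have h1 : ext (1 : CD ≃ₜ CD) '' E = E := by
      rw [image_congr fun z _ => ext_one' z, image_id']
    rw [h1, one_mul]
    exact ⟨le_refl _, le_refl _⟩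
  · refine ⟨0, 0, isMob_one.isQC, fund S, isFund_fund S, ?_⟩
    simp

/-- coefficient of `G ∘ H⁻¹` -/
private theorem comp_inv_l2 (hGT : Tgt S G S'') (hGl : ∃ k μ, IsQC k G μ ∧ L2hyp S μ)
    (hH : Nice S H S') : ∃ k μ, IsQC k (G * H⁻¹) μ ∧ L2hyp S' μ := by
  obtain ⟨k, μ, hqG, hLG⟩ := hGl
  obtain ⟨k', ν, hqH, hLH⟩ := hH.l2
  obtain ⟨C, hC⟩ := hH.nice
  obtain ⟨s, t, hs, -, hst⟩ := exists_meas_deriv hqH
  have hfin : ∀ {k : ℝ} {F : CD ≃ₜ CD} {κ : ℂ → ℂ}, IsQC k F κ →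
      (∀ γ ∈ S.Γ, IsMob (F * γ * F⁻¹)) → L2hyp S κ →
      ∫⁻ z in fund S, ‖κ z‖ₑ ^ 2 ∂hyp < ⊤ := by
    intro k F κ hq he hl
    exact (L2hyp_iff hq.bel.meas (hq.aeInv he) (isFund_fund S)).1 hl
  refine ⟨_, coefC H s ν μ, coefC_isQC hqG hqH hs hst, ext H '' (fund S),
    hH.tgt.isFund (isFund_fund S), ?_⟩
  refine lt_of_le_of_lt (coefC_L2 hC hH.tgt hqH hs hqG.bel (isFund_fund S)) ?_
  refine ENNReal.mul_lt_top (ENNReal.mul_lt_top ENNReal.ofReal_lt_top (lt_top_iff_ne_top.2 hC.1))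
    (ENNReal.add_lt_top.2 ⟨hfin hqG hGT.isQCS.eqv hLG, hfin hqH hH.tgt.isQCS.eqv hLH⟩)

theorem Nice.inv (hH : Nice S H S') : Nice S' H⁻¹ S := by
  obtain ⟨C, hC⟩ := hH.nice
  obtain ⟨k, ν, hq, P, hP, hfin⟩ := hH.l2
  obtain ⟨κ, hκ, hκn⟩ := hq.inv
  refine ⟨hH.tgt.inv, ⟨C, hC.1, fun E hE hEm => ?_⟩, ?_⟩
  · obtain ⟨hm, hsub⟩ := img_meas' hκ hE hEm
    have h1 := hC.2 _ hsub hm
    have h2 : ext H '' (ext (H⁻¹ : CD ≃ₜ CD) '' E) = E := by
      rw [← img_mul', mul_inv_cancel, image_congr fun z _ => ext_one' z, image_id']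
    rw [h2] at h1
    exact ⟨h1.2, h1.1⟩
  · refine ⟨k, κ, hκ, ext H '' P, hH.tgt.isFund hP, ?_⟩
    have hu : Measurable fun z => ‖κ z‖ₑ ^ 2 := hκ.bel.meas.enorm.pow_const 2
    refine lt_of_le_of_lt (hC.lintegral_le hH.tgt hP.sub hP.meas hu).2 ?_
    refine ENNReal.mul_lt_top (lt_top_iff_ne_top.2 hC.1) ?_
    have h1 : ∫⁻ z in P, ‖κ (ext H z)‖ₑ ^ 2 ∂hyp = ∫⁻ z in P, ‖ν z‖ₑ ^ 2 ∂hyp := by
      refine lintegral_congr_ae (ae_restrict_of_ae ?_)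
      filter_upwards [hyp_ac'.ae_le hκn] with z hz
      rw [← ofReal_norm, ← ofReal_norm, hz]
    rw [h1]
    exact hfin

theorem Nice.comp (hG : Nice S' G S'') (hH : Nice S H S') : Nice S (G * H) S'' := by
  obtain ⟨C, hC⟩ := hG.nice
  obtain ⟨C', hC'⟩ := hH.nice
  refine ⟨hG.tgt.comp hH.tgt, ⟨C * C', ENNReal.mul_ne_top hC.1 hC'.1, fun E hE hEm => ?_⟩, ?_⟩
  · obtain ⟨k, ν, hq, -⟩ := hH.l2
    obtain ⟨hm, hsub⟩ := img_meas' hq hE hEm
    have h1 := hC'.2 _ hE hEm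
    have h2 := hC.2 _ hsub hm
    rw [img_mul']
    constructor
    · calc hyp (ext G '' (ext H '' E)) ≤ C * hyp (ext H '' E) := h2.1
        _ ≤ C * (C' * hyp E) := by gcongr; exact h1.1
        _ = C * C' * hyp E := by rw [mul_assoc]
    · calc hyp E ≤ C' * hyp (ext H '' E) := h1.2
        _ ≤ C' * (C * hyp (ext G '' (ext H '' E))) := by gcongr; exact h2.2
        _ = C * C' * hyp (ext G '' (ext H '' E)) := by rw [← mul_assoc, mul_comm C']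
  · have h1 := comp_inv_l2 hG.tgt hG.l2 hH.inv
    rwa [inv_inv] at h1

/-- Moebius map of the target. -/
theorem Nice.mob {σ : CD ≃ₜ CD} (hσ : IsMob σ) (hT : Tgt S' σ S'') (hH : Nice S H S') :
    Nice S (σ * H) S'' := by
  obtain ⟨C, hC⟩ := hH.nice
  obtain ⟨k, ν, hq, hL⟩ := hH.l2
  refine ⟨hT.comp hH.tgt, ⟨C, hC.1, fun E hE hEm => ?_⟩, k, ν, hq.mob_comp hσ, hL⟩
  obtain ⟨hm, hsub⟩ := img_meas' hq hE hEm
  have h1 := hC.2 _ hE hEm
  obtain ⟨a, b, hab, hσm⟩ := hσ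
  have h2 : ext σ '' (ext H '' E) = QC.mob a b '' (ext H '' E) := by
    refine image_congr fun z hz => ?_
    have hzc : z ∈ closedBall (0 : ℂ) 1 := ball_subset_closedBall (hsub hz)
    have h3 : ext σ z = (σ ⟨z, hzc⟩ : CD) := ext_apply σ ⟨z, hzc⟩
    rw [h3, hσm]
  rw [img_mul', h2, (hyp_mob hab hm hsub).1]
  exact h1

end QC
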