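import Pool.Agent.Work.MP_217185_an.CoefC
import Pool.Agent.Work.MP_217185_an.NiceDef
import Pool.Agent.Work.MP_217185_an.NiceA

/-! # NiceB: nice maps -/

open MeasureTheory Complex Set Metric Filter
open scoped Topology ENNReal NNReal ContDiff ComplexConjugate

namespace QC

variable {S S' S'' : Bord} {H G : CD ≃ₜ CD}

/-- `WP` maps can be composed with nice maps. -/
theorem IsWP.comp_inv (hG : IsWP S G S'') (hH : Nice S H S') : IsWP S' (G * H⁻¹) S'' := by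
  obtain ⟨k, μ, hqG, hLG⟩ := hG.l2
  obtain ⟨k', ν, hqH, hLH⟩ := hH.l2
  obtain ⟨C, hC⟩ := hH.nice
  obtain ⟨s, t, hs, -, hst⟩ := exists_meas_deriv hqH
  have hfin : ∀ {k : ℝ} {F : CD ≃ₜ CD} {κ : ℂ → ℂ}, IsQC k F κ →
      (∀ γ ∈ S.Γ, IsMob (F * γ * F⁻¹)) → L2hyp S κ →
      ∫⁻ z in fund S, ‖κ z‖ₑ ^ 2 ∂hyp < ⊤ := by
    intro k F κ hq he hl
    exact (L2hyp_iff hq.bel.meas (hq.aeInv he) (isFund_fund S)).1 hl
  refine ⟨hG.tgt.comp hH.tgt.inv, _, coefC H s ν μ, coefC_isQC hqG hqH hs hst, ext H '' (fund S),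
    hH.tgt.isFund (isFund_fund S), ?_⟩
  refine lt_of_le_of_lt (coefC_L2 hC hH.tgt hqH hs hqG.bel (isFund_fund S)) ?_
  refine ENNReal.mul_lt_top (ENNReal.mul_lt_top ENNReal.ofReal_lt_top (lt_top_iff_ne_top.2 hC.1))
    (ENNReal.add_lt_top.2 ⟨hfin hqG hG.tgt.isQCS.eqv hLG, hfin hqH hH.tgt.isQCS.eqv hLH⟩)

theorem IsWP.comp (hG : IsWP S' G S'') (hH : Nice S H S') : IsWP S (G * H) S'' := by
  have h1 := hG.comp_inv hH.inv
  rwa [inv_inv] at h1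

end QC
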