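import Pool.Agent.Work.MP_217185_an.NHarmH
import Pool.Agent.Work.MP_217185_an.NiceD

/-! # NHarmI: the constant `eps0`

`nice_of_small` is immediate from `nice_harm` and the definition of `Nice`. -/

open MeasureTheory Complex Set Metric Filter
open scoped Topology ENNReal NNReal ContDiff ComplexConjugate

namespace QC

/-- the constant. -/
noncomputable def eps0 : ℝ := nice_harm.choose

theorem eps0_pos : 0 < eps0 := nice_harm.choose_spec.1

theorem eps0_le : eps0 ≤ 1 / 8 := nice_harm.choose_spec.2.1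

theorem nice_of_small {S S' : Bord} {F : CD ≃ₜ CD} {ν : ℂ → ℂ} (h : IsQC eps0 F ν) (hν : Harm ν)
    (hl : L2hyp S ν) (hT : Tgt S F S') : Nice S F S' :=
  ⟨hT, by
    obtain ⟨C, hC, h'⟩ := nice_harm.choose_spec.2.2
    exact ⟨C, h' F ν h hν⟩, eps0, ν, h, hl⟩

end QC
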