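import Pool.Agent.Work.MP_217185_an.NHarm2
import Pool.Agent.Work.MP_217185_an.ContrB
import Pool.Agent.Work.MP_217185_an.InjB

/-! # PropN: every WP class has a nice representative

Let `IsQC k F μ`, `L2hyp S μ`, `0 ≤ k < 1`.  For `t ∈ [0,1]` let `F_t` have coefficient `t μ`
(`exists_tgt_of_coeff`).  Let `ε` be the constant of `solve_small` for `ε₀ = eps0`.
Claim: there is `η > 0` depending only on `k` such that if `F_t` agrees on the circle up to a Moebius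
map with a nice `G : S → S₁`, then the same holds for `F_{t'}` for all `t' ∈ [0,1]`, `|t'-t| ≤ η`.
Proof: `κ' = ` coefficient of `F_{t'} ∘ F_t⁻¹`: sup norm `≤ |t' - t| k/(1-k²) ≤ ε (1-(1/2)²)^{1/2}`
(`coefC_small`); `κ = ` coefficient of `F_{t'} ∘ G⁻¹`: square integrable on `S₁` (`coefC_L2`).
`F_{t'} ∘ F_t⁻¹` and `F_{t'} ∘ G⁻¹` agree on the circle up to Moebius maps on the left and on the
right: replace `G` by `σ G` (`Nice.mob`) so that `G = F_t` on the circle.  Then `bers κ = bers κ'`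
on `D` (`bers_inj`), so `φ = bersE S₁ κ` has sup norm `≤ ε` (`norm_bers_le`).  `solve_small`:
`x ∈ HSp S₁`, `‖x‖ ≤ eps0` pointwise, `bersE S₁ x.fn = φ`.  `F_x : S₁ → S₂` with coefficient `x.fn` is
nice (`nice_of_small`), and by `bers_inj` `F_{t'} ∘ G⁻¹ = σ F_x` on the circle, so
`F_{t'} = σ F_x G` on the circle and `F_x G` is nice (`Nice.comp`).
Start with `t = 0`, `F_0` Moebius. -/

open MeasureTheory Complex Set Metric Filter
open scoped Topology ENNReal NNReal ContDiff ComplexConjugate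

namespace QC

theorem bersE_eq_iffN {S : Bord} {k k' : ℝ} {F F' : CD ≃ₜ CD} {μ μ' : ℂ → ℂ} (hF : IsQC k F μ)
    (hF' : IsQC k' F' μ') (hi : AEInv S μ) (hi' : AEInv S μ') (hl : L2hyp S μ)
    (hl' : L2hyp S μ') : bersE S μ = bersE S μ' ↔
      ∃ σ, IsMob σ ∧ ∀ x : CD, ‖(x : ℂ)‖ = 1 → F' x = σ (F x) := by
  rw [← bers_inj hF hF']
  have e1 := bersE_fn hF.bel hF.supp hi hl
  have e2 := bersE_fn hF'.bel hF'.supp hi' hl'
  constructor
  · intro h1 z hz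
    have h2 : bersD μ z = bersD μ' z := by rw [← e1, ← e2, h1]
    have hz' : ‖z‖ < 1 := mem_ball_zero_iff.1 hz
    unfold bersD at h2
    rwa [if_pos hz', if_pos hz'] at h2
  · intro h1
    apply HSp.ext
    rw [e1, e2]
    funext z
    unfold bersD
    split_ifs with hz
    · exact h1 z (mem_ball_zero_iff.2 hz)
    · rfl

theorem aeInv_mulN {S : Bord} {μ : ℂ → ℂ} (hi : AEInv S μ) (s : ℂ) :
    AEInv S (fun z => s * μ z) := by
  intro γ hγ a b hab he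
  filter_upwards [hi γ hγ a b hab he] with z hz
  have h1 : pull a b (fun z => s * μ z) z = s * pull a b μ z := by
    unfold pull
    split_ifs
    · ring
    · ring
  rw [h1, hz]

theorem l2_mulN {S : Bord} {μ : ℂ → ℂ} (hl : L2hyp S μ) (s : ℂ) :
    L2hyp S (fun z => s * μ z) := by
  obtain ⟨P, hP, h⟩ := hl
  refine ⟨P, hP, ?_⟩
  have h1 : ∫⁻ z in P, ‖s * μ z‖ₑ ^ 2 ∂hyp = ‖s‖ₑ ^ 2 * ∫⁻ z in P, ‖μ z‖ₑ ^ 2 ∂hyp := by
    rw [← lintegral_const_mul' _ _ (by simp)]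
    refine lintegral_congr fun z => ?_
    rw [enorm_mul, mul_pow]
  rw [h1]
  exact ENNReal.mul_lt_top (by simp) h

theorem norm_circleN {k : ℝ} {F : CD ≃ₜ CD} {μ : ℂ → ℂ} (hF : IsQC k F μ) (u : CD)
    (hu : ‖(u : ℂ)‖ = 1) : ‖((F.symm u : CD) : ℂ)‖ = 1 := by
  have h3 : ‖((F.symm u : CD) : ℂ)‖ ≤ 1 := mem_closedBall_zero_iff.1 (F.symm u).2
  have h4 : ¬ ‖((F.symm u : CD) : ℂ)‖ < 1 := by
    rw [← hF.pres (F.symm u), F.apply_symm_apply, hu]; exact lt_irrefl _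
  exact le_antisymm h3 (not_lt.1 h4)

theorem norm_circleN' {k : ℝ} {F : CD ≃ₜ CD} {μ : ℂ → ℂ} (hF : IsQC k F μ) (u : CD)
    (hu : ‖(u : ℂ)‖ = 1) : ‖((F u : CD) : ℂ)‖ = 1 := by
  have h3 : ‖((F u : CD) : ℂ)‖ ≤ 1 := mem_closedBall_zero_iff.1 (F u).2
  have h4 : ¬ ‖((F u : CD) : ℂ)‖ < 1 := by
    rw [hF.pres u, hu]; exact lt_irrefl _
  exact le_antisymm h3 (not_lt.1 h4)

/-- one step of the continuity method. -/
theorem nice_step {k : ℝ} (hk0 : 0 ≤ k) (hk1 : k < 1) : ∃ η : ℝ, 0 < η ∧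
    ∀ (S T T' : Bord) (μ : ℂ → ℂ) (F F' : CD ≃ₜ CD) (t t' : ℝ), 0 ≤ t → t ≤ 1 → 0 ≤ t' →
      t' ≤ 1 → |t' - t| ≤ η → Bel k μ → L2hyp S μ → IsQC k F (fun z => (t : ℂ) * μ z) →
      IsQC k F' (fun z => (t' : ℂ) * μ z) → Tgt S F T → Tgt S F' T' →
      (∃ G S₁, Nice S G S₁ ∧ ∃ σ, IsMob σ ∧ ∀ x : CD, ‖(x : ℂ)‖ = 1 → G x = σ (F x)) →
      ∃ G S₁, Nice S G S₁ ∧ ∃ σ, IsMob σ ∧ ∀ x : CD, ‖(x : ℂ)‖ = 1 → G x = σ (F' x) := by
  obtain ⟨ε, hε, hsolve⟩ := solve_small eps0_pos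
  have hkk : k * k < 1 := by nlinarith
  set K : ℝ := (k + k) / (1 + k * k) with hK
  have hK0 : 0 ≤ K := by positivity
  have hK1 : K < 1 := by
    rw [hK, div_lt_one (by positivity)]
    nlinarith [mul_pos (sub_pos.2 hk1) (sub_pos.2 hk1)]
  have hKs : 0 < Real.sqrt (1 - K ^ 2) := Real.sqrt_pos.2 (by nlinarith)
  refine ⟨ε * Real.sqrt (1 - K ^ 2) * (1 - k * k), by
    have : 0 < 1 - k * k := by linarith
    positivity, ?_⟩
  intro S T T' μ F F' t t' ht0 ht1 ht0' ht1' htt hμ hl hF hF' hT hT' ⟨G, S₁, hG, σ, hσ, hGe⟩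
  have hF2 : IsQC k (σ * F) (fun z => (t : ℂ) * μ z) := hF.mob_comp hσ
  have hGe' : ∀ x : CD, ‖(x : ℂ)‖ = 1 → G x = (σ * F) x := hGe
  -- coefficient of `F' ∘ G⁻¹`
  have hwF : IsWP S F' T' := ⟨hT', k, _, hF', l2_mulN hl _⟩
  have hw : IsWP S₁ (F' * G⁻¹) T' := hwF.comp_inv hG
  obtain ⟨k₂, κ, hκ, hκl⟩ := hw.l2
  have hκi : AEInv S₁ κ := hκ.aeInv hw.tgt.isQCS.eqv
  -- coefficient of `F' ∘ (σ F)⁻¹`
  obtain ⟨s, r, hs, hr, hsr⟩ := exists_meas_deriv hF2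
  have hκ' := coefC_isQC hF' hF2 hs hsr
  have hsm : ∀ z, ‖coefC (σ * F) s (fun z => (t : ℂ) * μ z) (fun z => (t' : ℂ) * μ z) z‖
      ≤ (ε * Real.sqrt (1 - K ^ 2) * (1 - k * k)) / (1 - k * k) := by
    intro z
    refine coefC_small hF2 hF'.bel (fun z => ?_) z
    have h1 : (t' : ℂ) * μ z - (t : ℂ) * μ z = ((t' - t : ℝ) : ℂ) * μ z := by
      push_cast; ring
    rw [h1, norm_mul, Complex.norm_real, Real.norm_eq_abs]
    calc |t' - t| * ‖μ z‖ ≤ |t' - t| * 1 := by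
          gcongr
          exact (hμ.le z).trans hk1.le
      _ ≤ _ := by rw [mul_one]; exact htt
  have hsm' : ∀ z, ‖coefC (σ * F) s (fun z => (t : ℂ) * μ z) (fun z => (t' : ℂ) * μ z) z‖
      ≤ ε * Real.sqrt (1 - K ^ 2) := by
    intro z
    have h1 := hsm z
    rwa [mul_div_assoc, div_self (by linarith), mul_one] at h1
  obtain ⟨kG, μG, hGq, _⟩ := hG.l2
  have hbers := (bers_inj hκ hκ').2 ⟨1, isMob_one, fun x hx => by
    change F' ((σ * F).symm x) = F' (G.symm x)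
    congr 1
    have h1 := hGe' (G.symm x) (norm_circleN hGq x hx)
    rw [G.apply_symm_apply] at h1
    conv_lhs => rw [h1]
    exact (σ * F).symm_apply_apply _⟩
  have hφ : ∀ z, ‖(bersE S₁ κ).fn z‖ ≤ ε := by
    intro z
    rw [bersE_fn hκ.bel hκ.supp hκi hκl]
    unfold bersD
    split_ifs with hz
    · rw [hbers z (mem_ball_zero_iff.2 hz)]
      refine (norm_bers_le hκ'.bel hκ'.supp z hz hsm').trans ?_
      rw [← hK, mul_div_assoc, div_self hKs.ne', mul_one]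
    · rw [norm_zero]; exact hε.le
  obtain ⟨x, hx, hxφ⟩ := hsolve S₁ (bersE S₁ κ) hφ
  have hxb : Bel eps0 x.fn := ⟨x.harm.measurable, hx, by linarith [eps0_le]⟩
  obtain ⟨Fx, S₂, h1, h2⟩ := exists_tgt_of_coeff hxb x.harm.suppIn x.inv.aeInv
  have h3 : Nice S₁ Fx S₂ := nice_of_small h1 x.harm x.l2 h2
  obtain ⟨σ', hσ', he⟩ := (bersE_eq_iffN (S := S₁) hκ h1 hκi x.inv.aeInv hκl x.l2).1 hxφ.symm
  refine ⟨Fx * G, S₂, h3.comp hG, σ', hσ', fun u hu => ?_⟩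
  change Fx (G u) = σ' (F' u)
  rw [he (G u) (norm_circleN' hGq u hu)]
  change σ' (F' (G.symm (G u))) = _
  rw [G.symm_apply_apply]

theorem exists_nice {S S' : Bord} {F : CD ≃ₜ CD} (h : IsWP S F S') :
    ∃ G, Nice S G S' ∧ ∀ x : CD, ‖(x : ℂ)‖ = 1 → G x = F x := by
  obtain ⟨k, μ, hq, hl⟩ := h.l2
  have hk0 : 0 ≤ k := (norm_nonneg _).trans (hq.bel.le 0)
  have hk1 : k < 1 := hq.bel.lt
  have hi : AEInv S μ := hq.aeInv h.tgt.isQCS.eqv
  obtain ⟨η, hη, hstep⟩ := nice_step hk0 hk1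
  have hex : ∀ t : ℝ, ∃ (n : CD ≃ₜ CD) (T : Bord), 0 ≤ t → t ≤ 1 →
      IsQC k n (fun z => (t : ℂ) * μ z) ∧ Tgt S n T := by
    intro t
    by_cases ht : 0 ≤ t ∧ t ≤ 1
    · have hb : Bel k (fun z => (t : ℂ) * μ z) := by
        refine ⟨hq.bel.meas.const_mul _, fun z => ?_, hk1⟩
        rw [norm_mul, Complex.norm_real, Real.norm_of_nonneg ht.1]
        calc t * ‖μ z‖ ≤ 1 * ‖μ z‖ := by gcongr; exact ht.2
          _ ≤ k := by rw [one_mul]; exact hq.bel.le z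
      obtain ⟨n, T, h1, h2⟩ := exists_tgt_of_coeff hb (fun z hz => by
        simp only [hq.supp z hz, mul_zero]) (aeInv_mulN hi (t : ℂ))
      exact ⟨n, T, fun _ _ => ⟨h1, h2⟩⟩
    · exact ⟨1, S, fun h1 h2 => (ht ⟨h1, h2⟩).elim⟩
  choose n T hn using hex
  have hall : ∀ j : ℕ, ∀ t : ℝ, 0 ≤ t → t ≤ 1 → t ≤ j * η →
      ∃ G S₁, Nice S G S₁ ∧ ∃ σ, IsMob σ ∧ ∀ x : CD, ‖(x : ℂ)‖ = 1 → G x = σ (n t x) := by
    intro j
    induction j with
    | zero =>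
      intro t ht0 ht1 ht
      have ht' : t = 0 := le_antisymm (by simpa using ht) ht0
      subst ht'
      have h0 := (hn 0 le_rfl zero_le_one).1
      have h1 : IsQC k (n 0) 0 := by
        have : (fun z => ((0 : ℝ) : ℂ) * μ z) = 0 := by funext z; simp
        rwa [this] at h0
      refine ⟨1, S, nice_one S, (1 : CD ≃ₜ CD) * (n 0)⁻¹, h1.uniq isMob_one.isQC,
        fun x _ => ?_⟩
      change x = (n 0).symm (n 0 x)
      rw [(n 0).symm_apply_apply]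
    | succ j ih =>
      intro t ht0 ht1 ht
      have a1 : 0 ≤ max 0 (t - η) := le_max_left _ _
      have a2 : max 0 (t - η) ≤ 1 := max_le zero_le_one (by linarith)
      have a3 : max 0 (t - η) ≤ j * η := by
        refine max_le (by positivity) ?_
        push_cast at ht
        linarith
      have a4 : |t - max 0 (t - η)| ≤ η := by
        rw [abs_le]
        constructor
        · have : max 0 (t - η) ≤ t + η := max_le (by linarith) (by linarith)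
          linarith
        · have : t - η ≤ max 0 (t - η) := le_max_right _ _
          linarith
      exact hstep S _ _ μ _ _ _ t a1 a2 ht0 ht1 a4 hq.bel hl (hn _ a1 a2).1 (hn t ht0 ht1).1
        (hn _ a1 a2).2 (hn t ht0 ht1).2 (ih _ a1 a2 a3)
  obtain ⟨j, hj⟩ := exists_nat_ge (1 / η)
  obtain ⟨G, S₁, hG, σ, hσ, he⟩ := hall j 1 zero_le_one le_rfl (by
    rw [div_le_iff₀ hη] at hj; exact hj)
  have h1 : IsQC k (n 1) μ := by
    have h0 := (hn 1 zero_le_one le_rfl).1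
    have : (fun z => ((1 : ℝ) : ℂ) * μ z) = μ := by funext z; simp
    rwa [this] at h0
  have hτ : IsMob (F * (n 1)⁻¹) := h1.uniq hq
  have hρ : IsMob (F * (n 1)⁻¹ * σ⁻¹) := hτ.mul hσ.inv
  have he' : ∀ x : CD, ‖(x : ℂ)‖ = 1 → F x = (F * (n 1)⁻¹ * σ⁻¹) (G x) := by
    intro x hx
    change F x = F ((n 1).symm (σ.symm (G x)))
    rw [he x hx, σ.symm_apply_apply, (n 1).symm_apply_apply]
  have hT : Tgt S₁ (F * (n 1)⁻¹ * σ⁻¹) S' := by
    obtain ⟨T', hT'⟩ := tgt_mob hρ S₁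
    have h2 : Tgt S ((F * (n 1)⁻¹ * σ⁻¹) * G) T' := hT'.comp hG.tgt
    have h3 : Tgt S F T' := h2.congr h.tgt.isQCS he'
    rw [h.tgt.unique h3]
    exact hT'
  exact ⟨(F * (n 1)⁻¹ * σ⁻¹) * G, hG.mob hρ hT, fun x hx => (he' x hx).symm⟩

end QC
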