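import Pool.Agent.Work.MP_217185_an.TransK
import Pool.Agent.Work.MP_217185_an.Crit
import Pool.Agent.Work.MP_217185_an.PropN

/-! # PhiDef: the parametrisations `x ↦ [S, f_x ∘ h, S_x]`, leaves

* `phi_spec`: existence from `exists_small`; independence of the choice: `IsQC.uniq`.
* `phi_inj`: `[F_x h] = [F_y h]` gives `F_y = σ F_x` on the circle (`mk_eq_iff`), `bers x = bers y`
  (`bers_inj`), `x = y` (`loc_inv`, injectivity of `e` on its source).
* leaves: `Leaf hh` = classes `[G ∘ h]`, `G : S₂ → S₃` WP.  By `exists_nice` `G` may be taken nice.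
  Two leaves that meet are equal: `G h = σ G' h'` on the circle with nice `G, G'`, so
  `h' = (G'⁻¹ σ⁻¹ G) h` on the circle.  `phi` maps the chart ball into the leaf. -/

open MeasureTheory Complex Set Metric Filter
open scoped Topology ENNReal NNReal ContDiff ComplexConjugate

noncomputable section

namespace QC

variable {S S₂ S₂' : Bord} {h h' : CD ≃ₜ CD}

open Classical in
/-- `x ↦ [S, f_x ∘ h, S_x]`, `f_x : S₂ → S_x` quasiconformal with the harmonic coefficient `x`. -/
def phi (hh : Tgt S h S₂) (x : HSp S₂) : Teich S :=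
  if hx : ∃ m : Marked S₂, ∃ k, IsQC k m.F x.fn then Teich.mk (hx.choose.comp hh)
  else Teich.base S

/-- the leaf of `h`. -/
def Leaf (hh : Tgt S h S₂) : Set (Teich S) :=
  {p | ∃ m : Marked S₂, IsWP S₂ m.F m.T ∧ Teich.mk (m.comp hh) = p}

end QC

end
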