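import Pool.Agent.Work.MP_217185_an.TransK
import Pool.Agent.Work.MP_217185_an.Crit
import Pool.Agent.Work.MP_217185_an.PropN
import Pool.Agent.Work.MP_217185_an.PhiDef

/-! # PhiA: the parametrisations `x ↦ [S, f_x ∘ h, S_x]`, leaves

* `phi_spec`: existence from `exists_small`; independence of the choice: `IsQC.uniq`.
* `phi_inj`: `[F_x h] = [F_y h]` gives `F_y = σ F_x` on the circle (`mk_eq_iff`), `bers x = bers y`
  (`bers_inj`), `x = y` (`loc_inv`, injectivity of `e` on its source).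
* leaves: `Leaf hh` = classes `[G ∘ h]`, `G : S₂ → S₃` WP.  By `exists_nice` `G` may be taken nice.
  Two leaves that meet are equal: `G h = σ G' h'` on the circle with nice `G, G'`, so
  `h' = (G'⁻¹ σ⁻¹ G) h` on the circle.  `phi` maps the chart ball into the leaf. -/

open MeasureTheory Complex Set Metric Filter
open scoped Topology ENNReal NNReal ContDiff ComplexConjugate

noncomputable section

namespace QC

variable {S S₂ S₂' : Bord} {h h' : CD ≃ₜ CD}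

theorem phi_spec (hh : Tgt S h S₂) {x : HSp S₂} (hx : ‖x‖ < rad S₂) :
    (∃ m : Marked S₂, (∃ k, IsQC k m.F x.fn) ∧ Nice S₂ m.F m.T) ∧
    ∀ m : Marked S₂, (∃ k, IsQC k m.F x.fn) → phi hh x = Teich.mk (m.comp hh) := by
  obtain ⟨F, S₁, h1, h2⟩ := exists_small hx
  refine ⟨⟨⟨F, S₁, h2.tgt⟩, ⟨eps0, h1⟩, h2⟩, fun m hm => ?_⟩
  have hex : ∃ m : Marked S₂, ∃ k, IsQC k m.F x.fn := ⟨m, hm⟩
  unfold phi
  rw [dif_pos hex, mk_eq_iff]
  obtain ⟨k, hk⟩ := hm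
  obtain ⟨k', hk'⟩ := hex.choose_spec
  refine ⟨m.F * hex.choose.F⁻¹, hk'.uniq hk, fun z _ => ?_⟩
  change m.F (h z) = m.F (hex.choose.F.symm (hex.choose.F (h z)))
  rw [Homeomorph.symm_apply_apply]

theorem phi_zero (hh : Tgt S h S₂) : phi hh 0 = Teich.mk ⟨h, S₂, hh⟩ := by
  have h0 : ‖(0 : HSp S₂)‖ < rad S₂ := by rw [norm_zero]; exact rad_pos _
  rw [(phi_spec hh h0).2 ⟨1, S₂, tgt_one S₂⟩ ⟨0, isMob_one.isQC⟩]
  rfl

theorem circle_surj {k : ℝ} {F : CD ≃ₜ CD} {μ : ℂ → ℂ} (hF : IsQC k F μ) (u : CD)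
    (hu : ‖(u : ℂ)‖ = 1) : ‖((F.symm u : CD) : ℂ)‖ = 1 := by
  have h3 : ‖((F.symm u : CD) : ℂ)‖ ≤ 1 := mem_closedBall_zero_iff.1 (F.symm u).2
  have h4 : ¬ ‖((F.symm u : CD) : ℂ)‖ < 1 := by
    rw [← hF.pres (F.symm u), F.apply_symm_apply, hu]; exact lt_irrefl _
  exact le_antisymm h3 (not_lt.1 h4)

/-- equality of `[F₁ ∘ h]` and `[F₂ ∘ h]` in terms of `F₁`, `F₂`. -/
theorem mk_comp_eq_iff (hh : Tgt S h S₂) (m₁ m₂ : Marked S₂) :
    Teich.mk (m₁.comp hh) = Teich.mk (m₂.comp hh) ↔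
      ∃ σ, IsMob σ ∧ ∀ x : CD, ‖(x : ℂ)‖ = 1 → m₂.F x = σ (m₁.F x) := by
  rw [mk_eq_iff]
  obtain ⟨k, μ, hq⟩ := hh.qc
  constructor
  · rintro ⟨σ, hσ, he⟩
    refine ⟨σ, hσ, fun x hx => ?_⟩
    have h5 := he (h.symm x) (circle_surj hq x hx)
    have h6 : (m₂.comp hh).F (h.symm x) = m₂.F x := by
      change m₂.F (h (h.symm x)) = m₂.F x
      rw [h.apply_symm_apply]
    have h7 : (m₁.comp hh).F (h.symm x) = m₁.F x := by
      change m₁.F (h (h.symm x)) = m₁.F x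
      rw [h.apply_symm_apply]
    rw [h6, h7] at h5
    exact h5
  · rintro ⟨σ, hσ, he⟩
    refine ⟨σ, hσ, fun x hx => ?_⟩
    have h1 : ‖((h x : CD) : ℂ)‖ = 1 := by
      have h2 : ‖((h x : CD) : ℂ)‖ ≤ 1 := mem_closedBall_zero_iff.1 (h x).2
      have h3 : ¬ ‖((h x : CD) : ℂ)‖ < 1 := by rw [hq.pres x, hx]; exact lt_irrefl _
      exact le_antisymm h2 (not_lt.1 h3)
    exact he (h x) h1

theorem bersE_eq_iff {k k' : ℝ} {F F' : CD ≃ₜ CD} {μ μ' : ℂ → ℂ} (hF : IsQC k F μ)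
    (hF' : IsQC k' F' μ') (hi : AEInv S μ) (hi' : AEInv S μ') (hl : L2hyp S μ)
    (hl' : L2hyp S μ') : bersE S μ = bersE S μ' ↔
      ∃ σ, IsMob σ ∧ ∀ x : CD, ‖(x : ℂ)‖ = 1 → F' x = σ (F x) := by
  rw [← bers_inj hF hF']
  have e1 := bersE_fn hF.bel hF.supp hi hl
  have e2 := bersE_fn hF'.bel hF'.supp hi' hl'
  constructor
  · intro h1 z hz
    have h2 : bersD μ z = bersD μ' z := by rw [← e1, ← e2, h1]
    have hz' : ‖z‖ < 1 := mem_ball_zero_iff.1 hz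
    unfold bersD at h2
    rwa [if_pos hz', if_pos hz'] at h2
  · intro h1
    apply HSp.ext
    rw [e1, e2]
    funext z
    unfold bersD
    split_ifs with hz
    · exact h1 z (mem_ball_zero_iff.2 hz)
    · rfl

theorem phi_inj (hh : Tgt S h S₂) : InjOn (phi hh) (ball 0 (rad S₂)) := by
  intro x hx y hy hxy
  rw [mem_ball_zero_iff] at hx hy
  obtain ⟨⟨m₁, ⟨k₁, h1⟩, n1⟩, s1⟩ := phi_spec hh hx
  obtain ⟨⟨m₂, ⟨k₂, h2⟩, n2⟩, s2⟩ := phi_spec hh hy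
  rw [s1 m₁ ⟨k₁, h1⟩, s2 m₂ ⟨k₂, h2⟩, mk_comp_eq_iff] at hxy
  rw [← bersE_eq_iff (S := S₂) h1 h2 x.inv.aeInv y.inv.aeInv x.l2 y.l2] at hxy
  obtain ⟨e, e1, e2, _⟩ := rad_spec S₂
  have hx' : x ∈ e.source := by rw [e1]; exact mem_ball_zero_iff.2 hx
  have hy' : y ∈ e.source := by rw [e1]; exact mem_ball_zero_iff.2 hy
  refine e.injOn hx' hy' ?_
  rw [e2 x (mem_ball_zero_iff.2 hx), e2 y (mem_ball_zero_iff.2 hy), hxy]

end QC

end
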