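import Pool.Agent.Work.MP_217185_an.TransK
import Pool.Agent.Work.MP_217185_an.Crit
import Pool.Agent.Work.MP_217185_an.PropN
import Pool.Agent.Work.MP_217185_an.PhiA

/-! # PhiB: the parametrisations `x ↦ [S, f_x ∘ h, S_x]`, leaves

* `phi_spec`: existence from `exists_small`; independence of the choice: `IsQC.uniq`.
* `phi_inj`: `[F_x h] = [F_y h]` gives `F_y = σ F_x` on the circle (`mk_eq_iff`), `bers x = bers y`
  (`bers_inj`), `x = y` (`loc_inv`, injectivity of `e` on its source).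
* leaves: `Leaf hh` = classes `[G ∘ h]`, `G : S₂ → S₃` WP.  By `exists_nice` `G` may be taken nice.
  Two leaves that meet are equal: `G h = σ G' h'` on the circle with nice `G, G'`, so
  `h' = (G'⁻¹ σ⁻¹ G) h` on the circle.  `phi` maps the chart ball into the leaf. -/

open MeasureTheory Complex Set Metric Filter
open scoped Topology ENNReal NNReal ContDiff ComplexConjugate

noncomputable section

namespace QC

variable {S S₂ S₂' : Bord} {h h' : CD ≃ₜ CD}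

theorem Nice.isWP {G : CD ≃ₜ CD} {S' : Bord} (hG : Nice S G S') : IsWP S G S' := ⟨hG.tgt, hG.l2⟩

theorem leaf_nice (hh : Tgt S h S₂) {p : Teich S} (hp : p ∈ Leaf hh) :
    ∃ m : Marked S₂, Nice S₂ m.F m.T ∧ Teich.mk (m.comp hh) = p := by
  obtain ⟨m, hm, rfl⟩ := hp
  obtain ⟨G, hG, he⟩ := exists_nice hm
  refine ⟨⟨G, m.T, hG.tgt⟩, hG, ?_⟩
  rw [mk_comp_eq_iff]
  exact ⟨1, isMob_one, fun x hx => (he x hx).symm⟩

/-- if `G' = σ G` on the circle then `σ` is a map of the targets. -/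
theorem tgt_of_circle {S₃ S₃' : Bord} {G G' σ : CD ≃ₜ CD} (hG : Tgt S G S₃) (hG' : Tgt S G' S₃')
    (hσ : IsMob σ) (he : ∀ x : CD, ‖(x : ℂ)‖ = 1 → G' x = σ (G x)) : Tgt S₃ σ S₃' := by
  obtain ⟨T, hT⟩ := tgt_mob hσ S₃
  have h1 : Tgt S (σ * G) T := hT.comp hG
  have h2 : Tgt S G' T := h1.congr hG'.isQCS he
  rw [hG'.unique h2]
  exact hT

/-- the comparison map of two markings with equivalent nice deformations. -/
theorem exists_compare (hh : Tgt S h S₂) (hh' : Tgt S h' S₂') {m : Marked S₂} {m' : Marked S₂'}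
    (hm : Nice S₂ m.F m.T) (hm' : Nice S₂' m'.F m'.T)
    (he : Teich.mk (m.comp hh) = Teich.mk (m'.comp hh')) :
    ∃ K, Nice S₂' K S₂ ∧ ∀ x : CD, ‖(x : ℂ)‖ = 1 → K (h' x) = h x := by
  rw [mk_eq_iff] at he
  obtain ⟨σ, hσ, he⟩ := he
  have h1 : Tgt m.T σ m'.T := tgt_of_circle (m.comp hh).tgt (m'.comp hh').tgt hσ he
  have h2 : Nice S₂' (σ⁻¹ * m'.F) m.T := hm'.mob hσ.inv h1.inv
  refine ⟨m.F⁻¹ * (σ⁻¹ * m'.F), hm.inv.comp h2, fun x hx => ?_⟩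
  change m.F.symm (σ.symm (m'.F (h' x))) = h x
  have h3 : m'.F (h' x) = σ (m.F (h x)) := he x hx
  rw [h3, σ.symm_apply_apply, m.F.symm_apply_apply]

theorem leaf_sub (hh : Tgt S h S₂) (hh' : Tgt S h' S₂') (hne : (Leaf hh ∩ Leaf hh').Nonempty) :
    Leaf hh ⊆ Leaf hh' := by
  obtain ⟨p, hp, hp'⟩ := hne
  obtain ⟨m, hm, h1⟩ := leaf_nice hh hp
  obtain ⟨m', hm', h2⟩ := leaf_nice hh' hp'
  obtain ⟨K, hK, hKe⟩ := exists_compare hh hh' hm hm' (h1.trans h2.symm)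
  rintro q ⟨n, hn, rfl⟩
  have hw : IsWP S₂' (n.F * K) n.T := hn.comp hK
  refine ⟨⟨n.F * K, n.T, hw.tgt⟩, hw, ?_⟩
  rw [mk_eq_iff]
  refine ⟨1, isMob_one, fun x hx => ?_⟩
  change n.F (h x) = n.F (K (h' x))
  rw [hKe x hx]

theorem leaf_eq (hh : Tgt S h S₂) (hh' : Tgt S h' S₂') (hne : (Leaf hh ∩ Leaf hh').Nonempty) :
    Leaf hh = Leaf hh' :=
  Subset.antisymm (leaf_sub hh hh' hne) (leaf_sub hh' hh (by rwa [inter_comm]))

theorem leaf_self (hh : Tgt S h S₂) : Teich.mk ⟨h, S₂, hh⟩ ∈ Leaf hh :=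
  ⟨⟨1, S₂, tgt_one S₂⟩, (nice_one S₂).isWP, rfl⟩

theorem phi_mem_leaf (hh : Tgt S h S₂) {x : HSp S₂} (hx : ‖x‖ < rad S₂) :
    phi hh x ∈ Leaf hh := by
  obtain ⟨⟨m, hm, hn⟩, h1⟩ := phi_spec hh hx
  exact ⟨m, hn.isWP, (h1 m hm).symm⟩

theorem leaf_base : Leaf (tgt_one S) = TWP S := by
  ext p
  constructor
  · rintro ⟨m, ⟨_, k, μ, h1, h2⟩, rfl⟩
    exact ⟨m, rfl, k, μ, h1, h2⟩
  · rintro ⟨m, rfl, k, μ, h1, h2⟩
    exact ⟨m, ⟨m.tgt, k, μ, h1, h2⟩, rfl⟩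

/-- if `G : S₂ → S₃` is a nice marking then the leaf of `G ∘ h` is the leaf of `h`. -/
theorem leaf_comp (hh : Tgt S h S₂) (m : Marked S₂) (hm : IsWP S₂ m.F m.T) :
    Leaf (m.tgt.comp hh) = Leaf hh :=
  leaf_eq _ _ ⟨Teich.mk ⟨m.F * h, m.T, m.tgt.comp hh⟩, leaf_self _, ⟨m, hm, rfl⟩⟩

end QC

end
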