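import Pool.Agent.Work.MP_217185_an.Fund
import Pool.Agent.Work.MP_217185_an.DComp

/-! # PushDef: target surfaces

`Tgt S H S'`: `H` is a lift of a quasiconformal map of `S` onto `S'`, i.e. `S'.Γ = H Γ H⁻¹`.
`Reg (H Γ H⁻¹) = H (Reg Γ)` (topological), `H` preserves the open disc and the circle. -/

open MeasureTheory Complex Set Metric Filter
open scoped Topology ENNReal NNReal ContDiff ComplexConjugate

namespace QC

/-- `H` is (a lift of) a quasiconformal homeomorphism of the bordered surface `S` onto `S'`. -/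
structure Tgt (S : Bord) (H : CD ≃ₜ CD) (S' : Bord) : Prop where
  qc : ∃ k μ, IsQC k H μ
  grp : ∀ γ, γ ∈ S'.Γ ↔ H⁻¹ * γ * H ∈ S.Γ

variable {S S' S'' : Bord} {H G : CD ≃ₜ CD}

end QC
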