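import Pool.Agent.Work.MP_217185_an.Fund
import Pool.Agent.Work.MP_217185_an.DComp
import Pool.Agent.Work.MP_217185_an.PushDef

/-! # PushA: target surfaces

`Tgt S H S'`: `H` is a lift of a quasiconformal map of `S` onto `S'`, i.e. `S'.Γ = H Γ H⁻¹`.
`Reg (H Γ H⁻¹) = H (Reg Γ)` (topological), `H` preserves the open disc and the circle. -/

open MeasureTheory Complex Set Metric Filter
open scoped Topology ENNReal NNReal ContDiff ComplexConjugate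

namespace QC

theorem Bord.ext {S S' : Bord} (h : ∀ γ, γ ∈ S.Γ ↔ γ ∈ S'.Γ) : S = S' := by
  have h1 : S.Γ = S'.Γ := Subgroup.ext h
  cases S
  cases S'
  simp only at h1
  subst h1
  rfl

/-- the regular set of a conjugate group -/
private theorem reg_conj {Γ Γ' : Subgroup (CD ≃ₜ CD)} (H : CD ≃ₜ CD)
    (h : ∀ γ, γ ∈ Γ' → H⁻¹ * γ * H ∈ Γ) {x : CD} (hx : x ∈ Reg Γ) : H x ∈ Reg Γ' := by
  obtain ⟨U, hU, hdis⟩ := hx
  refine ⟨H '' U, ?_, ?_⟩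
  · rw [← H.map_nhds_eq]
    exact image_mem_map hU
  · intro γ hγ hne
    have h1 := hdis _ (h γ hγ) (fun h0 => hne (by
      have : γ = H * (H⁻¹ * γ * H) * H⁻¹ := by group
      rw [this, h0]
      group))
    have h2 : γ '' (H '' U) = H '' ((H⁻¹ * γ * H : CD ≃ₜ CD) '' U) := by
      rw [image_image, image_image]
      refine image_congr fun y _ => ?_
      have : H ((H⁻¹ * γ * H : CD ≃ₜ CD) y) = H (H⁻¹ (γ (H y))) := rfl
      rw [this]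
      exact (H.apply_symm_apply _).symm
    rw [h2]
    exact (disjoint_image_iff H.injective).2 h1

theorem exists_tgt {S : Bord} {H : CD ≃ₜ CD} (h : IsQCS S H) : ∃ S', Tgt S H S' := by
  obtain ⟨k, μ, hq⟩ := h.qc
  set Γ' : Subgroup (CD ≃ₜ CD) := S.Γ.map (MulAut.conj H).toMonoidHom with hΓ'
  have hmem : ∀ γ, γ ∈ Γ' ↔ H⁻¹ * γ * H ∈ S.Γ := by
    intro γ
    rw [hΓ', Subgroup.mem_map]
    constructor
    · rintro ⟨g, hg, rfl⟩
      have : H⁻¹ * ((MulAut.conj H).toMonoidHom g) * H = g := by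
        simp [MulAut.conj_apply, mul_assoc]
      rw [this]
      exact hg
    · intro hg
      refine ⟨_, hg, ?_⟩
      simp [MulAut.conj_apply, mul_assoc]
  have hmem' : ∀ γ, γ ∈ S.Γ → (H⁻¹)⁻¹ * γ * H⁻¹ ∈ Γ' := by
    intro γ hγ
    rw [hmem]
    have : H⁻¹ * ((H⁻¹)⁻¹ * γ * H⁻¹) * H = γ := by group
    rwa [this]
  have hHH : ∀ x : CD, H (H⁻¹ x) = x := fun x => H.apply_symm_apply x
  refine ⟨⟨Γ', ?_, ?_, ?_, ?_⟩, ⟨h.qc, hmem⟩⟩
  · intro γ hγ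
    have h1 := h.eqv _ ((hmem γ).1 hγ)
    have : H * (H⁻¹ * γ * H) * H⁻¹ = γ := by group
    rwa [this] at h1
  · intro x hx
    have h1 : ‖((H⁻¹ x : CD) : ℂ)‖ < 1 := by
      rw [← hq.pres, hHH]
      exact hx
    have h2 := reg_conj H (fun γ hγ => (hmem γ).1 hγ) (S.disc _ h1)
    rwa [hHH] at h2
  · obtain ⟨K, hK, hKr, hKc⟩ := S.cocompact
    refine ⟨H '' K, hK.image H.continuous, ?_, ?_⟩
    · rintro _ ⟨y, hy, rfl⟩
      exact reg_conj H (fun γ hγ => (hmem γ).1 hγ) (hKr hy)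
    · intro x hx
      obtain ⟨γ, hγ, hγK⟩ := hKc _ (reg_conj H⁻¹ hmem' hx)
      refine ⟨(H⁻¹)⁻¹ * γ * H⁻¹, hmem' γ hγ, ?_⟩
      refine ⟨_, hγK, ?_⟩
      rfl
  · obtain ⟨x, hx, hx1⟩ := S.border
    refine ⟨H x, reg_conj H (fun γ hγ => (hmem γ).1 hγ) hx, ?_⟩
    have h1 : ¬ ‖(H x : ℂ)‖ < 1 := by
      rw [hq.pres]
      linarith
    have h2 : ‖(H x : ℂ)‖ ≤ 1 := by
      have := (H x).2
      rwa [mem_closedBall, dist_zero_right] at this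
    exact le_antisymm h2 (not_lt.1 h1)

variable {S S' S'' : Bord} {H G : CD ≃ₜ CD}

theorem Tgt.isQCS (h : Tgt S H S') : IsQCS S H := by
  refine ⟨h.qc, fun γ hγ => S'.mob _ ?_⟩
  rw [h.grp]
  have : H⁻¹ * (H * γ * H⁻¹) * H = γ := by group
  rwa [this]

theorem Tgt.unique (h : Tgt S H S') (h' : Tgt S H S'') : S' = S'' :=
  Bord.ext fun γ => by rw [h.grp, h'.grp]

theorem tgt_one (S : Bord) : Tgt S 1 S :=
  ⟨⟨0, 0, isMob_one.isQC⟩, fun γ => by simp⟩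

theorem tgt_mob {σ : CD ≃ₜ CD} (hσ : IsMob σ) (S : Bord) : ∃ S', Tgt S σ S' :=
  exists_tgt ⟨⟨0, 0, hσ.isQC⟩, fun γ hγ => (hσ.mul (S.mob γ hγ)).mul hσ.inv⟩

end QC
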