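import Pool.Agent.Work.MP_217185_an.Fund
import Pool.Agent.Work.MP_217185_an.DComp
import Pool.Agent.Work.MP_217185_an.PushDef

/-! # PushB: target surfaces

`Tgt S H S'`: `H` is a lift of a quasiconformal map of `S` onto `S'`, i.e. `S'.Γ = H Γ H⁻¹`.
`Reg (H Γ H⁻¹) = H (Reg Γ)` (topological), `H` preserves the open disc and the circle. -/

open MeasureTheory Complex Set Metric Filter
open scoped Topology ENNReal NNReal ContDiff ComplexConjugate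

namespace QC

variable {S S' S'' : Bord} {H G : CD ≃ₜ CD}

theorem Tgt.comp (hG : Tgt S' G S'') (hH : Tgt S H S') : Tgt S (G * H) S'' := by
  obtain ⟨k, μ, hq⟩ := hG.qc
  obtain ⟨k', ν, hq'⟩ := hH.qc
  obtain ⟨κ, hκ, -⟩ := hq.comp hq'
  refine ⟨⟨_, κ, hκ⟩, fun γ => ?_⟩
  rw [hG.grp, hH.grp]
  have : H⁻¹ * (G⁻¹ * γ * G) * H = (G * H)⁻¹ * γ * (G * H) := by group
  rw [this]

theorem Tgt.inv (hH : Tgt S H S') : Tgt S' H⁻¹ S := by
  obtain ⟨k', ν, hq'⟩ := hH.qc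
  obtain ⟨κ, hκ, -⟩ := hq'.inv
  refine ⟨⟨_, κ, hκ⟩, fun γ => ?_⟩
  rw [hH.grp]
  have : H⁻¹ * ((H⁻¹)⁻¹ * γ * H⁻¹) * H = γ := by group
  rw [this]

private theorem norm_le_CD'' (z : CD) : ‖(z : ℂ)‖ ≤ 1 := by
  have := z.2
  rwa [mem_closedBall, dist_zero_right] at this

private theorem circle_iff {k : ℝ} {F : CD ≃ₜ CD} {μ : ℂ → ℂ} (h : IsQC k F μ) (x : CD) :
    ‖(F x : ℂ)‖ = 1 ↔ ‖(x : ℂ)‖ = 1 := by
  have h1 := h.pres x
  have h2 := norm_le_CD'' x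
  have h3 := norm_le_CD'' (F x)
  constructor
  · intro h4
    by_contra h5
    have h6 : ‖(x : ℂ)‖ < 1 := lt_of_le_of_ne h2 h5
    have := h1.2 h6
    linarith
  · intro h4
    by_contra h5
    have h6 : ‖(F x : ℂ)‖ < 1 := lt_of_le_of_ne h3 h5
    have := h1.1 h6
    linarith

private theorem conj_circle {k : ℝ} {μ : ℂ → ℂ} (hG : IsQC k G μ)
    (he : ∀ x : CD, ‖(x : ℂ)‖ = 1 → G x = H x) {g : CD ≃ₜ CD} (hg : IsMob g) (x : CD)
    (hx : ‖(x : ℂ)‖ = 1) : (G * g * G⁻¹) x = (H * g * H⁻¹) x := by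
  have e1 : (G * g * G⁻¹) x = G (g (G⁻¹ x)) := rfl
  have e2 : (H * g * H⁻¹) x = H (g (H⁻¹ x)) := rfl
  have hy : ‖((G⁻¹ x : CD) : ℂ)‖ = 1 := by
    rw [← circle_iff hG]
    have : G (G⁻¹ x) = x := G.apply_symm_apply x
    rw [this]
    exact hx
  have hGH : G⁻¹ x = H⁻¹ x := by
    apply H.injective
    have h1 : H (H⁻¹ x) = x := H.apply_symm_apply x
    have h2 : G (G⁻¹ x) = x := G.apply_symm_apply x
    rw [h1, ← he _ hy, h2]
  have hgy : ‖(g (G⁻¹ x) : ℂ)‖ = 1 := by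
    obtain ⟨a, b, hab, hgm⟩ := hg
    rw [hgm]
    exact norm_mob_eq hab hy
  rw [e1, e2, he _ hgy, hGH]

/-- If `G = H` on the circle then `G` has the same target: two Moebius maps that agree on the circle
are equal. -/
theorem Tgt.congr (hH : Tgt S H S') (hG : IsQCS S G)
    (he : ∀ x : CD, ‖(x : ℂ)‖ = 1 → G x = H x) : Tgt S G S' := by
  obtain ⟨k, μ, hq⟩ := hG.qc
  have key : ∀ g ∈ S.Γ, G * g * G⁻¹ = H * g * H⁻¹ ∧ G * g * G⁻¹ ∈ S'.Γ := by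
    intro g hg
    have hmem : H * g * H⁻¹ ∈ S'.Γ := by
      rw [hH.grp]
      have : H⁻¹ * (H * g * H⁻¹) * H = g := by group
      rwa [this]
    have h1 : G * g * G⁻¹ = H * g * H⁻¹ :=
      (hG.eqv g hg).ext_circle (S'.mob _ hmem) (conj_circle hq he (S.mob g hg))
    refine ⟨h1, ?_⟩
    rw [h1]
    exact hmem
  refine ⟨hG.qc, fun γ => ?_⟩
  constructor
  · intro hγ
    rw [hH.grp] at hγ
    have h1 := (key _ hγ).1
    have h2 : H * (H⁻¹ * γ * H) * H⁻¹ = γ := by group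
    rw [h2] at h1
    have h3 : G⁻¹ * γ * G = H⁻¹ * γ * H := by
      calc G⁻¹ * γ * G = G⁻¹ * (G * (H⁻¹ * γ * H) * G⁻¹) * G := by rw [h1]
        _ = H⁻¹ * γ * H := by group
    rw [h3]
    exact hγ
  · intro hγ
    have h1 := (key _ hγ).2
    have h2 : G * (G⁻¹ * γ * G) * G⁻¹ = γ := by group
    rwa [h2] at h1

end QC
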