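import Pool.Agent.Work.MP_217185_an.Fund
import Pool.Agent.Work.MP_217185_an.DComp
import Pool.Agent.Work.MP_217185_an.PushDef

/-! # PushC: target surfaces

`Tgt S H S'`: `H` is a lift of a quasiconformal map of `S` onto `S'`, i.e. `S'.Γ = H Γ H⁻¹`.
`Reg (H Γ H⁻¹) = H (Reg Γ)` (topological), `H` preserves the open disc and the circle. -/

open MeasureTheory Complex Set Metric Filter
open scoped Topology ENNReal NNReal ContDiff ComplexConjugate

namespace QC

variable {S S' S'' : Bord} {H G : CD ≃ₜ CD}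

/-- `ext F` is measurable -/
theorem measurable_ext_pushC (F : CD ≃ₜ CD) : Measurable (ext F) := by
  classical
  have h1 : ext F = fun z => if h : z ∈ closedBall (0 : ℂ) 1 then
      (fun w : CD => (F w : ℂ)) ⟨z, h⟩ else
      (fun w : ((closedBall (0 : ℂ) 1)ᶜ : Set ℂ) => (w : ℂ)) ⟨z, h⟩ := by
    funext z
    unfold ext
    split_ifs <;> rfl
  rw [h1]
  exact Measurable.dite (continuous_subtype_val.comp F.continuous).measurable
    measurable_subtype_coe isClosed_closedBall.measurableSet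

private theorem image_meas (hH : Tgt S H S') {E : Set ℂ} (hE : E ⊆ D)
    (hEm : MeasurableSet E) : MeasurableSet (ext H '' E) := by
  obtain ⟨k', ν, hq⟩ := hH.qc
  obtain ⟨a, b, hw, -⟩ := hq.wd
  exact ((hq.area hw).2.2.1 E hE hEm).1

theorem Tgt.isFund (hH : Tgt S H S') {P : Set ℂ} (hP : IsFund S P) : IsFund S' (ext H '' P) := by
  obtain ⟨k', ν, hq⟩ := hH.qc
  refine ⟨image_meas hH hP.sub hP.meas, ?_, ?_⟩
  · rw [← hq.image_D]
    exact image_mono hP.sub
  · intro z hz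
    have hHH : ∀ x : CD, H (H⁻¹ x) = x := fun x => H.apply_symm_apply x
    have hHH' : ∀ x : CD, H⁻¹ (H x) = x := fun x => H.symm_apply_apply x
    have key : ∀ x : CD, (x : ℂ) ∈ ext H '' P ↔ ((H⁻¹ x : CD) : ℂ) ∈ P := by
      intro x
      constructor
      · rintro ⟨y, hy, hyx⟩
        have hyc : y ∈ closedBall (0 : ℂ) 1 := ball_subset_closedBall (hP.sub hy)
        have h1 : ext H y = (H ⟨y, hyc⟩ : CD) := ext_apply H ⟨y, hyc⟩
        rw [h1] at hyx
        have h2 : H ⟨y, hyc⟩ = x := Subtype.ext hyx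
        rw [← h2, hHH']
        exact hy
      · intro hy
        refine ⟨_, hy, ?_⟩
        rw [ext_apply, hHH]
    have hw : ‖((H⁻¹ z : CD) : ℂ)‖ < 1 := by
      rw [← hq.pres, hHH]
      exact hz
    obtain ⟨γ, ⟨hγ, hγP⟩, huniq⟩ := hP.uniq _ hw
    refine ⟨H * γ * H⁻¹, ⟨?_, ?_⟩, ?_⟩
    · rw [hH.grp]
      have : H⁻¹ * (H * γ * H⁻¹) * H = γ := by group
      rwa [this]
    · rw [key]
      have : H⁻¹ ((H * γ * H⁻¹) z) = γ (H⁻¹ z) := hHH' _
      rw [this]
      exact hγP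
    · rintro δ ⟨hδ, hδP⟩
      rw [key] at hδP
      rw [hH.grp] at hδ
      have h1 : (H⁻¹ * δ * H) (H⁻¹ z) = H⁻¹ (δ z) := by
        have : (H⁻¹ * δ * H) (H⁻¹ z) = H⁻¹ (δ (H (H⁻¹ z))) := rfl
        rw [this, hHH]
      have h2 := huniq (H⁻¹ * δ * H) ⟨hδ, by rw [h1]; exact hδP⟩
      rw [← h2]
      group

/-- comparison of integrals over fundamental domains. -/
theorem NiceJ.lintegral_le {C : ℝ≥0∞} (hC : NiceJ C H) (hH : Tgt S H S') {E : Set ℂ} (hE : E ⊆ D)
    (hEm : MeasurableSet E) {u : ℂ → ℝ≥0∞} (hu : Measurable u) :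
    ∫⁻ z in E, u (ext H z) ∂hyp ≤ C * ∫⁻ z in ext H '' E, u z ∂hyp ∧
    ∫⁻ z in ext H '' E, u z ∂hyp ≤ C * ∫⁻ z in E, u (ext H z) ∂hyp := by
  have hmeas := measurable_ext_pushC H
  have hmap : ∫⁻ z in E, u (ext H z) ∂hyp = ∫⁻ z, u z ∂(Measure.map (ext H) (hyp.restrict E)) :=
    (lintegral_map hu hmeas).symm
  have himg := image_meas hH hE hEm
  have hset : ∀ A : Set ℂ, A ∩ ext H '' E = ext H '' (ext H ⁻¹' A ∩ E) := by
    intro A
    exact (image_preimage_inter (ext H) E A).symm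
  have e1 : ∀ A : Set ℂ, MeasurableSet A →
      Measure.map (ext H) (hyp.restrict E) A = hyp (ext H ⁻¹' A ∩ E) := by
    intro A hA
    rw [Measure.map_apply hmeas hA, Measure.restrict_apply (hmeas hA)]
  have e2 : ∀ A : Set ℂ, MeasurableSet A →
      (hyp.restrict (ext H '' E)) A = hyp (ext H '' (ext H ⁻¹' A ∩ E)) := by
    intro A hA
    rw [Measure.restrict_apply hA, hset]
  have l1 : Measure.map (ext H) (hyp.restrict E) ≤ C • (hyp.restrict (ext H '' E)) := by
    refine Measure.le_iff.2 fun A hA => ?_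
    rw [Measure.smul_apply, e1 A hA, e2 A hA, smul_eq_mul]
    exact (hC.2 _ (inter_subset_right.trans hE) ((hmeas hA).inter hEm)).2
  have l2 : hyp.restrict (ext H '' E) ≤ C • (Measure.map (ext H) (hyp.restrict E)) := by
    refine Measure.le_iff.2 fun A hA => ?_
    rw [Measure.smul_apply, e1 A hA, e2 A hA, smul_eq_mul]
    exact (hC.2 _ (inter_subset_right.trans hE) ((hmeas hA).inter hEm)).1
  constructor
  · rw [hmap]
    calc ∫⁻ z, u z ∂(Measure.map (ext H) (hyp.restrict E))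
        ≤ ∫⁻ z, u z ∂(C • (hyp.restrict (ext H '' E))) := lintegral_mono' l1 le_rfl
      _ = C * ∫⁻ z in ext H '' E, u z ∂hyp := by rw [lintegral_smul_measure, smul_eq_mul]
  · rw [hmap]
    calc ∫⁻ z in ext H '' E, u z ∂hyp
        ≤ ∫⁻ z, u z ∂(C • (Measure.map (ext H) (hyp.restrict E))) := lintegral_mono' l2 le_rfl
      _ = C * ∫⁻ z, u z ∂(Measure.map (ext H) (hyp.restrict E)) := by
          rw [lintegral_smul_measure, smul_eq_mul]

end QC
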