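import Pool.Agent.Work.MP_217185_an.RegB

/-! # RegD1: Sobolev embedding

`sup_le_L2`: `u(x,y) = ∫_{-∞}^x ∫_{-∞}^y ∂_x ∂_y u`, Cauchy-Schwarz on the square of side `2R`.
`smooth_of_sob`: let `u_n = ρ_n * f` (mollification), smooth, with all derivatives
`∂^α u_n = ρ_n * f_α`, Cauchy in `L²` (`f_α` the weak derivatives, in `L²`).  For a cutoff `χ`,
`sup_le_L2` applied to `χ ∂^α (u_n - u_m)` shows that all derivatives converge locally uniformly; so the
limit is smooth and equals `f` a.e. -/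

open MeasureTheory Complex Set Metric Filter
open scoped Topology ENNReal NNReal ContDiff ComplexConjugate

namespace QC

private theorem regD1_line {φ φ' : ℝ → ℂ} (h : ∀ t, HasDerivAt φ (φ' t) t) (hc : Continuous φ')
    {R x : ℝ} (h0 : φ (-R) = 0) (hx : -R ≤ x) (hx2 : x ≤ R) :
    ‖φ x‖ ≤ ∫ t in Ioc (-R) R, ‖φ' t‖ := by
  have h1 : ∫ t in (-R)..x, φ' t = φ x - φ (-R) :=
    intervalIntegral.integral_eq_sub_of_hasDerivAt (fun t _ => h t) (hc.intervalIntegrable _ _)
  rw [h0, sub_zero] at h1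
  rw [← h1]
  refine (intervalIntegral.norm_integral_le_integral_norm hx).trans ?_
  rw [intervalIntegral.integral_of_le hx]
  have hint : IntegrableOn (fun t => ‖φ' t‖) (Ioc (-R) R) volume :=
    (hc.norm.continuousOn.integrableOn_Icc).mono_set Ioc_subset_Icc_self
  exact setIntegral_mono_set hint (ae_of_all _ fun t => norm_nonneg _)
    (Ioc_subset_Ioc_right hx2).eventuallyLE

private theorem regD1_fderiv_zero {u : ℂ → ℂ} (hu : ContDiff ℝ 1 u) {R : ℝ} (hR : 0 ≤ R)
    (hs : SuppIn R u) {w : ℂ} (hw : R ≤ ‖w‖) : fderiv ℝ u w = 0 := by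
  have hout : ∀ v : ℂ, R < ‖v‖ → fderiv ℝ u v = 0 := by
    intro v hv
    have h1 : u =ᶠ[𝓝 v] fun _ => 0 := by
      filter_upwards [(isOpen_lt continuous_const continuous_norm).mem_nhds hv] with z hz
      exact hs z (le_of_lt hz)
    rw [h1.fderiv_eq]
    simp
  rcases eq_or_lt_of_le hw with h | h
  · rcases eq_or_lt_of_le hR with h0 | h0
    · have h1 : u = fun _ => 0 := by
        funext z
        exact hs z (h0 ▸ norm_nonneg z)
      rw [h1]
      simp
    · have hc : Continuous (fderiv ℝ u) := hu.continuous_fderiv (by norm_num)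
      have h2 : Tendsto (fun t : ℝ => fderiv ℝ u ((1 + t) • w)) (𝓝[>] 0) (𝓝 (fderiv ℝ u w)) := by
        have h3 : Continuous fun t : ℝ => fderiv ℝ u ((1 + t) • w) :=
          hc.comp (by fun_prop)
        have h4 := h3.tendsto (0 : ℝ)
        simp only [add_zero, one_smul] at h4
        exact h4.mono_left nhdsWithin_le_nhds
      have h5 : Tendsto (fun t : ℝ => fderiv ℝ u ((1 + t) • w)) (𝓝[>] 0) (𝓝 0) := by
        refine tendsto_const_nhds.congr' ?_
        filter_upwards [self_mem_nhdsWithin] with t ht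
        have ht' : (0 : ℝ) < t := ht
        refine (hout _ ?_).symm
        rw [norm_smul, Real.norm_eq_abs, abs_of_pos (by linarith), ← h]
        nlinarith
      exact tendsto_nhds_unique h2 h5
  · exact hout w h

/-- Sobolev inequality in its simplest form. -/
theorem sup_le_L2 {u : ℂ → ℂ} (hu : ContDiff ℝ 2 u) {R : ℝ} (hR : 0 ≤ R) (hs : SuppIn R u)
    (z : ℂ) :
    ‖u z‖ ≤ 2 * R * (∫ w, ‖fderiv ℝ (fun x => fderiv ℝ u x 1) w I‖ ^ 2) ^ (1 / 2 : ℝ) := by
  obtain ⟨v, hv⟩ : ∃ v : ℂ → ℂ, v = fun x => fderiv ℝ u x 1 := ⟨_, rfl⟩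
  obtain ⟨h, hh⟩ : ∃ h : ℂ → ℂ, h = fun w => fderiv ℝ v w I := ⟨_, rfl⟩
  have hu1 : ContDiff ℝ 1 u := hu.of_le (by norm_num)
  have hvc : ContDiff ℝ 1 v := by
    rw [hv]
    exact (hu.fderiv_right (m := 1) (by norm_num)).clm_apply contDiff_const
  have hhc : Continuous h := by
    rw [hh]
    exact (hvc.continuous_fderiv (by norm_num)).clm_apply continuous_const
  have hv0 : SuppIn R v := by
    intro w hw
    rw [hv]
    simp only [regD1_fderiv_zero hu1 hR hs hw, ContinuousLinearMap.zero_apply]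
  have hh0 : SuppIn R h := by
    intro w hw
    rw [hh]
    simp only [regD1_fderiv_zero hvc hR hv0 hw, ContinuousLinearMap.zero_apply]
  have hrw : (∫ w, ‖fderiv ℝ (fun x => fderiv ℝ u x 1) w I‖ ^ 2) = ∫ w, ‖h w‖ ^ 2 := by
    rw [hh, hv]
  rw [hrw]
  have hnn : 0 ≤ 2 * R * (∫ w, ‖h w‖ ^ 2) ^ (1 / 2 : ℝ) := by positivity
  -- outside the square
  by_cases hz : R ≤ ‖z‖
  · rw [hs z hz, norm_zero]; exact hnn
  have hz' : ‖z‖ < R := not_le.1 hz
  have hx := abs_le.1 ((Complex.abs_re_le_norm z).trans hz'.le)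
  have hy := abs_le.1 ((Complex.abs_im_le_norm z).trans hz'.le)
  -- lines
  have hd1 : ∀ y t : ℝ, HasDerivAt (fun t : ℝ => u (t + y * I)) (v (t + y * I)) t := by
    intro y t
    have h1 : HasFDerivAt u (fderiv ℝ u (t + y * I)) (t + y * I) :=
      (hu1.differentiable (by norm_num) _).hasFDerivAt
    have h2 : HasDerivAt (fun t : ℝ => (t : ℂ) + y * I) 1 t :=
      (Complex.ofRealCLM.hasDerivAt (x := t)).add_const _
    have h3 := h1.comp_hasDerivAt t h2
    rw [hv]
    exact h3
  have hd2 : ∀ s t : ℝ, HasDerivAt (fun t : ℝ => v (s + t * I)) (h (s + t * I)) t := by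
    intro s t
    have h1 : HasFDerivAt v (fderiv ℝ v (s + t * I)) (s + t * I) :=
      (hvc.differentiable (by norm_num) _).hasFDerivAt
    have h2 : HasDerivAt (fun t : ℝ => (s : ℂ) + t * I) I t := by
      have := ((Complex.ofRealCLM.hasDerivAt (x := t)).mul_const I).const_add (s : ℂ)
      simpa using this
    have h3 := h1.comp_hasDerivAt t h2
    rw [hh]
    exact h3
  have e1 : ‖u z‖ ≤ ∫ s in Ioc (-R) R, ‖v (s + z.im * I)‖ := by
    have h1 := regD1_line (φ := fun t : ℝ => u (t + z.im * I)) (φ' := fun t => v (t + z.im * I))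
      (hd1 z.im) (hvc.continuous.comp (by fun_prop)) (R := R) (x := z.re) (by
        apply hs
        refine le_trans ?_ (Complex.abs_re_le_norm _)
        simp [abs_of_nonneg hR]) hx.1 hx.2
    simp only [Complex.re_add_im] at h1
    exact h1
  have e2 : ∀ s : ℝ, ‖v (s + z.im * I)‖ ≤ ∫ t in Ioc (-R) R, ‖h (s + t * I)‖ := by
    intro s
    exact regD1_line (φ := fun t : ℝ => v (s + t * I)) (φ' := fun t => h (s + t * I))
      (hd2 s) (hhc.comp (by fun_prop)) (R := R) (x := z.im) (by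
        apply hv0
        refine le_trans ?_ (Complex.abs_im_le_norm _)
        simp [abs_of_nonneg hR]) hy.1 hy.2
  let g : ℝ × ℝ → ℝ := fun p => ‖h (p.1 + p.2 * I)‖
  have hgc : Continuous g := (hhc.comp (by fun_prop)).norm
  have hgint : IntegrableOn g (Ioc (-R) R ×ˢ Ioc (-R) R) (volume.prod volume) := by
    have h1 : IntegrableOn g (Icc (-R) R ×ˢ Icc (-R) R) (volume.prod volume) :=
      hgc.continuousOn.integrableOn_compact (isCompact_Icc.prod isCompact_Icc)
    exact h1.mono_set (prod_mono Ioc_subset_Icc_self Ioc_subset_Icc_self)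
  have e3 : ‖u z‖ ≤ ∫ p in Ioc (-R) R ×ˢ Ioc (-R) R, g p ∂(volume.prod volume) := by
    rw [setIntegral_prod _ hgint]
    refine e1.trans (integral_mono_of_nonneg (ae_of_all _ fun s => norm_nonneg _) ?_
      (ae_of_all _ fun s => e2 s))
    have h1 : Integrable g ((volume.restrict (Ioc (-R) R)).prod (volume.restrict (Ioc (-R) R))) := by
      rw [Measure.prod_restrict]; exact hgint
    exact h1.integral_prod_left
  -- Cauchy-Schwarz
  have hvol : (volume.prod volume) (Ioc (-R) R ×ˢ Ioc (-R) R) = ENNReal.ofReal ((2 * R) ^ 2) := by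
    rw [Measure.prod_prod, Real.volume_Ioc, ← ENNReal.ofReal_mul (by linarith)]
    congr 1
    ring
  have hfin : IsFiniteMeasure ((volume.prod volume).restrict
      (Ioc (-R) R ×ˢ Ioc (-R) R : Set (ℝ × ℝ))) := ⟨by
    rw [Measure.restrict_apply_univ, hvol]; exact ENNReal.ofReal_lt_top⟩
  have hg2 : MemLp g (ENNReal.ofReal 2) ((volume.prod volume).restrict
      (Ioc (-R) R ×ˢ Ioc (-R) R : Set (ℝ × ℝ))) := by
    obtain ⟨C, hC⟩ := (isCompact_Icc.prod isCompact_Icc : IsCompact
      (Icc (-R) R ×ˢ Icc (-R) R : Set (ℝ × ℝ))).exists_bound_of_continuousOn hgc.continuousOn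
    refine MemLp.of_bound hgc.aestronglyMeasurable C ?_
    refine (ae_restrict_iff' (measurableSet_Ioc.prod measurableSet_Ioc)).2 (ae_of_all _ ?_)
    intro p hp
    exact hC p (prod_mono Ioc_subset_Icc_self Ioc_subset_Icc_self hp)
  have e4 := integral_mul_le_Lp_mul_Lq_of_nonneg (μ := (volume.prod volume).restrict
      (Ioc (-R) R ×ˢ Ioc (-R) R : Set (ℝ × ℝ))) (p := 2) (q := 2)
      (Real.HolderConjugate.two_two) (f := fun _ => 1) (g := g)
      (ae_of_all _ fun _ => zero_le_one) (ae_of_all _ fun p => norm_nonneg _)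
      (memLp_const 1) hg2
  simp only [one_mul, Real.one_rpow, integral_const, smul_eq_mul, mul_one] at e4
  have e5 : ((volume.prod volume).restrict
      (Ioc (-R) R ×ˢ Ioc (-R) R : Set (ℝ × ℝ))).real univ = (2 * R) ^ 2 := by
    rw [Measure.real, Measure.restrict_apply_univ, hvol, ENNReal.toReal_ofReal (by positivity)]
  rw [e5] at e4
  have e6 : ((2 * R) ^ 2 : ℝ) ^ (1 / 2 : ℝ) = 2 * R := by
    rw [← Real.sqrt_eq_rpow, Real.sqrt_sq (by positivity)]
  rw [e6] at e4
  refine (e3.trans e4).trans ?_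
  refine mul_le_mul_of_nonneg_left ?_ (by positivity)
  refine Real.rpow_le_rpow (integral_nonneg fun p => Real.rpow_nonneg (norm_nonneg _) _) ?_
    (by norm_num)
  -- compare with the integral over the plane
  have e7 : ∫ w, ‖h w‖ ^ 2 = ∫ p : ℝ × ℝ, g p ^ (2 : ℝ) := by
    rw [← (Complex.volume_preserving_equiv_real_prod.symm).integral_comp
      Complex.measurableEquivRealProd.symm.measurableEmbedding]
    congr 1
    funext p
    show ‖h (Complex.measurableEquivRealProd.symm p)‖ ^ 2 = ‖h (p.1 + p.2 * I)‖ ^ (2 : ℝ)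
    rw [Complex.measurableEquivRealProd_symm_apply, Real.rpow_two]
    congr 3
    apply Complex.ext <;> simp
  have hi : Integrable (fun p : ℝ × ℝ => g p ^ (2 : ℝ)) := by
    have hc1 : Continuous fun p : ℝ × ℝ => g p ^ (2 : ℝ) := by
      simp only [Real.rpow_two]
      exact hgc.pow 2
    refine hc1.integrable_of_hasCompactSupport ?_
    refine HasCompactSupport.of_support_subset_isCompact
      (isCompact_Icc.prod isCompact_Icc : IsCompact (Icc (-R) R ×ˢ Icc (-R) R : Set (ℝ × ℝ))) ?_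
    intro p hp
    by_contra hcon
    apply hp
    have h1 : R ≤ ‖(p.1 : ℂ) + p.2 * I‖ := by
      by_contra hlt
      rw [not_le] at hlt
      apply hcon
      have h2 := abs_le.1 ((Complex.abs_re_le_norm ((p.1 : ℂ) + p.2 * I)).trans hlt.le)
      have h3 := abs_le.1 ((Complex.abs_im_le_norm ((p.1 : ℂ) + p.2 * I)).trans hlt.le)
      simp at h2 h3
      exact ⟨⟨h2.1, h2.2⟩, ⟨h3.1, h3.2⟩⟩
    show ‖h (p.1 + p.2 * I)‖ ^ (2 : ℝ) = 0
    rw [hh0 _ h1]
    simp
  rw [e7]
  exact setIntegral_le_integral hi (ae_of_all _ fun p => Real.rpow_nonneg (norm_nonneg _) _)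

end QC
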