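import Pool.Agent.Work.MP_217185_an.RegB
import Pool.Agent.Work.MP_217185_an.RegD1
import Pool.Agent.Work.MP_ebc928_an.Mollify

/-! # RegD2: Sobolev embedding

`sup_le_L2`: `u(x,y) = ∫_{-∞}^x ∫_{-∞}^y ∂_x ∂_y u`, Cauchy-Schwarz on the square of side `2R`.
`smooth_of_sob`: let `u_n = ρ_n * f` (mollification), smooth, with all derivatives
`∂^α u_n = ρ_n * f_α`, Cauchy in `L²` (`f_α` the weak derivatives, in `L²`).  For a cutoff `χ`,
`sup_le_L2` applied to `χ ∂^α (u_n - u_m)` shows that all derivatives converge locally uniformly; so the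
limit is smooth and equals `f` a.e. -/

open MeasureTheory Complex Set Metric Filter
open scoped Topology ENNReal NNReal ContDiff ComplexConjugate

namespace QC

private theorem regD2_weak {e : ℂ} {f g : ℂ → ℂ} (h : WkD e f g) : EBC.WeakDeriv e f g := by
  intro φ hφ hc
  have hT : Test univ (fun z => (φ z : ℂ)) := by
    refine ⟨Complex.ofRealCLM.contDiff.comp hφ, ?_, subset_univ _⟩
    exact hc.comp_left (g := fun x : ℝ => (x : ℂ)) (by simp)
  have h1 := h _ hT
  have h2 : ∀ z, fderiv ℝ (fun z => (φ z : ℂ)) z e = ((fderiv ℝ φ z e : ℝ) : ℂ) := by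
    intro z
    have h3 : HasFDerivAt φ (fderiv ℝ φ z) z := (hφ.differentiable (by simp) z).hasFDerivAt
    have h4 := Complex.ofRealCLM.hasFDerivAt.comp z h3
    have h5 : (fun z => (φ z : ℂ)) = (Complex.ofRealCLM : ℝ → ℂ) ∘ φ := rfl
    rw [h5, h4.fderiv]
    rfl
  calc ∫ z, (fderiv ℝ φ z e) • f z = ∫ z, f z * fderiv ℝ (fun z => (φ z : ℂ)) z e := by
        congr 1; funext z; rw [h2, Complex.real_smul]; ring
    _ = - ∫ z, g z * (φ z : ℂ) := h1
    _ = - ∫ z, φ z • g z := by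
        congr 2; funext z; rw [Complex.real_smul]; ring

private theorem regD2_test (R : ℝ) (hR : 0 < R) : ∃ χ : ℂ → ℂ, Test univ χ ∧
    (∀ z, ‖z‖ ≤ R → χ z = 1) ∧ SuppIn (R + 1) χ := by
  let b : ContDiffBump (0 : ℂ) := ⟨R, R + 1, hR, by linarith⟩
  refine ⟨fun z => (b z : ℂ), ⟨Complex.ofRealCLM.contDiff.comp b.contDiff, ?_, subset_univ _⟩,
    ?_, ?_⟩
  · exact b.hasCompactSupport.comp_left (g := fun x : ℝ => (x : ℂ)) (by simp)
  · intro z hz
    have : b z = 1 := b.one_of_mem_closedBall (by simpa [b] using hz)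
    simp [this]
  · intro z hz
    have : b z = 0 := b.zero_of_le_dist (by simpa [b] using hz)
    simp [this]

private theorem regD2_cpt {F F₁ F₁₂ : ℂ → ℂ} (hF : MemLp F 2 (volume : Measure ℂ))
    (hF1 : MemLp F₁ 2 (volume : Measure ℂ)) (hF12 : MemLp F₁₂ 2 (volume : Measure ℂ))
    (w1 : WkD 1 F F₁) (w12 : WkD I F₁ F₁₂) {R : ℝ} (hR : 0 < R) (hs : SuppIn R F) :
    ∃ g : ℂ → ℂ, Continuous g ∧ F =ᵐ[volume] g := by
  obtain ⟨ρ, hρ⟩ := EBC.exists_moll
  have hFl : LocallyIntegrable F volume := hF.locallyIntegrable (by norm_num)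
  have hF1l : LocallyIntegrable F₁ volume := hF1.locallyIntegrable (by norm_num)
  have hF12l : LocallyIntegrable F₁₂ volume := hF12.locallyIntegrable (by norm_num)
  have hsm : ∀ {k : ℂ → ℂ}, LocallyIntegrable k volume → ∀ n, ContDiff ℝ ∞ (EBC.mol (ρ n) k) := by
    intro k hk n
    rw [EBC.mol_eq_conv]
    exact (hρ.hcs n).contDiff_convolution_left _ (hρ.smooth n) hk
  have hd1 : ∀ n z, fderiv ℝ (EBC.mol (ρ n) F) z 1 = EBC.mol (ρ n) F₁ z := fun n z =>
    EBC.mol_deriv hρ hFl hF1l (regD2_weak w1) n z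
  have hd2 : ∀ n z, fderiv ℝ (EBC.mol (ρ n) F₁) z I = EBC.mol (ρ n) F₁₂ z := fun n z =>
    EBC.mol_deriv hρ hF1l hF12l (regD2_weak w12) n z
  have hz0 : ∀ z, z ∉ closedBall (0 : ℂ) R → F z = 0 := by
    intro z hz
    apply hs
    rw [mem_closedBall, dist_zero_right, not_le] at hz
    exact hz.le
  have hsupp : ∀ n, SuppIn (R + 2) (EBC.mol (ρ n) F) := by
    intro n z hz
    apply EBC.mol_zero_out hρ hz0
    rw [mem_closedBall, dist_zero_right, not_le]
    linarith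
  let J : ℕ → ℕ → ℝ≥0∞ := fun n m =>
    eLpNorm (fun z => EBC.mol (ρ n) F₁₂ z - EBC.mol (ρ m) F₁₂ z) 2 volume
  have hmeas : ∀ n, AEStronglyMeasurable (EBC.mol (ρ n) F₁₂) volume := fun n =>
    (hsm hF12l n).continuous.aestronglyMeasurable
  have hJle : ∀ n m, J n m ≤ eLpNorm (fun z => F₁₂ z - EBC.mol (ρ n) F₁₂ z) 2 volume +
      eLpNorm (fun z => F₁₂ z - EBC.mol (ρ m) F₁₂ z) 2 volume := by
    intro n m
    have h1 : (fun z => EBC.mol (ρ n) F₁₂ z - EBC.mol (ρ m) F₁₂ z) =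
        (fun z => F₁₂ z - EBC.mol (ρ m) F₁₂ z) - (fun z => F₁₂ z - EBC.mol (ρ n) F₁₂ z) := by
      funext z
      simp only [Pi.sub_apply]
      ring
    show eLpNorm (fun z => EBC.mol (ρ n) F₁₂ z - EBC.mol (ρ m) F₁₂ z) 2 volume ≤ _
    rw [h1, add_comm]
    exact eLpNorm_sub_le (hF12.aestronglyMeasurable.sub (hmeas m))
      (hF12.aestronglyMeasurable.sub (hmeas n)) (by norm_num)
  have hJ0 := EBC.mol_eLpNorm_tendsto hρ hF12
  have hJfin : ∀ n, eLpNorm (fun z => F₁₂ z - EBC.mol (ρ n) F₁₂ z) 2 volume < ⊤ := by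
    intro n
    have h1 : MemLp (EBC.mol (ρ n) F₁₂) 2 volume := by
      refine ⟨hmeas n, ?_⟩
      exact (EBC.mol_eLpNorm_le (hρ.nonneg n) (hρ.integrable n) (hρ.int_one n)
        hF12.aestronglyMeasurable).trans_lt hF12.2
    exact (hF12.sub h1).2
  -- the sup norm of the difference
  have hsup : ∀ n m z, ‖EBC.mol (ρ n) F z - EBC.mol (ρ m) F z‖ ≤
      2 * (R + 2) * (J n m).toReal := by
    intro n m z
    have hc : ContDiff ℝ 2 (fun z => EBC.mol (ρ n) F z - EBC.mol (ρ m) F z) :=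
      ((hsm hFl n).sub (hsm hFl m)).of_le (by norm_cast)
    have h1 := sup_le_L2 hc (R := R + 2) (by linarith) (by
      intro w hw
      show EBC.mol (ρ n) F w - EBC.mol (ρ m) F w = 0
      rw [hsupp n w hw, hsupp m w hw, sub_zero]) z
    have e1 : (fun x => fderiv ℝ (fun z => EBC.mol (ρ n) F z - EBC.mol (ρ m) F z) x 1) =
        fun x => EBC.mol (ρ n) F₁ x - EBC.mol (ρ m) F₁ x := by
      funext x
      rw [fderiv_fun_sub ((hsm hFl n).differentiable (by simp) x)
        ((hsm hFl m).differentiable (by simp) x)]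
      rw [← hd1, ← hd1]
      rfl
    have e2 : ∀ w, fderiv ℝ (fun x => fderiv ℝ
        (fun z => EBC.mol (ρ n) F z - EBC.mol (ρ m) F z) x 1) w I =
        EBC.mol (ρ n) F₁₂ w - EBC.mol (ρ m) F₁₂ w := by
      intro w
      rw [e1, fderiv_fun_sub ((hsm hF1l n).differentiable (by simp) w)
        ((hsm hF1l m).differentiable (by simp) w), ← hd2, ← hd2]
      rfl
    simp only [e2] at h1
    refine h1.trans (le_of_eq ?_)
    congr 1
    have e3 : eLpNorm (fun z => EBC.mol (ρ n) F₁₂ z - EBC.mol (ρ m) F₁₂ z) 2 volume =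
        ENNReal.ofReal ((∫ w, ‖EBC.mol (ρ n) F₁₂ w - EBC.mol (ρ m) F₁₂ w‖ ^ 2) ^ (1 / 2 : ℝ)) := by
      have hm : MemLp (fun z => EBC.mol (ρ n) F₁₂ z - EBC.mol (ρ m) F₁₂ z) 2 volume := by
        refine ⟨(hmeas n).sub (hmeas m), ?_⟩
        exact (hJle n m).trans_lt (ENNReal.add_lt_top.2 ⟨hJfin n, hJfin m⟩)
      rw [hm.eLpNorm_eq_integral_rpow_norm (by norm_num) (by norm_num)]
      simp
    show _ = (eLpNorm (fun z => EBC.mol (ρ n) F₁₂ z - EBC.mol (ρ m) F₁₂ z) 2 volume).toReal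
    rw [e3, ENNReal.toReal_ofReal (by positivity)]
  -- uniformly Cauchy
  have hcau : UniformCauchySeqOn (fun n => EBC.mol (ρ n) F) atTop univ := by
    rw [Metric.uniformCauchySeqOn_iff]
    intro ε hε
    have hδ : 0 < ε / (2 * (2 * (R + 2) + 1)) := by positivity
    have h1 := (ENNReal.tendsto_nhds_zero.1 hJ0) (ENNReal.ofReal (ε / (2 * (2 * (R + 2) + 1))))
      (ENNReal.ofReal_pos.2 hδ)
    obtain ⟨N, hN⟩ := eventually_atTop.1 h1
    refine ⟨N, fun n hn m hm z _ => ?_⟩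
    rw [dist_eq_norm]
    have h2 : (J n m).toReal ≤ 2 * (ε / (2 * (2 * (R + 2) + 1))) := by
      have h3 : J n m ≤ ENNReal.ofReal (2 * (ε / (2 * (2 * (R + 2) + 1)))) := by
        rw [two_mul (ε / (2 * (2 * (R + 2) + 1))), ENNReal.ofReal_add hδ.le hδ.le]
        exact (hJle n m).trans (add_le_add (hN n hn) (hN m hm))
      have h4 := ENNReal.toReal_mono ENNReal.ofReal_ne_top h3
      rwa [ENNReal.toReal_ofReal (by positivity)] at h4
    have h5 : 2 * (ε / (2 * (2 * (R + 2) + 1))) = ε / (2 * (R + 2) + 1) := by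
      field_simp
    calc ‖EBC.mol (ρ n) F z - EBC.mol (ρ m) F z‖ ≤ 2 * (R + 2) * (J n m).toReal := hsup n m z
      _ ≤ 2 * (R + 2) * (ε / (2 * (R + 2) + 1)) := by
          rw [← h5]
          exact mul_le_mul_of_nonneg_left h2 (by positivity)
      _ < ε := by
          rw [mul_div_assoc', div_lt_iff₀ (by positivity)]
          nlinarith
  have hpt : ∀ z, ∃ a, Tendsto (fun n => EBC.mol (ρ n) F z) atTop (𝓝 a) := fun z =>
    cauchySeq_tendsto_of_complete (hcau.cauchySeq (mem_univ z))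
  choose g hg using hpt
  have hunif : TendstoUniformlyOn (fun n => EBC.mol (ρ n) F) g atTop univ :=
    hcau.tendstoUniformlyOn_of_tendsto fun z _ => hg z
  rw [tendstoUniformlyOn_univ] at hunif
  refine ⟨g, hunif.continuous (Eventually.of_forall fun n => (hsm hFl n).continuous).frequently,
    ?_⟩
  have hmeasu : TendstoInMeasure volume (fun n => EBC.mol (ρ n) F) atTop F := by
    refine tendstoInMeasure_of_tendsto_eLpNorm (p := 2) (by norm_num)
      (fun n => (hsm hFl n).continuous.aestronglyMeasurable) hF.aestronglyMeasurable ?_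
    have h1 := EBC.mol_eLpNorm_tendsto hρ hF
    refine h1.congr fun n => ?_
    rw [← eLpNorm_neg]
    congr 1
    funext z
    simp
  obtain ⟨ns, hns, hae⟩ := hmeasu.exists_seq_tendsto_ae
  filter_upwards [hae] with z hz
  exact tendsto_nhds_unique hz ((hg z).comp hns.tendsto_atTop)

/-- continuity -/
private theorem regD2_cont {f : ℂ → ℂ} (h : Sob 2 f) :
    ∃ g : ℂ → ℂ, Continuous g ∧ f =ᵐ[volume] g := by
  have hN : ∀ N : ℕ, ∃ g : ℂ → ℂ, Continuous g ∧ ∀ᵐ z, ‖z‖ ≤ (N : ℝ) + 1 → f z = g z := by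
    intro N
    obtain ⟨χ, hχ, hχ1, hχ2⟩ := regD2_test ((N : ℝ) + 1) (by positivity)
    obtain ⟨hF, F₁, F₂, hF1, hF2, w1, w2⟩ := Sob.test_mul hχ h
    obtain ⟨hF1m, F₁₁, F₁₂, h11, h12, w11, w12⟩ := hF1
    obtain ⟨g, hg, hgae⟩ := regD2_cpt hF hF1m h12 w1 w12 (R := (N : ℝ) + 1 + 1) (by positivity) (by
      intro z hz
      show χ z * f z = 0
      rw [hχ2 z hz, zero_mul])
    refine ⟨g, hg, ?_⟩
    filter_upwards [hgae] with z hz hzN
    rw [← hz, hχ1 z hzN, one_mul]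
  choose G hGc hG using hN
  have hagree : ∀ N M : ℕ, N ≤ M → ∀ z, ‖z‖ < (N : ℝ) + 1 → G N z = G M z := by
    intro N M hNM z hz
    have hU : IsOpen (ball (0 : ℂ) ((N : ℝ) + 1)) := isOpen_ball
    have h1 : G N =ᵐ[volume.restrict (ball (0 : ℂ) ((N : ℝ) + 1))] G M := by
      rw [Filter.EventuallyEq, ae_restrict_iff' measurableSet_ball]
      filter_upwards [hG N, hG M] with w h1 h2 hw
      rw [mem_ball_zero_iff] at hw
      have h3 : (N : ℝ) ≤ M := by exact_mod_cast hNM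
      rw [← h1 hw.le, ← h2 (by linarith)]
    exact Measure.eqOn_open_of_ae_eq h1 hU (hGc N).continuousOn (hGc M).continuousOn
      (mem_ball_zero_iff.2 hz)
  have hfl : ∀ z : ℂ, ‖z‖ < (⌊‖z‖⌋₊ : ℝ) + 1 := fun z => Nat.lt_floor_add_one _
  refine ⟨fun z => G ⌊‖z‖⌋₊ z, ?_, ?_⟩
  · rw [continuous_iff_continuousAt]
    intro z
    have h1 : (fun z => G ⌊‖z‖⌋₊ z) =ᶠ[𝓝 z] G (⌊‖z‖⌋₊ + 1) := by
      have h2 : ball (0 : ℂ) ((⌊‖z‖⌋₊ : ℝ) + 1) ∈ 𝓝 z :=
        isOpen_ball.mem_nhds (mem_ball_zero_iff.2 (hfl z))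
      filter_upwards [h2] with w hw
      rw [mem_ball_zero_iff] at hw
      apply hagree _ _ _ w (hfl w)
      have h3 : (⌊‖w‖⌋₊ : ℝ) < (⌊‖z‖⌋₊ : ℝ) + 1 := (Nat.floor_le (norm_nonneg w)).trans_lt hw
      have h4 : ⌊‖w‖⌋₊ < ⌊‖z‖⌋₊ + 1 := by exact_mod_cast h3
      omega
    exact (hGc _).continuousAt.congr h1.symm
  · have h1 : ∀ᵐ z, ∀ N : ℕ, ‖z‖ ≤ (N : ℝ) + 1 → f z = G N z := ae_all_iff.2 hG
    filter_upwards [h1] with z hz
    exact hz _ (hfl z).le

/-- mollification of continuous functions converges locally uniformly -/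
private theorem regD2_unif {ρ : ℕ → ℂ → ℝ} (hρ : EBC.Moll ρ) {G : ℂ → ℂ} (hG : Continuous G)
    (R : ℝ) : TendstoUniformlyOn (fun n => EBC.mol (ρ n) G) G atTop (ball 0 R) := by
  rw [Metric.tendstoUniformlyOn_iff]
  intro ε hε
  have huc := (isCompact_closedBall (0 : ℂ) (R + 1)).uniformContinuousOn_of_continuous
    hG.continuousOn
  rw [Metric.uniformContinuousOn_iff] at huc
  obtain ⟨η, hη, hη'⟩ := huc (ε / 2) (by positivity)
  have ht : Tendsto (fun n : ℕ => 1 / ((n : ℝ) + 1)) atTop (𝓝 0) :=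
    tendsto_one_div_add_atTop_nhds_zero_nat
  filter_upwards [ht.eventually_lt_const (lt_min hη zero_lt_one)] with n hn z hz
  have h1 := dist_convolution_le (μ := volume) (f := ρ n) (g := G) (x₀ := z) (R := min η 1)
    (ε := ε / 2) (z₀ := G z) (by positivity) (by
      intro w hw
      have := hρ.supp n (subset_tsupport _ hw)
      rw [Metric.mem_closedBall] at this
      exact Metric.mem_ball.2 (this.trans_lt hn)) (hρ.nonneg n) (hρ.int_one n)
    hG.aestronglyMeasurable (by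
      intro x hx
      rw [mem_ball] at hx
      rw [mem_ball_zero_iff] at hz
      have hx1 : dist x z < 1 := hx.trans_le (min_le_right _ _)
      refine (hη' x ?_ z ?_ (hx.trans_le (min_le_left _ _))).le
      · rw [mem_closedBall, dist_zero_right]
        calc ‖x‖ = ‖z + (x - z)‖ := by ring_nf
          _ ≤ ‖z‖ + ‖x - z‖ := norm_add_le _ _
          _ ≤ R + 1 := by rw [← dist_eq_norm]; linarith
      · rw [mem_closedBall, dist_zero_right]
        linarith)
  rw [EBC.mol_eq_conv, dist_comm]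
  exact h1.trans_lt (half_lt_self hε)

/-- the real linear map with given values at `1` and `I` -/
private noncomputable def regD2_L (a b : ℂ) : ℂ →L[ℝ] ℂ :=
  Complex.reCLM.smulRight a + Complex.imCLM.smulRight b

private theorem regD2_L_eq (A : ℂ →L[ℝ] ℂ) : A = regD2_L (A 1) (A I) := by
  ext z
  have h1 : z = z.re • (1 : ℂ) + z.im • I := by
    apply Complex.ext <;> simp
  show A z = z.re • A 1 + z.im • A I
  conv_lhs => rw [h1]
  rw [map_add, map_smul, map_smul]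

private theorem regD2_L_norm (a b : ℂ) : ‖regD2_L a b‖ ≤ ‖a‖ + ‖b‖ := by
  refine ContinuousLinearMap.opNorm_le_bound _ (by positivity) fun z => ?_
  show ‖z.re • a + z.im • b‖ ≤ _
  calc ‖z.re • a + z.im • b‖ ≤ ‖z.re • a‖ + ‖z.im • b‖ := norm_add_le _ _
    _ = |z.re| * ‖a‖ + |z.im| * ‖b‖ := by rw [norm_smul, norm_smul, Real.norm_eq_abs,
        Real.norm_eq_abs]
    _ ≤ ‖z‖ * ‖a‖ + ‖z‖ * ‖b‖ := by
        gcongr
        · exact Complex.abs_re_le_norm z
        · exact Complex.abs_im_le_norm z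
    _ = (‖a‖ + ‖b‖) * ‖z‖ := by ring

private theorem regD2_L_sub (a b c d : ℂ) :
    regD2_L a b - regD2_L c d = regD2_L (a - c) (b - d) := by
  ext z
  show (z.re • a + z.im • b) - (z.re • c + z.im • d) = z.re • (a - c) + z.im • (b - d)
  rw [smul_sub, smul_sub]
  abel

/-- a continuous function with continuous weak derivatives is differentiable -/
private theorem regD2_diff {F G₁ G₂ : ℂ → ℂ} (hF : Continuous F) (h1 : Continuous G₁)
    (h2 : Continuous G₂) (w1 : WkD 1 F G₁) (w2 : WkD I F G₂) (z : ℂ) :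
    HasFDerivAt F (regD2_L (G₁ z) (G₂ z)) z := by
  obtain ⟨ρ, hρ⟩ := EBC.exists_moll
  have hsm : ∀ {k : ℂ → ℂ}, Continuous k → ∀ n, ContDiff ℝ ∞ (EBC.mol (ρ n) k) := by
    intro k hk n
    rw [EBC.mol_eq_conv]
    exact (hρ.hcs n).contDiff_convolution_left _ (hρ.smooth n) hk.locallyIntegrable
  have hz : z ∈ ball (0 : ℂ) (‖z‖ + 1) := mem_ball_zero_iff.2 (lt_add_one _)
  refine hasFDerivAt_of_tendstoUniformlyOn (l := atTop) (s := ball (0 : ℂ) (‖z‖ + 1)) isOpen_ball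
    (f := fun n => EBC.mol (ρ n) F) (f' := fun n x => fderiv ℝ (EBC.mol (ρ n) F) x)
    (g' := fun x => regD2_L (G₁ x) (G₂ x)) ?_ ?_ ?_ hz
  · have u1 := regD2_unif hρ h1 (‖z‖ + 1)
    have u2 := regD2_unif hρ h2 (‖z‖ + 1)
    rw [Metric.tendstoUniformlyOn_iff] at u1 u2 ⊢
    intro ε hε
    filter_upwards [u1 (ε / 2) (by positivity), u2 (ε / 2) (by positivity)] with n hn1 hn2 x hx
    have e1 := hn1 x hx
    have e2 := hn2 x hx
    rw [dist_eq_norm] at e1 e2 ⊢
    rw [regD2_L_eq (fderiv ℝ (EBC.mol (ρ n) F) x),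
      EBC.mol_deriv hρ hF.locallyIntegrable h1.locallyIntegrable (regD2_weak w1) n x,
      EBC.mol_deriv hρ hF.locallyIntegrable h2.locallyIntegrable (regD2_weak w2) n x,
      regD2_L_sub]
    refine (regD2_L_norm _ _).trans_lt ?_
    linarith
  · intro n x _
    exact ((hsm hF n).differentiable (by simp) x).hasFDerivAt
  · intro x hx
    exact (regD2_unif hρ hF (‖z‖ + 1)).tendsto_at hx

private theorem regD2_congr {e : ℂ} {f g f' g' : ℂ → ℂ} (h : WkD e f g) (hf : f =ᵐ[volume] f')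
    (hg : g =ᵐ[volume] g') : WkD e f' g' := by
  intro φ hφ
  have h1 : ∫ z, f' z * fderiv ℝ φ z e = ∫ z, f z * fderiv ℝ φ z e := by
    apply integral_congr_ae
    filter_upwards [hf] with z hz
    rw [hz]
  have h2 : ∫ z, g' z * φ z = ∫ z, g z * φ z := by
    apply integral_congr_ae
    filter_upwards [hg] with z hz
    rw [hz]
  rw [h1, h2]
  exact h φ hφ

private theorem regD2_ind (m : ℕ) : ∀ f : ℂ → ℂ, Sob (m + 2) f →
    ∃ g, ContDiff ℝ m g ∧ f =ᵐ[volume] g := by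
  induction m with
  | zero =>
    intro f hf
    obtain ⟨g, hg, hfg⟩ := regD2_cont hf
    exact ⟨g, by rw [Nat.cast_zero]; exact contDiff_zero.2 hg, hfg⟩
  | succ m ih =>
    intro f hf
    have hmono : ∀ k, ∀ f : ℂ → ℂ, Sob (k + 2) f → Sob 2 f := by
      intro k
      induction k with
      | zero => exact fun f h => h
      | succ k ihk =>
        intro f h
        exact ihk f (Sob.mono (m := k + 2) h)
    obtain ⟨g, hg, hfg⟩ := regD2_cont (hmono (m + 1) f hf)
    obtain ⟨-, g₁, g₂, hg1, hg2, w1, w2⟩ := hf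
    obtain ⟨G₁, hG1, hG1'⟩ := ih g₁ hg1
    obtain ⟨G₂, hG2, hG2'⟩ := ih g₂ hg2
    have hd := fun z => regD2_diff hg hG1.continuous hG2.continuous (regD2_congr w1 hfg hG1')
      (regD2_congr w2 hfg hG2') z
    refine ⟨g, ?_, hfg⟩
    rw [Nat.cast_succ, contDiff_succ_iff_fderiv]
    refine ⟨fun z => (hd z).differentiableAt, ?_, ?_⟩
    · intro h
      exact absurd h (by simp)
    · have h3 : fderiv ℝ g = fun z => regD2_L (G₁ z) (G₂ z) := by
        funext z
        exact (hd z).fderiv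
      rw [h3]
      unfold regD2_L
      exact (contDiff_const.smulRight hG1).add (contDiff_const.smulRight hG2)

theorem smooth_of_sob {f : ℂ → ℂ} (h : ∀ m, Sob m f) :
    ∃ g, ContDiff ℝ ∞ g ∧ f =ᵐ[volume] g := by
  obtain ⟨g, hg, hfg⟩ := regD2_ind 0 f (h 2)
  refine ⟨g, ?_, hfg⟩
  rw [contDiff_infty]
  intro m
  obtain ⟨g', hg', hfg'⟩ := regD2_ind m f (h (m + 2))
  have h1 : g = g' := by
    apply (Continuous.ae_eq_iff_eq volume hg.continuous hg'.continuous).1
    exact hfg.symm.trans hfg'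
  rw [h1]
  exact hg'

end QC
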