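import Pool.Agent.Work.MP_217185_an.RegC
import Pool.Agent.Work.MP_217185_an.RegD

/-! # Reg: smooth coefficients give smooth solutions

`exists_sol`, `sob_of_sol`, `smooth_of_sob`.  Since `h = μ T h + g` a.e., `h` vanishes a.e. off the
compact set `tsupport μ ∪ tsupport g`, so its continuous representative has compact support.
`T h = dz (Cau h)` a.e. (`Tf_cau`), both sides of the equation are continuous, so it holds
everywhere. -/

open MeasureTheory Complex Set Metric Filter
open scoped Topology ENNReal NNReal ContDiff ComplexConjugate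

namespace QC

theorem reg {k : ℝ} {μ g : ℂ → ℂ} (hμ : Bel k μ) (hμs : Test univ μ) (hg : Test univ g) :
    ∃ h, Test univ h ∧ ∀ z, h z = μ z * dz (Cau h) z + g z := by
  obtain ⟨h, hh, he, -⟩ := exists_sol hμ (g := g) hg.memLp
  have hs : ∀ m, Sob m h := fun m => sob_of_sol hμ hμs m (Sob.of_test hg) hh he
  obtain ⟨h', hc, hae⟩ := smooth_of_sob hs
  have hK : IsCompact (tsupport μ ∪ tsupport g) := hμs.cpt.union hg.cpt
  have h0 : EqOn h' (fun _ => 0) (tsupport μ ∪ tsupport g)ᶜ := by
    have h1 : h' =ᵐ[volume.restrict (tsupport μ ∪ tsupport g)ᶜ] fun _ => 0 := by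
      rw [Filter.EventuallyEq, ae_restrict_iff' hK.measurableSet.compl]
      filter_upwards [hae, he] with z h1 h2 hz
      rw [← h1, h2]
      rw [mem_compl_iff, mem_union, not_or] at hz
      rw [image_eq_zero_of_notMem_tsupport hz.1, image_eq_zero_of_notMem_tsupport hz.2, zero_mul,
        add_zero]
    exact Measure.eqOn_open_of_ae_eq h1 hK.isClosed.isOpen_compl hc.continuous.continuousOn
      continuousOn_const
  have hT : Test univ h' := ⟨hc, HasCompactSupport.intro hK fun z hz => h0 hz, subset_univ _⟩
  refine ⟨h', hT, ?_⟩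
  have hcc : Continuous fun z => μ z * dz (Cau h') z + g z :=
    (hμs.smooth.continuous.mul (contDiff_dz (cau_contDiff hT)).1.continuous).add
      hg.smooth.continuous
  have h2 : h' =ᵐ[volume] fun z => μ z * dz (Cau h') z + g z := by
    filter_upwards [hae, he, Tf_cau hT] with z h1 h2 h3
    rw [← h1, h2, Tf_congr hae, h3]
  have h3 := (Continuous.ae_eq_iff_eq volume hc.continuous hcc).1 h2
  intro z
  exact congrFun h3 z

end QC
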