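import Pool.Agent.Work.MP_217185_an.Solve

/-! # Reg0: Sobolev classes and translations (definitions) -/

open MeasureTheory Complex Set Metric Filter
open scoped Topology ENNReal NNReal ContDiff ComplexConjugate

namespace QC

/-- `g` is the weak derivative of `f` in direction `e`. -/
def WkD (e : ℂ) (f g : ℂ → ℂ) : Prop :=
  ∀ φ, Test univ φ → ∫ z, f z * fderiv ℝ φ z e = - ∫ z, g z * φ z

/-- all weak derivatives up to order `m` are in `L²`. -/
def Sob : ℕ → (ℂ → ℂ) → Prop
  | 0, f => MemLp f 2 (volume : Measure ℂ)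
  | m + 1, f => MemLp f 2 (volume : Measure ℂ) ∧
      ∃ g₁ g₂, Sob m g₁ ∧ Sob m g₂ ∧ WkD 1 f g₁ ∧ WkD I f g₂

end QC
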