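import Pool.Agent.Work.MP_217185_an.Reg0

/-! # RegA: translations

`T` commutes with translations: for test functions `Cau (g(· + v)) = (Cau g)(· + v)`, `Tf_cau`; then
density (`exists_test_L2`, `eLpNorm_Tf`, `Tf_sub`). -/

open MeasureTheory Complex Set Metric Filter
open scoped Topology ENNReal NNReal ContDiff ComplexConjugate

namespace QC

private theorem ae_translate {f g : ℂ → ℂ} (h : f =ᵐ[volume] g) (v : ℂ) :
    (fun z => f (z + v)) =ᵐ[volume] fun z => g (z + v) :=
  (measurePreserving_add_right (volume : Measure ℂ) v).quasiMeasurePreserving.ae_eq_comp h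

private theorem memLp_translate {f : ℂ → ℂ} (hf : MemLp f 2 (volume : Measure ℂ)) (v : ℂ) :
    MemLp (fun z => f (z + v)) 2 (volume : Measure ℂ) :=
  hf.comp_measurePreserving (measurePreserving_add_right (volume : Measure ℂ) v)

private theorem eLpNorm_translate {f : ℂ → ℂ} (hf : AEStronglyMeasurable f (volume : Measure ℂ))
    (v : ℂ) : eLpNorm (fun z => f (z + v)) 2 (volume : Measure ℂ) = eLpNorm f 2 volume :=
  eLpNorm_comp_measurePreserving hf (measurePreserving_add_right (volume : Measure ℂ) v)

private theorem test_translate {g : ℂ → ℂ} (hg : Test univ g) (v : ℂ) :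
    Test univ (fun z => g (z + v)) := by
  refine ⟨hg.smooth.comp (contDiff_id.add contDiff_const), ?_, subset_univ _⟩
  exact hg.cpt.comp_homeomorph (Homeomorph.addRight v)

private theorem dz_translate (f : ℂ → ℂ) (v z : ℂ) :
    dz (fun z => f (z + v)) z = dz f (z + v) := by
  unfold dz
  rw [fderiv_comp_add_right]

private theorem cau_translate (g : ℂ → ℂ) (v z : ℂ) :
    Cau (fun z => g (z + v)) z = Cau g (z + v) := by
  unfold Cau
  congr 1
  rw [← integral_add_right_eq_self (fun ζ => g ζ / (z + v - ζ)) v]
  refine integral_congr_ae (Eventually.of_forall fun ζ => ?_)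
  simp only
  congr 1
  ring

theorem Tf_translate {f : ℂ → ℂ} (hf : MemLp f 2 (volume : Measure ℂ)) (v : ℂ) :
    Tf (fun z => f (z + v)) =ᵐ[volume] fun z => Tf f (z + v) := by
  obtain ⟨F, hF, hlim⟩ := exists_test_L2 hf
  have hfv := memLp_translate hf v
  have h1 : ∀ n, Tf (fun z => F n (z + v)) =ᵐ[volume] fun z => Tf (F n) (z + v) := by
    intro n
    have e1 := Tf_cau (test_translate (hF n) v)
    have e2 := ae_translate (Tf_cau (hF n)) v
    have e3 : dz (Cau fun z => F n (z + v)) = fun z => dz (Cau (F n)) (z + v) := by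
      have e4 : Cau (fun z => F n (z + v)) = fun z => Cau (F n) (z + v) :=
        funext (cau_translate (F n) v)
      rw [e4]
      funext z
      exact dz_translate _ v z
    rw [e3] at e1
    exact e1.trans e2.symm
  have hmT : MemLp (Tf f) 2 (volume : Measure ℂ) := memLp_Tf hf
  have h2 : ∀ n, eLpNorm (fun z => Tf (fun z => f (z + v)) z - Tf f (z + v)) 2 volume ≤
      eLpNorm (fun z => F n z - f z) 2 volume + eLpNorm (fun z => F n z - f z) 2 volume := by
    intro n
    have hFn : MemLp (F n) 2 (volume : Measure ℂ) := (hF n).memLp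
    have hFv := memLp_translate hFn v
    have e1 : (fun z => Tf (fun z => f (z + v)) z - Tf f (z + v)) =ᵐ[volume]
        fun z => -(Tf (fun z => F n (z + v) - f (z + v)) z) +
          (Tf (fun z => F n z - f z) (z + v)) := by
      have a1 := Tf_sub hFv hfv
      have a2 := ae_translate (Tf_sub hFn hf) v
      filter_upwards [a1, a2, h1 n] with z b1 b2 b3
      rw [b1, b2, b3]
      ring
    rw [eLpNorm_congr_ae e1]
    refine (eLpNorm_add_le ?_ ?_ (by norm_num)).trans ?_
    · exact (memLp_Tf (hFv.sub hfv)).1.neg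
    · exact (memLp_translate (memLp_Tf (hFn.sub hf)) v).1
    · refine add_le_add (le_of_eq ?_) (le_of_eq ?_)
      · have a3 : eLpNorm (fun z => -(Tf (fun z => F n (z + v) - f (z + v)) z)) 2
            (volume : Measure ℂ) = eLpNorm (Tf (fun z => F n (z + v) - f (z + v))) 2 volume :=
          eLpNorm_neg _ _ _
        refine (a3.trans (eLpNorm_Tf (f := fun z => F n (z + v) - f (z + v))
          (hFv.sub hfv))).trans ?_
        exact eLpNorm_translate (f := fun z => F n z - f z) (hFn.sub hf).1 v
      · have a4 := eLpNorm_translate (memLp_Tf (hFn.sub hf)).1 v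
        refine a4.trans ?_
        exact eLpNorm_Tf (hFn.sub hf)
  have h3 : eLpNorm (fun z => Tf (fun z => f (z + v)) z - Tf f (z + v)) 2 volume = 0 := by
    have h4 := hlim.add hlim
    rw [add_zero] at h4
    exact le_antisymm (ge_of_tendsto' h4 h2) bot_le
  have h5 := (eLpNorm_eq_zero_iff ((memLp_Tf hfv).1.sub (memLp_translate hmT v).1)
    (by norm_num)).1 h3
  filter_upwards [h5] with z hz
  exact sub_eq_zero.1 hz

end QC
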