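import Pool.Agent.Work.MP_217185_an.Reg0
import Pool.Agent.Work.MP_ebc928_an.Mollify

/-! # RegB1: basic properties of the Sobolev classes

`exists_test_sob`: mollify and cut off (`χ(·/n) (ρ_n * f)`), `f` and its two weak derivatives are in
`L²`.  `WkD.Tf`: for a test function `F`, `T (∂_e F) = ∂_e (dz (Cau F))` (`Cau` commutes with
derivatives), integrate by parts against a test function, pass to the limit with `exists_test_sob`
and `eLpNorm_Tf`. -/

open MeasureTheory Complex Set Metric Filter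
open scoped Topology ENNReal NNReal ContDiff ComplexConjugate

namespace QC

/-- the two notions of weak derivative -/
private theorem regB1_weak {e : ℂ} {f g : ℂ → ℂ} (h : WkD e f g) : EBC.WeakDeriv e f g := by
  intro φ hφ hc
  have hT : Test univ (fun z => ((φ z : ℝ) : ℂ)) := by
    refine ⟨?_, ?_, subset_univ _⟩
    · exact Complex.ofRealCLM.contDiff.comp hφ
    · exact hc.comp_left (g := fun x : ℝ => (x : ℂ)) (by simp)
  have h1 := h _ hT
  have h2 : ∀ z, fderiv ℝ (fun z => ((φ z : ℝ) : ℂ)) z e = ((fderiv ℝ φ z e : ℝ) : ℂ) := by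
    intro z
    have hd : HasFDerivAt φ (fderiv ℝ φ z) z := (hφ.differentiable (by simp) z).hasFDerivAt
    have := (Complex.ofRealCLM.hasFDerivAt.comp z hd).fderiv
    have h3 : (⇑Complex.ofRealCLM ∘ φ) = fun z => ((φ z : ℝ) : ℂ) := rfl
    rw [h3] at this
    rw [this]
    rfl
  simp only [h2] at h1
  have e1 : ∀ z, (fderiv ℝ φ z e) • f z = f z * ((fderiv ℝ φ z e : ℝ) : ℂ) := by
    intro z; rw [Complex.real_smul, mul_comm]
  have e2 : ∀ z, φ z • g z = g z * ((φ z : ℝ) : ℂ) := by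
    intro z; rw [Complex.real_smul, mul_comm]
  simp only [e1, e2]
  exact h1

/-- a sequence of cutoff functions -/
private theorem regB1_cutoff : ∃ (χ : ℕ → ℂ → ℂ) (C : ℝ), 0 ≤ C ∧ (∀ n, Test univ (χ n)) ∧
    (∀ n z, ‖χ n z‖ ≤ 1) ∧ (∀ n z, ‖χ n z - 1‖ ≤ 1) ∧ (∀ (n : ℕ) z, ‖z‖ ≤ (n : ℝ) + 1 → χ n z = 1) ∧
    (∀ (n : ℕ) z (e : ℂ), ‖e‖ ≤ 1 → ‖fderiv ℝ (χ n) z e‖ ≤ C / ((n : ℝ) + 1)) := by
  let b : ContDiffBump (0 : ℂ) := ⟨1, 2, by norm_num, by norm_num⟩
  have hbs : ContDiff ℝ ∞ (fun z : ℂ => ((b z : ℝ) : ℂ)) :=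
    Complex.ofRealCLM.contDiff.comp b.contDiff
  have hbc : HasCompactSupport (fun z : ℂ => ((b z : ℝ) : ℂ)) :=
    b.hasCompactSupport.comp_left (g := fun x : ℝ => (x : ℂ)) (by simp)
  set B : ℂ → ℂ := fun z : ℂ => ((b z : ℝ) : ℂ) with hB
  have hfc : Continuous (fderiv ℝ B) := hbs.continuous_fderiv (by simp)
  obtain ⟨C, hC⟩ := (hbc.fderiv ℝ).exists_bound_of_continuous hfc
  have hC0 : 0 ≤ C := (norm_nonneg _).trans (hC 0)
  have hn : ∀ n : ℕ, (0:ℝ) < (n : ℝ) + 1 := fun n => by positivity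
  have hlin : ∀ (n : ℕ), ContDiff ℝ ∞ (fun z : ℂ => (((n : ℝ) + 1)⁻¹ : ℝ) • z) := fun n =>
    contDiff_id.const_smul _
  refine ⟨fun n z => B ((((n : ℝ) + 1)⁻¹ : ℝ) • z), C, hC0, ?_, ?_, ?_, ?_, ?_⟩
  · intro n
    refine ⟨hbs.comp (hlin n), ?_, subset_univ _⟩
    have h1 : (fun z : ℂ => B ((((n : ℝ) + 1)⁻¹ : ℝ) • z)) =
        B ∘ (Homeomorph.smulOfNeZero (((n : ℝ) + 1)⁻¹ : ℝ) (inv_ne_zero (hn n).ne')) := rfl
    beta_reduce
    rw [h1]
    exact hbc.comp_homeomorph _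
  · intro n z
    simp only [hB, Complex.norm_real, Real.norm_eq_abs, abs_of_nonneg b.nonneg]
    exact b.le_one
  · intro n z
    have h1 : B ((((n : ℝ) + 1)⁻¹ : ℝ) • z) - 1 =
        ((b ((((n : ℝ) + 1)⁻¹ : ℝ) • z) - 1 : ℝ) : ℂ) := by simp [hB]
    rw [h1, Complex.norm_real, Real.norm_eq_abs, abs_le]
    have h2 := b.nonneg (x := (((n : ℝ) + 1)⁻¹ : ℝ) • z)
    have h3 := b.le_one (x := (((n : ℝ) + 1)⁻¹ : ℝ) • z)
    constructor <;> linarith
  · intro n z hz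
    have h1 : b ((((n : ℝ) + 1)⁻¹ : ℝ) • z) = 1 := by
      apply b.one_of_mem_closedBall
      rw [mem_closedBall_zero_iff, norm_smul, Real.norm_eq_abs, abs_of_pos (inv_pos.mpr (hn n))]
      show ((n : ℝ) + 1)⁻¹ * ‖z‖ ≤ 1
      rw [inv_mul_le_iff₀ (hn n)]
      linarith
    show ((b ((((n : ℝ) + 1)⁻¹ : ℝ) • z) : ℝ) : ℂ) = 1
    rw [h1, Complex.ofReal_one]
  · intro n z e he
    have hd : HasFDerivAt B (fderiv ℝ B ((((n : ℝ) + 1)⁻¹ : ℝ) • z)) ((((n : ℝ) + 1)⁻¹ : ℝ) • z) :=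
      (hbs.differentiable (by simp) _).hasFDerivAt
    have hl : HasFDerivAt (fun z : ℂ => (((n : ℝ) + 1)⁻¹ : ℝ) • z)
        ((((n : ℝ) + 1)⁻¹ : ℝ) • ContinuousLinearMap.id ℝ ℂ) z :=
      (hasFDerivAt_id (𝕜 := ℝ) z).const_smul (((n : ℝ) + 1)⁻¹ : ℝ)
    have h1 := (hd.comp z hl).fderiv
    have h2 : (B ∘ fun z : ℂ => (((n : ℝ) + 1)⁻¹ : ℝ) • z) =
        fun z : ℂ => B ((((n : ℝ) + 1)⁻¹ : ℝ) • z) := rfl
    rw [h2] at h1
    rw [h1]
    simp only [ContinuousLinearMap.comp_smulₛₗ, ContinuousLinearMap.comp_id]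
    rw [_root_.smul_apply, norm_smul]
    simp only [RingHom.id_apply]
    rw [Real.norm_eq_abs, abs_of_pos (inv_pos.mpr (hn n))]
    calc ((n : ℝ) + 1)⁻¹ * ‖fderiv ℝ B ((((n : ℝ) + 1)⁻¹ : ℝ) • z) e‖
        ≤ ((n : ℝ) + 1)⁻¹ * (‖fderiv ℝ B ((((n : ℝ) + 1)⁻¹ : ℝ) • z)‖ * ‖e‖) := by
          gcongr
          exact ContinuousLinearMap.le_opNorm _ _
      _ ≤ ((n : ℝ) + 1)⁻¹ * (C * 1) := by
          gcongr
          exact hC _
      _ = C / ((n : ℝ) + 1) := by ring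

/-- `‖(χ_n - 1) g‖₂ → 0`. -/
private theorem regB1_cut_tendsto {χ : ℕ → ℂ → ℂ} (h1 : ∀ n z, ‖χ n z - 1‖ ≤ 1)
    (h2 : ∀ (n : ℕ) z, ‖z‖ ≤ (n : ℝ) + 1 → χ n z = 1) {g : ℂ → ℂ} (hg : MemLp g 2 (volume : Measure ℂ)) :
    Tendsto (fun n => eLpNorm (fun z => (χ n z - 1) * g z) 2 volume) atTop (𝓝 0) := by
  rw [ENNReal.tendsto_nhds_zero]
  intro ε hε
  obtain ⟨h, hs, hle, hcont, hmem⟩ := hg.exists_hasCompactSupport_eLpNorm_sub_le (by norm_num) hε.ne'
  obtain ⟨R, hR⟩ := hs.isCompact.isBounded.subset_closedBall (0 : ℂ)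
  obtain ⟨N, hN⟩ := exists_nat_ge R
  filter_upwards [eventually_ge_atTop N] with n hn
  have hz : ∀ z, (χ n z - 1) * h z = 0 := by
    intro z
    by_cases hz : z ∈ tsupport h
    · have h3 := hR hz
      rw [mem_closedBall_zero_iff] at h3
      have h4 : ‖z‖ ≤ (n : ℝ) + 1 := by
        have : (N : ℝ) ≤ n := by exact_mod_cast hn
        linarith
      rw [h2 n z h4, sub_self, zero_mul]
    · rw [image_eq_zero_of_notMem_tsupport hz, mul_zero]
  have heq : (fun z => (χ n z - 1) * g z) = fun z => (χ n z - 1) * (g - h) z := by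
    funext z
    rw [Pi.sub_apply, mul_sub, hz z, sub_zero]
  rw [heq]
  refine le_trans (eLpNorm_mono (g := g - h) ?_) hle
  intro z
  rw [norm_mul]
  calc ‖χ n z - 1‖ * ‖(g - h) z‖ ≤ 1 * ‖(g - h) z‖ := by gcongr; exact h1 n z
    _ = ‖(g - h) z‖ := one_mul _

theorem exists_test_sob {f g₁ g₂ : ℂ → ℂ} (hf : MemLp f 2 (volume : Measure ℂ))
    (h1 : MemLp g₁ 2 (volume : Measure ℂ)) (h2 : MemLp g₂ 2 (volume : Measure ℂ))
    (w1 : WkD 1 f g₁) (w2 : WkD I f g₂) :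
    ∃ F : ℕ → ℂ → ℂ, (∀ n, Test univ (F n)) ∧
      Tendsto (fun n => eLpNorm (fun z => F n z - f z) 2 volume) atTop (𝓝 0) ∧
      Tendsto (fun n => eLpNorm (fun z => fderiv ℝ (F n) z 1 - g₁ z) 2 volume) atTop (𝓝 0) ∧
      Tendsto (fun n => eLpNorm (fun z => fderiv ℝ (F n) z I - g₂ z) 2 volume) atTop (𝓝 0) := by
  obtain ⟨ρ, hρ⟩ := EBC.exists_moll
  obtain ⟨χ, C, hC0, hχt, hχ1, hχ2, hχ3, hχ4⟩ := regB1_cutoff
  have hloc : ∀ {g : ℂ → ℂ}, MemLp g 2 (volume : Measure ℂ) → LocallyIntegrable g volume :=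
    fun hg => hg.locallyIntegrable (by norm_num)
  have hms : ∀ n, ContDiff ℝ ∞ (EBC.mol (ρ n) f) := by
    intro n
    rw [EBC.mol_eq_conv]
    exact (hρ.hcs n).contDiff_convolution_left _ (hρ.smooth n) (hloc hf)
  have hmc : ∀ (g : ℂ → ℂ), MemLp g 2 (volume : Measure ℂ) → ∀ n, Continuous (EBC.mol (ρ n) g) := by
    intro g hg n
    rw [EBC.mol_eq_conv]
    exact ((hρ.hcs n).contDiff_convolution_left _ (hρ.smooth n) (hloc hg)).continuous
  have hχc : ∀ n, Continuous (χ n) := fun n => (hχt n).smooth.continuous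
  -- the product with the cutoff
  have key : ∀ (g : ℂ → ℂ), MemLp g 2 (volume : Measure ℂ) →
      Tendsto (fun n => eLpNorm (fun z => χ n z * EBC.mol (ρ n) g z - g z) 2 volume) atTop (𝓝 0) := by
    intro g hg
    have t1 := EBC.mol_eLpNorm_tendsto hρ hg
    have t2 := regB1_cut_tendsto hχ2 hχ3 hg
    have t3 := t1.add t2
    rw [add_zero] at t3
    refine tendsto_of_tendsto_of_tendsto_of_le_of_le tendsto_const_nhds t3 (fun n => bot_le) ?_
    intro n
    have m1 : AEStronglyMeasurable (fun z => χ n z * (EBC.mol (ρ n) g z - g z)) volume :=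
      (hχc n).aestronglyMeasurable.mul (((hmc g hg n).aestronglyMeasurable).sub hg.1)
    have m2 : AEStronglyMeasurable (fun z => (χ n z - 1) * g z) volume :=
      ((hχc n).sub continuous_const).aestronglyMeasurable.mul hg.1
    have e1 : (fun z => χ n z * EBC.mol (ρ n) g z - g z) =
        (fun z => χ n z * (EBC.mol (ρ n) g z - g z)) + (fun z => (χ n z - 1) * g z) := by
      funext z
      rw [Pi.add_apply]
      ring
    beta_reduce
    rw [e1]
    refine (eLpNorm_add_le m1 m2 (by norm_num)).trans ?_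
    gcongr
    apply eLpNorm_mono
    intro z
    rw [norm_mul, norm_sub_rev (EBC.mol (ρ n) g z)]
    calc ‖χ n z‖ * ‖g z - EBC.mol (ρ n) g z‖ ≤ 1 * ‖g z - EBC.mol (ρ n) g z‖ := by
          gcongr; exact hχ1 n z
      _ = _ := one_mul _
  -- the derivative
  have key2 : ∀ (e : ℂ) (g : ℂ → ℂ), ‖e‖ ≤ 1 → MemLp g 2 (volume : Measure ℂ) → WkD e f g →
      Tendsto (fun n => eLpNorm (fun z =>
        fderiv ℝ (fun z => χ n z * EBC.mol (ρ n) f z) z e - g z) 2 volume) atTop (𝓝 0) := by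
    intro e g he hg hw
    have t1 := key g hg
    have hfd : ∀ n z, fderiv ℝ (fun z => χ n z * EBC.mol (ρ n) f z) z e =
        fderiv ℝ (χ n) z e * EBC.mol (ρ n) f z + χ n z * EBC.mol (ρ n) g z := by
      intro n z
      have d1 : DifferentiableAt ℝ (χ n) z := (hχt n).smooth.differentiable (by simp) z
      have d2 : DifferentiableAt ℝ (EBC.mol (ρ n) f) z := (hms n).differentiable (by simp) z
      have := (d1.hasFDerivAt.mul d2.hasFDerivAt).fderiv
      have h3 : (χ n * EBC.mol (ρ n) f) = fun z => χ n z * EBC.mol (ρ n) f z := rfl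
      rw [← h3, this, _root_.add_apply, _root_.smul_apply,
        _root_.smul_apply,
        EBC.mol_deriv hρ (hloc hf) (hloc hg) (regB1_weak hw) n z]
      simp only [smul_eq_mul]
      ring
    have t2 : Tendsto (fun n : ℕ => ENNReal.ofReal (C / ((n : ℝ) + 1)) * eLpNorm f 2 volume) atTop
        (𝓝 0) := by
      have t3 : Tendsto (fun n : ℕ => ENNReal.ofReal (C / ((n : ℝ) + 1))) atTop (𝓝 0) := by
        rw [← ENNReal.ofReal_zero]
        apply ENNReal.tendsto_ofReal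
        have h5 := (tendsto_one_div_add_atTop_nhds_zero_nat (𝕜 := ℝ)).const_mul C
        rw [mul_zero] at h5
        refine h5.congr fun n => ?_
        ring
      have := ENNReal.Tendsto.mul_const t3 (b := eLpNorm f 2 volume) (Or.inr hf.2.ne)
      rwa [zero_mul] at this
    have t4 := t2.add t1
    rw [add_zero] at t4
    refine tendsto_of_tendsto_of_tendsto_of_le_of_le tendsto_const_nhds t4 (fun n => bot_le) ?_
    intro n
    have m1 : AEStronglyMeasurable (fun z => fderiv ℝ (χ n) z e * EBC.mol (ρ n) f z) volume := by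
      apply AEStronglyMeasurable.mul _ (hmc f hf n).aestronglyMeasurable
      exact (((hχt n).smooth.continuous_fderiv (by simp)).clm_apply
        continuous_const).aestronglyMeasurable
    have m2 : AEStronglyMeasurable (fun z => χ n z * EBC.mol (ρ n) g z - g z) volume :=
      ((hχc n).aestronglyMeasurable.mul (hmc g hg n).aestronglyMeasurable).sub hg.1
    have e1 : (fun z => fderiv ℝ (fun z => χ n z * EBC.mol (ρ n) f z) z e - g z) =
        (fun z => fderiv ℝ (χ n) z e * EBC.mol (ρ n) f z) +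
        (fun z => χ n z * EBC.mol (ρ n) g z - g z) := by
      funext z
      rw [Pi.add_apply, hfd n z]
      ring
    beta_reduce
    rw [e1]
    refine (eLpNorm_add_le m1 m2 (by norm_num)).trans ?_
    gcongr
    have hy : eLpNorm (EBC.mol (ρ n) f) 2 volume ≤ eLpNorm f 2 volume :=
      EBC.mol_eLpNorm_le (hρ.nonneg n) (hρ.integrable n) (hρ.int_one n) hf.1
    refine le_trans ?_ (mul_le_mul_right hy _)
    refine (eLpNorm_le_mul_eLpNorm_of_ae_le_mul (c := C / ((n : ℝ) + 1)) (g := EBC.mol (ρ n) f)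
      (Eventually.of_forall fun z => ?_) 2)
    rw [norm_mul]
    gcongr
    exact hχ4 n z e he
  refine ⟨fun n z => χ n z * EBC.mol (ρ n) f z, ?_, key f hf, key2 1 g₁ (by simp) h1 w1,
    key2 I g₂ (by simp) h2 w2⟩
  intro n
  exact ⟨(hχt n).smooth.mul (hms n), (hχt n).cpt.mul_right, subset_univ _⟩

end QC
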