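import Pool.Agent.Work.MP_217185_an.Reg0
import Pool.Agent.Work.MP_217185_an.RegB1
import Pool.Agent.Work.MP_217185_an.L2Kit

/-! # RegB2: basic properties of the Sobolev classes

`exists_test_sob`: mollify and cut off (`χ(·/n) (ρ_n * f)`), `f` and its two weak derivatives are in
`L²`.  `WkD.Tf`: for a test function `F`, `T (∂_e F) = ∂_e (dz (Cau F))` (`Cau` commutes with
derivatives), integrate by parts against a test function, pass to the limit with `exists_test_sob`
and `eLpNorm_Tf`. -/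

open MeasureTheory Complex Set Metric Filter
open scoped Topology ENNReal NNReal ContDiff ComplexConjugate

namespace QC

private theorem regB2_test_fderiv {F : ℂ → ℂ} (hF : Test univ F) (e : ℂ) :
    Test univ (fun z => fderiv ℝ F z e) := by
  refine ⟨?_, ?_, subset_univ _⟩
  · exact (hF.smooth.fderiv_right (by simp)).clm_apply contDiff_const
  · exact (hF.cpt.fderiv ℝ).comp_left (g := fun L : ℂ →L[ℝ] ℂ => L e) (by simp)

/-- integration by parts for a smooth function and a test function -/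
private theorem regB2_parts {G φ : ℂ → ℂ} (hG : ContDiff ℝ ∞ G) (hφ : Test univ φ) (e : ℂ) :
    ∫ z, G z * fderiv ℝ φ z e = - ∫ z, fderiv ℝ G z e * φ z := by
  have hφd := regB2_test_fderiv hφ e
  have hGd : Continuous (fun z => fderiv ℝ G z e) :=
    (hG.continuous_fderiv (by simp)).clm_apply continuous_const
  apply integral_mul_fderiv_eq_neg_fderiv_mul_of_integrable
  · exact (hGd.mul hφ.smooth.continuous).integrable_of_hasCompactSupport hφ.cpt.mul_left
  · exact (hG.continuous.mul hφd.smooth.continuous).integrable_of_hasCompactSupport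
      hφd.cpt.mul_left
  · exact (hG.continuous.mul hφ.smooth.continuous).integrable_of_hasCompactSupport
      hφ.cpt.mul_left
  · exact fun z _ => hG.differentiable (by simp) z
  · exact fun z _ => hφ.smooth.differentiable (by simp) z

/-- `∂_e (dz F) = dz (∂_e F)` -/
private theorem regB2_comm {F : ℂ → ℂ} (h : ContDiff ℝ ∞ F) (e : ℂ) (z : ℂ) :
    fderiv ℝ (dz F) z e = dz (fun w => fderiv ℝ F w e) z := by
  have h1 : ContDiff ℝ ∞ (fderiv ℝ F) := h.fderiv_right (by simp)
  have hd : DifferentiableAt ℝ (fderiv ℝ F) z := (h1.differentiable (by simp)) z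
  have h2 : ∀ v : ℂ, HasFDerivAt (fun z => fderiv ℝ F z v)
      ((ContinuousLinearMap.apply ℝ ℂ v).comp (fderiv ℝ (fderiv ℝ F) z)) z := fun v =>
    (ContinuousLinearMap.apply ℝ ℂ v).hasFDerivAt.comp z hd.hasFDerivAt
  have hsymm : ∀ u v : ℂ, fderiv ℝ (fderiv ℝ F) z u v = fderiv ℝ (fderiv ℝ F) z v u := by
    intro u v
    have := (h.contDiffAt (x := z)).isSymmSndFDerivAt (by
      simp only [minSmoothness_of_isRCLikeNormedField]; exact WithTop.coe_le_coe.2 (le_top : (2 : ℕ∞) ≤ ⊤))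
    exact this u v
  have e2 : HasFDerivAt (dz F) ((2:ℂ)⁻¹ • (((ContinuousLinearMap.apply ℝ ℂ (1:ℂ)).comp
      (fderiv ℝ (fderiv ℝ F) z)) - I • ((ContinuousLinearMap.apply ℝ ℂ I).comp
      (fderiv ℝ (fderiv ℝ F) z)))) z := by
    have := ((h2 1).sub ((h2 I).const_smul I)).const_smul (2:ℂ)⁻¹
    refine this.congr_of_eventuallyEq (Filter.Eventually.of_forall fun w => ?_)
    simp only [dz, Pi.sub_apply, Pi.smul_apply, smul_eq_mul]
    ring
  rw [e2.fderiv]
  unfold dz
  rw [(h2 e).fderiv]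
  simp only [_root_.smul_apply, _root_.sub_apply, ContinuousLinearMap.comp_apply,
    ContinuousLinearMap.apply_apply, smul_eq_mul]
  rw [hsymm e 1, hsymm e I]
  ring

/-- the claim for test functions -/
private theorem regB2_test {F φ : ℂ → ℂ} (hF : Test univ F) (hφ : Test univ φ) (e : ℂ) :
    ∫ z, Tf F z * fderiv ℝ φ z e = - ∫ z, Tf (fun w => fderiv ℝ F w e) z * φ z := by
  have hG : ContDiff ℝ ∞ (dz (Cau F)) := (contDiff_dz (cau_contDiff hF)).1
  have h1 : ∫ z, Tf F z * fderiv ℝ φ z e = ∫ z, dz (Cau F) z * fderiv ℝ φ z e := by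
    apply integral_congr_ae
    filter_upwards [Tf_cau hF] with z hz
    rw [hz]
  have hFe := regB2_test_fderiv hF e
  have h2 : ∫ z, Tf (fun w => fderiv ℝ F w e) z * φ z = ∫ z, fderiv ℝ (dz (Cau F)) z e * φ z := by
    apply integral_congr_ae
    filter_upwards [Tf_cau hFe] with z hz
    rw [hz, (dz_cau hFe z).1]
    have h3 : dz (Cau F) = Cau (dz F) := by funext w; exact (dz_cau hF w).1
    rw [h3, cau_fderiv (hF.dz).1 z e]
    have h4 : (fun w => fderiv ℝ (dz F) w e) = dz (fun w => fderiv ℝ F w e) := by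
      funext w; exact regB2_comm hF.smooth e w
    rw [h4]
  rw [h1, h2, regB2_parts hG hφ e]

private theorem regB2_dir {e : ℂ} {f g : ℂ → ℂ} (hf : MemLp f 2 (volume : Measure ℂ))
    (hg : MemLp g 2 (volume : Measure ℂ)) {F : ℕ → ℂ → ℂ} (hF : ∀ n, Test univ (F n))
    (t1 : Tendsto (fun n => eLpNorm (fun z => F n z - f z) 2 volume) atTop (𝓝 0))
    (t2 : Tendsto (fun n => eLpNorm (fun z => fderiv ℝ (F n) z e - g z) 2 volume) atTop (𝓝 0)) :
    WkD e (Tf f) (Tf g) := by
  intro φ hφ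
  have hFe : ∀ n, Test univ (fun z => fderiv ℝ (F n) z e) := fun n => regB2_test_fderiv (hF n) e
  have hz : ∀ {u : ℂ → ℂ}, MemLp u 2 (volume : Measure ℂ) →
      Tendsto (fun _ : ℕ => eLpNorm (fun z => u z - u z) 2 volume) atTop (𝓝 0) := by
    intro u _
    simp only [sub_self]
    have : eLpNorm (fun _ : ℂ => (0 : ℂ)) 2 volume = 0 := eLpNorm_zero
    rw [this]
    exact tendsto_const_nhds
  have hT : ∀ {u : ℂ → ℂ} {v : ℕ → ℂ → ℂ}, MemLp u 2 (volume : Measure ℂ) →
      (∀ n, MemLp (v n) 2 (volume : Measure ℂ)) →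
      Tendsto (fun n => eLpNorm (fun z => v n z - u z) 2 volume) atTop (𝓝 0) →
      Tendsto (fun n => eLpNorm (fun z => Tf (v n) z - Tf u z) 2 volume) atTop (𝓝 0) := by
    intro u v hu hv h
    refine h.congr fun n => ?_
    have hm : MemLp (fun z => v n z - u z) 2 (volume : Measure ℂ) := (hv n).sub hu
    rw [← eLpNorm_Tf hm]
    exact eLpNorm_congr_ae (Tf_sub (hv n) hu)
  have hφe := regB2_test_fderiv hφ e
  have l1 := l2_tendsto_integral_mul (fun n => memLp_Tf (hF n).memLp) (fun _ => hφe.memLp)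
    (memLp_Tf hf) hφe.memLp (hT hf (fun n => (hF n).memLp) t1) (hz hφe.memLp)
  have l2 := l2_tendsto_integral_mul (fun n => memLp_Tf (hFe n).memLp) (fun _ => hφ.memLp)
    (memLp_Tf hg) hφ.memLp (hT hg (fun n => (hFe n).memLp) t2) (hz hφ.memLp)
  have l3 : Tendsto (fun n => ∫ z, Tf (F n) z * fderiv ℝ φ z e) atTop
      (𝓝 (- ∫ z, Tf g z * φ z)) := by
    refine l2.neg.congr fun n => ?_
    rw [regB2_test (hF n) hφ e]
  exact tendsto_nhds_unique l1 l3

theorem WkD.Tf {f g₁ g₂ : ℂ → ℂ} (hf : MemLp f 2 (volume : Measure ℂ))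
    (h1 : MemLp g₁ 2 (volume : Measure ℂ)) (h2 : MemLp g₂ 2 (volume : Measure ℂ))
    (w1 : WkD 1 f g₁) (w2 : WkD I f g₂) :
    WkD 1 (Tf f) (Tf g₁) ∧ WkD I (Tf f) (Tf g₂) := by
  obtain ⟨F, hF, t0, t1, t2⟩ := exists_test_sob hf h1 h2 w1 w2
  exact ⟨regB2_dir hf h1 hF t0 t1, regB2_dir hf h2 hF t0 t2⟩

end QC
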