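import Pool.Agent.Work.MP_217185_an.Reg0
import Pool.Agent.Work.MP_217185_an.RegB2

/-! # RegB3: basic properties of the Sobolev classes

`exists_test_sob`: mollify and cut off (`χ(·/n) (ρ_n * f)`), `f` and its two weak derivatives are in
`L²`.  `WkD.Tf`: for a test function `F`, `T (∂_e F) = ∂_e (dz (Cau F))` (`Cau` commutes with
derivatives), integrate by parts against a test function, pass to the limit with `exists_test_sob`
and `eLpNorm_Tf`. -/

open MeasureTheory Complex Set Metric Filter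
open scoped Topology ENNReal NNReal ContDiff ComplexConjugate

namespace QC

private theorem regB3_test_fderiv {F : ℂ → ℂ} (hF : Test univ F) (e : ℂ) :
    Test univ (fun z => fderiv ℝ F z e) := by
  refine ⟨?_, ?_, subset_univ _⟩
  · exact (hF.smooth.fderiv_right (by simp)).clm_apply contDiff_const
  · exact (hF.cpt.fderiv ℝ).comp_left (g := fun L : ℂ →L[ℝ] ℂ => L e) (by simp)

theorem Sob.memLp {m : ℕ} {f : ℂ → ℂ} (h : Sob m f) : MemLp f 2 (volume : Measure ℂ) := by
  cases m with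
  | zero => exact h
  | succ m => exact h.1

theorem Sob.mono {m : ℕ} {f : ℂ → ℂ} (h : Sob (m + 1) f) : Sob m f := by
  induction m generalizing f with
  | zero => exact h.1
  | succ m ih =>
    obtain ⟨hf, g₁, g₂, h1, h2, w1, w2⟩ := h
    exact ⟨hf, g₁, g₂, ih h1, ih h2, w1, w2⟩

private theorem regB3_wk_congr {e : ℂ} {f g f' : ℂ → ℂ} (h : WkD e f g) (he : f =ᵐ[volume] f') :
    WkD e f' g := by
  intro φ hφ
  rw [← h φ hφ]
  apply integral_congr_ae
  filter_upwards [he] with z hz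
  rw [hz]

theorem Sob.congr {m : ℕ} {f g : ℂ → ℂ} (h : Sob m f) (he : f =ᵐ[volume] g) : Sob m g := by
  cases m with
  | zero => exact (memLp_congr_ae he).mp h
  | succ m =>
    obtain ⟨hf, g₁, g₂, h1, h2, w1, w2⟩ := h
    exact ⟨(memLp_congr_ae he).mp hf, g₁, g₂, h1, h2, regB3_wk_congr w1 he, regB3_wk_congr w2 he⟩

private theorem regB3_wk_add {e : ℂ} {f g f' g' : ℂ → ℂ} (hf : MemLp f 2 (volume : Measure ℂ))
    (hg : MemLp g 2 (volume : Measure ℂ)) (hf' : MemLp f' 2 (volume : Measure ℂ))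
    (hg' : MemLp g' 2 (volume : Measure ℂ)) (h : WkD e f g) (h' : WkD e f' g') :
    WkD e (fun z => f z + f' z) (fun z => g z + g' z) := by
  intro φ hφ
  have hφe := (regB3_test_fderiv hφ e).memLp
  have e1 : ∫ z, (f z + f' z) * fderiv ℝ φ z e =
      (∫ z, f z * fderiv ℝ φ z e) + ∫ z, f' z * fderiv ℝ φ z e := by
    rw [← integral_add (l2_integrable_mul hf hφe) (l2_integrable_mul hf' hφe)]
    congr 1
    funext z
    ring
  have e2 : ∫ z, (g z + g' z) * φ z = (∫ z, g z * φ z) + ∫ z, g' z * φ z := by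
    rw [← integral_add (l2_integrable_mul hg hφ.memLp) (l2_integrable_mul hg' hφ.memLp)]
    congr 1
    funext z
    ring
  rw [e1, e2, h φ hφ, h' φ hφ]
  ring

theorem Sob.add {m : ℕ} {f g : ℂ → ℂ} (hf : Sob m f) (hg : Sob m g) :
    Sob m (fun z => f z + g z) := by
  induction m generalizing f g with
  | zero => exact MemLp.add hf hg
  | succ m ih =>
    obtain ⟨hf0, f₁, f₂, f1, f2, u1, u2⟩ := hf
    obtain ⟨hg0, g₁, g₂, g1, g2, v1, v2⟩ := hg
    exact ⟨hf0.add hg0, _, _, ih f1 g1, ih f2 g2,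
      regB3_wk_add hf0 f1.memLp hg0 g1.memLp u1 v1, regB3_wk_add hf0 f2.memLp hg0 g2.memLp u2 v2⟩

private theorem regB3_bdd {φ f : ℂ → ℂ} (hφ : Test univ φ) (hf : MemLp f 2 (volume : Measure ℂ)) :
    MemLp (fun z => φ z * f z) 2 (volume : Measure ℂ) := by
  obtain ⟨C, hC⟩ := hφ.cpt.exists_bound_of_continuous hφ.smooth.continuous
  refine MemLp.of_le_mul (c := C) hf (hφ.smooth.continuous.aestronglyMeasurable.mul hf.1) ?_
  refine Eventually.of_forall fun z => ?_
  rw [norm_mul]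
  gcongr
  exact hC z

private theorem regB3_wk_mul {e : ℂ} {f g φ : ℂ → ℂ} (hf : MemLp f 2 (volume : Measure ℂ))
    (hg : MemLp g 2 (volume : Measure ℂ)) (hφ : Test univ φ) (h : WkD e f g) :
    WkD e (fun z => φ z * f z) (fun z => fderiv ℝ φ z e * f z + φ z * g z) := by
  intro ψ hψ
  have hφe := regB3_test_fderiv hφ e
  have hψe := regB3_test_fderiv hψ e
  have hprod : Test univ (fun z => φ z * ψ z) :=
    ⟨hφ.smooth.mul hψ.smooth, hφ.cpt.mul_right, subset_univ _⟩
  have h1 := h _ hprod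
  have hfd : ∀ z, fderiv ℝ (fun z => φ z * ψ z) z e =
      fderiv ℝ φ z e * ψ z + φ z * fderiv ℝ ψ z e := by
    intro z
    have d1 : DifferentiableAt ℝ φ z := hφ.smooth.differentiable (by simp) z
    have d2 : DifferentiableAt ℝ ψ z := hψ.smooth.differentiable (by simp) z
    have := (d1.hasFDerivAt.mul d2.hasFDerivAt).fderiv
    have h3 : (φ * ψ) = fun z => φ z * ψ z := rfl
    rw [← h3, this, _root_.add_apply, _root_.smul_apply, _root_.smul_apply]
    simp only [smul_eq_mul]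
    ring
  simp only [hfd] at h1
  have i1 : Integrable (fun z => f z * (fderiv ℝ φ z e * ψ z)) :=
    hf.integrable_mul (regB3_bdd hφe hψ.memLp)
  have i2 : Integrable (fun z => f z * (φ z * fderiv ℝ ψ z e)) :=
    hf.integrable_mul (regB3_bdd hφ hψe.memLp)
  have i3 : Integrable (fun z => g z * (φ z * ψ z)) :=
    hg.integrable_mul (regB3_bdd hφ hψ.memLp)
  have e1 : ∫ z, f z * (fderiv ℝ φ z e * ψ z + φ z * fderiv ℝ ψ z e) =
      (∫ z, f z * (fderiv ℝ φ z e * ψ z)) + ∫ z, f z * (φ z * fderiv ℝ ψ z e) := by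
    rw [← integral_add i1 i2]
    congr 1
    funext z
    ring
  have e2 : ∫ z, (fderiv ℝ φ z e * f z + φ z * g z) * ψ z =
      (∫ z, f z * (fderiv ℝ φ z e * ψ z)) + ∫ z, g z * (φ z * ψ z) := by
    rw [← integral_add i1 i3]
    congr 1
    funext z
    ring
  have e3 : ∫ z, φ z * f z * fderiv ℝ ψ z e = ∫ z, f z * (φ z * fderiv ℝ ψ z e) := by
    congr 1
    funext z
    ring
  rw [e1] at h1
  rw [e2, e3]
  linear_combination h1

/-- Leibniz rule: `∂_e (φ f) = ∂_e φ f + φ ∂_e f`. -/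
theorem Sob.test_mul {m : ℕ} {f φ : ℂ → ℂ} (hφ : Test univ φ) (hf : Sob m f) :
    Sob m (fun z => φ z * f z) := by
  induction m generalizing f φ with
  | zero => exact regB3_bdd hφ hf
  | succ m ih =>
    have hmono := hf.mono
    obtain ⟨hf0, f₁, f₂, f1, f2, u1, u2⟩ := hf
    exact ⟨regB3_bdd hφ hf0, _, _, (ih (regB3_test_fderiv hφ 1) hmono).add (ih hφ f1),
      (ih (regB3_test_fderiv hφ I) hmono).add (ih hφ f2),
      regB3_wk_mul hf0 f1.memLp hφ u1, regB3_wk_mul hf0 f2.memLp hφ u2⟩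

private theorem regB3_wk_test {φ : ℂ → ℂ} (hφ : Test univ φ) (e : ℂ) :
    WkD e φ (fun z => fderiv ℝ φ z e) := by
  intro ψ hψ
  have hφe := regB3_test_fderiv hφ e
  have hψe := regB3_test_fderiv hψ e
  apply integral_mul_fderiv_eq_neg_fderiv_mul_of_integrable
  · exact hφe.memLp.integrable_mul hψ.memLp
  · exact hφ.memLp.integrable_mul hψe.memLp
  · exact hφ.memLp.integrable_mul hψ.memLp
  · exact fun z _ => hφ.smooth.differentiable (by simp) z
  · exact fun z _ => hψ.smooth.differentiable (by simp) z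

theorem Sob.of_test {m : ℕ} {φ : ℂ → ℂ} (hφ : Test univ φ) : Sob m φ := by
  induction m generalizing φ with
  | zero => exact hφ.memLp
  | succ m ih =>
    exact ⟨hφ.memLp, _, _, ih (regB3_test_fderiv hφ 1), ih (regB3_test_fderiv hφ I),
      regB3_wk_test hφ 1, regB3_wk_test hφ I⟩

theorem Sob.Tf {m : ℕ} {f : ℂ → ℂ} (hf : Sob m f) : Sob m (QC.Tf f) := by
  induction m generalizing f with
  | zero => exact memLp_Tf hf
  | succ m ih =>
    obtain ⟨hf0, f₁, f₂, f1, f2, u1, u2⟩ := hf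
    obtain ⟨w1, w2⟩ := WkD.Tf hf0 f1.memLp f2.memLp u1 u2
    exact ⟨memLp_Tf hf0, _, _, ih f1, ih f2, w1, w2⟩

end QC
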