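import Pool.Agent.Work.MP_217185_an.RegA
import Pool.Agent.Work.MP_217185_an.RegB

/-! # RegC1: regularity of the solutions of `h = μ T h + g`

Let `g` be a test function first.  Let `h'` be the `L²` solution of
`h' = μ T h' + (∂_e μ) T h + ∂_e g`.  Difference quotients `D_s u z = (u(z + s e) - u z)/s`,
`e ∈ {1, I}`: `D_s h = μ(· + s e) T(D_s h) + (D_s μ) T h + D_s g` (`Tf_translate`), so by `sol_bound`
`‖D_s h - h'‖₂ ≤ (1-k)⁻¹ (‖(D_s μ - ∂_e μ) T h‖₂ + ‖D_s g - ∂_e g‖₂ + ‖(μ(· + s e) - μ) T h'‖₂) → 0`.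
For a test function `φ`, `∫ D_s h φ = - ∫ h D_{-s} φ`, hence `WkD e h h'`.
The general case: approximate `g` by test functions (`exists_test_sob`) and use `sol_bound` again. -/

open MeasureTheory Complex Set Metric Filter
open scoped Topology ENNReal NNReal ContDiff ComplexConjugate

namespace QC

/-- difference quotient -/
private noncomputable def RegC1_D (s : ℝ) (e : ℂ) (u : ℂ → ℂ) (z : ℂ) : ℂ :=
  (1 / (s : ℂ)) * (u (z + s * e) - u z)

private theorem RegC1_unif {F : ℂ → ℂ} (hF : Test univ F) {e : ℂ} (he : ‖e‖ = 1) {ε : ℝ}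
    (hε : 0 < ε) :
    ∃ δ > 0, ∀ s : ℝ, s ≠ 0 → |s| < δ → ∀ z, ‖RegC1_D s e F z - fderiv ℝ F z e‖ ≤ ε := by
  have hc : Continuous (fderiv ℝ F) := hF.smooth.continuous_fderiv (by simp)
  have huc : UniformContinuous (fderiv ℝ F) :=
    hc.uniformContinuous_of_tendsto_cocompact (x := 0) (hF.cpt.fderiv (𝕜 := ℝ)).is_zero_at_infty
  rw [Metric.uniformContinuous_iff] at huc
  obtain ⟨δ, hδ, hδ'⟩ := huc ε hε
  refine ⟨δ, hδ, fun s hs hsδ z => ?_⟩
  have hn : ‖(s : ℂ) * e‖ = |s| := by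
    rw [norm_mul, he, mul_one, Complex.norm_real, Real.norm_eq_abs]
  have h1 := Convex.norm_image_sub_le_of_norm_fderiv_le' (𝕜 := ℝ) (f := F) (φ := fderiv ℝ F z)
    (C := ε) (s := ball z δ) (x := z) (y := z + s * e)
    (fun x _ => hF.smooth.differentiable (by simp) x)
    (fun x hx => by
      rw [← dist_eq_norm]
      exact (hδ' (mem_ball.1 hx)).le) (convex_ball z δ) (mem_ball_self hδ)
    (by rw [mem_ball, dist_eq_norm, add_sub_cancel_left, hn]; exact hsδ)
  rw [add_sub_cancel_left, hn] at h1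
  have h2 : fderiv ℝ F z ((s : ℂ) * e) = (s : ℂ) * fderiv ℝ F z e := by
    have : (s : ℂ) * e = s • e := by rw [Complex.real_smul]
    rw [this, map_smul, Complex.real_smul]
  rw [h2] at h1
  have hs' : (s : ℂ) ≠ 0 := by exact_mod_cast hs
  have h3 : RegC1_D s e F z - fderiv ℝ F z e =
      (1 / (s : ℂ)) * (F (z + s * e) - F z - (s : ℂ) * fderiv ℝ F z e) := by
    unfold RegC1_D
    field_simp
  rw [h3, norm_mul, norm_div, norm_one, Complex.norm_real, Real.norm_eq_abs]
  have h4 : 0 < |s| := abs_pos.2 hs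
  rw [one_div, ← div_eq_inv_mul, div_le_iff₀ h4]
  exact h1

private theorem RegC1_M {m : ℕ → ℂ → ℂ} (hm : ∀ ε : ℝ, 0 < ε → ∀ᶠ n in atTop, ∀ z, ‖m n z‖ ≤ ε)
    {f : ℂ → ℂ} (hf : MemLp f 2 (volume : Measure ℂ)) :
    Tendsto (fun n => eLpNorm (fun z => m n z * f z) 2 volume) atTop (𝓝 0) := by
  rw [ENNReal.tendsto_nhds_zero]
  intro ε hε
  have h1 : Tendsto (fun n : ℕ => ENNReal.ofReal (1 / ((n : ℝ) + 1)) * eLpNorm f 2 volume) atTop
      (𝓝 0) := by
    have h2 := ENNReal.tendsto_ofReal (tendsto_one_div_add_atTop_nhds_zero_nat (𝕜 := ℝ))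
    have h3 := ENNReal.Tendsto.mul_const (b := eLpNorm f 2 volume) h2 (Or.inr hf.2.ne)
    simpa using h3
  obtain ⟨j, hj⟩ := ((ENNReal.tendsto_nhds_zero.1 h1) ε hε).exists
  filter_upwards [hm (1 / ((j : ℝ) + 1)) (by positivity)] with n hn
  refine le_trans ?_ hj
  refine eLpNorm_le_mul_eLpNorm_of_ae_le_mul (Eventually.of_forall fun z => ?_) 2
  rw [norm_mul]
  exact mul_le_mul_of_nonneg_right (hn z) (norm_nonneg _)

private theorem RegC1_unif' {F : ℂ → ℂ} (hF : Test univ F) {e : ℂ} (he : ‖e‖ = 1) {s : ℕ → ℝ}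
    (hs0 : ∀ n, s n ≠ 0) (hs : Tendsto s atTop (𝓝 0)) (ε : ℝ) (hε : 0 < ε) :
    ∀ᶠ n in atTop, ∀ z, ‖RegC1_D (s n) e F z - fderiv ℝ F z e‖ ≤ ε := by
  obtain ⟨δ, hδ, h⟩ := RegC1_unif hF he hε
  have h1 : ∀ᶠ n in atTop, |s n| < δ := by
    have := (Metric.tendsto_nhds.1 hs) δ hδ
    filter_upwards [this] with n hn
    simpa [Real.dist_eq] using hn
  filter_upwards [h1] with n hn z
  exact h (s n) (hs0 n) hn z

private theorem RegC1_L2 {F : ℂ → ℂ} (hF : Test univ F) {e : ℂ} (he : ‖e‖ = 1) {s : ℕ → ℝ}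
    (hs0 : ∀ n, s n ≠ 0) (hs : Tendsto s atTop (𝓝 0)) :
    Tendsto (fun n => eLpNorm (fun z => RegC1_D (s n) e F z - fderiv ℝ F z e) 2 volume) atTop
      (𝓝 0) := by
  obtain ⟨R, hR⟩ := hF.cpt.isCompact.isBounded.subset_closedBall (0 : ℂ)
  have hz : ∀ z, R < ‖z‖ → F z = 0 := by
    intro z hz
    by_contra hcon
    have := hR (subset_tsupport _ hcon)
    rw [mem_closedBall, dist_zero_right] at this
    linarith
  have hz' : ∀ z, R < ‖z‖ → fderiv ℝ F z = 0 := by
    intro z hz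
    by_contra hcon
    have := hR (support_fderiv_subset ℝ hcon)
    rw [mem_closedBall, dist_zero_right] at this
    linarith
  have hB : MemLp ((closedBall (0 : ℂ) (R + 1)).indicator fun _ => (1 : ℂ)) 2
      (volume : Measure ℂ) :=
    memLp_indicator_const 2 measurableSet_closedBall 1
      (Or.inr (isCompact_closedBall (0 : ℂ) (R + 1)).measure_lt_top.ne)
  have h1 := RegC1_M (RegC1_unif' hF he hs0 hs) hB
  refine h1.congr' ?_
  have h2 : ∀ᶠ n in atTop, |s n| < 1 := by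
    have := (Metric.tendsto_nhds.1 hs) 1 one_pos
    filter_upwards [this] with n hn
    simpa [Real.dist_eq] using hn
  filter_upwards [h2] with n hn
  congr 1
  funext z
  by_cases hzB : z ∈ closedBall (0 : ℂ) (R + 1)
  · rw [indicator_of_mem hzB, mul_one]
  · rw [indicator_of_notMem hzB, mul_zero]
    rw [mem_closedBall, dist_zero_right, not_le] at hzB
    have h3 : ‖((s n : ℝ) : ℂ) * e‖ = |s n| := by
      rw [norm_mul, he, mul_one, Complex.norm_real, Real.norm_eq_abs]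
    have h4 : R < ‖z + ((s n : ℝ) : ℂ) * e‖ := by
      have := norm_sub_norm_le z (-(((s n : ℝ) : ℂ) * e))
      rw [sub_neg_eq_add, norm_neg, h3] at this
      linarith
    unfold RegC1_D
    rw [hz _ h4, hz z (by linarith), hz' z (by linarith)]
    simp

private theorem RegC1_shift {u : ℂ → ℂ} (hu : MemLp u 2 (volume : Measure ℂ)) (v : ℂ) :
    MemLp (fun z => u (z + v)) 2 (volume : Measure ℂ) :=
  hu.comp_measurePreserving (measurePreserving_add_right volume v)

private theorem RegC1_D_memLp {u : ℂ → ℂ} (hu : MemLp u 2 (volume : Measure ℂ)) (s : ℝ) (e : ℂ) :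
    MemLp (RegC1_D s e u) 2 (volume : Measure ℂ) :=
  ((RegC1_shift hu _).sub hu).const_mul _

private theorem RegC1_pair {G : ℕ → ℂ → ℂ} {g φ : ℂ → ℂ} (hG : ∀ n, MemLp (G n) 2 (volume : Measure ℂ))
    (hg : MemLp g 2 (volume : Measure ℂ)) (hφ : MemLp φ 2 (volume : Measure ℂ))
    (h : Tendsto (fun n => eLpNorm (fun z => G n z - g z) 2 volume) atTop (𝓝 0)) :
    Tendsto (fun n => ∫ z, G n z * φ z) atTop (𝓝 (∫ z, g z * φ z)) := by
  refine tendsto_integral_of_L1' _ (hg.integrable_mul hφ).aestronglyMeasurable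
    (Eventually.of_forall fun n => (hG n).integrable_mul hφ) ?_
  have h1 : Tendsto (fun n => eLpNorm (fun z => G n z - g z) 2 volume * eLpNorm φ 2 volume) atTop
      (𝓝 0) := by
    have h3 := ENNReal.Tendsto.mul_const (b := eLpNorm φ 2 volume) h (Or.inr hφ.2.ne)
    simpa using h3
  refine tendsto_of_tendsto_of_tendsto_of_le_of_le tendsto_const_nhds h1
    (fun n => bot_le) (fun n => ?_)
  have h4 : ((fun z => G n z * φ z) - g * φ) =
      (fun z => G n z - g z) • φ := by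
    funext z
    simp only [Pi.sub_apply, Pi.mul_apply, Pi.smul_apply', smul_eq_mul]
    ring
  rw [h4]
  exact eLpNorm_smul_le_mul_eLpNorm hφ.1 ((hG n).sub hg).1

private theorem RegC1_diff {k : ℝ} {μ h₁ h₂ g₁ g₂ : ℂ → ℂ} (hμ : Bel k μ)
    (hg₁ : MemLp g₁ 2 (volume : Measure ℂ)) (hg₂ : MemLp g₂ 2 (volume : Measure ℂ))
    (hh₁ : MemLp h₁ 2 (volume : Measure ℂ)) (hh₂ : MemLp h₂ 2 (volume : Measure ℂ))
    (e₁ : h₁ =ᵐ[volume] fun z => μ z * Tf h₁ z + g₁ z)
    (e₂ : h₂ =ᵐ[volume] fun z => μ z * Tf h₂ z + g₂ z) :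
    eLpNorm (fun z => h₁ z - h₂ z) 2 volume ≤
      ENNReal.ofReal (1 / (1 - k)) * eLpNorm (fun z => g₁ z - g₂ z) 2 volume := by
  refine sol_bound hμ (hg₁.sub hg₂) (hh₁.sub hh₂) ?_
  filter_upwards [e₁, e₂, Tf_sub hh₁ hh₂] with z h1 h2 h3
  rw [h3]
  rw [h1, h2]
  ring

private theorem RegC1_neg {h φ : ℂ → ℂ} (hh : MemLp h 2 (volume : Measure ℂ))
    (hφ : MemLp φ 2 (volume : Measure ℂ)) (s : ℝ) (e : ℂ) :
    ∫ z, RegC1_D s e h z * φ z = - ∫ z, h z * RegC1_D (-s) e φ z := by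
  have i1 : Integrable (fun z => h (z + s * e) * φ z) := (RegC1_shift hh _).integrable_mul hφ
  have i2 : Integrable (fun z => h z * φ z) := hh.integrable_mul hφ
  have i3 : Integrable (fun z => h z * φ (z + ((-s : ℝ) : ℂ) * e)) :=
    hh.integrable_mul (RegC1_shift hφ _)
  have e1 : ∫ z, h (z + s * e) * φ z = ∫ z, h z * φ (z + ((-s : ℝ) : ℂ) * e) := by
    rw [← integral_add_right_eq_self (fun z => h z * φ (z + ((-s : ℝ) : ℂ) * e)) (s * e)]
    congr 1
    funext z
    congr 2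
    push_cast
    ring
  have e2 : ∀ z, RegC1_D s e h z * φ z =
      (1 / (s : ℂ)) * (h (z + s * e) * φ z - h z * φ z) := by
    intro z
    unfold RegC1_D
    ring
  have e3 : ∀ z, h z * RegC1_D (-s) e φ z =
      (-(1 / (s : ℂ))) * (h z * φ (z + ((-s : ℝ) : ℂ) * e) - h z * φ z) := by
    intro z
    unfold RegC1_D
    push_cast
    rw [one_div, one_div, inv_neg]
    ring
  simp only [e2, e3]
  rw [integral_const_mul, integral_const_mul, integral_sub i1 i2, integral_sub i3 i2, e1]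
  ring

private theorem RegC1_norm_e {e : ℂ} (he' : e = 1 ∨ e = I) : ‖e‖ = 1 := by
  rcases he' with rfl | rfl <;> simp

private theorem RegC1_fd {φ : ℂ → ℂ} (hφ : Test univ φ) (e : ℂ) :
    Test univ (fun z => fderiv ℝ φ z e) := by
  refine ⟨(hφ.smooth.fderiv_right (m := ∞) (by simp)).clm_apply contDiff_const, ?_, subset_univ _⟩
  exact (hφ.cpt.fderiv (𝕜 := ℝ)).comp_left (g := fun L : ℂ →L[ℝ] ℂ => L e) (by simp)

private theorem RegC1_bdd {φ : ℂ → ℂ} (hφ : Test univ φ) : ∃ C : ℝ, ∀ z, ‖φ z‖ ≤ C :=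
  hφ.cpt.exists_bound_of_continuous hφ.smooth.continuous

private theorem RegC1_mul_memLp {m f : ℂ → ℂ} (hm : Continuous m) (hb : ∃ C : ℝ, ∀ z, ‖m z‖ ≤ C)
    (hf : MemLp f 2 (volume : Measure ℂ)) : MemLp (fun z => m z * f z) 2 (volume : Measure ℂ) := by
  obtain ⟨C, hC⟩ := hb
  refine MemLp.of_le_mul hf (hm.aestronglyMeasurable.mul hf.1)
    (Eventually.of_forall fun z => ?_) (c := C)
  rw [norm_mul]
  exact mul_le_mul_of_nonneg_right (hC z) (norm_nonneg _)

/-- the case of a test function `g` -/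
private theorem RegC1_test {k : ℝ} {μ g h h' : ℂ → ℂ} (hμ : Bel k μ) (hμs : Test univ μ)
    (hg : Test univ g) (hh : MemLp h 2 (volume : Measure ℂ))
    (he : h =ᵐ[volume] fun z => μ z * Tf h z + g z) {e : ℂ} (he' : ‖e‖ = 1)
    (hh' : MemLp h' 2 (volume : Measure ℂ))
    (heq : h' =ᵐ[volume] fun z => μ z * Tf h' z + (fderiv ℝ μ z e * Tf h z + fderiv ℝ g z e)) :
    WkD e h h' := by
  have hg2 := hg.memLp
  let s : ℕ → ℝ := fun n => 1 / ((n : ℝ) + 1)
  have hs0 : ∀ n, s n ≠ 0 := fun n => by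
    simp only [s]
    positivity
  have hs : Tendsto s atTop (𝓝 0) := tendsto_one_div_add_atTop_nhds_zero_nat
  have hμc := hμs.smooth.continuous
  have hT := memLp_Tf hh
  have hT' := memLp_Tf hh'
  -- strong convergence of the difference quotients
  have hmain : Tendsto (fun n => eLpNorm (fun z => RegC1_D (s n) e h z - h' z) 2 volume) atTop
      (𝓝 0) := by
    -- the bounding sequence
    have t1 : Tendsto (fun n => eLpNorm (fun z => (RegC1_D (s n) e μ z - fderiv ℝ μ z e) * Tf h z)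
        2 volume) atTop (𝓝 0) := RegC1_M (RegC1_unif' hμs he' hs0 hs) hT
    have t2 := RegC1_L2 hg he' hs0 hs
    have t3 : Tendsto (fun n => eLpNorm (fun z => (μ (z + s n * e) - μ z) * Tf h' z)
        2 volume) atTop (𝓝 0) := by
      refine RegC1_M ?_ hT'
      intro ε hε
      have huc : UniformContinuous μ :=
        hμc.uniformContinuous_of_tendsto_cocompact (x := 0) hμs.cpt.is_zero_at_infty
      rw [Metric.uniformContinuous_iff] at huc
      obtain ⟨δ, hδ, hδ'⟩ := huc ε hε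
      have := (Metric.tendsto_nhds.1 hs) δ hδ
      filter_upwards [this] with n hn z
      rw [← dist_eq_norm]
      refine (hδ' ?_).le
      rw [dist_eq_norm, add_sub_cancel_left, norm_mul, he', mul_one, Complex.norm_real,
        Real.norm_eq_abs]
      simpa [Real.dist_eq] using hn
    have t4 := ENNReal.Tendsto.const_mul (a := ENNReal.ofReal (1 / (1 - k)))
      ((t1.add t2).add t3) (Or.inr ENNReal.ofReal_ne_top)
    simp only [add_zero, mul_zero] at t4
    refine tendsto_of_tendsto_of_tendsto_of_le_of_le tendsto_const_nhds t4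
      (fun n => bot_le) (fun n => ?_)
    -- the equations
    have hμv : Bel k (fun z => μ (z + s n * e)) :=
      ⟨(hμc.comp (continuous_id.add continuous_const)).measurable, fun z => hμ.le _, hμ.lt⟩
    have hDμ : Continuous (RegC1_D (s n) e μ) := by
      unfold RegC1_D
      fun_prop
    have hDμb : ∃ C : ℝ, ∀ z, ‖RegC1_D (s n) e μ z‖ ≤ C := by
      obtain ⟨C, hC⟩ := RegC1_bdd hμs
      refine ⟨‖1 / ((s n : ℝ) : ℂ)‖ * (C + C), fun z => ?_⟩
      unfold RegC1_D
      rw [norm_mul]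
      exact mul_le_mul_of_nonneg_left ((norm_sub_le _ _).trans (add_le_add (hC _) (hC _)))
        (norm_nonneg _)
    have hG1 : MemLp (fun z => RegC1_D (s n) e μ z * Tf h z + RegC1_D (s n) e g z) 2
        (volume : Measure ℂ) := (RegC1_mul_memLp hDμ hDμb hT).add (RegC1_D_memLp hg2 _ _)
    have hfμ := RegC1_fd hμs e
    have hfg := RegC1_fd hg e
    have hsub : MemLp (fun z => (μ (z + s n * e) - μ z) * Tf h' z) 2 (volume : Measure ℂ) := by
      refine RegC1_mul_memLp (by fun_prop) ?_ hT'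
      obtain ⟨C, hC⟩ := RegC1_bdd hμs
      exact ⟨C + C, fun z => (norm_sub_le _ _).trans (add_le_add (hC _) (hC _))⟩
    have hfm : MemLp (fun z => fderiv ℝ μ z e * Tf h z) 2 (volume : Measure ℂ) :=
      RegC1_mul_memLp hfμ.smooth.continuous (RegC1_bdd hfμ) hT
    have hG2 : MemLp (fun z => (fderiv ℝ μ z e * Tf h z + fderiv ℝ g z e) -
        (μ (z + s n * e) - μ z) * Tf h' z) 2 (volume : Measure ℂ) :=
      (hfm.add hfg.memLp).sub hsub
    have e1 : RegC1_D (s n) e h =ᵐ[volume] fun z => μ (z + s n * e) * Tf (RegC1_D (s n) e h) z +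
        (RegC1_D (s n) e μ z * Tf h z + RegC1_D (s n) e g z) := by
      have a1 : ∀ᵐ z ∂(volume : Measure ℂ), h (z + s n * e) =
          μ (z + s n * e) * Tf h (z + s n * e) + g (z + s n * e) :=
        (measurePreserving_add_right volume ((s n : ℂ) * e)).quasiMeasurePreserving.ae he
      have a2 := Tf_translate hh ((s n : ℂ) * e)
      have a3 := Tf_sub (RegC1_shift hh ((s n : ℂ) * e)) hh
      have a4 := Tf_const_mul (1 / ((s n : ℝ) : ℂ)) ((RegC1_shift hh ((s n : ℂ) * e)).sub hh)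
      have a5 : Tf (RegC1_D (s n) e h) =ᵐ[volume] fun z =>
          (1 / ((s n : ℝ) : ℂ)) * (Tf h (z + s n * e) - Tf h z) := by
        have a6 : Tf (RegC1_D (s n) e h) = Tf (fun z => (1 / ((s n : ℝ) : ℂ)) *
          ((fun z => h (z + s n * e)) - h) z) := rfl
        rw [a6]
        filter_upwards [a2, a3, a4] with z b2 b3 b4
        rw [b4]
        have b5 : Tf ((fun z => h (z + s n * e)) - h) z =
          Tf (fun z => h (z + s n * e) - h z) z := rfl
        rw [b5, b3, b2]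
      filter_upwards [a1, he, a5] with z b1 b2 b5
      rw [b5]
      unfold RegC1_D
      rw [b1, b2]
      ring
    have e2 : h' =ᵐ[volume] fun z => μ (z + s n * e) * Tf h' z +
        ((fderiv ℝ μ z e * Tf h z + fderiv ℝ g z e) - (μ (z + s n * e) - μ z) * Tf h' z) := by
      filter_upwards [heq] with z hz
      rw [hz]
      ring
    refine (RegC1_diff hμv hG1 hG2 (RegC1_D_memLp hh _ _) hh' e1 e2).trans ?_
    refine mul_le_mul' le_rfl ?_
    have e3 : (fun z => (RegC1_D (s n) e μ z * Tf h z + RegC1_D (s n) e g z) -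
        ((fderiv ℝ μ z e * Tf h z + fderiv ℝ g z e) - (μ (z + s n * e) - μ z) * Tf h' z)) =
        ((fun z => (RegC1_D (s n) e μ z - fderiv ℝ μ z e) * Tf h z) +
          (fun z => RegC1_D (s n) e g z - fderiv ℝ g z e)) +
          (fun z => (μ (z + s n * e) - μ z) * Tf h' z) := by
      funext z
      simp only [Pi.add_apply]
      ring
    rw [e3]
    have m1 : MemLp (fun z => (RegC1_D (s n) e μ z - fderiv ℝ μ z e) * Tf h z) 2
        (volume : Measure ℂ) := by
      have := (RegC1_mul_memLp hDμ hDμb hT).sub hfm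
      refine (memLp_congr_ae (Eventually.of_forall fun z => ?_)).1 this
      simp only [Pi.sub_apply]
      ring
    have m2 : MemLp (fun z => RegC1_D (s n) e g z - fderiv ℝ g z e) 2 (volume : Measure ℂ) :=
      (RegC1_D_memLp hg2 _ _).sub hfg.memLp
    refine (eLpNorm_add_le (m1.add m2).1 hsub.1 (by norm_num)).trans ?_
    exact add_le_add (eLpNorm_add_le m1.1 m2.1 (by norm_num)) le_rfl
  intro φ hφ
  have c1 := RegC1_pair (fun n => RegC1_D_memLp hh (s n) e) hh' hφ.memLp hmain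
  have c2 := RegC1_L2 hφ he' (s := fun n => -s n) (fun n => neg_ne_zero.2 (hs0 n))
    (by simpa using hs.neg)
  have c3 := RegC1_pair (fun n => RegC1_D_memLp hφ.memLp (-s n) e) (RegC1_fd hφ e).memLp hh c2
  have c4 : (fun n => ∫ z, RegC1_D (s n) e h z * φ z) =
      fun n => - ∫ z, RegC1_D (-s n) e φ z * h z := by
    funext n
    rw [RegC1_neg hh hφ.memLp]
    congr 2
    funext z
    ring
  rw [c4] at c1
  have c5 := tendsto_nhds_unique c1 c3.neg
  rw [c5, neg_neg]
  congr 1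
  funext z
  ring

theorem sol_deriv {k : ℝ} {μ g h : ℂ → ℂ} (hμ : Bel k μ) (hμs : Test univ μ) (hg : Sob 1 g)
    (hh : MemLp h 2 (volume : Measure ℂ)) (he : h =ᵐ[volume] fun z => μ z * Tf h z + g z)
    {e : ℂ} (he' : e = 1 ∨ e = I) {ge : ℂ → ℂ} (hge : MemLp ge 2 (volume : Measure ℂ))
    (hw : WkD e g ge) :
    ∃ h', MemLp h' 2 (volume : Measure ℂ) ∧ WkD e h h' ∧
      h' =ᵐ[volume] fun z => μ z * Tf h' z + (fderiv ℝ μ z e * Tf h z + ge z) := by
  obtain ⟨hg2, g₁, g₂, s1, s2, w1, w2⟩ := hg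
  have hen := RegC1_norm_e he'
  have hfμ := RegC1_fd hμs e
  obtain ⟨F, hF, hFg, hFe⟩ : ∃ F : ℕ → ℂ → ℂ, (∀ n, Test univ (F n)) ∧
      Tendsto (fun n => eLpNorm (fun z => F n z - g z) 2 volume) atTop (𝓝 0) ∧
      Tendsto (fun n => eLpNorm (fun z => fderiv ℝ (F n) z e - ge z) 2 volume) atTop (𝓝 0) := by
    rcases he' with rfl | rfl
    · obtain ⟨F, h1, h2, h3, h4⟩ := exists_test_sob hg2 hge s2 hw w2
      exact ⟨F, h1, h2, h3⟩
    · obtain ⟨F, h1, h2, h3, h4⟩ := exists_test_sob hg2 s1 hge w1 hw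
      exact ⟨F, h1, h2, h4⟩
  have hmul : ∀ u : ℂ → ℂ, MemLp u 2 (volume : Measure ℂ) →
      MemLp (fun z => fderiv ℝ μ z e * Tf u z) 2 (volume : Measure ℂ) := fun u hu =>
    RegC1_mul_memLp hfμ.smooth.continuous (RegC1_bdd hfμ) (memLp_Tf hu)
  obtain ⟨h', hh', heq', -⟩ := exists_sol hμ ((hmul h hh).add hge)
  choose H hH hHe _ using fun n => exists_sol hμ (hF n).memLp
  choose H' hH' hHe' _ using fun n => exists_sol hμ ((hmul (H n) (hH n)).add
    (RegC1_fd (hF n) e).memLp)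
  have hcH : Tendsto (fun n => eLpNorm (fun z => H n z - h z) 2 volume) atTop (𝓝 0) := by
    have t := ENNReal.Tendsto.const_mul (a := ENNReal.ofReal (1 / (1 - k))) hFg
      (Or.inr ENNReal.ofReal_ne_top)
    rw [mul_zero] at t
    refine tendsto_of_tendsto_of_tendsto_of_le_of_le tendsto_const_nhds t
      (fun n => bot_le) (fun n => ?_)
    exact RegC1_diff hμ (hF n).memLp hg2 (hH n) hh (hHe n) he
  obtain ⟨C, hC⟩ := RegC1_bdd hfμ
  have hC0 : 0 ≤ C := (norm_nonneg _).trans (hC 0)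
  have hcH' : Tendsto (fun n => eLpNorm (fun z => H' n z - h' z) 2 volume) atTop (𝓝 0) := by
    have t1 := ENNReal.Tendsto.const_mul (a := ENNReal.ofReal C) hcH
      (Or.inr ENNReal.ofReal_ne_top)
    have t := ENNReal.Tendsto.const_mul (a := ENNReal.ofReal (1 / (1 - k))) (t1.add hFe)
      (Or.inr ENNReal.ofReal_ne_top)
    simp only [mul_zero, add_zero] at t
    refine tendsto_of_tendsto_of_tendsto_of_le_of_le tendsto_const_nhds t
      (fun n => bot_le) (fun n => ?_)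
    refine (RegC1_diff hμ ((hmul (H n) (hH n)).add (RegC1_fd (hF n) e).memLp)
      ((hmul h hh).add hge) (hH' n) hh' (hHe' n) heq').trans ?_
    refine mul_le_mul' le_rfl ?_
    have m1 : MemLp (fun z => fderiv ℝ μ z e * (Tf (H n) z - Tf h z)) 2 (volume : Measure ℂ) :=
      RegC1_mul_memLp hfμ.smooth.continuous (RegC1_bdd hfμ) ((memLp_Tf (hH n)).sub (memLp_Tf hh))
    have m2 : MemLp (fun z => fderiv ℝ (F n) z e - ge z) 2 (volume : Measure ℂ) :=
      (RegC1_fd (hF n) e).memLp.sub hge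
    have e3 : (fun z => ((fun z => fderiv ℝ μ z e * Tf (H n) z) +
        fun z => fderiv ℝ (F n) z e) z - ((fun z => fderiv ℝ μ z e * Tf h z) + ge) z) =
        (fun z => fderiv ℝ μ z e * (Tf (H n) z - Tf h z)) +
          (fun z => fderiv ℝ (F n) z e - ge z) := by
      funext z
      simp only [Pi.add_apply]
      ring
    rw [e3]
    refine (eLpNorm_add_le m1.1 m2.1 (by norm_num)).trans (add_le_add ?_ le_rfl)
    have e4 : eLpNorm (fun z => H n z - h z) 2 volume =
        eLpNorm (fun z => Tf (H n) z - Tf h z) 2 volume := by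
      rw [← eLpNorm_congr_ae (Tf_sub (hH n) hh)]
      exact (eLpNorm_Tf ((hH n).sub hh)).symm
    rw [e4]
    refine eLpNorm_le_mul_eLpNorm_of_ae_le_mul (Eventually.of_forall fun z => ?_) 2
    rw [norm_mul]
    exact mul_le_mul_of_nonneg_right (hC z) (norm_nonneg _)
  refine ⟨h', hh', ?_, heq'⟩
  intro φ hφ
  have hW : ∀ n, WkD e (H n) (H' n) := fun n =>
    RegC1_test hμ hμs (hF n) (hH n) (hHe n) hen (hH' n) (hHe' n)
  have c1 := RegC1_pair hH hh (RegC1_fd hφ e).memLp hcH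
  have c2 := RegC1_pair hH' hh' hφ.memLp hcH'
  have c3 : (fun n => ∫ z, H n z * fderiv ℝ φ z e) = fun n => - ∫ z, H' n z * φ z := by
    funext n
    exact hW n φ hφ
  rw [c3] at c1
  exact tendsto_nhds_unique c1 c2.neg

end QC
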