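import Pool.Agent.Work.MP_217185_an.RegA
import Pool.Agent.Work.MP_217185_an.RegB
import Pool.Agent.Work.MP_217185_an.RegC1

/-! # RegC2: regularity of the solutions of `h = μ T h + g`

Let `g ∈ Sob 1`.  Difference quotients `D_s u z = (u(z + s e) - u z)/s`, `e ∈ {1, I}`:
`D_s h = μ(· + s e) T(D_s h) + (D_s μ) T h + D_s g` (`Tf_translate`), so by `sol_bound`
`‖D_s h‖₂ ≤ (1-k)⁻¹ (‖D_s μ‖_∞ ‖h‖₂ + ‖D_s g‖₂) ≤ C` (`‖D_s g‖₂ ≤ ‖∂_e g‖₂` by `exists_test_sob`).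
For a test function `φ`, `∫ h D_{-s} φ = - ∫ D_s h φ`..., so `|∫ h ∂_e φ| ≤ C ‖φ‖₂` and by Riesz there is
`h_e ∈ L²` with `WkD e h h_e`.  Taking weak limits (test against test functions, `Tf_symm`):
`h_e = μ T h_e + (∂_e μ) T h + g_e`.
`sob_of_sol` by induction on `m`: the new inhomogeneous term `(∂_e μ) T h + g_e` is in `Sob m`. -/

open MeasureTheory Complex Set Metric Filter
open scoped Topology ENNReal NNReal ContDiff ComplexConjugate

namespace QC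

private theorem regC2_test {μ : ℂ → ℂ} (hμs : Test univ μ) (e : ℂ) :
    Test univ (fun z => fderiv ℝ μ z e) := by
  refine ⟨?_, hμs.cpt.fderiv_apply ℝ e, subset_univ _⟩
  exact (hμs.smooth.fderiv_right (m := ∞) (by simp)).clm_apply contDiff_const

theorem sob_of_sol {k : ℝ} {μ : ℂ → ℂ} (hμ : Bel k μ) (hμs : Test univ μ) (m : ℕ) :
    ∀ {g h : ℂ → ℂ}, Sob m g → MemLp h 2 (volume : Measure ℂ) →
      (h =ᵐ[volume] fun z => μ z * Tf h z + g z) → Sob m h := by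
  induction m with
  | zero =>
    intro g h _ hh _
    exact hh
  | succ m ih =>
    intro g h hg hh he
    have hgm : Sob m g := hg.mono
    have hhm : Sob m h := ih hgm hh he
    have hTm : Sob m (Tf h) := hhm.Tf
    obtain ⟨hg0, g₁, g₂, hs1, hs2, hw1, hw2⟩ := hg
    have hg1 : Sob 1 g := ⟨hg0, g₁, g₂, hs1.memLp, hs2.memLp, hw1, hw2⟩
    obtain ⟨h₁, hm1, hwd1, he1⟩ := sol_deriv hμ hμs hg1 hh he (Or.inl rfl) hs1.memLp hw1
    obtain ⟨h₂, hm2, hwd2, he2⟩ := sol_deriv hμ hμs hg1 hh he (Or.inr rfl) hs2.memLp hw2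
    have hr1 : Sob m h₁ := ih ((hTm.test_mul (regC2_test hμs 1)).add hs1) hm1 he1
    have hr2 : Sob m h₂ := ih ((hTm.test_mul (regC2_test hμs I)).add hs2) hm2 he2
    exact ⟨hh, h₁, h₂, hr1, hr2, hwd1, hwd2⟩

end QC
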