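import Pool.Agent.Work.MP_217185_an.Reg

/-! # RegSmall1: small smooth coefficients, `L²` bounds

Norms in `L²`, `T h = dz (Cau h)` a.e. (`Tf_cau`), `‖T u‖ = ‖u‖`, and `T ∂_e h = ∂_e (T h)` for test
functions (`dz (Cau (∂_e h)) = ∂_e (dz (Cau h))`).
`‖h‖ ≤ ‖κ‖ + ε ‖h‖`, `‖κ‖ ≤ ε (volume (ball 0 1))^{1/2}`;
`∂_e h = ∂_e κ (1 + T h) + κ T ∂_e h`, so `‖∂_e h‖ ≤ ‖∂_e κ‖ + ε ‖h‖ + ε ‖∂_e h‖`;
`∂_f ∂_e h = ∂_f ∂_e κ (1 + T h) + ∂_e κ T ∂_f h + ∂_f κ T ∂_e h + κ T ∂_f ∂_e h`.  As `ε ≤ 1/2` all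
norms are `≤ C ε`.  Those of `dz (Cau h)` are the same. -/

open MeasureTheory Complex Set Metric Filter
open scoped Topology ENNReal NNReal ContDiff ComplexConjugate

namespace QC

noncomputable def rs1_n (u : ℂ → ℂ) : ℝ := (eLpNorm u 2 volume).toReal

noncomputable def rs1_P (e : ℂ) (u : ℂ → ℂ) : ℂ → ℂ := fun z => fderiv ℝ u z e

theorem rs1_add {u v : ℂ → ℂ} (hu : MemLp u 2 volume) (hv : MemLp v 2 volume) :
    rs1_n (fun z => u z + v z) ≤ rs1_n u + rs1_n v := by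
  unfold rs1_n
  rw [← ENNReal.toReal_add hu.2.ne hv.2.ne]
  exact ENNReal.toReal_mono (ENNReal.add_ne_top.2 ⟨hu.2.ne, hv.2.ne⟩)
    (eLpNorm_add_le hu.1 hv.1 (by norm_num))

theorem rs1_mul {κ u : ℂ → ℂ} {ε : ℝ} (hε : 0 ≤ ε) (hκ : ∀ z, ‖κ z‖ ≤ ε)
    (hu : MemLp u 2 volume) : rs1_n (fun z => κ z * u z) ≤ ε * rs1_n u := by
  unfold rs1_n
  have h1 : eLpNorm (fun z => κ z * u z) 2 volume ≤ ENNReal.ofReal ε * eLpNorm u 2 volume := by
    refine eLpNorm_le_mul_eLpNorm_of_ae_le_mul (ae_of_all _ fun z => ?_) 2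
    rw [norm_mul]
    exact mul_le_mul_of_nonneg_right (hκ z) (norm_nonneg _)
  have h2 := ENNReal.toReal_mono (ENNReal.mul_ne_top ENNReal.ofReal_ne_top hu.2.ne) h1
  rwa [ENNReal.toReal_mul, ENNReal.toReal_ofReal hε] at h2

theorem rs1_supp {κ : ℂ → ℂ} {ε : ℝ} (hε : 0 ≤ ε) (hκ : ∀ z, ‖κ z‖ ≤ ε)
    (hs : ∀ z, 1 < ‖z‖ → κ z = 0) : rs1_n κ ≤ 2 * ε := by
  unfold rs1_n
  have h1 : eLpNorm κ 2 volume = eLpNorm κ 2 (volume.restrict (closedBall (0 : ℂ) 1)) := by
    rw [eLpNorm_restrict_eq_of_support_subset]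
    intro z hz
    by_contra hcon
    apply hz
    apply hs
    rwa [mem_closedBall, dist_zero_right, not_le] at hcon
  have h2 : eLpNorm κ 2 volume ≤ ENNReal.ofReal (2 * ε) := by
    rw [h1]
    refine (eLpNorm_le_of_ae_bound (C := ε) (Eventually.of_forall hκ)).trans ?_
    rw [Measure.restrict_apply_univ, Complex.volume_closedBall]
    rw [ENNReal.ofReal_mul (by norm_num)]
    refine mul_le_mul' ?_ le_rfl
    simp only [ENNReal.ofReal_one, one_pow, one_mul]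
    have h3 : ((NNReal.pi : ℝ≥0) : ℝ≥0∞) ≤ (4 : ℝ≥0∞) := by
      have : (NNReal.pi : ℝ≥0) ≤ 4 := by
        rw [← NNReal.coe_le_coe]
        exact_mod_cast Real.pi_le_four
      exact_mod_cast this
    calc ((NNReal.pi : ℝ≥0) : ℝ≥0∞) ^ (ENNReal.toReal 2)⁻¹ ≤ (4 : ℝ≥0∞) ^ (ENNReal.toReal 2)⁻¹ :=
          ENNReal.rpow_le_rpow h3 (by positivity)
      _ = ENNReal.ofReal 2 := by
          have h4 : (4 : ℝ≥0∞) = ENNReal.ofReal 4 := by simp
          rw [h4, ENNReal.ofReal_rpow_of_nonneg (by norm_num) (by positivity)]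
          congr 1
          have h5 : (ENNReal.toReal 2)⁻¹ = (1 / 2 : ℝ) := by simp
          rw [h5, ← Real.sqrt_eq_rpow]
          rw [show (4 : ℝ) = 2 ^ 2 by norm_num, Real.sqrt_sq (by norm_num)]
  have h3 := ENNReal.toReal_mono ENNReal.ofReal_ne_top h2
  rwa [ENNReal.toReal_ofReal (by positivity)] at h3

theorem rs1_T {u : ℂ → ℂ} (hu : Test univ u) : rs1_n (dz (Cau u)) = rs1_n u := by
  unfold rs1_n
  rw [← eLpNorm_Tf hu.memLp]
  congr 1
  exact eLpNorm_congr_ae (Tf_cau hu).symm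

theorem rs1_test {u : ℂ → ℂ} (hu : Test univ u) (e : ℂ) : Test univ (rs1_P e u) :=
  ⟨(hu.smooth.fderiv_right (m := ∞) (by simp)).clm_apply contDiff_const,
    hu.cpt.fderiv_apply (𝕜 := ℝ) e, subset_univ _⟩

theorem rs1_const_mul (c : ℂ) {u : ℂ → ℂ} {z : ℂ} (hu : DifferentiableAt ℝ u z) :
    dz (fun z => u z * c) z = dz u z * c ∧ dzb (fun z => u z * c) z = dzb u z * c := by
  have h := dz_mul hu (differentiableAt_const c (x := z))
  have h0 : dz (fun _ => c) z = 0 ∧ dzb (fun _ => c) z = 0 := by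
    unfold dz dzb
    simp
  rw [h0.1, h0.2] at h
  simpa using h

theorem rs1_P_eq (e : ℂ) (u : ℂ → ℂ) :
    rs1_P e u = fun z => dz u z * e + dzb u z * conj e := by
  funext z
  exact fderiv_apply_eq u z e

theorem rs1_cau_mul (c : ℂ) (u : ℂ → ℂ) (z : ℂ) :
    Cau (fun z => u z * c) z = Cau u z * c := by
  unfold Cau
  have : (fun ζ => u ζ * c / (z - ζ)) = fun ζ => (u ζ / (z - ζ)) * c := by
    funext ζ; ring
  rw [this, integral_mul_const]
  ring

theorem rs1_cau_P {u : ℂ → ℂ} (hu : Test univ u) (e : ℂ) :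
    rs1_P e (Cau u) = Cau (rs1_P e u) := by
  funext z
  have hc := cau_contDiff hu
  have h1 : Test univ (fun z => dz u z * e) := by
    refine ⟨hu.dz.1.smooth.mul contDiff_const, ?_, subset_univ _⟩
    exact hu.dz.1.cpt.mul_right
  have h2 : Test univ (fun z => dzb u z * (-conj e)) := by
    refine ⟨hu.dz.2.smooth.mul contDiff_const, ?_, subset_univ _⟩
    exact hu.dz.2.cpt.mul_right
  rw [rs1_P_eq, rs1_P_eq]
  have h3 := cau_sub h1 h2 z
  have h4 : (fun z => dz u z * e - dzb u z * (-conj e)) =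
      fun z => dz u z * e + dzb u z * conj e := by
    funext z; ring
  rw [h4, rs1_cau_mul, rs1_cau_mul] at h3
  rw [h3]
  show dz (Cau u) z * e + dzb (Cau u) z * conj e = _
  rw [(dz_cau hu z).1, (dz_cau hu z).2]
  ring

theorem rs1_dz_P {u : ℂ → ℂ} (hu : ContDiff ℝ ∞ u) (e : ℂ) :
    rs1_P e (dz u) = dz (rs1_P e u) := by
  funext z
  rw [rs1_P_eq, rs1_P_eq]
  have h1 : DifferentiableAt ℝ (dz u) z := (contDiff_dz hu).1.differentiable (by simp) z
  have h2 : DifferentiableAt ℝ (dzb u) z := (contDiff_dz hu).2.differentiable (by simp) z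
  have h3 := (dz_add (h1.mul_const e) (h2.mul_const (conj e))).1
  rw [h3, (rs1_const_mul e h1).1, (rs1_const_mul (conj e) h2).1, dz_dzb_comm hu]

/-- `T` commutes with derivatives. -/
theorem rs1_comm {u : ℂ → ℂ} (hu : Test univ u) (e : ℂ) :
    rs1_P e (dz (Cau u)) = dz (Cau (rs1_P e u)) := by
  rw [rs1_dz_P (cau_contDiff hu), rs1_cau_P hu]

theorem rs1_P_mul {u v : ℂ → ℂ} (hu : ContDiff ℝ ∞ u) (hv : ContDiff ℝ ∞ v) (e : ℂ) :
    rs1_P e (fun z => u z * v z) = fun z => rs1_P e u z * v z + u z * rs1_P e v z := by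
  funext z
  have h1 : HasFDerivAt u (fderiv ℝ u z) z := (hu.differentiable (by simp) z).hasFDerivAt
  have h2 : HasFDerivAt v (fderiv ℝ v z) z := (hv.differentiable (by simp) z).hasFDerivAt
  unfold rs1_P
  have h3 : HasFDerivAt (fun z => u z * v z) (u z • fderiv ℝ v z + v z • fderiv ℝ u z) z :=
    h1.mul h2
  rw [h3.fderiv]
  show u z * fderiv ℝ v z e + v z * fderiv ℝ u z e = _
  ring

theorem rs1_P_add {u v : ℂ → ℂ} (hu : ContDiff ℝ ∞ u) (hv : ContDiff ℝ ∞ v) (e : ℂ) :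
    rs1_P e (fun z => u z + v z) = fun z => rs1_P e u z + rs1_P e v z := by
  funext z
  have h1 : HasFDerivAt u (fderiv ℝ u z) z := (hu.differentiable (by simp) z).hasFDerivAt
  have h2 : HasFDerivAt v (fderiv ℝ v z) z := (hv.differentiable (by simp) z).hasFDerivAt
  unfold rs1_P
  have h3 : HasFDerivAt (fun z => u z + v z) (fderiv ℝ u z + fderiv ℝ v z) z := h1.add h2
  rw [h3.fderiv]
  rfl

theorem rs1_P_one (e : ℂ) : rs1_P e (fun _ => (1 : ℂ)) = fun _ => 0 := by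
  funext z
  unfold rs1_P
  simp

theorem small_l2 : ∃ C : ℝ, 0 < C ∧ ∀ (κ h : ℂ → ℂ) (ε : ℝ), 0 ≤ ε → ε ≤ 1 / 2 → Test univ κ →
    SuppIn 1 κ → (∀ z, ‖κ z‖ ≤ ε ∧ ‖fderiv ℝ κ z‖ ≤ ε ∧ ‖fderiv ℝ (fderiv ℝ κ) z‖ ≤ ε) →
    Test univ h → (∀ z, h z = κ z * (1 + dz (Cau h) z)) →
    ∀ g : ℂ → ℂ, (g = h ∨ g = dz (Cau h)) → ∀ e f : ℂ, (e = 1 ∨ e = I) → (f = 1 ∨ f = I) →
      eLpNorm g 2 volume ≤ ENNReal.ofReal (C * ε) ∧
      eLpNorm (fun z => fderiv ℝ g z e) 2 volume ≤ ENNReal.ofReal (C * ε) ∧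
      eLpNorm (fun z => fderiv ℝ (fun x => fderiv ℝ g x e) z f) 2 volume
        ≤ ENNReal.ofReal (C * ε) := by
  refine ⟨24, by norm_num, ?_⟩
  intro κ h ε hε hε2 hκ hκs hκb hh heq
  -- smoothness
  have hTs : ∀ {u : ℂ → ℂ}, Test univ u → ContDiff ℝ ∞ (dz (Cau u)) := fun hu =>
    (contDiff_dz (cau_contDiff hu)).1
  have hTm : ∀ {u : ℂ → ℂ}, Test univ u → MemLp (dz (Cau u)) 2 volume := fun hu =>
    memLp_dz_cau hu
  have hfun : h = fun z => κ z * (1 + dz (Cau h) z) := funext heq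
  -- bounds for `κ`
  have hout : ∀ {u : ℂ → ℂ}, (∀ z, 1 < ‖z‖ → u z = 0) → ∀ e z, 1 < ‖z‖ → rs1_P e u z = 0 := by
    intro u hu e z hz
    have h1 : u =ᶠ[𝓝 z] fun _ => 0 := by
      filter_upwards [(isOpen_lt continuous_const continuous_norm).mem_nhds hz] with w hw
      exact hu w hw
    unfold rs1_P
    rw [h1.fderiv_eq]
    simp
  have hκ0 : ∀ z, 1 < ‖z‖ → κ z = 0 := fun z hz => hκs z hz.le
  have hnorm : ∀ e : ℂ, (e = 1 ∨ e = I) → ‖e‖ = 1 := by
    rintro e (rfl | rfl)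
    · exact norm_one
    · exact Complex.norm_I
  have hκ1 : ∀ e : ℂ, (e = 1 ∨ e = I) → ∀ z, ‖rs1_P e κ z‖ ≤ ε := by
    intro e he z
    refine (ContinuousLinearMap.le_opNorm _ _).trans ?_
    rw [hnorm e he, mul_one]
    exact (hκb z).2.1
  have hκ2 : ∀ e f : ℂ, (e = 1 ∨ e = I) → (f = 1 ∨ f = I) → ∀ z, ‖rs1_P f (rs1_P e κ) z‖ ≤ ε := by
    intro e f he hf z
    have h1 : HasFDerivAt (fderiv ℝ κ) (fderiv ℝ (fderiv ℝ κ) z) z :=
      ((hκ.smooth.fderiv_right (m := ∞) (by simp)).differentiable (by simp) z).hasFDerivAt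
    have h2 : rs1_P f (rs1_P e κ) z = (fderiv ℝ (fderiv ℝ κ) z f) e := by
      have h3 := h1.clm_apply (hasFDerivAt_const e z)
      show fderiv ℝ (fun x => fderiv ℝ κ x e) z f = _
      rw [h3.fderiv]
      simp
    rw [h2]
    refine (ContinuousLinearMap.le_opNorm _ _).trans ?_
    rw [hnorm e he, mul_one]
    refine (ContinuousLinearMap.le_opNorm _ _).trans ?_
    rw [hnorm f hf, mul_one]
    exact (hκb z).2.2
  have hκn : ∀ z, ‖κ z‖ ≤ ε := fun z => (hκb z).1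
  -- zeroth order
  have z0 : rs1_n h ≤ 4 * ε := by
    have h1 : rs1_n h ≤ 2 * ε + ε * rs1_n h := by
      calc rs1_n h = rs1_n (fun z => κ z + κ z * dz (Cau h) z) := by
            congr 1
            rw [hfun]
            funext z
            rw [← hfun]
            ring
        _ ≤ rs1_n κ + rs1_n (fun z => κ z * dz (Cau h) z) := by
            refine rs1_add hκ.memLp ?_
            have : Test univ (fun z => κ z * dz (Cau h) z) :=
              ⟨hκ.smooth.mul (hTs hh), hκ.cpt.mul_right, subset_univ _⟩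
            exact this.memLp
        _ ≤ 2 * ε + ε * rs1_n h := by
            refine add_le_add (rs1_supp hε hκn hκ0) ?_
            refine (rs1_mul hε hκn (hTm hh)).trans ?_
            rw [rs1_T hh]
    have h2 : 0 ≤ rs1_n h := ENNReal.toReal_nonneg
    nlinarith
  -- first order
  have hTest : ∀ {u v : ℂ → ℂ}, Test univ u → ContDiff ℝ ∞ v → Test univ (fun z => u z * v z) :=
    fun hu hv => ⟨hu.smooth.mul hv, hu.cpt.mul_right, subset_univ _⟩
  have eq1 : ∀ e, rs1_P e h = fun z => rs1_P e κ z * (1 + dz (Cau h) z) +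
      κ z * dz (Cau (rs1_P e h)) z := by
    intro e
    have h1 : rs1_P e (fun z => κ z * (1 + dz (Cau h) z)) = fun z =>
        rs1_P e κ z * (1 + dz (Cau h) z) + κ z * rs1_P e (fun z => 1 + dz (Cau h) z) z :=
      rs1_P_mul hκ.smooth (contDiff_const.add (hTs hh)) e
    have h2 : rs1_P e (fun z => 1 + dz (Cau h) z) = dz (Cau (rs1_P e h)) := by
      rw [rs1_P_add contDiff_const (hTs hh), rs1_P_one, rs1_comm hh]
      funext z
      simp
    calc rs1_P e h = rs1_P e (fun z => κ z * (1 + dz (Cau h) z)) := by rw [← hfun]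
      _ = _ := by rw [h1, h2]
  have z1 : ∀ e : ℂ, (e = 1 ∨ e = I) → rs1_n (rs1_P e h) ≤ 8 * ε := by
    intro e he
    have hTe := rs1_test hh e
    have hκe := rs1_test hκ e
    have h1 : rs1_n (rs1_P e h) ≤ (2 * ε + ε * rs1_n h) + ε * rs1_n (rs1_P e h) := by
      calc rs1_n (rs1_P e h) = rs1_n (fun z => (rs1_P e κ z + rs1_P e κ z * dz (Cau h) z) +
            κ z * dz (Cau (rs1_P e h)) z) := by
            congr 1
            refine (eq1 e).trans ?_
            funext z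
            ring
        _ ≤ rs1_n (fun z => rs1_P e κ z + rs1_P e κ z * dz (Cau h) z) +
            rs1_n (fun z => κ z * dz (Cau (rs1_P e h)) z) :=
            rs1_add (hκe.memLp.add (hTest hκe (hTs hh)).memLp) (hTest hκ (hTs hTe)).memLp
        _ ≤ (rs1_n (rs1_P e κ) + rs1_n (fun z => rs1_P e κ z * dz (Cau h) z)) +
            ε * rs1_n (dz (Cau (rs1_P e h))) :=
            add_le_add (rs1_add hκe.memLp (hTest hκe (hTs hh)).memLp) (rs1_mul hε hκn (hTm hTe))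
        _ ≤ (2 * ε + ε * rs1_n h) + ε * rs1_n (rs1_P e h) := by
            rw [rs1_T hTe]
            refine add_le_add (add_le_add (rs1_supp hε (hκ1 e he) (hout hκ0 e)) ?_) le_rfl
            refine (rs1_mul hε (hκ1 e he) (hTm hh)).trans ?_
            rw [rs1_T hh]
    have h2 : 0 ≤ rs1_n (rs1_P e h) := ENNReal.toReal_nonneg
    nlinarith
  -- second order
  have eq2 : ∀ e f, rs1_P f (rs1_P e h) = fun z =>
      ((rs1_P f (rs1_P e κ) z + rs1_P f (rs1_P e κ) z * dz (Cau h) z) +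
      (rs1_P e κ z * dz (Cau (rs1_P f h)) z + rs1_P f κ z * dz (Cau (rs1_P e h)) z)) +
      κ z * dz (Cau (rs1_P f (rs1_P e h))) z := by
    intro e f
    have hTe := rs1_test hh e
    have hκe := rs1_test hκ e
    have h1 : rs1_P f (fun z => rs1_P e κ z * (1 + dz (Cau h) z) +
        κ z * dz (Cau (rs1_P e h)) z) = fun z => rs1_P f (fun z => rs1_P e κ z * (1 + dz (Cau h) z)) z +
        rs1_P f (fun z => κ z * dz (Cau (rs1_P e h)) z) z :=
      rs1_P_add (hκe.smooth.mul (contDiff_const.add (hTs hh))) (hκ.smooth.mul (hTs hTe)) f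
    have h2 : rs1_P f (fun z => rs1_P e κ z * (1 + dz (Cau h) z)) = fun z =>
        rs1_P f (rs1_P e κ) z * (1 + dz (Cau h) z) + rs1_P e κ z *
          rs1_P f (fun z => 1 + dz (Cau h) z) z :=
      rs1_P_mul hκe.smooth (contDiff_const.add (hTs hh)) f
    have h3 : rs1_P f (fun z => 1 + dz (Cau h) z) = dz (Cau (rs1_P f h)) := by
      rw [rs1_P_add contDiff_const (hTs hh), rs1_P_one, rs1_comm hh]
      funext z
      simp
    have h4 : rs1_P f (fun z => κ z * dz (Cau (rs1_P e h)) z) = fun z =>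
        rs1_P f κ z * dz (Cau (rs1_P e h)) z + κ z * rs1_P f (dz (Cau (rs1_P e h))) z :=
      rs1_P_mul hκ.smooth (hTs hTe) f
    calc rs1_P f (rs1_P e h) = rs1_P f (fun z => rs1_P e κ z * (1 + dz (Cau h) z) +
        κ z * dz (Cau (rs1_P e h)) z) := by rw [← eq1 e]
      _ = _ := by
        rw [h1, h2, h3, h4, rs1_comm hTe]
        funext z
        ring
  have z2 : ∀ e f : ℂ, (e = 1 ∨ e = I) → (f = 1 ∨ f = I) →
      rs1_n (rs1_P f (rs1_P e h)) ≤ 24 * ε := by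
    intro e f he hf
    have hTe := rs1_test hh e
    have hTf := rs1_test hh f
    have hTfe := rs1_test hTe f
    have hκe := rs1_test hκ e
    have hκf := rs1_test hκ f
    have hκfe := rs1_test hκe f
    have m1 := (hTest hκfe (hTs hh)).memLp
    have m2 := (hTest hκe (hTs hTf)).memLp
    have m3 := (hTest hκf (hTs hTe)).memLp
    have m4 := (hTest hκ (hTs hTfe)).memLp
    have h1 : rs1_n (rs1_P f (rs1_P e h)) ≤ ((2 * ε + ε * rs1_n h) + (ε * rs1_n (rs1_P f h) +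
        ε * rs1_n (rs1_P e h))) + ε * rs1_n (rs1_P f (rs1_P e h)) := by
      calc rs1_n (rs1_P f (rs1_P e h)) = _ := congrArg rs1_n (eq2 e f)
        _ ≤ rs1_n (fun z => (rs1_P f (rs1_P e κ) z + rs1_P f (rs1_P e κ) z * dz (Cau h) z) +
            (rs1_P e κ z * dz (Cau (rs1_P f h)) z + rs1_P f κ z * dz (Cau (rs1_P e h)) z)) +
            rs1_n (fun z => κ z * dz (Cau (rs1_P f (rs1_P e h))) z) :=
            rs1_add ((hκfe.memLp.add m1).add (m2.add m3)) m4
        _ ≤ (rs1_n (fun z => rs1_P f (rs1_P e κ) z + rs1_P f (rs1_P e κ) z * dz (Cau h) z) +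
            rs1_n (fun z => rs1_P e κ z * dz (Cau (rs1_P f h)) z +
              rs1_P f κ z * dz (Cau (rs1_P e h)) z)) +
            ε * rs1_n (dz (Cau (rs1_P f (rs1_P e h)))) :=
            add_le_add (rs1_add (hκfe.memLp.add m1) (m2.add m3)) (rs1_mul hε hκn (hTm hTfe))
        _ ≤ ((rs1_n (rs1_P f (rs1_P e κ)) + rs1_n (fun z => rs1_P f (rs1_P e κ) z * dz (Cau h) z)) +
            (rs1_n (fun z => rs1_P e κ z * dz (Cau (rs1_P f h)) z) +
              rs1_n (fun z => rs1_P f κ z * dz (Cau (rs1_P e h)) z))) +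
            ε * rs1_n (dz (Cau (rs1_P f (rs1_P e h)))) :=
            add_le_add (add_le_add (rs1_add hκfe.memLp m1) (rs1_add m2 m3)) le_rfl
        _ ≤ _ := by
            rw [rs1_T hTfe]
            refine add_le_add (add_le_add (add_le_add
              (rs1_supp hε (hκ2 e f he hf) (hout (hout hκ0 e) f)) ?_) (add_le_add ?_ ?_)) le_rfl
            · refine (rs1_mul hε (hκ2 e f he hf) (hTm hh)).trans ?_
              rw [rs1_T hh]
            · refine (rs1_mul hε (hκ1 e he) (hTm hTf)).trans ?_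
              rw [rs1_T hTf]
            · refine (rs1_mul hε (hκ1 f hf) (hTm hTe)).trans ?_
              rw [rs1_T hTe]
    have h2 : 0 ≤ rs1_n (rs1_P f (rs1_P e h)) := ENNReal.toReal_nonneg
    have h3 := z1 e he
    have h4 := z1 f hf
    have h5 : 0 ≤ rs1_n (rs1_P e h) := ENNReal.toReal_nonneg
    have h6 : 0 ≤ rs1_n (rs1_P f h) := ENNReal.toReal_nonneg
    have h7 : 0 ≤ rs1_n h := ENNReal.toReal_nonneg
    have e1 : ε * rs1_n h ≤ ε * (4 * ε) := mul_le_mul_of_nonneg_left z0 hε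
    have e2 : ε * rs1_n (rs1_P f h) ≤ ε * (8 * ε) := mul_le_mul_of_nonneg_left h4 hε
    have e3 : ε * rs1_n (rs1_P e h) ≤ ε * (8 * ε) := mul_le_mul_of_nonneg_left h3 hε
    have e4 : ε * rs1_n (rs1_P f (rs1_P e h)) ≤ 1 / 2 * rs1_n (rs1_P f (rs1_P e h)) :=
      mul_le_mul_of_nonneg_right hε2 h2
    have e5 : ε * ε ≤ ε * (1 / 2) := mul_le_mul_of_nonneg_left hε2 hε
    nlinarith
  -- conclusion
  have conv : ∀ {u : ℂ → ℂ} {c : ℝ}, MemLp u 2 volume → rs1_n u ≤ c * ε → c ≤ 24 →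
      eLpNorm u 2 volume ≤ ENNReal.ofReal (24 * ε) := by
    intro u c hu h1 hc
    rw [ENNReal.le_ofReal_iff_toReal_le hu.2.ne (by positivity)]
    exact h1.trans (mul_le_mul_of_nonneg_right hc hε)
  intro g hg e f he hf
  have hTe := rs1_test hh e
  have hTfe := rs1_test hTe f
  rcases hg with rfl | rfl
  · exact ⟨conv hh.memLp z0 (by norm_num), conv hTe.memLp (z1 e he) (by norm_num),
      conv hTfe.memLp (z2 e f he hf) le_rfl⟩
  · have e1 : (fun z => fderiv ℝ (dz (Cau h)) z e) = dz (Cau (rs1_P e h)) := rs1_comm hh e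
    have e2 : (fun z => fderiv ℝ (fun x => fderiv ℝ (dz (Cau h)) x e) z f) =
        dz (Cau (rs1_P f (rs1_P e h))) := by
      rw [e1]
      exact rs1_comm hTe f
    rw [e2, e1]
    refine ⟨conv (hTm hh) ?_ (by norm_num : (4 : ℝ) ≤ 24), conv (hTm hTe) ?_
      (by norm_num : (8 : ℝ) ≤ 24), conv (hTm hTfe) ?_ (le_refl (24 : ℝ))⟩
    · rw [rs1_T hh]; exact z0
    · rw [rs1_T hTe]; exact z1 e he
    · rw [rs1_T hTfe]; exact z2 e f he hf

end QC
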