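import Pool.Agent.Work.MP_217185_an.HypB
import Pool.Agent.Work.MP_217185_an.Factor
import Pool.Agent.Work.MP_217185_an.WDcomp

/-! # SchwN2: Moebius naturality of the plane solution

Let `A = mob a b`, `ω` the plane solution of `pull a b μ`, `w` that of `μ`.
If `b = 0` then `A` is the rotation `z ↦ (a / conj a) z` and `w (A z) = (a/conj a) ω z`
(`IsW.unique`/`unique_sol`).  Let `b ≠ 0`, `p = - conj a / conj b` the pole of `A`, `‖p‖ > 1`.
`v = w ∘ A` is continuous on `U = ℂ \ {p}`, has weak derivatives there (`WD.comp_holo`) and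
coefficient `pull a b μ` (zero outside the disc, where `A` maps outside the disc).  `factor` for
`ω.approx`: `g = v ∘ ω.symm` is holomorphic on `ℂ \ {ω p}`, injective.  Near `ω p`: `ω` is
holomorphic near `p` with `ω'(p) ≠ 0` (injective), `(z - p) v z` has a nonzero limit at `p`
(`w ζ ~ ζ` at infinity, `(z-p) A z → (a p + b)/conj b ≠ 0`), so `(u - ω p) g u` has a nonzero limit
`d` as `u → ω p`; near infinity `g` is bounded (`v z → w (a / conj b)`).  So `g u = c + d/(u - ω p)`
(Liouville, removable singularity). -/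

open MeasureTheory Complex Set Metric Filter
open scoped Topology ENNReal NNReal ContDiff ComplexConjugate

namespace QC

private theorem sr_main {k : ℝ} {μ : ℂ → ℂ} (hμ : Bel k μ) (hs : SuppIn 1 μ) {a : ℂ} (h : a ≠ 0)
    {w : ℂ ≃ₜ ℂ} (hw : IsW k μ w) :
    ((fun z => (a / conj a)⁻¹ * w (a / conj a * z)) =ᵐ[volume]
      fun z => z + Cau (hh (pull a 0 μ)) z) ∧
    (fun z => (conj a / a) ^ 2 * hh μ (a / conj a * z)) =ᵐ[volume] hh (pull a 0 μ) := by
  have ha' : conj a ≠ 0 := by simpa using h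
  have hlt : ‖(0 : ℂ)‖ < ‖a‖ := by rw [norm_zero]; exact norm_pos_iff.2 h
  obtain ⟨hpB, hpS⟩ := pull_bel hlt hμ
  set ρ : ℂ := a / conj a with hρ
  have hρ0 : ρ ≠ 0 := div_ne_zero h ha'
  have hconj : conj ρ = ρ⁻¹ := by
    rw [hρ, map_div₀, Complex.conj_conj, inv_div]
  have hρ2 : (conj a / a) ^ 2 = ρ⁻¹ * conj ρ := by
    rw [hconj, hρ, inv_div, sq]
  have hρn : ‖ρ‖ = 1 := by
    rw [hρ, norm_div, Complex.norm_conj, div_self (norm_ne_zero_iff.2 h)]
  have hg : ∀ z, HasDerivAt (fun z : ℂ => ρ * z) ρ z := fun z => by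
    simpa using (hasDerivAt_id z).const_mul ρ
  have hgd : ∀ z, deriv (fun z : ℂ => ρ * z) z = ρ := fun z => (hg z).deriv
  have h1 := (hw.wd.comp_holo isOpen_univ isOpen_univ
    (g := fun z : ℂ => ρ * z) (fun z _ => (hg z).differentiableAt.differentiableWithinAt)
    (fun z _ z' _ he => mul_left_cancel₀ hρ0 he) (mapsTo_univ _ _)).const_mul isOpen_univ ρ⁻¹
  have hW : Continuous fun z => ρ⁻¹ * w (ρ * z) :=
    continuous_const.mul (w.continuous.comp (continuous_const.mul continuous_id))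
  have hmob : ∀ z, mob a 0 z = ρ * z := fun z => by
    unfold mob
    rw [map_zero, zero_mul, zero_add, add_zero, hρ]
    ring
  have hinf : Tendsto (fun z => ρ⁻¹ * w (ρ * z) - z) (cocompact ℂ) (𝓝 0) := by
    have h2 : Tendsto (fun z : ℂ => ρ * z) (cocompact ℂ) (cocompact ℂ) :=
      (Homeomorph.mulLeft₀ ρ hρ0).isClosedEmbedding.tendsto_cocompact
    have h3 := (hw.inf.comp h2).const_mul ρ⁻¹
    rw [mul_zero] at h3
    refine h3.congr fun z => ?_
    simp only [Function.comp_apply]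
    field_simp
  have hcoef : (fun z => ρ⁻¹ * (hh μ (ρ * z) * conj (deriv (fun z : ℂ => ρ * z) z)))
      =ᵐ[volume] fun z => pull a 0 μ z *
        (ρ⁻¹ * ((1 + Tf (hh μ) (ρ * z)) * deriv (fun z : ℂ => ρ * z) z)) := by
    refine Eventually.of_forall fun z => ?_
    simp only [hgd]
    by_cases hz : ‖z‖ < 1
    · have e1 : pull a 0 μ z = μ (ρ * z) * (ρ⁻¹ * conj ρ) := by
        unfold pull
        rw [if_pos hz, hmob, map_zero, zero_mul, zero_mul, zero_add, zero_add, hρ2]
      rw [e1, hh_eq hμ hs]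
      field_simp
    · have e1 : pull a 0 μ z = 0 := by
        unfold pull
        rw [if_neg hz]
      have e2 : hh μ (ρ * z) = 0 := by
        apply hh_suppIn hμ hs
        rw [norm_mul, hρn, one_mul]
        exact not_lt.1 hz
      rw [e1, e2]
      ring
  obtain ⟨q1, -, q3, -⟩ := unique_sol hpB hpS hW h1 hcoef hinf
  refine ⟨q3, ?_⟩
  have e0 : (fun z => (conj a / a) ^ 2 * hh μ (ρ * z)) =
      fun z => ρ⁻¹ * (hh μ (ρ * z) * conj (deriv (fun z : ℂ => ρ * z) z)) := by
    funext z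
    rw [hgd, hρ2]
    ring
  rw [e0]
  exact q1

theorem rot_nat {k : ℝ} {μ : ℂ → ℂ} (hμ : Bel k μ) (hs : SuppIn 1 μ) {a : ℂ} (h : a ≠ 0)
    {w om : ℂ ≃ₜ ℂ} (hw : IsW k μ w) (hom : IsW k (pull a 0 μ) om) (z : ℂ) :
    w (a / conj a * z) = a / conj a * om z := by
  have ha' : conj a ≠ 0 := by simpa using h
  have hρ0 : a / conj a ≠ 0 := div_ne_zero h ha'
  have h1 := (sr_main hμ hs h hw).1
  have h2 : (fun z => (a / conj a)⁻¹ * w (a / conj a * z)) =ᵐ[volume] om :=
    h1.trans (hom.ae.mono fun z hz => hz.symm)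
  have hc : Continuous fun z => (a / conj a)⁻¹ * w (a / conj a * z) :=
    continuous_const.mul (w.continuous.comp (continuous_const.mul continuous_id))
  have h3 := (Continuous.ae_eq_iff_eq volume hc om.continuous).1 h2
  have h4 : (a / conj a)⁻¹ * w (a / conj a * z) = om z := congrFun h3 z
  rw [← h4, mul_inv_cancel_left₀ hρ0]

/-- consequence for the integrals of `h`. -/
theorem integral_hh_rot {k : ℝ} {μ : ℂ → ℂ} (hμ : Bel k μ) (hs : SuppIn 1 μ) {a : ℂ}
    (h : a ≠ 0) : ∫ z, hh (pull a 0 μ) z = (conj a / a) ^ 2 * ∫ z, hh μ z := by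
  obtain ⟨w, hw⟩ := mrmt hμ hs
  have ha' : conj a ≠ 0 := by simpa using h
  have hρn : ‖a / conj a‖ = 1 := by
    rw [norm_div, Complex.norm_conj, div_self (norm_ne_zero_iff.2 h)]
  rw [← integral_congr_ae (sr_main hμ hs h hw).2, integral_const_mul]
  congr 1
  have hmem : a / conj a ∈ sphere (0 : ℂ) 1 := mem_sphere_zero_iff_norm.2 hρn
  obtain ⟨r, hr⟩ : ∃ r : Circle, (r : ℂ) = a / conj a := ⟨⟨a / conj a, hmem⟩, rfl⟩
  have h1 := (rotation r).measurePreserving.integral_comp
    (rotation r).toHomeomorph.measurableEmbedding (hh μ)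
  simp only [rotation_apply, hr] at h1
  exact h1

end QC
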