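import Pool.Agent.Work.MP_217185_an.HypB
import Pool.Agent.Work.MP_217185_an.Factor
import Pool.Agent.Work.MP_217185_an.WDcomp
import Pool.Agent.Work.MP_217185_an.SchwPre

/-! # SchwN1: Moebius naturality of the plane solution

Let `A = mob a b`, `ω` the plane solution of `pull a b μ`, `w` that of `μ`.
If `b = 0` then `A` is the rotation `z ↦ (a / conj a) z` and `w (A z) = (a/conj a) ω z`
(`IsW.unique`/`unique_sol`).  Let `b ≠ 0`, `p = - conj a / conj b` the pole of `A`, `‖p‖ > 1`.
`v = w ∘ A` is continuous on `U = ℂ \ {p}`, has weak derivatives there (`WD.comp_holo`) and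
coefficient `pull a b μ` (zero outside the disc, where `A` maps outside the disc).  `factor` for
`ω.approx`: `g = v ∘ ω.symm` is holomorphic on `ℂ \ {ω p}`, injective.  Near `ω p`: `ω` is
holomorphic near `p` with `ω'(p) ≠ 0` (injective), `(z - p) v z` has a nonzero limit at `p`
(`w ζ ~ ζ` at infinity, `(z-p) A z → (a p + b)/conj b ≠ 0`), so `(u - ω p) g u` has a nonzero limit
`d` as `u → ω p`; near infinity `g` is bounded (`v z → w (a / conj b)`).  So `g u = c + d/(u - ω p)`
(Liouville, removable singularity). -/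

open MeasureTheory Complex Set Metric Filter
open scoped Topology ENNReal NNReal ContDiff ComplexConjugate

namespace QC

/-- Liouville: a function holomorphic off `q` with a simple pole at `q` and a limit at infinity. -/
private theorem sn_liouville {g : ℂ → ℂ} {q c d : ℂ} (hg : DifferentiableOn ℂ g {q}ᶜ)
    (hinf : Tendsto g (cocompact ℂ) (𝓝 c))
    (hq : Tendsto (fun y => (y - q) * g y) (𝓝[≠] q) (𝓝 d)) {y : ℂ} (hy : y ≠ q) :
    g y = c + d / (y - q) := by
  set H : ℂ → ℂ := Function.update (fun y => (y - q) * (g y - c) - d) q 0 with hH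
  have hHq : H q = 0 := by simp [hH]
  have hHne : ∀ y, y ≠ q → H y = (y - q) * (g y - c) - d := fun y hy => by
    simp [hH, Function.update_of_ne hy]
  have hU : IsOpen ({q}ᶜ : Set ℂ) := isOpen_compl_singleton
  have hHd : ∀ y, y ≠ q → DifferentiableAt ℂ H y := by
    intro y hy
    have h1 : DifferentiableAt ℂ (fun y => (y - q) * (g y - c) - d) y :=
      ((differentiableAt_id.sub_const q).mul
        ((hg.differentiableAt (hU.mem_nhds hy)).sub_const c)).sub_const d
    refine h1.congr_of_eventuallyEq ?_
    filter_upwards [hU.mem_nhds hy] with v hv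
    exact hHne v hv
  have hHc : ContinuousAt H q := by
    rw [continuousAt_iff_punctured_nhds, hHq]
    have h1 : Tendsto (fun y => (y - q) * c) (𝓝[≠] q) (𝓝 0) := by
      have : Tendsto (fun y => (y - q) * c) (𝓝 q) (𝓝 ((q - q) * c)) :=
        ((continuous_id.sub continuous_const).mul continuous_const).tendsto q
      rw [sub_self, zero_mul] at this
      exact this.mono_left nhdsWithin_le_nhds
    have h2 := (hq.sub h1).sub_const d
    rw [sub_zero, sub_self] at h2
    refine h2.congr' ?_
    filter_upwards [self_mem_nhdsWithin] with v hv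
    rw [hHne v hv]
    ring
  have hHan : AnalyticAt ℂ H q := by
    apply analyticAt_of_differentiable_on_punctured_nhds_of_continuousAt _ hHc
    filter_upwards [self_mem_nhdsWithin] with v hv
    exact hHd v hv
  have hHdiff : Differentiable ℂ H := by
    intro y
    by_cases h : y = q
    · rw [h]; exact hHan.differentiableAt
    · exact hHd y h
  have hE : Differentiable ℂ (dslope H q) := by
    rw [← differentiableOn_univ]
    exact (Complex.differentiableOn_dslope univ_mem).2 hHdiff.differentiableOn
  have hcob : Tendsto (fun y : ℂ => d / (y - q)) (cocompact ℂ) (𝓝 0) := by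
    have h1 : Tendsto (fun y : ℂ => y - q) (cocompact ℂ) (cocompact ℂ) :=
      (Homeomorph.subRight q).isClosedEmbedding.tendsto_cocompact
    have h2 : Tendsto (fun u : ℂ => u⁻¹) (cocompact ℂ) (𝓝 0) := by
      rw [← Metric.cobounded_eq_cocompact]
      exact tendsto_inv₀_cobounded
    have h3 := (h2.comp h1).const_mul d
    rw [mul_zero] at h3
    refine h3.congr fun y => ?_
    simp [div_eq_mul_inv]
  have hne : ∀ᶠ y in cocompact ℂ, y ≠ q := (isCompact_singleton (x := q)).compl_mem_cocompact
  have hElim : Tendsto (dslope H q) (cocompact ℂ) (𝓝 0) := by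
    have h1 := (hinf.sub_const c).sub hcob
    rw [sub_self, sub_zero] at h1
    refine h1.congr' ?_
    filter_upwards [hne] with v hv
    rw [dslope_of_ne _ hv, slope_def_field, hHq, hHne v hv, sub_zero]
    have : v - q ≠ 0 := sub_ne_zero.2 hv
    field_simp
  have h0 := hE.apply_eq_of_tendsto_cocompact y hElim
  rw [dslope_of_ne _ hy, slope_def_field, hHq, hHne y hy, sub_zero] at h0
  have hyq : y - q ≠ 0 := sub_ne_zero.2 hy
  rw [div_eq_zero_iff] at h0
  rcases h0 with h0 | h0
  · field_simp
    linear_combination h0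
  · exact absurd h0 hyq

theorem mob_nat {k : ℝ} {μ : ℂ → ℂ} (hμ : Bel k μ) (hs : SuppIn 1 μ) {a b : ℂ} (h : ‖b‖ < ‖a‖)
    (hb : b ≠ 0) {w om : ℂ ≃ₜ ℂ} (hw : IsW k μ w) (hom : IsW k (pull a b μ) om) :
    ∃ c d : ℂ, d ≠ 0 ∧ ∀ z, conj b * z + conj a ≠ 0 →
      om z ≠ om (- conj a / conj b) ∧ w (mob a b z) = c + d / (om z - om (- conj a / conj b)) := by
  have hb' : conj b ≠ 0 := by simpa using hb
  have hbn : 0 < ‖b‖ := norm_pos_iff.2 hb
  obtain ⟨hpB, hpS⟩ := pull_bel h hμ
  set p : ℂ := - conj a / conj b with hp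
  have hpd : conj b * p + conj a = 0 := by
    rw [hp]; field_simp; ring
  have hpne : ∀ z, conj b * z + conj a ≠ 0 ↔ z ≠ p := by
    intro z
    rw [not_iff_not]
    constructor
    · intro hz
      have : conj b * z = conj b * p := by linear_combination hz - hpd
      exact mul_left_cancel₀ hb' this
    · rintro rfl; exact hpd
  have hp1 : 1 < ‖p‖ := by
    rw [hp, norm_div, norm_neg, Complex.norm_conj, Complex.norm_conj, lt_div_iff₀ hbn]
    linarith
  have hden : ∀ z, conj b * z + conj a = conj b * (z - p) := fun z => by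
    linear_combination hpd
  have hab : ((‖a‖ ^ 2 - ‖b‖ ^ 2 : ℝ) : ℂ) ≠ 0 := by
    rw [Complex.ofReal_ne_zero]
    nlinarith [norm_nonneg b]
  have hab2 : a * conj a - b * conj b ≠ 0 := by
    rw [Complex.mul_conj, Complex.mul_conj, Complex.normSq_eq_norm_sq, Complex.normSq_eq_norm_sq]
    exact_mod_cast hab
  have hapb : a * p + b ≠ 0 := by
    intro h0
    apply hab2
    have h1 : conj a * (a * p + b) = 0 := by rw [h0, mul_zero]
    have h2 : conj b * (a * p + b) = 0 := by rw [h0, mul_zero]
    linear_combination a * hpd - h2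
  set U : Set ℂ := {p}ᶜ with hUdef
  have hU : IsOpen U := isOpen_compl_singleton
  have hUne : ∀ z, z ∈ U → conj b * z + conj a ≠ 0 := fun z hz => (hpne z).2 hz
  have hA : ∀ z ∈ U, HasDerivAt (mob a b)
      (((‖a‖ ^ 2 - ‖b‖ ^ 2 : ℝ) : ℂ) / (conj b * z + conj a) ^ 2) z := fun z hz =>
    hasDerivAt_mob h (hUne z hz)
  have hAd : DifferentiableOn ℂ (mob a b) U := fun z hz =>
    (hA z hz).differentiableAt.differentiableWithinAt
  have hAi : InjOn (mob a b) U := by
    intro z hz z' hz' he
    have h1 := hUne z hz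
    have h2 := hUne z' hz'
    unfold mob at he
    rw [div_eq_div_iff h1 h2] at he
    have h3 : (a * conj a - b * conj b) * (z - z') = 0 := by linear_combination he
    rcases mul_eq_zero.1 h3 with h4 | h4
    · exact absurd h4 hab2
    · exact sub_eq_zero.1 h4
  have hWD := hw.wd.comp_holo isOpen_univ hU hAd hAi (mapsTo_univ _ _)
  have hcoef : ∀ᵐ z ∂(volume.restrict U),
      hh μ (mob a b z) * conj (deriv (mob a b) z)
        = pull a b μ z * ((1 + Tf (hh μ) (mob a b z)) * deriv (mob a b) z) := by
    refine (ae_restrict_iff' hU.measurableSet).2 (ae_of_all _ fun z hz => ?_)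
    have hd0 : deriv (mob a b) z ≠ 0 := by
      rw [(hA z hz).deriv]
      exact div_ne_zero hab (pow_ne_zero 2 (hUne z hz))
    by_cases hz1 : ‖z‖ < 1
    · have h1 : pull a b μ z = μ (mob a b z) * (conj (deriv (mob a b) z) / deriv (mob a b) z) := by
        rw [← (pull_factor h hz1).1]
        unfold pull
        rw [if_pos hz1]
      rw [h1, hh_eq hμ hs]
      field_simp
    · have h1 : pull a b μ z = 0 := by
        unfold pull
        rw [if_neg hz1]
      have h2 : 1 ≤ ‖mob a b z‖ := by
        rcases lt_or_eq_of_le (not_lt.1 hz1) with h3 | h3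
        · exact (norm_mob_gt h h3 (hUne z hz)).le
        · exact (norm_mob_eq h h3.symm).ge
      rw [h1, hh_suppIn hμ hs _ h2, zero_mul, zero_mul]
  have hfc : ContinuousOn (fun z => w (mob a b z)) U := fun z hz =>
    (w.continuous.continuousAt.comp (hA z hz).continuousAt).continuousWithinAt
  have hfac := factor hom.approx (Eventually.of_forall fun z => hh_eq hpB hpS z) hU hfc hWD hcoef
  have himg : om '' U = {om p}ᶜ := by
    rw [hUdef, image_compl_eq om.bijective, image_singleton]
  rw [himg] at hfac
  set q : ℂ := om p with hq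
  -- the limit at infinity
  have hlimA : Tendsto (mob a b) (cocompact ℂ) (𝓝 (a / conj b)) := by
    have h1 : Tendsto (fun y : ℂ => y - p) (cocompact ℂ) (cocompact ℂ) :=
      (Homeomorph.subRight p).isClosedEmbedding.tendsto_cocompact
    have h2 : Tendsto (fun u : ℂ => u⁻¹) (cocompact ℂ) (𝓝 0) := by
      rw [← Metric.cobounded_eq_cocompact]
      exact tendsto_inv₀_cobounded
    have h3 := ((h2.comp h1).const_mul ((a * p + b) / conj b)).const_add (a / conj b)
    rw [mul_zero, add_zero] at h3
    refine h3.congr' ?_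
    filter_upwards [(isCompact_singleton (x := p)).compl_mem_cocompact] with z hz
    have hz0 : z - p ≠ 0 := sub_ne_zero.2 hz
    simp only [Function.comp_apply, mob]
    rw [hden z]
    field_simp
    ring
  have hinf : Tendsto (fun y => w (mob a b (om.symm y))) (cocompact ℂ) (𝓝 (w (a / conj b))) :=
    (w.continuous.tendsto _).comp (hlimA.comp om.symm.isClosedEmbedding.tendsto_cocompact)
  -- the limit at the pole
  have homan := IsW.out hom 1 hpS
  have hopen : IsOpen {z : ℂ | 1 < ‖z‖} := isOpen_lt continuous_const continuous_norm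
  have h1an : AnalyticAt ℂ (fun z => z + Cau (hh (pull a b μ)) z) p :=
    analyticAt_id.add ((cau_holo (hh_memLp hpB hpS) (hh_suppIn hpB hpS)).analyticAt
      (hopen.mem_nhds hp1))
  have homan : AnalyticAt ℂ om p := h1an.congr (by
    filter_upwards [hopen.mem_nhds hp1] with u hu
    exact (homan u hu).symm)
  have hom0 : deriv om p ≠ 0 := homeo_deriv_ne_zero homan
  have hslope : Tendsto (fun z => (om z - q) / (z - p)) (𝓝[≠] p) (𝓝 (deriv om p)) := by
    have := hasDerivAt_iff_tendsto_slope.1 homan.differentiableAt.hasDerivAt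
    refine this.congr fun z => ?_
    rw [slope_def_field]
  have hzA : Tendsto (fun z => (z - p) * mob a b z) (𝓝[≠] p) (𝓝 ((a * p + b) / conj b)) := by
    have h1 : Tendsto (fun z => (a * z + b) / conj b) (𝓝[≠] p) (𝓝 ((a * p + b) / conj b)) := by
      have : Tendsto (fun z => (a * z + b) / conj b) (𝓝 p) (𝓝 ((a * p + b) / conj b)) :=
        (((continuous_const.mul continuous_id).add continuous_const).div_const _).tendsto p
      exact this.mono_left nhdsWithin_le_nhds
    refine h1.congr' ?_
    filter_upwards [self_mem_nhdsWithin] with z hz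
    have hz0 : z - p ≠ 0 := sub_ne_zero.2 hz
    simp only [mob]
    rw [hden z]
    field_simp
  have hzp : Tendsto (fun z : ℂ => z - p) (𝓝[≠] p) (𝓝[≠] 0) := by
    apply tendsto_nhdsWithin_of_tendsto_nhds_of_eventually_within
    · have : Tendsto (fun z : ℂ => z - p) (𝓝 p) (𝓝 (p - p)) :=
        (continuous_id.sub continuous_const).tendsto p
      rw [sub_self] at this
      exact this.mono_left nhdsWithin_le_nhds
    · filter_upwards [self_mem_nhdsWithin] with z hz
      exact sub_ne_zero.2 hz
  have hAinf : Tendsto (mob a b) (𝓝[≠] p) (cocompact ℂ) := by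
    rw [← Metric.cobounded_eq_cocompact]
    have h1 : Tendsto (fun z : ℂ => (z - p)⁻¹) (𝓝[≠] p) (Bornology.cobounded ℂ) :=
      tendsto_inv₀_nhdsNE_zero.comp hzp
    rw [← tendsto_norm_atTop_iff_cobounded] at h1 ⊢
    have h2 : Tendsto (fun z => ‖(z - p) * mob a b z‖) (𝓝[≠] p) (𝓝 ‖(a * p + b) / conj b‖) :=
      hzA.norm
    have h3 : 0 < ‖(a * p + b) / conj b‖ := norm_pos_iff.2 (div_ne_zero hapb hb')
    refine (h2.pos_mul_atTop h3 h1).congr' ?_
    filter_upwards [self_mem_nhdsWithin] with z hz
    have hz0 : z - p ≠ 0 := sub_ne_zero.2 hz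
    rw [← norm_mul]
    congr 1
    field_simp
  have hzw : Tendsto (fun z => (z - p) * w (mob a b z)) (𝓝[≠] p)
      (𝓝 ((a * p + b) / conj b)) := by
    have h1 : Tendsto (fun z => w (mob a b z) - mob a b z) (𝓝[≠] p) (𝓝 0) := hw.inf.comp hAinf
    have h2 := hzA.add ((hzp.mono_right nhdsWithin_le_nhds).mul h1)
    rw [mul_zero, add_zero] at h2
    refine h2.congr fun z => ?_
    ring
  have hprod : Tendsto (fun z => (om z - q) * w (mob a b z)) (𝓝[≠] p)
      (𝓝 (deriv om p * ((a * p + b) / conj b))) := by
    refine (hslope.mul hzw).congr' ?_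
    filter_upwards [self_mem_nhdsWithin] with z hz
    have hz0 : z - p ≠ 0 := sub_ne_zero.2 hz
    field_simp
  have hsymm : Tendsto om.symm (𝓝[≠] q) (𝓝[≠] p) := by
    apply tendsto_nhdsWithin_of_tendsto_nhds_of_eventually_within
    · have := om.symm.continuous.tendsto q
      rw [hq, om.symm_apply_apply] at this
      exact this.mono_left nhdsWithin_le_nhds
    · filter_upwards [self_mem_nhdsWithin] with y hy hc
      apply hy
      rw [mem_singleton_iff] at hc ⊢
      rw [hq, ← hc, om.apply_symm_apply]
  have hpole : Tendsto (fun y => (y - q) * w (mob a b (om.symm y))) (𝓝[≠] q)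
      (𝓝 (deriv om p * ((a * p + b) / conj b))) := by
    refine (hprod.comp hsymm).congr fun y => ?_
    simp only [Function.comp_apply, om.apply_symm_apply]
  refine ⟨w (a / conj b), deriv om p * ((a * p + b) / conj b),
    mul_ne_zero hom0 (div_ne_zero hapb hb'), fun z hz => ?_⟩
  have hzq : om z ≠ q := fun hc => ((hpne z).1 hz) (om.injective hc)
  refine ⟨hzq, ?_⟩
  have := sn_liouville hfac hinf hpole hzq
  simpa only [om.symm_apply_apply] using this

end QC
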