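import Pool.Agent.Work.MP_217185_an.Reg

/-! # Sm1: smooth solutions of the Beltrami equation

Let `s` be the test function with `s = μ dz (Cau s) + dz μ` (`reg` with `g = dz μ`), `σ = Cau s`.
Then `dzb σ = s` (`dz_cau`, `cau_dzb`), so `dzb σ = μ dz σ + dz μ`.  Put `P = exp σ`, `Q = μ P`
(smooth).  `dzb P = P dzb σ = P (μ dz σ + dz μ) = dz Q`, i.e. the form `P dz + Q dz̄` is closed.
`w z = ∫_0^1 (P (t z) z + Q (t z) conj z) dt` is smooth with `dz w = P`, `dzb w = Q` (Poincare lemma,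
differentiate under the integral).  `u = w - z` has `dzb u = Q`, a test function; `u - Cau Q` is
entire with derivative `P - 1 - dz (Cau Q)` which tends to `0` at infinity (`σ → 0`, `dz_cau_bound`),
so by Liouville the derivative is `0` and `u - Cau Q` is a constant `c`.  Replace `w` by `w - c`. -/

open MeasureTheory Complex Set Metric Filter
open scoped Topology ENNReal NNReal ContDiff ComplexConjugate

namespace QC

/-- Poincare lemma -/
private theorem sm_poinc {P Q : ℂ → ℂ} (hP : ContDiff ℝ ∞ P) (hQ : ContDiff ℝ ∞ Q)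
    (h : ∀ z, dzb P z = dz Q z) :
    ∃ w : ℂ → ℂ, ContDiff ℝ ∞ w ∧ (∀ z, dz w z = P z) ∧ (∀ z, dzb w z = Q z) := by
  obtain ⟨L1, hL1⟩ : ∃ L1 : ℂ →L[ℝ] ℂ →L[ℝ] ℂ, ∀ c v, L1 c v = c * v :=
    ⟨ContinuousLinearMap.mul ℝ ℂ, fun c v => rfl⟩
  obtain ⟨L2, hL2⟩ : ∃ L2 : ℂ →L[ℝ] ℂ →L[ℝ] ℂ, ∀ c v, L2 c v = c * conj v :=
    ⟨((ContinuousLinearMap.compL ℝ ℂ ℂ ℂ).flip (conjCLE : ℂ →L[ℝ] ℂ)).comp
      (ContinuousLinearMap.mul ℝ ℂ), fun c v => rfl⟩
  obtain ⟨om, hom⟩ : ∃ om : ℂ → ℂ →L[ℝ] ℂ, om = fun z => L1 (P z) + L2 (Q z) := ⟨_, rfl⟩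
  have hPd : Differentiable ℝ P := hP.differentiable (by simp)
  have hQd : Differentiable ℝ Q := hQ.differentiable (by simp)
  have hd : ∀ z, HasFDerivAt om (L1.comp (fderiv ℝ P z) + L2.comp (fderiv ℝ Q z)) z := by
    intro z
    rw [hom]
    exact (L1.hasFDerivAt.comp z (hPd z).hasFDerivAt).add
      (L2.hasFDerivAt.comp z (hQd z).hasFDerivAt)
  have homs : ContDiff ℝ ∞ om := by
    rw [hom]
    exact (L1.contDiff.comp hP).add (L2.contDiff.comp hQ)
  obtain ⟨w, hw⟩ := convex_univ.exists_forall_hasFDerivAt_of_fderiv_symmetric isOpen_univ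
    (fun z _ => (hd z).differentiableAt.differentiableWithinAt) (by
      intro a _ x y
      rw [(hd a).fderiv]
      simp only [add_apply, ContinuousLinearMap.comp_apply, hL1, hL2,
        fderiv_apply_eq P, fderiv_apply_eq Q, h a]
      ring)
  have hw' : ∀ z, HasFDerivAt w (om z) z := fun z => hw z (mem_univ z)
  have hfd : fderiv ℝ w = om := funext fun z => (hw' z).fderiv
  have hws : ContDiff ℝ ∞ w := by
    rw [contDiff_infty_iff_fderiv]
    refine ⟨fun z => (hw' z).differentiableAt, ?_⟩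
    rw [hfd]
    exact homs
  have h1 : ∀ z, om z 1 = P z + Q z := by
    intro z
    rw [hom]
    simp [hL1, hL2]
  have h2 : ∀ z, om z I = P z * I - Q z * I := by
    intro z
    rw [hom]
    simp [hL1, hL2, sub_eq_add_neg]
  refine ⟨w, hws, fun z => ?_, fun z => ?_⟩
  · unfold dz
    rw [hfd, h1, h2]
    linear_combination (-(P z) / 2 + Q z / 2) * I_mul_I
  · unfold dzb
    rw [hfd, h1, h2]
    linear_combination (P z / 2 - Q z / 2) * I_mul_I

theorem smooth_sol {k : ℝ} {μ : ℂ → ℂ} (hμ : Bel k μ) (hs : Test univ μ) :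
    ∃ w : ℂ → ℂ, ContDiff ℝ ∞ w ∧ (∀ z, dzb w z = μ z * dz w z) ∧ (∀ z, dz w z ≠ 0) ∧
      Test univ (dzb w) ∧ (∀ z, w z = z + Cau (dzb w) z) := by
  obtain ⟨s, hsT, hseq⟩ := reg hμ hs hs.dz.1
  obtain ⟨σ, hσ⟩ : ∃ σ, σ = Cau s := ⟨_, rfl⟩
  rw [← hσ] at hseq
  have hσs : ContDiff ℝ ∞ σ := by rw [hσ]; exact cau_contDiff hsT
  have hσb : ∀ z, dzb σ z = s z := by
    intro z
    rw [hσ, (dz_cau hsT z).2, cau_dzb hsT z]
  obtain ⟨P, hP⟩ : ∃ P : ℂ → ℂ, P = fun z => exp (σ z) := ⟨_, rfl⟩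
  obtain ⟨Q, hQ⟩ : ∃ Q : ℂ → ℂ, Q = fun z => μ z * P z := ⟨_, rfl⟩
  have hσd : Differentiable ℝ σ := hσs.differentiable (by simp)
  have hPs : ContDiff ℝ ∞ P := by rw [hP]; exact hσs.cexp
  have hQs : ContDiff ℝ ∞ Q := by rw [hQ]; exact hs.smooth.mul hPs
  have hPz : ∀ z, dz P z = P z * dz σ z ∧ dzb P z = P z * dzb σ z := by
    intro z
    rw [hP]
    have h0 : DifferentiableAt ℝ exp (σ z) :=
      DifferentiableAt.restrictScalars ℝ (𝕜' := ℂ) (Complex.differentiable_exp (σ z))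
    have h1 := dz_comp (f := exp) (g := σ) (z := z) h0 (hσd z)
    have h2 := dz_of_holo (f := exp) (z := σ z) Complex.differentiable_exp.differentiableAt
    rw [h2.1, h2.2, Complex.deriv_exp, zero_mul, zero_mul, add_zero, add_zero] at h1
    exact h1
  have hcl : ∀ z, dzb P z = dz Q z := by
    intro z
    rw [hQ, (dz_mul (hs.smooth.differentiable (by simp) z) (hPs.differentiable (by simp) z)).1,
      (hPz z).1, (hPz z).2, hσb, hseq z]
    ring
  obtain ⟨w, hw1, hw2, hw3⟩ := sm_poinc hPs hQs hcl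
  have hQT : Test univ Q := by
    refine ⟨hQs, ?_, subset_univ _⟩
    rw [hQ]
    exact hs.cpt.mul_right
  -- the difference is entire
  obtain ⟨E, hE⟩ : ∃ E : ℂ → ℂ, E = fun z => (w z - z) - Cau Q z := ⟨_, rfl⟩
  have hCs : ContDiff ℝ ∞ (Cau Q) := cau_contDiff hQT
  have hwd : Differentiable ℝ w := hw1.differentiable (by simp)
  have hCd : Differentiable ℝ (Cau Q) := hCs.differentiable (by simp)
  have hid : ∀ z, dz (fun z : ℂ => z) z = 1 ∧ dzb (fun z : ℂ => z) z = 0 := by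
    intro z
    have h1 := dz_of_holo (f := fun z : ℂ => z) (z := z) differentiableAt_id
    rw [h1.1, h1.2]
    exact ⟨deriv_id z, rfl⟩
  have hEz : ∀ z, dz E z = P z - 1 - dz (Cau Q) z ∧ dzb E z = 0 := by
    intro z
    have e1 := dz_sub (f := w) (g := fun z => z) (z := z) (hwd z) differentiableAt_id
    have e2 := dz_sub (f := fun z => w z - z) (g := Cau Q) (z := z)
      ((hwd z).sub differentiableAt_id) (hCd z)
    rw [hE, e2.1, e2.2, e1.1, e1.2, hw2, hw3, (hid z).1, (hid z).2, (dz_cau hQT z).2,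
      cau_dzb hQT z]
    exact ⟨rfl, by ring⟩
  have hEd : Differentiable ℂ E := by
    intro z
    apply holo_of_dzb _ (hEz z).2
    rw [hE]
    exact ((hwd z).sub differentiableAt_id).sub (hCd z)
  have hder : ∀ z, deriv E z = P z - 1 - dz (Cau Q) z := by
    intro z
    rw [← (hEz z).1, (dz_of_holo (hEd z)).1]
  -- decay
  have hdecay : ∀ {F : ℂ → ℂ} {C : ℝ}, (∀ z, ‖F z‖ * (1 + ‖z‖) ≤ C) →
      Tendsto F (cocompact ℂ) (𝓝 0) := by
    intro F C hF
    rw [tendsto_zero_iff_norm_tendsto_zero]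
    have h1 : Tendsto (fun z : ℂ => C / (1 + ‖z‖)) (cocompact ℂ) (𝓝 0) := by
      apply Tendsto.const_div_atTop
      exact tendsto_atTop_add_const_left _ _ tendsto_norm_cocompact_atTop
    refine squeeze_zero (fun z => norm_nonneg _) (fun z => ?_) h1
    rw [le_div_iff₀ (by positivity)]
    exact hF z
  have hσ0 : Tendsto σ (cocompact ℂ) (𝓝 0) := by
    obtain ⟨C, hC⟩ := cau_bound hsT
    rw [hσ]
    exact hdecay hC
  have hCQ0 : Tendsto (dz (Cau Q)) (cocompact ℂ) (𝓝 0) := by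
    obtain ⟨C, hC⟩ := dz_cau_bound hQT
    refine hdecay (C := C) fun z => le_trans ?_ (hC z)
    apply mul_le_mul_of_nonneg_left _ (norm_nonneg _)
    nlinarith [norm_nonneg z]
  have hlim : Tendsto (deriv E) (cocompact ℂ) (𝓝 0) := by
    have h1 : Tendsto (fun z => P z - 1 - dz (Cau Q) z) (cocompact ℂ) (𝓝 (exp 0 - 1 - 0)) := by
      rw [hP]
      exact (((continuous_exp.tendsto 0).comp hσ0).sub_const 1).sub hCQ0
    rw [exp_zero, sub_self, sub_zero] at h1
    exact h1.congr fun z => (hder z).symm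
  have hd0 : ∀ z, deriv E z = 0 := by
    intro z
    have h1 := hEd.deriv.eq_const_of_tendsto_cocompact hlim
    rw [h1]
    rfl
  have hconst : ∀ z, E z = E 0 := fun z => is_const_of_deriv_eq_zero hEd hd0 z 0
  obtain ⟨v, hv⟩ : ∃ v : ℂ → ℂ, v = fun z => w z - E 0 := ⟨_, rfl⟩
  have hfv : fderiv ℝ v = fderiv ℝ w := by
    rw [hv]
    funext z
    exact fderiv_sub_const _
  have hvz : ∀ z, dz v z = P z := by
    intro z
    rw [← hw2 z]
    unfold dz
    rw [hfv]
  have hvb : ∀ z, dzb v z = Q z := by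
    intro z
    rw [← hw3 z]
    unfold dzb
    rw [hfv]
  have hvQ : dzb v = Q := funext hvb
  refine ⟨v, ?_, ?_, ?_, ?_, ?_⟩
  · rw [hv]; exact hw1.sub contDiff_const
  · intro z
    rw [hvz, hvb, hQ]
  · intro z
    rw [hvz, hP]
    exact exp_ne_zero _
  · rw [hvQ]; exact hQT
  · intro z
    rw [hvQ]
    have h1 := hconst z
    have h2 : E z = (w z - z) - Cau Q z := by rw [hE]
    rw [hv]
    simp only
    rw [← h1, h2]
    ring

end QC
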