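import Pool.Agent.Work.MP_217185_an.NiceD
import Pool.Agent.Work.MP_217185_an.HSpC

/-! # TDefs: Teichmueller space, WP-class Teichmueller space, right translations -/

open MeasureTheory Complex Set Metric Filter
open scoped Topology ENNReal NNReal ContDiff ComplexConjugate

noncomputable section

namespace QC

/-- A marked surface: a quasiconformal homeomorphism `f` of `S` onto a bordered surface `S₁`,
given by a lift `F` to the closed disc. -/
structure Marked (S : Bord) where
  F : CD ≃ₜ CD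
  T : Bord
  tgt : Tgt S F T

/-- `(S, f₁, S₁) ~ (S, f₂, S₂)`: there is a biholomorphism `σ : S₁ → S₂` such that
`f₂⁻¹ ∘ σ ∘ f₁` is homotopic to the identity rel boundary.  Here `σ` is a lift of the biholomorphism,
and the homotopy `h` is lifted to the regular set (open disc and regular points of the circle). -/
def MEquiv (S : Bord) (m₁ m₂ : Marked S) : Prop :=
  ∃ σ : CD ≃ₜ CD, IsMob σ ∧ Tgt m₁.T σ m₂.T ∧
    ∃ h : unitInterval → CD → CD,
      ContinuousOn (fun p : unitInterval × CD => h p.1 p.2) (univ ×ˢ Reg S.Γ) ∧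
      (∀ t, ∀ x ∈ Reg S.Γ, h t x ∈ Reg S.Γ) ∧
      (∀ x ∈ Reg S.Γ, h 0 x = x) ∧
      (∀ x ∈ Reg S.Γ, h 1 x = (m₂.F⁻¹ * σ * m₁.F) x) ∧
      (∀ t, ∀ x ∈ Reg S.Γ, ‖(x : ℂ)‖ = 1 → h t x = x) ∧
      (∀ γ ∈ S.Γ, ∀ t, ∀ x ∈ Reg S.Γ, h t (γ x) = γ (h t x))

/-- Teichmueller space of the bordered surface `S`. -/
def Teich (S : Bord) : Type := Quot (MEquiv S)

/-- the class of a marked surface. -/
def Teich.mk {S : Bord} (m : Marked S) : Teich S := Quot.mk _ m

/-- the base point. -/
def Teich.base (S : Bord) : Teich S := Teich.mk ⟨1, S, tgt_one S⟩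

/-- WP-class Teichmueller space: the classes with a representative whose Beltrami differential is
square integrable for the hyperbolic area. -/
def TWP (S : Bord) : Set (Teich S) :=
  {p | ∃ m : Marked S, Teich.mk m = p ∧ ∃ k μ, IsQC k m.F μ ∧ L2hyp S μ}

/-- right composition with `h : S → S₂`. -/
def Marked.comp {S S₂ : Bord} {h : CD ≃ₜ CD} (hh : Tgt S h S₂) (m : Marked S₂) : Marked S :=
  ⟨m.F * h, m.T, m.tgt.comp hh⟩

/-- Two marked surfaces are equivalent iff the markings agree on the circle up to a Moebius map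
(proved in `Crit`). -/
def CEquiv (S : Bord) (m₁ m₂ : Marked S) : Prop :=
  ∃ σ : CD ≃ₜ CD, IsMob σ ∧ ∀ x : CD, ‖(x : ℂ)‖ = 1 → m₂.F x = σ (m₁.F x)

end QC

end
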