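import Pool.Agent.Work.MP_217185_an.Cau1
import Pool.Agent.Work.MP_217185_an.TOpA

/-! # TOpB: the Beurling transform on `L²(ℂ)`

For a test function `g` put `T g = dz (Cau g) ∈ L²` (`dz_cau_bound`).  With a smooth
cutoff `χ_R` (`= 1` on the ball of radius `R`, support in `2R`, gradient `≤ C/R`) and
`φ_R = χ_R Cau g`: `∫ |dz φ_R|² = ∫ |dzb φ_R|²`, and both sides converge by dominated convergence, so
`∫ |dz (Cau g)|² = ∫ |g|²`.  Test functions are dense in `L²`, so `T` extends to a linear isometry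
(`LinearMap.extendOfNorm`). -/

open MeasureTheory Complex Set Metric Filter
open scoped Topology ENNReal NNReal ContDiff ComplexConjugate

namespace QC

/-- a smooth bump function -/
private noncomputable def TOpB_X (z : ℂ) : ℂ :=
  (((⟨1, 2, one_pos, by norm_num⟩ : ContDiffBump (0 : ℂ)) z : ℝ) : ℂ)

private theorem TOpB_X_smooth : ContDiff ℝ ∞ TOpB_X := by
  unfold TOpB_X
  exact Complex.ofRealCLM.contDiff.comp (ContDiffBump.contDiff _)

private theorem TOpB_X_cpt : HasCompactSupport TOpB_X := by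
  have h := (⟨1, 2, one_pos, by norm_num⟩ : ContDiffBump (0 : ℂ)).hasCompactSupport
  exact h.comp_left (g := fun x : ℝ => (x : ℂ)) (by simp)

private theorem TOpB_X_one {z : ℂ} (hz : ‖z‖ ≤ 1) : TOpB_X z = 1 := by
  unfold TOpB_X
  rw [ContDiffBump.one_of_mem_closedBall _ (by simpa using hz)]
  simp

private theorem TOpB_X_zero {z : ℂ} (hz : 2 ≤ ‖z‖) : TOpB_X z = 0 := by
  unfold TOpB_X
  rw [ContDiffBump.zero_of_le_dist _ (by simpa using hz)]
  simp

private theorem TOpB_X_le (z : ℂ) : ‖TOpB_X z‖ ≤ 1 := by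
  unfold TOpB_X
  rw [Complex.norm_real, Real.norm_eq_abs, abs_of_nonneg (ContDiffBump.nonneg _)]
  exact ContDiffBump.le_one _

/-- cutoff function -/
private noncomputable def TOpB_chi (n : ℕ) (z : ℂ) : ℂ := TOpB_X (((n : ℝ) + 1)⁻¹ • z)

private theorem TOpB_chi_smooth (n : ℕ) : ContDiff ℝ ∞ (TOpB_chi n) := by
  unfold TOpB_chi
  exact TOpB_X_smooth.comp (contDiff_const_smul _)

private theorem TOpB_norm_smul (n : ℕ) (z : ℂ) :
    ‖((n : ℝ) + 1)⁻¹ • z‖ = ‖z‖ / ((n : ℝ) + 1) := by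
  rw [norm_smul, norm_inv, Real.norm_of_nonneg (by positivity : (0:ℝ) ≤ (n : ℝ) + 1)]
  field_simp

private theorem TOpB_chi_one {n : ℕ} {z : ℂ} (hz : ‖z‖ ≤ (n : ℝ) + 1) : TOpB_chi n z = 1 := by
  refine TOpB_X_one ?_
  rw [TOpB_norm_smul, div_le_one (by positivity)]
  exact hz

private theorem TOpB_chi_zero {n : ℕ} {z : ℂ} (hz : 2 * ((n : ℝ) + 1) ≤ ‖z‖) :
    TOpB_chi n z = 0 := by
  refine TOpB_X_zero ?_
  rw [TOpB_norm_smul, le_div_iff₀ (by positivity)]
  exact hz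

private theorem TOpB_chi_le (n : ℕ) (z : ℂ) : ‖TOpB_chi n z‖ ≤ 1 := TOpB_X_le _

private theorem TOpB_chi_cpt (n : ℕ) : HasCompactSupport (TOpB_chi n) := by
  refine HasCompactSupport.intro (isCompact_closedBall (0 : ℂ) (2 * ((n : ℝ) + 1))) ?_
  intro z hz
  refine TOpB_chi_zero ?_
  have : ¬ ‖z‖ ≤ 2 * ((n : ℝ) + 1) := by simpa using hz
  exact (not_le.1 this).le

/-- bound of the derivative of the cutoff -/
private theorem TOpB_chi_fderiv : ∃ C : ℝ, 0 ≤ C ∧ ∀ (n : ℕ) (z : ℂ),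
    ‖fderiv ℝ (TOpB_chi n) z‖ * (1 + ‖z‖) ≤ C := by
  have hc : Continuous (fderiv ℝ TOpB_X) :=
    TOpB_X_smooth.continuous_fderiv (by simp)
  obtain ⟨C, hC⟩ := (TOpB_X_cpt.fderiv (𝕜 := ℝ)).exists_bound_of_continuous hc
  have hC0 : 0 ≤ C := (norm_nonneg _).trans (hC 0)
  refine ⟨3 * C, by positivity, fun n z => ?_⟩
  have hn : (0 : ℝ) < (n : ℝ) + 1 := by positivity
  by_cases hz : ‖z‖ ≤ 2 * ((n : ℝ) + 1)
  · have h1 : HasFDerivAt (TOpB_chi n)
        ((fderiv ℝ TOpB_X (((n : ℝ) + 1)⁻¹ • z)).comp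
          (((n : ℝ) + 1)⁻¹ • ContinuousLinearMap.id ℝ ℂ)) z := by
      have h2 : HasFDerivAt TOpB_X (fderiv ℝ TOpB_X (((n : ℝ) + 1)⁻¹ • z))
          (((n : ℝ) + 1)⁻¹ • z) :=
        (TOpB_X_smooth.differentiable (by simp)).differentiableAt.hasFDerivAt
      have h5 : HasFDerivAt (fun z : ℂ => ((n : ℝ) + 1)⁻¹ • z)
          (((n : ℝ) + 1)⁻¹ • ContinuousLinearMap.id ℝ ℂ) z :=
        (hasFDerivAt_id z).const_smul (((n : ℝ) + 1)⁻¹)
      exact h2.comp z h5
    rw [h1.fderiv]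
    have h3 : ‖(fderiv ℝ TOpB_X (((n : ℝ) + 1)⁻¹ • z)).comp
          (((n : ℝ) + 1)⁻¹ • ContinuousLinearMap.id ℝ ℂ)‖ ≤ C * ((n : ℝ) + 1)⁻¹ := by
      refine (ContinuousLinearMap.opNorm_comp_le _ _).trans ?_
      refine mul_le_mul (hC _) ?_ (norm_nonneg _) hC0
      rw [norm_smul, norm_inv, Real.norm_of_nonneg hn.le]
      have : ‖ContinuousLinearMap.id ℝ ℂ‖ ≤ 1 := ContinuousLinearMap.norm_id_le
      have h4 : 0 ≤ ((n : ℝ) + 1)⁻¹ := by positivity
      nlinarith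
    calc _ ≤ (C * ((n : ℝ) + 1)⁻¹) * (1 + ‖z‖) :=
          mul_le_mul_of_nonneg_right h3 (by positivity)
      _ ≤ (C * ((n : ℝ) + 1)⁻¹) * (3 * ((n : ℝ) + 1)) := by
          refine mul_le_mul_of_nonneg_left ?_ (by positivity)
          have : (0 : ℝ) ≤ n := Nat.cast_nonneg n
          linarith
      _ = 3 * C := by field_simp
  · rw [not_le] at hz
    have h1 : TOpB_chi n =ᶠ[𝓝 z] fun _ => 0 := by
      have : {w : ℂ | 2 * ((n : ℝ) + 1) < ‖w‖} ∈ 𝓝 z :=
        (isOpen_lt continuous_const continuous_norm).mem_nhds hz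
      filter_upwards [this] with w hw
      exact TOpB_chi_zero (le_of_lt hw)
    rw [h1.fderiv_eq]
    simp
    positivity

private theorem TOpB_fderiv_zero {n : ℕ} {z : ℂ} (hz : ‖z‖ < (n : ℝ) + 1) :
    fderiv ℝ (TOpB_chi n) z = 0 := by
  have h1 : TOpB_chi n =ᶠ[𝓝 z] fun _ => 1 := by
    have : {w : ℂ | ‖w‖ < (n : ℝ) + 1} ∈ 𝓝 z :=
      (isOpen_lt continuous_norm continuous_const).mem_nhds hz
    filter_upwards [this] with w hw
    exact TOpB_chi_one (le_of_lt hw)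
  rw [h1.fderiv_eq]
  simp

/-- convergence of the Dirichlet integrals of the truncated function -/
private theorem TOpB_tend (D : (ℂ → ℂ) → ℂ → ℂ)
    (hmul : ∀ (f g : ℂ → ℂ) (z : ℂ), DifferentiableAt ℝ f z → DifferentiableAt ℝ g z →
      D (fun z => f z * g z) z = D f z * g z + f z * D g z)
    (hnorm : ∀ (f : ℂ → ℂ) (z : ℂ), ‖D f z‖ ≤ ‖fderiv ℝ f z‖)
    (hcont : ∀ f : ℂ → ℂ, ContDiff ℝ ∞ f → Continuous (D f))
    {u : ℂ → ℂ} (hu : ContDiff ℝ ∞ u) {A B : ℝ} (hA : ∀ z, ‖u z‖ * (1 + ‖z‖) ≤ A)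
    (hB : ∀ z, ‖D u z‖ * (1 + ‖z‖) ^ 2 ≤ B) :
    Tendsto (fun n : ℕ => ∫ z, ‖D (fun z => TOpB_chi n z * u z) z‖ ^ 2) atTop
      (𝓝 (∫ z, ‖D u z‖ ^ 2)) := by
  obtain ⟨C, hC0, hC⟩ := TOpB_chi_fderiv
  have hA0 : 0 ≤ A := le_trans (by positivity) (hA 0)
  have hB0 : 0 ≤ B := le_trans (by positivity) (hB 0)
  have hint : Integrable (fun z : ℂ => (C * A + B) ^ 2 * (1 + ‖z‖) ^ (-(4 : ℝ))) volume :=
    (integrable_one_add_norm (by simp; norm_num)).const_mul _
  have hdiffu : ∀ z, DifferentiableAt ℝ u z := fun z =>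
    (hu.differentiable (by simp)).differentiableAt
  have hdiffc : ∀ n z, DifferentiableAt ℝ (TOpB_chi n) z := fun n z =>
    ((TOpB_chi_smooth n).differentiable (by simp)).differentiableAt
  refine tendsto_integral_of_dominated_convergence
    (fun z : ℂ => (C * A + B) ^ 2 * (1 + ‖z‖) ^ (-(4 : ℝ))) ?_ hint ?_ ?_
  · intro n
    exact ((hcont _ ((TOpB_chi_smooth n).mul hu)).norm.pow 2).aestronglyMeasurable
  · intro n
    refine Eventually.of_forall fun z => ?_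
    rw [hmul _ _ z (hdiffc n z) (hdiffu z)]
    have h1 : (0 : ℝ) < 1 + ‖z‖ := by positivity
    have h2 : ‖D (TOpB_chi n) z * u z + TOpB_chi n z * D u z‖ * (1 + ‖z‖) ^ 2 ≤ C * A + B := by
      have e1 : ‖D (TOpB_chi n) z * u z + TOpB_chi n z * D u z‖ ≤
          ‖fderiv ℝ (TOpB_chi n) z‖ * ‖u z‖ + ‖D u z‖ := by
        refine (norm_add_le _ _).trans ?_
        rw [norm_mul, norm_mul]
        refine add_le_add (mul_le_mul_of_nonneg_right (hnorm _ _) (norm_nonneg _)) ?_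
        calc _ ≤ 1 * ‖D u z‖ := mul_le_mul_of_nonneg_right (TOpB_chi_le n z) (norm_nonneg _)
          _ = _ := one_mul _
      calc _ ≤ (‖fderiv ℝ (TOpB_chi n) z‖ * ‖u z‖ + ‖D u z‖) * (1 + ‖z‖) ^ 2 :=
            mul_le_mul_of_nonneg_right e1 (by positivity)
        _ = (‖fderiv ℝ (TOpB_chi n) z‖ * (1 + ‖z‖)) * (‖u z‖ * (1 + ‖z‖)) +
            ‖D u z‖ * (1 + ‖z‖) ^ 2 := by ring
        _ ≤ C * A + B := by
            refine add_le_add (mul_le_mul (hC n z) (hA z) (by positivity) hC0) (hB z)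
    rw [Real.norm_of_nonneg (by positivity)]
    have h3 : ‖D (TOpB_chi n) z * u z + TOpB_chi n z * D u z‖ ≤
        (C * A + B) * ((1 + ‖z‖) ^ 2)⁻¹ := by
      rw [← div_eq_mul_inv, le_div_iff₀ (by positivity)]
      exact h2
    calc _ ≤ ((C * A + B) * ((1 + ‖z‖) ^ 2)⁻¹) ^ 2 :=
          pow_le_pow_left₀ (norm_nonneg _) h3 2
      _ = (C * A + B) ^ 2 * (1 + ‖z‖) ^ (-(4 : ℝ)) := by
          rw [Real.rpow_neg h1.le]
          have : (1 + ‖z‖) ^ (4 : ℝ) = (1 + ‖z‖) ^ 4 := by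
            exact_mod_cast Real.rpow_natCast (1 + ‖z‖) 4
          rw [this, mul_pow, inv_pow, ← pow_mul]
  · refine Eventually.of_forall fun z => ?_
    obtain ⟨N, hN⟩ := exists_nat_gt ‖z‖
    refine tendsto_const_nhds.congr' ?_
    filter_upwards [eventually_ge_atTop N] with n hn
    have h1 : ‖z‖ < (n : ℝ) + 1 := by
      have : (N : ℝ) ≤ n := by exact_mod_cast hn
      linarith
    rw [hmul _ _ z (hdiffc n z) (hdiffu z)]
    have h2 : D (TOpB_chi n) z = 0 := by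
      have := hnorm (TOpB_chi n) z
      rw [TOpB_fderiv_zero h1, norm_zero] at this
      exact norm_le_zero_iff.1 this
    rw [h2, TOpB_chi_one h1.le]
    simp

private theorem TOpB_key {g : ℂ → ℂ} (hg : Test univ g) :
    ∫ z, ‖dz (Cau g) z‖ ^ 2 = ∫ z, ‖g z‖ ^ 2 := by
  have hu : ContDiff ℝ ∞ (Cau g) := cau_contDiff hg
  have hdzb : ∀ z, dzb (Cau g) z = g z := fun z => by
    rw [(dz_cau hg z).2, cau_dzb hg]
  obtain ⟨A, hA⟩ := cau_bound hg
  obtain ⟨B, hB⟩ := dz_cau_bound hg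
  have hE : ∃ E : ℝ, ∀ z, ‖dzb (Cau g) z‖ * (1 + ‖z‖) ^ 2 ≤ E := by
    have h1 : HasCompactSupport fun z : ℂ => g z * (((1 + ‖z‖) ^ 2 : ℝ) : ℂ) :=
      hg.cpt.mul_right
    have h2 : Continuous fun z : ℂ => g z * (((1 + ‖z‖) ^ 2 : ℝ) : ℂ) := by
      refine hg.smooth.continuous.mul ?_
      fun_prop
    obtain ⟨E, hE⟩ := h1.exists_bound_of_continuous h2
    refine ⟨E, fun z => ?_⟩
    have := hE z
    rw [norm_mul, Complex.norm_real, Real.norm_of_nonneg (by positivity)] at this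
    rw [hdzb]
    exact this
  obtain ⟨E, hE⟩ := hE
  have t1 := TOpB_tend dz (fun f g z hf hg => (dz_mul hf hg).1) norm_dz_le
    (fun f hf => (contDiff_dz hf).1.continuous) hu hA hB
  have t2 := TOpB_tend dzb (fun f g z hf hg => (dz_mul hf hg).2) norm_dzb_le
    (fun f hf => (contDiff_dz hf).2.continuous) hu hA hE
  have heq : ∀ n : ℕ, ∫ z, ‖dz (fun z => TOpB_chi n z * Cau g z) z‖ ^ 2 =
      ∫ z, ‖dzb (fun z => TOpB_chi n z * Cau g z) z‖ ^ 2 := by
    intro n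
    have hT : Test univ (fun z => TOpB_chi n z * Cau g z) :=
      ⟨(TOpB_chi_smooth n).mul hu, (TOpB_chi_cpt n).mul_right, subset_univ _⟩
    have h := (integral_dz_dzb hT hT).1
    simp only [Complex.mul_conj'] at h
    have h' : ((∫ z, ‖dz (fun z => TOpB_chi n z * Cau g z) z‖ ^ 2 : ℝ) : ℂ) =
        ((∫ z, ‖dzb (fun z => TOpB_chi n z * Cau g z) z‖ ^ 2 : ℝ) : ℂ) := by
      rw [← integral_complex_ofReal, ← integral_complex_ofReal]
      simpa using h
    exact_mod_cast h'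
  have := tendsto_nhds_unique t1 (t2.congr fun n => (heq n).symm)
  rw [this]
  simp only [hdzb]

private theorem TOpB_norm {g : ℂ → ℂ} (hg : Test univ g) :
    ‖(memLp_dz_cau hg).toLp (dz (Cau g))‖ = ‖hg.memLp.toLp g‖ := by
  rw [Lp.norm_toLp, Lp.norm_toLp,
    (memLp_dz_cau hg).eLpNorm_eq_integral_rpow_norm (by simp) (by simp),
    hg.memLp.eLpNorm_eq_integral_rpow_norm (by simp) (by simp)]
  have h2 : ∀ x : ℝ, x ^ ((2 : ℝ≥0∞).toReal) = x ^ 2 := fun x => by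
    rw [ENNReal.toReal_ofNat]
    exact_mod_cast Real.rpow_natCast x 2
  simp only [h2]
  rw [TOpB_key hg]

private theorem TOpB_cau_add {g h : ℂ → ℂ} (hg : Test univ g) (hh : Test univ h)
    (hgh : Test univ (g + h)) (z : ℂ) : Cau (g + h) z = Cau g z + Cau h z := by
  have := cau_sub hgh hh z
  simp only [Pi.add_apply, add_sub_cancel_right] at this
  have e : Cau (fun z => g z) z = Cau g z := rfl
  rw [e] at this
  rw [this]
  ring

private theorem TOpB_cau_smul (c : ℂ) (g : ℂ → ℂ) (z : ℂ) : Cau (c • g) z = c * Cau g z := by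
  unfold Cau
  have : ∀ ζ, (c • g) ζ / (z - ζ) = c * (g ζ / (z - ζ)) := fun ζ => by
    simp only [Pi.smul_apply, smul_eq_mul]
    ring
  simp only [this, integral_const_mul]
  ring

/-- test functions as a submodule -/
private def TOpB_TS : Submodule ℂ (ℂ → ℂ) where
  carrier := {g | Test univ g}
  add_mem' := fun {a b} ha hb => ⟨ha.smooth.add hb.smooth, ha.cpt.add hb.cpt, subset_univ _⟩
  zero_mem' := ⟨contDiff_const, HasCompactSupport.zero, subset_univ _⟩
  smul_mem' := fun c a ha => ⟨contDiff_const.smul ha.smooth, ha.cpt.smul_left, subset_univ _⟩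

/-- the inclusion in `L²` -/
private noncomputable def TOpB_e : TOpB_TS →ₗ[ℂ] Lp ℂ 2 (volume : Measure ℂ) where
  toFun g := (Test.memLp g.2).toLp g
  map_add' a b := by
    rw [← MemLp.toLp_add]
    rfl
  map_smul' c a := by
    rw [RingHom.id_apply, ← MemLp.toLp_const_smul]
    rfl

/-- the transform on test functions -/
private noncomputable def TOpB_f : TOpB_TS →ₗ[ℂ] Lp ℂ 2 (volume : Measure ℂ) where
  toFun g := (memLp_dz_cau g.2).toLp (dz (Cau g))
  map_add' a b := by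
    rw [← MemLp.toLp_add]
    refine MemLp.toLp_congr _ _ (Eventually.of_forall fun z => ?_)
    have h1 : Cau ((a + b : TOpB_TS) : ℂ → ℂ) = fun z => Cau a z + Cau b z := by
      funext w
      exact TOpB_cau_add a.2 b.2 (a + b).2 w
    rw [h1]
    simp only [Pi.add_apply]
    exact (dz_add ((cau_contDiff a.2).differentiable (by simp)).differentiableAt
      ((cau_contDiff b.2).differentiable (by simp)).differentiableAt).1
  map_smul' c a := by
    rw [RingHom.id_apply, ← MemLp.toLp_const_smul]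
    refine MemLp.toLp_congr _ _ (Eventually.of_forall fun z => ?_)
    have h1 : Cau ((c • a : TOpB_TS) : ℂ → ℂ) = fun z => (fun _ => c) z * Cau a z := by
      funext w
      exact TOpB_cau_smul c a w
    rw [h1, (dz_mul (differentiableAt_const c)
      ((cau_contDiff a.2).differentiable (by simp)).differentiableAt).1]
    have h2 : dz (fun _ : ℂ => c) z = 0 := by
      unfold dz
      simp
    rw [h2]
    simp

private theorem TOpB_dense : DenseRange TOpB_e := by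
  intro h
  obtain ⟨F, hF, ht⟩ := exists_test_L2 (Lp.memLp h)
  refine mem_closure_of_tendsto (f := fun n => TOpB_e ⟨F n, hF n⟩) (b := atTop) ?_
    (Eventually.of_forall fun n => mem_range_self _)
  rw [Lp.tendsto_Lp_iff_tendsto_eLpNorm']
  refine ht.congr fun n => eLpNorm_congr_ae ?_
  have : (TOpB_e ⟨F n, hF n⟩ : ℂ → ℂ) =ᵐ[volume] F n := MemLp.coeFn_toLp (hF n).memLp
  filter_upwards [this] with z hz
  simp only [Pi.sub_apply, hz]

theorem exists_T : ∃ T : Lp ℂ 2 (volume : Measure ℂ) →ₗᵢ[ℂ] Lp ℂ 2 (volume : Measure ℂ),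
    ∀ (g : ℂ → ℂ) (hg : Test univ g),
      (T (hg.memLp.toLp g) : ℂ → ℂ) =ᵐ[volume] dz (Cau g) := by
  have hnorm : ∀ x, ‖TOpB_f x‖ = ‖TOpB_e x‖ := fun x => TOpB_norm x.2
  have hb : ∃ C, ∀ x, ‖TOpB_f x‖ ≤ C * ‖TOpB_e x‖ := ⟨1, fun x => by rw [hnorm, one_mul]⟩
  have hext : ∀ x, TOpB_f.extendOfNorm TOpB_e (TOpB_e x) = TOpB_f x :=
    LinearMap.extendOfNorm_eq TOpB_dense hb
  refine ⟨⟨(TOpB_f.extendOfNorm TOpB_e).toLinearMap, fun x => ?_⟩, fun g hg => ?_⟩
  · refine TOpB_dense.induction_on (p := fun x =>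
      ‖(TOpB_f.extendOfNorm TOpB_e).toLinearMap x‖ = ‖x‖) x ?_ fun a => ?_
    · refine isClosed_eq ?_ continuous_norm
      exact (TOpB_f.extendOfNorm TOpB_e).continuous.norm
    · have := hext a
      simp only [ContinuousLinearMap.coe_coe]
      rw [this, hnorm]
  · have h1 := hext ⟨g, hg⟩
    have h2 : TOpB_e ⟨g, hg⟩ = hg.memLp.toLp g := rfl
    have h3 : TOpB_f ⟨g, hg⟩ = (memLp_dz_cau hg).toLp (dz (Cau g)) := rfl
    rw [h2, h3] at h1
    have h4 : ((TOpB_f.extendOfNorm TOpB_e) (hg.memLp.toLp g) : ℂ → ℂ) =ᵐ[volume]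
        dz (Cau g) := by
      rw [h1]
      exact MemLp.coeFn_toLp _
    exact h4

end QC
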