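import Pool.Agent.Work.MP_217185_an.Cau1
import Pool.Agent.Work.MP_217185_an.TOpB

/-! # TOpDef: the Beurling transform on `L²(ℂ)`

`exists_T`: for a test function `g` put `T g = dz (Cau g) ∈ L²` (`dz_cau_bound`).  With a smooth
cutoff `χ_R` (`= 1` on the ball of radius `R`, support in `2R`, gradient `≤ C/R`) and
`φ_R = χ_R Cau g`: `dzb φ_R = χ_R g + dzb χ_R Cau g → g`, `dz φ_R → dz (Cau g)` in `L²` because
`‖dzb χ_R Cau g‖₂ ≤ (C/R) (∫_{R<|z|<2R} (C/|z|)²)^{1/2} = O(1/R)`.  By `integral_dz_dzb`
`⟪T g, T g'⟫ = ⟪g, g'⟫`, `∫ T g g' = ∫ g T g'`.  Test functions are dense in `L²`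
(Mathlib: `MeasureTheory.MemLp.exists_hasCompactSupport_eLpNorm_sub_le` for continuous functions, then
mollify; or density of Schwartz functions / smooth compactly supported functions), `T` is linear on
them, so it extends to a linear isometry (`LinearIsometry.extend`-type statement or
`LinearMap.extendOfNorm` / `ContinuousLinearMap.extend`).
For a test function `φ`, `Cau (dzb φ) = φ` so `T (dzb φ) = dz φ`. -/

open MeasureTheory Complex Set Metric Filter
open scoped Topology ENNReal NNReal ContDiff ComplexConjugate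

namespace QC

/-- the Beurling transform as an operator. -/
noncomputable def TT : Lp ℂ 2 (volume : Measure ℂ) →ₗᵢ[ℂ] Lp ℂ 2 (volume : Measure ℂ) :=
  exists_T.choose

open Classical in
/-- the Beurling transform of a function. -/
noncomputable def Tf (f : ℂ → ℂ) : ℂ → ℂ :=
  if h : MemLp f 2 (volume : Measure ℂ) then (TT (h.toLp f) : ℂ → ℂ) else 0

end QC
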