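import Pool.Agent.Work.MP_217185_an.Cau1
import Pool.Agent.Work.MP_217185_an.TOpDef

/-! # TOpC1: the Beurling transform on `L²(ℂ)`

`exists_T`: for a test function `g` put `T g = dz (Cau g) ∈ L²` (`dz_cau_bound`).  With a smooth
cutoff `χ_R` (`= 1` on the ball of radius `R`, support in `2R`, gradient `≤ C/R`) and
`φ_R = χ_R Cau g`: `dzb φ_R = χ_R g + dzb χ_R Cau g → g`, `dz φ_R → dz (Cau g)` in `L²` because
`‖dzb χ_R Cau g‖₂ ≤ (C/R) (∫_{R<|z|<2R} (C/|z|)²)^{1/2} = O(1/R)`.  By `integral_dz_dzb`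
`⟪T g, T g'⟫ = ⟪g, g'⟫`, `∫ T g g' = ∫ g T g'`.  Test functions are dense in `L²`
(Mathlib: `MeasureTheory.MemLp.exists_hasCompactSupport_eLpNorm_sub_le` for continuous functions, then
mollify; or density of Schwartz functions / smooth compactly supported functions), `T` is linear on
them, so it extends to a linear isometry (`LinearIsometry.extend`-type statement or
`LinearMap.extendOfNorm` / `ContinuousLinearMap.extend`).
For a test function `φ`, `Cau (dzb φ) = φ` so `T (dzb φ) = dz φ`. -/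

open MeasureTheory Complex Set Metric Filter
open scoped Topology ENNReal NNReal ContDiff ComplexConjugate

namespace QC

theorem measurable_Tf (f : ℂ → ℂ) : Measurable (Tf f) := by
  unfold Tf
  split_ifs with h
  · exact (Lp.stronglyMeasurable _).measurable
  · exact measurable_const

theorem memLp_Tf {f : ℂ → ℂ} (h : MemLp f 2 (volume : Measure ℂ)) :
    MemLp (Tf f) 2 (volume : Measure ℂ) := by
  unfold Tf
  rw [dif_pos h]
  exact Lp.memLp _

theorem Tf_congr {f g : ℂ → ℂ} (h : f =ᵐ[volume] g) : Tf f = Tf g := by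
  unfold Tf
  by_cases hf : MemLp f 2 (volume : Measure ℂ)
  · have hg : MemLp g 2 (volume : Measure ℂ) := (memLp_congr_ae h).1 hf
    rw [dif_pos hf, dif_pos hg, (MemLp.toLp_eq_toLp_iff hf hg).2 h]
  · have hg : ¬ MemLp g 2 (volume : Measure ℂ) := fun hg => hf ((memLp_congr_ae h).2 hg)
    rw [dif_neg hf, dif_neg hg]

theorem Tf_add {f g : ℂ → ℂ} (hf : MemLp f 2 (volume : Measure ℂ))
    (hg : MemLp g 2 (volume : Measure ℂ)) :
    Tf (fun z => f z + g z) =ᵐ[volume] fun z => Tf f z + Tf g z := by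
  have hfg : MemLp (fun z => f z + g z) 2 (volume : Measure ℂ) := hf.add hg
  have e : hfg.toLp (fun z => f z + g z) = hf.toLp f + hg.toLp g := MemLp.toLp_add hf hg
  unfold Tf
  rw [dif_pos hf, dif_pos hg, dif_pos hfg, e, map_add]
  filter_upwards [Lp.coeFn_add (TT (hf.toLp f)) (TT (hg.toLp g))] with z hz
  rw [hz, Pi.add_apply]

theorem Tf_sub {f g : ℂ → ℂ} (hf : MemLp f 2 (volume : Measure ℂ))
    (hg : MemLp g 2 (volume : Measure ℂ)) :
    Tf (fun z => f z - g z) =ᵐ[volume] fun z => Tf f z - Tf g z := by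
  have hfg : MemLp (fun z => f z - g z) 2 (volume : Measure ℂ) := hf.sub hg
  have e : hfg.toLp (fun z => f z - g z) = hf.toLp f - hg.toLp g := MemLp.toLp_sub hf hg
  unfold Tf
  rw [dif_pos hf, dif_pos hg, dif_pos hfg, e, map_sub]
  filter_upwards [Lp.coeFn_sub (TT (hf.toLp f)) (TT (hg.toLp g))] with z hz
  rw [hz, Pi.sub_apply]

theorem Tf_const_mul {f : ℂ → ℂ} (c : ℂ) (hf : MemLp f 2 (volume : Measure ℂ)) :
    Tf (fun z => c * f z) =ᵐ[volume] fun z => c * Tf f z := by
  have hcf : MemLp (fun z => c * f z) 2 (volume : Measure ℂ) := hf.const_mul c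
  have e : hcf.toLp (fun z => c * f z) = c • hf.toLp f := MemLp.toLp_const_smul c hf
  unfold Tf
  rw [dif_pos hf, dif_pos hcf, e, map_smul]
  filter_upwards [Lp.coeFn_smul c (TT (hf.toLp f))] with z hz
  rw [hz, Pi.smul_apply, smul_eq_mul]

/-- isometry. -/
theorem eLpNorm_Tf {f : ℂ → ℂ} (h : MemLp f 2 (volume : Measure ℂ)) :
    eLpNorm (Tf f) 2 volume = eLpNorm f 2 volume := by
  have h1 : ‖TT (h.toLp f)‖ = ‖h.toLp f‖ := TT.norm_map _
  rw [Lp.norm_def, Lp.norm_toLp] at h1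
  have h2 : Tf f = (TT (h.toLp f) : ℂ → ℂ) := by
    unfold Tf
    rw [dif_pos h]
  rw [h2]
  exact (ENNReal.toReal_eq_toReal_iff' (Lp.memLp _).eLpNorm_ne_top h.eLpNorm_ne_top).1 h1

end QC
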