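import Pool.Agent.Work.MP_217185_an.Cau1
import Pool.Agent.Work.MP_217185_an.TOpDef
import Pool.Agent.Work.MP_217185_an.TOpC1
import Pool.Agent.Work.MP_217185_an.L2Kit

/-! # TOpC2: the Beurling transform on `L²(ℂ)`

`exists_T`: for a test function `g` put `T g = dz (Cau g) ∈ L²` (`dz_cau_bound`).  With a smooth
cutoff `χ_R` (`= 1` on the ball of radius `R`, support in `2R`, gradient `≤ C/R`) and
`φ_R = χ_R Cau g`: `dzb φ_R = χ_R g + dzb χ_R Cau g → g`, `dz φ_R → dz (Cau g)` in `L²` because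
`‖dzb χ_R Cau g‖₂ ≤ (C/R) (∫_{R<|z|<2R} (C/|z|)²)^{1/2} = O(1/R)`.  By `integral_dz_dzb`
`⟪T g, T g'⟫ = ⟪g, g'⟫`, `∫ T g g' = ∫ g T g'`.  Test functions are dense in `L²`
(Mathlib: `MeasureTheory.MemLp.exists_hasCompactSupport_eLpNorm_sub_le` for continuous functions, then
mollify; or density of Schwartz functions / smooth compactly supported functions), `T` is linear on
them, so it extends to a linear isometry (`LinearIsometry.extend`-type statement or
`LinearMap.extendOfNorm` / `ContinuousLinearMap.extend`).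
For a test function `φ`, `Cau (dzb φ) = φ` so `T (dzb φ) = dz φ`. -/

open MeasureTheory Complex Set Metric Filter
open scoped Topology ENNReal NNReal ContDiff ComplexConjugate

namespace QC

private theorem topC2_cut : ∃ X : ℕ → ℂ → ℂ, (∀ n, Test univ (X n)) ∧ (∀ n z, ‖X n z‖ ≤ 1) ∧
    (∀ z, Tendsto (fun n => X n z) atTop (𝓝 1)) ∧
    (∀ z, Tendsto (fun n => QC.dz (X n) z) atTop (𝓝 0)) ∧
    (∀ z, Tendsto (fun n => QC.dzb (X n) z) atTop (𝓝 0)) ∧
    ∃ K : ℝ, (∀ n z, ‖QC.dz (X n) z‖ * (1 + ‖z‖) ≤ K) ∧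
      (∀ n z, ‖QC.dzb (X n) z‖ * (1 + ‖z‖) ≤ K) := by
  let χ : ContDiffBump (0 : ℂ) := ⟨1, 2, one_pos, by norm_num⟩
  let ψ : ℂ → ℂ := fun z => ((χ z : ℝ) : ℂ)
  have hψs : ContDiff ℝ ∞ ψ := Complex.ofRealCLM.contDiff.comp χ.contDiff
  have hψc : HasCompactSupport ψ := χ.hasCompactSupport.comp_left (g := fun x : ℝ => (x : ℂ))
    (by simp)
  have hψ : Test univ ψ := ⟨hψs, hψc, subset_univ _⟩
  have hsupp : ∀ w : ℂ, 2 < ‖w‖ → QC.dz ψ w = 0 ∧ QC.dzb ψ w = 0 := by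
    intro w hw
    have h0 : ψ =ᶠ[𝓝 w] fun _ => (0 : ℂ) := by
      have : {x : ℂ | 2 < ‖x‖} ∈ 𝓝 w := (isOpen_lt continuous_const continuous_norm).mem_nhds hw
      filter_upwards [this] with x hx
      have : χ x = 0 := χ.zero_of_le_dist (by simpa [χ] using le_of_lt hx)
      simp [ψ, this]
    have h1 : fderiv ℝ ψ w = 0 := by
      rw [h0.fderiv_eq]
      simp
    simp [QC.dz, QC.dzb, h1]
  obtain ⟨K1, hK1⟩ := hψ.dz.1.smooth.continuous.bounded_above_of_compact_support hψ.dz.1.cpt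
  obtain ⟨K2, hK2⟩ := hψ.dz.2.smooth.continuous.bounded_above_of_compact_support hψ.dz.2.cpt
  have hc0 : ∀ n : ℕ, (0 : ℝ) < 1 / ((n : ℝ) + 1) := fun n => by positivity
  have hc1 : ∀ n : ℕ, (1 : ℝ) / ((n : ℝ) + 1) ≤ 1 := fun n => by
    rw [div_le_one (by positivity)]
    linarith [(Nat.cast_nonneg n : (0 : ℝ) ≤ n)]
  let c : ℕ → ℂ := fun n => ((1 / ((n : ℝ) + 1) : ℝ) : ℂ)
  have hcn : ∀ n, ‖c n‖ = 1 / ((n : ℝ) + 1) := fun n => by
    rw [Complex.norm_real, Real.norm_of_nonneg (hc0 n).le]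
  have hclim : Tendsto c atTop (𝓝 0) := by
    have := (Complex.continuous_ofReal.tendsto 0).comp
      (tendsto_one_div_add_atTop_nhds_zero_nat (𝕜 := ℝ))
    simpa [c, Function.comp_def] using this
  have hd : ∀ n z, QC.dz (fun z => ψ (c n * z)) z = c n * QC.dz ψ (c n * z) ∧
      QC.dzb (fun z => ψ (c n * z)) z = c n * QC.dzb ψ (c n * z) := by
    intro n z
    have hg : DifferentiableAt ℂ (fun z => c n * z) z := by fun_prop
    have hgr : DifferentiableAt ℝ (fun z => c n * z) z := hg.restrictScalars ℝ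
    have h1 := dz_comp (f := ψ) (g := fun z => c n * z) (z := z)
      ((hψs.differentiable (by simp)) _) hgr
    have h2 := dz_of_holo hg
    have h3 : deriv (fun z => c n * z) z = c n := by simp
    rw [h3] at h2
    have h4 : conj (c n) = c n := Complex.conj_ofReal _
    rw [h2.1, h2.2] at h1
    simp only [map_zero, mul_zero, add_zero, zero_add, h4] at h1
    exact ⟨by rw [h1.1]; ring, by rw [h1.2]; ring⟩
  have hbd : ∀ (F : ℂ → ℂ) (K : ℝ), (∀ w, ‖F w‖ ≤ K) → (∀ w, 2 < ‖w‖ → F w = 0) → ∀ n z,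
      ‖c n * F (c n * z)‖ * (1 + ‖z‖) ≤ 3 * K := by
    intro F K hF hF0 n z
    have hK : 0 ≤ K := (norm_nonneg _).trans (hF 0)
    by_cases hz : 2 < ‖c n * z‖
    · rw [hF0 _ hz]
      simp only [mul_zero, norm_zero, zero_mul]
      positivity
    · rw [norm_mul]
      have h1 : ‖c n * z‖ ≤ 2 := not_lt.1 hz
      rw [norm_mul] at h1
      have h2 : ‖c n‖ ≤ 1 := by rw [hcn]; exact hc1 n
      calc ‖c n‖ * ‖F (c n * z)‖ * (1 + ‖z‖)
          = ‖F (c n * z)‖ * (‖c n‖ + ‖c n‖ * ‖z‖) := by ring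
        _ ≤ K * 3 := mul_le_mul (hF _) (by linarith) (by positivity) hK
        _ = 3 * K := by ring
  have hlim : ∀ (F : ℂ → ℂ) (K : ℝ), (∀ w, ‖F w‖ ≤ K) → ∀ z,
      Tendsto (fun n => c n * F (c n * z)) atTop (𝓝 0) := by
    intro F K hF z
    have h1 : Tendsto (fun n => ‖c n‖ * K) atTop (𝓝 0) := by
      have := hclim.norm.mul_const K
      simpa using this
    refine squeeze_zero_norm (fun n => ?_) h1
    rw [norm_mul]
    exact mul_le_mul_of_nonneg_left (hF _) (norm_nonneg _)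
  refine ⟨fun n z => ψ (c n * z), fun n => ⟨?_, ?_, subset_univ _⟩, fun n z => ?_, fun z => ?_,
    fun z => ?_, fun z => ?_, max (3 * K1) (3 * K2), fun n z => ?_, fun n z => ?_⟩
  · exact hψs.comp (contDiff_const.mul contDiff_id)
  · have hne : c n ≠ 0 := by
      intro h
      have := hcn n
      rw [h, norm_zero] at this
      exact (hc0 n).ne this
    exact hψc.comp_homeomorph (Homeomorph.mulLeft₀ (c n) hne)
  · have : ‖ψ (c n * z)‖ = χ (c n * z) := by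
      simp only [ψ]
      rw [Complex.norm_real, Real.norm_of_nonneg χ.nonneg]
    rw [this]
    exact χ.le_one
  · have h1 : Tendsto (fun n => ψ (c n * z)) atTop (𝓝 (ψ (0 * z))) :=
      (hψs.continuous.tendsto _).comp (hclim.mul_const z)
    have h2 : ψ (0 * z) = 1 := by
      have : χ (0 * z) = 1 := χ.one_of_mem_closedBall (by simp [χ])
      simp only [ψ]
      rw [this, Complex.ofReal_one]
    rwa [h2] at h1
  · exact (hlim (QC.dz ψ) K1 hK1 z).congr fun n => ((hd n z).1).symm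
  · exact (hlim (QC.dzb ψ) K2 hK2 z).congr fun n => ((hd n z).2).symm
  · rw [(hd n z).1]
    exact (hbd (QC.dz ψ) K1 hK1 (fun w hw => (hsupp w hw).1) n z).trans (le_max_left _ _)
  · rw [(hd n z).2]
    exact (hbd (QC.dzb ψ) K2 hK2 (fun w hw => (hsupp w hw).2) n z).trans (le_max_right _ _)

private theorem topC2_approx {f : ℂ → ℂ} (hf : Test univ f) :
    ∃ φ : ℕ → ℂ → ℂ, (∀ n, Test univ (φ n)) ∧
      (∀ z, Tendsto (fun n => QC.dz (φ n) z) atTop (𝓝 (QC.dz (Cau f) z))) ∧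
      (∀ z, Tendsto (fun n => QC.dzb (φ n) z) atTop (𝓝 (f z))) ∧
      ∃ C : ℝ, 0 ≤ C ∧ (∀ n z, ‖QC.dz (φ n) z‖ * (1 + ‖z‖) ^ 2 ≤ C) ∧
        (∀ n z, ‖QC.dzb (φ n) z‖ * (1 + ‖z‖) ^ 2 ≤ C) := by
  obtain ⟨X, hX, hX1, hXl, hXd, hXdb, K, hK1, hK2⟩ := topC2_cut
  obtain ⟨C1, hC1⟩ := cau_bound hf
  obtain ⟨C2, hC2⟩ := dz_cau_bound hf
  have hfb : Continuous fun z => f z * ((1 + ‖z‖ : ℝ) : ℂ) ^ 2 := by
    have := hf.smooth.continuous
    fun_prop
  obtain ⟨C3, hC3⟩ := hfb.bounded_above_of_compact_support hf.cpt.mul_right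
  have hcs := cau_contDiff hf
  have hdbc : ∀ z, QC.dzb (Cau f) z = f z := fun z => by rw [(dz_cau hf z).2, cau_dzb hf z]
  have hC3' : ∀ z, ‖f z‖ * (1 + ‖z‖) ^ 2 ≤ C3 := by
    intro z
    have := hC3 z
    rw [norm_mul, norm_pow, Complex.norm_real, Real.norm_of_nonneg (by positivity)] at this
    exact this
  have hd : ∀ n z, QC.dz (fun z => X n z * Cau f z) z
      = QC.dz (X n) z * Cau f z + X n z * QC.dz (Cau f) z ∧
      QC.dzb (fun z => X n z * Cau f z) z = QC.dzb (X n) z * Cau f z + X n z * f z := by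
    intro n z
    have := dz_mul (f := X n) (g := Cau f) (z := z) (((hX n).smooth.differentiable (by simp)) z)
      ((hcs.differentiable (by simp)) z)
    rw [hdbc z] at this
    exact this
  have hK0 : 0 ≤ K := le_trans (by positivity) (hK1 0 0)
  have hC10 : 0 ≤ C1 := le_trans (by positivity) (hC1 0)
  have hC20 : 0 ≤ C2 := le_trans (by positivity) (hC2 0)
  have hC30 : 0 ≤ C3 := le_trans (by positivity) (hC3' 0)
  have hbd : ∀ (a b x y : ℂ) (t C : ℝ), 0 ≤ t → ‖a‖ * t ≤ K → ‖b‖ * t ≤ C1 → ‖x‖ ≤ 1 →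
      ‖y‖ * t ^ 2 ≤ C → ‖a * b + x * y‖ * t ^ 2 ≤ K * C1 + C := by
    intro a b x y t C ht h1 h2 h3 h4
    calc ‖a * b + x * y‖ * t ^ 2 ≤ (‖a * b‖ + ‖x * y‖) * t ^ 2 := by
          gcongr
          exact norm_add_le _ _
      _ = (‖a‖ * t) * (‖b‖ * t) + ‖x‖ * (‖y‖ * t ^ 2) := by
          rw [norm_mul, norm_mul]; ring
      _ ≤ K * C1 + 1 * C := by
          gcongr
      _ = K * C1 + C := by ring
  refine ⟨fun n z => X n z * Cau f z, fun n => ⟨(hX n).smooth.mul hcs, (hX n).cpt.mul_right,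
    subset_univ _⟩, fun z => ?_, fun z => ?_, K * C1 + max C2 C3, by positivity, fun n z => ?_,
    fun n z => ?_⟩
  · have h1 := ((hXd z).mul_const (Cau f z)).add ((hXl z).mul_const (QC.dz (Cau f) z))
    rw [zero_mul, one_mul, zero_add] at h1
    exact h1.congr fun n => ((hd n z).1).symm
  · have h1 := ((hXdb z).mul_const (Cau f z)).add ((hXl z).mul_const (f z))
    rw [zero_mul, one_mul, zero_add] at h1
    exact h1.congr fun n => ((hd n z).2).symm
  · rw [(hd n z).1]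
    exact hbd _ _ _ _ _ _ (by positivity) (hK1 n z) (hC1 z) (hX1 n z)
      ((hC2 z).trans (le_max_left _ _))
  · rw [(hd n z).2]
    exact hbd _ _ _ _ _ _ (by positivity) (hK2 n z) (hC1 z) (hX1 n z)
      ((hC3' z).trans (le_max_right _ _))

private theorem topC2_dom {u v : ℕ → ℂ → ℂ} {U V : ℂ → ℂ} (hu : ∀ n, Continuous (u n))
    (hv : ∀ n, Continuous (v n)) (hU : ∀ z, Tendsto (fun n => u n z) atTop (𝓝 (U z)))
    (hV : ∀ z, Tendsto (fun n => v n z) atTop (𝓝 (V z))) {C C' : ℝ} (hC : 0 ≤ C)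
    (h1 : ∀ n z, ‖u n z‖ * (1 + ‖z‖) ^ 2 ≤ C) (h2 : ∀ n z, ‖v n z‖ * (1 + ‖z‖) ^ 2 ≤ C') :
    Tendsto (fun n => ∫ z, u n z * v n z) atTop (𝓝 (∫ z, U z * V z)) := by
  have hi : Integrable (fun z : ℂ => (C * C') * (1 + ‖z‖) ^ (-(4 : ℝ))) := by
    refine (integrable_one_add_norm ?_).const_mul _
    rw [Complex.finrank_real_complex]
    norm_num
  refine tendsto_integral_of_dominated_convergence _
    (fun n => ((hu n).mul (hv n)).aestronglyMeasurable) hi
    (fun n => Eventually.of_forall fun z => ?_)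
    (Eventually.of_forall fun z => (hU z).mul (hV z))
  have hpos : (0 : ℝ) < 1 + ‖z‖ := by positivity
  have h3 : (1 + ‖z‖ : ℝ) ^ (4 : ℝ) = (1 + ‖z‖) ^ 2 * (1 + ‖z‖) ^ 2 := by
    rw [← pow_add]
    exact_mod_cast Real.rpow_natCast (1 + ‖z‖) 4
  rw [Real.rpow_neg hpos.le, h3, ← div_eq_mul_inv, le_div_iff₀ (by positivity), norm_mul]
  calc ‖u n z‖ * ‖v n z‖ * ((1 + ‖z‖) ^ 2 * (1 + ‖z‖) ^ 2)
      = (‖u n z‖ * (1 + ‖z‖) ^ 2) * (‖v n z‖ * (1 + ‖z‖) ^ 2) := by ring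
    _ ≤ C * C' := mul_le_mul (h1 n z) (h2 n z) (by positivity) hC

private theorem topC2_symm {f g : ℂ → ℂ} (hf : Test univ f) (hg : Test univ g) :
    ∫ z, QC.dz (Cau f) z * g z = ∫ z, f z * QC.dz (Cau g) z := by
  obtain ⟨φ, hφ, hφ1, hφ2, C, hC, hφ3, hφ4⟩ := topC2_approx hf
  obtain ⟨ψ, hψ, hψ1, hψ2, C', hC', hψ3, hψ4⟩ := topC2_approx hg
  have l1 := topC2_dom (fun n => (hφ n).dz.1.smooth.continuous)
    (fun n => (hψ n).dz.2.smooth.continuous) hφ1 hψ2 hC hφ3 hψ4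
  have l2 := topC2_dom (fun n => (hφ n).dz.2.smooth.continuous)
    (fun n => (hψ n).dz.1.smooth.continuous) hφ2 hψ1 hC hφ4 hψ3
  exact tendsto_nhds_unique l1 (l2.congr fun n => ((integral_dz_dzb (hφ n) (hψ n)).2).symm)

theorem Tf_cau {g : ℂ → ℂ} (h : Test univ g) : Tf g =ᵐ[volume] dz (Cau g) := by
  have h1 := exists_T.choose_spec g h
  have h2 : Tf g = (TT (h.memLp.toLp g) : ℂ → ℂ) := by
    unfold Tf
    rw [dif_pos h.memLp]
  rw [h2]
  exact h1

theorem Tf_dzb {φ : ℂ → ℂ} (h : Test univ φ) : Tf (dzb φ) =ᵐ[volume] dz φ := by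
  have h1 := Tf_cau h.dz.2
  have h2 : Cau (dzb φ) = φ := by
    funext z
    exact cau_dzb h z
  rwa [h2] at h1

/-- symmetry (bilinear). -/
theorem Tf_symm {f g : ℂ → ℂ} (hf : MemLp f 2 (volume : Measure ℂ))
    (hg : MemLp g 2 (volume : Measure ℂ)) : ∫ z, Tf f z * g z = ∫ z, f z * Tf g z := by
  obtain ⟨F, hF, hFl⟩ := exists_test_L2 hf
  obtain ⟨G, hG, hGl⟩ := exists_test_L2 hg
  have hT : ∀ {h : ℂ → ℂ} (hh : MemLp h 2 (volume : Measure ℂ)) {H : ℕ → ℂ → ℂ}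
      (_ : ∀ n, Test univ (H n))
      (_ : Tendsto (fun n => eLpNorm (fun z => H n z - h z) 2 volume) atTop (𝓝 0)),
      Tendsto (fun n => eLpNorm (fun z => Tf (H n) z - Tf h z) 2 volume) atTop (𝓝 0) := by
    intro h hh H hH hl
    refine hl.congr fun n => ?_
    have hs : MemLp (fun z => H n z - h z) 2 (volume : Measure ℂ) := (hH n).memLp.sub hh
    rw [← eLpNorm_Tf hs]
    exact eLpNorm_congr_ae (Tf_sub (hH n).memLp hh)
  have l1 := l2_tendsto_integral_mul (fun n => memLp_Tf (hF n).memLp) (fun n => (hG n).memLp)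
    (memLp_Tf hf) hg (hT hf hF hFl) hGl
  have l2 := l2_tendsto_integral_mul (fun n => (hF n).memLp) (fun n => memLp_Tf (hG n).memLp)
    hf (memLp_Tf hg) hFl (hT hg hG hGl)
  refine tendsto_nhds_unique l1 (l2.congr fun n => ?_)
  have e1 : ∫ z, Tf (F n) z * G n z = ∫ z, QC.dz (Cau (F n)) z * G n z := by
    refine integral_congr_ae ?_
    filter_upwards [Tf_cau (hF n)] with z hz
    rw [hz]
  have e2 : ∫ z, F n z * Tf (G n) z = ∫ z, F n z * QC.dz (Cau (G n)) z := by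
    refine integral_congr_ae ?_
    filter_upwards [Tf_cau (hG n)] with z hz
    rw [hz]
  rw [e1, e2]
  exact (topC2_symm (hF n) (hG n)).symm

end QC
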