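import Pool.Agent.Work.MP_217185_an.NHarm2
import Pool.Agent.Work.MP_217185_an.ContrC
import Pool.Agent.Work.MP_217185_an.InjB
import Pool.Agent.Work.MP_217185_an.TDefs

/-! # TransKDef: the Bers map of `F ∘ H⁻¹` depends holomorphically on the coefficient of `F`

`rad S` is the radius of `loc_inv` for `ε₀ = eps0`.  Choose `s, t` (`exists_meas_deriv`), `ν` the
coefficient of `H` with `L2hyp S ν` (`Nice.l2`, `IsQC.coeff_unique`), `m x = coefC H s ν (c x)` with
`c x` the coefficient.  Hypotheses of `bersE_differentiableOn` (target surface `S'`, domain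
`ext H '' P`, `Tgt.isFund`): `coefC_bel`, `coefC_aeInv`, `coefC_L2`, `coefC_udiff`. -/

open MeasureTheory Complex Set Metric Filter
open scoped Topology ENNReal NNReal ContDiff ComplexConjugate

noncomputable section

namespace QC

/-- radius of the chart. -/
def rad (S : Bord) : ℝ := (loc_inv S eps0_pos).choose

theorem rad_pos (S : Bord) : 0 < rad S := (loc_inv S eps0_pos).choose_spec.1

theorem le_of_rad {S : Bord} {x : HSp S} (hx : ‖x‖ < rad S) (z : ℂ) : ‖x.fn z‖ ≤ eps0 :=
  (loc_inv S eps0_pos).choose_spec.2.1 x hx z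

/-- the local inverse of the Bers map. -/
theorem rad_spec (S : Bord) : ∃ e : OpenPartialHomeomorph (HSp S) (HSp S),
    e.source = ball 0 (rad S) ∧ (∀ x ∈ ball (0 : HSp S) (rad S), e x = bersE S x.fn) ∧
      DifferentiableOn ℂ e e.source ∧ DifferentiableOn ℂ e.symm e.target :=
  (loc_inv S eps0_pos).choose_spec.2.2

end QC

end
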