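import Pool.Agent.Work.MP_217185_an.NHarm2
import Pool.Agent.Work.MP_217185_an.ContrC
import Pool.Agent.Work.MP_217185_an.InjB
import Pool.Agent.Work.MP_217185_an.TDefs
import Pool.Agent.Work.MP_217185_an.TransKDef

/-! # TransKA: the Bers map of `F ∘ H⁻¹` depends holomorphically on the coefficient of `F`

`rad S` is the radius of `loc_inv` for `ε₀ = eps0`.  Choose `s, t` (`exists_meas_deriv`), `ν` the
coefficient of `H` with `L2hyp S ν` (`Nice.l2`, `IsQC.coeff_unique`), `m x = coefC H s ν (c x)` with
`c x` the coefficient.  Hypotheses of `bersE_differentiableOn` (target surface `S'`, domain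
`ext H '' P`, `Tgt.isFund`): `coefC_bel`, `coefC_aeInv`, `coefC_L2`, `coefC_udiff`. -/

open MeasureTheory Complex Set Metric Filter
open scoped Topology ENNReal NNReal ContDiff ComplexConjugate

noncomputable section

namespace QC

variable {S S' : Bord} {H : CD ≃ₜ CD}

theorem bel_of_rad {x : HSp S} (hx : ‖x‖ < rad S) : Bel eps0 x.fn :=
  ⟨x.harm.measurable, le_of_rad hx, by linarith [eps0_le]⟩

/-- existence of the map with harmonic coefficient in the chart ball; it is nice. -/
theorem exists_small {x : HSp S} (hx : ‖x‖ < rad S) :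
    ∃ F S₁, IsQC eps0 F x.fn ∧ Nice S F S₁ := by
  obtain ⟨F, S₁, h1, h2⟩ := exists_tgt_of_coeff (bel_of_rad hx) x.harm.suppIn x.inv.aeInv
  exact ⟨F, S₁, h1, nice_of_small h1 x.harm x.l2 h2⟩

end QC

end
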