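import Pool.Agent.Work.MP_217185_an.NHarm2
import Pool.Agent.Work.MP_217185_an.ContrC
import Pool.Agent.Work.MP_217185_an.InjB
import Pool.Agent.Work.MP_217185_an.TDefs
import Pool.Agent.Work.MP_217185_an.TransKDef

/-! # TransKB: the Bers map of `F ∘ H⁻¹` depends holomorphically on the coefficient of `F`

`rad S` is the radius of `loc_inv` for `ε₀ = eps0`.  Choose `s, t` (`exists_meas_deriv`), `ν` the
coefficient of `H` with `L2hyp S ν` (`Nice.l2`, `IsQC.coeff_unique`), `m x = coefC H s ν (c x)` with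
`c x` the coefficient.  Hypotheses of `bersE_differentiableOn` (target surface `S'`, domain
`ext H '' P`, `Tgt.isFund`): `coefC_bel`, `coefC_aeInv`, `coefC_L2`, `coefC_udiff`. -/

open MeasureTheory Complex Set Metric Filter
open scoped Topology ENNReal NNReal ContDiff ComplexConjugate

noncomputable section

namespace QC

variable {S S' : Bord} {H : CD ≃ₜ CD}

theorem bersD_congr {k k' : ℝ} {μ ν : ℂ → ℂ} (hμ : Bel k μ) (hs : SuppIn 1 μ) (hν : Bel k' ν)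
    (hs' : SuppIn 1 ν) (he : μ =ᵐ[volume] ν) : bersD μ = bersD ν := by
  funext z
  unfold bersD
  split_ifs with hz
  · exact bers_congr hμ hs hν hs' he hz
  · rfl

/-- general version: coefficients depending on a parameter. -/
theorem transK_gen {E : Type} [NormedAddCommGroup E] [NormedSpace ℂ E] {k : ℝ} {U : Set E}
    (hU : IsOpen U) {c : E → ℂ → ℂ} (hc : ∀ x ∈ U, Bel k (c x)) (hcs : ∀ x ∈ U, SuppIn 1 (c x))
    (hci : ∀ x ∈ U, AEInv S (c x)) (hcl : ∀ x ∈ U, L2hyp S (c x)) (hcd : ∀ x ∈ U, UDiff c x)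
    (hcb : ∀ a ∈ U, ∃ r > 0, ∃ M : ℝ, ∀ x ∈ U, dist x a < r →
      ∫⁻ z in fund S, ‖c x z‖ₑ ^ 2 ∂hyp ≤ ENNReal.ofReal M)
    (hH : Nice S H S') :
    ∃ Ψ : E → HSp S', DifferentiableOn ℂ Ψ U ∧
      ∀ x ∈ U, ∀ (F : CD ≃ₜ CD) (k₁ k₂ : ℝ) (μ' : ℂ → ℂ), IsQC k₁ F (c x) →
        IsQC k₂ (F * H⁻¹) μ' → (Ψ x).fn = bersD μ' := by
  obtain ⟨hT, ⟨C, hC⟩, k', ν, hHν, hν2⟩ := hH
  obtain ⟨s, t, hs, ht, hst⟩ := exists_meas_deriv hHν
  have hP := isFund_fund S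
  have hP' : IsFund S' (ext H '' fund S) := hT.isFund hP
  have hνi : AEInv S ν := hHν.aeInv hT.isQCS.eqv
  have hνf : ∫⁻ z in fund S, ‖ν z‖ₑ ^ 2 ∂hyp < ⊤ := (L2hyp_iff hHν.bel.meas hνi hP).1 hν2
  have hbel : ∀ x ∈ U, Bel ((k + k') / (1 + k * k')) (coefC H s ν (c x)) := fun x hx =>
    (coefC_bel hHν hs (hc x hx)).1
  have hsup : ∀ x ∈ U, SuppIn 1 (coefC H s ν (c x)) := fun x hx =>
    (coefC_bel hHν hs (hc x hx)).2
  have hinv : ∀ x ∈ U, AEInv S' (coefC H s ν (c x)) := fun x hx =>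
    coefC_aeInv (hc x hx) (hcs x hx) (hci x hx) hHν hT hs hst
  have hbd : ∀ x ∈ U, ∫⁻ z in ext H '' fund S, ‖coefC H s ν (c x) z‖ₑ ^ 2 ∂hyp
      ≤ ENNReal.ofReal (2 / (1 - k * k') ^ 2) * C *
        (∫⁻ z in fund S, ‖c x z‖ₑ ^ 2 ∂hyp + ∫⁻ z in fund S, ‖ν z‖ₑ ^ 2 ∂hyp) := fun x hx =>
    coefC_L2 hC hT hHν hs (hc x hx) hP
  have hl2 : ∀ x ∈ U, L2hyp S' (coefC H s ν (c x)) := fun x hx => by
    rw [L2hyp_iff (hbel x hx).meas (hinv x hx) hP']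
    refine (hbd x hx).trans_lt ?_
    have h1 : ∫⁻ z in fund S, ‖c x z‖ₑ ^ 2 ∂hyp < ⊤ :=
      (L2hyp_iff (hc x hx).meas (hci x hx) hP).1 (hcl x hx)
    exact ENNReal.mul_lt_top (ENNReal.mul_lt_top ENNReal.ofReal_lt_top hC.1.lt_top)
      (ENNReal.add_lt_top.2 ⟨h1, hνf⟩)
  refine ⟨fun x => bersE S' (coefC H s ν (c x)), ?_, ?_⟩
  · refine bersE_differentiableOn hU hbel hsup hinv hl2
      (fun x hx => coefC_udiff hU hc hx (hcd x hx) hHν hs) hP' ?_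
    intro a ha
    obtain ⟨r, hr, M, hM⟩ := hcb a ha
    refine ⟨r, hr, (ENNReal.ofReal (2 / (1 - k * k') ^ 2) * C *
        (ENNReal.ofReal M + ∫⁻ z in fund S, ‖ν z‖ₑ ^ 2 ∂hyp)).toReal, fun x hx hxa => ?_⟩
    have hfin : ENNReal.ofReal (2 / (1 - k * k') ^ 2) * C *
        (ENNReal.ofReal M + ∫⁻ z in fund S, ‖ν z‖ₑ ^ 2 ∂hyp) ≠ ⊤ :=
      (ENNReal.mul_lt_top (ENNReal.mul_lt_top ENNReal.ofReal_lt_top hC.1.lt_top)
        (ENNReal.add_lt_top.2 ⟨ENNReal.ofReal_lt_top, hνf⟩)).ne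
    rw [ENNReal.ofReal_toReal hfin]
    refine (hbd x hx).trans ?_
    gcongr
    exact hM x hx hxa
  · intro x hx F k₁ k₂ μ' hF hFH
    have h1 := coefC_isQC hF hHν hs hst
    simp only
    rw [bersE_fn (hbel x hx) (hsup x hx) (hinv x hx) (hl2 x hx)]
    exact bersD_congr (hbel x hx) (hsup x hx) hFH.bel hFH.supp (h1.coeff_unique hFH)

end QC

end
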