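import Pool.Agent.Work.MP_217185_an.NHarm2
import Pool.Agent.Work.MP_217185_an.ContrC
import Pool.Agent.Work.MP_217185_an.InjB
import Pool.Agent.Work.MP_217185_an.TDefs
import Pool.Agent.Work.MP_217185_an.TransKB

/-! # TransKC: the Bers map of `F ∘ H⁻¹` depends holomorphically on the coefficient of `F`

`rad S` is the radius of `loc_inv` for `ε₀ = eps0`.  Choose `s, t` (`exists_meas_deriv`), `ν` the
coefficient of `H` with `L2hyp S ν` (`Nice.l2`, `IsQC.coeff_unique`), `m x = coefC H s ν (c x)` with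
`c x` the coefficient.  Hypotheses of `bersE_differentiableOn` (target surface `S'`, domain
`ext H '' P`, `Tgt.isFund`): `coefC_bel`, `coefC_aeInv`, `coefC_L2`, `coefC_udiff`. -/

open MeasureTheory Complex Set Metric Filter
open scoped Topology ENNReal NNReal ContDiff ComplexConjugate

noncomputable section

namespace QC

variable {S S' : Bord} {H : CD ≃ₜ CD}

theorem udiff_fn (x₀ : HSp S) : UDiff (fun x : HSp S => x.fn) x₀ := by
  obtain ⟨C, hC, h⟩ := HSp.sup_le S
  refine ⟨1, C, fun x => x.fn, one_pos, fun x y ζ => ?_, fun c x ζ => ?_,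
    fun x => x.harm.measurable, fun x ζ => h x ζ, fun x _ ζ => ?_⟩
  · simp only [HSp.fn_add]
  · simp only [HSp.fn_smul]
  · simp only [HSp.fn_add]
    have h1 : x₀.fn ζ + x.fn ζ - x₀.fn ζ - x.fn ζ = 0 := by ring
    simp only [h1, norm_zero]
    positivity

/-- coefficients in the chart ball. -/
theorem transK (hH : Nice S H S') :
    ∃ Ψ : HSp S → HSp S', DifferentiableOn ℂ Ψ (ball 0 (rad S)) ∧
      ∀ x ∈ ball (0 : HSp S) (rad S), ∀ (F : CD ≃ₜ CD) (k₁ k₂ : ℝ) (μ' : ℂ → ℂ),
        IsQC k₁ F x.fn → IsQC k₂ (F * H⁻¹) μ' → (Ψ x).fn = bersD μ' := by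
  refine transK_gen (c := fun x : HSp S => x.fn) (k := eps0) isOpen_ball ?_ ?_ ?_ ?_ ?_ ?_ hH
  · intro x hx
    exact ⟨x.harm.measurable, le_of_rad (mem_ball_zero_iff.1 hx), by linarith [eps0_le]⟩
  · intro x _; exact x.harm.suppIn
  · intro x _; exact x.inv.aeInv
  · intro x _; exact x.l2
  · intro x _; exact udiff_fn x
  · intro a _
    refine ⟨1, one_pos, rad S ^ 2, fun x hx _ => ?_⟩
    rw [← HSp.norm_sq x (isFund_fund S)]
    have h1 := mem_ball_zero_iff.1 hx
    gcongr

end QC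

end
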