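import Pool.Agent.Work.MP_217185_an.Moll

/-! # WDcomp1: weak derivatives and holomorphic changes of variable

* `comp_holo`: `g` is a biholomorphic map of `V` onto the open set `g '' V` (`g' ≠ 0` for injective
  holomorphic maps, Mathlib has the open mapping theorem and the nonvanishing of the derivative; the
  inverse is holomorphic).  For a test function `φ` in `V` put `ψ = (φ / conj g') ∘ g⁻¹`, a test
  function in `g '' V`; `dz ψ = ((dz φ) / (g' conj g')) ∘ g⁻¹` since `1 / conj g' ∘ g⁻¹` is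
  antiholomorphic.  Change of variables `ζ = g z`, `dA(ζ) = ‖g'‖² dA(z)` (Mathlib
  `integral_image_eq_integral_abs_det_fderiv_smul`): `∫ f(g z) dz φ = ∫ f dz ψ = - ∫ a ψ =
  - ∫ a(g z) g' φ`.  Same for `dzb` with `φ / g'`.
* `holo_comp`: let `φ ∈ Test U` with compact support `K`; approximate `f` by `F n`
  (`exists_smooth_approx`) on `K`; for `n` large `F n` maps `K` into a compact subset of `W`, so
  `∫ G(F n) dz φ = - ∫ G'(F n) dz (F n) φ` (`G ∘ F n` is `C^1` near `K`), let `n → ∞`. -/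

open MeasureTheory Complex Set Metric Filter
open scoped Topology ENNReal NNReal ContDiff ComplexConjugate

namespace QC

private theorem wdc1_deriv_ne {V : Set ℂ} (hV : IsOpen V) {g : ℂ → ℂ} (hg : DifferentiableOn ℂ g V)
    (hinj : InjOn g V) {z₀ : ℂ} (hz : z₀ ∈ V) : deriv g z₀ ≠ 0 := by
  intro hd
  have hA : AnalyticAt ℂ g z₀ := hg.analyticAt (hV.mem_nhds hz)
  have hF : AnalyticAt ℂ (fun z => g z - g z₀) z₀ := hA.sub analyticAt_const
  by_cases htop : analyticOrderAt (fun z => g z - g z₀) z₀ = ⊤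
  · rw [analyticOrderAt_eq_top] at htop
    have h1 : ∀ᶠ z in 𝓝 z₀, z ∈ V ∧ g z - g z₀ = 0 := (hV.eventually_mem hz).and htop
    have h2 : ∀ᶠ z in 𝓝[≠] z₀, z ∈ V ∧ g z - g z₀ = 0 := h1.filter_mono nhdsWithin_le_nhds
    obtain ⟨z, ⟨hzV, hz0⟩, hne⟩ := (h2.and self_mem_nhdsWithin).exists
    exact hne (hinj hzV hz (sub_eq_zero.1 hz0))
  · obtain ⟨h, hh, hh0, hev⟩ := hF.analyticOrderAt_ne_top.1 htop
    set n := analyticOrderNatAt (fun z => g z - g z₀) z₀ with hn
    have hn0 : n ≠ 0 := by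
      intro h0
      have := hev.self_of_nhds
      rw [h0] at this
      simp at this
      exact hh0 this.symm
    have hn1 : n ≠ 1 := by
      intro h1
      rw [h1] at hev
      have e1 : deriv (fun z => g z - g z₀) z₀ = deriv (fun z => (z - z₀) ^ 1 • h z) z₀ :=
        Filter.EventuallyEq.deriv_eq hev
      have e2 : HasDerivAt (fun z => (z - z₀) ^ 1 • h z) (h z₀) z₀ := by
        have := ((hasDerivAt_id z₀).sub_const z₀).fun_mul hh.differentiableAt.hasDerivAt
        simpa using this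
      rw [e2.deriv, deriv_sub_const, hd] at e1
      exact hh0 e1.symm
    have hn2 : 2 ≤ n := by omega
    have hnC : (n : ℂ) ≠ 0 := by exact_mod_cast hn0
    set c : ℂ := exp (log (h z₀) / n) with hc
    have hcn : c ^ n = h z₀ := by
      rw [hc, ← exp_nat_mul, mul_div_cancel₀ _ hnC, exp_log hh0]
    have hc0 : c ≠ 0 := exp_ne_zero _
    set k : ℂ → ℂ := fun z => (z - z₀) * (c * exp (log (h z / h z₀) / n)) with hk
    have hkA : AnalyticAt ℂ (fun z => c * exp (log (h z / h z₀) / n)) z₀ := by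
      have h1 : AnalyticAt ℂ (fun z => h z / h z₀) z₀ := hh.div analyticAt_const hh0
      have h2 : AnalyticAt ℂ (fun z => log (h z / h z₀)) z₀ := by
        refine h1.clog ?_
        rw [div_self hh0]
        exact one_mem_slitPlane
      have h3 : AnalyticAt ℂ (fun z => exp (log (h z / h z₀) / n)) z₀ :=
        (h2.div analyticAt_const hnC).cexp
      exact analyticAt_const.mul h3
    have hkd : HasStrictDerivAt k c z₀ := by
      have h1 : AnalyticAt ℂ k z₀ := (analyticAt_id.sub analyticAt_const).mul hkA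
      have h2 := h1.hasStrictDerivAt
      have h3 : HasDerivAt k c z₀ := by
        have := ((hasDerivAt_id z₀).sub_const z₀).fun_mul hkA.differentiableAt.hasDerivAt
        simpa [div_self hh0, hk] using this
      rwa [h3.deriv] at h2
    have hkn : ∀ z, h z ≠ 0 → k z ^ n = (z - z₀) ^ n * h z := by
      intro z hz0
      have : h z / h z₀ ≠ 0 := div_ne_zero hz0 hh0
      simp only [hk, mul_pow]
      rw [hcn, ← exp_nat_mul, mul_div_cancel₀ _ hnC, exp_log this]
      field_simp
    have hNmem : {z | z ∈ V ∧ g z - g z₀ = k z ^ n} ∈ 𝓝 z₀ := by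
      have h1 : ∀ᶠ z in 𝓝 z₀, h z ≠ 0 := hh.continuousAt.eventually_ne hh0
      filter_upwards [hV.mem_nhds hz, h1, hev] with z hzV hz0 hze
      exact ⟨hzV, by rw [hze, hkn z hz0, smul_eq_mul]⟩
    have him := image_mem_map (m := k) hNmem
    rw [hkd.map_nhds_eq hc0] at him
    have hk0 : k z₀ = 0 := by simp [hk]
    rw [hk0] at him
    obtain ⟨ε, hε, hball⟩ := Metric.mem_nhds_iff.1 him
    have hζ := Complex.isPrimitiveRoot_exp n hn0
    set ζ := exp (2 * Real.pi * I / n) with hζd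
    have hζ1 : ζ ≠ 1 := hζ.ne_one (by omega)
    have hζn : ζ ^ n = 1 := hζ.pow_eq_one
    have hζnorm : ‖ζ‖ = 1 := hζ.norm'_eq_one hn0
    have hw1 : ((ε / 2 : ℝ) : ℂ) ∈ ball (0 : ℂ) ε := by
      simp [abs_of_pos hε]
      linarith
    have hw2 : ζ * ((ε / 2 : ℝ) : ℂ) ∈ ball (0 : ℂ) ε := by
      simp [hζnorm, abs_of_pos hε]
      linarith
    obtain ⟨z1, ⟨hz1V, hz1⟩, hk1⟩ := hball hw1
    obtain ⟨z2, ⟨hz2V, hz2⟩, hk2⟩ := hball hw2
    have heq : g z1 = g z2 := by
      have : g z1 - g z₀ = g z2 - g z₀ := by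
        rw [hz1, hz2, hk1, hk2, mul_pow, hζn, one_mul]
      simpa using this
    have h12 := hinj hz1V hz2V heq
    rw [h12, hk2] at hk1
    have : (ζ - 1) * ((ε / 2 : ℝ) : ℂ) = 0 := by
      rw [sub_mul, hk1, one_mul, sub_self]
    rcases mul_eq_zero.1 this with h1 | h1
    · exact hζ1 (sub_eq_zero.1 h1)
    · have : (ε / 2 : ℝ) = 0 := by exact_mod_cast h1
      linarith

private theorem wdc1_inv {V : Set ℂ} (hV : IsOpen V) {g : ℂ → ℂ} (hg : DifferentiableOn ℂ g V)
    (hinj : InjOn g V) :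
    ∃ G : ℂ → ℂ, (∀ z ∈ V, G (g z) = z) ∧ IsOpen (g '' V) ∧ DifferentiableOn ℂ G (g '' V) := by
  have hmap : ∀ z ∈ V, map g (𝓝 z) = 𝓝 (g z) := by
    intro z hz
    exact (hg.analyticAt (hV.mem_nhds hz)).hasStrictDerivAt.map_nhds_eq
      (wdc1_deriv_ne hV hg hinj hz)
  have hopen : IsOpen (g '' V) := by
    rw [isOpen_iff_mem_nhds]
    rintro _ ⟨z, hz, rfl⟩
    rw [← hmap z hz]
    exact image_mem_map (hV.mem_nhds hz)
  have hl := hinj.leftInvOn_invFunOn
  refine ⟨Function.invFunOn g V, fun z hz => hl hz, hopen, ?_⟩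
  rintro _ ⟨z, hz, rfl⟩
  have hc : ContinuousAt (Function.invFunOn g V) (g z) := by
    unfold ContinuousAt
    rw [hl hz, ← hmap z hz, tendsto_map'_iff]
    have : (Function.invFunOn g V ∘ g) =ᶠ[𝓝 z] id := by
      filter_upwards [hV.mem_nhds hz] with y hy
      exact hl hy
    exact tendsto_id.congr' this.symm
  have hd : HasDerivAt (Function.invFunOn g V) (deriv g z)⁻¹ (g z) := by
    refine HasDerivAt.of_local_left_inverse (f := g) hc ?_ (wdc1_deriv_ne hV hg hinj hz) ?_
    · rw [hl hz]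
      exact (hg.differentiableAt (hV.mem_nhds hz)).hasDerivAt
    · filter_upwards [hopen.mem_nhds (mem_image_of_mem g hz)] with y hy
      obtain ⟨x, hx, rfl⟩ := hy
      rw [hl hx]
  exact hd.differentiableAt.differentiableWithinAt

private theorem wdc1_smooth {V : Set ℂ} (hV : IsOpen V) {p : ℂ → ℂ} {K : Set ℂ}
    (hK : IsCompact K) (hKV : K ⊆ V) (h : ContDiffOn ℝ ∞ p V) (h0 : ∀ z ∉ K, p z = 0) :
    Test V p := by
  have hts : tsupport p ⊆ K := by
    refine closure_minimal ?_ hK.isClosed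
    intro z hz
    by_contra hzK
    exact hz (h0 z hzK)
  refine ⟨?_, ?_, hts.trans hKV⟩
  · rw [contDiff_iff_contDiffAt]
    intro z
    by_cases hz : z ∈ V
    · exact h.contDiffAt (hV.mem_nhds hz)
    · have hzK : z ∈ Kᶜ := fun h' => hz (hKV h')
      have : p =ᶠ[𝓝 z] fun _ => 0 := by
        filter_upwards [hK.isClosed.isOpen_compl.mem_nhds hzK] with y hy
        exact h0 y hy
      exact contDiffAt_const.congr_of_eventuallyEq this
  · exact HasCompactSupport.intro hK h0

private theorem wdc1_mul {V : Set ℂ} (hV : IsOpen V) {φ q : ℂ → ℂ} (hφ : Test V φ)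
    (hq : ContDiffOn ℝ ∞ q V) : Test V (fun z => φ z * q z) := by
  refine wdc1_smooth hV hφ.cpt hφ.sub (hφ.smooth.contDiffOn.mul hq) ?_
  intro z hz
  rw [image_eq_zero_of_notMem_tsupport hz, zero_mul]

private theorem wdc1_push {V : Set ℂ} (hV : IsOpen V) {g G : ℂ → ℂ}
    (hg : DifferentiableOn ℂ g V) (hG : ∀ z ∈ V, G (g z) = z) (ho : IsOpen (g '' V))
    (hGd : DifferentiableOn ℂ G (g '' V)) {p : ℂ → ℂ} (hp : Test V p) :
    ∃ ψ : ℂ → ℂ, Test (g '' V) ψ ∧ (∀ z ∈ V, ψ (g z) = p z) ∧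
      ∀ z ∈ V, dz ψ (g z) * deriv g z = dz p z ∧ dzb ψ (g z) * conj (deriv g z) = dzb p z := by
  set ψ : ℂ → ℂ := (g '' V).indicator (fun ζ => p (G ζ)) with hψ
  have e : ∀ z ∈ V, ψ (g z) = p z := by
    intro z hz
    rw [hψ, indicator_of_mem (mem_image_of_mem g hz), hG z hz]
  have hT : Test (g '' V) ψ := by
    refine wdc1_smooth ho (K := g '' tsupport p) ?_ (image_mono hp.sub) ?_ ?_
    · exact hp.cpt.image_of_continuousOn (hg.continuousOn.mono hp.sub)
    · have h1 : ContDiffOn ℝ ∞ G (g '' V) := (hGd.contDiffOn ho).restrict_scalars ℝ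
      have h2 : ContDiffOn ℝ ∞ (fun ζ => p (G ζ)) (g '' V) := hp.smooth.comp_contDiffOn h1
      refine h2.congr ?_
      intro ζ hζ
      rw [hψ, indicator_of_mem hζ]
    · intro ζ hζ
      rw [hψ]
      by_cases hm : ζ ∈ g '' V
      · obtain ⟨z, hz, rfl⟩ := hm
        rw [indicator_of_mem (mem_image_of_mem g hz), hG z hz]
        apply image_eq_zero_of_notMem_tsupport
        intro h'
        exact hζ (mem_image_of_mem g h')
      · exact indicator_of_notMem hm _
  refine ⟨ψ, hT, e, ?_⟩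
  intro z hz
  have hgz : DifferentiableAt ℂ g z := hg.differentiableAt (hV.mem_nhds hz)
  have hψd : DifferentiableAt ℝ ψ (g z) := hT.smooth.differentiable (by simp) _
  have h1 := dz_comp (f := ψ) (g := g) (z := z) hψd (hgz.restrictScalars ℝ)
  have h2 := dz_of_holo hgz
  have h3 : (fun z => ψ (g z)) =ᶠ[𝓝 z] p := by
    filter_upwards [hV.mem_nhds hz] with y hy
    exact e y hy
  have h4 : dz (fun z => ψ (g z)) z = dz p z ∧ dzb (fun z => ψ (g z)) z = dzb p z := by
    unfold dz dzb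
    rw [h3.fderiv_eq]
    exact ⟨rfl, rfl⟩
  rw [h4.1, h4.2, h2.1, h2.2] at h1
  simp only [mul_zero, map_zero, add_zero, zero_add] at h1
  exact ⟨h1.1.symm, h1.2.symm⟩

private theorem wdc1_det {V : Set ℂ} (hV : IsOpen V) {g : ℂ → ℂ}
    (hg : DifferentiableOn ℂ g V) {z : ℂ} (hz : z ∈ V) :
    |(fderiv ℝ g z).det| = ‖deriv g z‖ ^ 2 := by
  have h := dz_of_holo (hg.differentiableAt (hV.mem_nhds hz))
  rw [det_fderiv, h.1, h.2]
  simp

private theorem wdc1_fd {V : Set ℂ} (hV : IsOpen V) {g : ℂ → ℂ}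
    (hg : DifferentiableOn ℂ g V) {s : Set ℂ} {z : ℂ} (hz : z ∈ V) :
    HasFDerivWithinAt g (fderiv ℝ g z) s z :=
  ((hg.differentiableAt (hV.mem_nhds hz)).restrictScalars ℝ).hasFDerivAt.hasFDerivWithinAt

private theorem wdc1_cov {V : Set ℂ} (hV : IsOpen V) {g : ℂ → ℂ}
    (hg : DifferentiableOn ℂ g V) (hinj : InjOn g V) {H : ℂ → ℂ} (hH : ∀ ζ ∉ g '' V, H ζ = 0) :
    ∫ ζ, H ζ = ∫ z in V, (‖deriv g z‖ ^ 2 : ℝ) • H (g z) := by
  rw [← setIntegral_eq_integral_of_forall_compl_eq_zero hH,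
    integral_image_eq_integral_abs_det_fderiv_smul volume hV.measurableSet
      (fun z hz => wdc1_fd hV hg hz) hinj]
  refine setIntegral_congr_fun hV.measurableSet ?_
  intro z hz
  simp only [wdc1_det hV hg hz]

private theorem wdc1_main {V : Set ℂ} (hV : IsOpen V) {g G : ℂ → ℂ}
    (hg : DifferentiableOn ℂ g V) (hinj : InjOn g V) (hG : ∀ z ∈ V, G (g z) = z)
    (ho : IsOpen (g '' V))
    (hGd : DifferentiableOn ℂ G (g '' V)) {f a b : ℂ → ℂ} (h : WD (g '' V) f a b) {φ : ℂ → ℂ}
    (hφ : Test V φ) :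
    ∫ z, f (g z) * dz φ z = - ∫ z, a (g z) * deriv g z * φ z ∧
    ∫ z, f (g z) * dzb φ z = - ∫ z, b (g z) * conj (deriv g z) * φ z := by
  have hne : ∀ z ∈ V, deriv g z ≠ 0 := fun z hz => wdc1_deriv_ne hV hg hinj hz
  set q : ℂ → ℂ := fun z => (deriv g z)⁻¹ with hq
  have hqd : DifferentiableOn ℂ q V := (hg.deriv hV).inv hne
  have hqs : ContDiffOn ℝ ∞ q V := (hqd.contDiffOn hV).restrict_scalars ℝ
  have hcq : ContDiffOn ℝ ∞ (fun z => conj (q z)) V :=
    (Complex.conjCLE : ℂ →L[ℝ] ℂ).contDiff.comp_contDiffOn hqs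
  have hqz : ∀ z ∈ V, dzb q z = 0 := fun z hz =>
    (dz_of_holo (hqd.differentiableAt (hV.mem_nhds hz))).2
  have hout : ∀ {ψ : ℂ → ℂ}, Test (g '' V) ψ → ∀ ζ ∉ g '' V, ψ ζ = 0 := by
    intro ψ hψ ζ hζ
    exact image_eq_zero_of_notMem_tsupport fun h' => hζ (hψ.sub h')
  have houtV : ∀ {φ : ℂ → ℂ}, Test V φ → ∀ z ∉ V, φ z = 0 := by
    intro φ hφ z hz
    exact image_eq_zero_of_notMem_tsupport fun h' => hz (hφ.sub h')
  constructor
  · obtain ⟨ψ, hT, he, hd⟩ := wdc1_push hV hg hG ho hGd (wdc1_mul hV hφ hcq)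
    have hpd : ∀ z ∈ V, dz (fun z => φ z * conj (q z)) z = dz φ z * conj (q z) := by
      intro z hz
      have h1 := (dz_mul (f := φ) (g := fun z => conj (q z)) (z := z)
        (hφ.smooth.differentiable (by simp) z)
        ((hcq.contDiffAt (hV.mem_nhds hz)).differentiableAt (by simp))).1
      rw [h1, (dz_conj q z).1, hqz z hz]
      simp
    have e1 := h.da ψ hT
    rw [wdc1_cov hV hg hinj (H := fun ζ => f ζ * dz ψ ζ) (by
        intro ζ hζ; simp [hout hT.dz.1 ζ hζ]),
      wdc1_cov hV hg hinj (H := fun ζ => a ζ * ψ ζ) (by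
        intro ζ hζ; simp [hout hT ζ hζ])] at e1
    have e2 : ∫ z in V, (‖deriv g z‖ ^ 2 : ℝ) • (f (g z) * dz ψ (g z))
        = ∫ z in V, f (g z) * dz φ z := by
      refine setIntegral_congr_fun hV.measurableSet ?_
      intro z hz
      have h2 := (hd z hz).1
      rw [hpd z hz] at h2
      have h3 : dz ψ (g z) = dz φ z * conj (q z) * q z := by
        rw [← h2, mul_assoc, hq]
        simp only
        rw [mul_inv_cancel₀ (hne z hz), mul_one]
      have h4 : ((‖deriv g z‖ ^ 2 : ℝ) : ℂ) * (conj (q z) * q z) = 1 := by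
        have h5 : ((‖deriv g z‖ ^ 2 : ℝ) : ℂ) = conj (deriv g z) * deriv g z := by
          rw [Complex.conj_mul']
          push_cast
          rfl
        rw [h5, hq]
        simp only [map_inv₀]
        have h6 : conj (deriv g z) ≠ 0 := by
          simpa using hne z hz
        have h7 := hne z hz
        field_simp
      simp only [Complex.real_smul, h3]
      linear_combination (f (g z) * dz φ z) * h4
    have e3 : ∫ z in V, (‖deriv g z‖ ^ 2 : ℝ) • (a (g z) * ψ (g z))
        = ∫ z in V, a (g z) * deriv g z * φ z := by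
      refine setIntegral_congr_fun hV.measurableSet ?_
      intro z hz
      have h5 : ((‖deriv g z‖ ^ 2 : ℝ) : ℂ) = conj (deriv g z) * deriv g z := by
        rw [Complex.conj_mul']
        push_cast
        rfl
      have h6 : conj (deriv g z) * conj (q z) = 1 := by
        rw [← map_mul, hq]
        simp only
        rw [mul_inv_cancel₀ (hne z hz), map_one]
      simp only [Complex.real_smul, he z hz, h5]
      linear_combination (a (g z) * deriv g z * φ z) * h6
    rw [e2, e3] at e1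
    rwa [setIntegral_eq_integral_of_forall_compl_eq_zero (by
        intro z hz; simp [houtV hφ.dz.1 z hz]),
      setIntegral_eq_integral_of_forall_compl_eq_zero (by
        intro z hz; simp [houtV hφ z hz])] at e1
  · obtain ⟨ψ, hT, he, hd⟩ := wdc1_push hV hg hG ho hGd (wdc1_mul hV hφ hqs)
    have hpd : ∀ z ∈ V, dzb (fun z => φ z * q z) z = dzb φ z * q z := by
      intro z hz
      have h1 := (dz_mul (f := φ) (g := q) (z := z)
        (hφ.smooth.differentiable (by simp) z)
        ((hqs.contDiffAt (hV.mem_nhds hz)).differentiableAt (by simp))).2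
      rw [h1, hqz z hz]
      simp
    have e1 := h.db ψ hT
    rw [wdc1_cov hV hg hinj (H := fun ζ => f ζ * dzb ψ ζ) (by
        intro ζ hζ; simp [hout hT.dz.2 ζ hζ]),
      wdc1_cov hV hg hinj (H := fun ζ => b ζ * ψ ζ) (by
        intro ζ hζ; simp [hout hT ζ hζ])] at e1
    have e2 : ∫ z in V, (‖deriv g z‖ ^ 2 : ℝ) • (f (g z) * dzb ψ (g z))
        = ∫ z in V, f (g z) * dzb φ z := by
      refine setIntegral_congr_fun hV.measurableSet ?_
      intro z hz
      have h2 := (hd z hz).2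
      rw [hpd z hz] at h2
      have h6 : conj (deriv g z) * conj (q z) = 1 := by
        rw [← map_mul, hq]
        simp only
        rw [mul_inv_cancel₀ (hne z hz), map_one]
      have h3 : dzb ψ (g z) = dzb φ z * q z * conj (q z) := by
        rw [← h2]
        linear_combination - (dzb ψ (g z)) * h6
      have h4 : ((‖deriv g z‖ ^ 2 : ℝ) : ℂ) * (q z * conj (q z)) = 1 := by
        have h5 : ((‖deriv g z‖ ^ 2 : ℝ) : ℂ) = conj (deriv g z) * deriv g z := by
          rw [Complex.conj_mul']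
          push_cast
          rfl
        have h7 : deriv g z * q z = 1 := by
          rw [hq]
          simp only
          rw [mul_inv_cancel₀ (hne z hz)]
        rw [h5]
        linear_combination h6 * (deriv g z * q z) + h7
      simp only [Complex.real_smul, h3]
      linear_combination (f (g z) * dzb φ z) * h4
    have e3 : ∫ z in V, (‖deriv g z‖ ^ 2 : ℝ) • (b (g z) * ψ (g z))
        = ∫ z in V, b (g z) * conj (deriv g z) * φ z := by
      refine setIntegral_congr_fun hV.measurableSet ?_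
      intro z hz
      have h5 : ((‖deriv g z‖ ^ 2 : ℝ) : ℂ) = conj (deriv g z) * deriv g z := by
        rw [Complex.conj_mul']
        push_cast
        rfl
      have h7 : deriv g z * q z = 1 := by
        rw [hq]
        simp only
        rw [mul_inv_cancel₀ (hne z hz)]
      simp only [Complex.real_smul, he z hz, h5]
      linear_combination (b (g z) * conj (deriv g z) * φ z) * h7
    rw [e2, e3] at e1
    rwa [setIntegral_eq_integral_of_forall_compl_eq_zero (by
        intro z hz; simp [houtV hφ.dz.2 z hz]),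
      setIntegral_eq_integral_of_forall_compl_eq_zero (by
        intro z hz; simp [houtV hφ z hz])] at e1

private theorem wdc1_intK {V : Set ℂ} (hV : IsOpen V) {g : ℂ → ℂ}
    (hg : DifferentiableOn ℂ g V) (hinj : InjOn g V) {K : Set ℂ} (hK : IsCompact K)
    (hKV : K ⊆ V) {E : Type*} [NormedAddCommGroup E] [NormedSpace ℝ E] {F : ℂ → E}
    (hF : IntegrableOn F (g '' K)) :
    IntegrableOn (fun z => (‖deriv g z‖ ^ 2 : ℝ) • F (g z)) K := by
  have h1 := (integrableOn_image_iff_integrableOn_abs_det_fderiv_smul volume hK.measurableSet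
    (fun z hz => wdc1_fd hV hg (hKV hz)) (hinj.mono hKV) F).1 hF
  refine h1.congr_fun ?_ hK.measurableSet
  intro z hz
  simp only [wdc1_det hV hg (hKV hz)]

private theorem wdc1_intK' {V : Set ℂ} (hV : IsOpen V) {g : ℂ → ℂ}
    (hg : DifferentiableOn ℂ g V) (hinj : InjOn g V) {K : Set ℂ} (hK : IsCompact K)
    (hKV : K ⊆ V) {F : ℂ → ℂ} (hF : IntegrableOn F (g '' K)) :
    IntegrableOn (fun z => F (g z)) K := by
  have h1 := wdc1_intK hV hg hinj hK hKV hF
  have hc : ContinuousOn (fun z => (((‖deriv g z‖ ^ 2)⁻¹ : ℝ) : ℂ)) K := by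
    have h2 : ContinuousOn (deriv g) K := ((hg.deriv hV).continuousOn).mono hKV
    refine Complex.continuous_ofReal.comp_continuousOn ((h2.norm.pow 2).inv₀ ?_)
    intro z hz
    exact pow_ne_zero 2 (norm_ne_zero_iff.2 (wdc1_deriv_ne hV hg hinj (hKV hz)))
  have h3 := h1.mul_continuousOn hc hK
  refine h3.congr_fun ?_ hK.measurableSet
  intro z hz
  have h4 : ‖deriv g z‖ ≠ 0 := norm_ne_zero_iff.2 (wdc1_deriv_ne hV hg hinj (hKV hz))
  have h5 : (‖deriv g z‖ : ℂ) ≠ 0 := by exact_mod_cast h4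
  simp only [Complex.real_smul]
  push_cast
  field_simp

private theorem wdc1_L2 {U V : Set ℂ} (hV : IsOpen V) {g : ℂ → ℂ}
    (hg : DifferentiableOn ℂ g V) (hinj : InjOn g V) (hm : MapsTo g V U) {a u : ℂ → ℂ}
    (ha : L2loc U a) (hu : ContinuousOn u V) (hun : ∀ z, ‖u z‖ = ‖deriv g z‖) :
    L2loc V (fun z => a (g z) * u z) := by
  intro K hKV hK
  have hgK : IsCompact (g '' K) := hK.image_of_continuousOn (hg.continuousOn.mono hKV)
  have hgU : g '' K ⊆ U := by
    rintro _ ⟨z, hz, rfl⟩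
    exact hm (hKV hz)
  have hL := ha _ hgU hgK
  have hfin : IsFiniteMeasure (volume.restrict (g '' K)) := ⟨by simpa using hgK.measure_lt_top⟩
  have hI : IntegrableOn a (g '' K) := hL.integrable (by norm_num)
  have h1 := wdc1_intK' hV hg hinj hK hKV hI
  have hm2 : AEStronglyMeasurable (fun z => a (g z) * u z) (volume.restrict K) :=
    h1.aestronglyMeasurable.mul ((hu.mono hKV).aestronglyMeasurable hK.measurableSet)
  rw [memLp_two_iff_integrable_sq_norm hm2]
  have h2 := wdc1_intK hV hg hinj hK hKV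
    ((memLp_two_iff_integrable_sq_norm hL.aestronglyMeasurable).1 hL)
  refine h2.congr (Eventually.of_forall fun z => ?_)
  simp only [norm_mul, hun z, smul_eq_mul]
  ring

theorem WD.comp_holo {U V : Set ℂ} (hU : IsOpen U) (hV : IsOpen V) {g : ℂ → ℂ}
    (hg : DifferentiableOn ℂ g V) (hinj : InjOn g V) (hm : MapsTo g V U) {f a b : ℂ → ℂ}
    (h : WD U f a b) :
    WD V (fun z => f (g z)) (fun z => a (g z) * deriv g z)
      (fun z => b (g z) * conj (deriv g z)) := by
  obtain ⟨G, hG, ho, hGd⟩ := wdc1_inv hV hg hinj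
  have hsub : g '' V ⊆ U := by
    rintro _ ⟨z, hz, rfl⟩
    exact hm hz
  have h' : WD (g '' V) f a b := by
    refine ⟨h.lif.mono_set hsub, fun K hK => h.la K (hK.trans hsub),
      fun K hK => h.lb K (hK.trans hsub), ?_, ?_⟩
    · intro φ hφ
      exact h.da φ ⟨hφ.smooth, hφ.cpt, hφ.sub.trans hsub⟩
    · intro φ hφ
      exact h.db φ ⟨hφ.smooth, hφ.cpt, hφ.sub.trans hsub⟩
  have hdc : ContinuousOn (deriv g) V := (hg.deriv hV).continuousOn
  refine ⟨?_, ?_, ?_, ?_, ?_⟩
  · rw [locallyIntegrableOn_iff hV.isLocallyClosed]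
    intro K hKV hK
    refine wdc1_intK' hV hg hinj hK hKV ?_
    refine (locallyIntegrableOn_iff ho.isLocallyClosed).1 h'.lif _ (image_mono hKV) ?_
    exact hK.image_of_continuousOn (hg.continuousOn.mono hKV)
  · exact wdc1_L2 hV hg hinj hm h.la hdc fun _ => rfl
  · refine wdc1_L2 hV hg hinj hm h.lb (Complex.continuous_conj.comp_continuousOn hdc) ?_
    intro z
    simp
  · intro φ hφ
    exact (wdc1_main hV hg hinj hG ho hGd h' hφ).1
  · intro φ hφ
    exact (wdc1_main hV hg hinj hG ho hGd h' hφ).2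

end QC
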